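import Mathlib

set_option autoImplicit false

/-! Checkers for explicit cores: the definitions. -/

namespace Pool.Agent.Wil

/-- `∏_{d < n} f d` by recursion. -/
def prodC (f : ℕ → ℕ) : ℕ → ℕ
  | 0 => 1
  | n + 1 => prodC f n * f n

/-- `∑_{d < n} f d` by recursion. -/
def sumC (f : ℕ → ℕ) : ℕ → ℕ
  | 0 => 0
  | n + 1 => sumC f n + f n

/-- `∏_{a ≤ d < a + n} f d` by binary splitting, if `n ≤ 2 ^ fuel`. -/
def prodB (f : ℕ → ℕ) : ℕ → ℕ → ℕ → ℕ
  | 0, a, n => if n = 0 then 1 else f a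
  | fuel + 1, a, n => if n = 0 then 1 else if n = 1 then f a else
      prodB f fuel a (n / 2) * prodB f fuel (a + n / 2) (n - n / 2)

/-- Product of the hook lengths of the core with runner heights `m`. -/
def hkC (p : ℕ) (m : List ℕ) : ℕ :=
  prodC (fun i => prodC (fun j => prodB (fun d =>
    if j < i ∨ 0 < d then (d * p + i - j) ^ (m.getD i 0 - m.getD j 0 - d) else 1)
      (m.getD i 0 - m.getD j 0) 0 (m.getD i 0 - m.getD j 0)) p) p

/-- Size of the core with runner heights `m`. -/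
def szC (p : ℕ) (m : List ℕ) : ℕ :=
  sumC (fun i => sumC (fun j => sumC (fun d =>
    if j < i ∨ 0 < d then (m.getD i 0 - m.getD j 0 - d) else 0)
      (m.getD i 0 - m.getD j 0)) p) p

/-- `(a + 1) (a + 2) ... (a + n)` by binary splitting, if `n ≤ 2 ^ fuel`. -/
def fpC : ℕ → ℕ → ℕ → ℕ
  | 0, a, n => if n = 0 then 1 else a + 1
  | fuel + 1, a, n => if n = 0 then 1 else if n = 1 then a + 1 else
      fpC fuel a (n / 2) * fpC fuel (a + n / 2) (n - n / 2)

/-- Legendre's sum `n / p + n / p² + ...`. -/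
def legC (p : ℕ) : ℕ → ℕ → ℕ
  | 0, _ => 0
  | fuel + 1, n => n / p + legC p fuel (n / p)

/-- Check for one core (runner heights `m`, size `n`), degrees `n ≤ N ≤ n + s`. -/
def chkC (p C : ℕ) (m : List ℕ) (n s : ℕ) : Bool :=
  (szC p m == n) &&
    Nat.ble (C * fpC 20 n s * hkC p m ^ 2) (fpC 20 0 n * fpC 20 0 s * p ^ legC p 20 n)

/-- Cruder check for one core (`n! ≥ (n / e) ^ n`, `N! n ^ n s ^ s ≤ N ^ N n! s!`), for large `n`. -/
def chkS (p C : ℕ) (m : List ℕ) (n s : ℕ) : Bool :=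
  (szC p m == n) &&
    Nat.ble (C * (n + s) ^ (n + s) * hkC p m ^ 2 * 27182818286 ^ n)
      ((n * 10000000000) ^ n * n ^ n * s ^ s * p ^ legC p 20 n)

/-- Check for several cores of the same size `n`, degree `N`. -/
def mchkC (p C B n N : ℕ) (ms : List (List ℕ)) : Bool :=
  ms.all (fun m => (szC p m == n) && (sumC (fun i => m.getD i 0) p == B) && (m.length == p)) &&
    decide ms.Nodup && Nat.ble n N &&
    Nat.ble (fpC 20 0 N) (C * (ms.map (fun m => (fpC 20 0 n / hkC p m) ^ 2)).sum * p ^ legC p 20 N)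

/-- Constants for the exceptional degrees. -/
def Cf (p n : ℕ) : ℕ :=
  if p = 3 then (if n = 5 then 2 else if n = 7 then 4 else if n = 13 then 2 else if n = 19 then 2
    else if n = 29 then 6 else 1)
  else if p = 5 then (if n = 9 then 2 else 1) else 1

/-- Monotone majorant of `Cf`. -/
def Cs (p s : ℕ) : ℕ :=
  if p = 3 then (if s < 5 then 1 else if s < 7 then 2 else if s < 29 then 4 else 6)
  else if p = 5 then (if s < 9 then 1 else 2) else 1

/-- All entries of the list pass the check. -/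
def allC (p : ℕ) (L : List (List ℕ × ℕ × ℕ)) : Bool :=
  L.all (fun x => Nat.ble 1 x.2.1 && Nat.ble x.2.1 (2 ^ 20) && Nat.ble x.2.2 (2 ^ 20) &&
    cond (Nat.ble x.2.1 300) (chkC p (Cs p x.2.2) x.1 x.2.1 x.2.2)
      (chkS p (Cs p x.2.2) x.1 x.2.1 x.2.2))

/-- The windows of the list cover `cur, ..., e - 1`. -/
def covC : ℕ → List (List ℕ × ℕ × ℕ) → ℕ → Bool
  | cur, [], e => Nat.ble e cur
  | cur, x :: L, e => Nat.ble 1 x.2.1 && Nat.ble x.2.1 cur && covC (max cur (x.2.1 + x.2.2 + 1)) L e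

end Pool.Agent.Wil
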