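import Mathlib
import Pool.Agent.Wil.ChkD

set_option autoImplicit false

/-! Checks with logarithms for large explicit cores: the definitions. -/

namespace Pool.Agent.Wil

/-- The integral part of `4096 * log2 x`. -/
def lgA (x : ℕ) : ℕ := Nat.log2 (x ^ 4096)

/-- Size of the core with runner heights `m`, closed form. -/
def szA (p : ℕ) (m : List ℕ) : ℕ :=
  sumC (fun i => sumC (fun j =>
    if j < i then (m.getD i 0 - m.getD j 0) * (m.getD i 0 - m.getD j 0 + 1) / 2
    else (m.getD i 0 - m.getD j 0) * (m.getD i 0 - m.getD j 0 - 1) / 2) p) p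

/-- The effective difference of two runners. -/
def eA (i j D : ℕ) : ℕ := if j < i ∧ 0 < D then D + 1 else D

/-- Sum of `F (eA i j (m i - m j))` over all pairs. -/
def pairA (p : ℕ) (m : List ℕ) (F : ℕ → ℕ) : ℕ :=
  sumC (fun i => sumC (fun j => F (eA i j (m.getD i 0 - m.getD j 0))) p) p

/-- Check with logarithms for one core (heights `m`, size `n`), degrees `n ≤ N ≤ n + s`. -/
def chkA (p : ℕ) (m : List ℕ) (n s : ℕ) : Bool :=
  (szA p m == n) && Nat.ble 1 n && Nat.ble 1 s &&
    Nat.ble
      (20000000000 * ((n + s) * (lgA (n + s) + 1) + pairA p m (fun E => E ^ 2 - E) * (lgA p + 1) +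
          pairA p m (fun E => E ^ 2 * (lgA E + 1))) +
        (4 * pairA p m (fun E => E) + 2 * n) * 4096 * 14426950415)
      (20000000000 * (2 * n * lgA n + s * lgA s + legC p 20 n * lgA p) +
        3 * pairA p m (fun E => E ^ 2) * 4096 * 14426950403)

/-- All entries of the list pass one of the checks. -/
def allA (p : ℕ) (L : List (List ℕ × ℕ × ℕ)) : Bool :=
  L.all (fun x => Nat.ble 1 x.2.1 &&
    cond (Nat.ble x.2.1 300) (chkC p 1 x.1 x.2.1 x.2.2 && Nat.ble x.2.2 300)
      (cond (Nat.ble x.2.1 30000) (chkS p 1 x.1 x.2.1 x.2.2) (chkA p x.1 x.2.1 x.2.2)))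

end Pool.Agent.Wil
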