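import Mathlib

set_option autoImplicit false

namespace Pool.Agent.Wil

open MonoidAlgebra
open scoped commutatorElement

/-- The dimension of `k[G] / J(k[G])` over `k`. -/
noncomputable def ssDim (k G : Type) [Field k] [Group G] : ℕ :=
  Module.finrank k (MonoidAlgebra k G ⧸ (Ring.jacobson (MonoidAlgebra k G)).restrictScalars k)

section lin
variable {k V : Type} [Field k] [AddCommGroup V] [Module k V] [Module.Finite k V]

lemma exists_span (U : Submodule k V) :
    ∃ v : Fin (Module.finrank k (V ⧸ U)) → V, Submodule.span k (Set.range v) ⊔ U = ⊤ := by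
  classical
  let b := Module.finBasis k (V ⧸ U)
  choose v hv using fun i => Submodule.mkQ_surjective U (b i)
  refine ⟨v, ?_⟩
  have h1 : Submodule.map U.mkQ (Submodule.span k (Set.range v)) = ⊤ := by
    rw [Submodule.map_span, ← Set.range_comp]
    have : (U.mkQ ∘ v) = b := funext hv
    rw [this, b.span_eq]
  have h2 : Submodule.comap U.mkQ (Submodule.map U.mkQ (Submodule.span k (Set.range v))) = ⊤ := by
    rw [h1, Submodule.comap_top]
  rw [Submodule.comap_map_eq, Submodule.ker_mkQ] at h2
  exact h2

omit [Module.Finite k V] in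
lemma finrank_le_of_span {ι : Type} [Fintype ι] (U : Submodule k V) (v : ι → V)
    (h : Submodule.span k (Set.range v) ⊔ U = ⊤) :
    Module.finrank k (V ⧸ U) ≤ Fintype.card ι := by
  have h1 : Submodule.map U.mkQ (Submodule.span k (Set.range v) ⊔ U) = ⊤ := by
    rw [h, Submodule.map_top, Submodule.range_mkQ]
  rw [Submodule.map_sup, Submodule.mkQ_map_self, sup_bot_eq, Submodule.map_span,
    ← Set.range_comp] at h1
  have h2 := finrank_range_le_card (R := k) (U.mkQ ∘ v)
  rw [Set.finrank, h1, finrank_top] at h2
  exact h2

end lin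

section jac
variable {A : Type} [Ring A]

lemma nil_le_jacobson (I : Ideal A) (h : ∀ x ∈ I, IsNilpotent x) : I ≤ Ring.jacobson A := by
  rw [Ring.jacobson_eq_sInf_isMaximal]
  refine le_sInf ?_
  intro m hm x hx
  have hm' : m.IsMaximal := hm
  by_contra hxm
  have h1 : m ⊔ I = ⊤ := by
    refine hm'.1.2 _ (lt_of_le_of_ne le_sup_left ?_)
    intro he
    exact hxm (he ▸ (le_sup_right : I ≤ m ⊔ I) hx)
  have h2 : (1 : A) ∈ m ⊔ I := by rw [h1]; trivial
  obtain ⟨y, hy, i, hi, hyi⟩ := Submodule.mem_sup.1 h2
  have h3 : IsUnit (1 - i) := (h i hi).isUnit_one_sub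
  have h4 : y = 1 - i := by rw [← hyi]; abel
  rw [← h4] at h3
  exact hm'.ne_top (Ideal.eq_top_of_isUnit_mem _ hy h3)

lemma nilpotent_of_mem_jacobson [IsArtinianRing A] {x : A} (hx : x ∈ Ring.jacobson A) :
    IsNilpotent x := by
  obtain ⟨n, hn⟩ := IsArtinianRing.isNilpotent_jacobson_bot (R := A)
  rw [Ideal.jacobson_bot] at hn
  refine ⟨n, ?_⟩
  have := Ideal.pow_mem_pow hx n
  rw [hn] at this
  simpa using this

end jac


section grp
variable {k : Type} [Field k]

instance instFiniteMA (G : Type) [Group G] [Finite G] : Module.Finite k (MonoidAlgebra k G) :=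
  Module.Finite.of_basis (MonoidAlgebra.basis G k)

instance instArt (G : Type) [Group G] [Finite G] : IsArtinianRing (MonoidAlgebra k G) :=
  IsArtinianRing.of_finite k _

/-- The algebra map of group algebras induced by a group homomorphism. -/
noncomputable abbrev ind {G H : Type} [Group G] [Group H] (f : G →* H) :
    MonoidAlgebra k G →ₐ[k] MonoidAlgebra k H := MonoidAlgebra.mapDomainAlgHom k k f

lemma ind_injective {G H : Type} [Group G] [Group H] (f : G →* H) (hf : Function.Injective f) :
    Function.Injective (ind (k := k) f) := by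
  exact MonoidAlgebra.mapDomain_injective hf

lemma ind_surjective {G H : Type} [Group G] [Group H] (f : G →* H) (hf : Function.Surjective f) :
    Function.Surjective (ind (k := k) f) := by
  intro y
  induction y using MonoidAlgebra.induction_linear with
  | zero => exact ⟨0, map_zero _⟩
  | add a b ha hb =>
    obtain ⟨x, hx⟩ := ha
    obtain ⟨y, hy⟩ := hb
    exact ⟨x + y, by rw [map_add, hx, hy]⟩
  | single m a =>
    obtain ⟨g, rfl⟩ := hf m
    exact ⟨single g a, by simp [ind]⟩

lemma ssDim_le_of_injective {G H : Type} [Group G] [Group H] [Finite G] [Finite H] (f : H →* G)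
    (hf : Function.Injective f) : ssDim k H ≤ ssDim k G := by
  set F := ind (k := k) f with hF
  have hinj : Function.Injective F := ind_injective f hf
  have hle : Ideal.comap F.toRingHom (Ring.jacobson (MonoidAlgebra k G)) ≤
      Ring.jacobson (MonoidAlgebra k H) := by
    apply nil_le_jacobson
    intro x hx
    obtain ⟨n, hn⟩ := nilpotent_of_mem_jacobson (Ideal.mem_comap.1 hx)
    refine ⟨n, hinj ?_⟩
    rw [map_pow, map_zero]
    exact hn
  set U := (Ring.jacobson (MonoidAlgebra k G)).restrictScalars k
  set U' := (Ring.jacobson (MonoidAlgebra k H)).restrictScalars k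
  have hle' : Submodule.comap F.toLinearMap U ≤ U' := fun x hx => hle hx
  have h1 : Module.finrank k (MonoidAlgebra k H ⧸ U') ≤
      Module.finrank k (MonoidAlgebra k H ⧸ Submodule.comap F.toLinearMap U) := by
    apply LinearMap.finrank_le_finrank_of_surjective (f := Submodule.factor hle')
    exact Submodule.factor_surjective hle'
  have h2 : Module.finrank k (MonoidAlgebra k H ⧸ Submodule.comap F.toLinearMap U) ≤
      Module.finrank k (MonoidAlgebra k G ⧸ U) := by
    apply LinearMap.finrank_le_finrank_of_injective
      (f := Submodule.mapQ (Submodule.comap F.toLinearMap U) U F.toLinearMap le_rfl)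
    rw [← LinearMap.ker_eq_bot, Submodule.ker_mapQ]
    rw [Submodule.mkQ_map_self]
  exact h1.trans h2

lemma ssDim_le_of_surjective {G H : Type} [Group G] [Group H] [Finite G] [Finite H] (f : G →* H)
    (hf : Function.Surjective f) : ssDim k H ≤ ssDim k G := by
  set F := ind (k := k) f with hF
  have hsur : Function.Surjective F := ind_surjective f hf
  have : RingHomSurjective (F.toRingHom) := ⟨hsur⟩
  have hle : Ring.jacobson (MonoidAlgebra k G) ≤
      Ideal.comap F.toRingHom (Ring.jacobson (MonoidAlgebra k H)) := Ring.le_comap_jacobson F.toRingHom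
  set U := (Ring.jacobson (MonoidAlgebra k G)).restrictScalars k
  set U' := (Ring.jacobson (MonoidAlgebra k H)).restrictScalars k
  have hle' : U ≤ Submodule.comap F.toLinearMap U' := fun x hx => hle hx
  apply LinearMap.finrank_le_finrank_of_surjective (f := Submodule.mapQ U U' F.toLinearMap hle')
  intro y
  obtain ⟨y, rfl⟩ := Submodule.mkQ_surjective _ y
  obtain ⟨x, rfl⟩ := hsur y
  exact ⟨Submodule.mkQ _ x, rfl⟩


/-- conjugation by `x` on the group algebra of a normal subgroup -/
noncomputable def conjN {X : Type} [Group X] (N : Subgroup X) [N.Normal] (x : X) :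
    MonoidAlgebra k N ≃ₐ[k] MonoidAlgebra k N :=
  MonoidAlgebra.domCongr k k (MulAut.conjNormal x)

lemma conjN_mem {X : Type} [Group X] (N : Subgroup X) [N.Normal] (x : X)
    (a : MonoidAlgebra k N) (ha : a ∈ Ring.jacobson (MonoidAlgebra k N)) :
    conjN N x a ∈ Ring.jacobson (MonoidAlgebra k N) := by
  have : RingHomSurjective ((conjN (k := k) N x).toRingEquiv : MonoidAlgebra k N →+* MonoidAlgebra k N) :=
    ⟨(conjN (k := k) N x).surjective⟩
  exact Ring.le_comap_jacobson
    ((conjN (k := k) N x).toRingEquiv : MonoidAlgebra k N →+* MonoidAlgebra k N) ha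

lemma ind_mul_single {X : Type} [Group X] (N : Subgroup X) [N.Normal] (x : X)
    (a : MonoidAlgebra k N) (c : k) :
    ind (k := k) N.subtype a * single x c = single x c * ind (k := k) N.subtype (conjN N x⁻¹ a) := by
  induction a using MonoidAlgebra.induction_linear with
  | zero => simp
  | add a b ha hb => simp only [map_add, add_mul, mul_add, ha, hb]
  | single m r =>
    simp only [ind, conjN, MonoidAlgebra.mapDomainAlgHom_apply, MonoidAlgebra.domCongr_single,
      MonoidAlgebra.mapDomain_single, MonoidAlgebra.single_mul_single, MulAut.conjNormal_apply,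
      Subgroup.subtype_apply]
    congr 1
    · group
    · ring

/-- The span of `single g 1 * ι y`, `y ∈ J^n`. -/
noncomputable def PP {X : Type} [Group X] (N : Subgroup X) (n : ℕ) :
    Submodule k (MonoidAlgebra k X) :=
  Submodule.span k {z | ∃ (g : X) (y : MonoidAlgebra k N), y ∈ (Ring.jacobson (MonoidAlgebra k N)) ^ n ∧
    z = single g 1 * ind (k := k) N.subtype y}

lemma PP_step {X : Type} [Group X] (N : Subgroup X) [N.Normal] (n : ℕ)
    (i : MonoidAlgebra k X)
    (hi : i ∈ Ideal.span ((ind (k := k) N.subtype) '' (Ring.jacobson (MonoidAlgebra k N) : Set _)))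
    (u : MonoidAlgebra k X) (hu : u ∈ PP (k := k) N n) : i * u ∈ PP (k := k) N (n + 1) := by
  -- multiplication by an element of `k[X]` preserves `PP (n+1)`
  have hmul : ∀ (m : ℕ) (a z : MonoidAlgebra k X), z ∈ PP (k := k) N m → a * z ∈ PP (k := k) N m := by
    intro m a z hz
    induction hz using Submodule.span_induction with
    | mem z hz =>
      obtain ⟨g, y, hy, rfl⟩ := hz
      induction a using MonoidAlgebra.induction_linear with
      | zero => rw [zero_mul]; exact Submodule.zero_mem _
      | add a b ha hb => rw [add_mul]; exact Submodule.add_mem _ ha hb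
      | single h c =>
        have : single h c * (single g 1 * ind (k := k) N.subtype y) =
            c • (single (h * g) 1 * ind (k := k) N.subtype y) := by
          rw [← mul_assoc, MonoidAlgebra.single_mul_single, ← smul_mul_assoc,
            MonoidAlgebra.smul_single, mul_one, smul_eq_mul, mul_one]
        rw [this]
        exact Submodule.smul_mem _ _ (Submodule.subset_span ⟨_, y, hy, rfl⟩)
    | zero => rw [mul_zero]; exact Submodule.zero_mem _
    | add x y _ _ hx hy => rw [mul_add]; exact Submodule.add_mem _ hx hy
    | smul c x _ hx => rw [mul_smul_comm]; exact Submodule.smul_mem _ _ hx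
  induction hi using Submodule.span_induction with
  | zero => rw [zero_mul]; exact Submodule.zero_mem _
  | add x y _ _ hx hy => rw [add_mul]; exact Submodule.add_mem _ hx hy
  | smul c x _ hx => rw [smul_eq_mul, mul_assoc]; exact hmul _ _ _ hx
  | mem i hi =>
    obtain ⟨x, hx, rfl⟩ := hi
    induction hu using Submodule.span_induction with
    | zero => rw [mul_zero]; exact Submodule.zero_mem _
    | add x y _ _ hx hy => rw [mul_add]; exact Submodule.add_mem _ hx hy
    | smul c x _ hx => rw [mul_smul_comm]; exact Submodule.smul_mem _ _ hx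
    | mem z hz =>
      obtain ⟨g, y, hy, rfl⟩ := hz
      rw [← mul_assoc, ind_mul_single, mul_assoc, ← map_mul]
      refine Submodule.subset_span ⟨g, _, ?_, rfl⟩
      rw [Ideal.IsTwoSided.pow_succ]
      exact Ideal.mul_mem_mul (conjN_mem N _ x hx) hy

lemma ind_jacobson_mem {X : Type} [Group X] [Finite X] (N : Subgroup X) [N.Normal]
    (x : MonoidAlgebra k N) (hx : x ∈ Ring.jacobson (MonoidAlgebra k N)) :
    ind (k := k) N.subtype x ∈ Ring.jacobson (MonoidAlgebra k X) := by
  have h := nil_le_jacobson
    (Ideal.span ((ind (k := k) N.subtype) '' (Ring.jacobson (MonoidAlgebra k N) : Set _))) ?_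
  · exact h (Ideal.subset_span ⟨x, hx, rfl⟩)
  · intro i hi
    obtain ⟨n, hn⟩ := IsArtinianRing.isNilpotent_jacobson_bot (R := MonoidAlgebra k N)
    rw [Ideal.jacobson_bot] at hn
    refine ⟨n, ?_⟩
    have key : ∀ m : ℕ, i ^ m ∈ PP (k := k) N m := by
      intro m
      induction m with
      | zero =>
        rw [pow_zero]
        refine Submodule.subset_span ⟨1, 1, ?_, ?_⟩
        · rw [Submodule.pow_zero, Ideal.one_eq_top]; trivial
        · rw [map_one, mul_one]; rfl
      | succ m ih =>
        rw [pow_succ']
        exact PP_step N m i hi _ ih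
    have h1 := key n
    have h2 : PP (k := k) N n = ⊥ := by
      rw [PP, Submodule.span_eq_bot]
      rintro z ⟨g, y, hy, rfl⟩
      rw [hn] at hy
      have : y = 0 := by simpa using hy
      rw [this, map_zero, mul_zero]
    rw [h2] at h1
    simpa using h1

lemma ssDim_le_index {X : Type} [Group X] [Finite X] (N : Subgroup X) [N.Normal] :
    ssDim k X ≤ N.index * ssDim k N := by
  classical
  obtain ⟨v, hv⟩ := exists_span ((Ring.jacobson (MonoidAlgebra k N)).restrictScalars k)
  have : Fintype (X ⧸ N) := Fintype.ofFinite _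
  let w : (X ⧸ N) × Fin (ssDim k N) → MonoidAlgebra k X :=
    fun p => single p.1.out 1 * ind (k := k) N.subtype (v p.2)
  have h := finrank_le_of_span ((Ring.jacobson (MonoidAlgebra k X)).restrictScalars k) w ?_
  · rw [Fintype.card_prod, Fintype.card_fin] at h
    rw [Subgroup.index, Nat.card_eq_fintype_card]
    exact h
  · rw [eq_top_iff]
    intro a _
    set T := Submodule.span k (Set.range w) ⊔ (Ring.jacobson (MonoidAlgebra k X)).restrictScalars k
    -- first: `single g 1 * ι b ∈ T` for a representative `g`
    have h1 : ∀ (c : X ⧸ N) (b : MonoidAlgebra k N), single c.out 1 * ind (k := k) N.subtype b ∈ T := by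
      intro c b
      have hb : b ∈ Submodule.span k (Set.range v) ⊔
          (Ring.jacobson (MonoidAlgebra k N)).restrictScalars k := by rw [hv]; trivial
      obtain ⟨y, hy, z, hz, rfl⟩ := Submodule.mem_sup.1 hb
      rw [map_add, mul_add]
      clear hb
      refine Submodule.add_mem _ ?_ ?_
      · refine Submodule.mem_sup_left ?_
        induction hy using Submodule.span_induction with
        | mem y hy =>
          obtain ⟨j, rfl⟩ := hy
          exact Submodule.subset_span ⟨(c, j), rfl⟩
        | zero => rw [map_zero, mul_zero]; exact Submodule.zero_mem _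
        | add x y _ _ hx hy => rw [map_add, mul_add]; exact Submodule.add_mem _ hx hy
        | smul r x _ hx => rw [map_smul, mul_smul_comm]; exact Submodule.smul_mem _ _ hx
      · refine Submodule.mem_sup_right ?_
        exact Ideal.mul_mem_left _ _ (ind_jacobson_mem N z hz)
    induction a using MonoidAlgebra.induction_linear with
    | zero => exact Submodule.zero_mem _
    | add a b ha hb => exact Submodule.add_mem _ (ha trivial) (hb trivial)
    | single g r =>
      have hg : (QuotientGroup.mk g : X ⧸ N).out⁻¹ * g ∈ N := by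
        rw [← QuotientGroup.eq]
        exact QuotientGroup.out_eq' _
      have := h1 (QuotientGroup.mk g) (single ⟨_, hg⟩ r)
      rw [ind, MonoidAlgebra.mapDomainAlgHom_apply, MonoidAlgebra.mapDomain_single,
        MonoidAlgebra.single_mul_single] at this
      simpa using this



end grp

/-- The `p'`-part of a natural number. -/
def pPrimePart (p n : ℕ) : ℕ := n / p ^ n.factorization p

lemma pPrimePart_mul (p a b : ℕ) : pPrimePart p (a * b) = pPrimePart p a * pPrimePart p b :=
  Nat.ordCompl_mul a b p

lemma pPrimePart_le (p n : ℕ) : pPrimePart p n ≤ n := Nat.div_le_self _ _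

lemma pPrimePart_pos (p : ℕ) {n : ℕ} (hn : n ≠ 0) : 1 ≤ pPrimePart p n :=
  Nat.ordCompl_pos p hn

end Pool.Agent.Wil
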