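import Mathlib
import Pool.Agent.Wil.Basic

set_option autoImplicit false

/-! Page A (trace of nilpotents) and page B (norm one lemma). -/

namespace Pool.Agent.Wil

open MonoidAlgebra

/-- The permutation character. -/
noncomputable def fixc {G Ω : Type} [Group G] (ρ : G →* Equiv.Perm Ω) (g : G) : ℕ :=
  Nat.card {w : Ω // ρ g w = w}

/-- `χ` is an integer combination of permutation characters. -/
def Virt {G : Type} [Group G] (χ : G → ℤ) : Prop :=
  ∃ (I : Type) (_ : Fintype I) (Ω : I → Type) (_ : ∀ i, Finite (Ω i))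
    (ρ : ∀ i, G →* Equiv.Perm (Ω i)) (c : I → ℤ), ∀ g, χ g = ∑ i, c i * (fixc (ρ i) g : ℤ)

-- BEGIN perm_rep
/-- PROOF. `MonoidAlgebra.lift` of the monoid homomorphism `g ↦` permutation matrix with entry
`(w, w')` equal to one iff `ρ g w' = w` (for instance `(ρ g).toPEquiv.toMatrix` transposed, or `LinearMap.funLeft`;
or `Matrix.of fun w w' => if ρ g w' = w then 1 else 0`); its trace is the number of fixed points.
Extend linearly (`MonoidAlgebra.lift_apply`, `Finsupp.sum_fintype`). -/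
theorem perm_rep {k G Ω : Type} [Field k] [Group G] [Fintype G] [Fintype Ω] [DecidableEq Ω]
    (ρ : G →* Equiv.Perm Ω) :
    ∃ F : MonoidAlgebra k G →ₐ[k] Matrix Ω Ω k,
      ∀ a, (F a).trace = ∑ g, a.coeff g * ((fixc ρ g : ℕ) : k) := by
  classical
  let P : G →* Matrix Ω Ω k :=
    { toFun := fun g => Matrix.of fun w w' => if ρ g w' = w then (1 : k) else 0
      map_one' := by
        ext w w'
        rw [Matrix.of_apply, map_one, Equiv.Perm.one_apply, Matrix.one_apply]
        by_cases h : w' = w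
        · rw [if_pos h, if_pos h.symm]
        · rw [if_neg h, if_neg fun h' => h h'.symm]
      map_mul' := by
        intro g h
        ext w w'
        rw [Matrix.mul_apply, Matrix.of_apply, map_mul, Equiv.Perm.mul_apply,
          Finset.sum_eq_single (ρ h w')]
        · rw [Matrix.of_apply, Matrix.of_apply, if_pos (rfl : ρ h w' = ρ h w'), mul_one]
        · intro v _ hv
          rw [Matrix.of_apply, Matrix.of_apply,
            if_neg (show ¬ ρ h w' = v from fun h' => hv h'.symm), mul_zero]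
        · intro h'
          exact absurd (Finset.mem_univ _) h' }
  have hP : ∀ g, (P g).trace = ((fixc ρ g : ℕ) : k) := by
    intro g
    have h1 : (P g).trace = ∑ w : Ω, if ρ g w = w then (1 : k) else 0 := rfl
    rw [h1, Finset.sum_boole, fixc, Nat.card_eq_fintype_card, Fintype.card_subtype]
  refine ⟨MonoidAlgebra.lift k (Matrix Ω Ω k) G P, fun a => ?_⟩
  rw [MonoidAlgebra.lift_apply, Finsupp.sum_fintype _ _ (fun g => by rw [zero_smul]),
    Matrix.trace_sum]
  refine Finset.sum_congr rfl fun g _ => ?_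
  rw [Matrix.trace_smul, hP, smul_eq_mul]
-- END perm_rep

-- BEGIN virt_nil
/-- PROOF. `perm_rep`: `F a` is nilpotent, so its trace is nilpotent (`Matrix.isNilpotent_trace_of_isNilpotent`),
so zero in the field `k`; sum over `i` with the coefficients `c i`. -/
theorem virt_nil {k G : Type} [Field k] [Group G] [Fintype G] (χ : G → ℤ) (hχ : Virt χ)
    (a : MonoidAlgebra k G) (ha : IsNilpotent a) : ∑ g, a.coeff g * ((χ g : ℤ) : k) = 0 := by
  classical
  obtain ⟨I, _, Ω, hΩ, ρ, c, hc⟩ := hχ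
  have h1 : ∀ i, ∑ g, a.coeff g * ((fixc (ρ i) g : ℕ) : k) = 0 := by
    intro i
    have := hΩ i
    have := Fintype.ofFinite (Ω i)
    obtain ⟨F, hF⟩ := perm_rep (k := k) (ρ i)
    rw [← hF a]
    have h2 : IsNilpotent (F a) := ha.map F
    exact (Matrix.isNilpotent_trace_of_isNilpotent h2).eq_zero
  calc ∑ g, a.coeff g * ((χ g : ℤ) : k)
      = ∑ g, ∑ i, (c i : k) * (a.coeff g * ((fixc (ρ i) g : ℕ) : k)) := by
        refine Finset.sum_congr rfl fun g _ => ?_
        rw [hc g]
        push_cast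
        rw [Finset.mul_sum]
        exact Finset.sum_congr rfl fun i _ => by ring
    _ = 0 := by
        rw [Finset.sum_comm]
        refine Finset.sum_eq_zero fun i _ => ?_
        rw [← Finset.mul_sum, h1, mul_zero]
-- END virt_nil

-- BEGIN virt_idem
/-- PROOF. `perm_rep` over `ℂ`: `F e` is an idempotent matrix, its trace is its rank, a natural number; combine with
the integers `c i`. -/
theorem virt_idem {G : Type} [Group G] [Fintype G] (χ : G → ℤ) (hχ : Virt χ)
    (e : MonoidAlgebra ℂ G) (he : e * e = e) :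
    ∃ m : ℤ, ∑ g, e.coeff g * ((χ g : ℤ) : ℂ) = (m : ℂ) := by
  classical
  obtain ⟨I, _, Ω, hΩ, ρ, c, hc⟩ := hχ
  have h1 : ∀ i, ∃ m : ℕ, ∑ g, e.coeff g * ((fixc (ρ i) g : ℕ) : ℂ) = (m : ℂ) := by
    intro i
    have := hΩ i
    have := Fintype.ofFinite (Ω i)
    obtain ⟨F, hF⟩ := perm_rep (k := ℂ) (ρ i)
    have h2 : F e * F e = F e := by rw [← map_mul, he]
    have h3 : IsIdempotentElem (Matrix.toLin' (F e)) := by
      show Matrix.toLin' (F e) * Matrix.toLin' (F e) = Matrix.toLin' (F e)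
      rw [Module.End.mul_eq_comp, ← Matrix.toLin'_mul, h2]
    have h4 := (LinearMap.IsIdempotentElem.isProj_range _ h3).trace
    rw [Matrix.trace_toLin'_eq] at h4
    exact ⟨_, (hF e).symm.trans h4⟩
  choose m hm using h1
  refine ⟨∑ i, c i * m i, ?_⟩
  push_cast
  have h2 : ∀ g, e.coeff g * ((χ g : ℤ) : ℂ) =
      ∑ i, (c i : ℂ) * (e.coeff g * ((fixc (ρ i) g : ℕ) : ℂ)) := by
    intro g
    rw [hc g]
    push_cast
    rw [Finset.mul_sum]
    exact Finset.sum_congr rfl fun i _ => by ring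
  rw [Finset.sum_congr rfl fun g _ => h2 g, Finset.sum_comm]
  refine Finset.sum_congr rfl fun i _ => ?_
  rw [← Finset.mul_sum, hm i]
-- END virt_idem

-- BEGIN fixc_conj
/-- PROOF. `w ↦ ρ h w` is a bijection between the fixed points of `ρ (g * h)` and those of `ρ (h * g)`. -/
theorem fixc_conj {G Ω : Type} [Group G] (ρ : G →* Equiv.Perm Ω) (g h : G) :
    fixc ρ (g * h) = fixc ρ (h * g) := by
  refine Nat.card_congr ((ρ h).subtypeEquiv fun w => ?_)
  rw [map_mul, map_mul, Equiv.Perm.mul_apply, Equiv.Perm.mul_apply]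
  exact (ρ h).injective.eq_iff.symm

theorem virt_conj {G : Type} [Group G] (χ : G → ℤ) (hχ : Virt χ) (g h : G) :
    χ (g * h) = χ (h * g) := by
  obtain ⟨I, _, Ω, _, ρ, c, hc⟩ := hχ
  rw [hc, hc]
  exact Finset.sum_congr rfl fun i _ => by rw [fixc_conj]
-- END fixc_conj

-- BEGIN functional_comm
/-- For a class function the functional `a ↦ ∑ a g χ g` is a trace. PROOF. Both sides are bilinear in `a, b`
(`MonoidAlgebra.induction_linear` twice), for `single`s it is `hχ`. -/
theorem functional_comm {G : Type} [Group G] [Fintype G] (χ : G → ℤ)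
    (hχ : ∀ g h, χ (g * h) = χ (h * g)) (a b : MonoidAlgebra ℂ G) :
    ∑ g, (a * b).coeff g * ((χ g : ℤ) : ℂ) = ∑ g, (b * a).coeff g * ((χ g : ℤ) : ℂ) := by
  classical
  induction a using MonoidAlgebra.induction_linear with
  | zero => simp
  | add a a' h h' =>
    simp only [add_mul, mul_add, coeff_add, Finsupp.add_apply, Finset.sum_add_distrib]
    rw [h, h']
  | single g c =>
    induction b using MonoidAlgebra.induction_linear with
    | zero => simp
    | add b b' h h' =>
      simp only [add_mul, mul_add, coeff_add, Finsupp.add_apply, Finset.sum_add_distrib]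
      rw [h, h']
    | single h d =>
      rw [single_mul_single, single_mul_single]
      simp only [coeff_single, Finsupp.single_apply, ite_mul, zero_mul, Finset.sum_ite_eq,
        Finset.mem_univ, if_true]
      rw [hχ g h, mul_comm c d]
-- END functional_comm

-- BEGIN wedderburn
/-- PROOF. Maschke (`MonoidAlgebra` is semisimple in characteristic zero) and
`IsSemisimpleRing.exists_algEquiv_pi_matrix_of_isAlgClosed`. -/
theorem wedderburn (G : Type) [Group G] [Finite G] :
    ∃ (N : ℕ) (d : Fin N → ℕ), (∀ i, 0 < d i) ∧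
      Nonempty (MonoidAlgebra ℂ G ≃ₐ[ℂ] Π i, Matrix (Fin (d i)) (Fin (d i)) ℂ) := by
  have : NeZero (Nat.card G : ℂ) := ⟨by exact_mod_cast Nat.card_pos.ne'⟩
  have : IsSemisimpleRing (MonoidAlgebra ℂ G) := inferInstance
  have : FiniteDimensional ℂ (MonoidAlgebra ℂ G) := instFiniteMA G
  obtain ⟨N, d, hd, he⟩ := IsSemisimpleRing.exists_algEquiv_pi_matrix_of_isAlgClosed ℂ
    (MonoidAlgebra ℂ G)
  exact ⟨N, d, fun i => Nat.pos_of_ne_zero (hd i).out, he⟩
-- END wedderburn

-- BEGIN trace_functional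
private theorem trace_functional_mat {n : ℕ} (hn : 0 < n)
    (σ : Matrix (Fin n) (Fin n) ℂ →ₗ[ℂ] ℂ) (hσ : ∀ x y, σ (x * y) = σ (y * x))
    (A : Matrix (Fin n) (Fin n) ℂ) :
    σ A = σ (Matrix.single ⟨0, hn⟩ ⟨0, hn⟩ 1) * A.trace := by
  classical
  have h1 : ∀ a b : Fin n, σ (Matrix.single a b (A a b)) =
      if a = b then A a b * σ (Matrix.single ⟨0, hn⟩ ⟨0, hn⟩ 1) else 0 := by
    intro a b
    have h2 : Matrix.single a b (A a b) = A a b • Matrix.single a b (1 : ℂ) := by
      rw [Matrix.smul_single, smul_eq_mul, mul_one]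
    rw [h2, map_smul, smul_eq_mul]
    by_cases hab : a = b
    · subst hab
      rw [if_pos rfl]
      have h3 : Matrix.single a a (1 : ℂ) = Matrix.single a ⟨0, hn⟩ 1 * Matrix.single ⟨0, hn⟩ a 1 := by
        rw [Matrix.single_mul_single_same, mul_one]
      rw [h3, hσ, Matrix.single_mul_single_same, mul_one]
    · rw [if_neg hab]
      have h3 : Matrix.single a b (1 : ℂ) = Matrix.single a a 1 * Matrix.single a b 1 := by
        rw [Matrix.single_mul_single_same, mul_one]
      rw [h3, hσ, Matrix.single_mul_single_of_ne (h := fun h => hab h.symm), map_zero, mul_zero]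
  conv_lhs => rw [Matrix.matrix_eq_sum_single A]
  rw [map_sum]
  simp only [map_sum, h1, Finset.sum_ite_eq, Finset.mem_univ, if_true]
  rw [← Finset.sum_mul, mul_comm]
  rfl

/-- PROOF. Write `x = ∑ i, ∑ a b, x i a b • Pi.single i (Matrix.single a b 1)`. For `a ≠ b`:
`single a b = single a b * single b b`, and `single b b * single a b = 0`, so `τ = 0`; and
`τ (single a a) = τ (single a 0 * single 0 a) = τ (single 0 0)`. -/
theorem trace_functional {N : ℕ} (d : Fin N → ℕ) (hd : ∀ i, 0 < d i)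
    (τ : (Π i, Matrix (Fin (d i)) (Fin (d i)) ℂ) →ₗ[ℂ] ℂ) (hτ : ∀ x y, τ (x * y) = τ (y * x))
    (x : Π i, Matrix (Fin (d i)) (Fin (d i)) ℂ) :
    τ x = ∑ i, τ (Pi.single i (Matrix.single ⟨0, hd i⟩ ⟨0, hd i⟩ 1)) * (x i).trace := by
  classical
  conv_lhs => rw [← Finset.univ_sum_single x]
  rw [map_sum]
  refine Finset.sum_congr rfl fun i _ => ?_
  have h1 := trace_functional_mat (hd i)
    (τ ∘ₗ LinearMap.single ℂ (fun i => Matrix (Fin (d i)) (Fin (d i)) ℂ) i) (fun A B => by
      rw [LinearMap.comp_apply, LinearMap.comp_apply, LinearMap.single_apply,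
        LinearMap.single_apply, Pi.single_mul, Pi.single_mul, hτ]) (x i)
  rwa [LinearMap.comp_apply, LinearMap.comp_apply, LinearMap.single_apply,
    LinearMap.single_apply] at h1
-- END trace_functional

-- BEGIN trace_mulLeft_pi
/-- PROOF. By `trace_functional` applied to `τ x = LinearMap.trace (mulLeft x)` (`LinearMap.trace_mul_comm`)
it is enough to treat `x = Pi.single i (Matrix.single 0 0 1)`: an idempotent whose left multiplication has range of
dimension `d i`; or directly by computing in the basis `Pi.single i (Matrix.single a b 1)`; or use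
`Matrix` = `d` copies of the column module. -/
theorem trace_mulLeft_pi {N : ℕ} (d : Fin N → ℕ) (hd : ∀ i, 0 < d i)
    (x : Π i, Matrix (Fin (d i)) (Fin (d i)) ℂ) :
    LinearMap.trace ℂ (Π i, Matrix (Fin (d i)) (Fin (d i)) ℂ) (LinearMap.mulLeft ℂ x) =
      ∑ i, (d i : ℂ) * (x i).trace := by
  classical
  let τ : (Π i, Matrix (Fin (d i)) (Fin (d i)) ℂ) →ₗ[ℂ] ℂ :=
    (LinearMap.trace ℂ (Π i, Matrix (Fin (d i)) (Fin (d i)) ℂ)) ∘ₗ
      (LinearMap.mul ℂ (Π i, Matrix (Fin (d i)) (Fin (d i)) ℂ))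
  have hτ0 : ∀ x, τ x = LinearMap.trace ℂ (Π i, Matrix (Fin (d i)) (Fin (d i)) ℂ)
      (LinearMap.mulLeft ℂ x) := fun x => rfl
  have hτ : ∀ x y, τ (x * y) = τ (y * x) := by
    intro x y
    rw [hτ0, hτ0, LinearMap.mulLeft_mul, LinearMap.mulLeft_mul]
    exact LinearMap.trace_mul_comm ℂ _ _
  have h1 := trace_functional d hd τ hτ
  have h2 : ∀ i, τ (Pi.single i (Matrix.single ⟨0, hd i⟩ ⟨0, hd i⟩ 1)) = (d i : ℂ) := by
    intro i
    have h3 : τ (Pi.single i 1) = (d i : ℂ) * (d i : ℂ) := by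
      rw [hτ0]
      have h4 : LinearMap.mulLeft ℂ (Pi.single i (1 : Matrix (Fin (d i)) (Fin (d i)) ℂ) :
          Π i, Matrix (Fin (d i)) (Fin (d i)) ℂ) =
          (LinearMap.single ℂ (fun i => Matrix (Fin (d i)) (Fin (d i)) ℂ) i) ∘ₗ
            (LinearMap.proj i) := by
        apply LinearMap.ext
        intro y
        rw [LinearMap.mulLeft_apply, LinearMap.comp_apply, LinearMap.proj_apply,
          LinearMap.single_apply]
        funext j
        by_cases hj : j = i
        · subst hj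
          rw [Pi.mul_apply, Pi.single_eq_same, Pi.single_eq_same, one_mul]
        · rw [Pi.mul_apply, Pi.single_eq_of_ne hj, Pi.single_eq_of_ne hj, zero_mul]
      rw [h4, LinearMap.trace_comp_comm']
      have h5 : (LinearMap.proj i : (Π i, Matrix (Fin (d i)) (Fin (d i)) ℂ) →ₗ[ℂ] _) ∘ₗ
          (LinearMap.single ℂ (fun i => Matrix (Fin (d i)) (Fin (d i)) ℂ) i) =
          LinearMap.id := by
        apply LinearMap.ext
        intro y
        rw [LinearMap.comp_apply, LinearMap.proj_apply, LinearMap.single_apply,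
          Pi.single_eq_same, LinearMap.id_apply]
      rw [h5, LinearMap.trace_id, Module.finrank_matrix]
      simp
    have h4 := h1 (Pi.single i 1)
    rw [Finset.sum_eq_single i] at h4
    · rw [Pi.single_eq_same, Matrix.trace_one, Fintype.card_fin, h3] at h4
      have h5 : (d i : ℂ) ≠ 0 := by
        exact_mod_cast (hd i).ne'
      exact (mul_right_cancel₀ h5 h4).symm
    · intro j _ hj
      rw [Pi.single_eq_of_ne hj, Matrix.trace_zero, mul_zero]
    · intro h
      exact absurd (Finset.mem_univ _) h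
  rw [← hτ0, h1 x]
  exact Finset.sum_congr rfl fun i _ => by rw [h2]
-- END trace_mulLeft_pi

-- BEGIN trace_mulLeft_group
/-- PROOF. In the basis `single g 1` the diagonal entry of `mulLeft a` at `g` is
`(a * single g 1) g = a 1`. -/
theorem trace_mulLeft_group {G : Type} [Group G] [Fintype G] (a : MonoidAlgebra ℂ G) :
    LinearMap.trace ℂ (MonoidAlgebra ℂ G) (LinearMap.mulLeft ℂ a) = (Fintype.card G : ℂ) * a.coeff 1 := by
  classical
  rw [LinearMap.trace_eq_matrix_trace ℂ (MonoidAlgebra.basis G ℂ), Matrix.trace]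
  have h1 : ∀ g : G, (LinearMap.toMatrix (MonoidAlgebra.basis G ℂ) (MonoidAlgebra.basis G ℂ)
      (LinearMap.mulLeft ℂ a)).diag g = a.coeff 1 := by
    intro g
    rw [Matrix.diag_apply, LinearMap.toMatrix_apply, MonoidAlgebra.basis_apply,
      LinearMap.mulLeft_apply]
    have h2 : (MonoidAlgebra.basis G ℂ).repr (a * single g 1) g = (a * single g 1).coeff g := rfl
    rw [h2, coeff_mul_single_apply, mul_inv_cancel, mul_one]
  rw [Finset.sum_congr rfl fun g _ => h1 g, Finset.sum_const, Finset.card_univ, nsmul_eq_mul]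
-- END trace_mulLeft_group

-- BEGIN reg_trace
/-- PROOF. `LinearMap.trace_conj'` (or `LinearMap.trace_eq_of...`): `mulLeft (e a)` is the conjugate of `mulLeft a` by the linear equivalence
`e`; `trace_mulLeft_pi`, `trace_mulLeft_group`. -/
theorem reg_trace {G : Type} [Group G] [Fintype G] {N : ℕ} (d : Fin N → ℕ) (hd : ∀ i, 0 < d i)
    (e : MonoidAlgebra ℂ G ≃ₐ[ℂ] Π i, Matrix (Fin (d i)) (Fin (d i)) ℂ) (a : MonoidAlgebra ℂ G) :
    (Fintype.card G : ℂ) * a.coeff 1 = ∑ i, (d i : ℂ) * (e a i).trace := by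
  rw [← trace_mulLeft_group, ← trace_mulLeft_pi d hd (e a),
    ← LinearMap.trace_conj' (LinearMap.mulLeft ℂ a) e.toLinearEquiv]
  congr 1
  apply LinearMap.ext
  intro x
  rw [LinearEquiv.conj_apply_apply, LinearMap.mulLeft_apply, LinearMap.mulLeft_apply]
  change e (a * e.symm x) = e a * x
  rw [map_mul, AlgEquiv.apply_symm_apply]
-- END reg_trace

-- BEGIN virt_coeff
/-- PROOF. `τ y = ∑ g, (e.symm y) g * χ g` is linear with `τ (x * y) = τ (y * x)` (`virt_conj`,
`functional_comm`); `trace_functional`; `m i` from `virt_idem` for the idempotent `e.symm (Pi.single i (Matrix.single 0 0 1))`. -/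
theorem virt_coeff {G : Type} [Group G] [Fintype G] (χ : G → ℤ) (hχ : Virt χ) {N : ℕ}
    (d : Fin N → ℕ) (hd : ∀ i, 0 < d i)
    (e : MonoidAlgebra ℂ G ≃ₐ[ℂ] Π i, Matrix (Fin (d i)) (Fin (d i)) ℂ) :
    ∃ m : Fin N → ℤ, ∀ a : MonoidAlgebra ℂ G,
      ∑ g, a.coeff g * ((χ g : ℤ) : ℂ) = ∑ i, (m i : ℂ) * (e a i).trace := by
  set τ : (Π i, Matrix (Fin (d i)) (Fin (d i)) ℂ) →ₗ[ℂ] ℂ :=
    { toFun := fun y => ∑ g, (e.symm y).coeff g * ((χ g : ℤ) : ℂ)
      map_add' := by
        intro x y
        rw [map_add, ← Finset.sum_add_distrib]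
        refine Finset.sum_congr rfl fun g _ => ?_
        rw [MonoidAlgebra.coeff_add, Finsupp.add_apply, add_mul]
      map_smul' := by
        intro c x
        rw [map_smul, RingHom.id_apply, smul_eq_mul, Finset.mul_sum]
        refine Finset.sum_congr rfl fun g _ => ?_
        rw [MonoidAlgebra.coeff_smul_apply, smul_eq_mul, mul_assoc] } with hτdef
  have hτ : ∀ y, τ y = ∑ g, (e.symm y).coeff g * ((χ g : ℤ) : ℂ) := fun y => rfl
  have hcomm : ∀ x y, τ (x * y) = τ (y * x) := by
    intro x y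
    rw [hτ, hτ, map_mul, map_mul]
    exact functional_comm χ (virt_conj χ hχ) _ _
  have hm : ∀ i, ∃ m : ℤ,
      τ (Pi.single i (Matrix.single ⟨0, hd i⟩ ⟨0, hd i⟩ 1)) = (m : ℂ) := by
    intro i
    refine virt_idem χ hχ _ ?_
    rw [← map_mul, ← Pi.single_mul, Matrix.single_mul_single_same, mul_one]
  choose m hm' using hm
  refine ⟨m, fun a => ?_⟩
  have h1 := trace_functional d hd τ hcomm (e a)
  rw [hτ, AlgEquiv.symm_apply_apply] at h1
  rw [h1]
  exact Finset.sum_congr rfl fun i _ => by rw [hm' i]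
-- END virt_coeff

-- BEGIN b_scalar
private theorem b_scalar_one {G : Type} [Group G] [Fintype G] (χ : G → ℤ)
    (a : MonoidAlgebra ℂ G) :
    (a * ∑ g : G, single g ((χ g⁻¹ : ℤ) : ℂ)).coeff 1 = ∑ g, a.coeff g * ((χ g : ℤ) : ℂ) := by
  rw [Finset.mul_sum, MonoidAlgebra.coeff_sum, Finsupp.finset_sum_apply]
  rw [← Equiv.sum_comp (Equiv.inv G)]
  refine Finset.sum_congr rfl fun g _ => ?_
  rw [MonoidAlgebra.coeff_mul_single_apply, Equiv.inv_apply, inv_inv, one_mul]

/-- Here `b = ∑ g, χ(g⁻¹) g`. PROOF. For every `a`: `(a * b) 1 = ∑ g, a g * χ g`, so by `reg_trace`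
and `hm`: `∑ i, d i * trace (e a i * e b i) = card G * ∑ i, m i * trace (e a i)`. Take `e a = Pi.single i (Matrix.single u v 1)`:
`d i * (e b i) v u = card G * m i * δ u v`. -/
theorem b_scalar {G : Type} [Group G] [Fintype G] (χ : G → ℤ) {N : ℕ}
    (d : Fin N → ℕ) (hd : ∀ i, 0 < d i)
    (e : MonoidAlgebra ℂ G ≃ₐ[ℂ] Π i, Matrix (Fin (d i)) (Fin (d i)) ℂ) (m : Fin N → ℤ)
    (hm : ∀ a : MonoidAlgebra ℂ G, ∑ g, a.coeff g * ((χ g : ℤ) : ℂ) = ∑ i, (m i : ℂ) * (e a i).trace)
    (i : Fin N) :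
    (d i : ℂ) • e (∑ g : G, single g ((χ g⁻¹ : ℤ) : ℂ)) i =
      ((Fintype.card G : ℂ) * (m i : ℂ)) • (1 : Matrix (Fin (d i)) (Fin (d i)) ℂ) := by
  set b : MonoidAlgebra ℂ G := ∑ g : G, single g ((χ g⁻¹ : ℤ) : ℂ) with hb
  ext v u
  have h1 : ∀ a : MonoidAlgebra ℂ G, ∑ j, (d j : ℂ) * (e a j * e b j).trace =
      (Fintype.card G : ℂ) * ∑ j, (m j : ℂ) * (e a j).trace := by
    intro a
    have h2 := reg_trace d hd e (a * b)
    rw [hb, b_scalar_one, hm a] at h2
    rw [h2]
    refine Finset.sum_congr rfl fun j _ => ?_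
    rw [← hb, map_mul, Pi.mul_apply]
  have h2 := h1 (e.symm (Pi.single i (Matrix.single u v 1)))
  rw [AlgEquiv.apply_symm_apply, Finset.sum_eq_single i, Finset.sum_eq_single i,
    Pi.single_eq_same, Matrix.trace_single_mul, one_smul] at h2
  · rw [Matrix.smul_apply, Matrix.smul_apply, smul_eq_mul, smul_eq_mul, h2, Matrix.one_apply]
    by_cases huv : v = u
    · subst huv
      rw [Matrix.trace_single_eq_same, if_pos rfl]
      ring
    · rw [Matrix.trace_single_eq_of_ne _ _ _ (Ne.symm huv), if_neg huv]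
      ring
  · intro j _ hj
    rw [Pi.single_eq_of_ne hj, Matrix.trace_zero, mul_zero]
  · exact fun h => absurd (Finset.mem_univ i) h
  · intro j _ hj
    rw [Pi.single_eq_of_ne hj, zero_mul, Matrix.trace_zero, mul_zero]
  · exact fun h => absurd (Finset.mem_univ i) h
-- END b_scalar

-- BEGIN norm_one
/-- PROOF. `wedderburn`, `virt_coeff`, `b_scalar`. `hm` for `a = b` gives (trace of `b_scalar`)
`card G = ∑ g, χ(g⁻¹) χ(g) = ∑ i, m i * trace (e b i) = card G * ∑ (m i)²`, so `∑ (m i)² = 1`: one `m j = ±1`, the others `0`.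
`hm` for `a = 1`: `f = χ 1 = ∑ m i * d i = m j * d j > 0`, so `m j = 1`, `d j = f`. So `e b = H • (Pi.single j 1)`, `b * b = H • b`.
Compare the coefficients at `x⁻¹`: `(b * b) x⁻¹ = ∑ g, χ(g⁻¹) χ(x g) = ∑ g, χ g * χ (g⁻¹ x)`. -/
theorem norm_one {G : Type} [Group G] [Fintype G] (χ : G → ℤ) (hχ : Virt χ) (f H : ℕ)
    (hn : ∑ g, χ g * χ g⁻¹ = Fintype.card G) (h1 : χ 1 = f) (hf : 0 < f)
    (hfH : f * H = Fintype.card G) (x : G) : ∑ g, χ g * χ (g⁻¹ * x) = H * χ x := by
  classical
  obtain ⟨N, d, hd, ⟨e⟩⟩ := wedderburn G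
  obtain ⟨m, hm⟩ := virt_coeff χ hχ d hd e
  set b : MonoidAlgebra ℂ G := ∑ g : G, single g ((χ g⁻¹ : ℤ) : ℂ) with hb
  have hbc : ∀ g, b.coeff g = ((χ g⁻¹ : ℤ) : ℂ) := by
    intro g
    rw [hb, MonoidAlgebra.coeff_sum, Finsupp.finset_sum_apply, Finset.sum_eq_single g]
    · rw [MonoidAlgebra.coeff_single, Finsupp.single_eq_same]
    · intro y _ hy
      rw [MonoidAlgebra.coeff_single, Finsupp.single_eq_of_ne (Ne.symm hy)]
    · exact fun h => absurd (Finset.mem_univ g) h
  have hbs : ∀ i, (d i : ℂ) • e b i =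
      ((Fintype.card G : ℂ) * (m i : ℂ)) • (1 : Matrix (Fin (d i)) (Fin (d i)) ℂ) :=
    fun i => b_scalar χ d hd e m hm i
  have hG : (Fintype.card G : ℂ) ≠ 0 := by exact_mod_cast Fintype.card_ne_zero
  have hd0 : ∀ i, (d i : ℂ) ≠ 0 := fun i => by exact_mod_cast (hd i).ne'
  -- the traces
  have htr : ∀ i, (e b i).trace = (Fintype.card G : ℂ) * (m i : ℂ) := by
    intro i
    have h2 := congrArg Matrix.trace (hbs i)
    rw [Matrix.trace_smul, Matrix.trace_smul, Matrix.trace_one, Fintype.card_fin, smul_eq_mul,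
      smul_eq_mul] at h2
    have h3 : (d i : ℂ) * ((e b i).trace - (Fintype.card G : ℂ) * (m i : ℂ)) = 0 := by
      linear_combination h2
    rcases mul_eq_zero.1 h3 with h4 | h4
    · exact absurd h4 (hd0 i)
    · linear_combination h4
  have hsq : ∑ i, m i ^ 2 = 1 := by
    have h2 := hm b
    have h3 : ∑ g, b.coeff g * ((χ g : ℤ) : ℂ) = (Fintype.card G : ℂ) := by
      have h4 : ((∑ g, χ g * χ g⁻¹ : ℤ) : ℂ) = (Fintype.card G : ℂ) := by
        rw [hn]
        push_cast
        rfl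
      rw [← h4]
      push_cast
      refine Finset.sum_congr rfl fun g _ => ?_
      rw [hbc g]
      ring
    rw [h3, Finset.sum_congr rfl fun i _ => by rw [htr i]] at h2
    have h4 : (Fintype.card G : ℂ) * ((∑ i, m i ^ 2 : ℤ) : ℂ) = (Fintype.card G : ℂ) * 1 := by
      rw [mul_one]
      push_cast
      rw [Finset.mul_sum]
      conv_rhs => rw [h2]
      exact Finset.sum_congr rfl fun i _ => by ring
    exact_mod_cast mul_left_cancel₀ hG h4
  -- one coefficient
  have hj : ∃ j, m j ≠ 0 := by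
    by_contra hcon
    push Not at hcon
    rw [Finset.sum_eq_zero fun i _ => by rw [hcon i]; norm_num] at hsq
    exact absurd hsq (by norm_num)
  obtain ⟨j, hj⟩ := hj
  have hj1 : 1 ≤ m j ^ 2 := by
    have := pow_pos (abs_pos.2 hj) 2
    rw [sq_abs] at this
    omega
  have hsplit := Finset.add_sum_erase Finset.univ (fun i => m i ^ 2) (Finset.mem_univ j)
  have hrest : 0 ≤ ∑ i ∈ Finset.univ.erase j, m i ^ 2 :=
    Finset.sum_nonneg fun i _ => sq_nonneg _
  have hz : ∀ i, i ≠ j → m i = 0 := by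
    intro i hi
    have h2 := (Finset.sum_eq_zero_iff_of_nonneg
      (fun i _ => sq_nonneg (m i)) (s := Finset.univ.erase j)).1 (by
        beta_reduce at hsplit
        linarith) i (Finset.mem_erase.2 ⟨hi, Finset.mem_univ i⟩)
    exact pow_eq_zero_iff (two_ne_zero) |>.1 h2
  have hmj : m j ^ 2 = 1 := by
    beta_reduce at hsplit
    linarith
  -- the value at the identity
  have hf1 : (f : ℤ) = m j * d j := by
    have h2 := hm 1
    have h3 : ∑ g, (1 : MonoidAlgebra ℂ G).coeff g * ((χ g : ℤ) : ℂ) = ((χ 1 : ℤ) : ℂ) := by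
      rw [Finset.sum_eq_single 1]
      · rw [MonoidAlgebra.coeff_one_one, one_mul]
      · intro g _ hg
        rw [MonoidAlgebra.one_def, MonoidAlgebra.coeff_single, Finsupp.single_eq_of_ne hg,
          zero_mul]
      · exact fun h => absurd (Finset.mem_univ _) h
    rw [h3, h1, Finset.sum_eq_single j] at h2
    · rw [map_one, Pi.one_apply, Matrix.trace_one, Fintype.card_fin] at h2
      exact_mod_cast h2
    · intro i _ hi
      rw [hz i hi, Int.cast_zero, zero_mul]
    · exact fun h => absurd (Finset.mem_univ _) h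
  have hmj1 : m j = 1 := by
    have h3 : (m j - 1) * (m j + 1) = 0 := by linear_combination hmj
    rcases mul_eq_zero.1 h3 with h2 | h2
    · linarith
    · exfalso
      have h4 : m j = -1 := by linarith
      rw [h4] at hf1
      have := hd j
      omega
  have hdf : d j = f := by
    rw [hmj1, one_mul] at hf1
    exact_mod_cast hf1.symm
  -- `b * b = H • b`
  have heb : ∀ i, e b i * e b i = (H : ℂ) • e b i := by
    intro i
    by_cases hi : i = j
    · subst hi
      have h2 : e b i = (H : ℂ) • 1 := by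
        have h3 := hbs i
        have hdc : (d i : ℂ) = (f : ℂ) := by rw [hdf]
        rw [hmj1, Int.cast_one, mul_one, ← hfH, hdc] at h3
        have h4 : (f : ℂ) ≠ 0 := by exact_mod_cast hf.ne'
        have h5 : (f : ℂ) • e b i = (f : ℂ) • ((H : ℂ) • (1 : Matrix (Fin (d i)) (Fin (d i)) ℂ)) := by
          rw [h3, smul_smul]
          push_cast
          rfl
        exact smul_right_injective _ h4 h5
      rw [h2, smul_mul_smul_comm, smul_smul, mul_one]
    · have h2 : e b i = 0 := by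
        have h3 := hbs i
        rw [hz i hi, Int.cast_zero, mul_zero, zero_smul] at h3
        exact (smul_eq_zero.1 h3).resolve_left (hd0 i)
      rw [h2, mul_zero, smul_zero]
  have hbb : b * b = (H : ℂ) • b := by
    apply e.injective
    rw [map_mul, map_smul]
    funext i
    rw [Pi.mul_apply, Pi.smul_apply]
    exact heb i
  -- the coefficient at `x⁻¹`
  have h2 := congrArg (fun a : MonoidAlgebra ℂ G => a.coeff x⁻¹) hbb
  beta_reduce at h2
  rw [MonoidAlgebra.coeff_smul_apply, hbc, inv_inv, smul_eq_mul] at h2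
  have h3 : (b * b).coeff x⁻¹ = ∑ g, ((χ g⁻¹ : ℤ) : ℂ) * ((χ (x * g) : ℤ) : ℂ) := by
    conv_lhs => rw [hb]
    rw [Finset.sum_mul, MonoidAlgebra.coeff_sum, Finsupp.finset_sum_apply]
    refine Finset.sum_congr rfl fun g _ => ?_
    rw [MonoidAlgebra.coeff_single_mul_apply, ← hb, hbc, mul_inv_rev, inv_inv, inv_inv]
  rw [h3] at h2
  have h4 : ((∑ g, χ g * χ (g⁻¹ * x) : ℤ) : ℂ) = ((H * χ x : ℤ) : ℂ) := by
    push_cast
    rw [← h2, ← Equiv.sum_comp (Equiv.inv G)]
    refine Finset.sum_congr rfl fun g _ => ?_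
    rw [Equiv.inv_apply, inv_inv, virt_conj χ hχ g x]
  exact_mod_cast h4
-- END norm_one

end Pool.Agent.Wil
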