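import Mathlib
import Pool.Agent.Wil.Char

set_option autoImplicit false

/-! Page C1: words and their counts. -/

namespace Pool.Agent.Wil

/-- Number of occurrences of `b` in the word `w`. -/
def cnt {n : ℕ} {B : Type} [DecidableEq B] (w : Fin n → B) (b : B) : ℕ :=
  (Finset.univ.filter (fun i => w i = b)).card

-- BEGIN sum_cnt
/-- PROOF. `Finset.card_eq_sum_card_fiberwise`. -/
theorem sum_cnt {n : ℕ} {B : Type} [Fintype B] [DecidableEq B] (w : Fin n → B) :
    ∑ b, cnt w b = n := by
  have h := Finset.card_eq_sum_card_fiberwise (f := w) (s := Finset.univ) (t := Finset.univ)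
    (fun i _ => Finset.mem_coe.2 (Finset.mem_univ _))
  rw [Finset.card_univ, Fintype.card_fin] at h
  exact h.symm

/-- Words in a product alphabet: PROOF. `Finset.card_eq_sum_card_fiberwise` again. -/
theorem cnt_fst {n r : ℕ} (w : Fin n → Fin r × Fin r) (i : Fin r) :
    cnt (fun a => (w a).1) i = ∑ j, cnt w (i, j) := by
  unfold cnt
  rw [Finset.card_eq_sum_card_fiberwise (f := fun a => (w a).2) (t := Finset.univ)
    (fun i _ => Finset.mem_coe.2 (Finset.mem_univ _))]
  refine Finset.sum_congr rfl fun j _ => ?_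
  rw [Finset.filter_filter]
  congr 1
  ext a
  simp [Prod.ext_iff]

theorem cnt_snd {n r : ℕ} (w : Fin n → Fin r × Fin r) (j : Fin r) :
    cnt (fun a => (w a).2) j = ∑ i, cnt w (i, j) := by
  unfold cnt
  rw [Finset.card_eq_sum_card_fiberwise (f := fun a => (w a).1) (t := Finset.univ)
    (fun i _ => Finset.mem_coe.2 (Finset.mem_univ _))]
  refine Finset.sum_congr rfl fun i _ => ?_
  rw [Finset.filter_filter]
  congr 1
  ext a
  simp [Prod.ext_iff, and_comm]
-- END sum_cnt

-- BEGIN stab_count
/-- PROOF. `DomMulAct.stabilizer_card`. -/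
theorem stab_count {n : ℕ} {B : Type} [Fintype B] [DecidableEq B] (w : Fin n → B) :
    Nat.card {g : Equiv.Perm (Fin n) // w ∘ g = w} = ∏ b, (cnt w b).factorial := by
  rw [Nat.card_eq_fintype_card, DomMulAct.stabilizer_card w]
  refine Finset.prod_congr rfl fun b _ => ?_
  rw [Fintype.card_subtype]
  rfl
-- END stab_count

-- BEGIN exists_word
/-- PROOF. `Σ b, Fin (c b)` has `n` elements, so is equivalent to `Fin n`; take the first projection. -/
theorem exists_word {n : ℕ} {B : Type} [Fintype B] [DecidableEq B] (c : B → ℕ) (hc : ∑ b, c b = n) :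
    ∃ w : Fin n → B, ∀ b, cnt w b = c b := by
  obtain ⟨e⟩ : Nonempty (Fin n ≃ Σ b, Fin (c b)) := ⟨Fintype.equivOfCardEq (by simp [hc])⟩
  refine ⟨fun i => (e i).1, fun b => ?_⟩
  unfold cnt
  rw [← Fintype.card_subtype]
  have h1 : Fintype.card {i : Fin n // (e i).1 = b} = Fintype.card (Fin (c b)) :=
    Fintype.card_congr ((e.subtypeEquiv (q := fun x : Σ b, Fin (c b) => x.1 = b)
      (fun _ => Iff.rfl)).trans (Equiv.sigmaSubtype b))
  rw [h1, Fintype.card_fin]
-- END exists_word

-- BEGIN same_orbit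
/-- PROOF. The fibres over each `b` have the same size: glue bijections (`Equiv.sigmaFiberEquiv`,
`Equiv.sigmaCongrRight`). -/
theorem same_orbit {n : ℕ} {B : Type} [Fintype B] [DecidableEq B] (w w' : Fin n → B)
    (h : ∀ b, cnt w b = cnt w' b) : ∃ g : Equiv.Perm (Fin n), w' = w ∘ g := by
  have e : ∀ b, {i // w' i = b} ≃ {i // w i = b} := fun b =>
    Fintype.equivOfCardEq (by
      rw [Fintype.card_subtype, Fintype.card_subtype]
      exact (h b).symm)
  refine ⟨(Equiv.sigmaFiberEquiv w').symm.trans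
    ((Equiv.sigmaCongrRight e).trans (Equiv.sigmaFiberEquiv w)), ?_⟩
  funext i
  exact ((e (w' i)) ⟨i, rfl⟩).2.symm
-- END same_orbit

-- BEGIN words_count
private theorem words_count_comp {n : ℕ} {B : Type} [DecidableEq B] (w : Fin n → B)
    (g : Equiv.Perm (Fin n)) (b : B) : cnt (w ∘ g) b = cnt w b := by
  unfold cnt
  rw [← Fintype.card_subtype, ← Fintype.card_subtype]
  exact Fintype.card_congr (g.subtypeEquiv fun _ => Iff.rfl)

/-- PROOF. Fix `w₀` with content `c` (`exists_word`). The map `g ↦ w₀ ∘ g` from `Perm (Fin n)` onto the words with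
content `c` is surjective (`same_orbit`) and each fibre is in bijection with `{g | w₀ ∘ g = w₀}` (`stab_count`);
`Nat.card (Perm (Fin n)) = n!`. -/
theorem words_count {n : ℕ} {B : Type} [Fintype B] [DecidableEq B] (c : B → ℕ)
    (hc : ∑ b, c b = n) :
    Nat.card {w : Fin n → B // ∀ b, cnt w b = c b} * ∏ b, (c b).factorial = n.factorial := by
  classical
  obtain ⟨w₀, hw₀⟩ := exists_word c hc
  let f : Equiv.Perm (Fin n) → {w : Fin n → B // ∀ b, cnt w b = c b} := fun g =>
    ⟨w₀ ∘ g, fun b => by rw [words_count_comp, hw₀ b]⟩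
  have h1 : Nat.card (Equiv.Perm (Fin n)) = n.factorial := by
    rw [Nat.card_eq_fintype_card, Fintype.card_perm, Fintype.card_fin]
  have h2 : ∀ w : {w : Fin n → B // ∀ b, cnt w b = c b},
      Nat.card {g // f g = w} = ∏ b, (c b).factorial := by
    intro w
    obtain ⟨g₀, hg₀⟩ := same_orbit w₀ w.1 fun b => by rw [hw₀ b, w.2 b]
    have h3 : Nat.card {g // f g = w} = Nat.card {g : Equiv.Perm (Fin n) // w₀ ∘ g = w₀} := by
      refine Nat.card_congr ((Equiv.mulRight g₀⁻¹).subtypeEquiv fun g => ?_)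
      constructor
      · intro hg
        have hg' : w₀ ∘ g = w₀ ∘ g₀ := by
          have := congrArg Subtype.val hg
          rw [← hg₀]
          exact this
        funext i
        have := congrFun hg' (g₀⁻¹ i)
        simpa [Function.comp] using this
      · intro hg
        apply Subtype.ext
        change w₀ ∘ g = w.1
        rw [hg₀]
        funext i
        have := congrFun hg (g₀ i)
        simpa [Function.comp] using this
    rw [h3, stab_count]
    exact Finset.prod_congr rfl fun b _ => by rw [hw₀ b]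
  rw [← h1, ← Nat.card_congr (Equiv.sigmaFiberEquiv f), Nat.card_sigma]
  rw [Finset.sum_congr rfl fun w _ => h2 w, Finset.sum_const, Finset.card_univ, smul_eq_mul,
    Nat.card_eq_fintype_card]
-- END words_count

-- BEGIN burn
/-- PROOF. Exchange the sums: `∑ w with C (cnt w), #{g | w ∘ g = w} = ∑ w with C (cnt w), ∏ b, (cnt w b)!` (`stab_count`); group
the words by their content `c = cnt w` (`sum_cnt`: `∑ c = n`): `∑ c, #{w | cnt w = c} * ∏ c b ! = ∑ c, n!` (`words_count`). -/
theorem burn {n : ℕ} {B : Type} [Fintype B] [DecidableEq B] (C : (B → ℕ) → Prop) :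
    ∑ g : Equiv.Perm (Fin n), Nat.card {w : Fin n → B // C (cnt w) ∧ w ∘ g = w} =
      n.factorial * Nat.card {c : B → ℕ // C c ∧ ∑ b, c b = n} := by
  classical
  have hfin : Finite {c : B → ℕ // C c ∧ ∑ b, c b = n} := by
    refine Finite.of_injective (fun (c : {c : B → ℕ // C c ∧ ∑ b, c b = n}) (b : B) =>
      (⟨c.1 b, Nat.lt_succ_of_le ?_⟩ : Fin (n + 1))) ?_
    · have h1 := Finset.single_le_sum (f := c.1) (fun b _ => Nat.zero_le _) (Finset.mem_univ b)
      rwa [c.2.2] at h1
    · intro c c' h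
      apply Subtype.ext
      funext b
      have := congrArg Fin.val (congrFun h b)
      exact this
  have : Fintype {c : B → ℕ // C c ∧ ∑ b, c b = n} := Fintype.ofFinite _
  have e1 : ∀ g : Equiv.Perm (Fin n), Nat.card {w : Fin n → B // C (cnt w) ∧ w ∘ g = w} =
      ∑ w : {w : Fin n → B // C (cnt w)}, if w.1 ∘ g = w.1 then 1 else 0 := by
    intro g
    rw [← Finset.card_filter, ← Fintype.card_subtype, ← Nat.card_eq_fintype_card]
    exact Nat.card_congr (Equiv.subtypeSubtypeEquivSubtypeInter (fun w : Fin n → B => C (cnt w))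
      (fun w => w ∘ g = w)).symm
  rw [Finset.sum_congr rfl fun g _ => e1 g, Finset.sum_comm]
  have e2 : ∀ w : {w : Fin n → B // C (cnt w)},
      (∑ g : Equiv.Perm (Fin n), if w.1 ∘ g = w.1 then 1 else 0) =
        ∏ b, (cnt w.1 b).factorial := by
    intro w
    rw [← stab_count, ← Finset.card_filter, ← Fintype.card_subtype, ← Nat.card_eq_fintype_card]
  rw [Finset.sum_congr rfl fun w _ => e2 w]
  let F : {w : Fin n → B // C (cnt w)} → {c : B → ℕ // C c ∧ ∑ b, c b = n} := fun w =>
    ⟨cnt w.1, w.2, sum_cnt w.1⟩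
  rw [← Finset.sum_fiberwise Finset.univ F]
  have e3 : ∀ c : {c : B → ℕ // C c ∧ ∑ b, c b = n},
      (∑ w ∈ Finset.univ.filter (fun w => F w = c), ∏ b, (cnt w.1 b).factorial) =
        n.factorial := by
    intro c
    have e4 : ∀ w ∈ Finset.univ.filter (fun w => F w = c),
        (∏ b, (cnt w.1 b).factorial) = ∏ b, (c.1 b).factorial := by
      intro w hw
      have h1 : F w = c := (Finset.mem_filter.1 hw).2
      rw [← h1]
    rw [Finset.sum_congr rfl e4, Finset.sum_const, smul_eq_mul, ← words_count c.1 c.2.2,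
      ← Fintype.card_subtype, ← Nat.card_eq_fintype_card]
    congr 1
    refine Nat.card_congr ⟨fun w => ⟨w.1.1, fun b => ?_⟩, fun w => ⟨⟨w.1, ?_⟩, ?_⟩, ?_, ?_⟩
    · have h1 := congrArg Subtype.val w.2
      exact congrFun h1 b
    · have h1 : cnt w.1 = c.1 := funext w.2
      rw [h1]
      exact c.2.1
    · apply Subtype.ext
      exact funext w.2
    · intro w
      rfl
    · intro w
      rfl
  rw [Finset.sum_congr rfl fun c _ => e3 c, Finset.sum_const, Finset.card_univ, smul_eq_mul,
    Nat.card_eq_fintype_card, mul_comm]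
-- END burn

/-- Number of words of content `X - s` fixed by `g` (page: `pi_sigma(g)` with `s = sigma`). -/
noncomputable def pic {n r : ℕ} (X s : Fin r → ℕ) (g : Equiv.Perm (Fin n)) : ℕ :=
  Nat.card {w : Fin n → Fin r // (∀ i, cnt w i + s i = X i) ∧ w ∘ g = w}

/-- Number of matrices supported on `S` with row sums `X - a` and column sums `X - b`. -/
noncomputable def cM {r : ℕ} (S : Finset (Fin r × Fin r)) (X a b : Fin r → ℕ) : ℕ :=
  Nat.card {M : Fin r × Fin r → ℕ // (∀ z, z ∉ S → M z = 0) ∧ (∀ i, ∑ j, M (i, j) + a i = X i) ∧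
    (∀ j, ∑ i, M (i, j) + b j = X j)}

-- BEGIN pic_perm
private theorem pic_perm_comp {n : ℕ} {B : Type} [DecidableEq B] (w : Fin n → B)
    (g : Equiv.Perm (Fin n)) (b : B) : cnt (w ∘ g) b = cnt w b := by
  unfold cnt
  rw [← Fintype.card_subtype, ← Fintype.card_subtype]
  exact Fintype.card_congr (g.subtypeEquiv fun _ => Iff.rfl)

private theorem pic_perm_inv {n : ℕ} {B : Type} (w : Fin n → B) (g : Equiv.Perm (Fin n)) :
    w ∘ (g⁻¹ : Equiv.Perm (Fin n)) = w ↔ w ∘ g = w := by
  constructor
  · intro h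
    funext i
    have := congrFun h (g i)
    simpa [Function.comp] using this.symm
  · intro h
    funext i
    have := congrFun h (g⁻¹ i)
    simpa [Function.comp] using this.symm

/-- PROOF. `Ω` = words of content `X - s`, `ρ g w = w ∘ g⁻¹` (same content: `cnt (w ∘ g) = cnt w`). -/
theorem pic_perm {n r : ℕ} (X s : Fin r → ℕ) :
    ∃ (Ω : Type) (_ : Finite Ω) (ρ : Equiv.Perm (Fin n) →* Equiv.Perm Ω),
      ∀ g, pic X s g = fixc ρ g := by
  let act : Equiv.Perm (Fin n) → {w : Fin n → Fin r // ∀ i, cnt w i + s i = X i} →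
      {w : Fin n → Fin r // ∀ i, cnt w i + s i = X i} := fun g w =>
    ⟨w.1 ∘ (g⁻¹ : Equiv.Perm (Fin n)), fun i => by rw [pic_perm_comp]; exact w.2 i⟩
  have hact1 : ∀ w, act 1 w = w := fun w => by
    apply Subtype.ext
    funext i
    simp [act]
  have hact : ∀ g h w, act (g * h) w = act g (act h w) := fun g h w => by
    apply Subtype.ext
    funext i
    simp [act, mul_inv_rev]
  let ρ : Equiv.Perm (Fin n) →*
      Equiv.Perm {w : Fin n → Fin r // ∀ i, cnt w i + s i = X i} :=
    { toFun := fun g => ⟨act g, act g⁻¹, fun w => by rw [← hact, inv_mul_cancel, hact1],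
        fun w => by rw [← hact, mul_inv_cancel, hact1]⟩
      map_one' := Equiv.ext hact1
      map_mul' := fun g h => Equiv.ext (hact g h) }
  refine ⟨{w : Fin n → Fin r // ∀ i, cnt w i + s i = X i}, inferInstance, ρ, fun g => ?_⟩
  unfold pic fixc
  refine Nat.card_congr ((Equiv.subtypeSubtypeEquivSubtypeInter
    (fun w : Fin n → Fin r => ∀ i, cnt w i + s i = X i) (fun w => w ∘ g = w)).symm.trans
      (Equiv.subtypeEquivRight fun w => ?_))
  rw [← pic_perm_inv]
  constructor
  · intro h
    exact Subtype.ext h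
  · intro h
    exact congrArg Subtype.val h

theorem pic_inv {n r : ℕ} (X s : Fin r → ℕ) (g : Equiv.Perm (Fin n)) :
    pic X s g⁻¹ = pic X s g := by
  unfold pic
  refine Nat.card_congr (Equiv.subtypeEquivRight fun w => ?_)
  rw [pic_perm_inv]
-- END pic_perm

-- BEGIN pic_one
/-- PROOF. If some `s i > X i` both sides are zero (`Nat.descFactorial_eq_zero_iff_lt`). Otherwise put `c i = X i - s i`:
`words_count`, and `X i ! = (X i - s i)! * (X i).descFactorial (s i)` (`Nat.factorial_mul_descFactorial`). -/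
theorem pic_one {n r : ℕ} (X s : Fin r → ℕ) (hn : n + ∑ i, s i = ∑ i, X i) :
    pic X s (1 : Equiv.Perm (Fin n)) * ∏ i, (X i).factorial =
      n.factorial * ∏ i, (X i).descFactorial (s i) := by
  by_cases hx : ∃ i, X i < s i
  · obtain ⟨i, hi⟩ := hx
    have e1 : pic X s (1 : Equiv.Perm (Fin n)) = 0 := by
      unfold pic
      have : IsEmpty {w : Fin n → Fin r // (∀ i, cnt w i + s i = X i) ∧
          w ∘ (1 : Equiv.Perm (Fin n)) = w} := by
        refine ⟨fun w => ?_⟩
        have := w.2.1 i
        omega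
      exact Nat.card_of_isEmpty
    have e2 : ∏ i, (X i).descFactorial (s i) = 0 :=
      Finset.prod_eq_zero (Finset.mem_univ i) (Nat.descFactorial_eq_zero_iff_lt.2 hi)
    rw [e1, e2, zero_mul, mul_zero]
  · push Not at hx
    have e1 : pic X s (1 : Equiv.Perm (Fin n)) =
        Nat.card {w : Fin n → Fin r // ∀ i, cnt w i = X i - s i} := by
      unfold pic
      refine Nat.card_congr (Equiv.subtypeEquivRight fun w => ?_)
      constructor
      · intro h i
        have := h.1 i
        omega
      · intro h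
        refine ⟨fun i => ?_, ?_⟩
        · have := h i
          have := hx i
          omega
        · funext i
          simp
    have e2 : ∑ i, (X i - s i) = n := by
      have e3 : ∑ i, X i = ∑ i, (X i - s i) + ∑ i, s i := by
        rw [← Finset.sum_add_distrib]
        exact Finset.sum_congr rfl fun i _ => (Nat.sub_add_cancel (hx i)).symm
      omega
    have e4 := words_count (fun i => X i - s i) e2
    have e5 : ∏ i, (X i).factorial =
        (∏ i, (X i - s i).factorial) * ∏ i, (X i).descFactorial (s i) := by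
      rw [← Finset.prod_mul_distrib]
      exact Finset.prod_congr rfl fun i _ => (Nat.factorial_mul_descFactorial (hx i)).symm
    rw [e1, e5, ← mul_assoc, e4]
-- END pic_one

-- BEGIN pic_pair
/-- PROOF. Pairs of words `(w, w')` fixed by `g` are words in the alphabet `Fin r × Fin r` fixed by `g`
(`cnt_fst`, `cnt_snd`); `burn` with `C M = (∀ i, ∑ j, M (i, j) + s i = X i) ∧ (∀ j, ∑ i, M (i, j) + t j = X j)`; the condition
`∑ M = n` follows from the row sums and `hn`. -/
theorem pic_pair {n r : ℕ} (X s t : Fin r → ℕ) (hn : n + ∑ i, s i = ∑ i, X i) :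
    ∑ g : Equiv.Perm (Fin n), pic X s g * pic X t g =
      n.factorial * cM Finset.univ X s t := by
  classical
  have e1 : ∀ g : Equiv.Perm (Fin n), pic X s g * pic X t g =
      Nat.card {w : Fin n → Fin r × Fin r //
        ((∀ i, ∑ j, cnt w (i, j) + s i = X i) ∧ (∀ j, ∑ i, cnt w (i, j) + t j = X j)) ∧
          w ∘ g = w} := by
    intro g
    unfold pic
    rw [← Nat.card_prod]
    refine Nat.card_congr ⟨fun p => ⟨fun i => (p.1.1 i, p.2.1 i), ⟨fun i => ?_, fun j => ?_⟩, ?_⟩,
      fun w => ⟨⟨fun a => (w.1 a).1, fun i => ?_, ?_⟩, ⟨fun a => (w.1 a).2, fun j => ?_, ?_⟩⟩,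
      fun p => rfl, fun w => rfl⟩
    · rw [← cnt_fst]
      exact p.1.2.1 i
    · rw [← cnt_snd]
      exact p.2.2.1 j
    · funext i
      exact Prod.ext (congrFun p.1.2.2 i) (congrFun p.2.2.2 i)
    · rw [cnt_fst]
      exact w.2.1.1 i
    · funext a
      exact congrArg Prod.fst (congrFun w.2.2 a)
    · rw [cnt_snd]
      exact w.2.1.2 j
    · funext a
      exact congrArg Prod.snd (congrFun w.2.2 a)
  rw [Finset.sum_congr rfl fun g _ => e1 g,
    burn (n := n) (B := Fin r × Fin r) fun M : Fin r × Fin r → ℕ =>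
      (∀ i, ∑ j, M (i, j) + s i = X i) ∧ (∀ j, ∑ i, M (i, j) + t j = X j)]
  congr 1
  unfold cM
  refine Nat.card_congr (Equiv.subtypeEquivRight fun M => ?_)
  constructor
  · intro h
    exact ⟨fun z hz => absurd (Finset.mem_univ z) hz, h.1.1, h.1.2⟩
  · intro h
    refine ⟨⟨h.2.1, h.2.2⟩, ?_⟩
    rw [Fintype.sum_prod_type]
    have e2 : ∑ i, (∑ j, M (i, j) + s i) = ∑ i, X i := Finset.sum_congr rfl fun i _ => h.2.1 i
    rw [Finset.sum_add_distrib] at e2
    omega
-- END pic_pair

end Pool.Agent.Wil
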