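import Mathlib
import Pool.Agent.Wil.Words

set_option autoImplicit false

/-! Page C3: the norm of the Frobenius combination, by the Cauchy determinant identity. -/

namespace Pool.Agent.Wil

-- BEGIN cM_finite
/-- PROOF. Every entry is at most `∑ i, X i`. -/
theorem cM_finite {r : ℕ} (S : Finset (Fin r × Fin r)) (X a b : Fin r → ℕ) :
    Finite {M : Fin r × Fin r → ℕ // (∀ z, z ∉ S → M z = 0) ∧ (∀ i, ∑ j, M (i, j) + a i = X i) ∧
      (∀ j, ∑ i, M (i, j) + b j = X j)} := by
  have h : ({M : Fin r × Fin r → ℕ | (∀ z, z ∉ S → M z = 0) ∧ (∀ i, ∑ j, M (i, j) + a i = X i) ∧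
      (∀ j, ∑ i, M (i, j) + b j = X j)}).Finite := by
    refine (Set.finite_Iic (fun _ : Fin r × Fin r => ∑ i, X i)).subset fun M hM => ?_
    rw [Set.mem_Iic]
    rintro ⟨i, j⟩
    have h1 : M (i, j) ≤ ∑ j', M (i, j') :=
      Finset.single_le_sum (f := fun j' => M (i, j')) (fun _ _ => Nat.zero_le _)
        (Finset.mem_univ j)
    have h2 := hM.2.1 i
    have h3 : X i ≤ ∑ i, X i :=
      Finset.single_le_sum (f := X) (fun _ _ => Nat.zero_le _) (Finset.mem_univ i)
    show M (i, j) ≤ ∑ i, X i
    omega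
  exact h.to_subtype
-- END cM_finite

-- BEGIN cM_rec
private theorem cM_rec_row {r : ℕ} (M : Fin r × Fin r → ℕ) (i j : Fin r) (v : ℕ) (i' : Fin r) :
    ∑ j', Function.update M (i, j) v (i', j') + (if i' = i then M (i, j) else 0) =
      ∑ j', M (i', j') + (if i' = i then v else 0) := by
  by_cases h : i' = i
  · subst h
    rw [if_pos rfl, if_pos rfl, ← Finset.add_sum_erase Finset.univ
      (fun j' => Function.update M (i', j) v (i', j')) (Finset.mem_univ j),
      ← Finset.add_sum_erase Finset.univ (fun j' => M (i', j')) (Finset.mem_univ j),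
      Function.update_self]
    have h1 : ∑ x ∈ Finset.univ.erase j, Function.update M (i', j) v (i', x) =
        ∑ x ∈ Finset.univ.erase j, M (i', x) :=
      Finset.sum_congr rfl fun x hx => Function.update_of_ne
        (fun e => Finset.ne_of_mem_erase hx (Prod.ext_iff.1 e).2) _ _
    rw [h1]
    omega
  · rw [if_neg h, if_neg h]
    congr 1
    exact Finset.sum_congr rfl fun x _ => Function.update_of_ne
      (fun e => h (Prod.ext_iff.1 e).1) _ _

private theorem cM_rec_col {r : ℕ} (M : Fin r × Fin r → ℕ) (i j : Fin r) (v : ℕ) (j' : Fin r) :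
    ∑ i', Function.update M (i, j) v (i', j') + (if j' = j then M (i, j) else 0) =
      ∑ i', M (i', j') + (if j' = j then v else 0) := by
  by_cases h : j' = j
  · subst h
    rw [if_pos rfl, if_pos rfl, ← Finset.add_sum_erase Finset.univ
      (fun i' => Function.update M (i, j') v (i', j')) (Finset.mem_univ i),
      ← Finset.add_sum_erase Finset.univ (fun i' => M (i', j')) (Finset.mem_univ i),
      Function.update_self]
    have h1 : ∑ x ∈ Finset.univ.erase i, Function.update M (i, j') v (x, j') =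
        ∑ x ∈ Finset.univ.erase i, M (x, j') :=
      Finset.sum_congr rfl fun x hx => Function.update_of_ne
        (fun e => Finset.ne_of_mem_erase hx (Prod.ext_iff.1 e).1) _ _
    rw [h1]
    omega
  · rw [if_neg h, if_neg h]
    congr 1
    exact Finset.sum_congr rfl fun x _ => Function.update_of_ne
      (fun e => h (Prod.ext_iff.1 e).2) _ _

/-- PROOF. Split according to `M z = 0` (supported on `S.erase z`) or `M z ≥ 1` (subtract one at `z = (i, j)`; then the row sum `i` and
the column sum `j` drop by one: bijection with the matrices for `a + e_i`, `b + e_j`). `Nat.card` of a disjoint union of finite types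
(`cM_finite`). -/
theorem cM_rec {r : ℕ} (S : Finset (Fin r × Fin r)) (X a b : Fin r → ℕ) (i j : Fin r)
    (hz : (i, j) ∈ S) :
    cM S X a b = cM (S.erase (i, j)) X a b + cM S X (a + Pi.single i 1) (b + Pi.single j 1) := by
  classical
  have := cM_finite S X a b
  have := cM_finite (S.erase (i, j)) X a b
  have := cM_finite S X (a + Pi.single i 1) (b + Pi.single j 1)
  unfold cM
  rw [← Nat.card_sum]
  refine Nat.card_congr
    { toFun := fun M => if h : M.1 (i, j) = 0 then
          Sum.inl ⟨M.1, ?_, M.2.2.1, M.2.2.2⟩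
        else Sum.inr ⟨Function.update M.1 (i, j) (M.1 (i, j) - 1), ?_, ?_, ?_⟩
      invFun := Sum.elim (fun M => ⟨M.1, ?_, M.2.2.1, M.2.2.2⟩)
        (fun M => ⟨Function.update M.1 (i, j) (M.1 (i, j) + 1), ?_, ?_, ?_⟩)
      left_inv := ?_
      right_inv := ?_ }
  · intro z hzS
    by_cases hzz : z = (i, j)
    · rw [hzz]; exact h
    · exact M.2.1 z fun hz' => hzS (Finset.mem_erase.2 ⟨hzz, hz'⟩)
  · intro z hzS
    have hzz : z ≠ (i, j) := fun e => hzS (e ▸ hz)
    rw [Function.update_of_ne hzz]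
    exact M.2.1 z hzS
  · intro i'
    have h1 := cM_rec_row M.1 i j (M.1 (i, j) - 1) i'
    have h2 := M.2.2.1 i'
    rw [Pi.add_apply, Pi.single_apply]
    by_cases hi : i' = i
    · simp only [hi, if_true] at h1 h2 ⊢
      omega
    · simp only [hi, if_false] at h1 h2 ⊢
      omega
  · intro j'
    have h1 := cM_rec_col M.1 i j (M.1 (i, j) - 1) j'
    have h2 := M.2.2.2 j'
    rw [Pi.add_apply, Pi.single_apply]
    by_cases hj : j' = j
    · simp only [hj, if_true] at h1 h2 ⊢
      omega
    · simp only [hj, if_false] at h1 h2 ⊢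
      omega
  · exact fun z hzS => M.2.1 z fun hz' => hzS (Finset.mem_of_mem_erase hz')
  · intro z hzS
    have hzz : z ≠ (i, j) := fun e => hzS (e ▸ hz)
    rw [Function.update_of_ne hzz]
    exact M.2.1 z hzS
  · intro i'
    have h1 := cM_rec_row M.1 i j (M.1 (i, j) + 1) i'
    have h2 := M.2.2.1 i'
    rw [Pi.add_apply, Pi.single_apply] at h2
    by_cases hi : i' = i
    · simp only [hi, if_true] at h1 h2 ⊢
      omega
    · simp only [hi, if_false] at h1 h2 ⊢
      omega
  · intro j'
    have h1 := cM_rec_col M.1 i j (M.1 (i, j) + 1) j'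
    have h2 := M.2.2.2 j'
    rw [Pi.add_apply, Pi.single_apply] at h2
    by_cases hj : j' = j
    · simp only [hj, if_true] at h1 h2 ⊢
      omega
    · simp only [hj, if_false] at h1 h2 ⊢
      omega
  · intro M
    by_cases h : M.1 (i, j) = 0
    · simp only [h, dif_pos, Sum.elim_inl]
    · simp only [h, dif_neg, not_false_eq_true, Sum.elim_inr, Function.update_self,
        Function.update_idem]
      apply Subtype.ext
      show Function.update M.1 (i, j) (M.1 (i, j) - 1 + 1) = M.1
      have h2 : M.1 (i, j) - 1 + 1 = M.1 (i, j) := by omega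
      rw [h2, Function.update_eq_self]
  · intro M
    rcases M with M | M
    · have h : M.1 (i, j) = 0 := M.2.1 (i, j) (by simp)
      simp only [Sum.elim_inl, h, dif_pos]
    · simp only [Sum.elim_inr, Function.update_self, Nat.succ_ne_zero, dif_neg,
        not_false_eq_true, Function.update_idem, Nat.add_sub_cancel, Function.update_eq_self]
-- END cM_rec

/-- The linear functional `x^a y^b ↦ cM S X a b`. -/
noncomputable def Phi {r : ℕ} (S : Finset (Fin r × Fin r)) (X : Fin r → ℕ) :
    MvPolynomial (Fin r ⊕ Fin r) ℤ →ₗ[ℤ] ℤ :=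
  (MvPolynomial.basisMonomials (Fin r ⊕ Fin r) ℤ).constr ℤ
    (fun m => (cM S X (fun i => m (Sum.inl i)) (fun j => m (Sum.inr j)) : ℤ))

-- BEGIN Phi_monomial
/-- PROOF. `Basis.constr_basis`, `MvPolynomial.coe_basisMonomials`, linearity. -/
theorem Phi_monomial {r : ℕ} (S : Finset (Fin r × Fin r)) (X : Fin r → ℕ)
    (m : Fin r ⊕ Fin r →₀ ℕ) (c : ℤ) :
    Phi S X (MvPolynomial.monomial m c) =
      c * (cM S X (fun i => m (Sum.inl i)) (fun j => m (Sum.inr j)) : ℤ) := by
  have h1 : (MvPolynomial.monomial m c : MvPolynomial (Fin r ⊕ Fin r) ℤ) =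
      c • MvPolynomial.basisMonomials (Fin r ⊕ Fin r) ℤ m := by
    rw [MvPolynomial.coe_basisMonomials, MvPolynomial.smul_monomial, smul_eq_mul, mul_one]
  rw [h1, map_smul, smul_eq_mul]
  unfold Phi
  rw [Module.Basis.constr_basis]

/-- PROOF. Write the product as a monomial. -/
theorem Phi_prod_pow {r : ℕ} (S : Finset (Fin r × Fin r)) (X a b : Fin r → ℕ) :
    Phi S X ((∏ i, MvPolynomial.X (Sum.inl i) ^ a i) * ∏ j, MvPolynomial.X (Sum.inr j) ^ b j) =
      (cM S X a b : ℤ) := by
  have h1 : ((∏ i, MvPolynomial.X (Sum.inl i) ^ a i) * ∏ j, MvPolynomial.X (Sum.inr j) ^ b j :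
      MvPolynomial (Fin r ⊕ Fin r) ℤ) =
      MvPolynomial.monomial (Finsupp.equivFunOnFinite.symm (Sum.elim a b)) 1 := by
    rw [MvPolynomial.monomial_eq, MvPolynomial.C_1, one_mul,
      Finsupp.prod_fintype _ _ (fun _ => pow_zero _), Fintype.prod_sum_type]
    simp
  rw [h1, Phi_monomial, one_mul]
  simp
-- END Phi_monomial

-- BEGIN Phi_mul
/-- PROOF. Both sides are linear in `P`: `MvPolynomial.induction_on'` (or `monomial_add_induction`); on a monomial it is
`cM_rec` (`Phi_monomial`; `x_i y_j * monomial m c = monomial (m + single (inl i) 1 + single (inr j) 1) c`). -/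
theorem Phi_mul {r : ℕ} (S : Finset (Fin r × Fin r)) (X : Fin r → ℕ) (i j : Fin r)
    (hz : (i, j) ∈ S) (P : MvPolynomial (Fin r ⊕ Fin r) ℤ) :
    Phi S X ((1 - MvPolynomial.X (Sum.inl i) * MvPolynomial.X (Sum.inr j)) * P) =
      Phi (S.erase (i, j)) X P := by
  classical
  induction P using MvPolynomial.induction_on' with
  | monomial m c =>
    have h1 : ((1 - MvPolynomial.X (Sum.inl i) * MvPolynomial.X (Sum.inr j)) *
        MvPolynomial.monomial m c : MvPolynomial (Fin r ⊕ Fin r) ℤ) =
        MvPolynomial.monomial m c - MvPolynomial.monomial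
          (Finsupp.single (Sum.inl i) 1 + Finsupp.single (Sum.inr j) 1 + m) c := by
      rw [sub_mul, one_mul]
      unfold MvPolynomial.X
      rw [MvPolynomial.monomial_mul, MvPolynomial.monomial_mul, one_mul, one_mul]
    rw [h1, map_sub, Phi_monomial, Phi_monomial, Phi_monomial]
    have h2 := cM_rec S X (fun i => m (Sum.inl i)) (fun j => m (Sum.inr j)) i j hz
    have h3 : (fun i' => (Finsupp.single (Sum.inl i) 1 + Finsupp.single (Sum.inr j) 1 + m :
        Fin r ⊕ Fin r →₀ ℕ) (Sum.inl i')) = (fun i => m (Sum.inl i)) + Pi.single i 1 := by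
      funext i'
      simp only [Finsupp.add_apply, Finsupp.single_apply, Pi.add_apply, Pi.single_apply,
        Sum.inl.injEq, reduceCtorEq, if_false, add_zero, eq_comm (a := i)]
      rw [add_comm]
    have h4 : (fun j' => (Finsupp.single (Sum.inl i) 1 + Finsupp.single (Sum.inr j) 1 + m :
        Fin r ⊕ Fin r →₀ ℕ) (Sum.inr j')) = (fun j => m (Sum.inr j)) + Pi.single j 1 := by
      funext j'
      simp only [Finsupp.add_apply, Finsupp.single_apply, Pi.add_apply, Pi.single_apply,
        Sum.inr.injEq, reduceCtorEq, if_false, zero_add, eq_comm (a := j)]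
      rw [add_comm]
    rw [h3, h4, h2]
    push_cast
    ring
  | add p q hp hq =>
    rw [mul_add, map_add, hp, hq, map_add]
-- END Phi_mul

-- BEGIN Phi_mul_prod
/-- PROOF. Induction on `T` with `Phi_mul`. -/
theorem Phi_mul_prod {r : ℕ} (S T : Finset (Fin r × Fin r)) (hT : T ⊆ S) (X : Fin r → ℕ)
    (P : MvPolynomial (Fin r ⊕ Fin r) ℤ) :
    Phi S X ((∏ z ∈ T, (1 - MvPolynomial.X (Sum.inl z.1) * MvPolynomial.X (Sum.inr z.2))) * P) =
      Phi (S \ T) X P := by
  classical
  induction T using Finset.induction_on generalizing S with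
  | empty => rw [Finset.prod_empty, one_mul, Finset.sdiff_empty]
  | insert z T hz ih =>
    rw [Finset.prod_insert hz, mul_assoc]
    have hzS : (z.1, z.2) ∈ S := hT (Finset.mem_insert_self z T)
    rw [Phi_mul S X z.1 z.2 hzS]
    have hT' : T ⊆ S.erase (z.1, z.2) := by
      intro t ht
      rw [Finset.mem_erase]
      refine ⟨fun h => ?_, hT (Finset.mem_insert_of_mem ht)⟩
      rw [Prod.mk.eta] at h
      rw [h] at ht
      exact hz ht
    rw [ih _ hT']
    have e : S.erase (z.1, z.2) \ T = S \ insert z T := by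
      ext t
      simp only [Finset.mem_sdiff, Finset.mem_erase, Finset.mem_insert, Prod.mk.eta]
      tauto
    rw [e]
-- END Phi_mul_prod

-- BEGIN cM_graph
/-- PROOF. A matrix supported on the graph of `w` has row sums `M (i, w i) = X i` and column sums `M (i, w i) = X (w i)`; as `X` is
injective, `w i = i`. For `w = 1` the diagonal matrix `X` is the only one. -/
theorem cM_graph {r : ℕ} (X : Fin r → ℕ) (hX : Function.Injective X) (w : Equiv.Perm (Fin r)) :
    cM (Finset.univ.filter (fun z : Fin r × Fin r => z.2 = w z.1)) X 0 0 = if w = 1 then 1 else 0 := by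
  classical
  have key : ∀ M : Fin r × Fin r → ℕ,
      (∀ z, z ∉ Finset.univ.filter (fun z : Fin r × Fin r => z.2 = w z.1) → M z = 0) →
      (∀ i, ∑ j, M (i, j) = M (i, w i)) ∧ (∀ i, ∑ i', M (i', w i) = M (i, w i)) := by
    intro M hM
    constructor
    · intro i
      refine Finset.sum_eq_single_of_mem (w i) (Finset.mem_univ _) fun j _ hj => hM _ ?_
      simpa using hj
    · intro i
      refine Finset.sum_eq_single_of_mem i (Finset.mem_univ _) fun i' _ hi' => hM _ ?_
      simp only [Finset.mem_filter, Finset.mem_univ, true_and]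
      exact fun e => hi' (w.injective e.symm)
  split_ifs with hw
  · subst hw
    unfold cM
    rw [Nat.card_eq_one_iff_exists]
    refine ⟨⟨fun z => if z.2 = z.1 then X z.1 else 0, ?_, ?_, ?_⟩, ?_⟩
    · intro z hz
      exact if_neg fun e => hz (Finset.mem_filter.2 ⟨Finset.mem_univ _, e⟩)
    · intro i
      simp
    · intro j
      simp
    · rintro ⟨M, h1, h2, h3⟩
      apply Subtype.ext
      funext z
      rcases z with ⟨i, j⟩
      show M (i, j) = if j = i then X i else 0
      split_ifs with hij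
      · subst hij
        have h4 := (key M h1).1 j
        have h5 := h2 j
        rw [h4, Equiv.Perm.coe_one] at h5
        simpa using h5
      · exact h1 _ fun hm => hij (Finset.mem_filter.1 hm).2
  · unfold cM
    have hE : IsEmpty {M : Fin r × Fin r → ℕ //
        (∀ z, z ∉ Finset.univ.filter (fun z : Fin r × Fin r => z.2 = w z.1) → M z = 0) ∧
        (∀ i, ∑ j, M (i, j) + (0 : Fin r → ℕ) i = X i) ∧
        (∀ j, ∑ i, M (i, j) + (0 : Fin r → ℕ) j = X j)} := by
      refine ⟨fun ⟨M, h1, h2, h3⟩ => hw ?_⟩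
      apply Equiv.ext
      intro i
      apply hX
      have h4 := (key M h1).1 i
      have h5 := h2 i
      have h6 := (key M h1).2 i
      have h7 := h3 (w i)
      rw [h4] at h5
      rw [h6] at h7
      rw [← h7, Equiv.Perm.coe_one, id, ← h5]
      rfl
    exact Nat.card_of_isEmpty
-- END cM_graph

-- BEGIN exists_E
/-- PROOF. `∏ j' ∈ univ.erase j, (z + (- x * y j')) = ∑ T ∈ (univ.erase j).powerset, ...` (`Finset.prod_add`):
`E k j = ∑ T ∈ (univ.erase j).powerset with T.card = k, ∏ t ∈ T, (- y t)`; the exponent of `z` is `r - 1 - T.card`. -/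
theorem exists_E {R : Type} [CommRing R] {r : ℕ} (y : Fin r → R) :
    ∃ E : Matrix (Fin r) (Fin r) R, ∀ (x z : R) (j : Fin r),
      ∑ k : Fin r, x ^ (k : ℕ) * z ^ (r - 1 - (k : ℕ)) * E k j =
        ∏ j' ∈ Finset.univ.erase j, (z - x * y j') := by
  classical
  refine ⟨Matrix.of fun k j => ∑ T ∈ (Finset.univ.erase j).powerset,
    if T.card = (k : ℕ) then ∏ t ∈ T, (- y t) else 0, fun x z j => ?_⟩
  have h1 : ∏ j' ∈ Finset.univ.erase j, (z - x * y j') =
      ∑ T ∈ (Finset.univ.erase j).powerset,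
        (∏ t ∈ T, (-(x * y t))) * ∏ _t ∈ (Finset.univ.erase j) \ T, z := by
    rw [← Finset.prod_add]
    refine Finset.prod_congr rfl fun t _ => ?_
    ring
  rw [h1]
  simp only [Matrix.of_apply, Finset.mul_sum]
  rw [Finset.sum_comm]
  refine Finset.sum_congr rfl fun T hT => ?_
  rw [Finset.mem_powerset] at hT
  have hc : (Finset.univ.erase j : Finset (Fin r)).card = r - 1 := by
    rw [Finset.card_erase_of_mem (Finset.mem_univ _), Finset.card_univ, Fintype.card_fin]
  have hr : 0 < r := lt_of_le_of_lt (Nat.zero_le _) j.2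
  have hTc : T.card ≤ r - 1 := hc ▸ Finset.card_le_card hT
  rw [Finset.sum_eq_single (⟨T.card, by omega⟩ : Fin r)]
  · rw [if_pos rfl, Finset.prod_const, Finset.card_sdiff_of_subset hT, hc]
    have h2 : ∏ t ∈ T, (-(x * y t)) = x ^ T.card * ∏ t ∈ T, (- y t) := by
      rw [← Finset.prod_const, ← Finset.prod_mul_distrib]
      refine Finset.prod_congr rfl fun t _ => ?_
      ring
    rw [h2]
    ring
  · intro k _ hk
    rw [if_neg, mul_zero]
    intro h
    apply hk
    ext
    exact h.symm
  · intro h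
    exact absurd (Finset.mem_univ _) h
-- END exists_E

-- BEGIN det_E
/-- PROOF. With `z = y i`, `x = 1`: the matrix `W i k = (y i) ^ (r - 1 - k)` (`Matrix.projVandermonde 1 y`) satisfies `W * E = diagonal (∏ j' ∈ univ.erase i, (y i - y j'))`,
so `det W * det E = ∏ i, ∏ j' ∈ univ.erase i, (y i - y j')
= (∏ i, ∏ j ∈ Ioi i, (y j - y i)) * (∏ i, ∏ j ∈ Ioi i, (y i - y j))`; `det W = ∏ i, ∏ j ∈ Ioi i, (y i - y j)`
(`Matrix.det_projVandermonde`) is nonzero, so `det E = ∏ i, ∏ j ∈ Ioi i, (y j - y i) = det (vandermonde y)`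
(`Matrix.det_vandermonde`). -/
theorem det_E {R : Type} [CommRing R] [IsDomain R] {r : ℕ} (y : Fin r → R)
    (hy : Function.Injective y) (E : Matrix (Fin r) (Fin r) R)
    (hE : ∀ (x z : R) (j : Fin r), ∑ k : Fin r, x ^ (k : ℕ) * z ^ (r - 1 - (k : ℕ)) * E k j =
        ∏ j' ∈ Finset.univ.erase j, (z - x * y j')) :
    E.det = (Matrix.vandermonde y).det := by
  classical
  have hW : Matrix.projVandermonde (1 : Fin r → R) y * E =
      Matrix.diagonal (fun i => ∏ j' ∈ Finset.univ.erase i, (y i - y j')) := by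
    ext i j
    rw [Matrix.mul_apply, Matrix.diagonal_apply]
    have h1 : ∑ k, Matrix.projVandermonde (1 : Fin r → R) y i k * E k j =
        ∏ j' ∈ Finset.univ.erase j, (y i - 1 * y j') := by
      rw [← hE 1 (y i) j]
      refine Finset.sum_congr rfl fun k _ => ?_
      have e : ((Fin.rev k : Fin r) : ℕ) = r - 1 - (k : ℕ) := by
        rw [Fin.val_rev]
        omega
      rw [Matrix.projVandermonde_apply, Pi.one_apply, e]
    rw [h1]
    split_ifs with hij
    · subst hij
      refine Finset.prod_congr rfl fun t _ => ?_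
      rw [one_mul]
    · exact Finset.prod_eq_zero (Finset.mem_erase.2 ⟨hij, Finset.mem_univ i⟩) (by ring)
  have hdet := congrArg Matrix.det hW
  rw [Matrix.det_mul, Matrix.det_diagonal, Matrix.det_projVandermonde] at hdet
  have h2 : ∏ i : Fin r, ∏ j' ∈ Finset.univ.erase i, (y i - y j') =
      (∏ i : Fin r, ∏ j ∈ Finset.Ioi i, (y i - y j)) *
        ∏ i : Fin r, ∏ j ∈ Finset.Ioi i, (y j - y i) := by
    have h3 := Finset.prod_prod_Ioi_mul_eq_prod_prod_off_diag (fun j i : Fin r => y i - y j)
    have h4 : ∏ i : Fin r, ∏ j' ∈ Finset.univ.erase i, (y i - y j') =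
        ∏ i : Fin r, ∏ j ∈ {i}ᶜ, (y i - y j) := by
      refine Finset.prod_congr rfl fun i _ => ?_
      refine Finset.prod_congr ?_ fun _ _ => rfl
      ext t
      simp
    rw [h4, ← h3, ← Finset.prod_mul_distrib]
    refine Finset.prod_congr rfl fun i _ => ?_
    rw [← Finset.prod_mul_distrib]
  have h5 : ∏ i : Fin r, ∏ j ∈ Finset.Ioi i, ((1 : Fin r → R) j * y i - (1 : Fin r → R) i * y j) =
      ∏ i : Fin r, ∏ j ∈ Finset.Ioi i, (y i - y j) := by
    refine Finset.prod_congr rfl fun i _ => Finset.prod_congr rfl fun j _ => ?_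
    rw [Pi.one_apply, Pi.one_apply, one_mul, one_mul]
  rw [h5, h2] at hdet
  have h6 : ∏ i : Fin r, ∏ j ∈ Finset.Ioi i, (y i - y j) ≠ 0 := by
    rw [Finset.prod_ne_zero_iff]
    intro i _
    rw [Finset.prod_ne_zero_iff]
    intro j hj
    rw [Finset.mem_Ioi] at hj
    exact sub_ne_zero.2 fun h => hj.ne (hy h)
  rw [Matrix.det_vandermonde]
  exact mul_left_cancel₀ h6 hdet
-- END det_E

-- BEGIN cauchy_det
/-- PROOF. `exists_E`, `det_E`; with `z = 1`: `vandermonde x * E = of fun i j => ∏ j' ∈ univ.erase j, (1 - x i * y j')`; its determinant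
(`Matrix.det_mul`, `Matrix.det_apply'` of the transpose) is `∑ w, sign w * ∏ i, ∏ j' ∈ univ.erase (w i), (1 - x i * y j')`, and
the double product is the product over all pairs `(i, j)` with `j ≠ w i`. -/
theorem cauchy_det {R : Type} [CommRing R] [IsDomain R] {r : ℕ} (x y : Fin r → R)
    (hy : Function.Injective y) :
    (Matrix.vandermonde x).det * (Matrix.vandermonde y).det =
      ∑ w : Equiv.Perm (Fin r), ((Equiv.Perm.sign w : ℤ) : R) *
        ∏ z ∈ Finset.univ.filter (fun z : Fin r × Fin r => z.2 ≠ w z.1), (1 - x z.1 * y z.2) := by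
  classical
  obtain ⟨E, hE⟩ := exists_E y
  rw [← det_E y hy E hE, ← Matrix.det_mul]
  have hM : Matrix.vandermonde x * E =
      Matrix.of fun i j => ∏ j' ∈ Finset.univ.erase j, (1 - x i * y j') := by
    ext i j
    rw [Matrix.mul_apply, Matrix.of_apply, ← hE (x i) 1 j]
    refine Finset.sum_congr rfl fun k _ => ?_
    rw [one_pow, mul_one, Matrix.vandermonde_apply]
  rw [hM, ← Matrix.det_transpose, Matrix.det_apply']
  refine Finset.sum_congr rfl fun w _ => ?_
  congr 1
  rw [Finset.prod_filter, Fintype.prod_prod_type]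
  refine Finset.prod_congr rfl fun i _ => ?_
  rw [Matrix.transpose_apply, Matrix.of_apply, ← Finset.prod_filter]
  refine Finset.prod_congr ?_ fun _ _ => rfl
  ext t
  simp
-- END cauchy_det

-- BEGIN Phi_det
private lemma Phi_det_vand {A : Type} [CommRing A] {r : ℕ} (v : Fin r → A) :
    (Matrix.vandermonde v).det =
      ∑ σ : Equiv.Perm (Fin r), (Equiv.Perm.sign σ : ℤ) • ∏ i, v i ^ ((σ i : Fin r) : ℕ) := by
  rw [← Matrix.det_transpose, Matrix.det_apply']
  refine Finset.sum_congr rfl fun σ _ => ?_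
  rw [zsmul_eq_mul]
  rfl

/-- PROOF. `det (vandermonde x) = ∑ σ, sign σ * ∏ i, x i ^ (σ i)` (`Matrix.det_apply'` for the transpose), the same for `y`; expand the
product, linearity of `Phi`, `Phi_prod_pow`. -/
theorem Phi_det {r : ℕ} (X : Fin r → ℕ) :
    Phi Finset.univ X
      ((Matrix.vandermonde (fun i : Fin r => (MvPolynomial.X (Sum.inl i) :
          MvPolynomial (Fin r ⊕ Fin r) ℤ))).det *
        (Matrix.vandermonde (fun j : Fin r => (MvPolynomial.X (Sum.inr j) :
          MvPolynomial (Fin r ⊕ Fin r) ℤ))).det) =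
      ∑ σ : Equiv.Perm (Fin r), ∑ τ : Equiv.Perm (Fin r), (Equiv.Perm.sign σ : ℤ) *
        (Equiv.Perm.sign τ : ℤ) *
        (cM Finset.univ X (fun i => ((σ i : Fin r) : ℕ)) (fun i => ((τ i : Fin r) : ℕ)) : ℤ) := by
  classical
  rw [Phi_det_vand, Phi_det_vand, Finset.sum_mul_sum, map_sum]
  refine Finset.sum_congr rfl fun σ _ => ?_
  rw [map_sum]
  refine Finset.sum_congr rfl fun τ _ => ?_
  rw [smul_mul_assoc, mul_smul_comm, map_zsmul, map_zsmul, Phi_prod_pow, smul_eq_mul, smul_eq_mul,
    mul_assoc]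
-- END Phi_det

-- BEGIN cM_norm
/-- PROOF. `Phi_det`, `cauchy_det` (the variables `inr j` are different), `Phi_mul_prod` with `P = 1`, `S = univ`,
`T = {z | z.2 ≠ w z.1}` (`S \ T` is the graph), `Phi_prod_pow` with `a = b = 0`, `cM_graph`: only `w = 1` remains. -/
theorem cM_norm {r : ℕ} (X : Fin r → ℕ) (hX : Function.Injective X) :
    ∑ σ : Equiv.Perm (Fin r), ∑ τ : Equiv.Perm (Fin r), (Equiv.Perm.sign σ : ℤ) *
        (Equiv.Perm.sign τ : ℤ) *
        (cM Finset.univ X (fun i => ((σ i : Fin r) : ℕ)) (fun i => ((τ i : Fin r) : ℕ)) : ℤ) = 1 := by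
  classical
  rw [← Phi_det]
  rw [cauchy_det _ _ (fun a b h => Sum.inr_injective (MvPolynomial.X_injective h)), map_sum]
  have key : ∀ w : Equiv.Perm (Fin r), Phi Finset.univ X (((Equiv.Perm.sign w : ℤ) :
      MvPolynomial (Fin r ⊕ Fin r) ℤ) *
      ∏ z ∈ Finset.univ.filter (fun z : Fin r × Fin r => z.2 ≠ w z.1),
        (1 - MvPolynomial.X (Sum.inl z.1) * MvPolynomial.X (Sum.inr z.2))) =
      if w = 1 then 1 else 0 := by
    intro w
    rw [← zsmul_eq_mul, map_zsmul]
    have h1 := Phi_mul_prod Finset.univ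
      (Finset.univ.filter (fun z : Fin r × Fin r => z.2 ≠ w z.1)) (Finset.subset_univ _) X 1
    rw [mul_one] at h1
    rw [h1]
    have h2 : (Finset.univ : Finset (Fin r × Fin r)) \
        Finset.univ.filter (fun z : Fin r × Fin r => z.2 ≠ w z.1) =
        Finset.univ.filter (fun z : Fin r × Fin r => z.2 = w z.1) := by
      ext z
      simp
    rw [h2]
    have h3 := Phi_prod_pow (Finset.univ.filter (fun z : Fin r × Fin r => z.2 = w z.1)) X 0 0
    simp only [Pi.zero_apply, pow_zero, Finset.prod_const_one, mul_one] at h3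
    rw [h3, cM_graph X hX w]
    by_cases hw : w = 1
    · rw [if_pos hw, if_pos hw, hw]
      simp
    · rw [if_neg hw, if_neg hw]
      simp
  rw [Finset.sum_congr rfl fun w _ => key w, Finset.sum_ite_eq']
  simp
-- END cM_norm

end Pool.Agent.Wil
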