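import Mathlib
import Pool.Agent.Wil.Basic

set_option autoImplicit false

/-! Page A: the modular lemma. -/

namespace Pool.Agent.Wil

open MonoidAlgebra

-- BEGIN li_of_li
/-- PROOF. Suppose `∑ c i * v i = 0` over `ℚ` with `c ≠ 0`. Clear denominators and divide by the gcd
(`Finset.gcd` and `Finset.extract_gcd` on `Finset.univ`): integers `c i` with `gcd = 1` and
`∑ c i * v i j = 0` in `ℤ` for all `j`; cast to `k`: all `(c i : k) = 0`, so `p ∣ c i` for all `i`
(`CharP.intCast_eq_zero_iff`), contradiction to gcd one. -/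
theorem li_of_li {p : ℕ} [Fact p.Prime] {k : Type} [Field k] [CharP k p] {ι κ : Type} [Finite ι]
    (v : ι → κ → ℤ) (h : LinearIndependent k (fun (i : ι) (j : κ) => ((v i j : ℤ) : k))) :
    LinearIndependent ℚ (fun (i : ι) (j : κ) => ((v i j : ℤ) : ℚ)) := by
  classical
  have : Fintype ι := Fintype.ofFinite ι
  rw [← LinearIndependent.iff_fractionRing ℤ ℚ, Fintype.linearIndependent_iff]
  intro g hg
  by_contra hne
  push Not at hne
  obtain ⟨i₀, hi₀⟩ := hne
  obtain ⟨c, hc, hc1⟩ := Finset.extract_gcd g (s := (Finset.univ : Finset ι)) ⟨i₀, Finset.mem_univ _⟩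
  have hd : (Finset.univ : Finset ι).gcd g ≠ 0 := by
    intro h0
    exact hi₀ ((Finset.gcd_eq_zero_iff.1 h0) i₀ (Finset.mem_univ _))
  have hz : ∀ j, ∑ i, c i * v i j = 0 := by
    intro j
    have h1 := congrFun hg j
    simp only [Finset.sum_apply, Pi.smul_apply, Pi.zero_apply] at h1
    simp only [zsmul_eq_mul] at h1
    have h2 : ∑ i, g i * v i j = 0 := by exact_mod_cast h1
    have h3 : (Finset.univ : Finset ι).gcd g * ∑ i, c i * v i j = 0 := by
      rw [Finset.mul_sum, ← h2]
      refine Finset.sum_congr rfl fun i _ => ?_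
      conv_rhs => rw [hc i (Finset.mem_univ _)]
      ring
    exact (mul_eq_zero.1 h3).resolve_left hd
  have hk := (Fintype.linearIndependent_iff.1 h) (fun i => (c i : k)) (by
    funext j
    simp only [Finset.sum_apply, Pi.smul_apply, smul_eq_mul, Pi.zero_apply]
    exact_mod_cast congrArg (Int.cast : ℤ → k) (hz j))
  have hp : (p : ℤ) ∣ (Finset.univ : Finset ι).gcd c :=
    Finset.dvd_gcd fun i _ => (CharP.intCast_eq_zero_iff k p (c i)).1 (hk i)
  rw [hc1] at hp
  exact (Fact.out : p.Prime).one_lt.ne' (by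
    have := Int.eq_one_of_dvd_one (Int.natCast_nonneg p) hp
    exact_mod_cast this)
-- END li_of_li

-- BEGIN rk_le
/-- PROOF. `Matrix.rank_eq_finrank_span_row`: choose `rank` many rows linearly independent over `k`
(`exists_linearIndependent` or `Basis.ofSpan`-like), by `li_of_li` they are independent over `ℚ`. -/
theorem rk_le {p : ℕ} [Fact p.Prime] {k : Type} [Field k] [CharP k p] {m n : Type} [Fintype m]
    [Fintype n] (M : Matrix m n ℤ) :
    (M.map (Int.castRingHom k)).rank ≤ (M.map (Int.castRingHom ℚ)).rank := by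
  classical
  obtain ⟨κ, a, ha, hspan, hli⟩ := exists_linearIndependent' k (M.map (Int.castRingHom k)).row
  have : Finite κ := Finite.of_injective a ha
  have : Fintype κ := Fintype.ofFinite κ
  have h1 : (M.map (Int.castRingHom k)).rank = Fintype.card κ := by
    rw [Matrix.rank_eq_finrank_span_row, ← hspan]
    exact finrank_span_eq_card hli
  have h2 : LinearIndependent ℚ ((M.map (Int.castRingHom ℚ)).row ∘ a) :=
    li_of_li (k := k) (p := p) (fun i : κ => M (a i)) hli
  rw [h1, Matrix.rank_eq_finrank_span_row, ← finrank_span_eq_card h2]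
  apply Submodule.finrank_mono
  exact Submodule.span_mono (Set.range_comp_subset_range _ _)
-- END rk_le

-- BEGIN rk_quasi
/-- PROOF. `f = toLin' P` (mulVecLin), `g = H - f`: `f ∘ g = 0`, `g ∘ f = 0`, `f + g = H`;
`ker f = range g` (if `f v = 0` then `v = H⁻¹ g v`), rank-nullity. -/
theorem rk_quasi {F : Type} [Field F] {n : Type} [Fintype n] [DecidableEq n] (P : Matrix n n F)
    (H : F) (hH : H ≠ 0) (hP : P * P = H • P) :
    P.rank + (H • (1 : Matrix n n F) - P).rank = Fintype.card n := by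
  have hker : LinearMap.range (H • (1 : Matrix n n F) - P).mulVecLin =
      LinearMap.ker P.mulVecLin := by
    ext v
    rw [LinearMap.mem_range, LinearMap.mem_ker]
    constructor
    · rintro ⟨w, rfl⟩
      rw [Matrix.mulVecLin_apply, Matrix.mulVecLin_apply, Matrix.mulVec_mulVec, mul_sub, hP,
        mul_smul_comm, mul_one, sub_self, Matrix.zero_mulVec]
    · intro hv
      rw [Matrix.mulVecLin_apply] at hv
      refine ⟨H⁻¹ • v, ?_⟩
      rw [Matrix.mulVecLin_apply, Matrix.sub_mulVec, Matrix.smul_mulVec, Matrix.one_mulVec,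
        Matrix.mulVec_smul, hv, smul_zero, sub_zero, smul_smul, mul_inv_cancel₀ hH, one_smul]
  have h := LinearMap.finrank_range_add_finrank_ker P.mulVecLin
  rw [← hker, Module.finrank_fintype_fun_eq_card] at h
  exact h
-- END rk_quasi

-- BEGIN tr_quasi
/-- PROOF. `E = H⁻¹ • P` is idempotent, `trace E = rank E` (`LinearMap.IsProj.trace`, look for
`LinearMap.IsIdempotentElem`/`Matrix` versions), `rank E = rank P`. -/
theorem tr_quasi {F : Type} [Field F] {n : Type} [Fintype n] [DecidableEq n]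
    (P : Matrix n n F) (H : F) (hH : H ≠ 0) (hP : P * P = H • P) :
    P.trace = H * (P.rank : F) := by
  have hproj : LinearMap.IsProj (LinearMap.range P.mulVecLin) (H⁻¹ • P.mulVecLin) := by
    constructor
    · intro x
      exact Submodule.smul_mem _ _ (LinearMap.mem_range_self _ x)
    · rintro _ ⟨w, rfl⟩
      rw [LinearMap.smul_apply, Matrix.mulVecLin_apply, Matrix.mulVecLin_apply,
        Matrix.mulVec_mulVec, hP, Matrix.smul_mulVec, smul_smul, inv_mul_cancel₀ hH, one_smul]
  have h := hproj.trace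
  rw [map_smul, smul_eq_mul] at h
  have h2 : LinearMap.trace F (n → F) P.mulVecLin = P.trace := by
    rw [← Matrix.toLin'_apply', Matrix.trace_toLin'_eq]
  rw [h2] at h
  have h3 : (P.rank : F) = H⁻¹ * P.trace := h.symm
  rw [h3, ← mul_assoc, mul_inv_cancel₀ hH, one_mul]
-- END tr_quasi

-- BEGIN rk_ge
/-- PROOF. Over `ℚ`: `rank P = R` (`tr_quasi`), `rank (H - P) = card - R` (`rk_quasi`);
over `k`: `H ≠ 0`, `rank P + rank (H - P) = card` and `rank_k (H - P) ≤ rank_ℚ (H - P)` (`rk_le`). -/
theorem rk_ge {p : ℕ} [Fact p.Prime] {k : Type} [Field k] [CharP k p] {n : Type} [Fintype n]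
    [DecidableEq n] (P : Matrix n n ℤ) (H R : ℕ) (hH : ¬ p ∣ H) (hP : P * P = (H : ℤ) • P)
    (htr : P.trace = (R : ℤ) * H) :
    R ≤ (P.map (Int.castRingHom k)).rank := by
  have key : ∀ (F : Type) [Field F] (hF : (H : F) ≠ 0),
      (P.map (Int.castRingHom F)).rank +
        (((H : ℤ) • (1 : Matrix n n ℤ) - P).map (Int.castRingHom F)).rank = Fintype.card n ∧
      (R : F) * H = H * ((P.map (Int.castRingHom F)).rank : F) := by
    intro F _ hF
    have e1 : P.map (Int.castRingHom F) * P.map (Int.castRingHom F) =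
        (H : F) • P.map (Int.castRingHom F) := by
      rw [← Matrix.map_mul, hP]
      ext i j
      simp only [Matrix.map_apply, Matrix.smul_apply, smul_eq_mul, map_mul, map_natCast]
    have e2 : ((H : ℤ) • (1 : Matrix n n ℤ) - P).map (Int.castRingHom F) =
        (H : F) • (1 : Matrix n n F) - P.map (Int.castRingHom F) := by
      ext i j
      simp only [Matrix.map_apply, Matrix.sub_apply, Matrix.smul_apply, smul_eq_mul, map_sub,
        map_mul, map_natCast]
      by_cases hij : i = j
      · subst hij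
        rw [Matrix.one_apply_eq, Matrix.one_apply_eq, map_one]
      · rw [Matrix.one_apply_ne hij, Matrix.one_apply_ne hij, map_zero]
    refine ⟨?_, ?_⟩
    · rw [e2]
      exact rk_quasi _ _ hF e1
    · rw [← tr_quasi _ _ hF e1]
      have e3 := congrArg (Int.castRingHom F) htr
      simp only [Matrix.trace, Matrix.diag, map_sum, map_mul, map_natCast] at e3
      simp only [Matrix.trace, Matrix.diag, Matrix.map_apply]
      exact e3.symm
  have hH0 : H ≠ 0 := fun h0 => hH (h0 ▸ dvd_zero p)
  have hQ : (H : ℚ) ≠ 0 := Nat.cast_ne_zero.2 hH0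
  have hk : (H : k) ≠ 0 := fun h0 => hH ((CharP.cast_eq_zero_iff k p H).1 h0)
  obtain ⟨q1, q2⟩ := key ℚ hQ
  obtain ⟨k1, -⟩ := key k hk
  have hR : R = (P.map (Int.castRingHom ℚ)).rank := by
    have : (R : ℚ) = ((P.map (Int.castRingHom ℚ)).rank : ℚ) := by
      have h4 : (H : ℚ) * R = H * ((P.map (Int.castRingHom ℚ)).rank : ℚ) := by
        rw [← q2]; ring
      exact mul_left_cancel₀ hQ h4
    exact_mod_cast this
  have hle := rk_le (k := k) (p := p) ((H : ℤ) • (1 : Matrix n n ℤ) - P)
  omega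
-- END rk_ge

-- BEGIN ssDim_ge_range
/-- PROOF. `LinearMap.mulLeft k b` vanishes on `J`, so it factors through `k[G] ⧸ J` (`Submodule.liftQ`),
with the same range; `finrank_range_le`. -/
theorem ssDim_ge_range {k G : Type} [Field k] [Group G] [Finite G] (b : MonoidAlgebra k G)
    (hb : ∀ x ∈ Ring.jacobson (MonoidAlgebra k G), b * x = 0) :
    Module.finrank k (LinearMap.range (LinearMap.mulLeft k b)) ≤ ssDim k G := by
  have hle : (Ring.jacobson (MonoidAlgebra k G)).restrictScalars k ≤
      LinearMap.ker (LinearMap.mulLeft k b) := by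
    intro x hx
    rw [LinearMap.mem_ker, LinearMap.mulLeft_apply]
    exact hb x hx
  have h := LinearMap.finrank_range_le
    (Submodule.liftQ ((Ring.jacobson (MonoidAlgebra k G)).restrictScalars k)
      (LinearMap.mulLeft k b) hle)
  rw [Submodule.range_liftQ] at h
  exact h
-- END ssDim_ge_range

-- BEGIN bj_zero
/-- PROOF. For `h : G`: `(b * x) h = (b * (x * single h⁻¹ 1)) 1 = ∑ g, χ g * (x * single h⁻¹ 1) g`
(the coefficient of `b` at `g⁻¹` is `χ g`), and `x * single h⁻¹ 1` is in the Jacobson radical (two-sided), so nilpotent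
(`nilpotent_of_mem_jacobson`): `hnil` gives zero. -/
theorem bj_zero {k G : Type} [Field k] [Group G] [Fintype G] (χ : G → ℤ)
    (hnil : ∀ a : MonoidAlgebra k G, IsNilpotent a → ∑ g, a.coeff g * ((χ g : ℤ) : k) = 0)
    (x : MonoidAlgebra k G) (hx : x ∈ Ring.jacobson (MonoidAlgebra k G)) :
    (∑ g : G, single g ((χ g⁻¹ : ℤ) : k)) * x = 0 := by
  ext h
  rw [Finset.sum_mul, MonoidAlgebra.coeff_sum, Finsupp.finset_sum_apply]
  simp only [MonoidAlgebra.coeff_single_mul_apply]
  have hmem : x * single h⁻¹ (1 : k) ∈ Ring.jacobson (MonoidAlgebra k G) :=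
    Ideal.mul_mem_right _ _ hx
  have h0 := hnil _ (nilpotent_of_mem_jacobson hmem)
  simp only [MonoidAlgebra.coeff_mul_single_apply, inv_inv, mul_one] at h0
  rw [MonoidAlgebra.coeff_zero, Finsupp.zero_apply, ← h0]
  rw [← Equiv.sum_comp (Equiv.inv G)]
  refine Finset.sum_congr rfl fun g _ => ?_
  rw [Equiv.inv_apply, inv_inv, mul_comm]
-- END bj_zero

-- BEGIN rank_range
/-- PROOF. In the basis `single g 1` (`MonoidAlgebra.basis G k` or the linear equivalence to `G → k`)
the matrix of `LinearMap.mulLeft k b` is `P x h = χ (h * x⁻¹)`: `b * single h 1 = ∑ g, single (g * h) (χ g⁻¹)`.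
`LinearMap.rank`/`Matrix.rank` of `LinearMap.toMatrix`. -/
theorem rank_range {k G : Type} [Field k] [Group G] [Fintype G] (χ : G → ℤ) :
    ((Matrix.of (fun x h : G => χ (h * x⁻¹))).map (Int.castRingHom k)).rank =
      Module.finrank k (LinearMap.range (LinearMap.mulLeft k
        (∑ g : G, single g ((χ g⁻¹ : ℤ) : k)))) := by
  classical
  rw [Matrix.rank_eq_finrank_range_toLin _ (MonoidAlgebra.basis G k) (MonoidAlgebra.basis G k)]
  have he : Matrix.toLin (MonoidAlgebra.basis G k) (MonoidAlgebra.basis G k)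
      ((Matrix.of (fun x h : G => χ (h * x⁻¹))).map (Int.castRingHom k)) =
      LinearMap.mulLeft k (∑ g : G, single g ((χ g⁻¹ : ℤ) : k)) := by
    refine (MonoidAlgebra.basis G k).ext fun h => ?_
    rw [Matrix.toLin_self, LinearMap.mulLeft_apply, Finset.sum_mul]
    simp only [MonoidAlgebra.basis_apply, Matrix.map_apply, Matrix.of_apply,
      MonoidAlgebra.single_mul_single, mul_one, MonoidAlgebra.smul_single, smul_eq_mul]
    rw [← Equiv.sum_comp (Equiv.mulRight h)]
    refine Finset.sum_congr rfl fun g _ => ?_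
    rw [Equiv.coe_mulRight, mul_inv_rev, mul_inv_cancel_left]
    rfl
  rw [he]
-- END rank_range

-- BEGIN ssDim_ge
/-- PROOF. `rk_ge` with `P x h = χ (h * x⁻¹)` and `R = f ^ 2`; `P * P = H • P` by `hconv`
(`∑ y, χ (y * x⁻¹) * χ (h * y⁻¹)`, put `g = h * y⁻¹`), trace `card G * f = f ^ 2 * H`;
`rank_range`, `bj_zero`, `ssDim_ge_range`. -/
theorem ssDim_ge {p : ℕ} [Fact p.Prime] {k : Type} [Field k] [CharP k p] {G : Type} [Group G]
    [Fintype G] (χ : G → ℤ) (H f : ℕ) (hH : ¬ p ∣ H) (hf : f * H = Fintype.card G)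
    (h1 : χ 1 = f) (hconv : ∀ x, ∑ g, χ g * χ (g⁻¹ * x) = H * χ x)
    (hnil : ∀ a : MonoidAlgebra k G, IsNilpotent a → ∑ g, a.coeff g * ((χ g : ℤ) : k) = 0) :
    f ^ 2 ≤ ssDim k G := by
  classical
  have hP : (Matrix.of (fun x h : G => χ (h * x⁻¹))) * (Matrix.of (fun x h : G => χ (h * x⁻¹))) =
      (H : ℤ) • (Matrix.of (fun x h : G => χ (h * x⁻¹))) := by
    ext x h
    rw [Matrix.mul_apply, Matrix.smul_apply, Matrix.of_apply, smul_eq_mul, ← hconv]
    refine Finset.sum_bij' (fun y _ => h * y⁻¹) (fun g _ => g⁻¹ * h) (by simp) (by simp)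
      (fun y _ => by group) (fun g _ => by group) (fun y _ => ?_)
    rw [Matrix.of_apply, Matrix.of_apply, mul_comm]
    congr 2
    group
  have htr : (Matrix.of (fun x h : G => χ (h * x⁻¹))).trace = ((f ^ 2 : ℕ) : ℤ) * H := by
    simp only [Matrix.trace, Matrix.diag, Matrix.of_apply, mul_inv_cancel, h1, Finset.sum_const,
      Finset.card_univ, nsmul_eq_mul]
    rw [← hf]
    push_cast
    ring
  have h2 := rk_ge (k := k) (p := p) _ H (f ^ 2) hH hP htr
  rw [rank_range] at h2
  exact h2.trans (ssDim_ge_range _ fun x hx => bj_zero χ hnil x hx)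
-- END ssDim_ge

end Pool.Agent.Wil
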