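import Mathlib
import Pool.Agent.Wil.Mod
import Pool.Agent.Wil.Cauchy

set_option autoImplicit false

/-! Pages C and D: the Frobenius combination, its degree, cores. -/

namespace Pool.Agent.Wil

/-- The Frobenius combination. -/
noncomputable def frob {n r : ℕ} (X : Fin r → ℕ) (g : Equiv.Perm (Fin n)) : ℤ :=
  ∑ σ : Equiv.Perm (Fin r), (Equiv.Perm.sign σ : ℤ) *
    (pic X (fun i => ((σ i : Fin r) : ℕ)) g : ℤ)

-- BEGIN frob_virt
theorem frob_virt {n r : ℕ} (X : Fin r → ℕ) : Virt (frob (n := n) X) := by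
  choose Ω hΩ ρ hρ using fun σ : Equiv.Perm (Fin r) =>
    pic_perm (n := n) X (fun i => ((σ i : Fin r) : ℕ))
  refine ⟨Equiv.Perm (Fin r), inferInstance, Ω, hΩ, ρ, fun σ => (Equiv.Perm.sign σ : ℤ), ?_⟩
  intro g
  simp only [frob]
  refine Finset.sum_congr rfl fun σ _ => ?_
  rw [hρ σ g]
-- END frob_virt

-- BEGIN frob_norm
theorem frob_norm {n r : ℕ} (X : Fin r → ℕ) (hX : Function.Injective X)
    (hn : n + ∑ i : Fin r, (i : ℕ) = ∑ i, X i) :
    ∑ g : Equiv.Perm (Fin n), frob X g * frob X g⁻¹ = (n.factorial : ℤ) := by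
  have h1 : ∀ g : Equiv.Perm (Fin n), frob X g⁻¹ = frob X g := by
    intro g
    simp only [frob]
    refine Finset.sum_congr rfl fun σ _ => ?_
    rw [pic_inv]
  have h2 : ∀ σ : Equiv.Perm (Fin r), n + ∑ i, ((σ i : Fin r) : ℕ) = ∑ i, X i := by
    intro σ
    rw [Equiv.sum_comp σ (fun i : Fin r => (i : ℕ)), hn]
  have h3 : ∀ g : Equiv.Perm (Fin n), frob X g * frob X g⁻¹ =
      ∑ σ : Equiv.Perm (Fin r), ∑ τ : Equiv.Perm (Fin r), (Equiv.Perm.sign σ : ℤ) *
        (Equiv.Perm.sign τ : ℤ) * ((pic X (fun i => ((σ i : Fin r) : ℕ)) g : ℤ) *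
          (pic X (fun i => ((τ i : Fin r) : ℕ)) g : ℤ)) := by
    intro g
    rw [h1]
    simp only [frob]
    rw [Finset.sum_mul_sum]
    refine Finset.sum_congr rfl fun σ _ => Finset.sum_congr rfl fun τ _ => ?_
    ring
  rw [Finset.sum_congr rfl fun g _ => h3 g, Finset.sum_comm]
  have h4 : ∀ σ : Equiv.Perm (Fin r), ∑ g : Equiv.Perm (Fin n), ∑ τ : Equiv.Perm (Fin r),
      (Equiv.Perm.sign σ : ℤ) *
        (Equiv.Perm.sign τ : ℤ) * ((pic X (fun i => ((σ i : Fin r) : ℕ)) g : ℤ) *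
          (pic X (fun i => ((τ i : Fin r) : ℕ)) g : ℤ)) =
      ∑ τ : Equiv.Perm (Fin r), (n.factorial : ℤ) * ((Equiv.Perm.sign σ : ℤ) *
        (Equiv.Perm.sign τ : ℤ) *
        (cM Finset.univ X (fun i => ((σ i : Fin r) : ℕ)) (fun i => ((τ i : Fin r) : ℕ)) : ℤ)) := by
    intro σ
    rw [Finset.sum_comm]
    refine Finset.sum_congr rfl fun τ _ => ?_
    rw [← Finset.mul_sum]
    have h5 := pic_pair (n := n) X (fun i => ((σ i : Fin r) : ℕ)) (fun i => ((τ i : Fin r) : ℕ)) (h2 σ)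
    have h6 : ∑ g : Equiv.Perm (Fin n), ((pic X (fun i => ((σ i : Fin r) : ℕ)) g : ℤ) *
          (pic X (fun i => ((τ i : Fin r) : ℕ)) g : ℤ)) = (n.factorial : ℤ) *
          (cM Finset.univ X (fun i => ((σ i : Fin r) : ℕ)) (fun i => ((τ i : Fin r) : ℕ)) : ℤ) := by
      exact_mod_cast h5
    rw [h6]; ring
  rw [Finset.sum_congr rfl fun σ _ => h4 σ]
  have h7 := cM_norm X hX
  simp only [← Finset.mul_sum]
  rw [h7, mul_one]
-- END frob_norm

-- BEGIN det_desc
theorem det_desc {r : ℕ} (X : Fin r → ℕ) :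
    ∑ σ : Equiv.Perm (Fin r), (Equiv.Perm.sign σ : ℤ) *
        ∏ i, (((X i).descFactorial (σ i) : ℕ) : ℤ) =
      ∏ i : Fin r, ∏ j ∈ Finset.Ioi i, ((X j : ℤ) - (X i : ℤ)) := by
  have h := Matrix.det_eval_matrixOfPolynomials_eq_det_vandermonde (fun i : Fin r => (X i : ℤ))
    (fun j : Fin r => descPochhammer ℤ j) (fun i => descPochhammer_natDegree ℤ i)
    (fun i => monic_descPochhammer ℤ i)
  rw [Matrix.det_vandermonde] at h
  rw [h, ← Matrix.det_transpose, Matrix.det_apply']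
  refine Finset.sum_congr rfl fun σ _ => ?_
  congr 1
  refine Finset.prod_congr rfl fun i _ => ?_
  rw [Matrix.transpose_apply, Matrix.of_apply]
  exact (descPochhammer_eval_eq_descFactorial ℤ (X i) (σ i)).symm
-- END det_desc

-- BEGIN frob_one
theorem frob_one {n r : ℕ} (X : Fin r → ℕ) (hn : n + ∑ i : Fin r, (i : ℕ) = ∑ i, X i) :
    frob X (1 : Equiv.Perm (Fin n)) * ∏ i, ((X i).factorial : ℤ) =
      (n.factorial : ℤ) * ∏ i : Fin r, ∏ j ∈ Finset.Ioi i, ((X j : ℤ) - (X i : ℤ)) := by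
  rw [← det_desc]
  simp only [frob]
  rw [Finset.sum_mul, Finset.mul_sum]
  refine Finset.sum_congr rfl fun σ _ => ?_
  have h2 : n + ∑ i, ((σ i : Fin r) : ℕ) = ∑ i, X i := by
    rw [Equiv.sum_comp σ (fun i : Fin r => (i : ℕ)), hn]
  have h3 := pic_one (n := n) X (fun i => ((σ i : Fin r) : ℕ)) h2
  have h4 : (pic X (fun i => ((σ i : Fin r) : ℕ)) (1 : Equiv.Perm (Fin n)) : ℤ) *
      ∏ i, ((X i).factorial : ℤ) = (n.factorial : ℤ) * ∏ i, (((X i).descFactorial (σ i) : ℕ) : ℤ) := by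
    exact_mod_cast h3
  rw [mul_assoc, h4]; ring
-- END frob_one

-- BEGIN sq_le
theorem sq_le {p : ℕ} [Fact p.Prime] {k : Type} [Field k] [CharP k p] {n r : ℕ} (X : Fin r → ℕ)
    (hX : StrictMono X) (hn : n + ∑ i : Fin r, (i : ℕ) = ∑ i, X i) (H : ℕ) (hH : ¬ p ∣ H)
    (hdet : ∏ i, ((X i).factorial : ℤ) =
      (H : ℤ) * ∏ i : Fin r, ∏ j ∈ Finset.Ioi i, ((X j : ℤ) - (X i : ℤ))) :
    ∃ f : ℕ, f * H = n.factorial ∧ f ^ 2 ≤ ssDim k (Equiv.Perm (Fin n)) := by
  have hV : (0 : ℤ) < ∏ i : Fin r, ∏ j ∈ Finset.Ioi i, ((X j : ℤ) - (X i : ℤ)) := by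
    refine Finset.prod_pos fun i _ => Finset.prod_pos fun j hj => ?_
    have := hX (Finset.mem_Ioi.1 hj)
    have : (X i : ℤ) < X j := by exact_mod_cast this
    linarith
  have hH0 : 0 < H := by
    rcases Nat.eq_zero_or_pos H with h | h
    · exact absurd (h ▸ dvd_zero p) hH
    · exact h
  have h1 := frob_one X hn
  rw [hdet] at h1
  have h2 : frob X (1 : Equiv.Perm (Fin n)) * (H : ℤ) = (n.factorial : ℤ) := by
    apply mul_right_cancel₀ hV.ne'
    rw [← h1]; ring
  have h3 : 0 < frob X (1 : Equiv.Perm (Fin n)) := by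
    have : (0 : ℤ) < frob X (1 : Equiv.Perm (Fin n)) * (H : ℤ) := by
      rw [h2]; exact_mod_cast n.factorial_pos
    exact pos_of_mul_pos_left this (by exact_mod_cast hH0.le)
  obtain ⟨f, hf⟩ := Int.eq_ofNat_of_zero_le h3.le
  have hfpos : 0 < f := by
    rw [hf] at h3; exact_mod_cast h3
  have h4 : f * H = n.factorial := by
    rw [hf] at h2; exact_mod_cast h2
  have hcard : Fintype.card (Equiv.Perm (Fin n)) = n.factorial := by
    rw [Fintype.card_perm, Fintype.card_fin]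
  refine ⟨f, h4, ?_⟩
  have hn' : ∑ g : Equiv.Perm (Fin n), frob X g * frob X g⁻¹ =
      (Fintype.card (Equiv.Perm (Fin n)) : ℤ) := by
    rw [hcard]; exact frob_norm X hX.injective hn
  have hv := frob_virt (n := n) X
  exact ssDim_ge (p := p) (k := k) (frob X) H f hH (by rw [hcard, h4]) hf
    (fun x => norm_one (frob X) hv f H hn' hf hfpos (by rw [hcard, h4]) x)
    (fun a ha => virt_nil (frob X) hv a ha)
-- END sq_le

/-- The pairs `(x, y)` with `x ∈ S`, `y ∉ S`, `y < x` (the cells of the diagram). -/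
def cells (S : Finset ℕ) : Finset (ℕ × ℕ) :=
  S.biUnion (fun x => ((Finset.range x).filter (fun y => y ∉ S)).image (fun y => (x, y)))

-- BEGIN mem_cells
theorem mem_cells (S : Finset ℕ) (z : ℕ × ℕ) : z ∈ cells S ↔ z.1 ∈ S ∧ z.2 ∉ S ∧ z.2 < z.1 := by
  obtain ⟨x, y⟩ := z
  simp only [cells, Finset.mem_biUnion, Finset.mem_image, Finset.mem_filter, Finset.mem_range,
    Prod.mk.injEq]
  constructor
  · rintro ⟨a, ha, b, ⟨hb1, hb2⟩, rfl, rfl⟩
    exact ⟨ha, hb2, hb1⟩
  · rintro ⟨h1, h2, h3⟩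
    exact ⟨x, h1, y, ⟨h3, h2⟩, rfl, rfl⟩

/-- PROOF. Fibre over the first coordinate. -/
theorem prod_cells {M : Type} [CommMonoid M] (S : Finset ℕ) (F : ℕ → ℕ → M) :
    ∏ z ∈ cells S, F z.1 z.2 =
      ∏ x ∈ S, ∏ y ∈ (Finset.range x).filter (fun y => y ∉ S), F x y := by
  rw [cells, Finset.prod_biUnion]
  · refine Finset.prod_congr rfl fun x _ => ?_
    rw [Finset.prod_image]
    intro a _ b _ hab
    exact (Prod.mk.inj hab).2
  · intro a _ b _ hab
    rw [Function.onFun, Finset.disjoint_left]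
    intro z h1 h2
    rw [Finset.mem_image] at h1 h2
    obtain ⟨y1, _, h1⟩ := h1
    obtain ⟨y2, _, h2⟩ := h2
    rw [← h1] at h2
    exact hab (Prod.mk.inj h2).1.symm
-- END mem_cells

-- BEGIN cells_card
private theorem cells_card_below (S : Finset ℕ) (i : Fin S.card) :
    (Finset.range (S.orderEmbOfFin rfl i)).filter (fun y => y ∈ S) =
      (Finset.Iio i).map (S.orderEmbOfFin rfl).toEmbedding := by
  ext y
  simp only [Finset.mem_filter, Finset.mem_range, Finset.mem_map, Finset.mem_Iio]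
  constructor
  · rintro ⟨h1, h2⟩
    have h3 : y ∈ Set.range (S.orderEmbOfFin rfl) := by
      rw [Finset.range_orderEmbOfFin]
      exact h2
    obtain ⟨j, hj⟩ := h3
    refine ⟨j, ?_, hj⟩
    rw [← hj] at h1
    exact (S.orderEmbOfFin rfl).lt_iff_lt.1 h1
  · rintro ⟨j, hj, rfl⟩
    exact ⟨(S.orderEmbOfFin rfl).lt_iff_lt.2 hj, Finset.orderEmbOfFin_mem S rfl j⟩

private theorem cells_card_reindex {M : Type} [AddCommMonoid M] (S : Finset ℕ) (G : ℕ → M) :
    ∑ x ∈ S, G x = ∑ i : Fin S.card, G (S.orderEmbOfFin rfl i) := by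
  have h1 : (Finset.univ : Finset (Fin S.card)).map (S.orderEmbOfFin rfl).toEmbedding = S := by
    ext y
    simp only [Finset.mem_map, Finset.mem_univ, true_and]
    have h2 : y ∈ Set.range (S.orderEmbOfFin rfl) ↔ y ∈ S := by
      rw [Finset.range_orderEmbOfFin]
      exact Iff.rfl
    exact h2
  calc ∑ x ∈ S, G x =
      ∑ x ∈ (Finset.univ : Finset (Fin S.card)).map (S.orderEmbOfFin rfl).toEmbedding, G x := by
        rw [h1]
    _ = ∑ i : Fin S.card, G (S.orderEmbOfFin rfl i) := by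
        rw [Finset.sum_map]
        rfl

/-- PROOF. `prod_cells` additively (or `Finset.card_biUnion`): `#cells = ∑ x ∈ S, (x - #{y ∈ S | y < x})`, and with
`x = S.orderEmbOfFin rfl i` one has `#{y ∈ S | y < x} = i`. -/
theorem cells_card (S : Finset ℕ) :
    (cells S).card + ∑ i : Fin S.card, (i : ℕ) = ∑ i : Fin S.card, S.orderEmbOfFin rfl i := by
  have h1 : (cells S).card = ∑ x ∈ S, ((Finset.range x).filter (fun y => y ∉ S)).card := by
    rw [cells, Finset.card_biUnion]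
    · refine Finset.sum_congr rfl fun x _ => ?_
      rw [Finset.card_image_of_injective]
      intro a b hab
      exact (Prod.mk.inj hab).2
    · intro a _ b _ hab
      rw [Function.onFun, Finset.disjoint_left]
      intro z h1 h2
      rw [Finset.mem_image] at h1 h2
      obtain ⟨y1, _, h1⟩ := h1
      obtain ⟨y2, _, h2⟩ := h2
      rw [← h1] at h2
      exact hab (Prod.mk.inj h2).1.symm
  rw [h1, cells_card_reindex, ← Finset.sum_add_distrib]
  refine Finset.sum_congr rfl fun i _ => ?_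
  have h2 : ((Finset.range (S.orderEmbOfFin rfl i)).filter (fun y => y ∈ S)).card = i := by
    rw [cells_card_below, Finset.card_map, Fin.card_Iio]
  have h3 := Finset.card_filter_add_card_filter_not
    (s := Finset.range (S.orderEmbOfFin rfl i)) (fun y => y ∈ S)
  rw [Finset.card_range] at h3
  omega
-- END cells_card

-- BEGIN cells_hook
private theorem cells_hook_fact (x : ℕ) : ∏ y ∈ Finset.range x, (x - y) = x.factorial := by
  rw [← Finset.prod_range_add_one_eq_factorial, ← Finset.prod_range_reflect]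
  refine Finset.prod_congr rfl fun y hy => ?_
  have := Finset.mem_range.1 hy
  omega

private theorem cells_hook_reindex (S : Finset ℕ) (G : ℕ → ℤ) :
    ∏ x ∈ S, G x = ∏ i : Fin S.card, G (S.orderEmbOfFin rfl i) := by
  have h1 : (Finset.univ : Finset (Fin S.card)).map (S.orderEmbOfFin rfl).toEmbedding = S := by
    ext y
    simp only [Finset.mem_map, Finset.mem_univ, true_and]
    have h2 : y ∈ Set.range (S.orderEmbOfFin rfl) ↔ y ∈ S := by
      rw [Finset.range_orderEmbOfFin]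
      exact Iff.rfl
    exact h2
  calc ∏ x ∈ S, G x =
      ∏ x ∈ (Finset.univ : Finset (Fin S.card)).map (S.orderEmbOfFin rfl).toEmbedding, G x := by
        rw [h1]
    _ = ∏ i : Fin S.card, G (S.orderEmbOfFin rfl i) := by
        rw [Finset.prod_map]
        rfl

/-- PROOF. `x ! = ∏ y ∈ range x, (x - y) = (∏ over y ∉ S) * (∏ over y ∈ S, y < x)` (`Finset.prod_range_reflect`, `Finset.prod_range_add_one_eq_factorial`),
and the `y ∈ S`, `y < x = X j` are the `X i`, `i < j`; exchange `i < j` with `Finset.Ioi`/`Finset.Iio`. -/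
theorem cells_hook (S : Finset ℕ) :
    ∏ i : Fin S.card, ((S.orderEmbOfFin rfl i).factorial : ℤ) =
      ((∏ z ∈ cells S, (z.1 - z.2) : ℕ) : ℤ) *
        ∏ i : Fin S.card, ∏ j ∈ Finset.Ioi i,
          ((S.orderEmbOfFin rfl j : ℤ) - (S.orderEmbOfFin rfl i : ℤ)) := by
  have h1 : ((∏ z ∈ cells S, (z.1 - z.2) : ℕ) : ℤ) = ∏ i : Fin S.card,
      ((∏ y ∈ (Finset.range (S.orderEmbOfFin rfl i)).filter (fun y => y ∉ S),
        (S.orderEmbOfFin rfl i - y) : ℕ) : ℤ) := by
    rw [prod_cells S (fun x y => x - y), Nat.cast_prod, cells_hook_reindex S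
      (fun x => ((∏ y ∈ (Finset.range x).filter (fun y => y ∉ S), (x - y) : ℕ) : ℤ))]
  have h2 : (∏ i : Fin S.card, ∏ j ∈ Finset.Ioi i,
      ((S.orderEmbOfFin rfl j : ℤ) - (S.orderEmbOfFin rfl i : ℤ))) =
      ∏ j : Fin S.card, ∏ i ∈ Finset.Iio j,
        ((S.orderEmbOfFin rfl j : ℤ) - (S.orderEmbOfFin rfl i : ℤ)) := by
    refine Finset.prod_comm' fun i j => ?_
    simp only [Finset.mem_univ, true_and, Finset.mem_Ioi, Finset.mem_Iio, and_true]
  have h3 : ∀ j : Fin S.card, (∏ i ∈ Finset.Iio j,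
      ((S.orderEmbOfFin rfl j : ℤ) - (S.orderEmbOfFin rfl i : ℤ))) =
      ((∏ y ∈ (Finset.range (S.orderEmbOfFin rfl j)).filter (fun y => y ∈ S),
        (S.orderEmbOfFin rfl j - y) : ℕ) : ℤ) := by
    intro j
    rw [cells_card_below, Finset.prod_map, Nat.cast_prod]
    refine Finset.prod_congr rfl fun i hi => ?_
    have h4 : S.orderEmbOfFin rfl i < S.orderEmbOfFin rfl j :=
      (S.orderEmbOfFin rfl).lt_iff_lt.2 (Finset.mem_Iio.1 hi)
    exact (Nat.cast_sub h4.le).symm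
  rw [h1, h2, ← Finset.prod_mul_distrib]
  refine Finset.prod_congr rfl fun j _ => ?_
  rw [h3 j, ← Nat.cast_mul, ← cells_hook_fact (S.orderEmbOfFin rfl j)]
  congr 1
  rw [mul_comm]
  exact (Finset.prod_filter_mul_prod_filter_not _ _ _).symm
-- END cells_hook

-- BEGIN sq_le_set
/-- PROOF. `sq_le` with `X = S.orderEmbOfFin rfl`, `cells_card`, `cells_hook`. -/
theorem sq_le_set {p : ℕ} [Fact p.Prime] {k : Type} [Field k] [CharP k p] (S : Finset ℕ)
    (hS : ¬ p ∣ ∏ z ∈ cells S, (z.1 - z.2)) :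
    ∃ f : ℕ, f * (∏ z ∈ cells S, (z.1 - z.2)) = (cells S).card.factorial ∧
      f ^ 2 ≤ ssDim k (Equiv.Perm (Fin (cells S).card)) :=
  sq_le (p := p) (k := k) (n := (cells S).card) (fun i : Fin S.card => S.orderEmbOfFin rfl i)
    (S.orderEmbOfFin rfl).strictMono (cells_card S) _ hS (cells_hook S)
-- END sq_le_set

/-- The beta set `{q p + i : q < m i}` of a core. -/
def beta {p : ℕ} (m : Fin p → ℕ) : Finset ℕ :=
  Finset.univ.biUnion (fun i : Fin p => (Finset.range (m i)).image (fun q => q * p + (i : ℕ)))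

-- BEGIN mem_beta
/-- PROOF. `Nat.div_add_mod`; uniqueness of quotient and remainder. -/
theorem mem_beta {p : ℕ} (m : Fin p → ℕ) (q : ℕ) (i : Fin p) :
    q * p + (i : ℕ) ∈ beta m ↔ q < m i := by
  simp only [beta, Finset.mem_biUnion, Finset.mem_univ, true_and, Finset.mem_image,
    Finset.mem_range]
  constructor
  · rintro ⟨i', q', h1, h2⟩
    have hp : 0 < p := i.pos
    have e1 : (q' * p + (i' : ℕ)) % p = i' := by
      rw [Nat.mul_add_mod_of_lt i'.2]
    have e2 : (q * p + (i : ℕ)) % p = i := by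
      rw [Nat.mul_add_mod_of_lt i.2]
    have e3 : i' = i := Fin.ext (by rw [← e1, ← e2, h2])
    subst e3
    have e4 : q' * p = q * p := by omega
    have e5 : q' = q := Nat.eq_of_mul_eq_mul_right hp e4
    rw [← e5]
    exact h1
  · intro h
    exact ⟨i, q, h, rfl⟩
-- END mem_beta

-- BEGIN beta_not_dvd
/-- PROOF. `Prime.dvd_finset_prod_iff`: if `p ∣ x - y` with `x ∈ beta m`, `y ∉ beta m`, `y < x`, then `x = q p + i`, `y = q' p + i` with
`q' < q < m i`, contradiction to `mem_beta`. -/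
theorem beta_not_dvd {p : ℕ} (hp : p.Prime) (m : Fin p → ℕ) :
    ¬ p ∣ ∏ z ∈ cells (beta m), (z.1 - z.2) := by
  intro hdvd
  obtain ⟨z, hz, t, ht⟩ := (Prime.dvd_finsetProd_iff hp.prime _).1 hdvd
  obtain ⟨h1, h2, h3⟩ := (mem_cells _ _).1 hz
  simp only [beta, Finset.mem_biUnion, Finset.mem_univ, true_and, Finset.mem_image,
    Finset.mem_range] at h1
  obtain ⟨i, q, hq, h4⟩ := h1
  have hi := i.2
  have ht1 : t ≤ q := by
    by_contra hc
    push Not at hc
    have h5 : p * (q + 1) ≤ p * t := Nat.mul_le_mul_left p hc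
    have h6 : p * (q + 1) = q * p + p := by ring
    omega
  have h7 : z.2 = (q - t) * p + (i : ℕ) := by
    have h8 : q * p = (q - t) * p + p * t := by
      obtain ⟨r, hr⟩ := Nat.exists_eq_add_of_le ht1
      rw [hr, Nat.add_sub_cancel_left]
      ring
    omega
  apply h2
  rw [h7, mem_beta]
  omega
-- END beta_not_dvd

-- BEGIN sum_cells_beta
private theorem sum_cells_beta_mem {p : ℕ} (hp : 0 < p) (m : Fin p → ℕ) (x : ℕ) :
    x ∈ beta m ↔ x / p < m ⟨x % p, Nat.mod_lt _ hp⟩ := by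
  have h1 := mem_beta m (x / p) ⟨x % p, Nat.mod_lt _ hp⟩
  rw [← h1]
  simp only [Nat.div_add_mod']

private def sum_cells_beta_T {p : ℕ} (m : Fin p → ℕ) (N : ℕ) :
    Finset (Fin p × Fin p × ℕ × ℕ) :=
  ((Finset.univ : Finset (Fin p)) ×ˢ (Finset.univ : Finset (Fin p)) ×ˢ Finset.range N ×ˢ
    Finset.range N).filter
      (fun s => s.2.2.1 + s.2.2.2 < m s.1 - m s.2.1 ∧ ((s.2.1 : ℕ) < (s.1 : ℕ) ∨ 0 < s.2.2.1))

private theorem sum_cells_beta_row (D N : ℕ) (hDN : D ≤ N) (P : ℕ → Prop) [DecidablePred P]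
    (G : ℕ → ℝ) :
    ∑ d ∈ Finset.range N, ∑ t ∈ Finset.range N, (if d + t < D ∧ P d then G d else 0) =
      ∑ d ∈ Finset.range D, ((D : ℝ) - d) * (if P d then G d else 0) := by
  rw [← Finset.sum_subset (Finset.range_subset_range.2 hDN)]
  · refine Finset.sum_congr rfl fun d hd => ?_
    have hdD := Finset.mem_range.1 hd
    by_cases hP : P d
    · simp only [hP, and_true, if_true]
      rw [← Finset.sum_filter]
      have h1 : (Finset.range N).filter (fun t => d + t < D) = Finset.range (D - d) := by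
        ext t
        simp only [Finset.mem_filter, Finset.mem_range]
        omega
      rw [h1, Finset.sum_const, Finset.card_range, nsmul_eq_mul, Nat.cast_sub hdD.le]
    · simp only [hP, and_false, if_false, Finset.sum_const_zero, mul_zero]
  · intro d _ hd
    refine Finset.sum_eq_zero fun t _ => if_neg ?_
    rw [Finset.mem_range] at hd
    omega

private theorem sum_cells_beta_bij {p : ℕ} (hp : 0 < p) (m : Fin p → ℕ) (F : ℕ → ℝ) :
    ∑ s ∈ sum_cells_beta_T m (∑ i, m i), F (s.2.2.1 * p + (s.1 : ℕ) - (s.2.1 : ℕ)) =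
      ∑ z ∈ cells (beta m), F (z.1 - z.2) := by
  refine Finset.sum_nbij'
    (fun s => ((m s.2.1 + s.2.2.1 + s.2.2.2) * p + (s.1 : ℕ), (m s.2.1 + s.2.2.2) * p + (s.2.1 : ℕ)))
    (fun z => (⟨z.1 % p, Nat.mod_lt _ hp⟩, ⟨z.2 % p, Nat.mod_lt _ hp⟩, z.1 / p - z.2 / p,
      z.2 / p - m ⟨z.2 % p, Nat.mod_lt _ hp⟩)) ?_ ?_ ?_ ?_ ?_
  · rintro ⟨i, j, d, t⟩ hs
    simp only [sum_cells_beta_T, Finset.mem_filter, Finset.mem_product, Finset.mem_univ,
      Finset.mem_range, true_and] at hs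
    obtain ⟨_, h1, h2⟩ := hs
    rw [mem_cells]
    refine ⟨?_, ?_, ?_⟩
    · show (m j + d + t) * p + (i : ℕ) ∈ beta m
      rw [mem_beta]
      omega
    · show ¬ (m j + t) * p + (j : ℕ) ∈ beta m
      rw [mem_beta]
      omega
    · have hi := i.2
      have hj := j.2
      have e1 : (m j + d + t) * p = (m j + t) * p + d * p := by ring
      rcases h2 with h2 | h2
      · show (m j + t) * p + (j : ℕ) < (m j + d + t) * p + (i : ℕ)
        omega
      · have h3 : p ≤ d * p := Nat.le_mul_of_pos_left p h2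
        show (m j + t) * p + (j : ℕ) < (m j + d + t) * p + (i : ℕ)
        omega
  · rintro ⟨x, y⟩ hz
    rw [mem_cells] at hz
    obtain ⟨h1, h2, h3⟩ := hz
    rw [sum_cells_beta_mem hp] at h1 h2
    simp only at h1 h2 h3
    have h4 : y / p ≤ x / p := Nat.div_le_div_right h3.le
    have h5 : m ⟨x % p, Nat.mod_lt _ hp⟩ ≤ ∑ i, m i :=
      Finset.single_le_sum (f := m) (fun i _ => Nat.zero_le _) (Finset.mem_univ _)
    simp only [sum_cells_beta_T, Finset.mem_filter, Finset.mem_product, Finset.mem_univ,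
      Finset.mem_range, true_and]
    refine ⟨⟨by omega, by omega⟩, by omega, ?_⟩
    by_contra hc
    push Not at hc
    obtain ⟨h6, h7⟩ := hc
    have h8 : x / p = y / p := by omega
    have h9 := Nat.div_add_mod' x p
    have h10 := Nat.div_add_mod' y p
    rw [h8] at h9
    omega
  · rintro ⟨i, j, d, t⟩ hs
    simp only [sum_cells_beta_T, Finset.mem_filter, Finset.mem_product, Finset.mem_univ,
      Finset.mem_range, true_and] at hs
    obtain ⟨_, h1, h2⟩ := hs
    have a1 : ∀ (q : ℕ) (l : Fin p), (q * p + (l : ℕ)) % p = l := fun q l =>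
      Nat.mul_add_mod_of_lt l.2
    have a2 : ∀ (q : ℕ) (l : Fin p), (q * p + (l : ℕ)) / p = q := fun q l => by
      rw [Nat.mul_comm, Nat.mul_add_div hp, Nat.div_eq_of_lt l.2, Nat.add_zero]
    simp only [a1, a2, Fin.eta]
    have e1 : m j + d + t - (m j + t) = d := by omega
    have e2 : m j + t - m j = t := by omega
    rw [e1, e2]
  · rintro ⟨x, y⟩ hz
    rw [mem_cells] at hz
    obtain ⟨h1, h2, h3⟩ := hz
    rw [sum_cells_beta_mem hp] at h1 h2
    simp only at h1 h2 h3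
    have h4 : y / p ≤ x / p := Nat.div_le_div_right h3.le
    have h5 : m ⟨y % p, Nat.mod_lt _ hp⟩ ≤ y / p := not_lt.1 h2
    have e1 : m ⟨y % p, Nat.mod_lt _ hp⟩ + (x / p - y / p) +
        (y / p - m ⟨y % p, Nat.mod_lt _ hp⟩) = x / p := by omega
    have e2 : m ⟨y % p, Nat.mod_lt _ hp⟩ + (y / p - m ⟨y % p, Nat.mod_lt _ hp⟩) = y / p := by
      omega
    simp only [e1, e2, Nat.div_add_mod']
  · rintro ⟨i, j, d, t⟩ hs
    have e1 : (m j + d + t) * p = (m j + t) * p + d * p := by ring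
    show F (d * p + (i : ℕ) - (j : ℕ)) =
      F ((m j + d + t) * p + (i : ℕ) - ((m j + t) * p + (j : ℕ)))
    congr 1
    omega

/-- PROOF. Every cell is uniquely `(q p + i, q' p + j)` with `q < m i`, `m j ≤ q'`, `q' p + j < q p + i`; put `d = q - q'` (so
`d ≥ 0`; and `d ≥ 1` if `i ≤ j`): for fixed `i, j` and `d` there are `m i - m j - d` such pairs (truncated). The difference is `d p + i - j`.
(`Finset.sum_bij'`/`Finset.sum_nbij'` with the sigma type of the `(i, j, d, t)`, `q = m j + d + t`, `t < m i - m j - d`.) -/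
theorem sum_cells_beta {p : ℕ} (m : Fin p → ℕ) (F : ℕ → ℝ) :
    ∑ z ∈ cells (beta m), F (z.1 - z.2) =
      ∑ i : Fin p, ∑ j : Fin p, ∑ d ∈ Finset.range (m i - m j),
        (((m i - m j : ℕ) : ℝ) - d) *
          (if (j : ℕ) < (i : ℕ) ∨ 0 < d then F (d * p + (i : ℕ) - (j : ℕ)) else 0) := by
  rcases Nat.eq_zero_or_pos p with hp | hp
  · subst hp
    have h1 : beta m = ∅ := by
      unfold beta
      simp
    rw [h1]
    simp [cells]
  · rw [← sum_cells_beta_bij hp m F, sum_cells_beta_T, Finset.sum_filter, Finset.sum_product]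
    refine Finset.sum_congr rfl fun i _ => ?_
    rw [Finset.sum_product]
    refine Finset.sum_congr rfl fun j _ => ?_
    rw [Finset.sum_product]
    have h5 : m i - m j ≤ ∑ i, m i := (Nat.sub_le _ _).trans
      (Finset.single_le_sum (f := m) (fun i _ => Nat.zero_le _) (Finset.mem_univ i))
    exact sum_cells_beta_row (m i - m j) (∑ i, m i) h5
      (fun d => (j : ℕ) < (i : ℕ) ∨ 0 < d) (fun d => F (d * p + (i : ℕ) - (j : ℕ)))
-- END sum_cells_beta

-- BEGIN beta_card_bounds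
private theorem beta_card_bounds_up (D : ℕ) :
    2 * ∑ d ∈ Finset.range D, ((D : ℝ) - d) = D * ((D : ℝ) + 1) := by
  induction D with
  | zero => simp
  | succ D ih =>
    rw [Finset.sum_range_succ']
    have h1 : ∀ d : ℕ, (((D + 1 : ℕ) : ℝ) - ((d + 1 : ℕ) : ℝ)) = (D : ℝ) - d := by
      intro d
      push_cast
      ring
    simp only [h1]
    rw [mul_add, ih]
    push_cast
    ring

private theorem beta_card_bounds_low (D : ℕ) :
    2 * ∑ d ∈ Finset.range D, ((D : ℝ) - d) * (if 0 < d then 1 else 0) = D * ((D : ℝ) - 1) := by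
  cases D with
  | zero => simp
  | succ D =>
    rw [Finset.sum_range_succ']
    have h1 : ∀ d : ℕ, (((D + 1 : ℕ) : ℝ) - ((d + 1 : ℕ) : ℝ)) *
        (if 0 < d + 1 then 1 else 0) = (D : ℝ) - d := by
      intro d
      rw [if_pos (Nat.succ_pos d)]
      push_cast
      ring
    simp only [h1]
    rw [mul_add, beta_card_bounds_up D]
    simp
    ring

/-- PROOF. `sum_cells_beta` with `F = 1`: for `D = m i - m j` the inner sum is between `∑ d ∈ Ico 1 D, (D - d) = D (D - 1) / 2` and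
`∑ d ∈ range D, (D - d) = D (D + 1) / 2`. -/
theorem beta_card_bounds {p : ℕ} (m : Fin p → ℕ) :
    ∑ i : Fin p, ∑ j : Fin p, ((m i - m j : ℕ) : ℝ) * (((m i - m j : ℕ) : ℝ) - 1) ≤
        2 * ((cells (beta m)).card : ℝ) ∧
      2 * ((cells (beta m)).card : ℝ) ≤
        ∑ i : Fin p, ∑ j : Fin p, ((m i - m j : ℕ) : ℝ) * (((m i - m j : ℕ) : ℝ) + 1) := by
  have h1 : ((cells (beta m)).card : ℝ) = ∑ i : Fin p, ∑ j : Fin p,
      ∑ d ∈ Finset.range (m i - m j), (((m i - m j : ℕ) : ℝ) - d) *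
        (if (j : ℕ) < (i : ℕ) ∨ 0 < d then 1 else 0) := by
    rw [← sum_cells_beta m (fun _ => 1)]
    simp
  rw [h1]
  constructor
  · rw [Finset.mul_sum]
    refine Finset.sum_le_sum fun i _ => ?_
    rw [Finset.mul_sum]
    refine Finset.sum_le_sum fun j _ => ?_
    rw [← beta_card_bounds_low]
    refine mul_le_mul_of_nonneg_left (Finset.sum_le_sum fun d hd => ?_) zero_le_two
    have h2 : (0 : ℝ) ≤ ((m i - m j : ℕ) : ℝ) - d := by
      rw [sub_nonneg]
      exact_mod_cast (Finset.mem_range.1 hd).le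
    refine mul_le_mul_of_nonneg_left ?_ h2
    by_cases h3 : 0 < d
    · rw [if_pos h3, if_pos (Or.inr h3)]
    · rw [if_neg h3]
      split_ifs <;> norm_num
  · rw [Finset.mul_sum]
    refine Finset.sum_le_sum fun i _ => ?_
    rw [Finset.mul_sum]
    refine Finset.sum_le_sum fun j _ => ?_
    rw [← beta_card_bounds_up]
    refine mul_le_mul_of_nonneg_left (Finset.sum_le_sum fun d hd => ?_) zero_le_two
    have h2 : (0 : ℝ) ≤ ((m i - m j : ℕ) : ℝ) - d := by
      rw [sub_nonneg]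
      exact_mod_cast (Finset.mem_range.1 hd).le
    refine mul_le_of_le_one_right h2 ?_
    split_ifs <;> norm_num
-- END beta_card_bounds

-- BEGIN beta_log_hook
/-- PROOF. `sum_cells_beta` with `F = Real.log` (all differences are positive). If `j < i`: `d p + i - j ≤ (d + 1) p`. If `i ≤ j`, `d ≥ 1`:
`d p + i - j ≤ d p`, and `∑ d ∈ Ico 1 D, (D - d) log (d p) ≤ ∑ d ∈ range D, (D - d) log ((d + 1) p)` (every `log ≥ 0`). -/
theorem beta_log_hook {p : ℕ} (hp : 0 < p) (m : Fin p → ℕ) :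
    Real.log ((∏ z ∈ cells (beta m), (z.1 - z.2) : ℕ) : ℝ) ≤
      ∑ i : Fin p, ∑ j : Fin p, ∑ d ∈ Finset.range (m i - m j),
        (((m i - m j : ℕ) : ℝ) - d) * Real.log ((p : ℝ) * ((d : ℝ) + 1)) := by
  have h1 : Real.log ((∏ z ∈ cells (beta m), (z.1 - z.2) : ℕ) : ℝ) =
      ∑ z ∈ cells (beta m), (fun n : ℕ => Real.log (n : ℝ)) (z.1 - z.2) := by
    rw [Nat.cast_prod, Real.log_prod]
    intro z hz
    have h2 := (mem_cells _ _).1 hz
    have h3 : z.1 - z.2 ≠ 0 := by omega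
    exact_mod_cast h3
  rw [h1, sum_cells_beta m (fun n : ℕ => Real.log (n : ℝ))]
  refine Finset.sum_le_sum fun i _ => Finset.sum_le_sum fun j _ => Finset.sum_le_sum fun d hd => ?_
  have h2 : (0 : ℝ) ≤ ((m i - m j : ℕ) : ℝ) - d := by
    rw [sub_nonneg]
    exact_mod_cast (Finset.mem_range.1 hd).le
  refine mul_le_mul_of_nonneg_left ?_ h2
  have hp1 : (1 : ℝ) ≤ p := by exact_mod_cast hp
  have hd0 : (0 : ℝ) ≤ d := Nat.cast_nonneg d
  have h3 : (1 : ℝ) ≤ (p : ℝ) * ((d : ℝ) + 1) := by nlinarith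
  split_ifs with h4
  · show Real.log ((d * p + (i : ℕ) - (j : ℕ) : ℕ) : ℝ) ≤ _
    rcases Nat.eq_zero_or_pos (d * p + (i : ℕ) - (j : ℕ)) with h5 | h5
    · rw [h5, Nat.cast_zero, Real.log_zero]
      exact Real.log_nonneg h3
    · refine Real.log_le_log (by exact_mod_cast h5) ?_
      have h6 : d * p + (i : ℕ) - (j : ℕ) ≤ p * (d + 1) := by
        have hi := i.2
        have h7 : p * (d + 1) = d * p + p := by ring
        omega
      have h8 : ((d * p + (i : ℕ) - (j : ℕ) : ℕ) : ℝ) ≤ ((p * (d + 1) : ℕ) : ℝ) := by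
        exact_mod_cast h6
      push_cast at h8
      exact_mod_cast h8
  · exact Real.log_nonneg h3
-- END beta_log_hook

-- BEGIN core_main
/-- PROOF. `n = (cells (beta m)).card`; `beta_card_bounds`; `sq_le_set` with `beta_not_dvd`:
`log ssDim ≥ 2 log f = 2 (log n! - log H)`, `beta_log_hook`. -/
theorem core_main {p : ℕ} [Fact p.Prime] (m : Fin p → ℕ) :
    ∃ n : ℕ, (∑ i : Fin p, ∑ j : Fin p, ((m i - m j : ℕ) : ℝ) * (((m i - m j : ℕ) : ℝ) - 1) ≤
        2 * (n : ℝ)) ∧
      (2 * (n : ℝ) ≤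
        ∑ i : Fin p, ∑ j : Fin p, ((m i - m j : ℕ) : ℝ) * (((m i - m j : ℕ) : ℝ) + 1)) ∧
      ∀ (k : Type) [Field k] [CharP k p],
        2 * Real.log (n.factorial : ℝ) -
          2 * ∑ i : Fin p, ∑ j : Fin p, ∑ d ∈ Finset.range (m i - m j),
            (((m i - m j : ℕ) : ℝ) - d) * Real.log ((p : ℝ) * ((d : ℝ) + 1)) ≤
        Real.log (ssDim k (Equiv.Perm (Fin n)) : ℝ) := by
  have hpp : p.Prime := Fact.out
  refine ⟨(cells (beta m)).card, (beta_card_bounds m).1, (beta_card_bounds m).2, ?_⟩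
  intro k _ _
  obtain ⟨f, hf, hf2⟩ := sq_le_set (p := p) (k := k) (beta m) (beta_not_dvd hpp m)
  have hlog := beta_log_hook hpp.pos m
  have hfac : 0 < (cells (beta m)).card.factorial := Nat.factorial_pos _
  have hf0 : 0 < f := by
    rcases Nat.eq_zero_or_pos f with h | h
    · rw [h, zero_mul] at hf
      omega
    · exact h
  have hH0 : 0 < ∏ z ∈ cells (beta m), (z.1 - z.2) := by
    rcases Nat.eq_zero_or_pos (∏ z ∈ cells (beta m), (z.1 - z.2)) with h | h
    · rw [h, mul_zero] at hf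
      omega
    · exact h
  have hf0' : (0 : ℝ) < f := by exact_mod_cast hf0
  have hH0' : (0 : ℝ) < ((∏ z ∈ cells (beta m), (z.1 - z.2) : ℕ) : ℝ) := by exact_mod_cast hH0
  have e1 : Real.log ((cells (beta m)).card.factorial : ℝ) =
      Real.log f + Real.log ((∏ z ∈ cells (beta m), (z.1 - z.2) : ℕ) : ℝ) := by
    rw [← Real.log_mul hf0'.ne' hH0'.ne', ← Nat.cast_mul, hf]
  have e2 : 2 * Real.log (f : ℝ) ≤
      Real.log (ssDim k (Equiv.Perm (Fin (cells (beta m)).card)) : ℝ) := by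
    have h1 : 2 * Real.log (f : ℝ) = Real.log ((f : ℝ) ^ 2) := by
      rw [Real.log_pow]
      norm_num
    rw [h1]
    refine Real.log_le_log (by positivity) ?_
    exact_mod_cast hf2
  linarith
-- END core_main

end Pool.Agent.Wil
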