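import Mathlib
import Pool.Agent.Wil.Core

set_option autoImplicit false

/-! Cross version of Cauchy.lean: row sums `X`, column sums `Y`. -/

namespace Pool.Agent.Wil

/-- Number of matrices supported on `S` with row sums `X - a` and column sums `Y - b`. -/
noncomputable def cN {r : ℕ} (S : Finset (Fin r × Fin r)) (X Y a b : Fin r → ℕ) : ℕ :=
  Nat.card {M : Fin r × Fin r → ℕ // (∀ z, z ∉ S → M z = 0) ∧ (∀ i, ∑ j, M (i, j) + a i = X i) ∧
    (∀ j, ∑ i, M (i, j) + b j = Y j)}

-- BEGIN cN_finite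
/-- PROOF. Every entry is at most `∑ i, X i`. -/
theorem cN_finite {r : ℕ} (S : Finset (Fin r × Fin r)) (X Y a b : Fin r → ℕ) :
    Finite {M : Fin r × Fin r → ℕ // (∀ z, z ∉ S → M z = 0) ∧ (∀ i, ∑ j, M (i, j) + a i = X i) ∧
      (∀ j, ∑ i, M (i, j) + b j = Y j)} := by
  have h : ({M : Fin r × Fin r → ℕ | (∀ z, z ∉ S → M z = 0) ∧ (∀ i, ∑ j, M (i, j) + a i = X i) ∧
      (∀ j, ∑ i, M (i, j) + b j = Y j)}).Finite := by
    refine (Set.finite_Iic (fun _ : Fin r × Fin r => ∑ i, X i)).subset fun M hM => ?_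
    rw [Set.mem_Iic]
    rintro ⟨i, j⟩
    have h1 : M (i, j) ≤ ∑ j', M (i, j') :=
      Finset.single_le_sum (f := fun j' => M (i, j')) (fun _ _ => Nat.zero_le _)
        (Finset.mem_univ j)
    have h2 := hM.2.1 i
    have h3 : X i ≤ ∑ i, X i :=
      Finset.single_le_sum (f := X) (fun _ _ => Nat.zero_le _) (Finset.mem_univ i)
    show M (i, j) ≤ ∑ i, X i
    omega
  exact h.to_subtype
-- END cN_finite

-- BEGIN cN_rec
private theorem cN_rec_row {r : ℕ} (M : Fin r × Fin r → ℕ) (i j : Fin r) (v : ℕ) (i' : Fin r) :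
    ∑ j', Function.update M (i, j) v (i', j') + (if i' = i then M (i, j) else 0) =
      ∑ j', M (i', j') + (if i' = i then v else 0) := by
  by_cases h : i' = i
  · subst h
    rw [if_pos rfl, if_pos rfl, ← Finset.add_sum_erase Finset.univ
      (fun j' => Function.update M (i', j) v (i', j')) (Finset.mem_univ j),
      ← Finset.add_sum_erase Finset.univ (fun j' => M (i', j')) (Finset.mem_univ j),
      Function.update_self]
    have h1 : ∑ x ∈ Finset.univ.erase j, Function.update M (i', j) v (i', x) =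
        ∑ x ∈ Finset.univ.erase j, M (i', x) :=
      Finset.sum_congr rfl fun x hx => Function.update_of_ne
        (fun e => Finset.ne_of_mem_erase hx (Prod.ext_iff.1 e).2) _ _
    rw [h1]
    omega
  · rw [if_neg h, if_neg h]
    congr 1
    exact Finset.sum_congr rfl fun x _ => Function.update_of_ne
      (fun e => h (Prod.ext_iff.1 e).1) _ _

private theorem cN_rec_col {r : ℕ} (M : Fin r × Fin r → ℕ) (i j : Fin r) (v : ℕ) (j' : Fin r) :
    ∑ i', Function.update M (i, j) v (i', j') + (if j' = j then M (i, j) else 0) =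
      ∑ i', M (i', j') + (if j' = j then v else 0) := by
  by_cases h : j' = j
  · subst h
    rw [if_pos rfl, if_pos rfl, ← Finset.add_sum_erase Finset.univ
      (fun i' => Function.update M (i, j') v (i', j')) (Finset.mem_univ i),
      ← Finset.add_sum_erase Finset.univ (fun i' => M (i', j')) (Finset.mem_univ i),
      Function.update_self]
    have h1 : ∑ x ∈ Finset.univ.erase i, Function.update M (i, j') v (x, j') =
        ∑ x ∈ Finset.univ.erase i, M (x, j') :=
      Finset.sum_congr rfl fun x hx => Function.update_of_ne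
        (fun e => Finset.ne_of_mem_erase hx (Prod.ext_iff.1 e).1) _ _
    rw [h1]
    omega
  · rw [if_neg h, if_neg h]
    congr 1
    exact Finset.sum_congr rfl fun x _ => Function.update_of_ne
      (fun e => h (Prod.ext_iff.1 e).2) _ _

/-- PROOF. Split according to `M z = 0` (supported on `S.erase z`) or `M z ≥ 1` (subtract one at `z = (i, j)`; then the row sum `i` and
the column sum `j` drop by one: bijection with the matrices for `a + e_i`, `b + e_j`). `Nat.card` of a disjoint union of finite types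
(`cM_finite`). -/
theorem cN_rec {r : ℕ} (S : Finset (Fin r × Fin r)) (X Y a b : Fin r → ℕ) (i j : Fin r)
    (hz : (i, j) ∈ S) :
    cN S X Y a b = cN (S.erase (i, j)) X Y a b + cN S X Y (a + Pi.single i 1) (b + Pi.single j 1) := by
  classical
  have := cN_finite S X Y a b
  have := cN_finite (S.erase (i, j)) X Y a b
  have := cN_finite S X Y (a + Pi.single i 1) (b + Pi.single j 1)
  unfold cN
  rw [← Nat.card_sum]
  refine Nat.card_congr
    { toFun := fun M => if h : M.1 (i, j) = 0 then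
          Sum.inl ⟨M.1, ?_, M.2.2.1, M.2.2.2⟩
        else Sum.inr ⟨Function.update M.1 (i, j) (M.1 (i, j) - 1), ?_, ?_, ?_⟩
      invFun := Sum.elim (fun M => ⟨M.1, ?_, M.2.2.1, M.2.2.2⟩)
        (fun M => ⟨Function.update M.1 (i, j) (M.1 (i, j) + 1), ?_, ?_, ?_⟩)
      left_inv := ?_
      right_inv := ?_ }
  · intro z hzS
    by_cases hzz : z = (i, j)
    · rw [hzz]; exact h
    · exact M.2.1 z fun hz' => hzS (Finset.mem_erase.2 ⟨hzz, hz'⟩)
  · intro z hzS
    have hzz : z ≠ (i, j) := fun e => hzS (e ▸ hz)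
    rw [Function.update_of_ne hzz]
    exact M.2.1 z hzS
  · intro i'
    have h1 := cN_rec_row M.1 i j (M.1 (i, j) - 1) i'
    have h2 := M.2.2.1 i'
    rw [Pi.add_apply, Pi.single_apply]
    by_cases hi : i' = i
    · simp only [hi, if_true] at h1 h2 ⊢
      omega
    · simp only [hi, if_false] at h1 h2 ⊢
      omega
  · intro j'
    have h1 := cN_rec_col M.1 i j (M.1 (i, j) - 1) j'
    have h2 := M.2.2.2 j'
    rw [Pi.add_apply, Pi.single_apply]
    by_cases hj : j' = j
    · simp only [hj, if_true] at h1 h2 ⊢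
      omega
    · simp only [hj, if_false] at h1 h2 ⊢
      omega
  · exact fun z hzS => M.2.1 z fun hz' => hzS (Finset.mem_of_mem_erase hz')
  · intro z hzS
    have hzz : z ≠ (i, j) := fun e => hzS (e ▸ hz)
    rw [Function.update_of_ne hzz]
    exact M.2.1 z hzS
  · intro i'
    have h1 := cN_rec_row M.1 i j (M.1 (i, j) + 1) i'
    have h2 := M.2.2.1 i'
    rw [Pi.add_apply, Pi.single_apply] at h2
    by_cases hi : i' = i
    · simp only [hi, if_true] at h1 h2 ⊢
      omega
    · simp only [hi, if_false] at h1 h2 ⊢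
      omega
  · intro j'
    have h1 := cN_rec_col M.1 i j (M.1 (i, j) + 1) j'
    have h2 := M.2.2.2 j'
    rw [Pi.add_apply, Pi.single_apply] at h2
    by_cases hj : j' = j
    · simp only [hj, if_true] at h1 h2 ⊢
      omega
    · simp only [hj, if_false] at h1 h2 ⊢
      omega
  · intro M
    by_cases h : M.1 (i, j) = 0
    · simp only [h, dif_pos, Sum.elim_inl]
    · simp only [h, dif_neg, not_false_eq_true, Sum.elim_inr, Function.update_self,
        Function.update_idem]
      apply Subtype.ext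
      show Function.update M.1 (i, j) (M.1 (i, j) - 1 + 1) = M.1
      have h2 : M.1 (i, j) - 1 + 1 = M.1 (i, j) := by omega
      rw [h2, Function.update_eq_self]
  · intro M
    rcases M with M | M
    · have h : M.1 (i, j) = 0 := M.2.1 (i, j) (by simp)
      simp only [Sum.elim_inl, h, dif_pos]
    · simp only [Sum.elim_inr, Function.update_self, Nat.succ_ne_zero, dif_neg,
        not_false_eq_true, Function.update_idem, Nat.add_sub_cancel, Function.update_eq_self]
-- END cN_rec

/-- The linear functional `x^a y^b ↦ cN S X Y a b`. -/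
noncomputable def Psi {r : ℕ} (S : Finset (Fin r × Fin r)) (X Y : Fin r → ℕ) :
    MvPolynomial (Fin r ⊕ Fin r) ℤ →ₗ[ℤ] ℤ :=
  (MvPolynomial.basisMonomials (Fin r ⊕ Fin r) ℤ).constr ℤ
    (fun m => (cN S X Y (fun i => m (Sum.inl i)) (fun j => m (Sum.inr j)) : ℤ))

-- BEGIN Psi_monomial
/-- PROOF. `Basis.constr_basis`, `MvPolynomial.coe_basisMonomials`, linearity. -/
theorem Psi_monomial {r : ℕ} (S : Finset (Fin r × Fin r)) (X Y : Fin r → ℕ)
    (m : Fin r ⊕ Fin r →₀ ℕ) (c : ℤ) :
    Psi S X Y (MvPolynomial.monomial m c) =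
      c * (cN S X Y (fun i => m (Sum.inl i)) (fun j => m (Sum.inr j)) : ℤ) := by
  have h1 : (MvPolynomial.monomial m c : MvPolynomial (Fin r ⊕ Fin r) ℤ) =
      c • MvPolynomial.basisMonomials (Fin r ⊕ Fin r) ℤ m := by
    rw [MvPolynomial.coe_basisMonomials, MvPolynomial.smul_monomial, smul_eq_mul, mul_one]
  rw [h1, map_smul, smul_eq_mul]
  unfold Psi
  rw [Module.Basis.constr_basis]

/-- PROOF. Write the product as a monomial. -/
theorem Psi_prod_pow {r : ℕ} (S : Finset (Fin r × Fin r)) (X Y a b : Fin r → ℕ) :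
    Psi S X Y ((∏ i, MvPolynomial.X (Sum.inl i) ^ a i) * ∏ j, MvPolynomial.X (Sum.inr j) ^ b j) =
      (cN S X Y a b : ℤ) := by
  have h1 : ((∏ i, MvPolynomial.X (Sum.inl i) ^ a i) * ∏ j, MvPolynomial.X (Sum.inr j) ^ b j :
      MvPolynomial (Fin r ⊕ Fin r) ℤ) =
      MvPolynomial.monomial (Finsupp.equivFunOnFinite.symm (Sum.elim a b)) 1 := by
    rw [MvPolynomial.monomial_eq, MvPolynomial.C_1, one_mul,
      Finsupp.prod_fintype _ _ (fun _ => pow_zero _), Fintype.prod_sum_type]
    simp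
  rw [h1, Psi_monomial, one_mul]
  simp
-- END Psi_monomial

-- BEGIN Psi_mul
/-- PROOF. Both sides are linear in `P`: `MvPolynomial.induction_on'` (or `monomial_add_induction`); on a monomial it is
`cM_rec` (`Psi_monomial`; `x_i y_j * monomial m c = monomial (m + single (inl i) 1 + single (inr j) 1) c`). -/
theorem Psi_mul {r : ℕ} (S : Finset (Fin r × Fin r)) (X Y : Fin r → ℕ) (i j : Fin r)
    (hz : (i, j) ∈ S) (P : MvPolynomial (Fin r ⊕ Fin r) ℤ) :
    Psi S X Y ((1 - MvPolynomial.X (Sum.inl i) * MvPolynomial.X (Sum.inr j)) * P) =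
      Psi (S.erase (i, j)) X Y P := by
  classical
  induction P using MvPolynomial.induction_on' with
  | monomial m c =>
    have h1 : ((1 - MvPolynomial.X (Sum.inl i) * MvPolynomial.X (Sum.inr j)) *
        MvPolynomial.monomial m c : MvPolynomial (Fin r ⊕ Fin r) ℤ) =
        MvPolynomial.monomial m c - MvPolynomial.monomial
          (Finsupp.single (Sum.inl i) 1 + Finsupp.single (Sum.inr j) 1 + m) c := by
      rw [sub_mul, one_mul]
      unfold MvPolynomial.X
      rw [MvPolynomial.monomial_mul, MvPolynomial.monomial_mul, one_mul, one_mul]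
    rw [h1, map_sub, Psi_monomial, Psi_monomial, Psi_monomial]
    have h2 := cN_rec S X Y (fun i => m (Sum.inl i)) (fun j => m (Sum.inr j)) i j hz
    have h3 : (fun i' => (Finsupp.single (Sum.inl i) 1 + Finsupp.single (Sum.inr j) 1 + m :
        Fin r ⊕ Fin r →₀ ℕ) (Sum.inl i')) = (fun i => m (Sum.inl i)) + Pi.single i 1 := by
      funext i'
      simp only [Finsupp.add_apply, Finsupp.single_apply, Pi.add_apply, Pi.single_apply,
        Sum.inl.injEq, reduceCtorEq, if_false, add_zero, eq_comm (a := i)]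
      rw [add_comm]
    have h4 : (fun j' => (Finsupp.single (Sum.inl i) 1 + Finsupp.single (Sum.inr j) 1 + m :
        Fin r ⊕ Fin r →₀ ℕ) (Sum.inr j')) = (fun j => m (Sum.inr j)) + Pi.single j 1 := by
      funext j'
      simp only [Finsupp.add_apply, Finsupp.single_apply, Pi.add_apply, Pi.single_apply,
        Sum.inr.injEq, reduceCtorEq, if_false, zero_add, eq_comm (a := j)]
      rw [add_comm]
    rw [h3, h4, h2]
    push_cast
    ring
  | add p q hp hq =>
    rw [mul_add, map_add, hp, hq, map_add]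
-- END Psi_mul

-- BEGIN Psi_mul_prod
/-- PROOF. Induction on `T` with `Phi_mul`. -/
theorem Psi_mul_prod {r : ℕ} (S T : Finset (Fin r × Fin r)) (hT : T ⊆ S) (X Y : Fin r → ℕ)
    (P : MvPolynomial (Fin r ⊕ Fin r) ℤ) :
    Psi S X Y ((∏ z ∈ T, (1 - MvPolynomial.X (Sum.inl z.1) * MvPolynomial.X (Sum.inr z.2))) * P) =
      Psi (S \ T) X Y P := by
  classical
  induction T using Finset.induction_on generalizing S with
  | empty => rw [Finset.prod_empty, one_mul, Finset.sdiff_empty]
  | insert z T hz ih =>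
    rw [Finset.prod_insert hz, mul_assoc]
    have hzS : (z.1, z.2) ∈ S := hT (Finset.mem_insert_self z T)
    rw [Psi_mul S X Y z.1 z.2 hzS]
    have hT' : T ⊆ S.erase (z.1, z.2) := by
      intro t ht
      rw [Finset.mem_erase]
      refine ⟨fun h => ?_, hT (Finset.mem_insert_of_mem ht)⟩
      rw [Prod.mk.eta] at h
      rw [h] at ht
      exact hz ht
    rw [ih _ hT']
    have e : S.erase (z.1, z.2) \ T = S \ insert z T := by
      ext t
      simp only [Finset.mem_sdiff, Finset.mem_erase, Finset.mem_insert, Prod.mk.eta]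
      tauto
    rw [e]
-- END Psi_mul_prod

-- BEGIN cN_graph
theorem cN_graph {r : ℕ} (X Y : Fin r → ℕ) (w : Equiv.Perm (Fin r)) (hw : ¬ ∀ i, X i = Y (w i)) :
    cN (Finset.univ.filter (fun z : Fin r × Fin r => z.2 = w z.1)) X Y 0 0 = 0 := by
  classical
  have key : ∀ M : Fin r × Fin r → ℕ,
      (∀ z, z ∉ Finset.univ.filter (fun z : Fin r × Fin r => z.2 = w z.1) → M z = 0) →
      (∀ i, ∑ j, M (i, j) = M (i, w i)) ∧ (∀ i, ∑ i', M (i', w i) = M (i, w i)) := by
    intro M hM
    constructor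
    · intro i
      refine Finset.sum_eq_single_of_mem (w i) (Finset.mem_univ _) fun j _ hj => hM _ ?_
      simpa using hj
    · intro i
      refine Finset.sum_eq_single_of_mem i (Finset.mem_univ _) fun i' _ hi' => hM _ ?_
      simp only [Finset.mem_filter, Finset.mem_univ, true_and]
      exact fun e => hi' (w.injective e.symm)
  unfold cN
  have hE : IsEmpty {M : Fin r × Fin r → ℕ //
      (∀ z, z ∉ Finset.univ.filter (fun z : Fin r × Fin r => z.2 = w z.1) → M z = 0) ∧
      (∀ i, ∑ j, M (i, j) + (0 : Fin r → ℕ) i = X i) ∧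
      (∀ j, ∑ i, M (i, j) + (0 : Fin r → ℕ) j = Y j)} := by
    refine ⟨fun ⟨M, h1, h2, h3⟩ => hw ?_⟩
    intro i
    have h4 := (key M h1).1 i
    have h5 := h2 i
    have h6 := (key M h1).2 i
    have h7 := h3 (w i)
    rw [h4] at h5
    rw [h6] at h7
    rw [← h7, ← h5]
    rfl
  exact Nat.card_of_isEmpty
-- END cN_graph

-- BEGIN Psi_det
private lemma Psi_det_vand {A : Type} [CommRing A] {r : ℕ} (v : Fin r → A) :
    (Matrix.vandermonde v).det =
      ∑ σ : Equiv.Perm (Fin r), (Equiv.Perm.sign σ : ℤ) • ∏ i, v i ^ ((σ i : Fin r) : ℕ) := by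
  rw [← Matrix.det_transpose, Matrix.det_apply']
  refine Finset.sum_congr rfl fun σ _ => ?_
  rw [zsmul_eq_mul]
  rfl

/-- PROOF. `det (vandermonde x) = ∑ σ, sign σ * ∏ i, x i ^ (σ i)` (`Matrix.det_apply'` for the transpose), the same for `y`; expand the
product, linearity of `Phi`, `Psi_prod_pow`. -/
theorem Psi_det {r : ℕ} (X Y : Fin r → ℕ) :
    Psi Finset.univ X Y
      ((Matrix.vandermonde (fun i : Fin r => (MvPolynomial.X (Sum.inl i) :
          MvPolynomial (Fin r ⊕ Fin r) ℤ))).det *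
        (Matrix.vandermonde (fun j : Fin r => (MvPolynomial.X (Sum.inr j) :
          MvPolynomial (Fin r ⊕ Fin r) ℤ))).det) =
      ∑ σ : Equiv.Perm (Fin r), ∑ τ : Equiv.Perm (Fin r), (Equiv.Perm.sign σ : ℤ) *
        (Equiv.Perm.sign τ : ℤ) *
        (cN Finset.univ X Y (fun i => ((σ i : Fin r) : ℕ)) (fun i => ((τ i : Fin r) : ℕ)) : ℤ) := by
  classical
  rw [Psi_det_vand, Psi_det_vand, Finset.sum_mul_sum, map_sum]
  refine Finset.sum_congr rfl fun σ _ => ?_
  rw [map_sum]
  refine Finset.sum_congr rfl fun τ _ => ?_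
  rw [smul_mul_assoc, mul_smul_comm, map_zsmul, map_zsmul, Psi_prod_pow, smul_eq_mul, smul_eq_mul,
    mul_assoc]
-- END Psi_det

-- BEGIN cN_zero
theorem cN_zero {r : ℕ} (X Y : Fin r → ℕ) (hXY : ∀ w : Equiv.Perm (Fin r), ¬ ∀ i, X i = Y (w i)) :
    ∑ σ : Equiv.Perm (Fin r), ∑ τ : Equiv.Perm (Fin r), (Equiv.Perm.sign σ : ℤ) *
        (Equiv.Perm.sign τ : ℤ) *
        (cN Finset.univ X Y (fun i => ((σ i : Fin r) : ℕ)) (fun i => ((τ i : Fin r) : ℕ)) : ℤ) = 0 := by
  classical
  rw [← Psi_det]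
  rw [cauchy_det _ _ (fun a b h => Sum.inr_injective (MvPolynomial.X_injective h)), map_sum]
  refine Finset.sum_eq_zero fun w _ => ?_
  rw [← zsmul_eq_mul, map_zsmul]
  have h1 := Psi_mul_prod Finset.univ
    (Finset.univ.filter (fun z : Fin r × Fin r => z.2 ≠ w z.1)) (Finset.subset_univ _) X Y 1
  rw [mul_one] at h1
  rw [h1]
  have h2 : (Finset.univ : Finset (Fin r × Fin r)) \
      Finset.univ.filter (fun z : Fin r × Fin r => z.2 ≠ w z.1) =
      Finset.univ.filter (fun z : Fin r × Fin r => z.2 = w z.1) := by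
    ext z
    simp
  rw [h2]
  have h3 := Psi_prod_pow (Finset.univ.filter (fun z : Fin r × Fin r => z.2 = w z.1)) X Y 0 0
  simp only [Pi.zero_apply, pow_zero, Finset.prod_const_one, mul_one] at h3
  rw [h3, cN_graph X Y w (hXY w)]
  simp
-- END cN_zero

-- BEGIN pic_cross
/-- PROOF. Pairs of words `(w, w')` fixed by `g` are words in the alphabet `Fin r × Fin r` fixed by `g`
(`cnt_fst`, `cnt_snd`); `burn` with `C M = (∀ i, ∑ j, M (i, j) + s i = X i) ∧ (∀ j, ∑ i, M (i, j) + t j = Y j)`; the condition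
`∑ M = n` follows from the row sums and `hn`. -/
theorem pic_cross {n r : ℕ} (X Y s t : Fin r → ℕ) (hn : n + ∑ i, s i = ∑ i, X i) :
    ∑ g : Equiv.Perm (Fin n), pic X s g * pic Y t g =
      n.factorial * cN Finset.univ X Y s t := by
  classical
  have e1 : ∀ g : Equiv.Perm (Fin n), pic X s g * pic Y t g =
      Nat.card {w : Fin n → Fin r × Fin r //
        ((∀ i, ∑ j, cnt w (i, j) + s i = X i) ∧ (∀ j, ∑ i, cnt w (i, j) + t j = Y j)) ∧
          w ∘ g = w} := by
    intro g
    unfold pic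
    rw [← Nat.card_prod]
    refine Nat.card_congr ⟨fun p => ⟨fun i => (p.1.1 i, p.2.1 i), ⟨fun i => ?_, fun j => ?_⟩, ?_⟩,
      fun w => ⟨⟨fun a => (w.1 a).1, fun i => ?_, ?_⟩, ⟨fun a => (w.1 a).2, fun j => ?_, ?_⟩⟩,
      fun p => rfl, fun w => rfl⟩
    · rw [← cnt_fst]
      exact p.1.2.1 i
    · rw [← cnt_snd]
      exact p.2.2.1 j
    · funext i
      exact Prod.ext (congrFun p.1.2.2 i) (congrFun p.2.2.2 i)
    · rw [cnt_fst]
      exact w.2.1.1 i
    · funext a
      exact congrArg Prod.fst (congrFun w.2.2 a)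
    · rw [cnt_snd]
      exact w.2.1.2 j
    · funext a
      exact congrArg Prod.snd (congrFun w.2.2 a)
  rw [Finset.sum_congr rfl fun g _ => e1 g,
    burn (n := n) (B := Fin r × Fin r) fun M : Fin r × Fin r → ℕ =>
      (∀ i, ∑ j, M (i, j) + s i = X i) ∧ (∀ j, ∑ i, M (i, j) + t j = Y j)]
  congr 1
  unfold cN
  refine Nat.card_congr (Equiv.subtypeEquivRight fun M => ?_)
  constructor
  · intro h
    exact ⟨fun z hz => absurd (Finset.mem_univ z) hz, h.1.1, h.1.2⟩
  · intro h
    refine ⟨⟨h.2.1, h.2.2⟩, ?_⟩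
    rw [Fintype.sum_prod_type]
    have e2 : ∑ i, (∑ j, M (i, j) + s i) = ∑ i, X i := Finset.sum_congr rfl fun i _ => h.2.1 i
    rw [Finset.sum_add_distrib] at e2
    omega
-- END pic_cross

end Pool.Agent.Wil
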