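import Mathlib
import Pool.Agent.Wil.Basic

set_option autoImplicit false

/-! The relative bound: a representation whose restriction to a normal subgroup is absolutely irreducible. -/

namespace Pool.Agent.Wil

open MonoidAlgebra

-- BEGIN ssDim_congr
/-- PROOF. `ssDim_le_of_surjective` twice. -/
theorem ssDim_congr {k G H : Type} [Field k] [Group G] [Group H] [Finite G] [Finite H]
    (e : G ≃* H) : ssDim k G = ssDim k H :=
  le_antisymm (ssDim_le_of_surjective e.symm.toMonoidHom e.symm.surjective)
    (ssDim_le_of_surjective e.toMonoidHom e.surjective)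

/-- PROOF. Restrict to the subgroup `H`, whose group algebra is semisimple (Maschke), radical zero: dimension `Nat.card H`. -/
theorem ssDim_ge_card {p : ℕ} [Fact p.Prime] {k G : Type} [Field k] [CharP k p] [Group G] [Finite G]
    (H : Subgroup G) (hH : ¬ p ∣ Nat.card H) : Nat.card H ≤ ssDim k G := by
  refine le_trans ?_ (ssDim_le_of_injective (k := k) H.subtype H.subtype_injective)
  have hne : NeZero (Nat.card H : k) := ⟨fun h => hH ((CharP.cast_eq_zero_iff k p _).1 h)⟩
  have : IsSemisimpleRing (MonoidAlgebra k H) := inferInstance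
  have hj : Ring.jacobson (MonoidAlgebra k H) = ⊥ := IsSemisimpleRing.jacobson_eq_bot _
  have : Fintype H := Fintype.ofFinite _
  have h1 : Module.finrank k (MonoidAlgebra k H) = Nat.card H := by
    rw [Module.finrank_eq_card_basis (MonoidAlgebra.basis H k), Nat.card_eq_fintype_card]
  have h2 := Submodule.finrank_quotient_add_finrank
    ((Ring.jacobson (MonoidAlgebra k H)).restrictScalars k)
  have h3 : (Ring.jacobson (MonoidAlgebra k H)).restrictScalars k = ⊥ := by
    rw [hj]; rfl
  have h4 : Module.finrank k ((Ring.jacobson (MonoidAlgebra k H)).restrictScalars k) = 0 := by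
    rw [h3, finrank_bot]
  rw [h4, h1, add_zero] at h2
  exact h2.ge
-- END ssDim_congr

-- BEGIN theta
/-- PROOF. `MonoidAlgebra.lift` of the monoid homomorphism `g ↦ (R (single g 1)).map (fun c => single (g : G ⧸ N) c)` into
`Matrix ι ι (MonoidAlgebra k (G ⧸ N))`. -/
theorem theta {k G : Type} [Field k] [Group G] [Finite G] (N : Subgroup G) [N.Normal]
    {ι : Type} [Fintype ι] [DecidableEq ι] (R : MonoidAlgebra k G →ₐ[k] Matrix ι ι k) :
    ∃ Θ : MonoidAlgebra k G →ₐ[k] Matrix ι ι (MonoidAlgebra k (G ⧸ N)),
      ∀ g i j, Θ (single g 1) i j = single (QuotientGroup.mk g : G ⧸ N) (R (single g 1) i j) := by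
  let F : G →* Matrix ι ι (MonoidAlgebra k (G ⧸ N)) :=
    { toFun := fun g => Matrix.of fun i j => single (QuotientGroup.mk g : G ⧸ N) (R (single g 1) i j)
      map_one' := by
        ext1 i j
        have h1 : R (single (1 : G) 1) = 1 := by rw [← MonoidAlgebra.one_def, map_one]
        rw [Matrix.of_apply, h1, Matrix.one_apply, Matrix.one_apply]
        split_ifs with h
        · rfl
        · exact MonoidAlgebra.single_zero _
      map_mul' := by
        intro x y
        ext1 i j
        have h1 : R (single (x * y) 1) = R (single x 1) * R (single y 1) := by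
          rw [← map_mul, MonoidAlgebra.single_mul_single, mul_one]
        rw [Matrix.of_apply, h1, Matrix.mul_apply, Matrix.mul_apply]
        simp only [Matrix.of_apply, MonoidAlgebra.single_mul_single]
        exact map_sum (MonoidAlgebra.singleAddHom (QuotientGroup.mk (x * y) : G ⧸ N)) _ _ }
  refine ⟨MonoidAlgebra.lift k _ _ F, ?_⟩
  intro g i j
  rw [MonoidAlgebra.lift_single, one_smul]
  rfl
-- END theta

-- BEGIN theta_surj
/-- PROOF. The image is a subalgebra. For `a : k[N]`, `Θ (ind a) i j = single 1 (R (ind a) i j)`, so by `hR` it contains all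
`M.map (single 1)`; for `g : G` multiply `Θ (single g 1)` by the matrix `(R (single g⁻¹ 1)).map (single 1)`: the image contains
`diagonal (single g 1)`; matrix units times these span everything. -/
theorem theta_surj {k G : Type} [Field k] [Group G] [Finite G] (N : Subgroup G) [N.Normal]
    {ι : Type} [Fintype ι] [DecidableEq ι] (R : MonoidAlgebra k G →ₐ[k] Matrix ι ι k)
    (hR : ∀ M : Matrix ι ι k, ∃ a : MonoidAlgebra k N, R (ind (k := k) N.subtype a) = M)
    (Θ : MonoidAlgebra k G →ₐ[k] Matrix ι ι (MonoidAlgebra k (G ⧸ N)))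
    (hΘ : ∀ g i j, Θ (single g 1) i j = single (QuotientGroup.mk g : G ⧸ N) (R (single g 1) i j)) :
    Function.Surjective Θ := by
  -- the image contains the matrices over `k`
  have h1 : ∀ (a : MonoidAlgebra k N) (i j : ι), Θ (ind (k := k) N.subtype a) i j =
      single (1 : G ⧸ N) (R (ind (k := k) N.subtype a) i j) := by
    intro a
    induction a using MonoidAlgebra.induction_linear with
    | zero => intro i j; simp
    | add a b ha hb =>
      intro i j
      rw [map_add, map_add, map_add, Matrix.add_apply, Matrix.add_apply, ha, hb, MonoidAlgebra.single_add]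
    | single m c =>
      intro i j
      have e : ind (k := k) N.subtype (single m c) = c • single (m : G) 1 := by
        rw [MonoidAlgebra.smul_single, smul_eq_mul, mul_one]
        simp only [ind, MonoidAlgebra.mapDomainAlgHom_apply, MonoidAlgebra.mapDomain_single,
          Subgroup.subtype_apply]
      have e2 : (QuotientGroup.mk (m : G) : G ⧸ N) = 1 := (QuotientGroup.eq_one_iff _).2 m.2
      rw [e, map_smul, map_smul, Matrix.smul_apply, Matrix.smul_apply, hΘ, MonoidAlgebra.smul_single, e2]
  have h2 : ∀ M : Matrix ι ι k, ∃ x, ∀ i j, Θ x i j = single (1 : G ⧸ N) (M i j) := by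
    intro M
    obtain ⟨a, rfl⟩ := hR M
    exact ⟨_, h1 a⟩
  -- the image contains the matrices with entries `c g`
  have h3 : ∀ (g : G) (i j : ι) (c : k), ∃ x, Θ x = Matrix.single i j (single (QuotientGroup.mk g : G ⧸ N) c) := by
    intro g i j c
    obtain ⟨x, hx⟩ := h2 (R (single g⁻¹ 1) * Matrix.single i j c)
    refine ⟨single g 1 * x, ?_⟩
    rw [map_mul]
    ext1 a b
    rw [Matrix.mul_apply]
    have e1 : R (single g 1) * (R (single g⁻¹ 1) * Matrix.single i j c) = Matrix.single i j c := by
      rw [← mul_assoc, ← map_mul, MonoidAlgebra.single_mul_single, mul_inv_cancel, mul_one,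
        ← MonoidAlgebra.one_def, map_one, one_mul]
    calc ∑ l, Θ (single g 1) a l * Θ x l b
        = ∑ l, single (QuotientGroup.mk g : G ⧸ N)
            (R (single g 1) a l * (R (single g⁻¹ 1) * Matrix.single i j c) l b) := by
          refine Finset.sum_congr rfl fun l _ => ?_
          rw [hΘ, hx, MonoidAlgebra.single_mul_single, mul_one]
      _ = single (QuotientGroup.mk g : G ⧸ N)
            ((R (single g 1) * (R (single g⁻¹ 1) * Matrix.single i j c)) a b) := by
          rw [Matrix.mul_apply]
          exact (map_sum (MonoidAlgebra.singleAddHom (QuotientGroup.mk g : G ⧸ N)) _ _).symm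
      _ = Matrix.single i j (single (QuotientGroup.mk g : G ⧸ N) c) a b := by
          rw [e1, Matrix.single_apply, Matrix.single_apply]
          split_ifs
          · rfl
          · exact MonoidAlgebra.single_zero _
  have h4 : ∀ (i j : ι) (y : MonoidAlgebra k (G ⧸ N)), ∃ x, Θ x = Matrix.single i j y := by
    intro i j y
    induction y using MonoidAlgebra.induction_linear with
    | zero => exact ⟨0, by rw [map_zero, Matrix.single_zero]⟩
    | add a b ha hb =>
      obtain ⟨a', ha⟩ := ha
      obtain ⟨b', hb⟩ := hb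
      exact ⟨a' + b', by rw [map_add, ha, hb, Matrix.single_add]⟩
    | single q c =>
      obtain ⟨g, rfl⟩ := QuotientGroup.mk_surjective q
      exact h3 g i j c
  intro X
  choose x hx using h4
  refine ⟨∑ i, ∑ j, x i j (X i j), ?_⟩
  rw [map_sum]
  simp only [map_sum, hx]
  exact (Matrix.matrix_eq_sum_single X).symm
-- END theta_surj

-- BEGIN entries_jac
theorem entries_jac {k G Q : Type} [Field k] [Group G] [Finite G] [Group Q] [Finite Q]
    {ι : Type} [Fintype ι] [DecidableEq ι]
    (Θ : MonoidAlgebra k G →ₐ[k] Matrix ι ι (MonoidAlgebra k Q)) (hs : Function.Surjective Θ)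
    (a : MonoidAlgebra k G) (ha : a ∈ Ring.jacobson (MonoidAlgebra k G)) (i j : ι) :
    Θ a i j ∈ Ring.jacobson (MonoidAlgebra k Q) := by
  classical
  let L : Ideal (MonoidAlgebra k Q) :=
    { carrier := {c | ∃ x ∈ Ring.jacobson (MonoidAlgebra k G), Θ x = Matrix.single i i c}
      zero_mem' := ⟨0, Ideal.zero_mem _, by rw [map_zero, Matrix.single_zero]⟩
      add_mem' := by
        rintro c d ⟨x, hx, hxc⟩ ⟨y, hy, hyd⟩
        exact ⟨x + y, Ideal.add_mem _ hx hy, by rw [map_add, hxc, hyd, Matrix.single_add]⟩
      smul_mem' := by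
        rintro c d ⟨x, hx, hxd⟩
        obtain ⟨z, hz⟩ := hs (Matrix.single i i c)
        refine ⟨z * x, Ideal.mul_mem_left _ _ hx, ?_⟩
        rw [map_mul, hz, hxd, Matrix.single_mul_single_same, smul_eq_mul] }
  have hL : L ≤ Ring.jacobson (MonoidAlgebra k Q) := by
    apply nil_le_jacobson
    rintro c ⟨x, hx, hxc⟩
    obtain ⟨n, hn⟩ := nilpotent_of_mem_jacobson hx
    refine ⟨n + 1, ?_⟩
    have h1 : ∀ m : ℕ, (Matrix.single i i c) ^ (m + 1) = Matrix.single i i (c ^ (m + 1)) := by
      intro m
      induction m with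
      | zero => simp
      | succ m ih => rw [pow_succ, ih, Matrix.single_mul_single_same, ← pow_succ]
    have h2 : Matrix.single i i (c ^ (n + 1)) = 0 := by
      rw [← h1, ← hxc, ← map_pow, pow_succ, hn, zero_mul, map_zero]
    have h3 := congrFun (congrFun h2 i) i
    rw [Matrix.single_apply_same] at h3
    exact h3
  apply hL
  obtain ⟨u, hu⟩ := hs (Matrix.single i i 1)
  obtain ⟨v, hv⟩ := hs (Matrix.single j i 1)
  refine ⟨u * a * v, ?_, ?_⟩
  · exact Ideal.mul_mem_right _ _ (Ideal.mul_mem_left _ _ ha)
  · rw [map_mul, map_mul, hu, hv]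
    ext s t : 2
    rw [Matrix.mul_assoc]
    by_cases hsi : s = i
    · subst hsi
      by_cases hti : t = s
      · subst hti
        simp [Matrix.single_mul_apply_same, Matrix.mul_single_apply_same]
      · simp [Matrix.single_mul_apply_same, Matrix.mul_single_apply_of_ne _ _ _ _ _ (Ne.symm (Ne.symm hti)), Matrix.single_apply, Ne.symm hti]
    · rw [Matrix.single_mul_apply_of_ne _ _ _ _ _ hsi]
      simp [Matrix.single_apply, Ne.symm hsi]
-- END entries_jac

-- BEGIN rel_bound
/-- PROOF. `theta`, `theta_surj`, `entries_jac`: the linear surjection `k[G] → Matrix ι ι (k[Q] ⧸ J)` (entrywise `mkQ` after `Θ`) kills `J(k[G])`, so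
`finrank (ι → ι → k[Q] ⧸ J) = card ι ^ 2 * ssDim k Q ≤ ssDim k G` (`Submodule.liftQ`, `LinearMap.finrank_le_finrank_of_surjective`,
`Module.finrank_pi`, `Module.finrank_matrix`). -/
theorem rel_bound {k G : Type} [Field k] [Group G] [Finite G] (N : Subgroup G) [N.Normal]
    {ι : Type} [Fintype ι] [DecidableEq ι] (R : MonoidAlgebra k G →ₐ[k] Matrix ι ι k)
    (hR : ∀ M : Matrix ι ι k, ∃ a : MonoidAlgebra k N, R (ind (k := k) N.subtype a) = M) :
    Fintype.card ι ^ 2 * ssDim k (G ⧸ N) ≤ ssDim k G := by
  obtain ⟨Θ, hΘ⟩ := theta N R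
  have hs := theta_surj N R hR Θ hΘ
  set U : Submodule k (MonoidAlgebra k G) :=
    (Ring.jacobson (MonoidAlgebra k G)).restrictScalars k with hU
  set W : Submodule k (MonoidAlgebra k (G ⧸ N)) :=
    (Ring.jacobson (MonoidAlgebra k (G ⧸ N))).restrictScalars k with hW
  let F : MonoidAlgebra k G →ₗ[k] (ι → ι → MonoidAlgebra k (G ⧸ N) ⧸ W) :=
    LinearMap.pi fun i => LinearMap.pi fun j =>
      W.mkQ ∘ₗ (Matrix.entryLinearMap k (MonoidAlgebra k (G ⧸ N)) i j) ∘ₗ Θ.toLinearMap
  have hF : ∀ a i j, F a i j = W.mkQ (Θ a i j) := fun a i j => rfl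
  have hFs : Function.Surjective F := by
    intro y
    choose c hc using fun i j => Submodule.mkQ_surjective W (y i j)
    obtain ⟨a, ha⟩ := hs (Matrix.of c)
    refine ⟨a, ?_⟩
    funext i j
    rw [hF, ha]
    exact hc i j
  have hle : U ≤ LinearMap.ker F := by
    intro a ha
    rw [LinearMap.mem_ker]
    funext i j
    rw [hF]
    exact (Submodule.Quotient.mk_eq_zero W).2 (entries_jac Θ hs a ha i j)
  have h1 : Module.finrank k (ι → ι → MonoidAlgebra k (G ⧸ N) ⧸ W) ≤
      Module.finrank k (MonoidAlgebra k G ⧸ U) := by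
    refine LinearMap.finrank_le_finrank_of_surjective (f := U.liftQ F hle) ?_
    intro y
    obtain ⟨a, ha⟩ := hFs y
    exact ⟨U.mkQ a, by rw [Submodule.mkQ_apply, Submodule.liftQ_apply, ha]⟩
  have h2 : Module.finrank k (ι → ι → MonoidAlgebra k (G ⧸ N) ⧸ W) =
      Fintype.card ι ^ 2 * ssDim k (G ⧸ N) := by
    rw [Module.finrank_pi_fintype, Finset.sum_congr rfl fun i _ => Module.finrank_pi_fintype k,
      Finset.sum_const, Finset.sum_const, Finset.card_univ, smul_eq_mul, smul_eq_mul, ← mul_assoc,
      ← pow_two]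
    rfl
  rw [← h2]
  exact h1
-- END rel_bound

end Pool.Agent.Wil
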