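import Mathlib
import Pool.Agent.Wil.Core

set_option autoImplicit false

/-! From a norm one virtual character of defect zero to a surjection of the group algebra onto a matrix
algebra over the field with `p` elements. -/

namespace Pool.Agent.Wil

open MonoidAlgebra

-- BEGIN char_real
theorem char_real {G : Type} [Group G] [Fintype G] (χ : G → ℤ) (hχ : Virt χ) (f H : ℕ)
    (hn : ∑ g, χ g * χ g⁻¹ = Fintype.card G) (h1 : χ 1 = f) (hf : 0 < f)
    (hfH : f * H = Fintype.card G) :
    ∃ ρ : MonoidAlgebra ℂ G →ₐ[ℂ] Matrix (Fin f) (Fin f) ℂ, Function.Surjective ρ ∧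
      ∀ g, (ρ (single g 1)).trace = ((χ g : ℤ) : ℂ) := by
  classical
  obtain ⟨N, d, hd, ⟨e⟩⟩ := wedderburn G
  obtain ⟨m, hm⟩ := virt_coeff χ hχ d hd e
  set b : MonoidAlgebra ℂ G := ∑ g : G, single g ((χ g⁻¹ : ℤ) : ℂ) with hb
  have hbc : ∀ g, b.coeff g = ((χ g⁻¹ : ℤ) : ℂ) := by
    intro g
    rw [hb, MonoidAlgebra.coeff_sum, Finsupp.finset_sum_apply, Finset.sum_eq_single g]
    · rw [MonoidAlgebra.coeff_single, Finsupp.single_eq_same]
    · intro y _ hy
      rw [MonoidAlgebra.coeff_single, Finsupp.single_eq_of_ne (Ne.symm hy)]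
    · exact fun h => absurd (Finset.mem_univ g) h
  have hbs : ∀ i, (d i : ℂ) • e b i =
      ((Fintype.card G : ℂ) * (m i : ℂ)) • (1 : Matrix (Fin (d i)) (Fin (d i)) ℂ) :=
    fun i => b_scalar χ d hd e m hm i
  have hG : (Fintype.card G : ℂ) ≠ 0 := by exact_mod_cast Fintype.card_ne_zero
  have hd0 : ∀ i, (d i : ℂ) ≠ 0 := fun i => by exact_mod_cast (hd i).ne'
  -- the traces
  have htr : ∀ i, (e b i).trace = (Fintype.card G : ℂ) * (m i : ℂ) := by
    intro i
    have h2 := congrArg Matrix.trace (hbs i)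
    rw [Matrix.trace_smul, Matrix.trace_smul, Matrix.trace_one, Fintype.card_fin, smul_eq_mul,
      smul_eq_mul] at h2
    have h3 : (d i : ℂ) * ((e b i).trace - (Fintype.card G : ℂ) * (m i : ℂ)) = 0 := by
      linear_combination h2
    rcases mul_eq_zero.1 h3 with h4 | h4
    · exact absurd h4 (hd0 i)
    · linear_combination h4
  have hsq : ∑ i, m i ^ 2 = 1 := by
    have h2 := hm b
    have h3 : ∑ g, b.coeff g * ((χ g : ℤ) : ℂ) = (Fintype.card G : ℂ) := by
      have h4 : ((∑ g, χ g * χ g⁻¹ : ℤ) : ℂ) = (Fintype.card G : ℂ) := by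
        rw [hn]
        push_cast
        rfl
      rw [← h4]
      push_cast
      refine Finset.sum_congr rfl fun g _ => ?_
      rw [hbc g]
      ring
    rw [h3, Finset.sum_congr rfl fun i _ => by rw [htr i]] at h2
    have h4 : (Fintype.card G : ℂ) * ((∑ i, m i ^ 2 : ℤ) : ℂ) = (Fintype.card G : ℂ) * 1 := by
      rw [mul_one]
      push_cast
      rw [Finset.mul_sum]
      conv_rhs => rw [h2]
      exact Finset.sum_congr rfl fun i _ => by ring
    exact_mod_cast mul_left_cancel₀ hG h4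
  -- one coefficient
  have hj : ∃ j, m j ≠ 0 := by
    by_contra hcon
    push Not at hcon
    rw [Finset.sum_eq_zero fun i _ => by rw [hcon i]; norm_num] at hsq
    exact absurd hsq (by norm_num)
  obtain ⟨j, hj⟩ := hj
  have hj1 : 1 ≤ m j ^ 2 := by
    have := pow_pos (abs_pos.2 hj) 2
    rw [sq_abs] at this
    omega
  have hsplit := Finset.add_sum_erase Finset.univ (fun i => m i ^ 2) (Finset.mem_univ j)
  have hrest : 0 ≤ ∑ i ∈ Finset.univ.erase j, m i ^ 2 :=
    Finset.sum_nonneg fun i _ => sq_nonneg _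
  have hz : ∀ i, i ≠ j → m i = 0 := by
    intro i hi
    have h2 := (Finset.sum_eq_zero_iff_of_nonneg
      (fun i _ => sq_nonneg (m i)) (s := Finset.univ.erase j)).1 (by
        beta_reduce at hsplit
        linarith) i (Finset.mem_erase.2 ⟨hi, Finset.mem_univ i⟩)
    exact pow_eq_zero_iff (two_ne_zero) |>.1 h2
  have hmj : m j ^ 2 = 1 := by
    beta_reduce at hsplit
    linarith
  -- the value at the identity
  have hf1 : (f : ℤ) = m j * d j := by
    have h2 := hm 1
    have h3 : ∑ g, (1 : MonoidAlgebra ℂ G).coeff g * ((χ g : ℤ) : ℂ) = ((χ 1 : ℤ) : ℂ) := by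
      rw [Finset.sum_eq_single 1]
      · rw [MonoidAlgebra.coeff_one_one, one_mul]
      · intro g _ hg
        rw [MonoidAlgebra.one_def, MonoidAlgebra.coeff_single, Finsupp.single_eq_of_ne hg,
          zero_mul]
      · exact fun h => absurd (Finset.mem_univ _) h
    rw [h3, h1, Finset.sum_eq_single j] at h2
    · rw [map_one, Pi.one_apply, Matrix.trace_one, Fintype.card_fin] at h2
      exact_mod_cast h2
    · intro i _ hi
      rw [hz i hi, Int.cast_zero, zero_mul]
    · exact fun h => absurd (Finset.mem_univ _) h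
  have hmj1 : m j = 1 := by
    have h3 : (m j - 1) * (m j + 1) = 0 := by linear_combination hmj
    rcases mul_eq_zero.1 h3 with h2 | h2
    · linarith
    · exfalso
      have h4 : m j = -1 := by linarith
      rw [h4] at hf1
      have := hd j
      omega
  have hdf : d j = f := by
    rw [hmj1, one_mul] at hf1
    exact_mod_cast hf1.symm
  subst hdf
  refine ⟨(Pi.evalAlgHom ℂ (fun i => Matrix (Fin (d i)) (Fin (d i)) ℂ) j).comp
    (e : MonoidAlgebra ℂ G →ₐ[ℂ] _), ?_, ?_⟩
  · intro M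
    refine ⟨e.symm (Pi.single j M), ?_⟩
    show (e (e.symm (Pi.single j M))) j = M
    rw [e.apply_symm_apply, Pi.single_eq_same]
  · intro g
    have h2 := hm (single g 1)
    rw [Finset.sum_eq_single g, Finset.sum_eq_single j] at h2
    · rw [MonoidAlgebra.coeff_single, Finsupp.single_eq_same, one_mul, hmj1, Int.cast_one,
        one_mul] at h2
      exact h2.symm
    · intro i _ hi
      rw [hz i hi, Int.cast_zero, zero_mul]
    · exact fun h => absurd (Finset.mem_univ _) h
    · intro y _ hy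
      rw [MonoidAlgebra.coeff_single, Finsupp.single_eq_of_ne hy, zero_mul]
    · exact fun h => absurd (Finset.mem_univ _) h
-- END char_real

-- BEGIN cas_one
/-- PROOF. `char_real`. `Z = ∑ x, ρ (x⁻¹) * ρ u * ρ x` commutes with all `ρ h` (`h⁻¹ Z h` is a reindexing), so with everything, so it is
scalar: `Z = c • 1`; the trace gives `c * f = card G * χ u`, `c = H * χ u`. Multiply by `ρ g` and take the trace. -/
theorem cas_one {G : Type} [Group G] [Fintype G] (χ : G → ℤ) (hχ : Virt χ) (f H : ℕ)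
    (hn : ∑ g, χ g * χ g⁻¹ = Fintype.card G) (h1 : χ 1 = f) (hf : 0 < f)
    (hfH : f * H = Fintype.card G) (u g : G) :
    ∑ x, χ (x⁻¹ * u * x * g) = H * (χ u * χ g) := by
  classical
  obtain ⟨ρ, hρ, htr⟩ := char_real χ hχ f H hn h1 hf hfH
  have hmul : ∀ a b : G, ρ (single a 1) * ρ (single b 1) = ρ (single (a * b) 1) := by
    intro a b
    rw [← map_mul, MonoidAlgebra.single_mul_single, mul_one]
  obtain ⟨Z, hZ⟩ : ∃ Z : Matrix (Fin f) (Fin f) ℂ, Z = ∑ x : G, ρ (single (x⁻¹ * u * x) 1) := ⟨_, rfl⟩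
  have hcomm1 : ∀ h : G, Z * ρ (single h 1) = ρ (single h 1) * Z := by
    intro h
    rw [hZ, Finset.sum_mul, Finset.mul_sum]
    rw [← Equiv.sum_comp (Equiv.mulRight h⁻¹) (fun x : G => ρ (single (x⁻¹ * u * x) 1) * ρ (single h 1))]
    refine Finset.sum_congr rfl fun x _ => ?_
    rw [hmul, hmul, Equiv.coe_mulRight]
    congr 2
    group
  have hcomm2 : ∀ a : MonoidAlgebra ℂ G, Z * ρ a = ρ a * Z := by
    intro a
    induction a using MonoidAlgebra.induction_linear with
    | zero => rw [map_zero, mul_zero, zero_mul]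
    | add a b ha hb => rw [map_add, mul_add, add_mul, ha, hb]
    | single h r =>
      have e : (single h r : MonoidAlgebra ℂ G) = r • single h 1 := by
        rw [MonoidAlgebra.smul_single, smul_eq_mul, mul_one]
      rw [e, map_smul, mul_smul_comm, smul_mul_assoc, hcomm1]
  have hcomm3 : ∀ A : Matrix (Fin f) (Fin f) ℂ, Z * A = A * Z := by
    intro A
    obtain ⟨a, rfl⟩ := hρ A
    exact hcomm2 a
  obtain ⟨c, hc⟩ : Z ∈ Set.range (Matrix.scalar (Fin f)) :=
    Matrix.mem_range_scalar_iff_commute_single'.2 fun i j => (hcomm3 (Matrix.single i j 1)).symm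
  have hc' : Z = c • (1 : Matrix (Fin f) (Fin f) ℂ) := by
    rw [← hc, Matrix.scalar_apply, Matrix.smul_one_eq_diagonal]
  have hconj : ∀ x : G, χ (x⁻¹ * u * x) = χ u := by
    intro x
    rw [mul_assoc, virt_conj χ hχ x⁻¹ (u * x), mul_assoc, mul_inv_cancel, mul_one]
  have ht1 : Z.trace = (Fintype.card G : ℂ) * ((χ u : ℤ) : ℂ) := by
    rw [hZ, Matrix.trace_sum]
    have e : ∀ x ∈ (Finset.univ : Finset G), (ρ (single (x⁻¹ * u * x) 1)).trace = ((χ u : ℤ) : ℂ) := by
      intro x _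
      rw [htr, hconj]
    rw [Finset.sum_congr rfl e, Finset.sum_const, Finset.card_univ, nsmul_eq_mul]
  have ht2 : Z.trace = c * f := by
    rw [hc', Matrix.trace_smul, Matrix.trace_one, Fintype.card_fin, smul_eq_mul]
  have hf0 : (f : ℂ) ≠ 0 := by exact_mod_cast hf.ne'
  have hG : (Fintype.card G : ℂ) = f * H := by exact_mod_cast hfH.symm
  have hcv : c = (H : ℂ) * ((χ u : ℤ) : ℂ) := by
    rw [ht1, hG] at ht2
    apply mul_right_cancel₀ hf0
    rw [← ht2]
    ring
  have h2 : (Z * ρ (single g 1)).trace = ∑ x : G, ((χ (x⁻¹ * u * x * g) : ℤ) : ℂ) := by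
    rw [hZ, Finset.sum_mul, Matrix.trace_sum]
    refine Finset.sum_congr rfl fun x _ => ?_
    rw [hmul, htr]
  have h3 : (Z * ρ (single g 1)).trace = c * ((χ g : ℤ) : ℂ) := by
    rw [hc', smul_mul_assoc, one_mul, Matrix.trace_smul, htr, smul_eq_mul]
  have h4 : ((∑ x, χ (x⁻¹ * u * x * g) : ℤ) : ℂ) = ((H * (χ u * χ g) : ℤ) : ℂ) := by
    push_cast
    rw [← h2, h3, hcv]
    ring
  exact_mod_cast h4
-- END cas_one

/-- `∑ χ(g⁻¹) g` over `k`. -/
noncomputable def bb (k : Type) {G : Type} [Field k] [Group G] [Fintype G] (χ : G → ℤ) :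
    MonoidAlgebra k G :=
  ∑ g : G, single g ((χ g⁻¹ : ℤ) : k)

/-- The functional `a ↦ ∑ a g χ g` over `k`. -/
noncomputable def fu (k : Type) {G : Type} [Field k] [Group G] [Fintype G] (χ : G → ℤ)
    (a : MonoidAlgebra k G) : k :=
  ∑ g : G, a.coeff g * ((χ g : ℤ) : k)

-- BEGIN bb_central
/-- PROOF. Compare coefficients (or check on `a = single h 1` and extend linearly, `MonoidAlgebra.induction_linear`). -/
theorem bb_central {k G : Type} [Field k] [Group G] [Fintype G] (χ : G → ℤ)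
    (hc : ∀ g h, χ (g * h) = χ (h * g)) (a : MonoidAlgebra k G) : bb k χ * a = a * bb k χ := by
  induction a using MonoidAlgebra.induction_linear with
  | zero => rw [mul_zero, zero_mul]
  | add a b ha hb => rw [mul_add, add_mul, ha, hb]
  | single h r =>
    unfold bb
    rw [Finset.sum_mul, Finset.mul_sum]
    rw [← Equiv.sum_comp ((Equiv.mulLeft h⁻¹).trans (Equiv.mulRight h))
      (fun g : G => single h r * single g ((χ g⁻¹ : ℤ) : k))]
    refine Finset.sum_congr rfl fun g _ => ?_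
    rw [MonoidAlgebra.single_mul_single, MonoidAlgebra.single_mul_single, Equiv.trans_apply,
      Equiv.coe_mulLeft, Equiv.coe_mulRight]
    have e1 : h * (h⁻¹ * g * h) = g * h := by group
    have e2 : χ (h⁻¹ * g * h)⁻¹ = χ g⁻¹ := by
      have e3 : (h⁻¹ * g * h)⁻¹ = h⁻¹ * (g⁻¹ * h) := by group
      rw [e3, hc h⁻¹ (g⁻¹ * h), mul_assoc, mul_inv_cancel, mul_one]
    rw [e1, e2, mul_comm r]

/-- PROOF. The coefficient of `bb * bb` at `w` is `∑ y, χ(y⁻¹) χ(w⁻¹ y) = H χ(w⁻¹)`. -/
theorem bb_sq {k G : Type} [Field k] [Group G] [Fintype G] (χ : G → ℤ) (H : ℕ)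
    (hconv : ∀ x, ∑ g, χ g * χ (g⁻¹ * x) = H * χ x) : bb k χ * bb k χ = (H : k) • bb k χ := by
  unfold bb
  rw [Finset.sum_mul, Finset.smul_sum]
  have h1 : ∀ g ∈ (Finset.univ : Finset G), (single g ((χ g⁻¹ : ℤ) : k) : MonoidAlgebra k G) *
      ∑ h : G, single h ((χ h⁻¹ : ℤ) : k) =
      ∑ w : G, MonoidAlgebra.singleAddHom w (((χ g⁻¹ : ℤ) : k) * ((χ (w⁻¹ * g) : ℤ) : k)) := by
    intro g _
    rw [Finset.mul_sum, ← Equiv.sum_comp (Equiv.mulLeft g⁻¹)
      (fun h : G => (single g ((χ g⁻¹ : ℤ) : k) : MonoidAlgebra k G) * single h ((χ h⁻¹ : ℤ) : k))]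
    refine Finset.sum_congr rfl fun w _ => ?_
    rw [MonoidAlgebra.single_mul_single, Equiv.coe_mulLeft]
    have e1 : g * (g⁻¹ * w) = w := by group
    have e2 : (g⁻¹ * w)⁻¹ = w⁻¹ * g := by group
    rw [e1, e2]
    rfl
  rw [Finset.sum_congr rfl h1, Finset.sum_comm]
  refine Finset.sum_congr rfl fun w _ => ?_
  rw [← map_sum, MonoidAlgebra.smul_single, smul_eq_mul]
  have h2 : ∑ g : G, ((χ g⁻¹ : ℤ) : k) * ((χ (w⁻¹ * g) : ℤ) : k) = (H : k) * ((χ w⁻¹ : ℤ) : k) := by
    have h3 := hconv w⁻¹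
    rw [← Equiv.sum_comp (Equiv.mulLeft w⁻¹) (fun g : G => χ g * χ (g⁻¹ * w⁻¹))] at h3
    have h4 := congrArg (fun z : ℤ => (z : k)) h3
    push_cast at h4
    rw [← h4]
    refine Finset.sum_congr rfl fun g _ => ?_
    rw [Equiv.coe_mulLeft]
    have e3 : (w⁻¹ * g)⁻¹ * w⁻¹ = g⁻¹ := by group
    rw [e3, mul_comm]
  rw [h2]
  rfl
-- END bb_central

-- BEGIN bb_cas
private theorem bb_cas_add {k G : Type} [Field k] [Group G] [Fintype G] (χ : G → ℤ) (a b : MonoidAlgebra k G) :
    fu k χ (a + b) = fu k χ a + fu k χ b := by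
  unfold fu
  rw [← Finset.sum_add_distrib]
  refine Finset.sum_congr rfl fun g _ => ?_
  rw [MonoidAlgebra.coeff_add, Finsupp.add_apply, add_mul]

private theorem bb_cas_zero {k G : Type} [Field k] [Group G] [Fintype G] (χ : G → ℤ) :
    fu k χ (0 : MonoidAlgebra k G) = 0 := by
  unfold fu
  simp

private theorem bb_cas_single {k G : Type} [Field k] [Group G] [Fintype G] (χ : G → ℤ) (g : G) (r : k) :
    fu k χ (single g r) = r * ((χ g : ℤ) : k) := by
  classical
  unfold fu
  rw [Finset.sum_eq_single g]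
  · rw [MonoidAlgebra.coeff_single, Finsupp.single_eq_same]
  · intro b _ hb
    rw [MonoidAlgebra.coeff_single, Finsupp.single_apply, if_neg (Ne.symm hb), zero_mul]
  · intro h
    exact absurd (Finset.mem_univ g) h

/-- PROOF. Linear in `a`; for `a = single g 1` the coefficient at `w` of the left side is `∑ x, χ(w⁻¹ * (x * g * x⁻¹))`
`= H * (χ g * χ w⁻¹)` (`hcas` after `x ↦ x⁻¹`, `hc`). -/
theorem bb_cas {k G : Type} [Field k] [Group G] [Fintype G] (χ : G → ℤ) (H : ℕ)
    (hc : ∀ g h, χ (g * h) = χ (h * g))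
    (hcas : ∀ u g, ∑ x, χ (x⁻¹ * u * x * g) = H * (χ u * χ g)) (a : MonoidAlgebra k G) :
    (∑ x : G, single x 1 * a * single x⁻¹ 1) * bb k χ = ((H : k) * fu k χ a) • bb k χ := by
  induction a using MonoidAlgebra.induction_linear with
  | zero => simp [bb_cas_zero]
  | add a b ha hb =>
    rw [bb_cas_add, mul_add, add_smul, ← ha, ← hb, ← add_mul, ← Finset.sum_add_distrib]
    congr 1
    refine Finset.sum_congr rfl fun x _ => ?_
    rw [mul_add, add_mul]
  | single g r =>
    rw [bb_cas_single]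
    unfold bb
    rw [Finset.sum_mul, Finset.smul_sum]
    have h1 : ∀ x ∈ (Finset.univ : Finset G), ((single x 1 * single g r * single x⁻¹ 1 : MonoidAlgebra k G)) *
        ∑ h : G, single h ((χ h⁻¹ : ℤ) : k) =
        ∑ w : G, MonoidAlgebra.singleAddHom w (r * ((χ (w⁻¹ * (x * g * x⁻¹)) : ℤ) : k)) := by
      intro x _
      rw [MonoidAlgebra.single_mul_single, MonoidAlgebra.single_mul_single, one_mul, mul_one,
        Finset.mul_sum, ← Equiv.sum_comp (Equiv.mulLeft (x * g * x⁻¹)⁻¹)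
        (fun h : G => (single (x * g * x⁻¹) r : MonoidAlgebra k G) * single h ((χ h⁻¹ : ℤ) : k))]
      refine Finset.sum_congr rfl fun w _ => ?_
      rw [MonoidAlgebra.single_mul_single, Equiv.coe_mulLeft]
      have e1 : x * g * x⁻¹ * ((x * g * x⁻¹)⁻¹ * w) = w := by group
      have e2 : ((x * g * x⁻¹)⁻¹ * w)⁻¹ = w⁻¹ * (x * g * x⁻¹) := by group
      rw [e1, e2]
      rfl
    rw [Finset.sum_congr rfl h1, Finset.sum_comm]
    refine Finset.sum_congr rfl fun w _ => ?_
    rw [← map_sum, MonoidAlgebra.smul_single, smul_eq_mul, ← Finset.mul_sum]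
    have h2 : ∑ x : G, ((χ (w⁻¹ * (x * g * x⁻¹)) : ℤ) : k) = (H : k) * (((χ g : ℤ) : k) * ((χ w⁻¹ : ℤ) : k)) := by
      have h3 := hcas g w⁻¹
      rw [← Equiv.sum_comp (Equiv.inv G) (fun x : G => χ (x⁻¹ * g * x * w⁻¹))] at h3
      have h4 := congrArg (fun z : ℤ => (z : k)) h3
      push_cast at h4
      rw [← h4]
      refine Finset.sum_congr rfl fun x _ => ?_
      rw [Equiv.inv_apply, inv_inv, hc w⁻¹]
    rw [h2]
    have e : r * ((H : k) * (((χ g : ℤ) : k) * ((χ w⁻¹ : ℤ) : k))) =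
        (H : k) * (r * ((χ g : ℤ) : k)) * ((χ w⁻¹ : ℤ) : k) := by ring
    rw [e]
    rfl
-- END bb_cas

-- BEGIN bb_nondeg
private theorem bb_nondeg_add {k G : Type} [Field k] [Group G] [Fintype G] (χ : G → ℤ) (a b : MonoidAlgebra k G) :
    fu k χ (a + b) = fu k χ a + fu k χ b := by
  unfold fu
  rw [← Finset.sum_add_distrib]
  refine Finset.sum_congr rfl fun g _ => ?_
  rw [MonoidAlgebra.coeff_add, Finsupp.add_apply, add_mul]

private theorem bb_nondeg_single {k G : Type} [Field k] [Group G] [Fintype G] (χ : G → ℤ) (g : G) (r : k) :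
    fu k χ (single g r) = r * ((χ g : ℤ) : k) := by
  classical
  unfold fu
  rw [Finset.sum_eq_single g]
  · rw [MonoidAlgebra.coeff_single, Finsupp.single_eq_same]
  · intro b _ hb
    rw [MonoidAlgebra.coeff_single, Finsupp.single_apply, if_neg (Ne.symm hb), zero_mul]
  · intro h
    exact absurd (Finset.mem_univ g) h

private theorem bb_nondeg_coeff {k G : Type} [Field k] [Group G] [Fintype G] (χ : G → ℤ) (a : MonoidAlgebra k G)
    (h : G) : (bb k χ * a).coeff h = fu k χ (a * single h⁻¹ 1) := by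
  classical
  induction a using MonoidAlgebra.induction_linear with
  | zero =>
    rw [mul_zero, zero_mul]
    unfold fu
    simp
  | add a b ha hb =>
    rw [mul_add, add_mul, MonoidAlgebra.coeff_add, Finsupp.add_apply, ha, hb, bb_nondeg_add]
  | single g r =>
    rw [MonoidAlgebra.single_mul_single, mul_one, bb_nondeg_single]
    unfold bb
    rw [Finset.sum_mul, MonoidAlgebra.coeff_sum, Finsupp.finsetSum_apply, Finset.sum_eq_single (h * g⁻¹)]
    · rw [MonoidAlgebra.single_mul_single, MonoidAlgebra.coeff_single, inv_mul_cancel_right,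
        Finsupp.single_eq_same, mul_inv_rev, inv_inv, mul_comm]
    · intro x _ hx
      rw [MonoidAlgebra.single_mul_single, MonoidAlgebra.coeff_single, Finsupp.single_apply, if_neg]
      intro h1
      exact hx (by rw [← h1]; group)
    · intro h1
      exact absurd (Finset.mem_univ _) h1

/-- PROOF. The coefficient of `bb * a` at `h` is `fu k χ (a * single h⁻¹ 1)`. -/
theorem bb_nondeg {k G : Type} [Field k] [Group G] [Fintype G] (χ : G → ℤ) (a : MonoidAlgebra k G)
    (ha : bb k χ * a ≠ 0) : ∃ g, fu k χ (a * single g 1) ≠ 0 := by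
  by_contra hcon
  push Not at hcon
  apply ha
  ext h
  rw [bb_nondeg_coeff, hcon]
  simp
-- END bb_nondeg

/-- The annihilator of `bb`. -/
noncomputable def ann (k : Type) {G : Type} [Field k] [Group G] [Fintype G] (χ : G → ℤ)
    (hc : ∀ g h, χ (g * h) = χ (h * g)) : Ideal (MonoidAlgebra k G) where
  carrier := {x | bb k χ * x = 0}
  add_mem' := by
    intro a b ha hb
    simp only [Set.mem_setOf_eq] at *
    rw [mul_add, ha, hb, add_zero]
  zero_mem' := by simp
  smul_mem' := by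
    intro c x hx
    simp only [Set.mem_setOf_eq, smul_eq_mul] at *
    rw [← mul_assoc, bb_central χ hc, mul_assoc, hx, mul_zero]

instance annTwoSided (k : Type) {G : Type} [Field k] [Group G] [Fintype G] (χ : G → ℤ)
    (hc : ∀ g h, χ (g * h) = χ (h * g)) : (ann k χ hc).IsTwoSided :=
  ⟨by
    intro a b ha
    show bb k χ * (a * b) = 0
    have : bb k χ * a = 0 := ha
    rw [← mul_assoc, this, zero_mul]⟩

-- BEGIN ann_simple
/-- PROOF. Nontrivial as `bb * 1 ≠ 0` (`bb ≠ 0`: some `χ g` is not zero in `k`, because the rank of its matrix is at least `f² ≥ 1`; or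
`hb`). If `L` is a two-sided ideal of the quotient containing the class of `a` with `bb * a ≠ 0`, choose `g` with
`fu k χ (a * single g 1) ≠ 0` (`bb_nondeg`); by `bb_cas` for `a * single g 1` and `bb * (1 - H⁻¹ bb) = 0` (`bb_sq`), the class of
`∑ x, x a g x⁻¹` is the class of `(fu) • bb`, `= (fu * H) • 1`: indeed `bb * (∑ x.. - (fu) bb) = H fu bb - fu H bb = 0`, `bb * (bb - H) = 0`. So `1 ∈ L`.
(`IsSimpleRing` is about `TwoSidedIdeal`.) -/
theorem ann_simple {k G : Type} [Field k] [Group G] [Fintype G] (χ : G → ℤ) (H : ℕ)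
    (hH : (H : k) ≠ 0) (hb : bb k χ ≠ 0) (hc : ∀ g h, χ (g * h) = χ (h * g))
    (hconv : ∀ x, ∑ g, χ g * χ (g⁻¹ * x) = H * χ x)
    (hcas : ∀ u g, ∑ x, χ (x⁻¹ * u * x * g) = H * (χ u * χ g)) :
    IsSimpleRing (MonoidAlgebra k G ⧸ ann k χ hc) := by
  have key : ∀ a : MonoidAlgebra k G,
      Ideal.Quotient.mk (ann k χ hc) (∑ x : G, single x 1 * a * single x⁻¹ 1) =
        Ideal.Quotient.mk (ann k χ hc) (((H : k) * fu k χ a) • 1) := by
    intro a
    rw [Ideal.Quotient.eq]
    show bb k χ * (_ - _) = 0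
    rw [mul_sub, bb_central χ hc, bb_cas χ H hc hcas, mul_smul_comm, mul_one, sub_self]
  rw [isSimpleRing_iff_isTwoSided_imp]
  refine ⟨⟨⟨0, 1, ?_⟩⟩, fun L hL => ?_⟩
  · intro h01
    have h1 : (1 : MonoidAlgebra k G) ∈ ann k χ hc := by
      rw [← Ideal.Quotient.eq_zero_iff_mem, map_one]
      exact h01.symm
    have h2 : bb k χ * 1 = 0 := h1
    rw [mul_one] at h2
    exact hb h2
  · by_cases hbot : L = ⊥
    · exact Or.inl hbot
    right
    obtain ⟨y, hyL, hy0⟩ := Submodule.exists_mem_ne_zero_of_ne_bot hbot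
    obtain ⟨a, rfl⟩ := Ideal.Quotient.mk_surjective y
    have ha : bb k χ * a ≠ 0 := fun h => hy0 (Ideal.Quotient.eq_zero_iff_mem.2 h)
    obtain ⟨g, hg⟩ := bb_nondeg χ a ha
    have h1 : Ideal.Quotient.mk (ann k χ hc)
        (∑ x : G, single x 1 * (a * single g 1) * single x⁻¹ 1) ∈ L := by
      rw [map_sum]
      refine Submodule.sum_mem L fun x _ => ?_
      rw [map_mul, map_mul, map_mul]
      exact L.mul_mem_right _ (L.mul_mem_left _ (L.mul_mem_right _ hyL))
    rw [key] at h1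
    rw [Ideal.eq_top_iff_one]
    have h2 := L.mul_mem_left (Ideal.Quotient.mk (ann k χ hc)
      ((((H : k) * fu k χ (a * single g 1))⁻¹) • 1)) h1
    rw [← map_mul, smul_mul_smul_comm, one_mul, inv_mul_cancel₀ (mul_ne_zero hH hg), one_smul,
      map_one] at h2
    exact h2
-- END ann_simple

-- BEGIN ann_center
private theorem ann_center_key {k G : Type} [Field k] [Group G] [Fintype G] (χ : G → ℤ) (H : ℕ)
    (hc : ∀ g h, χ (g * h) = χ (h * g))
    (hcas : ∀ u g, ∑ x, χ (x⁻¹ * u * x * g) = H * (χ u * χ g)) (a : MonoidAlgebra k G) :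
    Ideal.Quotient.mk (ann k χ hc) (∑ x : G, single x 1 * a * single x⁻¹ 1) =
      Ideal.Quotient.mk (ann k χ hc) (((H : k) * fu k χ a) • (1 : MonoidAlgebra k G)) := by
  rw [Ideal.Quotient.eq]
  show bb k χ * ((∑ x : G, single x 1 * a * single x⁻¹ 1) -
    ((H : k) * fu k χ a) • (1 : MonoidAlgebra k G)) = 0
  rw [mul_sub, bb_central χ hc (∑ x : G, single x 1 * a * single x⁻¹ 1), bb_cas χ H hc hcas,
    mul_smul_comm, mul_one, sub_self]

/-- PROOF. Choose `a` with `fu k χ a = 1` (`bb_nondeg` for `a = 1`, scale). For a central class `z = [y]`: `∑ x, x a x⁻¹ ` has class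
`H • 1 * 1 ...` (as in `ann_simple`: class of `∑ x a' x⁻¹` is `(H * fu a') • 1`), so
`H • z = z * [∑ x a x⁻¹] = [∑ x, x (y a) x⁻¹] = (H * fu (y * a)) • 1` (use that `z` commutes with `[x]`), divide by `H`. -/
theorem ann_center {k G : Type} [Field k] [Group G] [Fintype G] (χ : G → ℤ) (H : ℕ)
    (hH : (H : k) ≠ 0) (hb : bb k χ ≠ 0) (hc : ∀ g h, χ (g * h) = χ (h * g))
    (hconv : ∀ x, ∑ g, χ g * χ (g⁻¹ * x) = H * χ x)
    (hcas : ∀ u g, ∑ x, χ (x⁻¹ * u * x * g) = H * (χ u * χ g))
    (z : MonoidAlgebra k G ⧸ ann k χ hc) (hz : ∀ w, z * w = w * z) :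
    ∃ c : k, z = c • (1 : MonoidAlgebra k G ⧸ ann k χ hc) := by
  obtain ⟨g, hg⟩ := bb_nondeg χ (1 : MonoidAlgebra k G) (by rwa [mul_one])
  obtain ⟨a, ha⟩ : ∃ a : MonoidAlgebra k G, fu k χ a ≠ 0 := ⟨_, hg⟩
  obtain ⟨y, rfl⟩ := Ideal.Quotient.mk_surjective z
  have h2 : Ideal.Quotient.mk (ann k χ hc) (y * ∑ x : G, single x 1 * a * single x⁻¹ 1) =
      Ideal.Quotient.mk (ann k χ hc) (∑ x : G, single x 1 * (y * a) * single x⁻¹ 1) := by
    rw [Finset.mul_sum, map_sum, map_sum]
    refine Finset.sum_congr rfl fun x _ => ?_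
    have h3 := hz (Ideal.Quotient.mk (ann k χ hc) (single x 1))
    have h4 : Ideal.Quotient.mk (ann k χ hc) (y * (single x 1 * a * single x⁻¹ 1)) =
        (Ideal.Quotient.mk (ann k χ hc) y * Ideal.Quotient.mk (ann k χ hc) (single x 1)) *
          Ideal.Quotient.mk (ann k χ hc) (a * single x⁻¹ 1) := by
      rw [← map_mul, ← map_mul]
      congr 1
      simp only [mul_assoc]
    rw [h4, h3, ← map_mul, ← map_mul]
    congr 1
    simp only [mul_assoc]
  rw [map_mul, ann_center_key χ H hc hcas a, ann_center_key χ H hc hcas (y * a), ← map_mul,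
    mul_smul_comm, mul_one] at h2
  refine ⟨((H : k) * fu k χ a)⁻¹ * ((H : k) * fu k χ (y * a)), ?_⟩
  show Ideal.Quotient.mk (ann k χ hc) y = Ideal.Quotient.mk (ann k χ hc)
    ((((H : k) * fu k χ a)⁻¹ * ((H : k) * fu k χ (y * a))) • (1 : MonoidAlgebra k G))
  have h5 := congrArg (fun w => Ideal.Quotient.mk (ann k χ hc)
    (((H : k) * fu k χ a)⁻¹ • (1 : MonoidAlgebra k G)) * w) h2
  rw [← map_mul, ← map_mul, smul_mul_smul_comm, one_mul, inv_mul_cancel₀ (mul_ne_zero hH ha),
    one_smul, smul_mul_smul_comm, one_mul] at h5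
  exact h5
-- END ann_center

-- BEGIN fin_simple
/-- PROOF. `B` is finite, so Artinian; Wedderburn-Artin: `B ≃ₐ[ZMod p] Matrix (Fin d) (Fin d) D`, `D` a finite division ring, so commutative
(`littleWedderburn`), so the scalar matrices are central and by `hcen` are in `ZMod p`: `D` has dimension one
(`algebraMap (ZMod p) D` is bijective). (`IsSimpleRing.exists_algEquiv_matrix_divisionRing`.) -/
theorem fin_simple (p : ℕ) [Fact p.Prime] {B : Type} [Ring B] [Algebra (ZMod p) B] [Finite B]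
    [IsSimpleRing B] (hcen : ∀ z : B, (∀ w, z * w = w * z) → ∃ c : ZMod p, z = c • (1 : B)) :
    ∃ d : ℕ, Nonempty (B ≃ₐ[ZMod p] Matrix (Fin d) (Fin d) (ZMod p)) := by
  classical
  have : IsArtinianRing B := inferInstance
  obtain ⟨d, hd, D, _, _, ⟨e⟩⟩ := IsSimpleRing.exists_algEquiv_matrix_divisionRing (ZMod p) B
  have hfin : Finite (Matrix (Fin d) (Fin d) D) := Finite.of_equiv B e.toEquiv
  have hD : Finite D := by
    refine Finite.of_injective (fun x : D => Matrix.scalar (Fin d) x) fun x y hxy => ?_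
    have h1 := congrFun (congrFun hxy (0 : Fin d)) 0
    simpa using h1
  have hcomm : ∀ x y : D, x * y = y * x := fun x y => (littleWedderburn D).toCommRing.mul_comm x y
  have hsurj : Function.Surjective (algebraMap (ZMod p) D) := by
    intro x
    obtain ⟨c, hc⟩ := hcen (e.symm (Matrix.scalar (Fin d) x)) (by
      intro w
      apply e.injective
      rw [map_mul, map_mul, AlgEquiv.apply_symm_apply]
      ext i j
      simp [Matrix.scalar_apply, Matrix.diagonal_mul, Matrix.mul_diagonal, hcomm x])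
    refine ⟨c, ?_⟩
    have h1 := congrArg e hc
    rw [AlgEquiv.apply_symm_apply, map_smul, map_one] at h1
    have h2 := congrFun (congrFun h1 (0 : Fin d)) 0
    rw [Algebra.algebraMap_eq_smul_one]
    simpa using h2.symm
  have hinj : Function.Injective (algebraMap (ZMod p) D) := (algebraMap (ZMod p) D).injective
  let f : ZMod p ≃ₐ[ZMod p] D := AlgEquiv.ofBijective (Algebra.ofId (ZMod p) D) ⟨hinj, hsurj⟩
  exact ⟨d, ⟨e.trans (f.symm.mapMatrix)⟩⟩
-- END fin_simple

-- BEGIN ann_dim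
private theorem ann_dim_range {k G : Type} [Field k] [Group G] [Fintype G] (χ : G → ℤ)
    (hc : ∀ g h, χ (g * h) = χ (h * g)) :
    Module.finrank k (LinearMap.range (LinearMap.mulLeft k (bb k χ))) ≤
      Module.finrank k (MonoidAlgebra k G ⧸ ann k χ hc) := by
  have hle : (ann k χ hc).restrictScalars k ≤ LinearMap.ker (LinearMap.mulLeft k (bb k χ)) := by
    intro x hx
    rw [LinearMap.mem_ker, LinearMap.mulLeft_apply]
    exact hx
  have h := LinearMap.finrank_range_le
    (Submodule.liftQ ((ann k χ hc).restrictScalars k) (LinearMap.mulLeft k (bb k χ)) hle)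
  rw [Submodule.range_liftQ] at h
  exact h

/-- PROOF. Rank-nullity for `mulLeft bb` (kernel = `ann`), `rank_range` and `rk_ge` with `R = f ^ 2` as in the proof of `ssDim_ge`. The quotient by
`ann` and the quotient by the kernel of the linear map are the same up to `Submodule.restrictScalars`. -/
theorem ann_dim {p : ℕ} [Fact p.Prime] {k : Type} [Field k] [CharP k p] {G : Type} [Group G]
    [Fintype G] (χ : G → ℤ) (H f : ℕ) (hH : ¬ p ∣ H) (hf : f * H = Fintype.card G)
    (h1 : χ 1 = f) (hc : ∀ g h, χ (g * h) = χ (h * g))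
    (hconv : ∀ x, ∑ g, χ g * χ (g⁻¹ * x) = H * χ x) :
    f ^ 2 ≤ Module.finrank k (MonoidAlgebra k G ⧸ ann k χ hc) := by
  classical
  have hP : (Matrix.of (fun x h : G => χ (h * x⁻¹))) * (Matrix.of (fun x h : G => χ (h * x⁻¹))) =
      (H : ℤ) • (Matrix.of (fun x h : G => χ (h * x⁻¹))) := by
    ext x h
    rw [Matrix.mul_apply, Matrix.smul_apply, Matrix.of_apply, smul_eq_mul, ← hconv]
    refine Finset.sum_bij' (fun y _ => h * y⁻¹) (fun g _ => g⁻¹ * h) (by simp) (by simp)
      (fun y _ => by group) (fun g _ => by group) (fun y _ => ?_)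
    rw [Matrix.of_apply, Matrix.of_apply, mul_comm]
    congr 2
    group
  have htr : (Matrix.of (fun x h : G => χ (h * x⁻¹))).trace = ((f ^ 2 : ℕ) : ℤ) * H := by
    simp only [Matrix.trace, Matrix.diag, Matrix.of_apply, mul_inv_cancel, h1, Finset.sum_const,
      Finset.card_univ, nsmul_eq_mul]
    rw [← hf]
    push_cast
    ring
  have h2 := rk_ge (k := k) (p := p) _ H (f ^ 2) hH hP htr
  rw [rank_range] at h2
  exact h2.trans (ann_dim_range χ hc)
-- END ann_dim

-- BEGIN rep_zmod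
/-- PROOF. `norm_one`, `cas_one`, `virt_conj`, `ann_simple`, `ann_center`, `fin_simple` for `B = (ZMod p)[G] ⧸ ann`, compose with
the quotient map; `d ^ 2 = finrank B ≥ f ^ 2` (`ann_dim`), so `f ≤ d`; `bb ≠ 0` because the quotient has positive dimension. -/
theorem rep_zmod {p : ℕ} [Fact p.Prime] {G : Type} [Group G] [Fintype G] (χ : G → ℤ)
    (hχ : Virt χ) (f H : ℕ) (hn : ∑ g, χ g * χ g⁻¹ = Fintype.card G) (h1 : χ 1 = f) (hf : 0 < f)
    (hfH : f * H = Fintype.card G) (hH : ¬ p ∣ H) :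
    ∃ d : ℕ, f ≤ d ∧ ∃ φ : MonoidAlgebra (ZMod p) G →ₐ[ZMod p] Matrix (Fin d) (Fin d) (ZMod p),
      Function.Surjective φ := by
  have hc := virt_conj χ hχ
  have hconv := norm_one χ hχ f H hn h1 hf hfH
  have hcas := cas_one χ hχ f H hn h1 hf hfH
  have hdim := ann_dim (p := p) (k := ZMod p) χ H f hH hfH h1 hc hconv
  have hHk : (H : ZMod p) ≠ 0 := by
    rw [Ne, ZMod.natCast_eq_zero_iff]
    exact hH
  have hb : bb (ZMod p) χ ≠ 0 := by
    intro hb
    have htop : ann (ZMod p) χ hc = ⊤ := by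
      rw [eq_top_iff]
      intro x _
      show bb (ZMod p) χ * x = 0
      rw [hb, zero_mul]
    have hsub : Subsingleton (MonoidAlgebra (ZMod p) G ⧸ ann (ZMod p) χ hc) := by
      rw [htop]
      exact Submodule.Quotient.subsingleton_iff.2 rfl
    have h0 : Module.finrank (ZMod p) (MonoidAlgebra (ZMod p) G ⧸ ann (ZMod p) χ hc) = 0 :=
      Module.finrank_zero_of_subsingleton
    rw [h0] at hdim
    have : 0 < f ^ 2 := by positivity
    omega
  have : IsSimpleRing (MonoidAlgebra (ZMod p) G ⧸ ann (ZMod p) χ hc) :=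
    ann_simple χ H hHk hb hc hconv hcas
  have : Finite (MonoidAlgebra (ZMod p) G) := Module.finite_of_finite (ZMod p)
  have : Finite (MonoidAlgebra (ZMod p) G ⧸ ann (ZMod p) χ hc) :=
    Finite.of_surjective _ (Ideal.Quotient.mk_surjective (I := ann (ZMod p) χ hc))
  obtain ⟨d, ⟨e⟩⟩ := fin_simple p (B := MonoidAlgebra (ZMod p) G ⧸ ann (ZMod p) χ hc)
    (fun z hz => ann_center χ H hHk hb hc hconv hcas z hz)
  refine ⟨d, ?_, e.toAlgHom.comp (Ideal.Quotient.mkₐ (ZMod p) (ann (ZMod p) χ hc)), ?_⟩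
  · have h2 := LinearEquiv.finrank_eq e.toLinearEquiv
    rw [Module.finrank_matrix, Module.finrank_self, mul_one, Fintype.card_fin, ← sq] at h2
    have h3 : f ^ 2 ≤ d ^ 2 := hdim.trans (le_of_eq h2)
    exact (Nat.pow_le_pow_iff_left (by norm_num)).1 h3
  · exact e.surjective.comp (Ideal.Quotient.mkₐ_surjective (ZMod p) (ann (ZMod p) χ hc))
-- END rep_zmod

-- BEGIN rep_field
/-- PROOF. `MonoidAlgebra.lift` of `g ↦ (φ (single g 1)).map (ZMod.castHom (dvd_refl p) k)` (a monoid homomorphism). Every matrix unit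
is the image of a combination of group elements over `ZMod p`, cast the coefficients. -/
theorem rep_field {p : ℕ} [Fact p.Prime] {G : Type} [Group G] [Fintype G] {d : ℕ}
    (φ : MonoidAlgebra (ZMod p) G →ₐ[ZMod p] Matrix (Fin d) (Fin d) (ZMod p))
    (hφ : Function.Surjective φ) (k : Type) [Field k] [CharP k p] :
    ∃ ψ : MonoidAlgebra k G →ₐ[k] Matrix (Fin d) (Fin d) k, Function.Surjective ψ := by
  let κ : ZMod p →+* k := ZMod.castHom (dvd_refl p) k
  let V : G →* Matrix (Fin d) (Fin d) k :=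
    { toFun := fun g => κ.mapMatrix (φ (single g 1))
      map_one' := by rw [← MonoidAlgebra.one_def, map_one, map_one]
      map_mul' := fun g h => by
        rw [← map_mul, ← map_mul, MonoidAlgebra.single_mul_single, mul_one] }
  have hV : ∀ g, V g = (φ (single g 1)).map κ := fun g => rfl
  let ψ : MonoidAlgebra k G →ₐ[k] Matrix (Fin d) (Fin d) k := MonoidAlgebra.lift k _ G V
  have hψ : ∀ g c, ψ (single g c) = c • V g := fun g c => MonoidAlgebra.lift_single _ _ _
  have key : ∀ a : MonoidAlgebra (ZMod p) G, ∃ a' : MonoidAlgebra k G, ψ a' = (φ a).map κ := by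
    intro a
    induction a using MonoidAlgebra.induction_linear with
    | zero => exact ⟨0, by rw [map_zero, map_zero]; ext i j; simp⟩
    | add a b ha hb =>
      obtain ⟨a', ha⟩ := ha
      obtain ⟨b', hb⟩ := hb
      refine ⟨a' + b', ?_⟩
      rw [map_add, map_add, ha, hb]
      ext i j
      simp
    | single g c =>
      refine ⟨single g (κ c), ?_⟩
      have e : (single g c : MonoidAlgebra (ZMod p) G) = c • single g 1 := by
        rw [MonoidAlgebra.smul_single, smul_eq_mul, mul_one]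
      rw [hψ, hV, e, map_smul]
      ext i j
      simp
  refine ⟨ψ, fun M => ?_⟩
  have hunit : ∀ i j (c : k), ∃ x, ψ x = Matrix.single i j c := by
    intro i j c
    obtain ⟨a, ha⟩ := hφ (Matrix.single i j 1)
    obtain ⟨a', ha'⟩ := key a
    refine ⟨c • a', ?_⟩
    rw [map_smul, ha', ha]
    ext i' j'
    rw [Matrix.smul_apply, Matrix.map_apply, Matrix.single_apply, Matrix.single_apply]
    split_ifs
    · rw [map_one, smul_eq_mul, mul_one]
    · rw [map_zero, smul_zero]
  choose x hx using hunit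
  refine ⟨∑ i, ∑ j, x i j (M i j), ?_⟩
  rw [map_sum]
  simp only [map_sum, hx]
  exact (Matrix.matrix_eq_sum_single M).symm
-- END rep_field

/-- The symmetric group of degree `n` has, over every field of characteristic `p`, a surjection of its
group algebra onto the matrix algebra of some size `d ≥ f`. -/
def RepGe (p n f : ℕ) : Prop :=
  ∃ d : ℕ, f ≤ d ∧ ∀ (k : Type) [Field k] [CharP k p],
    ∃ ψ : MonoidAlgebra k (Equiv.Perm (Fin n)) →ₐ[k] Matrix (Fin d) (Fin d) k, Function.Surjective ψ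

-- BEGIN rep_sq
/-- PROOF. As `sq_le` (same computation of `f`), with `rep_zmod` and `rep_field` instead of `ssDim_ge`. -/
theorem rep_sq {p : ℕ} [Fact p.Prime] {n r : ℕ} (X : Fin r → ℕ)
    (hX : StrictMono X) (hn : n + ∑ i : Fin r, (i : ℕ) = ∑ i, X i) (H : ℕ) (hH : ¬ p ∣ H)
    (hdet : ∏ i, ((X i).factorial : ℤ) =
      (H : ℤ) * ∏ i : Fin r, ∏ j ∈ Finset.Ioi i, ((X j : ℤ) - (X i : ℤ))) :
    ∃ f : ℕ, f * H = n.factorial ∧ RepGe p n f := by
  have hV : (0 : ℤ) < ∏ i : Fin r, ∏ j ∈ Finset.Ioi i, ((X j : ℤ) - (X i : ℤ)) := by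
    refine Finset.prod_pos fun i _ => Finset.prod_pos fun j hj => ?_
    have := hX (Finset.mem_Ioi.1 hj)
    have : (X i : ℤ) < X j := by exact_mod_cast this
    linarith
  have hH0 : 0 < H := by
    rcases Nat.eq_zero_or_pos H with h | h
    · exact absurd (h ▸ dvd_zero p) hH
    · exact h
  have h1 := frob_one X hn
  rw [hdet] at h1
  have h2 : frob X (1 : Equiv.Perm (Fin n)) * (H : ℤ) = (n.factorial : ℤ) := by
    apply mul_right_cancel₀ hV.ne'
    rw [← h1]; ring
  have h3 : 0 < frob X (1 : Equiv.Perm (Fin n)) := by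
    have : (0 : ℤ) < frob X (1 : Equiv.Perm (Fin n)) * (H : ℤ) := by
      rw [h2]; exact_mod_cast n.factorial_pos
    exact pos_of_mul_pos_left this (by exact_mod_cast hH0.le)
  obtain ⟨f, hf⟩ := Int.eq_ofNat_of_zero_le h3.le
  have hfpos : 0 < f := by
    rw [hf] at h3; exact_mod_cast h3
  have h4 : f * H = n.factorial := by
    rw [hf] at h2; exact_mod_cast h2
  have hcard : Fintype.card (Equiv.Perm (Fin n)) = n.factorial := by
    rw [Fintype.card_perm, Fintype.card_fin]
  refine ⟨f, h4, ?_⟩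
  have hn' : ∑ g : Equiv.Perm (Fin n), frob X g * frob X g⁻¹ =
      (Fintype.card (Equiv.Perm (Fin n)) : ℤ) := by
    rw [hcard]; exact frob_norm X hX.injective hn
  obtain ⟨d, hd, φ, hφ⟩ := rep_zmod (p := p) (G := Equiv.Perm (Fin n)) (frob X)
    (frob_virt (n := n) X) f H hn' hf hfpos (by rw [hcard, h4]) hH
  refine ⟨d, hd, ?_⟩
  intro k _ _
  exact rep_field φ hφ k
-- END rep_sq

-- BEGIN core_rep
/-- PROOF. As `sq_le_set` and `core_main` in Core.lean, with `rep_sq` instead of `sq_le`. -/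
theorem core_rep {p : ℕ} [Fact p.Prime] (m : Fin p → ℕ) :
    ∃ n f : ℕ, (∑ i : Fin p, ∑ j : Fin p, ((m i - m j : ℕ) : ℝ) * (((m i - m j : ℕ) : ℝ) - 1) ≤
        2 * (n : ℝ)) ∧
      (2 * (n : ℝ) ≤
        ∑ i : Fin p, ∑ j : Fin p, ((m i - m j : ℕ) : ℝ) * (((m i - m j : ℕ) : ℝ) + 1)) ∧
      RepGe p n f ∧ 0 < f ∧
        2 * Real.log (n.factorial : ℝ) -
          2 * ∑ i : Fin p, ∑ j : Fin p, ∑ d ∈ Finset.range (m i - m j),
            (((m i - m j : ℕ) : ℝ) - d) * Real.log ((p : ℝ) * ((d : ℝ) + 1)) ≤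
        2 * Real.log (f : ℝ) := by
  have hpp : p.Prime := Fact.out
  obtain ⟨f, hf, hf2⟩ := rep_sq (p := p) (n := (cells (beta m)).card)
    (fun i : Fin (beta m).card => (beta m).orderEmbOfFin rfl i)
    ((beta m).orderEmbOfFin rfl).strictMono (cells_card (beta m)) _ (beta_not_dvd hpp m)
    (cells_hook (beta m))
  have hlog := beta_log_hook hpp.pos m
  have hfac : 0 < (cells (beta m)).card.factorial := Nat.factorial_pos _
  have hf0 : 0 < f := by
    rcases Nat.eq_zero_or_pos f with h | h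
    · rw [h, zero_mul] at hf
      omega
    · exact h
  have hH0 : 0 < ∏ z ∈ cells (beta m), (z.1 - z.2) := by
    rcases Nat.eq_zero_or_pos (∏ z ∈ cells (beta m), (z.1 - z.2)) with h | h
    · rw [h, mul_zero] at hf
      omega
    · exact h
  have hf0' : (0 : ℝ) < f := by exact_mod_cast hf0
  have hH0' : (0 : ℝ) < ((∏ z ∈ cells (beta m), (z.1 - z.2) : ℕ) : ℝ) := by exact_mod_cast hH0
  have e1 : Real.log ((cells (beta m)).card.factorial : ℝ) =
      Real.log f + Real.log ((∏ z ∈ cells (beta m), (z.1 - z.2) : ℕ) : ℝ) := by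
    rw [← Real.log_mul hf0'.ne' hH0'.ne', ← Nat.cast_mul, hf]
  refine ⟨(cells (beta m)).card, f, (beta_card_bounds m).1, (beta_card_bounds m).2, hf2, hf0, ?_⟩
  linarith
-- END core_rep

end Pool.Agent.Wil
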