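import Mathlib
import Pool.Agent.Wil.Cross
import Pool.Agent.Wil.Rep
import Pool.Agent.Wil.Rel

set_option autoImplicit false

/-! Several blocks of defect zero at once. -/

namespace Pool.Agent.Wil

open MonoidAlgebra

-- BEGIN frob_cross
/-- PROOF. As `frob_norm` in Core.lean, with `pic_cross` and `cN_zero` instead of `pic_pair` and `cM_norm`. -/
theorem frob_cross {n r : ℕ} (X Y : Fin r → ℕ)
    (hXY : ∀ w : Equiv.Perm (Fin r), ¬ ∀ i, X i = Y (w i))
    (hn : n + ∑ i : Fin r, (i : ℕ) = ∑ i, X i) :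
    ∑ g : Equiv.Perm (Fin n), frob X g * frob Y g⁻¹ = 0 := by
  have h1 : ∀ g : Equiv.Perm (Fin n), frob Y g⁻¹ = frob Y g := by
    intro g
    simp only [frob]
    refine Finset.sum_congr rfl fun σ _ => ?_
    rw [pic_inv]
  have h2 : ∀ σ : Equiv.Perm (Fin r), n + ∑ i, ((σ i : Fin r) : ℕ) = ∑ i, X i := by
    intro σ
    rw [Equiv.sum_comp σ (fun i : Fin r => (i : ℕ)), hn]
  have h3 : ∀ g : Equiv.Perm (Fin n), frob X g * frob Y g⁻¹ =
      ∑ σ : Equiv.Perm (Fin r), ∑ τ : Equiv.Perm (Fin r), (Equiv.Perm.sign σ : ℤ) *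
        (Equiv.Perm.sign τ : ℤ) * ((pic X (fun i => ((σ i : Fin r) : ℕ)) g : ℤ) *
          (pic Y (fun i => ((τ i : Fin r) : ℕ)) g : ℤ)) := by
    intro g
    rw [h1]
    simp only [frob]
    rw [Finset.sum_mul_sum]
    refine Finset.sum_congr rfl fun σ _ => Finset.sum_congr rfl fun τ _ => ?_
    ring
  rw [Finset.sum_congr rfl fun g _ => h3 g, Finset.sum_comm]
  have h4 : ∀ σ : Equiv.Perm (Fin r), ∑ g : Equiv.Perm (Fin n), ∑ τ : Equiv.Perm (Fin r),
      (Equiv.Perm.sign σ : ℤ) *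
        (Equiv.Perm.sign τ : ℤ) * ((pic X (fun i => ((σ i : Fin r) : ℕ)) g : ℤ) *
          (pic Y (fun i => ((τ i : Fin r) : ℕ)) g : ℤ)) =
      ∑ τ : Equiv.Perm (Fin r), (n.factorial : ℤ) * ((Equiv.Perm.sign σ : ℤ) *
        (Equiv.Perm.sign τ : ℤ) *
        (cN Finset.univ X Y (fun i => ((σ i : Fin r) : ℕ)) (fun i => ((τ i : Fin r) : ℕ)) : ℤ)) := by
    intro σ
    rw [Finset.sum_comm]
    refine Finset.sum_congr rfl fun τ _ => ?_
    rw [← Finset.mul_sum]
    have h5 := pic_cross (n := n) X Y (fun i => ((σ i : Fin r) : ℕ)) (fun i => ((τ i : Fin r) : ℕ)) (h2 σ)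
    have h6 : ∑ g : Equiv.Perm (Fin n), ((pic X (fun i => ((σ i : Fin r) : ℕ)) g : ℤ) *
          (pic Y (fun i => ((τ i : Fin r) : ℕ)) g : ℤ)) = (n.factorial : ℤ) *
          (cN Finset.univ X Y (fun i => ((σ i : Fin r) : ℕ)) (fun i => ((τ i : Fin r) : ℕ)) : ℤ) := by
      exact_mod_cast h5
    rw [h6]; ring
  rw [Finset.sum_congr rfl fun σ _ => h4 σ]
  have h7 := cN_zero X Y hXY
  simp only [← Finset.mul_sum]
  rw [h7, mul_zero]
-- END frob_cross

-- BEGIN cross_conv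
private theorem cross_conv_coeff {G : Type} [Group G] [Fintype G] (χ : G → ℤ) (g : G) :
    (∑ g : G, single g ((χ g⁻¹ : ℤ) : ℂ) : MonoidAlgebra ℂ G).coeff g = ((χ g⁻¹ : ℤ) : ℂ) := by
  classical
  rw [MonoidAlgebra.coeff_sum, Finsupp.finsetSum_apply, Finset.sum_eq_single g]
  · rw [MonoidAlgebra.coeff_single, Finsupp.single_eq_same]
  · intro y _ hy
    rw [MonoidAlgebra.coeff_single, Finsupp.single_eq_of_ne (Ne.symm hy)]
  · exact fun h => absurd (Finset.mem_univ g) h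

private theorem cross_conv_pair {G : Type} [Group G] [Fintype G] (χ ψ : G → ℤ) {N : ℕ}
    (d : Fin N → ℕ) (hd : ∀ i, 0 < d i)
    (e : MonoidAlgebra ℂ G ≃ₐ[ℂ] Π i, Matrix (Fin (d i)) (Fin (d i)) ℂ) (m m' : Fin N → ℤ)
    (hm : ∀ a : MonoidAlgebra ℂ G, ∑ g, a.coeff g * ((χ g : ℤ) : ℂ) = ∑ i, (m i : ℂ) * (e a i).trace)
    (hm' : ∀ a : MonoidAlgebra ℂ G,
      ∑ g, a.coeff g * ((ψ g : ℤ) : ℂ) = ∑ i, (m' i : ℂ) * (e a i).trace) :
    ∑ g, χ g * ψ g⁻¹ = (Fintype.card G : ℤ) * ∑ i, m i * m' i := by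
  have hG : (Fintype.card G : ℂ) ≠ 0 := by exact_mod_cast Fintype.card_ne_zero
  have hd0 : ∀ i, (d i : ℂ) ≠ 0 := fun i => by exact_mod_cast (hd i).ne'
  have htr : ∀ i, (e (∑ g : G, single g ((ψ g⁻¹ : ℤ) : ℂ)) i).trace =
      (Fintype.card G : ℂ) * (m' i : ℂ) := by
    intro i
    have h2 := congrArg Matrix.trace (b_scalar ψ d hd e m' hm' i)
    rw [Matrix.trace_smul, Matrix.trace_smul, Matrix.trace_one, Fintype.card_fin, smul_eq_mul,
      smul_eq_mul] at h2
    have h3 : (d i : ℂ) * ((e (∑ g : G, single g ((ψ g⁻¹ : ℤ) : ℂ)) i).trace -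
        (Fintype.card G : ℂ) * (m' i : ℂ)) = 0 := by
      linear_combination h2
    rcases mul_eq_zero.1 h3 with h4 | h4
    · exact absurd h4 (hd0 i)
    · linear_combination h4
  have h2 := hm (∑ g : G, single g ((ψ g⁻¹ : ℤ) : ℂ))
  have h5 : ∑ i, (m i : ℂ) * (e (∑ g : G, single g ((ψ g⁻¹ : ℤ) : ℂ)) i).trace =
      ∑ i, (Fintype.card G : ℂ) * ((m i : ℂ) * (m' i : ℂ)) :=
    Finset.sum_congr rfl fun i _ => by rw [htr i]; ring
  rw [Finset.sum_congr rfl fun g _ => by rw [cross_conv_coeff ψ g], h5] at h2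
  have h3 : ((∑ g, χ g * ψ g⁻¹ : ℤ) : ℂ) = (((Fintype.card G : ℤ) * ∑ i, m i * m' i : ℤ) : ℂ) := by
    push_cast
    rw [Finset.mul_sum]
    calc ∑ g, (χ g : ℂ) * (ψ g⁻¹ : ℂ) = ∑ g, (ψ g⁻¹ : ℂ) * (χ g : ℂ) :=
          Finset.sum_congr rfl fun g _ => mul_comm _ _
      _ = _ := h2
  exact_mod_cast h3

/-- PROOF. As in `norm_one` (Char.lean): `wedderburn`, `virt_coeff` for `χ` and `ψ` (coefficients `m`, `m'`), `b_scalar`. From the norms:
`∑ (m i)² = 1`, and `∑ χ(g⁻¹) ψ(g) = card G * ∑ m i * m' i = 0` (`h0` after `g ↦ g⁻¹`; `hm'` for `a = b_χ`), so `m i * m' i = 0` for all `i`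
(`m` has exactly one nonzero entry), so `b_χ * b_ψ = 0`; coefficient at `x⁻¹`. -/
theorem cross_conv {G : Type} [Group G] [Fintype G] (χ ψ : G → ℤ) (hχ : Virt χ) (hψ : Virt ψ)
    (hn : ∑ g, χ g * χ g⁻¹ = Fintype.card G) (h0 : ∑ g, χ g * ψ g⁻¹ = 0) (x : G) :
    ∑ g, χ g * ψ (g⁻¹ * x) = 0 := by
  classical
  obtain ⟨N, d, hd, ⟨e⟩⟩ := wedderburn G
  obtain ⟨m, hm⟩ := virt_coeff χ hχ d hd e
  obtain ⟨m', hm'⟩ := virt_coeff ψ hψ d hd e
  have hG : (Fintype.card G : ℤ) ≠ 0 := by exact_mod_cast Fintype.card_ne_zero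
  have hd0 : ∀ i, (d i : ℂ) ≠ 0 := fun i => by exact_mod_cast (hd i).ne'
  have hsq : ∑ i, m i * m i = 1 := by
    have h1 := cross_conv_pair χ χ d hd e m m hm hm
    rw [hn] at h1
    have h2 : (Fintype.card G : ℤ) * ∑ i, m i * m i = (Fintype.card G : ℤ) * 1 := by
      rw [mul_one]
      exact h1.symm
    exact mul_left_cancel₀ hG h2
  have hor : ∑ i, m i * m' i = 0 := by
    have h1 := cross_conv_pair χ ψ d hd e m m' hm hm'
    rw [h0] at h1
    exact (mul_eq_zero.1 h1.symm).resolve_left hG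
  -- one coefficient
  have hj : ∃ j, m j ≠ 0 := by
    by_contra hcon
    push Not at hcon
    rw [Finset.sum_eq_zero fun i _ => by rw [hcon i, mul_zero]] at hsq
    exact absurd hsq (by norm_num)
  obtain ⟨j, hj⟩ := hj
  have hj1 : 1 ≤ m j * m j := Int.add_one_le_iff.2 (mul_self_pos.2 hj)
  have hsplit := Finset.add_sum_erase Finset.univ (fun i => m i * m i) (Finset.mem_univ j)
  have hz : ∀ i, i ≠ j → m i = 0 := by
    intro i hi
    have h2 := (Finset.sum_eq_zero_iff_of_nonneg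
      (fun i _ => mul_self_nonneg (m i)) (s := Finset.univ.erase j)).1 (by
        have hrest : 0 ≤ ∑ i ∈ Finset.univ.erase j, m i * m i :=
          Finset.sum_nonneg fun i _ => mul_self_nonneg _
        linarith) i (Finset.mem_erase.2 ⟨hi, Finset.mem_univ i⟩)
    exact mul_self_eq_zero.1 h2
  have hj' : m' j = 0 := by
    rw [Finset.sum_eq_single j (fun i _ hi => by rw [hz i hi, zero_mul])
      (fun h => absurd (Finset.mem_univ _) h)] at hor
    exact (mul_eq_zero.1 hor).resolve_left hj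
  set b : MonoidAlgebra ℂ G := ∑ g : G, single g ((χ g⁻¹ : ℤ) : ℂ) with hb
  set c : MonoidAlgebra ℂ G := ∑ g : G, single g ((ψ g⁻¹ : ℤ) : ℂ) with hc
  have hbc : b * c = 0 := by
    apply e.injective
    rw [map_mul, map_zero]
    funext i
    rw [Pi.mul_apply, Pi.zero_apply]
    by_cases hi : i = j
    · subst hi
      have h2 : e c i = 0 := by
        have h3 := b_scalar ψ d hd e m' hm' i
        rw [hj', Int.cast_zero, mul_zero, zero_smul] at h3
        exact (smul_eq_zero.1 h3).resolve_left (hd0 i)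
      rw [h2, mul_zero]
    · have h2 : e b i = 0 := by
        have h3 := b_scalar χ d hd e m hm i
        rw [hz i hi, Int.cast_zero, mul_zero, zero_smul] at h3
        exact (smul_eq_zero.1 h3).resolve_left (hd0 i)
      rw [h2, zero_mul]
  -- the coefficient at `x⁻¹`
  have h2 := congrArg (fun a : MonoidAlgebra ℂ G => a.coeff x⁻¹) hbc
  beta_reduce at h2
  have h3 : (b * c).coeff x⁻¹ = ∑ g, ((χ g⁻¹ : ℤ) : ℂ) * ((ψ (x * g) : ℤ) : ℂ) := by
    rw [hb, Finset.sum_mul, MonoidAlgebra.coeff_sum, Finsupp.finsetSum_apply]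
    refine Finset.sum_congr rfl fun g _ => ?_
    rw [MonoidAlgebra.coeff_single_mul_apply, hc, cross_conv_coeff, mul_inv_rev, inv_inv, inv_inv]
  rw [h3, MonoidAlgebra.coeff_zero, Finsupp.zero_apply] at h2
  have h4 : ((∑ g, χ g * ψ (g⁻¹ * x) : ℤ) : ℂ) = 0 := by
    push_cast
    rw [← h2, ← Equiv.sum_comp (Equiv.inv G)]
    refine Finset.sum_congr rfl fun g _ => ?_
    rw [Equiv.inv_apply, inv_inv, virt_conj ψ hψ g x]
  exact_mod_cast h4
-- END cross_conv

-- BEGIN ssDim_ge_gen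
/-- PROOF. As `ssDim_ge` (Mod.lean): `rk_ge` with `R`. -/
theorem ssDim_ge_gen {p : ℕ} [Fact p.Prime] {k : Type} [Field k] [CharP k p] {G : Type} [Group G]
    [Fintype G] (χ : G → ℤ) (H R : ℕ) (hH : ¬ p ∣ H)
    (htr : (Fintype.card G : ℤ) * χ 1 = (R : ℤ) * H)
    (hconv : ∀ x, ∑ g, χ g * χ (g⁻¹ * x) = H * χ x)
    (hnil : ∀ a : MonoidAlgebra k G, IsNilpotent a → ∑ g, a.coeff g * ((χ g : ℤ) : k) = 0) :
    R ≤ ssDim k G := by
  classical
  have hP : (Matrix.of (fun x h : G => χ (h * x⁻¹))) * (Matrix.of (fun x h : G => χ (h * x⁻¹))) =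
      (H : ℤ) • (Matrix.of (fun x h : G => χ (h * x⁻¹))) := by
    ext x h
    rw [Matrix.mul_apply, Matrix.smul_apply, Matrix.of_apply, smul_eq_mul, ← hconv]
    refine Finset.sum_bij' (fun y _ => h * y⁻¹) (fun g _ => g⁻¹ * h) (by simp) (by simp)
      (fun y _ => by group) (fun g _ => by group) (fun y _ => ?_)
    rw [Matrix.of_apply, Matrix.of_apply, mul_comm]
    congr 2
    group
  have htr' : (Matrix.of (fun x h : G => χ (h * x⁻¹))).trace = (R : ℤ) * H := by
    simp only [Matrix.trace, Matrix.diag, Matrix.of_apply, mul_inv_cancel, Finset.sum_const,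
      Finset.card_univ, nsmul_eq_mul]
    exact htr
  have h2 := rk_ge (k := k) (p := p) _ H R hH hP htr'
  rw [rank_range] at h2
  exact h2.trans (ssDim_ge_range _ fun x hx => bj_zero χ hnil x hx)
-- END ssDim_ge_gen

-- BEGIN multi_sum
/-- PROOF. `ssDim_ge_gen` for `X g = ∑ a, (∏ b ∈ univ.erase a, H b) * χ a g`, with `∏ a, H a` and `R = ∑ a, (f a) ^ 2`. The convolution of `X` with
itself is `∑ a, (∏ b ≠ a, H b)² * H a * χ a = (∏ H) * X` (cross terms vanish); `card G * X 1 = ∑ a, (∏ b ≠ a, H b) * (f a * H a) * f a`. -/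
theorem multi_sum {p : ℕ} [Fact p.Prime] {k : Type} [Field k] [CharP k p] {G : Type} [Group G]
    [Fintype G] {ι : Type} [Fintype ι] [DecidableEq ι] (χ : ι → G → ℤ) (H f : ι → ℕ)
    (hv : ∀ a, Virt (χ a)) (hH : ∀ a, ¬ p ∣ H a) (hf : ∀ a, f a * H a = Fintype.card G)
    (h1 : ∀ a, χ a 1 = f a) (hconv : ∀ a x, ∑ g, χ a g * χ a (g⁻¹ * x) = H a * χ a x)
    (hcross : ∀ a b, a ≠ b → ∀ x, ∑ g, χ a g * χ b (g⁻¹ * x) = 0) :
    ∑ a, f a ^ 2 ≤ ssDim k G := by
  classical
  have hpp : p.Prime := Fact.out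
  have hc : ∀ a, (∏ b ∈ Finset.univ.erase a, H b) * H a = ∏ b, H b := fun a =>
    Finset.prod_erase_mul _ _ (Finset.mem_univ a)
  refine ssDim_ge_gen (p := p) (k := k)
    (fun g => ∑ a, ((∏ b ∈ Finset.univ.erase a, H b : ℕ) : ℤ) * χ a g) (∏ a, H a) (∑ a, f a ^ 2)
    ?_ ?_ ?_ ?_
  · intro hdvd
    obtain ⟨a, _, ha⟩ := (Prime.dvd_finsetProd_iff hpp.prime _).1 hdvd
    exact hH a ha
  · rw [Finset.mul_sum, Nat.cast_sum, Finset.sum_mul]
    refine Finset.sum_congr rfl fun a _ => ?_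
    rw [h1, ← hf a, ← hc a]
    push_cast
    ring
  · intro x
    have e1 : ∀ g : G, (∑ a, ((∏ b ∈ Finset.univ.erase a, H b : ℕ) : ℤ) * χ a g) *
        (∑ a, ((∏ b ∈ Finset.univ.erase a, H b : ℕ) : ℤ) * χ a (g⁻¹ * x)) =
        ∑ a, ∑ b, (((∏ c ∈ Finset.univ.erase a, H c : ℕ) : ℤ) *
          ((∏ c ∈ Finset.univ.erase b, H c : ℕ) : ℤ)) * (χ a g * χ b (g⁻¹ * x)) := by
      intro g
      rw [Finset.sum_mul_sum]
      refine Finset.sum_congr rfl fun a _ => Finset.sum_congr rfl fun b _ => ?_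
      ring
    rw [Finset.sum_congr rfl fun g _ => e1 g, Finset.sum_comm, Finset.mul_sum]
    refine Finset.sum_congr rfl fun a _ => ?_
    rw [Finset.sum_comm, Finset.sum_eq_single a]
    · rw [← Finset.mul_sum, hconv a x, ← hc a]
      push_cast
      ring
    · intro b _ hb
      rw [← Finset.mul_sum, hcross a b hb.symm x, mul_zero]
    · intro h
      exact absurd (Finset.mem_univ a) h
  · intro y hy
    have e2 : ∀ g : G, y.coeff g * (((∑ a, ((∏ b ∈ Finset.univ.erase a, H b : ℕ) : ℤ) * χ a g : ℤ)) : k) =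
        ∑ a, ((∏ b ∈ Finset.univ.erase a, H b : ℕ) : k) * (y.coeff g * ((χ a g : ℤ) : k)) := by
      intro g
      rw [Int.cast_sum, Finset.mul_sum]
      refine Finset.sum_congr rfl fun a _ => ?_
      rw [Int.cast_mul, Int.cast_natCast]
      ring
    rw [Finset.sum_congr rfl fun g _ => e2 g, Finset.sum_comm]
    refine Finset.sum_eq_zero fun a _ => ?_
    rw [← Finset.mul_sum, virt_nil (χ a) (hv a) y hy, mul_zero]
-- END multi_sum

-- BEGIN beta_inj
/-- PROOF. `mem_beta`. -/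
theorem beta_inj {p : ℕ} (m m' : Fin p → ℕ) (h : beta m = beta m') : m = m' := by
  funext i
  apply le_antisymm
  · by_contra hlt
    push Not at hlt
    have h1 := (mem_beta m (m' i) i).2 hlt
    rw [h, mem_beta] at h1
    exact lt_irrefl _ h1
  · by_contra hlt
    push Not at hlt
    have h1 := (mem_beta m' (m i) i).2 hlt
    rw [← h, mem_beta] at h1
    exact lt_irrefl _ h1

/-- PROOF. The images are disjoint for different residues, each has `m i` elements (`Finset.card_biUnion`). -/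
theorem beta_card {p : ℕ} (m : Fin p → ℕ) : (beta m).card = ∑ i, m i := by
  classical
  unfold beta
  rw [Finset.card_biUnion]
  · refine Finset.sum_congr rfl fun i _ => ?_
    rw [Finset.card_image_of_injective, Finset.card_range]
    intro a b hab
    have hp : 0 < p := lt_of_le_of_lt (Nat.zero_le _) i.2
    have h1 : a * p = b * p := by
      have : a * p + (i : ℕ) = b * p + (i : ℕ) := hab
      omega
    exact Nat.eq_of_mul_eq_mul_right hp h1
  · intro i _ j _ hij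
    refine Finset.disjoint_left.2 ?_
    intro x hx hx'
    rw [Finset.mem_image] at hx hx'
    obtain ⟨a, -, rfl⟩ := hx
    obtain ⟨b, -, hb⟩ := hx'
    apply hij
    apply Fin.ext
    have h1 : (b * p + (j : ℕ)) % p = (a * p + (i : ℕ)) % p := by rw [hb]
    rw [Nat.mul_add_mod_self_right, Nat.mul_add_mod_self_right, Nat.mod_eq_of_lt j.2, Nat.mod_eq_of_lt i.2] at h1
    exact h1.symm
-- END beta_inj

-- BEGIN core_multi
private theorem core_multi_one {p : ℕ} (S : Finset ℕ) (B n : ℕ) (hB : S.card = B)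
    (hn : (cells S).card = n) (hS : ¬ p ∣ ∏ z ∈ cells S, (z.1 - z.2)) :
    ∃ (X : Fin B → ℕ) (f : ℕ), Set.range X = (S : Set ℕ) ∧ n + ∑ i : Fin B, (i : ℕ) = ∑ i, X i ∧
      f * (∏ z ∈ cells S, (z.1 - z.2)) = n.factorial ∧ 0 < f ∧
      frob X (1 : Equiv.Perm (Fin n)) = f ∧
      ∑ g : Equiv.Perm (Fin n), frob X g * frob X g⁻¹ = (n.factorial : ℤ) := by
  subst hB hn
  have hX : StrictMono (fun i : Fin S.card => S.orderEmbOfFin rfl i) := (S.orderEmbOfFin rfl).strictMono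
  have hn := cells_card S
  have hdet := cells_hook S
  have hV : (0 : ℤ) < ∏ i : Fin S.card, ∏ j ∈ Finset.Ioi i,
      ((S.orderEmbOfFin rfl j : ℤ) - (S.orderEmbOfFin rfl i : ℤ)) := by
    refine Finset.prod_pos fun i _ => Finset.prod_pos fun j hj => ?_
    have h1 := hX (Finset.mem_Ioi.1 hj)
    have h2 : ((S.orderEmbOfFin rfl i : ℕ) : ℤ) < ((S.orderEmbOfFin rfl j : ℕ) : ℤ) := by exact_mod_cast h1
    linarith
  have hH0 : 0 < ∏ z ∈ cells S, (z.1 - z.2) := by
    rcases Nat.eq_zero_or_pos (∏ z ∈ cells S, (z.1 - z.2)) with h | h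
    · exact absurd (h ▸ dvd_zero p) hS
    · exact h
  have h1 := frob_one (n := (cells S).card) (fun i : Fin S.card => S.orderEmbOfFin rfl i) hn
  rw [hdet] at h1
  have h2 : frob (fun i : Fin S.card => S.orderEmbOfFin rfl i)
      (1 : Equiv.Perm (Fin (cells S).card)) * ((∏ z ∈ cells S, (z.1 - z.2) : ℕ) : ℤ) =
      ((cells S).card.factorial : ℤ) := by
    apply mul_right_cancel₀ hV.ne'
    rw [← h1]; ring
  have h3 : 0 < frob (fun i : Fin S.card => S.orderEmbOfFin rfl i)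
      (1 : Equiv.Perm (Fin (cells S).card)) := by
    have h4 : (0 : ℤ) < frob (fun i : Fin S.card => S.orderEmbOfFin rfl i)
        (1 : Equiv.Perm (Fin (cells S).card)) * ((∏ z ∈ cells S, (z.1 - z.2) : ℕ) : ℤ) := by
      rw [h2]; exact_mod_cast Nat.factorial_pos _
    exact pos_of_mul_pos_left h4 (by exact_mod_cast hH0.le)
  obtain ⟨f, hf⟩ := Int.eq_ofNat_of_zero_le h3.le
  have hfpos : 0 < f := by
    rw [hf] at h3; exact_mod_cast h3
  have h4 : f * (∏ z ∈ cells S, (z.1 - z.2)) = (cells S).card.factorial := by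
    rw [hf] at h2; exact_mod_cast h2
  refine ⟨fun i : Fin S.card => S.orderEmbOfFin rfl i, f, ?_, hn, h4, hfpos, hf, ?_⟩
  · exact Finset.range_orderEmbOfFin S rfl
  · exact frob_norm _ hX.injective hn

/-- PROOF. `X a = (beta (m a)).orderEmbOfFin (_ : card = B)`. For each `a`: `frob (X a)` is `Virt`, norm one (`frob_norm`), degree
`f a` with `f a * H a = n!` (`frob_one`, `cells_card`, `cells_hook`), `p ∤ H a` (`beta_not_dvd`), `norm_one`; for `a ≠ b`: `X a i = X b (w i)` for all `i` would give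
equal ranges, so `beta (m a) = beta (m b)` (`beta_inj`), so `frob_cross`, `cross_conv`. Then `multi_sum`. -/
theorem core_multi {p : ℕ} [Fact p.Prime] {k : Type} [Field k] [CharP k p] {ι : Type} [Fintype ι]
    [DecidableEq ι] (m : ι → Fin p → ℕ) (hm : Function.Injective m) (B n : ℕ)
    (hB : ∀ a, ∑ i, m a i = B) (hn : ∀ a, (cells (beta (m a))).card = n) :
    ∃ f : ι → ℕ, (∀ a, f a * (∏ z ∈ cells (beta (m a)), (z.1 - z.2)) = n.factorial) ∧
      ∑ a, f a ^ 2 ≤ ssDim k (Equiv.Perm (Fin n)) := by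
  have hpp : p.Prime := Fact.out
  choose X f hr hs hf hf0 hf1 hnorm using fun a =>
    core_multi_one (p := p) (beta (m a)) B n ((beta_card (m a)).trans (hB a)) (hn a)
      (beta_not_dvd hpp (m a))
  have hcard : Fintype.card (Equiv.Perm (Fin n)) = n.factorial := by
    rw [Fintype.card_perm, Fintype.card_fin]
  refine ⟨f, hf, ?_⟩
  refine multi_sum (p := p) (k := k) (fun a => frob (n := n) (X a))
    (fun a => ∏ z ∈ cells (beta (m a)), (z.1 - z.2)) f (fun a => frob_virt (X a))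
    (fun a => beta_not_dvd hpp (m a)) (fun a => by rw [hcard]; exact hf a) hf1 ?_ ?_
  · intro a x
    exact norm_one (frob (X a)) (frob_virt (X a)) (f a) _ (by rw [hcard]; exact hnorm a) (hf1 a)
      (hf0 a) (by rw [hcard]; exact hf a) x
  · intro a b hab x
    refine cross_conv (frob (X a)) (frob (X b)) (frob_virt (X a)) (frob_virt (X b))
      (by rw [hcard]; exact hnorm a) ?_ x
    refine frob_cross (X a) (X b) ?_ (hs a)
    intro w hw
    apply hab
    apply hm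
    apply beta_inj
    have h1 : Set.range (X a) = Set.range (X b) := by
      have h2 : X a = X b ∘ w := funext hw
      rw [h2, Set.range_comp, w.surjective.range_eq, Set.image_univ]
    rw [hr a, hr b] at h1
    exact_mod_cast h1
-- END core_multi

-- BEGIN core_one_rep
/-- PROOF. As in `core_rep` (Rep.lean): `rep_sq`. -/
theorem core_one_rep {p : ℕ} [Fact p.Prime] (m : Fin p → ℕ) :
    ∃ f : ℕ, f * (∏ z ∈ cells (beta m), (z.1 - z.2)) = (cells (beta m)).card.factorial ∧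
      RepGe p (cells (beta m)).card f := by
  have hpp : p.Prime := Fact.out
  obtain ⟨f, hf, hf2⟩ := rep_sq (p := p) (n := (cells (beta m)).card)
    (fun i : Fin (beta m).card => (beta m).orderEmbOfFin rfl i)
    ((beta m).orderEmbOfFin rfl).strictMono (cells_card (beta m)) _ (beta_not_dvd hpp m)
    (cells_hook (beta m))
  exact ⟨f, hf, hf2⟩
-- END core_one_rep

-- BEGIN young_step
/-- PROOF. `G = Perm (Fin n) × Perm (Fin M)`, normal subgroup `N = Perm (Fin n) × 1` (range of `MonoidHom.inl`), `R = ψ` composed with the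
projection `fst` (`RepGe`, `d ≥ f`): `rel_bound` gives `d ^ 2 * ssDim k (G ⧸ N) ≤ ssDim k G`, `G ⧸ N ≃* Perm (Fin M)`; and `G` embeds into
`Perm (Fin n ⊕ Fin M) ≃* Perm (Fin (n + M))` (`Equiv.Perm.sumCongrHom_injective`, `finSumFinEquiv`), `ssDim_le_of_injective`. -/
theorem young_step {p n f : ℕ} (h : RepGe p n f) (M : ℕ) {k : Type} [Field k] [CharP k p] :
    f ^ 2 * ssDim k (Equiv.Perm (Fin M)) ≤ ssDim k (Equiv.Perm (Fin (n + M))) := by
  classical
  obtain ⟨d, hd, hψ⟩ := h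
  obtain ⟨ψ, hψ⟩ := hψ k
  have hN : (MonoidHom.snd (Equiv.Perm (Fin n)) (Equiv.Perm (Fin M))).ker.Normal := inferInstance
  let j : Equiv.Perm (Fin n) →* (MonoidHom.snd (Equiv.Perm (Fin n)) (Equiv.Perm (Fin M))).ker :=
    { toFun := fun s => ⟨(s, 1), by rw [MonoidHom.mem_ker]; rfl⟩
      map_one' := rfl
      map_mul' := fun a b => Subtype.ext (Prod.ext rfl (mul_one 1).symm) }
  have h2 : (ind (k := k) (MonoidHom.fst (Equiv.Perm (Fin n)) (Equiv.Perm (Fin M)))).comp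
      ((ind (k := k) (MonoidHom.snd (Equiv.Perm (Fin n)) (Equiv.Perm (Fin M))).ker.subtype).comp
        (ind (k := k) j)) = AlgHom.id k (MonoidAlgebra k (Equiv.Perm (Fin n))) := by
    refine MonoidAlgebra.algHom_ext (fun g => ?_) (Subsingleton.elim _ _)
    simp only [AlgHom.comp_apply, ind, MonoidAlgebra.mapDomainAlgHom_apply, MonoidAlgebra.mapDomain_single]
    rfl
  have h1 := rel_bound (k := k) (MonoidHom.snd (Equiv.Perm (Fin n)) (Equiv.Perm (Fin M))).ker
    (ψ.comp (ind (k := k) (MonoidHom.fst (Equiv.Perm (Fin n)) (Equiv.Perm (Fin M))))) (by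
      intro A
      obtain ⟨a, ha⟩ := hψ A
      refine ⟨ind (k := k) j a, ?_⟩
      have h3 := DFunLike.congr_fun h2 a
      rw [AlgHom.comp_apply, AlgHom.comp_apply, AlgHom.id_apply] at h3
      rw [AlgHom.comp_apply, h3, ha])
  have h4 : ssDim k ((Equiv.Perm (Fin n) × Equiv.Perm (Fin M)) ⧸
      (MonoidHom.snd (Equiv.Perm (Fin n)) (Equiv.Perm (Fin M))).ker) = ssDim k (Equiv.Perm (Fin M)) :=
    ssDim_congr (QuotientGroup.quotientKerEquivOfSurjective
      (MonoidHom.snd (Equiv.Perm (Fin n)) (Equiv.Perm (Fin M))) Prod.snd_surjective)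
  rw [Fintype.card_fin, h4] at h1
  have h5 : ssDim k (Equiv.Perm (Fin n) × Equiv.Perm (Fin M)) ≤
      ssDim k (Equiv.Perm (Fin n ⊕ Fin M)) :=
    ssDim_le_of_injective (Equiv.Perm.sumCongrHom (Fin n) (Fin M)) Equiv.Perm.sumCongrHom_injective
  have h6 : ssDim k (Equiv.Perm (Fin n ⊕ Fin M)) = ssDim k (Equiv.Perm (Fin (n + M))) :=
    ssDim_congr (finSumFinEquiv.permCongrHom)
  calc f ^ 2 * ssDim k (Equiv.Perm (Fin M)) ≤ d ^ 2 * ssDim k (Equiv.Perm (Fin M)) :=
        Nat.mul_le_mul_right _ (Nat.pow_le_pow_left hd 2)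
    _ ≤ ssDim k (Equiv.Perm (Fin n) × Equiv.Perm (Fin M)) := h1
    _ ≤ ssDim k (Equiv.Perm (Fin n ⊕ Fin M)) := h5
    _ = ssDim k (Equiv.Perm (Fin (n + M))) := h6
-- END young_step

end Pool.Agent.Wil
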