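import Mathlib
import Pool.Agent.Wil.Multi
import Pool.Agent.Wil.ChkD

set_option autoImplicit false

/-! Checkers for explicit cores. -/

namespace Pool.Agent.Wil

-- BEGIN prod_cells_beta
private theorem prod_cells_beta_mem {p : ℕ} (hp : 0 < p) (m : Fin p → ℕ) (x : ℕ) :
    x ∈ beta m ↔ x / p < m ⟨x % p, Nat.mod_lt _ hp⟩ := by
  have h1 := mem_beta m (x / p) ⟨x % p, Nat.mod_lt _ hp⟩
  rw [← h1]
  simp only [Nat.div_add_mod']

private def prod_cells_beta_T {p : ℕ} (m : Fin p → ℕ) (N : ℕ) :
    Finset (Fin p × Fin p × ℕ × ℕ) :=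
  ((Finset.univ : Finset (Fin p)) ×ˢ (Finset.univ : Finset (Fin p)) ×ˢ Finset.range N ×ˢ
    Finset.range N).filter
      (fun s => s.2.2.1 + s.2.2.2 < m s.1 - m s.2.1 ∧ ((s.2.1 : ℕ) < (s.1 : ℕ) ∨ 0 < s.2.2.1))

private theorem prod_cells_beta_row {A : Type} [CommMonoid A] (D N : ℕ) (hDN : D ≤ N) (P : ℕ → Prop)
    [DecidablePred P] (G : ℕ → A) :
    ∏ d ∈ Finset.range N, ∏ t ∈ Finset.range N, (if d + t < D ∧ P d then G d else 1) =
      ∏ d ∈ Finset.range D, (if P d then G d ^ (D - d) else 1) := by
  rw [← Finset.prod_subset (Finset.range_subset_range.2 hDN)]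
  · refine Finset.prod_congr rfl fun d hd => ?_
    have hdD := Finset.mem_range.1 hd
    by_cases hP : P d
    · simp only [hP, and_true, if_true]
      rw [← Finset.prod_filter]
      have h1 : (Finset.range N).filter (fun t => d + t < D) = Finset.range (D - d) := by
        ext t
        simp only [Finset.mem_filter, Finset.mem_range]
        omega
      rw [h1, Finset.prod_const, Finset.card_range]
    · simp only [hP, and_false, if_false, Finset.prod_const_one]
  · intro d _ hd
    refine Finset.prod_eq_one fun t _ => if_neg ?_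
    rw [Finset.mem_range] at hd
    omega

private theorem prod_cells_beta_bij {A : Type} [CommMonoid A] {p : ℕ} (hp : 0 < p) (m : Fin p → ℕ)
    (F : ℕ → A) :
    ∏ s ∈ prod_cells_beta_T m (∑ i, m i), F (s.2.2.1 * p + (s.1 : ℕ) - (s.2.1 : ℕ)) =
      ∏ z ∈ cells (beta m), F (z.1 - z.2) := by
  refine Finset.prod_nbij'
    (fun s => ((m s.2.1 + s.2.2.1 + s.2.2.2) * p + (s.1 : ℕ), (m s.2.1 + s.2.2.2) * p + (s.2.1 : ℕ)))
    (fun z => (⟨z.1 % p, Nat.mod_lt _ hp⟩, ⟨z.2 % p, Nat.mod_lt _ hp⟩, z.1 / p - z.2 / p,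
      z.2 / p - m ⟨z.2 % p, Nat.mod_lt _ hp⟩)) ?_ ?_ ?_ ?_ ?_
  · rintro ⟨i, j, d, t⟩ hs
    simp only [prod_cells_beta_T, Finset.mem_filter, Finset.mem_product, Finset.mem_univ,
      Finset.mem_range, true_and] at hs
    obtain ⟨_, h1, h2⟩ := hs
    rw [mem_cells]
    refine ⟨?_, ?_, ?_⟩
    · show (m j + d + t) * p + (i : ℕ) ∈ beta m
      rw [mem_beta]
      omega
    · show ¬ (m j + t) * p + (j : ℕ) ∈ beta m
      rw [mem_beta]
      omega
    · have hi := i.2
      have hj := j.2
      have e1 : (m j + d + t) * p = (m j + t) * p + d * p := by ring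
      rcases h2 with h2 | h2
      · show (m j + t) * p + (j : ℕ) < (m j + d + t) * p + (i : ℕ)
        omega
      · have h3 : p ≤ d * p := Nat.le_mul_of_pos_left p h2
        show (m j + t) * p + (j : ℕ) < (m j + d + t) * p + (i : ℕ)
        omega
  · rintro ⟨x, y⟩ hz
    rw [mem_cells] at hz
    obtain ⟨h1, h2, h3⟩ := hz
    rw [prod_cells_beta_mem hp] at h1 h2
    simp only at h1 h2 h3
    have h4 : y / p ≤ x / p := Nat.div_le_div_right h3.le
    have h5 : m ⟨x % p, Nat.mod_lt _ hp⟩ ≤ ∑ i, m i :=
      Finset.single_le_sum (f := m) (fun i _ => Nat.zero_le _) (Finset.mem_univ _)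
    simp only [prod_cells_beta_T, Finset.mem_filter, Finset.mem_product, Finset.mem_univ,
      Finset.mem_range, true_and]
    refine ⟨⟨by omega, by omega⟩, by omega, ?_⟩
    by_contra hc
    push Not at hc
    obtain ⟨h6, h7⟩ := hc
    have h8 : x / p = y / p := by omega
    have h9 := Nat.div_add_mod' x p
    have h10 := Nat.div_add_mod' y p
    rw [h8] at h9
    omega
  · rintro ⟨i, j, d, t⟩ hs
    simp only [prod_cells_beta_T, Finset.mem_filter, Finset.mem_product, Finset.mem_univ,
      Finset.mem_range, true_and] at hs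
    obtain ⟨_, h1, h2⟩ := hs
    have a1 : ∀ (q : ℕ) (l : Fin p), (q * p + (l : ℕ)) % p = l := fun q l =>
      Nat.mul_add_mod_of_lt l.2
    have a2 : ∀ (q : ℕ) (l : Fin p), (q * p + (l : ℕ)) / p = q := fun q l => by
      rw [Nat.mul_comm, Nat.mul_add_div hp, Nat.div_eq_of_lt l.2, Nat.add_zero]
    simp only [a1, a2, Fin.eta]
    have e1 : m j + d + t - (m j + t) = d := by omega
    have e2 : m j + t - m j = t := by omega
    rw [e1, e2]
  · rintro ⟨x, y⟩ hz
    rw [mem_cells] at hz
    obtain ⟨h1, h2, h3⟩ := hz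
    rw [prod_cells_beta_mem hp] at h1 h2
    simp only at h1 h2 h3
    have h4 : y / p ≤ x / p := Nat.div_le_div_right h3.le
    have h5 : m ⟨y % p, Nat.mod_lt _ hp⟩ ≤ y / p := not_lt.1 h2
    have e1 : m ⟨y % p, Nat.mod_lt _ hp⟩ + (x / p - y / p) +
        (y / p - m ⟨y % p, Nat.mod_lt _ hp⟩) = x / p := by omega
    have e2 : m ⟨y % p, Nat.mod_lt _ hp⟩ + (y / p - m ⟨y % p, Nat.mod_lt _ hp⟩) = y / p := by
      omega
    simp only [e1, e2, Nat.div_add_mod']
  · rintro ⟨i, j, d, t⟩ hs
    have e1 : (m j + d + t) * p = (m j + t) * p + d * p := by ring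
    show F (d * p + (i : ℕ) - (j : ℕ)) =
      F ((m j + d + t) * p + (i : ℕ) - ((m j + t) * p + (j : ℕ)))
    congr 1
    omega

/-- PROOF. The multiplicative version of `sum_cells_beta` (Core.lean, same bijection), for any commutative monoid. -/
theorem prod_cells_beta {A : Type} [CommMonoid A] {p : ℕ} (m : Fin p → ℕ) (F : ℕ → A) :
    ∏ z ∈ cells (beta m), F (z.1 - z.2) =
      ∏ i : Fin p, ∏ j : Fin p, ∏ d ∈ Finset.range (m i - m j),
        (if (j : ℕ) < (i : ℕ) ∨ 0 < d then F (d * p + (i : ℕ) - (j : ℕ)) ^ (m i - m j - d) else 1) := by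
  rcases Nat.eq_zero_or_pos p with hp | hp
  · subst hp
    have h1 : beta m = ∅ := by
      unfold beta
      simp
    rw [h1]
    simp [cells]
  · rw [← prod_cells_beta_bij hp m F, prod_cells_beta_T, Finset.prod_filter, Finset.prod_product]
    refine Finset.prod_congr rfl fun i _ => ?_
    rw [Finset.prod_product]
    refine Finset.prod_congr rfl fun j _ => ?_
    rw [Finset.prod_product]
    have h5 : m i - m j ≤ ∑ i, m i := (Nat.sub_le _ _).trans
      (Finset.single_le_sum (f := m) (fun i _ => Nat.zero_le _) (Finset.mem_univ i))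
    exact prod_cells_beta_row (m i - m j) (∑ i, m i) h5
      (fun d => (j : ℕ) < (i : ℕ) ∨ 0 < d) (fun d => F (d * p + (i : ℕ) - (j : ℕ)))
-- END prod_cells_beta

-- BEGIN hkC_eq
private theorem hkC_eq_prodC (f : ℕ → ℕ) (n : ℕ) : prodC f n = ∏ d ∈ Finset.range n, f d := by
  induction n with
  | zero => simp [prodC]
  | succ n ih => rw [Finset.prod_range_succ, ← ih, prodC]

private theorem hkC_eq_sumC (f : ℕ → ℕ) (n : ℕ) : sumC f n = ∑ d ∈ Finset.range n, f d := by
  induction n with
  | zero => simp [sumC]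
  | succ n ih => rw [Finset.sum_range_succ, ← ih, sumC]

private theorem hkC_eq_prodB (f : ℕ → ℕ) (fuel a n : ℕ) (h : n ≤ 2 ^ fuel) :
    prodB f fuel a n = ∏ d ∈ Finset.range n, f (a + d) := by
  induction fuel generalizing a n with
  | zero =>
    unfold prodB
    have h1 : n ≤ 1 := by simpa using h
    interval_cases n <;> simp
  | succ fuel ih =>
    unfold prodB
    split_ifs with h0 h1
    · subst h0; simp
    · subst h1; simp
    · have h2 : n / 2 ≤ 2 ^ fuel := by rw [pow_succ] at h; omega
      have h3 : n - n / 2 ≤ 2 ^ fuel := by rw [pow_succ] at h; omega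
      rw [ih _ _ h2, ih _ _ h3]
      conv_rhs => rw [show n = n / 2 + (n - n / 2) by omega, Finset.prod_range_add]
      congr 1
      refine Finset.prod_congr rfl fun x _ => ?_
      rw [add_assoc]

/-- PROOF. `prod_cells_beta` with `F = id`; `prodC f n = ∏ d ∈ range n, f d`, `Finset.prod_range` for `Fin p`. -/
theorem hkC_eq (p : ℕ) (m : List ℕ) :
    hkC p m = ∏ z ∈ cells (beta (fun i : Fin p => m.getD i 0)), (z.1 - z.2) := by
  have h := prod_cells_beta (A := ℕ) (fun i : Fin p => m.getD i 0) (fun x => x)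
  rw [h, hkC, hkC_eq_prodC, Finset.prod_range]
  refine Finset.prod_congr rfl fun i _ => ?_
  rw [hkC_eq_prodC, Finset.prod_range]
  refine Finset.prod_congr rfl fun j _ => ?_
  rw [hkC_eq_prodB _ _ _ _ Nat.lt_two_pow_self.le]
  refine Finset.prod_congr rfl fun d _ => ?_
  rw [zero_add]

/-- PROOF. `prod_cells_beta` in `Multiplicative ℕ` with `F = ofAdd 1`, or directly. -/
theorem szC_eq (p : ℕ) (m : List ℕ) :
    szC p m = (cells (beta (fun i : Fin p => m.getD i 0))).card := by
  have h := prod_cells_beta (A := Multiplicative ℕ) (fun i : Fin p => m.getD i 0)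
    (fun _ => Multiplicative.ofAdd 1)
  have h2 := congrArg Multiplicative.toAdd h
  rw [Finset.prod_const, toAdd_pow, toAdd_ofAdd, smul_eq_mul, mul_one, toAdd_prod] at h2
  rw [h2, szC, hkC_eq_sumC, Finset.sum_range]
  refine Finset.sum_congr rfl fun i _ => ?_
  rw [toAdd_prod, hkC_eq_sumC, Finset.sum_range]
  refine Finset.sum_congr rfl fun j _ => ?_
  rw [toAdd_prod, hkC_eq_sumC]
  refine Finset.sum_congr rfl fun d _ => ?_
  split_ifs
  · rw [toAdd_pow, toAdd_ofAdd, smul_eq_mul, mul_one]
  · rfl
-- END hkC_eq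

-- BEGIN fpC_eq
/-- PROOF. Induction on `fuel`. -/
theorem fpC_eq (fuel a n : ℕ) (h : n ≤ 2 ^ fuel) :
    a.factorial * fpC fuel a n = (a + n).factorial := by
  induction fuel generalizing a n with
  | zero =>
    have h1 : n ≤ 1 := by simpa using h
    unfold fpC
    rcases Nat.le_one_iff_eq_zero_or_eq_one.1 h1 with rfl | rfl
    · simp
    · rw [if_neg one_ne_zero, Nat.factorial_succ, mul_comm]
  | succ fuel ih =>
    unfold fpC
    by_cases h0 : n = 0
    · subst h0
      simp
    · rw [if_neg h0]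
      by_cases h1 : n = 1
      · subst h1
        rw [if_pos rfl, Nat.factorial_succ, mul_comm]
      · rw [if_neg h1]
        have e1 : n / 2 ≤ 2 ^ fuel := by
          rw [pow_succ] at h
          omega
        have e2 : n - n / 2 ≤ 2 ^ fuel := by
          rw [pow_succ] at h
          omega
        rw [← mul_assoc, ih a (n / 2) e1, ih (a + n / 2) (n - n / 2) e2]
        congr 1
        omega
-- END fpC_eq

-- BEGIN legC_le
/-- PROOF. Induction on `fuel`, Legendre: the exponent of `p` in `n!` is `n / p` plus the exponent in `(n / p)!`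
(`Nat.Prime.emultiplicity_factorial_mul` / `padicValNat_factorial_mul`, `Nat.sub_one_mul...`). -/
theorem legC_le (p : ℕ) (hp : p.Prime) (fuel n : ℕ) :
    legC p fuel n ≤ n.factorial.factorization p := by
  induction fuel generalizing n with
  | zero => exact Nat.zero_le _
  | succ fuel ih =>
    have h2 : n.factorial.factorization p = n / p + (n / p).factorial.factorization p := by
      haveI := Fact.mk hp
      have h3 := padicValNat_factorial_mul_add (p := p) (n := n % p) (n / p) (Nat.mod_lt n hp.pos)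
      have h4 := padicValNat_factorial_mul (p := p) (n / p)
      rw [Nat.div_add_mod] at h3
      rw [Nat.factorization_def _ hp, Nat.factorization_def _ hp, h3, h4]
      omega
    rw [h2]
    unfold legC
    exact Nat.add_le_add_left (ih _) _
-- END legC_le

/-- The Willems inequality for the symmetric group of degree `n` up to the factor `C`. -/
def Wl (p C n : ℕ) : Prop :=
  ∀ (k : Type) [Field k] [CharP k p],
    pPrimePart p n.factorial ≤ C * ssDim k (Equiv.Perm (Fin n))

-- BEGIN wl_small
/-- PROOF. For `n < p` the group algebra is semisimple (`ssDim_ge_card` with `H = ⊤`). -/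
theorem wl_small (p : ℕ) [Fact p.Prime] (n : ℕ) (hn : n < p) : Wl p 1 n := by
  intro k _ _
  have hp : p.Prime := Fact.out
  have hc : Nat.card (⊤ : Subgroup (Equiv.Perm (Fin n))) = n.factorial := by
    rw [Subgroup.card_top, Nat.card_eq_fintype_card, Fintype.card_perm, Fintype.card_fin]
  have h := ssDim_ge_card (p := p) (k := k) (⊤ : Subgroup (Equiv.Perm (Fin n))) (by
    rw [hc, hp.dvd_factorial]
    omega)
  rw [hc] at h
  rw [one_mul]
  exact (pPrimePart_le p _).trans h

/-- PROOF. `ssDim_mono`-like monotonicity and `pPrimePart p p! = (p-1)!`. -/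
theorem wl_prime (p : ℕ) [Fact p.Prime] : Wl p 1 p := by
  intro k _ _
  have hp : p.Prime := Fact.out
  obtain ⟨q, rfl⟩ : ∃ q, p = q + 1 := ⟨p - 1, by have := hp.pos; omega⟩
  have h1 := wl_small (q + 1) q (Nat.lt_succ_self q) k
  have h2 : ssDim k (Equiv.Perm (Fin q)) ≤ ssDim k (Equiv.Perm (Fin (q + 1))) :=
    ssDim_le_of_injective (Equiv.Perm.viaEmbeddingHom (Fin.castLEEmb (Nat.le_succ q)))
      (Equiv.Perm.viaEmbeddingHom_injective _)
  have h3 : pPrimePart (q + 1) (q + 1).factorial = pPrimePart (q + 1) q.factorial := by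
    rw [Nat.factorial_succ, pPrimePart_mul]
    have h4 : pPrimePart (q + 1) (q + 1) = 1 := by
      unfold pPrimePart
      rw [hp.factorization_self, pow_one, Nat.div_self hp.pos]
    rw [h4, one_mul]
  rw [h3]
  rw [one_mul] at h1 ⊢
  exact h1.trans h2
-- END wl_small

-- BEGIN step_ineq
/-- PROOF. `young_step` with `M = N - n`: `f² ssDim(S_{N-n}) ≤ ssDim(S_N)`. With `v x` the exponent of `p` in `x!`: `v n + v (N-n) ≤ v N`
(`n! (N-n)! ∣ N!`), so `|S_N|_{p'} = N!/p^(v N) ≤ (N!/((N-n)! p^(v n))) |S_{N-n}|_{p'}`, and by `hineq` and `f H = n!` the first factor is at most `f² / C`. -/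
theorem step_ineq {p : ℕ} [Fact p.Prime] (n f H C e N : ℕ) (hr : RepGe p n f)
    (hf : f * H = n.factorial) (he : e ≤ n.factorial.factorization p) (hN : n ≤ N)
    (hineq : C * N.factorial * H ^ 2 ≤ n.factorial ^ 2 * (N - n).factorial * p ^ e)
    (hb : Wl p C (N - n)) : Wl p 1 N := by
  intro k _ _
  have hp : p.Prime := Fact.out
  obtain ⟨M, rfl⟩ := Nat.exists_eq_add_of_le hN
  rw [Nat.add_sub_cancel_left] at hineq hb
  have hy := young_step hr M (k := k)
  have hbk := hb k
  generalize ssDim k (Equiv.Perm (Fin M)) = D at hy hbk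
  generalize ssDim k (Equiv.Perm (Fin (n + M))) = D' at hy ⊢
  have hdvd : n.factorial * M.factorial ∣ (n + M).factorial :=
    Nat.factorial_mul_factorial_dvd_factorial_add n M
  have hv : n.factorial.factorization p + M.factorial.factorization p ≤
      (n + M).factorial.factorization p := by
    have h1 := (Nat.factorization_le_iff_dvd (mul_ne_zero (Nat.factorial_ne_zero n)
      (Nat.factorial_ne_zero M)) (Nat.factorial_ne_zero _)).2 hdvd p
    rw [Nat.factorization_mul (Nat.factorial_ne_zero n) (Nat.factorial_ne_zero M)] at h1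
    exact h1
  have eN : pPrimePart p (n + M).factorial * p ^ (n + M).factorial.factorization p =
      (n + M).factorial := Nat.div_mul_cancel (Nat.ordProj_dvd _ _)
  have eM : pPrimePart p M.factorial * p ^ M.factorial.factorization p =
      M.factorial := Nat.div_mul_cancel (Nat.ordProj_dvd _ _)
  have hMpos : 0 < pPrimePart p M.factorial := by
    rcases Nat.eq_zero_or_pos (pPrimePart p M.factorial) with h0 | h0
    · rw [h0, zero_mul] at eM
      exact absurd eM.symm (Nat.factorial_ne_zero M)
    · exact h0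
  have hHpos : 0 < H := by
    rcases Nat.eq_zero_or_pos H with h0 | h0
    · rw [h0, mul_zero] at hf
      exact absurd hf.symm (Nat.factorial_ne_zero n)
    · exact h0
  have hCpos : 0 < C := by
    rcases Nat.eq_zero_or_pos C with h0 | h0
    · rw [h0, zero_mul] at hbk
      omega
    · exact h0
  have hPpos : 0 < p ^ (n + M).factorial.factorization p := pow_pos hp.pos _
  have h2 : C * (n + M).factorial ≤ f ^ 2 * M.factorial * p ^ e := by
    have h3 : C * (n + M).factorial * H ^ 2 ≤ f ^ 2 * M.factorial * p ^ e * H ^ 2 := by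
      refine hineq.trans (le_of_eq ?_)
      rw [← hf]
      ring
    exact Nat.le_of_mul_le_mul_right h3 (pow_pos hHpos 2)
  have h4 : C * pPrimePart p (n + M).factorial ≤ f ^ 2 * pPrimePart p M.factorial := by
    refine Nat.le_of_mul_le_mul_right ?_ hPpos
    calc C * pPrimePart p (n + M).factorial * p ^ (n + M).factorial.factorization p
        = C * (n + M).factorial := by rw [mul_assoc, eN]
      _ ≤ f ^ 2 * M.factorial * p ^ e := h2
      _ = f ^ 2 * pPrimePart p M.factorial * p ^ (e + M.factorial.factorization p) := by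
          nth_rewrite 1 [← eM]
          rw [pow_add]
          ring
      _ ≤ f ^ 2 * pPrimePart p M.factorial * p ^ (n + M).factorial.factorization p :=
          Nat.mul_le_mul_left _ (Nat.pow_le_pow_right hp.pos (by omega))
  have h5 : C * pPrimePart p (n + M).factorial ≤ C * (f ^ 2 * D) := by
    refine h4.trans ((Nat.mul_le_mul_left _ hbk).trans (le_of_eq (by ring)))
  rw [one_mul]
  exact (Nat.le_of_mul_le_mul_left h5 hCpos).trans hy
-- END step_ineq

-- BEGIN chk_step
/-- PROOF. `core_one_rep`, `hkC_eq`, `szC_eq`, `fpC_eq` (`n, s ≤ 2 ^ 20`), `legC_le`; the inequality for `N = n + s` gives it for `n ≤ N ≤ n + s`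
because `N! / (N - n)!` is increasing in `N`; `step_ineq`. -/
theorem chk_step {p : ℕ} [Fact p.Prime] (C : ℕ) (m : List ℕ) (n s : ℕ) (hn : n ≤ 2 ^ 20)
    (hs : s ≤ 2 ^ 20) (h : chkC p C m n s = true) (N : ℕ) (h1 : n ≤ N) (h2 : N ≤ n + s)
    (hb : Wl p C (N - n)) : Wl p 1 N := by
  have hp : p.Prime := Fact.out
  unfold chkC at h
  rw [Bool.and_eq_true] at h
  obtain ⟨ha, hc⟩ := h
  have ha' : szC p m = n := eq_of_beq ha
  have hc' := Nat.le_of_ble_eq_true hc
  obtain ⟨f, hf, hr⟩ := core_one_rep (p := p) (fun i : Fin p => m.getD i 0)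
  rw [← szC_eq, ha'] at hf hr
  rw [← hkC_eq] at hf
  generalize hkC p m = H at hf hc'
  have e1 : fpC 20 0 n = n.factorial := by
    have := fpC_eq 20 0 n hn
    rwa [Nat.factorial_zero, one_mul, zero_add] at this
  have e2 : fpC 20 0 s = s.factorial := by
    have := fpC_eq 20 0 s hs
    rwa [Nat.factorial_zero, one_mul, zero_add] at this
  have e3 : n.factorial * fpC 20 n s = (n + s).factorial := fpC_eq 20 n s hs
  rw [e1, e2] at hc'
  generalize fpC 20 n s = F at hc' e3
  have hd1 : s.factorial * (n + s).descFactorial n = (n + s).factorial := by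
    have := Nat.factorial_mul_descFactorial (n := n + s) (k := n) (Nat.le_add_right n s)
    rwa [Nat.add_sub_cancel_left] at this
  have hd2 : (N - n).factorial * N.descFactorial n = N.factorial :=
    Nat.factorial_mul_descFactorial h1
  have hmono : N.descFactorial n ≤ (n + s).descFactorial n := Nat.descFactorial_le n h2
  have h5 : C * (n + s).descFactorial n * H ^ 2 ≤ n.factorial ^ 2 * p ^ legC p 20 n := by
    refine Nat.le_of_mul_le_mul_left ?_ (Nat.factorial_pos s)
    calc s.factorial * (C * (n + s).descFactorial n * H ^ 2)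
        = n.factorial * (C * F * H ^ 2) := by
          have h6 : s.factorial * (n + s).descFactorial n = n.factorial * F := by rw [hd1, e3]
          calc s.factorial * (C * (n + s).descFactorial n * H ^ 2)
              = C * (s.factorial * (n + s).descFactorial n) * H ^ 2 := by ring
            _ = n.factorial * (C * F * H ^ 2) := by rw [h6]; ring
      _ ≤ n.factorial * (n.factorial * s.factorial * p ^ legC p 20 n) :=
          Nat.mul_le_mul_left _ hc'
      _ = s.factorial * (n.factorial ^ 2 * p ^ legC p 20 n) := by ring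
  refine step_ineq n f H C (legC p 20 n) N hr hf (legC_le p hp 20 n) h1 ?_ hb
  calc C * N.factorial * H ^ 2 = (N - n).factorial * (C * N.descFactorial n * H ^ 2) := by
        rw [← hd2]; ring
    _ ≤ (N - n).factorial * (C * (n + s).descFactorial n * H ^ 2) :=
        Nat.mul_le_mul_left _ (Nat.mul_le_mul_right _ (Nat.mul_le_mul_left _ hmono))
    _ ≤ (N - n).factorial * (n.factorial ^ 2 * p ^ legC p 20 n) := Nat.mul_le_mul_left _ h5
    _ = n.factorial ^ 2 * (N - n).factorial * p ^ legC p 20 n := by ring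
-- END chk_step

-- BEGIN mchk_step
private theorem mchk_step_sumC (f : ℕ → ℕ) (n : ℕ) : sumC f n = ∑ d ∈ Finset.range n, f d := by
  induction n with
  | zero => rfl
  | succ n ih => rw [Finset.sum_range_succ, ← ih]; rfl

/-- PROOF. `core_multi` with `ι = Fin ms.length`, `m a = fun i => (ms.get a).getD i 0` (injective: `Nodup`, all lengths are `p`);
`f a = n! / hkC`; `ssDim` is monotone in the degree (`ssDim_le_of_injective`, `Equiv.Perm.viaEmbeddingHom`, or `ssDim_mono` in Main.lean);
`|S_N|_{p'} = N! / p^v ≤ C ∑ f²` as `v ≥ legC`. -/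
theorem mchk_step {p : ℕ} [Fact p.Prime] (C B n N : ℕ) (ms : List (List ℕ)) (hN : N ≤ 2 ^ 20)
    (h : mchkC p C B n N ms = true) : Wl p C N := by
  intro k _ _
  have hp : p.Prime := Fact.out
  unfold mchkC at h
  rw [Bool.and_eq_true, Bool.and_eq_true, Bool.and_eq_true, List.all_eq_true, decide_eq_true_eq, Nat.ble_eq,
    Nat.ble_eq] at h
  obtain ⟨⟨⟨hall, hnd⟩, hnN⟩, hineq⟩ := h
  have hall' : ∀ m ∈ ms, szC p m = n ∧ sumC (fun i => m.getD i 0) p = B ∧ m.length = p := by
    intro m hm
    have h1 := hall m hm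
    rw [Bool.and_eq_true, Bool.and_eq_true, beq_iff_eq, beq_iff_eq, beq_iff_eq] at h1
    exact ⟨h1.1.1, h1.1.2, h1.2⟩
  obtain ⟨f, hf, hsum⟩ := core_multi (p := p) (k := k) (ι := Fin ms.length) (fun a i => (ms.get a).getD i 0)
    (by
      intro a b hab
      have hl := (hall' _ (List.get_mem ms a)).2.2
      have hl' := (hall' _ (List.get_mem ms b)).2.2
      apply (List.nodup_iff_injective_get.1 hnd)
      apply List.ext_getElem (hl.trans hl'.symm)
      intro i h1 h2
      have h3 := congrFun hab ⟨i, by rw [← hl]; exact h1⟩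
      simp only [] at h3
      rw [List.getD_eq_getElem _ _ h1, List.getD_eq_getElem _ _ h2] at h3
      exact h3)
    B n
    (by
      intro a
      have h1 := (hall' _ (List.get_mem ms a)).2.1
      rw [mchk_step_sumC, Finset.sum_range] at h1
      exact h1)
    (by
      intro a
      rw [← (hall' _ (List.get_mem ms a)).1, szC_eq])
  have hn20 : n ≤ 2 ^ 20 := hnN.trans hN
  have hfn : fpC 20 0 n = n.factorial := by
    have h1 := fpC_eq 20 0 n hn20
    rwa [Nat.factorial_zero, one_mul, zero_add] at h1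
  have hfN : fpC 20 0 N = N.factorial := by
    have h1 := fpC_eq 20 0 N hN
    rwa [Nat.factorial_zero, one_mul, zero_add] at h1
  have hS : (ms.map (fun m => (fpC 20 0 n / hkC p m) ^ 2)).sum = ∑ a, f a ^ 2 := by
    rw [← Fin.sum_univ_fun_getElem]
    refine Finset.sum_congr rfl fun a _ => ?_
    have h1 := hf a
    have h2 := hkC_eq p (ms.get a)
    have h3 : f a * hkC p (ms.get a) = n.factorial := by
      rw [h2]
      exact h1
    have h4 : 0 < hkC p (ms.get a) := by
      rcases Nat.eq_zero_or_pos (hkC p (ms.get a)) with h5 | h5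
      · rw [h5, mul_zero] at h3
        exact absurd h3.symm (Nat.factorial_ne_zero n)
      · exact h5
    have h5 : fpC 20 0 n / hkC p (ms[(a : ℕ)]) = f a := by
      rw [hfn, ← h3]
      exact Nat.mul_div_cancel _ h4
    rw [h5]
  rw [hfN, hS] at hineq
  have hmono : ssDim k (Equiv.Perm (Fin n)) ≤ ssDim k (Equiv.Perm (Fin N)) :=
    ssDim_le_of_injective (Equiv.Perm.viaEmbeddingHom (Fin.castLEEmb hnN))
      (Equiv.Perm.viaEmbeddingHom_injective _)
  have hleg := legC_le p hp 20 N
  have h6 : N.factorial ≤ p ^ N.factorial.factorization p * (C * ssDim k (Equiv.Perm (Fin N))) :=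
    calc N.factorial ≤ C * (∑ a, f a ^ 2) * p ^ legC p 20 N := hineq
      _ ≤ C * ssDim k (Equiv.Perm (Fin N)) * p ^ N.factorial.factorization p :=
        Nat.mul_le_mul (Nat.mul_le_mul_left C (hsum.trans hmono)) (Nat.pow_le_pow_right hp.pos hleg)
      _ = p ^ N.factorial.factorization p * (C * ssDim k (Equiv.Perm (Fin N))) := mul_comm _ _
  unfold pPrimePart
  exact Nat.div_le_of_le_mul h6
-- END mchk_step

-- BEGIN cover
/-- PROOF. Strong induction on `N`. -/
theorem cover {p : ℕ} (Cf : ℕ → ℕ) (start : ℕ) (hsmall : ∀ n < start, Wl p (Cf n) n)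
    (hstep : ∀ N ≥ start, ∃ C n, 0 < n ∧ n ≤ N ∧ Cf (N - n) ≤ C ∧ (Wl p C (N - n) → Wl p 1 N))
    (hC : ∀ n, 1 ≤ Cf n) (N : ℕ) : Wl p (Cf N) N := by
  induction N using Nat.strong_induction_on with
  | _ N ih =>
    rcases Nat.lt_or_ge N start with h | h
    · exact hsmall N h
    · obtain ⟨C, n, hn, hnN, hCC, hs⟩ := hstep N h
      have h1 := ih (N - n) (by omega)
      have h2 : Wl p 1 N := hs fun k _ _ => (h1 k).trans (Nat.mul_le_mul_right _ hCC)
      exact fun k _ _ => (h2 k).trans (Nat.mul_le_mul_right _ (hC N))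
-- END cover

-- BEGIN wl_alt
/-- PROOF. `alt_index` (Main.lean) or `ssDim_le_index`: `ssDim(S_n) ≤ 2 ssDim(A_n)`, and for odd `p` `pPrimePart p n! = 2 pPrimePart p |A_n|`
(`pPrimePart_mul`, `pPrimePart p 2 = 2`). For `n ≤ 1` both groups are trivial. -/
theorem wl_alt {p : ℕ} [Fact p.Prime] (hp : p ≠ 2) (n : ℕ) (h : Wl p 1 n) (k : Type) [Field k]
    [CharP k p] :
    pPrimePart p (Nat.card (Equiv.Perm (Fin n))) ≤ ssDim k (Equiv.Perm (Fin n)) ∧
      pPrimePart p (Nat.card (alternatingGroup (Fin n))) ≤ ssDim k (alternatingGroup (Fin n)) := by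
  have hcard : Nat.card (Equiv.Perm (Fin n)) = n.factorial := by
    rw [Nat.card_eq_fintype_card, Fintype.card_perm, Fintype.card_fin]
  have h1 : pPrimePart p n.factorial ≤ ssDim k (Equiv.Perm (Fin n)) := by
    have h2 := h k
    rwa [one_mul] at h2
  refine ⟨by rw [hcard]; exact h1, ?_⟩
  have hidx := ssDim_le_index (k := k) (alternatingGroup (Fin n))
  rcases Nat.lt_or_ge n 2 with hn | hn
  · have hsub : Subsingleton (Fin n) := Fin.subsingleton_iff_le_one.2 (by omega)
    have htop : alternatingGroup (Fin n) = ⊤ := by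
      ext x
      rw [Subsingleton.elim x 1]
      exact ⟨fun _ => Subgroup.mem_top _, fun _ => Subgroup.one_mem _⟩
    have hi : (alternatingGroup (Fin n)).index = 1 := by rw [htop, Subgroup.index_top]
    have hc : Nat.card (alternatingGroup (Fin n)) = n.factorial := by
      rw [htop, Subgroup.card_top, hcard]
    rw [hi, one_mul] at hidx
    rw [hc]
    exact h1.trans hidx
  · have : Nontrivial (Fin n) := Fin.nontrivial_iff_two_le.2 hn
    rw [alternatingGroup.index_eq_two] at hidx
    have h4 : 2 * Nat.card (alternatingGroup (Fin n)) = n.factorial := by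
      rw [Nat.card_eq_fintype_card, two_mul_card_alternatingGroup, Fintype.card_perm,
        Fintype.card_fin]
    have h2 : pPrimePart p 2 = 2 := by
      unfold pPrimePart
      have h3 : Nat.factorization 2 p = 0 := by
        apply Nat.factorization_eq_zero_of_not_dvd
        intro hd
        exact hp ((Nat.prime_dvd_prime_iff_eq (Fact.out) Nat.prime_two).1 hd)
      rw [h3, pow_zero, Nat.div_one]
    rw [← h4, pPrimePart_mul, h2] at h1
    omega
-- END wl_alt

end Pool.Agent.Wil
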