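import Mathlib
import Pool.Agent.Wil.Chk

set_option autoImplicit false

/-! The crude check for large explicit cores. -/

namespace Pool.Agent.Wil

/-- `n! ≥ (n / e) ^ n` with `e < 2.7182818286`. -/
theorem fact_ge_pow (n : ℕ) : (n * 10000000000) ^ n ≤ n.factorial * 27182818286 ^ n := by
  rcases Nat.eq_zero_or_pos n with rfl | hn
  · simp
  have h1 : Real.exp 1 < 2.7182818286 := by
    have := Real.exp_one_lt_d9
    linarith
  have h2 : ((n : ℝ)) ^ n / (n.factorial : ℝ) ≤ Real.exp n := by
    exact Real.pow_div_factorial_le_exp n (Nat.cast_nonneg n) n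
  have h3 : Real.exp n = (Real.exp 1) ^ n := by
    rw [← Real.exp_nat_mul, mul_one]
  have h4 : (Real.exp 1) ^ n ≤ (2.7182818286 : ℝ) ^ n :=
    pow_le_pow_left₀ (Real.exp_pos 1).le h1.le n
  have hf : (0 : ℝ) < n.factorial := by exact_mod_cast Nat.factorial_pos n
  have h5 : (n : ℝ) ^ n ≤ (n.factorial : ℝ) * (2.7182818286 : ℝ) ^ n := by
    rw [div_le_iff₀ hf] at h2
    rw [h3] at h2
    calc (n : ℝ) ^ n ≤ Real.exp 1 ^ n * n.factorial := h2
      _ ≤ (2.7182818286 : ℝ) ^ n * n.factorial := by gcongr
      _ = _ := mul_comm _ _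
  have h6 : ((n * 10000000000 : ℕ) : ℝ) ^ n ≤ (n.factorial : ℝ) * (27182818286 : ℝ) ^ n := by
    push_cast
    rw [mul_pow]
    calc (n : ℝ) ^ n * 10000000000 ^ n ≤ ((n.factorial : ℝ) * (2.7182818286 : ℝ) ^ n) * 10000000000 ^ n := by
          gcongr
      _ = (n.factorial : ℝ) * (27182818286 : ℝ) ^ n := by
          rw [mul_assoc, ← mul_pow]
          norm_num
  exact_mod_cast h6

/-- `(n + s)! n ^ n s ^ s ≤ (n + s) ^ (n + s) n! s!` (one term of the binomial expansion). -/
theorem binom_pow (n s : ℕ) :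
    (n + s).factorial * (n ^ n * s ^ s) ≤ (n + s) ^ (n + s) * (n.factorial * s.factorial) := by
  have h1 : n ^ n * s ^ s * ((n + s).choose n) ≤ (n + s) ^ (n + s) := by
    have h := add_pow n s (n + s)
    rw [h]
    have h2 := Finset.single_le_sum (f := fun m => n ^ m * s ^ (n + s - m) * ((n + s).choose m))
      (s := Finset.range (n + s + 1)) (fun _ _ => Nat.zero_le _)
      (Finset.mem_range.2 (by omega : n < n + s + 1))
    simpa using h2
  have h3 : (n + s).factorial = (n + s).choose n * (n.factorial * s.factorial) := by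
    have := Nat.add_choose_mul_factorial_mul_factorial n s
    rw [← this, Nat.choose_symm_add]
    ring
  rw [h3]
  calc (n + s).choose n * (n.factorial * s.factorial) * (n ^ n * s ^ s)
      = (n ^ n * s ^ s * (n + s).choose n) * (n.factorial * s.factorial) := by ring
    _ ≤ _ := Nat.mul_le_mul_right _ h1

/-- The step for the crude check. -/
theorem chkS_step {p : ℕ} [Fact p.Prime] (C : ℕ) (m : List ℕ) (n s : ℕ) (hn0 : 0 < n)
    (h : chkS p C m n s = true) (N : ℕ) (h1 : n ≤ N) (h2 : N ≤ n + s)
    (hb : Wl p C (N - n)) : Wl p 1 N := by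
  have hp : p.Prime := Fact.out
  unfold chkS at h
  rw [Bool.and_eq_true] at h
  obtain ⟨ha, hc⟩ := h
  have ha' : szC p m = n := eq_of_beq ha
  have hc' := Nat.le_of_ble_eq_true hc
  obtain ⟨f, hf, hr⟩ := core_one_rep (p := p) (fun i : Fin p => m.getD i 0)
  rw [← szC_eq, ha'] at hf hr
  rw [← hkC_eq] at hf
  generalize hkC p m = H at hf hc'
  have hd2 : (N - n).factorial * N.descFactorial n = N.factorial :=
    Nat.factorial_mul_descFactorial h1
  have hd1 : s.factorial * (n + s).descFactorial n = (n + s).factorial := by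
    have := Nat.factorial_mul_descFactorial (n := n + s) (k := n) (Nat.le_add_right n s)
    rwa [Nat.add_sub_cancel_left] at this
  have hmono : N.descFactorial n ≤ (n + s).descFactorial n := Nat.descFactorial_le n h2
  have hE : 0 < 27182818286 ^ n := pow_pos (by norm_num) n
  have hnn : 0 < n ^ n := pow_pos hn0 n
  have hss : 0 < s ^ s := by
    rcases Nat.eq_zero_or_pos s with rfl | h
    · simp
    · exact pow_pos h s
  have h5 : C * (n + s).factorial * H ^ 2 ≤
      n.factorial ^ 2 * s.factorial * p ^ legC p 20 n := by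
    refine Nat.le_of_mul_le_mul_right ?_ (Nat.mul_pos (Nat.mul_pos hnn hss) hE)
    calc C * (n + s).factorial * H ^ 2 * (n ^ n * s ^ s * 27182818286 ^ n)
        = C * H ^ 2 * 27182818286 ^ n * ((n + s).factorial * (n ^ n * s ^ s)) := by ring
      _ ≤ C * H ^ 2 * 27182818286 ^ n * ((n + s) ^ (n + s) * (n.factorial * s.factorial)) :=
          Nat.mul_le_mul_left _ (binom_pow n s)
      _ = (C * (n + s) ^ (n + s) * H ^ 2 * 27182818286 ^ n) * (n.factorial * s.factorial) := by ring
      _ ≤ ((n * 10000000000) ^ n * n ^ n * s ^ s * p ^ legC p 20 n) *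
          (n.factorial * s.factorial) := Nat.mul_le_mul_right _ hc'
      _ = (n * 10000000000) ^ n * (n ^ n * s ^ s * p ^ legC p 20 n *
          (n.factorial * s.factorial)) := by ring
      _ ≤ (n.factorial * 27182818286 ^ n) * (n ^ n * s ^ s * p ^ legC p 20 n *
          (n.factorial * s.factorial)) := Nat.mul_le_mul_right _ (fact_ge_pow n)
      _ = n.factorial ^ 2 * s.factorial * p ^ legC p 20 n *
          (n ^ n * s ^ s * 27182818286 ^ n) := by ring
  have h6 : C * (n + s).descFactorial n * H ^ 2 ≤ n.factorial ^ 2 * p ^ legC p 20 n := by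
    refine Nat.le_of_mul_le_mul_left ?_ (Nat.factorial_pos s)
    calc s.factorial * (C * (n + s).descFactorial n * H ^ 2)
        = C * (s.factorial * (n + s).descFactorial n) * H ^ 2 := by ring
      _ = C * (n + s).factorial * H ^ 2 := by rw [hd1]
      _ ≤ n.factorial ^ 2 * s.factorial * p ^ legC p 20 n := h5
      _ = s.factorial * (n.factorial ^ 2 * p ^ legC p 20 n) := by ring
  refine step_ineq n f H C (legC p 20 n) N hr hf (legC_le p hp 20 n) h1 ?_ hb
  calc C * N.factorial * H ^ 2 = (N - n).factorial * (C * N.descFactorial n * H ^ 2) := by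
        rw [← hd2]; ring
    _ ≤ (N - n).factorial * (C * (n + s).descFactorial n * H ^ 2) :=
        Nat.mul_le_mul_left _ (Nat.mul_le_mul_right _ (Nat.mul_le_mul_left _ hmono))
    _ ≤ (N - n).factorial * (n.factorial ^ 2 * p ^ legC p 20 n) := Nat.mul_le_mul_left _ h6
    _ = n.factorial ^ 2 * (N - n).factorial * p ^ legC p 20 n := by ring

end Pool.Agent.Wil
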