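import Mathlib
import Pool.Agent.Wil.Chk

set_option autoImplicit false

/-! The tail: staircase cores with runner heights `t (p - 1 - i)`. -/

namespace Pool.Agent.Wil

open Real

-- BEGIN log_fact_up
/-- PROOF. Induction on `m ≥ 1`: `log (m + 1) ≤ ...` reduces to `1 ≤ (m + 1/2) * (log (m + 1) - log m)`, which is
`Real.le_log_one_add_of_nonneg` at `x = 1 / m` (`2 x / (x + 2) ≤ log (1 + x)`). -/
theorem log_fact_up (m : ℕ) (hm : 1 ≤ m) :
    log (m.factorial : ℝ) ≤ ((m : ℝ) + 1 / 2) * log m - m + 1 := by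
  induction m, hm using Nat.le_induction with
  | base => simp
  | succ m hm ih =>
    have hm0 : (0 : ℝ) < m := by exact_mod_cast hm
    have hf : (0 : ℝ) < m.factorial := by exact_mod_cast Nat.factorial_pos m
    have h1 := Real.le_log_one_add_of_nonneg (x := 1 / (m : ℝ)) (by positivity)
    have h2 : 1 + 1 / (m : ℝ) = ((m : ℝ) + 1) / m := by field_simp
    rw [h2, Real.log_div (by positivity) hm0.ne'] at h1
    have h3 : 2 * (1 / (m : ℝ)) / (1 / (m : ℝ) + 2) = 2 / (2 * m + 1) := by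
      field_simp
      ring
    rw [h3] at h1
    have h4 : (1 : ℝ) ≤ ((m : ℝ) + 1 / 2) * (log ((m : ℝ) + 1) - log m) := by
      calc (1 : ℝ) = ((m : ℝ) + 1 / 2) * (2 / (2 * m + 1)) := by
            field_simp
        _ ≤ _ := mul_le_mul_of_nonneg_left h1 (by positivity)
    rw [Nat.factorial_succ, Nat.cast_mul, Real.log_mul (by positivity) hf.ne']
    push_cast
    nlinarith
-- END log_fact_up

-- BEGIN LM_le
private theorem LM_le_fact (D : ℕ) : ∑ d ∈ Finset.range (D + 1), log (d : ℝ) = log (D.factorial : ℝ) := by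
  induction D with
  | zero => simp
  | succ D ih =>
    rw [Finset.sum_range_succ, ih, Nat.factorial_succ, Nat.cast_mul, log_mul, add_comm]
    · exact_mod_cast Nat.succ_ne_zero D
    · exact_mod_cast Nat.factorial_ne_zero D

private theorem LM_le_step (D : ℝ) (hD : 1 ≤ D) : (D + 1 / 2) * log D - D + 1 ≤
    ((D + 1) ^ 2 / 2 * log (D + 1) - 3 / 4 * (D + 1) ^ 2 + (D + 1)) -
      (D ^ 2 / 2 * log D - 3 / 4 * D ^ 2 + D) := by
  have hD0 : 0 < D := by linarith
  have h1 : 2 / (2 * D + 1) ≤ log (1 + 1 / D) := by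
    have h2 := Real.le_log_one_add_of_nonneg (x := 1 / D) (by positivity)
    refine le_trans (le_of_eq ?_) h2
    field_simp
    ring
  have h3 : log (D + 1) = log D + log (1 + 1 / D) := by
    rw [← log_mul (by positivity) (by positivity)]
    congr 1
    field_simp
  rw [h3]
  have h4 : (D + 1) ^ 2 / 2 * (2 / (2 * D + 1)) ≤ (D + 1) ^ 2 / 2 * log (1 + 1 / D) :=
    mul_le_mul_of_nonneg_left h1 (by positivity)
  have h5 : D / 2 + 3 / 4 ≤ (D + 1) ^ 2 / 2 * (2 / (2 * D + 1)) := by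
    rw [div_mul_div_comm, le_div_iff₀ (by positivity)]
    nlinarith
  nlinarith

/-- PROOF. Induction on `D ≥ 1`: the sum for `D + 1` minus the sum for `D` is `log D!` (`= ∑_{d ≤ D} log d`). With
`G x = x²/2 log x - 3/4 x² + x` one needs `log D! ≤ G (D + 1) - G D`; `log D! ≤ (D + 1/2) log D - D + 1` (`log_fact_up`), and
`G (D + 1) - G D ≥ (D + 1/2) log D - D + 1`: with `x = 1 / D`, `G (D + 1) - G D - (D + 1/2) log D = ((D + 1)²/2) log (1 + x) - 3/4 (2 D + 1) + 1` and
`log (1 + x) ≥ 2 x / (x + 2) = 2 / (2 D + 1)`, `(D + 1)² / (2 D + 1) ≥ D / 2 + 3 / 4`. -/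
theorem LM_le (D : ℕ) (hD : 1 ≤ D) :
    ∑ d ∈ Finset.range D, ((D : ℝ) - d) * log d ≤
      (D : ℝ) ^ 2 / 2 * log D - 3 / 4 * (D : ℝ) ^ 2 + D := by
  induction D, hD using Nat.le_induction with
  | base => norm_num
  | succ D hD ih =>
    have h1 : ∑ d ∈ Finset.range (D + 1), (((D + 1 : ℕ) : ℝ) - d) * log d =
        ∑ d ∈ Finset.range D, ((D : ℝ) - d) * log d + log (D.factorial : ℝ) := by
      rw [← LM_le_fact D]
      have h2 : ∑ d ∈ Finset.range D, ((D : ℝ) - d) * log d = ∑ d ∈ Finset.range (D + 1), ((D : ℝ) - d) * log d := by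
        rw [Finset.sum_range_succ, sub_self, zero_mul, add_zero]
      rw [h2, ← Finset.sum_add_distrib]
      refine Finset.sum_congr rfl fun d _ => ?_
      push_cast
      ring
    rw [h1]
    have h3 := log_fact_up D hD
    have h4 := LM_le_step (D : ℝ) (by exact_mod_cast hD)
    push_cast
    linarith
-- END LM_le

/-- Runner heights of the staircase core. -/
def stair (p t : ℕ) (i : Fin p) : ℕ := t * (p - 1 - (i : ℕ))

-- BEGIN stair_size
private theorem stair_size_gauss (e : ℕ) :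
    ∑ d ∈ Finset.range e, ((e : ℝ) - d) = (e : ℝ) * (e + 1) / 2 := by
  induction e with
  | zero => simp
  | succ e ih =>
    rw [Finset.sum_range_succ]
    have h1 : ∑ d ∈ Finset.range e, (((e + 1 : ℕ) : ℝ) - d) =
        ∑ d ∈ Finset.range e, ((e : ℝ) - d) + e := by
      have h2 : ∀ d ∈ Finset.range e, (((e + 1 : ℕ) : ℝ) - d) = ((e : ℝ) - d) + 1 := by
        intro d _
        push_cast
        ring
      rw [Finset.sum_congr rfl h2, Finset.sum_add_distrib]
      simp
    rw [h1, ih]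
    push_cast
    ring

private theorem stair_size_row (D : ℕ) :
    ∑ d ∈ Finset.range D, ((D : ℝ) - d) * (if 0 < d then (1 : ℝ) else 0) =
      (D : ℝ) * (D - 1) / 2 := by
  cases D with
  | zero => simp
  | succ e =>
    rw [Finset.sum_range_succ']
    have h2 : ∀ d ∈ Finset.range e, (((e + 1 : ℕ) : ℝ) - ((d + 1 : ℕ) : ℝ)) *
        (if 0 < d + 1 then (1 : ℝ) else 0) = (e : ℝ) - d := by
      intro d _
      rw [if_pos (Nat.succ_pos d)]
      push_cast
      ring
    rw [Finset.sum_congr rfl h2, stair_size_gauss]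
    simp
    ring

private theorem stair_size_cell (p t : ℕ) :
    ((cells (beta (stair p t))).card : ℝ) = ∑ i ∈ Finset.range p, ∑ j ∈ Finset.range p,
      (if i < j then ((t * (j - i) : ℕ) : ℝ) * (((t * (j - i) : ℕ) : ℝ) - 1) / 2 else 0) := by
  have h := sum_cells_beta (stair p t) (fun _ => (1 : ℝ))
  rw [Finset.sum_const, nsmul_eq_mul, mul_one] at h
  rw [h, ← Fin.sum_univ_eq_sum_range (fun i => ∑ j ∈ Finset.range p,
      (if i < j then ((t * (j - i) : ℕ) : ℝ) * (((t * (j - i) : ℕ) : ℝ) - 1) / 2 else 0)) p]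
  refine Finset.sum_congr rfl fun i _ => ?_
  rw [← Fin.sum_univ_eq_sum_range (fun j =>
      (if (i : ℕ) < j then ((t * (j - i) : ℕ) : ℝ) * (((t * (j - i) : ℕ) : ℝ) - 1) / 2 else 0)) p]
  refine Finset.sum_congr rfl fun j _ => ?_
  have hi := i.isLt
  have hj := j.isLt
  by_cases hij : (i : ℕ) < j
  · have h1 : stair p t i - stair p t j = t * ((j : ℕ) - i) := by
      unfold stair
      rw [← Nat.mul_sub]
      congr 1
      omega
    rw [h1, if_pos hij, ← stair_size_row]
    refine Finset.sum_congr rfl fun d _ => ?_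
    have h2 : ((j : ℕ) < (i : ℕ) ∨ 0 < d) ↔ 0 < d := by
      constructor
      · rintro (h | h)
        · omega
        · exact h
      · exact Or.inr
    simp only [h2]
  · have h1 : stair p t i - stair p t j = 0 := by
      unfold stair
      rw [← Nat.mul_sub]
      have : p - 1 - (i : ℕ) - (p - 1 - (j : ℕ)) = 0 := by omega
      rw [this, Nat.mul_zero]
    rw [h1, if_neg hij, Finset.range_zero, Finset.sum_empty]

/-- PROOF. `prod_cells_beta`/`sum_cells_beta` (`F = 1`): for `i < j`, `D = t (j - i)`, the number of cells is `∑_{0 < d < D} (D - d) = D (D - 1) / 2`; for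
`i ≥ j` the truncated difference is zero. `∑_{δ=1}^{p-1} (p - δ) δ² = p² (p² - 1) / 12`, `∑ (p - δ) δ = p (p² - 1) / 6`. If the general identity is
tedious: the three cases `p = 3, 5, 7` are enough (`hp`). -/
theorem stair_size (p t : ℕ) (hp : p = 3 ∨ p = 5 ∨ p = 7) :
    24 * (cells (beta (stair p t))).card + 2 * t * (p * (p ^ 2 - 1)) =
      t ^ 2 * (p ^ 2 * (p ^ 2 - 1)) := by
  have h := stair_size_cell p t
  have key : (24 : ℝ) * ((cells (beta (stair p t))).card : ℝ) + 2 * t * (p * ((p : ℝ) ^ 2 - 1)) =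
      (t : ℝ) ^ 2 * ((p : ℝ) ^ 2 * ((p : ℝ) ^ 2 - 1)) := by
    rw [h]
    rcases hp with rfl | rfl | rfl
    · norm_num [Finset.sum_range_succ]
      ring
    · norm_num [Finset.sum_range_succ]
      ring
    · norm_num [Finset.sum_range_succ]
      ring
  have h1 : ((p ^ 2 - 1 : ℕ) : ℝ) = (p : ℝ) ^ 2 - 1 := by
    have h2 : 1 ≤ p ^ 2 := by
      rcases hp with rfl | rfl | rfl <;> norm_num
    push_cast [Nat.cast_sub h2]
    ring
  have h3 : (((24 * (cells (beta (stair p t))).card + 2 * t * (p * (p ^ 2 - 1)) : ℕ)) : ℝ) =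
      ((t ^ 2 * (p ^ 2 * (p ^ 2 - 1)) : ℕ) : ℝ) := by
    simp only [Nat.cast_add, Nat.cast_mul, Nat.cast_pow, h1]
    push_cast
    linarith
  exact_mod_cast h3
-- END stair_size

/-- Upper bound for twice the logarithm of the hook product. -/
noncomputable def Ut (p t : ℕ) : ℝ :=
  ∑ δ ∈ Finset.Ico 1 p, ((p : ℝ) - δ) * ((((δ : ℝ) * t) ^ 2 - (δ : ℝ) * t) * log p +
    ((δ : ℝ) * t) ^ 2 * log ((δ : ℝ) * t) - 3 / 2 * ((δ : ℝ) * t) ^ 2 + 2 * ((δ : ℝ) * t))

-- BEGIN stair_hook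
private theorem stair_hook_comb (g : ℕ → ℝ) (p : ℕ) (hp : p = 3 ∨ p = 5 ∨ p = 7) :
    ∑ i : Fin p, ∑ j : Fin p, (if (i : ℕ) < (j : ℕ) then g ((j : ℕ) - (i : ℕ)) else 0) =
      ∑ δ ∈ Finset.Ico 1 p, ((p : ℝ) - δ) * g δ := by
  have h1 : ∀ f : ℕ → ℕ → ℝ, ∑ i : Fin p, ∑ j : Fin p, f i j =
      ∑ i ∈ Finset.range p, ∑ j ∈ Finset.range p, f i j := by
    intro f
    rw [Finset.sum_range]
    refine Finset.sum_congr rfl fun i _ => ?_
    rw [Finset.sum_range]
  rw [h1 (fun i j => if i < j then g (j - i) else 0)]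
  rcases hp with rfl | rfl | rfl
  all_goals
    simp [Finset.sum_range_succ, Finset.sum_Ico_succ_top]
    ring

private theorem stair_hook_gauss (D : ℕ) :
    ∑ d ∈ Finset.range D, (if 0 < d then ((D : ℝ) - d) else 0) = ((D : ℝ) ^ 2 - D) / 2 := by
  have h1 : ∀ n : ℕ, ∑ d ∈ Finset.range n, (d : ℝ) = (n : ℝ) * (n - 1) / 2 := by
    intro n
    induction n with
    | zero => simp
    | succ n ih =>
      rw [Finset.sum_range_succ, ih]
      push_cast
      ring
  rcases D with _ | D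
  · simp
  · rw [Finset.sum_range_succ']
    simp only [lt_irrefl, if_false, add_zero, Nat.succ_pos, if_true]
    have h2 : ∀ d ∈ Finset.range D, (((D + 1 : ℕ) : ℝ) - ((d + 1 : ℕ) : ℝ)) = (D : ℝ) - d := by
      intro d _
      push_cast
      ring
    rw [Finset.sum_congr rfl h2, Finset.sum_sub_distrib, h1, Finset.sum_const, Finset.card_range, nsmul_eq_mul]
    push_cast
    ring

private theorem stair_hook_inner (p t i j : ℕ) (hi : i < p) (hj : j < p) (ht : 1 ≤ t) :
    2 * ∑ d ∈ Finset.range (t * (p - 1 - i) - t * (p - 1 - j)),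
        log (((if j < i ∨ 0 < d then (d * p + i - j) ^ (t * (p - 1 - i) - t * (p - 1 - j) - d) else 1 : ℕ) : ℝ)) ≤
      (if i < j then (((((j - i : ℕ) : ℝ) * t) ^ 2 - ((j - i : ℕ) : ℝ) * t) * log p +
    (((j - i : ℕ) : ℝ) * t) ^ 2 * log (((j - i : ℕ) : ℝ) * t) - 3 / 2 * (((j - i : ℕ) : ℝ) * t) ^ 2 + 2 * (((j - i : ℕ) : ℝ) * t)) else 0) := by
  by_cases hij : i < j
  · rw [if_pos hij]
    have hD : t * (p - 1 - i) - t * (p - 1 - j) = (j - i) * t := by
      rw [← Nat.mul_sub, mul_comm]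
      congr 1
      omega
    rw [hD]
    set D : ℕ := (j - i) * t with hDdef
    have hD1 : 1 ≤ D := Nat.one_le_iff_ne_zero.2 (Nat.mul_ne_zero (by omega) (by omega))
    have hDc : ((j - i : ℕ) : ℝ) * t = (D : ℝ) := by
      rw [hDdef]
      push_cast
      ring
    rw [hDc]
    have hp0 : 0 < p := by omega
    have hstep : ∀ d ∈ Finset.range D,
        log (((if j < i ∨ 0 < d then (d * p + i - j) ^ (D - d) else 1 : ℕ) : ℝ)) ≤
          ((D : ℝ) - d) * log d + (if 0 < d then ((D : ℝ) - d) else 0) * log p := by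
      intro d hd
      have hd' := Finset.mem_range.1 hd
      rcases Nat.eq_zero_or_pos d with h0 | h0
      · subst h0
        have h1 : ¬ (j < i ∨ 0 < 0) := by omega
        rw [if_neg h1]
        simp
      · rw [if_pos (Or.inr h0), if_pos h0]
        have h2 : ((D - d : ℕ) : ℝ) = (D : ℝ) - d := by
          rw [Nat.cast_sub hd'.le]
        have h3 : 0 < d * p + i - j := by
          have : p ≤ d * p := Nat.le_mul_of_pos_left p h0
          omega
        have h4 : ((d * p + i - j : ℕ) : ℝ) ≤ (d : ℝ) * p := by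
          have : d * p + i - j ≤ d * p := by omega
          exact_mod_cast this
        have h5 : log ((d * p + i - j : ℕ) : ℝ) ≤ log d + log p := by
          rw [← Real.log_mul (by positivity) (by positivity)]
          exact Real.log_le_log (by exact_mod_cast h3) h4
        have h6 : (0 : ℝ) ≤ (D : ℝ) - d := by
          rw [← h2]
          positivity
        rw [Nat.cast_pow, Real.log_pow, h2]
        nlinarith [mul_le_mul_of_nonneg_left h5 h6]
    have h7 := Finset.sum_le_sum hstep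
    rw [Finset.sum_add_distrib, ← Finset.sum_mul, stair_hook_gauss] at h7
    have h8 := LM_le D hD1
    linarith
  · rw [if_neg hij]
    have h0 : t * (p - 1 - i) - t * (p - 1 - j) = 0 := by
      apply Nat.sub_eq_zero_of_le
      apply Nat.mul_le_mul_left
      omega
    rw [h0]
    simp

/-- PROOF. `prod_cells_beta` with `F = id`, logarithm; only `i < j`, `δ = j - i`, `D = δ t`, hooks `d p - δ ≤ d p` for `0 < d < D` with multiplicity `D - d`:
`2 ∑_{0 < d < D} (D - d) (log p + log d) ≤ (D² - D) log p + D² log D - 3/2 D² + 2 D` (`LM_le`); the number of pairs `i < j` with `j - i = δ` is `p - δ`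
(for the three cases `Fin.sum_univ_succ`). -/
theorem stair_hook (p t : ℕ) (hp : p = 3 ∨ p = 5 ∨ p = 7) (ht : 1 ≤ t) :
    2 * log ((∏ z ∈ cells (beta (stair p t)), (z.1 - z.2) : ℕ) : ℝ) ≤ Ut p t := by
  have hpr := prod_cells_beta (stair p t) (fun n : ℕ => n)
  have hne : ∀ i j : Fin p, ∀ d : ℕ,
      (if (j : ℕ) < (i : ℕ) ∨ 0 < d then (d * p + (i : ℕ) - (j : ℕ)) ^ (stair p t i - stair p t j - d) else 1) ≠ 0 := by
    intro i j d
    have hi := i.isLt
    have hj := j.isLt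
    split_ifs with h
    · apply pow_ne_zero
      rcases h with h | h
      · omega
      · have : p ≤ d * p := Nat.le_mul_of_pos_left p h
        omega
    · exact one_ne_zero
  have hlog : log ((∏ z ∈ cells (beta (stair p t)), (z.1 - z.2) : ℕ) : ℝ) =
      ∑ i : Fin p, ∑ j : Fin p, ∑ d ∈ Finset.range (stair p t i - stair p t j),
        log (((if (j : ℕ) < (i : ℕ) ∨ 0 < d then (d * p + (i : ℕ) - (j : ℕ)) ^ (stair p t i - stair p t j - d) else 1 : ℕ) : ℝ)) := by
    rw [hpr, Nat.cast_prod, Real.log_prod]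
    · refine Finset.sum_congr rfl fun i _ => ?_
      rw [Nat.cast_prod, Real.log_prod]
      · refine Finset.sum_congr rfl fun j _ => ?_
        rw [Nat.cast_prod, Real.log_prod]
        intro d _
        exact_mod_cast hne i j d
      · intro j _
        rw [Nat.cast_ne_zero]
        exact Finset.prod_ne_zero_iff.2 fun d _ => hne i j d
    · intro i _
      rw [Nat.cast_ne_zero]
      exact Finset.prod_ne_zero_iff.2 fun j _ => Finset.prod_ne_zero_iff.2 fun d _ => hne i j d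
  rw [hlog, Ut, ← stair_hook_comb (fun δ => ((((δ : ℝ) * t) ^ 2 - (δ : ℝ) * t) * log p +
    ((δ : ℝ) * t) ^ 2 * log ((δ : ℝ) * t) - 3 / 2 * ((δ : ℝ) * t) ^ 2 + 2 * ((δ : ℝ) * t))) p hp, Finset.mul_sum]
  refine Finset.sum_le_sum fun i _ => ?_
  rw [Finset.mul_sum]
  refine Finset.sum_le_sum fun j _ => ?_
  exact stair_hook_inner p t i j i.isLt j.isLt ht
-- END stair_hook

-- BEGIN binom_log
private theorem binom_log_ge (n : ℕ) : (n : ℝ) * log n - n ≤ log (n.factorial : ℝ) := by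
  rcases Nat.eq_zero_or_pos n with rfl | hn
  · simp
  have hn0 : (0 : ℝ) < n := by exact_mod_cast hn
  have h1 := Real.pow_div_factorial_le_exp (n : ℝ) hn0.le n
  have hf : (0 : ℝ) < n.factorial := by exact_mod_cast Nat.factorial_pos n
  have h2 : log ((n : ℝ) ^ n / n.factorial) ≤ n :=
    (Real.log_le_log (by positivity) h1).trans (le_of_eq (Real.log_exp _))
  rw [Real.log_div (by positivity) hf.ne', Real.log_pow] at h2
  linarith

/-- PROOF. `(n + s)! / n! ≤ (n + s) ^ s`, `s! ≥ (s / e) ^ s` (`log_fact_ge` in Asym.lean). -/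
theorem binom_log (n s : ℕ) (hs : 1 ≤ s) :
    log ((n + s).factorial : ℝ) - log (n.factorial : ℝ) - log (s.factorial : ℝ) ≤
      (s : ℝ) * (1 + log (((n : ℝ) + s) / s)) := by
  have hs0 : (0 : ℝ) < s := by exact_mod_cast hs
  have hn0 : (0 : ℝ) ≤ n := Nat.cast_nonneg n
  have h1 : (n + s).factorial ≤ n.factorial * (n + s) ^ s := by
    rw [← Nat.factorial_mul_ascFactorial]
    exact Nat.mul_le_mul_left _ (Nat.ascFactorial_le_pow_add n s)
  have h2 : log ((n + s).factorial : ℝ) ≤ log (n.factorial : ℝ) + s * log ((n : ℝ) + s) := by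
    have h3 : ((n + s).factorial : ℝ) ≤ (n.factorial : ℝ) * ((n : ℝ) + s) ^ s := by exact_mod_cast h1
    have h4 := Real.log_le_log (by exact_mod_cast Nat.factorial_pos (n + s)) h3
    rw [log_mul (by exact_mod_cast Nat.factorial_ne_zero n) (by positivity), log_pow] at h4
    exact h4
  have h5 := binom_log_ge s
  have h6 : log (((n : ℝ) + s) / s) = log ((n : ℝ) + s) - log s := log_div (by positivity) hs0.ne'
  rw [h6]
  nlinarith

/-- PROOF. The derivative of `x (1 + log ((n + x) / x))` is `log ((n + x) / x) + x / (n + x) ≥ 0`. -/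
theorem binom_mono (n : ℝ) (hn : 0 ≤ n) (s S : ℝ) (hs : 0 < s) (hS : s ≤ S) :
    s * (1 + log ((n + s) / s)) ≤ S * (1 + log ((n + S) / S)) := by
  have hS0 : 0 < S := lt_of_lt_of_le hs hS
  have h1 : log ((n + s) / s) = log (n + s) - log s := log_div (by positivity) hs.ne'
  have h2 : log ((n + S) / S) = log (n + S) - log S := log_div (by positivity) hS0.ne'
  rw [h1, h2]
  have h3 : log (n + s) ≤ log (n + S) := Real.log_le_log (by positivity) (by linarith)
  have h4 : log S ≤ log (n + S) := Real.log_le_log hS0 (by linarith)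
  have h5 : s * (log S - log s) ≤ S - s := by
    have h6 := Real.log_le_sub_one_of_pos (x := S / s) (by positivity)
    rw [log_div hS0.ne' hs.ne'] at h6
    have h7 := mul_le_mul_of_nonneg_left h6 hs.le
    have h8 : s * (S / s - 1) = S - s := by field_simp
    rw [h8] at h7
    exact h7
  nlinarith [mul_nonneg (sub_nonneg.2 hS) (sub_nonneg.2 h4), mul_nonneg hs.le (sub_nonneg.2 h3)]
-- END binom_log

-- BEGIN val_ge
/-- PROOF. `sub_one_mul_padicValNat_factorial`: `(p - 1) v = n - digit sum`, the digit sum is at most `(p - 1) * (number of digits)`, the number of digits is at most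
`log n / log p + 1` (see also `val_bound` in Asym.lean). -/
theorem val_ge (p : ℕ) (hp : p.Prime) (n : ℕ) (hn : 1 ≤ n) :
    (n : ℝ) / (p - 1) - log n / log p - 1 ≤ (n.factorial.factorization p : ℝ) := by
  have hF : Fact p.Prime := ⟨hp⟩
  have hp1 : (1 : ℝ) < p := by exact_mod_cast hp.one_lt
  have hp0 : (0 : ℝ) < (p : ℝ) - 1 := by linarith
  rw [Nat.factorization_def _ hp]
  have h1 := sub_one_mul_padicValNat_factorial (p := p) n
  have h2 : (p.digits n).sum ≤ (p.digits n).length * (p - 1) := by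
    have := List.sum_le_card_nsmul (p.digits n) (p - 1) (fun x hx => by
      have := Nat.digits_lt_base hp.one_lt hx
      omega)
    rwa [smul_eq_mul] at this
  have h3 : (p.digits n).length = Nat.log p n + 1 := Nat.length_digits p n hp.one_lt (by omega)
  rw [h3] at h2
  have h4 : n ≤ (p - 1) * padicValNat p n.factorial + (Nat.log p n + 1) * (p - 1) := by omega
  have h5 : (n : ℝ) ≤ ((p : ℝ) - 1) * (padicValNat p n.factorial : ℝ) +
      ((Nat.log p n : ℝ) + 1) * ((p : ℝ) - 1) := by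
    have h6 : ((p - 1 : ℕ) : ℝ) = (p : ℝ) - 1 := by
      rw [Nat.cast_sub hp.one_lt.le, Nat.cast_one]
    rw [← h6]
    exact_mod_cast h4
  have h7 : (Nat.log p n : ℝ) ≤ log n / log p := Real.natLog_le_logb n p
  have h8 : (n : ℝ) / (p - 1) ≤ (padicValNat p n.factorial : ℝ) + ((Nat.log p n : ℝ) + 1) := by
    rw [div_le_iff₀ hp0]
    linarith
  linarith
-- END val_ge

-- BEGIN tail_num3
/-- PROOF. `log (3t² - 2t) = 2 log t + log 3 + log (1 - 2/(3t))`, `log (1 - x) ≥ - x / (1 - x)`: the `t² log t` terms cancel. One is left with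
`a t² - b t log t - c t - d log t - e ≥ 0`; use `log t ≤ log 36 + (t - 36) / 36`, and numerical bounds for `log 2`, `log 3` (`Real.log_two_gt_d9`,
`Real.log_two_lt_d9`; `log 3` from `3 ^ 12 > 2 ^ 19`, `3 ^ 5 < 2 ^ 8`, or finer). At `t = 36` right side minus left side is about 424. -/
theorem tail_num3 (t : ℝ) (ht : 36 ≤ t) :
    log 6 + (6 * t + 1) * (1 + log ((3 * (t + 1) ^ 2 - 2 * (t + 1)) / (6 * t + 1))) +
      (2 * ((t ^ 2 - t) * log 3 + t ^ 2 * log t - 3 / 2 * t ^ 2 + 2 * t) +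
        ((4 * t ^ 2 - 2 * t) * log 3 + 4 * t ^ 2 * log (2 * t) - 6 * t ^ 2 + 4 * t)) ≤
      (3 * t ^ 2 - 2 * t) * log (3 * t ^ 2 - 2 * t) - (3 * t ^ 2 - 2 * t) +
        ((3 * t ^ 2 - 2 * t) / 2 - log (3 * t ^ 2 - 2 * t) / log 3 - 1) * log 3 := by
  have ht0 : (0 : ℝ) < t := by linarith
  obtain ⟨a, ha⟩ : ∃ a, a = log 2 := ⟨_, rfl⟩
  obtain ⟨b, hb⟩ : ∃ b, b = log 3 := ⟨_, rfl⟩
  obtain ⟨L, hL⟩ : ∃ L, L = log t := ⟨_, rfl⟩
  obtain ⟨l, hl⟩ : ∃ l, l = log ((3 * t - 2) / (3 * t)) := ⟨_, rfl⟩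
  obtain ⟨q, hq⟩ : ∃ q, q = log ((3 * (t + 1) ^ 2 - 2 * (t + 1)) / (6 * t + 1)) := ⟨_, rfl⟩
  have ha1 : a < 0.6931471808 := by rw [ha]; exact Real.log_two_lt_d9
  have ha2 : 0.6931471803 < a := by rw [ha]; exact Real.log_two_gt_d9
  have hb1 : b ≤ 8 / 5 * a := by
    have h1 : log ((3 : ℝ) ^ 5) ≤ log ((2 : ℝ) ^ 8) := Real.log_le_log (by norm_num) (by norm_num)
    rw [Real.log_pow, Real.log_pow, ← ha, ← hb] at h1
    push_cast at h1
    linarith
  have hb2 : 19 / 12 * a ≤ b := by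
    have h1 : log ((2 : ℝ) ^ 19) ≤ log ((3 : ℝ) ^ 12) :=
      Real.log_le_log (by norm_num) (by norm_num)
    rw [Real.log_pow, Real.log_pow, ← ha, ← hb] at h1
    push_cast at h1
    linarith
  have h6 : log 6 = a + b := by
    rw [ha, hb, ← Real.log_mul (by norm_num) (by norm_num)]
    norm_num
  have h36 : log 36 = 2 * (a + b) := by
    rw [← h6, ← Real.log_rpow (by norm_num)]
    norm_num
  have hLt : L ≤ 2 * (a + b) + t / 36 - 1 := by
    have h1 := Real.log_le_sub_one_of_pos (x := t / 36) (by positivity)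
    rw [Real.log_div ht0.ne' (by norm_num), h36, ← hL] at h1
    linarith
  have h2t : log (2 * t) = a + L := by
    rw [Real.log_mul (by norm_num) ht0.ne', ha, hL]
  have h3t : (0 : ℝ) < 3 * t - 2 := by linarith
  have hn : log (3 * t ^ 2 - 2 * t) = 2 * L + b + l := by
    have h1 : 3 * t ^ 2 - 2 * t = t * t * 3 * ((3 * t - 2) / (3 * t)) := by
      field_simp
    rw [h1, Real.log_mul (by positivity) (by positivity), Real.log_mul (by positivity) (by norm_num),
      Real.log_mul ht0.ne' ht0.ne', ← hL, ← hb, ← hl]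
    ring
  have hl1 : l ≤ 0 := by
    rw [hl]
    apply Real.log_nonpos (by positivity)
    rw [div_le_one (by positivity)]
    linarith
  have hl2 : -(2 * t) ≤ (3 * t ^ 2 - 2 * t) * l := by
    have h1 := Real.one_sub_inv_le_log_of_pos (x := (3 * t - 2) / (3 * t)) (by positivity)
    rw [← hl] at h1
    have h2 : (3 * t ^ 2 - 2 * t) * (1 - ((3 * t - 2) / (3 * t))⁻¹) = -(2 * t) := by
      field_simp
      ring
    rw [← h2]
    apply mul_le_mul_of_nonneg_left h1
    have : 3 * t ^ 2 - 2 * t = t * (3 * t - 2) := by ring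
    rw [this]
    positivity
  have hq1 : q ≤ L - a + 0.04 := by
    have h1 : (3 * (t + 1) ^ 2 - 2 * (t + 1)) / (6 * t + 1) ≤ t / 2 * 1.04 := by
      rw [div_le_iff₀ (by positivity)]
      nlinarith
    have h2 : log (t / 2 * 1.04) ≤ L - a + 0.04 := by
      rw [Real.log_mul (by positivity) (by norm_num), Real.log_div ht0.ne' (by norm_num), ← hL,
        ← ha]
      have h3 := Real.log_le_sub_one_of_pos (x := (1.04 : ℝ)) (by norm_num)
      linarith
    rw [hq]
    refine (Real.log_le_log ?_ h1).trans h2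
    have : 3 * (t + 1) ^ 2 - 2 * (t + 1) = (t + 1) * (3 * t + 1) := by ring
    rw [this]
    positivity
  have hb0 : b ≠ 0 := by
    have : 0 < b := by linarith
    exact this.ne'
  rw [← hq, h6, h2t, hn, ← hb, ← hL]
  have e1 : ((3 * t ^ 2 - 2 * t) / 2 - (2 * L + b + l) / b - 1) * b =
      (3 * t ^ 2 - 2 * t) / 2 * b - (2 * L + b + l) - b := by
    field_simp
  rw [e1]
  have p1 : t * L ≤ t * (2 * (a + b) + t / 36 - 1) := mul_le_mul_of_nonneg_left hLt ht0.le
  have p2 : (6 * t + 1) * (1 + q) ≤ (6 * t + 1) * (1 + (L - a + 0.04)) :=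
    mul_le_mul_of_nonneg_left (by linarith) (by positivity)
  have p3 : t ^ 2 * a ≤ t ^ 2 * 0.6931471808 := mul_le_mul_of_nonneg_left ha1.le (by positivity)
  have p4 : t ^ 2 * b ≤ t ^ 2 * (8 / 5 * 0.6931471808) :=
    mul_le_mul_of_nonneg_left (by linarith) (by positivity)
  have p5 : t * a ≤ t * 0.6931471808 := mul_le_mul_of_nonneg_left ha1.le ht0.le
  have p6 : t * b ≤ t * (8 / 5 * 0.6931471808) := mul_le_mul_of_nonneg_left (by linarith) ht0.le
  have p7 : t * 0.6931471803 ≤ t * a := mul_le_mul_of_nonneg_left ha2.le ht0.le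
  have p8 : t * (19 / 12 * 0.6931471803) ≤ t * b := mul_le_mul_of_nonneg_left (by linarith) ht0.le
  have p9 : t * 36 ≤ t * t := mul_le_mul_of_nonneg_left ht ht0.le
  nlinarith
-- END tail_num3

-- BEGIN tail_num5
private theorem tail_num5_log5 : 1.609 ≤ log 5 ∧ log 5 ≤ 1.6175 ∧ log 3 ≤ 1.1091 := by
  have h2l := Real.log_two_gt_d9
  have h2u := Real.log_two_lt_d9
  refine ⟨?_, ?_, ?_⟩
  · have h : log ((2 : ℝ) ^ 65) ≤ log ((5 : ℝ) ^ 28) := Real.log_le_log (by positivity) (by norm_num)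
    rw [Real.log_pow, Real.log_pow] at h
    push_cast at h
    linarith
  · have h : log ((5 : ℝ) ^ 3) ≤ log ((2 : ℝ) ^ 7) := Real.log_le_log (by positivity) (by norm_num)
    rw [Real.log_pow, Real.log_pow] at h
    push_cast at h
    linarith
  · have h : log ((3 : ℝ) ^ 5) ≤ log ((2 : ℝ) ^ 8) := Real.log_le_log (by positivity) (by norm_num)
    rw [Real.log_pow, Real.log_pow] at h
    push_cast at h
    linarith

/-- PROOF. As `tail_num3`; at `t = 40` right side minus left side is about 2820. -/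
theorem tail_num5 (t : ℝ) (ht : 40 ≤ t) :
    log 2 + (50 * t + 15) * (1 + log ((25 * (t + 1) ^ 2 - 10 * (t + 1)) / (50 * t + 15))) +
      (4 * ((t ^ 2 - t) * log 5 + t ^ 2 * log t - 3 / 2 * t ^ 2 + 2 * t) +
        3 * ((4 * t ^ 2 - 2 * t) * log 5 + 4 * t ^ 2 * log (2 * t) - 6 * t ^ 2 + 4 * t) +
        2 * ((9 * t ^ 2 - 3 * t) * log 5 + 9 * t ^ 2 * log (3 * t) - 27 / 2 * t ^ 2 + 6 * t) +
        ((16 * t ^ 2 - 4 * t) * log 5 + 16 * t ^ 2 * log (4 * t) - 24 * t ^ 2 + 8 * t)) ≤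
      (25 * t ^ 2 - 10 * t) * log (25 * t ^ 2 - 10 * t) - (25 * t ^ 2 - 10 * t) +
        ((25 * t ^ 2 - 10 * t) / 4 - log (25 * t ^ 2 - 10 * t) / log 5 - 1) * log 5 := by
  obtain ⟨h5l, h5u, h3u⟩ := tail_num5_log5
  have h2l := Real.log_two_gt_d9
  have h2u := Real.log_two_lt_d9
  have ht0 : 0 < t := by linarith
  have e2 : log (2 * t) = log 2 + log t := Real.log_mul (by norm_num) ht0.ne'
  have e3 : log (3 * t) = log 3 + log t := Real.log_mul (by norm_num) ht0.ne'
  have e4 : log (4 * t) = 2 * log 2 + log t := by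
    rw [Real.log_mul (by norm_num) ht0.ne']
    have : (4 : ℝ) = 2 ^ 2 := by norm_num
    rw [this, Real.log_pow]
    push_cast
    ring
  -- `log n`
  obtain ⟨δ, hδ, hδ0, hδn⟩ : ∃ δ : ℝ, log (25 * t ^ 2 - 10 * t) = 2 * log t + 2 * log 5 + δ ∧ δ ≤ 0 ∧
      -(10 * t) ≤ (25 * t ^ 2 - 10 * t) * δ := by
    have hx : 0 < 1 - 2 / (5 * t) := by
      have : 2 / (5 * t) < 1 := by
        rw [div_lt_one (by positivity)]
        linarith
      linarith
    refine ⟨log (1 - 2 / (5 * t)), ?_, ?_, ?_⟩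
    · have e : 25 * t ^ 2 - 10 * t = t ^ 2 * 5 ^ 2 * (1 - 2 / (5 * t)) := by
        field_simp
        ring
      rw [e, Real.log_mul (by positivity) hx.ne', Real.log_mul (by positivity) (by positivity), Real.log_pow,
        Real.log_pow]
      push_cast
      ring
    · apply Real.log_nonpos hx.le
      have : 0 ≤ 2 / (5 * t) := by positivity
      linarith
    · have h1 := Real.one_sub_inv_le_log_of_pos hx
      have h2 : 0 ≤ 25 * t ^ 2 - 10 * t := by nlinarith
      have h3 := mul_le_mul_of_nonneg_left h1 h2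
      have e : (25 * t ^ 2 - 10 * t) * (1 - (1 - 2 / (5 * t))⁻¹) = -(10 * t) := by
        have h5 : (5 * t - 2) ≠ 0 := by nlinarith
        have h6 : 1 - 2 / (5 * t) = (5 * t - 2) / (5 * t) := by
          field_simp
        have h7 : (25 * t ^ 2 - 10 * t) * (5 * t / (5 * t - 2)) = 25 * t ^ 2 := by
          rw [← mul_div_assoc, div_eq_iff h5]
          ring
        rw [h6, inv_div, mul_sub, mul_one, h7]
        ring
      rw [e] at h3
      exact h3
  -- the binomial term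
  have hT : log ((25 * (t + 1) ^ 2 - 10 * (t + 1)) / (50 * t + 15)) ≤ log t - log 2 + 0.033 := by
    have h1 : (25 * (t + 1) ^ 2 - 10 * (t + 1)) / (50 * t + 15) ≤ t / 2 * 1.033 := by
      rw [div_le_iff₀ (by positivity)]
      nlinarith
    have h0 : 0 < (25 * (t + 1) ^ 2 - 10 * (t + 1)) / (50 * t + 15) := by
      apply div_pos _ (by positivity)
      nlinarith
    have h2 := Real.log_le_log h0 h1
    rw [Real.log_mul (by positivity) (by norm_num), Real.log_div ht0.ne' (by norm_num)] at h2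
    have h3 : log (1.033 : ℝ) ≤ 1.033 - 1 := Real.log_le_sub_one_of_pos (by norm_num)
    linarith
  -- upper bound for `log t`
  have hL : log t ≤ 2.7 + t / 40 := by
    have h1 : log t = log 40 + log (t / 40) := by
      rw [← Real.log_mul (by norm_num) (by positivity)]
      congr 1
      field_simp
    have h2 : log (t / 40) ≤ t / 40 - 1 := Real.log_le_sub_one_of_pos (by positivity)
    have h3 : log (40 : ℝ) = 3 * log 2 + log 5 := by
      have : (40 : ℝ) = 2 ^ 3 * 5 := by norm_num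
      rw [this, Real.log_mul (by norm_num) (by norm_num), Real.log_pow]
      push_cast
      ring
    linarith
  have h5pos : log 5 ≠ 0 := by
    intro h
    rw [h] at h5l
    norm_num at h5l
  rw [e2, e3, e4, hδ]
  have hR : ((25 * t ^ 2 - 10 * t) / 4 - (2 * log t + 2 * log 5 + δ) / log 5 - 1) * log 5 =
      (25 * t ^ 2 - 10 * t) / 4 * log 5 - (2 * log t + 2 * log 5 + δ) - log 5 := by
    field_simp
  rw [hR]
  have hT2 : (50 * t + 15) * (1 + log ((25 * (t + 1) ^ 2 - 10 * (t + 1)) / (50 * t + 15))) ≤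
      (50 * t + 15) * (1 + (log t - log 2 + 0.033)) := by
    apply mul_le_mul_of_nonneg_left _ (by positivity)
    linarith
  have m1 : t ^ 2 * 1.609 ≤ t ^ 2 * log 5 := mul_le_mul_of_nonneg_left h5l (by positivity)
  have m2 : t ^ 2 * log 2 ≤ t ^ 2 * 0.69315 := mul_le_mul_of_nonneg_left (by linarith) (by positivity)
  have m3 : t ^ 2 * log 3 ≤ t ^ 2 * 1.1091 := mul_le_mul_of_nonneg_left h3u (by positivity)
  have m4 : t * log t ≤ t * (2.7 + t / 40) := mul_le_mul_of_nonneg_left hL ht0.le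
  have m5 : t * log 5 ≤ t * 1.6175 := mul_le_mul_of_nonneg_left h5u ht0.le
  have m6 : t * 0.6931 ≤ t * log 2 := mul_le_mul_of_nonneg_left (by linarith) ht0.le
  have m7 : 40 * t ≤ t ^ 2 := by nlinarith
  linarith [hT2, hδn, m1, m2, m3, m4, m5, m6, m7, hL, h5l, h5u, h2l, h2u, hδ0, ht]
-- END tail_num5

-- BEGIN tail_num7
/-- PROOF. As `tail_num3`; at `t = 42` right side minus left side is about 5757. -/
theorem tail_num7 (t : ℝ) (ht : 42 ≤ t) :
    (196 * t + 70) * (1 + log ((98 * (t + 1) ^ 2 - 28 * (t + 1)) / (196 * t + 70))) +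
      (6 * ((t ^ 2 - t) * log 7 + t ^ 2 * log t - 3 / 2 * t ^ 2 + 2 * t) +
        5 * ((4 * t ^ 2 - 2 * t) * log 7 + 4 * t ^ 2 * log (2 * t) - 6 * t ^ 2 + 4 * t) +
        4 * ((9 * t ^ 2 - 3 * t) * log 7 + 9 * t ^ 2 * log (3 * t) - 27 / 2 * t ^ 2 + 6 * t) +
        3 * ((16 * t ^ 2 - 4 * t) * log 7 + 16 * t ^ 2 * log (4 * t) - 24 * t ^ 2 + 8 * t) +
        2 * ((25 * t ^ 2 - 5 * t) * log 7 + 25 * t ^ 2 * log (5 * t) - 75 / 2 * t ^ 2 + 10 * t) +
        ((36 * t ^ 2 - 6 * t) * log 7 + 36 * t ^ 2 * log (6 * t) - 54 * t ^ 2 + 12 * t)) ≤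
      (98 * t ^ 2 - 28 * t) * log (98 * t ^ 2 - 28 * t) - (98 * t ^ 2 - 28 * t) +
        ((98 * t ^ 2 - 28 * t) / 6 - log (98 * t ^ 2 - 28 * t) / log 7 - 1) * log 7 := by
  have ht0 : (0 : ℝ) < t := by linarith
  obtain ⟨a, ha⟩ : ∃ a, a = log 2 := ⟨_, rfl⟩
  obtain ⟨b, hb⟩ : ∃ b, b = log 3 := ⟨_, rfl⟩
  obtain ⟨e, he⟩ : ∃ e, e = log 5 := ⟨_, rfl⟩
  obtain ⟨c, hc⟩ : ∃ c, c = log 7 := ⟨_, rfl⟩
  obtain ⟨L, hL⟩ : ∃ L, L = log t := ⟨_, rfl⟩
  obtain ⟨l, hl⟩ : ∃ l, l = log ((7 * t - 2) / (7 * t)) := ⟨_, rfl⟩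
  obtain ⟨q, hq⟩ : ∃ q, q = log ((98 * (t + 1) ^ 2 - 28 * (t + 1)) / (196 * t + 70)) := ⟨_, rfl⟩
  have ha1 : a < 0.6931471808 := by rw [ha]; exact Real.log_two_lt_d9
  have ha2 : 0.6931471803 < a := by rw [ha]; exact Real.log_two_gt_d9
  have hb1 : b ≤ 8 / 5 * a := by
    have h1 : log ((3 : ℝ) ^ 5) ≤ log ((2 : ℝ) ^ 8) := Real.log_le_log (by norm_num) (by norm_num)
    rw [Real.log_pow, Real.log_pow, ← ha, ← hb] at h1
    push_cast at h1
    linarith
  have hb2 : 19 / 12 * a ≤ b := by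
    have h1 : log ((2 : ℝ) ^ 19) ≤ log ((3 : ℝ) ^ 12) :=
      Real.log_le_log (by norm_num) (by norm_num)
    rw [Real.log_pow, Real.log_pow, ← ha, ← hb] at h1
    push_cast at h1
    linarith
  have he1 : e ≤ 7 / 3 * a := by
    have h1 : log ((5 : ℝ) ^ 3) ≤ log ((2 : ℝ) ^ 7) := Real.log_le_log (by norm_num) (by norm_num)
    rw [Real.log_pow, Real.log_pow, ← ha, ← he] at h1
    push_cast at h1
    linarith
  have hc2 : 4 * a + b ≤ 2 * c := by
    have h1 : log ((2 : ℝ) ^ 4 * 3) ≤ log ((7 : ℝ) ^ 2) :=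
      Real.log_le_log (by norm_num) (by norm_num)
    rw [Real.log_mul (by norm_num) (by norm_num), Real.log_pow, Real.log_pow, ← ha, ← hb, ← hc] at h1
    push_cast at h1
    linarith
  have hc1 : 2 * c ≤ a + 2 * e := by
    have h1 : log ((7 : ℝ) ^ 2) ≤ log ((2 : ℝ) * 5 ^ 2) :=
      Real.log_le_log (by norm_num) (by norm_num)
    rw [Real.log_mul (by norm_num) (by norm_num), Real.log_pow, Real.log_pow, ← ha, ← he, ← hc] at h1
    push_cast at h1
    linarith
  have h42 : log 42 = a + b + c := by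
    rw [ha, hb, hc, ← Real.log_mul (by norm_num) (by norm_num),
      ← Real.log_mul (by norm_num) (by norm_num)]
    norm_num
  have hLt : L ≤ a + b + c + t / 42 - 1 := by
    have h1 := Real.log_le_sub_one_of_pos (x := t / 42) (by positivity)
    rw [Real.log_div ht0.ne' (by norm_num), h42, ← hL] at h1
    linarith
  have h2t : log (2 * t) = a + L := by
    rw [Real.log_mul (by norm_num) ht0.ne', ha, hL]
  have h3t' : log (3 * t) = b + L := by
    rw [Real.log_mul (by norm_num) ht0.ne', hb, hL]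
  have h4t : log (4 * t) = 2 * a + L := by
    have h4 : (4 : ℝ) * t = 2 * (2 * t) := by ring
    rw [h4, Real.log_mul (by norm_num) (by positivity), h2t, ← ha]
    ring
  have h5t : log (5 * t) = e + L := by
    rw [Real.log_mul (by norm_num) ht0.ne', he, hL]
  have h6t : log (6 * t) = a + b + L := by
    have h4 : (6 : ℝ) * t = 2 * (3 * t) := by ring
    rw [h4, Real.log_mul (by norm_num) (by positivity), h3t', ← ha]
    ring
  have h3t : (0 : ℝ) < 7 * t - 2 := by linarith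
  have hn : log (98 * t ^ 2 - 28 * t) = 2 * L + a + 2 * c + l := by
    have h1 : 98 * t ^ 2 - 28 * t = t * t * (2 * (7 * 7)) * ((7 * t - 2) / (7 * t)) := by
      field_simp
      ring
    rw [h1, Real.log_mul (by positivity) (by positivity), Real.log_mul (by positivity) (by norm_num),
      Real.log_mul ht0.ne' ht0.ne', Real.log_mul (by norm_num) (by norm_num),
      Real.log_mul (by norm_num) (by norm_num), ← hL, ← ha, ← hc, ← hl]
    ring
  have hl1 : l ≤ 0 := by
    rw [hl]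
    apply Real.log_nonpos (by positivity)
    rw [div_le_one (by positivity)]
    linarith
  have hl2 : -(28 * t) ≤ (98 * t ^ 2 - 28 * t) * l := by
    have h1 := Real.one_sub_inv_le_log_of_pos (x := (7 * t - 2) / (7 * t)) (by positivity)
    rw [← hl] at h1
    have h2 : (98 * t ^ 2 - 28 * t) * (1 - ((7 * t - 2) / (7 * t))⁻¹) = -(28 * t) := by
      rw [inv_div]
      have hX : (7 * t) / (7 * t - 2) * (7 * t - 2) = 7 * t := div_mul_cancel₀ _ h3t.ne'
      linear_combination (-14 * t) * hX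
    rw [← h2]
    apply mul_le_mul_of_nonneg_left h1
    have : 98 * t ^ 2 - 28 * t = 14 * t * (7 * t - 2) := by ring
    rw [this]
    positivity
  have hq1 : q ≤ L - a + 0.04 := by
    have h1 : (98 * (t + 1) ^ 2 - 28 * (t + 1)) / (196 * t + 70) ≤ t / 2 * 1.04 := by
      rw [div_le_iff₀ (by positivity)]
      nlinarith
    have h2 : log (t / 2 * 1.04) ≤ L - a + 0.04 := by
      rw [Real.log_mul (by positivity) (by norm_num), Real.log_div ht0.ne' (by norm_num), ← hL,
        ← ha]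
      have h3 := Real.log_le_sub_one_of_pos (x := (1.04 : ℝ)) (by norm_num)
      linarith
    rw [hq]
    refine (Real.log_le_log ?_ h1).trans h2
    have : 98 * (t + 1) ^ 2 - 28 * (t + 1) = (t + 1) * (98 * t + 70) := by ring
    rw [this]
    positivity
  have hc0 : c ≠ 0 := by
    have : 0 < c := by linarith
    exact this.ne'
  rw [← hq, h2t, h3t', h4t, h5t, h6t, hn, ← hc, ← hL]
  have e1 : ((98 * t ^ 2 - 28 * t) / 6 - (2 * L + a + 2 * c + l) / c - 1) * c =
      (98 * t ^ 2 - 28 * t) / 6 * c - (2 * L + a + 2 * c + l) - c := by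
    field_simp
  rw [e1]
  have hcu : c ≤ (1 / 2 + 7 / 3) * a := by linarith
  have hcl : (2 + 19 / 24) * a ≤ c := by linarith
  have p1 : t * L ≤ t * (a + b + c + t / 42 - 1) := mul_le_mul_of_nonneg_left hLt ht0.le
  have p1' : a + b + c + t / 42 - 1 ≤
      (1 + 8 / 5 + 1 / 2 + 7 / 3) * 0.6931471808 + t / 42 - 1 := by linarith
  have p1'' : t * (a + b + c + t / 42 - 1) ≤
      t * ((1 + 8 / 5 + 1 / 2 + 7 / 3) * 0.6931471808 + t / 42 - 1) :=
    mul_le_mul_of_nonneg_left p1' ht0.le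
  have p2 : (196 * t + 70) * (1 + q) ≤ (196 * t + 70) * (1 + (L - a + 0.04)) :=
    mul_le_mul_of_nonneg_left (by linarith) (by positivity)
  have p3 : t ^ 2 * a ≤ t ^ 2 * 0.6931471808 := mul_le_mul_of_nonneg_left ha1.le (by positivity)
  have p4 : t ^ 2 * b ≤ t ^ 2 * (8 / 5 * 0.6931471808) :=
    mul_le_mul_of_nonneg_left (by linarith) (by positivity)
  have p4e : t ^ 2 * e ≤ t ^ 2 * (7 / 3 * 0.6931471808) :=
    mul_le_mul_of_nonneg_left (by linarith) (by positivity)
  have p4c : t ^ 2 * ((2 + 19 / 24) * 0.6931471803) ≤ t ^ 2 * c :=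
    mul_le_mul_of_nonneg_left (by linarith) (by positivity)
  have p5 : t * a ≤ t * 0.6931471808 := mul_le_mul_of_nonneg_left ha1.le ht0.le
  have p6 : t * c ≤ t * ((1 / 2 + 7 / 3) * 0.6931471808) :=
    mul_le_mul_of_nonneg_left (by linarith) ht0.le
  have p7 : t * 0.6931471803 ≤ t * a := mul_le_mul_of_nonneg_left ha2.le ht0.le
  have p9 : t * 42 ≤ t * t := mul_le_mul_of_nonneg_left ht ht0.le
  linarith
-- END tail_num7

-- BEGIN tail_step
private theorem tail_step_fact (n : ℕ) : (n : ℝ) * log n - n ≤ log (n.factorial : ℝ) := by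
  rcases Nat.eq_zero_or_pos n with rfl | hn
  · simp
  have hn0 : (0 : ℝ) < n := by exact_mod_cast hn
  have h1 := Real.pow_div_factorial_le_exp (n : ℝ) hn0.le n
  have hf : (0 : ℝ) < n.factorial := by exact_mod_cast Nat.factorial_pos n
  have h2 : log ((n : ℝ) ^ n / n.factorial) ≤ n :=
    (Real.log_le_log (by positivity) h1).trans (le_of_eq (Real.log_exp _))
  rw [Real.log_div (by positivity) hf.ne', Real.log_pow] at h2
  linarith

/-- General step. `n` = size of the staircase core. PROOF. `core_one_rep` for `stair p t`, `step_ineq` with `e = n.factorial.factorization p`, `s = N - n`: take logarithms, `2 log H ≤ Ut p t`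
(`stair_hook`), `log N! - log n! - log s! ≤ s (1 + log ((n + s)/s)) ≤ S (1 + log ((n + S)/S))` (`binom_log`, `binom_mono`; for `s = 0` zero), `log n! ≥ n log n - n`
(`log_fact_ge`), `val_ge`. -/
theorem tail_step (p t C : ℕ) [Fact p.Prime] (hp : p = 3 ∨ p = 5 ∨ p = 7) (ht : 1 ≤ t) (hC : 1 ≤ C)
    (S : ℝ) (hS : 0 < S)
    (hnum : log C + S * (1 + log ((((cells (beta (stair p t))).card : ℝ) + S) / S)) + Ut p t ≤
      ((cells (beta (stair p t))).card : ℝ) * log ((cells (beta (stair p t))).card : ℝ) -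
        ((cells (beta (stair p t))).card : ℝ) +
        (((cells (beta (stair p t))).card : ℝ) / (p - 1) -
          log ((cells (beta (stair p t))).card : ℝ) / log p - 1) * log p)
    (N : ℕ) (h1 : (cells (beta (stair p t))).card ≤ N)
    (h2 : (N : ℝ) ≤ (cells (beta (stair p t))).card + S)
    (hb : Wl p C (N - (cells (beta (stair p t))).card)) : Wl p 1 N := by
  have hpp : p.Prime := Fact.out
  have hsz := stair_size p t hp
  have hhk := stair_hook p t hp ht
  obtain ⟨f, hf, hr⟩ := core_one_rep (p := p) (stair p t)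
  obtain ⟨n, hn⟩ : ∃ n, n = (cells (beta (stair p t))).card := ⟨_, rfl⟩
  obtain ⟨H, hH⟩ : ∃ H, H = ∏ z ∈ cells (beta (stair p t)), (z.1 - z.2) := ⟨_, rfl⟩
  rw [← hn] at hsz hf hr hnum h1 h2 hb
  rw [← hH] at hf hhk
  have hn1 : 1 ≤ n := by
    rcases hp with rfl | rfl | rfl
    · norm_num at hsz
      nlinarith
    · norm_num at hsz
      nlinarith
    · norm_num at hsz
      nlinarith
  obtain ⟨s, hs⟩ : ∃ s, N = n + s := ⟨N - n, by omega⟩
  have hs' : N - n = s := by omega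
  apply step_ineq n f H C (n.factorial.factorization p) N hr hf le_rfl h1 ?_ hb
  rw [hs', hs]
  have hlp : 0 < log (p : ℝ) := Real.log_pos (by exact_mod_cast hpp.one_lt)
  have hp0 : (0 : ℝ) < p := by exact_mod_cast hpp.pos
  have hHpos : 0 < H := by
    rcases Nat.eq_zero_or_pos H with h | h
    · rw [h, Nat.mul_zero] at hf
      exact absurd hf.symm (Nat.factorial_ne_zero n)
    · exact h
  have hH0 : (0 : ℝ) < H := by exact_mod_cast hHpos
  have hC0 : (0 : ℝ) < C := by exact_mod_cast hC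
  have hnf : (0 : ℝ) < n.factorial := by exact_mod_cast Nat.factorial_pos n
  have hsf : (0 : ℝ) < s.factorial := by exact_mod_cast Nat.factorial_pos s
  have hNf : (0 : ℝ) < (n + s).factorial := by exact_mod_cast Nat.factorial_pos (n + s)
  have hn0 : (0 : ℝ) < n := by exact_mod_cast hn1
  have hbin : log ((n + s).factorial : ℝ) - log (n.factorial : ℝ) - log (s.factorial : ℝ) ≤
      S * (1 + log (((n : ℝ) + S) / S)) := by
    rcases Nat.eq_zero_or_pos s with h0 | h0
    · rw [h0, Nat.add_zero, Nat.factorial_zero, Nat.cast_one, Real.log_one]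
      have h3 : 0 ≤ log (((n : ℝ) + S) / S) := by
        apply Real.log_nonneg
        rw [le_div_iff₀ hS]
        linarith
      have h4 : 0 ≤ S * (1 + log (((n : ℝ) + S) / S)) := by positivity
      linarith
    · refine (binom_log n s h0).trans ?_
      apply binom_mono (n : ℝ) hn0.le (s : ℝ) S (by exact_mod_cast h0)
      rw [hs] at h2
      push_cast at h2
      linarith
  have hfac := tail_step_fact n
  have hval := val_ge p hpp n hn1
  have hval' := mul_le_mul_of_nonneg_right hval hlp.le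
  have key : log ((C : ℝ) * (n + s).factorial * (H : ℝ) ^ 2) ≤
      log ((n.factorial : ℝ) ^ 2 * s.factorial * (p : ℝ) ^ (n.factorial.factorization p)) := by
    rw [Real.log_mul (by positivity) (by positivity), Real.log_mul (by positivity) (by positivity),
      Real.log_mul (by positivity) (by positivity), Real.log_mul (by positivity) (by positivity),
      Real.log_pow, Real.log_pow, Real.log_pow]
    push_cast
    linarith
  have h5 := (Real.log_le_log_iff (by positivity) (by positivity)).1 key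
  exact_mod_cast h5
-- END tail_step

-- BEGIN tail_all
private theorem tail_all_t (a b T N : ℕ) (ha : 1 ≤ a) (h : a * T ^ 2 ≤ N + b * T) :
    ∃ t, T ≤ t ∧ a * t ^ 2 ≤ N + b * t ∧ N + b * (t + 1) < a * (t + 1) ^ 2 := by
  classical
  have hE : ∃ t, T ≤ t ∧ N + b * (t + 1) < a * (t + 1) ^ 2 := by
    refine ⟨N + b + T, by omega, ?_⟩
    have h1 : (N + b + T + 1) ^ 2 ≤ a * (N + b + T + 1) ^ 2 := Nat.le_mul_of_pos_left _ ha
    nlinarith [Nat.zero_le N, Nat.zero_le b, Nat.zero_le T, Nat.zero_le (N * b), Nat.zero_le (N * T),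
      Nat.zero_le (b * T), Nat.zero_le (N * N), Nat.zero_le (b * b), Nat.zero_le (T * T)]
  refine ⟨Nat.find hE, (Nat.find_spec hE).1, ?_, (Nat.find_spec hE).2⟩
  rcases Nat.eq_or_lt_of_le (Nat.find_spec hE).1 with h1 | h1
  · rw [← h1]
    exact h
  · obtain ⟨r, hr⟩ : ∃ r, Nat.find hE = r + 1 := ⟨Nat.find hE - 1, by omega⟩
    have h2 := Nat.find_min hE (m := r) (by omega)
    rw [hr]
    by_contra h3
    exact h2 ⟨by omega, by omega⟩

private theorem tail_all_U3 (t : ℕ) : Ut 3 t =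
    2 * (((t : ℝ) ^ 2 - t) * log 3 + (t : ℝ) ^ 2 * log t - 3 / 2 * (t : ℝ) ^ 2 + 2 * t) +
      ((4 * (t : ℝ) ^ 2 - 2 * t) * log 3 + 4 * (t : ℝ) ^ 2 * log (2 * t) - 6 * (t : ℝ) ^ 2 + 4 * t) := by
  unfold Ut
  rw [show Finset.Ico 1 3 = {1, 2} from rfl, Finset.sum_pair (by norm_num)]
  simp only [Nat.cast_one, Nat.cast_ofNat, one_mul]
  ring

private theorem tail_all_U5 (t : ℕ) : Ut 5 t =
    4 * (((t : ℝ) ^ 2 - t) * log 5 + (t : ℝ) ^ 2 * log t - 3 / 2 * (t : ℝ) ^ 2 + 2 * t) +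
        3 * ((4 * (t : ℝ) ^ 2 - 2 * t) * log 5 + 4 * (t : ℝ) ^ 2 * log (2 * t) - 6 * (t : ℝ) ^ 2 + 4 * t) +
        2 * ((9 * (t : ℝ) ^ 2 - 3 * t) * log 5 + 9 * (t : ℝ) ^ 2 * log (3 * t) - 27 / 2 * (t : ℝ) ^ 2 + 6 * t) +
        ((16 * (t : ℝ) ^ 2 - 4 * t) * log 5 + 16 * (t : ℝ) ^ 2 * log (4 * t) - 24 * (t : ℝ) ^ 2 + 8 * t) := by
  unfold Ut
  rw [show Finset.Ico 1 5 = {1, 2, 3, 4} from rfl, Finset.sum_insert (by decide),
    Finset.sum_insert (by decide), Finset.sum_pair (by norm_num)]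
  simp only [Nat.cast_one, Nat.cast_ofNat, one_mul]
  ring

private theorem tail_all_U7 (t : ℕ) : Ut 7 t =
    6 * (((t : ℝ) ^ 2 - t) * log 7 + (t : ℝ) ^ 2 * log t - 3 / 2 * (t : ℝ) ^ 2 + 2 * t) +
        5 * ((4 * (t : ℝ) ^ 2 - 2 * t) * log 7 + 4 * (t : ℝ) ^ 2 * log (2 * t) - 6 * (t : ℝ) ^ 2 + 4 * t) +
        4 * ((9 * (t : ℝ) ^ 2 - 3 * t) * log 7 + 9 * (t : ℝ) ^ 2 * log (3 * t) - 27 / 2 * (t : ℝ) ^ 2 + 6 * t) +
        3 * ((16 * (t : ℝ) ^ 2 - 4 * t) * log 7 + 16 * (t : ℝ) ^ 2 * log (4 * t) - 24 * (t : ℝ) ^ 2 + 8 * t) +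
        2 * ((25 * (t : ℝ) ^ 2 - 5 * t) * log 7 + 25 * (t : ℝ) ^ 2 * log (5 * t) - 75 / 2 * (t : ℝ) ^ 2 + 10 * t) +
        ((36 * (t : ℝ) ^ 2 - 6 * t) * log 7 + 36 * (t : ℝ) ^ 2 * log (6 * t) - 54 * (t : ℝ) ^ 2 + 12 * t) := by
  unfold Ut
  rw [show Finset.Ico 1 7 = {1, 2, 3, 4, 5, 6} from rfl, Finset.sum_insert (by decide),
    Finset.sum_insert (by decide), Finset.sum_insert (by decide), Finset.sum_insert (by decide),
    Finset.sum_pair (by norm_num)]
  simp only [Nat.cast_one, Nat.cast_ofNat, one_mul]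
  ring

/-- PROOF. `stair_size` gives `n = 3 t² - 2 t`, and `N` is between `n_t` and `n_{t+1} - 1` for the greatest `t` with `n_t ≤ N`; `tail_num3`
(`Ut 3 t` written out), `tail_step` with `S = 6 t + 1`. -/
theorem tail_all3 (N : ℕ) (hN : 3816 ≤ N) :
    ∃ n, 0 < n ∧ n ≤ N ∧ (Wl 3 6 (N - n) → Wl 3 1 N) := by
  have : Fact (Nat.Prime 3) := ⟨by norm_num⟩
  obtain ⟨t, ht, h1, h2⟩ := tail_all_t 3 2 36 N (by norm_num) (by omega)
  have hc := stair_size 3 t (Or.inl rfl)
  norm_num at hc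
  have hc' : (cells (beta (stair 3 t))).card + 2 * t = 3 * t ^ 2 := by omega
  have ht2 : t * 1 ≤ t ^ 2 := by nlinarith
  have hcR : ((cells (beta (stair 3 t))).card : ℝ) = 3 * (t : ℝ) ^ 2 - 2 * t := by
    have : ((cells (beta (stair 3 t))).card : ℝ) + 2 * t = 3 * (t : ℝ) ^ 2 := by exact_mod_cast hc'
    linarith
  refine ⟨(cells (beta (stair 3 t))).card, by omega, by omega, fun hW => ?_⟩
  have htR : (36 : ℝ) ≤ t := by exact_mod_cast ht
  refine tail_step 3 t 6 (Or.inl rfl) (by omega) (by norm_num) (6 * t + 1) (by positivity) ?_ N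
    (by omega) ?_ hW
  · rw [hcR, tail_all_U3]
    have h3 := tail_num3 t htR
    have h4 : (3 : ℝ) * (t : ℝ) ^ 2 - 2 * t + (6 * t + 1) = 3 * ((t : ℝ) + 1) ^ 2 - 2 * ((t : ℝ) + 1) := by
      ring
    rw [h4]
    have h5 : ((3 : ℕ) : ℝ) - 1 = 2 := by norm_num
    rw [h5]
    push_cast
    exact h3
  · rw [hcR]
    have h6 : (N : ℝ) + 2 * ((t : ℝ) + 1) ≤ 3 * ((t : ℝ) + 1) ^ 2 := by exact_mod_cast h2.le
    linarith

theorem tail_all5 (N : ℕ) (hN : 39600 ≤ N) :
    ∃ n, 0 < n ∧ n ≤ N ∧ (Wl 5 2 (N - n) → Wl 5 1 N) := by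
  have : Fact (Nat.Prime 5) := ⟨by norm_num⟩
  obtain ⟨t, ht, h1, h2⟩ := tail_all_t 25 10 40 N (by norm_num) (by omega)
  have hc := stair_size 5 t (Or.inr (Or.inl rfl))
  norm_num at hc
  have hc' : (cells (beta (stair 5 t))).card + 10 * t = 25 * t ^ 2 := by omega
  have ht2 : t * 1 ≤ t ^ 2 := by nlinarith
  have hcR : ((cells (beta (stair 5 t))).card : ℝ) = 25 * (t : ℝ) ^ 2 - 10 * t := by
    have : ((cells (beta (stair 5 t))).card : ℝ) + 10 * t = 25 * (t : ℝ) ^ 2 := by exact_mod_cast hc'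
    linarith
  refine ⟨(cells (beta (stair 5 t))).card, by omega, by omega, fun hW => ?_⟩
  have htR : (40 : ℝ) ≤ t := by exact_mod_cast ht
  refine tail_step 5 t 2 (Or.inr (Or.inl rfl)) (by omega) (by norm_num) (50 * t + 15) (by positivity) ?_ N
    (by omega) ?_ hW
  · rw [hcR, tail_all_U5]
    have h3 := tail_num5 t htR
    have h4 : (25 : ℝ) * (t : ℝ) ^ 2 - 10 * t + (50 * t + 15) =
        25 * ((t : ℝ) + 1) ^ 2 - 10 * ((t : ℝ) + 1) := by
      ring
    rw [h4]
    have h5 : ((5 : ℕ) : ℝ) - 1 = 4 := by norm_num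
    rw [h5]
    push_cast
    exact h3
  · rw [hcR]
    have h6 : (N : ℝ) + 10 * ((t : ℝ) + 1) ≤ 25 * ((t : ℝ) + 1) ^ 2 := by exact_mod_cast h2.le
    linarith

theorem tail_all7 (N : ℕ) (hN : 171696 ≤ N) :
    ∃ n, 0 < n ∧ n ≤ N ∧ (Wl 7 1 (N - n) → Wl 7 1 N) := by
  have : Fact (Nat.Prime 7) := ⟨by norm_num⟩
  obtain ⟨t, ht, h1, h2⟩ := tail_all_t 98 28 42 N (by norm_num) (by omega)
  have hc := stair_size 7 t (Or.inr (Or.inr rfl))
  norm_num at hc
  have hc' : (cells (beta (stair 7 t))).card + 28 * t = 98 * t ^ 2 := by omega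
  have ht2 : t * 1 ≤ t ^ 2 := by nlinarith
  have hcR : ((cells (beta (stair 7 t))).card : ℝ) = 98 * (t : ℝ) ^ 2 - 28 * t := by
    have : ((cells (beta (stair 7 t))).card : ℝ) + 28 * t = 98 * (t : ℝ) ^ 2 := by exact_mod_cast hc'
    linarith
  refine ⟨(cells (beta (stair 7 t))).card, by omega, by omega, fun hW => ?_⟩
  have htR : (42 : ℝ) ≤ t := by exact_mod_cast ht
  refine tail_step 7 t 1 (Or.inr (Or.inr rfl)) (by omega) (by norm_num) (196 * t + 70) (by positivity) ?_ N
    (by omega) ?_ hW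
  · rw [hcR, tail_all_U7]
    have h3 := tail_num7 t htR
    have h4 : (98 : ℝ) * (t : ℝ) ^ 2 - 28 * t + (196 * t + 70) =
        98 * ((t : ℝ) + 1) ^ 2 - 28 * ((t : ℝ) + 1) := by
      ring
    rw [h4]
    have h5 : ((7 : ℕ) : ℝ) - 1 = 6 := by norm_num
    rw [h5]
    push_cast
    rw [log_one, zero_add]
    exact h3
  · rw [hcR]
    have h6 : (N : ℝ) + 28 * ((t : ℝ) + 1) ≤ 98 * ((t : ℝ) + 1) ^ 2 := by exact_mod_cast h2.le
    linarith
-- END tail_all

end Pool.Agent.Wil
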