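import Mathlib
import Pool.Agent.Wil.Tail
import Pool.Agent.Wil.ChkS
import Pool.Agent.Wil.AnaD

set_option autoImplicit false

/-! Checks with logarithms for large explicit cores. -/

namespace Pool.Agent.Wil

open Real

-- BEGIN lg_le
private theorem lg_le_aux (k x : ℕ) (hx : 1 ≤ x) :
    (Nat.log 2 (x ^ k) : ℝ) * log 2 ≤ k * log x ∧ k * log x ≤ ((Nat.log 2 (x ^ k) : ℝ) + 1) * log 2 := by
  have hne : x ^ k ≠ 0 := pow_ne_zero _ (by omega)
  have h1 : 2 ^ Nat.log 2 (x ^ k) ≤ x ^ k := Nat.pow_log_le_self 2 hne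
  have h2 : x ^ k < 2 ^ (Nat.log 2 (x ^ k) + 1) := Nat.lt_pow_succ_log_self (by norm_num) _
  generalize Nat.log 2 (x ^ k) = L at h1 h2
  have hx0 : (0 : ℝ) < x := by exact_mod_cast hx
  have h1' : (2 : ℝ) ^ L ≤ (x : ℝ) ^ k := by exact_mod_cast h1
  have h2' : (x : ℝ) ^ k ≤ (2 : ℝ) ^ (L + 1) := by exact_mod_cast h2.le
  have h3 := Real.log_le_log (by positivity) h1'
  have h4 := Real.log_le_log (by positivity) h2'
  rw [Real.log_pow, Real.log_pow] at h3 h4
  push_cast at h4
  exact ⟨h3, h4⟩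

/-- PROOF. `Nat.log2_eq_log_two`, `Nat.pow_log_le_self`, `Nat.lt_pow_succ_log_self`: `2 ^ lgA x ≤ x ^ 4096 < 2 ^ (lgA x + 1)`, take logarithms. -/
theorem lg_le (x : ℕ) (hx : 1 ≤ x) :
    (lgA x : ℝ) * log 2 ≤ 4096 * log x ∧ 4096 * log x ≤ ((lgA x : ℝ) + 1) * log 2 := by
  have h := lg_le_aux 4096 x hx
  rw [lgA, Nat.log2_eq_log_two]
  exact_mod_cast h
-- END lg_le

-- BEGIN szA_eq
private theorem szA_eq_sum (f : ℕ → ℕ) (n : ℕ) : sumC f n = ∑ d ∈ Finset.range n, f d := by
  induction n with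
  | zero => rfl
  | succ n ih => rw [Finset.sum_range_succ, ← ih]; rfl

private theorem szA_eq_tri (D : ℕ) : ∑ d ∈ Finset.range D, (D - d) = D * (D + 1) / 2 := by
  have h1 : ∑ d ∈ Finset.range D, (D - d) = ∑ d ∈ Finset.range D, (d + 1) := by
    rw [← Finset.sum_range_reflect (fun d => d + 1) D]
    refine Finset.sum_congr rfl fun d hd => ?_
    have := Finset.mem_range.1 hd
    omega
  have h2 := Finset.sum_range_id_mul_two D
  have h3 : (∑ d ∈ Finset.range D, (d + 1)) * 2 = D * (D + 1) := by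
    rw [Finset.sum_add_distrib, add_mul, h2, Finset.sum_const, Finset.card_range, smul_eq_mul]
    rcases Nat.eq_zero_or_pos D with h | h
    · subst h
      rfl
    · obtain ⟨k, rfl⟩ := Nat.exists_eq_succ_of_ne_zero h.ne'
      simp only [Nat.succ_eq_add_one, Nat.add_sub_cancel]
      ring
  rw [h1, ← h3, Nat.mul_div_cancel _ (by norm_num)]

private theorem szA_eq_tri' (D : ℕ) :
    ∑ d ∈ Finset.range D, (if 0 < d then D - d else 0) = D * (D - 1) / 2 := by
  rcases Nat.eq_zero_or_pos D with h | h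
  · subst h
    rfl
  · obtain ⟨k, rfl⟩ := Nat.exists_eq_succ_of_ne_zero h.ne'
    rw [Nat.succ_eq_add_one, Finset.sum_range_succ', if_neg (lt_irrefl 0), add_zero,
      Nat.add_sub_cancel, mul_comm, ← szA_eq_tri k]
    refine Finset.sum_congr rfl fun d _ => ?_
    rw [if_pos (Nat.succ_pos d)]
    omega

/-- PROOF. Row by row: `∑_{d < D} (D - d) = D (D + 1) / 2` (case `j < i`), `∑_{0 < d < D} (D - d) = D (D - 1) / 2`; `sumC f n = ∑ d ∈ range n, f d` by induction. -/
theorem szA_eq (p : ℕ) (m : List ℕ) : szA p m = szC p m := by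
  unfold szA szC
  congr 1
  funext i
  congr 1
  funext j
  rw [szA_eq_sum]
  by_cases h : j < i
  · rw [if_pos h, ← szA_eq_tri]
    refine Finset.sum_congr rfl fun d _ => ?_
    rw [if_pos (Or.inl h)]
  · rw [if_neg h, ← szA_eq_tri']
    refine Finset.sum_congr rfl fun d _ => ?_
    by_cases hd : 0 < d
    · rw [if_pos hd, if_pos (Or.inr hd)]
    · rw [if_neg hd, if_neg (fun h' => h'.elim h hd)]
-- END szA_eq

/-- Upper bound for twice the logarithm of the product of the hooks of one pair of runners. -/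
noncomputable def PA (p E : ℕ) : ℝ :=
  ((E : ℝ) ^ 2 - E) * log p + (E : ℝ) ^ 2 * log E - 3 / 2 * (E : ℝ) ^ 2 + 2 * E

-- BEGIN pair_le
private theorem pair_le_sum (D : ℕ) : ∑ d ∈ Finset.range D, ((D : ℝ) - d) = (D : ℝ) * (D + 1) / 2 := by
  induction D with
  | zero => simp
  | succ D ih =>
    rw [Finset.sum_range_succ]
    have h1 : ∑ d ∈ Finset.range D, (((D + 1 : ℕ) : ℝ) - d) = ∑ d ∈ Finset.range D, ((D : ℝ) - d) + D := by
      have h2 : ∀ d ∈ Finset.range D, (((D + 1 : ℕ) : ℝ) - d) = ((D : ℝ) - d) + 1 := by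
        intro d _
        push_cast
        ring
      rw [Finset.sum_congr rfl h2, Finset.sum_add_distrib, Finset.sum_const, Finset.card_range, nsmul_eq_mul,
        mul_one]
    rw [h1, ih]
    push_cast
    ring

private theorem pair_le_sum0 (D : ℕ) :
    ∑ d ∈ Finset.range D, (if 0 < d then ((D : ℝ) - d) else 0) = ((D : ℝ) ^ 2 - D) / 2 := by
  have h1 : ∀ d ∈ Finset.range D, (if 0 < d then ((D : ℝ) - d) else 0) =
      ((D : ℝ) - d) - (if d = 0 then (D : ℝ) else 0) := by
    intro d _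
    rcases Nat.eq_zero_or_pos d with h | h
    · subst h
      simp
    · rw [if_pos h, if_neg (by omega), sub_zero]
  rw [Finset.sum_congr rfl h1, Finset.sum_sub_distrib, pair_le_sum, Finset.sum_ite_eq']
  rcases Nat.eq_zero_or_pos D with h | h
  · subst h
    simp
  · rw [if_pos (Finset.mem_range.2 h)]
    ring

/-- PROOF. `i ≤ j`: as `stair_hook_inner` (Tail.lean, inside `stair_hook`): hooks `d p - (j - i) ≤ d p`, `LM_le D`. `j < i`: hooks `d p + (i - j) ≤ (d + 1) p`, so the sum is at most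
`2 ∑_{d < D} (D - d) (log p + log (d + 1)) = 2 ∑_{d' < D + 1} ((D + 1) - d') log d' + ((D + 1)² - (D + 1)) log p` (`d' = d + 1`), `LM_le (D + 1)`. `D = 0`: both sides zero. -/
theorem pair_le (p i j D : ℕ) (hi : i < p) (hj : j < p) :
    2 * ∑ d ∈ Finset.range D,
        log (((if j < i ∨ 0 < d then (d * p + i - j) ^ (D - d) else 1 : ℕ) : ℝ)) ≤
      PA p (eA i j D) := by
  rcases Nat.eq_zero_or_pos D with hD0 | hD1
  · subst hD0
    simp [PA, eA]
  have hp0 : 0 < p := by omega
  by_cases hij : j < i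
  · have he : eA i j D = D + 1 := by
      rw [eA, if_pos ⟨hij, hD1⟩]
    rw [he]
    have hstep : ∀ d ∈ Finset.range D,
        log (((if j < i ∨ 0 < d then (d * p + i - j) ^ (D - d) else 1 : ℕ) : ℝ)) ≤
          (((D + 1 : ℕ) : ℝ) - ((d + 1 : ℕ) : ℝ)) * log ((d + 1 : ℕ) : ℝ) + ((D : ℝ) - d) * log p := by
      intro d hd
      have hd' := Finset.mem_range.1 hd
      rw [if_pos (Or.inl hij)]
      have h2 : ((D - d : ℕ) : ℝ) = (D : ℝ) - d := by
        rw [Nat.cast_sub hd'.le]
      have h3 : 0 < d * p + i - j := by omega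
      have h4 : ((d * p + i - j : ℕ) : ℝ) ≤ ((d + 1 : ℕ) : ℝ) * p := by
        have : d * p + i - j ≤ (d + 1) * p := by
          rw [Nat.add_mul]
          omega
        exact_mod_cast this
      have h5 : log ((d * p + i - j : ℕ) : ℝ) ≤ log ((d + 1 : ℕ) : ℝ) + log p := by
        rw [← Real.log_mul (by positivity) (by positivity)]
        exact Real.log_le_log (by exact_mod_cast h3) h4
      have h6 : (0 : ℝ) ≤ (D : ℝ) - d := by
        rw [← h2]
        positivity
      rw [Nat.cast_pow, Real.log_pow, h2]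
      have h7 := mul_le_mul_of_nonneg_left h5 h6
      have h8 : (((D + 1 : ℕ) : ℝ) - ((d + 1 : ℕ) : ℝ)) = (D : ℝ) - d := by
        push_cast
        ring
      rw [h8]
      linarith
    have h7 := Finset.sum_le_sum hstep
    rw [Finset.sum_add_distrib, ← Finset.sum_mul, pair_le_sum] at h7
    have h8 := LM_le (D + 1) (by omega)
    rw [Finset.sum_range_succ'] at h8
    simp only [Nat.cast_zero, Real.log_zero, mul_zero, add_zero] at h8
    unfold PA
    push_cast at h7 h8 ⊢
    linarith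
  · have he : eA i j D = D := by
      rw [eA, if_neg (fun h => hij h.1)]
    rw [he]
    have hstep : ∀ d ∈ Finset.range D,
        log (((if j < i ∨ 0 < d then (d * p + i - j) ^ (D - d) else 1 : ℕ) : ℝ)) ≤
          ((D : ℝ) - d) * log d + (if 0 < d then ((D : ℝ) - d) else 0) * log p := by
      intro d hd
      have hd' := Finset.mem_range.1 hd
      rcases Nat.eq_zero_or_pos d with h0 | h0
      · subst h0
        have h1 : ¬ (j < i ∨ 0 < 0) := by omega
        rw [if_neg h1]
        simp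
      · rw [if_pos (Or.inr h0), if_pos h0]
        have h2 : ((D - d : ℕ) : ℝ) = (D : ℝ) - d := by
          rw [Nat.cast_sub hd'.le]
        have h3 : 0 < d * p + i - j := by
          have : p ≤ d * p := Nat.le_mul_of_pos_left p h0
          omega
        have h4 : ((d * p + i - j : ℕ) : ℝ) ≤ (d : ℝ) * p := by
          have : d * p + i - j ≤ d * p := by omega
          exact_mod_cast this
        have h5 : log ((d * p + i - j : ℕ) : ℝ) ≤ log d + log p := by
          rw [← Real.log_mul (by positivity) (by positivity)]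
          exact Real.log_le_log (by exact_mod_cast h3) h4
        have h6 : (0 : ℝ) ≤ (D : ℝ) - d := by
          rw [← h2]
          positivity
        rw [Nat.cast_pow, Real.log_pow, h2]
        nlinarith [mul_le_mul_of_nonneg_left h5 h6]
    have h7 := Finset.sum_le_sum hstep
    rw [Finset.sum_add_distrib, ← Finset.sum_mul, pair_le_sum0] at h7
    have h8 := LM_le D hD1
    unfold PA
    linarith
-- END pair_le

-- BEGIN hook_le
/-- PROOF. `hkC_eq` and `prod_cells_beta` (Chk.lean), as in `stair_hook` (Tail.lean): logarithm of the triple product, `pair_le` for every pair. -/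
theorem hook_le (p : ℕ) (m : List ℕ) :
    2 * log ((hkC p m : ℕ) : ℝ) ≤
      ∑ i ∈ Finset.range p, ∑ j ∈ Finset.range p, PA p (eA i j (m.getD i 0 - m.getD j 0)) := by
  have hpr := prod_cells_beta (fun i : Fin p => m.getD i 0) (fun n : ℕ => n)
  have hne : ∀ i j : Fin p, ∀ d : ℕ,
      (if (j : ℕ) < (i : ℕ) ∨ 0 < d then
        (d * p + (i : ℕ) - (j : ℕ)) ^ (m.getD i 0 - m.getD j 0 - d) else 1) ≠ 0 := by
    intro i j d
    have hi := i.isLt
    have hj := j.isLt
    split_ifs with h
    · apply pow_ne_zero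
      rcases h with h | h
      · omega
      · have : p ≤ d * p := Nat.le_mul_of_pos_left p h
        omega
    · exact one_ne_zero
  have hlog : log ((hkC p m : ℕ) : ℝ) =
      ∑ i : Fin p, ∑ j : Fin p, ∑ d ∈ Finset.range (m.getD i 0 - m.getD j 0),
        log (((if (j : ℕ) < (i : ℕ) ∨ 0 < d then
          (d * p + (i : ℕ) - (j : ℕ)) ^ (m.getD i 0 - m.getD j 0 - d) else 1 : ℕ) : ℝ)) := by
    rw [hkC_eq, hpr, Nat.cast_prod, Real.log_prod]
    · refine Finset.sum_congr rfl fun i _ => ?_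
      rw [Nat.cast_prod, Real.log_prod]
      · refine Finset.sum_congr rfl fun j _ => ?_
        rw [Nat.cast_prod, Real.log_prod]
        intro d _
        exact_mod_cast hne i j d
      · intro j _
        rw [Nat.cast_ne_zero]
        exact Finset.prod_ne_zero_iff.2 fun d _ => hne i j d
    · intro i _
      rw [Nat.cast_ne_zero]
      exact Finset.prod_ne_zero_iff.2 fun j _ => Finset.prod_ne_zero_iff.2 fun d _ => hne i j d
  rw [hlog, Finset.mul_sum, Finset.sum_range]
  refine Finset.sum_le_sum fun i _ => ?_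
  rw [Finset.mul_sum, Finset.sum_range]
  refine Finset.sum_le_sum fun j _ => ?_
  exact pair_le p i j _ i.isLt j.isLt
-- END hook_le

-- BEGIN chkA_step
private theorem chkA_step_sumC (f : ℕ → ℕ) (n : ℕ) : sumC f n = ∑ d ∈ Finset.range n, f d := by
  induction n with
  | zero => simp [sumC]
  | succ n ih => rw [Finset.sum_range_succ, ← ih, sumC]

private theorem chkA_step_pairA (p : ℕ) (m : List ℕ) (F : ℕ → ℕ) :
    ((pairA p m F : ℕ) : ℝ) =
      ∑ i ∈ Finset.range p, ∑ j ∈ Finset.range p, ((F (eA i j (m.getD i 0 - m.getD j 0)) : ℕ) : ℝ) := by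
  rw [pairA, chkA_step_sumC, Nat.cast_sum]
  refine Finset.sum_congr rfl fun i _ => ?_
  rw [chkA_step_sumC, Nat.cast_sum]

private theorem chkA_step_fact (n : ℕ) : (n : ℝ) * log n - n ≤ log (n.factorial : ℝ) := by
  rcases Nat.eq_zero_or_pos n with rfl | hn
  · simp
  have hn0 : (0 : ℝ) < n := by exact_mod_cast hn
  have h1 := Real.pow_div_factorial_le_exp (n : ℝ) hn0.le n
  have hf : (0 : ℝ) < n.factorial := by exact_mod_cast Nat.factorial_pos n
  have h2 : log ((n : ℝ) ^ n / n.factorial) ≤ n :=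
    (Real.log_le_log (by positivity) h1).trans (le_of_eq (Real.log_exp _))
  rw [Real.log_div (by positivity) hf.ne', Real.log_pow] at h2
  linarith

private theorem chkA_step_binom (n s : ℕ) (hn : 1 ≤ n) (hs : 1 ≤ s) :
    log ((n + s).factorial : ℝ) + ((n : ℝ) * log n + (s : ℝ) * log s) ≤
      ((n + s : ℕ) : ℝ) * log ((n + s : ℕ) : ℝ) + (log (n.factorial : ℝ) + log (s.factorial : ℝ)) := by
  have h := binom_pow n s
  have hn0 : (0 : ℝ) < n := by exact_mod_cast hn
  have hs0 : (0 : ℝ) < s := by exact_mod_cast hs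
  have hns0 : (0 : ℝ) < ((n + s : ℕ) : ℝ) := by exact_mod_cast (by omega : 0 < n + s)
  have hnf : (0 : ℝ) < n.factorial := by exact_mod_cast Nat.factorial_pos n
  have hsf : (0 : ℝ) < s.factorial := by exact_mod_cast Nat.factorial_pos s
  have hNf : (0 : ℝ) < (n + s).factorial := by exact_mod_cast Nat.factorial_pos (n + s)
  have h1 : ((n + s).factorial : ℝ) * ((n : ℝ) ^ n * (s : ℝ) ^ s) ≤
      ((n + s : ℕ) : ℝ) ^ (n + s) * ((n.factorial : ℝ) * (s.factorial : ℝ)) := by exact_mod_cast h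
  have h2 := Real.log_le_log (by positivity) h1
  rw [Real.log_mul hNf.ne' (by positivity), Real.log_mul (by positivity) (by positivity),
    Real.log_mul (by positivity) (by positivity), Real.log_mul hnf.ne' hsf.ne', Real.log_pow, Real.log_pow,
    Real.log_pow] at h2
  exact h2

/-- PROOF. As `chkS_step` (ChkS.lean): `core_one_rep`, `szA_eq`, `szC_eq`, `hkC_eq`, `legC_le`, `step_ineq` with `C = 1`, `e = legC p 20 n`; it is enough to prove
`(n + s)! H² ≤ n!² s! p ^ e` in logarithms: `log (n + s)! - log n! - log s! ≤ (n + s) log (n + s) - n log n - s log s` (`binom_pow`, ChkS.lean), `log n! ≥ n log n - n` (`fact_ge_pow` or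
`Real.pow_div_factorial_le_exp`), `hook_le`, `lg_le` (for `n + s`, `n`, `s`, `p`, all `E ≥ 1`), and `1.4426950403 * log 2 ≤ 1 ≤ 1.4426950415 * log 2` (`Real.log_two_lt_d9`, `Real.log_two_gt_d9`;
all terms are multiplied by `2 * 4096 / log 2 * 10 ^ 10`). -/
theorem chkA_step {p : ℕ} [Fact p.Prime] (m : List ℕ) (n s : ℕ) (h : chkA p m n s = true) (N : ℕ)
    (h1 : n ≤ N) (h2 : N ≤ n + s) (hb : Wl p 1 (N - n)) : Wl p 1 N := by
  have hp : p.Prime := Fact.out
  unfold chkA at h
  rw [Bool.and_eq_true, Bool.and_eq_true, Bool.and_eq_true] at h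
  obtain ⟨⟨⟨ha, hn1⟩, hs1⟩, hc⟩ := h
  have ha' : szC p m = n := by
    rw [← szA_eq]
    exact eq_of_beq ha
  have hn1' : 1 ≤ n := Nat.le_of_ble_eq_true hn1
  have hs1' : 1 ≤ s := Nat.le_of_ble_eq_true hs1
  have hc' := Nat.le_of_ble_eq_true hc
  obtain ⟨f, hf, hr⟩ := core_one_rep (p := p) (fun i : Fin p => m.getD i 0)
  rw [← szC_eq, ha'] at hf hr
  rw [← hkC_eq] at hf
  have hhk := hook_le p m
  generalize hkC p m = H at hf hhk
  -- the real form of the check
  have hP1 := chkA_step_pairA p m (fun E => E ^ 2 - E)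
  have hP2 := chkA_step_pairA p m (fun E => E ^ 2 * (lgA E + 1))
  have hP3 := chkA_step_pairA p m (fun E => E)
  have hP4 := chkA_step_pairA p m (fun E => E ^ 2)
  have hl2 : 0 < log (2 : ℝ) := Real.log_pos (by norm_num)
  have hPA : (∑ i ∈ Finset.range p, ∑ j ∈ Finset.range p, PA p (eA i j (m.getD i 0 - m.getD j 0))) * 4096 ≤
      (pairA p m (fun E => E ^ 2 - E) : ℝ) * (4096 * log p) +
        (pairA p m (fun E => E ^ 2 * (lgA E + 1)) : ℝ) * log 2 -
        3 / 2 * (pairA p m (fun E => E ^ 2) : ℝ) * 4096 + 2 * (pairA p m (fun E => E) : ℝ) * 4096 := by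
    rw [hP1, hP2, hP3, hP4]
    simp only [Finset.sum_mul, Finset.mul_sum]
    rw [← Finset.sum_add_distrib, ← Finset.sum_sub_distrib, ← Finset.sum_add_distrib]
    refine Finset.sum_le_sum fun i _ => ?_
    rw [← Finset.sum_add_distrib, ← Finset.sum_sub_distrib, ← Finset.sum_add_distrib]
    refine Finset.sum_le_sum fun j _ => ?_
    generalize eA i j (m.getD i 0 - m.getD j 0) = E
    have hE1 : ((E ^ 2 - E : ℕ) : ℝ) = (E : ℝ) ^ 2 - E := by
      rw [Nat.cast_sub (Nat.le_self_pow (by norm_num) E), Nat.cast_pow]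
    rw [hE1]
    unfold PA
    have hlE : (E : ℝ) ^ 2 * (4096 * log E) ≤ (E : ℝ) ^ 2 * (((lgA E : ℝ) + 1) * log 2) := by
      rcases Nat.eq_zero_or_pos E with h0 | h0
      · have hz : (E : ℝ) ^ 2 = 0 := by rw [h0, Nat.cast_zero, zero_pow two_ne_zero]
        rw [hz, zero_mul, zero_mul]
      · exact mul_le_mul_of_nonneg_left (lg_le E h0).2 (by positivity)
    push_cast
    nlinarith
  generalize (∑ i ∈ Finset.range p, ∑ j ∈ Finset.range p, PA p (eA i j (m.getD i 0 - m.getD j 0))) = SP at hhk hPA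
  generalize pairA p m (fun E => E ^ 2 - E) = P1 at hc' hPA
  generalize pairA p m (fun E => E ^ 2 * (lgA E + 1)) = P2 at hc' hPA
  generalize pairA p m (fun E => E) = P3 at hc' hPA
  generalize pairA p m (fun E => E ^ 2) = P4 at hc' hPA
  clear hP1 hP2 hP3 hP4
  have hlegC := legC_le p hp 20 n
  generalize legC p 20 n = e at hc' hlegC
  have hn0 : (0 : ℝ) < n := by exact_mod_cast hn1'
  have hs0 : (0 : ℝ) < s := by exact_mod_cast hs1'
  have hp0 : (0 : ℝ) < p := by exact_mod_cast hp.pos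
  have hlgN := (lg_le (n + s) (by omega)).2
  have hlgn := (lg_le n hn1').1
  have hlgs := (lg_le s hs1').1
  have hlgp1 := (lg_le p hp.one_lt.le).1
  have hlgp2 := (lg_le p hp.one_lt.le).2
  have hbin := chkA_step_binom n s hn1' hs1'
  have hfac := chkA_step_fact n
  have hHpos : 0 < H := by
    rcases Nat.eq_zero_or_pos H with h | h
    · rw [h, Nat.mul_zero] at hf
      exact absurd hf.symm (Nat.factorial_ne_zero n)
    · exact h
  have hH0 : (0 : ℝ) < H := by exact_mod_cast hHpos
  have hnf : (0 : ℝ) < n.factorial := by exact_mod_cast Nat.factorial_pos n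
  have hsf : (0 : ℝ) < s.factorial := by exact_mod_cast Nat.factorial_pos s
  have hNf : (0 : ℝ) < (n + s).factorial := by exact_mod_cast Nat.factorial_pos (n + s)
  have key : log (((n + s).factorial : ℝ) * (H : ℝ) ^ 2) ≤
      log ((n.factorial : ℝ) ^ 2 * s.factorial * (p : ℝ) ^ e) := by
    rw [Real.log_mul (by positivity) (by positivity), Real.log_mul (by positivity) (by positivity),
      Real.log_mul (by positivity) (by positivity), Real.log_pow, Real.log_pow, Real.log_pow]
    have hcR : (20000000000 : ℝ) * (((n + s : ℕ) : ℝ) * ((lgA (n + s) : ℝ) + 1) + (P1 : ℝ) * ((lgA p : ℝ) + 1) + (P2 : ℝ)) +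
        (4 * (P3 : ℝ) + 2 * (n : ℝ)) * 4096 * 14426950415 ≤
        20000000000 * (2 * (n : ℝ) * (lgA n : ℝ) + (s : ℝ) * (lgA s : ℝ) + (e : ℝ) * (lgA p : ℝ)) +
          3 * (P4 : ℝ) * 4096 * 14426950403 := by
      exact_mod_cast hc'
    have hL1 : 1 ≤ 1.4426950415 * log (2 : ℝ) := by
      have := Real.log_two_gt_d9
      linarith
    have hL2 : 1.4426950403 * log (2 : ℝ) ≤ 1 := by
      have := Real.log_two_lt_d9
      linarith
    have a1 := mul_le_mul_of_nonneg_right hcR hl2.le
    have a2 := mul_le_mul_of_nonneg_left hL1 (by positivity : (0 : ℝ) ≤ (4 * (P3 : ℝ) + 2 * (n : ℝ)) * 4096)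
    have a3 := mul_le_mul_of_nonneg_left hL2 (by positivity : (0 : ℝ) ≤ 3 * (P4 : ℝ) * 4096)
    have b1 := mul_le_mul_of_nonneg_left hlgN (by positivity : (0 : ℝ) ≤ ((n + s : ℕ) : ℝ))
    have b2 := mul_le_mul_of_nonneg_left hlgn (by positivity : (0 : ℝ) ≤ 2 * (n : ℝ))
    have b3 := mul_le_mul_of_nonneg_left hlgs hs0.le
    have b4 := mul_le_mul_of_nonneg_left hlgp1 (by positivity : (0 : ℝ) ≤ (e : ℝ))
    have b5 := mul_le_mul_of_nonneg_left hlgp2 (by positivity : (0 : ℝ) ≤ (P1 : ℝ))
    simp only [Nat.cast_ofNat]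
    nlinarith
  have h5 : (n + s).factorial * H ^ 2 ≤ n.factorial ^ 2 * s.factorial * p ^ e := by
    have := (Real.log_le_log_iff (by positivity) (by positivity)).1 key
    exact_mod_cast this
  have hd2 : (N - n).factorial * N.descFactorial n = N.factorial :=
    Nat.factorial_mul_descFactorial h1
  have hd1 : s.factorial * (n + s).descFactorial n = (n + s).factorial := by
    have := Nat.factorial_mul_descFactorial (n := n + s) (k := n) (Nat.le_add_right n s)
    rwa [Nat.add_sub_cancel_left] at this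
  have hmono : N.descFactorial n ≤ (n + s).descFactorial n := Nat.descFactorial_le n h2
  have h6 : (n + s).descFactorial n * H ^ 2 ≤ n.factorial ^ 2 * p ^ e := by
    refine Nat.le_of_mul_le_mul_left ?_ (Nat.factorial_pos s)
    calc s.factorial * ((n + s).descFactorial n * H ^ 2)
        = (s.factorial * (n + s).descFactorial n) * H ^ 2 := by ring
      _ = (n + s).factorial * H ^ 2 := by rw [hd1]
      _ ≤ n.factorial ^ 2 * s.factorial * p ^ e := h5
      _ = s.factorial * (n.factorial ^ 2 * p ^ e) := by ring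
  refine step_ineq n f H 1 e N hr hf hlegC h1 ?_ hb
  calc 1 * N.factorial * H ^ 2 = (N - n).factorial * (N.descFactorial n * H ^ 2) := by
        rw [← hd2]; ring
    _ ≤ (N - n).factorial * ((n + s).descFactorial n * H ^ 2) :=
        Nat.mul_le_mul_left _ (Nat.mul_le_mul_right _ hmono)
    _ ≤ (N - n).factorial * (n.factorial ^ 2 * p ^ e) := Nat.mul_le_mul_left _ h6
    _ = n.factorial ^ 2 * (N - n).factorial * p ^ e := by ring
-- END chkA_step

end Pool.Agent.Wil
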