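import Mathlib
import Pool.Agent.Wil.AnaD

set_option autoImplicit false

/-! A sharper check with logarithms for large explicit cores: the definitions. -/

namespace Pool.Agent.Wil

/-- Sum of `F i j (m i - m j)` over all pairs. -/
def pairB (p : ℕ) (m : List ℕ) (F : ℕ → ℕ → ℕ → ℕ) : ℕ :=
  sumC (fun i => sumC (fun j => F i j (m.getD i 0 - m.getD j 0)) p) p

/-- Check with logarithms for one core (heights `m`, size `n`), degrees `n ≤ N ≤ n + s`. -/
def chkB (p : ℕ) (m : List ℕ) (n s : ℕ) : Bool :=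
  (szA p m == n) && Nat.ble 1 n && Nat.ble 1 s &&
    Nat.ble
      (20000000000 * ((n + s) * (lgA (n + s) + 1) +
          pairB p m (fun i j D => (D ^ 2 - D) * (lgA p + 1) + D ^ 2 * (lgA D + 1) +
            if j < i ∧ 0 < D then 2 * (i - j) * D * (lgA D + 1) / p + 1 + 2 * D * (lgA (i - j) + 1)
            else 0)) +
        (pairB p m (fun i j D => 4 * D + if j < i ∧ 0 < D then 4 else 0) + 2 * n) * 4096 *
          14426950415)
      (20000000000 * (2 * n * lgA n + s * lgA s + legC p 20 n * lgA p) +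
        3 * pairB p m (fun _ _ D => D ^ 2) * 4096 * 14426950403)

/-- All entries of the list pass one of the checks. -/
def allB (p : ℕ) (L : List (List ℕ × ℕ × ℕ)) : Bool :=
  L.all (fun x => Nat.ble 1 x.2.1 &&
    cond (Nat.ble x.2.1 300) (chkC p 1 x.1 x.2.1 x.2.2 && Nat.ble x.2.2 300)
      (cond (Nat.ble x.2.1 30000) (chkS p 1 x.1 x.2.1 x.2.2) (chkB p x.1 x.2.1 x.2.2)))

end Pool.Agent.Wil
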