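import Mathlib
import Pool.Agent.Wil.Ana
import Pool.Agent.Wil.AnaE

set_option autoImplicit false

/-! The sharper check with logarithms. -/

namespace Pool.Agent.Wil

open Real

/-- Upper bound for twice the logarithm of the product of the hooks of the runners `i`, `j` with difference `D`. -/
noncomputable def PB (p i j D : ℕ) : ℝ :=
  ((D : ℝ) ^ 2 - D) * log p + (D : ℝ) ^ 2 * log D - 3 / 2 * (D : ℝ) ^ 2 + 2 * D +
    if j < i ∧ 0 < D then 2 * (((i - j : ℕ) : ℝ) / p) * (D * log D + 1) + 2 * D * log ((i - j : ℕ) : ℝ)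
    else 0

-- BEGIN pairB_le
private theorem pairB_le_gauss (D : ℕ) :
    ∑ d ∈ Finset.range D, (if 0 < d then ((D : ℝ) - d) else 0) = ((D : ℝ) ^ 2 - D) / 2 := by
  have h1 : ∀ n : ℕ, ∑ d ∈ Finset.range n, (d : ℝ) = (n : ℝ) * (n - 1) / 2 := by
    intro n
    induction n with
    | zero => simp
    | succ n ih =>
      rw [Finset.sum_range_succ, ih]
      push_cast
      ring
  rcases D with _ | D
  · simp
  · rw [Finset.sum_range_succ']
    simp only [lt_irrefl, if_false, add_zero, Nat.succ_pos, if_true]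
    have h2 : ∀ d ∈ Finset.range D, (((D + 1 : ℕ) : ℝ) - ((d + 1 : ℕ) : ℝ)) = (D : ℝ) - d := by
      intro d _
      push_cast
      ring
    rw [Finset.sum_congr rfl h2, Finset.sum_sub_distrib, h1, Finset.sum_const, Finset.card_range, nsmul_eq_mul]
    push_cast
    ring

private theorem pairB_le_harm (D : ℕ) :
    ∑ d ∈ Finset.range D, (if 0 < d then ((D : ℝ) - d) / d else 0) ≤ (D : ℝ) * log D + 1 := by
  rcases D with _ | n
  · simp
  · rw [Finset.sum_range_succ']
    simp only [lt_irrefl, if_false, add_zero, Nat.succ_pos, if_true]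
    have h2 : ∀ d ∈ Finset.range n, (((n + 1 : ℕ) : ℝ) - ((d + 1 : ℕ) : ℝ)) / ((d + 1 : ℕ) : ℝ) =
        ((n : ℝ) + 1) * ((d : ℝ) + 1)⁻¹ - 1 := by
      intro d _
      have : (d : ℝ) + 1 ≠ 0 := by positivity
      push_cast
      field_simp
    rw [Finset.sum_congr rfl h2, Finset.sum_sub_distrib, ← Finset.mul_sum, Finset.sum_const, Finset.card_range, nsmul_eq_mul]
    have h3 : (harmonic n : ℝ) ≤ 1 + log n := harmonic_le_one_add_log n
    have h4 : ((harmonic n : ℚ) : ℝ) = ∑ d ∈ Finset.range n, ((d : ℝ) + 1)⁻¹ := by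
      unfold harmonic
      push_cast
      rfl
    rw [h4] at h3
    have h5 : log (n : ℝ) ≤ log ((n : ℝ) + 1) := by
      rcases Nat.eq_zero_or_pos n with h | h
      · subst h; simp
      · exact Real.log_le_log (by exact_mod_cast h) (by linarith)
    have h6 : ((n : ℝ) + 1) * ∑ d ∈ Finset.range n, ((d : ℝ) + 1)⁻¹ ≤ ((n : ℝ) + 1) * (1 + log ((n : ℝ) + 1)) :=
      mul_le_mul_of_nonneg_left (by linarith) (by positivity)
    push_cast
    nlinarith

/-- PROOF. `D = 0`: both sides zero. `i ≤ j`: as `stair_hook_inner` (Tail.lean, inside `stair_hook`): hooks `d p - (j - i) ≤ d p`, `LM_le D`. `j < i`, `δ = i - j`: the term `d = 0` is `D log δ`; for `d ≥ 1`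
`log (d p + δ) ≤ log p + log d + δ / (p d)` (`Real.log_le_sub_one_of_pos`), `∑_{0<d<D} (D - d) = (D² - D) / 2`, `LM_le D`, and `∑_{0<d<D} (D - d) / d ≤ D log D + 1` (induction on `D`: the increment is the
harmonic number `∑_{d ≤ D} 1 / d ≤ 1 + log D`, `harmonic_le_one_add_log`; or directly). -/
theorem pairB_le (p i j D : ℕ) (hi : i < p) (hj : j < p) :
    2 * ∑ d ∈ Finset.range D,
        log (((if j < i ∨ 0 < d then (d * p + i - j) ^ (D - d) else 1 : ℕ) : ℝ)) ≤
      PB p i j D := by
  rcases Nat.eq_zero_or_pos D with hD0 | hD1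
  · subst hD0
    simp [PB]
  have hp0 : 0 < p := by omega
  have hpR : (0 : ℝ) < p := by exact_mod_cast hp0
  have h8 := LM_le D hD1
  have hg := pairB_le_gauss D
  by_cases hij : j < i
  · have hstep : ∀ d ∈ Finset.range D,
        log (((if j < i ∨ 0 < d then (d * p + i - j) ^ (D - d) else 1 : ℕ) : ℝ)) ≤
          ((D : ℝ) - d) * log d + (if 0 < d then ((D : ℝ) - d) else 0) * log p +
          (((i - j : ℕ) : ℝ) / p) * (if 0 < d then ((D : ℝ) - d) / d else 0) +
          (if d = 0 then (D : ℝ) * log ((i - j : ℕ) : ℝ) else 0) := by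
      intro d hd
      have hd' := Finset.mem_range.1 hd
      rcases Nat.eq_zero_or_pos d with h0 | h0
      · subst h0
        rw [if_pos (Or.inl hij)]
        simp
      · rw [if_pos (Or.inl hij), if_pos h0, if_pos h0, if_neg (by omega)]
        have h2 : ((D - d : ℕ) : ℝ) = (D : ℝ) - d := by
          rw [Nat.cast_sub hd'.le]
        have hdR : (0 : ℝ) < d := by exact_mod_cast h0
        have h4 : ((d * p + i - j : ℕ) : ℝ) = ((d : ℝ) * p) * (1 + ((i - j : ℕ) : ℝ) / p / d) := by
          have h41 : d * p + i - j = d * p + (i - j) := by omega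
          rw [h41]
          push_cast
          field_simp
        have hq : (0 : ℝ) ≤ ((i - j : ℕ) : ℝ) / p / d := by positivity
        have h5 : log ((d * p + i - j : ℕ) : ℝ) ≤ log d + log p + ((i - j : ℕ) : ℝ) / p / d := by
          rw [h4, Real.log_mul (by positivity) (by positivity), Real.log_mul (by positivity) (by positivity)]
          have := Real.log_le_sub_one_of_pos (x := 1 + ((i - j : ℕ) : ℝ) / p / d) (by positivity)
          linarith
        have h6 : (0 : ℝ) ≤ (D : ℝ) - d := by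
          rw [← h2]
          positivity
        rw [Nat.cast_pow, Real.log_pow, h2]
        have h7 := mul_le_mul_of_nonneg_left h5 h6
        refine h7.trans (le_of_eq ?_)
        field_simp
        ring
    have h7 := Finset.sum_le_sum hstep
    rw [Finset.sum_add_distrib, Finset.sum_add_distrib, Finset.sum_add_distrib, ← Finset.sum_mul, ← Finset.mul_sum, hg,
      Finset.sum_ite_eq' (Finset.range D) 0 (fun _ => (D : ℝ) * log ((i - j : ℕ) : ℝ)), if_pos (Finset.mem_range.2 hD1)] at h7
    have h9 := mul_le_mul_of_nonneg_left (pairB_le_harm D) (by positivity : (0 : ℝ) ≤ ((i - j : ℕ) : ℝ) / p)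
    unfold PB
    rw [if_pos ⟨hij, hD1⟩]
    linarith
  · have hstep : ∀ d ∈ Finset.range D,
        log (((if j < i ∨ 0 < d then (d * p + i - j) ^ (D - d) else 1 : ℕ) : ℝ)) ≤
          ((D : ℝ) - d) * log d + (if 0 < d then ((D : ℝ) - d) else 0) * log p := by
      intro d hd
      have hd' := Finset.mem_range.1 hd
      rcases Nat.eq_zero_or_pos d with h0 | h0
      · subst h0
        have h1 : ¬ (j < i ∨ 0 < 0) := by omega
        rw [if_neg h1]
        simp
      · rw [if_pos (Or.inr h0), if_pos h0]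
        have h2 : ((D - d : ℕ) : ℝ) = (D : ℝ) - d := by
          rw [Nat.cast_sub hd'.le]
        have h3 : 0 < d * p + i - j := by
          have : p ≤ d * p := Nat.le_mul_of_pos_left p h0
          omega
        have h4 : ((d * p + i - j : ℕ) : ℝ) ≤ (d : ℝ) * p := by
          have : d * p + i - j ≤ d * p := by omega
          exact_mod_cast this
        have hdR : (0 : ℝ) < d := by exact_mod_cast h0
        have h5 : log ((d * p + i - j : ℕ) : ℝ) ≤ log d + log p := by
          rw [← Real.log_mul (by positivity) (by positivity)]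
          exact Real.log_le_log (by exact_mod_cast h3) h4
        have h6 : (0 : ℝ) ≤ (D : ℝ) - d := by
          rw [← h2]
          positivity
        rw [Nat.cast_pow, Real.log_pow, h2]
        nlinarith [mul_le_mul_of_nonneg_left h5 h6]
    have h7 := Finset.sum_le_sum hstep
    rw [Finset.sum_add_distrib, ← Finset.sum_mul, hg] at h7
    unfold PB
    rw [if_neg (by tauto)]
    linarith
-- END pairB_le

-- BEGIN hookB_le
/-- PROOF. `hkC_eq` and `prod_cells_beta` (Chk.lean), as in `stair_hook` (Tail.lean): logarithm of the triple product, `pairB_le` for every pair. -/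
theorem hookB_le (p : ℕ) (m : List ℕ) :
    2 * log ((hkC p m : ℕ) : ℝ) ≤
      ∑ i ∈ Finset.range p, ∑ j ∈ Finset.range p, PB p i j (m.getD i 0 - m.getD j 0) := by
  have hpr := prod_cells_beta (fun i : Fin p => m.getD i 0) (fun n : ℕ => n)
  have hne : ∀ i j : Fin p, ∀ d : ℕ,
      (if (j : ℕ) < (i : ℕ) ∨ 0 < d then
        (d * p + (i : ℕ) - (j : ℕ)) ^ (m.getD i 0 - m.getD j 0 - d) else 1) ≠ 0 := by
    intro i j d
    have hi := i.isLt
    have hj := j.isLt
    split_ifs with h
    · apply pow_ne_zero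
      rcases h with h | h
      · omega
      · have : p ≤ d * p := Nat.le_mul_of_pos_left p h
        omega
    · exact one_ne_zero
  have hlog : log ((hkC p m : ℕ) : ℝ) =
      ∑ i : Fin p, ∑ j : Fin p, ∑ d ∈ Finset.range (m.getD i 0 - m.getD j 0),
        log (((if (j : ℕ) < (i : ℕ) ∨ 0 < d then
          (d * p + (i : ℕ) - (j : ℕ)) ^ (m.getD i 0 - m.getD j 0 - d) else 1 : ℕ) : ℝ)) := by
    rw [hkC_eq, hpr, Nat.cast_prod, Real.log_prod]
    · refine Finset.sum_congr rfl fun i _ => ?_
      rw [Nat.cast_prod, Real.log_prod]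
      · refine Finset.sum_congr rfl fun j _ => ?_
        rw [Nat.cast_prod, Real.log_prod]
        intro d _
        exact_mod_cast hne i j d
      · intro j _
        rw [Nat.cast_ne_zero]
        exact Finset.prod_ne_zero_iff.2 fun d _ => hne i j d
    · intro i _
      rw [Nat.cast_ne_zero]
      exact Finset.prod_ne_zero_iff.2 fun j _ => Finset.prod_ne_zero_iff.2 fun d _ => hne i j d
  rw [hlog, Finset.mul_sum, Finset.sum_range]
  refine Finset.sum_le_sum fun i _ => ?_
  rw [Finset.mul_sum, Finset.sum_range]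
  refine Finset.sum_le_sum fun j _ => ?_
  exact pairB_le p i j _ i.isLt j.isLt
-- END hookB_le

-- BEGIN chkB_step
private theorem chkB_step_sumC (f : ℕ → ℕ) (n : ℕ) : sumC f n = ∑ d ∈ Finset.range n, f d := by
  induction n with
  | zero => rfl
  | succ n ih =>
    rw [Finset.sum_range_succ, ← ih]
    rfl

private theorem chkB_step_pair (p : ℕ) (m : List ℕ) (F : ℕ → ℕ → ℕ → ℕ) :
    ((pairB p m F : ℕ) : ℝ) = ∑ i ∈ Finset.range p, ∑ j ∈ Finset.range p,
      ((F i j (m.getD i 0 - m.getD j 0) : ℕ) : ℝ) := by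
  unfold pairB
  rw [chkB_step_sumC]
  push_cast
  exact Finset.sum_congr rfl fun i _ => by rw [chkB_step_sumC]; push_cast; rfl

private theorem chkB_step_c : (14426950403 : ℝ) ≤ 10000000000 / log 2 ∧
    10000000000 / log 2 ≤ (14426950415 : ℝ) := by
  have h1 := Real.log_two_lt_d9
  have h2 := Real.log_two_gt_d9
  have h0 : (0 : ℝ) < log 2 := by linarith
  constructor
  · rw [le_div_iff₀ h0]
    nlinarith
  · rw [div_le_iff₀ h0]
    nlinarith

/-- the logarithm in the units of `lgA` -/
private theorem chkB_step_T (x : ℕ) (hx : 1 ≤ x) :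
    (lgA x : ℝ) ≤ 4096 * log x / log 2 ∧ 4096 * log x / log 2 ≤ (lgA x : ℝ) + 1 := by
  have h0 : (0 : ℝ) < log 2 := Real.log_pos (by norm_num)
  obtain ⟨h1, h2⟩ := lg_le x hx
  exact ⟨(le_div_iff₀ h0).2 h1, (div_le_iff₀ h0).2 h2⟩

private theorem chkB_step_PB (p i j D : ℕ) (hi : i < p) :
    20000000000 * 4096 / log 2 * PB p i j D ≤
      20000000000 * (((D ^ 2 - D) * (lgA p + 1) + D ^ 2 * (lgA D + 1) +
            (if j < i ∧ 0 < D then 2 * (i - j) * D * (lgA D + 1) / p + 1 + 2 * D * (lgA (i - j) + 1)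
            else 0) : ℕ) : ℝ) +
        ((4 * D + (if j < i ∧ 0 < D then 4 else 0) : ℕ) : ℝ) * 4096 * 14426950415 -
        3 * ((D ^ 2 : ℕ) : ℝ) * 4096 * 14426950403 := by
  have h0 : (0 : ℝ) < log 2 := Real.log_pos (by norm_num)
  obtain ⟨c1, c2⟩ := chkB_step_c
  have hp : 1 ≤ p := by omega
  have hTp := (chkB_step_T p hp).2
  rcases Nat.eq_zero_or_pos D with rfl | hD
  · unfold PB
    simp
  have hTD := (chkB_step_T D hD).2
  set c : ℝ := 10000000000 / log 2 with hc
  set P : ℝ := 4096 * log p / log 2 with hP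
  set T : ℝ := 4096 * log D / log 2 with hT
  have hDD : D ≤ D ^ 2 := Nat.le_self_pow (by norm_num) D
  have hD1 : (1 : ℝ) ≤ D := by exact_mod_cast hD
  have a1 : ((D : ℝ) ^ 2 - D) * P ≤ ((D : ℝ) ^ 2 - D) * ((lgA p : ℝ) + 1) :=
    mul_le_mul_of_nonneg_left hTp (by nlinarith)
  have a2 : (D : ℝ) ^ 2 * T ≤ (D : ℝ) ^ 2 * ((lgA D : ℝ) + 1) :=
    mul_le_mul_of_nonneg_left hTD (by positivity)
  have a3 : (D : ℝ) ^ 2 * 14426950403 ≤ (D : ℝ) ^ 2 * c :=
    mul_le_mul_of_nonneg_left c1 (by positivity)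
  have a4 : (D : ℝ) * c ≤ (D : ℝ) * 14426950415 :=
    mul_le_mul_of_nonneg_left c2 (by positivity)
  have base : 20000000000 * 4096 / log 2 * (((D : ℝ) ^ 2 - D) * log p + (D : ℝ) ^ 2 * log D -
      3 / 2 * (D : ℝ) ^ 2 + 2 * D) = 20000000000 * (((D : ℝ) ^ 2 - D) * P + (D : ℝ) ^ 2 * T) -
      3 * ((D : ℝ) ^ 2 * c) * 4096 + 4 * ((D : ℝ) * c) * 4096 := by
    rw [hP, hT, hc]
    field_simp
    ring
  by_cases hji : j < i
  · obtain ⟨δ, hδ⟩ : ∃ δ, i - j = δ := ⟨_, rfl⟩
    have hδ1 : 1 ≤ δ := by omega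
    have hδp : δ ≤ p := by omega
    have hTδ := (chkB_step_T δ hδ1).2
    set U : ℝ := 4096 * log δ / log 2 with hU
    have hp0 : (0 : ℝ) < p := by exact_mod_cast hp
    have hδ0 : (0 : ℝ) < δ := by exact_mod_cast hδ1
    have b1 : 2 * ((δ : ℝ) / p) * (D * T) ≤ ((2 * δ * D * (lgA D + 1) / p : ℕ) : ℝ) + 1 := by
      have e1 : 2 * ((δ : ℝ) / p) * (D * T) ≤ 2 * ((δ : ℝ) / p) * (D * ((lgA D : ℝ) + 1)) := by
        gcongr
      have e2 : 2 * ((δ : ℝ) / p) * (D * ((lgA D : ℝ) + 1)) =
          ((2 * δ * D * (lgA D + 1) : ℕ) : ℝ) / p := by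
        push_cast
        ring
      have e3 : ((2 * δ * D * (lgA D + 1) : ℕ) : ℝ) / p ≤
          ((2 * δ * D * (lgA D + 1) / p : ℕ) : ℝ) + 1 := by
        rw [div_le_iff₀ hp0]
        have := (Nat.lt_div_mul_add (a := 2 * δ * D * (lgA D + 1)) (b := p) (by omega)).le
        have h : ((2 * δ * D * (lgA D + 1) : ℕ) : ℝ) ≤
            ((2 * δ * D * (lgA D + 1) / p * p + p : ℕ) : ℝ) := by
          exact_mod_cast this
        push_cast at h ⊢
        linarith
      linarith
    have b2 : (D : ℝ) * U ≤ (D : ℝ) * ((lgA δ : ℝ) + 1) :=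
      mul_le_mul_of_nonneg_left hTδ (by positivity)
    have b3 : (δ : ℝ) / p * c ≤ 14426950415 := by
      have e1 : (δ : ℝ) / p ≤ 1 := by
        rw [div_le_one hp0]
        exact_mod_cast hδp
      have e2 : (0 : ℝ) ≤ c := by linarith
      calc (δ : ℝ) / p * c ≤ 1 * c := mul_le_mul_of_nonneg_right e1 e2
        _ ≤ 14426950415 := by linarith
    have e4 : PB p i j D = (((D : ℝ) ^ 2 - D) * log p + (D : ℝ) ^ 2 * log D -
        3 / 2 * (D : ℝ) ^ 2 + 2 * D) + (2 * ((δ : ℝ) / p) * (D * log D + 1) +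
          2 * D * log (δ : ℝ)) := by
      unfold PB
      rw [if_pos ⟨hji, hD⟩, hδ]
    have e5 : 20000000000 * 4096 / log 2 * (2 * ((δ : ℝ) / p) * (D * log D + 1) +
          2 * D * log (δ : ℝ)) = 20000000000 * (2 * ((δ : ℝ) / p) * (D * T)) +
          4 * ((δ : ℝ) / p * c) * 4096 + 20000000000 * (2 * (D * U)) := by
      rw [hT, hc, hU]
      field_simp
      ring
    rw [e4, mul_add, base, e5, if_pos ⟨hji, hD⟩, if_pos ⟨hji, hD⟩, hδ]
    push_cast [Nat.cast_sub hDD]
    push_cast at b1
    linarith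
  · have e4 : PB p i j D = (((D : ℝ) ^ 2 - D) * log p + (D : ℝ) ^ 2 * log D -
        3 / 2 * (D : ℝ) ^ 2 + 2 * D) := by
      unfold PB
      rw [if_neg (fun h => hji h.1), add_zero]
    rw [e4, base, if_neg (fun h => hji h.1), if_neg (fun h => hji h.1)]
    push_cast [Nat.cast_sub hDD]
    linarith

private def chkB_step_F1 (p i j D : ℕ) : ℕ :=
  (D ^ 2 - D) * (lgA p + 1) + D ^ 2 * (lgA D + 1) +
    if j < i ∧ 0 < D then 2 * (i - j) * D * (lgA D + 1) / p + 1 + 2 * D * (lgA (i - j) + 1)
    else 0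

private def chkB_step_F2 (i j D : ℕ) : ℕ := 4 * D + if j < i ∧ 0 < D then 4 else 0

private theorem chkB_step_num (p : ℕ) (m : List ℕ) (n s : ℕ) (hp : 1 ≤ p) (h : chkB p m n s = true) :
    szA p m = n ∧ 1 ≤ n ∧ 1 ≤ s ∧ ((n : ℝ) + s) * log ((n : ℝ) + s) + 2 * log ((hkC p m : ℕ) : ℝ) + n ≤
      2 * n * log n + s * log s + legC p 20 n * log p := by
  have h0 : (0 : ℝ) < log 2 := Real.log_pos (by norm_num)
  obtain ⟨c1, c2⟩ := chkB_step_c
  unfold chkB at h
  rw [Bool.and_eq_true, Bool.and_eq_true, Bool.and_eq_true] at h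
  obtain ⟨⟨⟨ha, hn⟩, hs⟩, hc⟩ := h
  have ha' : szA p m = n := eq_of_beq ha
  have hn' := Nat.le_of_ble_eq_true hn
  have hs' := Nat.le_of_ble_eq_true hs
  have hc' := Nat.le_of_ble_eq_true hc
  refine ⟨ha', hn', hs', ?_⟩
  have hc'' : 20000000000 * ((n + s) * (lgA (n + s) + 1) + pairB p m (chkB_step_F1 p)) +
      (pairB p m chkB_step_F2 + 2 * n) * 4096 * 14426950415 ≤
        20000000000 * (2 * n * lgA n + s * lgA s + legC p 20 n * lgA p) +
          3 * pairB p m (fun _ _ D => D ^ 2) * 4096 * 14426950403 := hc'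
  have hcr : 20000000000 * (((n : ℝ) + s) * ((lgA (n + s) : ℝ) + 1) +
        ((pairB p m (chkB_step_F1 p) : ℕ) : ℝ)) +
      (((pairB p m chkB_step_F2 : ℕ) : ℝ) + 2 * n) * 4096 * 14426950415 ≤
        20000000000 * (2 * (n : ℝ) * lgA n + s * lgA s + (legC p 20 n : ℝ) * lgA p) +
          3 * ((pairB p m (fun _ _ D => D ^ 2) : ℕ) : ℝ) * 4096 * 14426950403 := by
    exact_mod_cast hc''
  have hH := hookB_le p m
  set K : ℝ := 20000000000 * 4096 / log 2 with hK
  have hK0 : 0 < K := by positivity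
  have hsum : K * (∑ i ∈ Finset.range p, ∑ j ∈ Finset.range p,
      PB p i j (m.getD i 0 - m.getD j 0)) ≤
        20000000000 * ((pairB p m (chkB_step_F1 p) : ℕ) : ℝ) +
          ((pairB p m chkB_step_F2 : ℕ) : ℝ) * 4096 * 14426950415 -
          3 * ((pairB p m (fun _ _ D => D ^ 2) : ℕ) : ℝ) * 4096 * 14426950403 := by
    rw [chkB_step_pair, chkB_step_pair, chkB_step_pair]
    have e : ∀ (f g h : ℕ → ℕ → ℝ), 20000000000 * (∑ i ∈ Finset.range p,
        ∑ j ∈ Finset.range p, f i j) + (∑ i ∈ Finset.range p, ∑ j ∈ Finset.range p, g i j) * 4096 *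
          14426950415 - 3 * (∑ i ∈ Finset.range p, ∑ j ∈ Finset.range p, h i j) * 4096 *
            14426950403 = ∑ i ∈ Finset.range p, ∑ j ∈ Finset.range p,
              (20000000000 * f i j + g i j * 4096 * 14426950415 - 3 * h i j * 4096 *
                14426950403) := by
      intro f g h
      simp only [Finset.sum_sub_distrib, Finset.sum_add_distrib, Finset.mul_sum, Finset.sum_mul]
    rw [e, Finset.mul_sum]
    refine Finset.sum_le_sum fun i hi => ?_
    rw [Finset.mul_sum]
    refine Finset.sum_le_sum fun j _ => ?_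
    exact chkB_step_PB p i j _ (Finset.mem_range.1 hi)
  have t1 := (chkB_step_T (n + s) (by omega)).2
  have t2 := (chkB_step_T n hn').1
  have t3 := (chkB_step_T s hs').1
  have t4 := (chkB_step_T p hp).1
  have n0 : (0 : ℝ) ≤ n := Nat.cast_nonneg n
  have s0 : (0 : ℝ) ≤ s := Nat.cast_nonneg s
  have l0 : (0 : ℝ) ≤ (legC p 20 n : ℝ) := Nat.cast_nonneg _
  have u1 := mul_le_mul_of_nonneg_left t1 (add_nonneg n0 s0)
  have u2 := mul_le_mul_of_nonneg_left t2 n0
  have u3 := mul_le_mul_of_nonneg_left t3 s0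
  have u4 := mul_le_mul_of_nonneg_left t4 l0
  have u5 := mul_le_mul_of_nonneg_left c2 n0
  have v1 : K * (((n : ℝ) + s) * log ((n : ℝ) + s)) =
      20000000000 * (((n : ℝ) + s) * (4096 * log ((n + s : ℕ) : ℝ) / log 2)) := by
    rw [hK]
    push_cast
    ring
  have v2 : K * (n * log n) = 20000000000 * (n * (4096 * log n / log 2)) := by
    rw [hK]
    ring
  have v3 : K * (s * log s) = 20000000000 * (s * (4096 * log s / log 2)) := by
    rw [hK]
    ring
  have v4 : K * (legC p 20 n * log p) =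
      20000000000 * ((legC p 20 n : ℝ) * (4096 * log p / log 2)) := by
    rw [hK]
    ring
  have v5 : K * n = 2 * 4096 * (n * (10000000000 / log 2)) := by
    rw [hK]
    ring
  have w := mul_le_mul_of_nonneg_left hH hK0.le
  refine le_of_mul_le_mul_left ?_ hK0
  have x1 : K * (((n : ℝ) + s) * log ((n : ℝ) + s) + 2 * log ((hkC p m : ℕ) : ℝ) + n) =
      K * (((n : ℝ) + s) * log ((n : ℝ) + s)) + K * (2 * log ((hkC p m : ℕ) : ℝ)) + K * n := by
    ring
  have x2 : K * (2 * n * log n + s * log s + legC p 20 n * log p) =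
      2 * (K * (n * log n)) + K * (s * log s) + K * (legC p 20 n * log p) := by
    ring
  rw [x1, x2, v1, v2, v3, v4, v5]
  linarith

/-- PROOF. As `chkA_step` (Ana.lean) with `hookB_le`: pair by pair, after multiplication by `2 * 4096 / log 2 * 10 ^ 10`, `PB` is at most
`20000000000 * F1 i j D + F2 i j D * 4096 * 14426950415 - 3 * D ^ 2 * 4096 * 14426950403` (`lg_le`; `x / p + 1 ≥` real quotient; `2 (δ / p) ≤ 2`). -/
theorem chkB_step {p : ℕ} [Fact p.Prime] (m : List ℕ) (n s : ℕ) (h : chkB p m n s = true) (N : ℕ)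
    (h1 : n ≤ N) (h2 : N ≤ n + s) (hb : Wl p 1 (N - n)) : Wl p 1 N := by
  have hp : p.Prime := Fact.out
  obtain ⟨ha, hn, hs, hnum⟩ := chkB_step_num p m n s hp.one_lt.le h
  obtain ⟨f, hf, hr⟩ := core_one_rep (p := p) (fun i : Fin p => m.getD i 0)
  rw [← szC_eq, ← szA_eq, ha] at hf hr
  rw [← hkC_eq] at hf
  generalize hkC p m = H at hf hnum
  have hH0 : 0 < H := by
    rcases Nat.eq_zero_or_pos H with h0 | h0
    · rw [h0, mul_zero] at hf
      exact absurd hf.symm (Nat.factorial_ne_zero n)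
    · exact h0
  have hd2 : (N - n).factorial * N.descFactorial n = N.factorial :=
    Nat.factorial_mul_descFactorial h1
  have hd1 : s.factorial * (n + s).descFactorial n = (n + s).factorial := by
    have := Nat.factorial_mul_descFactorial (n := n + s) (k := n) (Nat.le_add_right n s)
    rwa [Nat.add_sub_cancel_left] at this
  have hmono : N.descFactorial n ≤ (n + s).descFactorial n := Nat.descFactorial_le n h2
  have h5 : 1 * (n + s).factorial * H ^ 2 ≤
      n.factorial ^ 2 * s.factorial * p ^ legC p 20 n := by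
    have pn : (0 : ℝ) < n := by exact_mod_cast hn
    have ps : (0 : ℝ) < s := by exact_mod_cast hs
    have pH : (0 : ℝ) < H := by exact_mod_cast hH0
    have pp : (0 : ℝ) < p := by exact_mod_cast hp.pos
    have fn : (0 : ℝ) < n.factorial := by exact_mod_cast Nat.factorial_pos n
    have fs : (0 : ℝ) < s.factorial := by exact_mod_cast Nat.factorial_pos s
    have fns : (0 : ℝ) < (n + s).factorial := by exact_mod_cast Nat.factorial_pos (n + s)
    have hb1 : ((n + s).factorial : ℝ) * ((n : ℝ) ^ n * (s : ℝ) ^ s) ≤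
        ((n : ℝ) + s) ^ (n + s) * ((n.factorial : ℝ) * s.factorial) := by
      exact_mod_cast binom_pow n s
    have hb2 := Real.log_le_log (by positivity) hb1
    rw [Real.log_mul (by positivity) (by positivity), Real.log_mul (by positivity) (by positivity),
      Real.log_mul (by positivity) (by positivity), Real.log_mul (by positivity) (by positivity),
      Real.log_pow, Real.log_pow, Real.log_pow] at hb2
    have hb3 : (n : ℝ) * log n - n ≤ log n.factorial := by
      have e1 := Real.pow_div_factorial_le_exp (n : ℝ) pn.le n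
      have e2 := Real.log_le_log (by positivity) e1
      rw [Real.log_exp, Real.log_div (by positivity) (by positivity), Real.log_pow] at e2
      linarith
    have goal : ((n + s).factorial : ℝ) * (H : ℝ) ^ 2 ≤
        (n.factorial : ℝ) ^ 2 * s.factorial * (p : ℝ) ^ legC p 20 n := by
      rw [← Real.log_le_log_iff (by positivity) (by positivity),
        Real.log_mul (by positivity) (by positivity), Real.log_mul (by positivity) (by positivity),
        Real.log_mul (by positivity) (by positivity), Real.log_pow, Real.log_pow, Real.log_pow]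
      push_cast at hb2 ⊢
      linarith
    rw [one_mul]
    exact_mod_cast goal
  have h6 : 1 * (n + s).descFactorial n * H ^ 2 ≤ n.factorial ^ 2 * p ^ legC p 20 n := by
    refine Nat.le_of_mul_le_mul_left ?_ (Nat.factorial_pos s)
    calc s.factorial * (1 * (n + s).descFactorial n * H ^ 2)
        = 1 * (s.factorial * (n + s).descFactorial n) * H ^ 2 := by ring
      _ = 1 * (n + s).factorial * H ^ 2 := by rw [hd1]
      _ ≤ n.factorial ^ 2 * s.factorial * p ^ legC p 20 n := h5
      _ = s.factorial * (n.factorial ^ 2 * p ^ legC p 20 n) := by ring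
  refine step_ineq n f H 1 (legC p 20 n) N hr hf (legC_le p hp 20 n) h1 ?_ hb
  calc 1 * N.factorial * H ^ 2 = (N - n).factorial * (1 * N.descFactorial n * H ^ 2) := by
        rw [← hd2]; ring
    _ ≤ (N - n).factorial * (1 * (n + s).descFactorial n * H ^ 2) :=
        Nat.mul_le_mul_left _ (Nat.mul_le_mul_right _ (Nat.mul_le_mul_left _ hmono))
    _ ≤ (N - n).factorial * (n.factorial ^ 2 * p ^ legC p 20 n) := Nat.mul_le_mul_left _ h6
    _ = n.factorial ^ 2 * (N - n).factorial * p ^ legC p 20 n := by ring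
-- END chkB_step

end Pool.Agent.Wil
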