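import Mathlib
import Pool.Agent.Wil.AnaE

set_option autoImplicit false

/-! Fast evaluation of `lgA` and of the sharper check. -/

namespace Pool.Agent.Wil

/-- The greatest `L < lo + 2 ^ b` with `2 ^ L ≤ y`, if `2 ^ lo ≤ y`. -/
def lgS (y : ℕ) : ℕ → ℕ → ℕ
  | 0, lo => lo
  | b + 1, lo => cond (Nat.ble (2 ^ (lo + 2 ^ b)) y) (lgS y b (lo + 2 ^ b)) (lgS y b lo)

/-- `lgA x`, by bisection for `x < 2 ^ 64`. -/
def lgF (x : ℕ) : ℕ :=
  cond (Nat.ble (x + 1) (2 ^ 64)) (lgS (x ^ 4096) 18 0) (Nat.log2 (x ^ 4096))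

theorem lgS_eq (y b lo : ℕ) (hy : y ≠ 0) (h1 : 2 ^ lo ≤ y) (h2 : y < 2 ^ (lo + 2 ^ b)) :
    lgS y b lo = Nat.log2 y := by
  induction b generalizing lo with
  | zero =>
    rw [lgS]
    symm
    rw [Nat.log2_eq_iff hy]
    exact ⟨h1, by simpa using h2⟩
  | succ b ih =>
    rw [lgS]
    cases h : Nat.ble (2 ^ (lo + 2 ^ b)) y
    · rw [cond_false]
      apply ih lo h1
      by_contra h3
      rw [not_lt] at h3
      rw [Nat.ble_eq_true_of_le h3] at h
      exact Bool.noConfusion h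
    · rw [cond_true]
      apply ih _ (Nat.le_of_ble_eq_true h)
      rw [add_assoc, ← mul_two, ← pow_succ]
      exact h2

theorem lgS_zero (b : ℕ) : lgS 0 b 0 = 0 := by
  induction b with
  | zero => rfl
  | succ b ih =>
    rw [lgS]
    cases h : Nat.ble (2 ^ (0 + 2 ^ b)) 0
    · rw [cond_false, ih]
    · have h1 := Nat.le_of_ble_eq_true h
      have h2 : 0 < 2 ^ (0 + 2 ^ b) := pow_pos (by norm_num) _
      omega

theorem lgF_eq : lgF = lgA := by
  funext x
  unfold lgF lgA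
  cases h : Nat.ble (x + 1) (2 ^ 64)
  · rw [cond_false]
  · rw [cond_true]
    have h1 := Nat.le_of_ble_eq_true h
    rcases Nat.eq_zero_or_pos x with hx | hx
    · have h2 : x ^ 4096 = 0 := by rw [hx]; exact zero_pow (by norm_num)
      rw [h2, lgS_zero]
      rfl
    · apply lgS_eq
      · exact (pow_pos hx _).ne'
      · rw [pow_zero]
        exact pow_pos hx _
      · have h2 : x < 2 ^ 64 := h1
        have h3 : x ^ 4096 < (2 ^ 64) ^ 4096 := Nat.pow_lt_pow_left h2 (by norm_num)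
        have h4 : 64 * 4096 = 0 + 2 ^ 18 := by norm_num
        rw [← pow_mul, h4] at h3
        exact h3

/-- `chkB` with `lgF`. -/
def chkF (p : ℕ) (m : List ℕ) (n s : ℕ) : Bool :=
  (szA p m == n) && Nat.ble 1 n && Nat.ble 1 s &&
    Nat.ble
      (20000000000 * ((n + s) * (lgF (n + s) + 1) +
          pairB p m (fun i j D => (D ^ 2 - D) * (lgF p + 1) + D ^ 2 * (lgF D + 1) +
            if j < i ∧ 0 < D then 2 * (i - j) * D * (lgF D + 1) / p + 1 + 2 * D * (lgF (i - j) + 1)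
            else 0)) +
        (pairB p m (fun i j D => 4 * D + if j < i ∧ 0 < D then 4 else 0) + 2 * n) * 4096 *
          14426950415)
      (20000000000 * (2 * n * lgF n + s * lgF s + legC p 20 n * lgF p) +
        3 * pairB p m (fun _ _ D => D ^ 2) * 4096 * 14426950403)

theorem chkF_eq (p : ℕ) (m : List ℕ) (n s : ℕ) : chkF p m n s = chkB p m n s := by
  unfold chkF chkB
  rw [lgF_eq]

/-- All entries of the list pass one of the checks. -/
def allF (p : ℕ) (L : List (List ℕ × ℕ × ℕ)) : Bool :=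
  L.all (fun x => Nat.ble 1 x.2.1 &&
    cond (Nat.ble x.2.1 300) (chkC p 1 x.1 x.2.1 x.2.2 && Nat.ble x.2.2 300)
      (cond (Nat.ble x.2.1 30000) (chkS p 1 x.1 x.2.1 x.2.2) (chkF p x.1 x.2.1 x.2.2)))

end Pool.Agent.Wil
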