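set_option autoImplicit false

/-! Fast checkers for explicit cores, over the core library only. The file `Bridge` compares them with the
checkers of `ChkD` and `AnaE`. -/

namespace Pool.Agent.Wil.Raw

noncomputable section

/-- `z` if `x = 0`, else `k x`; the kernel evaluates `x` first. -/
def fz (z x : Nat) (k : Nat → Nat) : Nat := Nat.rec z (fun n _ => k (Nat.succ n)) x

/-- `∑_{d < n} f d`. -/
def sumR (f : Nat → Nat) (n : Nat) : Nat := Nat.rec 0 (fun k r => Nat.add r (f k)) n

/-- `∏_{d < n} f d`. -/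
def prodR (f : Nat → Nat) (n : Nat) : Nat := Nat.rec 1 (fun k r => Nat.mul r (f k)) n

/-- `m.getD i 0`. -/
def gR (m : List Nat) (i : Nat) : Nat :=
  List.rec (motive := fun _ => Nat → Nat) (fun _ => 0) (fun a _ r i => Nat.rec a (fun k _ => r k) i) m i

/-- `∏_{d < D} (d p + c) ^ (D - d)`. -/
def powR (p c D : Nat) : Nat :=
  prodR (fun d => Nat.pow (Nat.add (Nat.mul d p) c) (Nat.sub D d)) D

/-- Product of the hook lengths of the core with runner heights `m`. -/
def hkR (p : Nat) (m : List Nat) : Nat :=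
  prodR (fun i => prodR (fun j => fz 1 (Nat.sub (gR m i) (gR m j)) (fun D =>
    cond (Nat.ble (Nat.succ j) i) (fz 1 (Nat.sub i j) (fun c => powR p c D))
      (fz 1 (Nat.sub (Nat.add p i) j) (fun c => powR p c (Nat.sub D 1))))) p) p

/-- Size of the core with runner heights `m`. -/
def szR (p : Nat) (m : List Nat) : Nat :=
  sumR (fun i => sumR (fun j => fz 0 (Nat.sub (gR m i) (gR m j)) (fun D =>
    cond (Nat.ble (Nat.succ j) i) (Nat.div (Nat.mul D (Nat.add D 1)) 2)
      (Nat.div (Nat.mul D (Nat.sub D 1)) 2))) p) p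

/-- `(a + 1) (a + 2) ... (a + n)`. -/
def fpR (a n : Nat) : Nat := prodR (fun k => Nat.add a (Nat.succ k)) n

/-- Legendre's sum `n / p + n / p² + ...`. -/
def legR (p n : Nat) : Nat :=
  Nat.rec (motive := fun _ => Nat → Nat) (fun _ => 0)
    (fun _ r n => Nat.add (Nat.div n p) (r (Nat.div n p))) 20 n

/-- Check for one core (heights `m`, size `n ≤ 300`), degrees `n ≤ N ≤ n + s`. -/
def chk1 (p : Nat) (m : List Nat) (n s : Nat) : Bool :=
  cond (Nat.ble (Nat.mul (fpR n s) (Nat.pow (hkR p m) 2))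
    (Nat.mul (Nat.mul (fpR 0 n) (fpR 0 s)) (Nat.pow p (legR p n)))) (Nat.ble s 300) false

/-- Cruder check, for larger `n`. -/
def chk2 (p : Nat) (m : List Nat) (n s : Nat) : Bool :=
  Nat.ble (Nat.mul (Nat.mul (Nat.pow (Nat.add n s) (Nat.add n s)) (Nat.pow (hkR p m) 2))
      (Nat.pow 27182818286 n))
    (Nat.mul (Nat.mul (Nat.mul (Nat.pow (Nat.mul n 10000000000) n) (Nat.pow n n)) (Nat.pow s s))
      (Nat.pow p (legR p n)))

/-- Bisection for the binary length of `y`. -/
def lgQ (y b lo : Nat) : Nat :=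
  Nat.rec (motive := fun _ => Nat → Nat) (fun lo => lo)
    (fun b r lo => cond (Nat.ble (Nat.pow 2 (Nat.add lo (Nat.pow 2 b))) y)
      (r (Nat.add lo (Nat.pow 2 b))) (r lo)) b lo

/-- The integral part of `4096 * log2 x`. -/
def lgR (x : Nat) : Nat :=
  cond (Nat.ble (Nat.succ x) (Nat.pow 2 64)) (lgQ (Nat.pow x 4096) 18 0) (Nat.log2 (Nat.pow x 4096))

/-- Sum of `F i j (m i - m j)` over all pairs (`F i j 0 = 0`). -/
def pairR (p : Nat) (m : List Nat) (F : Nat → Nat → Nat → Nat) : Nat :=
  sumR (fun i => sumR (fun j => fz 0 (Nat.sub (gR m i) (gR m j)) (F i j)) p) p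

/-- Check with logarithms, for large `n`. -/
def chk3 (p : Nat) (m : List Nat) (n s : Nat) : Bool :=
  cond (Nat.ble 1 s)
    (Nat.ble
      (Nat.add (Nat.mul 20000000000 (Nat.add (Nat.mul (Nat.add n s) (Nat.succ (lgR (Nat.add n s))))
          (pairR p m (fun i j D => Nat.add (Nat.add (Nat.mul (Nat.sub (Nat.pow D 2) D) (Nat.succ (lgR p)))
              (Nat.mul (Nat.pow D 2) (Nat.succ (lgR D))))
            (cond (Nat.ble (Nat.succ j) i)
              (fz 0 (Nat.sub i j) (fun c => Nat.add (Nat.add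
                (Nat.div (Nat.mul (Nat.mul (Nat.mul 2 c) D) (Nat.succ (lgR D))) p) 1)
                (Nat.mul (Nat.mul 2 D) (Nat.succ (lgR c))))) 0)))))
        (Nat.mul (Nat.mul (Nat.add (pairR p m (fun i j D => Nat.add (Nat.mul 4 D)
          (cond (Nat.ble (Nat.succ j) i) 4 0))) (Nat.mul 2 n)) 4096) 14426950415))
      (Nat.add (Nat.mul 20000000000 (Nat.add (Nat.add (Nat.mul (Nat.mul 2 n) (lgR n)) (Nat.mul s (lgR s)))
          (Nat.mul (legR p n) (lgR p))))
        (Nat.mul (Nat.mul (Nat.mul 3 (pairR p m (fun _ _ D => Nat.pow D 2))) 4096) 14426950403)))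
    false

/-- One of the checks, according to the size. -/
def ent (p : Nat) (m : List Nat) (n s : Nat) : Bool :=
  cond (Nat.beq (szR p m) n)
    (cond (Nat.ble n 300) (chk1 p m n s) (cond (Nat.ble n 100000) (chk2 p m n s) (chk3 p m n s))) false

/-- All entries pass and their windows cover `cur, ..., e - 1`. -/
def runR (p e : Nat) (L : List (List Nat × Nat × Nat)) (cur : Nat) : Bool :=
  List.rec (motive := fun _ => Nat → Bool) (fun cur => Nat.ble e cur)
    (fun x _ r cur => cond (Nat.ble 1 x.2.1) (cond (Nat.ble x.2.1 cur) (cond (ent p x.1 x.2.1 x.2.2)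
      (r (Nat.succ (Nat.add x.2.1 x.2.2))) false) false) false) L cur

/-- A number attached to a list. -/
def code (m : List Nat) : Nat := List.rec 0 (fun a _ r => Nat.add a (Nat.mul 64 r)) m

/-- The codes are increasing and at least `lo`; all members have size `n`, sum `B` and length `p`. -/
def okR (p B n : Nat) (ms : List (List Nat)) (lo : Nat) : Bool :=
  List.rec (motive := fun _ => Nat → Bool) (fun _ => true)
    (fun m _ r lo => cond (Nat.ble lo (code m)) (cond (Nat.beq (szR p m) n) (cond (Nat.beq (sumR (gR m) p) B)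
      (cond (Nat.beq m.length p) (r (Nat.succ (code m))) false) false) false) false) ms lo

/-- Sum of the squares of `f / hook product`. -/
def sqR (p f : Nat) (ms : List (List Nat)) : Nat :=
  List.rec 0 (fun m _ r => Nat.add (Nat.pow (Nat.div f (hkR p m)) 2) r) ms

/-- Check for several cores of the same size `n`, degree `N`. -/
def mchkR (p B n N : Nat) (ms : List (List Nat)) : Bool :=
  cond (okR p B n ms 0) (cond (Nat.ble n N)
    (Nat.ble (fpR 0 N) (Nat.mul (sqR p (fpR 0 n) ms) (Nat.pow p (legR p N)))) false) false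

end

end Pool.Agent.Wil.Raw
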