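import Mathlib
import Pool.Agent.Wil.Raw
import Pool.Agent.Wil.AnaB
import Pool.Agent.Wil.AnaF

set_option autoImplicit false

/-! The fast checkers of `Raw` imply the checkers of `ChkD` and `AnaE`. -/

namespace Pool.Agent.Wil

open Raw

theorem cd {a b : Bool} (h : cond a b false = true) : a = true ∧ b = true := by
  cases a
  · exact absurd h Bool.false_ne_true
  · exact ⟨rfl, h⟩

theorem fz_zero (z : ℕ) (k : ℕ → ℕ) : fz z 0 k = z := rfl

theorem fz_pos (z x : ℕ) (k : ℕ → ℕ) (hx : x ≠ 0) : fz z x k = k x := by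
  cases x with
  | zero => exact absurd rfl hx
  | succ n => rfl

theorem sumR_eq (f : ℕ → ℕ) (n : ℕ) : sumR f n = sumC f n := by
  induction n with
  | zero => rfl
  | succ n ih =>
    show sumR f n + f n = sumC f n + f n
    rw [ih]

theorem prodR_eq (f : ℕ → ℕ) (n : ℕ) : prodR f n = ∏ d ∈ Finset.range n, f d := by
  induction n with
  | zero => rfl
  | succ n ih =>
    rw [Finset.prod_range_succ, ← ih]
    rfl

theorem prodC_eq' (f : ℕ → ℕ) (n : ℕ) : prodC f n = ∏ d ∈ Finset.range n, f d := by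
  induction n with
  | zero => rfl
  | succ n ih =>
    rw [Finset.prod_range_succ, ← ih]
    rfl

theorem gR_eq (m : List ℕ) (i : ℕ) : gR m i = m.getD i 0 := by
  induction m generalizing i with
  | nil => rfl
  | cons a m ih =>
    cases i with
    | zero => rfl
    | succ i =>
      rw [List.getD_cons_succ, ← ih i]
      rfl

theorem prodB_eq' (f : ℕ → ℕ) (fuel a n : ℕ) (h : n ≤ 2 ^ fuel) :
    prodB f fuel a n = ∏ d ∈ Finset.range n, f (a + d) := by
  induction fuel generalizing a n with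
  | zero =>
    unfold prodB
    have h1 : n ≤ 1 := by simpa using h
    interval_cases n <;> simp
  | succ fuel ih =>
    unfold prodB
    split_ifs with h0 h1
    · subst h0; simp
    · subst h1; simp
    · have h2 : n / 2 ≤ 2 ^ fuel := by rw [pow_succ] at h; omega
      have h3 : n - n / 2 ≤ 2 ^ fuel := by rw [pow_succ] at h; omega
      rw [ih _ _ h2, ih _ _ h3]
      have h4 : n = n / 2 + (n - n / 2) := by omega
      conv_rhs => rw [h4]
      rw [Finset.prod_range_add]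
      simp only [add_assoc]

theorem powR_eq (p c D : ℕ) : powR p c D = ∏ d ∈ Finset.range D, (d * p + c) ^ (D - d) := by
  unfold powR
  rw [prodR_eq]
  rfl

theorem hkR_pair (p i j D : ℕ) (hjp : j < p) :
    fz 1 D (fun D => cond (Nat.ble (Nat.succ j) i) (fz 1 (Nat.sub i j) (fun c => powR p c D))
      (fz 1 (Nat.sub (Nat.add p i) j) (fun c => powR p c (Nat.sub D 1)))) =
      ∏ d ∈ Finset.range D, (if j < i ∨ 0 < d then (d * p + i - j) ^ (D - d) else 1) := by
  rcases Nat.eq_zero_or_pos D with hD | hD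
  · subst hD
    rfl
  rw [fz_pos _ _ _ hD.ne']
  cases h : Nat.ble (Nat.succ j) i
  · have h1 : ¬ j < i := fun h1 => by
      rw [Nat.ble_eq_true_of_le h1] at h
      exact Bool.noConfusion h
    have h2 : Nat.sub (Nat.add p i) j ≠ 0 := by
      show p + i - j ≠ 0
      omega
    rw [cond_false, fz_pos _ _ _ h2]
    obtain ⟨E, rfl⟩ : ∃ E, D = E + 1 := ⟨D - 1, by omega⟩
    have h3 : Nat.sub (E + 1) 1 = E := rfl
    have h4 : Nat.sub (Nat.add p i) j = p + i - j := rfl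
    rw [h3, h4, powR_eq, Finset.prod_range_succ', if_neg (by omega), mul_one]
    refine Finset.prod_congr rfl fun d _ => ?_
    rw [if_pos (by omega)]
    have h5 : (d + 1) * p + i - j = d * p + (p + i - j) := by
      rw [Nat.succ_mul]
      omega
    rw [h5, Nat.add_sub_add_right]
  · have h1 : j < i := Nat.le_of_ble_eq_true h
    have h2 : Nat.sub i j ≠ 0 := by
      show i - j ≠ 0
      omega
    have h4 : Nat.sub i j = i - j := rfl
    rw [cond_true, fz_pos _ _ _ h2, h4, powR_eq]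
    refine Finset.prod_congr rfl fun d _ => ?_
    rw [if_pos (Or.inl h1), Nat.add_sub_assoc h1.le]

theorem hkR_eq (p : ℕ) (m : List ℕ) : hkR p m = hkC p m := by
  unfold hkR hkC
  rw [prodR_eq, prodC_eq']
  refine Finset.prod_congr rfl fun i _ => ?_
  rw [prodR_eq, prodC_eq']
  refine Finset.prod_congr rfl fun j hj => ?_
  have hjp := Finset.mem_range.1 hj
  rw [prodB_eq' _ _ _ _ Nat.lt_two_pow_self.le, gR_eq, gR_eq]
  have hD : Nat.sub (m.getD i 0) (m.getD j 0) = m.getD i 0 - m.getD j 0 := rfl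
  rw [hD, hkR_pair p i j _ hjp]
  refine Finset.prod_congr rfl fun d _ => ?_
  rw [zero_add]

theorem szR_pair (i j D : ℕ) :
    fz 0 D (fun D => cond (Nat.ble (Nat.succ j) i) (Nat.div (Nat.mul D (Nat.add D 1)) 2)
      (Nat.div (Nat.mul D (Nat.sub D 1)) 2)) =
      (if j < i then D * (D + 1) / 2 else D * (D - 1) / 2) := by
  rcases Nat.eq_zero_or_pos D with hD | hD
  · subst hD
    rw [fz_zero]
    simp
  rw [fz_pos _ _ _ hD.ne']
  cases h : Nat.ble (Nat.succ j) i
  · have h1 : ¬ j < i := fun h1 => by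
      rw [Nat.ble_eq_true_of_le h1] at h
      exact Bool.noConfusion h
    rw [if_neg h1]
    rfl
  · have h1 : j < i := Nat.le_of_ble_eq_true h
    rw [if_pos h1]
    rfl

theorem szR_eq (p : ℕ) (m : List ℕ) : szR p m = szA p m := by
  unfold szR szA
  rw [sumR_eq]
  congr 1
  funext i
  rw [sumR_eq]
  congr 1
  funext j
  rw [gR_eq, gR_eq]
  exact szR_pair i j _

theorem fpR_fact (a n : ℕ) : a.factorial * fpR a n = (a + n).factorial := by
  unfold fpR
  rw [prodR_eq]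
  induction n with
  | zero => simp
  | succ n ih =>
    rw [Finset.prod_range_succ, ← mul_assoc, ih]
    show (a + n).factorial * (a + (n + 1)) = (a + (n + 1)).factorial
    rw [← add_assoc, Nat.factorial_succ, mul_comm]

theorem fpR_eq (a n : ℕ) (h : n ≤ 2 ^ 20) : fpR a n = fpC 20 a n := by
  have h1 := fpR_fact a n
  have h2 := fpC_eq 20 a n h
  exact Nat.eq_of_mul_eq_mul_left (Nat.factorial_pos a) (h1.trans h2.symm)

theorem legR_aux (p fuel n : ℕ) :
    Nat.rec (motive := fun _ => ℕ → ℕ) (fun _ => 0)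
      (fun _ r n => Nat.add (Nat.div n p) (r (Nat.div n p))) fuel n = legC p fuel n := by
  induction fuel generalizing n with
  | zero => rfl
  | succ fuel ih =>
    rw [legC, ← ih (n / p)]
    rfl

theorem legR_eq (p n : ℕ) : legR p n = legC p 20 n := legR_aux p 20 n

theorem lgQ_eq (y b lo : ℕ) : lgQ y b lo = lgS y b lo := by
  induction b generalizing lo with
  | zero => rfl
  | succ b ih =>
    rw [lgS, ← ih, ← ih]
    rfl

theorem lgR_eq (x : ℕ) : lgR x = lgA x := by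
  rw [← lgF_eq]
  unfold lgR lgF
  rw [lgQ_eq]
  rfl

theorem pairR_eq (p : ℕ) (m : List ℕ) (F : ℕ → ℕ → ℕ → ℕ) (hF : ∀ i j, F i j 0 = 0) :
    pairR p m F = pairB p m F := by
  unfold pairR pairB
  rw [sumR_eq]
  congr 1
  funext i
  rw [sumR_eq]
  congr 1
  funext j
  rw [gR_eq, gR_eq]
  have hD : Nat.sub (m.getD i 0) (m.getD j 0) = m.getD i 0 - m.getD j 0 := rfl
  rw [hD]
  generalize m.getD i 0 - m.getD j 0 = D
  rcases Nat.eq_zero_or_pos D with hD | hD
  · subst hD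
    rw [fz_zero, hF]
  · rw [fz_pos _ _ _ hD.ne']

theorem pairR_congr (p : ℕ) (m : List ℕ) (F G : ℕ → ℕ → ℕ → ℕ) (hF : ∀ i j, G i j 0 = 0)
    (h : ∀ i j D, 0 < D → F i j D = G i j D) : pairR p m F = pairB p m G := by
  rw [← pairR_eq p m G hF]
  unfold pairR
  congr 1
  funext i
  congr 1
  funext j
  generalize Nat.sub (gR m i) (gR m j) = D
  rcases Nat.eq_zero_or_pos D with hD | hD
  · subst hD
    rfl
  · rw [fz_pos _ _ _ hD.ne', fz_pos _ _ _ hD.ne', h _ _ _ hD]

theorem chk1_chkC (p : ℕ) (m : List ℕ) (n s : ℕ) (hz : szR p m = n) (hn : n ≤ 300)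
    (h : chk1 p m n s = true) : chkC p 1 m n s = true ∧ s ≤ 300 := by
  obtain ⟨h1, h2⟩ := cd h
  have h3 : s ≤ 300 := Nat.le_of_ble_eq_true h2
  have h4 := Nat.le_of_ble_eq_true h1
  rw [fpR_eq n s (h3.trans (by norm_num)), fpR_eq 0 n (hn.trans (by norm_num)),
    fpR_eq 0 s (h3.trans (by norm_num)), hkR_eq, legR_eq] at h4
  refine ⟨?_, h3⟩
  unfold chkC
  rw [Bool.and_eq_true, Nat.ble_eq, one_mul]
  refine ⟨?_, h4⟩
  rw [beq_iff_eq, ← szA_eq, ← szR_eq]
  exact hz

theorem chk2_chkS (p : ℕ) (m : List ℕ) (n s : ℕ) (hz : szR p m = n)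
    (h : chk2 p m n s = true) : chkS p 1 m n s = true := by
  have h4 := Nat.le_of_ble_eq_true h
  rw [hkR_eq, legR_eq] at h4
  unfold chkS
  rw [Bool.and_eq_true, Nat.ble_eq, one_mul]
  refine ⟨?_, h4⟩
  rw [beq_iff_eq, ← szA_eq, ← szR_eq]
  exact hz

theorem chk3_chkB (p : ℕ) (m : List ℕ) (n s : ℕ) (hn : 0 < n) (hz : szR p m = n)
    (h : chk3 p m n s = true) : chkB p m n s = true := by
  obtain ⟨h1, h2⟩ := cd h
  have h4 := Nat.le_of_ble_eq_true h2
  rw [pairR_congr p m _ (fun i j D => (D ^ 2 - D) * (lgA p + 1) + D ^ 2 * (lgA D + 1) +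
        (if j < i ∧ 0 < D then 2 * (i - j) * D * (lgA D + 1) / p + 1 + 2 * D * (lgA (i - j) + 1)
          else 0)) (fun i j => by simp) ?_,
    pairR_congr p m _ (fun i j D => 4 * D + if j < i ∧ 0 < D then 4 else 0) (fun i j => by simp) ?_,
    pairR_congr p m (fun _ _ D => Nat.pow D 2) (fun _ _ D => D ^ 2) (fun i j => by simp)
      (fun _ _ _ _ => rfl),
    lgR_eq, lgR_eq, lgR_eq, lgR_eq, legR_eq] at h4
  · unfold chkB
    rw [Bool.and_eq_true, Bool.and_eq_true, Bool.and_eq_true, Nat.ble_eq, Nat.ble_eq, Nat.ble_eq]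
    refine ⟨⟨⟨?_, hn⟩, Nat.le_of_ble_eq_true h1⟩, h4⟩
    rw [beq_iff_eq, ← szR_eq]
    exact hz
  · intro i j D hD
    cases h : Nat.ble (Nat.succ j) i
    · have h1 : ¬ (j < i ∧ 0 < D) := fun h1 => by
        rw [Nat.ble_eq_true_of_le h1.1] at h
        exact Bool.noConfusion h
      rw [if_neg h1]
      rfl
    · have h1 : j < i := Nat.le_of_ble_eq_true h
      rw [if_pos ⟨h1, hD⟩]
      rfl
  · intro i j D hD
    rw [lgR_eq, lgR_eq]
    cases h : Nat.ble (Nat.succ j) i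
    · have h1 : ¬ (j < i ∧ 0 < D) := fun h1 => by
        rw [Nat.ble_eq_true_of_le h1.1] at h
        exact Bool.noConfusion h
      rw [if_neg h1]
      rfl
    · have h1 : j < i := Nat.le_of_ble_eq_true h
      have h2 : Nat.sub i j ≠ 0 := by
        show i - j ≠ 0
        omega
      have h3 : Nat.sub i j = i - j := rfl
      rw [if_pos ⟨h1, hD⟩, cond_true, fz_pos _ _ _ h2, h3, lgR_eq]
      rfl

theorem ent_step {p : ℕ} [Fact p.Prime] (m : List ℕ) (n s : ℕ) (hn : 0 < n)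
    (h : ent p m n s = true) (N : ℕ) (h1 : n ≤ N) (h2 : N ≤ n + s) (hb : Wl p 1 (N - n)) :
    Wl p 1 N := by
  obtain ⟨h3, h4⟩ := cd h
  have hz : szR p m = n := Nat.eq_of_beq_eq_true h3
  cases h5 : Nat.ble n 300
  · rw [h5, cond_false] at h4
    cases h6 : Nat.ble n 100000
    · rw [h6, cond_false] at h4
      exact chkB_step m n s (chk3_chkB p m n s hn hz h4) N h1 h2 hb
    · rw [h6, cond_true] at h4
      exact chkS_step 1 m n s hn (chk2_chkS p m n s hz h4) N h1 h2 hb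
  · rw [h5, cond_true] at h4
    have h6 := Nat.le_of_ble_eq_true h5
    obtain ⟨h7, h8⟩ := chk1_chkC p m n s hz h6 h4
    exact chk_step 1 m n s (h6.trans (by norm_num)) (h8.trans (by norm_num)) h7 N h1 h2 hb

theorem runR_step {p : ℕ} [Fact p.Prime] (L : List (List ℕ × ℕ × ℕ)) (cur e : ℕ)
    (h : runR p e L cur = true) (N : ℕ) (h1 : cur ≤ N) (h2 : N < e) :
    ∃ C n, 0 < n ∧ n ≤ N ∧ 1 ≤ C ∧ (Wl p C (N - n) → Wl p 1 N) := by
  induction L generalizing cur with
  | nil =>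
    have h3 : e ≤ cur := Nat.le_of_ble_eq_true h
    omega
  | cons x L ih =>
    obtain ⟨hx1, h3⟩ := cd h
    obtain ⟨hx2, h4⟩ := cd h3
    obtain ⟨hx3, h5⟩ := cd h4
    have hx1' : 1 ≤ x.2.1 := Nat.le_of_ble_eq_true hx1
    have hx2' : x.2.1 ≤ cur := Nat.le_of_ble_eq_true hx2
    by_cases hN : N ≤ x.2.1 + x.2.2
    · exact ⟨1, x.2.1, hx1', by omega, le_rfl,
        ent_step x.1 x.2.1 x.2.2 hx1' hx3 N (by omega) hN⟩
    · exact ih _ h5 (by show x.2.1 + x.2.2 + 1 ≤ N; omega)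

theorem okR_sound (p B n : ℕ) (ms : List (List ℕ)) (lo : ℕ) (h : okR p B n ms lo = true) :
    (∀ m ∈ ms, lo ≤ code m ∧ szR p m = n ∧ sumR (gR m) p = B ∧ m.length = p) ∧ ms.Nodup := by
  induction ms generalizing lo with
  | nil => exact ⟨fun m hm => absurd hm List.not_mem_nil, List.nodup_nil⟩
  | cons m ms ih =>
    obtain ⟨h1, h2⟩ := cd h
    obtain ⟨h3, h4⟩ := cd h2
    obtain ⟨h5, h6⟩ := cd h4
    obtain ⟨h7, h8⟩ := cd h6
    obtain ⟨h9, h10⟩ := ih _ h8
    have h1' : lo ≤ code m := Nat.le_of_ble_eq_true h1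
    refine ⟨fun x hx => ?_, ?_⟩
    · rcases List.mem_cons.1 hx with rfl | hx
      · exact ⟨h1', Nat.eq_of_beq_eq_true h3, Nat.eq_of_beq_eq_true h5, Nat.eq_of_beq_eq_true h7⟩
      · obtain ⟨h11, h12⟩ := h9 x hx
        exact ⟨by omega, h12⟩
    · rw [List.nodup_cons]
      refine ⟨fun hm => ?_, h10⟩
      have := (h9 m hm).1
      omega

theorem sqR_eq (p f : ℕ) (ms : List (List ℕ)) :
    sqR p f ms = (ms.map (fun m => (f / hkC p m) ^ 2)).sum := by
  induction ms with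
  | nil => rfl
  | cons m ms ih =>
    rw [List.map_cons, List.sum_cons, ← ih, ← hkR_eq]
    rfl

theorem mchkR_mchkC (p B n N : ℕ) (ms : List (List ℕ)) (hN : N ≤ 2 ^ 20)
    (h : mchkR p B n N ms = true) : mchkC p 1 B n N ms = true := by
  obtain ⟨h1, h2⟩ := cd h
  obtain ⟨h3, h4⟩ := cd h2
  obtain ⟨h5, h6⟩ := okR_sound p B n ms 0 h1
  have h3' : n ≤ N := Nat.le_of_ble_eq_true h3
  have h4' := Nat.le_of_ble_eq_true h4
  rw [fpR_eq 0 N hN, fpR_eq 0 n (h3'.trans hN), sqR_eq, legR_eq] at h4'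
  unfold mchkC
  rw [Bool.and_eq_true, Bool.and_eq_true, Bool.and_eq_true, List.all_eq_true, decide_eq_true_eq,
    Nat.ble_eq, Nat.ble_eq, one_mul]
  refine ⟨⟨⟨fun m hm => ?_, h6⟩, h3'⟩, h4'⟩
  obtain ⟨_, h7, h8, h9⟩ := h5 m hm
  rw [Bool.and_eq_true, Bool.and_eq_true, beq_iff_eq, beq_iff_eq, beq_iff_eq]
  refine ⟨⟨?_, ?_⟩, h9⟩
  · rw [← szA_eq, ← szR_eq]
    exact h7
  · rw [sumR_eq] at h8
    rw [← h8]
    congr 1
    funext i
    rw [gR_eq]

theorem mchkR_step {p : ℕ} [Fact p.Prime] (B n N : ℕ) (ms : List (List ℕ)) (hN : N ≤ 2 ^ 20)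
    (h : mchkR p B n N ms = true) : Wl p 1 N :=
  mchk_step 1 B n N ms hN (mchkR_mchkC p B n N ms hN h)

end Pool.Agent.Wil
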