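import Pool.Agent.Wil.Raw
import Pool.Agent.Wil.Cert19c

set_option autoImplicit false
set_option maxRecDepth 100000

/-! Small degrees, p = 19. -/

namespace Pool.Agent.Wil

theorem sk19_20 : Raw.mchkR 19 7 20 20 [[0, 1, 1, 0, 1, 1, 0, 1, 0, 0, 1, 0, 1, 0, 0, 0, 0, 0, 0],
    [0, 1, 1, 0, 1, 1, 0, 1, 0, 1, 0, 0, 0, 1, 0, 0, 0, 0, 0],
    [1, 0, 1, 0, 1, 1, 0, 1, 0, 0, 1, 0, 0, 1, 0, 0, 0, 0, 0]] = true := by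
  decide +kernel

theorem sk19_21 : Raw.mchkR 19 7 21 21 [[0, 1, 1, 0, 1, 0, 1, 1, 0, 0, 1, 0, 1, 0, 0, 0, 0, 0, 0],
    [1, 0, 1, 0, 1, 0, 1, 0, 1, 0, 1, 0, 1, 0, 0, 0, 0, 0, 0],
    [0, 1, 1, 0, 1, 1, 0, 1, 0, 0, 1, 0, 0, 1, 0, 0, 0, 0, 0]] = true := by
  decide +kernel

theorem sk19_22 : Raw.mchkR 19 7 22 22 [[0, 1, 1, 0, 1, 0, 1, 0, 1, 0, 1, 0, 1, 0, 0, 0, 0, 0, 0],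
    [1, 0, 1, 0, 1, 0, 1, 0, 1, 0, 1, 0, 0, 1, 0, 0, 0, 0, 0]] = true := by
  decide +kernel

theorem sk19_23 : Raw.mchkR 19 8 23 23 [[0, 1, 1, 1, 0, 1, 0, 1, 0, 1, 0, 1, 0, 1, 0, 0, 0, 0, 0],
    [1, 0, 1, 1, 0, 1, 0, 1, 0, 1, 0, 1, 0, 0, 1, 0, 0, 0, 0],
    [1, 1, 0, 1, 0, 1, 0, 1, 0, 1, 0, 1, 0, 0, 0, 1, 0, 0, 0]] = true := by
  decide +kernel

theorem sk19_24 : Raw.mchkR 19 8 24 24 [[0, 1, 1, 1, 0, 1, 0, 1, 0, 1, 0, 1, 0, 0, 1, 0, 0, 0, 0],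
    [1, 0, 1, 0, 1, 1, 0, 1, 0, 1, 0, 1, 0, 0, 1, 0, 0, 0, 0],
    [1, 0, 1, 1, 0, 1, 0, 1, 0, 1, 0, 1, 0, 0, 0, 1, 0, 0, 0]] = true := by
  decide +kernel

theorem sk19_25 : Raw.mchkR 19 8 25 25 [[0, 1, 1, 0, 1, 1, 0, 1, 0, 1, 0, 1, 0, 0, 1, 0, 0, 0, 0],
    [0, 1, 1, 1, 0, 1, 0, 1, 0, 1, 0, 1, 0, 0, 0, 1, 0, 0, 0],
    [1, 0, 1, 1, 0, 1, 0, 1, 0, 1, 0, 0, 1, 0, 0, 1, 0, 0, 0]] = true := by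
  decide +kernel

theorem sk19_26 : Raw.mchkR 19 8 26 26 [[0, 1, 1, 0, 1, 1, 0, 1, 0, 1, 0, 0, 1, 0, 1, 0, 0, 0, 0],
    [0, 1, 1, 0, 1, 1, 0, 1, 0, 1, 0, 1, 0, 0, 0, 1, 0, 0, 0],
    [0, 1, 1, 1, 0, 1, 0, 1, 0, 1, 0, 0, 1, 0, 0, 1, 0, 0, 0],
    [1, 0, 1, 0, 1, 1, 0, 1, 0, 1, 0, 0, 1, 0, 0, 1, 0, 0, 0]] = true := by
  decide +kernel

theorem sk19_27 : Raw.mchkR 19 8 27 27 [[0, 1, 1, 0, 1, 0, 1, 1, 0, 1, 0, 0, 1, 0, 1, 0, 0, 0, 0],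
    [0, 1, 1, 0, 1, 0, 1, 1, 0, 1, 0, 1, 0, 0, 0, 1, 0, 0, 0],
    [0, 1, 1, 0, 1, 1, 0, 1, 0, 1, 0, 0, 1, 0, 0, 1, 0, 0, 0],
    [0, 1, 1, 1, 0, 1, 0, 1, 0, 0, 1, 0, 1, 0, 0, 1, 0, 0, 0],
    [1, 0, 1, 0, 1, 1, 0, 1, 0, 0, 1, 0, 1, 0, 0, 1, 0, 0, 0]] = true := by
  decide +kernel

theorem sk19_28 : Raw.mchkR 19 9 28 28 [[1, 0, 1, 1, 0, 1, 0, 1, 1, 0, 0, 1, 0, 1, 0, 1, 0, 0, 0],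
    [1, 1, 0, 1, 0, 1, 0, 1, 0, 1, 0, 1, 0, 1, 0, 1, 0, 0, 0],
    [0, 1, 1, 1, 0, 1, 1, 0, 1, 0, 1, 0, 0, 1, 0, 0, 1, 0, 0],
    [1, 0, 1, 1, 0, 1, 0, 1, 1, 0, 1, 0, 0, 1, 0, 0, 1, 0, 0],
    [1, 0, 1, 1, 0, 1, 1, 0, 1, 0, 0, 1, 0, 1, 0, 0, 1, 0, 0],
    [1, 0, 1, 1, 0, 1, 1, 0, 1, 0, 1, 0, 0, 1, 0, 0, 0, 1, 0]] = true := by
  decide +kernel

theorem sk19_29 : Raw.mchkR 19 9 29 29 [[1, 0, 1, 1, 0, 1, 0, 1, 0, 1, 0, 1, 0, 1, 0, 1, 0, 0, 0],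
    [0, 1, 1, 1, 0, 1, 0, 1, 1, 0, 1, 0, 0, 1, 0, 0, 1, 0, 0],
    [1, 0, 1, 1, 0, 1, 0, 1, 0, 1, 1, 0, 0, 1, 0, 0, 1, 0, 0],
    [1, 0, 1, 1, 0, 1, 0, 1, 1, 0, 0, 1, 0, 1, 0, 0, 1, 0, 0],
    [1, 0, 1, 1, 0, 1, 1, 0, 0, 1, 0, 1, 0, 1, 0, 0, 1, 0, 0],
    [1, 1, 0, 1, 0, 1, 0, 1, 0, 1, 0, 1, 0, 1, 0, 0, 1, 0, 0]] = true := by
  decide +kernel

theorem sk19_30 : Raw.mchkR 19 9 30 30 [[0, 1, 1, 1, 0, 1, 0, 1, 0, 1, 0, 1, 0, 1, 0, 1, 0, 0, 0],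
    [1, 0, 1, 0, 1, 1, 0, 1, 0, 1, 0, 1, 0, 1, 0, 1, 0, 0, 0],
    [0, 1, 1, 1, 0, 1, 0, 1, 1, 0, 0, 1, 0, 1, 0, 0, 1, 0, 0],
    [1, 0, 1, 1, 0, 1, 0, 1, 0, 1, 0, 1, 0, 1, 0, 0, 1, 0, 0],
    [1, 1, 0, 1, 0, 1, 0, 1, 0, 1, 0, 1, 0, 0, 1, 0, 1, 0, 0],
    [1, 0, 1, 1, 0, 1, 0, 1, 1, 0, 0, 1, 0, 1, 0, 0, 0, 1, 0],
    [1, 1, 0, 1, 0, 1, 0, 1, 0, 1, 0, 1, 0, 1, 0, 0, 0, 1, 0]] = true := by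
  decide +kernel

theorem sk19_31 : Raw.mchkR 19 9 31 31 [[0, 1, 1, 0, 1, 1, 0, 1, 0, 1, 0, 1, 0, 1, 0, 1, 0, 0, 0],
    [0, 1, 1, 1, 0, 1, 0, 1, 0, 1, 0, 1, 0, 1, 0, 0, 1, 0, 0],
    [1, 0, 1, 0, 1, 1, 0, 1, 0, 1, 0, 1, 0, 1, 0, 0, 1, 0, 0],
    [1, 0, 1, 1, 0, 1, 0, 1, 0, 1, 0, 1, 0, 0, 1, 0, 1, 0, 0],
    [1, 0, 1, 1, 0, 1, 0, 1, 0, 1, 0, 1, 0, 1, 0, 0, 0, 1, 0],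
    [1, 1, 0, 1, 0, 1, 0, 1, 0, 1, 0, 1, 0, 0, 1, 0, 0, 1, 0]] = true := by
  decide +kernel

theorem sk19_32 : Raw.mchkR 19 10 32 32 [[0, 1, 1, 1, 1, 0, 1, 0, 1, 0, 1, 0, 1, 0, 1, 0, 0, 1, 0],
    [1, 0, 1, 1, 0, 1, 1, 0, 1, 0, 1, 0, 1, 0, 1, 0, 0, 1, 0],
    [1, 0, 1, 1, 1, 0, 1, 0, 1, 0, 1, 0, 1, 0, 0, 1, 0, 1, 0],
    [1, 1, 0, 1, 0, 1, 1, 0, 1, 0, 1, 0, 1, 0, 0, 1, 0, 1, 0],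
    [1, 0, 1, 1, 1, 0, 1, 0, 1, 0, 1, 0, 1, 0, 1, 0, 0, 0, 1],
    [1, 1, 0, 1, 0, 1, 1, 0, 1, 0, 1, 0, 1, 0, 1, 0, 0, 0, 1],
    [1, 1, 0, 1, 1, 0, 1, 0, 1, 0, 1, 0, 1, 0, 0, 1, 0, 0, 1]] = true := by
  decide +kernel

theorem sk19_33 : Raw.mchkR 19 10 33 33 [[2, 1, 0, 1, 1, 0, 1, 0, 1, 0, 1, 0, 1, 0, 0, 1, 0, 0, 0],
    [0, 1, 1, 1, 0, 1, 1, 0, 1, 0, 1, 0, 1, 0, 1, 0, 0, 1, 0],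
    [1, 0, 1, 1, 0, 1, 0, 1, 1, 0, 1, 0, 1, 0, 1, 0, 0, 1, 0],
    [1, 0, 1, 1, 0, 1, 1, 0, 1, 0, 1, 0, 1, 0, 0, 1, 0, 1, 0],
    [1, 0, 1, 1, 0, 1, 1, 0, 1, 0, 1, 0, 1, 0, 1, 0, 0, 0, 1],
    [1, 0, 1, 1, 1, 0, 1, 0, 1, 0, 1, 0, 1, 0, 0, 1, 0, 0, 1],
    [1, 1, 0, 1, 0, 1, 1, 0, 1, 0, 1, 0, 1, 0, 0, 1, 0, 0, 1],
    [1, 1, 0, 1, 1, 0, 1, 0, 1, 0, 1, 0, 0, 1, 0, 1, 0, 0, 1]] = true := by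
  decide +kernel

theorem sk19_34 : Raw.mchkR 19 10 34 34 [[2, 0, 1, 1, 1, 0, 1, 0, 1, 0, 1, 0, 1, 0, 0, 1, 0, 0, 0],
    [2, 1, 0, 1, 0, 1, 1, 0, 1, 0, 1, 0, 1, 0, 0, 1, 0, 0, 0],
    [0, 1, 1, 1, 0, 1, 1, 0, 1, 0, 1, 0, 1, 0, 0, 1, 0, 1, 0],
    [1, 0, 1, 1, 0, 1, 0, 1, 1, 0, 1, 0, 1, 0, 0, 1, 0, 1, 0],
    [0, 1, 1, 1, 0, 1, 1, 0, 1, 0, 1, 0, 1, 0, 1, 0, 0, 0, 1],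
    [1, 0, 1, 1, 0, 1, 0, 1, 1, 0, 1, 0, 1, 0, 1, 0, 0, 0, 1],
    [0, 1, 1, 1, 1, 0, 1, 0, 1, 0, 1, 0, 1, 0, 0, 1, 0, 0, 1],
    [1, 0, 1, 1, 0, 1, 1, 0, 1, 0, 1, 0, 1, 0, 0, 1, 0, 0, 1],
    [1, 0, 1, 1, 1, 0, 1, 0, 1, 0, 1, 0, 0, 1, 0, 1, 0, 0, 1],
    [1, 1, 0, 1, 0, 1, 1, 0, 1, 0, 1, 0, 0, 1, 0, 1, 0, 0, 1]] = true := by
  decide +kernel

theorem sk19_35 : Raw.mchkR 19 10 35 35 [[2, 0, 1, 1, 0, 1, 1, 0, 1, 0, 1, 0, 1, 0, 0, 1, 0, 0, 0],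
    [2, 0, 1, 1, 1, 0, 1, 0, 1, 0, 1, 0, 0, 1, 0, 1, 0, 0, 0],
    [2, 1, 0, 1, 0, 1, 1, 0, 1, 0, 1, 0, 0, 1, 0, 1, 0, 0, 0],
    [0, 1, 1, 1, 0, 1, 0, 1, 1, 0, 1, 0, 1, 0, 0, 1, 0, 1, 0],
    [1, 0, 1, 1, 0, 1, 0, 1, 1, 0, 1, 0, 0, 1, 0, 1, 0, 1, 0],
    [0, 1, 1, 1, 0, 1, 0, 1, 1, 0, 1, 0, 1, 0, 1, 0, 0, 0, 1],
    [0, 1, 1, 1, 0, 1, 1, 0, 1, 0, 1, 0, 1, 0, 0, 1, 0, 0, 1],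
    [1, 0, 1, 0, 1, 1, 1, 0, 1, 0, 1, 0, 1, 0, 0, 1, 0, 0, 1],
    [1, 0, 1, 1, 0, 1, 0, 1, 1, 0, 1, 0, 1, 0, 0, 1, 0, 0, 1],
    [1, 0, 1, 1, 0, 1, 1, 0, 1, 0, 1, 0, 0, 1, 0, 1, 0, 0, 1],
    [1, 1, 0, 1, 0, 1, 0, 1, 1, 0, 1, 0, 0, 1, 0, 1, 0, 0, 1],
    [1, 0, 1, 1, 0, 1, 1, 0, 1, 0, 1, 0, 1, 0, 0, 0, 1, 0, 1]] = true := by
  decide +kernel

theorem sk19_36 : Raw.mchkR 19 10 36 36 [[2, 0, 1, 1, 0, 1, 0, 1, 1, 0, 1, 0, 1, 0, 0, 1, 0, 0, 0],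
    [2, 0, 1, 1, 0, 1, 1, 0, 1, 0, 1, 0, 0, 1, 0, 1, 0, 0, 0],
    [2, 0, 1, 1, 0, 1, 1, 0, 1, 0, 1, 0, 1, 0, 0, 0, 1, 0, 0],
    [2, 0, 1, 1, 1, 0, 1, 0, 1, 0, 1, 0, 0, 1, 0, 0, 1, 0, 0],
    [0, 1, 1, 0, 1, 1, 0, 1, 1, 0, 1, 0, 1, 0, 1, 0, 0, 0, 1],
    [0, 1, 1, 0, 1, 1, 1, 0, 1, 0, 1, 0, 1, 0, 0, 1, 0, 0, 1],
    [0, 1, 1, 1, 0, 1, 0, 1, 1, 0, 1, 0, 1, 0, 0, 1, 0, 0, 1],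
    [1, 0, 1, 0, 1, 1, 0, 1, 1, 0, 1, 0, 1, 0, 0, 1, 0, 0, 1],
    [1, 0, 1, 1, 0, 1, 0, 1, 0, 1, 1, 0, 1, 0, 0, 1, 0, 0, 1],
    [0, 1, 1, 1, 0, 1, 1, 0, 1, 0, 1, 0, 0, 1, 0, 1, 0, 0, 1],
    [1, 0, 1, 0, 1, 1, 1, 0, 1, 0, 1, 0, 0, 1, 0, 1, 0, 0, 1],
    [1, 0, 1, 1, 0, 1, 0, 1, 1, 0, 1, 0, 0, 1, 0, 1, 0, 0, 1],
    [1, 0, 1, 1, 0, 1, 1, 0, 1, 0, 0, 1, 0, 1, 0, 1, 0, 0, 1],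
    [1, 0, 1, 1, 0, 1, 1, 0, 1, 0, 1, 0, 0, 1, 0, 0, 1, 0, 1]] = true := by
  decide +kernel

theorem sk19_37 : Raw.mchkR 19 10 37 37 [[2, 0, 1, 1, 0, 1, 0, 1, 0, 1, 1, 0, 1, 0, 0, 1, 0, 0, 0],
    [2, 0, 1, 1, 0, 1, 0, 1, 1, 0, 1, 0, 0, 1, 0, 1, 0, 0, 0],
    [2, 0, 1, 1, 0, 1, 1, 0, 1, 0, 0, 1, 0, 1, 0, 1, 0, 0, 0],
    [2, 0, 1, 1, 0, 1, 1, 0, 1, 0, 1, 0, 0, 1, 0, 0, 1, 0, 0],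
    [1, 0, 1, 1, 0, 1, 0, 1, 0, 1, 0, 1, 0, 1, 0, 1, 0, 1, 0],
    [0, 1, 1, 0, 1, 1, 0, 1, 1, 0, 1, 0, 1, 0, 0, 1, 0, 0, 1],
    [0, 1, 1, 1, 0, 1, 0, 1, 0, 1, 1, 0, 1, 0, 0, 1, 0, 0, 1],
    [1, 0, 1, 1, 0, 1, 0, 1, 0, 1, 0, 1, 1, 0, 0, 1, 0, 0, 1],
    [0, 1, 1, 0, 1, 1, 1, 0, 1, 0, 1, 0, 0, 1, 0, 1, 0, 0, 1],
    [0, 1, 1, 1, 0, 1, 0, 1, 1, 0, 1, 0, 0, 1, 0, 1, 0, 0, 1],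
    [1, 0, 1, 0, 1, 1, 0, 1, 1, 0, 1, 0, 0, 1, 0, 1, 0, 0, 1],
    [1, 0, 1, 1, 0, 1, 0, 1, 0, 1, 1, 0, 0, 1, 0, 1, 0, 0, 1],
    [0, 1, 1, 1, 0, 1, 1, 0, 1, 0, 0, 1, 0, 1, 0, 1, 0, 0, 1],
    [1, 0, 1, 1, 0, 1, 0, 1, 1, 0, 0, 1, 0, 1, 0, 1, 0, 0, 1],
    [1, 0, 1, 1, 0, 1, 1, 0, 0, 1, 0, 1, 0, 1, 0, 1, 0, 0, 1],
    [1, 1, 0, 1, 0, 1, 0, 1, 0, 1, 0, 1, 0, 1, 0, 1, 0, 0, 1],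
    [1, 0, 1, 1, 0, 1, 0, 1, 1, 0, 1, 0, 0, 1, 0, 0, 1, 0, 1]] = true := by
  decide +kernel

theorem sk19_38 : Raw.mchkR 19 9 38 38 [[0, 1, 1, 0, 1, 0, 1, 1, 0, 1, 0, 0, 1, 0, 0, 1, 0, 0, 1]] = true := by
  decide +kernel

theorem sk19_39 : Raw.mchkR 19 9 39 39 [[0, 1, 1, 0, 1, 0, 1, 0, 1, 0, 1, 0, 1, 0, 1, 0, 0, 0, 1]] = true := by
  decide +kernel

theorem sk19_40 : Raw.mchkR 19 9 40 40 [[0, 1, 1, 0, 1, 0, 1, 0, 1, 0, 1, 0, 1, 0, 0, 1, 0, 0, 1]] = true := by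
  decide +kernel

theorem sk19_41 : Raw.mchkR 19 10 41 41 [[0, 1, 1, 0, 1, 1, 0, 1, 0, 1, 0, 1, 0, 1, 0, 0, 1, 0, 1]] = true := by
  decide +kernel

theorem sk19_42 : Raw.mchkR 19 11 42 42 [[0, 2, 1, 1, 0, 1, 1, 0, 1, 0, 1, 0, 1, 0, 1, 0, 1, 0, 0]] = true := by
  decide +kernel

theorem sk19_43 : Raw.mchkR 19 10 43 43 [[0, 2, 1, 0, 1, 1, 0, 1, 0, 1, 0, 1, 0, 1, 0, 0, 1, 0, 0]] = true := by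
  decide +kernel

theorem sk19_44 : Raw.mchkR 19 11 44 44 [[0, 1, 2, 1, 0, 1, 1, 0, 1, 0, 1, 0, 1, 0, 1, 0, 0, 1, 0],
    [0, 2, 1, 1, 0, 1, 0, 1, 1, 0, 1, 0, 1, 0, 1, 0, 0, 1, 0]] = true := by
  decide +kernel

theorem sk19_45 : Raw.mchkR 19 11 45 45 [[0, 1, 2, 1, 0, 1, 1, 0, 1, 0, 1, 0, 1, 0, 0, 1, 0, 1, 0],
    [1, 0, 2, 1, 0, 1, 1, 0, 1, 0, 1, 0, 1, 0, 0, 1, 0, 0, 1]] = true := by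
  decide +kernel

theorem sk19_46 : Raw.mchkR 19 11 46 46 [[0, 1, 2, 1, 0, 1, 0, 1, 1, 0, 1, 0, 1, 0, 0, 1, 0, 1, 0],
    [0, 1, 2, 1, 0, 1, 1, 0, 1, 0, 1, 0, 1, 0, 0, 1, 0, 0, 1]] = true := by
  decide +kernel

theorem sk19_47 : Raw.mchkR 19 11 47 47 [[0, 1, 2, 0, 1, 1, 0, 1, 1, 0, 1, 0, 1, 0, 0, 1, 0, 1, 0],
    [0, 1, 2, 1, 0, 1, 0, 1, 1, 0, 1, 0, 1, 0, 0, 1, 0, 0, 1]] = true := by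
  decide +kernel

theorem sk19_48 : Raw.mchkR 19 11 48 48 [[0, 1, 2, 0, 1, 1, 0, 1, 0, 1, 1, 0, 1, 0, 0, 1, 0, 1, 0],
    [0, 1, 2, 0, 1, 1, 0, 1, 1, 0, 1, 0, 1, 0, 0, 1, 0, 0, 1],
    [0, 1, 2, 1, 0, 1, 0, 1, 1, 0, 1, 0, 0, 1, 0, 1, 0, 0, 1]] = true := by
  decide +kernel

theorem sk19_49 : Raw.mchkR 19 11 49 49 [[0, 1, 2, 0, 1, 1, 0, 1, 0, 1, 1, 0, 0, 1, 0, 1, 0, 1, 0],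
    [0, 1, 2, 0, 1, 1, 0, 1, 0, 1, 1, 0, 1, 0, 0, 1, 0, 0, 1],
    [0, 1, 2, 0, 1, 1, 0, 1, 1, 0, 1, 0, 0, 1, 0, 1, 0, 0, 1]] = true := by
  decide +kernel

theorem sk19_50 : Raw.mchkR 19 11 50 50 [[0, 1, 2, 0, 1, 1, 0, 1, 0, 1, 0, 1, 0, 1, 0, 1, 0, 1, 0],
    [0, 1, 2, 0, 1, 1, 0, 1, 0, 1, 1, 0, 0, 1, 0, 1, 0, 0, 1]] = true := by
  decide +kernel

theorem sk19_51 : Raw.mchkR 19 12 51 51 [[2, 0, 1, 2, 0, 1, 1, 0, 1, 0, 1, 0, 1, 0, 1, 0, 1, 0, 0],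
    [0, 1, 1, 2, 0, 1, 1, 0, 1, 0, 1, 0, 1, 0, 1, 0, 1, 0, 1]] = true := by
  decide +kernel

theorem sk19_52 : Raw.mchkR 19 11 52 52 [[0, 1, 2, 0, 1, 0, 1, 1, 0, 1, 0, 1, 0, 1, 0, 1, 0, 0, 1],
    [0, 1, 2, 0, 1, 1, 0, 1, 0, 1, 0, 1, 0, 1, 0, 0, 1, 0, 1]] = true := by
  decide +kernel

theorem sk19_53 : Raw.mchkR 19 13 53 53 [[0, 2, 1, 1, 2, 0, 1, 1, 0, 1, 0, 1, 0, 1, 0, 1, 0, 1, 0],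
    [1, 2, 0, 1, 1, 0, 2, 1, 0, 1, 0, 1, 0, 1, 0, 1, 0, 1, 0],
    [1, 2, 0, 1, 2, 0, 1, 0, 1, 1, 0, 1, 0, 1, 0, 1, 0, 0, 1]] = true := by
  decide +kernel

theorem sk19_54 : Raw.mchkR 19 13 54 54 [[0, 2, 1, 1, 2, 0, 1, 0, 1, 1, 0, 1, 0, 1, 0, 1, 0, 1, 0],
    [1, 2, 0, 1, 0, 2, 1, 0, 1, 1, 0, 1, 0, 1, 0, 1, 0, 1, 0],
    [1, 0, 2, 1, 2, 0, 1, 1, 0, 1, 0, 1, 0, 1, 0, 1, 0, 0, 1],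
    [1, 2, 0, 1, 1, 0, 2, 1, 0, 1, 0, 1, 0, 1, 0, 1, 0, 0, 1]] = true := by
  decide +kernel

theorem sk19_55 : Raw.mchkR 19 13 55 55 [[0, 2, 1, 1, 0, 2, 1, 1, 0, 1, 0, 1, 0, 1, 0, 1, 0, 1, 0],
    [1, 0, 2, 1, 0, 2, 1, 1, 0, 1, 0, 1, 0, 1, 0, 1, 0, 1, 0],
    [1, 0, 2, 1, 2, 0, 1, 0, 1, 1, 0, 1, 0, 1, 0, 1, 0, 0, 1],
    [1, 2, 0, 1, 0, 2, 1, 0, 1, 1, 0, 1, 0, 1, 0, 1, 0, 0, 1]] = true := by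
  decide +kernel

theorem sk19_56 : Raw.mchkR 19 13 56 56 [[0, 2, 1, 1, 0, 2, 1, 0, 1, 1, 0, 1, 0, 1, 0, 1, 0, 1, 0],
    [1, 0, 2, 1, 0, 2, 1, 0, 1, 1, 0, 1, 0, 1, 0, 1, 0, 1, 0],
    [1, 0, 2, 1, 0, 2, 1, 1, 0, 1, 0, 1, 0, 1, 0, 1, 0, 0, 1],
    [1, 0, 2, 1, 1, 0, 2, 1, 0, 1, 0, 1, 0, 1, 0, 1, 0, 0, 1]] = true := by
  decide +kernel

theorem sk19_57 : Raw.mchkR 19 12 57 57 [[0, 2, 1, 0, 2, 1, 0, 1, 1, 0, 1, 0, 1, 0, 1, 0, 0, 1, 0]] = true := by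
  decide +kernel

theorem sk19_58 : Raw.mchkR 19 12 58 58 [[0, 2, 1, 0, 2, 1, 0, 1, 1, 0, 1, 0, 1, 0, 0, 1, 0, 1, 0]] = true := by
  decide +kernel

theorem sk19_59 : Raw.mchkR 19 12 59 59 [[0, 2, 1, 0, 2, 1, 0, 1, 0, 1, 1, 0, 1, 0, 0, 1, 0, 1, 0]] = true := by
  decide +kernel

theorem sk19_60 : Raw.mchkR 19 12 60 60 [[0, 2, 1, 0, 2, 1, 0, 1, 0, 1, 1, 0, 0, 1, 0, 1, 0, 1, 0]] = true := by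
  decide +kernel

theorem sk19_61 : Raw.mchkR 19 12 61 61 [[0, 2, 1, 0, 2, 1, 0, 1, 0, 1, 0, 1, 0, 1, 0, 1, 0, 1, 0]] = true := by
  decide +kernel

theorem sk19_62 : Raw.mchkR 19 12 62 62 [[0, 2, 1, 0, 1, 2, 0, 1, 0, 1, 0, 1, 0, 1, 0, 1, 0, 1, 0]] = true := by
  decide +kernel

theorem sk19_63 : Raw.mchkR 19 13 63 63 [[0, 1, 2, 1, 0, 1, 2, 0, 1, 0, 1, 0, 1, 0, 1, 0, 1, 0, 1]] = true := by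
  decide +kernel

theorem sk19_64 : Raw.mchkR 19 13 64 64 [[0, 1, 2, 0, 1, 2, 0, 1, 1, 0, 1, 0, 1, 0, 1, 0, 1, 0, 1]] = true := by
  decide +kernel

theorem sk19_65 : Raw.mchkR 19 13 65 65 [[0, 1, 2, 0, 1, 2, 0, 1, 0, 1, 1, 0, 1, 0, 1, 0, 1, 0, 1]] = true := by
  decide +kernel

theorem sk19_66 : Raw.mchkR 19 14 66 66 [[0, 2, 1, 2, 0, 1, 2, 0, 1, 1, 0, 1, 0, 1, 0, 1, 0, 1, 0]] = true := by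
  decide +kernel

theorem sk19_67 : Raw.mchkR 19 14 67 67 [[0, 2, 1, 2, 0, 1, 2, 0, 1, 0, 1, 1, 0, 1, 0, 1, 0, 1, 0]] = true := by
  decide +kernel

theorem sk19_68 : Raw.mchkR 19 14 68 68 [[0, 2, 1, 2, 0, 1, 1, 0, 2, 1, 0, 1, 0, 1, 0, 1, 0, 1, 0]] = true := by
  decide +kernel

theorem sk19_69 : Raw.mchkR 19 14 69 69 [[0, 2, 1, 2, 0, 1, 1, 0, 2, 0, 1, 1, 0, 1, 0, 1, 0, 1, 0]] = true := by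
  decide +kernel

theorem sk19_70 : Raw.mchkR 19 14 70 70 [[0, 2, 1, 0, 2, 1, 1, 0, 2, 1, 0, 1, 0, 1, 0, 1, 0, 1, 0]] = true := by
  decide +kernel

theorem sk19_71 : Raw.mchkR 19 14 71 71 [[0, 2, 1, 0, 2, 1, 1, 0, 2, 0, 1, 1, 0, 1, 0, 1, 0, 1, 0]] = true := by
  decide +kernel

theorem sk19_72 : Raw.mchkR 19 14 72 72 [[0, 2, 1, 0, 2, 1, 1, 0, 2, 0, 1, 1, 0, 1, 0, 1, 0, 0, 1]] = true := by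
  decide +kernel

theorem sk19_73 : Raw.mchkR 19 14 73 73 [[0, 2, 1, 2, 0, 1, 1, 0, 2, 0, 1, 0, 1, 0, 1, 0, 1, 0, 1]] = true := by
  decide +kernel

theorem sk19_74 : Raw.mchkR 19 14 74 74 [[0, 2, 1, 2, 0, 1, 0, 1, 2, 0, 1, 0, 1, 0, 1, 0, 1, 0, 1]] = true := by
  decide +kernel

theorem sk19_75 : Raw.mchkR 19 14 75 75 [[0, 2, 1, 0, 2, 1, 0, 2, 1, 0, 1, 0, 1, 0, 1, 0, 1, 0, 1]] = true := by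
  decide +kernel

end Pool.Agent.Wil
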