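import Pool.Agent.Wil.Raw
import Pool.Agent.Wil.Small19

set_option autoImplicit false
set_option maxRecDepth 100000

/-! Explicit cores (runner heights, size, window), p = 17, degrees 68 to 33660. -/

namespace Pool.Agent.Wil

def ct17_0 : List (List Nat × Nat × Nat) := [
  ([1, 0, 2, 1, 0, 2, 1, 0, 0, 1, 2, 0, 1, 0, 0, 1, 1], 68, 0),
  ([1, 0, 2, 1, 2, 2, 0, 2, 1, 1, 0, 2, 1, 0, 1, 0, 1], 69, 0),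
  ([1, 2, 0, 1, 2, 2, 0, 2, 1, 0, 1, 1, 2, 0, 0, 1, 1], 70, 0),
  ([2, 2, 1, 1, 2, 0, 1, 2, 0, 2, 0, 1, 0, 1, 2, 0, 0], 71, 0),
  ([3, 1, 2, 2, 3, 1, 2, 1, 3, 1, 2, 2, 2, 0, 1, 2, 1], 72, 0),
  ([1, 2, 0, 2, 0, 1, 2, 0, 1, 0, 0, 2, 1, 0, 1, 1, 0], 73, 0),
  ([2, 0, 2, 1, 2, 1, 1, 2, 0, 2, 0, 1, 2, 0, 0, 1, 0], 74, 0),
  ([1, 1, 2, 2, 0, 2, 1, 2, 0, 1, 0, 2, 1, 2, 0, 0, 1], 75, 0),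
  ([3, 2, 1, 1, 2, 1, 2, 0, 2, 0, 1, 2, 1, 1, 2, 0, 0], 76, 0),
  ([1, 2, 1, 2, 0, 2, 1, 2, 0, 1, 0, 1, 2, 0, 1, 2, 0], 77, 0),
  ([1, 1, 2, 1, 2, 0, 2, 0, 1, 2, 1, 2, 0, 0, 1, 1, 2], 78, 0),
  ([1, 1, 2, 0, 1, 1, 2, 0, 2, 0, 2, 1, 0, 1, 2, 0, 1], 79, 0),
  ([2, 2, 1, 2, 1, 0, 2, 0, 2, 1, 0, 1, 2, 0, 2, 0, 0], 80, 0),
  ([1, 0, 2, 1, 2, 1, 0, 2, 0, 2, 1, 0, 2, 0, 1, 0, 1], 81, 0),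
  ([2, 1, 2, 1, 0, 2, 2, 1, 0, 2, 0, 2, 0, 1, 2, 0, 1], 82, 0),
  ([1, 2, 2, 0, 2, 1, 0, 2, 0, 1, 2, 0, 1, 1, 0, 2, 0], 83, 0),
  ([1, 2, 2, 0, 2, 1, 2, 0, 2, 1, 1, 0, 2, 0, 1, 0, 2], 84, 0),
  ([1, 2, 1, 2, 2, 0, 1, 0, 2, 0, 2, 2, 1, 1, 0, 2, 0], 85, 0),
  ([1, 1, 2, 2, 0, 0, 2, 2, 0, 1, 2, 1, 0, 1, 0, 1, 2], 86, 0),
  ([2, 1, 2, 1, 0, 2, 1, 2, 0, 1, 2, 2, 0, 2, 0, 2, 1], 87, 0),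
  ([0, 2, 1, 2, 0, 1, 0, 2, 1, 2, 0, 0, 2, 1, 0, 1, 1], 88, 0),
  ([0, 1, 2, 1, 2, 0, 2, 0, 1, 1, 0, 1, 2, 0, 1, 2, 0], 89, 0),
  ([2, 1, 2, 0, 2, 0, 1, 2, 0, 1, 0, 2, 0, 0, 2, 0, 1], 90, 0),
  ([2, 1, 0, 1, 2, 2, 0, 2, 0, 1, 0, 2, 0, 2, 0, 0, 1], 91, 0),
  ([2, 0, 2, 1, 0, 1, 2, 1, 0, 2, 1, 0, 2, 1, 0, 2, 0], 92, 0),
  ([2, 1, 0, 2, 0, 1, 2, 0, 1, 2, 0, 1, 2, 2, 0, 0, 1], 93, 0),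
  ([0, 1, 1, 2, 0, 2, 1, 0, 2, 0, 1, 2, 1, 0, 1, 2, 1], 94, 0),
  ([1, 3, 1, 0, 1, 2, 2, 0, 1, 1, 2, 2, 0, 1, 0, 2, 1], 95, 0),
  ([2, 1, 3, 1, 2, 0, 2, 1, 0, 2, 1, 2, 0, 2, 1, 2, 0], 96, 0),
  ([0, 2, 0, 2, 1, 1, 2, 2, 0, 1, 2, 0, 0, 1, 1, 0, 2], 97, 0),
  ([1, 1, 2, 0, 3, 2, 1, 2, 1, 2, 0, 1, 2, 0, 0, 1, 2], 98, 0),
  ([1, 0, 2, 1, 2, 2, 0, 1, 2, 1, 1, 0, 2, 0, 2, 0, 2], 99, 0),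
  ([0, 1, 1, 2, 0, 1, 2, 0, 2, 0, 1, 0, 2, 1, 1, 0, 2], 100, 0),
  ([0, 2, 0, 1, 2, 2, 0, 1, 2, 0, 2, 0, 2, 0, 1, 1, 0], 101, 0),
  ([3, 2, 0, 2, 2, 1, 2, 1, 1, 0, 2, 0, 0, 2, 2, 0, 0], 102, 0),
  ([1, 0, 3, 2, 0, 1, 1, 2, 2, 1, 2, 0, 0, 2, 1, 0, 1], 103, 0),
  ([2, 2, 1, 1, 2, 0, 0, 2, 0, 2, 1, 2, 0, 0, 2, 0, 2], 104, 0),
  ([1, 2, 2, 0, 1, 0, 2, 1, 0, 2, 0, 2, 1, 0, 2, 2, 0], 105, 0),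
  ([3, 3, 1, 2, 3, 1, 3, 2, 1, 3, 3, 2, 2, 1, 3, 0, 1], 106, 0),
  ([0, 2, 1, 3, 2, 1, 1, 2, 0, 2, 2, 0, 1, 2, 1, 0, 2], 107, 0),
  ([0, 1, 2, 2, 0, 2, 1, 1, 0, 1, 2, 2, 0, 0, 2, 1, 2], 108, 0),
  ([0, 2, 1, 0, 2, 2, 0, 2, 0, 2, 1, 2, 0, 1, 2, 0, 1], 109, 0),
  ([2, 0, 2, 3, 1, 2, 0, 1, 1, 2, 0, 2, 0, 0, 0, 2, 1], 110, 0),
  ([0, 2, 1, 2, 1, 3, 0, 2, 2, 0, 1, 1, 1, 2, 0, 2, 0], 111, 0),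
  ([1, 2, 2, 1, 3, 0, 1, 3, 2, 1, 2, 0, 2, 0, 2, 2, 1], 112, 0),
  ([0, 2, 3, 1, 2, 1, 2, 0, 1, 1, 0, 2, 0, 0, 2, 1, 2], 113, 0),
  ([0, 2, 1, 3, 0, 2, 1, 0, 2, 2, 0, 0, 2, 1, 1, 0, 0], 114, 0),
  ([2, 1, 1, 3, 2, 1, 0, 3, 2, 2, 0, 0, 2, 1, 0, 1, 2], 115, 0),
  ([2, 3, 1, 2, 0, 2, 1, 3, 0, 1, 2, 2, 1, 0, 2, 0, 2], 116, 0),
  ([0, 1, 2, 2, 1, 0, 2, 0, 2, 0, 2, 0, 0, 1, 2, 1, 2], 117, 0),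
  ([0, 1, 2, 2, 3, 1, 0, 2, 0, 1, 2, 0, 1, 2, 1, 0, 2], 118, 0),
  ([2, 2, 3, 0, 3, 1, 1, 2, 0, 1, 0, 2, 0, 2, 1, 2, 0], 119, 0),
  ([1, 0, 2, 1, 0, 2, 3, 1, 2, 0, 2, 0, 1, 0, 0, 1, 2], 120, 0),
  ([1, 2, 1, 3, 1, 0, 2, 1, 0, 3, 0, 2, 2, 2, 1, 0, 1], 121, 0),
  ([0, 1, 3, 2, 2, 0, 1, 2, 0, 1, 2, 2, 1, 0, 2, 2, 0], 122, 0),
  ([1, 2, 3, 0, 1, 1, 3, 0, 2, 1, 0, 2, 1, 2, 0, 1, 2], 123, 1),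
  ([3, 3, 0, 2, 0, 1, 0, 1, 2, 2, 1, 2, 0, 2, 0, 1, 0], 125, 0),
  ([0, 2, 3, 2, 1, 1, 2, 0, 3, 1, 0, 2, 2, 0, 1, 1, 2], 126, 0),
  ([2, 2, 2, 0, 1, 3, 1, 0, 1, 2, 3, 1, 0, 2, 0, 2, 0], 127, 0),
  ([0, 2, 1, 1, 2, 3, 0, 1, 3, 1, 2, 0, 1, 2, 2, 0, 1], 128, 0),
  ([2, 3, 1, 3, 1, 1, 2, 2, 0, 3, 0, 1, 3, 0, 2, 1, 1], 129, 0),
  ([2, 0, 1, 2, 3, 2, 1, 1, 3, 0, 0, 2, 2, 0, 2, 0, 1], 130, 0),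
  ([2, 0, 1, 0, 3, 0, 1, 2, 0, 2, 0, 2, 0, 1, 2, 0, 1], 131, 0),
  ([3, 1, 2, 1, 3, 2, 3, 1, 1, 0, 2, 3, 0, 0, 1, 2, 0], 132, 0),
  ([0, 1, 3, 1, 1, 3, 2, 0, 0, 2, 1, 0, 1, 2, 0, 2, 1], 133, 0),
  ([3, 0, 2, 0, 3, 1, 2, 2, 0, 0, 0, 2, 1, 2, 1, 0, 1], 134, 0),
  ([2, 1, 2, 3, 0, 0, 2, 3, 2, 0, 1, 2, 0, 2, 0, 2, 1], 135, 0),
  ([1, 1, 2, 0, 3, 1, 3, 1, 2, 1, 3, 0, 2, 2, 0, 2, 1], 136, 0),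
  ([2, 3, 0, 3, 1, 2, 0, 3, 1, 2, 2, 1, 2, 0, 0, 2, 0], 137, 1),
  ([3, 1, 0, 1, 2, 2, 3, 0, 2, 1, 0, 1, 3, 0, 2, 1, 1], 139, 0),
  ([0, 1, 2, 1, 3, 3, 0, 2, 2, 0, 2, 2, 0, 1, 0, 1, 2], 140, 0),
  ([0, 1, 0, 3, 1, 3, 1, 1, 0, 2, 0, 2, 1, 2, 1, 1, 2], 141, 0),
  ([0, 2, 0, 3, 1, 1, 2, 2, 3, 0, 0, 1, 2, 1, 0, 1, 2], 142, 0),
  ([3, 3, 1, 1, 3, 2, 0, 3, 0, 2, 3, 2, 1, 1, 0, 0, 1], 143, 0),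
  ([3, 1, 3, 1, 2, 0, 3, 1, 3, 1, 2, 0, 1, 1, 1, 3, 0], 144, 0),
  ([2, 2, 0, 1, 1, 3, 0, 2, 2, 3, 0, 0, 1, 2, 0, 0, 2], 145, 0),
  ([1, 3, 2, 0, 1, 2, 0, 1, 0, 2, 0, 3, 1, 0, 2, 2, 0], 146, 0),
  ([0, 2, 0, 1, 3, 3, 1, 1, 0, 2, 2, 0, 1, 1, 0, 2, 2], 147, 0),
  ([3, 3, 0, 1, 0, 2, 3, 1, 3, 1, 2, 1, 0, 2, 0, 1, 0], 148, 0),
  ([2, 3, 0, 3, 1, 1, 2, 3, 2, 0, 3, 0, 2, 0, 1, 1, 0], 149, 0),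
  ([1, 1, 1, 2, 3, 3, 0, 3, 1, 2, 1, 0, 2, 3, 0, 1, 2], 150, 0),
  ([1, 3, 2, 1, 3, 3, 0, 3, 0, 2, 1, 1, 0, 2, 3, 1, 1], 151, 0)]

theorem ct17_0_ok : Raw.runR 17 152 ct17_0 68 = true := by decide +kernel

def ct17_1 : List (List Nat × Nat × Nat) := [
  ([1, 1, 2, 3, 0, 3, 1, 3, 0, 2, 1, 1, 2, 3, 0, 1, 2], 152, 1),
  ([2, 1, 3, 2, 0, 0, 3, 0, 2, 1, 1, 3, 1, 0, 2, 2, 0], 154, 1),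
  ([3, 2, 0, 3, 3, 1, 3, 1, 0, 1, 2, 3, 2, 1, 0, 0, 2], 156, 0),
  ([1, 3, 3, 2, 2, 0, 3, 1, 3, 2, 0, 0, 2, 1, 3, 0, 1], 157, 1),
  ([2, 3, 3, 0, 3, 1, 2, 1, 0, 3, 1, 1, 2, 0, 0, 3, 1], 159, 0),
  ([3, 1, 1, 3, 3, 1, 1, 2, 3, 0, 2, 0, 0, 3, 0, 1, 2], 160, 0),
  ([0, 2, 3, 1, 1, 1, 3, 2, 0, 3, 0, 1, 2, 0, 0, 2, 2], 161, 1),
  ([3, 2, 1, 1, 0, 3, 2, 1, 1, 2, 0, 3, 0, 1, 0, 2, 3], 163, 0),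
  ([1, 2, 3, 3, 0, 2, 0, 3, 1, 1, 0, 1, 3, 2, 0, 2, 0], 164, 0),
  ([1, 2, 3, 0, 2, 3, 1, 2, 0, 2, 1, 3, 0, 0, 2, 3, 1], 165, 1),
  ([3, 0, 3, 1, 3, 1, 2, 3, 0, 2, 1, 3, 0, 1, 0, 2, 2], 167, 0),
  ([2, 1, 2, 1, 3, 0, 0, 3, 2, 1, 2, 0, 0, 2, 0, 3, 2], 168, 0),
  ([1, 3, 0, 1, 3, 2, 3, 0, 0, 3, 2, 1, 2, 1, 3, 1, 1], 169, 0),
  ([3, 1, 1, 0, 3, 1, 2, 3, 2, 0, 0, 2, 0, 3, 2, 0, 1], 170, 1),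
  ([3, 1, 0, 1, 2, 0, 2, 3, 0, 1, 2, 3, 0, 0, 2, 2, 0], 172, 1),
  ([2, 0, 1, 3, 1, 3, 0, 2, 1, 3, 0, 2, 1, 0, 3, 1, 2], 174, 2),
  ([2, 3, 0, 1, 0, 3, 3, 1, 1, 2, 0, 0, 2, 3, 0, 2, 1], 177, 1),
  ([3, 0, 3, 1, 2, 0, 2, 2, 3, 0, 0, 1, 3, 0, 1, 0, 2], 179, 1),
  ([3, 3, 0, 1, 3, 3, 0, 3, 1, 2, 2, 1, 3, 0, 2, 0, 0], 181, 0),
  ([2, 3, 3, 0, 0, 2, 3, 0, 2, 2, 3, 0, 1, 1, 3, 0, 1], 182, 0),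
  ([2, 0, 3, 3, 0, 2, 1, 2, 1, 0, 2, 3, 1, 0, 2, 0, 3], 183, 1),
  ([3, 0, 3, 0, 3, 2, 1, 3, 0, 2, 1, 0, 3, 0, 1, 2, 1], 185, 1),
  ([1, 3, 0, 1, 3, 1, 2, 2, 3, 0, 2, 0, 3, 0, 1, 1, 3], 187, 2),
  ([1, 0, 2, 3, 1, 3, 0, 2, 2, 1, 1, 0, 3, 3, 2, 3, 1], 190, 0),
  ([1, 3, 1, 2, 3, 0, 0, 1, 3, 0, 3, 1, 2, 0, 2, 1, 3], 191, 2),
  ([0, 2, 3, 1, 3, 1, 2, 2, 0, 0, 3, 1, 3, 1, 0, 2, 3], 194, 1),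
  ([0, 3, 1, 3, 3, 2, 1, 0, 2, 0, 3, 2, 0, 0, 3, 2, 1], 196, 1),
  ([3, 3, 2, 1, 2, 0, 3, 2, 0, 1, 0, 3, 0, 3, 0, 3, 1], 198, 1),
  ([3, 2, 2, 3, 1, 3, 4, 0, 2, 0, 3, 1, 2, 0, 3, 0, 0], 200, 1),
  ([0, 3, 0, 2, 3, 1, 3, 3, 0, 2, 0, 2, 0, 3, 1, 2, 1], 202, 1),
  ([1, 2, 3, 1, 2, 3, 0, 0, 3, 1, 3, 0, 1, 2, 3, 0, 3], 204, 2),
  ([3, 1, 1, 4, 3, 1, 3, 1, 0, 2, 3, 1, 3, 0, 0, 2, 3], 207, 2),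
  ([4, 1, 3, 3, 2, 3, 0, 0, 2, 1, 1, 3, 1, 3, 0, 3, 0], 210, 1),
  ([1, 0, 1, 3, 2, 3, 2, 0, 3, 3, 1, 1, 0, 3, 2, 0, 3], 212, 1),
  ([2, 1, 4, 1, 3, 0, 3, 3, 0, 2, 3, 0, 1, 2, 0, 1, 3], 214, 2),
  ([2, 0, 2, 0, 2, 3, 1, 0, 3, 1, 0, 3, 1, 1, 2, 3, 3], 217, 0),
  ([3, 2, 1, 3, 0, 1, 3, 3, 0, 2, 0, 0, 2, 0, 3, 3, 0], 218, 1),
  ([1, 2, 4, 0, 1, 2, 1, 0, 3, 3, 0, 3, 2, 3, 0, 1, 2], 220, 1),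
  ([0, 2, 0, 2, 3, 1, 2, 3, 3, 0, 1, 0, 2, 3, 0, 2, 3], 222, 2),
  ([2, 4, 1, 0, 3, 1, 0, 3, 0, 2, 2, 3, 0, 1, 3, 0, 2], 225, 3),
  ([3, 0, 1, 3, 1, 1, 4, 0, 3, 2, 3, 1, 3, 0, 3, 1, 2], 229, 1),
  ([1, 0, 1, 2, 3, 0, 2, 3, 0, 1, 3, 2, 0, 2, 0, 3, 3], 231, 2),
  ([3, 3, 4, 1, 3, 0, 1, 3, 2, 0, 0, 3, 3, 0, 0, 0, 2], 234, 0),
  ([1, 1, 3, 3, 1, 0, 2, 3, 0, 4, 1, 2, 0, 3, 1, 0, 3], 235, 2),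
  ([1, 2, 2, 0, 4, 3, 1, 0, 3, 0, 2, 3, 3, 0, 1, 2, 3], 238, 3),
  ([1, 2, 4, 0, 1, 2, 3, 0, 2, 3, 0, 1, 3, 0, 3, 2, 3], 242, 3),
  ([1, 2, 5, 2, 3, 4, 2, 4, 1, 2, 3, 1, 3, 4, 2, 4, 0], 246, 2),
  ([0, 3, 1, 1, 1, 3, 4, 0, 2, 3, 0, 2, 1, 3, 3, 1, 3], 249, 2),
  ([2, 1, 3, 0, 3, 1, 4, 3, 0, 2, 0, 3, 1, 3, 0, 3, 0], 252, 3),
  ([4, 3, 1, 2, 1, 3, 0, 0, 1, 4, 3, 0, 3, 2, 1, 0, 3], 256, 2),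
  ([2, 2, 4, 3, 0, 1, 2, 3, 2, 3, 0, 4, 0, 3, 0, 3, 0], 259, 2),
  ([2, 4, 0, 3, 0, 1, 3, 0, 1, 2, 3, 4, 0, 1, 3, 1, 2], 262, 2),
  ([3, 1, 3, 2, 4, 3, 0, 2, 0, 3, 1, 0, 0, 4, 2, 3, 0], 265, 1),
  ([3, 1, 2, 2, 0, 1, 3, 4, 3, 1, 3, 0, 2, 0, 4, 0, 3], 267, 2),
  ([1, 3, 0, 3, 1, 4, 4, 0, 3, 1, 1, 2, 0, 3, 0, 2, 3], 270, 3),
  ([0, 3, 3, 4, 1, 1, 0, 3, 4, 3, 1, 1, 0, 3, 1, 3, 0], 274, 2),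
  ([1, 3, 3, 0, 3, 2, 0, 4, 3, 0, 1, 3, 4, 1, 0, 0, 2], 277, 2),
  ([3, 2, 0, 3, 1, 4, 1, 4, 0, 3, 2, 4, 2, 0, 0, 1, 3], 280, 3),
  ([3, 1, 3, 0, 4, 0, 4, 2, 1, 3, 2, 2, 1, 0, 4, 3, 0], 284, 3),
  ([0, 3, 1, 4, 3, 2, 4, 0, 4, 0, 0, 3, 1, 2, 2, 3, 1], 288, 2),
  ([4, 0, 1, 3, 0, 3, 4, 3, 0, 2, 1, 1, 4, 3, 1, 0, 2], 291, 3),
  ([0, 4, 2, 1, 3, 3, 4, 0, 2, 1, 0, 4, 0, 3, 1, 2, 3], 295, 4),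
  ([1, 3, 0, 3, 2, 3, 4, 0, 4, 1, 2, 2, 4, 0, 1, 1, 4], 300, 3),
  ([4, 0, 1, 3, 2, 0, 3, 4, 1, 3, 1, 4, 0, 2, 3, 0, 3], 304, 3),
  ([3, 1, 3, 4, 1, 1, 4, 2, 0, 3, 0, 4, 4, 0, 3, 2, 0], 308, 3),
  ([3, 4, 0, 2, 2, 2, 4, 0, 3, 1, 1, 0, 4, 2, 0, 3, 4], 312, 2),
  ([1, 4, 1, 3, 4, 0, 2, 3, 0, 2, 4, 0, 0, 3, 4, 1, 1], 315, 4),
  ([3, 0, 1, 4, 3, 2, 0, 4, 1, 4, 3, 3, 2, 0, 1, 4, 0], 320, 3),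
  ([4, 0, 3, 1, 2, 4, 0, 1, 0, 4, 3, 1, 4, 2, 0, 3, 1], 323, 4),
  ([4, 2, 1, 2, 0, 4, 4, 2, 0, 4, 2, 4, 0, 3, 1, 1, 4], 328, 3),
  ([1, 3, 4, 2, 1, 0, 3, 4, 0, 2, 2, 4, 1, 0, 1, 4, 4], 332, 3),
  ([3, 4, 2, 1, 4, 0, 3, 1, 0, 4, 1, 3, 4, 2, 0, 0, 4], 336, 4),
  ([1, 4, 1, 0, 3, 4, 0, 4, 1, 2, 1, 4, 3, 0, 1, 2, 4], 341, 5),
  ([3, 0, 2, 4, 1, 2, 0, 4, 0, 2, 3, 0, 0, 4, 2, 1, 4], 347, 4),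
  ([3, 0, 4, 4, 0, 1, 5, 3, 1, 3, 1, 4, 2, 1, 0, 0, 3], 352, 3),
  ([4, 2, 2, 1, 3, 0, 3, 4, 0, 0, 3, 4, 0, 1, 4, 1, 4], 356, 3),
  ([2, 0, 4, 4, 1, 1, 5, 3, 3, 1, 0, 2, 4, 0, 2, 4, 3], 360, 4),
  ([2, 0, 4, 1, 4, 4, 2, 5, 0, 0, 2, 3, 2, 1, 0, 1, 4], 365, 2),
  ([1, 4, 1, 3, 1, 4, 2, 0, 2, 4, 3, 5, 0, 4, 1, 4, 3], 368, 4),
  ([1, 5, 4, 1, 2, 4, 0, 1, 2, 4, 0, 4, 3, 4, 0, 1, 3], 373, 4),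
  ([4, 1, 4, 5, 1, 2, 5, 0, 2, 3, 3, 0, 0, 4, 2, 0, 3], 378, 4),
  ([5, 4, 2, 2, 1, 5, 0, 3, 4, 0, 3, 4, 4, 0, 2, 1, 0], 382, 5)]

theorem ct17_1_ok : Raw.runR 17 388 ct17_1 152 = true := by decide +kernel

def ct17_2 : List (List Nat × Nat × Nat) := [
  ([1, 3, 4, 0, 4, 2, 0, 5, 2, 3, 0, 4, 1, 3, 3, 4, 0], 387, 4),
  ([5, 1, 4, 2, 5, 0, 1, 3, 4, 2, 1, 0, 4, 0, 3, 4, 1], 392, 6),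
  ([0, 2, 4, 5, 2, 3, 0, 4, 0, 0, 4, 3, 1, 2, 0, 2, 4], 399, 5),
  ([1, 3, 2, 4, 3, 4, 5, 1, 0, 5, 2, 4, 0, 5, 2, 0, 2], 405, 3),
  ([4, 1, 2, 0, 4, 5, 3, 1, 3, 0, 4, 0, 2, 1, 4, 4, 4], 409, 4),
  ([4, 0, 5, 3, 1, 1, 2, 5, 1, 0, 3, 2, 4, 4, 1, 4, 0], 413, 5),
  ([5, 2, 2, 5, 1, 3, 0, 2, 5, 0, 4, 1, 3, 4, 0, 0, 3], 419, 6),
  ([4, 0, 1, 3, 1, 5, 2, 4, 1, 0, 5, 2, 0, 4, 4, 3, 2], 426, 5),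
  ([2, 4, 4, 0, 0, 5, 3, 0, 1, 3, 4, 2, 0, 4, 1, 0, 4], 432, 6),
  ([4, 2, 1, 5, 2, 5, 1, 3, 5, 0, 1, 4, 4, 0, 5, 3, 1], 439, 7),
  ([3, 1, 1, 4, 5, 0, 3, 2, 2, 0, 4, 5, 4, 0, 3, 0, 4], 447, 6),
  ([3, 0, 1, 2, 4, 0, 4, 4, 0, 2, 0, 4, 1, 4, 1, 3, 5], 454, 5),
  ([5, 2, 5, 0, 1, 5, 3, 0, 4, 1, 1, 3, 2, 5, 0, 2, 4], 460, 7),
  ([1, 5, 4, 0, 5, 2, 1, 4, 1, 3, 1, 4, 3, 4, 0, 0, 5], 468, 6),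
  ([5, 0, 4, 4, 3, 1, 1, 1, 5, 3, 0, 5, 3, 1, 2, 5, 0], 475, 6),
  ([5, 4, 3, 0, 4, 3, 2, 0, 5, 4, 1, 2, 0, 5, 0, 5, 2], 482, 6),
  ([1, 2, 5, 4, 5, 2, 0, 0, 3, 1, 4, 5, 2, 5, 0, 4, 1], 489, 6),
  ([1, 4, 5, 1, 2, 4, 0, 0, 5, 4, 4, 0, 1, 2, 5, 4, 1], 496, 7),
  ([3, 0, 5, 0, 4, 4, 1, 0, 2, 5, 5, 1, 4, 1, 4, 2, 0], 504, 7),
  ([1, 1, 2, 4, 5, 2, 0, 3, 4, 5, 0, 4, 5, 0, 1, 5, 2], 512, 7),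
  ([4, 1, 2, 4, 6, 0, 1, 4, 4, 0, 4, 5, 0, 1, 3, 5, 2], 519, 7),
  ([4, 6, 0, 1, 3, 3, 5, 0, 2, 0, 5, 5, 4, 1, 2, 1, 4], 527, 7),
  ([0, 2, 5, 3, 5, 0, 6, 2, 1, 4, 5, 1, 4, 0, 3, 4, 1], 534, 8),
  ([2, 0, 1, 4, 5, 0, 4, 1, 2, 5, 0, 4, 1, 3, 5, 2, 5], 543, 9),
  ([5, 0, 5, 1, 4, 2, 4, 4, 0, 6, 1, 5, 3, 0, 0, 1, 3], 553, 7),
  ([1, 5, 1, 2, 4, 0, 2, 1, 6, 4, 5, 3, 0, 0, 4, 5, 2], 561, 8),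
  ([4, 6, 3, 0, 5, 2, 1, 5, 0, 2, 5, 0, 6, 1, 3, 1, 3], 569, 8),
  ([0, 6, 1, 1, 2, 5, 5, 0, 3, 5, 4, 1, 4, 5, 0, 3, 2], 578, 9),
  ([2, 1, 6, 5, 0, 5, 6, 3, 1, 4, 0, 4, 1, 3, 0, 5, 2], 588, 11),
  ([2, 5, 4, 1, 2, 5, 1, 0, 3, 6, 0, 3, 5, 5, 1, 0, 5], 600, 11),
  ([2, 5, 6, 1, 3, 6, 2, 5, 0, 5, 0, 6, 0, 2, 4, 3, 4], 612, 10),
  ([2, 5, 1, 2, 5, 0, 6, 2, 3, 0, 4, 5, 0, 2, 5, 0, 5], 623, 13),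
  ([1, 4, 3, 1, 6, 5, 0, 5, 1, 3, 0, 5, 0, 6, 2, 4, 4], 637, 12),
  ([4, 6, 1, 6, 2, 1, 6, 3, 0, 3, 5, 0, 5, 6, 4, 1, 1], 650, 13),
  ([1, 4, 1, 6, 5, 5, 2, 0, 0, 6, 4, 1, 3, 5, 2, 1, 6], 664, 13),
  ([5, 1, 4, 6, 4, 0, 2, 6, 2, 0, 6, 5, 0, 2, 3, 5, 0], 677, 14),
  ([4, 3, 0, 6, 1, 6, 2, 5, 0, 5, 3, 1, 0, 4, 6, 1, 5], 691, 15),
  ([7, 3, 0, 4, 6, 4, 1, 5, 5, 0, 4, 6, 0, 2, 1, 0, 4], 707, 12),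
  ([1, 6, 0, 2, 5, 3, 5, 4, 0, 7, 3, 1, 4, 1, 5, 1, 6], 720, 13),
  ([3, 5, 0, 2, 6, 3, 2, 7, 1, 6, 0, 4, 0, 4, 4, 6, 1], 734, 13),
  ([6, 2, 5, 0, 3, 5, 4, 5, 0, 6, 1, 0, 2, 6, 2, 6, 0], 748, 15),
  ([6, 4, 3, 5, 0, 5, 7, 0, 1, 6, 2, 0, 1, 5, 6, 3, 1], 764, 14),
  ([3, 2, 5, 3, 2, 5, 0, 7, 0, 6, 1, 5, 3, 1, 6, 6, 0], 779, 14),
  ([6, 0, 6, 6, 2, 5, 4, 1, 0, 6, 1, 2, 2, 7, 5, 0, 3], 794, 14),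
  ([1, 6, 0, 6, 2, 4, 7, 4, 0, 5, 1, 6, 2, 0, 6, 2, 4], 809, 19),
  ([1, 6, 5, 7, 7, 2, 3, 1, 5, 0, 6, 3, 0, 4, 6, 1, 0], 828, 15),
  ([7, 0, 7, 2, 4, 1, 6, 1, 5, 3, 7, 0, 4, 1, 5, 1, 5], 844, 19),
  ([1, 4, 1, 6, 3, 5, 0, 1, 5, 0, 7, 2, 7, 1, 5, 6, 3], 864, 17),
  ([0, 5, 2, 4, 2, 6, 3, 5, 1, 7, 4, 0, 6, 2, 7, 1, 7], 882, 18),
  ([4, 0, 1, 6, 7, 3, 7, 1, 4, 5, 0, 7, 0, 2, 6, 2, 4], 901, 20),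
  ([4, 2, 8, 4, 0, 1, 7, 6, 1, 7, 3, 3, 1, 6, 4, 0, 6], 922, 21),
  ([1, 7, 7, 0, 2, 4, 6, 7, 1, 1, 6, 3, 4, 0, 7, 2, 5], 944, 22),
  ([2, 7, 0, 7, 5, 1, 1, 4, 6, 1, 7, 0, 3, 4, 6, 7, 2], 967, 22),
  ([5, 7, 1, 1, 6, 6, 0, 3, 6, 0, 2, 7, 1, 3, 5, 0, 7], 990, 23),
  ([1, 7, 5, 0, 3, 4, 4, 7, 1, 7, 3, 6, 0, 2, 8, 5, 0], 1014, 21),
  ([3, 5, 7, 0, 5, 7, 1, 0, 6, 3, 7, 2, 6, 0, 2, 7, 0], 1036, 25),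
  ([7, 7, 1, 6, 0, 4, 8, 6, 0, 3, 7, 3, 7, 2, 0, 5, 1], 1062, 24),
  ([2, 6, 1, 7, 0, 8, 7, 3, 1, 5, 6, 4, 1, 0, 5, 2, 8], 1087, 24),
  ([8, 0, 3, 6, 4, 5, 2, 1, 8, 1, 7, 2, 7, 5, 1, 7, 0], 1111, 26),
  ([8, 2, 7, 2, 8, 2, 7, 3, 5, 0, 6, 7, 0, 3, 6, 0, 0], 1138, 26),
  ([4, 8, 6, 0, 7, 5, 1, 8, 2, 2, 8, 4, 2, 8, 1, 6, 0], 1165, 30),
  ([6, 8, 1, 3, 7, 1, 4, 7, 3, 6, 0, 8, 0, 5, 8, 2, 0], 1195, 32),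
  ([5, 8, 2, 6, 9, 7, 2, 0, 6, 2, 7, 5, 1, 3, 0, 0, 8], 1228, 27),
  ([9, 3, 1, 8, 8, 0, 8, 1, 7, 3, 4, 5, 0, 1, 6, 6, 2], 1255, 30),
  ([8, 1, 7, 0, 1, 8, 4, 9, 6, 0, 1, 7, 2, 5, 3, 7, 4], 1285, 30),
  ([5, 0, 3, 7, 8, 6, 1, 3, 8, 1, 5, 0, 7, 1, 2, 8, 8], 1316, 33),
  ([8, 8, 5, 0, 3, 9, 1, 4, 6, 8, 0, 4, 2, 6, 1, 8, 0], 1349, 36),
  ([3, 5, 1, 0, 6, 1, 9, 7, 5, 3, 8, 2, 0, 6, 1, 8, 8], 1386, 34),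
  ([7, 9, 0, 7, 2, 1, 9, 7, 1, 4, 0, 9, 7, 5, 3, 3, 1], 1421, 35),
  ([3, 9, 5, 0, 8, 2, 6, 7, 1, 1, 9, 5, 7, 0, 3, 8, 0], 1457, 41),
  ([9, 0, 6, 3, 3, 9, 6, 9, 0, 5, 1, 8, 2, 6, 8, 0, 2], 1499, 40),
  ([8, 3, 6, 4, 0, 7, 0, 8, 0, 9, 4, 1, 6, 7, 9, 2, 0], 1540, 40),
  ([4, 1, 0, 9, 8, 6, 1, 3, 2, 7, 9, 8, 1, 5, 0, 3, 9], 1581, 39),
  ([8, 0, 10, 1, 4, 6, 1, 3, 9, 8, 8, 3, 6, 1, 9, 0, 4], 1621, 43),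
  ([0, 1, 9, 9, 0, 8, 3, 6, 5, 1, 7, 9, 3, 9, 1, 3, 7], 1664, 43),
  ([5, 1, 9, 9, 0, 7, 3, 8, 1, 10, 4, 9, 0, 3, 8, 1, 6], 1707, 48),
  ([9, 3, 3, 6, 10, 0, 4, 10, 1, 7, 8, 0, 9, 0, 1, 5, 6], 1755, 49),
  ([11, 3, 9, 10, 1, 7, 3, 6, 8, 2, 10, 4, 10, 1, 5, 0, 9], 1805, 51),
  ([5, 2, 10, 0, 6, 7, 9, 7, 1, 0, 9, 5, 1, 10, 0, 3, 8], 1856, 52),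
  ([7, 0, 3, 6, 9, 0, 10, 1, 10, 7, 6, 4, 1, 4, 9, 1, 10], 1909, 52),
  ([3, 10, 1, 7, 4, 10, 8, 0, 6, 11, 6, 0, 9, 4, 1, 9, 1], 1961, 56),
  ([2, 3, 8, 4, 11, 0, 7, 5, 9, 0, 10, 9, 6, 1, 4, 10, 0], 2017, 56)]

theorem ct17_2_ok : Raw.runR 17 2074 ct17_2 388 = true := by decide +kernel

def ct17_3 : List (List Nat × Nat × Nat) := [
  ([11, 2, 2, 11, 7, 2, 5, 0, 9, 1, 8, 10, 4, 10, 0, 7, 4], 2074, 61),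
  ([1, 11, 3, 9, 11, 0, 7, 0, 5, 7, 1, 3, 9, 6, 9, 2, 10], 2136, 59),
  ([7, 9, 10, 3, 2, 10, 0, 9, 0, 11, 7, 1, 6, 11, 3, 0, 4], 2196, 63),
  ([11, 1, 6, 0, 9, 4, 8, 9, 11, 4, 0, 3, 7, 10, 1, 11, 2], 2260, 64),
  ([11, 11, 5, 11, 2, 9, 0, 1, 3, 7, 12, 7, 3, 1, 9, 0, 6], 2325, 63),
  ([0, 11, 7, 11, 2, 10, 9, 0, 4, 8, 4, 11, 0, 11, 3, 2, 6], 2389, 70),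
  ([2, 11, 7, 3, 6, 2, 11, 0, 11, 4, 0, 9, 5, 8, 0, 10, 11], 2459, 74),
  ([11, 12, 3, 8, 1, 1, 9, 8, 4, 2, 5, 11, 12, 10, 0, 5, 0], 2533, 71),
  ([10, 1, 12, 2, 11, 5, 10, 4, 2, 8, 6, 0, 7, 12, 12, 3, 0], 2605, 78),
  ([2, 11, 3, 12, 1, 10, 6, 5, 9, 12, 0, 8, 4, 1, 0, 12, 8], 2684, 81),
  ([4, 8, 12, 3, 12, 2, 5, 11, 1, 0, 9, 8, 0, 11, 1, 6, 12], 2766, 85),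
  ([10, 3, 0, 10, 4, 12, 0, 12, 5, 8, 2, 12, 12, 6, 2, 0, 8], 2852, 85),
  ([1, 9, 3, 12, 6, 6, 0, 2, 12, 8, 12, 1, 10, 0, 10, 4, 12], 2938, 92),
  ([5, 13, 3, 9, 10, 2, 12, 0, 6, 13, 4, 10, 8, 0, 0, 12, 2], 3031, 95),
  ([8, 2, 11, 3, 12, 7, 0, 4, 13, 1, 0, 9, 10, 5, 1, 11, 13], 3127, 96),
  ([7, 5, 13, 12, 4, 2, 11, 3, 0, 9, 13, 1, 0, 13, 10, 1, 8], 3223, 99),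
  ([9, 5, 13, 0, 12, 7, 0, 2, 13, 10, 3, 12, 1, 8, 4, 1, 13], 3323, 107),
  ([12, 0, 2, 3, 10, 0, 13, 2, 12, 6, 13, 4, 0, 9, 13, 6, 8], 3430, 105),
  ([1, 10, 3, 13, 4, 14, 3, 13, 7, 5, 0, 8, 11, 0, 0, 11, 12], 3536, 111),
  ([14, 3, 0, 13, 12, 1, 11, 1, 14, 8, 13, 5, 0, 7, 9, 4, 2], 3648, 115),
  ([2, 5, 14, 13, 5, 1, 0, 10, 12, 4, 2, 14, 7, 8, 0, 14, 11], 3764, 120),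
  ([1, 14, 14, 10, 0, 11, 4, 0, 14, 2, 1, 8, 7, 3, 13, 12, 5], 3885, 120),
  ([1, 9, 4, 7, 12, 0, 15, 6, 0, 14, 1, 11, 14, 2, 10, 5, 13], 4006, 133),
  ([9, 6, 15, 15, 1, 11, 13, 2, 4, 7, 5, 12, 0, 15, 0, 13, 2], 4140, 134),
  ([3, 11, 13, 1, 0, 15, 14, 12, 3, 15, 6, 0, 14, 5, 9, 1, 7], 4275, 136),
  ([4, 15, 11, 15, 1, 2, 2, 16, 7, 14, 0, 9, 7, 13, 5, 0, 12], 4410, 143),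
  ([4, 14, 0, 15, 1, 5, 15, 0, 10, 3, 13, 1, 7, 10, 12, 16, 7], 4554, 148),
  ([5, 11, 15, 0, 9, 2, 4, 16, 12, 0, 7, 14, 2, 14, 0, 15, 8], 4703, 159),
  ([11, 0, 13, 3, 8, 16, 0, 15, 13, 4, 7, 10, 5, 15, 1, 2, 17], 4860, 160),
  ([0, 15, 7, 8, 4, 12, 17, 0, 10, 3, 16, 1, 14, 2, 16, 11, 5], 5021, 171),
  ([1, 12, 7, 14, 9, 3, 15, 17, 0, 6, 4, 16, 0, 16, 1, 13, 10], 5193, 175),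
  ([2, 13, 7, 17, 0, 12, 17, 0, 4, 14, 3, 16, 5, 9, 16, 1, 10], 5368, 186),
  ([0, 10, 1, 14, 3, 17, 0, 12, 7, 16, 5, 2, 8, 17, 6, 17, 13], 5555, 188),
  ([4, 18, 18, 6, 17, 0, 3, 9, 16, 1, 0, 10, 13, 15, 2, 12, 8], 5744, 189),
  ([9, 14, 17, 7, 0, 15, 5, 18, 10, 2, 13, 17, 5, 0, 18, 3, 1], 5933, 204),
  ([0, 18, 3, 4, 12, 16, 2, 19, 10, 14, 0, 11, 1, 17, 6, 8, 15], 6138, 213),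
  ([11, 19, 9, 1, 0, 15, 0, 15, 18, 2, 7, 12, 18, 5, 17, 3, 6], 6351, 212),
  ([17, 4, 19, 9, 1, 13, 3, 19, 6, 7, 14, 2, 16, 0, 18, 0, 10], 6562, 232),
  ([0, 15, 3, 13, 1, 18, 19, 10, 16, 12, 2, 6, 4, 17, 0, 19, 9], 6794, 230),
  ([17, 14, 18, 3, 15, 2, 12, 20, 7, 0, 18, 4, 19, 0, 7, 11, 1], 7024, 246),
  ([20, 17, 6, 8, 0, 1, 12, 18, 2, 15, 10, 1, 20, 4, 14, 19, 4], 7271, 248),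
  ([8, 0, 20, 15, 3, 19, 5, 11, 20, 17, 1, 12, 20, 3, 7, 14, 0], 7519, 263),
  ([6, 19, 10, 15, 17, 2, 20, 2, 13, 2, 11, 22, 5, 20, 0, 20, 8], 7781, 274),
  ([1, 18, 6, 14, 2, 21, 5, 12, 21, 3, 11, 1, 19, 16, 0, 19, 8], 8056, 291),
  ([9, 20, 0, 7, 21, 15, 2, 3, 18, 16, 2, 0, 21, 20, 5, 13, 10], 8348, 293),
  ([9, 1, 5, 18, 1, 21, 15, 12, 2, 7, 11, 17, 0, 21, 19, 4, 22], 8642, 304),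
  ([22, 4, 3, 22, 5, 17, 0, 9, 21, 1, 0, 20, 19, 10, 15, 12, 7], 8947, 314),
  ([8, 15, 20, 2, 0, 23, 9, 13, 21, 1, 19, 0, 17, 3, 11, 22, 6], 9260, 334),
  ([23, 0, 12, 10, 22, 7, 2, 20, 23, 12, 18, 1, 21, 6, 1, 15, 4], 9594, 343),
  ([2, 16, 19, 2, 23, 0, 22, 7, 4, 10, 5, 21, 18, 0, 14, 12, 23], 9937, 358),
  ([1, 20, 14, 0, 21, 4, 23, 6, 2, 23, 18, 7, 11, 1, 24, 11, 16], 10296, 376),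
  ([19, 17, 0, 22, 3, 14, 2, 20, 25, 6, 8, 12, 23, 10, 4, 24, 0], 10673, 388),
  ([1, 24, 16, 9, 6, 21, 25, 0, 23, 3, 13, 19, 9, 17, 2, 24, 4], 11062, 406),
  ([19, 1, 8, 25, 0, 3, 21, 17, 5, 25, 15, 4, 11, 23, 0, 22, 12], 11467, 422),
  ([3, 10, 22, 0, 23, 8, 25, 26, 2, 12, 18, 4, 1, 24, 15, 6, 20], 11888, 435),
  ([26, 11, 8, 0, 16, 1, 20, 24, 4, 17, 2, 25, 6, 25, 22, 12, 2], 12321, 448),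
  ([0, 16, 2, 25, 22, 21, 8, 18, 0, 26, 4, 24, 12, 3, 26, 11, 6], 12770, 468),
  ([21, 18, 0, 5, 26, 1, 24, 7, 0, 16, 25, 7, 22, 12, 2, 27, 11], 13239, 490),
  ([21, 0, 27, 8, 14, 28, 6, 3, 23, 16, 4, 26, 25, 1, 19, 2, 11], 13728, 511),
  ([28, 5, 25, 0, 17, 0, 11, 21, 27, 3, 19, 13, 1, 7, 23, 27, 8], 14240, 527),
  ([20, 0, 27, 2, 24, 12, 15, 7, 25, 0, 29, 9, 22, 3, 28, 5, 17], 14766, 559),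
  ([19, 5, 27, 12, 7, 28, 23, 0, 1, 14, 28, 17, 3, 10, 1, 24, 29], 15323, 567),
  ([1, 28, 12, 17, 30, 5, 29, 1, 0, 24, 20, 6, 27, 22, 15, 3, 9], 15890, 589),
  ([29, 18, 9, 31, 17, 0, 7, 27, 3, 25, 30, 2, 12, 23, 5, 1, 20], 16478, 617),
  ([19, 1, 25, 13, 30, 7, 16, 0, 30, 24, 5, 10, 21, 2, 27, 3, 31], 17095, 652),
  ([10, 19, 30, 0, 22, 29, 1, 15, 5, 29, 3, 13, 31, 24, 1, 7, 26], 17745, 674),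
  ([5, 32, 1, 27, 30, 2, 25, 31, 3, 12, 21, 10, 16, 29, 7, 0, 19], 18420, 691),
  ([0, 16, 31, 25, 3, 32, 29, 1, 10, 27, 14, 1, 6, 32, 7, 22, 19], 19112, 720),
  ([3, 27, 14, 26, 5, 32, 10, 16, 30, 1, 22, 32, 2, 8, 33, 0, 20], 19826, 761),
  ([32, 14, 0, 23, 5, 20, 8, 33, 3, 25, 31, 1, 33, 11, 29, 2, 17], 20588, 789),
  ([33, 2, 33, 0, 31, 18, 14, 8, 29, 4, 5, 35, 20, 1, 24, 26, 11], 21378, 815),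
  ([4, 31, 24, 2, 14, 34, 8, 34, 26, 0, 0, 29, 11, 17, 6, 35, 21], 22189, 849),
  ([24, 12, 18, 35, 27, 1, 30, 6, 21, 3, 32, 9, 36, 0, 34, 15, 1], 23039, 887),
  ([28, 2, 25, 32, 18, 12, 4, 31, 1, 36, 15, 6, 21, 37, 8, 0, 34], 23923, 920),
  ([2, 37, 22, 0, 11, 28, 8, 31, 6, 25, 1, 33, 19, 36, 4, 15, 35], 24843, 962),
  ([31, 37, 2, 34, 23, 12, 25, 36, 9, 0, 39, 16, 29, 6, 1, 19, 3], 25805, 986),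
  ([6, 35, 22, 4, 36, 26, 38, 0, 12, 32, 2, 29, 9, 0, 38, 19, 15], 26791, 1036),
  ([0, 39, 9, 16, 35, 2, 27, 7, 39, 32, 13, 37, 0, 23, 30, 4, 19], 27827, 1082),
  ([38, 23, 4, 7, 36, 40, 1, 16, 27, 10, 31, 2, 0, 21, 34, 39, 12], 28909, 1109),
  ([2, 32, 40, 4, 13, 21, 40, 6, 38, 0, 24, 10, 27, 1, 34, 16, 37], 30018, 1173),
  ([42, 0, 21, 4, 39, 29, 7, 31, 24, 35, 1, 40, 2, 13, 10, 38, 16], 31190, 1212),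
  ([38, 7, 0, 36, 5, 18, 41, 22, 13, 3, 41, 24, 32, 29, 0, 42, 10], 32402, 1258)]

theorem ct17_3_ok : Raw.runR 17 33661 ct17_3 2074 = true := by decide +kernel

end Pool.Agent.Wil
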