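import Pool.Agent.Wil.Raw
import Pool.Agent.Wil.Small23

set_option autoImplicit false
set_option maxRecDepth 100000

/-! Explicit cores (runner heights, size, window), p = 19, degrees 76 to 983. -/

namespace Pool.Agent.Wil

def ct19_0 : List (List Nat × Nat × Nat) := [
  ([2, 1, 2, 0, 2, 1, 0, 1, 2, 1, 1, 0, 0, 2, 1, 0, 0, 1, 0], 76, 0),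
  ([1, 1, 0, 2, 1, 0, 2, 1, 2, 1, 0, 2, 1, 0, 1, 0, 1, 0, 1], 77, 0),
  ([0, 2, 1, 2, 1, 0, 2, 0, 2, 0, 1, 1, 0, 1, 1, 0, 0, 1, 0], 78, 0),
  ([1, 2, 0, 2, 1, 0, 1, 2, 0, 1, 2, 0, 1, 0, 0, 1, 0, 1, 1], 79, 0),
  ([2, 1, 2, 1, 2, 2, 0, 2, 0, 1, 2, 1, 0, 1, 2, 0, 1, 0, 0], 80, 0),
  ([1, 2, 0, 2, 1, 2, 1, 0, 2, 1, 0, 0, 2, 1, 0, 1, 0, 1, 0], 81, 0),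
  ([1, 2, 0, 2, 1, 0, 1, 2, 0, 0, 1, 1, 0, 2, 0, 1, 0, 1, 0], 82, 0),
  ([1, 2, 2, 1, 2, 0, 2, 1, 0, 2, 1, 1, 2, 0, 1, 2, 0, 1, 0], 83, 0),
  ([2, 0, 1, 2, 0, 1, 2, 1, 2, 0, 1, 2, 0, 1, 0, 1, 0, 1, 0], 84, 0),
  ([1, 2, 1, 1, 2, 2, 1, 0, 1, 2, 1, 2, 0, 2, 0, 1, 0, 1, 2], 85, 0),
  ([2, 1, 2, 0, 1, 0, 2, 1, 1, 0, 2, 0, 2, 0, 1, 0, 1, 1, 0], 86, 0),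
  ([1, 0, 2, 1, 1, 0, 2, 1, 0, 2, 0, 1, 2, 0, 1, 1, 0, 1, 1], 87, 0),
  ([1, 2, 1, 0, 2, 1, 1, 0, 2, 0, 2, 0, 2, 1, 0, 1, 0, 1, 1], 88, 0),
  ([1, 1, 2, 0, 2, 1, 0, 2, 1, 2, 0, 0, 2, 0, 1, 0, 1, 0, 1], 89, 0),
  ([1, 2, 1, 2, 1, 2, 0, 2, 1, 1, 2, 0, 0, 2, 1, 0, 1, 0, 2], 90, 0),
  ([1, 2, 1, 2, 0, 2, 1, 1, 2, 2, 0, 1, 0, 2, 1, 0, 2, 0, 1], 91, 0),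
  ([1, 1, 2, 0, 2, 1, 2, 1, 0, 2, 0, 2, 1, 0, 1, 2, 0, 1, 1], 92, 0),
  ([0, 2, 1, 2, 1, 0, 2, 1, 0, 2, 0, 1, 2, 0, 1, 0, 1, 0, 1], 93, 0),
  ([2, 2, 1, 0, 2, 0, 1, 2, 1, 0, 2, 0, 1, 0, 1, 2, 0, 1, 0], 94, 0),
  ([2, 1, 2, 0, 2, 0, 2, 0, 1, 2, 1, 0, 0, 2, 1, 0, 1, 1, 0], 95, 0),
  ([1, 2, 1, 0, 1, 2, 0, 1, 0, 2, 2, 1, 0, 1, 0, 1, 0, 2, 1], 96, 0),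
  ([2, 1, 2, 0, 1, 2, 0, 2, 1, 0, 1, 0, 2, 0, 1, 2, 0, 1, 0], 97, 0),
  ([1, 2, 2, 0, 2, 0, 1, 0, 2, 1, 2, 0, 2, 0, 1, 0, 1, 0, 1], 98, 0),
  ([2, 1, 2, 0, 2, 1, 1, 2, 0, 0, 2, 1, 2, 0, 2, 0, 0, 1, 1], 99, 0),
  ([1, 2, 0, 2, 1, 0, 1, 2, 1, 0, 2, 2, 1, 0, 1, 0, 2, 1, 0], 100, 0),
  ([1, 2, 1, 1, 2, 1, 2, 0, 2, 1, 0, 2, 1, 2, 0, 0, 2, 1, 2], 101, 0),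
  ([1, 2, 0, 2, 2, 1, 1, 2, 2, 0, 2, 0, 1, 2, 1, 0, 1, 0, 2], 102, 0),
  ([0, 2, 1, 2, 1, 0, 1, 2, 2, 0, 1, 2, 0, 1, 0, 2, 0, 1, 0], 103, 0),
  ([0, 1, 2, 1, 2, 0, 2, 1, 0, 2, 2, 1, 0, 1, 0, 2, 1, 0, 1], 104, 0),
  ([1, 1, 2, 0, 2, 1, 1, 2, 0, 2, 2, 0, 1, 1, 2, 0, 0, 1, 2], 105, 0),
  ([2, 2, 1, 2, 0, 1, 2, 0, 2, 0, 2, 1, 0, 2, 0, 1, 2, 1, 0], 106, 0),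
  ([1, 2, 2, 1, 1, 2, 0, 2, 1, 2, 0, 2, 0, 0, 2, 0, 1, 0, 2], 107, 0),
  ([2, 2, 0, 1, 2, 0, 2, 1, 0, 2, 1, 2, 0, 1, 0, 1, 0, 0, 2], 108, 0),
  ([1, 2, 1, 0, 2, 1, 2, 1, 0, 2, 0, 2, 0, 2, 0, 1, 1, 1, 2], 109, 0),
  ([1, 2, 1, 2, 0, 2, 0, 2, 1, 0, 2, 1, 0, 2, 0, 1, 0, 1, 2], 110, 0),
  ([2, 0, 2, 0, 2, 1, 2, 0, 1, 2, 0, 1, 2, 0, 2, 1, 1, 0, 0], 111, 0),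
  ([0, 2, 0, 1, 2, 0, 1, 1, 2, 0, 2, 0, 1, 1, 0, 0, 2, 0, 1], 112, 0),
  ([0, 1, 2, 1, 1, 2, 0, 2, 0, 1, 1, 2, 0, 2, 0, 0, 2, 1, 1], 113, 0),
  ([1, 1, 2, 1, 2, 2, 0, 2, 1, 0, 2, 1, 0, 0, 1, 2, 0, 2, 2], 114, 0),
  ([0, 2, 1, 2, 2, 0, 1, 2, 1, 2, 0, 2, 0, 1, 2, 1, 0, 2, 1], 115, 0),
  ([2, 1, 0, 2, 0, 2, 1, 1, 1, 2, 0, 1, 0, 2, 0, 2, 1, 2, 0], 116, 0),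
  ([2, 1, 2, 0, 1, 1, 0, 2, 1, 2, 0, 1, 0, 2, 0, 2, 0, 2, 0], 117, 0),
  ([3, 1, 2, 0, 2, 2, 0, 1, 2, 1, 0, 2, 2, 2, 0, 1, 0, 1, 0], 118, 0),
  ([0, 2, 1, 0, 2, 1, 2, 1, 2, 2, 0, 0, 1, 2, 0, 1, 0, 1, 2], 119, 0),
  ([0, 2, 1, 2, 1, 0, 2, 1, 2, 2, 1, 0, 2, 1, 0, 2, 0, 2, 0], 120, 0),
  ([1, 0, 2, 2, 1, 1, 0, 2, 0, 2, 2, 0, 0, 2, 1, 0, 2, 1, 1], 121, 0),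
  ([1, 1, 2, 0, 2, 0, 2, 0, 1, 1, 2, 1, 2, 0, 1, 0, 2, 0, 2], 122, 0),
  ([1, 1, 3, 0, 2, 1, 2, 0, 2, 1, 2, 1, 1, 2, 0, 2, 0, 1, 2], 123, 0),
  ([1, 1, 2, 2, 0, 1, 0, 2, 1, 0, 2, 0, 1, 0, 2, 2, 0, 1, 2], 124, 0),
  ([1, 1, 2, 0, 2, 1, 0, 2, 2, 0, 1, 2, 1, 0, 2, 0, 2, 2, 1], 125, 0),
  ([1, 3, 0, 1, 2, 1, 1, 2, 0, 1, 2, 0, 2, 2, 0, 1, 0, 1, 2], 126, 0),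
  ([1, 2, 2, 1, 3, 0, 0, 2, 1, 1, 2, 2, 0, 1, 0, 1, 2, 0, 2], 127, 0),
  ([3, 1, 0, 2, 2, 0, 2, 1, 1, 2, 2, 0, 0, 2, 1, 0, 2, 1, 0], 128, 0),
  ([2, 0, 1, 2, 0, 2, 2, 0, 1, 2, 0, 2, 0, 2, 1, 1, 0, 2, 0], 129, 0),
  ([1, 2, 3, 0, 1, 2, 0, 2, 2, 0, 1, 2, 0, 2, 1, 2, 0, 1, 0], 130, 0),
  ([2, 3, 2, 1, 0, 3, 2, 1, 2, 0, 1, 0, 2, 1, 0, 0, 2, 1, 0], 131, 0),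
  ([1, 3, 0, 2, 1, 0, 2, 1, 2, 1, 2, 0, 2, 2, 0, 1, 0, 1, 2], 132, 0),
  ([2, 1, 2, 2, 3, 0, 0, 2, 1, 2, 0, 1, 0, 2, 2, 1, 0, 2, 0], 133, 0),
  ([0, 2, 2, 0, 0, 2, 1, 0, 1, 2, 2, 2, 0, 0, 1, 0, 2, 0, 1], 134, 0),
  ([2, 3, 1, 1, 0, 2, 2, 0, 2, 0, 2, 1, 2, 2, 0, 0, 1, 0, 2], 135, 0),
  ([0, 2, 2, 1, 0, 1, 2, 2, 0, 2, 0, 1, 0, 2, 1, 1, 0, 2, 2], 136, 0),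
  ([0, 3, 1, 2, 0, 2, 1, 0, 2, 0, 2, 1, 2, 1, 0, 1, 2, 0, 1], 137, 1),
  ([1, 3, 1, 2, 0, 1, 2, 1, 2, 3, 0, 2, 0, 0, 2, 1, 1, 2, 1], 139, 0),
  ([3, 2, 0, 1, 2, 3, 0, 1, 2, 0, 2, 0, 1, 2, 0, 1, 0, 1, 0], 140, 0),
  ([0, 2, 1, 2, 1, 2, 0, 2, 3, 1, 2, 1, 0, 2, 1, 2, 0, 0, 2], 141, 0),
  ([2, 1, 3, 0, 1, 0, 2, 3, 1, 1, 2, 0, 1, 1, 2, 0, 0, 2, 1], 142, 0)]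

theorem ct19_0_ok : Raw.runR 19 143 ct19_0 76 = true := by decide +kernel

def ct19_1 : List (List Nat × Nat × Nat) := [
  ([2, 1, 0, 3, 0, 1, 2, 2, 0, 2, 2, 1, 0, 1, 0, 1, 2, 2, 0], 143, 0),
  ([1, 3, 0, 2, 0, 3, 1, 0, 2, 2, 1, 0, 0, 1, 2, 1, 1, 0, 1], 144, 0),
  ([2, 2, 1, 1, 3, 1, 0, 2, 0, 3, 1, 0, 2, 0, 1, 2, 1, 2, 0], 145, 0),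
  ([2, 0, 3, 0, 2, 1, 2, 1, 2, 0, 1, 2, 0, 0, 1, 0, 2, 2, 0], 146, 0),
  ([2, 1, 3, 1, 3, 2, 0, 0, 1, 2, 2, 1, 0, 0, 2, 2, 0, 1, 2], 147, 0),
  ([0, 3, 1, 0, 2, 0, 2, 2, 1, 1, 0, 1, 2, 0, 1, 2, 1, 0, 2], 148, 0),
  ([1, 0, 3, 2, 2, 1, 0, 2, 0, 1, 1, 2, 1, 0, 2, 0, 0, 2, 2], 149, 0),
  ([3, 1, 0, 2, 1, 3, 0, 2, 1, 2, 0, 1, 2, 0, 0, 2, 2, 1, 1], 150, 0),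
  ([0, 2, 2, 0, 3, 2, 1, 1, 0, 2, 1, 2, 0, 0, 1, 0, 2, 2, 0], 151, 0),
  ([2, 3, 3, 1, 0, 3, 0, 2, 2, 2, 1, 2, 0, 1, 0, 1, 2, 0, 0], 152, 0),
  ([0, 3, 1, 3, 2, 1, 1, 2, 0, 2, 1, 2, 0, 2, 0, 2, 0, 1, 2], 153, 1),
  ([2, 3, 0, 1, 2, 2, 0, 3, 0, 2, 1, 1, 0, 1, 0, 1, 2, 0, 2], 155, 0),
  ([1, 3, 1, 3, 1, 3, 2, 0, 2, 3, 1, 1, 0, 2, 2, 2, 0, 0, 1], 156, 0),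
  ([2, 1, 3, 1, 0, 3, 1, 2, 0, 0, 2, 1, 0, 2, 0, 2, 1, 2, 0], 157, 1),
  ([1, 0, 2, 3, 2, 1, 2, 3, 0, 2, 1, 0, 2, 0, 2, 1, 0, 2, 0], 159, 0),
  ([3, 3, 0, 2, 1, 2, 1, 0, 3, 2, 0, 0, 1, 2, 1, 1, 2, 0, 0], 160, 0),
  ([1, 0, 2, 1, 2, 3, 0, 1, 1, 3, 2, 1, 0, 2, 0, 2, 1, 2, 0], 161, 0),
  ([2, 1, 0, 1, 3, 2, 0, 1, 3, 1, 2, 1, 0, 2, 0, 2, 0, 2, 0], 162, 0),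
  ([2, 1, 0, 2, 0, 2, 3, 2, 0, 0, 1, 2, 0, 2, 1, 2, 0, 2, 0], 163, 0),
  ([0, 3, 1, 2, 0, 1, 2, 1, 0, 2, 0, 2, 0, 2, 0, 2, 0, 2, 1], 163, 1),
  ([2, 0, 2, 1, 2, 3, 2, 1, 1, 0, 2, 0, 3, 0, 2, 2, 0, 1, 2], 165, 0),
  ([0, 2, 2, 3, 1, 3, 1, 2, 3, 2, 0, 1, 0, 2, 2, 0, 1, 0, 2], 166, 0),
  ([1, 3, 1, 3, 2, 1, 2, 1, 3, 3, 2, 0, 1, 0, 2, 1, 0, 3, 1], 167, 0),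
  ([2, 1, 3, 3, 1, 3, 0, 1, 2, 3, 0, 2, 0, 2, 1, 0, 2, 1, 0], 168, 1),
  ([1, 3, 0, 2, 0, 1, 3, 0, 2, 2, 1, 2, 0, 2, 0, 1, 2, 2, 1], 170, 0),
  ([1, 2, 3, 3, 0, 1, 3, 0, 2, 0, 1, 2, 0, 1, 0, 2, 2, 0, 1], 171, 1),
  ([0, 1, 3, 1, 1, 2, 3, 2, 1, 0, 0, 2, 2, 0, 1, 0, 2, 2, 2], 173, 0),
  ([1, 2, 1, 2, 0, 0, 3, 1, 2, 2, 0, 1, 3, 2, 0, 0, 2, 1, 2], 174, 0),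
  ([3, 2, 0, 3, 1, 3, 2, 0, 2, 1, 1, 2, 1, 0, 3, 0, 1, 2, 0], 175, 1),
  ([2, 3, 1, 2, 1, 1, 3, 1, 0, 2, 0, 2, 3, 2, 3, 0, 1, 0, 2], 177, 0),
  ([3, 0, 1, 2, 3, 0, 1, 2, 2, 3, 0, 2, 2, 0, 1, 0, 2, 0, 1], 178, 1),
  ([2, 3, 1, 0, 2, 3, 0, 3, 1, 1, 0, 2, 2, 0, 0, 2, 0, 2, 1], 179, 1),
  ([1, 3, 1, 0, 2, 2, 3, 2, 1, 1, 0, 3, 3, 1, 0, 2, 0, 2, 1], 181, 0),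
  ([2, 0, 2, 3, 3, 0, 3, 1, 1, 1, 0, 2, 0, 2, 0, 2, 1, 0, 2], 182, 0),
  ([1, 2, 1, 3, 1, 0, 2, 0, 0, 2, 3, 0, 2, 2, 0, 0, 2, 1, 2], 183, 0),
  ([0, 3, 0, 2, 3, 1, 3, 0, 1, 2, 2, 2, 2, 0, 1, 0, 2, 1, 0], 184, 0),
  ([1, 2, 3, 3, 0, 2, 2, 3, 0, 1, 2, 1, 3, 0, 1, 3, 0, 1, 1], 185, 0),
  ([1, 1, 3, 2, 1, 2, 0, 0, 2, 1, 3, 0, 0, 1, 3, 2, 0, 1, 2], 186, 0),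
  ([3, 2, 2, 1, 3, 0, 2, 3, 1, 0, 1, 2, 2, 0, 2, 0, 2, 0, 3], 187, 0),
  ([2, 3, 0, 1, 3, 2, 3, 1, 3, 2, 1, 0, 1, 0, 3, 2, 1, 0, 0], 188, 0),
  ([3, 1, 2, 0, 3, 3, 1, 0, 1, 2, 1, 2, 3, 0, 3, 0, 1, 1, 1], 189, 0),
  ([2, 0, 3, 3, 1, 1, 1, 3, 3, 2, 0, 1, 2, 0, 3, 1, 1, 2, 0], 190, 0),
  ([3, 3, 0, 1, 2, 1, 3, 0, 2, 3, 1, 2, 2, 2, 1, 0, 1, 0, 3], 191, 0),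
  ([2, 3, 0, 3, 1, 1, 3, 1, 3, 0, 2, 0, 1, 2, 3, 1, 1, 0, 2], 192, 1),
  ([0, 3, 2, 1, 2, 3, 1, 0, 3, 1, 3, 1, 1, 1, 3, 0, 2, 0, 1], 194, 0),
  ([3, 3, 1, 2, 3, 1, 3, 0, 1, 0, 2, 0, 2, 1, 3, 0, 2, 0, 0], 195, 1),
  ([1, 0, 2, 0, 3, 3, 1, 2, 0, 0, 1, 3, 1, 1, 2, 0, 2, 2, 1], 197, 0),
  ([2, 0, 2, 2, 3, 1, 1, 0, 2, 1, 3, 0, 0, 3, 2, 0, 0, 2, 0], 198, 0),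
  ([1, 3, 3, 0, 0, 2, 0, 3, 3, 1, 2, 1, 2, 0, 1, 0, 2, 1, 2], 199, 0),
  ([1, 3, 3, 0, 2, 3, 1, 0, 1, 0, 3, 2, 0, 1, 0, 1, 0, 2, 2], 200, 0),
  ([0, 1, 2, 3, 3, 1, 2, 2, 2, 0, 1, 3, 0, 1, 3, 2, 0, 0, 2], 201, 0),
  ([2, 3, 1, 3, 1, 2, 0, 1, 0, 3, 2, 0, 2, 0, 1, 0, 3, 2, 2], 202, 0),
  ([3, 1, 3, 2, 0, 3, 1, 3, 0, 2, 1, 0, 0, 3, 1, 0, 2, 0, 1], 203, 1),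
  ([1, 3, 0, 3, 3, 1, 0, 2, 1, 3, 1, 2, 0, 1, 0, 1, 1, 3, 2], 205, 0),
  ([1, 3, 2, 0, 1, 1, 3, 2, 3, 1, 3, 1, 0, 1, 0, 2, 2, 0, 3], 206, 0),
  ([1, 3, 3, 1, 2, 3, 0, 1, 0, 3, 2, 0, 1, 0, 3, 1, 2, 2, 0], 207, 1),
  ([3, 2, 1, 0, 3, 0, 3, 0, 3, 1, 2, 2, 3, 0, 1, 1, 0, 2, 1], 209, 1),
  ([1, 1, 2, 1, 3, 3, 0, 3, 2, 0, 3, 1, 2, 0, 2, 3, 0, 0, 1], 211, 0),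
  ([2, 0, 3, 2, 3, 0, 3, 0, 1, 2, 3, 1, 3, 0, 2, 1, 1, 2, 0], 212, 1),
  ([0, 3, 2, 1, 3, 0, 2, 2, 1, 3, 0, 1, 2, 1, 0, 0, 2, 3, 2], 214, 1),
  ([1, 0, 3, 2, 3, 3, 1, 1, 2, 0, 1, 2, 3, 0, 0, 1, 2, 2, 3], 216, 0),
  ([3, 1, 3, 2, 0, 3, 1, 3, 0, 2, 2, 0, 0, 3, 2, 2, 0, 2, 0], 217, 1),
  ([3, 2, 0, 2, 3, 1, 0, 3, 0, 3, 3, 0, 0, 2, 1, 1, 2, 0, 1], 218, 1),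
  ([3, 0, 1, 1, 3, 0, 3, 1, 3, 1, 2, 1, 0, 2, 2, 0, 0, 3, 1], 220, 1),
  ([3, 1, 0, 2, 2, 3, 1, 1, 3, 0, 2, 1, 3, 0, 1, 3, 3, 1, 0], 222, 0),
  ([0, 2, 3, 2, 0, 3, 0, 3, 1, 3, 2, 0, 1, 3, 2, 1, 2, 0, 1], 223, 0)]

theorem ct19_1_ok : Raw.runR 19 224 ct19_1 143 = true := by decide +kernel

def ct19_2 : List (List Nat × Nat × Nat) := [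
  ([2, 1, 3, 1, 2, 0, 3, 1, 3, 0, 3, 2, 0, 0, 2, 0, 2, 1, 3], 224, 2),
  ([2, 0, 3, 2, 0, 0, 3, 2, 1, 2, 3, 0, 1, 2, 1, 0, 3, 0, 2], 227, 1),
  ([2, 3, 3, 0, 3, 1, 2, 3, 0, 0, 1, 3, 2, 0, 3, 1, 0, 2, 0], 229, 2),
  ([2, 1, 3, 2, 0, 3, 0, 3, 2, 2, 0, 3, 2, 3, 1, 0, 1, 3, 0], 232, 1),
  ([1, 3, 2, 1, 0, 2, 2, 3, 3, 0, 1, 3, 0, 2, 1, 3, 0, 2, 3], 234, 2),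
  ([1, 2, 1, 1, 4, 3, 0, 2, 0, 3, 1, 1, 2, 0, 0, 3, 2, 2, 0], 237, 0),
  ([1, 3, 1, 1, 0, 3, 3, 1, 2, 3, 1, 0, 2, 0, 0, 2, 3, 1, 3], 238, 1),
  ([1, 2, 1, 3, 2, 1, 1, 4, 3, 0, 2, 2, 3, 1, 0, 2, 3, 0, 3], 240, 1),
  ([2, 4, 0, 3, 2, 1, 1, 3, 1, 0, 3, 0, 2, 0, 3, 1, 2, 0, 2], 242, 2),
  ([1, 3, 0, 2, 2, 3, 3, 0, 3, 1, 0, 3, 2, 0, 1, 0, 1, 0, 3], 245, 1),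
  ([2, 4, 0, 2, 1, 3, 0, 1, 3, 3, 2, 1, 0, 1, 0, 2, 3, 0, 2], 247, 2),
  ([1, 1, 0, 1, 3, 2, 3, 0, 3, 1, 2, 1, 3, 0, 2, 3, 0, 3, 1], 250, 1),
  ([3, 4, 1, 3, 0, 2, 0, 3, 2, 1, 3, 3, 2, 1, 0, 3, 0, 0, 1], 251, 2),
  ([2, 0, 2, 4, 1, 3, 0, 3, 2, 0, 3, 1, 2, 0, 2, 0, 1, 1, 3], 254, 2),
  ([1, 0, 0, 3, 1, 1, 2, 3, 1, 3, 1, 3, 2, 3, 0, 2, 0, 1, 3], 257, 0),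
  ([2, 0, 3, 1, 3, 0, 1, 3, 3, 0, 2, 2, 0, 3, 3, 1, 0, 0, 2], 258, 2),
  ([3, 1, 3, 4, 1, 3, 3, 0, 0, 2, 3, 0, 0, 1, 1, 3, 2, 0, 2], 261, 0),
  ([1, 4, 1, 3, 2, 0, 3, 2, 1, 3, 1, 1, 3, 3, 0, 0, 3, 2, 3], 262, 1),
  ([1, 2, 1, 3, 0, 3, 0, 2, 1, 0, 3, 2, 2, 3, 0, 3, 0, 1, 3], 264, 2),
  ([1, 4, 3, 1, 0, 2, 1, 2, 3, 0, 3, 1, 0, 3, 3, 0, 2, 0, 2], 267, 3),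
  ([4, 0, 3, 0, 3, 3, 1, 1, 0, 3, 1, 2, 1, 3, 1, 0, 1, 3, 2], 271, 1),
  ([3, 0, 1, 2, 1, 2, 3, 3, 0, 1, 0, 3, 1, 3, 0, 1, 3, 0, 3], 273, 2),
  ([1, 1, 3, 1, 3, 1, 0, 4, 0, 2, 1, 3, 0, 3, 3, 2, 3, 1, 1], 276, 1),
  ([1, 0, 3, 2, 3, 0, 3, 2, 2, 0, 0, 3, 1, 0, 0, 3, 1, 2, 3], 278, 2),
  ([1, 0, 4, 4, 2, 3, 1, 1, 3, 3, 0, 1, 2, 3, 3, 0, 2, 1, 0], 281, 1),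
  ([1, 4, 1, 1, 3, 2, 3, 1, 4, 0, 1, 1, 0, 3, 3, 1, 3, 1, 3], 283, 1),
  ([3, 0, 3, 1, 3, 1, 1, 3, 4, 2, 0, 0, 2, 3, 3, 0, 1, 1, 3], 285, 2),
  ([3, 2, 3, 4, 2, 1, 1, 4, 0, 3, 2, 0, 4, 1, 0, 3, 1, 0, 2], 288, 2),
  ([1, 3, 0, 3, 0, 4, 0, 3, 1, 1, 2, 2, 2, 0, 2, 1, 3, 0, 3], 291, 2),
  ([3, 3, 0, 1, 2, 4, 0, 2, 0, 3, 1, 0, 2, 3, 1, 3, 1, 0, 3], 294, 3),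
  ([3, 2, 4, 1, 0, 3, 4, 1, 2, 0, 3, 0, 1, 1, 3, 2, 3, 3, 0], 298, 2),
  ([2, 3, 1, 0, 3, 0, 3, 1, 3, 4, 1, 0, 3, 3, 2, 1, 3, 0, 0], 301, 0),
  ([4, 4, 1, 2, 1, 3, 4, 1, 2, 0, 4, 0, 1, 2, 1, 3, 0, 3, 1], 302, 1),
  ([2, 4, 1, 1, 0, 3, 3, 2, 0, 4, 1, 2, 0, 3, 0, 3, 1, 1, 3], 304, 2),
  ([3, 4, 2, 4, 3, 0, 2, 0, 1, 4, 0, 1, 3, 0, 3, 2, 2, 1, 0], 307, 1),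
  ([3, 1, 3, 1, 3, 0, 0, 2, 3, 3, 4, 0, 0, 0, 1, 3, 1, 1, 3], 309, 0),
  ([4, 3, 3, 0, 3, 0, 4, 2, 3, 1, 1, 1, 3, 0, 1, 3, 0, 3, 0], 310, 1),
  ([3, 1, 1, 2, 1, 3, 4, 0, 3, 0, 3, 0, 3, 2, 1, 1, 0, 2, 4], 312, 0),
  ([2, 0, 4, 3, 0, 3, 4, 2, 0, 1, 0, 3, 2, 1, 3, 1, 3, 1, 0], 313, 1),
  ([1, 3, 0, 2, 1, 3, 0, 2, 4, 4, 1, 2, 0, 3, 3, 1, 2, 3, 0], 315, 1),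
  ([1, 4, 0, 1, 3, 4, 4, 2, 2, 1, 1, 3, 0, 2, 3, 0, 0, 2, 3], 317, 1),
  ([0, 2, 4, 3, 4, 0, 1, 3, 1, 2, 0, 3, 4, 2, 3, 2, 0, 1, 2], 319, 0),
  ([0, 1, 1, 4, 1, 3, 4, 3, 1, 4, 2, 0, 3, 1, 2, 0, 1, 3, 2], 320, 1),
  ([0, 1, 1, 3, 2, 4, 1, 1, 3, 3, 3, 0, 0, 3, 1, 3, 0, 0, 3], 322, 0),
  ([1, 2, 2, 4, 1, 3, 0, 2, 3, 0, 1, 4, 0, 3, 3, 0, 0, 1, 3], 323, 2),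
  ([4, 2, 4, 3, 1, 4, 4, 0, 1, 0, 3, 3, 1, 3, 0, 3, 0, 1, 1], 326, 1),
  ([1, 0, 3, 4, 2, 1, 3, 1, 3, 4, 1, 0, 3, 0, 4, 3, 2, 2, 1], 328, 1),
  ([1, 1, 0, 4, 3, 1, 4, 2, 2, 3, 1, 0, 3, 1, 2, 1, 3, 0, 4], 330, 1),
  ([1, 3, 0, 2, 3, 0, 4, 3, 2, 4, 0, 3, 1, 0, 3, 0, 0, 1, 2], 332, 1),
  ([1, 1, 3, 1, 3, 3, 0, 4, 2, 0, 3, 3, 0, 1, 2, 0, 3, 4, 2], 334, 1),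
  ([0, 4, 3, 1, 2, 0, 0, 2, 2, 3, 4, 1, 3, 0, 3, 0, 2, 3, 1], 336, 1),
  ([1, 1, 4, 2, 2, 2, 1, 3, 1, 0, 4, 4, 0, 3, 0, 3, 2, 0, 3], 338, 1),
  ([0, 3, 2, 3, 0, 3, 1, 2, 4, 3, 0, 0, 2, 0, 0, 3, 3, 1, 3], 340, 1),
  ([0, 0, 2, 4, 3, 0, 3, 1, 3, 2, 1, 4, 0, 3, 1, 1, 2, 3, 0], 342, 2),
  ([1, 2, 1, 4, 4, 1, 3, 1, 3, 2, 0, 4, 0, 4, 2, 0, 3, 3, 1], 345, 3),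
  ([1, 0, 1, 4, 2, 3, 4, 3, 0, 2, 3, 0, 3, 1, 4, 2, 3, 0, 1], 349, 1),
  ([1, 2, 4, 4, 3, 1, 2, 0, 3, 4, 3, 0, 0, 1, 4, 0, 1, 3, 2], 351, 2),
  ([1, 4, 1, 4, 0, 2, 1, 3, 1, 3, 4, 1, 2, 0, 4, 3, 0, 3, 1], 354, 3),
  ([4, 4, 1, 0, 4, 4, 3, 1, 0, 1, 3, 4, 0, 2, 3, 2, 1, 0, 1], 358, 2),
  ([2, 0, 4, 2, 1, 4, 1, 4, 0, 3, 3, 0, 3, 0, 3, 2, 0, 3, 2], 361, 4),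
  ([4, 1, 0, 4, 4, 1, 3, 1, 1, 2, 0, 4, 3, 4, 2, 0, 3, 1, 1], 366, 3),
  ([3, 1, 1, 4, 3, 0, 2, 4, 3, 0, 4, 0, 1, 0, 3, 4, 1, 1, 2], 370, 3),
  ([3, 2, 0, 4, 0, 3, 1, 4, 1, 1, 1, 3, 2, 4, 3, 3, 0, 1, 4], 374, 1),
  ([1, 1, 3, 3, 0, 4, 2, 2, 3, 4, 0, 1, 2, 4, 0, 2, 4, 0, 3], 376, 3),
  ([4, 2, 1, 0, 4, 0, 2, 4, 1, 4, 2, 4, 3, 3, 1, 1, 0, 3, 0], 380, 2),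
  ([0, 2, 1, 1, 3, 4, 4, 2, 0, 3, 4, 1, 0, 3, 4, 1, 3, 1, 3], 383, 3)]

theorem ct19_2_ok : Raw.runR 19 387 ct19_2 224 = true := by decide +kernel

def ct19_3 : List (List Nat × Nat × Nat) := [
  ([2, 1, 4, 0, 4, 0, 3, 4, 3, 0, 1, 1, 2, 3, 0, 1, 2, 3, 4], 387, 3),
  ([0, 3, 4, 2, 2, 0, 4, 0, 2, 0, 4, 3, 1, 2, 3, 0, 4, 1, 2], 391, 3),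
  ([4, 3, 0, 1, 4, 4, 0, 1, 4, 1, 4, 3, 0, 1, 3, 0, 2, 3, 1], 395, 3),
  ([2, 4, 3, 1, 0, 3, 4, 0, 2, 2, 0, 4, 0, 3, 3, 4, 0, 1, 0], 399, 4),
  ([5, 3, 0, 3, 1, 2, 4, 4, 1, 3, 0, 4, 0, 2, 4, 3, 2, 0, 1], 404, 4),
  ([4, 4, 0, 2, 3, 1, 4, 4, 3, 1, 0, 4, 0, 4, 0, 0, 1, 2, 1], 409, 3),
  ([3, 4, 0, 3, 3, 0, 1, 4, 1, 1, 4, 0, 4, 2, 0, 4, 2, 0, 1], 413, 4),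
  ([3, 1, 4, 0, 2, 4, 0, 2, 3, 1, 2, 4, 3, 0, 0, 4, 1, 3, 4], 418, 5),
  ([1, 4, 3, 0, 4, 1, 1, 4, 0, 1, 2, 3, 4, 3, 0, 3, 0, 1, 4], 424, 5),
  ([0, 4, 1, 3, 4, 4, 2, 0, 3, 1, 1, 4, 4, 0, 3, 0, 4, 1, 2], 430, 5),
  ([4, 0, 0, 3, 3, 1, 1, 0, 3, 4, 2, 4, 0, 3, 2, 1, 0, 4, 3], 436, 3),
  ([4, 1, 0, 2, 5, 1, 4, 1, 4, 0, 3, 2, 0, 2, 3, 2, 0, 4, 3], 440, 5),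
  ([2, 2, 1, 4, 0, 4, 0, 4, 0, 3, 4, 2, 0, 2, 4, 1, 2, 4, 0], 445, 5),
  ([2, 4, 0, 4, 1, 4, 3, 2, 5, 1, 1, 2, 4, 0, 3, 0, 0, 3, 4], 451, 5),
  ([2, 1, 5, 4, 0, 3, 4, 0, 3, 3, 1, 4, 4, 0, 1, 4, 1, 4, 2], 457, 5),
  ([3, 0, 1, 3, 4, 1, 0, 4, 3, 1, 1, 2, 5, 0, 2, 4, 1, 3, 4], 463, 4),
  ([4, 0, 4, 3, 0, 1, 1, 3, 0, 4, 0, 1, 4, 0, 2, 3, 3, 1, 4], 468, 4),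
  ([2, 5, 2, 4, 0, 3, 0, 4, 0, 1, 4, 2, 4, 1, 0, 4, 3, 0, 1], 473, 5),
  ([0, 4, 3, 1, 2, 5, 1, 1, 3, 4, 5, 3, 0, 2, 4, 1, 0, 2, 4], 479, 5),
  ([4, 1, 4, 1, 5, 0, 2, 3, 4, 0, 2, 4, 3, 0, 0, 2, 0, 4, 0], 485, 6),
  ([0, 4, 2, 5, 3, 0, 1, 4, 3, 2, 4, 0, 0, 1, 0, 4, 4, 1, 2], 492, 5),
  ([5, 1, 0, 4, 4, 2, 2, 5, 1, 0, 4, 1, 3, 3, 5, 0, 1, 3, 2], 498, 6),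
  ([2, 2, 4, 3, 1, 5, 0, 4, 0, 3, 0, 1, 4, 4, 2, 5, 1, 0, 3], 505, 5),
  ([0, 4, 3, 5, 0, 3, 4, 4, 1, 2, 4, 0, 5, 1, 4, 0, 3, 2, 1], 511, 5),
  ([1, 5, 3, 5, 2, 1, 0, 4, 5, 0, 3, 2, 3, 4, 1, 3, 0, 4, 0], 517, 7),
  ([1, 3, 2, 4, 0, 2, 1, 4, 1, 2, 5, 1, 4, 2, 4, 0, 5, 0, 4], 525, 5),
  ([3, 1, 4, 2, 5, 0, 5, 1, 3, 3, 4, 0, 2, 1, 4, 1, 5, 0, 4], 530, 8),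
  ([5, 0, 1, 2, 0, 4, 2, 4, 2, 5, 1, 0, 4, 2, 4, 4, 0, 3, 3], 539, 4),
  ([2, 5, 1, 0, 2, 4, 0, 4, 1, 3, 5, 5, 3, 0, 0, 3, 2, 4, 2], 544, 5),
  ([5, 2, 4, 1, 2, 0, 5, 1, 4, 4, 2, 0, 5, 4, 2, 2, 0, 3, 5], 550, 6),
  ([5, 1, 3, 4, 0, 1, 5, 4, 2, 1, 0, 0, 5, 2, 4, 4, 2, 0, 3], 557, 6),
  ([4, 2, 0, 5, 3, 0, 1, 4, 4, 1, 2, 0, 2, 4, 0, 4, 0, 2, 5], 564, 7),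
  ([1, 5, 5, 0, 2, 4, 4, 1, 5, 0, 4, 3, 1, 5, 2, 1, 4, 0, 1], 572, 8),
  ([5, 3, 0, 3, 5, 3, 4, 0, 1, 5, 2, 4, 0, 1, 4, 3, 1, 0, 5], 581, 8),
  ([1, 5, 5, 1, 3, 0, 4, 5, 0, 2, 0, 5, 5, 2, 3, 4, 2, 1, 1], 590, 7),
  ([5, 0, 2, 0, 3, 4, 3, 0, 1, 5, 1, 3, 4, 0, 4, 0, 5, 2, 2], 598, 7),
  ([1, 4, 5, 1, 3, 1, 0, 5, 5, 1, 2, 3, 2, 4, 1, 5, 5, 0, 4], 606, 7),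
  ([5, 0, 6, 4, 4, 0, 3, 1, 2, 5, 0, 4, 0, 2, 0, 4, 3, 1, 2], 614, 8),
  ([0, 1, 5, 2, 4, 5, 0, 4, 0, 5, 5, 1, 3, 2, 1, 3, 1, 5, 2], 623, 8),
  ([5, 3, 3, 5, 1, 2, 6, 0, 3, 5, 1, 0, 5, 0, 4, 3, 5, 1, 2], 631, 9),
  ([2, 3, 2, 4, 0, 6, 1, 3, 3, 5, 1, 4, 5, 0, 0, 4, 3, 5, 0], 640, 8),
  ([3, 2, 0, 2, 5, 5, 1, 1, 5, 4, 2, 5, 3, 0, 0, 4, 5, 4, 0], 649, 8),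
  ([3, 5, 1, 3, 4, 1, 4, 0, 6, 5, 0, 1, 4, 1, 2, 5, 5, 0, 2], 658, 9),
  ([0, 1, 4, 2, 4, 5, 4, 0, 1, 5, 2, 3, 5, 2, 5, 0, 3, 0, 5], 668, 9),
  ([0, 4, 5, 1, 6, 0, 5, 2, 2, 1, 4, 3, 3, 4, 0, 0, 5, 1, 4], 678, 10),
  ([5, 0, 2, 3, 1, 3, 5, 0, 5, 4, 1, 0, 5, 0, 4, 1, 5, 3, 4], 689, 9),
  ([5, 4, 0, 5, 0, 5, 2, 0, 6, 1, 2, 3, 2, 3, 5, 1, 0, 5, 2], 699, 9),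
  ([6, 1, 2, 6, 4, 1, 6, 0, 1, 3, 5, 6, 4, 3, 2, 0, 4, 1, 3], 709, 10),
  ([0, 4, 5, 0, 1, 1, 4, 5, 2, 5, 0, 5, 2, 3, 4, 0, 0, 2, 5], 719, 11),
  ([1, 2, 4, 2, 3, 5, 0, 2, 6, 0, 4, 5, 1, 0, 4, 3, 0, 5, 5], 730, 13),
  ([4, 0, 5, 0, 6, 2, 3, 5, 1, 6, 2, 3, 0, 5, 1, 5, 3, 0, 2], 744, 13),
  ([5, 1, 6, 2, 3, 6, 0, 3, 2, 1, 5, 0, 0, 4, 5, 2, 6, 1, 3], 758, 11),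
  ([5, 5, 3, 6, 0, 2, 6, 3, 4, 1, 1, 2, 6, 4, 0, 0, 0, 5, 1], 770, 10),
  ([0, 6, 4, 2, 0, 5, 5, 0, 4, 2, 5, 0, 1, 1, 3, 4, 0, 4, 5], 781, 13),
  ([1, 2, 4, 4, 3, 0, 6, 1, 5, 4, 4, 1, 1, 6, 5, 0, 5, 5, 0], 795, 10),
  ([3, 1, 0, 3, 6, 2, 5, 0, 3, 1, 4, 0, 2, 6, 0, 5, 4, 4, 5], 806, 12),
  ([5, 5, 1, 2, 6, 6, 0, 1, 4, 2, 3, 0, 3, 5, 0, 6, 5, 2, 0], 819, 14),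
  ([6, 5, 1, 1, 4, 0, 6, 5, 1, 4, 3, 6, 2, 0, 0, 6, 1, 2, 4], 834, 14),
  ([6, 3, 1, 4, 0, 2, 4, 7, 5, 3, 0, 6, 0, 4, 5, 0, 2, 5, 2], 849, 12),
  ([6, 2, 3, 6, 1, 3, 5, 0, 5, 1, 4, 6, 4, 1, 6, 2, 0, 6, 0], 862, 17),
  ([1, 4, 2, 6, 3, 5, 1, 1, 2, 0, 6, 6, 4, 5, 5, 0, 0, 3, 6], 880, 13),
  ([2, 0, 6, 2, 5, 5, 0, 5, 4, 1, 0, 4, 3, 0, 6, 6, 1, 2, 5], 894, 16),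
  ([2, 3, 6, 5, 1, 1, 6, 2, 5, 0, 0, 6, 2, 4, 0, 5, 4, 6, 0], 911, 16),
  ([2, 6, 2, 4, 7, 1, 0, 5, 6, 0, 5, 1, 2, 4, 6, 3, 0, 3, 6], 928, 18),
  ([2, 5, 1, 6, 3, 3, 6, 0, 4, 2, 0, 6, 1, 6, 4, 0, 5, 6, 0], 947, 19),
  ([3, 6, 2, 4, 6, 1, 0, 2, 6, 0, 2, 3, 6, 6, 0, 5, 6, 0, 4], 967, 16)]

theorem ct19_3_ok : Raw.runR 19 984 ct19_3 387 = true := by decide +kernel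

end Pool.Agent.Wil
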