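import Pool.Agent.Wil.Raw

set_option autoImplicit false
set_option maxRecDepth 100000

/-! Explicit cores (runner heights, size, window), p = 23, degrees 92 to 283. -/

namespace Pool.Agent.Wil

def ct23_0 : List (List Nat × Nat × Nat) := [
  ([2, 1, 0, 1, 2, 0, 1, 2, 1, 0, 2, 1, 1, 0, 1, 0, 1, 1, 0, 1, 0, 0, 1], 92, 0),
  ([1, 0, 2, 1, 1, 0, 1, 2, 1, 0, 1, 2, 0, 1, 0, 1, 0, 1, 0, 1, 1, 0, 1], 93, 0),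
  ([1, 0, 1, 2, 1, 2, 0, 1, 0, 1, 2, 0, 1, 1, 0, 0, 1, 1, 0, 1, 0, 1, 1], 94, 0),
  ([2, 0, 1, 2, 1, 1, 0, 2, 1, 0, 2, 1, 0, 1, 1, 0, 0, 1, 0, 0, 1, 0, 1], 95, 0),
  ([0, 1, 2, 1, 0, 2, 1, 0, 2, 0, 1, 1, 0, 1, 0, 1, 0, 1, 0, 1, 0, 0, 1], 96, 0),
  ([0, 1, 2, 1, 0, 2, 1, 0, 2, 0, 1, 1, 0, 1, 0, 1, 0, 1, 0, 0, 1, 0, 1], 97, 0),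
  ([0, 1, 2, 0, 1, 2, 0, 1, 2, 0, 1, 1, 0, 1, 0, 1, 0, 1, 0, 1, 0, 0, 1], 98, 0),
  ([2, 1, 0, 2, 0, 1, 2, 1, 2, 0, 0, 1, 0, 1, 0, 1, 0, 1, 0, 1, 0, 1, 0], 99, 0),
  ([1, 0, 2, 1, 1, 2, 0, 1, 2, 0, 1, 2, 0, 1, 0, 1, 1, 0, 1, 0, 1, 1, 0], 100, 0),
  ([1, 1, 2, 1, 2, 1, 2, 0, 2, 1, 2, 0, 1, 2, 1, 0, 2, 1, 0, 1, 1, 0, 1], 101, 0),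
  ([0, 1, 2, 0, 1, 2, 0, 1, 2, 0, 1, 0, 1, 0, 1, 1, 0, 0, 1, 0, 1, 0, 1], 102, 0),
  ([1, 2, 1, 2, 1, 2, 1, 2, 0, 2, 0, 1, 1, 2, 0, 1, 1, 0, 2, 1, 0, 1, 0], 103, 0),
  ([0, 2, 1, 2, 0, 2, 1, 0, 1, 2, 0, 1, 0, 1, 0, 1, 0, 1, 0, 1, 0, 1, 0], 104, 0),
  ([0, 2, 1, 2, 0, 1, 2, 0, 1, 2, 0, 1, 0, 1, 0, 1, 0, 1, 0, 1, 0, 1, 0], 105, 0),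
  ([0, 1, 2, 1, 2, 0, 1, 2, 0, 1, 2, 0, 1, 0, 1, 0, 1, 0, 1, 0, 1, 0, 1], 106, 0),
  ([0, 2, 1, 2, 0, 1, 2, 0, 1, 0, 2, 1, 0, 1, 0, 1, 0, 1, 0, 1, 0, 1, 0], 107, 0),
  ([0, 1, 2, 1, 2, 0, 1, 2, 0, 1, 0, 2, 1, 0, 1, 0, 1, 0, 1, 0, 1, 0, 1], 108, 0),
  ([0, 1, 2, 1, 2, 0, 1, 2, 0, 1, 0, 1, 2, 0, 1, 0, 1, 0, 1, 0, 1, 0, 1], 109, 0),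
  ([0, 1, 2, 1, 0, 2, 1, 2, 0, 1, 0, 2, 1, 0, 1, 0, 1, 0, 1, 0, 1, 0, 1], 110, 0),
  ([0, 2, 1, 0, 2, 1, 0, 2, 1, 0, 2, 1, 0, 1, 0, 1, 0, 1, 0, 1, 0, 1, 0], 111, 0),
  ([0, 2, 1, 0, 2, 1, 0, 2, 1, 0, 1, 2, 0, 1, 0, 1, 0, 1, 0, 1, 0, 1, 0], 112, 0),
  ([0, 2, 1, 0, 2, 1, 0, 2, 1, 0, 1, 2, 0, 1, 0, 1, 0, 1, 0, 1, 0, 0, 1], 113, 0),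
  ([0, 1, 2, 0, 1, 2, 1, 0, 2, 1, 0, 1, 2, 0, 1, 0, 1, 0, 1, 0, 1, 0, 1], 114, 0),
  ([2, 0, 1, 2, 1, 0, 1, 2, 0, 1, 2, 0, 2, 0, 1, 1, 1, 0, 0, 0, 1, 1, 0], 115, 0),
  ([1, 2, 2, 1, 0, 1, 2, 2, 1, 2, 0, 0, 2, 1, 1, 0, 1, 2, 0, 1, 0, 0, 1], 116, 0),
  ([2, 1, 2, 1, 1, 2, 0, 1, 2, 0, 2, 2, 1, 0, 0, 1, 0, 1, 2, 0, 1, 0, 1], 117, 0),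
  ([0, 2, 2, 1, 2, 1, 0, 1, 1, 2, 0, 1, 2, 0, 2, 1, 0, 1, 0, 1, 0, 1, 0], 118, 0),
  ([1, 2, 1, 1, 0, 2, 1, 0, 2, 0, 2, 0, 1, 1, 0, 0, 2, 1, 0, 1, 1, 0, 1], 119, 0),
  ([0, 1, 0, 2, 1, 1, 2, 0, 1, 2, 0, 0, 1, 2, 1, 0, 1, 1, 0, 0, 1, 0, 1], 120, 0),
  ([1, 0, 2, 1, 0, 2, 2, 1, 0, 2, 1, 0, 1, 1, 0, 2, 0, 1, 0, 0, 1, 1, 0], 121, 0),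
  ([0, 2, 1, 2, 0, 1, 2, 0, 1, 2, 0, 1, 2, 0, 1, 0, 1, 0, 1, 0, 1, 0, 1], 122, 0),
  ([2, 2, 0, 1, 2, 0, 1, 2, 1, 0, 2, 1, 0, 0, 1, 2, 0, 1, 0, 0, 1, 0, 1], 123, 0),
  ([0, 1, 2, 1, 1, 2, 1, 2, 0, 1, 2, 1, 0, 2, 0, 1, 2, 0, 0, 1, 0, 1, 1], 124, 0),
  ([1, 2, 2, 0, 2, 1, 1, 1, 2, 0, 2, 1, 1, 0, 1, 0, 2, 0, 1, 0, 2, 0, 1], 125, 0),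
  ([0, 2, 2, 1, 2, 0, 1, 1, 2, 0, 1, 0, 2, 1, 1, 0, 2, 0, 1, 0, 1, 1, 0], 126, 0),
  ([1, 2, 1, 2, 2, 1, 2, 0, 1, 1, 2, 2, 0, 2, 0, 1, 2, 0, 1, 2, 0, 0, 1], 127, 0),
  ([1, 2, 2, 1, 0, 2, 1, 2, 1, 1, 2, 0, 0, 1, 2, 1, 2, 0, 1, 0, 2, 0, 1], 128, 0),
  ([2, 1, 1, 2, 2, 0, 1, 2, 1, 2, 0, 2, 1, 0, 1, 2, 0, 0, 1, 0, 1, 2, 0], 129, 0),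
  ([2, 1, 2, 1, 2, 0, 1, 1, 2, 0, 2, 1, 2, 0, 2, 0, 0, 1, 1, 2, 0, 1, 0], 130, 0),
  ([0, 2, 2, 1, 1, 2, 0, 1, 1, 0, 2, 0, 2, 0, 1, 1, 2, 0, 1, 0, 1, 0, 1], 131, 0),
  ([1, 2, 1, 0, 2, 1, 0, 2, 2, 0, 1, 0, 2, 1, 0, 0, 1, 2, 0, 1, 0, 1, 0], 132, 0),
  ([0, 1, 2, 0, 2, 1, 0, 2, 1, 0, 1, 2, 0, 1, 2, 0, 1, 0, 1, 0, 1, 0, 1], 133, 0),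
  ([0, 2, 1, 2, 0, 2, 1, 0, 2, 1, 0, 2, 1, 0, 1, 2, 0, 1, 0, 1, 0, 1, 0], 134, 0),
  ([1, 1, 2, 0, 1, 2, 0, 1, 2, 1, 0, 2, 1, 0, 1, 0, 2, 1, 0, 2, 1, 0, 1], 135, 0),
  ([2, 1, 2, 1, 0, 2, 1, 2, 0, 2, 0, 2, 1, 1, 0, 2, 0, 2, 1, 0, 1, 0, 0], 136, 0)]

theorem ct23_0_ok : Raw.runR 23 137 ct23_0 92 = true := by decide +kernel

def ct23_1 : List (List Nat × Nat × Nat) := [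
  ([1, 2, 2, 1, 2, 1, 2, 1, 0, 2, 1, 0, 2, 2, 1, 0, 2, 1, 0, 2, 0, 1, 2], 137, 0),
  ([2, 2, 2, 0, 2, 1, 2, 0, 0, 1, 1, 2, 0, 1, 2, 0, 0, 2, 1, 0, 1, 0, 0], 138, 0),
  ([2, 0, 2, 1, 2, 0, 1, 2, 0, 2, 1, 2, 0, 0, 0, 1, 2, 1, 1, 0, 0, 1, 0], 139, 0),
  ([0, 1, 1, 2, 1, 0, 2, 1, 0, 2, 0, 0, 1, 2, 1, 0, 1, 0, 2, 0, 1, 0, 1], 140, 0),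
  ([2, 0, 1, 2, 2, 1, 0, 2, 0, 1, 1, 2, 1, 0, 1, 0, 2, 1, 1, 0, 0, 2, 0], 141, 0),
  ([0, 1, 2, 1, 2, 1, 2, 2, 0, 0, 2, 0, 1, 2, 1, 0, 2, 0, 1, 0, 0, 1, 1], 142, 0),
  ([1, 2, 1, 0, 1, 2, 0, 1, 0, 2, 1, 2, 0, 0, 2, 0, 1, 2, 0, 1, 0, 1, 1], 143, 0),
  ([2, 1, 2, 0, 1, 2, 0, 1, 2, 2, 0, 0, 1, 0, 2, 0, 0, 2, 1, 0, 1, 1, 0], 144, 0),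
  ([2, 1, 2, 1, 2, 2, 0, 2, 1, 2, 0, 0, 1, 0, 2, 0, 2, 1, 0, 1, 2, 0, 0], 145, 0),
  ([2, 0, 1, 1, 2, 0, 1, 2, 2, 0, 1, 2, 0, 1, 2, 0, 0, 2, 1, 0, 1, 0, 1], 146, 0),
  ([1, 2, 3, 2, 1, 2, 0, 1, 2, 1, 0, 2, 1, 2, 2, 0, 1, 2, 1, 1, 0, 2, 0], 147, 0),
  ([2, 0, 2, 2, 1, 0, 2, 1, 0, 1, 0, 2, 0, 2, 0, 1, 0, 2, 1, 1, 0, 1, 0], 148, 0),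
  ([1, 2, 2, 2, 0, 1, 2, 2, 0, 1, 2, 1, 2, 0, 1, 2, 0, 1, 0, 2, 0, 2, 1], 149, 0),
  ([0, 2, 1, 1, 2, 2, 0, 0, 1, 2, 2, 1, 1, 0, 0, 2, 1, 0, 1, 0, 2, 0, 1], 150, 0),
  ([1, 0, 2, 2, 1, 2, 1, 2, 1, 2, 0, 2, 0, 1, 2, 0, 1, 0, 2, 1, 0, 1, 2], 151, 0),
  ([0, 1, 2, 0, 2, 2, 1, 0, 1, 0, 2, 0, 1, 1, 2, 0, 1, 1, 0, 2, 0, 1, 1], 152, 0),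
  ([3, 1, 2, 0, 2, 1, 2, 1, 0, 2, 2, 1, 0, 2, 2, 1, 0, 1, 1, 0, 2, 1, 0], 153, 0),
  ([1, 2, 0, 1, 2, 1, 0, 2, 2, 1, 1, 0, 2, 1, 0, 2, 2, 0, 1, 0, 2, 0, 1], 154, 0),
  ([0, 2, 2, 1, 2, 0, 1, 2, 1, 0, 2, 0, 0, 1, 1, 0, 2, 0, 1, 0, 1, 2, 0], 155, 0),
  ([1, 2, 1, 2, 0, 2, 0, 2, 1, 0, 2, 0, 1, 1, 2, 0, 2, 1, 0, 0, 1, 2, 1], 156, 0),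
  ([1, 2, 1, 0, 2, 1, 2, 0, 2, 2, 1, 2, 0, 1, 2, 0, 0, 2, 0, 1, 2, 1, 0], 157, 0),
  ([1, 1, 2, 0, 2, 1, 2, 0, 1, 1, 0, 2, 1, 2, 0, 2, 1, 0, 2, 0, 1, 1, 2], 158, 0),
  ([2, 0, 0, 2, 0, 1, 2, 0, 1, 0, 2, 1, 0, 2, 1, 0, 2, 0, 1, 1, 0, 1, 0], 159, 0),
  ([0, 2, 2, 1, 2, 1, 2, 0, 1, 2, 0, 2, 1, 0, 1, 2, 2, 0, 0, 2, 0, 1, 0], 160, 0),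
  ([1, 0, 2, 1, 0, 2, 2, 0, 2, 1, 2, 2, 0, 2, 0, 1, 1, 0, 2, 1, 0, 0, 1], 161, 0),
  ([1, 0, 2, 2, 2, 1, 0, 1, 2, 0, 2, 0, 1, 2, 0, 0, 2, 2, 0, 1, 1, 0, 0], 162, 0),
  ([1, 1, 0, 2, 2, 0, 1, 2, 0, 1, 2, 0, 1, 1, 1, 0, 2, 1, 0, 2, 0, 1, 2], 163, 0),
  ([0, 2, 2, 1, 2, 0, 2, 2, 0, 1, 0, 1, 2, 0, 0, 1, 1, 2, 0, 1, 2, 0, 1], 164, 0),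
  ([2, 1, 1, 2, 1, 1, 3, 0, 2, 0, 2, 1, 0, 2, 2, 1, 0, 2, 0, 1, 1, 1, 2], 165, 0),
  ([0, 2, 1, 2, 1, 1, 2, 1, 2, 0, 0, 2, 1, 2, 0, 2, 0, 1, 2, 0, 1, 2, 0], 166, 0),
  ([1, 0, 2, 1, 0, 2, 1, 0, 2, 2, 0, 0, 2, 1, 0, 2, 0, 2, 1, 1, 1, 0, 1], 167, 0),
  ([3, 2, 3, 2, 2, 2, 3, 1, 3, 1, 2, 3, 1, 3, 1, 1, 2, 3, 1, 3, 1, 0, 2], 168, 0),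
  ([1, 2, 0, 1, 0, 2, 2, 0, 1, 2, 1, 1, 0, 2, 1, 2, 0, 2, 0, 1, 0, 2, 1], 169, 0),
  ([1, 1, 2, 1, 2, 2, 3, 0, 2, 0, 1, 2, 1, 0, 1, 0, 2, 2, 0, 1, 0, 1, 2], 170, 0),
  ([0, 2, 1, 3, 2, 1, 1, 0, 2, 0, 1, 1, 0, 2, 1, 0, 2, 0, 2, 1, 0, 1, 0], 171, 0),
  ([2, 0, 1, 2, 1, 2, 0, 1, 2, 2, 0, 0, 2, 1, 1, 2, 0, 0, 1, 1, 2, 0, 2], 172, 0),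
  ([1, 2, 1, 2, 3, 0, 1, 2, 0, 2, 0, 1, 0, 2, 2, 0, 1, 0, 1, 1, 0, 1, 2], 173, 0),
  ([1, 2, 2, 0, 2, 1, 0, 2, 2, 1, 0, 2, 1, 2, 2, 0, 1, 0, 0, 2, 0, 0, 2], 174, 0),
  ([3, 0, 1, 2, 2, 0, 2, 1, 1, 1, 0, 2, 0, 2, 1, 0, 2, 0, 1, 1, 2, 0, 1], 175, 0),
  ([0, 2, 3, 1, 1, 0, 2, 1, 2, 0, 1, 2, 2, 0, 2, 1, 0, 1, 0, 2, 1, 0, 1], 176, 0),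
  ([3, 1, 0, 1, 2, 2, 0, 1, 2, 2, 0, 0, 2, 1, 0, 1, 2, 1, 0, 1, 2, 0, 0], 177, 0),
  ([2, 0, 1, 3, 1, 0, 2, 1, 2, 0, 1, 2, 1, 0, 2, 2, 0, 1, 0, 2, 1, 1, 0], 178, 0),
  ([2, 0, 2, 1, 2, 2, 0, 0, 2, 1, 2, 0, 1, 2, 0, 2, 2, 0, 1, 1, 0, 2, 0], 179, 0),
  ([0, 1, 1, 2, 2, 0, 2, 0, 1, 2, 0, 1, 2, 0, 1, 2, 1, 1, 0, 0, 2, 1, 2], 180, 0),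
  ([2, 0, 2, 2, 1, 0, 2, 2, 0, 1, 1, 2, 2, 1, 0, 0, 2, 1, 0, 0, 2, 0, 2], 181, 0)]

theorem ct23_1_ok : Raw.runR 23 182 ct23_1 137 = true := by decide +kernel

def ct23_2 : List (List Nat × Nat × Nat) := [
  ([2, 0, 2, 0, 2, 0, 1, 0, 2, 1, 1, 2, 1, 0, 2, 0, 0, 1, 2, 1, 0, 2, 0], 182, 0),
  ([1, 3, 0, 2, 2, 0, 2, 1, 2, 1, 2, 2, 0, 1, 2, 0, 0, 1, 2, 0, 2, 1, 0], 183, 0),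
  ([1, 1, 2, 2, 0, 3, 1, 0, 1, 2, 2, 1, 2, 1, 0, 1, 0, 0, 2, 0, 2, 1, 2], 184, 0),
  ([1, 1, 2, 0, 0, 2, 2, 1, 0, 2, 0, 2, 1, 1, 2, 0, 1, 2, 2, 0, 0, 1, 2], 185, 0),
  ([0, 2, 1, 2, 1, 1, 0, 2, 1, 0, 0, 2, 1, 2, 1, 0, 0, 2, 0, 0, 1, 2, 2], 186, 0),
  ([0, 1, 1, 2, 2, 2, 0, 2, 1, 0, 2, 2, 1, 1, 2, 0, 1, 0, 2, 0, 0, 2, 2], 187, 0),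
  ([2, 1, 2, 0, 0, 1, 2, 2, 0, 2, 1, 2, 0, 2, 0, 1, 0, 1, 2, 1, 2, 0, 2], 188, 0),
  ([0, 1, 2, 3, 1, 0, 2, 1, 2, 1, 2, 0, 2, 0, 0, 1, 2, 1, 2, 2, 0, 1, 1], 189, 0),
  ([0, 1, 2, 1, 2, 3, 2, 1, 2, 0, 1, 2, 0, 2, 0, 2, 1, 1, 0, 1, 0, 2, 2], 190, 0),
  ([1, 2, 0, 3, 1, 2, 1, 2, 0, 1, 1, 2, 0, 1, 0, 2, 1, 0, 0, 2, 1, 2, 2], 191, 0),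
  ([0, 2, 2, 0, 2, 1, 0, 2, 1, 0, 2, 2, 0, 0, 2, 1, 2, 0, 1, 0, 2, 0, 0], 192, 0),
  ([3, 2, 3, 1, 2, 0, 2, 1, 0, 2, 2, 0, 1, 0, 2, 0, 1, 1, 0, 2, 1, 2, 0], 193, 0),
  ([1, 1, 2, 0, 3, 1, 2, 2, 0, 0, 2, 1, 0, 2, 0, 2, 0, 2, 2, 1, 1, 0, 1], 194, 0),
  ([2, 0, 2, 0, 1, 2, 3, 1, 2, 1, 1, 0, 2, 2, 0, 2, 2, 0, 1, 0, 1, 2, 0], 195, 0),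
  ([1, 0, 2, 3, 1, 0, 2, 0, 2, 2, 0, 1, 2, 1, 2, 1, 0, 1, 2, 1, 0, 2, 0], 196, 0),
  ([1, 0, 3, 2, 1, 2, 1, 0, 2, 3, 0, 1, 1, 0, 2, 2, 0, 1, 2, 0, 1, 1, 1], 197, 0),
  ([1, 0, 1, 2, 2, 0, 1, 3, 2, 1, 0, 2, 0, 2, 1, 2, 1, 1, 0, 2, 0, 1, 2], 198, 0),
  ([0, 2, 0, 1, 0, 1, 2, 1, 2, 2, 0, 0, 2, 1, 1, 0, 2, 0, 2, 0, 0, 2, 1], 199, 0),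
  ([1, 1, 0, 2, 2, 2, 1, 0, 3, 2, 0, 2, 1, 0, 2, 1, 2, 1, 0, 2, 0, 1, 2], 200, 0),
  ([1, 1, 1, 2, 0, 1, 2, 3, 0, 0, 2, 0, 1, 2, 1, 0, 2, 0, 2, 0, 1, 2, 1], 201, 0),
  ([0, 2, 1, 2, 2, 0, 3, 1, 2, 1, 0, 2, 1, 0, 0, 2, 0, 1, 0, 2, 2, 0, 1], 202, 0),
  ([2, 1, 3, 0, 2, 1, 3, 2, 0, 3, 1, 2, 0, 2, 1, 1, 2, 0, 1, 1, 0, 1, 2], 203, 0),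
  ([3, 0, 2, 1, 2, 1, 2, 3, 0, 2, 2, 0, 1, 2, 1, 0, 0, 0, 2, 1, 1, 2, 0], 204, 0),
  ([0, 1, 2, 0, 3, 1, 1, 2, 0, 2, 1, 2, 0, 2, 1, 2, 1, 2, 0, 0, 0, 1, 2], 205, 0),
  ([1, 2, 1, 2, 1, 3, 2, 0, 2, 1, 3, 0, 1, 2, 0, 2, 2, 0, 0, 2, 1, 2, 0], 206, 0),
  ([1, 1, 2, 1, 0, 3, 1, 2, 1, 0, 1, 2, 3, 2, 1, 0, 2, 0, 0, 2, 1, 1, 2], 207, 0),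
  ([0, 3, 1, 0, 3, 2, 0, 2, 1, 1, 2, 2, 0, 1, 1, 0, 1, 2, 1, 0, 2, 0, 1], 208, 0),
  ([1, 2, 0, 1, 2, 2, 0, 1, 0, 3, 2, 2, 0, 1, 2, 1, 0, 1, 2, 2, 0, 1, 2], 209, 0),
  ([2, 3, 1, 0, 2, 2, 1, 3, 0, 2, 1, 1, 0, 1, 0, 2, 2, 2, 0, 2, 1, 0, 2], 210, 0),
  ([2, 0, 3, 0, 1, 1, 0, 1, 2, 1, 2, 0, 2, 2, 0, 2, 0, 2, 1, 2, 0, 1, 0], 211, 0),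
  ([2, 1, 2, 0, 2, 1, 0, 2, 1, 2, 1, 0, 0, 2, 3, 1, 0, 2, 0, 2, 1, 0, 2], 212, 0),
  ([2, 2, 1, 0, 1, 3, 1, 0, 1, 3, 2, 2, 0, 2, 2, 0, 1, 0, 1, 2, 0, 1, 2], 213, 0),
  ([0, 1, 3, 1, 2, 1, 1, 3, 0, 2, 0, 2, 1, 2, 0, 2, 2, 0, 1, 0, 1, 1, 2], 214, 1),
  ([2, 3, 0, 1, 1, 2, 1, 2, 3, 1, 0, 2, 1, 0, 2, 1, 2, 0, 0, 2, 0, 2, 2], 216, 0),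
  ([0, 2, 1, 2, 1, 1, 2, 3, 0, 1, 0, 2, 2, 2, 0, 2, 0, 1, 1, 0, 2, 2, 2], 217, 0),
  ([2, 1, 2, 1, 3, 2, 0, 3, 0, 1, 1, 0, 2, 1, 0, 0, 2, 2, 2, 0, 0, 1, 2], 218, 0),
  ([1, 2, 3, 1, 1, 0, 2, 2, 1, 3, 0, 2, 2, 0, 0, 1, 2, 0, 1, 2, 2, 0, 2], 219, 0),
  ([1, 2, 0, 1, 3, 1, 1, 2, 0, 2, 3, 1, 2, 1, 0, 0, 2, 0, 1, 0, 2, 0, 2], 220, 0),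
  ([1, 2, 0, 1, 1, 2, 0, 3, 2, 3, 1, 2, 0, 2, 0, 1, 2, 1, 2, 0, 0, 2, 1], 221, 0),
  ([2, 2, 3, 1, 2, 3, 0, 3, 1, 2, 0, 1, 2, 2, 1, 0, 1, 3, 1, 0, 2, 2, 0], 222, 0),
  ([2, 0, 2, 2, 2, 0, 3, 1, 2, 1, 0, 2, 0, 0, 2, 0, 2, 0, 0, 2, 2, 1, 0], 223, 0),
  ([1, 1, 3, 3, 1, 2, 0, 1, 2, 0, 2, 3, 0, 1, 2, 2, 0, 2, 0, 1, 2, 1, 0], 224, 0),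
  ([1, 3, 3, 0, 2, 2, 0, 0, 1, 2, 2, 2, 0, 1, 0, 2, 1, 0, 2, 0, 0, 2, 1], 225, 0),
  ([2, 1, 2, 0, 3, 0, 2, 1, 0, 2, 2, 0, 0, 2, 1, 2, 0, 2, 1, 2, 0, 0, 2], 226, 0),
  ([2, 3, 1, 2, 1, 3, 0, 1, 2, 0, 2, 2, 0, 2, 0, 1, 1, 3, 2, 0, 1, 2, 0], 227, 0)]

theorem ct23_2_ok : Raw.runR 23 228 ct23_2 182 = true := by decide +kernel

def ct23_3 : List (List Nat × Nat × Nat) := [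
  ([1, 3, 2, 0, 3, 0, 1, 1, 3, 1, 0, 2, 2, 1, 0, 0, 2, 2, 1, 2, 0, 1, 1], 228, 0),
  ([0, 2, 1, 3, 0, 0, 2, 1, 2, 2, 1, 1, 0, 2, 0, 1, 2, 0, 0, 2, 1, 2, 2], 229, 0),
  ([3, 3, 1, 1, 2, 1, 3, 0, 2, 2, 0, 2, 0, 0, 3, 1, 0, 2, 1, 1, 0, 0, 1], 230, 0),
  ([2, 3, 1, 1, 1, 3, 3, 0, 2, 1, 2, 0, 3, 0, 1, 2, 2, 1, 0, 1, 0, 0, 2], 231, 0),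
  ([0, 2, 2, 0, 1, 2, 3, 1, 2, 0, 0, 1, 3, 1, 2, 1, 2, 0, 1, 2, 1, 0, 2], 232, 0),
  ([1, 1, 3, 0, 2, 2, 1, 2, 1, 0, 1, 2, 2, 0, 3, 0, 0, 2, 2, 2, 1, 0, 2], 233, 0),
  ([2, 3, 0, 1, 2, 3, 0, 1, 2, 1, 2, 2, 0, 3, 0, 0, 1, 2, 1, 0, 2, 0, 1], 234, 1),
  ([1, 2, 2, 3, 1, 1, 3, 2, 1, 3, 0, 0, 2, 1, 3, 0, 1, 1, 0, 2, 0, 2, 2], 236, 1),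
  ([2, 1, 3, 3, 3, 0, 1, 3, 1, 0, 2, 2, 0, 1, 0, 2, 2, 0, 1, 2, 2, 1, 0], 238, 0),
  ([0, 2, 2, 1, 1, 1, 3, 3, 0, 2, 1, 1, 0, 2, 0, 2, 0, 1, 0, 0, 2, 2, 2], 239, 0),
  ([3, 2, 2, 2, 1, 3, 1, 0, 3, 0, 3, 1, 0, 2, 2, 0, 0, 2, 1, 2, 0, 0, 1], 240, 0),
  ([3, 1, 2, 1, 3, 3, 0, 3, 2, 1, 2, 0, 2, 2, 0, 3, 1, 2, 0, 0, 1, 2, 1], 241, 0),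
  ([2, 1, 2, 0, 2, 3, 0, 3, 1, 1, 0, 2, 2, 3, 0, 1, 0, 2, 0, 1, 2, 1, 0], 242, 0),
  ([3, 3, 0, 1, 1, 3, 0, 1, 0, 2, 2, 2, 0, 2, 1, 0, 2, 0, 2, 1, 1, 2, 0], 243, 0),
  ([0, 1, 2, 1, 1, 2, 1, 3, 0, 2, 0, 2, 1, 3, 2, 0, 2, 0, 2, 0, 0, 2, 1], 244, 0),
  ([2, 1, 3, 2, 1, 3, 0, 0, 2, 0, 3, 1, 2, 0, 2, 1, 0, 2, 2, 1, 0, 0, 2], 245, 1),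
  ([2, 1, 0, 2, 0, 3, 1, 0, 1, 2, 2, 1, 3, 0, 1, 2, 0, 2, 0, 0, 2, 2, 1], 247, 0),
  ([2, 3, 3, 1, 1, 1, 3, 2, 1, 2, 1, 0, 3, 2, 2, 2, 0, 1, 3, 0, 3, 0, 1], 248, 0),
  ([3, 1, 1, 2, 2, 0, 2, 3, 0, 1, 3, 2, 0, 0, 2, 1, 0, 2, 0, 2, 2, 1, 2], 249, 0),
  ([1, 3, 0, 1, 2, 0, 3, 2, 1, 3, 3, 0, 2, 1, 1, 2, 0, 0, 2, 1, 1, 1, 2], 250, 0),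
  ([0, 3, 2, 1, 1, 2, 1, 3, 1, 0, 2, 1, 3, 0, 2, 0, 2, 2, 0, 1, 0, 2, 2], 251, 1),
  ([3, 1, 2, 1, 2, 2, 1, 3, 0, 1, 3, 0, 0, 1, 2, 2, 0, 1, 3, 0, 2, 0, 0], 253, 0),
  ([1, 2, 3, 3, 1, 0, 3, 2, 2, 0, 2, 1, 0, 2, 2, 0, 3, 0, 1, 0, 2, 0, 1], 254, 1),
  ([1, 2, 2, 0, 2, 2, 1, 0, 3, 0, 2, 3, 1, 0, 3, 1, 0, 2, 2, 1, 0, 1, 2], 256, 0),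
  ([3, 1, 2, 3, 3, 2, 1, 3, 3, 0, 0, 2, 1, 0, 1, 2, 1, 2, 3, 0, 1, 0, 0], 257, 0),
  ([2, 0, 3, 0, 2, 3, 2, 1, 0, 3, 2, 3, 1, 1, 1, 0, 1, 2, 1, 0, 2, 2, 0], 258, 0),
  ([3, 3, 1, 3, 2, 2, 3, 0, 2, 1, 2, 2, 0, 3, 1, 1, 0, 3, 2, 0, 0, 2, 0], 259, 1),
  ([1, 2, 1, 2, 0, 3, 3, 0, 1, 0, 3, 2, 2, 2, 1, 3, 0, 1, 0, 1, 2, 2, 1], 261, 0),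
  ([3, 2, 3, 3, 1, 0, 2, 0, 3, 1, 0, 2, 1, 0, 1, 2, 3, 0, 2, 2, 1, 1, 0], 262, 0),
  ([2, 3, 3, 2, 0, 2, 1, 0, 3, 2, 1, 2, 2, 0, 0, 3, 1, 3, 1, 2, 0, 1, 0], 263, 0),
  ([1, 2, 1, 2, 3, 2, 1, 0, 3, 0, 2, 3, 1, 0, 2, 1, 1, 2, 0, 2, 0, 3, 2], 264, 1),
  ([3, 1, 2, 0, 3, 3, 1, 2, 2, 3, 1, 2, 0, 0, 2, 0, 3, 1, 2, 0, 0, 2, 1], 265, 1),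
  ([0, 3, 2, 3, 1, 0, 0, 3, 2, 1, 2, 1, 0, 2, 3, 1, 0, 1, 0, 2, 2, 1, 1], 267, 0),
  ([1, 1, 3, 0, 2, 3, 2, 0, 2, 1, 3, 2, 1, 0, 3, 0, 0, 2, 1, 0, 1, 0, 2], 268, 1),
  ([3, 3, 1, 0, 1, 3, 2, 1, 2, 3, 2, 1, 0, 3, 0, 2, 0, 1, 2, 0, 0, 2, 2], 270, 0),
  ([3, 3, 2, 1, 1, 0, 1, 3, 3, 1, 0, 2, 3, 0, 3, 2, 1, 2, 0, 1, 1, 0, 0], 271, 0),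
  ([1, 3, 1, 2, 1, 3, 0, 1, 3, 2, 3, 0, 0, 2, 3, 0, 1, 2, 0, 1, 1, 2, 0], 272, 1),
  ([1, 2, 3, 0, 1, 3, 3, 0, 2, 0, 2, 1, 3, 3, 1, 1, 1, 2, 0, 0, 1, 0, 2], 274, 0),
  ([0, 3, 2, 1, 3, 3, 2, 0, 1, 2, 1, 0, 1, 3, 1, 2, 1, 0, 3, 0, 2, 1, 0], 275, 0),
  ([0, 2, 2, 1, 2, 3, 1, 3, 2, 1, 0, 2, 3, 0, 0, 2, 2, 1, 2, 0, 0, 1, 3], 276, 0),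
  ([1, 2, 1, 1, 3, 0, 3, 2, 2, 3, 3, 0, 0, 2, 1, 3, 2, 0, 1, 1, 0, 0, 2], 277, 0),
  ([3, 3, 2, 3, 0, 3, 1, 1, 2, 0, 2, 0, 1, 2, 0, 0, 2, 2, 3, 0, 1, 2, 0], 278, 0),
  ([2, 3, 2, 1, 0, 2, 3, 2, 0, 2, 1, 1, 3, 0, 0, 3, 0, 2, 2, 0, 0, 2, 0], 279, 1),
  ([0, 2, 3, 0, 2, 1, 0, 2, 1, 0, 3, 1, 2, 0, 3, 1, 2, 0, 2, 2, 1, 2, 1], 281, 0),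
  ([3, 1, 2, 1, 0, 3, 2, 3, 0, 3, 2, 0, 2, 0, 3, 2, 1, 1, 0, 1, 0, 2, 2], 282, 1)]

theorem ct23_3_ok : Raw.runR 23 284 ct23_3 228 = true := by decide +kernel

end Pool.Agent.Wil
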