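import Pool.Agent.Wil.Raw
import Pool.Agent.Wil.Cert23a

set_option autoImplicit false
set_option maxRecDepth 100000

/-! Explicit cores (runner heights, size, window), p = 23, degrees 284 to 824. -/

namespace Pool.Agent.Wil

def ct23_4 : List (List Nat × Nat × Nat) := [
  ([3, 3, 1, 0, 3, 0, 0, 3, 1, 2, 1, 2, 3, 0, 0, 2, 0, 1, 0, 1, 1, 2, 1], 284, 0),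
  ([0, 1, 3, 1, 2, 1, 3, 1, 2, 3, 0, 1, 2, 1, 2, 1, 0, 2, 0, 3, 3, 2, 1], 285, 0),
  ([0, 2, 2, 1, 3, 1, 2, 3, 1, 0, 1, 2, 3, 1, 0, 1, 3, 2, 3, 0, 0, 1, 2], 286, 0),
  ([1, 1, 2, 0, 2, 3, 0, 1, 2, 1, 3, 3, 1, 0, 2, 3, 0, 0, 2, 2, 0, 2, 1], 287, 1),
  ([3, 1, 3, 0, 2, 1, 0, 2, 1, 3, 0, 2, 0, 3, 1, 1, 2, 0, 3, 2, 1, 0, 1], 289, 1),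
  ([3, 1, 0, 1, 3, 2, 3, 0, 3, 2, 2, 1, 3, 1, 3, 0, 0, 1, 2, 0, 2, 0, 1], 291, 1),
  ([2, 1, 0, 2, 1, 3, 2, 1, 0, 2, 1, 3, 1, 0, 2, 0, 2, 3, 1, 0, 2, 3, 2], 293, 0),
  ([1, 1, 3, 1, 3, 2, 0, 3, 0, 2, 0, 3, 2, 1, 1, 1, 2, 3, 3, 0, 1, 0, 1], 294, 0),
  ([1, 0, 3, 3, 1, 3, 2, 3, 0, 3, 2, 0, 2, 0, 1, 2, 2, 0, 0, 2, 0, 1, 2], 295, 0),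
  ([3, 2, 3, 0, 3, 0, 2, 1, 3, 1, 1, 2, 1, 3, 0, 3, 0, 2, 0, 1, 0, 2, 0], 296, 2),
  ([2, 2, 3, 1, 2, 0, 2, 3, 0, 3, 2, 1, 3, 1, 2, 0, 2, 0, 0, 2, 3, 1, 3], 299, 0),
  ([3, 1, 3, 1, 0, 2, 3, 2, 1, 3, 2, 0, 2, 1, 0, 1, 0, 1, 3, 0, 3, 2, 0], 300, 1),
  ([1, 3, 1, 0, 3, 1, 0, 1, 3, 2, 1, 2, 2, 1, 3, 1, 0, 3, 1, 0, 3, 1, 2], 302, 0),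
  ([0, 1, 3, 3, 0, 2, 2, 1, 2, 1, 3, 1, 2, 2, 0, 1, 0, 2, 3, 0, 1, 2, 3], 303, 0),
  ([2, 2, 1, 1, 0, 3, 2, 3, 3, 0, 2, 1, 3, 1, 0, 3, 0, 2, 1, 1, 0, 3, 2], 304, 0),
  ([2, 1, 3, 1, 0, 3, 2, 1, 2, 3, 0, 2, 0, 1, 0, 3, 2, 0, 2, 0, 2, 3, 1], 305, 1),
  ([2, 3, 1, 2, 0, 1, 3, 2, 0, 3, 3, 1, 1, 2, 2, 2, 0, 0, 1, 3, 0, 3, 0], 307, 0),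
  ([2, 3, 1, 3, 1, 1, 3, 0, 1, 0, 3, 2, 3, 1, 0, 1, 3, 1, 0, 2, 1, 3, 0], 308, 0),
  ([3, 0, 3, 1, 2, 2, 1, 3, 3, 0, 3, 2, 3, 1, 0, 2, 2, 3, 0, 0, 2, 0, 1], 309, 0),
  ([3, 1, 0, 2, 1, 2, 3, 1, 0, 3, 0, 2, 3, 1, 0, 2, 0, 0, 1, 2, 2, 3, 1], 310, 0),
  ([2, 0, 2, 1, 3, 1, 0, 3, 1, 2, 3, 1, 2, 0, 0, 2, 3, 0, 3, 2, 1, 2, 2], 311, 0),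
  ([2, 0, 0, 3, 2, 0, 3, 1, 3, 1, 2, 3, 1, 3, 0, 2, 0, 1, 2, 0, 2, 1, 2], 312, 0),
  ([3, 1, 1, 1, 3, 2, 2, 3, 0, 3, 0, 2, 2, 3, 2, 0, 0, 3, 0, 2, 1, 3, 1], 313, 0),
  ([3, 1, 0, 3, 2, 1, 2, 2, 3, 1, 0, 3, 3, 3, 1, 2, 0, 2, 1, 0, 3, 0, 0], 314, 0),
  ([2, 0, 3, 1, 2, 0, 2, 2, 1, 3, 0, 3, 1, 3, 1, 3, 2, 0, 2, 1, 0, 3, 1], 315, 0),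
  ([3, 0, 1, 1, 3, 2, 1, 1, 3, 1, 3, 1, 2, 3, 0, 3, 0, 3, 1, 2, 0, 2, 0], 316, 0),
  ([2, 1, 1, 3, 3, 1, 2, 3, 2, 0, 0, 3, 2, 2, 0, 0, 1, 3, 2, 0, 0, 2, 3], 317, 0),
  ([3, 0, 2, 3, 0, 1, 1, 1, 3, 3, 3, 2, 0, 2, 1, 0, 3, 0, 2, 1, 2, 0, 0], 318, 0),
  ([1, 3, 1, 2, 3, 2, 0, 1, 3, 0, 3, 0, 0, 2, 3, 1, 1, 0, 2, 3, 0, 1, 2], 319, 1),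
  ([3, 3, 1, 0, 1, 3, 2, 1, 3, 0, 2, 3, 0, 2, 0, 2, 3, 1, 1, 0, 3, 0, 1], 321, 1),
  ([3, 1, 3, 3, 0, 3, 2, 1, 0, 1, 2, 2, 3, 0, 3, 0, 2, 1, 1, 0, 0, 3, 0], 323, 1),
  ([2, 3, 0, 2, 2, 0, 2, 1, 3, 1, 0, 1, 3, 3, 0, 0, 2, 0, 2, 2, 1, 0, 3], 325, 0),
  ([1, 3, 3, 3, 1, 0, 1, 3, 1, 2, 1, 3, 0, 3, 3, 0, 2, 2, 0, 2, 3, 0, 1], 326, 0),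
  ([1, 0, 3, 2, 1, 3, 2, 3, 3, 0, 2, 3, 2, 1, 0, 0, 3, 3, 1, 0, 1, 0, 2], 327, 0),
  ([1, 1, 2, 3, 0, 2, 3, 0, 3, 3, 1, 1, 1, 3, 0, 3, 1, 0, 3, 1, 2, 0, 2], 328, 1),
  ([4, 2, 2, 1, 1, 0, 3, 2, 1, 3, 0, 1, 2, 0, 3, 2, 0, 2, 3, 3, 0, 1, 1], 330, 0),
  ([1, 2, 1, 2, 1, 0, 3, 3, 1, 3, 3, 0, 1, 0, 2, 3, 2, 1, 2, 1, 0, 3, 3], 331, 0),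
  ([1, 3, 0, 3, 1, 1, 1, 2, 3, 2, 0, 3, 0, 1, 0, 2, 3, 2, 1, 0, 0, 3, 0], 332, 0),
  ([2, 0, 3, 2, 3, 1, 3, 1, 2, 3, 1, 3, 2, 1, 3, 0, 1, 0, 0, 3, 0, 3, 0], 333, 0),
  ([3, 2, 2, 2, 0, 3, 0, 3, 2, 3, 0, 1, 1, 3, 0, 3, 0, 1, 3, 0, 1, 2, 0], 334, 1),
  ([1, 3, 2, 0, 1, 3, 1, 0, 2, 3, 3, 0, 2, 1, 3, 3, 2, 0, 1, 1, 2, 0, 3], 336, 1),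
  ([2, 2, 3, 2, 0, 1, 3, 1, 3, 0, 3, 1, 0, 3, 1, 0, 3, 1, 0, 3, 0, 2, 2], 338, 1),
  ([3, 1, 1, 2, 3, 0, 3, 0, 2, 1, 3, 3, 0, 2, 2, 0, 1, 3, 1, 1, 3, 2, 3], 340, 0),
  ([3, 2, 0, 2, 1, 3, 2, 0, 1, 3, 1, 3, 1, 1, 3, 0, 0, 3, 2, 0, 3, 2, 0], 341, 1),
  ([3, 2, 3, 2, 0, 3, 0, 2, 1, 0, 2, 3, 3, 1, 0, 3, 0, 2, 0, 2, 3, 0, 1], 343, 0)]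

theorem ct23_4_ok : Raw.runR 23 344 ct23_4 284 = true := by decide +kernel

def ct23_5 : List (List Nat × Nat × Nat) := [
  ([1, 1, 3, 0, 2, 1, 3, 2, 3, 2, 3, 3, 0, 2, 0, 3, 1, 2, 0, 3, 1, 3, 0], 344, 0),
  ([3, 2, 0, 1, 1, 3, 2, 3, 0, 3, 3, 2, 2, 0, 1, 1, 0, 2, 0, 2, 0, 3, 3], 345, 0),
  ([2, 0, 0, 3, 1, 1, 2, 3, 0, 2, 2, 1, 2, 0, 3, 0, 3, 2, 1, 2, 0, 2, 3], 346, 0),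
  ([2, 1, 1, 0, 3, 4, 2, 1, 0, 0, 3, 2, 0, 1, 2, 3, 2, 0, 3, 1, 2, 1, 2], 347, 0),
  ([3, 3, 0, 2, 1, 0, 3, 2, 0, 1, 3, 2, 0, 3, 0, 3, 2, 1, 0, 2, 3, 1, 1], 348, 1),
  ([3, 1, 3, 0, 2, 0, 2, 3, 2, 0, 0, 2, 0, 2, 0, 3, 2, 3, 1, 1, 3, 0, 1], 350, 0),
  ([3, 1, 3, 1, 1, 3, 2, 0, 0, 2, 3, 0, 1, 3, 0, 2, 3, 1, 3, 0, 1, 1, 3], 351, 1),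
  ([3, 3, 0, 3, 1, 2, 2, 1, 0, 3, 1, 0, 0, 2, 3, 1, 3, 2, 0, 0, 2, 3, 0], 353, 1),
  ([3, 2, 3, 2, 3, 1, 4, 2, 0, 2, 2, 3, 1, 0, 1, 3, 0, 0, 3, 3, 0, 0, 0], 355, 0),
  ([0, 1, 3, 1, 2, 0, 3, 2, 3, 1, 0, 1, 3, 2, 3, 1, 0, 1, 1, 3, 2, 0, 3], 356, 1),
  ([1, 2, 3, 3, 3, 1, 0, 2, 0, 2, 0, 3, 3, 0, 1, 3, 0, 2, 1, 0, 0, 2, 3], 357, 1),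
  ([3, 0, 2, 3, 1, 4, 1, 2, 1, 2, 1, 2, 3, 3, 2, 0, 0, 3, 0, 0, 2, 3, 0], 359, 0),
  ([3, 0, 2, 1, 3, 1, 2, 2, 1, 3, 0, 0, 2, 3, 0, 3, 3, 1, 2, 0, 0, 3, 0], 360, 1),
  ([3, 3, 1, 0, 1, 3, 2, 0, 3, 1, 0, 2, 2, 2, 0, 1, 3, 0, 0, 3, 0, 1, 3], 362, 1),
  ([1, 1, 2, 3, 3, 0, 3, 1, 0, 2, 3, 3, 1, 0, 0, 3, 1, 3, 0, 1, 2, 3, 2], 363, 1),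
  ([1, 4, 0, 2, 3, 0, 3, 1, 2, 3, 3, 1, 2, 0, 1, 3, 0, 2, 3, 0, 1, 2, 0], 365, 2),
  ([3, 0, 2, 1, 2, 3, 0, 2, 0, 3, 1, 2, 3, 0, 3, 2, 0, 3, 2, 3, 0, 0, 1], 368, 1),
  ([1, 0, 3, 0, 3, 3, 1, 1, 3, 1, 2, 0, 3, 0, 3, 1, 2, 3, 1, 3, 1, 0, 2], 369, 1),
  ([1, 3, 2, 0, 1, 1, 3, 0, 2, 3, 0, 2, 3, 1, 1, 3, 2, 0, 0, 3, 0, 3, 2], 371, 2),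
  ([3, 2, 1, 3, 2, 0, 3, 0, 0, 2, 3, 3, 0, 0, 3, 3, 2, 0, 3, 2, 1, 0, 1], 374, 0),
  ([1, 2, 0, 3, 2, 4, 0, 2, 1, 1, 3, 3, 0, 1, 0, 2, 3, 2, 2, 0, 2, 3, 0], 375, 1),
  ([0, 3, 2, 3, 3, 1, 0, 3, 2, 1, 1, 2, 4, 2, 1, 3, 1, 0, 0, 1, 3, 0, 3], 377, 0),
  ([2, 3, 4, 1, 1, 3, 3, 0, 3, 1, 4, 0, 0, 2, 3, 2, 1, 0, 2, 2, 3, 1, 0], 378, 1),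
  ([2, 3, 2, 0, 2, 0, 0, 3, 3, 1, 3, 0, 0, 3, 1, 3, 0, 0, 2, 1, 2, 3, 1], 380, 0),
  ([1, 2, 3, 3, 1, 3, 0, 1, 3, 1, 4, 0, 0, 3, 0, 3, 2, 2, 0, 1, 3, 2, 1], 381, 1),
  ([3, 1, 1, 3, 0, 4, 0, 0, 3, 1, 3, 2, 0, 2, 2, 3, 0, 1, 2, 1, 3, 1, 0], 383, 1),
  ([0, 0, 3, 1, 3, 0, 1, 2, 3, 1, 2, 2, 0, 0, 3, 1, 3, 2, 2, 0, 2, 3, 0], 385, 0),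
  ([3, 3, 2, 3, 0, 1, 3, 1, 0, 0, 2, 3, 0, 1, 3, 2, 1, 2, 3, 0, 3, 0, 3], 386, 0),
  ([3, 2, 0, 3, 1, 3, 0, 2, 2, 0, 0, 3, 4, 1, 1, 2, 0, 2, 0, 2, 2, 3, 0], 387, 0),
  ([3, 3, 1, 1, 0, 4, 2, 2, 1, 0, 3, 0, 1, 3, 3, 3, 2, 2, 0, 0, 3, 0, 1], 388, 0),
  ([1, 1, 2, 3, 3, 2, 0, 3, 2, 1, 0, 0, 0, 3, 1, 3, 2, 3, 0, 1, 0, 3, 3], 389, 0),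
  ([2, 4, 1, 3, 1, 3, 0, 0, 2, 3, 0, 3, 2, 1, 3, 0, 2, 1, 0, 3, 0, 3, 1], 390, 2),
  ([1, 2, 3, 3, 0, 1, 2, 2, 4, 3, 0, 1, 2, 3, 2, 0, 4, 0, 3, 0, 2, 2, 1], 393, 0),
  ([1, 4, 3, 2, 0, 1, 3, 3, 1, 3, 0, 0, 1, 3, 0, 3, 3, 1, 1, 0, 3, 1, 2], 394, 1),
  ([3, 1, 3, 0, 3, 3, 0, 1, 2, 1, 2, 3, 0, 3, 0, 2, 3, 0, 3, 1, 0, 3, 0], 396, 3),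
  ([3, 0, 2, 1, 0, 2, 3, 0, 2, 0, 3, 1, 3, 0, 3, 0, 3, 2, 1, 0, 1, 3, 2], 400, 2),
  ([1, 1, 3, 0, 1, 3, 0, 0, 3, 3, 1, 3, 2, 0, 1, 3, 2, 2, 0, 3, 1, 0, 3], 403, 1),
  ([3, 2, 1, 1, 4, 1, 0, 3, 0, 0, 3, 0, 2, 0, 1, 3, 3, 1, 1, 0, 3, 2, 2], 405, 0),
  ([2, 0, 1, 3, 3, 1, 0, 3, 1, 3, 0, 3, 3, 0, 3, 2, 1, 3, 0, 1, 0, 2, 3], 406, 1),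
  ([3, 0, 3, 0, 3, 1, 0, 2, 0, 3, 1, 2, 3, 3, 1, 0, 0, 3, 1, 0, 1, 2, 3], 408, 1),
  ([0, 1, 3, 3, 2, 1, 0, 2, 2, 4, 0, 2, 2, 0, 1, 3, 3, 2, 1, 0, 3, 3, 0], 410, 0),
  ([1, 1, 3, 0, 3, 2, 0, 2, 3, 1, 4, 1, 3, 1, 0, 3, 0, 1, 2, 3, 0, 2, 3], 411, 2),
  ([3, 3, 0, 1, 3, 1, 4, 1, 3, 2, 0, 1, 3, 1, 3, 0, 1, 0, 1, 3, 3, 3, 0], 414, 1),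
  ([2, 1, 1, 2, 3, 1, 0, 0, 3, 4, 1, 3, 2, 1, 3, 0, 0, 3, 2, 0, 1, 3, 3], 416, 1),
  ([0, 4, 0, 0, 3, 2, 3, 1, 0, 1, 1, 0, 3, 2, 2, 3, 0, 2, 1, 2, 1, 0, 3], 418, 1)]

theorem ct23_5_ok : Raw.runR 23 420 ct23_5 344 = true := by decide +kernel

def ct23_6 : List (List Nat × Nat × Nat) := [
  ([0, 1, 2, 4, 1, 1, 3, 1, 3, 3, 0, 3, 0, 1, 0, 2, 2, 1, 3, 0, 3, 3, 2], 420, 1),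
  ([0, 4, 1, 3, 2, 1, 0, 3, 2, 2, 1, 1, 3, 4, 2, 3, 0, 3, 0, 1, 0, 3, 1], 422, 1),
  ([4, 0, 1, 3, 3, 1, 4, 0, 3, 1, 0, 1, 2, 1, 3, 3, 3, 0, 2, 0, 0, 2, 1], 424, 1),
  ([0, 1, 2, 0, 2, 3, 1, 0, 3, 3, 1, 3, 1, 3, 0, 0, 3, 2, 1, 3, 0, 3, 0], 425, 1),
  ([1, 4, 3, 0, 1, 2, 1, 3, 0, 3, 0, 3, 0, 3, 3, 3, 0, 2, 3, 1, 0, 1, 2], 427, 1),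
  ([3, 2, 1, 0, 0, 4, 2, 1, 4, 1, 2, 3, 0, 2, 1, 1, 0, 3, 2, 3, 1, 3, 3], 429, 0),
  ([0, 3, 3, 2, 1, 2, 1, 3, 1, 0, 2, 3, 2, 0, 3, 3, 4, 0, 3, 0, 3, 0, 1], 430, 0),
  ([3, 2, 0, 3, 1, 2, 3, 1, 4, 1, 0, 2, 4, 3, 0, 0, 2, 1, 3, 0, 2, 3, 0], 431, 2),
  ([1, 0, 2, 3, 2, 1, 4, 3, 4, 3, 0, 3, 0, 1, 1, 3, 2, 1, 3, 0, 2, 0, 3], 434, 1),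
  ([1, 4, 3, 1, 4, 0, 4, 2, 1, 0, 2, 0, 2, 2, 4, 3, 1, 1, 2, 1, 0, 2, 3], 436, 0),
  ([2, 1, 4, 2, 4, 3, 1, 3, 3, 1, 0, 0, 0, 2, 4, 1, 3, 2, 3, 2, 0, 3, 0], 437, 1),
  ([2, 4, 0, 3, 0, 2, 1, 3, 3, 1, 4, 1, 3, 2, 0, 0, 1, 3, 1, 0, 3, 2, 3], 439, 2),
  ([3, 4, 2, 0, 3, 1, 0, 3, 1, 3, 1, 4, 0, 0, 2, 3, 3, 0, 0, 1, 3, 1, 1], 442, 2),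
  ([1, 3, 0, 3, 1, 2, 4, 1, 0, 2, 2, 1, 3, 3, 0, 4, 1, 0, 2, 3, 3, 1, 3], 445, 2),
  ([3, 3, 0, 3, 4, 2, 3, 0, 1, 4, 2, 4, 1, 1, 3, 0, 1, 1, 0, 3, 0, 3, 2], 448, 1),
  ([0, 4, 1, 3, 2, 0, 4, 1, 3, 1, 2, 4, 2, 0, 3, 0, 3, 1, 2, 1, 3, 0, 1], 450, 3),
  ([3, 0, 4, 3, 3, 0, 4, 3, 2, 0, 0, 3, 1, 4, 2, 1, 1, 2, 3, 1, 0, 2, 0], 454, 0),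
  ([2, 3, 3, 2, 3, 0, 0, 2, 4, 1, 0, 1, 3, 2, 0, 4, 2, 3, 1, 0, 3, 0, 3], 455, 1),
  ([0, 0, 3, 1, 3, 1, 2, 3, 4, 3, 2, 0, 1, 3, 0, 1, 1, 3, 0, 0, 3, 2, 3], 457, 1),
  ([1, 2, 3, 3, 1, 2, 4, 1, 0, 3, 1, 3, 3, 0, 3, 4, 0, 3, 0, 0, 3, 2, 0], 459, 1),
  ([1, 0, 2, 2, 3, 4, 1, 0, 3, 4, 1, 0, 1, 3, 3, 1, 0, 0, 1, 2, 3, 3, 0], 461, 1),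
  ([0, 1, 3, 4, 0, 3, 3, 2, 0, 1, 3, 3, 0, 4, 0, 1, 1, 2, 3, 1, 2, 1, 3], 463, 2),
  ([2, 4, 1, 1, 0, 4, 3, 3, 4, 2, 3, 4, 1, 0, 3, 1, 0, 0, 0, 3, 2, 1, 2], 466, 0),
  ([3, 0, 2, 3, 0, 1, 3, 1, 2, 2, 3, 4, 2, 3, 0, 0, 4, 1, 1, 0, 3, 3, 0], 467, 1),
  ([1, 0, 3, 3, 0, 3, 4, 1, 3, 0, 3, 1, 3, 4, 1, 2, 0, 2, 0, 1, 3, 3, 1], 469, 2),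
  ([0, 1, 2, 4, 4, 2, 2, 3, 3, 0, 2, 1, 4, 2, 1, 1, 3, 4, 0, 1, 3, 0, 3], 472, 1),
  ([1, 3, 4, 0, 1, 3, 4, 1, 2, 3, 3, 0, 1, 3, 1, 2, 1, 4, 0, 2, 4, 0, 2], 474, 2),
  ([3, 0, 3, 4, 2, 2, 0, 1, 1, 2, 0, 3, 2, 0, 4, 1, 3, 0, 3, 0, 3, 1, 3], 477, 2),
  ([0, 4, 4, 0, 2, 1, 3, 3, 1, 4, 2, 0, 0, 3, 1, 1, 3, 1, 0, 3, 2, 3, 1], 479, 2),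
  ([1, 4, 2, 0, 0, 1, 3, 3, 3, 0, 1, 3, 3, 4, 0, 0, 3, 0, 2, 2, 1, 3, 1], 482, 1),
  ([4, 3, 1, 2, 4, 0, 3, 0, 3, 3, 1, 0, 4, 0, 3, 1, 1, 1, 3, 2, 3, 0, 3], 484, 2),
  ([0, 0, 4, 1, 3, 2, 3, 1, 0, 4, 2, 3, 0, 2, 0, 3, 4, 1, 2, 0, 2, 2, 1], 487, 2),
  ([3, 1, 4, 3, 1, 0, 2, 4, 0, 4, 1, 3, 0, 2, 3, 1, 4, 0, 1, 3, 1, 3, 1], 490, 4),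
  ([0, 1, 4, 4, 4, 1, 3, 1, 1, 3, 0, 2, 4, 3, 2, 1, 3, 4, 1, 0, 1, 1, 3], 495, 1),
  ([1, 3, 1, 4, 3, 4, 2, 0, 1, 0, 1, 2, 4, 3, 0, 4, 1, 2, 3, 0, 3, 3, 1], 497, 2),
  ([4, 1, 4, 2, 4, 0, 4, 4, 3, 2, 3, 1, 1, 0, 3, 0, 0, 2, 3, 3, 0, 1, 0], 500, 1),
  ([0, 1, 3, 3, 3, 4, 1, 2, 0, 1, 4, 3, 4, 2, 1, 2, 1, 0, 2, 3, 3, 0, 4], 502, 1),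
  ([1, 4, 3, 1, 3, 2, 4, 2, 4, 1, 2, 4, 0, 1, 4, 4, 1, 2, 4, 1, 0, 0, 3], 504, 2),
  ([5, 2, 3, 5, 4, 3, 5, 2, 4, 5, 2, 1, 1, 4, 3, 4, 5, 2, 5, 2, 2, 3, 0], 507, 2),
  ([1, 3, 4, 1, 2, 4, 3, 3, 0, 1, 2, 0, 4, 4, 1, 0, 2, 4, 1, 0, 3, 3, 1], 510, 4),
  ([1, 4, 0, 1, 3, 1, 2, 0, 3, 1, 4, 4, 0, 2, 2, 3, 1, 4, 2, 3, 0, 1, 3], 515, 3),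
  ([2, 1, 4, 4, 1, 4, 0, 2, 4, 1, 1, 1, 3, 4, 3, 0, 4, 1, 0, 2, 2, 3, 0], 519, 3),
  ([1, 3, 3, 0, 3, 4, 4, 2, 1, 0, 2, 1, 0, 3, 1, 4, 3, 0, 4, 0, 2, 1, 3], 523, 3),
  ([2, 1, 3, 2, 1, 3, 0, 4, 4, 3, 0, 3, 3, 0, 4, 2, 0, 3, 2, 0, 4, 1, 3], 527, 3),
  ([1, 3, 1, 4, 0, 3, 1, 3, 0, 1, 4, 4, 2, 3, 2, 1, 0, 4, 3, 0, 0, 3, 1], 531, 4)]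

theorem ct23_6_ok : Raw.runR 23 536 ct23_6 420 = true := by decide +kernel

def ct23_7 : List (List Nat × Nat × Nat) := [
  ([0, 1, 4, 3, 4, 0, 4, 1, 1, 3, 1, 4, 3, 1, 0, 2, 3, 2, 4, 1, 0, 3, 2], 536, 4),
  ([0, 4, 3, 1, 4, 3, 4, 0, 1, 2, 1, 4, 2, 4, 2, 0, 1, 1, 0, 1, 2, 3, 4], 541, 2),
  ([0, 3, 4, 1, 4, 2, 4, 4, 1, 2, 0, 2, 3, 3, 1, 4, 0, 4, 0, 3, 2, 0, 1], 544, 4),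
  ([3, 4, 0, 1, 2, 3, 4, 2, 3, 1, 0, 4, 0, 2, 4, 0, 3, 0, 1, 2, 0, 4, 1], 549, 5),
  ([2, 3, 4, 4, 0, 2, 2, 4, 1, 0, 2, 1, 3, 1, 4, 2, 0, 0, 2, 4, 0, 3, 4], 555, 3),
  ([4, 1, 3, 0, 2, 3, 4, 0, 0, 4, 0, 2, 4, 1, 4, 2, 0, 3, 2, 0, 2, 1, 0], 558, 5),
  ([0, 2, 4, 1, 2, 4, 4, 3, 0, 1, 4, 1, 4, 2, 2, 1, 3, 1, 0, 0, 3, 4, 0], 564, 3),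
  ([3, 2, 0, 3, 4, 0, 3, 1, 4, 0, 4, 2, 1, 1, 3, 3, 4, 0, 4, 1, 1, 0, 3], 568, 5),
  ([4, 1, 1, 4, 4, 2, 3, 4, 0, 0, 3, 1, 4, 0, 2, 2, 0, 3, 4, 1, 3, 0, 0], 574, 4),
  ([1, 4, 1, 2, 2, 2, 2, 4, 1, 0, 3, 3, 4, 1, 4, 0, 3, 0, 3, 3, 0, 4, 4], 579, 3),
  ([4, 2, 2, 1, 1, 4, 2, 3, 4, 0, 4, 0, 1, 4, 4, 3, 0, 0, 4, 3, 1, 2, 0], 583, 4),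
  ([4, 2, 4, 4, 0, 2, 0, 1, 4, 0, 3, 2, 0, 1, 3, 3, 1, 1, 4, 2, 0, 4, 0], 587, 4),
  ([0, 2, 0, 4, 1, 3, 4, 1, 0, 3, 3, 0, 2, 4, 1, 2, 3, 0, 4, 1, 4, 2, 1], 592, 5),
  ([4, 0, 2, 1, 3, 1, 4, 0, 4, 2, 2, 3, 4, 4, 4, 2, 0, 1, 2, 3, 0, 0, 4], 598, 3),
  ([4, 1, 0, 4, 2, 1, 0, 2, 3, 4, 0, 2, 0, 4, 2, 3, 2, 1, 3, 1, 4, 4, 0], 602, 4),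
  ([4, 1, 0, 3, 4, 3, 0, 1, 4, 1, 4, 0, 2, 3, 2, 0, 2, 4, 4, 0, 1, 3, 3], 607, 4),
  ([3, 2, 1, 2, 1, 3, 2, 0, 4, 3, 0, 4, 0, 4, 0, 0, 2, 3, 3, 2, 0, 4, 4], 612, 3),
  ([4, 2, 4, 1, 2, 5, 3, 1, 3, 0, 1, 0, 4, 2, 0, 3, 3, 4, 0, 3, 0, 1, 4], 615, 5),
  ([4, 1, 2, 1, 4, 4, 0, 2, 3, 1, 1, 4, 5, 0, 4, 2, 0, 3, 0, 3, 2, 4, 2], 621, 5),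
  ([0, 3, 1, 5, 2, 3, 2, 0, 5, 1, 1, 4, 4, 3, 0, 2, 3, 1, 3, 1, 0, 4, 2], 627, 5),
  ([1, 0, 1, 3, 4, 2, 4, 1, 1, 3, 0, 3, 4, 0, 2, 2, 0, 0, 4, 4, 0, 3, 3], 633, 5),
  ([3, 2, 5, 1, 4, 0, 3, 4, 0, 2, 4, 1, 2, 0, 2, 3, 4, 0, 0, 2, 4, 1, 4], 639, 6),
  ([1, 1, 4, 2, 0, 4, 1, 5, 1, 3, 0, 4, 4, 1, 3, 2, 0, 2, 1, 4, 1, 3, 4], 646, 7),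
  ([3, 3, 0, 1, 4, 0, 4, 3, 2, 4, 2, 2, 0, 3, 4, 0, 4, 0, 4, 1, 1, 0, 4], 654, 6),
  ([1, 4, 2, 0, 4, 1, 4, 4, 3, 0, 2, 0, 1, 4, 2, 0, 3, 0, 4, 1, 3, 4, 0], 661, 7),
  ([2, 5, 3, 1, 4, 1, 0, 3, 4, 1, 4, 3, 2, 4, 1, 4, 5, 0, 1, 2, 4, 0, 0], 669, 5),
  ([0, 4, 1, 4, 2, 5, 0, 1, 3, 4, 3, 2, 3, 0, 2, 4, 0, 3, 1, 4, 1, 0, 4], 675, 8),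
  ([4, 1, 1, 4, 2, 1, 5, 4, 0, 4, 2, 4, 0, 2, 0, 3, 1, 4, 0, 4, 2, 1, 4], 683, 8),
  ([4, 0, 4, 0, 2, 5, 3, 0, 4, 2, 0, 1, 4, 1, 2, 3, 1, 1, 1, 3, 0, 4, 4], 692, 5),
  ([5, 4, 4, 2, 1, 3, 5, 2, 4, 1, 0, 1, 3, 0, 1, 4, 2, 0, 1, 5, 4, 1, 0], 698, 3),
  ([1, 1, 5, 0, 2, 3, 4, 0, 4, 0, 2, 3, 3, 4, 3, 0, 0, 4, 3, 1, 0, 2, 4], 702, 7),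
  ([4, 4, 2, 1, 2, 4, 0, 5, 3, 3, 4, 0, 5, 0, 2, 2, 4, 0, 0, 1, 4, 1, 0], 710, 6),
  ([4, 4, 0, 3, 5, 2, 0, 4, 1, 4, 0, 5, 4, 1, 1, 4, 2, 1, 2, 2, 4, 0, 0], 717, 7),
  ([0, 2, 1, 3, 5, 4, 3, 3, 1, 5, 2, 3, 0, 0, 4, 0, 4, 2, 1, 0, 4, 4, 1], 725, 6),
  ([0, 2, 3, 4, 0, 2, 5, 0, 5, 4, 1, 2, 3, 0, 4, 1, 4, 4, 0, 3, 2, 1, 3], 731, 7),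
  ([1, 4, 2, 5, 4, 0, 3, 5, 0, 3, 3, 1, 4, 0, 4, 3, 1, 1, 5, 0, 4, 1, 2], 739, 9),
  ([2, 4, 0, 1, 1, 4, 4, 5, 1, 2, 4, 1, 5, 0, 4, 0, 3, 3, 4, 0, 2, 4, 1], 748, 7),
  ([4, 4, 0, 2, 1, 3, 2, 0, 3, 5, 1, 4, 5, 3, 4, 0, 0, 1, 3, 1, 4, 0, 4], 756, 6),
  ([1, 4, 5, 2, 2, 0, 5, 3, 1, 0, 3, 3, 0, 4, 2, 4, 3, 0, 1, 0, 5, 4, 2], 763, 7),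
  ([1, 4, 0, 3, 1, 2, 4, 0, 5, 1, 0, 3, 3, 4, 1, 4, 4, 0, 0, 4, 4, 1, 3], 771, 8),
  ([5, 4, 4, 5, 0, 1, 2, 5, 3, 3, 1, 4, 4, 0, 5, 1, 1, 2, 0, 4, 5, 1, 1], 780, 7),
  ([4, 4, 0, 2, 5, 2, 0, 4, 1, 4, 2, 5, 3, 3, 0, 1, 5, 5, 1, 1, 4, 2, 0], 788, 8),
  ([1, 2, 4, 5, 1, 1, 5, 1, 5, 1, 2, 5, 0, 4, 4, 3, 0, 0, 3, 3, 0, 2, 4], 797, 8),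
  ([5, 5, 1, 3, 1, 5, 3, 0, 1, 4, 3, 2, 5, 0, 1, 1, 4, 4, 5, 0, 2, 3, 0], 806, 10),
  ([4, 3, 1, 5, 2, 1, 5, 1, 1, 4, 5, 0, 4, 1, 1, 0, 5, 3, 3, 5, 0, 1, 3], 816, 8)]

theorem ct23_7_ok : Raw.runR 23 825 ct23_7 536 = true := by decide +kernel

end Pool.Agent.Wil
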