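import Pool.Agent.Wil.Raw

set_option autoImplicit false
set_option maxRecDepth 100000

/-! Explicit cores (runner heights, size, window), p = 29, degrees 116 to 299. -/

namespace Pool.Agent.Wil

def ct29_0 : List (List Nat × Nat × Nat) := [
  ([0, 1, 2, 1, 0, 1, 2, 0, 1, 1, 0, 1, 0, 1, 1, 0, 1, 0, 1, 0, 0, 1, 0, 1, 0, 1, 0, 0, 1], 116, 0),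
  ([1, 1, 2, 1, 0, 1, 2, 0, 1, 1, 0, 2, 1, 0, 1, 1, 0, 1, 0, 1, 0, 1, 0, 0, 1, 0, 1, 0, 1], 117, 0),
  ([0, 1, 1, 1, 2, 0, 1, 2, 0, 1, 0, 1, 0, 1, 1, 0, 1, 0, 1, 1, 0, 1, 0, 1, 0, 1, 0, 0, 1], 118, 0),
  ([0, 1, 2, 1, 0, 1, 2, 0, 1, 1, 0, 1, 0, 1, 0, 1, 0, 1, 0, 1, 0, 1, 0, 1, 0, 1, 0, 0, 1], 119, 0),
  ([1, 0, 2, 1, 1, 2, 1, 0, 2, 0, 1, 1, 1, 0, 1, 0, 1, 0, 1, 1, 0, 0, 1, 0, 1, 0, 1, 0, 1], 120, 0),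
  ([0, 1, 2, 1, 0, 1, 2, 0, 1, 0, 1, 1, 0, 1, 0, 1, 0, 1, 0, 1, 0, 1, 0, 1, 0, 0, 1, 0, 1], 121, 0),
  ([1, 2, 1, 2, 1, 0, 1, 2, 0, 1, 2, 0, 1, 1, 0, 1, 0, 0, 1, 1, 0, 1, 0, 1, 0, 1, 0, 0, 1], 122, 0),
  ([2, 1, 2, 1, 0, 2, 1, 2, 1, 0, 1, 1, 2, 0, 1, 0, 1, 0, 1, 0, 1, 0, 1, 0, 1, 0, 1, 0, 0], 123, 0),
  ([0, 2, 1, 1, 2, 0, 1, 2, 0, 1, 0, 1, 1, 0, 1, 0, 1, 0, 1, 0, 1, 0, 1, 0, 1, 0, 0, 1, 0], 124, 0),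
  ([0, 2, 1, 1, 0, 2, 1, 0, 2, 1, 0, 1, 1, 0, 1, 1, 0, 1, 0, 0, 1, 0, 1, 0, 1, 0, 1, 0, 0], 125, 0),
  ([0, 2, 1, 2, 0, 1, 1, 0, 2, 1, 0, 1, 1, 0, 1, 0, 1, 0, 1, 0, 1, 0, 1, 0, 1, 0, 0, 1, 0], 126, 0),
  ([0, 2, 1, 2, 0, 1, 1, 0, 2, 1, 0, 1, 0, 1, 1, 0, 1, 0, 1, 0, 1, 0, 1, 0, 1, 0, 0, 1, 0], 127, 0),
  ([0, 2, 1, 0, 2, 1, 1, 0, 2, 1, 0, 1, 1, 0, 1, 0, 1, 0, 1, 0, 1, 0, 1, 0, 1, 0, 0, 1, 0], 128, 0),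
  ([0, 2, 1, 0, 2, 1, 1, 0, 2, 1, 0, 1, 0, 1, 1, 0, 1, 0, 1, 0, 1, 0, 1, 0, 1, 0, 0, 1, 0], 129, 0),
  ([0, 2, 1, 0, 2, 1, 1, 0, 2, 1, 0, 1, 0, 1, 1, 0, 1, 0, 1, 0, 1, 0, 1, 0, 0, 1, 0, 1, 0], 130, 0),
  ([0, 2, 1, 1, 0, 2, 1, 0, 1, 2, 0, 1, 0, 1, 1, 0, 1, 0, 1, 0, 1, 0, 1, 0, 0, 1, 0, 1, 0], 131, 0),
  ([0, 1, 2, 1, 1, 0, 2, 1, 0, 1, 2, 0, 1, 0, 1, 1, 0, 1, 0, 1, 0, 1, 0, 1, 0, 0, 1, 0, 1], 132, 0),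
  ([0, 2, 1, 0, 2, 1, 0, 1, 2, 0, 1, 1, 0, 1, 0, 1, 0, 0, 1, 0, 1, 0, 1, 0, 1, 0, 1, 0, 0], 133, 0),
  ([1, 2, 1, 2, 1, 2, 1, 2, 0, 1, 2, 1, 0, 1, 2, 1, 0, 2, 1, 0, 1, 1, 0, 1, 0, 1, 0, 0, 1], 134, 0),
  ([0, 1, 2, 1, 0, 2, 1, 0, 1, 2, 0, 1, 0, 1, 0, 1, 1, 0, 1, 0, 1, 0, 0, 1, 0, 1, 0, 0, 1], 135, 0),
  ([0, 1, 2, 1, 0, 2, 1, 0, 1, 2, 0, 1, 0, 1, 0, 1, 1, 0, 1, 0, 0, 1, 0, 1, 0, 1, 0, 0, 1], 136, 0),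
  ([0, 1, 2, 1, 0, 2, 1, 0, 1, 2, 0, 1, 0, 1, 0, 1, 0, 1, 1, 0, 0, 1, 0, 1, 0, 1, 0, 0, 1], 137, 0),
  ([0, 1, 2, 1, 0, 2, 1, 0, 1, 2, 0, 1, 1, 0, 1, 0, 1, 0, 1, 0, 1, 0, 1, 0, 1, 0, 1, 0, 1], 138, 0),
  ([0, 1, 2, 1, 0, 1, 2, 0, 1, 2, 0, 1, 1, 0, 1, 0, 1, 0, 1, 0, 1, 0, 1, 0, 1, 0, 1, 0, 1], 139, 0),
  ([0, 1, 2, 0, 1, 2, 0, 1, 2, 0, 1, 1, 0, 1, 0, 1, 0, 1, 0, 1, 0, 1, 0, 1, 0, 1, 0, 0, 1], 140, 0),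
  ([0, 1, 2, 0, 1, 2, 0, 1, 2, 0, 1, 0, 1, 1, 0, 1, 0, 1, 0, 1, 0, 1, 0, 1, 0, 1, 0, 0, 1], 141, 0),
  ([0, 2, 1, 1, 2, 0, 1, 2, 0, 1, 2, 0, 1, 1, 0, 1, 0, 1, 0, 1, 0, 1, 0, 1, 0, 1, 0, 1, 0], 142, 0),
  ([0, 2, 1, 1, 2, 0, 1, 2, 0, 1, 2, 0, 1, 0, 1, 1, 0, 1, 0, 1, 0, 1, 0, 1, 0, 1, 0, 1, 0], 143, 0),
  ([0, 2, 1, 1, 2, 0, 1, 2, 0, 1, 1, 0, 2, 1, 0, 1, 0, 1, 0, 1, 0, 1, 0, 1, 0, 1, 0, 1, 0], 144, 0),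
  ([1, 1, 2, 2, 1, 1, 2, 1, 1, 2, 1, 2, 0, 1, 2, 2, 1, 0, 1, 2, 0, 1, 0, 2, 1, 0, 1, 1, 1], 145, 0),
  ([2, 1, 1, 2, 2, 0, 2, 1, 1, 0, 2, 1, 0, 1, 0, 1, 2, 0, 1, 0, 1, 1, 0, 0, 1, 0, 1, 0, 1], 146, 0),
  ([1, 1, 1, 2, 1, 2, 0, 1, 1, 0, 2, 0, 1, 2, 0, 2, 1, 1, 0, 1, 0, 1, 0, 1, 0, 1, 0, 1, 1], 147, 0),
  ([0, 1, 1, 2, 0, 1, 2, 1, 2, 0, 1, 0, 1, 2, 1, 0, 1, 1, 0, 1, 0, 1, 0, 0, 1, 0, 0, 1, 1], 148, 0),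
  ([2, 0, 1, 2, 1, 0, 0, 2, 1, 0, 1, 1, 0, 2, 0, 1, 0, 1, 0, 1, 0, 1, 0, 0, 1, 0, 0, 1, 0], 149, 0),
  ([1, 1, 2, 0, 2, 0, 2, 1, 1, 1, 0, 1, 2, 1, 0, 2, 0, 1, 1, 0, 1, 0, 1, 0, 1, 1, 0, 0, 1], 150, 0),
  ([0, 1, 2, 0, 2, 1, 1, 2, 0, 2, 1, 0, 1, 0, 1, 0, 1, 0, 1, 0, 1, 0, 1, 1, 0, 0, 1, 0, 1], 151, 0),
  ([0, 1, 0, 1, 2, 0, 1, 1, 2, 0, 1, 2, 0, 1, 0, 1, 1, 0, 1, 0, 1, 0, 1, 0, 1, 0, 1, 0, 1], 152, 0),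
  ([1, 0, 2, 2, 1, 0, 1, 2, 0, 1, 0, 1, 2, 0, 1, 0, 0, 1, 1, 0, 1, 0, 1, 0, 1, 0, 1, 0, 1], 153, 0),
  ([1, 0, 2, 1, 2, 0, 0, 1, 2, 1, 0, 1, 0, 2, 1, 0, 1, 0, 1, 1, 0, 1, 0, 1, 0, 1, 0, 0, 1], 154, 0),
  ([0, 1, 0, 1, 2, 2, 0, 1, 0, 2, 0, 1, 1, 0, 1, 0, 1, 0, 1, 0, 1, 0, 1, 0, 1, 0, 0, 1, 1], 155, 0),
  ([2, 0, 2, 1, 0, 1, 2, 1, 2, 0, 1, 0, 1, 1, 0, 2, 0, 1, 0, 1, 0, 1, 1, 0, 1, 0, 0, 1, 0], 156, 0),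
  ([1, 2, 1, 1, 2, 1, 0, 1, 2, 0, 1, 0, 2, 1, 2, 1, 0, 1, 0, 2, 1, 0, 1, 0, 1, 0, 1, 0, 1], 157, 0),
  ([0, 2, 1, 1, 0, 2, 1, 1, 0, 1, 0, 2, 1, 0, 2, 1, 0, 1, 0, 1, 0, 1, 1, 0, 1, 0, 1, 0, 1], 158, 0),
  ([1, 1, 1, 2, 0, 2, 0, 1, 2, 1, 0, 1, 2, 1, 0, 0, 2, 0, 1, 1, 0, 1, 0, 1, 1, 0, 1, 0, 1], 159, 0),
  ([0, 2, 0, 1, 2, 1, 2, 1, 0, 2, 1, 0, 2, 0, 1, 1, 0, 1, 0, 1, 1, 0, 1, 0, 1, 0, 1, 0, 0], 160, 0)]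

theorem ct29_0_ok : Raw.runR 29 161 ct29_0 116 = true := by decide +kernel

def ct29_1 : List (List Nat × Nat × Nat) := [
  ([2, 1, 0, 2, 1, 2, 1, 2, 0, 0, 1, 2, 0, 1, 1, 2, 0, 1, 0, 1, 0, 1, 0, 1, 0, 0, 1, 1, 0], 161, 0),
  ([2, 1, 1, 2, 0, 2, 1, 2, 0, 1, 0, 2, 1, 1, 2, 0, 1, 2, 0, 1, 1, 0, 1, 0, 1, 0, 1, 0, 0], 162, 0),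
  ([1, 2, 1, 2, 1, 1, 2, 2, 1, 1, 2, 0, 1, 1, 2, 0, 2, 1, 0, 2, 0, 1, 1, 0, 2, 0, 1, 0, 1], 163, 0),
  ([2, 1, 2, 1, 2, 0, 2, 1, 2, 1, 2, 1, 0, 2, 1, 0, 1, 1, 2, 1, 0, 1, 0, 2, 0, 1, 0, 1, 0], 164, 0),
  ([1, 0, 2, 1, 1, 2, 1, 0, 1, 2, 0, 2, 0, 1, 1, 0, 1, 0, 2, 1, 0, 1, 0, 1, 0, 1, 1, 0, 1], 165, 0),
  ([0, 2, 1, 1, 2, 0, 1, 2, 0, 1, 2, 0, 1, 0, 2, 1, 0, 1, 0, 1, 0, 1, 0, 1, 0, 1, 0, 0, 1], 166, 0),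
  ([0, 1, 2, 1, 2, 0, 1, 2, 0, 1, 2, 0, 1, 1, 0, 2, 0, 1, 1, 0, 1, 0, 1, 0, 1, 0, 1, 0, 1], 167, 0),
  ([2, 1, 2, 0, 1, 1, 2, 0, 1, 2, 0, 1, 0, 2, 1, 0, 2, 0, 1, 1, 0, 0, 1, 1, 0, 1, 0, 0, 1], 168, 0),
  ([3, 2, 3, 1, 3, 2, 1, 2, 3, 1, 2, 3, 1, 1, 2, 2, 1, 2, 1, 2, 1, 2, 1, 2, 2, 1, 1, 2, 0], 169, 0),
  ([0, 1, 2, 1, 0, 2, 1, 2, 0, 1, 2, 0, 1, 1, 0, 2, 0, 1, 0, 1, 1, 0, 1, 0, 1, 0, 1, 0, 1], 170, 0),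
  ([0, 1, 2, 1, 0, 2, 1, 2, 0, 1, 1, 0, 2, 1, 0, 2, 0, 1, 1, 0, 1, 0, 1, 0, 1, 0, 1, 0, 1], 171, 0),
  ([2, 1, 1, 2, 0, 2, 0, 1, 2, 1, 2, 0, 1, 1, 0, 2, 1, 0, 2, 0, 1, 1, 0, 1, 0, 1, 0, 1, 0], 172, 0),
  ([0, 2, 1, 1, 2, 0, 1, 2, 1, 2, 0, 2, 1, 0, 1, 0, 2, 0, 1, 1, 0, 1, 0, 1, 0, 1, 0, 0, 1], 173, 0),
  ([2, 1, 2, 1, 0, 2, 1, 0, 2, 1, 0, 2, 1, 1, 1, 0, 2, 1, 0, 0, 1, 2, 1, 0, 0, 1, 1, 0, 1], 174, 0),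
  ([1, 1, 2, 2, 0, 1, 2, 1, 1, 2, 0, 2, 1, 1, 2, 0, 2, 1, 0, 1, 0, 2, 0, 0, 1, 1, 1, 0, 1], 175, 0),
  ([0, 1, 1, 2, 1, 2, 1, 1, 2, 0, 2, 0, 1, 1, 0, 2, 0, 2, 1, 0, 0, 1, 0, 1, 1, 0, 0, 1, 1], 176, 0),
  ([1, 2, 1, 0, 1, 2, 0, 2, 2, 1, 0, 1, 2, 0, 0, 2, 1, 0, 1, 0, 1, 0, 0, 1, 0, 1, 0, 1, 1], 177, 0),
  ([0, 2, 1, 2, 1, 1, 2, 1, 2, 0, 1, 0, 2, 0, 2, 1, 0, 2, 1, 0, 1, 0, 1, 0, 1, 0, 1, 0, 0], 178, 0),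
  ([0, 2, 0, 1, 2, 1, 0, 1, 2, 0, 2, 1, 1, 0, 1, 1, 0, 2, 0, 1, 1, 0, 0, 1, 1, 0, 1, 0, 1], 179, 0),
  ([2, 0, 1, 2, 1, 1, 2, 0, 0, 2, 0, 1, 2, 0, 1, 2, 1, 0, 0, 1, 0, 1, 1, 0, 1, 0, 1, 0, 1], 180, 0),
  ([1, 2, 1, 2, 1, 1, 0, 2, 1, 1, 2, 2, 0, 0, 2, 1, 1, 0, 2, 0, 1, 0, 1, 1, 2, 0, 0, 1, 1], 181, 0),
  ([1, 2, 1, 0, 1, 2, 2, 1, 1, 0, 2, 0, 2, 1, 0, 2, 0, 1, 2, 0, 1, 0, 1, 1, 0, 0, 1, 0, 1], 182, 0),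
  ([1, 2, 1, 2, 0, 1, 2, 1, 2, 0, 1, 2, 1, 0, 1, 2, 1, 2, 0, 1, 0, 0, 1, 1, 0, 2, 0, 1, 1], 183, 0),
  ([1, 1, 2, 0, 2, 1, 0, 2, 1, 1, 2, 0, 1, 2, 0, 1, 1, 2, 0, 0, 2, 1, 0, 1, 1, 1, 0, 1, 0], 184, 0),
  ([0, 1, 2, 1, 2, 2, 0, 1, 2, 0, 1, 0, 1, 0, 2, 1, 1, 0, 0, 2, 1, 0, 1, 0, 1, 1, 0, 0, 1], 185, 0),
  ([2, 1, 2, 0, 1, 2, 1, 2, 0, 1, 2, 0, 1, 2, 0, 1, 1, 1, 2, 0, 0, 1, 2, 0, 1, 1, 0, 0, 1], 186, 0),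
  ([1, 0, 2, 1, 1, 1, 2, 2, 1, 0, 2, 1, 0, 1, 2, 0, 1, 2, 0, 1, 0, 2, 1, 0, 0, 1, 0, 1, 1], 187, 0),
  ([0, 1, 2, 1, 1, 2, 1, 2, 1, 0, 2, 0, 2, 0, 1, 2, 1, 0, 1, 2, 0, 0, 1, 0, 1, 0, 1, 0, 1], 188, 0),
  ([1, 2, 2, 1, 1, 2, 0, 1, 2, 2, 0, 2, 0, 1, 2, 1, 0, 2, 0, 1, 1, 1, 0, 2, 0, 1, 0, 1, 0], 189, 0),
  ([3, 2, 1, 2, 2, 3, 1, 3, 2, 1, 2, 2, 1, 3, 1, 3, 1, 1, 2, 1, 2, 1, 2, 2, 1, 2, 1, 0, 2], 190, 0),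
  ([2, 2, 1, 1, 2, 0, 2, 1, 0, 2, 1, 2, 1, 0, 2, 0, 2, 1, 0, 1, 1, 1, 0, 0, 2, 0, 0, 1, 0], 191, 0),
  ([1, 2, 1, 2, 0, 1, 2, 1, 1, 0, 2, 1, 2, 0, 1, 2, 0, 0, 1, 2, 0, 1, 2, 1, 0, 0, 1, 1, 0], 192, 0),
  ([0, 2, 0, 1, 2, 2, 1, 0, 1, 2, 1, 0, 1, 0, 1, 2, 0, 1, 2, 0, 1, 0, 0, 1, 1, 0, 1, 0, 1], 193, 0),
  ([2, 0, 2, 1, 2, 1, 2, 0, 0, 2, 1, 1, 2, 0, 1, 0, 2, 1, 1, 0, 1, 2, 0, 1, 0, 1, 0, 1, 0], 194, 0),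
  ([2, 1, 1, 0, 2, 1, 2, 0, 1, 2, 1, 2, 0, 1, 2, 0, 1, 0, 2, 0, 1, 2, 0, 1, 1, 0, 1, 0, 0], 195, 0),
  ([2, 3, 1, 2, 3, 2, 2, 3, 1, 2, 3, 1, 2, 3, 1, 1, 2, 1, 3, 1, 2, 2, 1, 2, 2, 1, 1, 0, 2], 196, 0),
  ([2, 1, 2, 0, 2, 0, 2, 1, 2, 0, 1, 2, 0, 1, 2, 0, 1, 0, 1, 1, 1, 0, 0, 2, 1, 0, 1, 0, 0], 197, 0),
  ([0, 2, 1, 1, 2, 1, 1, 2, 0, 2, 0, 1, 1, 2, 0, 0, 1, 2, 0, 1, 0, 2, 0, 1, 1, 0, 0, 1, 1], 198, 0),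
  ([1, 1, 2, 2, 0, 1, 2, 0, 1, 2, 1, 2, 0, 1, 1, 2, 0, 0, 1, 2, 0, 0, 1, 2, 1, 0, 1, 0, 1], 199, 0),
  ([0, 2, 1, 1, 2, 0, 2, 1, 2, 0, 0, 1, 2, 0, 1, 1, 2, 0, 1, 2, 1, 0, 0, 1, 0, 1, 0, 1, 0], 200, 0),
  ([2, 1, 0, 1, 2, 0, 2, 1, 1, 2, 1, 2, 0, 2, 0, 1, 1, 0, 2, 0, 1, 2, 0, 0, 1, 1, 0, 1, 0], 201, 0),
  ([2, 1, 1, 2, 2, 1, 2, 0, 2, 1, 2, 2, 0, 1, 1, 2, 0, 1, 0, 2, 0, 1, 2, 0, 1, 1, 2, 0, 0], 202, 0),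
  ([0, 1, 1, 2, 2, 1, 2, 0, 1, 2, 1, 0, 2, 1, 2, 1, 1, 0, 0, 2, 0, 1, 2, 0, 0, 1, 0, 1, 1], 203, 0),
  ([1, 2, 0, 2, 1, 2, 0, 1, 1, 0, 2, 1, 2, 0, 1, 2, 1, 2, 0, 1, 0, 1, 2, 0, 0, 1, 0, 0, 1], 204, 0),
  ([2, 2, 3, 2, 2, 1, 3, 1, 1, 3, 3, 2, 3, 2, 1, 1, 2, 1, 3, 1, 2, 1, 2, 1, 2, 1, 2, 0, 2], 205, 0)]

theorem ct29_1_ok : Raw.runR 29 206 ct29_1 161 = true := by decide +kernel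

def ct29_2 : List (List Nat × Nat × Nat) := [
  ([1, 2, 2, 0, 2, 2, 1, 2, 0, 1, 1, 2, 0, 1, 2, 1, 2, 0, 1, 1, 2, 0, 0, 0, 1, 2, 0, 1, 0], 206, 0),
  ([0, 1, 2, 1, 0, 2, 1, 1, 0, 1, 0, 2, 2, 0, 1, 1, 0, 2, 1, 0, 1, 0, 1, 2, 0, 0, 1, 0, 1], 207, 0),
  ([0, 2, 2, 0, 1, 2, 2, 1, 2, 0, 1, 1, 0, 2, 2, 1, 0, 0, 1, 0, 2, 0, 1, 1, 0, 0, 1, 1, 0], 208, 0),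
  ([2, 1, 2, 1, 2, 1, 2, 1, 2, 0, 2, 1, 2, 1, 2, 0, 0, 1, 2, 2, 0, 1, 0, 1, 2, 0, 0, 2, 0], 209, 0),
  ([2, 1, 2, 0, 2, 1, 2, 0, 1, 0, 2, 2, 0, 1, 1, 2, 1, 0, 1, 0, 2, 2, 0, 1, 0, 1, 1, 0, 0], 210, 0),
  ([1, 2, 1, 2, 0, 2, 2, 1, 1, 0, 1, 2, 0, 2, 2, 0, 1, 2, 1, 1, 0, 2, 0, 1, 2, 1, 0, 0, 1], 211, 0),
  ([2, 1, 1, 2, 0, 1, 2, 2, 1, 0, 2, 0, 2, 0, 1, 2, 0, 2, 1, 0, 0, 2, 1, 1, 0, 0, 1, 0, 1], 212, 0),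
  ([1, 1, 2, 1, 0, 2, 2, 1, 0, 2, 1, 0, 2, 1, 2, 1, 2, 0, 0, 1, 2, 1, 0, 1, 1, 0, 0, 1, 2], 213, 0),
  ([0, 2, 1, 1, 1, 2, 0, 2, 0, 1, 1, 2, 0, 1, 2, 0, 1, 1, 0, 2, 1, 0, 1, 0, 1, 0, 0, 2, 1], 214, 0),
  ([0, 1, 1, 1, 2, 1, 0, 2, 2, 1, 0, 2, 0, 1, 2, 1, 0, 0, 2, 0, 1, 0, 2, 1, 1, 0, 1, 0, 1], 215, 0),
  ([2, 1, 2, 1, 2, 1, 2, 0, 1, 2, 1, 0, 1, 0, 2, 0, 2, 0, 2, 1, 0, 2, 1, 0, 1, 2, 0, 1, 0], 216, 0),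
  ([1, 2, 1, 1, 2, 2, 2, 1, 0, 1, 2, 1, 0, 2, 0, 2, 0, 1, 0, 1, 2, 1, 0, 1, 0, 2, 1, 0, 2], 217, 0),
  ([2, 1, 1, 2, 2, 0, 2, 1, 2, 2, 0, 2, 1, 1, 0, 1, 2, 0, 2, 1, 0, 1, 0, 1, 1, 0, 2, 0, 2], 218, 0),
  ([2, 1, 1, 2, 2, 1, 1, 0, 2, 2, 0, 1, 2, 0, 1, 2, 0, 1, 1, 0, 2, 0, 1, 0, 1, 2, 1, 0, 2], 219, 0),
  ([1, 2, 2, 1, 2, 1, 2, 1, 0, 0, 2, 1, 2, 2, 1, 1, 0, 2, 0, 1, 2, 0, 0, 2, 0, 1, 0, 2, 1], 220, 0),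
  ([1, 2, 2, 1, 2, 2, 0, 1, 2, 1, 2, 0, 2, 0, 1, 2, 1, 0, 1, 1, 0, 2, 0, 1, 0, 2, 0, 1, 2], 221, 0),
  ([2, 0, 2, 1, 1, 2, 1, 0, 1, 2, 0, 2, 0, 2, 1, 1, 1, 0, 2, 2, 0, 1, 1, 0, 1, 0, 2, 0, 1], 222, 0),
  ([2, 1, 1, 2, 2, 1, 2, 0, 2, 0, 1, 2, 0, 1, 0, 2, 1, 2, 0, 1, 0, 2, 1, 0, 0, 1, 0, 0, 2], 223, 0),
  ([2, 1, 1, 2, 1, 2, 1, 2, 0, 0, 2, 1, 1, 2, 1, 0, 2, 2, 1, 0, 0, 2, 1, 0, 2, 1, 0, 2, 0], 224, 0),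
  ([2, 1, 2, 1, 2, 1, 2, 0, 1, 2, 0, 2, 0, 2, 0, 1, 0, 1, 0, 2, 1, 0, 1, 2, 1, 0, 2, 0, 0], 225, 0),
  ([2, 0, 2, 1, 1, 2, 1, 1, 0, 2, 2, 1, 0, 2, 2, 0, 1, 1, 2, 0, 1, 0, 1, 2, 0, 2, 0, 1, 0], 226, 0),
  ([1, 2, 2, 1, 0, 2, 1, 1, 1, 2, 0, 2, 0, 2, 1, 2, 0, 1, 0, 2, 1, 0, 1, 2, 0, 0, 1, 1, 2], 227, 0),
  ([2, 2, 1, 2, 0, 2, 1, 1, 0, 1, 2, 2, 0, 2, 1, 0, 1, 2, 1, 0, 2, 1, 2, 0, 0, 1, 2, 0, 0], 228, 0),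
  ([1, 2, 1, 1, 2, 1, 2, 0, 2, 0, 2, 0, 1, 2, 1, 1, 0, 2, 0, 1, 1, 2, 0, 2, 0, 0, 1, 2, 1], 229, 0),
  ([2, 1, 2, 1, 1, 2, 0, 1, 2, 0, 2, 1, 2, 0, 2, 1, 0, 1, 0, 2, 0, 1, 0, 1, 0, 2, 0, 1, 2], 230, 0),
  ([2, 2, 0, 1, 2, 1, 2, 2, 1, 0, 0, 2, 1, 0, 2, 0, 1, 1, 2, 0, 2, 0, 1, 0, 1, 2, 0, 0, 0], 231, 0),
  ([1, 0, 2, 1, 2, 1, 0, 2, 2, 1, 1, 1, 2, 0, 2, 1, 2, 0, 0, 1, 2, 1, 2, 0, 1, 0, 1, 2, 0], 232, 0),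
  ([0, 1, 1, 2, 2, 2, 0, 1, 2, 1, 0, 2, 2, 0, 1, 0, 1, 0, 2, 1, 2, 0, 1, 2, 0, 1, 0, 1, 0], 233, 0),
  ([2, 1, 0, 2, 0, 1, 1, 0, 2, 1, 2, 0, 1, 2, 2, 0, 0, 0, 2, 1, 0, 2, 1, 0, 0, 1, 1, 0, 1], 234, 0),
  ([1, 2, 1, 2, 2, 2, 0, 1, 1, 2, 1, 2, 0, 2, 0, 1, 2, 0, 2, 0, 2, 2, 0, 0, 1, 1, 1, 0, 2], 235, 0),
  ([1, 2, 2, 0, 2, 0, 1, 1, 2, 0, 1, 2, 0, 2, 2, 2, 0, 1, 2, 1, 0, 1, 0, 1, 0, 2, 0, 1, 0], 236, 0),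
  ([2, 2, 1, 1, 1, 2, 0, 2, 0, 1, 0, 2, 1, 0, 2, 0, 1, 2, 2, 1, 0, 1, 0, 2, 1, 0, 1, 2, 0], 237, 0),
  ([1, 2, 1, 2, 0, 1, 1, 2, 0, 2, 0, 0, 2, 1, 0, 2, 2, 0, 2, 1, 0, 1, 0, 1, 1, 0, 1, 2, 0], 238, 0),
  ([0, 1, 2, 2, 1, 2, 0, 2, 2, 0, 1, 1, 2, 0, 0, 2, 0, 1, 2, 0, 1, 0, 1, 0, 1, 1, 0, 2, 1], 239, 0),
  ([2, 1, 2, 0, 1, 2, 0, 1, 0, 1, 2, 0, 2, 0, 2, 1, 2, 1, 0, 0, 2, 0, 1, 2, 1, 0, 0, 1, 0], 240, 0),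
  ([1, 2, 2, 0, 2, 1, 0, 1, 1, 0, 2, 2, 0, 1, 1, 2, 0, 2, 0, 0, 2, 0, 1, 1, 0, 1, 0, 2, 0], 241, 0),
  ([1, 2, 2, 0, 1, 0, 2, 2, 1, 2, 0, 1, 0, 2, 1, 1, 2, 0, 2, 0, 1, 0, 1, 2, 2, 0, 0, 1, 1], 242, 0),
  ([2, 2, 0, 1, 0, 2, 2, 1, 0, 2, 0, 1, 2, 1, 0, 2, 1, 2, 1, 2, 0, 0, 1, 0, 2, 0, 1, 1, 0], 243, 0),
  ([0, 1, 2, 1, 2, 0, 2, 0, 1, 2, 0, 0, 1, 2, 1, 1, 0, 2, 0, 1, 2, 0, 2, 0, 1, 0, 0, 1, 1], 244, 0),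
  ([0, 1, 1, 2, 1, 2, 2, 0, 2, 0, 2, 1, 0, 2, 1, 0, 1, 0, 1, 2, 1, 1, 0, 1, 0, 2, 0, 2, 1], 245, 0),
  ([0, 1, 2, 1, 2, 0, 2, 2, 1, 1, 2, 2, 0, 1, 2, 1, 0, 0, 0, 2, 1, 0, 2, 1, 0, 0, 2, 0, 1], 246, 0),
  ([1, 2, 1, 3, 2, 1, 2, 0, 0, 1, 2, 0, 2, 2, 0, 1, 2, 1, 0, 2, 0, 0, 2, 1, 1, 0, 1, 0, 1], 247, 0),
  ([0, 2, 2, 1, 1, 0, 1, 2, 1, 2, 2, 0, 1, 0, 2, 0, 1, 0, 2, 0, 0, 2, 1, 1, 0, 1, 0, 2, 1], 248, 0),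
  ([2, 2, 2, 1, 0, 1, 1, 2, 0, 2, 0, 2, 1, 0, 2, 1, 1, 0, 2, 1, 0, 2, 0, 1, 0, 2, 1, 2, 0], 249, 0),
  ([0, 2, 2, 1, 0, 2, 2, 0, 1, 1, 2, 0, 1, 0, 1, 1, 2, 0, 2, 2, 0, 0, 0, 1, 2, 0, 1, 0, 1], 250, 0)]

theorem ct29_2_ok : Raw.runR 29 251 ct29_2 206 = true := by decide +kernel

def ct29_3 : List (List Nat × Nat × Nat) := [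
  ([2, 0, 1, 1, 2, 2, 0, 2, 2, 0, 1, 1, 2, 0, 2, 1, 0, 0, 1, 2, 0, 0, 2, 1, 1, 1, 0, 2, 0], 251, 0),
  ([0, 2, 2, 0, 1, 2, 2, 1, 1, 0, 2, 1, 2, 0, 1, 2, 1, 1, 0, 0, 2, 0, 2, 0, 0, 1, 1, 2, 0], 252, 0),
  ([0, 2, 1, 2, 2, 1, 1, 2, 1, 2, 0, 0, 1, 2, 2, 0, 0, 1, 2, 0, 2, 1, 2, 0, 1, 0, 0, 2, 1], 253, 0),
  ([0, 2, 1, 2, 0, 2, 0, 2, 1, 2, 1, 1, 2, 0, 1, 2, 0, 0, 2, 2, 1, 0, 1, 0, 0, 1, 1, 2, 0], 254, 0),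
  ([2, 0, 2, 1, 2, 1, 2, 0, 1, 0, 2, 1, 1, 2, 0, 0, 1, 0, 2, 2, 0, 0, 1, 2, 1, 0, 2, 0, 0], 255, 0),
  ([0, 2, 1, 2, 2, 2, 0, 2, 1, 2, 0, 1, 1, 2, 1, 2, 1, 0, 2, 0, 1, 2, 0, 1, 0, 2, 0, 0, 2], 256, 0),
  ([2, 0, 2, 1, 0, 2, 1, 2, 0, 1, 2, 2, 0, 1, 2, 1, 2, 0, 1, 0, 2, 1, 2, 0, 1, 0, 2, 0, 1], 257, 0),
  ([0, 1, 2, 1, 0, 2, 1, 2, 0, 0, 2, 2, 0, 0, 1, 0, 1, 2, 0, 1, 2, 0, 1, 1, 0, 2, 0, 0, 1], 258, 0),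
  ([1, 2, 0, 1, 2, 2, 0, 1, 1, 2, 2, 0, 0, 2, 1, 1, 1, 0, 0, 2, 2, 0, 1, 0, 2, 0, 1, 2, 0], 259, 0),
  ([2, 1, 2, 1, 1, 2, 0, 1, 0, 2, 2, 0, 2, 1, 0, 2, 1, 1, 0, 0, 2, 0, 2, 1, 0, 2, 0, 2, 1], 260, 0),
  ([0, 2, 2, 1, 0, 1, 0, 2, 1, 1, 2, 0, 1, 2, 0, 1, 0, 2, 1, 2, 1, 1, 0, 0, 2, 1, 0, 0, 2], 261, 0),
  ([1, 2, 1, 0, 2, 2, 1, 1, 2, 0, 2, 0, 2, 1, 2, 0, 0, 1, 2, 0, 1, 1, 0, 2, 0, 2, 0, 2, 1], 262, 1),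
  ([2, 2, 1, 2, 1, 0, 2, 1, 0, 2, 0, 2, 1, 0, 0, 1, 2, 0, 1, 2, 2, 0, 1, 0, 0, 2, 2, 0, 1], 264, 0),
  ([2, 2, 1, 3, 1, 2, 2, 1, 0, 2, 2, 2, 1, 0, 0, 1, 0, 2, 1, 2, 1, 0, 0, 2, 2, 0, 0, 2, 0], 265, 0),
  ([1, 1, 2, 0, 1, 2, 0, 2, 2, 1, 1, 2, 0, 2, 0, 0, 1, 0, 1, 2, 0, 1, 0, 2, 2, 1, 0, 1, 2], 266, 0),
  ([0, 3, 2, 1, 2, 1, 0, 2, 2, 0, 1, 1, 0, 2, 1, 2, 0, 1, 2, 1, 2, 0, 1, 0, 1, 0, 2, 0, 0], 267, 0),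
  ([0, 0, 2, 1, 1, 2, 1, 2, 0, 1, 2, 1, 0, 0, 2, 2, 1, 2, 0, 1, 0, 1, 0, 1, 0, 1, 2, 0, 2], 268, 0),
  ([2, 2, 1, 1, 0, 2, 2, 0, 1, 2, 0, 1, 1, 2, 0, 2, 0, 1, 2, 0, 1, 0, 2, 0, 1, 0, 0, 2, 2], 269, 0),
  ([1, 3, 0, 2, 0, 1, 0, 2, 2, 2, 0, 1, 1, 2, 0, 1, 1, 2, 2, 0, 0, 1, 1, 0, 2, 0, 1, 0, 1], 270, 0),
  ([3, 1, 2, 1, 0, 1, 2, 0, 2, 2, 0, 1, 2, 1, 0, 2, 1, 0, 2, 0, 0, 1, 2, 0, 1, 0, 1, 2, 0], 271, 1),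
  ([0, 2, 1, 1, 0, 2, 2, 1, 0, 1, 2, 1, 1, 2, 0, 1, 0, 2, 1, 0, 2, 0, 1, 2, 1, 0, 2, 1, 2], 273, 0),
  ([0, 0, 2, 2, 1, 1, 2, 1, 2, 0, 1, 0, 2, 1, 1, 0, 2, 2, 0, 2, 0, 1, 1, 0, 1, 2, 0, 2, 0], 274, 0),
  ([2, 1, 0, 2, 2, 1, 0, 3, 1, 0, 2, 2, 1, 1, 1, 0, 1, 2, 0, 1, 0, 2, 0, 1, 2, 0, 2, 0, 1], 275, 0),
  ([2, 0, 2, 3, 0, 2, 1, 0, 2, 2, 1, 0, 2, 1, 2, 1, 0, 2, 0, 1, 2, 0, 1, 1, 0, 1, 2, 1, 0], 276, 0),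
  ([1, 1, 0, 2, 1, 0, 1, 2, 1, 1, 2, 0, 2, 0, 2, 0, 1, 2, 0, 2, 2, 1, 0, 2, 0, 1, 0, 2, 1], 277, 0),
  ([1, 2, 0, 2, 1, 2, 1, 2, 2, 1, 0, 2, 0, 1, 2, 0, 2, 1, 0, 1, 2, 2, 0, 2, 0, 0, 1, 2, 2], 278, 0),
  ([0, 2, 1, 2, 1, 1, 0, 2, 1, 2, 2, 0, 1, 0, 2, 0, 2, 1, 2, 0, 2, 1, 0, 0, 0, 1, 2, 1, 2], 279, 0),
  ([2, 0, 1, 0, 2, 2, 2, 0, 1, 2, 2, 1, 2, 0, 1, 0, 1, 0, 2, 1, 0, 1, 2, 0, 0, 1, 2, 0, 2], 280, 0),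
  ([1, 2, 0, 2, 0, 1, 2, 1, 1, 2, 2, 0, 2, 0, 1, 2, 0, 0, 2, 0, 0, 1, 2, 2, 1, 0, 1, 2, 0], 281, 0),
  ([1, 2, 1, 2, 0, 2, 1, 0, 2, 0, 2, 0, 1, 2, 0, 1, 1, 2, 0, 2, 0, 2, 0, 0, 1, 2, 2, 1, 0], 282, 0),
  ([2, 2, 0, 3, 2, 2, 0, 2, 1, 0, 1, 2, 1, 0, 0, 2, 1, 1, 0, 0, 2, 1, 0, 2, 0, 2, 1, 0, 0], 283, 0),
  ([2, 1, 2, 3, 1, 2, 1, 0, 2, 1, 1, 3, 2, 0, 2, 2, 1, 2, 0, 1, 0, 2, 1, 0, 2, 0, 0, 0, 2], 284, 0),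
  ([1, 3, 1, 3, 1, 0, 2, 1, 1, 2, 1, 2, 0, 2, 2, 2, 0, 2, 0, 1, 0, 2, 0, 2, 1, 1, 0, 2, 1], 285, 0),
  ([2, 1, 3, 0, 2, 1, 2, 2, 0, 2, 1, 2, 0, 1, 1, 2, 2, 2, 0, 1, 0, 0, 1, 2, 0, 0, 2, 2, 0], 286, 0),
  ([0, 2, 1, 2, 1, 2, 2, 1, 0, 0, 2, 1, 2, 2, 0, 2, 0, 2, 0, 1, 0, 1, 0, 2, 0, 2, 1, 2, 0], 287, 0),
  ([1, 0, 2, 1, 2, 2, 1, 2, 2, 0, 0, 2, 1, 0, 0, 2, 1, 0, 2, 2, 1, 0, 2, 0, 1, 2, 0, 1, 2], 288, 0),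
  ([0, 1, 0, 1, 2, 1, 2, 2, 0, 2, 0, 1, 2, 1, 0, 2, 0, 2, 1, 1, 0, 2, 0, 1, 1, 0, 2, 2, 0], 289, 0),
  ([1, 2, 3, 0, 1, 2, 2, 0, 2, 2, 1, 0, 3, 1, 1, 0, 2, 2, 1, 2, 0, 0, 1, 2, 0, 1, 0, 1, 0], 290, 0),
  ([2, 1, 0, 1, 2, 2, 1, 1, 3, 2, 0, 1, 2, 1, 1, 2, 0, 0, 2, 2, 1, 0, 2, 2, 0, 1, 2, 0, 2], 291, 0),
  ([0, 2, 1, 1, 2, 2, 0, 1, 2, 0, 2, 2, 0, 1, 0, 1, 2, 0, 1, 2, 0, 0, 1, 2, 1, 0, 0, 2, 2], 292, 1),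
  ([1, 1, 0, 2, 0, 2, 2, 0, 1, 1, 2, 0, 2, 1, 0, 1, 2, 2, 1, 1, 2, 0, 2, 0, 0, 1, 0, 2, 2], 294, 0),
  ([2, 1, 1, 2, 0, 1, 2, 0, 2, 0, 2, 2, 0, 0, 0, 1, 2, 0, 1, 2, 0, 1, 2, 0, 2, 0, 1, 0, 2], 295, 0),
  ([0, 1, 2, 1, 2, 2, 1, 3, 1, 2, 2, 0, 2, 0, 0, 1, 2, 2, 1, 0, 1, 0, 2, 0, 0, 2, 0, 2, 1], 296, 0),
  ([2, 1, 3, 1, 2, 2, 1, 0, 2, 2, 2, 0, 0, 0, 2, 1, 0, 2, 1, 0, 2, 0, 1, 2, 0, 2, 0, 2, 1], 297, 0),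
  ([1, 1, 2, 2, 0, 3, 0, 1, 1, 2, 0, 2, 2, 1, 2, 0, 2, 1, 0, 2, 1, 0, 2, 0, 1, 2, 0, 2, 1], 298, 1)]

theorem ct29_3_ok : Raw.runR 29 300 ct29_3 251 = true := by decide +kernel

end Pool.Agent.Wil
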