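import Pool.Agent.Wil.Raw
import Pool.Agent.Wil.Cert29a

set_option autoImplicit false
set_option maxRecDepth 100000

/-! Explicit cores (runner heights, size, window), p = 29, degrees 300 to 532. -/

namespace Pool.Agent.Wil

def ct29_4 : List (List Nat × Nat × Nat) := [
  ([1, 1, 2, 0, 1, 0, 2, 2, 1, 0, 2, 2, 1, 0, 0, 2, 1, 1, 0, 2, 0, 1, 2, 0, 2, 0, 2, 1, 2], 300, 0),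
  ([0, 2, 1, 1, 0, 1, 2, 2, 1, 0, 2, 1, 0, 2, 0, 2, 1, 2, 0, 1, 2, 0, 1, 0, 2, 0, 2, 1, 2], 301, 0),
  ([0, 2, 0, 2, 1, 2, 2, 0, 2, 1, 1, 2, 0, 0, 1, 0, 2, 0, 0, 2, 2, 1, 0, 2, 0, 1, 0, 2, 0], 302, 0),
  ([2, 0, 1, 2, 2, 3, 1, 0, 1, 2, 2, 1, 0, 0, 2, 0, 1, 2, 2, 0, 1, 1, 0, 2, 2, 0, 1, 0, 2], 303, 0),
  ([1, 1, 3, 0, 1, 2, 0, 1, 2, 0, 1, 2, 2, 0, 1, 2, 0, 2, 1, 0, 1, 0, 0, 2, 1, 0, 2, 1, 2], 304, 0),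
  ([2, 1, 3, 1, 1, 2, 0, 2, 3, 0, 0, 2, 1, 2, 2, 0, 1, 2, 0, 0, 2, 1, 2, 0, 1, 1, 0, 2, 1], 305, 0),
  ([0, 2, 1, 2, 0, 3, 2, 1, 0, 1, 1, 2, 0, 2, 1, 0, 2, 2, 1, 1, 0, 0, 2, 0, 2, 1, 2, 0, 1], 306, 0),
  ([1, 0, 2, 0, 2, 1, 3, 2, 0, 1, 1, 0, 2, 2, 0, 1, 1, 1, 2, 0, 0, 2, 0, 2, 1, 0, 2, 0, 1], 307, 0),
  ([2, 1, 0, 2, 1, 1, 2, 3, 0, 0, 2, 2, 0, 2, 1, 1, 2, 1, 0, 2, 0, 1, 2, 0, 1, 0, 2, 0, 2], 308, 0),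
  ([1, 0, 1, 2, 3, 1, 0, 1, 2, 0, 2, 1, 2, 2, 1, 0, 0, 2, 2, 0, 2, 0, 1, 1, 2, 0, 0, 2, 1], 309, 0),
  ([2, 2, 1, 2, 1, 1, 3, 0, 3, 1, 3, 0, 2, 1, 2, 1, 2, 0, 2, 0, 1, 0, 2, 2, 1, 0, 2, 0, 1], 310, 0),
  ([0, 2, 3, 1, 2, 2, 0, 2, 0, 2, 1, 0, 1, 0, 2, 1, 0, 1, 2, 0, 1, 0, 2, 2, 0, 0, 2, 0, 1], 311, 0),
  ([2, 2, 1, 0, 2, 2, 0, 2, 3, 0, 1, 1, 0, 2, 1, 2, 0, 1, 1, 0, 2, 0, 2, 0, 1, 0, 2, 0, 2], 312, 0),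
  ([2, 3, 0, 2, 1, 2, 1, 2, 1, 2, 0, 3, 0, 2, 1, 2, 2, 0, 1, 0, 2, 0, 0, 1, 2, 0, 1, 0, 2], 313, 0),
  ([1, 2, 0, 1, 2, 0, 2, 3, 0, 1, 2, 1, 2, 0, 1, 1, 2, 1, 0, 2, 1, 2, 0, 2, 0, 0, 2, 1, 2], 314, 0),
  ([2, 0, 1, 2, 3, 0, 2, 1, 1, 2, 1, 3, 1, 0, 2, 2, 0, 1, 2, 0, 2, 0, 1, 2, 1, 0, 0, 1, 2], 315, 0),
  ([2, 3, 0, 1, 2, 0, 2, 0, 2, 1, 0, 2, 2, 0, 2, 1, 2, 0, 1, 1, 0, 2, 0, 1, 1, 0, 2, 0, 2], 316, 0),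
  ([0, 1, 2, 1, 2, 0, 1, 3, 1, 2, 0, 2, 1, 2, 0, 0, 2, 1, 1, 2, 0, 0, 2, 0, 0, 2, 1, 2, 1], 317, 0),
  ([2, 2, 1, 3, 1, 2, 0, 3, 2, 1, 2, 1, 0, 2, 1, 0, 3, 0, 1, 2, 1, 2, 0, 2, 0, 2, 0, 1, 0], 318, 0),
  ([2, 1, 0, 2, 0, 3, 2, 0, 2, 0, 0, 2, 1, 2, 2, 1, 0, 0, 1, 2, 0, 2, 0, 1, 1, 0, 2, 1, 0], 319, 0),
  ([2, 1, 1, 2, 0, 3, 0, 2, 2, 1, 1, 0, 2, 0, 1, 2, 0, 2, 2, 1, 0, 2, 2, 0, 1, 0, 2, 2, 0], 320, 0),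
  ([2, 2, 0, 0, 2, 0, 2, 1, 2, 1, 2, 0, 1, 0, 2, 1, 2, 0, 1, 0, 2, 1, 2, 0, 2, 0, 2, 0, 2], 321, 0),
  ([2, 0, 3, 1, 1, 3, 2, 0, 2, 0, 1, 1, 2, 2, 1, 2, 0, 0, 1, 2, 1, 2, 0, 0, 2, 0, 1, 0, 2], 322, 0),
  ([3, 0, 2, 1, 2, 0, 3, 2, 1, 2, 2, 1, 0, 1, 3, 0, 2, 1, 2, 0, 1, 2, 0, 1, 2, 0, 1, 0, 1], 323, 0),
  ([2, 0, 2, 1, 3, 0, 2, 1, 1, 2, 0, 1, 1, 2, 2, 0, 2, 0, 2, 0, 0, 0, 2, 0, 1, 2, 0, 0, 2], 324, 0),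
  ([1, 1, 2, 1, 3, 2, 1, 0, 3, 2, 0, 2, 2, 0, 1, 2, 2, 0, 1, 1, 2, 1, 0, 2, 0, 0, 2, 2, 2], 325, 0),
  ([0, 1, 3, 0, 2, 1, 2, 2, 1, 0, 1, 2, 0, 1, 2, 0, 1, 2, 0, 2, 0, 0, 1, 0, 2, 2, 2, 1, 0], 326, 0),
  ([1, 1, 0, 3, 1, 2, 0, 2, 1, 0, 2, 0, 2, 2, 2, 0, 0, 2, 1, 0, 2, 0, 0, 1, 2, 1, 0, 1, 2], 327, 0),
  ([2, 1, 3, 1, 2, 3, 0, 1, 3, 2, 0, 2, 2, 1, 3, 2, 0, 2, 0, 1, 1, 0, 2, 1, 0, 1, 1, 0, 2], 328, 0),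
  ([1, 1, 1, 3, 1, 2, 3, 1, 0, 2, 3, 1, 0, 2, 0, 2, 2, 1, 0, 2, 1, 0, 2, 0, 1, 2, 1, 0, 2], 329, 0),
  ([1, 3, 2, 2, 3, 1, 3, 3, 1, 2, 2, 1, 3, 2, 1, 2, 3, 3, 1, 1, 3, 2, 1, 2, 3, 3, 0, 3, 1], 330, 0),
  ([2, 0, 3, 2, 0, 3, 2, 1, 2, 0, 0, 1, 2, 1, 2, 2, 0, 1, 1, 0, 0, 2, 2, 0, 2, 0, 1, 0, 0], 331, 0),
  ([3, 1, 1, 2, 3, 1, 2, 3, 1, 2, 2, 2, 0, 0, 3, 0, 1, 2, 1, 0, 2, 1, 0, 2, 1, 2, 0, 0, 2], 332, 0),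
  ([2, 1, 1, 2, 0, 2, 0, 2, 2, 1, 3, 0, 2, 0, 2, 1, 0, 1, 2, 2, 2, 0, 0, 2, 1, 0, 2, 0, 2], 333, 0),
  ([3, 0, 2, 1, 0, 2, 1, 1, 2, 1, 3, 2, 0, 2, 2, 0, 0, 1, 1, 2, 0, 2, 0, 1, 1, 0, 2, 0, 2], 334, 0),
  ([1, 0, 3, 1, 0, 2, 2, 2, 1, 3, 1, 2, 1, 0, 0, 2, 1, 2, 0, 2, 1, 0, 0, 1, 2, 1, 2, 0, 2], 335, 0),
  ([1, 2, 1, 3, 0, 2, 1, 2, 0, 0, 2, 2, 3, 1, 0, 2, 1, 0, 1, 2, 2, 2, 0, 0, 2, 1, 0, 2, 1], 336, 0),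
  ([2, 1, 0, 2, 3, 1, 0, 1, 2, 3, 2, 0, 1, 0, 2, 1, 1, 2, 0, 0, 2, 2, 0, 2, 0, 1, 0, 2, 1], 337, 0),
  ([0, 2, 2, 0, 2, 1, 3, 1, 2, 3, 0, 1, 0, 2, 2, 0, 1, 0, 2, 1, 2, 1, 0, 1, 2, 0, 1, 2, 0], 338, 0),
  ([3, 2, 1, 1, 3, 1, 2, 0, 3, 1, 2, 2, 3, 0, 3, 0, 2, 1, 1, 0, 2, 1, 1, 1, 0, 2, 1, 2, 0], 339, 0),
  ([1, 0, 3, 1, 2, 0, 2, 0, 2, 2, 1, 0, 3, 1, 0, 1, 2, 1, 2, 0, 2, 2, 1, 0, 0, 1, 0, 2, 1], 340, 0),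
  ([1, 2, 0, 2, 2, 1, 3, 2, 0, 1, 2, 1, 2, 3, 0, 2, 0, 0, 2, 1, 2, 1, 0, 0, 2, 0, 2, 1, 2], 341, 0),
  ([1, 3, 0, 1, 3, 2, 0, 2, 1, 0, 2, 3, 0, 1, 1, 2, 0, 2, 0, 2, 1, 1, 1, 2, 2, 0, 0, 1, 1], 342, 0),
  ([3, 0, 2, 1, 2, 3, 1, 1, 3, 2, 1, 0, 2, 1, 0, 2, 0, 2, 2, 0, 2, 2, 1, 0, 2, 0, 0, 2, 1], 343, 0),
  ([2, 3, 1, 3, 1, 2, 1, 0, 3, 0, 2, 1, 0, 2, 0, 2, 2, 0, 1, 2, 2, 1, 0, 0, 0, 2, 2, 1, 0], 344, 0)]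

theorem ct29_4_ok : Raw.runR 29 345 ct29_4 300 = true := by decide +kernel

def ct29_5 : List (List Nat × Nat × Nat) := [
  ([1, 3, 2, 0, 2, 2, 1, 0, 3, 2, 0, 1, 2, 0, 2, 0, 1, 0, 2, 2, 2, 1, 0, 2, 0, 0, 2, 0, 1], 345, 0),
  ([3, 0, 2, 3, 0, 2, 3, 1, 0, 2, 1, 1, 2, 0, 0, 2, 2, 1, 2, 0, 0, 1, 2, 0, 1, 2, 1, 0, 1], 346, 0),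
  ([1, 2, 3, 0, 1, 0, 2, 0, 2, 3, 1, 2, 1, 0, 1, 2, 0, 0, 2, 1, 0, 0, 1, 2, 2, 0, 1, 0, 2], 347, 0),
  ([2, 0, 2, 2, 0, 3, 0, 1, 2, 1, 3, 0, 1, 1, 1, 0, 1, 2, 0, 2, 0, 1, 2, 0, 1, 0, 2, 2, 0], 348, 0),
  ([0, 1, 2, 0, 2, 1, 3, 0, 1, 2, 1, 2, 0, 3, 2, 0, 1, 1, 1, 2, 0, 1, 2, 0, 1, 0, 1, 2, 2], 349, 0),
  ([1, 2, 0, 1, 0, 3, 2, 2, 3, 1, 0, 0, 1, 2, 0, 2, 2, 1, 0, 1, 2, 2, 1, 0, 2, 0, 2, 0, 1], 350, 0),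
  ([2, 0, 3, 1, 2, 1, 2, 1, 0, 0, 2, 3, 1, 0, 2, 2, 1, 2, 0, 2, 1, 0, 0, 2, 0, 0, 2, 1, 2], 351, 0),
  ([0, 3, 2, 1, 0, 1, 3, 2, 2, 0, 3, 1, 1, 0, 1, 0, 2, 2, 0, 2, 0, 2, 1, 2, 1, 1, 0, 1, 0], 352, 0),
  ([1, 2, 1, 0, 3, 3, 0, 1, 2, 2, 0, 3, 1, 2, 1, 1, 2, 2, 0, 1, 0, 0, 2, 1, 2, 2, 0, 1, 2], 353, 0),
  ([1, 2, 3, 0, 2, 1, 2, 3, 1, 0, 1, 3, 1, 2, 0, 3, 2, 0, 1, 2, 2, 1, 0, 2, 2, 2, 0, 1, 1], 354, 0),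
  ([2, 1, 0, 2, 0, 2, 0, 2, 0, 3, 0, 2, 1, 2, 0, 2, 0, 1, 1, 2, 0, 2, 0, 2, 1, 1, 0, 0, 2], 355, 0),
  ([1, 3, 1, 3, 1, 2, 0, 2, 1, 0, 2, 3, 0, 0, 2, 2, 2, 0, 2, 0, 2, 1, 1, 0, 1, 0, 2, 1, 2], 356, 0),
  ([0, 1, 0, 1, 2, 3, 1, 1, 2, 3, 0, 2, 2, 0, 2, 1, 1, 2, 0, 1, 0, 2, 1, 0, 2, 1, 0, 2, 2], 357, 0),
  ([1, 3, 2, 0, 2, 0, 1, 2, 0, 0, 2, 1, 2, 3, 1, 2, 0, 2, 0, 1, 1, 0, 1, 2, 0, 0, 2, 0, 2], 358, 0),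
  ([0, 1, 2, 2, 1, 3, 0, 0, 2, 3, 0, 1, 2, 0, 2, 1, 2, 0, 1, 1, 0, 2, 2, 1, 2, 0, 2, 1, 0], 359, 0),
  ([1, 2, 1, 2, 3, 0, 3, 1, 2, 0, 1, 1, 2, 3, 0, 1, 0, 2, 2, 0, 2, 0, 2, 0, 1, 0, 2, 1, 2], 360, 1),
  ([1, 3, 1, 0, 1, 2, 1, 3, 2, 2, 2, 0, 0, 3, 2, 0, 1, 2, 0, 2, 1, 0, 1, 0, 2, 2, 1, 0, 2], 362, 0),
  ([2, 0, 1, 2, 1, 1, 3, 2, 0, 1, 0, 2, 3, 2, 0, 2, 2, 0, 0, 2, 1, 0, 2, 0, 1, 0, 2, 1, 2], 363, 0),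
  ([2, 3, 1, 1, 0, 2, 3, 1, 3, 2, 3, 0, 1, 2, 2, 0, 0, 1, 2, 2, 1, 0, 0, 1, 2, 2, 0, 2, 0], 364, 0),
  ([1, 2, 2, 0, 1, 3, 2, 0, 1, 2, 0, 2, 3, 1, 2, 2, 0, 2, 0, 2, 0, 0, 1, 2, 0, 2, 0, 0, 2], 365, 0),
  ([2, 1, 3, 0, 3, 0, 0, 3, 1, 2, 2, 0, 2, 0, 1, 1, 2, 1, 0, 2, 1, 1, 2, 0, 2, 0, 1, 2, 0], 366, 0),
  ([3, 1, 2, 1, 2, 3, 1, 2, 3, 1, 3, 1, 0, 2, 1, 0, 3, 1, 0, 0, 2, 1, 2, 0, 0, 2, 2, 2, 0], 367, 0),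
  ([2, 1, 1, 2, 2, 0, 3, 3, 3, 1, 1, 2, 0, 2, 0, 1, 3, 1, 2, 2, 0, 2, 1, 0, 2, 0, 2, 0, 2], 368, 0),
  ([1, 1, 3, 2, 2, 1, 3, 0, 0, 2, 2, 1, 0, 3, 2, 1, 1, 2, 0, 3, 2, 0, 0, 1, 1, 2, 0, 2, 1], 369, 0),
  ([2, 2, 1, 1, 3, 2, 0, 3, 1, 3, 2, 2, 1, 0, 2, 1, 3, 0, 2, 1, 3, 0, 2, 0, 0, 1, 1, 2, 0], 370, 0),
  ([1, 0, 3, 2, 1, 2, 0, 3, 2, 1, 0, 3, 1, 2, 2, 0, 1, 1, 2, 2, 1, 0, 0, 2, 0, 2, 0, 0, 2], 371, 0),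
  ([1, 1, 3, 0, 2, 1, 3, 1, 3, 2, 0, 1, 0, 2, 3, 2, 2, 0, 2, 0, 1, 1, 2, 1, 1, 0, 2, 0, 2], 372, 0),
  ([2, 3, 0, 3, 1, 3, 2, 1, 0, 2, 0, 0, 2, 1, 3, 0, 1, 2, 2, 0, 2, 2, 0, 1, 1, 0, 1, 0, 0], 373, 0),
  ([2, 1, 2, 1, 0, 3, 2, 3, 1, 2, 0, 3, 0, 2, 1, 2, 0, 2, 2, 0, 1, 3, 1, 0, 2, 1, 0, 1, 2], 374, 0),
  ([0, 3, 0, 1, 2, 2, 0, 2, 1, 1, 3, 1, 2, 0, 0, 2, 2, 0, 2, 1, 0, 0, 2, 0, 1, 0, 2, 2, 1], 375, 0),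
  ([0, 3, 2, 0, 1, 3, 1, 0, 2, 2, 1, 2, 3, 0, 0, 1, 2, 2, 1, 0, 2, 1, 2, 0, 2, 1, 2, 0, 1], 376, 0),
  ([3, 1, 2, 0, 3, 0, 3, 1, 2, 0, 2, 0, 1, 2, 0, 1, 3, 2, 2, 1, 1, 0, 1, 1, 2, 0, 0, 2, 1], 377, 0),
  ([3, 1, 0, 3, 1, 2, 1, 2, 0, 2, 1, 2, 2, 0, 1, 3, 1, 2, 3, 2, 0, 0, 1, 2, 0, 1, 2, 0, 2], 378, 0),
  ([2, 0, 1, 0, 3, 1, 2, 2, 3, 0, 0, 1, 0, 1, 2, 2, 1, 2, 0, 1, 2, 2, 0, 1, 2, 0, 2, 0, 2], 379, 0),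
  ([3, 2, 1, 0, 2, 2, 3, 1, 0, 2, 1, 0, 0, 3, 1, 3, 2, 0, 2, 1, 1, 0, 2, 2, 0, 1, 2, 1, 0], 380, 0),
  ([0, 3, 2, 3, 1, 3, 2, 0, 1, 0, 1, 2, 0, 3, 2, 1, 2, 2, 0, 1, 0, 1, 2, 1, 0, 1, 2, 0, 2], 381, 0),
  ([3, 2, 2, 3, 0, 1, 2, 0, 0, 1, 3, 2, 2, 1, 0, 2, 1, 3, 1, 2, 0, 0, 2, 0, 0, 2, 1, 0, 0], 382, 0),
  ([2, 1, 3, 1, 0, 2, 3, 0, 3, 1, 2, 1, 3, 0, 2, 1, 3, 1, 0, 2, 2, 1, 0, 2, 1, 1, 0, 0, 2], 383, 1),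
  ([2, 1, 3, 2, 2, 0, 2, 1, 1, 3, 0, 1, 3, 0, 0, 3, 1, 1, 2, 0, 0, 2, 1, 1, 0, 2, 2, 2, 0], 385, 0),
  ([1, 3, 0, 2, 3, 3, 2, 1, 1, 3, 1, 0, 2, 2, 0, 0, 1, 2, 0, 2, 0, 2, 0, 0, 2, 1, 0, 2, 0], 386, 0),
  ([3, 3, 1, 2, 1, 2, 3, 0, 1, 1, 1, 2, 0, 2, 2, 3, 0, 1, 2, 3, 0, 2, 0, 0, 1, 2, 0, 2, 0], 387, 0),
  ([4, 2, 2, 4, 3, 2, 4, 2, 1, 4, 2, 4, 3, 2, 1, 2, 3, 1, 3, 3, 3, 2, 1, 3, 1, 3, 2, 1, 0], 388, 0),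
  ([2, 1, 1, 1, 3, 0, 2, 1, 3, 0, 2, 0, 0, 2, 3, 2, 0, 1, 2, 0, 1, 1, 2, 0, 0, 1, 2, 2, 2], 389, 0),
  ([0, 2, 3, 2, 1, 0, 2, 3, 2, 3, 1, 0, 2, 0, 1, 2, 3, 0, 2, 0, 1, 2, 1, 1, 1, 0, 2, 2, 0], 390, 0),
  ([1, 2, 2, 3, 0, 1, 2, 0, 3, 1, 0, 2, 2, 3, 0, 2, 1, 0, 2, 0, 0, 2, 1, 2, 0, 0, 2, 1, 2], 391, 1)]

theorem ct29_5_ok : Raw.runR 29 393 ct29_5 345 = true := by decide +kernel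

def ct29_6 : List (List Nat × Nat × Nat) := [
  ([1, 2, 3, 0, 1, 3, 1, 3, 1, 1, 2, 0, 2, 2, 0, 1, 2, 0, 3, 0, 0, 2, 2, 0, 2, 2, 1, 1, 2], 393, 0),
  ([1, 0, 3, 0, 3, 1, 2, 0, 1, 3, 0, 1, 2, 2, 1, 2, 0, 2, 0, 2, 1, 0, 2, 0, 2, 0, 1, 2, 1], 394, 1),
  ([0, 1, 3, 2, 3, 1, 1, 3, 0, 2, 1, 2, 2, 1, 2, 1, 0, 3, 0, 2, 2, 1, 2, 0, 3, 0, 1, 2, 1], 396, 0),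
  ([2, 1, 3, 0, 3, 1, 0, 0, 2, 3, 2, 1, 0, 2, 1, 0, 2, 2, 0, 0, 2, 0, 2, 1, 2, 0, 0, 2, 1], 397, 0),
  ([1, 3, 3, 1, 3, 1, 0, 2, 2, 0, 3, 3, 0, 2, 1, 0, 2, 2, 1, 1, 3, 1, 0, 2, 2, 1, 0, 2, 1], 398, 0),
  ([1, 0, 2, 1, 3, 2, 1, 3, 2, 0, 3, 1, 2, 1, 0, 2, 0, 1, 2, 2, 0, 1, 0, 2, 1, 3, 0, 0, 2], 399, 0),
  ([0, 3, 3, 0, 2, 2, 0, 0, 2, 3, 0, 1, 2, 1, 2, 2, 1, 0, 0, 1, 2, 0, 0, 2, 0, 2, 0, 1, 0], 400, 0),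
  ([3, 1, 2, 2, 3, 0, 2, 1, 1, 2, 0, 1, 3, 0, 3, 1, 3, 0, 0, 1, 2, 0, 2, 1, 0, 2, 2, 1, 0], 401, 0),
  ([1, 2, 0, 3, 1, 2, 1, 2, 3, 1, 0, 3, 0, 1, 0, 3, 0, 2, 1, 2, 0, 2, 2, 0, 2, 2, 1, 1, 0], 402, 0),
  ([2, 3, 3, 1, 2, 2, 0, 3, 3, 1, 0, 3, 0, 1, 3, 2, 0, 2, 0, 1, 2, 1, 0, 2, 1, 0, 0, 1, 2], 403, 0),
  ([3, 1, 0, 2, 2, 3, 0, 1, 2, 2, 3, 0, 2, 1, 1, 3, 1, 3, 0, 2, 1, 2, 0, 2, 0, 2, 1, 2, 0], 404, 0),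
  ([3, 2, 0, 1, 3, 2, 0, 1, 1, 3, 3, 1, 2, 1, 2, 3, 0, 0, 0, 1, 2, 0, 1, 2, 0, 2, 1, 0, 2], 405, 0),
  ([2, 3, 1, 2, 1, 3, 0, 2, 3, 1, 2, 2, 1, 1, 0, 2, 0, 3, 0, 2, 3, 1, 3, 2, 2, 0, 1, 2, 0], 406, 0),
  ([2, 1, 2, 3, 1, 1, 3, 3, 0, 1, 2, 0, 2, 0, 2, 3, 1, 0, 1, 1, 0, 2, 1, 0, 3, 2, 0, 2, 0], 407, 0),
  ([1, 2, 2, 3, 1, 1, 3, 0, 3, 0, 2, 1, 2, 1, 3, 0, 0, 3, 1, 1, 0, 2, 1, 2, 0, 0, 2, 0, 2], 408, 1),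
  ([1, 2, 3, 1, 2, 3, 3, 1, 2, 1, 0, 1, 3, 1, 3, 0, 3, 2, 1, 2, 0, 2, 0, 0, 2, 1, 3, 1, 0], 410, 0),
  ([1, 2, 1, 2, 3, 2, 3, 2, 0, 1, 0, 3, 1, 2, 1, 3, 0, 0, 0, 2, 1, 3, 2, 0, 2, 1, 2, 2, 0], 411, 0),
  ([1, 2, 3, 1, 0, 3, 3, 2, 1, 1, 0, 0, 3, 0, 1, 1, 3, 1, 2, 0, 2, 2, 0, 2, 1, 2, 0, 2, 1], 412, 0),
  ([2, 1, 3, 0, 2, 3, 0, 1, 3, 2, 0, 3, 2, 0, 1, 2, 2, 1, 3, 0, 0, 2, 2, 0, 1, 1, 2, 1, 0], 413, 1),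
  ([2, 1, 1, 3, 2, 3, 1, 1, 2, 1, 1, 3, 2, 0, 2, 3, 0, 2, 3, 2, 0, 1, 0, 0, 2, 3, 0, 2, 2], 415, 0),
  ([1, 1, 2, 3, 2, 1, 3, 0, 1, 0, 3, 2, 0, 3, 1, 2, 0, 0, 1, 2, 0, 1, 3, 1, 2, 0, 2, 1, 0], 416, 0),
  ([0, 2, 3, 2, 3, 1, 3, 2, 2, 1, 0, 1, 2, 3, 2, 1, 0, 3, 3, 0, 1, 2, 0, 1, 2, 0, 2, 0, 2], 417, 0),
  ([1, 2, 3, 0, 1, 2, 2, 3, 3, 1, 2, 0, 1, 3, 0, 1, 2, 2, 0, 0, 2, 1, 2, 2, 0, 0, 1, 3, 2], 418, 0),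
  ([3, 0, 3, 2, 3, 1, 1, 2, 0, 2, 1, 3, 0, 3, 1, 1, 2, 2, 1, 0, 0, 3, 2, 0, 1, 2, 0, 1, 2], 419, 0),
  ([2, 1, 3, 2, 2, 0, 3, 1, 2, 3, 1, 3, 0, 3, 2, 1, 2, 0, 2, 1, 0, 3, 1, 3, 1, 2, 0, 0, 2], 420, 1),
  ([2, 3, 1, 3, 2, 0, 0, 3, 0, 1, 2, 2, 0, 1, 2, 3, 1, 0, 3, 2, 1, 0, 2, 0, 1, 2, 1, 2, 0], 422, 0),
  ([1, 3, 2, 0, 3, 2, 0, 1, 0, 2, 3, 0, 2, 1, 0, 3, 2, 0, 2, 1, 2, 1, 2, 0, 2, 0, 0, 2, 1], 423, 1),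
  ([1, 1, 3, 0, 3, 2, 3, 1, 3, 1, 0, 2, 3, 0, 2, 2, 0, 2, 3, 1, 0, 2, 0, 1, 2, 0, 1, 1, 2], 425, 1),
  ([1, 2, 0, 3, 1, 2, 1, 3, 0, 3, 1, 2, 0, 2, 3, 0, 2, 1, 3, 0, 1, 1, 0, 0, 2, 2, 2, 0, 1], 427, 1),
  ([2, 2, 1, 1, 3, 1, 3, 0, 2, 0, 3, 1, 0, 1, 2, 2, 3, 2, 0, 0, 1, 3, 0, 2, 2, 0, 1, 2, 2], 429, 0),
  ([2, 3, 0, 1, 0, 3, 2, 1, 2, 3, 1, 3, 0, 1, 2, 3, 2, 3, 0, 1, 1, 2, 2, 0, 1, 0, 2, 2, 0], 430, 0),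
  ([3, 2, 0, 3, 1, 3, 3, 1, 1, 3, 0, 1, 1, 3, 2, 2, 0, 0, 1, 0, 2, 3, 0, 2, 0, 1, 2, 1, 1], 431, 0),
  ([0, 3, 1, 2, 3, 1, 3, 0, 2, 1, 3, 2, 2, 1, 0, 1, 3, 0, 2, 2, 3, 2, 0, 1, 2, 0, 1, 0, 2], 432, 0),
  ([3, 3, 1, 0, 1, 1, 3, 2, 2, 2, 0, 1, 3, 3, 0, 3, 0, 2, 1, 2, 3, 0, 1, 0, 1, 2, 1, 0, 1], 433, 0),
  ([2, 3, 0, 1, 1, 1, 3, 0, 3, 1, 0, 2, 0, 3, 1, 2, 2, 0, 0, 2, 1, 0, 2, 0, 1, 0, 2, 2, 2], 434, 0),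
  ([1, 1, 1, 1, 3, 2, 1, 0, 3, 0, 3, 2, 0, 2, 3, 0, 2, 1, 3, 0, 2, 0, 2, 1, 0, 1, 2, 1, 2], 435, 1),
  ([2, 3, 1, 3, 2, 0, 0, 2, 3, 2, 3, 1, 0, 3, 1, 1, 1, 2, 0, 3, 0, 1, 0, 2, 2, 0, 2, 2, 0], 437, 1),
  ([2, 0, 2, 2, 1, 3, 3, 1, 1, 2, 3, 0, 1, 3, 0, 1, 2, 2, 3, 0, 2, 1, 1, 0, 2, 0, 3, 0, 0], 439, 0),
  ([1, 2, 3, 1, 0, 3, 2, 2, 1, 1, 1, 3, 3, 0, 0, 3, 0, 3, 1, 0, 2, 1, 2, 0, 2, 2, 1, 0, 2], 440, 1),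
  ([3, 1, 1, 0, 2, 3, 1, 3, 0, 2, 2, 1, 3, 0, 3, 0, 2, 1, 1, 3, 0, 2, 2, 0, 0, 2, 1, 1, 2], 442, 1),
  ([0, 3, 0, 2, 1, 3, 1, 3, 2, 1, 1, 3, 2, 2, 0, 3, 0, 1, 0, 1, 3, 1, 1, 0, 1, 2, 2, 0, 2], 444, 0),
  ([3, 3, 1, 3, 0, 2, 1, 3, 0, 3, 2, 1, 1, 2, 1, 0, 0, 2, 0, 2, 3, 1, 1, 2, 3, 0, 0, 0, 1], 445, 0),
  ([1, 3, 2, 0, 3, 1, 2, 1, 1, 2, 3, 0, 3, 2, 0, 3, 0, 2, 3, 1, 2, 3, 0, 2, 1, 0, 1, 1, 2], 446, 1),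
  ([2, 2, 1, 3, 3, 1, 1, 2, 0, 3, 0, 1, 2, 3, 0, 0, 1, 3, 2, 1, 0, 2, 1, 0, 2, 3, 0, 2, 0], 448, 1),
  ([0, 3, 2, 2, 0, 1, 2, 2, 0, 3, 0, 1, 3, 2, 1, 0, 2, 1, 3, 1, 0, 2, 0, 2, 0, 0, 0, 2, 2], 450, 1)]

theorem ct29_6_ok : Raw.runR 29 452 ct29_6 393 = true := by decide +kernel

def ct29_7 : List (List Nat × Nat × Nat) := [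
  ([0, 2, 1, 2, 3, 1, 2, 3, 0, 2, 1, 0, 1, 3, 1, 0, 2, 3, 2, 0, 2, 0, 2, 1, 0, 3, 1, 0, 2], 452, 1),
  ([3, 2, 1, 3, 3, 1, 0, 2, 1, 2, 3, 2, 0, 2, 3, 1, 0, 3, 0, 3, 3, 0, 1, 2, 1, 0, 2, 0, 1], 454, 1),
  ([2, 1, 3, 0, 3, 1, 3, 2, 3, 0, 0, 1, 3, 1, 2, 0, 1, 2, 1, 2, 2, 2, 0, 0, 3, 2, 0, 0, 2], 456, 0),
  ([2, 2, 3, 0, 1, 3, 0, 1, 2, 3, 2, 1, 1, 3, 0, 2, 0, 1, 3, 0, 2, 0, 1, 1, 3, 2, 0, 0, 2], 457, 1),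
  ([3, 2, 1, 0, 0, 2, 2, 3, 3, 1, 1, 3, 1, 0, 2, 1, 3, 0, 2, 2, 0, 2, 2, 0, 3, 0, 2, 1, 0], 459, 0),
  ([2, 3, 1, 1, 2, 0, 3, 1, 1, 3, 1, 3, 1, 3, 2, 0, 1, 3, 0, 2, 3, 1, 3, 0, 2, 0, 0, 2, 1], 460, 0),
  ([2, 1, 3, 0, 2, 1, 2, 2, 3, 0, 3, 2, 0, 3, 2, 1, 2, 3, 0, 3, 1, 2, 0, 3, 1, 0, 1, 0, 2], 461, 0),
  ([3, 1, 1, 3, 2, 0, 3, 2, 3, 0, 1, 2, 3, 1, 0, 3, 0, 1, 3, 1, 2, 1, 0, 1, 3, 0, 2, 2, 1], 462, 1),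
  ([1, 3, 1, 0, 3, 2, 2, 3, 0, 1, 2, 3, 1, 3, 0, 3, 1, 2, 0, 1, 1, 0, 3, 0, 2, 0, 1, 2, 0], 464, 1),
  ([2, 1, 3, 2, 1, 3, 3, 2, 1, 0, 0, 3, 0, 1, 3, 2, 3, 1, 0, 2, 0, 2, 2, 1, 3, 0, 0, 2, 0], 466, 1),
  ([1, 2, 3, 1, 2, 0, 0, 3, 2, 3, 0, 2, 1, 0, 2, 1, 0, 3, 1, 3, 0, 1, 0, 2, 0, 2, 0, 2, 2], 468, 2),
  ([1, 1, 2, 3, 1, 3, 0, 3, 1, 3, 2, 0, 1, 0, 2, 2, 0, 3, 0, 3, 1, 2, 0, 3, 0, 2, 1, 1, 1], 471, 1),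
  ([1, 2, 1, 0, 3, 0, 2, 3, 1, 1, 3, 2, 0, 3, 1, 0, 3, 0, 2, 1, 0, 2, 2, 1, 0, 1, 3, 2, 1], 473, 1),
  ([3, 1, 3, 3, 1, 0, 2, 2, 0, 3, 1, 3, 1, 3, 2, 0, 2, 1, 0, 2, 0, 2, 2, 3, 1, 0, 3, 1, 0], 475, 1),
  ([0, 2, 1, 3, 1, 0, 3, 2, 1, 0, 1, 3, 1, 3, 2, 2, 0, 0, 3, 0, 3, 1, 1, 2, 1, 0, 1, 2, 2], 477, 1),
  ([3, 3, 2, 0, 1, 2, 3, 2, 0, 3, 1, 1, 0, 3, 1, 2, 0, 3, 0, 2, 2, 3, 1, 1, 0, 1, 0, 3, 1], 479, 0),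
  ([3, 1, 1, 3, 0, 1, 3, 0, 2, 1, 1, 3, 0, 2, 0, 2, 3, 1, 2, 1, 3, 2, 0, 1, 3, 0, 0, 2, 1], 480, 1),
  ([3, 0, 2, 3, 1, 0, 2, 1, 2, 3, 1, 2, 3, 0, 0, 2, 0, 2, 3, 0, 0, 2, 1, 0, 1, 3, 1, 2, 0], 482, 1),
  ([2, 2, 3, 3, 1, 2, 2, 3, 1, 0, 3, 1, 2, 1, 3, 0, 3, 0, 3, 2, 1, 0, 3, 0, 1, 0, 0, 3, 2], 484, 1),
  ([2, 1, 3, 3, 0, 0, 3, 1, 1, 3, 0, 0, 2, 2, 2, 0, 2, 3, 1, 3, 0, 1, 0, 2, 0, 1, 2, 0, 2], 486, 1),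
  ([1, 0, 1, 3, 2, 3, 1, 3, 0, 2, 3, 2, 1, 0, 2, 0, 1, 1, 2, 0, 1, 3, 2, 3, 0, 1, 2, 3, 1], 488, 0),
  ([3, 0, 1, 2, 1, 0, 3, 1, 2, 3, 0, 2, 1, 3, 1, 2, 0, 2, 3, 3, 1, 3, 0, 1, 1, 0, 2, 0, 2], 489, 0),
  ([1, 3, 3, 0, 1, 2, 2, 1, 3, 1, 0, 3, 3, 0, 1, 2, 0, 0, 3, 0, 2, 3, 0, 1, 0, 2, 1, 1, 2], 490, 1),
  ([3, 0, 3, 1, 1, 3, 2, 0, 3, 0, 2, 0, 2, 1, 2, 3, 1, 1, 2, 2, 2, 0, 3, 0, 1, 0, 1, 0, 3], 492, 0),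
  ([3, 0, 1, 1, 0, 3, 1, 2, 2, 3, 1, 3, 1, 0, 3, 0, 3, 1, 0, 1, 3, 2, 1, 0, 2, 1, 0, 2, 2], 493, 1),
  ([2, 1, 3, 2, 0, 0, 3, 2, 2, 1, 3, 1, 3, 3, 1, 3, 0, 2, 0, 2, 3, 0, 1, 2, 3, 1, 0, 0, 0], 495, 0),
  ([3, 1, 2, 3, 2, 1, 3, 0, 3, 1, 0, 2, 3, 3, 2, 2, 0, 1, 2, 0, 1, 0, 3, 3, 2, 3, 0, 1, 0], 496, 1),
  ([1, 2, 2, 1, 1, 1, 3, 2, 3, 0, 2, 3, 0, 3, 2, 2, 0, 3, 0, 3, 0, 1, 3, 1, 2, 1, 2, 0, 3], 498, 1),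
  ([1, 1, 2, 3, 1, 3, 0, 2, 0, 3, 1, 3, 0, 1, 3, 2, 0, 2, 0, 3, 0, 1, 1, 2, 2, 0, 2, 3, 1], 500, 2),
  ([2, 3, 1, 0, 3, 1, 3, 0, 1, 3, 3, 1, 2, 1, 0, 0, 2, 3, 2, 0, 2, 1, 2, 0, 3, 3, 0, 1, 1], 503, 1),
  ([0, 2, 2, 0, 3, 3, 1, 3, 0, 2, 1, 0, 3, 2, 3, 1, 3, 0, 1, 3, 2, 0, 2, 2, 0, 1, 0, 2, 1], 505, 1),
  ([3, 0, 3, 0, 3, 0, 3, 2, 2, 1, 3, 1, 2, 3, 0, 1, 0, 3, 2, 1, 2, 0, 0, 3, 0, 2, 1, 1, 1], 507, 1),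
  ([3, 2, 0, 3, 1, 3, 2, 0, 2, 2, 3, 0, 1, 0, 2, 2, 3, 1, 0, 2, 0, 3, 3, 1, 2, 0, 1, 1, 3], 509, 0),
  ([3, 1, 1, 2, 1, 3, 2, 2, 1, 0, 3, 2, 3, 0, 1, 0, 3, 3, 0, 3, 2, 3, 1, 0, 2, 1, 3, 0, 2], 510, 1),
  ([3, 2, 2, 1, 3, 2, 0, 1, 1, 2, 3, 0, 1, 0, 3, 0, 1, 3, 3, 2, 0, 2, 1, 3, 2, 2, 0, 3, 0], 512, 0),
  ([3, 2, 0, 3, 2, 0, 2, 2, 2, 3, 3, 0, 1, 1, 2, 0, 1, 3, 0, 2, 0, 3, 0, 2, 0, 1, 2, 0, 3], 513, 1),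
  ([2, 1, 2, 3, 1, 3, 2, 0, 3, 2, 0, 1, 1, 3, 0, 0, 3, 3, 0, 1, 3, 1, 1, 0, 3, 2, 0, 0, 2], 515, 1),
  ([3, 0, 3, 0, 1, 3, 1, 3, 2, 1, 1, 2, 2, 0, 1, 2, 3, 0, 1, 2, 3, 0, 0, 3, 0, 2, 3, 1, 1], 517, 1),
  ([1, 2, 3, 1, 0, 1, 3, 2, 0, 2, 3, 2, 0, 1, 3, 0, 3, 3, 2, 1, 0, 2, 1, 1, 3, 0, 0, 3, 1], 519, 1),
  ([3, 0, 2, 1, 3, 0, 2, 3, 1, 3, 0, 2, 1, 2, 0, 1, 2, 3, 0, 1, 3, 2, 0, 1, 1, 1, 3, 3, 0], 521, 1),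
  ([2, 2, 0, 3, 2, 1, 3, 1, 2, 0, 3, 2, 0, 0, 2, 3, 0, 3, 1, 3, 1, 2, 3, 0, 1, 1, 0, 3, 2], 523, 1),
  ([3, 3, 2, 1, 1, 1, 3, 1, 2, 1, 0, 1, 2, 3, 0, 3, 2, 0, 2, 2, 0, 3, 3, 0, 1, 3, 0, 3, 0], 525, 0),
  ([3, 1, 3, 2, 2, 3, 0, 2, 0, 0, 3, 3, 0, 1, 1, 3, 2, 0, 2, 1, 3, 0, 3, 1, 2, 1, 1, 0, 3], 526, 1),
  ([1, 2, 1, 0, 3, 0, 1, 2, 3, 3, 0, 3, 2, 0, 3, 0, 0, 1, 0, 2, 0, 3, 2, 1, 2, 0, 2, 1, 2], 528, 1),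
  ([3, 3, 1, 1, 1, 3, 0, 2, 3, 3, 0, 3, 1, 3, 0, 1, 2, 2, 0, 1, 3, 0, 1, 2, 3, 1, 3, 0, 0], 530, 2)]

theorem ct29_7_ok : Raw.runR 29 533 ct29_7 452 = true := by decide +kernel

end Pool.Agent.Wil
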