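import Pool.Agent.Wil.Raw
import Pool.Agent.Wil.Cert29b

set_option autoImplicit false
set_option maxRecDepth 100000

/-! Explicit cores (runner heights, size, window), p = 29, degrees 533 to 2235. -/

namespace Pool.Agent.Wil

def ct29_8 : List (List Nat × Nat × Nat) := [
  ([2, 1, 1, 3, 3, 1, 2, 0, 2, 3, 0, 3, 0, 3, 0, 1, 3, 0, 1, 2, 2, 2, 0, 3, 3, 0, 1, 0, 2], 533, 2),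
  ([3, 1, 2, 0, 3, 3, 1, 3, 0, 1, 1, 3, 2, 1, 0, 3, 1, 2, 3, 3, 0, 1, 0, 3, 1, 0, 1, 3, 2], 536, 1),
  ([4, 3, 2, 1, 1, 0, 3, 1, 1, 3, 2, 0, 1, 3, 1, 0, 2, 3, 0, 2, 0, 2, 3, 0, 0, 2, 3, 1, 1], 538, 1),
  ([1, 4, 1, 3, 1, 3, 2, 4, 1, 2, 0, 3, 2, 1, 3, 0, 1, 0, 1, 2, 3, 3, 0, 1, 3, 2, 0, 2, 1], 540, 2),
  ([2, 2, 3, 1, 0, 3, 3, 1, 0, 2, 2, 3, 1, 3, 0, 1, 3, 1, 2, 1, 0, 3, 0, 2, 0, 0, 3, 3, 0], 543, 2),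
  ([3, 0, 3, 3, 0, 2, 4, 3, 1, 2, 1, 3, 1, 2, 3, 1, 3, 1, 0, 2, 3, 0, 0, 3, 1, 0, 0, 2, 1], 546, 1),
  ([1, 2, 0, 3, 3, 1, 1, 1, 3, 3, 0, 2, 3, 1, 1, 3, 3, 0, 0, 2, 3, 2, 0, 2, 1, 3, 3, 0, 1], 548, 1),
  ([2, 0, 3, 3, 1, 3, 0, 1, 2, 3, 1, 3, 0, 0, 0, 1, 2, 3, 2, 3, 0, 1, 1, 3, 1, 3, 0, 1, 2], 550, 0),
  ([1, 0, 1, 3, 2, 2, 3, 1, 3, 2, 0, 3, 0, 3, 2, 0, 2, 3, 2, 0, 1, 1, 0, 2, 0, 3, 2, 0, 3], 551, 2),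
  ([2, 3, 0, 2, 0, 3, 1, 1, 1, 3, 3, 1, 3, 0, 3, 0, 0, 1, 2, 0, 2, 1, 0, 2, 0, 3, 3, 1, 2], 554, 1),
  ([0, 3, 0, 1, 3, 0, 2, 3, 1, 2, 3, 3, 0, 2, 2, 0, 0, 0, 1, 3, 1, 2, 0, 0, 2, 2, 1, 3, 1], 556, 1),
  ([0, 1, 3, 1, 3, 1, 2, 3, 2, 3, 0, 3, 2, 2, 0, 3, 1, 3, 0, 3, 1, 0, 3, 2, 1, 2, 0, 3, 0], 558, 2),
  ([1, 3, 3, 0, 1, 1, 3, 2, 2, 1, 3, 1, 0, 3, 2, 1, 3, 3, 1, 0, 0, 3, 0, 2, 3, 3, 0, 0, 2], 561, 1),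
  ([1, 2, 3, 1, 2, 3, 0, 0, 2, 3, 3, 0, 1, 3, 0, 3, 1, 2, 0, 2, 3, 3, 0, 0, 2, 1, 0, 3, 1], 563, 2),
  ([3, 0, 4, 2, 0, 3, 3, 1, 3, 2, 1, 1, 3, 0, 3, 0, 2, 0, 2, 1, 3, 0, 3, 2, 0, 2, 1, 1, 0], 566, 3),
  ([3, 1, 3, 2, 0, 3, 3, 1, 2, 1, 0, 3, 0, 2, 3, 1, 0, 2, 3, 0, 1, 2, 3, 3, 1, 1, 0, 3, 3], 570, 1),
  ([2, 2, 0, 2, 3, 0, 3, 0, 1, 2, 1, 2, 3, 2, 0, 3, 1, 1, 0, 0, 3, 3, 3, 0, 2, 0, 2, 3, 1], 572, 0),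
  ([3, 2, 3, 0, 0, 2, 3, 1, 0, 3, 2, 1, 0, 3, 2, 1, 1, 3, 0, 3, 2, 3, 1, 0, 3, 1, 1, 0, 3], 573, 1),
  ([3, 1, 3, 0, 3, 0, 1, 2, 3, 3, 0, 3, 0, 2, 0, 3, 3, 1, 2, 1, 1, 2, 0, 3, 0, 1, 0, 3, 1], 575, 2),
  ([2, 3, 0, 3, 1, 3, 3, 0, 2, 1, 2, 0, 1, 3, 1, 3, 1, 3, 0, 0, 3, 3, 0, 0, 2, 2, 3, 0, 1], 578, 2),
  ([1, 2, 2, 2, 3, 0, 3, 1, 3, 0, 3, 2, 1, 0, 0, 3, 2, 1, 3, 0, 1, 3, 2, 3, 0, 1, 3, 3, 0], 581, 2),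
  ([2, 1, 1, 4, 2, 0, 2, 3, 0, 3, 0, 3, 3, 0, 2, 3, 2, 3, 1, 2, 0, 2, 0, 1, 3, 2, 1, 3, 0], 584, 1),
  ([2, 1, 3, 2, 0, 1, 3, 3, 0, 2, 1, 0, 3, 0, 2, 0, 3, 0, 1, 3, 3, 0, 1, 2, 1, 1, 3, 3, 2], 586, 1),
  ([4, 1, 2, 1, 3, 3, 3, 1, 3, 0, 0, 2, 3, 0, 0, 3, 0, 0, 2, 3, 2, 3, 0, 1, 2, 0, 1, 2, 0], 588, 1),
  ([0, 1, 2, 4, 2, 2, 1, 3, 1, 2, 0, 3, 0, 2, 1, 3, 0, 3, 1, 2, 0, 2, 3, 0, 2, 1, 3, 0, 3], 590, 3),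
  ([2, 3, 2, 3, 0, 4, 0, 3, 3, 3, 1, 1, 3, 0, 2, 1, 1, 3, 1, 3, 0, 3, 0, 0, 2, 3, 1, 0, 0], 594, 2),
  ([2, 1, 1, 2, 4, 1, 2, 4, 1, 3, 0, 3, 3, 1, 2, 0, 0, 1, 3, 0, 2, 3, 2, 0, 3, 2, 1, 3, 0], 597, 2),
  ([3, 3, 1, 3, 1, 0, 1, 4, 3, 0, 2, 2, 1, 3, 0, 0, 1, 3, 0, 3, 2, 2, 1, 2, 1, 3, 0, 0, 3], 600, 1),
  ([2, 3, 0, 3, 1, 2, 0, 1, 3, 1, 2, 3, 0, 4, 3, 1, 1, 2, 2, 0, 1, 2, 3, 3, 0, 3, 1, 0, 3], 602, 1),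
  ([1, 3, 2, 1, 0, 4, 3, 2, 1, 2, 3, 0, 0, 2, 0, 3, 2, 0, 2, 1, 3, 3, 1, 0, 0, 3, 1, 3, 2], 604, 2),
  ([2, 3, 2, 3, 4, 2, 1, 0, 1, 3, 1, 3, 2, 0, 4, 2, 1, 3, 3, 0, 0, 0, 0, 2, 2, 1, 3, 3, 0], 607, 0),
  ([0, 1, 2, 3, 3, 1, 0, 1, 4, 3, 2, 1, 2, 3, 1, 0, 0, 3, 3, 0, 3, 2, 0, 2, 1, 3, 2, 2, 0], 608, 1),
  ([1, 3, 2, 1, 2, 4, 0, 0, 2, 3, 3, 3, 3, 3, 0, 0, 3, 1, 2, 1, 3, 0, 1, 3, 0, 2, 3, 0, 1], 610, 1),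
  ([1, 2, 3, 1, 3, 3, 4, 0, 0, 3, 3, 1, 3, 2, 1, 0, 1, 3, 0, 1, 2, 0, 3, 3, 0, 1, 2, 0, 3], 612, 3),
  ([3, 2, 3, 0, 1, 1, 3, 3, 4, 1, 3, 0, 1, 0, 1, 3, 3, 0, 3, 0, 1, 0, 1, 2, 3, 0, 1, 3, 1], 616, 1),
  ([1, 4, 2, 0, 2, 3, 1, 3, 2, 1, 0, 3, 1, 0, 3, 3, 3, 0, 1, 0, 2, 3, 0, 0, 3, 1, 2, 1, 3], 618, 3),
  ([3, 3, 0, 2, 3, 1, 1, 3, 1, 3, 0, 3, 2, 0, 3, 0, 4, 1, 1, 3, 0, 3, 1, 2, 2, 0, 2, 0, 3], 622, 2),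
  ([4, 2, 0, 3, 2, 3, 0, 1, 1, 3, 2, 1, 0, 3, 4, 0, 0, 3, 2, 1, 1, 2, 3, 0, 2, 3, 1, 0, 2], 625, 2),
  ([0, 2, 1, 2, 2, 1, 3, 3, 0, 4, 0, 3, 3, 2, 1, 3, 0, 3, 0, 3, 1, 2, 0, 3, 1, 1, 2, 3, 0], 628, 2),
  ([3, 2, 1, 3, 4, 0, 1, 3, 2, 1, 3, 4, 0, 2, 3, 1, 1, 3, 0, 2, 3, 3, 0, 1, 1, 0, 3, 0, 3], 631, 4),
  ([2, 1, 0, 3, 4, 0, 1, 3, 1, 3, 0, 2, 0, 2, 2, 0, 3, 0, 3, 2, 0, 1, 3, 0, 3, 2, 0, 1, 2], 636, 4),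
  ([3, 0, 1, 1, 3, 2, 1, 3, 1, 3, 3, 0, 0, 2, 0, 3, 2, 3, 2, 1, 3, 0, 3, 0, 0, 3, 0, 2, 3], 641, 2),
  ([3, 1, 3, 3, 0, 3, 4, 1, 3, 0, 2, 1, 2, 2, 4, 1, 1, 0, 3, 0, 1, 3, 3, 0, 3, 1, 0, 1, 3], 644, 3),
  ([4, 4, 2, 1, 3, 2, 3, 2, 1, 1, 3, 4, 0, 3, 3, 1, 0, 0, 2, 0, 4, 2, 2, 1, 0, 0, 3, 1, 0], 648, 1),
  ([0, 3, 2, 2, 3, 4, 0, 2, 3, 2, 3, 1, 4, 0, 0, 2, 1, 1, 3, 3, 1, 0, 0, 3, 0, 3, 1, 2, 0], 650, 2)]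

theorem ct29_8_ok : Raw.runR 29 653 ct29_8 533 = true := by decide +kernel

def ct29_9 : List (List Nat × Nat × Nat) := [
  ([1, 4, 1, 3, 0, 1, 1, 3, 1, 4, 2, 3, 0, 3, 2, 0, 0, 3, 2, 2, 0, 1, 0, 3, 1, 2, 3, 1, 3], 653, 3),
  ([0, 3, 2, 1, 2, 3, 1, 0, 3, 3, 0, 3, 3, 0, 1, 4, 0, 2, 1, 3, 0, 2, 0, 2, 1, 3, 1, 3, 0], 657, 3),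
  ([2, 0, 3, 1, 1, 2, 3, 4, 1, 3, 1, 1, 4, 0, 1, 3, 3, 0, 3, 3, 0, 2, 2, 0, 0, 1, 3, 3, 1], 661, 2),
  ([4, 0, 3, 3, 3, 1, 2, 3, 1, 1, 3, 0, 3, 1, 0, 3, 3, 2, 0, 4, 0, 0, 3, 1, 1, 3, 0, 2, 1], 664, 2),
  ([2, 4, 3, 2, 1, 3, 2, 4, 0, 1, 3, 0, 1, 0, 3, 3, 1, 0, 2, 3, 3, 0, 2, 0, 3, 3, 0, 3, 1], 667, 2),
  ([2, 3, 1, 0, 3, 2, 3, 0, 3, 0, 3, 1, 1, 2, 0, 3, 0, 2, 1, 4, 0, 1, 2, 0, 3, 3, 3, 0, 2], 670, 2),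
  ([3, 4, 2, 3, 1, 2, 0, 0, 3, 2, 4, 1, 4, 2, 0, 0, 3, 3, 0, 1, 2, 3, 1, 3, 1, 3, 0, 1, 0], 673, 3),
  ([3, 0, 3, 2, 0, 1, 1, 1, 2, 4, 2, 1, 0, 3, 0, 3, 3, 0, 3, 1, 1, 3, 0, 2, 3, 0, 0, 3, 2], 677, 2),
  ([1, 3, 4, 1, 0, 1, 3, 3, 2, 4, 1, 3, 0, 3, 1, 0, 4, 2, 2, 3, 0, 0, 2, 1, 3, 1, 0, 1, 3], 680, 4),
  ([4, 2, 0, 3, 4, 3, 0, 1, 2, 1, 4, 1, 3, 0, 3, 1, 3, 1, 3, 0, 2, 0, 1, 3, 2, 0, 3, 2, 0], 685, 5),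
  ([1, 3, 1, 3, 0, 4, 1, 4, 2, 4, 1, 2, 1, 3, 0, 4, 3, 2, 0, 2, 0, 3, 1, 0, 2, 3, 0, 2, 2], 691, 3),
  ([1, 4, 3, 0, 3, 2, 4, 3, 0, 3, 1, 1, 0, 4, 1, 3, 3, 1, 0, 0, 2, 3, 0, 2, 2, 0, 3, 2, 1], 695, 3),
  ([0, 4, 2, 3, 4, 1, 3, 0, 3, 0, 4, 1, 2, 0, 3, 1, 2, 1, 0, 3, 3, 2, 0, 2, 1, 3, 0, 2, 0], 699, 5),
  ([2, 3, 0, 3, 2, 4, 2, 0, 4, 0, 1, 3, 3, 1, 0, 3, 4, 2, 2, 1, 0, 3, 2, 0, 0, 3, 1, 3, 1], 705, 3),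
  ([1, 4, 2, 3, 3, 0, 3, 0, 1, 4, 1, 3, 2, 4, 3, 2, 0, 0, 2, 1, 3, 3, 0, 0, 3, 1, 0, 3, 1], 709, 4),
  ([3, 0, 3, 3, 1, 3, 2, 3, 2, 0, 0, 4, 2, 1, 3, 1, 3, 0, 3, 0, 3, 1, 4, 0, 1, 3, 0, 3, 1], 714, 3),
  ([3, 2, 3, 1, 1, 0, 3, 4, 0, 3, 0, 2, 1, 2, 4, 0, 3, 3, 2, 0, 1, 0, 3, 3, 1, 0, 3, 3, 2], 718, 2),
  ([4, 2, 1, 3, 0, 4, 1, 3, 2, 4, 1, 3, 0, 3, 3, 2, 0, 3, 1, 4, 3, 0, 2, 0, 2, 0, 3, 0, 1], 721, 5),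
  ([3, 0, 1, 3, 0, 3, 0, 2, 4, 1, 4, 1, 3, 2, 0, 2, 3, 4, 3, 0, 1, 1, 0, 3, 1, 2, 1, 2, 3], 727, 2),
  ([4, 2, 1, 0, 1, 3, 4, 3, 3, 0, 2, 2, 1, 0, 3, 3, 0, 1, 4, 2, 1, 2, 3, 4, 0, 1, 3, 0, 1], 730, 2),
  ([1, 4, 3, 2, 1, 0, 4, 3, 2, 0, 1, 1, 3, 3, 1, 2, 4, 0, 4, 1, 2, 3, 1, 0, 0, 3, 0, 2, 3], 733, 4),
  ([3, 1, 4, 5, 2, 1, 4, 4, 5, 1, 2, 3, 4, 2, 3, 1, 3, 3, 4, 4, 1, 1, 0, 1, 3, 2, 4, 2, 4], 738, 2),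
  ([1, 4, 2, 4, 2, 4, 0, 1, 2, 0, 3, 3, 2, 3, 0, 1, 3, 0, 2, 3, 0, 2, 4, 0, 0, 3, 1, 3, 1], 741, 4),
  ([1, 3, 1, 3, 0, 4, 3, 3, 0, 0, 3, 2, 4, 0, 1, 1, 3, 2, 1, 2, 3, 4, 3, 0, 2, 0, 3, 1, 0], 746, 1),
  ([3, 2, 0, 1, 4, 4, 1, 2, 4, 2, 0, 3, 1, 0, 1, 4, 3, 2, 3, 0, 2, 2, 1, 3, 1, 1, 3, 0, 4], 748, 2),
  ([1, 0, 2, 3, 1, 1, 3, 3, 4, 0, 3, 2, 1, 3, 0, 3, 4, 3, 0, 0, 2, 1, 2, 4, 3, 1, 0, 1, 3], 751, 2),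
  ([4, 4, 0, 3, 0, 1, 3, 3, 1, 3, 3, 2, 1, 0, 4, 1, 3, 1, 0, 3, 2, 0, 3, 1, 2, 4, 0, 1, 0], 754, 4),
  ([0, 1, 3, 4, 1, 2, 3, 2, 0, 4, 0, 2, 3, 3, 1, 4, 0, 4, 2, 1, 2, 0, 1, 2, 0, 3, 0, 2, 3], 759, 5),
  ([4, 0, 3, 0, 2, 2, 3, 1, 4, 2, 0, 3, 1, 2, 3, 4, 1, 1, 3, 0, 3, 1, 0, 4, 1, 2, 3, 0, 3], 765, 4),
  ([1, 3, 3, 1, 4, 0, 4, 2, 1, 3, 0, 3, 4, 2, 4, 0, 1, 0, 1, 2, 3, 0, 3, 1, 1, 4, 1, 3, 1], 770, 4),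
  ([3, 1, 2, 2, 4, 1, 4, 0, 3, 3, 4, 1, 4, 2, 0, 0, 3, 1, 1, 3, 1, 4, 3, 2, 0, 0, 4, 1, 2], 775, 4),
  ([0, 0, 4, 1, 2, 3, 3, 1, 4, 4, 0, 3, 1, 4, 0, 3, 2, 2, 3, 1, 0, 0, 1, 1, 3, 2, 1, 0, 3], 780, 3),
  ([1, 0, 3, 3, 4, 2, 4, 0, 1, 0, 3, 0, 3, 2, 0, 1, 2, 2, 3, 0, 4, 2, 1, 0, 3, 3, 3, 1, 0], 784, 3),
  ([2, 0, 1, 2, 3, 3, 0, 3, 3, 0, 0, 3, 3, 1, 4, 0, 2, 3, 0, 1, 4, 1, 2, 0, 1, 3, 0, 3, 3], 788, 4),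
  ([3, 4, 2, 3, 0, 2, 4, 0, 2, 3, 4, 0, 3, 1, 3, 2, 0, 1, 0, 1, 4, 0, 2, 4, 1, 3, 2, 0, 0], 793, 4),
  ([0, 1, 4, 2, 3, 3, 4, 1, 0, 4, 2, 1, 2, 4, 4, 2, 1, 3, 0, 1, 2, 1, 3, 0, 3, 3, 0, 4, 1], 798, 4),
  ([2, 3, 1, 1, 3, 4, 2, 3, 0, 4, 4, 3, 0, 2, 0, 1, 3, 2, 3, 4, 0, 4, 2, 0, 3, 0, 1, 0, 3], 803, 4),
  ([1, 4, 2, 4, 3, 4, 1, 2, 4, 3, 0, 1, 4, 0, 3, 4, 2, 0, 2, 0, 2, 0, 1, 3, 1, 2, 3, 4, 0], 808, 4),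
  ([3, 0, 4, 1, 3, 4, 1, 3, 4, 2, 1, 3, 0, 2, 0, 3, 0, 2, 4, 4, 2, 0, 3, 1, 3, 0, 1, 0, 3], 813, 6),
  ([4, 1, 1, 4, 2, 4, 0, 4, 1, 2, 4, 0, 4, 1, 3, 0, 2, 1, 0, 4, 3, 1, 3, 1, 3, 3, 2, 0, 1], 820, 5),
  ([1, 3, 4, 3, 1, 2, 1, 1, 4, 1, 4, 0, 3, 0, 4, 3, 1, 1, 0, 0, 4, 2, 3, 0, 2, 3, 2, 4, 1], 826, 4),
  ([0, 2, 3, 1, 0, 2, 4, 3, 4, 0, 2, 4, 0, 1, 2, 0, 3, 1, 3, 0, 1, 3, 3, 0, 2, 4, 1, 2, 3], 831, 5),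
  ([5, 1, 2, 4, 3, 2, 1, 4, 0, 4, 1, 1, 2, 1, 3, 1, 4, 4, 0, 4, 2, 4, 0, 2, 2, 3, 2, 3, 0], 837, 4),
  ([4, 2, 1, 4, 4, 0, 1, 2, 2, 0, 4, 4, 1, 3, 3, 0, 2, 4, 0, 0, 3, 1, 1, 2, 1, 4, 0, 3, 2], 842, 6),
  ([0, 2, 4, 4, 4, 3, 1, 3, 0, 2, 4, 0, 1, 0, 4, 1, 2, 4, 1, 2, 3, 1, 0, 4, 2, 0, 1, 2, 3], 849, 5)]

theorem ct29_9_ok : Raw.runR 29 855 ct29_9 653 = true := by decide +kernel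

def ct29_10 : List (List Nat × Nat × Nat) := [
  ([1, 4, 4, 1, 1, 3, 4, 0, 1, 0, 2, 3, 0, 4, 2, 2, 3, 1, 0, 3, 3, 0, 2, 1, 0, 2, 4, 1, 4], 855, 5),
  ([1, 3, 1, 4, 2, 1, 3, 2, 4, 0, 4, 3, 3, 0, 1, 2, 0, 3, 0, 3, 0, 4, 2, 0, 3, 0, 1, 3, 4], 860, 7),
  ([4, 1, 1, 4, 1, 3, 3, 2, 0, 4, 0, 3, 0, 0, 3, 3, 2, 4, 1, 4, 2, 0, 1, 0, 4, 3, 3, 1, 2], 868, 4),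
  ([1, 4, 0, 2, 4, 0, 3, 4, 2, 1, 0, 3, 4, 3, 3, 0, 2, 0, 2, 2, 1, 3, 4, 4, 1, 0, 3, 0, 1], 873, 5),
  ([0, 4, 2, 3, 3, 4, 1, 3, 4, 0, 4, 2, 3, 1, 2, 1, 4, 0, 3, 2, 1, 0, 4, 0, 0, 2, 4, 0, 3], 879, 7),
  ([3, 1, 1, 4, 0, 3, 2, 4, 0, 2, 4, 1, 3, 2, 4, 0, 2, 3, 0, 4, 0, 1, 2, 4, 4, 1, 2, 0, 3], 887, 8),
  ([4, 1, 4, 1, 1, 2, 4, 1, 0, 3, 0, 4, 0, 3, 4, 1, 3, 3, 0, 4, 2, 2, 1, 4, 2, 2, 0, 2, 4], 896, 5),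
  ([3, 4, 3, 0, 1, 2, 0, 3, 3, 4, 2, 4, 0, 3, 2, 0, 1, 4, 1, 1, 4, 3, 0, 0, 4, 0, 3, 0, 1], 902, 7),
  ([0, 4, 3, 1, 4, 3, 1, 3, 3, 0, 4, 0, 1, 3, 2, 1, 4, 1, 3, 4, 0, 2, 0, 0, 4, 1, 3, 0, 3], 910, 8),
  ([4, 2, 3, 0, 3, 1, 4, 2, 3, 4, 1, 4, 3, 1, 0, 4, 0, 2, 4, 2, 1, 4, 1, 4, 1, 0, 0, 4, 0], 919, 7),
  ([4, 1, 1, 3, 3, 4, 0, 2, 3, 1, 4, 0, 4, 4, 1, 0, 2, 4, 4, 2, 0, 4, 1, 2, 1, 4, 0, 2, 0], 927, 7),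
  ([0, 3, 0, 1, 4, 2, 4, 2, 1, 3, 2, 4, 3, 0, 2, 4, 1, 1, 0, 4, 3, 4, 0, 4, 1, 1, 3, 0, 3], 935, 7),
  ([1, 4, 4, 2, 1, 0, 4, 4, 3, 0, 4, 0, 3, 1, 2, 1, 4, 3, 2, 0, 1, 3, 1, 4, 4, 1, 1, 4, 0], 943, 7),
  ([4, 4, 2, 1, 3, 3, 4, 1, 1, 4, 0, 1, 3, 3, 0, 3, 0, 4, 1, 0, 3, 4, 4, 0, 2, 0, 0, 1, 4], 951, 6),
  ([4, 2, 0, 3, 0, 4, 1, 4, 0, 3, 2, 4, 0, 4, 0, 2, 1, 3, 2, 1, 0, 4, 3, 3, 3, 0, 1, 4, 1], 958, 8),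
  ([4, 3, 0, 3, 4, 0, 2, 4, 5, 4, 0, 1, 1, 3, 4, 0, 2, 2, 4, 3, 1, 0, 3, 2, 4, 0, 1, 1, 0], 967, 7),
  ([1, 0, 4, 2, 5, 1, 4, 2, 0, 3, 1, 4, 4, 1, 0, 2, 3, 1, 3, 4, 0, 3, 4, 2, 3, 0, 1, 4, 2], 975, 9),
  ([1, 3, 3, 4, 1, 1, 4, 3, 2, 4, 0, 4, 1, 4, 0, 3, 4, 1, 0, 3, 4, 2, 1, 5, 2, 0, 0, 4, 1], 985, 6),
  ([2, 1, 3, 3, 4, 1, 4, 2, 3, 0, 4, 0, 1, 5, 0, 4, 0, 4, 0, 3, 1, 4, 1, 2, 4, 2, 3, 1, 0], 992, 7),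
  ([1, 2, 4, 1, 4, 1, 4, 4, 0, 0, 4, 4, 0, 1, 1, 3, 2, 4, 0, 0, 3, 1, 4, 2, 0, 1, 2, 3, 4], 1000, 8),
  ([5, 0, 1, 5, 2, 4, 1, 4, 1, 5, 2, 1, 2, 1, 3, 1, 1, 3, 4, 0, 4, 3, 2, 0, 4, 1, 3, 3, 0], 1009, 7),
  ([2, 4, 0, 4, 4, 1, 3, 2, 1, 5, 0, 1, 4, 3, 1, 0, 3, 2, 1, 4, 2, 4, 0, 4, 0, 4, 3, 2, 0], 1017, 10),
  ([3, 4, 0, 2, 4, 0, 1, 4, 1, 3, 0, 2, 4, 4, 3, 2, 1, 0, 4, 1, 3, 0, 4, 4, 1, 1, 0, 0, 4], 1028, 9),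
  ([4, 2, 1, 4, 1, 3, 2, 5, 0, 4, 1, 2, 1, 3, 4, 1, 0, 4, 0, 5, 1, 4, 2, 0, 4, 1, 2, 4, 1], 1038, 8),
  ([0, 4, 2, 1, 4, 1, 3, 4, 2, 4, 1, 0, 3, 0, 5, 2, 4, 0, 1, 2, 4, 0, 1, 2, 2, 3, 4, 0, 4], 1047, 10),
  ([4, 2, 0, 4, 2, 5, 3, 0, 4, 1, 3, 0, 4, 4, 2, 1, 1, 0, 0, 3, 2, 4, 2, 0, 1, 4, 0, 4, 3], 1058, 9),
  ([1, 5, 2, 1, 3, 4, 1, 1, 4, 0, 5, 1, 4, 0, 2, 4, 0, 3, 1, 2, 4, 2, 3, 0, 4, 0, 2, 3, 4], 1068, 11),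
  ([4, 0, 3, 5, 0, 2, 1, 4, 4, 1, 5, 2, 1, 0, 2, 3, 4, 0, 2, 4, 1, 4, 1, 3, 4, 4, 0, 1, 2], 1080, 9),
  ([0, 0, 3, 4, 5, 1, 2, 1, 4, 1, 3, 4, 1, 3, 4, 1, 4, 0, 0, 2, 4, 3, 1, 0, 3, 4, 2, 0, 4], 1090, 10),
  ([0, 1, 2, 4, 3, 0, 5, 2, 4, 4, 0, 3, 2, 1, 4, 4, 0, 2, 3, 0, 4, 0, 1, 3, 1, 4, 0, 4, 1], 1101, 11),
  ([1, 3, 0, 4, 0, 5, 2, 4, 0, 4, 3, 0, 2, 3, 4, 0, 1, 3, 1, 1, 4, 4, 1, 0, 4, 1, 4, 1, 3], 1113, 11),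
  ([0, 3, 1, 4, 2, 0, 5, 5, 3, 1, 4, 0, 1, 4, 0, 3, 2, 2, 0, 4, 0, 4, 4, 1, 1, 3, 2, 3, 0], 1125, 11),
  ([1, 1, 5, 2, 3, 5, 0, 4, 3, 4, 2, 1, 4, 0, 3, 1, 1, 4, 4, 2, 0, 5, 0, 3, 4, 2, 0, 1, 4], 1137, 12),
  ([4, 1, 4, 0, 2, 4, 5, 2, 4, 0, 3, 5, 0, 5, 2, 0, 4, 1, 4, 1, 2, 0, 4, 1, 3, 0, 2, 0, 2], 1150, 11),
  ([0, 4, 0, 1, 3, 2, 4, 1, 4, 1, 4, 1, 0, 3, 5, 1, 4, 0, 3, 4, 4, 2, 2, 0, 3, 0, 4, 1, 4], 1162, 11),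
  ([2, 5, 2, 5, 1, 4, 0, 5, 3, 4, 4, 1, 3, 2, 5, 1, 2, 0, 1, 4, 5, 0, 0, 4, 2, 3, 0, 4, 2], 1174, 12),
  ([2, 5, 3, 0, 3, 5, 5, 4, 0, 1, 2, 5, 1, 0, 3, 3, 1, 4, 0, 2, 4, 1, 3, 1, 4, 2, 5, 0, 1], 1187, 9),
  ([1, 5, 2, 1, 4, 5, 2, 2, 3, 0, 0, 5, 1, 4, 3, 4, 0, 1, 4, 0, 2, 0, 4, 4, 3, 0, 1, 4, 3], 1197, 12),
  ([1, 5, 1, 4, 1, 3, 0, 5, 1, 2, 4, 3, 0, 5, 3, 1, 3, 0, 4, 5, 1, 2, 2, 1, 4, 2, 5, 0, 3], 1210, 12),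
  ([5, 5, 0, 1, 4, 4, 2, 1, 5, 4, 0, 0, 4, 0, 3, 1, 5, 2, 1, 3, 4, 0, 3, 1, 3, 0, 4, 1, 2], 1222, 13),
  ([5, 0, 4, 0, 3, 1, 2, 4, 0, 3, 5, 1, 3, 3, 1, 2, 5, 4, 2, 0, 1, 5, 1, 4, 0, 4, 2, 4, 1], 1236, 11),
  ([4, 5, 0, 3, 4, 1, 1, 4, 3, 5, 2, 0, 0, 3, 5, 2, 2, 4, 4, 0, 1, 4, 3, 1, 5, 0, 1, 0, 4], 1248, 12),
  ([1, 3, 4, 1, 5, 1, 4, 0, 3, 2, 1, 5, 5, 2, 4, 0, 5, 0, 3, 4, 0, 2, 2, 4, 0, 5, 1, 1, 3], 1261, 14),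
  ([5, 0, 4, 3, 0, 0, 5, 2, 5, 1, 0, 2, 3, 1, 4, 1, 4, 2, 5, 4, 1, 1, 4, 0, 0, 3, 4, 2, 1], 1276, 12),
  ([0, 4, 3, 3, 2, 2, 3, 0, 5, 2, 4, 0, 1, 3, 5, 0, 4, 2, 1, 5, 0, 5, 1, 4, 1, 3, 4, 0, 4], 1289, 13)]

theorem ct29_10_ok : Raw.runR 29 1303 ct29_10 855 = true := by decide +kernel

def ct29_11 : List (List Nat × Nat × Nat) := [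
  ([4, 5, 1, 5, 0, 1, 5, 2, 4, 1, 1, 5, 5, 3, 0, 2, 1, 5, 0, 3, 2, 5, 4, 1, 3, 2, 4, 0, 1], 1302, 14),
  ([1, 5, 2, 0, 5, 2, 4, 3, 4, 2, 5, 1, 3, 5, 3, 0, 0, 2, 3, 5, 0, 4, 1, 0, 5, 4, 0, 1, 3], 1317, 14),
  ([1, 1, 1, 3, 4, 5, 2, 3, 0, 3, 4, 1, 5, 5, 0, 2, 4, 5, 2, 0, 3, 0, 1, 4, 4, 0, 2, 4, 5], 1331, 13),
  ([3, 5, 2, 5, 0, 5, 1, 5, 1, 5, 0, 1, 3, 1, 5, 4, 2, 4, 5, 2, 0, 4, 0, 1, 5, 1, 1, 3, 2], 1345, 13),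
  ([4, 0, 5, 3, 2, 0, 5, 0, 4, 1, 2, 5, 1, 1, 5, 0, 5, 2, 2, 4, 0, 4, 0, 2, 4, 1, 3, 4, 3], 1359, 13),
  ([2, 3, 5, 1, 5, 4, 0, 4, 2, 5, 1, 0, 3, 0, 5, 5, 3, 1, 2, 4, 0, 1, 0, 5, 2, 3, 5, 2, 0], 1373, 15),
  ([3, 5, 3, 5, 0, 3, 5, 0, 5, 2, 2, 5, 3, 1, 1, 4, 3, 5, 4, 0, 0, 5, 4, 1, 2, 1, 5, 0, 0], 1389, 14),
  ([5, 0, 5, 1, 0, 4, 1, 0, 5, 5, 3, 2, 1, 4, 4, 0, 3, 1, 2, 3, 5, 1, 0, 3, 5, 2, 1, 4, 0], 1404, 15),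
  ([0, 2, 4, 5, 5, 1, 2, 5, 0, 3, 3, 1, 5, 4, 4, 0, 1, 0, 5, 0, 5, 2, 2, 4, 0, 2, 0, 3, 4], 1420, 15),
  ([0, 1, 3, 4, 3, 2, 4, 1, 5, 5, 1, 1, 2, 5, 2, 5, 0, 4, 2, 0, 5, 3, 0, 4, 1, 5, 3, 0, 5], 1436, 16),
  ([3, 4, 5, 0, 4, 2, 2, 5, 3, 0, 5, 3, 0, 1, 1, 4, 5, 3, 1, 5, 3, 0, 5, 0, 0, 5, 2, 4, 0], 1453, 17),
  ([3, 3, 5, 1, 6, 2, 5, 0, 1, 4, 1, 0, 3, 5, 5, 1, 3, 4, 0, 4, 4, 0, 1, 1, 3, 0, 5, 2, 5], 1471, 15),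
  ([2, 3, 4, 1, 2, 0, 5, 5, 3, 0, 3, 1, 5, 1, 3, 5, 4, 1, 4, 2, 5, 0, 0, 5, 0, 1, 3, 5, 5], 1487, 16),
  ([0, 2, 5, 1, 1, 5, 0, 3, 4, 5, 1, 2, 5, 0, 3, 5, 0, 2, 1, 5, 3, 5, 4, 0, 3, 4, 0, 2, 4], 1504, 17),
  ([2, 3, 0, 4, 2, 5, 0, 5, 0, 4, 1, 1, 5, 4, 0, 5, 2, 4, 5, 3, 0, 1, 4, 0, 2, 1, 0, 4, 5], 1522, 18),
  ([5, 5, 2, 1, 5, 3, 5, 2, 0, 1, 1, 4, 5, 1, 3, 6, 1, 2, 3, 5, 0, 5, 0, 1, 5, 0, 5, 1, 3], 1541, 16),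
  ([5, 1, 3, 5, 3, 3, 1, 1, 5, 2, 0, 0, 6, 3, 5, 2, 5, 3, 0, 4, 4, 4, 0, 5, 1, 0, 0, 5, 1], 1558, 14),
  ([2, 3, 6, 2, 6, 4, 1, 1, 5, 0, 5, 5, 2, 0, 1, 4, 4, 0, 5, 2, 0, 3, 5, 0, 5, 1, 1, 4, 3], 1572, 19),
  ([0, 3, 5, 1, 5, 6, 1, 2, 1, 1, 5, 5, 4, 0, 3, 0, 4, 4, 0, 5, 5, 2, 1, 3, 0, 1, 5, 3, 4], 1592, 17),
  ([5, 3, 1, 6, 3, 0, 2, 0, 4, 5, 0, 5, 3, 1, 5, 1, 4, 5, 0, 6, 4, 3, 5, 1, 1, 4, 0, 2, 1], 1610, 16),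
  ([5, 1, 6, 1, 5, 4, 0, 5, 2, 3, 4, 0, 2, 4, 5, 0, 5, 1, 6, 0, 3, 0, 5, 1, 1, 2, 3, 3, 5], 1627, 18),
  ([2, 3, 4, 0, 4, 1, 5, 1, 5, 2, 2, 0, 0, 6, 5, 3, 5, 3, 1, 0, 1, 5, 2, 5, 4, 0, 5, 0, 4], 1646, 18),
  ([2, 4, 6, 0, 2, 4, 0, 5, 2, 0, 4, 2, 6, 3, 1, 5, 4, 1, 2, 5, 5, 0, 5, 2, 0, 5, 1, 4, 0], 1665, 20),
  ([3, 5, 0, 0, 6, 4, 1, 4, 1, 2, 2, 6, 5, 4, 3, 3, 1, 5, 1, 6, 0, 4, 2, 0, 5, 1, 0, 3, 5], 1686, 19),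
  ([4, 0, 2, 5, 4, 2, 3, 5, 0, 6, 3, 1, 2, 5, 0, 5, 0, 4, 5, 5, 0, 1, 0, 5, 5, 1, 2, 3, 5], 1705, 19),
  ([6, 5, 1, 1, 6, 2, 4, 1, 5, 0, 5, 1, 5, 1, 4, 4, 3, 0, 0, 5, 4, 6, 3, 0, 0, 5, 2, 1, 3], 1725, 20),
  ([5, 6, 0, 3, 2, 0, 5, 3, 1, 6, 4, 5, 1, 0, 2, 6, 0, 3, 2, 6, 5, 5, 1, 4, 2, 4, 0, 1, 3], 1746, 19),
  ([6, 4, 4, 0, 1, 2, 6, 3, 5, 4, 0, 1, 6, 2, 2, 4, 1, 6, 0, 5, 5, 1, 4, 4, 0, 5, 1, 4, 0], 1766, 22),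
  ([5, 2, 6, 0, 5, 1, 5, 1, 5, 2, 0, 1, 4, 3, 0, 6, 1, 3, 2, 3, 5, 5, 0, 6, 5, 0, 4, 1, 2], 1789, 20),
  ([6, 2, 4, 0, 6, 2, 0, 3, 1, 6, 4, 5, 3, 5, 0, 1, 4, 6, 0, 3, 4, 2, 1, 1, 4, 0, 5, 0, 5], 1809, 23),
  ([2, 6, 6, 1, 1, 5, 1, 4, 6, 1, 2, 6, 3, 6, 2, 0, 5, 3, 0, 1, 5, 6, 4, 3, 0, 4, 1, 4, 0], 1832, 24),
  ([4, 5, 1, 5, 0, 3, 6, 1, 2, 4, 3, 5, 0, 6, 5, 4, 2, 0, 4, 6, 0, 5, 0, 1, 6, 1, 0, 2, 4], 1857, 23),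
  ([5, 6, 1, 3, 6, 5, 1, 5, 3, 4, 1, 3, 6, 0, 3, 5, 1, 6, 1, 0, 6, 2, 6, 5, 0, 1, 4, 0, 1], 1881, 25),
  ([3, 2, 1, 6, 0, 4, 1, 5, 1, 6, 1, 6, 3, 0, 5, 6, 6, 2, 1, 4, 0, 0, 5, 3, 2, 3, 4, 2, 6], 1907, 22),
  ([4, 3, 0, 5, 2, 6, 1, 5, 0, 0, 5, 6, 2, 4, 1, 0, 4, 2, 6, 5, 5, 3, 0, 0, 6, 3, 1, 2, 5], 1930, 23),
  ([1, 5, 0, 6, 5, 2, 6, 0, 4, 1, 5, 3, 6, 2, 0, 1, 4, 2, 6, 5, 1, 5, 1, 0, 3, 0, 3, 4, 6], 1954, 26),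
  ([2, 4, 4, 1, 2, 1, 6, 3, 6, 0, 1, 4, 0, 6, 4, 0, 6, 0, 5, 6, 0, 3, 5, 2, 5, 1, 4, 1, 5], 1981, 25),
  ([6, 1, 5, 3, 6, 0, 6, 2, 0, 5, 7, 3, 4, 6, 2, 0, 3, 1, 6, 5, 1, 3, 1, 4, 2, 6, 5, 1, 0], 2007, 26),
  ([6, 1, 5, 4, 6, 1, 1, 0, 4, 4, 6, 2, 6, 0, 1, 4, 3, 6, 6, 1, 0, 5, 2, 0, 3, 6, 1, 1, 5], 2033, 27),
  ([4, 2, 6, 6, 0, 5, 5, 1, 1, 3, 4, 4, 0, 6, 6, 1, 0, 2, 0, 6, 6, 1, 2, 5, 3, 4, 6, 0, 1], 2061, 26),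
  ([1, 7, 1, 4, 6, 2, 5, 0, 5, 1, 6, 0, 1, 3, 6, 2, 4, 5, 1, 0, 6, 0, 4, 0, 0, 3, 2, 5, 4], 2088, 29),
  ([6, 6, 0, 4, 2, 6, 4, 6, 2, 6, 1, 0, 4, 2, 6, 5, 0, 5, 1, 0, 6, 4, 2, 6, 0, 4, 1, 1, 0], 2118, 29),
  ([2, 7, 5, 0, 3, 2, 6, 5, 6, 4, 1, 1, 6, 6, 0, 4, 3, 5, 1, 2, 5, 0, 5, 0, 0, 6, 6, 2, 1], 2148, 28),
  ([2, 5, 3, 6, 0, 7, 6, 1, 0, 5, 6, 4, 3, 6, 1, 0, 4, 5, 6, 1, 1, 2, 2, 0, 6, 3, 2, 0, 6], 2176, 28),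
  ([1, 3, 6, 0, 1, 5, 6, 0, 3, 0, 7, 4, 3, 5, 1, 5, 1, 6, 4, 1, 0, 5, 3, 6, 0, 6, 3, 5, 2], 2205, 30)]

theorem ct29_11_ok : Raw.runR 29 2236 ct29_11 1303 = true := by decide +kernel

end Pool.Agent.Wil
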