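import Pool.Agent.Wil.Raw

set_option autoImplicit false
set_option maxRecDepth 100000

/-! Explicit cores (runner heights, size, window), p = 31, degrees 124 to 289. -/

namespace Pool.Agent.Wil

def ct31_0 : List (List Nat × Nat × Nat) := [
  ([0, 2, 1, 1, 0, 2, 1, 0, 1, 0, 1, 1, 0, 1, 0, 1, 0, 1, 0, 1, 0, 1, 0, 1, 0, 0, 1, 0, 0, 1, 0], 124, 0),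
  ([1, 2, 1, 2, 0, 1, 0, 1, 2, 0, 1, 1, 0, 1, 0, 1, 0, 1, 0, 1, 0, 1, 0, 0, 1, 0, 1, 0, 1, 0, 0], 125, 0),
  ([0, 2, 1, 0, 1, 2, 0, 1, 1, 0, 1, 1, 0, 1, 0, 1, 0, 1, 0, 1, 0, 1, 0, 1, 0, 0, 1, 0, 0, 1, 0], 126, 0),
  ([1, 0, 1, 1, 2, 0, 1, 1, 0, 2, 1, 0, 1, 1, 0, 1, 1, 0, 0, 1, 0, 1, 0, 1, 0, 1, 0, 1, 0, 0, 1], 127, 0),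
  ([2, 1, 0, 2, 1, 0, 2, 1, 0, 1, 1, 1, 0, 1, 0, 1, 0, 0, 1, 1, 0, 0, 1, 0, 1, 0, 1, 0, 1, 0, 0], 128, 0),
  ([0, 1, 2, 1, 0, 1, 2, 0, 1, 1, 0, 1, 0, 1, 1, 0, 1, 0, 1, 0, 1, 0, 1, 0, 0, 1, 0, 1, 0, 0, 1], 129, 0),
  ([0, 1, 2, 1, 0, 1, 2, 0, 1, 1, 0, 1, 0, 1, 0, 1, 1, 0, 1, 0, 1, 0, 1, 0, 0, 1, 0, 1, 0, 0, 1], 130, 0),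
  ([0, 1, 2, 1, 0, 1, 2, 0, 1, 1, 0, 1, 0, 1, 0, 1, 1, 0, 1, 0, 1, 0, 0, 1, 0, 1, 0, 1, 0, 0, 1], 131, 0),
  ([0, 1, 2, 1, 0, 1, 2, 0, 1, 0, 1, 1, 0, 1, 0, 1, 1, 0, 1, 0, 1, 0, 0, 1, 0, 1, 0, 1, 0, 0, 1], 132, 0),
  ([0, 2, 1, 1, 2, 0, 1, 2, 0, 1, 1, 0, 1, 0, 1, 1, 0, 1, 0, 1, 0, 1, 0, 1, 0, 0, 1, 0, 0, 1, 0], 133, 0),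
  ([0, 1, 2, 0, 1, 1, 0, 2, 1, 0, 1, 1, 0, 1, 0, 1, 1, 0, 1, 0, 1, 0, 1, 0, 0, 1, 0, 1, 0, 0, 1], 134, 0),
  ([0, 2, 1, 1, 2, 0, 1, 2, 0, 1, 1, 0, 1, 0, 1, 0, 1, 1, 0, 1, 0, 1, 0, 0, 1, 0, 1, 0, 0, 1, 0], 135, 0),
  ([0, 1, 1, 2, 0, 1, 2, 0, 1, 1, 0, 1, 0, 1, 0, 1, 0, 1, 0, 1, 0, 1, 0, 1, 0, 1, 0, 0, 1, 0, 1], 136, 0),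
  ([1, 1, 2, 1, 2, 0, 1, 1, 0, 2, 1, 0, 1, 2, 0, 1, 1, 0, 1, 1, 0, 1, 0, 1, 0, 1, 0, 1, 0, 0, 1], 137, 0),
  ([0, 1, 2, 0, 1, 1, 0, 2, 1, 0, 1, 1, 0, 1, 0, 1, 0, 1, 0, 1, 0, 1, 0, 1, 0, 1, 0, 1, 0, 0, 1], 138, 0),
  ([0, 1, 2, 0, 1, 1, 0, 2, 1, 0, 1, 1, 0, 1, 0, 1, 0, 1, 0, 1, 0, 1, 0, 1, 0, 1, 0, 0, 1, 0, 1], 139, 0),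
  ([0, 2, 1, 1, 2, 0, 1, 1, 0, 2, 1, 0, 1, 1, 0, 1, 0, 1, 0, 1, 0, 1, 0, 1, 0, 1, 0, 1, 0, 1, 0], 140, 0),
  ([0, 2, 1, 2, 0, 1, 1, 0, 2, 1, 0, 1, 1, 0, 1, 0, 1, 0, 1, 0, 1, 0, 1, 0, 1, 0, 1, 0, 0, 1, 0], 141, 0),
  ([0, 2, 1, 2, 0, 1, 1, 0, 2, 1, 0, 1, 0, 1, 1, 0, 1, 0, 1, 0, 1, 0, 1, 0, 1, 0, 1, 0, 0, 1, 0], 142, 0),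
  ([0, 2, 1, 0, 2, 1, 1, 0, 2, 1, 0, 1, 1, 0, 1, 0, 1, 0, 1, 0, 1, 0, 1, 0, 1, 0, 1, 0, 0, 1, 0], 143, 0),
  ([0, 1, 2, 1, 0, 2, 1, 1, 0, 2, 1, 0, 1, 1, 0, 1, 0, 1, 0, 1, 0, 1, 0, 1, 0, 1, 0, 1, 0, 0, 1], 144, 0),
  ([0, 1, 2, 1, 0, 2, 1, 1, 0, 2, 1, 0, 1, 0, 1, 1, 0, 1, 0, 1, 0, 1, 0, 1, 0, 1, 0, 1, 0, 0, 1], 145, 0),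
  ([0, 2, 1, 1, 0, 2, 1, 0, 1, 2, 0, 1, 0, 1, 1, 0, 1, 0, 1, 0, 1, 0, 1, 0, 1, 0, 0, 1, 0, 1, 0], 146, 0),
  ([0, 1, 2, 1, 1, 0, 2, 1, 0, 1, 2, 0, 1, 0, 1, 1, 0, 1, 0, 1, 0, 1, 0, 1, 0, 1, 0, 0, 1, 0, 1], 147, 0),
  ([0, 1, 2, 1, 0, 1, 2, 1, 0, 1, 2, 0, 1, 0, 1, 1, 0, 1, 0, 1, 0, 1, 0, 1, 0, 1, 0, 0, 1, 0, 1], 148, 0),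
  ([0, 1, 2, 1, 0, 2, 1, 0, 1, 2, 0, 1, 0, 1, 1, 0, 1, 0, 1, 0, 1, 0, 1, 0, 0, 1, 0, 1, 0, 0, 1], 149, 0),
  ([0, 1, 2, 1, 0, 2, 1, 0, 1, 2, 0, 1, 0, 1, 0, 1, 1, 0, 1, 0, 1, 0, 1, 0, 0, 1, 0, 1, 0, 0, 1], 150, 0),
  ([0, 1, 2, 1, 0, 1, 2, 0, 1, 2, 0, 1, 1, 0, 1, 0, 1, 1, 0, 1, 0, 1, 0, 1, 0, 0, 1, 0, 1, 0, 1], 151, 0),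
  ([0, 2, 1, 1, 2, 0, 1, 2, 1, 0, 1, 2, 0, 1, 0, 1, 1, 0, 1, 0, 1, 0, 1, 0, 1, 0, 0, 1, 0, 1, 0], 152, 0),
  ([0, 2, 1, 1, 2, 0, 1, 2, 0, 1, 2, 0, 1, 1, 0, 1, 0, 1, 1, 0, 1, 0, 1, 0, 1, 0, 1, 0, 0, 1, 0], 153, 0)]

theorem ct31_0_ok : Raw.runR 31 154 ct31_0 124 = true := by decide +kernel

def ct31_1 : List (List Nat × Nat × Nat) := [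
  ([0, 2, 1, 1, 2, 0, 1, 2, 0, 1, 1, 0, 2, 1, 0, 1, 0, 1, 1, 0, 1, 0, 1, 0, 1, 0, 1, 0, 0, 1, 0], 155, 0),
  ([2, 1, 1, 2, 1, 0, 1, 2, 0, 2, 1, 0, 1, 2, 0, 1, 0, 1, 1, 0, 0, 1, 0, 1, 0, 0, 1, 0, 1, 0, 1], 156, 0),
  ([1, 2, 0, 2, 0, 2, 1, 0, 2, 1, 0, 1, 1, 0, 1, 0, 1, 0, 1, 0, 1, 0, 0, 1, 1, 0, 0, 1, 0, 1, 0], 157, 0),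
  ([1, 1, 2, 1, 2, 0, 1, 2, 0, 2, 1, 1, 0, 2, 0, 1, 0, 1, 0, 1, 0, 1, 1, 1, 0, 0, 0, 1, 1, 0, 1], 158, 0),
  ([2, 3, 1, 2, 3, 1, 2, 1, 3, 2, 2, 1, 2, 2, 1, 2, 1, 2, 1, 2, 1, 2, 1, 1, 2, 2, 2, 1, 1, 2, 0], 159, 0),
  ([0, 2, 0, 1, 2, 0, 1, 1, 1, 0, 2, 1, 0, 1, 0, 1, 1, 0, 0, 1, 0, 1, 0, 0, 1, 0, 1, 0, 1, 0, 1], 160, 0),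
  ([0, 2, 1, 1, 2, 0, 1, 2, 0, 1, 1, 0, 2, 0, 1, 1, 0, 1, 0, 1, 0, 1, 0, 1, 0, 1, 0, 1, 0, 1, 0], 161, 0),
  ([2, 0, 2, 1, 2, 1, 0, 1, 2, 0, 1, 0, 1, 1, 0, 2, 1, 0, 1, 1, 0, 0, 1, 0, 1, 1, 0, 0, 1, 0, 0], 162, 0),
  ([1, 2, 0, 1, 2, 1, 1, 0, 2, 1, 1, 2, 0, 1, 0, 2, 0, 1, 0, 1, 0, 1, 1, 1, 0, 1, 0, 1, 0, 0, 1], 163, 0),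
  ([1, 1, 2, 1, 2, 1, 2, 1, 1, 2, 1, 2, 0, 1, 2, 2, 1, 0, 1, 2, 0, 1, 0, 2, 0, 1, 1, 0, 1, 1, 1], 164, 0),
  ([1, 0, 1, 2, 0, 2, 1, 0, 2, 1, 0, 1, 2, 0, 1, 1, 0, 1, 1, 0, 1, 0, 0, 1, 0, 1, 1, 0, 0, 0, 1], 165, 0),
  ([2, 2, 1, 1, 2, 1, 1, 2, 1, 2, 0, 1, 0, 2, 1, 0, 2, 1, 1, 0, 2, 0, 1, 0, 1, 0, 1, 0, 1, 0, 0], 166, 0),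
  ([0, 2, 1, 1, 0, 2, 1, 0, 2, 1, 0, 1, 2, 0, 1, 1, 0, 1, 0, 1, 0, 1, 0, 1, 0, 1, 0, 1, 0, 0, 1], 167, 0),
  ([0, 1, 2, 1, 0, 2, 1, 0, 2, 1, 0, 1, 2, 0, 1, 1, 0, 1, 0, 1, 0, 1, 0, 1, 0, 1, 0, 1, 0, 0, 1], 168, 0),
  ([0, 1, 2, 1, 0, 2, 1, 0, 2, 1, 0, 1, 2, 0, 1, 1, 0, 1, 0, 1, 0, 1, 0, 1, 0, 1, 0, 0, 1, 0, 1], 169, 0),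
  ([1, 2, 1, 2, 0, 2, 1, 2, 1, 0, 2, 1, 1, 2, 0, 1, 1, 0, 2, 1, 0, 0, 1, 0, 1, 0, 1, 1, 0, 1, 0], 170, 0),
  ([0, 1, 2, 1, 0, 2, 1, 0, 2, 1, 0, 1, 2, 0, 1, 0, 1, 0, 1, 1, 0, 1, 0, 1, 0, 1, 0, 0, 1, 0, 1], 171, 0),
  ([0, 1, 2, 1, 0, 2, 1, 0, 2, 1, 0, 1, 2, 0, 1, 0, 1, 0, 1, 1, 0, 1, 0, 1, 0, 0, 1, 0, 1, 0, 1], 172, 0),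
  ([0, 1, 2, 1, 0, 2, 1, 0, 2, 1, 0, 1, 2, 0, 1, 0, 1, 0, 1, 0, 1, 1, 0, 1, 0, 0, 1, 0, 1, 0, 1], 173, 0),
  ([0, 1, 2, 1, 0, 2, 1, 0, 2, 1, 0, 1, 2, 0, 1, 0, 1, 0, 1, 0, 1, 1, 0, 0, 1, 0, 1, 0, 1, 0, 1], 174, 0),
  ([2, 0, 1, 2, 1, 2, 1, 0, 1, 2, 1, 1, 0, 2, 0, 2, 0, 1, 0, 1, 1, 0, 1, 0, 1, 0, 0, 1, 0, 1, 0], 175, 0),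
  ([1, 2, 1, 0, 1, 2, 1, 0, 2, 1, 0, 2, 1, 0, 0, 1, 2, 0, 1, 0, 1, 0, 1, 0, 1, 1, 0, 0, 1, 0, 1], 176, 0),
  ([3, 2, 1, 2, 3, 1, 2, 3, 2, 1, 2, 3, 1, 2, 1, 2, 1, 2, 1, 2, 1, 2, 2, 1, 2, 1, 1, 1, 2, 0, 2], 177, 0),
  ([0, 2, 1, 2, 0, 1, 2, 1, 0, 2, 1, 0, 1, 2, 0, 1, 0, 1, 0, 1, 0, 1, 0, 1, 0, 1, 0, 1, 0, 1, 0], 178, 0),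
  ([0, 2, 1, 2, 1, 0, 2, 1, 0, 2, 1, 0, 1, 0, 2, 1, 0, 1, 0, 1, 0, 1, 0, 1, 0, 1, 0, 1, 0, 1, 0], 179, 0),
  ([0, 2, 1, 2, 0, 1, 2, 1, 0, 2, 1, 0, 1, 0, 2, 1, 0, 1, 0, 1, 0, 1, 0, 1, 0, 1, 0, 1, 0, 1, 0], 180, 0),
  ([0, 2, 1, 2, 0, 1, 2, 1, 0, 1, 2, 0, 1, 0, 2, 1, 0, 1, 0, 1, 0, 1, 0, 1, 0, 1, 0, 1, 0, 1, 0], 181, 0),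
  ([0, 2, 1, 1, 2, 0, 1, 2, 0, 1, 2, 0, 1, 0, 2, 1, 0, 1, 0, 1, 0, 1, 0, 1, 0, 1, 0, 1, 0, 1, 0], 182, 0),
  ([0, 2, 1, 1, 2, 0, 1, 2, 0, 1, 2, 0, 1, 0, 2, 1, 0, 1, 0, 1, 0, 1, 0, 1, 0, 1, 0, 1, 0, 0, 1], 183, 0),
  ([0, 1, 2, 1, 2, 0, 1, 2, 0, 1, 2, 0, 1, 1, 0, 2, 0, 1, 1, 0, 1, 0, 1, 0, 1, 0, 1, 0, 1, 0, 1], 184, 0),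
  ([2, 1, 2, 1, 2, 0, 1, 2, 0, 2, 0, 1, 1, 0, 1, 2, 0, 2, 1, 0, 1, 0, 1, 0, 1, 0, 1, 0, 1, 0, 0], 185, 0),
  ([3, 2, 3, 2, 2, 3, 1, 2, 2, 3, 1, 3, 2, 1, 2, 1, 3, 1, 1, 2, 1, 2, 2, 2, 1, 1, 2, 1, 2, 0, 1], 186, 0),
  ([2, 1, 2, 1, 2, 1, 1, 2, 1, 2, 0, 2, 1, 1, 1, 2, 0, 2, 0, 1, 0, 1, 2, 1, 0, 2, 1, 0, 0, 0, 1], 187, 0),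
  ([1, 2, 0, 1, 2, 1, 2, 0, 1, 0, 2, 1, 0, 1, 1, 2, 2, 0, 1, 0, 0, 1, 0, 1, 0, 1, 0, 1, 0, 0, 1], 188, 0),
  ([0, 1, 2, 1, 2, 1, 2, 0, 2, 0, 1, 2, 1, 0, 1, 0, 1, 1, 0, 1, 2, 0, 0, 1, 0, 1, 0, 1, 0, 1, 0], 189, 0),
  ([1, 2, 1, 1, 2, 0, 2, 0, 2, 1, 2, 1, 0, 1, 2, 0, 2, 0, 1, 0, 0, 1, 1, 0, 1, 1, 0, 0, 1, 0, 1], 190, 0),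
  ([2, 2, 1, 1, 2, 1, 1, 2, 0, 1, 2, 1, 2, 0, 1, 2, 0, 1, 0, 2, 0, 2, 0, 1, 1, 0, 0, 1, 1, 0, 0], 191, 0),
  ([0, 1, 2, 1, 1, 2, 0, 1, 0, 2, 0, 1, 2, 1, 0, 2, 0, 0, 1, 0, 1, 1, 1, 0, 0, 0, 1, 0, 1, 0, 1], 192, 0),
  ([1, 1, 2, 1, 2, 1, 1, 0, 2, 1, 0, 2, 2, 0, 1, 0, 1, 2, 0, 2, 0, 1, 1, 0, 0, 1, 0, 1, 0, 1, 1], 193, 0),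
  ([2, 1, 1, 2, 1, 0, 1, 2, 0, 2, 1, 1, 0, 1, 2, 0, 1, 1, 2, 0, 1, 0, 2, 0, 0, 1, 1, 0, 1, 0, 1], 194, 0),
  ([2, 1, 0, 2, 1, 0, 2, 1, 2, 1, 0, 1, 2, 0, 2, 1, 0, 2, 1, 0, 1, 1, 0, 0, 1, 1, 0, 0, 1, 0, 0], 195, 0),
  ([2, 1, 0, 2, 2, 1, 0, 1, 2, 1, 0, 2, 1, 2, 0, 1, 1, 0, 0, 1, 0, 2, 1, 1, 0, 1, 0, 1, 0, 1, 0], 196, 0),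
  ([1, 2, 2, 1, 2, 0, 1, 1, 2, 0, 1, 2, 0, 2, 1, 1, 1, 0, 2, 0, 1, 0, 1, 1, 0, 2, 1, 0, 1, 0, 1], 197, 0),
  ([2, 0, 1, 2, 1, 0, 2, 2, 0, 0, 1, 2, 1, 0, 0, 1, 2, 0, 1, 1, 0, 1, 0, 0, 1, 0, 1, 0, 1, 0, 0], 198, 0),
  ([1, 2, 1, 2, 1, 2, 2, 0, 1, 1, 0, 2, 1, 1, 2, 0, 2, 0, 1, 2, 1, 0, 2, 0, 1, 0, 1, 1, 0, 1, 1], 199, 0)]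

theorem ct31_1_ok : Raw.runR 31 200 ct31_1 155 = true := by decide +kernel

def ct31_2 : List (List Nat × Nat × Nat) := [
  ([1, 2, 1, 0, 2, 0, 2, 1, 1, 2, 0, 1, 0, 2, 0, 0, 1, 2, 1, 0, 0, 1, 1, 0, 1, 0, 0, 1, 1, 0, 1], 200, 0),
  ([1, 1, 2, 1, 0, 2, 2, 0, 1, 1, 2, 0, 2, 0, 1, 2, 1, 0, 1, 0, 1, 2, 0, 1, 1, 0, 0, 1, 0, 0, 1], 201, 0),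
  ([2, 1, 1, 1, 2, 1, 0, 2, 0, 2, 1, 2, 0, 1, 1, 1, 2, 0, 1, 2, 0, 1, 0, 1, 2, 0, 1, 0, 1, 0, 1], 202, 0),
  ([2, 0, 1, 1, 2, 2, 0, 1, 2, 1, 0, 2, 0, 1, 1, 2, 0, 0, 1, 2, 1, 0, 1, 1, 0, 1, 0, 0, 1, 1, 0], 203, 0),
  ([1, 1, 2, 1, 2, 1, 2, 1, 0, 0, 2, 1, 1, 2, 0, 1, 2, 0, 1, 2, 0, 1, 0, 0, 2, 1, 0, 1, 1, 0, 1], 204, 0),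
  ([1, 2, 1, 2, 2, 0, 1, 2, 1, 1, 1, 2, 0, 2, 0, 1, 2, 1, 0, 1, 2, 0, 1, 0, 1, 2, 0, 0, 0, 1, 1], 205, 0),
  ([1, 2, 0, 1, 2, 1, 2, 2, 0, 0, 1, 2, 1, 0, 1, 1, 2, 0, 0, 1, 0, 2, 1, 0, 1, 0, 1, 0, 1, 0, 1], 206, 0),
  ([1, 2, 2, 0, 1, 2, 1, 2, 1, 1, 0, 2, 0, 2, 0, 2, 1, 0, 1, 0, 1, 2, 0, 1, 0, 1, 0, 1, 0, 1, 1], 207, 0),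
  ([0, 1, 2, 1, 0, 2, 1, 2, 0, 1, 2, 0, 1, 2, 0, 1, 0, 2, 1, 0, 1, 0, 1, 0, 1, 0, 1, 0, 1, 0, 1], 208, 0),
  ([1, 2, 0, 1, 2, 1, 2, 0, 1, 2, 1, 2, 1, 0, 2, 1, 1, 0, 2, 0, 0, 2, 0, 1, 1, 0, 1, 1, 0, 0, 1], 209, 0),
  ([1, 2, 0, 1, 2, 1, 2, 0, 2, 1, 1, 0, 0, 2, 1, 2, 0, 0, 1, 1, 2, 0, 0, 1, 0, 1, 1, 0, 1, 0, 1], 210, 0),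
  ([2, 1, 2, 0, 2, 1, 1, 1, 2, 0, 2, 0, 2, 0, 0, 1, 2, 1, 0, 1, 2, 0, 1, 0, 1, 0, 1, 0, 1, 0, 0], 211, 0),
  ([2, 1, 2, 1, 2, 0, 2, 1, 2, 0, 1, 0, 1, 2, 1, 0, 2, 1, 0, 2, 0, 1, 2, 0, 1, 1, 1, 0, 1, 0, 0], 212, 0),
  ([1, 2, 1, 2, 1, 2, 1, 0, 2, 2, 1, 0, 1, 2, 0, 1, 1, 2, 0, 0, 1, 1, 0, 2, 0, 1, 2, 0, 1, 0, 1], 213, 0),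
  ([1, 2, 0, 2, 0, 2, 1, 1, 0, 2, 1, 2, 0, 1, 0, 1, 2, 0, 1, 1, 2, 0, 0, 1, 0, 1, 1, 0, 0, 0, 1], 214, 0),
  ([2, 1, 2, 0, 1, 0, 2, 1, 0, 2, 1, 2, 0, 1, 0, 2, 0, 1, 0, 1, 2, 0, 1, 1, 0, 1, 0, 1, 0, 1, 0], 215, 0),
  ([1, 0, 2, 1, 2, 0, 1, 1, 2, 2, 0, 1, 1, 2, 0, 1, 0, 2, 0, 1, 1, 0, 2, 1, 0, 0, 1, 0, 1, 0, 1], 216, 0),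
  ([1, 2, 0, 1, 2, 2, 1, 0, 1, 2, 2, 0, 1, 2, 0, 0, 1, 2, 1, 0, 1, 2, 0, 0, 1, 1, 1, 1, 0, 0, 1], 217, 0),
  ([1, 2, 0, 1, 1, 2, 2, 0, 2, 1, 2, 0, 1, 2, 0, 0, 1, 2, 1, 1, 0, 1, 0, 1, 2, 0, 1, 1, 0, 0, 1], 218, 0),
  ([1, 1, 2, 1, 2, 1, 0, 1, 1, 2, 2, 0, 2, 1, 0, 1, 2, 0, 2, 1, 2, 0, 1, 0, 1, 0, 2, 1, 1, 0, 1], 219, 0),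
  ([2, 2, 1, 2, 0, 1, 2, 1, 0, 1, 2, 0, 2, 0, 1, 1, 1, 2, 0, 1, 2, 0, 2, 1, 0, 0, 1, 0, 0, 1, 0], 220, 0),
  ([1, 2, 1, 2, 0, 2, 0, 2, 1, 0, 2, 2, 1, 1, 0, 0, 1, 2, 1, 0, 2, 0, 0, 1, 0, 1, 0, 1, 0, 1, 1], 221, 0),
  ([1, 3, 2, 2, 1, 3, 1, 2, 2, 3, 3, 1, 1, 2, 1, 2, 1, 2, 3, 1, 2, 2, 1, 1, 2, 1, 0, 2, 1, 2, 1], 222, 0),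
  ([1, 1, 2, 1, 2, 1, 2, 1, 2, 0, 2, 1, 2, 0, 0, 2, 1, 1, 2, 0, 1, 0, 1, 0, 0, 2, 1, 2, 0, 1, 1], 223, 0),
  ([1, 2, 1, 2, 0, 1, 2, 1, 2, 0, 1, 0, 1, 2, 2, 1, 0, 2, 1, 0, 2, 1, 2, 0, 0, 1, 0, 1, 0, 0, 1], 224, 0),
  ([2, 1, 1, 2, 1, 0, 2, 1, 2, 0, 2, 1, 0, 0, 2, 2, 1, 1, 1, 0, 2, 0, 0, 1, 2, 0, 1, 1, 0, 1, 0], 225, 0),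
  ([2, 0, 1, 1, 2, 1, 2, 1, 2, 0, 1, 2, 1, 0, 2, 2, 0, 0, 2, 1, 0, 2, 0, 1, 1, 0, 1, 1, 0, 0, 1], 226, 0),
  ([2, 0, 2, 1, 1, 2, 0, 2, 0, 2, 2, 1, 1, 2, 0, 1, 0, 1, 1, 2, 0, 1, 2, 0, 1, 0, 0, 1, 1, 0, 0], 227, 0),
  ([1, 1, 2, 2, 2, 0, 1, 1, 2, 0, 2, 1, 1, 1, 2, 0, 1, 2, 0, 2, 0, 1, 1, 2, 0, 1, 0, 2, 1, 0, 1], 228, 0),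
  ([1, 2, 1, 2, 2, 0, 1, 2, 1, 1, 0, 2, 1, 2, 0, 2, 0, 2, 2, 1, 0, 1, 0, 1, 0, 1, 0, 2, 1, 0, 1], 229, 0),
  ([2, 1, 2, 2, 1, 1, 2, 1, 2, 1, 2, 0, 1, 0, 2, 1, 0, 2, 1, 1, 2, 1, 0, 2, 0, 2, 0, 0, 2, 0, 1], 230, 0),
  ([2, 1, 2, 1, 2, 2, 1, 0, 1, 2, 0, 2, 0, 2, 0, 1, 1, 2, 1, 0, 0, 2, 1, 0, 1, 1, 0, 2, 0, 0, 1], 231, 0),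
  ([1, 2, 2, 1, 0, 2, 2, 1, 2, 0, 2, 2, 1, 0, 1, 2, 1, 0, 1, 2, 1, 0, 2, 1, 0, 0, 2, 1, 0, 1, 0], 232, 0),
  ([2, 0, 2, 2, 0, 1, 0, 2, 1, 2, 1, 0, 2, 1, 2, 0, 0, 1, 1, 0, 1, 0, 0, 2, 1, 0, 0, 1, 1, 0, 0], 233, 0),
  ([2, 0, 1, 1, 1, 2, 0, 0, 2, 1, 0, 2, 0, 2, 1, 0, 1, 2, 1, 0, 1, 0, 2, 1, 0, 1, 0, 1, 0, 1, 0], 234, 0),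
  ([1, 1, 2, 1, 2, 0, 1, 2, 2, 1, 2, 0, 0, 2, 1, 1, 2, 0, 1, 2, 0, 1, 1, 2, 0, 2, 0, 0, 1, 0, 1], 235, 0),
  ([0, 1, 2, 1, 2, 0, 2, 1, 1, 0, 0, 2, 2, 1, 0, 0, 1, 2, 0, 1, 2, 0, 0, 1, 1, 0, 0, 1, 0, 1, 1], 236, 0),
  ([2, 2, 1, 0, 2, 1, 2, 1, 2, 2, 0, 2, 1, 0, 1, 2, 1, 2, 0, 0, 1, 2, 0, 0, 1, 1, 0, 2, 0, 1, 0], 237, 0),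
  ([0, 1, 2, 0, 1, 2, 1, 2, 1, 1, 0, 2, 0, 2, 0, 1, 0, 2, 0, 0, 2, 1, 1, 0, 1, 0, 0, 1, 0, 1, 1], 238, 0),
  ([1, 2, 2, 1, 0, 2, 1, 2, 0, 1, 1, 2, 1, 0, 1, 0, 2, 0, 2, 1, 0, 1, 2, 0, 1, 0, 0, 1, 2, 0, 1], 239, 0),
  ([1, 2, 2, 0, 2, 1, 1, 0, 2, 1, 2, 0, 2, 1, 1, 1, 2, 0, 2, 0, 1, 0, 1, 2, 1, 0, 1, 2, 0, 0, 1], 240, 0),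
  ([2, 2, 1, 0, 1, 2, 1, 2, 2, 0, 1, 2, 0, 1, 1, 0, 2, 0, 2, 1, 1, 0, 0, 2, 1, 2, 0, 1, 0, 1, 0], 241, 0),
  ([2, 1, 2, 2, 1, 0, 1, 2, 2, 0, 2, 1, 0, 2, 1, 1, 0, 2, 2, 1, 0, 2, 0, 1, 1, 0, 2, 0, 0, 0, 1], 242, 0),
  ([1, 2, 2, 0, 2, 1, 2, 0, 2, 0, 1, 2, 2, 1, 0, 2, 1, 0, 1, 0, 2, 1, 0, 2, 0, 1, 1, 0, 0, 0, 1], 243, 0),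
  ([1, 2, 0, 1, 2, 1, 0, 2, 0, 2, 1, 0, 1, 2, 0, 2, 1, 0, 1, 2, 0, 1, 1, 0, 2, 1, 0, 1, 0, 1, 1], 244, 0)]

theorem ct31_2_ok : Raw.runR 31 245 ct31_2 200 = true := by decide +kernel

def ct31_3 : List (List Nat × Nat × Nat) := [
  ([2, 1, 2, 1, 0, 1, 2, 2, 0, 1, 2, 1, 2, 0, 1, 2, 0, 1, 0, 1, 1, 2, 0, 1, 0, 2, 0, 1, 2, 0, 1], 245, 0),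
  ([2, 1, 2, 2, 1, 0, 2, 2, 0, 2, 1, 0, 1, 2, 1, 2, 0, 2, 0, 1, 0, 2, 1, 0, 1, 1, 1, 0, 0, 2, 0], 246, 0),
  ([2, 1, 1, 2, 2, 1, 2, 0, 2, 1, 2, 1, 0, 2, 1, 0, 2, 0, 1, 1, 2, 2, 0, 0, 1, 2, 1, 0, 0, 1, 2], 247, 0),
  ([1, 0, 1, 2, 1, 2, 2, 0, 2, 1, 2, 2, 1, 0, 2, 0, 1, 0, 2, 1, 0, 2, 1, 1, 0, 2, 1, 0, 0, 1, 1], 248, 0),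
  ([1, 2, 2, 2, 0, 1, 2, 2, 0, 1, 1, 2, 0, 2, 1, 0, 1, 2, 0, 1, 2, 2, 0, 1, 0, 1, 0, 1, 1, 2, 0], 249, 0),
  ([1, 0, 2, 2, 2, 0, 1, 1, 2, 1, 0, 2, 2, 0, 0, 2, 1, 0, 2, 0, 2, 1, 0, 1, 0, 1, 0, 1, 1, 1, 0], 250, 0),
  ([2, 1, 1, 2, 1, 2, 0, 1, 2, 1, 1, 2, 0, 2, 1, 0, 2, 1, 1, 2, 0, 0, 1, 0, 0, 2, 2, 1, 1, 0, 2], 251, 0),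
  ([1, 2, 1, 2, 1, 2, 1, 0, 2, 0, 2, 1, 2, 0, 2, 2, 1, 0, 1, 0, 0, 1, 2, 2, 1, 0, 1, 1, 0, 2, 0], 252, 0),
  ([1, 2, 2, 1, 1, 2, 1, 2, 2, 1, 2, 0, 0, 1, 2, 1, 0, 0, 2, 2, 1, 0, 2, 1, 0, 0, 2, 1, 0, 2, 0], 253, 0),
  ([2, 1, 1, 2, 2, 0, 2, 2, 0, 1, 1, 2, 0, 0, 2, 1, 2, 2, 1, 0, 0, 2, 0, 1, 1, 0, 1, 2, 0, 1, 0], 254, 0),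
  ([1, 2, 1, 0, 2, 1, 0, 2, 2, 2, 0, 2, 0, 2, 0, 1, 1, 0, 2, 0, 1, 1, 0, 0, 1, 0, 2, 1, 0, 0, 1], 255, 0),
  ([1, 0, 2, 2, 1, 1, 2, 0, 1, 2, 1, 0, 2, 2, 0, 0, 0, 2, 1, 2, 1, 0, 1, 0, 1, 0, 1, 2, 0, 1, 1], 256, 0),
  ([2, 0, 1, 2, 2, 1, 0, 1, 2, 0, 2, 2, 1, 1, 1, 0, 2, 0, 1, 2, 1, 1, 0, 0, 2, 0, 2, 0, 1, 0, 1], 257, 0),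
  ([2, 1, 1, 2, 1, 0, 2, 1, 0, 1, 2, 2, 2, 0, 0, 1, 1, 0, 2, 1, 2, 0, 2, 0, 1, 0, 0, 2, 1, 0, 1], 258, 0),
  ([1, 2, 1, 2, 2, 2, 1, 0, 2, 2, 1, 0, 1, 0, 2, 0, 1, 0, 1, 2, 0, 2, 0, 2, 1, 0, 1, 0, 2, 0, 1], 259, 0),
  ([0, 2, 2, 1, 0, 2, 1, 2, 2, 1, 1, 2, 1, 0, 0, 2, 1, 0, 2, 0, 1, 0, 2, 1, 1, 0, 1, 0, 1, 0, 2], 260, 0),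
  ([1, 1, 2, 1, 0, 2, 2, 2, 1, 0, 2, 1, 1, 2, 0, 2, 0, 2, 1, 0, 2, 1, 0, 2, 1, 0, 1, 0, 0, 2, 1], 261, 0),
  ([1, 1, 2, 2, 1, 2, 0, 2, 1, 1, 2, 1, 2, 0, 2, 0, 2, 0, 1, 2, 0, 1, 2, 1, 0, 2, 0, 0, 1, 2, 0], 262, 0),
  ([2, 1, 1, 0, 2, 1, 0, 2, 1, 0, 2, 1, 0, 2, 1, 2, 0, 2, 1, 0, 0, 2, 0, 1, 0, 1, 1, 2, 1, 0, 1], 263, 0),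
  ([2, 0, 1, 2, 2, 0, 1, 2, 2, 1, 2, 0, 1, 2, 1, 2, 0, 1, 0, 1, 0, 2, 1, 0, 2, 2, 0, 0, 1, 0, 1], 264, 0),
  ([1, 2, 0, 2, 1, 2, 0, 2, 0, 0, 1, 2, 1, 0, 1, 2, 1, 2, 0, 1, 0, 0, 2, 1, 1, 0, 2, 1, 0, 1, 0], 265, 0),
  ([2, 1, 1, 2, 1, 2, 0, 1, 0, 2, 1, 2, 0, 1, 0, 2, 0, 2, 0, 2, 0, 2, 1, 1, 0, 1, 0, 2, 0, 0, 1], 266, 0),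
  ([2, 0, 2, 1, 1, 2, 1, 0, 1, 2, 0, 0, 2, 1, 0, 2, 0, 2, 0, 2, 0, 1, 0, 1, 1, 1, 2, 0, 0, 1, 0], 267, 0),
  ([1, 2, 0, 1, 2, 1, 2, 0, 1, 0, 2, 0, 1, 1, 2, 2, 0, 2, 0, 1, 2, 0, 0, 1, 0, 0, 2, 1, 0, 1, 1], 268, 0),
  ([0, 2, 2, 1, 0, 1, 2, 0, 2, 2, 1, 0, 1, 1, 1, 2, 0, 1, 2, 0, 0, 2, 0, 0, 1, 1, 0, 2, 0, 1, 1], 269, 0),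
  ([2, 2, 1, 2, 0, 2, 0, 1, 2, 1, 0, 1, 2, 1, 0, 2, 1, 0, 1, 2, 0, 0, 2, 2, 1, 0, 1, 2, 0, 1, 0], 270, 0),
  ([1, 2, 1, 2, 1, 2, 0, 2, 0, 2, 2, 0, 1, 1, 1, 2, 0, 1, 2, 1, 2, 0, 2, 0, 2, 1, 0, 0, 1, 2, 0], 271, 0),
  ([1, 2, 1, 0, 1, 2, 2, 0, 1, 0, 2, 2, 2, 1, 0, 1, 0, 2, 1, 2, 1, 0, 0, 1, 2, 0, 1, 0, 0, 2, 1], 272, 0),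
  ([1, 2, 1, 2, 0, 1, 2, 0, 2, 0, 2, 1, 1, 2, 0, 2, 2, 1, 0, 1, 2, 0, 1, 2, 1, 0, 1, 0, 0, 0, 2], 273, 0),
  ([0, 2, 2, 1, 1, 2, 2, 0, 2, 1, 0, 2, 2, 1, 0, 2, 1, 1, 0, 2, 0, 1, 1, 0, 1, 0, 1, 0, 2, 0, 2], 274, 0),
  ([1, 2, 1, 3, 1, 2, 1, 2, 0, 1, 2, 2, 0, 2, 1, 2, 0, 1, 2, 2, 0, 0, 2, 0, 1, 0, 1, 2, 0, 1, 0], 275, 0),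
  ([0, 1, 2, 2, 1, 0, 2, 1, 1, 2, 0, 2, 0, 0, 2, 1, 1, 0, 0, 2, 1, 1, 2, 0, 0, 0, 1, 1, 2, 0, 1], 276, 0),
  ([0, 1, 2, 1, 2, 1, 2, 0, 0, 2, 1, 2, 1, 0, 2, 2, 1, 0, 1, 0, 2, 2, 0, 0, 1, 0, 1, 1, 2, 0, 1], 277, 0),
  ([1, 0, 2, 1, 0, 2, 2, 0, 1, 2, 1, 0, 1, 2, 1, 2, 0, 1, 0, 1, 2, 0, 1, 0, 1, 1, 2, 0, 1, 0, 2], 278, 0),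
  ([2, 1, 2, 0, 2, 2, 1, 1, 0, 1, 1, 2, 0, 2, 2, 1, 0, 1, 1, 2, 0, 2, 1, 2, 0, 1, 0, 2, 0, 0, 2], 279, 0),
  ([0, 0, 2, 2, 0, 1, 0, 2, 2, 1, 0, 2, 0, 1, 1, 0, 2, 1, 1, 0, 2, 1, 2, 0, 0, 1, 0, 0, 1, 1, 0], 280, 0),
  ([1, 0, 1, 2, 1, 2, 0, 2, 2, 1, 2, 0, 1, 0, 2, 2, 2, 0, 1, 2, 1, 0, 0, 1, 2, 0, 2, 1, 0, 1, 1], 281, 0),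
  ([1, 1, 2, 1, 0, 1, 2, 0, 0, 2, 2, 1, 2, 0, 1, 2, 1, 0, 2, 0, 1, 1, 2, 0, 1, 2, 1, 0, 0, 1, 2], 282, 0),
  ([1, 2, 0, 1, 2, 1, 1, 2, 1, 2, 1, 0, 0, 2, 1, 2, 1, 0, 2, 1, 2, 0, 0, 1, 1, 0, 2, 0, 2, 0, 2], 283, 0),
  ([0, 1, 2, 1, 2, 2, 1, 1, 2, 0, 2, 1, 2, 0, 1, 2, 2, 0, 1, 1, 0, 2, 0, 1, 2, 1, 0, 2, 0, 2, 0], 284, 0),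
  ([1, 2, 1, 3, 0, 2, 1, 2, 0, 1, 1, 2, 0, 2, 0, 1, 1, 2, 2, 1, 0, 2, 1, 0, 1, 2, 2, 1, 0, 0, 1], 285, 0),
  ([0, 1, 2, 2, 1, 1, 2, 0, 2, 1, 2, 1, 0, 2, 2, 0, 1, 2, 1, 0, 2, 2, 0, 1, 2, 0, 1, 0, 2, 0, 1], 286, 0),
  ([1, 1, 0, 2, 2, 0, 2, 1, 1, 2, 2, 0, 2, 2, 0, 1, 0, 1, 1, 1, 2, 0, 2, 0, 1, 0, 2, 1, 1, 0, 2], 287, 0),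
  ([0, 2, 1, 1, 2, 1, 2, 0, 0, 2, 2, 1, 0, 2, 0, 1, 1, 2, 0, 0, 2, 1, 1, 1, 0, 2, 0, 1, 0, 2, 1], 288, 0),
  ([1, 0, 2, 2, 1, 2, 0, 1, 2, 1, 1, 2, 0, 0, 2, 1, 2, 1, 2, 0, 0, 0, 1, 2, 1, 0, 2, 1, 0, 1, 2], 289, 0)]

theorem ct31_3_ok : Raw.runR 31 290 ct31_3 245 = true := by decide +kernel

end Pool.Agent.Wil
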