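import Pool.Agent.Wil.Raw
import Pool.Agent.Wil.Cert31a

set_option autoImplicit false
set_option maxRecDepth 100000

/-! Explicit cores (runner heights, size, window), p = 31, degrees 290 to 478. -/

namespace Pool.Agent.Wil

def ct31_4 : List (List Nat × Nat × Nat) := [
  ([2, 1, 2, 1, 2, 2, 0, 0, 1, 2, 1, 2, 0, 1, 2, 0, 1, 0, 0, 2, 2, 2, 0, 1, 0, 1, 2, 0, 2, 1, 0], 290, 0),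
  ([2, 1, 2, 1, 2, 1, 0, 1, 1, 2, 0, 2, 2, 0, 2, 0, 1, 0, 2, 0, 2, 0, 2, 2, 0, 1, 1, 0, 1, 2, 0], 291, 0),
  ([0, 2, 1, 2, 0, 1, 2, 1, 0, 2, 2, 1, 2, 1, 0, 1, 2, 0, 2, 0, 1, 1, 2, 0, 1, 0, 2, 1, 1, 0, 2], 292, 0),
  ([2, 3, 1, 0, 1, 2, 2, 2, 1, 1, 2, 0, 2, 1, 2, 0, 0, 1, 2, 1, 0, 2, 0, 0, 1, 0, 2, 1, 2, 0, 0], 293, 0),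
  ([2, 1, 1, 2, 0, 1, 2, 0, 2, 2, 0, 1, 0, 1, 2, 0, 1, 2, 1, 0, 2, 2, 0, 1, 1, 0, 0, 2, 2, 0, 1], 294, 0),
  ([2, 0, 3, 1, 1, 2, 1, 2, 0, 2, 2, 0, 1, 0, 2, 0, 1, 0, 2, 2, 0, 1, 1, 0, 1, 0, 1, 2, 0, 0, 1], 295, 0),
  ([1, 2, 0, 2, 2, 0, 2, 2, 0, 1, 1, 1, 2, 2, 0, 2, 1, 0, 1, 2, 0, 2, 1, 0, 1, 0, 0, 2, 2, 0, 1], 296, 0),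
  ([2, 0, 3, 2, 1, 0, 2, 1, 2, 2, 0, 2, 1, 0, 2, 0, 1, 2, 1, 0, 2, 1, 0, 2, 0, 0, 1, 1, 0, 0, 0], 297, 0),
  ([1, 2, 1, 2, 1, 2, 1, 2, 2, 0, 2, 0, 2, 1, 0, 2, 0, 2, 2, 1, 0, 1, 0, 2, 2, 0, 0, 1, 2, 0, 2], 298, 0),
  ([2, 1, 2, 0, 1, 1, 2, 0, 2, 1, 0, 0, 2, 2, 1, 0, 1, 2, 0, 1, 2, 0, 2, 1, 1, 1, 0, 2, 0, 0, 2], 299, 0),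
  ([2, 0, 2, 1, 1, 0, 1, 2, 2, 0, 2, 0, 1, 0, 2, 0, 0, 2, 1, 2, 1, 1, 0, 0, 1, 2, 1, 0, 0, 2, 0], 300, 0),
  ([1, 2, 1, 2, 1, 0, 1, 2, 2, 0, 2, 1, 2, 0, 2, 2, 0, 1, 1, 2, 0, 0, 2, 2, 0, 1, 1, 0, 2, 0, 2], 301, 0),
  ([2, 0, 2, 2, 1, 0, 2, 1, 2, 0, 1, 2, 2, 0, 1, 2, 0, 2, 0, 0, 1, 1, 2, 1, 0, 2, 0, 1, 0, 2, 0], 302, 0),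
  ([2, 0, 2, 1, 2, 0, 2, 0, 1, 1, 2, 0, 2, 0, 2, 1, 2, 0, 1, 2, 0, 1, 0, 0, 1, 2, 0, 1, 2, 0, 1], 303, 0),
  ([3, 1, 1, 2, 0, 1, 2, 0, 2, 2, 0, 2, 1, 0, 2, 1, 2, 1, 0, 2, 0, 0, 1, 1, 0, 2, 1, 2, 0, 0, 1], 304, 0),
  ([3, 1, 2, 1, 2, 0, 2, 2, 0, 1, 2, 2, 0, 1, 1, 0, 2, 0, 2, 0, 1, 0, 2, 2, 1, 0, 2, 0, 1, 0, 1], 305, 0),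
  ([2, 1, 0, 2, 2, 2, 1, 0, 2, 0, 0, 2, 2, 1, 1, 0, 2, 1, 0, 2, 0, 2, 1, 0, 2, 0, 1, 1, 0, 2, 0], 306, 0),
  ([2, 2, 0, 1, 2, 1, 2, 0, 2, 0, 2, 2, 0, 2, 1, 0, 1, 0, 2, 0, 1, 2, 1, 0, 0, 2, 0, 0, 1, 2, 0], 307, 0),
  ([2, 0, 1, 2, 1, 0, 2, 1, 2, 2, 0, 1, 2, 1, 0, 1, 2, 0, 2, 0, 2, 1, 1, 0, 2, 1, 0, 2, 0, 2, 0], 308, 0),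
  ([1, 3, 1, 2, 0, 2, 1, 2, 0, 2, 1, 2, 1, 0, 1, 2, 0, 0, 2, 1, 0, 2, 1, 0, 0, 1, 0, 2, 0, 1, 2], 309, 0),
  ([1, 1, 2, 1, 2, 0, 1, 2, 2, 3, 1, 0, 2, 1, 2, 1, 2, 0, 2, 0, 2, 0, 2, 1, 1, 0, 0, 2, 0, 1, 2], 310, 0),
  ([2, 2, 3, 1, 3, 2, 3, 2, 3, 1, 3, 2, 3, 1, 2, 3, 3, 2, 1, 3, 1, 3, 2, 1, 1, 2, 3, 1, 2, 3, 0], 311, 0),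
  ([1, 2, 1, 3, 0, 2, 2, 1, 1, 2, 2, 0, 0, 1, 2, 1, 2, 1, 1, 0, 0, 2, 2, 0, 2, 1, 0, 2, 0, 1, 2], 312, 0),
  ([2, 1, 2, 1, 0, 3, 1, 0, 1, 2, 1, 2, 1, 0, 1, 0, 2, 2, 0, 2, 1, 0, 2, 1, 0, 1, 0, 2, 0, 2, 1], 313, 0),
  ([1, 2, 0, 1, 3, 1, 1, 1, 2, 0, 2, 0, 2, 1, 0, 2, 0, 1, 2, 1, 0, 0, 2, 0, 2, 1, 0, 1, 1, 2, 1], 314, 0),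
  ([1, 3, 0, 1, 3, 1, 1, 2, 2, 0, 1, 2, 0, 1, 2, 1, 2, 0, 2, 0, 1, 2, 2, 0, 1, 2, 1, 0, 0, 1, 1], 315, 0),
  ([1, 2, 1, 2, 0, 1, 2, 0, 2, 1, 0, 2, 2, 1, 2, 0, 1, 0, 1, 0, 2, 0, 1, 1, 2, 2, 0, 0, 2, 0, 2], 316, 0),
  ([2, 1, 0, 2, 2, 2, 1, 0, 1, 2, 1, 2, 0, 2, 0, 1, 2, 0, 2, 0, 2, 1, 0, 1, 0, 2, 0, 2, 0, 1, 2], 317, 0),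
  ([1, 2, 0, 2, 3, 2, 2, 0, 1, 2, 1, 1, 0, 2, 0, 2, 0, 1, 0, 2, 1, 2, 0, 1, 2, 0, 1, 0, 2, 0, 1], 318, 0),
  ([1, 2, 0, 1, 2, 0, 1, 0, 2, 2, 2, 1, 2, 0, 1, 0, 2, 0, 1, 1, 2, 0, 0, 2, 1, 0, 0, 2, 1, 0, 2], 319, 0),
  ([0, 2, 1, 2, 2, 0, 1, 0, 2, 1, 0, 0, 2, 1, 2, 2, 0, 2, 1, 0, 1, 2, 1, 0, 0, 2, 1, 0, 1, 0, 2], 320, 0),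
  ([1, 4, 3, 2, 2, 3, 2, 3, 1, 2, 2, 3, 1, 3, 1, 3, 2, 3, 1, 1, 3, 1, 3, 1, 2, 1, 2, 2, 1, 0, 2], 321, 0),
  ([1, 1, 1, 0, 2, 3, 2, 0, 1, 2, 1, 0, 2, 0, 1, 2, 1, 0, 2, 0, 2, 0, 0, 2, 1, 0, 1, 0, 1, 2, 1], 322, 0),
  ([1, 0, 2, 1, 2, 2, 1, 0, 2, 1, 2, 0, 0, 1, 2, 2, 0, 0, 1, 2, 1, 2, 0, 1, 2, 0, 0, 1, 2, 0, 2], 323, 0),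
  ([2, 0, 2, 1, 1, 3, 1, 2, 0, 1, 2, 1, 2, 0, 0, 2, 2, 2, 0, 0, 2, 1, 0, 1, 1, 0, 2, 0, 2, 1, 0], 324, 0),
  ([0, 1, 2, 0, 2, 1, 2, 0, 1, 0, 1, 2, 1, 0, 2, 0, 2, 2, 0, 1, 0, 2, 1, 1, 0, 0, 1, 2, 1, 0, 2], 325, 0),
  ([1, 2, 2, 0, 2, 1, 0, 2, 2, 1, 2, 0, 1, 0, 2, 1, 0, 1, 1, 2, 0, 2, 0, 2, 0, 2, 1, 2, 0, 0, 2], 326, 0),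
  ([1, 0, 1, 3, 1, 1, 2, 2, 1, 0, 2, 0, 2, 0, 1, 2, 2, 1, 0, 0, 2, 0, 2, 1, 2, 0, 1, 2, 0, 1, 1], 327, 0),
  ([3, 3, 1, 3, 1, 1, 2, 3, 2, 3, 2, 1, 1, 3, 2, 3, 1, 1, 2, 3, 1, 2, 2, 1, 3, 1, 1, 2, 0, 3, 1], 328, 0),
  ([0, 2, 1, 2, 0, 1, 0, 2, 2, 0, 2, 0, 1, 2, 1, 0, 2, 0, 2, 0, 1, 2, 2, 0, 1, 0, 1, 2, 1, 0, 0], 329, 0),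
  ([1, 2, 1, 2, 2, 0, 3, 0, 1, 0, 2, 1, 2, 1, 0, 1, 2, 2, 0, 1, 0, 2, 1, 2, 0, 0, 1, 1, 2, 0, 2], 330, 0),
  ([2, 0, 2, 2, 1, 2, 0, 1, 0, 2, 2, 0, 1, 2, 0, 1, 2, 0, 2, 1, 0, 1, 2, 0, 2, 2, 1, 0, 0, 2, 0], 331, 0),
  ([2, 1, 1, 2, 0, 3, 1, 2, 0, 1, 2, 0, 2, 0, 2, 0, 1, 2, 0, 1, 0, 1, 0, 2, 1, 0, 0, 2, 1, 2, 0], 332, 0),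
  ([1, 1, 2, 3, 1, 0, 1, 2, 1, 2, 1, 2, 0, 2, 0, 2, 2, 1, 0, 2, 0, 0, 2, 1, 0, 2, 1, 0, 2, 0, 2], 333, 0),
  ([0, 2, 1, 2, 2, 1, 0, 0, 2, 0, 2, 1, 2, 1, 0, 2, 0, 2, 1, 2, 1, 0, 0, 2, 0, 1, 2, 0, 0, 2, 1], 334, 0)]

theorem ct31_4_ok : Raw.runR 31 335 ct31_4 290 = true := by decide +kernel

def ct31_5 : List (List Nat × Nat × Nat) := [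
  ([2, 0, 1, 3, 0, 2, 1, 2, 2, 1, 1, 0, 2, 0, 1, 2, 0, 2, 1, 0, 1, 2, 1, 1, 0, 2, 0, 2, 0, 1, 2], 335, 0),
  ([2, 1, 3, 0, 1, 2, 0, 2, 2, 0, 2, 1, 0, 1, 2, 2, 1, 0, 2, 1, 2, 0, 0, 2, 1, 1, 0, 2, 0, 2, 1], 336, 0),
  ([2, 0, 2, 1, 3, 2, 2, 0, 1, 1, 2, 1, 2, 0, 0, 2, 1, 1, 2, 0, 1, 0, 2, 1, 0, 0, 2, 0, 2, 0, 2], 337, 0),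
  ([2, 1, 0, 3, 1, 2, 0, 1, 2, 2, 0, 2, 1, 1, 2, 0, 2, 0, 2, 0, 2, 1, 2, 1, 0, 1, 0, 2, 1, 0, 2], 338, 0),
  ([1, 2, 2, 0, 2, 0, 1, 2, 0, 1, 2, 1, 2, 0, 2, 0, 2, 2, 0, 1, 2, 0, 0, 1, 2, 0, 1, 0, 2, 0, 2], 339, 0),
  ([2, 1, 2, 0, 3, 2, 0, 2, 0, 2, 1, 1, 1, 0, 2, 0, 2, 0, 2, 1, 0, 1, 2, 0, 0, 2, 1, 2, 0, 0, 0], 340, 0),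
  ([1, 2, 2, 0, 1, 3, 2, 0, 2, 0, 2, 1, 2, 0, 1, 2, 0, 2, 0, 2, 1, 0, 1, 1, 2, 0, 2, 2, 1, 0, 0], 341, 0),
  ([1, 2, 1, 1, 2, 3, 0, 2, 2, 0, 1, 0, 1, 1, 2, 0, 2, 2, 0, 0, 2, 0, 0, 1, 2, 0, 1, 2, 0, 1, 2], 342, 0),
  ([2, 0, 0, 2, 1, 1, 2, 2, 0, 1, 2, 0, 1, 1, 2, 2, 0, 2, 1, 2, 0, 1, 2, 0, 0, 2, 0, 1, 2, 0, 2], 343, 0),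
  ([0, 1, 2, 1, 2, 0, 2, 1, 2, 0, 3, 1, 2, 0, 0, 1, 2, 1, 1, 0, 2, 2, 1, 0, 0, 1, 0, 2, 0, 2, 1], 344, 0),
  ([1, 2, 1, 3, 1, 2, 0, 2, 2, 1, 0, 2, 3, 0, 2, 2, 1, 1, 0, 0, 1, 2, 1, 2, 0, 1, 2, 0, 2, 1, 2], 345, 0),
  ([3, 0, 2, 2, 1, 3, 2, 1, 2, 0, 1, 1, 2, 2, 0, 2, 0, 0, 1, 2, 0, 2, 0, 2, 0, 1, 0, 1, 1, 0, 2], 346, 0),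
  ([0, 3, 0, 1, 2, 0, 2, 1, 2, 1, 0, 2, 2, 1, 1, 1, 0, 2, 0, 2, 2, 0, 1, 0, 0, 1, 2, 1, 1, 0, 2], 347, 0),
  ([0, 2, 3, 1, 1, 2, 0, 2, 0, 2, 1, 0, 1, 2, 0, 2, 0, 0, 1, 1, 2, 1, 0, 2, 0, 1, 1, 2, 0, 1, 2], 348, 0),
  ([1, 3, 1, 2, 0, 2, 1, 3, 1, 0, 2, 0, 1, 2, 2, 0, 2, 1, 0, 1, 2, 2, 1, 2, 0, 2, 1, 0, 0, 1, 2], 349, 0),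
  ([1, 0, 2, 1, 2, 1, 2, 0, 0, 3, 2, 1, 1, 1, 2, 0, 0, 2, 1, 2, 1, 2, 0, 1, 0, 2, 0, 2, 0, 1, 2], 350, 0),
  ([1, 0, 2, 2, 1, 2, 1, 2, 1, 2, 3, 0, 0, 1, 1, 2, 0, 2, 1, 0, 2, 0, 1, 0, 2, 0, 2, 1, 0, 2, 2], 351, 0),
  ([0, 2, 3, 0, 1, 0, 2, 1, 1, 2, 2, 1, 0, 2, 1, 2, 0, 2, 0, 2, 0, 1, 2, 0, 1, 2, 2, 0, 1, 0, 1], 352, 0),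
  ([1, 1, 2, 3, 0, 0, 1, 2, 2, 0, 2, 2, 1, 0, 2, 1, 2, 0, 1, 1, 2, 0, 0, 2, 2, 0, 1, 2, 1, 0, 2], 353, 0),
  ([2, 0, 2, 1, 2, 3, 0, 1, 2, 1, 2, 2, 0, 0, 2, 1, 2, 0, 2, 1, 2, 0, 0, 1, 2, 0, 2, 0, 2, 0, 0], 354, 0),
  ([3, 3, 1, 2, 1, 3, 0, 1, 2, 0, 2, 2, 0, 1, 2, 0, 2, 1, 0, 2, 2, 0, 2, 2, 1, 0, 0, 1, 1, 0, 0], 355, 0),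
  ([0, 1, 3, 1, 2, 3, 0, 1, 1, 2, 1, 2, 2, 0, 2, 1, 0, 2, 0, 2, 1, 0, 1, 2, 1, 0, 2, 0, 0, 1, 2], 356, 0),
  ([1, 2, 1, 0, 2, 0, 3, 1, 3, 1, 0, 1, 2, 0, 2, 2, 0, 1, 2, 1, 1, 2, 0, 0, 2, 0, 1, 0, 1, 2, 1], 357, 0),
  ([3, 0, 1, 1, 2, 0, 2, 1, 2, 0, 1, 2, 2, 0, 0, 2, 1, 0, 2, 0, 0, 2, 1, 2, 1, 2, 0, 1, 0, 2, 1], 358, 0),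
  ([1, 2, 3, 1, 3, 1, 2, 1, 2, 0, 3, 0, 2, 0, 1, 2, 2, 2, 2, 0, 1, 1, 0, 1, 0, 2, 0, 2, 0, 2, 1], 359, 0),
  ([2, 3, 1, 1, 2, 1, 2, 2, 0, 3, 0, 2, 1, 2, 0, 1, 2, 1, 3, 1, 2, 0, 0, 1, 2, 0, 2, 0, 1, 2, 0], 360, 0),
  ([2, 1, 1, 2, 2, 1, 3, 0, 2, 0, 2, 1, 1, 1, 3, 2, 0, 0, 2, 1, 1, 0, 2, 0, 2, 2, 0, 2, 0, 1, 2], 361, 0),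
  ([1, 3, 2, 0, 2, 1, 2, 0, 0, 3, 2, 1, 0, 1, 2, 2, 0, 0, 2, 1, 0, 1, 2, 2, 1, 0, 2, 0, 1, 0, 1], 362, 0),
  ([0, 2, 1, 3, 0, 2, 2, 0, 2, 0, 1, 0, 2, 0, 2, 1, 2, 1, 1, 1, 2, 0, 2, 0, 1, 2, 0, 0, 2, 1, 0], 363, 0),
  ([2, 1, 2, 0, 3, 0, 2, 1, 2, 3, 0, 2, 1, 2, 0, 1, 2, 2, 1, 0, 0, 1, 1, 0, 2, 0, 2, 0, 1, 2, 0], 364, 0),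
  ([2, 2, 0, 1, 3, 2, 2, 0, 0, 2, 1, 2, 0, 1, 2, 2, 0, 0, 2, 0, 1, 2, 2, 0, 1, 0, 2, 0, 1, 2, 0], 365, 0),
  ([3, 0, 2, 0, 3, 1, 1, 2, 0, 1, 2, 2, 0, 2, 1, 0, 2, 1, 0, 0, 1, 1, 0, 2, 1, 0, 2, 0, 2, 1, 0], 366, 0),
  ([1, 2, 0, 2, 0, 2, 1, 3, 2, 0, 2, 1, 2, 1, 0, 1, 0, 2, 0, 0, 2, 1, 2, 2, 0, 0, 1, 2, 0, 2, 1], 367, 0),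
  ([2, 1, 0, 2, 2, 0, 2, 1, 0, 2, 1, 3, 0, 2, 1, 0, 1, 2, 2, 0, 2, 0, 1, 1, 0, 2, 0, 2, 0, 2, 1], 368, 0),
  ([2, 2, 1, 1, 0, 2, 3, 2, 0, 1, 3, 0, 2, 1, 2, 0, 2, 2, 0, 1, 0, 2, 0, 1, 0, 2, 1, 0, 0, 2, 0], 369, 0),
  ([2, 0, 1, 3, 3, 1, 2, 1, 1, 2, 3, 0, 1, 2, 0, 2, 1, 2, 2, 0, 2, 0, 1, 0, 2, 1, 1, 2, 0, 2, 0], 370, 0),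
  ([3, 2, 0, 1, 2, 3, 1, 2, 0, 0, 2, 2, 1, 1, 0, 1, 2, 0, 1, 2, 0, 2, 0, 0, 2, 0, 1, 2, 1, 2, 0], 371, 0),
  ([2, 3, 2, 0, 2, 1, 3, 1, 3, 1, 0, 2, 0, 2, 0, 1, 2, 2, 1, 0, 0, 1, 2, 1, 0, 2, 1, 0, 0, 0, 2], 372, 0),
  ([2, 3, 1, 1, 2, 1, 3, 2, 1, 3, 0, 3, 0, 1, 0, 1, 2, 2, 1, 2, 0, 2, 0, 1, 2, 1, 0, 1, 2, 0, 2], 373, 0),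
  ([2, 3, 2, 0, 1, 1, 0, 2, 3, 0, 2, 1, 2, 0, 1, 0, 0, 2, 1, 2, 0, 0, 2, 1, 0, 2, 2, 0, 1, 1, 0], 374, 0),
  ([0, 2, 2, 1, 1, 3, 2, 0, 2, 0, 1, 0, 2, 1, 2, 1, 0, 2, 0, 1, 2, 0, 2, 0, 0, 1, 2, 1, 0, 2, 2], 375, 0),
  ([0, 2, 0, 3, 1, 2, 0, 1, 2, 1, 2, 2, 1, 2, 0, 2, 0, 0, 2, 1, 0, 0, 2, 2, 1, 2, 0, 0, 2, 0, 1], 376, 0),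
  ([1, 2, 1, 3, 0, 2, 0, 2, 2, 0, 3, 2, 1, 0, 1, 2, 2, 0, 1, 2, 0, 1, 2, 0, 0, 1, 2, 0, 0, 1, 2], 377, 1),
  ([3, 1, 1, 2, 0, 2, 3, 1, 1, 2, 2, 0, 1, 2, 2, 0, 3, 0, 1, 1, 2, 0, 0, 0, 1, 2, 2, 0, 2, 0, 1], 379, 0),
  ([1, 0, 0, 2, 3, 2, 0, 2, 0, 1, 1, 2, 1, 0, 2, 0, 1, 0, 2, 0, 1, 2, 1, 2, 0, 1, 0, 2, 0, 2, 0], 380, 0)]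

theorem ct31_5_ok : Raw.runR 31 381 ct31_5 335 = true := by decide +kernel

def ct31_6 : List (List Nat × Nat × Nat) := [
  ([2, 1, 2, 3, 0, 1, 3, 1, 1, 0, 2, 0, 2, 1, 2, 2, 0, 1, 0, 0, 2, 0, 2, 1, 2, 0, 0, 0, 2, 1, 2], 381, 0),
  ([0, 2, 0, 1, 0, 1, 2, 2, 0, 2, 0, 2, 1, 0, 1, 0, 2, 2, 0, 1, 0, 2, 0, 0, 1, 0, 2, 2, 1, 0, 2], 382, 0),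
  ([0, 1, 1, 2, 3, 2, 0, 2, 3, 2, 0, 1, 2, 1, 2, 0, 1, 1, 2, 2, 0, 0, 1, 2, 0, 2, 0, 2, 1, 2, 0], 383, 0),
  ([2, 1, 3, 1, 2, 0, 2, 1, 2, 2, 3, 0, 2, 1, 1, 1, 3, 2, 0, 1, 0, 2, 0, 0, 2, 2, 0, 1, 0, 2, 2], 384, 0),
  ([1, 2, 1, 3, 0, 3, 2, 0, 2, 1, 1, 2, 1, 2, 1, 0, 0, 2, 2, 0, 1, 0, 2, 0, 2, 1, 0, 0, 2, 2, 2], 385, 0),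
  ([1, 0, 3, 0, 2, 0, 2, 1, 2, 1, 2, 1, 0, 0, 0, 2, 2, 1, 0, 2, 2, 0, 1, 0, 2, 1, 2, 1, 0, 0, 2], 386, 0),
  ([1, 2, 0, 2, 0, 2, 3, 1, 1, 2, 1, 3, 1, 2, 2, 0, 0, 1, 2, 0, 0, 1, 2, 2, 0, 2, 1, 2, 0, 0, 2], 387, 0),
  ([2, 3, 0, 2, 2, 3, 0, 2, 0, 1, 3, 0, 1, 2, 1, 1, 2, 0, 1, 2, 1, 0, 0, 2, 1, 1, 2, 0, 0, 2, 0], 388, 0),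
  ([1, 2, 3, 0, 2, 2, 1, 3, 1, 3, 0, 0, 2, 1, 0, 2, 0, 1, 2, 1, 2, 0, 2, 1, 2, 1, 1, 0, 2, 0, 2], 389, 0),
  ([2, 1, 1, 0, 3, 1, 2, 1, 2, 0, 2, 0, 2, 2, 1, 2, 0, 3, 0, 1, 2, 2, 0, 1, 2, 0, 0, 1, 2, 0, 2], 390, 0),
  ([2, 1, 2, 3, 0, 0, 2, 0, 1, 2, 2, 1, 0, 3, 0, 1, 2, 1, 2, 0, 1, 2, 0, 2, 2, 0, 0, 1, 0, 1, 2], 391, 0),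
  ([1, 2, 0, 2, 0, 2, 0, 2, 1, 1, 2, 1, 0, 3, 2, 0, 1, 0, 2, 0, 2, 1, 1, 2, 0, 0, 2, 2, 1, 0, 2], 392, 0),
  ([1, 3, 2, 1, 0, 2, 0, 3, 2, 1, 2, 0, 1, 0, 3, 1, 1, 2, 2, 0, 1, 0, 2, 1, 0, 2, 2, 0, 2, 1, 1], 393, 0),
  ([0, 0, 2, 1, 2, 1, 2, 0, 3, 0, 1, 2, 0, 1, 1, 0, 2, 0, 1, 0, 2, 0, 2, 1, 2, 0, 2, 1, 1, 0, 2], 394, 0),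
  ([3, 1, 2, 0, 1, 3, 1, 2, 2, 0, 3, 2, 1, 1, 0, 2, 3, 1, 2, 0, 0, 1, 2, 1, 2, 0, 0, 2, 1, 2, 1], 395, 0),
  ([0, 3, 2, 1, 2, 0, 2, 3, 0, 2, 1, 2, 2, 2, 0, 1, 0, 1, 2, 1, 0, 0, 1, 2, 2, 0, 0, 2, 0, 0, 2], 396, 0),
  ([1, 0, 1, 2, 0, 1, 3, 0, 2, 2, 0, 2, 3, 1, 2, 0, 1, 2, 1, 2, 0, 1, 0, 2, 0, 1, 1, 2, 0, 1, 2], 397, 0),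
  ([2, 1, 0, 1, 0, 3, 2, 0, 2, 0, 1, 2, 0, 1, 2, 1, 0, 2, 0, 1, 1, 2, 0, 0, 1, 2, 2, 0, 2, 0, 2], 398, 0),
  ([0, 3, 2, 1, 3, 1, 2, 3, 1, 1, 0, 2, 0, 2, 1, 0, 2, 2, 1, 0, 2, 1, 2, 0, 0, 2, 1, 0, 2, 0, 2], 399, 0),
  ([2, 1, 0, 3, 2, 0, 3, 2, 1, 0, 1, 1, 0, 2, 0, 1, 2, 2, 2, 0, 1, 2, 0, 0, 2, 0, 1, 0, 2, 1, 2], 400, 0),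
  ([1, 2, 0, 2, 2, 0, 2, 1, 0, 1, 2, 3, 0, 0, 2, 2, 2, 0, 1, 0, 2, 2, 0, 1, 0, 2, 1, 2, 0, 0, 2], 401, 0),
  ([0, 1, 1, 2, 3, 1, 2, 3, 0, 0, 2, 1, 0, 1, 2, 2, 0, 1, 1, 0, 2, 2, 1, 0, 2, 1, 2, 0, 2, 0, 2], 402, 0),
  ([0, 2, 3, 1, 1, 3, 2, 0, 1, 1, 3, 2, 0, 2, 2, 0, 0, 1, 0, 2, 1, 2, 1, 1, 0, 2, 0, 2, 2, 0, 1], 403, 0),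
  ([2, 1, 3, 2, 1, 0, 2, 3, 3, 0, 0, 2, 1, 2, 1, 2, 1, 3, 2, 0, 0, 2, 1, 0, 2, 0, 2, 0, 1, 1, 0], 404, 0),
  ([2, 1, 0, 3, 3, 2, 2, 1, 0, 2, 2, 3, 0, 0, 2, 1, 2, 2, 1, 1, 0, 0, 2, 1, 0, 2, 2, 0, 0, 2, 0], 405, 0),
  ([3, 3, 0, 0, 2, 1, 2, 1, 2, 1, 2, 1, 0, 3, 0, 1, 2, 0, 2, 2, 0, 2, 1, 0, 2, 0, 0, 2, 0, 0, 1], 406, 0),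
  ([2, 1, 2, 1, 2, 3, 2, 0, 1, 2, 0, 2, 3, 1, 0, 0, 2, 0, 3, 2, 2, 1, 0, 1, 1, 2, 0, 2, 0, 0, 2], 407, 0),
  ([0, 3, 2, 2, 1, 3, 1, 2, 0, 1, 0, 2, 0, 1, 2, 0, 2, 3, 2, 0, 1, 2, 2, 0, 1, 0, 1, 0, 1, 2, 0], 408, 0),
  ([1, 1, 2, 1, 1, 3, 3, 2, 0, 3, 2, 0, 2, 3, 0, 1, 2, 0, 1, 0, 2, 2, 1, 2, 0, 2, 0, 2, 0, 1, 1], 409, 0),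
  ([2, 1, 1, 1, 2, 1, 2, 0, 3, 0, 2, 0, 2, 1, 2, 0, 1, 2, 0, 2, 3, 0, 0, 2, 1, 1, 0, 2, 0, 2, 2], 410, 0),
  ([2, 1, 2, 0, 3, 2, 2, 1, 0, 3, 1, 2, 0, 2, 1, 0, 2, 3, 0, 1, 0, 0, 2, 0, 1, 0, 2, 0, 2, 1, 0], 411, 0),
  ([1, 3, 0, 1, 2, 3, 2, 0, 0, 2, 1, 2, 3, 1, 2, 0, 1, 2, 0, 2, 2, 0, 1, 0, 2, 0, 2, 0, 2, 1, 1], 412, 1),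
  ([2, 2, 0, 3, 1, 2, 1, 3, 3, 1, 0, 1, 2, 3, 0, 1, 0, 1, 2, 1, 0, 2, 2, 0, 0, 1, 2, 1, 2, 0, 2], 414, 0),
  ([1, 3, 2, 0, 1, 3, 0, 2, 2, 0, 1, 3, 3, 1, 0, 2, 2, 2, 0, 2, 1, 2, 0, 1, 2, 1, 0, 1, 2, 0, 1], 415, 0),
  ([2, 0, 3, 2, 1, 2, 0, 3, 1, 1, 2, 0, 0, 1, 3, 2, 0, 2, 2, 2, 0, 1, 0, 1, 0, 2, 1, 2, 2, 0, 1], 416, 0),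
  ([1, 0, 1, 2, 1, 2, 2, 1, 3, 0, 2, 1, 3, 1, 0, 1, 2, 3, 0, 0, 2, 1, 2, 0, 2, 0, 0, 1, 1, 2, 2], 417, 0),
  ([2, 2, 2, 0, 1, 3, 0, 3, 0, 1, 2, 1, 2, 0, 2, 3, 1, 1, 0, 1, 2, 0, 0, 2, 2, 1, 0, 0, 2, 1, 2], 418, 0),
  ([1, 3, 1, 2, 0, 3, 2, 3, 0, 1, 2, 3, 0, 2, 1, 1, 0, 1, 2, 0, 2, 3, 1, 0, 1, 2, 1, 1, 2, 0, 1], 419, 0),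
  ([1, 1, 3, 2, 0, 3, 2, 0, 1, 1, 2, 1, 1, 2, 0, 3, 1, 3, 0, 2, 1, 0, 2, 0, 2, 2, 0, 2, 1, 1, 0], 420, 0),
  ([2, 0, 3, 3, 1, 3, 2, 0, 2, 1, 1, 0, 2, 1, 0, 2, 3, 1, 2, 2, 0, 1, 1, 0, 2, 1, 0, 0, 2, 0, 2], 421, 0),
  ([2, 1, 1, 0, 3, 0, 1, 2, 0, 3, 1, 1, 2, 2, 1, 3, 0, 1, 0, 2, 2, 2, 0, 1, 0, 2, 0, 1, 2, 1, 2], 422, 0),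
  ([2, 3, 0, 1, 3, 2, 1, 0, 2, 1, 2, 0, 0, 1, 3, 2, 2, 0, 0, 2, 1, 0, 0, 2, 0, 2, 1, 0, 0, 2, 1], 423, 0),
  ([1, 2, 2, 1, 3, 3, 1, 1, 2, 2, 0, 2, 3, 0, 2, 1, 2, 2, 1, 3, 0, 0, 2, 0, 1, 3, 0, 2, 1, 2, 0], 424, 0),
  ([2, 0, 2, 0, 2, 2, 3, 1, 1, 1, 3, 0, 2, 0, 3, 1, 2, 0, 2, 1, 0, 1, 0, 2, 2, 0, 1, 2, 0, 1, 2], 425, 0),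
  ([1, 0, 2, 1, 3, 0, 3, 2, 1, 3, 2, 1, 0, 0, 0, 1, 2, 0, 2, 1, 2, 0, 2, 2, 1, 1, 0, 2, 1, 0, 2], 426, 0)]

theorem ct31_6_ok : Raw.runR 31 427 ct31_6 381 = true := by decide +kernel

def ct31_7 : List (List Nat × Nat × Nat) := [
  ([3, 1, 3, 2, 3, 1, 0, 1, 2, 3, 2, 2, 1, 0, 2, 1, 3, 0, 2, 2, 3, 1, 0, 0, 1, 2, 0, 2, 1, 2, 0], 427, 0),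
  ([0, 2, 2, 0, 2, 1, 3, 0, 2, 0, 3, 1, 2, 0, 2, 1, 1, 2, 2, 0, 0, 2, 0, 2, 0, 0, 2, 1, 2, 0, 1], 428, 0),
  ([3, 1, 2, 0, 2, 3, 0, 1, 2, 1, 2, 0, 1, 2, 1, 3, 1, 2, 0, 0, 3, 0, 2, 1, 2, 1, 2, 0, 1, 0, 2], 429, 0),
  ([1, 1, 2, 3, 3, 0, 3, 0, 2, 1, 2, 2, 1, 0, 1, 2, 0, 0, 3, 1, 2, 1, 0, 2, 0, 2, 0, 1, 2, 2, 1], 430, 0),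
  ([3, 1, 3, 0, 0, 2, 3, 0, 3, 1, 2, 3, 1, 0, 1, 2, 1, 2, 0, 0, 1, 2, 1, 1, 2, 0, 2, 1, 0, 1, 0], 431, 0),
  ([1, 2, 2, 3, 1, 0, 1, 3, 0, 1, 3, 1, 3, 2, 1, 3, 2, 0, 0, 2, 2, 1, 0, 1, 0, 2, 1, 0, 2, 2, 1], 432, 0),
  ([3, 2, 0, 2, 1, 1, 3, 3, 1, 2, 1, 3, 1, 2, 3, 0, 0, 1, 2, 1, 3, 0, 2, 2, 0, 2, 2, 1, 0, 0, 1], 433, 0),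
  ([0, 1, 2, 0, 3, 1, 2, 1, 2, 3, 0, 0, 2, 0, 2, 1, 2, 1, 2, 0, 0, 1, 2, 0, 2, 2, 0, 1, 2, 0, 2], 434, 1),
  ([1, 3, 1, 2, 3, 0, 2, 3, 1, 1, 0, 3, 2, 0, 1, 1, 1, 2, 0, 1, 3, 0, 2, 0, 2, 2, 1, 2, 2, 1, 0], 436, 0),
  ([2, 0, 2, 3, 1, 2, 0, 0, 3, 1, 0, 2, 2, 1, 1, 0, 2, 0, 2, 2, 0, 0, 2, 2, 1, 0, 1, 2, 0, 2, 2], 437, 0),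
  ([1, 2, 1, 3, 2, 0, 3, 1, 2, 1, 3, 2, 0, 3, 2, 3, 0, 1, 1, 2, 1, 1, 0, 2, 3, 1, 0, 0, 2, 2, 1], 438, 0),
  ([2, 1, 2, 1, 2, 0, 2, 3, 3, 1, 0, 0, 2, 1, 2, 0, 3, 1, 0, 2, 0, 2, 2, 0, 0, 2, 0, 1, 2, 0, 2], 439, 1),
  ([1, 0, 2, 2, 3, 1, 3, 1, 0, 0, 3, 2, 1, 0, 2, 0, 0, 2, 0, 1, 2, 1, 2, 2, 0, 1, 0, 0, 2, 1, 2], 441, 0),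
  ([1, 3, 1, 2, 0, 0, 2, 1, 3, 3, 0, 2, 2, 1, 1, 2, 0, 1, 0, 3, 2, 0, 0, 1, 2, 2, 0, 1, 1, 2, 0], 442, 0),
  ([2, 1, 1, 3, 0, 3, 0, 2, 1, 1, 1, 2, 0, 0, 2, 0, 2, 1, 0, 3, 1, 2, 0, 2, 0, 2, 2, 0, 1, 2, 0], 443, 0),
  ([2, 1, 0, 2, 3, 1, 1, 2, 3, 1, 0, 2, 3, 0, 0, 1, 3, 2, 0, 2, 0, 2, 2, 1, 0, 1, 1, 2, 0, 2, 0], 444, 1),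
  ([2, 3, 2, 1, 1, 0, 3, 2, 3, 0, 1, 2, 2, 2, 0, 1, 3, 0, 2, 0, 1, 3, 0, 1, 0, 2, 1, 1, 2, 2, 0], 446, 0),
  ([3, 1, 2, 0, 2, 1, 3, 0, 2, 2, 1, 2, 1, 0, 2, 2, 0, 3, 0, 1, 1, 2, 1, 0, 3, 0, 2, 1, 0, 2, 2], 447, 0),
  ([2, 1, 2, 3, 0, 3, 1, 2, 1, 1, 2, 3, 0, 1, 3, 2, 0, 2, 0, 3, 0, 1, 0, 2, 2, 2, 0, 0, 1, 2, 1], 448, 1),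
  ([2, 2, 1, 3, 0, 1, 2, 0, 3, 3, 0, 1, 1, 1, 2, 1, 2, 0, 3, 0, 0, 2, 0, 0, 2, 1, 2, 0, 0, 1, 2], 450, 0),
  ([2, 0, 1, 1, 3, 1, 3, 1, 2, 0, 2, 0, 2, 3, 2, 0, 2, 0, 1, 2, 0, 3, 2, 1, 0, 1, 1, 0, 1, 2, 2], 451, 0),
  ([3, 0, 1, 3, 0, 1, 0, 2, 2, 3, 0, 2, 1, 0, 2, 1, 2, 1, 3, 2, 0, 1, 1, 2, 0, 1, 2, 0, 2, 1, 0], 452, 0),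
  ([3, 1, 2, 1, 1, 3, 0, 1, 3, 2, 0, 0, 3, 1, 3, 0, 2, 1, 0, 2, 2, 2, 0, 2, 1, 2, 1, 0, 0, 2, 1], 453, 0),
  ([2, 2, 3, 1, 3, 3, 1, 0, 1, 2, 3, 2, 0, 3, 1, 0, 3, 1, 2, 0, 2, 0, 0, 1, 2, 2, 2, 1, 0, 0, 2], 454, 0),
  ([0, 3, 1, 2, 0, 3, 0, 1, 3, 3, 1, 2, 0, 1, 2, 1, 0, 1, 2, 3, 1, 2, 0, 1, 2, 1, 0, 2, 0, 1, 1], 455, 0),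
  ([3, 2, 1, 2, 1, 0, 3, 0, 1, 3, 2, 0, 2, 3, 1, 2, 1, 0, 1, 0, 3, 0, 2, 0, 2, 2, 1, 0, 1, 0, 0], 456, 0),
  ([0, 2, 2, 0, 2, 3, 1, 2, 3, 1, 3, 0, 2, 1, 0, 3, 0, 0, 2, 2, 1, 1, 2, 0, 1, 2, 0, 0, 0, 1, 2], 457, 0),
  ([0, 3, 3, 0, 1, 1, 2, 2, 1, 0, 3, 2, 2, 1, 1, 0, 2, 0, 3, 1, 1, 2, 0, 2, 2, 0, 2, 0, 0, 2, 1], 458, 0),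
  ([0, 3, 1, 3, 2, 3, 2, 1, 0, 2, 3, 0, 1, 1, 3, 0, 1, 3, 0, 1, 1, 2, 2, 1, 0, 2, 2, 1, 0, 0, 1], 459, 0),
  ([3, 0, 1, 3, 0, 2, 3, 2, 3, 2, 0, 1, 0, 1, 2, 0, 2, 1, 2, 1, 3, 0, 2, 1, 2, 0, 2, 0, 1, 0, 1], 460, 0),
  ([1, 2, 3, 1, 3, 3, 2, 1, 2, 3, 0, 1, 2, 0, 2, 1, 3, 0, 3, 0, 1, 0, 2, 2, 1, 2, 3, 0, 1, 1, 2], 461, 0),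
  ([2, 1, 0, 3, 2, 1, 2, 1, 3, 0, 1, 1, 2, 3, 0, 2, 3, 0, 3, 2, 1, 2, 0, 1, 2, 0, 2, 0, 2, 1, 0], 462, 0),
  ([3, 1, 1, 0, 2, 3, 2, 0, 1, 0, 3, 3, 0, 2, 0, 2, 1, 2, 0, 2, 1, 0, 2, 2, 2, 0, 2, 0, 0, 1, 1], 463, 0),
  ([3, 0, 1, 3, 2, 2, 3, 1, 2, 1, 2, 3, 0, 1, 3, 2, 1, 0, 0, 1, 2, 1, 0, 2, 2, 0, 2, 0, 3, 0, 1], 464, 0),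
  ([3, 0, 3, 2, 1, 2, 2, 0, 0, 3, 0, 2, 0, 1, 3, 1, 2, 2, 2, 0, 0, 2, 2, 1, 0, 0, 2, 1, 2, 1, 0], 465, 0),
  ([1, 1, 2, 3, 3, 3, 1, 1, 0, 2, 3, 2, 3, 0, 2, 1, 2, 0, 1, 2, 3, 1, 0, 1, 2, 3, 0, 2, 0, 0, 1], 466, 0),
  ([0, 2, 0, 1, 3, 2, 1, 0, 0, 3, 1, 1, 1, 2, 0, 2, 3, 0, 1, 2, 1, 1, 2, 2, 0, 0, 2, 1, 0, 2, 2], 467, 0),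
  ([1, 1, 0, 3, 2, 1, 0, 2, 2, 0, 2, 1, 3, 2, 0, 0, 2, 2, 0, 1, 0, 2, 2, 3, 0, 1, 2, 0, 1, 0, 2], 468, 0),
  ([3, 2, 1, 3, 1, 0, 1, 2, 2, 3, 1, 3, 1, 0, 3, 0, 3, 3, 1, 2, 1, 2, 0, 1, 2, 0, 0, 2, 1, 2, 0], 469, 0),
  ([1, 2, 3, 1, 1, 3, 3, 3, 0, 0, 3, 1, 2, 2, 0, 1, 1, 0, 2, 1, 2, 0, 3, 0, 2, 0, 2, 2, 1, 1, 2], 470, 0),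
  ([2, 0, 0, 3, 3, 2, 1, 1, 0, 2, 2, 1, 3, 0, 3, 2, 0, 0, 0, 2, 2, 1, 1, 0, 0, 1, 2, 1, 0, 0, 2], 471, 0),
  ([1, 2, 3, 2, 0, 3, 2, 1, 1, 3, 0, 0, 2, 3, 1, 0, 3, 1, 2, 3, 1, 2, 0, 1, 0, 1, 2, 0, 2, 1, 2], 472, 1),
  ([3, 3, 2, 4, 1, 3, 4, 2, 3, 2, 4, 1, 3, 1, 3, 2, 1, 3, 2, 1, 3, 3, 1, 2, 4, 1, 3, 0, 3, 1, 2], 474, 1),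
  ([0, 1, 3, 1, 2, 3, 1, 1, 0, 3, 2, 0, 2, 1, 0, 3, 1, 3, 1, 0, 2, 1, 0, 2, 1, 2, 1, 0, 2, 0, 2], 476, 1),
  ([2, 1, 2, 2, 1, 2, 3, 3, 1, 1, 3, 3, 0, 1, 2, 0, 0, 2, 3, 1, 2, 0, 3, 0, 0, 2, 2, 2, 0, 0, 2], 478, 0)]

theorem ct31_7_ok : Raw.runR 31 479 ct31_7 427 = true := by decide +kernel

end Pool.Agent.Wil
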