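import Pool.Agent.Wil.Raw
import Pool.Agent.Wil.Cert31b

set_option autoImplicit false
set_option maxRecDepth 100000

/-! Explicit cores (runner heights, size, window), p = 31, degrees 479 to 995. -/

namespace Pool.Agent.Wil

def ct31_8 : List (List Nat × Nat × Nat) := [
  ([1, 3, 2, 2, 0, 3, 2, 1, 2, 3, 0, 0, 2, 0, 3, 1, 2, 2, 1, 0, 0, 2, 2, 0, 1, 3, 1, 2, 2, 0, 0], 479, 0),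
  ([0, 1, 0, 2, 2, 3, 0, 1, 1, 2, 2, 2, 3, 0, 1, 2, 3, 0, 2, 0, 1, 1, 0, 2, 2, 2, 0, 0, 2, 0, 2], 480, 0),
  ([1, 2, 2, 3, 2, 0, 3, 3, 2, 1, 3, 0, 2, 2, 0, 3, 3, 1, 1, 2, 0, 2, 3, 0, 2, 0, 1, 0, 2, 0, 1], 481, 0),
  ([3, 3, 1, 2, 3, 3, 0, 2, 1, 1, 3, 0, 2, 2, 3, 0, 0, 2, 2, 1, 2, 1, 0, 3, 0, 2, 1, 0, 0, 0, 0], 482, 0),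
  ([2, 3, 1, 2, 3, 0, 3, 0, 0, 2, 1, 3, 2, 3, 2, 0, 0, 1, 2, 1, 0, 2, 2, 0, 0, 2, 0, 1, 0, 0, 2], 483, 0),
  ([1, 2, 1, 0, 2, 1, 0, 3, 2, 3, 0, 1, 3, 1, 2, 0, 0, 1, 2, 2, 2, 0, 2, 3, 0, 0, 2, 0, 1, 1, 2], 484, 0),
  ([3, 1, 0, 3, 3, 1, 2, 1, 2, 0, 3, 1, 3, 2, 1, 3, 0, 2, 1, 0, 2, 0, 0, 2, 1, 1, 1, 1, 2, 3, 0], 485, 0),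
  ([3, 1, 1, 2, 2, 0, 2, 0, 1, 2, 3, 0, 2, 0, 3, 1, 2, 3, 0, 1, 0, 2, 3, 2, 0, 1, 0, 1, 0, 2, 1], 486, 0),
  ([1, 3, 1, 2, 3, 0, 3, 2, 0, 2, 3, 1, 0, 1, 3, 1, 2, 3, 2, 1, 0, 0, 2, 1, 2, 3, 2, 0, 0, 1, 1], 487, 0),
  ([3, 1, 3, 1, 1, 2, 1, 3, 1, 1, 2, 2, 3, 0, 0, 2, 1, 0, 2, 3, 0, 3, 2, 2, 0, 3, 1, 0, 2, 1, 0], 488, 0),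
  ([0, 3, 1, 3, 0, 2, 0, 3, 1, 1, 3, 2, 0, 2, 1, 0, 3, 1, 2, 0, 1, 2, 2, 0, 2, 1, 0, 1, 2, 0, 0], 489, 1),
  ([3, 1, 2, 1, 3, 0, 2, 3, 0, 3, 1, 3, 3, 1, 2, 0, 1, 2, 1, 2, 1, 3, 1, 2, 0, 0, 1, 0, 2, 1, 3], 491, 0),
  ([1, 2, 0, 3, 0, 2, 2, 1, 0, 2, 1, 3, 0, 2, 0, 2, 1, 1, 2, 3, 0, 1, 3, 0, 2, 2, 1, 0, 1, 2, 2], 492, 0),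
  ([2, 3, 2, 0, 1, 2, 2, 3, 0, 1, 1, 3, 1, 0, 2, 3, 2, 0, 3, 0, 0, 0, 1, 2, 2, 0, 2, 1, 0, 2, 2], 493, 0),
  ([3, 3, 1, 1, 2, 0, 0, 2, 2, 2, 1, 3, 3, 1, 3, 0, 0, 1, 2, 3, 0, 1, 0, 2, 2, 0, 2, 0, 2, 1, 0], 494, 0),
  ([1, 3, 2, 0, 3, 0, 1, 3, 2, 1, 0, 3, 2, 2, 0, 1, 1, 0, 3, 0, 0, 2, 2, 2, 2, 0, 1, 0, 2, 0, 1], 495, 1),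
  ([1, 1, 3, 3, 2, 3, 1, 1, 2, 3, 0, 3, 0, 2, 3, 0, 2, 0, 3, 2, 2, 1, 0, 1, 0, 1, 2, 1, 2, 3, 1], 497, 0),
  ([1, 0, 2, 2, 3, 1, 2, 3, 3, 1, 0, 1, 1, 3, 2, 0, 0, 1, 2, 3, 2, 1, 1, 0, 0, 3, 0, 2, 1, 2, 2], 498, 0),
  ([0, 1, 2, 1, 3, 2, 1, 3, 0, 3, 1, 0, 3, 1, 2, 3, 2, 0, 2, 0, 3, 1, 1, 2, 1, 1, 0, 2, 0, 0, 2], 499, 1),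
  ([0, 2, 1, 1, 3, 1, 3, 0, 3, 2, 0, 2, 1, 2, 1, 2, 1, 2, 0, 0, 0, 1, 3, 0, 2, 3, 0, 2, 1, 2, 1], 501, 0),
  ([3, 1, 3, 1, 2, 2, 1, 3, 0, 0, 3, 2, 1, 2, 2, 0, 1, 3, 1, 3, 3, 0, 2, 3, 0, 2, 0, 1, 1, 1, 0], 502, 0),
  ([0, 1, 3, 3, 2, 1, 1, 3, 3, 2, 1, 0, 0, 2, 1, 3, 1, 0, 2, 3, 2, 2, 0, 1, 2, 0, 0, 1, 3, 1, 1], 503, 0),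
  ([2, 3, 0, 2, 2, 1, 0, 2, 3, 3, 1, 3, 0, 1, 3, 2, 0, 1, 3, 1, 2, 2, 0, 2, 0, 1, 3, 0, 0, 1, 1], 504, 0),
  ([2, 3, 1, 3, 2, 0, 3, 2, 2, 2, 1, 0, 3, 1, 0, 1, 3, 0, 2, 3, 2, 0, 1, 3, 2, 0, 0, 1, 2, 0, 0], 505, 1),
  ([2, 0, 2, 0, 3, 2, 3, 2, 1, 3, 2, 1, 0, 0, 1, 3, 0, 2, 0, 2, 3, 0, 0, 2, 2, 0, 1, 0, 1, 1, 2], 507, 0),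
  ([2, 3, 2, 1, 3, 1, 1, 2, 3, 3, 0, 1, 0, 3, 1, 2, 2, 3, 0, 1, 0, 1, 2, 2, 3, 0, 1, 3, 0, 0, 2], 508, 1),
  ([3, 2, 1, 0, 3, 0, 2, 1, 2, 0, 3, 3, 1, 2, 1, 2, 3, 0, 0, 1, 2, 1, 1, 0, 2, 0, 1, 3, 0, 2, 2], 510, 0),
  ([0, 3, 1, 2, 0, 3, 2, 1, 1, 2, 3, 0, 1, 3, 0, 0, 0, 2, 2, 0, 3, 1, 2, 2, 0, 1, 1, 2, 1, 0, 2], 510, 1),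
  ([2, 0, 1, 1, 3, 3, 3, 0, 1, 2, 2, 1, 3, 1, 3, 0, 1, 0, 2, 2, 1, 0, 1, 3, 2, 0, 0, 0, 2, 2, 2], 512, 0),
  ([3, 0, 2, 3, 1, 0, 1, 2, 2, 3, 0, 1, 2, 3, 1, 1, 3, 1, 2, 0, 0, 1, 0, 1, 0, 2, 3, 2, 0, 2, 0], 513, 0),
  ([1, 0, 2, 3, 2, 1, 3, 0, 1, 2, 2, 0, 3, 1, 3, 0, 3, 3, 0, 2, 0, 2, 1, 0, 2, 1, 1, 2, 1, 0, 2], 514, 1),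
  ([1, 2, 3, 0, 0, 1, 3, 3, 3, 1, 2, 0, 2, 1, 1, 3, 0, 3, 0, 2, 1, 3, 2, 1, 2, 1, 2, 1, 0, 0, 2], 516, 0),
  ([3, 0, 1, 2, 2, 2, 2, 3, 0, 3, 0, 3, 1, 2, 1, 2, 0, 0, 3, 2, 1, 0, 1, 2, 0, 2, 3, 0, 1, 2, 0], 517, 1),
  ([2, 2, 0, 3, 2, 2, 1, 1, 1, 3, 3, 0, 2, 3, 0, 2, 0, 3, 1, 0, 2, 1, 3, 0, 1, 1, 1, 3, 0, 2, 0], 519, 0),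
  ([1, 2, 1, 1, 0, 3, 3, 2, 2, 0, 0, 1, 2, 3, 1, 2, 2, 0, 3, 0, 0, 1, 2, 0, 1, 3, 2, 0, 2, 0, 2], 520, 0),
  ([3, 3, 1, 1, 2, 0, 1, 3, 3, 0, 2, 1, 1, 2, 3, 2, 0, 3, 0, 2, 2, 1, 3, 1, 0, 0, 3, 0, 1, 2, 1], 521, 1),
  ([3, 3, 1, 0, 2, 3, 1, 3, 3, 1, 3, 1, 1, 2, 2, 0, 3, 0, 1, 2, 3, 0, 2, 0, 1, 3, 2, 1, 0, 0, 0], 523, 1),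
  ([3, 3, 1, 3, 1, 1, 2, 3, 1, 3, 0, 3, 2, 0, 3, 2, 2, 0, 1, 1, 2, 3, 0, 1, 3, 0, 1, 2, 0, 3, 1], 525, 2),
  ([1, 1, 3, 0, 2, 2, 3, 2, 1, 2, 1, 3, 2, 1, 0, 2, 3, 0, 3, 1, 0, 1, 0, 2, 2, 1, 3, 0, 0, 3, 2], 528, 1),
  ([1, 1, 1, 2, 1, 3, 3, 0, 3, 1, 2, 0, 3, 3, 1, 0, 2, 2, 1, 2, 0, 0, 1, 0, 3, 1, 3, 0, 2, 1, 2], 530, 1),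
  ([0, 3, 0, 3, 2, 1, 3, 0, 1, 3, 2, 1, 0, 1, 1, 2, 2, 2, 3, 0, 1, 0, 2, 0, 3, 1, 1, 0, 2, 2, 0], 532, 1),
  ([3, 3, 2, 3, 1, 3, 1, 2, 0, 1, 3, 1, 3, 0, 3, 2, 0, 3, 1, 2, 0, 0, 3, 1, 1, 0, 2, 1, 3, 1, 0], 534, 2),
  ([3, 0, 3, 1, 3, 3, 1, 1, 2, 0, 0, 2, 0, 3, 1, 2, 0, 1, 0, 3, 2, 0, 1, 2, 3, 1, 0, 2, 1, 0, 1], 537, 1),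
  ([1, 3, 3, 3, 1, 1, 0, 3, 1, 2, 3, 2, 0, 1, 1, 3, 0, 1, 2, 0, 3, 0, 1, 2, 0, 2, 3, 3, 1, 1, 1], 539, 0),
  ([2, 2, 0, 0, 2, 1, 3, 3, 3, 1, 1, 1, 2, 1, 3, 0, 3, 1, 3, 0, 1, 2, 1, 0, 0, 3, 2, 2, 0, 0, 2], 540, 0)]

theorem ct31_8_ok : Raw.runR 31 541 ct31_8 479 = true := by decide +kernel

def ct31_9 : List (List Nat × Nat × Nat) := [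
  ([1, 3, 1, 3, 2, 3, 1, 1, 0, 2, 1, 2, 2, 1, 0, 3, 3, 1, 0, 0, 3, 1, 3, 0, 2, 2, 0, 3, 1, 0, 2], 541, 1),
  ([0, 1, 2, 3, 2, 1, 2, 1, 3, 1, 3, 0, 3, 2, 3, 0, 0, 1, 3, 2, 0, 2, 0, 3, 1, 1, 2, 2, 0, 0, 2], 543, 1),
  ([2, 3, 1, 2, 2, 0, 0, 1, 3, 3, 1, 2, 1, 3, 0, 2, 0, 2, 3, 0, 2, 3, 0, 2, 1, 2, 3, 0, 1, 2, 0], 545, 1),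
  ([2, 1, 1, 3, 3, 0, 3, 1, 2, 2, 3, 2, 2, 0, 3, 1, 3, 1, 1, 0, 3, 0, 2, 3, 2, 0, 0, 2, 3, 1, 0], 547, 1),
  ([2, 0, 2, 3, 3, 1, 0, 3, 3, 1, 1, 1, 2, 0, 2, 3, 0, 1, 2, 1, 0, 0, 2, 3, 0, 3, 2, 2, 1, 2, 0], 549, 0),
  ([0, 1, 2, 3, 2, 0, 2, 1, 1, 3, 3, 2, 3, 1, 0, 3, 0, 3, 2, 1, 0, 1, 0, 2, 0, 1, 2, 1, 3, 2, 2], 550, 0),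
  ([2, 2, 3, 3, 1, 0, 1, 2, 3, 1, 3, 1, 0, 1, 0, 3, 2, 1, 3, 1, 0, 2, 3, 1, 0, 0, 0, 3, 0, 2, 2], 551, 0),
  ([0, 2, 3, 0, 3, 2, 0, 3, 0, 1, 2, 1, 3, 1, 0, 2, 2, 1, 3, 1, 2, 1, 0, 0, 2, 3, 0, 2, 0, 2, 1], 552, 1),
  ([1, 2, 3, 1, 1, 3, 3, 2, 0, 4, 1, 2, 0, 3, 3, 0, 1, 2, 1, 0, 3, 2, 1, 1, 2, 0, 3, 2, 0, 2, 1], 554, 1),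
  ([3, 1, 3, 2, 0, 3, 2, 0, 3, 1, 2, 3, 1, 3, 0, 2, 1, 2, 3, 1, 0, 3, 2, 0, 3, 2, 1, 1, 3, 0, 2], 556, 1),
  ([3, 2, 1, 0, 2, 0, 3, 2, 1, 1, 3, 2, 3, 3, 1, 3, 2, 0, 0, 3, 1, 3, 1, 2, 1, 0, 0, 3, 0, 2, 1], 558, 0),
  ([0, 3, 1, 3, 3, 2, 0, 3, 1, 2, 2, 3, 0, 0, 1, 2, 2, 3, 2, 1, 1, 0, 3, 1, 2, 0, 0, 1, 2, 0, 3], 559, 1),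
  ([3, 2, 0, 3, 1, 2, 3, 2, 0, 3, 0, 1, 3, 0, 2, 3, 2, 2, 1, 0, 1, 3, 1, 0, 2, 3, 0, 0, 1, 0, 2], 561, 2),
  ([2, 3, 1, 2, 3, 2, 0, 3, 1, 3, 2, 1, 3, 1, 1, 0, 3, 3, 0, 0, 1, 3, 1, 3, 0, 0, 2, 0, 1, 1, 3], 564, 0),
  ([0, 1, 2, 0, 2, 3, 2, 1, 3, 1, 0, 3, 3, 1, 2, 0, 3, 0, 2, 2, 0, 2, 3, 3, 0, 0, 1, 2, 1, 1, 1], 565, 0),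
  ([1, 2, 2, 0, 1, 3, 2, 1, 3, 0, 3, 3, 0, 1, 0, 1, 0, 2, 3, 3, 1, 2, 1, 0, 2, 0, 2, 3, 0, 2, 1], 566, 1),
  ([0, 2, 3, 3, 1, 2, 0, 3, 0, 2, 2, 0, 1, 0, 3, 0, 2, 1, 1, 3, 0, 0, 2, 1, 1, 0, 2, 1, 3, 0, 2], 568, 1),
  ([3, 2, 3, 0, 3, 1, 2, 0, 1, 3, 1, 2, 3, 0, 2, 1, 0, 3, 1, 0, 2, 2, 2, 3, 0, 0, 3, 0, 0, 2, 1], 570, 2),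
  ([2, 1, 2, 1, 3, 0, 1, 3, 2, 1, 0, 2, 3, 0, 2, 1, 0, 3, 3, 3, 0, 1, 2, 0, 2, 0, 1, 0, 2, 0, 3], 573, 1),
  ([0, 3, 3, 2, 0, 2, 2, 2, 0, 1, 3, 0, 3, 1, 2, 1, 3, 0, 3, 1, 3, 0, 2, 0, 2, 0, 1, 2, 2, 0, 0], 575, 2),
  ([1, 2, 0, 2, 3, 3, 0, 0, 1, 1, 3, 2, 1, 0, 3, 1, 3, 0, 2, 3, 1, 0, 3, 0, 2, 2, 0, 1, 2, 2, 1], 578, 1),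
  ([0, 2, 2, 3, 3, 1, 3, 2, 1, 0, 3, 3, 1, 3, 0, 0, 1, 2, 2, 1, 0, 3, 3, 0, 2, 0, 2, 0, 0, 2, 0], 580, 1),
  ([1, 1, 3, 0, 3, 1, 2, 1, 3, 0, 2, 0, 3, 2, 2, 0, 3, 1, 3, 2, 1, 0, 0, 3, 2, 1, 2, 3, 0, 1, 2], 582, 2),
  ([3, 2, 3, 2, 0, 2, 1, 3, 2, 0, 1, 0, 3, 1, 3, 0, 1, 2, 0, 2, 3, 0, 3, 1, 0, 0, 3, 0, 2, 1, 2], 585, 1),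
  ([0, 1, 3, 1, 1, 3, 1, 3, 2, 0, 3, 2, 0, 1, 1, 2, 3, 3, 0, 2, 0, 1, 1, 0, 3, 3, 0, 2, 2, 1, 2], 587, 1),
  ([1, 1, 2, 3, 1, 2, 0, 3, 3, 2, 0, 1, 2, 0, 3, 1, 3, 0, 3, 3, 0, 2, 1, 2, 0, 0, 0, 2, 3, 2, 1], 589, 2),
  ([2, 1, 0, 3, 0, 3, 1, 3, 2, 3, 1, 0, 0, 2, 2, 3, 1, 3, 1, 0, 2, 1, 3, 3, 0, 0, 2, 0, 2, 2, 1], 592, 1),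
  ([1, 1, 0, 3, 2, 0, 1, 1, 3, 1, 3, 3, 0, 2, 0, 3, 2, 0, 1, 3, 0, 1, 2, 3, 1, 2, 0, 2, 0, 2, 2], 594, 2),
  ([2, 3, 0, 3, 2, 0, 1, 3, 3, 3, 0, 1, 2, 3, 2, 1, 2, 1, 0, 0, 0, 3, 0, 2, 3, 1, 0, 3, 1, 0, 1], 597, 0),
  ([1, 2, 1, 0, 3, 3, 2, 1, 3, 0, 2, 3, 2, 1, 3, 1, 0, 1, 3, 0, 3, 1, 1, 3, 2, 2, 3, 1, 0, 0, 3], 598, 1),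
  ([1, 2, 3, 0, 0, 3, 1, 3, 1, 2, 3, 0, 3, 2, 0, 3, 2, 3, 0, 1, 3, 0, 1, 2, 0, 3, 2, 0, 1, 1, 1], 599, 2),
  ([0, 3, 3, 2, 0, 2, 3, 1, 1, 3, 0, 2, 1, 1, 3, 0, 2, 1, 3, 2, 1, 3, 0, 3, 0, 2, 1, 1, 0, 0, 3], 602, 2),
  ([3, 0, 1, 2, 3, 3, 0, 3, 2, 2, 3, 1, 2, 0, 0, 2, 3, 1, 1, 0, 2, 3, 3, 0, 1, 1, 0, 0, 2, 0, 3], 605, 1),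
  ([1, 1, 3, 0, 4, 2, 3, 1, 2, 2, 3, 3, 1, 1, 0, 3, 2, 1, 3, 0, 0, 3, 3, 0, 1, 2, 3, 0, 2, 1, 1], 607, 2),
  ([1, 3, 3, 2, 1, 2, 3, 0, 3, 0, 0, 2, 3, 1, 3, 3, 1, 2, 0, 0, 2, 3, 1, 2, 3, 2, 1, 0, 0, 0, 3], 610, 1),
  ([0, 3, 0, 3, 2, 3, 1, 1, 3, 1, 1, 3, 2, 0, 2, 3, 0, 0, 1, 2, 2, 3, 0, 1, 3, 2, 0, 1, 1, 0, 3], 612, 2),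
  ([1, 2, 1, 1, 3, 0, 3, 1, 3, 1, 2, 0, 3, 0, 2, 3, 1, 2, 0, 3, 0, 1, 3, 2, 3, 0, 2, 3, 1, 2, 0], 615, 2),
  ([3, 1, 2, 0, 4, 1, 2, 3, 0, 2, 1, 3, 3, 1, 0, 1, 3, 0, 2, 1, 3, 3, 1, 2, 0, 2, 0, 2, 3, 0, 1], 618, 2),
  ([3, 3, 4, 1, 3, 0, 3, 2, 0, 2, 1, 3, 1, 0, 3, 2, 1, 3, 2, 0, 1, 2, 3, 0, 3, 0, 0, 2, 1, 0, 0], 621, 3),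
  ([4, 2, 2, 2, 3, 1, 3, 0, 0, 3, 2, 3, 1, 1, 0, 3, 1, 1, 3, 2, 0, 3, 3, 2, 0, 0, 3, 0, 2, 1, 0], 625, 2),
  ([3, 0, 2, 0, 1, 3, 1, 2, 2, 3, 0, 3, 1, 2, 0, 3, 2, 2, 1, 3, 1, 0, 1, 3, 1, 0, 3, 0, 2, 0, 3], 628, 2),
  ([3, 0, 2, 1, 3, 1, 3, 1, 3, 1, 3, 2, 3, 0, 0, 2, 0, 1, 3, 0, 3, 2, 2, 1, 3, 1, 3, 0, 3, 1, 0], 631, 2),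
  ([1, 3, 1, 1, 3, 0, 3, 2, 3, 0, 3, 2, 0, 3, 2, 2, 0, 2, 1, 0, 1, 2, 3, 0, 3, 3, 0, 1, 1, 3, 0], 634, 2),
  ([0, 3, 2, 2, 1, 3, 1, 2, 3, 1, 2, 0, 2, 0, 3, 0, 3, 1, 0, 3, 0, 1, 0, 3, 1, 3, 0, 2, 1, 3, 2], 637, 2),
  ([2, 0, 3, 1, 2, 1, 2, 3, 3, 0, 2, 1, 3, 0, 1, 3, 0, 0, 3, 1, 1, 2, 2, 0, 3, 1, 0, 3, 0, 0, 3], 640, 2)]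

theorem ct31_9_ok : Raw.runR 31 643 ct31_9 541 = true := by decide +kernel

def ct31_10 : List (List Nat × Nat × Nat) := [
  ([4, 3, 1, 1, 2, 2, 3, 0, 1, 1, 2, 3, 1, 2, 3, 0, 3, 1, 2, 3, 3, 0, 3, 0, 1, 0, 2, 3, 3, 0, 0], 643, 1),
  ([1, 0, 2, 3, 2, 1, 3, 3, 2, 0, 3, 2, 3, 0, 3, 2, 3, 1, 0, 3, 1, 0, 0, 1, 1, 1, 2, 3, 3, 0, 3], 645, 0),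
  ([0, 3, 3, 1, 2, 2, 0, 3, 2, 1, 1, 0, 1, 0, 3, 2, 1, 2, 3, 0, 3, 1, 0, 3, 2, 3, 0, 0, 3, 1, 2], 646, 1),
  ([3, 3, 0, 3, 1, 2, 2, 1, 2, 3, 3, 1, 0, 3, 0, 2, 1, 1, 0, 3, 3, 0, 1, 0, 1, 3, 3, 0, 0, 2, 3], 648, 1),
  ([0, 2, 3, 0, 1, 2, 3, 3, 1, 2, 2, 1, 2, 3, 3, 0, 0, 2, 1, 0, 3, 3, 0, 0, 3, 1, 2, 0, 2, 0, 3], 650, 2),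
  ([3, 1, 0, 2, 1, 0, 3, 2, 3, 3, 1, 1, 3, 1, 3, 0, 3, 0, 0, 3, 1, 2, 1, 0, 0, 2, 3, 2, 0, 1, 3], 653, 2),
  ([0, 1, 4, 2, 3, 0, 2, 3, 0, 1, 3, 3, 1, 1, 0, 1, 2, 2, 3, 1, 3, 2, 1, 0, 3, 0, 2, 0, 2, 1, 3], 656, 2),
  ([1, 3, 3, 4, 0, 0, 1, 3, 1, 2, 2, 0, 1, 3, 1, 0, 2, 3, 2, 3, 0, 0, 0, 3, 2, 1, 3, 0, 1, 2, 1], 659, 2),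
  ([2, 3, 4, 0, 1, 0, 1, 3, 3, 3, 2, 3, 0, 2, 1, 1, 3, 3, 0, 3, 1, 3, 1, 0, 3, 0, 2, 3, 1, 2, 1], 662, 0),
  ([1, 2, 0, 2, 2, 4, 3, 3, 1, 0, 2, 1, 0, 2, 3, 0, 2, 1, 3, 0, 0, 2, 0, 2, 3, 1, 1, 3, 2, 0, 3], 663, 1),
  ([3, 0, 3, 3, 3, 1, 1, 4, 0, 3, 1, 3, 1, 2, 2, 1, 1, 3, 3, 0, 2, 0, 0, 3, 3, 1, 0, 0, 1, 3, 1], 665, 2),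
  ([1, 2, 3, 0, 1, 2, 2, 4, 2, 3, 0, 3, 0, 2, 3, 2, 0, 3, 1, 0, 2, 1, 3, 1, 3, 3, 0, 1, 2, 0, 3], 668, 2),
  ([3, 0, 3, 1, 3, 0, 4, 1, 3, 1, 1, 3, 3, 2, 0, 3, 1, 0, 2, 1, 0, 3, 0, 3, 2, 1, 1, 3, 0, 2, 1], 671, 3),
  ([1, 0, 3, 3, 0, 1, 2, 1, 3, 3, 0, 3, 1, 2, 0, 0, 3, 2, 0, 1, 3, 2, 1, 2, 3, 0, 3, 1, 1, 3, 2], 675, 2),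
  ([2, 2, 3, 0, 1, 1, 4, 3, 2, 1, 0, 0, 3, 0, 1, 3, 3, 3, 2, 1, 2, 0, 3, 0, 3, 1, 2, 1, 2, 0, 3], 678, 1),
  ([3, 0, 3, 2, 3, 3, 0, 1, 3, 1, 0, 2, 2, 0, 3, 1, 3, 2, 1, 0, 2, 3, 0, 0, 3, 1, 3, 0, 1, 0, 3], 680, 3),
  ([1, 3, 1, 2, 4, 0, 0, 4, 2, 1, 3, 3, 0, 3, 1, 1, 2, 0, 0, 3, 2, 1, 2, 2, 3, 1, 0, 1, 3, 0, 2], 684, 3),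
  ([1, 1, 3, 0, 3, 1, 2, 1, 2, 3, 2, 2, 3, 0, 0, 4, 3, 3, 0, 0, 2, 3, 0, 3, 1, 1, 0, 2, 1, 2, 3], 688, 1),
  ([2, 3, 1, 1, 1, 3, 0, 4, 1, 4, 2, 1, 2, 0, 3, 1, 2, 3, 2, 0, 3, 3, 0, 1, 2, 1, 3, 0, 0, 3, 0], 690, 2),
  ([3, 2, 0, 3, 2, 0, 0, 1, 3, 2, 0, 3, 0, 3, 2, 1, 0, 0, 3, 2, 3, 0, 0, 2, 1, 3, 1, 2, 3, 0, 1], 693, 2),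
  ([1, 2, 2, 1, 1, 3, 1, 4, 0, 2, 3, 0, 3, 1, 3, 1, 1, 3, 0, 3, 3, 1, 2, 0, 3, 3, 0, 1, 2, 3, 3], 696, 2),
  ([0, 1, 3, 0, 3, 4, 3, 1, 2, 2, 0, 3, 3, 1, 0, 3, 1, 3, 2, 0, 1, 3, 0, 3, 2, 1, 0, 2, 1, 1, 3], 699, 3),
  ([3, 3, 4, 2, 4, 1, 0, 2, 3, 3, 1, 3, 0, 2, 3, 0, 1, 3, 1, 2, 0, 3, 1, 3, 0, 3, 0, 0, 0, 2, 0], 703, 3),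
  ([1, 1, 0, 3, 2, 2, 1, 3, 4, 1, 0, 1, 3, 2, 3, 3, 1, 0, 1, 1, 2, 3, 0, 1, 3, 3, 0, 0, 3, 2, 3], 707, 1),
  ([2, 3, 2, 2, 1, 3, 1, 0, 0, 2, 3, 0, 3, 4, 1, 3, 0, 2, 3, 0, 0, 2, 3, 1, 1, 2, 0, 3, 0, 3, 0], 709, 2),
  ([2, 0, 3, 3, 4, 1, 0, 2, 3, 3, 0, 1, 2, 2, 3, 1, 1, 0, 2, 3, 0, 0, 1, 3, 3, 1, 1, 0, 3, 0, 3], 712, 2),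
  ([1, 1, 3, 1, 0, 4, 1, 2, 3, 1, 3, 1, 4, 0, 3, 0, 2, 3, 2, 0, 2, 0, 1, 3, 0, 2, 3, 1, 3, 2, 1], 715, 4),
  ([4, 3, 1, 4, 4, 3, 1, 2, 3, 2, 0, 2, 0, 1, 3, 3, 3, 0, 0, 3, 3, 0, 1, 2, 0, 3, 0, 1, 0, 2, 1], 720, 1),
  ([1, 2, 0, 1, 1, 3, 4, 2, 0, 3, 1, 2, 0, 3, 0, 3, 1, 0, 2, 3, 3, 1, 2, 3, 0, 1, 3, 2, 2, 3, 0], 722, 2),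
  ([2, 3, 1, 2, 4, 2, 1, 4, 0, 3, 1, 3, 1, 1, 4, 3, 0, 1, 0, 3, 3, 3, 3, 0, 1, 2, 1, 2, 0, 3, 0], 725, 3),
  ([2, 0, 4, 4, 1, 3, 2, 1, 0, 3, 1, 3, 1, 2, 4, 3, 1, 3, 1, 0, 2, 0, 0, 1, 3, 3, 2, 0, 3, 1, 1], 729, 2),
  ([0, 2, 1, 1, 3, 0, 2, 4, 2, 2, 3, 3, 1, 0, 3, 1, 0, 3, 2, 1, 3, 2, 3, 0, 0, 1, 3, 3, 0, 3, 2], 732, 2),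
  ([1, 4, 3, 2, 3, 0, 3, 1, 2, 2, 2, 3, 0, 0, 4, 0, 1, 1, 3, 0, 3, 3, 3, 0, 1, 2, 1, 0, 2, 0, 3], 735, 2),
  ([3, 3, 0, 2, 2, 3, 3, 3, 0, 1, 1, 3, 4, 0, 2, 3, 1, 2, 0, 0, 4, 3, 1, 3, 2, 1, 0, 1, 3, 0, 0], 738, 1),
  ([0, 2, 3, 3, 1, 4, 3, 1, 0, 3, 3, 1, 4, 1, 2, 0, 0, 3, 2, 3, 0, 1, 1, 3, 3, 0, 3, 0, 1, 2, 1], 740, 3),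
  ([1, 3, 3, 1, 3, 1, 0, 4, 3, 1, 0, 2, 0, 3, 2, 1, 0, 2, 3, 0, 3, 4, 0, 1, 2, 2, 2, 0, 1, 0, 3], 744, 2),
  ([1, 3, 3, 2, 3, 0, 1, 4, 0, 1, 4, 3, 2, 3, 2, 2, 0, 3, 0, 0, 3, 1, 0, 2, 3, 1, 0, 3, 0, 2, 0], 747, 3),
  ([1, 4, 3, 1, 4, 1, 2, 3, 2, 0, 0, 1, 2, 3, 0, 3, 2, 2, 1, 4, 0, 0, 3, 0, 1, 3, 3, 0, 2, 2, 2], 751, 2),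
  ([0, 1, 3, 4, 3, 0, 3, 0, 1, 3, 2, 2, 0, 1, 3, 3, 2, 3, 0, 0, 0, 3, 3, 2, 1, 1, 3, 0, 2, 0, 2], 754, 2),
  ([0, 3, 1, 3, 4, 2, 1, 2, 1, 4, 0, 4, 3, 0, 3, 2, 1, 3, 2, 1, 3, 1, 1, 1, 3, 1, 0, 3, 3, 0, 3], 757, 2),
  ([4, 1, 3, 2, 3, 1, 1, 3, 2, 0, 3, 0, 2, 4, 2, 2, 4, 1, 0, 3, 3, 0, 1, 1, 3, 3, 0, 0, 0, 2, 3], 760, 2),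
  ([1, 3, 1, 0, 3, 1, 3, 3, 0, 2, 0, 1, 3, 3, 2, 1, 3, 2, 3, 0, 1, 1, 1, 2, 0, 3, 3, 0, 4, 0, 3], 763, 0),
  ([0, 2, 4, 3, 0, 1, 2, 3, 3, 3, 1, 1, 2, 3, 0, 3, 1, 0, 3, 3, 2, 0, 2, 1, 3, 0, 3, 0, 3, 3, 0], 764, 2),
  ([0, 2, 2, 0, 3, 3, 1, 4, 1, 3, 2, 0, 0, 3, 2, 2, 2, 0, 0, 3, 1, 3, 0, 2, 0, 0, 2, 3, 3, 3, 1], 767, 2),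
  ([0, 2, 2, 3, 2, 3, 4, 0, 1, 3, 3, 4, 1, 2, 2, 1, 0, 3, 0, 3, 0, 3, 0, 3, 2, 0, 1, 1, 3, 0, 3], 770, 3)]

theorem ct31_10_ok : Raw.runR 31 774 ct31_10 643 = true := by decide +kernel

def ct31_11 : List (List Nat × Nat × Nat) := [
  ([2, 0, 3, 4, 2, 3, 1, 3, 1, 2, 0, 1, 0, 2, 4, 3, 0, 1, 1, 3, 0, 1, 2, 4, 2, 1, 0, 3, 3, 0, 2], 774, 1),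
  ([2, 1, 0, 3, 0, 3, 4, 3, 1, 2, 3, 1, 0, 4, 2, 1, 3, 3, 0, 3, 1, 2, 2, 3, 0, 0, 0, 2, 0, 0, 3], 776, 2),
  ([1, 0, 3, 0, 3, 0, 1, 3, 4, 0, 3, 1, 2, 3, 0, 3, 2, 2, 1, 3, 0, 0, 0, 1, 3, 3, 1, 2, 1, 1, 3], 779, 3),
  ([3, 2, 0, 3, 3, 1, 2, 3, 0, 2, 0, 2, 0, 3, 1, 4, 0, 3, 0, 2, 1, 2, 3, 3, 0, 0, 0, 2, 3, 3, 0], 783, 3),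
  ([1, 1, 4, 4, 3, 0, 3, 3, 1, 3, 2, 0, 1, 0, 4, 2, 0, 3, 1, 0, 3, 2, 0, 1, 3, 3, 3, 1, 0, 1, 1], 787, 3),
  ([4, 0, 4, 0, 2, 3, 2, 2, 4, 0, 3, 3, 1, 0, 0, 2, 3, 0, 1, 3, 3, 0, 2, 1, 1, 2, 3, 0, 2, 0, 2], 791, 3),
  ([3, 4, 0, 2, 4, 3, 1, 1, 2, 2, 0, 3, 0, 0, 3, 2, 3, 3, 4, 1, 2, 0, 2, 0, 3, 0, 0, 2, 3, 0, 1], 795, 2),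
  ([1, 1, 1, 3, 4, 0, 4, 2, 0, 1, 3, 4, 1, 3, 0, 3, 3, 0, 2, 2, 0, 1, 3, 3, 1, 1, 0, 2, 2, 0, 3], 798, 4),
  ([2, 3, 1, 2, 0, 1, 3, 3, 4, 2, 3, 0, 3, 3, 4, 0, 2, 1, 0, 4, 1, 3, 1, 0, 3, 3, 0, 1, 0, 3, 1], 803, 1),
  ([3, 3, 0, 3, 2, 3, 1, 4, 2, 3, 0, 3, 0, 2, 1, 0, 1, 4, 3, 0, 3, 0, 2, 3, 3, 0, 0, 2, 1, 0, 3], 805, 3),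
  ([1, 3, 0, 2, 1, 4, 3, 1, 1, 2, 4, 3, 2, 2, 0, 4, 1, 2, 3, 0, 0, 2, 4, 0, 0, 3, 1, 3, 2, 0, 2], 809, 3),
  ([1, 1, 4, 3, 0, 2, 1, 3, 4, 0, 3, 1, 3, 1, 3, 1, 3, 4, 0, 2, 4, 2, 0, 1, 3, 3, 2, 0, 0, 2, 2], 813, 3),
  ([0, 2, 4, 1, 1, 3, 4, 1, 2, 4, 3, 3, 2, 0, 3, 1, 1, 3, 0, 4, 3, 1, 3, 2, 0, 1, 0, 2, 0, 3, 3], 817, 4),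
  ([3, 4, 0, 1, 3, 2, 4, 1, 2, 4, 0, 2, 3, 3, 2, 4, 0, 1, 3, 1, 3, 0, 0, 0, 3, 1, 1, 3, 0, 1, 3], 822, 4),
  ([1, 0, 0, 3, 4, 1, 3, 3, 2, 0, 2, 4, 0, 4, 1, 0, 3, 1, 2, 3, 0, 3, 1, 2, 2, 1, 0, 2, 0, 2, 3], 827, 3),
  ([1, 0, 1, 3, 3, 4, 0, 2, 1, 4, 0, 4, 2, 3, 0, 2, 3, 0, 1, 3, 3, 1, 2, 3, 1, 3, 1, 0, 0, 3, 1], 831, 3),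
  ([1, 1, 2, 4, 1, 1, 3, 2, 0, 4, 2, 0, 4, 0, 3, 0, 3, 0, 1, 3, 3, 2, 0, 3, 1, 3, 2, 1, 1, 3, 3], 835, 4),
  ([3, 4, 0, 3, 3, 0, 3, 4, 0, 3, 1, 2, 2, 2, 4, 1, 3, 1, 3, 3, 0, 4, 1, 1, 4, 1, 1, 3, 2, 0, 0], 840, 1),
  ([1, 3, 0, 4, 0, 2, 4, 4, 3, 1, 3, 3, 2, 2, 0, 1, 0, 4, 1, 2, 1, 0, 3, 1, 3, 0, 2, 3, 0, 1, 3], 842, 4),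
  ([4, 3, 0, 2, 4, 4, 3, 1, 0, 3, 1, 0, 3, 3, 1, 3, 3, 1, 1, 2, 0, 3, 1, 0, 4, 0, 0, 3, 0, 1, 2], 847, 3),
  ([1, 1, 1, 4, 2, 1, 3, 0, 4, 3, 1, 1, 3, 0, 2, 0, 4, 1, 4, 0, 2, 3, 1, 3, 3, 0, 1, 2, 3, 1, 3], 851, 5),
  ([3, 3, 2, 0, 2, 4, 1, 2, 2, 0, 4, 3, 4, 2, 1, 2, 0, 4, 0, 3, 3, 4, 1, 1, 0, 0, 2, 0, 3, 3, 1], 857, 2),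
  ([3, 0, 4, 4, 0, 2, 1, 2, 4, 2, 0, 1, 3, 1, 3, 1, 4, 0, 3, 3, 2, 1, 4, 1, 0, 3, 1, 2, 3, 0, 2], 860, 4),
  ([1, 1, 4, 2, 4, 2, 1, 0, 3, 3, 3, 1, 4, 1, 0, 3, 4, 0, 3, 1, 3, 2, 2, 4, 2, 0, 2, 1, 0, 1, 4], 865, 3),
  ([4, 1, 0, 1, 3, 2, 0, 3, 3, 3, 0, 1, 0, 4, 4, 3, 3, 1, 3, 0, 1, 2, 3, 0, 3, 2, 0, 1, 1, 3, 0], 869, 3),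
  ([4, 2, 0, 2, 3, 0, 1, 0, 4, 2, 4, 3, 0, 1, 4, 3, 1, 1, 0, 2, 3, 1, 3, 1, 2, 0, 0, 2, 3, 3, 0], 873, 4),
  ([3, 3, 3, 1, 2, 4, 0, 0, 4, 1, 2, 4, 0, 4, 0, 2, 2, 1, 3, 4, 3, 1, 3, 0, 2, 1, 3, 0, 1, 3, 0], 878, 5),
  ([1, 3, 3, 2, 0, 4, 2, 1, 3, 1, 1, 0, 3, 4, 3, 0, 0, 4, 0, 4, 1, 3, 3, 3, 1, 0, 2, 3, 1, 2, 0], 884, 3),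
  ([4, 2, 3, 1, 3, 4, 1, 1, 3, 3, 0, 0, 4, 1, 1, 2, 0, 4, 2, 0, 4, 4, 0, 0, 2, 3, 1, 1, 3, 1, 2], 888, 3),
  ([3, 1, 4, 1, 3, 2, 4, 0, 3, 0, 1, 2, 2, 4, 0, 3, 0, 4, 1, 0, 4, 1, 1, 3, 2, 2, 0, 1, 3, 3, 0], 892, 6),
  ([3, 0, 3, 4, 3, 1, 1, 1, 4, 4, 0, 2, 1, 3, 3, 4, 0, 2, 0, 3, 4, 1, 4, 0, 1, 2, 1, 3, 2, 0, 1], 899, 5),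
  ([3, 1, 4, 2, 4, 3, 3, 0, 3, 2, 3, 1, 4, 0, 4, 0, 1, 0, 4, 1, 4, 3, 0, 2, 3, 0, 3, 0, 2, 1, 1], 905, 5),
  ([3, 2, 3, 0, 1, 3, 2, 4, 1, 3, 3, 0, 4, 1, 1, 1, 4, 0, 3, 1, 0, 3, 4, 1, 2, 4, 0, 3, 0, 1, 3], 911, 5),
  ([3, 1, 4, 3, 2, 3, 0, 1, 0, 4, 3, 0, 0, 4, 1, 1, 4, 3, 1, 4, 0, 3, 0, 1, 3, 2, 2, 3, 1, 0, 1], 917, 4),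
  ([2, 4, 0, 2, 3, 0, 1, 2, 3, 3, 1, 2, 4, 0, 4, 0, 3, 1, 4, 0, 1, 4, 0, 3, 0, 2, 3, 2, 1, 3, 1], 922, 5),
  ([0, 3, 4, 0, 4, 2, 0, 1, 2, 2, 3, 0, 4, 2, 0, 0, 2, 4, 1, 3, 0, 2, 2, 3, 0, 1, 0, 3, 0, 3, 1], 928, 6),
  ([1, 4, 2, 4, 0, 1, 3, 3, 1, 1, 3, 0, 3, 4, 0, 0, 3, 1, 3, 2, 1, 1, 4, 3, 4, 0, 0, 2, 3, 0, 2], 935, 5),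
  ([1, 4, 3, 0, 2, 1, 3, 4, 1, 3, 3, 1, 4, 0, 0, 4, 1, 0, 2, 4, 1, 2, 1, 4, 3, 1, 3, 0, 0, 2, 3], 941, 6),
  ([3, 4, 4, 4, 0, 0, 3, 2, 1, 2, 3, 4, 0, 1, 1, 0, 3, 3, 2, 1, 3, 4, 2, 0, 1, 0, 4, 0, 1, 3, 0], 948, 4),
  ([1, 3, 4, 2, 0, 0, 4, 2, 4, 1, 3, 0, 4, 2, 1, 0, 3, 3, 4, 1, 1, 3, 4, 1, 2, 3, 0, 3, 0, 0, 1], 953, 5),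
  ([0, 4, 1, 4, 2, 4, 1, 1, 0, 4, 3, 4, 1, 2, 2, 2, 0, 1, 4, 3, 1, 4, 1, 3, 1, 4, 0, 3, 0, 2, 2], 959, 5),
  ([1, 4, 1, 4, 0, 3, 4, 3, 0, 1, 3, 1, 4, 0, 2, 3, 2, 0, 4, 3, 1, 3, 4, 1, 1, 1, 2, 3, 0, 1, 4], 965, 7),
  ([4, 4, 0, 1, 2, 3, 0, 2, 4, 0, 2, 4, 1, 4, 1, 2, 4, 1, 3, 0, 3, 3, 0, 1, 4, 0, 1, 1, 2, 3, 0], 973, 7),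
  ([1, 1, 4, 4, 4, 0, 2, 3, 3, 0, 4, 2, 0, 2, 4, 1, 3, 2, 0, 1, 4, 0, 2, 0, 0, 4, 3, 1, 2, 1, 3], 981, 7),
  ([1, 3, 4, 4, 1, 1, 2, 2, 4, 4, 2, 0, 4, 3, 1, 1, 0, 2, 0, 3, 4, 0, 4, 0, 3, 1, 4, 2, 0, 2, 0], 989, 6)]

theorem ct31_11_ok : Raw.runR 31 996 ct31_11 774 = true := by decide +kernel

end Pool.Agent.Wil
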