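import Mathlib
import Pool.Agent.Wil.Tail

set_option autoImplicit false

/-! The tail (staircase cores) for a general prime. -/

namespace Pool.Agent.Wil

open Real

-- BEGIN gen_size
private theorem gen_size_gauss (e : ℕ) :
    ∑ d ∈ Finset.range e, ((e : ℝ) - d) = (e : ℝ) * (e + 1) / 2 := by
  induction e with
  | zero => simp
  | succ e ih =>
    rw [Finset.sum_range_succ]
    have h1 : ∑ d ∈ Finset.range e, (((e + 1 : ℕ) : ℝ) - d) =
        ∑ d ∈ Finset.range e, ((e : ℝ) - d) + e := by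
      have h2 : ∀ d ∈ Finset.range e, (((e + 1 : ℕ) : ℝ) - d) = ((e : ℝ) - d) + 1 := by
        intro d _
        push_cast
        ring
      rw [Finset.sum_congr rfl h2, Finset.sum_add_distrib]
      simp
    rw [h1, ih]
    push_cast
    ring

private theorem gen_size_row (D : ℕ) :
    ∑ d ∈ Finset.range D, ((D : ℝ) - d) * (if 0 < d then (1 : ℝ) else 0) =
      (D : ℝ) * (D - 1) / 2 := by
  cases D with
  | zero => simp
  | succ e =>
    rw [Finset.sum_range_succ']
    have h2 : ∀ d ∈ Finset.range e, (((e + 1 : ℕ) : ℝ) - ((d + 1 : ℕ) : ℝ)) *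
        (if 0 < d + 1 then (1 : ℝ) else 0) = (e : ℝ) - d := by
      intro d _
      rw [if_pos (Nat.succ_pos d)]
      push_cast
      ring
    rw [Finset.sum_congr rfl h2, gen_size_gauss]
    simp
    ring

private theorem gen_size_cell (p t : ℕ) :
    ((cells (beta (stair p t))).card : ℝ) = ∑ i ∈ Finset.range p, ∑ j ∈ Finset.range p,
      (if i < j then ((t * (j - i) : ℕ) : ℝ) * (((t * (j - i) : ℕ) : ℝ) - 1) / 2 else 0) := by
  have h := sum_cells_beta (stair p t) (fun _ => (1 : ℝ))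
  rw [Finset.sum_const, nsmul_eq_mul, mul_one] at h
  rw [h, ← Fin.sum_univ_eq_sum_range (fun i => ∑ j ∈ Finset.range p,
      (if i < j then ((t * (j - i) : ℕ) : ℝ) * (((t * (j - i) : ℕ) : ℝ) - 1) / 2 else 0)) p]
  refine Finset.sum_congr rfl fun i _ => ?_
  rw [← Fin.sum_univ_eq_sum_range (fun j =>
      (if (i : ℕ) < j then ((t * (j - i) : ℕ) : ℝ) * (((t * (j - i) : ℕ) : ℝ) - 1) / 2 else 0)) p]
  refine Finset.sum_congr rfl fun j _ => ?_
  have hi := i.isLt
  have hj := j.isLt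
  by_cases hij : (i : ℕ) < j
  · have h1 : stair p t i - stair p t j = t * ((j : ℕ) - i) := by
      unfold stair
      rw [← Nat.mul_sub]
      congr 1
      omega
    rw [h1, if_pos hij, ← gen_size_row]
    refine Finset.sum_congr rfl fun d _ => ?_
    have h2 : ((j : ℕ) < (i : ℕ) ∨ 0 < d) ↔ 0 < d := by
      constructor
      · rintro (h | h)
        · omega
        · exact h
      · exact Or.inr
    simp only [h2]
  · have h1 : stair p t i - stair p t j = 0 := by
      unfold stair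
      rw [← Nat.mul_sub]
      have : p - 1 - (i : ℕ) - (p - 1 - (j : ℕ)) = 0 := by omega
      rw [this, Nat.mul_zero]
    rw [h1, if_neg hij, Finset.range_zero, Finset.sum_empty]

private theorem gen_size_last (g : ℕ → ℝ) (p : ℕ) :
    ∑ i ∈ Finset.range p, g (p - i) = ∑ δ ∈ Finset.Ico 1 (p + 1), g δ := by
  rw [Finset.sum_Ico_eq_sum_range, Nat.add_sub_cancel, ← Finset.sum_range_reflect]
  refine Finset.sum_congr rfl fun i hi => ?_
  have h := Finset.mem_range.1 hi
  congr 1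
  omega

private theorem gen_size_comb (g : ℕ → ℝ) (p : ℕ) :
    ∑ i ∈ Finset.range p, ∑ j ∈ Finset.range p, (if i < j then g (j - i) else 0) =
      ∑ δ ∈ Finset.Ico 1 p, ((p : ℝ) - δ) * g δ := by
  induction p with
  | zero => simp
  | succ p ih =>
    rw [Finset.sum_range_succ]
    have h1 : ∀ i ∈ Finset.range p, ∑ j ∈ Finset.range (p + 1), (if i < j then g (j - i) else 0) =
        ∑ j ∈ Finset.range p, (if i < j then g (j - i) else 0) + g (p - i) := by
      intro i hi
      rw [Finset.sum_range_succ, if_pos (Finset.mem_range.1 hi)]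
    have h2 : ∑ j ∈ Finset.range (p + 1), (if p < j then g (j - p) else 0) = 0 := by
      refine Finset.sum_eq_zero fun j hj => ?_
      rw [if_neg]
      have := Finset.mem_range.1 hj
      omega
    rw [Finset.sum_congr rfl h1, Finset.sum_add_distrib, ih, h2, add_zero, gen_size_last]
    rcases Nat.eq_zero_or_pos p with rfl | hp
    · simp
    rw [Finset.sum_Ico_succ_top (by omega : 1 ≤ p), Finset.sum_Ico_succ_top (by omega : 1 ≤ p)]
    have h3 : ∑ δ ∈ Finset.Ico 1 p, (((p + 1 : ℕ) : ℝ) - δ) * g δ =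
        ∑ δ ∈ Finset.Ico 1 p, ((p : ℝ) - δ) * g δ + ∑ δ ∈ Finset.Ico 1 p, g δ := by
      rw [← Finset.sum_add_distrib]
      refine Finset.sum_congr rfl fun δ _ => ?_
      push_cast
      ring
    rw [h3]
    push_cast
    ring

private theorem gen_size_one (p : ℕ) (s : ℝ) :
    ∑ δ ∈ Finset.Ico 1 (p + 1), (s * δ) * (s * δ - 1) / 2 =
      s ^ 2 * ((p : ℝ) * (p + 1) * (2 * p + 1)) / 12 - s * ((p : ℝ) * (p + 1)) / 4 := by
  induction p with
  | zero => simp
  | succ p ih =>
    rw [Finset.sum_Ico_succ_top (by omega : 1 ≤ p + 1), ih]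
    push_cast
    ring

private theorem gen_size_sum (p : ℕ) (s : ℝ) :
    24 * ∑ i ∈ Finset.range p, ∑ j ∈ Finset.range p,
      (if i < j then (s * ((j - i : ℕ) : ℝ)) * (s * ((j - i : ℕ) : ℝ) - 1) / 2 else 0) =
      s ^ 2 * ((p : ℝ) ^ 2 * ((p : ℝ) ^ 2 - 1)) - 2 * s * ((p : ℝ) * ((p : ℝ) ^ 2 - 1)) := by
  induction p with
  | zero => simp
  | succ p ih =>
    rw [Finset.sum_range_succ]
    have h1 : ∀ i ∈ Finset.range p, ∑ j ∈ Finset.range (p + 1),
        (if i < j then (s * ((j - i : ℕ) : ℝ)) * (s * ((j - i : ℕ) : ℝ) - 1) / 2 else 0) =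
        ∑ j ∈ Finset.range p,
          (if i < j then (s * ((j - i : ℕ) : ℝ)) * (s * ((j - i : ℕ) : ℝ) - 1) / 2 else 0) +
          (s * ((p - i : ℕ) : ℝ)) * (s * ((p - i : ℕ) : ℝ) - 1) / 2 := by
      intro i hi
      rw [Finset.sum_range_succ, if_pos (Finset.mem_range.1 hi)]
    have h2 : ∑ j ∈ Finset.range (p + 1),
        (if p < j then (s * ((j - p : ℕ) : ℝ)) * (s * ((j - p : ℕ) : ℝ) - 1) / 2 else 0) = 0 := by
      refine Finset.sum_eq_zero fun j hj => ?_
      rw [if_neg]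
      have := Finset.mem_range.1 hj
      omega
    have h3 := gen_size_last (fun δ => (s * (δ : ℝ)) * (s * δ - 1) / 2) p
    rw [gen_size_one] at h3
    rw [Finset.sum_congr rfl h1, Finset.sum_add_distrib, h2, add_zero, mul_add, ih, h3]
    push_cast
    ring

/-- PROOF. As `stair_size` (Tail.lean; its private lemma `stair_size_cell` is general); `∑_{i<j<p} (j - i)² = p² (p² - 1) / 12`, `∑_{i<j<p} (j - i) = p (p² - 1) / 6` by induction on `p`. -/
theorem gen_size (p t : ℕ) (hp : 2 ≤ p) :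
    24 * (cells (beta (stair p t))).card + 2 * t * (p * (p ^ 2 - 1)) =
      t ^ 2 * (p ^ 2 * (p ^ 2 - 1)) := by
  have h := gen_size_cell p t
  have key : (24 : ℝ) * ((cells (beta (stair p t))).card : ℝ) + 2 * t * (p * ((p : ℝ) ^ 2 - 1)) =
      (t : ℝ) ^ 2 * ((p : ℝ) ^ 2 * ((p : ℝ) ^ 2 - 1)) := by
    rw [h]
    have h5 := gen_size_sum p (t : ℝ)
    push_cast [Nat.cast_mul] at h5 ⊢
    linarith
  have h1 : ((p ^ 2 - 1 : ℕ) : ℝ) = (p : ℝ) ^ 2 - 1 := by
    have h2 : 1 ≤ p ^ 2 := Nat.one_le_pow _ _ (by omega)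
    push_cast [Nat.cast_sub h2]
    ring
  have h3 : (((24 * (cells (beta (stair p t))).card + 2 * t * (p * (p ^ 2 - 1)) : ℕ)) : ℝ) =
      ((t ^ 2 * (p ^ 2 * (p ^ 2 - 1)) : ℕ) : ℝ) := by
    simp only [Nat.cast_add, Nat.cast_mul, Nat.cast_pow, h1]
    push_cast
    linarith
  exact_mod_cast h3
-- END gen_size

-- BEGIN gen_hook
private theorem gen_hook_comb (g : ℕ → ℝ) (p : ℕ) :
    ∑ i : Fin p, ∑ j : Fin p, (if (i : ℕ) < (j : ℕ) then g ((j : ℕ) - (i : ℕ)) else 0) =
      ∑ δ ∈ Finset.Ico 1 p, ((p : ℝ) - δ) * g δ := by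
  have h1 : ∀ f : ℕ → ℕ → ℝ, ∑ i : Fin p, ∑ j : Fin p, f i j =
      ∑ i ∈ Finset.range p, ∑ j ∈ Finset.range p, f i j := by
    intro f
    rw [Finset.sum_range]
    refine Finset.sum_congr rfl fun i _ => ?_
    rw [Finset.sum_range]
  rw [h1 (fun i j => if i < j then g (j - i) else 0)]
  exact gen_size_comb g p

private theorem gen_hook_gauss (D : ℕ) :
    ∑ d ∈ Finset.range D, (if 0 < d then ((D : ℝ) - d) else 0) = ((D : ℝ) ^ 2 - D) / 2 := by
  have h1 : ∀ n : ℕ, ∑ d ∈ Finset.range n, (d : ℝ) = (n : ℝ) * (n - 1) / 2 := by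
    intro n
    induction n with
    | zero => simp
    | succ n ih =>
      rw [Finset.sum_range_succ, ih]
      push_cast
      ring
  rcases D with _ | D
  · simp
  · rw [Finset.sum_range_succ']
    simp only [lt_irrefl, if_false, add_zero, Nat.succ_pos, if_true]
    have h2 : ∀ d ∈ Finset.range D, (((D + 1 : ℕ) : ℝ) - ((d + 1 : ℕ) : ℝ)) = (D : ℝ) - d := by
      intro d _
      push_cast
      ring
    rw [Finset.sum_congr rfl h2, Finset.sum_sub_distrib, h1, Finset.sum_const, Finset.card_range, nsmul_eq_mul]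
    push_cast
    ring

private theorem gen_hook_inner (p t i j : ℕ) (hi : i < p) (hj : j < p) (ht : 1 ≤ t) :
    2 * ∑ d ∈ Finset.range (t * (p - 1 - i) - t * (p - 1 - j)),
        log (((if j < i ∨ 0 < d then (d * p + i - j) ^ (t * (p - 1 - i) - t * (p - 1 - j) - d) else 1 : ℕ) : ℝ)) ≤
      (if i < j then (((((j - i : ℕ) : ℝ) * t) ^ 2 - ((j - i : ℕ) : ℝ) * t) * log p +
    (((j - i : ℕ) : ℝ) * t) ^ 2 * log (((j - i : ℕ) : ℝ) * t) - 3 / 2 * (((j - i : ℕ) : ℝ) * t) ^ 2 + 2 * (((j - i : ℕ) : ℝ) * t)) else 0) := by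
  by_cases hij : i < j
  · rw [if_pos hij]
    have hD : t * (p - 1 - i) - t * (p - 1 - j) = (j - i) * t := by
      rw [← Nat.mul_sub, mul_comm]
      congr 1
      omega
    rw [hD]
    set D : ℕ := (j - i) * t with hDdef
    have hD1 : 1 ≤ D := Nat.one_le_iff_ne_zero.2 (Nat.mul_ne_zero (by omega) (by omega))
    have hDc : ((j - i : ℕ) : ℝ) * t = (D : ℝ) := by
      rw [hDdef]
      push_cast
      ring
    rw [hDc]
    have hp0 : 0 < p := by omega
    have hstep : ∀ d ∈ Finset.range D,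
        log (((if j < i ∨ 0 < d then (d * p + i - j) ^ (D - d) else 1 : ℕ) : ℝ)) ≤
          ((D : ℝ) - d) * log d + (if 0 < d then ((D : ℝ) - d) else 0) * log p := by
      intro d hd
      have hd' := Finset.mem_range.1 hd
      rcases Nat.eq_zero_or_pos d with h0 | h0
      · subst h0
        have h1 : ¬ (j < i ∨ 0 < 0) := by omega
        rw [if_neg h1]
        simp
      · rw [if_pos (Or.inr h0), if_pos h0]
        have h2 : ((D - d : ℕ) : ℝ) = (D : ℝ) - d := by
          rw [Nat.cast_sub hd'.le]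
        have h3 : 0 < d * p + i - j := by
          have : p ≤ d * p := Nat.le_mul_of_pos_left p h0
          omega
        have h4 : ((d * p + i - j : ℕ) : ℝ) ≤ (d : ℝ) * p := by
          have : d * p + i - j ≤ d * p := by omega
          exact_mod_cast this
        have h5 : log ((d * p + i - j : ℕ) : ℝ) ≤ log d + log p := by
          rw [← Real.log_mul (by positivity) (by positivity)]
          exact Real.log_le_log (by exact_mod_cast h3) h4
        have h6 : (0 : ℝ) ≤ (D : ℝ) - d := by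
          rw [← h2]
          positivity
        rw [Nat.cast_pow, Real.log_pow, h2]
        nlinarith [mul_le_mul_of_nonneg_left h5 h6]
    have h7 := Finset.sum_le_sum hstep
    rw [Finset.sum_add_distrib, ← Finset.sum_mul, gen_hook_gauss] at h7
    have h8 := LM_le D hD1
    linarith
  · rw [if_neg hij]
    have h0 : t * (p - 1 - i) - t * (p - 1 - j) = 0 := by
      apply Nat.sub_eq_zero_of_le
      apply Nat.mul_le_mul_left
      omega
    rw [h0]
    simp

/-- PROOF. As `stair_hook` (Tail.lean), only its private lemma `stair_hook_comb` (`∑_{i<j} g (j - i) = ∑_δ (p - δ) g δ`) needs `p = 3, 5, 7` there; prove it for all `p` (induction on `p`, or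
`Finset.sum_sigma'` and a bijection). -/
theorem gen_hook (p t : ℕ) (hp : 2 ≤ p) (ht : 1 ≤ t) :
    2 * log ((∏ z ∈ cells (beta (stair p t)), (z.1 - z.2) : ℕ) : ℝ) ≤ Ut p t := by
  have hpr := prod_cells_beta (stair p t) (fun n : ℕ => n)
  have hne : ∀ i j : Fin p, ∀ d : ℕ,
      (if (j : ℕ) < (i : ℕ) ∨ 0 < d then (d * p + (i : ℕ) - (j : ℕ)) ^ (stair p t i - stair p t j - d) else 1) ≠ 0 := by
    intro i j d
    have hi := i.isLt
    have hj := j.isLt
    split_ifs with h
    · apply pow_ne_zero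
      rcases h with h | h
      · omega
      · have : p ≤ d * p := Nat.le_mul_of_pos_left p h
        omega
    · exact one_ne_zero
  have hlog : log ((∏ z ∈ cells (beta (stair p t)), (z.1 - z.2) : ℕ) : ℝ) =
      ∑ i : Fin p, ∑ j : Fin p, ∑ d ∈ Finset.range (stair p t i - stair p t j),
        log (((if (j : ℕ) < (i : ℕ) ∨ 0 < d then (d * p + (i : ℕ) - (j : ℕ)) ^ (stair p t i - stair p t j - d) else 1 : ℕ) : ℝ)) := by
    rw [hpr, Nat.cast_prod, Real.log_prod]
    · refine Finset.sum_congr rfl fun i _ => ?_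
      rw [Nat.cast_prod, Real.log_prod]
      · refine Finset.sum_congr rfl fun j _ => ?_
        rw [Nat.cast_prod, Real.log_prod]
        intro d _
        exact_mod_cast hne i j d
      · intro j _
        rw [Nat.cast_ne_zero]
        exact Finset.prod_ne_zero_iff.2 fun d _ => hne i j d
    · intro i _
      rw [Nat.cast_ne_zero]
      exact Finset.prod_ne_zero_iff.2 fun j _ => Finset.prod_ne_zero_iff.2 fun d _ => hne i j d
  rw [hlog, Ut, ← gen_hook_comb (fun δ => ((((δ : ℝ) * t) ^ 2 - (δ : ℝ) * t) * log p +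
    ((δ : ℝ) * t) ^ 2 * log ((δ : ℝ) * t) - 3 / 2 * ((δ : ℝ) * t) ^ 2 + 2 * ((δ : ℝ) * t))) p, Finset.mul_sum]
  refine Finset.sum_le_sum fun i _ => ?_
  rw [Finset.mul_sum]
  refine Finset.sum_le_sum fun j _ => ?_
  exact gen_hook_inner p t i j i.isLt j.isLt ht
-- END gen_hook

-- BEGIN gen_step
private theorem gen_step_fact (n : ℕ) : (n : ℝ) * log n - n ≤ log (n.factorial : ℝ) := by
  rcases Nat.eq_zero_or_pos n with rfl | hn
  · simp
  have hn0 : (0 : ℝ) < n := by exact_mod_cast hn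
  have h1 := Real.pow_div_factorial_le_exp (n : ℝ) hn0.le n
  have hf : (0 : ℝ) < n.factorial := by exact_mod_cast Nat.factorial_pos n
  have h2 : log ((n : ℝ) ^ n / n.factorial) ≤ n :=
    (Real.log_le_log (by positivity) h1).trans (le_of_eq (Real.log_exp _))
  rw [Real.log_div (by positivity) hf.ne', Real.log_pow] at h2
  linarith

/-- PROOF. Copy of `tail_step` (Tail.lean) with `gen_size`, `gen_hook`. (`t ≥ 2` gives a positive size.) -/
theorem gen_step (p t C : ℕ) [Fact p.Prime] (ht : 2 ≤ t) (hC : 1 ≤ C) (S : ℝ) (hS : 0 < S)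
    (hnum : log C + S * (1 + log ((((cells (beta (stair p t))).card : ℝ) + S) / S)) + Ut p t ≤
      ((cells (beta (stair p t))).card : ℝ) * log ((cells (beta (stair p t))).card : ℝ) -
        ((cells (beta (stair p t))).card : ℝ) +
        (((cells (beta (stair p t))).card : ℝ) / (p - 1) -
          log ((cells (beta (stair p t))).card : ℝ) / log p - 1) * log p)
    (N : ℕ) (h1 : (cells (beta (stair p t))).card ≤ N)
    (h2 : (N : ℝ) ≤ (cells (beta (stair p t))).card + S)
    (hb : Wl p C (N - (cells (beta (stair p t))).card)) : Wl p 1 N := by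
  have hpp : p.Prime := Fact.out
  have hsz := gen_size p t hpp.two_le
  have hhk := gen_hook p t hpp.two_le (by omega)
  obtain ⟨f, hf, hr⟩ := core_one_rep (p := p) (stair p t)
  obtain ⟨n, hn⟩ : ∃ n, n = (cells (beta (stair p t))).card := ⟨_, rfl⟩
  obtain ⟨H, hH⟩ : ∃ H, H = ∏ z ∈ cells (beta (stair p t)), (z.1 - z.2) := ⟨_, rfl⟩
  rw [← hn] at hsz hf hr hnum h1 h2 hb
  rw [← hH] at hf hhk
  have hn1 : 1 ≤ n := by
    rcases Nat.eq_zero_or_pos n with h0 | h0
    · exfalso
      rw [h0, Nat.mul_zero, Nat.zero_add] at hsz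
      have h3 : 2 ≤ p := hpp.two_le
      have h4 : 0 < p ^ 2 - 1 := by
        have : 2 * 2 ≤ p ^ 2 := by nlinarith
        omega
      obtain ⟨m, hm⟩ : ∃ m, m = p ^ 2 - 1 := ⟨_, rfl⟩
      rw [← hm] at hsz h4
      have h5 : 0 < t * (p * m) := Nat.mul_pos (by omega) (Nat.mul_pos (by omega) h4)
      have h6 : t ^ 2 * (p ^ 2 * m) = (t * p) * (t * (p * m)) := by ring
      have h7 : 2 * 2 ≤ t * p := Nat.mul_le_mul ht h3
      have h8 : 2 * t * (p * m) = 2 * (t * (p * m)) := by ring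
      rw [h6, h8] at hsz
      have h9 : 4 * (t * (p * m)) ≤ (t * p) * (t * (p * m)) := Nat.mul_le_mul_right _ h7
      omega
    · exact h0
  obtain ⟨s, hs⟩ : ∃ s, N = n + s := ⟨N - n, by omega⟩
  have hs' : N - n = s := by omega
  apply step_ineq n f H C (n.factorial.factorization p) N hr hf le_rfl h1 ?_ hb
  rw [hs', hs]
  have hlp : 0 < log (p : ℝ) := Real.log_pos (by exact_mod_cast hpp.one_lt)
  have hp0 : (0 : ℝ) < p := by exact_mod_cast hpp.pos
  have hHpos : 0 < H := by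
    rcases Nat.eq_zero_or_pos H with h | h
    · rw [h, Nat.mul_zero] at hf
      exact absurd hf.symm (Nat.factorial_ne_zero n)
    · exact h
  have hH0 : (0 : ℝ) < H := by exact_mod_cast hHpos
  have hC0 : (0 : ℝ) < C := by exact_mod_cast hC
  have hnf : (0 : ℝ) < n.factorial := by exact_mod_cast Nat.factorial_pos n
  have hsf : (0 : ℝ) < s.factorial := by exact_mod_cast Nat.factorial_pos s
  have hNf : (0 : ℝ) < (n + s).factorial := by exact_mod_cast Nat.factorial_pos (n + s)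
  have hn0 : (0 : ℝ) < n := by exact_mod_cast hn1
  have hbin : log ((n + s).factorial : ℝ) - log (n.factorial : ℝ) - log (s.factorial : ℝ) ≤
      S * (1 + log (((n : ℝ) + S) / S)) := by
    rcases Nat.eq_zero_or_pos s with h0 | h0
    · rw [h0, Nat.add_zero, Nat.factorial_zero, Nat.cast_one, Real.log_one]
      have h3 : 0 ≤ log (((n : ℝ) + S) / S) := by
        apply Real.log_nonneg
        rw [le_div_iff₀ hS]
        linarith
      have h4 : 0 ≤ S * (1 + log (((n : ℝ) + S) / S)) := by positivity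
      linarith
    · refine (binom_log n s h0).trans ?_
      apply binom_mono (n : ℝ) hn0.le (s : ℝ) S (by exact_mod_cast h0)
      rw [hs] at h2
      push_cast at h2
      linarith
  have hfac := gen_step_fact n
  have hval := val_ge p hpp n hn1
  have hval' := mul_le_mul_of_nonneg_right hval hlp.le
  have key : log ((C : ℝ) * (n + s).factorial * (H : ℝ) ^ 2) ≤
      log ((n.factorial : ℝ) ^ 2 * s.factorial * (p : ℝ) ^ (n.factorial.factorization p)) := by
    rw [Real.log_mul (by positivity) (by positivity), Real.log_mul (by positivity) (by positivity),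
      Real.log_mul (by positivity) (by positivity), Real.log_mul (by positivity) (by positivity),
      Real.log_pow, Real.log_pow, Real.log_pow]
    push_cast
    linarith
  have h5 := (Real.log_le_log_iff (by positivity) (by positivity)).1 key
  exact_mod_cast h5
-- END gen_step

/-- `p² (p² - 1) / 24`. -/
noncomputable def c2 (p : ℕ) : ℝ := (p : ℝ) ^ 2 * ((p : ℝ) ^ 2 - 1) / 24

/-- `∑ (p - δ) δ² log δ`. -/
noncomputable def Lam (p : ℕ) : ℝ :=
  ∑ δ ∈ Finset.Ico 1 p, ((p : ℝ) - δ) * (δ : ℝ) ^ 2 * log δ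

/-- The numerical hypothesis: `a`, `t0` are admissible for `p`. -/
def Adm (p : ℕ) (a : ℝ) (t0 : ℕ) : Prop :=
  20 ≤ t0 ∧ 0 < a ∧ a * c2 p ≤ c2 p * (log (c2 p) + 2 - 2 * log p + log p / (p - 1)) - Lam p ∧
    (2 + 1 / (t0 : ℝ)) * (1 + log ((t0 : ℝ) / 2 + 1)) + 2 / (p : ℝ) * (2 * log t0 +
      log (((p : ℝ) ^ 2 - 1) / 24) + log p / (p - 1) + 4) + 1 / 10 ≤ a * t0 ∧
    (2 + 1 / (t0 : ℝ)) / (t0 + 2) + 4 / (p * t0) ≤ a

-- BEGIN gen_num
private theorem gen_num_one (n : ℕ) :
    ∑ d ∈ Finset.range n, (d : ℝ) = (n : ℝ) * (n - 1) / 2 := by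
  induction n with
  | zero => simp
  | succ n ih =>
    rw [Finset.sum_range_succ, ih]
    push_cast
    ring

private theorem gen_num_two (n : ℕ) :
    ∑ d ∈ Finset.range n, (d : ℝ) ^ 2 = (n : ℝ) * (n - 1) * (2 * n - 1) / 6 := by
  induction n with
  | zero => simp
  | succ n ih =>
    rw [Finset.sum_range_succ, ih]
    push_cast
    ring

private theorem gen_num_three (n : ℕ) :
    ∑ d ∈ Finset.range n, (d : ℝ) ^ 3 = ((n : ℝ) * (n - 1) / 2) ^ 2 := by
  induction n with
  | zero => simp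
  | succ n ih =>
    rw [Finset.sum_range_succ, ih]
    push_cast
    ring

private theorem gen_num_Ico (f : ℕ → ℝ) (h0 : f 0 = 0) (p : ℕ) :
    ∑ d ∈ Finset.Ico 1 p, f d = ∑ d ∈ Finset.range p, f d := by
  rcases p with _ | p
  · simp
  · rw [Finset.range_eq_Ico, Finset.sum_eq_sum_Ico_succ_bot (Nat.succ_pos p), h0, zero_add]

private theorem gen_num_s2 (p : ℕ) :
    ∑ d ∈ Finset.Ico 1 p, ((p : ℝ) - d) * (d : ℝ) ^ 2 = 2 * c2 p := by
  rw [gen_num_Ico (fun d => ((p : ℝ) - d) * (d : ℝ) ^ 2) (by simp)]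
  have h1 : ∀ d ∈ Finset.range p, ((p : ℝ) - d) * (d : ℝ) ^ 2 =
      (p : ℝ) * (d : ℝ) ^ 2 - (d : ℝ) ^ 3 := by
    intro d _
    ring
  rw [Finset.sum_congr rfl h1, Finset.sum_sub_distrib, ← Finset.mul_sum, gen_num_two,
    gen_num_three]
  unfold c2
  ring

private theorem gen_num_s1 (p : ℕ) :
    ∑ d ∈ Finset.Ico 1 p, ((p : ℝ) - d) * (d : ℝ) = (p : ℝ) * ((p : ℝ) ^ 2 - 1) / 6 := by
  rw [gen_num_Ico (fun d => ((p : ℝ) - d) * (d : ℝ)) (by simp)]
  have h1 : ∀ d ∈ Finset.range p, ((p : ℝ) - d) * (d : ℝ) =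
      (p : ℝ) * (d : ℝ) - (d : ℝ) ^ 2 := by
    intro d _
    ring
  rw [Finset.sum_congr rfl h1, Finset.sum_sub_distrib, ← Finset.mul_sum, gen_num_one,
    gen_num_two]
  ring

private theorem gen_num_Ut (p t : ℕ) (ht : 1 ≤ t) (hp : 1 ≤ p) :
    Ut p t = (2 * c2 p * (t : ℝ) ^ 2 - 2 * (2 * c2 p / p) * t) * log p +
      2 * c2 p * (t : ℝ) ^ 2 * log t + (t : ℝ) ^ 2 * Lam p - 3 * c2 p * (t : ℝ) ^ 2 +
      4 * (2 * c2 p / p) * t := by
  have ht0 : (0 : ℝ) < t := by exact_mod_cast ht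
  have hp0 : (0 : ℝ) < p := by exact_mod_cast hp
  have e : ∀ δ ∈ Finset.Ico 1 p, ((p : ℝ) - δ) * ((((δ : ℝ) * t) ^ 2 - (δ : ℝ) * t) * log p +
      ((δ : ℝ) * t) ^ 2 * log ((δ : ℝ) * t) - 3 / 2 * ((δ : ℝ) * t) ^ 2 + 2 * ((δ : ℝ) * t)) =
      ((t : ℝ) ^ 2 * log p + (t : ℝ) ^ 2 * log t - 3 / 2 * (t : ℝ) ^ 2) *
        (((p : ℝ) - δ) * (δ : ℝ) ^ 2) + (2 * (t : ℝ) - (t : ℝ) * log p) *
        (((p : ℝ) - δ) * (δ : ℝ)) + (t : ℝ) ^ 2 * (((p : ℝ) - δ) * (δ : ℝ) ^ 2 * log δ) := by
    intro δ hδ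
    have hδ1 : (0 : ℝ) < δ := by
      have := (Finset.mem_Ico.1 hδ).1
      exact_mod_cast this
    rw [Real.log_mul hδ1.ne' ht0.ne']
    ring
  unfold Ut
  rw [Finset.sum_congr rfl e, Finset.sum_add_distrib, Finset.sum_add_distrib, ← Finset.mul_sum,
    ← Finset.mul_sum, ← Finset.mul_sum, gen_num_s2, gen_num_s1]
  have h2 : 2 * c2 p / p = (p : ℝ) * ((p : ℝ) ^ 2 - 1) / 12 := by
    unfold c2
    field_simp
    ring
  rw [h2]
  unfold Lam
  ring

private theorem gen_num_core (P T R c a Lm : ℝ) (hP : 11 ≤ P) (hR : 20 ≤ R) (hT : R ≤ T)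
    (hc : c = P ^ 2 * (P ^ 2 - 1) / 24) (ha : 0 < a)
    (h2 : a * c ≤ c * (log c + 2 - 2 * log P + log P / (P - 1)) - Lm)
    (h3 : (2 + 1 / R) * (1 + log (R / 2 + 1)) + 2 / P * (2 * log R +
      log ((P ^ 2 - 1) / 24) + log P / (P - 1) + 4) + 1 / 10 ≤ a * R)
    (h4 : (2 + 1 / R) / (R + 2) + 4 / (P * R) ≤ a) :
    (c * (2 * T + 1) - 2 * c / P) *
        (1 + log ((c * (T + 1) ^ 2 - 2 * c / P * (T + 1)) / (c * (2 * T + 1) - 2 * c / P))) +
      ((2 * c * T ^ 2 - 2 * (2 * c / P) * T) * log P + 2 * c * T ^ 2 * log T + T ^ 2 * Lm -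
        3 * c * T ^ 2 + 4 * (2 * c / P) * T) ≤
      (c * T ^ 2 - 2 * c / P * T) * log (c * T ^ 2 - 2 * c / P * T) -
        (c * T ^ 2 - 2 * c / P * T) +
        ((c * T ^ 2 - 2 * c / P * T) / (P - 1) -
          log (c * T ^ 2 - 2 * c / P * T) / log P - 1) * log P := by
  have hP0 : 0 < P := by linarith
  have hR0 : 0 < R := by linarith
  have hT0 : 0 < T := by linarith
  have hT20 : 20 ≤ T := hR.trans hT
  have hP2 : (121 : ℝ) ≤ P ^ 2 := by nlinarith
  have hc605 : 605 ≤ c := by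
    rw [hc]
    nlinarith
  have hc0 : 0 < c := by linarith
  have hlP : 0 < log P := Real.log_pos (by linarith)
  obtain ⟨c1, hc1⟩ : ∃ c1, c1 = 2 * c / P := ⟨_, rfl⟩
  have hc1p : 0 < c1 := by
    rw [hc1]
    positivity
  have hc1P : c1 * P = 2 * c := by
    rw [hc1]
    field_simp
  have hc1c : 11 * c1 ≤ 2 * c := by
    rw [← hc1P]
    nlinarith
  rw [← hc1]
  obtain ⟨n, hn⟩ : ∃ n, n = c * T ^ 2 - c1 * T := ⟨_, rfl⟩
  obtain ⟨S, hS⟩ : ∃ S, S = c * (2 * T + 1) - c1 := ⟨_, rfl⟩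
  have hn0 : 0 < n := by
    rw [hn]
    have : c1 * T < c * T ^ 2 := by
      have h5 : c1 < c * T := by nlinarith
      nlinarith
    linarith
  have hS0 : 0 < S := by
    rw [hS]
    nlinarith
  have hnS : c * (T + 1) ^ 2 - c1 * (T + 1) = n + S := by
    rw [hn, hS]
    ring
  rw [hnS, ← hn, ← hS]
  -- the logarithm of n
  have hln : log n = log c + 2 * log T + log (1 - 2 / (P * T)) := by
    have h5 : n = c * T ^ 2 * (1 - 2 / (P * T)) := by
      rw [hn, hc1]
      field_simp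
    have h6 : 0 < 1 - 2 / (P * T) := by
      rw [sub_pos, div_lt_one (by positivity)]
      nlinarith
    rw [h5, Real.log_mul (by positivity) h6.ne', Real.log_mul hc0.ne' (by positivity),
      Real.log_pow]
    push_cast
    ring
  obtain ⟨l, hl⟩ : ∃ l, l = log (1 - 2 / (P * T)) := ⟨_, rfl⟩
  rw [← hl] at hln
  have hpos : 0 < 1 - 2 / (P * T) := by
    rw [sub_pos, div_lt_one (by positivity)]
    nlinarith
  have hl0 : l ≤ 0 := by
    rw [hl]
    apply Real.log_nonpos hpos.le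
    have : 0 < 2 / (P * T) := by positivity
    linarith
  have hnl : -(c1 * T) ≤ n * l := by
    have h5 : n = c * T ^ 2 * (1 - 2 / (P * T)) := by
      rw [hn, hc1]
      field_simp
    have h6 := Real.one_sub_inv_le_log_of_pos hpos
    rw [← hl] at h6
    have h7 := mul_le_mul_of_nonneg_left h6 hn0.le
    have h8 : n * (1 - (1 - 2 / (P * T))⁻¹) = -(c1 * T) := by
      rw [mul_sub, mul_one]
      nth_rewrite 2 [h5]
      rw [mul_assoc, mul_inv_cancel₀ hpos.ne', hn]
      ring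
    linarith
  -- the binomial part
  obtain ⟨q, hq⟩ : ∃ q, q = log (T / 2 + 1) := ⟨_, rfl⟩
  have hbin : S * (1 + log ((n + S) / S)) ≤ c * (2 * T + 1) * (1 + q) := by
    have h5 := binom_mono n hn0.le S (c * (2 * T + 1)) hS0 (by rw [hS]; linarith)
    refine h5.trans ?_
    apply mul_le_mul_of_nonneg_left _ (by positivity)
    have h6 : (n + c * (2 * T + 1)) / (c * (2 * T + 1)) ≤ T / 2 + 1 := by
      rw [div_le_iff₀ (by positivity), hn]
      have h7 : (T / 2 + 1) * (c * (2 * T + 1)) - (c * T ^ 2 - c1 * T + c * (2 * T + 1)) =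
          c * T / 2 + c1 * T := by ring
      have h8 : 0 < c * T / 2 + c1 * T := by positivity
      linarith
    have h9 := Real.log_le_log (by positivity) h6
    rw [← hq] at h9
    linarith
  -- the small logarithm
  have hsm : log c + 2 * log T + log P ≤ c * T / 10 := by
    have hPc : log P ≤ log c := by
      apply Real.log_le_log hP0
      rw [hc]
      nlinarith
    have hcT : log (c * T) = log c + log T := Real.log_mul hc0.ne' hT0.ne'
    have hx : 12100 ≤ c * T := by nlinarith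
    have h100 : log (c * T) ≤ c * T / 100 - 1 + log 100 := by
      have h5 := Real.log_le_sub_one_of_pos (x := c * T / 100) (by positivity)
      rw [Real.log_div (by positivity) (by norm_num)] at h5
      linarith
    have h101 : log (100 : ℝ) ≤ 5 := by
      have h5 : (100 : ℝ) ≤ 2 ^ 7 := by norm_num
      have h6 := Real.log_le_log (by norm_num) h5
      rw [Real.log_pow] at h6
      have h7 := Real.log_two_lt_d9
      push_cast at h6
      linarith
    nlinarith
  -- bounds by tangent lines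
  obtain ⟨w, hw⟩ : ∃ w, w = log ((P ^ 2 - 1) / 24) := ⟨_, rfl⟩
  have hlc : log c = 2 * log P + w := by
    have h5 : c = P ^ 2 * ((P ^ 2 - 1) / 24) := by
      rw [hc]
      ring
    rw [h5, Real.log_mul (by positivity) (by
      have : 0 < (P ^ 2 - 1) / 24 := by
        apply div_pos _ (by norm_num)
        linarith
      exact this.ne'), Real.log_pow, ← hw]
    push_cast
    ring
  obtain ⟨v, hv⟩ : ∃ v, v = log P / (P - 1) := ⟨_, rfl⟩
  have hq1 : q ≤ log (R / 2 + 1) + (T - R) / (R + 2) := by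
    have h5 := Real.log_le_sub_one_of_pos (x := (T / 2 + 1) / (R / 2 + 1)) (by positivity)
    rw [Real.log_div (by positivity) (by positivity), ← hq] at h5
    have h6 : (T / 2 + 1) / (R / 2 + 1) - 1 = (T - R) / (R + 2) := by
      have h7 : R / 2 + 1 ≠ 0 := by positivity
      have h8 : R + 2 ≠ 0 := by positivity
      field_simp
      ring
    linarith
  have hT1 : log T ≤ log R + (T - R) / R := by
    have h5 := Real.log_le_sub_one_of_pos (x := T / R) (by positivity)
    rw [Real.log_div hT0.ne' hR0.ne'] at h5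
    have h6 : T / R - 1 = (T - R) / R := by
      field_simp
    linarith
  have hq0 : 0 ≤ q := by
    rw [hq]
    apply Real.log_nonneg
    linarith
  have hmain : (2 * T + 1) * (1 + q) + 2 / P * T * (2 * log T + w + v + 4) + T / 10 ≤
      a * T ^ 2 := by
    have h5 : 1 / T ≤ 1 / R := one_div_le_one_div_of_le hR0 hT
    have h6 : (2 + 1 / T) * (1 + q) ≤
        (2 + 1 / R) * (1 + (log (R / 2 + 1) + (T - R) / (R + 2))) := by
      apply mul_le_mul (by linarith) (by linarith) (by linarith) (by positivity)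
    have h7 : 2 / P * (2 * log T + w + v + 4) ≤
        2 / P * (2 * (log R + (T - R) / R) + w + v + 4) := by
      apply mul_le_mul_of_nonneg_left (by linarith) (by positivity)
    have h8 : (T - R) * ((2 + 1 / R) / (R + 2) + 4 / (P * R)) ≤ (T - R) * a :=
      mul_le_mul_of_nonneg_left h4 (by linarith)
    have h9 : (2 + 1 / R) * (1 + (log (R / 2 + 1) + (T - R) / (R + 2))) +
        2 / P * (2 * (log R + (T - R) / R) + w + v + 4) =
        (2 + 1 / R) * (1 + log (R / 2 + 1)) + 2 / P * (2 * log R + w + v + 4) +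
          (T - R) * ((2 + 1 / R) / (R + 2) + 4 / (P * R)) := by
      have h10 : R + 2 ≠ 0 := by positivity
      field_simp
      ring
    rw [← hw, ← hv] at h3
    have h11 : (2 + 1 / T) * (1 + q) + 2 / P * (2 * log T + w + v + 4) + 1 / 10 ≤ a * T := by
      linarith
    have h12 := mul_le_mul_of_nonneg_right h11 hT0.le
    have h13 : ((2 + 1 / T) * (1 + q) + 2 / P * (2 * log T + w + v + 4) + 1 / 10) * T =
        (2 * T + 1) * (1 + q) + 2 / P * T * (2 * log T + w + v + 4) + T / 10 := by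
      field_simp
    have h14 : a * T * T = a * T ^ 2 := by ring
    linarith
  have hmain' : c * ((2 * T + 1) * (1 + q)) + c1 * T * (2 * log T + w + v + 4) + c * T / 10 ≤
      a * c * T ^ 2 := by
    have h5 := mul_le_mul_of_nonneg_left hmain hc0.le
    have h6 : c * ((2 * T + 1) * (1 + q) + 2 / P * T * (2 * log T + w + v + 4) + T / 10) =
        c * ((2 * T + 1) * (1 + q)) + 2 * c / P * T * (2 * log T + w + v + 4) + c * T / 10 := by
      ring
    rw [h6, ← hc1] at h5
    linarith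
  -- assembling
  have hac : a * c * T ^ 2 ≤ (c * (log c + 2 - 2 * log P + v) - Lm) * T ^ 2 := by
    rw [← hv] at h2
    exact mul_le_mul_of_nonneg_right h2 (by positivity)
  have e1 : (n / (P - 1) - log n / log P - 1) * log P = n * v - log n - log P := by
    have h5 : P - 1 ≠ 0 := by
      intro h
      linarith
    rw [hv]
    field_simp
  rw [e1]
  have e2 : n * log n = n * (log c + 2 * log T) + n * l := by
    rw [hln]
    ring
  have e3 : log n ≤ log c + 2 * log T := by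
    rw [hln]
    linarith
  rw [hlc] at hac e2 e3 hsm
  have e4 : n * (2 * log P + w + 2 * log T) = (c * T ^ 2 - c1 * T) * (2 * log P + w + 2 * log T) := by
    rw [hn]
  have e5 : n * v = (c * T ^ 2 - c1 * T) * v := by rw [hn]
  rw [e2, e4, e5]
  nlinarith [hbin, hmain', hac, hnl, e3, hsm, hn]

/-- PROOF. Write `n = c2 t² - c1 t`, `c1 = 2 c2 / p`, `S = c2 (2 t + 1) - c1`, `ℓ = log (1 - 2 / (p t))`, so `log n = log c2 + 2 log t + ℓ`. With `∑ (p - δ) δ² = 2 c2`, `∑ (p - δ) δ = 2 c1` (`δ < p`):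
`Ut p t = (2 c2 t² - 2 c1 t) log p + 2 c2 t² log t + t² Lam - 3 c2 t² + 4 c1 t`, and `n ℓ ≥ - c1 t` (`log x ≥ 1 - 1 / x`), so
`(n log n - n + (n / (p - 1) - log n / log p - 1) log p) - Ut ≥ c2 a t² - c1 t (2 log t + log ((p² - 1) / 24) + log p / (p - 1) + 4) - log (c2 t² p)`.
`S (1 + log ((n + S) / S)) ≤ c2 (2 t + 1) (1 + log ((t + 1)² / (2 t + 1)))` (`binom_mono`, Tail.lean), `(t + 1)² / (2 t + 1) ≤ t / 2 + 1`; `log (c2 t² p) ≤ c2 t / 10` for `p ≥ 11`, `t ≥ 20` (`c2 ≥ 605`). It remains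
`a t² ≥ (2 t + 1) (1 + log (t / 2 + 1)) + (2 t / p) (2 log t + ...) + t / 10`: divide by `t`, use `log (t / 2 + 1) ≤ log (t0 / 2 + 1) + (t - t0) / (t0 + 2)`, `log t ≤ log t0 + (t - t0) / t0`, `1 / t ≤ 1 / t0`, and `Adm`. -/
theorem gen_num (p : ℕ) (hp : 11 ≤ p) (a : ℝ) (t0 t : ℕ) (h : Adm p a t0) (ht : t0 ≤ t) :
    (c2 p * (2 * t + 1) - 2 * c2 p / p) *
        (1 + log ((c2 p * (t + 1) ^ 2 - 2 * c2 p / p * (t + 1)) / (c2 p * (2 * t + 1) - 2 * c2 p / p))) +
      Ut p t ≤
      (c2 p * t ^ 2 - 2 * c2 p / p * t) * log (c2 p * t ^ 2 - 2 * c2 p / p * t) -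
        (c2 p * t ^ 2 - 2 * c2 p / p * t) +
        ((c2 p * t ^ 2 - 2 * c2 p / p * t) / (p - 1) -
          log (c2 p * t ^ 2 - 2 * c2 p / p * t) / log p - 1) * log p := by
  obtain ⟨h1, h2, h3, h4, h5⟩ := h
  rw [gen_num_Ut p t (by omega) (by omega)]
  exact gen_num_core (p : ℝ) (t : ℝ) (t0 : ℝ) (c2 p) a (Lam p) (by exact_mod_cast hp)
    (by exact_mod_cast h1) (by exact_mod_cast ht) rfl h2 h3 h4 h5
-- END gen_num

-- BEGIN gen_all
/-- PROOF. As `tail_all7` (Tail.lean): `N` lies between the sizes for `t` and `t + 1`, `gen_size`, `gen_num`, `gen_step` with `C = 1`, `S = c2 (2 t + 1) - 2 c2 / p` (`c2 (t+1)² - c1 (t+1) = n + S`). -/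
theorem gen_all (p : ℕ) [Fact p.Prime] (hp : 11 ≤ p) (a : ℝ) (t0 : ℕ) (h : Adm p a t0) (N : ℕ)
    (hN : t0 ^ 2 * (p ^ 2 * (p ^ 2 - 1)) ≤ 24 * N + 2 * t0 * (p * (p ^ 2 - 1))) :
    ∃ n, 0 < n ∧ n ≤ N ∧ (Wl p 1 (N - n) → Wl p 1 N) := by
  classical
  obtain ⟨B, hB⟩ : ∃ B : ℕ, B = p * (p ^ 2 - 1) := ⟨_, rfl⟩
  have hp2 : 1 ≤ p ^ 2 := Nat.one_le_pow _ _ (by omega)
  have hA : p ^ 2 * (p ^ 2 - 1) = p * B := by rw [hB]; ring
  have hB0 : 1 ≤ B := by
    rw [hB]
    have h1 : 2 ≤ p ^ 2 := by nlinarith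
    exact Nat.mul_pos (by omega) (by omega)
  rw [hA, ← hB] at hN
  have hex : ∃ s : ℕ, ¬ ((t0 + s) ^ 2 * (p * B) ≤ 24 * N + 2 * (t0 + s) * B) := by
    refine ⟨24 * N + 1, ?_⟩
    rw [not_le]
    set T := t0 + (24 * N + 1) with hT
    have hT1 : 24 * N + 1 ≤ T := by omega
    have hpB : 11 * B ≤ p * B := Nat.mul_le_mul_right _ hp
    have h1 : T ^ 2 * (11 * B) ≤ T ^ 2 * (p * B) := Nat.mul_le_mul_left _ hpB
    have h2 : T * 1 ≤ T * T := Nat.mul_le_mul_left _ (by omega)
    have h3 : T * T * 1 ≤ T * T * B := Nat.mul_le_mul_left _ hB0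
    have h4 : T * B ≤ T * T * B := Nat.mul_le_mul_right _ (by omega)
    have h5 : T ^ 2 * (11 * B) = 11 * (T * T * B) := by ring
    have h6 : 2 * T * B = 2 * (T * B) := by ring
    omega
  obtain ⟨hm, hmin⟩ := Nat.find_spec hex, fun s hs => Nat.find_min hex (m := s) hs
  set m := Nat.find hex with hmdef
  have hm0 : m ≠ 0 := by
    intro h0
    rw [h0, add_zero] at hm
    exact hm hN
  obtain ⟨k, hk⟩ := Nat.exists_eq_succ_of_ne_zero hm0
  have hQ := hmin k (by omega)
  rw [not_not] at hQ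
  set t := t0 + k with ht
  have hmt : t0 + m = t + 1 := by omega
  rw [hmt, not_le] at hm
  have htt : t0 ≤ t := by omega
  have ht20 : 20 ≤ t := h.1.trans htt
  have hsz := gen_size p t (by omega)
  rw [hA, ← hB] at hsz
  set n := (cells (beta (stair p t))).card with hn
  have hle : n ≤ N := by
    have h1 : 24 * n + 2 * t * B ≤ 24 * N + 2 * t * B := hsz.le.trans hQ
    omega
  have hn0 : 0 < n := by
    have h1 : 11 * B ≤ p * B := Nat.mul_le_mul_right _ hp
    have h2 : t ^ 2 * (11 * B) ≤ t ^ 2 * (p * B) := Nat.mul_le_mul_left _ h1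
    have h3 : t * 1 ≤ t * t := Nat.mul_le_mul_left _ (by omega)
    have h4 : t * B ≤ t * t * B := Nat.mul_le_mul_right _ (by omega)
    have h5 : t ^ 2 * (11 * B) = 11 * (t * t * B) := by ring
    have h6 : 2 * t * B = 2 * (t * B) := by ring
    have h7 : 1 ≤ t * B := Nat.mul_pos (by omega) hB0
    omega
  have hpR : (11 : ℝ) ≤ p := by exact_mod_cast hp
  have hp0 : (0 : ℝ) < p := by linarith
  have htR : (20 : ℝ) ≤ t := by exact_mod_cast ht20
  have hBR : (B : ℝ) = p * ((p : ℝ) ^ 2 - 1) := by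
    rw [hB]
    push_cast [Nat.cast_sub hp2]
    ring
  have hc1 : 2 * c2 p / p = (B : ℝ) / 12 := by
    rw [hBR]
    unfold c2
    field_simp
    ring
  have hc2 : c2 p = (p : ℝ) * B / 24 := by
    rw [hBR]
    unfold c2
    ring
  have hBpos : (1 : ℝ) ≤ B := by exact_mod_cast hB0
  have hnR : (n : ℝ) = c2 p * (t : ℝ) ^ 2 - 2 * c2 p / p * t := by
    have h1 : (24 : ℝ) * n + 2 * t * B = (t : ℝ) ^ 2 * (p * B) := by exact_mod_cast hsz
    rw [hc1, hc2]
    linarith
  have hS : 0 < c2 p * (2 * t + 1) - 2 * c2 p / p := by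
    rw [hc1, hc2]
    have h1 : (B : ℝ) * 1 ≤ B * (p * (2 * t + 1)) := by
      apply mul_le_mul_of_nonneg_left _ (by linarith)
      nlinarith
    have h2 : (p : ℝ) * B / 24 * (2 * t + 1) - B / 12 = (B * (p * (2 * t + 1)) - 2 * B) / 24 := by ring
    rw [h2]
    have h3 : (3 : ℝ) * B ≤ B * (p * (2 * t + 1)) := by
      have h4 : (3 : ℝ) ≤ p * (2 * t + 1) := by nlinarith
      nlinarith
    linarith
  refine ⟨n, hn0, hle, fun hW => ?_⟩
  refine gen_step p t 1 (by omega) le_rfl (c2 p * (2 * t + 1) - 2 * c2 p / p) hS ?_ N hle ?_ hW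
  · have h3 := gen_num p hp a t0 t h htt
    rw [Nat.cast_one, log_one, zero_add, ← hn, hnR]
    have h4 : c2 p * (t : ℝ) ^ 2 - 2 * c2 p / p * t + (c2 p * (2 * t + 1) - 2 * c2 p / p) =
        c2 p * ((t : ℝ) + 1) ^ 2 - 2 * c2 p / p * ((t : ℝ) + 1) := by
      ring
    rw [h4]
    exact h3
  · rw [← hn, hnR]
    have h6 : (24 : ℝ) * N + 2 * ((t : ℝ) + 1) * B < ((t : ℝ) + 1) ^ 2 * (p * B) := by
      exact_mod_cast hm
    rw [hc1, hc2]
    linarith
-- END gen_all

-- BEGIN log_tab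
private theorem log_tab_up (q a b : ℕ) (h : q ^ a < 2 ^ b) (hq : 0 < q) :
    (a : ℝ) * log q < b * log 2 := by
  have h1 : (q : ℝ) ^ a < 2 ^ b := by exact_mod_cast h
  have h0 : (0 : ℝ) < q := by exact_mod_cast hq
  have h2 := Real.log_lt_log (pow_pos h0 a) h1
  rwa [Real.log_pow, Real.log_pow] at h2

private theorem log_tab_dn (q a b : ℕ) (h : 2 ^ b < q ^ a) :
    (b : ℝ) * log 2 < a * log q := by
  have h1 : (2 : ℝ) ^ b < (q : ℝ) ^ a := by exact_mod_cast h
  have h2 := Real.log_lt_log (pow_pos two_pos b) h1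
  rwa [Real.log_pow, Real.log_pow] at h2

/-- PROOF. Powers: for instance `3 ^ 41 < 2 ^ 65`, `2 ^ 84 < 3 ^ 53`, and `Real.log_two_gt_d9`, `Real.log_two_lt_d9`; or any other way. -/
theorem log_tab :
    (0.693147 < log 2 ∧ log 2 < 0.693148) ∧ (1.0982 < log 3 ∧ log 3 < 1.0990) ∧
    (1.6090 < log 5 ∧ log 5 < 1.6099) ∧ (1.9455 < log 7 ∧ log 7 < 1.9463) ∧
    (2.3974 < log 11 ∧ log 11 < 2.3983) ∧ (2.5645 < log 13 ∧ log 13 < 2.5654) ∧
    (2.8327 < log 17 ∧ log 17 < 2.8337) ∧ (2.9440 < log 19 ∧ log 19 < 2.9449) ∧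
    (3.1350 < log 23 ∧ log 23 < 3.1360) ∧ (3.3668 < log 29 ∧ log 29 < 3.3677) ∧
    (3.4335 < log 31 ∧ log 31 < 3.4344) := by
  have l1 := Real.log_two_gt_d9
  have l2 := Real.log_two_lt_d9
  have u3 : (41 : ℝ) * log 3 < 65 * log 2 := by
    have := log_tab_up 3 41 65 (by decide +kernel) (by norm_num)
    exact_mod_cast this
  have d3 : (84 : ℝ) * log 2 < 53 * log 3 := by
    have := log_tab_dn 3 53 84 (by decide +kernel)
    exact_mod_cast this
  have u5 : (31 : ℝ) * log 5 < 72 * log 2 := by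
    have := log_tab_up 5 31 72 (by decide +kernel) (by norm_num)
    exact_mod_cast this
  have d5 : (65 : ℝ) * log 2 < 28 * log 5 := by
    have := log_tab_dn 5 28 65 (by decide +kernel)
    exact_mod_cast this
  have u7 : (26 : ℝ) * log 7 < 73 * log 2 := by
    have := log_tab_up 7 26 73 (by decide +kernel) (by norm_num)
    exact_mod_cast this
  have d7 : (160 : ℝ) * log 2 < 57 * log 7 := by
    have := log_tab_dn 7 57 160 (by decide +kernel)
    exact_mod_cast this
  have u11 : (37 : ℝ) * log 11 < 128 * log 2 := by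
    have := log_tab_up 11 37 128 (by decide +kernel) (by norm_num)
    exact_mod_cast this
  have d11 : (211 : ℝ) * log 2 < 61 * log 11 := by
    have := log_tab_dn 11 61 211 (by decide +kernel)
    exact_mod_cast this
  have u13 : (97 : ℝ) * log 13 < 359 * log 2 := by
    have := log_tab_up 13 97 359 (by decide +kernel) (by norm_num)
    exact_mod_cast this
  have d13 : (37 : ℝ) * log 2 < 10 * log 13 := by
    have := log_tab_dn 13 10 37 (by decide +kernel)
    exact_mod_cast this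
  have u17 : (57 : ℝ) * log 17 < 233 * log 2 := by
    have := log_tab_up 17 57 233 (by decide +kernel) (by norm_num)
    exact_mod_cast this
  have d17 : (94 : ℝ) * log 2 < 23 * log 17 := by
    have := log_tab_dn 17 23 94 (by decide +kernel)
    exact_mod_cast this
  have u19 : (121 : ℝ) * log 19 < 514 * log 2 := by
    have := log_tab_up 19 121 514 (by decide +kernel) (by norm_num)
    exact_mod_cast this
  have d19 : (395 : ℝ) * log 2 < 93 * log 19 := by
    have := log_tab_dn 19 93 395 (by decide +kernel)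
    exact_mod_cast this
  have u23 : (21 : ℝ) * log 23 < 95 * log 2 := by
    have := log_tab_up 23 21 95 (by decide +kernel) (by norm_num)
    exact_mod_cast this
  have d23 : (294 : ℝ) * log 2 < 65 * log 23 := by
    have := log_tab_dn 23 65 294 (by decide +kernel)
    exact_mod_cast this
  have u29 : (106 : ℝ) * log 29 < 515 * log 2 := by
    have := log_tab_up 29 106 515 (by decide +kernel) (by norm_num)
    exact_mod_cast this
  have d29 : (855 : ℝ) * log 2 < 176 * log 29 := by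
    have := log_tab_dn 29 176 855 (by decide +kernel)
    exact_mod_cast this
  have u31 : (22 : ℝ) * log 31 < 109 * log 2 := by
    have := log_tab_up 31 22 109 (by decide +kernel) (by norm_num)
    exact_mod_cast this
  have d31 : (322 : ℝ) * log 2 < 65 * log 31 := by
    have := log_tab_dn 31 65 322 (by decide +kernel)
    exact_mod_cast this
  refine ⟨⟨by linarith, by linarith⟩, ⟨by linarith, by linarith⟩, ⟨by linarith, by linarith⟩,
    ⟨by linarith, by linarith⟩, ⟨by linarith, by linarith⟩, ⟨by linarith, by linarith⟩,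
    ⟨by linarith, by linarith⟩, ⟨by linarith, by linarith⟩, ⟨by linarith, by linarith⟩,
    ⟨by linarith, by linarith⟩, by linarith, by linarith⟩
-- END log_tab

-- BEGIN num11
/-- PROOF. `log_tab`; `c2 11 = 605`; logarithms of `1, ..., 10`, of `605 = 5 * 121`, of `26`, of `5` and upper bounds with `log x ≤ x - 1` if needed; the true value for `a` is 0.22921. -/
theorem num11 : Adm 11 0.225 50 := by
  obtain ⟨⟨a2, b2⟩, ⟨a3, b3⟩, ⟨a5, b5⟩, ⟨a7, b7⟩, ⟨a11, b11⟩, ⟨a13, b13⟩, -⟩ := log_tab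
  have l4 : log (4 : ℝ) = 2 * log 2 := by
    rw [show (4 : ℝ) = 2 ^ 2 by norm_num, Real.log_pow]
    norm_num
  have l6 : log (6 : ℝ) = log 2 + log 3 := by
    rw [show (6 : ℝ) = 2 * 3 by norm_num, Real.log_mul (by norm_num) (by norm_num)]
  have l8 : log (8 : ℝ) = 3 * log 2 := by
    rw [show (8 : ℝ) = 2 ^ 3 by norm_num, Real.log_pow]
    norm_num
  have l9 : log (9 : ℝ) = 2 * log 3 := by
    rw [show (9 : ℝ) = 3 ^ 2 by norm_num, Real.log_pow]
    norm_num
  have l10 : log (10 : ℝ) = log 2 + log 5 := by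
    rw [show (10 : ℝ) = 2 * 5 by norm_num, Real.log_mul (by norm_num) (by norm_num)]
  have l605 : log (605 : ℝ) = log 5 + 2 * log 11 := by
    rw [show (605 : ℝ) = 5 * 11 ^ 2 by norm_num, Real.log_mul (by norm_num) (by norm_num), Real.log_pow]
    norm_num
  have l26 : log (26 : ℝ) = log 2 + log 13 := by
    rw [show (26 : ℝ) = 2 * 13 by norm_num, Real.log_mul (by norm_num) (by norm_num)]
  have l50 : log (50 : ℝ) = log 2 + 2 * log 5 := by
    rw [show (50 : ℝ) = 2 * 5 ^ 2 by norm_num, Real.log_mul (by norm_num) (by norm_num), Real.log_pow]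
    norm_num
  have hc : c2 11 = 605 := by
    unfold c2
    norm_num
  have hL : Lam 11 = 9 * 2 ^ 2 * log 2 + 8 * 3 ^ 2 * log 3 + 7 * 4 ^ 2 * log 4 + 6 * 5 ^ 2 * log 5 +
      5 * 6 ^ 2 * log 6 + 4 * 7 ^ 2 * log 7 + 3 * 8 ^ 2 * log 8 + 2 * 9 ^ 2 * log 9 +
      1 * 10 ^ 2 * log 10 := by
    unfold Lam
    rw [Finset.sum_Ico_eq_sum_range]
    simp only [Finset.sum_range_succ, Finset.sum_range_zero]
    norm_num
  refine ⟨by norm_num, by norm_num, ?_, ?_, ?_⟩
  · rw [hc, hL, l605, l4, l6, l8, l9, l10]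
    push_cast
    norm_num
    linarith
  · have e1 : ((50 : ℕ) : ℝ) / 2 + 1 = 26 := by norm_num
    have e2 : (((11 : ℕ) : ℝ) ^ 2 - 1) / 24 = 5 := by norm_num
    have e3 : ((50 : ℕ) : ℝ) = 50 := by norm_num
    have e4 : ((11 : ℕ) : ℝ) = 11 := by norm_num
    rw [e1, e2, e3, e4, l26, l50]
    norm_num
    linarith
  · norm_num
-- END num11

-- BEGIN num13
/-- PROOF. As `num11`; `c2 13 = 1183`; the true value for `a` is 0.2030. -/
theorem num13 : Adm 13 0.199 56 := by
  obtain ⟨⟨l2a, l2b⟩, ⟨l3a, l3b⟩, ⟨l5a, l5b⟩, ⟨l7a, l7b⟩, ⟨l11a, l11b⟩, ⟨l13a, l13b⟩,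
    ⟨l17a, l17b⟩, ⟨l19a, l19b⟩, ⟨l23a, l23b⟩, ⟨l29a, l29b⟩, ⟨l31a, l31b⟩⟩ := log_tab
  have e4 : log (4 : ℝ) = 2 * log 2 := by
    rw [show (4 : ℝ) = 2 ^ 2 by norm_num]
    simp only [Real.log_pow]
    push_cast
    ring
  have e6 : log (6 : ℝ) = 1 * log 2 + 1 * log 3 := by
    rw [show (6 : ℝ) = 2 ^ 1 * 3 ^ 1 by norm_num]
    rw [Real.log_mul (by norm_num) (by norm_num)]
    simp only [Real.log_pow]
    push_cast
    ring
  have e8 : log (8 : ℝ) = 3 * log 2 := by
    rw [show (8 : ℝ) = 2 ^ 3 by norm_num]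
    simp only [Real.log_pow]
    push_cast
    ring
  have e9 : log (9 : ℝ) = 2 * log 3 := by
    rw [show (9 : ℝ) = 3 ^ 2 by norm_num]
    simp only [Real.log_pow]
    push_cast
    ring
  have e10 : log (10 : ℝ) = 1 * log 2 + 1 * log 5 := by
    rw [show (10 : ℝ) = 2 ^ 1 * 5 ^ 1 by norm_num]
    rw [Real.log_mul (by norm_num) (by norm_num)]
    simp only [Real.log_pow]
    push_cast
    ring
  have e12 : log (12 : ℝ) = 2 * log 2 + 1 * log 3 := by
    rw [show (12 : ℝ) = 2 ^ 2 * 3 ^ 1 by norm_num]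
    rw [Real.log_mul (by norm_num) (by norm_num)]
    simp only [Real.log_pow]
    push_cast
    ring
  have hL : Lam 13 = 2132 * log 2 + 1134 * log 3 + 500 * log 5 + 294 * log 7 + 242 * log 11 := by
    unfold Lam
    rw [Finset.sum_Ico_eq_sum_range]
    norm_num [Finset.sum_range_succ]
    rw [e4, e6, e8, e9, e10, e12]
    ring
  have hc : c2 13 = 1183 := by unfold c2; norm_num
  have hlc : log (1183 : ℝ) = 1 * log 7 + 2 * log 13 := by
    rw [show (1183 : ℝ) = 7 ^ 1 * 13 ^ 2 by norm_num]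
    rw [Real.log_mul (by norm_num) (by norm_num)]
    simp only [Real.log_pow]
    push_cast
    ring
  unfold Adm
  refine ⟨by norm_num, by norm_num, ?_, ?_, by norm_num⟩
  · rw [hc, hL, hlc]
    push_cast
    linarith
  · have h1 : log (((56 : ℕ) : ℝ) / 2 + 1) = log 29 := by norm_num
    have h2 : log ((((13 : ℕ) : ℝ) ^ 2 - 1) / 24) = log 7 := by norm_num
    have h3 : log (((56 : ℕ) : ℝ)) = 3 * log 2 + log 7 := by
      rw [show ((56 : ℕ) : ℝ) = 2 ^ 3 * 7 by norm_num, Real.log_mul (by norm_num) (by norm_num), Real.log_pow]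
      push_cast
      ring
    rw [h1, h2, h3]
    push_cast
    linarith
-- END num13

-- BEGIN num17
private theorem num17_mul (a b : ℝ) (ha : 0 < a) (hb : 0 < b) : log (a * b) = log a + log b :=
  Real.log_mul ha.ne' hb.ne'

/-- PROOF. As `num11`; `c2 17 = 3468`; the true value for `a` is 0.16611. -/
theorem num17 : Adm 17 0.163 68 := by
  obtain ⟨⟨h2, h2'⟩, ⟨h3, h3'⟩, ⟨h5, h5'⟩, ⟨h7, h7'⟩, ⟨h11, h11'⟩, ⟨h13, h13'⟩, ⟨h17, h17'⟩,
    ⟨h19, h19'⟩, ⟨h23, h23'⟩, ⟨h29, h29'⟩, ⟨h31, h31'⟩⟩ := log_tab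
  have l4 : log (4 : ℝ) = 2 * log 2 := by
    rw [show (4 : ℝ) = 2 * 2 by norm_num, num17_mul _ _ (by norm_num) (by norm_num)]
    ring
  have l6 : log (6 : ℝ) = log 2 + log 3 := by
    rw [show (6 : ℝ) = 2 * 3 by norm_num, num17_mul _ _ (by norm_num) (by norm_num)]
  have l8 : log (8 : ℝ) = 3 * log 2 := by
    rw [show (8 : ℝ) = 2 * 4 by norm_num, num17_mul _ _ (by norm_num) (by norm_num), l4]
    ring
  have l9 : log (9 : ℝ) = 2 * log 3 := by
    rw [show (9 : ℝ) = 3 * 3 by norm_num, num17_mul _ _ (by norm_num) (by norm_num)]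
    ring
  have l10 : log (10 : ℝ) = log 2 + log 5 := by
    rw [show (10 : ℝ) = 2 * 5 by norm_num, num17_mul _ _ (by norm_num) (by norm_num)]
  have l12 : log (12 : ℝ) = 2 * log 2 + log 3 := by
    rw [show (12 : ℝ) = 2 * 6 by norm_num, num17_mul _ _ (by norm_num) (by norm_num), l6]
    ring
  have l14 : log (14 : ℝ) = log 2 + log 7 := by
    rw [show (14 : ℝ) = 2 * 7 by norm_num, num17_mul _ _ (by norm_num) (by norm_num)]
  have l15 : log (15 : ℝ) = log 3 + log 5 := by
    rw [show (15 : ℝ) = 3 * 5 by norm_num, num17_mul _ _ (by norm_num) (by norm_num)]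
  have l16 : log (16 : ℝ) = 4 * log 2 := by
    rw [show (16 : ℝ) = 2 * 8 by norm_num, num17_mul _ _ (by norm_num) (by norm_num), l8]
    ring
  have l34 : log (34 : ℝ) = log 2 + log 17 := by
    rw [show (34 : ℝ) = 2 * 17 by norm_num, num17_mul _ _ (by norm_num) (by norm_num)]
  have l68 : log (68 : ℝ) = 2 * log 2 + log 17 := by
    rw [show (68 : ℝ) = 2 * 34 by norm_num, num17_mul _ _ (by norm_num) (by norm_num), l34]
    ring
  have l35 : log (35 : ℝ) = log 5 + log 7 := by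
    rw [show (35 : ℝ) = 5 * 7 by norm_num, num17_mul _ _ (by norm_num) (by norm_num)]
  have l70 : log (70 : ℝ) = log 2 + log 5 + log 7 := by
    rw [show (70 : ℝ) = 2 * 35 by norm_num, num17_mul _ _ (by norm_num) (by norm_num), l35]
    ring
  have hc : c2 17 = 3468 := by
    unfold c2
    norm_num
  have hlc : log (3468 : ℝ) = 2 * log 2 + log 3 + 2 * log 17 := by
    rw [show (3468 : ℝ) = 12 * (17 * 17) by norm_num, num17_mul _ _ (by norm_num) (by norm_num),
      num17_mul _ _ (by norm_num) (by norm_num), l12]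
    ring
  have hL : Lam 17 = 6352 * log 2 + 2988 * log 3 + 1450 * log 5 + 1078 * log 7 + 726 * log 11 + 676 * log 13 := by
    unfold Lam
    rw [Finset.sum_Ico_eq_sum_range]
    norm_num [Finset.sum_range_succ]
    rw [l4, l6, l8, l9, l10, l12, l14, l15, l16]
    ring
  have lt0 : log (68 : ℝ) ≤ 2 * log 2 + log 17 := le_of_eq l68
  have lt1 : log ((68 : ℝ) / 2 + 1) ≤ log 5 + log 7 := by
    have e1 : log ((68 : ℝ) / 2 + 1) + log 2 ≤ log (70 : ℝ) := by
      rw [← num17_mul _ _ (by norm_num) (by norm_num)]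
      exact Real.log_le_log (by norm_num) (by norm_num)
    rw [l70] at e1
    linarith
  refine ⟨by norm_num, by norm_num, ?_, ?_, by norm_num⟩
  · rw [hc, hL, hlc]
    push_cast
    linarith
  · push_cast
    rw [show (((17 : ℝ) ^ 2 - 1) / 24) = 12 by norm_num, l12]
    norm_num at lt1 ⊢
    linarith
-- END num17

-- BEGIN num19
/-- PROOF. As `num11`; `c2 19 = 5415`; the true value for `a` is 0.15254. -/
theorem num19 : Adm 19 0.150 74 := by
  obtain ⟨⟨a2, b2⟩, ⟨a3, b3⟩, ⟨a5, b5⟩, ⟨a7, b7⟩, ⟨a11, b11⟩, ⟨a13, b13⟩, ⟨a17, b17⟩,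
    ⟨a19, b19⟩, -⟩ := log_tab
  have l4 : log (4 : ℝ) = 2 * log 2 := by
    rw [show (4 : ℝ) = 2 ^ 2 by norm_num, log_pow]; norm_num
  have l6 : log (6 : ℝ) = log 2 + log 3 := by
    rw [show (6 : ℝ) = 2 * 3 by norm_num, log_mul (by norm_num) (by norm_num)]
  have l8 : log (8 : ℝ) = 3 * log 2 := by
    rw [show (8 : ℝ) = 2 ^ 3 by norm_num, log_pow]; norm_num
  have l9 : log (9 : ℝ) = 2 * log 3 := by
    rw [show (9 : ℝ) = 3 ^ 2 by norm_num, log_pow]; norm_num
  have l10 : log (10 : ℝ) = log 2 + log 5 := by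
    rw [show (10 : ℝ) = 2 * 5 by norm_num, log_mul (by norm_num) (by norm_num)]
  have l12 : log (12 : ℝ) = 2 * log 2 + log 3 := by
    rw [show (12 : ℝ) = 4 * 3 by norm_num, log_mul (by norm_num) (by norm_num), l4]
  have l14 : log (14 : ℝ) = log 2 + log 7 := by
    rw [show (14 : ℝ) = 2 * 7 by norm_num, log_mul (by norm_num) (by norm_num)]
  have l15 : log (15 : ℝ) = log 3 + log 5 := by
    rw [show (15 : ℝ) = 3 * 5 by norm_num, log_mul (by norm_num) (by norm_num)]
  have l16 : log (16 : ℝ) = 4 * log 2 := by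
    rw [show (16 : ℝ) = 2 ^ 4 by norm_num, log_pow]; norm_num
  have l18 : log (18 : ℝ) = log 2 + 2 * log 3 := by
    rw [show (18 : ℝ) = 2 * 9 by norm_num, log_mul (by norm_num) (by norm_num), l9]
  have l38 : log (38 : ℝ) = log 2 + log 19 := by
    rw [show (38 : ℝ) = 2 * 19 by norm_num, log_mul (by norm_num) (by norm_num)]
  have l74 : log (74 : ℝ) ≤ 2 * log 2 + log 19 := by
    rw [← l4, ← log_mul (by norm_num) (by norm_num)]
    exact Real.log_le_log (by norm_num) (by norm_num)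
  have hc : c2 19 = 5415 := by
    unfold c2; norm_num
  have lc : log (5415 : ℝ) = log 3 + log 5 + 2 * log 19 := by
    rw [show (5415 : ℝ) = 15 * 19 ^ 2 by norm_num, log_mul (by norm_num) (by norm_num), log_pow, l15]
    norm_num
  have hLam : Lam 19 = 10420 * log 2 + 4788 * log 3 + 2150 * log 5 + 1568 * log 7 + 968 * log 11 +
      1014 * log 13 + 578 * log 17 := by
    unfold Lam
    rw [Finset.sum_Ico_eq_sum_range]
    simp only [Finset.sum_range_succ, Finset.sum_range_zero]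
    norm_num
    rw [l4, l6, l8, l9, l10, l12, l14, l15, l16, l18]
    ring
  refine ⟨by norm_num, by norm_num, ?_, ?_, by norm_num⟩
  · rw [hc, lc, hLam]
    push_cast
    norm_num
    linarith
  · push_cast
    have e1 : ((74 : ℝ) / 2 + 1) = 38 := by norm_num
    have e2 : (((19 : ℝ) ^ 2 - 1) / 24) = 15 := by norm_num
    rw [e1, e2, l38, l15]
    norm_num
    linarith
-- END num19

-- BEGIN num23
private theorem num23_mul (a b : ℝ) (ha : 0 < a) (hb : 0 < b) : log (a * b) = log a + log b :=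
  Real.log_mul ha.ne' hb.ne'

/-- PROOF. As `num11`; `c2 23 = 11638`; the true value for `a` is 0.13139. -/
theorem num23 : Adm 23 0.129 87 := by
  obtain ⟨⟨h2, h2'⟩, ⟨h3, h3'⟩, ⟨h5, h5'⟩, ⟨h7, h7'⟩, ⟨h11, h11'⟩, ⟨h13, h13'⟩, ⟨h17, h17'⟩,
    ⟨h19, h19'⟩, ⟨h23, h23'⟩, -, -⟩ := log_tab
  have l4 : log (4 : ℝ) = 2 * log 2 := by
    rw [show (4 : ℝ) = 2 * 2 by norm_num, num23_mul _ _ (by norm_num) (by norm_num)]; ring
  have l6 : log (6 : ℝ) = log 2 + log 3 := by
    rw [show (6 : ℝ) = 2 * 3 by norm_num, num23_mul _ _ (by norm_num) (by norm_num)]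
  have l8 : log (8 : ℝ) = 3 * log 2 := by
    rw [show (8 : ℝ) = 2 * 4 by norm_num, num23_mul _ _ (by norm_num) (by norm_num), l4]; ring
  have l9 : log (9 : ℝ) = 2 * log 3 := by
    rw [show (9 : ℝ) = 3 * 3 by norm_num, num23_mul _ _ (by norm_num) (by norm_num)]; ring
  have l10 : log (10 : ℝ) = log 2 + log 5 := by
    rw [show (10 : ℝ) = 2 * 5 by norm_num, num23_mul _ _ (by norm_num) (by norm_num)]
  have l12 : log (12 : ℝ) = 2 * log 2 + log 3 := by
    rw [show (12 : ℝ) = 4 * 3 by norm_num, num23_mul _ _ (by norm_num) (by norm_num), l4]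
  have l14 : log (14 : ℝ) = log 2 + log 7 := by
    rw [show (14 : ℝ) = 2 * 7 by norm_num, num23_mul _ _ (by norm_num) (by norm_num)]
  have l15 : log (15 : ℝ) = log 3 + log 5 := by
    rw [show (15 : ℝ) = 3 * 5 by norm_num, num23_mul _ _ (by norm_num) (by norm_num)]
  have l16 : log (16 : ℝ) = 4 * log 2 := by
    rw [show (16 : ℝ) = 4 * 4 by norm_num, num23_mul _ _ (by norm_num) (by norm_num), l4]; ring
  have l18 : log (18 : ℝ) = log 2 + 2 * log 3 := by
    rw [show (18 : ℝ) = 2 * 9 by norm_num, num23_mul _ _ (by norm_num) (by norm_num), l9]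
  have l20 : log (20 : ℝ) = 2 * log 2 + log 5 := by
    rw [show (20 : ℝ) = 4 * 5 by norm_num, num23_mul _ _ (by norm_num) (by norm_num), l4]
  have l21 : log (21 : ℝ) = log 3 + log 7 := by
    rw [show (21 : ℝ) = 3 * 7 by norm_num, num23_mul _ _ (by norm_num) (by norm_num)]
  have l22 : log (22 : ℝ) = log 2 + log 11 := by
    rw [show (22 : ℝ) = 2 * 11 by norm_num, num23_mul _ _ (by norm_num) (by norm_num)]
  have hc : c2 23 = 11638 := by
    unfold c2
    norm_num
  have hlc : log (11638 : ℝ) = log 2 + log 11 + 2 * log 23 := by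
    rw [show (11638 : ℝ) = 22 * (23 * 23) by norm_num, num23_mul _ _ (by norm_num) (by norm_num),
      num23_mul _ _ (by norm_num) (by norm_num), l22]
    ring
  have hL : Lam 23 = 22088 * log 2 + 10566 * log 3 + 4750 * log 5 + 3430 * log 7 +
      1936 * log 11 + 1690 * log 13 + 1734 * log 17 + 1444 * log 19 := by
    unfold Lam
    rw [Finset.sum_Ico_eq_sum_range]
    norm_num [Finset.sum_range_succ]
    rw [l4, l6, l8, l9, l10, l12, l14, l15, l16, l18, l20, l21, l22]
    ring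
  have l87 : log (87 : ℝ) ≤ 3 * log 2 + log 11 := by
    rw [← l8, ← num23_mul _ _ (by norm_num) (by norm_num)]
    exact Real.log_le_log (by norm_num) (by norm_num)
  have l445 : log ((87 : ℝ) / 2 + 1) ≤ 2 * log 3 + log 5 := by
    rw [← l9, ← num23_mul _ _ (by norm_num) (by norm_num)]
    exact Real.log_le_log (by norm_num) (by norm_num)
  refine ⟨by norm_num, by norm_num, ?_, ?_, by norm_num⟩
  · rw [hc, hL, hlc]
    push_cast
    linarith
  · push_cast
    rw [show (((23 : ℝ) ^ 2 - 1) / 24) = 22 by norm_num, l22]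
    norm_num at l445 ⊢
    linarith
-- END num23

-- BEGIN num29
/-- PROOF. As `num11`; `c2 29 = 29435`; the true value for `a` is 0.10904. -/
theorem num29 : Adm 29 0.107 106 := by
  obtain ⟨⟨l2a, l2b⟩, ⟨l3a, l3b⟩, ⟨l5a, l5b⟩, ⟨l7a, l7b⟩, ⟨l11a, l11b⟩, ⟨l13a, l13b⟩,
    ⟨l17a, l17b⟩, ⟨l19a, l19b⟩, ⟨l23a, l23b⟩, ⟨l29a, l29b⟩, ⟨l31a, l31b⟩⟩ := log_tab
  have e4 : log (4 : ℝ) = 2 * log 2 := by
    rw [show (4 : ℝ) = 2 ^ 2 by norm_num]
    simp only [Real.log_pow]
    push_cast
    ring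
  have e6 : log (6 : ℝ) = 1 * log 2 + 1 * log 3 := by
    rw [show (6 : ℝ) = 2 ^ 1 * 3 ^ 1 by norm_num]
    rw [Real.log_mul (by norm_num) (by norm_num)]
    simp only [Real.log_pow]
    push_cast
    ring
  have e8 : log (8 : ℝ) = 3 * log 2 := by
    rw [show (8 : ℝ) = 2 ^ 3 by norm_num]
    simp only [Real.log_pow]
    push_cast
    ring
  have e9 : log (9 : ℝ) = 2 * log 3 := by
    rw [show (9 : ℝ) = 3 ^ 2 by norm_num]
    simp only [Real.log_pow]
    push_cast
    ring
  have e10 : log (10 : ℝ) = 1 * log 2 + 1 * log 5 := by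
    rw [show (10 : ℝ) = 2 ^ 1 * 5 ^ 1 by norm_num]
    rw [Real.log_mul (by norm_num) (by norm_num)]
    simp only [Real.log_pow]
    push_cast
    ring
  have e12 : log (12 : ℝ) = 2 * log 2 + 1 * log 3 := by
    rw [show (12 : ℝ) = 2 ^ 2 * 3 ^ 1 by norm_num]
    rw [Real.log_mul (by norm_num) (by norm_num)]
    simp only [Real.log_pow]
    push_cast
    ring
  have e14 : log (14 : ℝ) = 1 * log 2 + 1 * log 7 := by
    rw [show (14 : ℝ) = 2 ^ 1 * 7 ^ 1 by norm_num]
    rw [Real.log_mul (by norm_num) (by norm_num)]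
    simp only [Real.log_pow]
    push_cast
    ring
  have e15 : log (15 : ℝ) = 1 * log 3 + 1 * log 5 := by
    rw [show (15 : ℝ) = 3 ^ 1 * 5 ^ 1 by norm_num]
    rw [Real.log_mul (by norm_num) (by norm_num)]
    simp only [Real.log_pow]
    push_cast
    ring
  have e16 : log (16 : ℝ) = 4 * log 2 := by
    rw [show (16 : ℝ) = 2 ^ 4 by norm_num]
    simp only [Real.log_pow]
    push_cast
    ring
  have e18 : log (18 : ℝ) = 1 * log 2 + 2 * log 3 := by
    rw [show (18 : ℝ) = 2 ^ 1 * 3 ^ 2 by norm_num]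
    rw [Real.log_mul (by norm_num) (by norm_num)]
    simp only [Real.log_pow]
    push_cast
    ring
  have e20 : log (20 : ℝ) = 2 * log 2 + 1 * log 5 := by
    rw [show (20 : ℝ) = 2 ^ 2 * 5 ^ 1 by norm_num]
    rw [Real.log_mul (by norm_num) (by norm_num)]
    simp only [Real.log_pow]
    push_cast
    ring
  have e21 : log (21 : ℝ) = 1 * log 3 + 1 * log 7 := by
    rw [show (21 : ℝ) = 3 ^ 1 * 7 ^ 1 by norm_num]
    rw [Real.log_mul (by norm_num) (by norm_num)]
    simp only [Real.log_pow]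
    push_cast
    ring
  have e22 : log (22 : ℝ) = 1 * log 2 + 1 * log 11 := by
    rw [show (22 : ℝ) = 2 ^ 1 * 11 ^ 1 by norm_num]
    rw [Real.log_mul (by norm_num) (by norm_num)]
    simp only [Real.log_pow]
    push_cast
    ring
  have e24 : log (24 : ℝ) = 3 * log 2 + 1 * log 3 := by
    rw [show (24 : ℝ) = 2 ^ 3 * 3 ^ 1 by norm_num]
    rw [Real.log_mul (by norm_num) (by norm_num)]
    simp only [Real.log_pow]
    push_cast
    ring
  have e25 : log (25 : ℝ) = 2 * log 5 := by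
    rw [show (25 : ℝ) = 5 ^ 2 by norm_num]
    simp only [Real.log_pow]
    push_cast
    ring
  have e26 : log (26 : ℝ) = 1 * log 2 + 1 * log 13 := by
    rw [show (26 : ℝ) = 2 ^ 1 * 13 ^ 1 by norm_num]
    rw [Real.log_mul (by norm_num) (by norm_num)]
    simp only [Real.log_pow]
    push_cast
    ring
  have e27 : log (27 : ℝ) = 3 * log 3 := by
    rw [show (27 : ℝ) = 3 ^ 3 by norm_num]
    simp only [Real.log_pow]
    push_cast
    ring
  have e28 : log (28 : ℝ) = 2 * log 2 + 1 * log 7 := by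
    rw [show (28 : ℝ) = 2 ^ 2 * 7 ^ 1 by norm_num]
    rw [Real.log_mul (by norm_num) (by norm_num)]
    simp only [Real.log_pow]
    push_cast
    ring
  have hL : Lam 29 = 55204 * log 2 + 27810 * log 3 + 14250 * log 5 + 8330 * log 7 + 5566 * log 11 + 4732 * log 13 + 3468 * log 17 + 3610 * log 19 + 3174 * log 23 := by
    unfold Lam
    rw [Finset.sum_Ico_eq_sum_range]
    norm_num [Finset.sum_range_succ]
    rw [e4, e6, e8, e9, e10, e12, e14, e15, e16, e18, e20, e21, e22, e24, e25, e26, e27, e28]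
    ring
  have hc : c2 29 = 29435 := by unfold c2; norm_num
  have hlc : log (29435 : ℝ) = 1 * log 5 + 1 * log 7 + 2 * log 29 := by
    rw [show (29435 : ℝ) = 5 ^ 1 * 7 ^ 1 * 29 ^ 2 by norm_num]
    rw [Real.log_mul (by norm_num) (by norm_num)]
    rw [Real.log_mul (by norm_num) (by norm_num)]
    simp only [Real.log_pow]
    push_cast
    ring
  unfold Adm
  refine ⟨by norm_num, by norm_num, ?_, ?_, by norm_num⟩
  · rw [hc, hL, hlc]
    push_cast
    linarith
  · have h1 : log (((106 : ℕ) : ℝ) / 2 + 1) = log 2 + 3 * log 3 := by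
      rw [show ((106 : ℕ) : ℝ) / 2 + 1 = 2 * 3 ^ 3 by norm_num, Real.log_mul (by norm_num) (by norm_num), Real.log_pow]
      push_cast
      ring
    have h2 : log ((((29 : ℕ) : ℝ) ^ 2 - 1) / 24) = log 5 + log 7 := by
      rw [show (((29 : ℕ) : ℝ) ^ 2 - 1) / 24 = 5 * 7 by norm_num, Real.log_mul (by norm_num) (by norm_num)]
    have h3 : log (((106 : ℕ) : ℝ)) ≤ 2 * log 2 + 3 * log 3 := by
      have h4 : log (2 ^ 2 * 3 ^ 3 : ℝ) = 2 * log 2 + 3 * log 3 := by
        rw [Real.log_mul (by norm_num) (by norm_num), Real.log_pow, Real.log_pow]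
        push_cast
        ring
      rw [← h4]
      exact Real.log_le_log (by norm_num) (by norm_num)
    rw [h1, h2]
    push_cast at h3 ⊢
    linarith
-- END num29

-- BEGIN num31
private theorem num31_mul (a b : ℝ) (ha : 0 < a) (hb : 0 < b) : log (a * b) = log a + log b :=
  Real.log_mul ha.ne' hb.ne'

/-- PROOF. As `num11`; `c2 31 = 38440`; the true value for `a` is 0.10323. -/
theorem num31 : Adm 31 0.101 113 := by
  obtain ⟨⟨h2, h2'⟩, ⟨h3, h3'⟩, ⟨h5, h5'⟩, ⟨h7, h7'⟩, ⟨h11, h11'⟩, ⟨h13, h13'⟩, ⟨h17, h17'⟩,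
    ⟨h19, h19'⟩, ⟨h23, h23'⟩, ⟨h29, h29'⟩, ⟨h31, h31'⟩⟩ := log_tab
  have l4 : log (4 : ℝ) = 2 * log 2 := by
    rw [show (4 : ℝ) = 2 * 2 by norm_num, num31_mul _ _ (by norm_num) (by norm_num)]
    ring
  have l6 : log (6 : ℝ) = log 2 + log 3 := by
    rw [show (6 : ℝ) = 2 * 3 by norm_num, num31_mul _ _ (by norm_num) (by norm_num)]
  have l8 : log (8 : ℝ) = 3 * log 2 := by
    rw [show (8 : ℝ) = 2 * 4 by norm_num, num31_mul _ _ (by norm_num) (by norm_num), l4]
    ring
  have l9 : log (9 : ℝ) = 2 * log 3 := by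
    rw [show (9 : ℝ) = 3 * 3 by norm_num, num31_mul _ _ (by norm_num) (by norm_num)]
    ring
  have l10 : log (10 : ℝ) = log 2 + log 5 := by
    rw [show (10 : ℝ) = 2 * 5 by norm_num, num31_mul _ _ (by norm_num) (by norm_num)]
  have l12 : log (12 : ℝ) = 2 * log 2 + log 3 := by
    rw [show (12 : ℝ) = 2 * 6 by norm_num, num31_mul _ _ (by norm_num) (by norm_num), l6]
    ring
  have l14 : log (14 : ℝ) = log 2 + log 7 := by
    rw [show (14 : ℝ) = 2 * 7 by norm_num, num31_mul _ _ (by norm_num) (by norm_num)]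
  have l15 : log (15 : ℝ) = log 3 + log 5 := by
    rw [show (15 : ℝ) = 3 * 5 by norm_num, num31_mul _ _ (by norm_num) (by norm_num)]
  have l16 : log (16 : ℝ) = 4 * log 2 := by
    rw [show (16 : ℝ) = 2 * 8 by norm_num, num31_mul _ _ (by norm_num) (by norm_num), l8]
    ring
  have l18 : log (18 : ℝ) = log 2 + 2 * log 3 := by
    rw [show (18 : ℝ) = 2 * 9 by norm_num, num31_mul _ _ (by norm_num) (by norm_num), l9]
  have l20 : log (20 : ℝ) = 2 * log 2 + log 5 := by
    rw [show (20 : ℝ) = 2 * 10 by norm_num, num31_mul _ _ (by norm_num) (by norm_num), l10]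
    ring
  have l21 : log (21 : ℝ) = log 3 + log 7 := by
    rw [show (21 : ℝ) = 3 * 7 by norm_num, num31_mul _ _ (by norm_num) (by norm_num)]
  have l22 : log (22 : ℝ) = log 2 + log 11 := by
    rw [show (22 : ℝ) = 2 * 11 by norm_num, num31_mul _ _ (by norm_num) (by norm_num)]
  have l24 : log (24 : ℝ) = 3 * log 2 + log 3 := by
    rw [show (24 : ℝ) = 2 * 12 by norm_num, num31_mul _ _ (by norm_num) (by norm_num), l12]
    ring
  have l25 : log (25 : ℝ) = 2 * log 5 := by
    rw [show (25 : ℝ) = 5 * 5 by norm_num, num31_mul _ _ (by norm_num) (by norm_num)]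
    ring
  have l26 : log (26 : ℝ) = log 2 + log 13 := by
    rw [show (26 : ℝ) = 2 * 13 by norm_num, num31_mul _ _ (by norm_num) (by norm_num)]
  have l27 : log (27 : ℝ) = 3 * log 3 := by
    rw [show (27 : ℝ) = 3 * 9 by norm_num, num31_mul _ _ (by norm_num) (by norm_num), l9]
    ring
  have l28 : log (28 : ℝ) = 2 * log 2 + log 7 := by
    rw [show (28 : ℝ) = 2 * 14 by norm_num, num31_mul _ _ (by norm_num) (by norm_num), l14]
    ring
  have l30 : log (30 : ℝ) = log 2 + log 3 + log 5 := by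
    rw [show (30 : ℝ) = 2 * 15 by norm_num, num31_mul _ _ (by norm_num) (by norm_num), l15]
    ring
  have l40 : log (40 : ℝ) = 3 * log 2 + log 5 := by
    rw [show (40 : ℝ) = 2 * 20 by norm_num, num31_mul _ _ (by norm_num) (by norm_num), l20]
    ring
  have l57 : log (57 : ℝ) = log 3 + log 19 := by
    rw [show (57 : ℝ) = 3 * 19 by norm_num, num31_mul _ _ (by norm_num) (by norm_num)]
  have l114 : log (114 : ℝ) = log 2 + log 3 + log 19 := by
    rw [show (114 : ℝ) = 2 * 57 by norm_num, num31_mul _ _ (by norm_num) (by norm_num), l57]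
    ring
  have l115 : log (115 : ℝ) = log 5 + log 23 := by
    rw [show (115 : ℝ) = 5 * 23 by norm_num, num31_mul _ _ (by norm_num) (by norm_num)]
  have hc : c2 31 = 38440 := by
    unfold c2
    norm_num
  have hlc : log (38440 : ℝ) = 3 * log 2 + log 5 + 2 * log 31 := by
    rw [show (38440 : ℝ) = 40 * (31 * 31) by norm_num, num31_mul _ _ (by norm_num) (by norm_num),
      num31_mul _ _ (by norm_num) (by norm_num), l40]
    ring
  have hL : Lam 31 = 71008 * log 2 + 37566 * log 3 + 19150 * log 5 + 11270 * log 7 + 6776 * log 11 + 6422 * log 13 + 4046 * log 17 + 4332 * log 19 + 4232 * log 23 + 1682 * log 29 := by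
    unfold Lam
    rw [Finset.sum_Ico_eq_sum_range]
    norm_num [Finset.sum_range_succ]
    rw [l4, l6, l8, l9, l10, l12, l14, l15, l16, l18, l20, l21, l22, l24, l25, l26, l27, l28, l30]
    ring
  have lt0 : log (113 : ℝ) ≤ log 2 + log 3 + log 19 := by
    rw [← l114]
    exact Real.log_le_log (by norm_num) (by norm_num)
  have lt1 : log ((113 : ℝ) / 2 + 1) ≤ -1 * log 2 + 1 * log 5 + 1 * log 23 := by
    have e1 : log ((113 : ℝ) / 2 + 1) + log 2 ≤ log (115 : ℝ) := by
      rw [← num31_mul _ _ (by norm_num) (by norm_num)]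
      exact Real.log_le_log (by norm_num) (by norm_num)
    rw [l115] at e1
    linarith
  refine ⟨by norm_num, by norm_num, ?_, ?_, by norm_num⟩
  · rw [hc, hL, hlc]
    push_cast
    linarith
  · push_cast
    rw [show (((31 : ℝ) ^ 2 - 1) / 24) = 40 by norm_num, l40]
    norm_num at lt1 ⊢
    linarith
-- END num31

end Pool.Agent.Wil
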