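import Pool.Agent.Wil.Raw
import Pool.Agent.Wil.Cert29g

set_option autoImplicit false
set_option maxRecDepth 100000

/-! Small degrees, p = 11. -/

namespace Pool.Agent.Wil

theorem sk11_12 : Raw.mchkR 11 5 12 12 [[0, 1, 1, 0, 1, 0, 1, 0, 0, 1, 0]] = true := by
  decide +kernel

theorem sk11_13 : Raw.mchkR 11 5 13 13 [[0, 1, 0, 1, 1, 0, 1, 0, 0, 1, 0],
    [0, 1, 1, 0, 1, 0, 0, 1, 0, 1, 0]] = true := by
  decide +kernel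

theorem sk11_14 : Raw.mchkR 11 5 14 14 [[0, 1, 0, 1, 1, 0, 0, 1, 0, 1, 0],
    [0, 1, 1, 0, 1, 0, 0, 1, 0, 0, 1]] = true := by
  decide +kernel

theorem sk11_15 : Raw.mchkR 11 5 15 15 [[0, 1, 0, 1, 0, 1, 0, 1, 0, 1, 0],
    [0, 1, 0, 1, 1, 0, 0, 1, 0, 0, 1]] = true := by
  decide +kernel

theorem sk11_16 : Raw.mchkR 11 6 16 16 [[2, 0, 1, 0, 1, 0, 1, 0, 1, 0, 0],
    [0, 1, 1, 0, 1, 0, 1, 0, 1, 0, 1]] = true := by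
  decide +kernel

theorem sk11_17 : Raw.mchkR 11 7 17 17 [[0, 2, 1, 1, 0, 1, 1, 0, 0, 1, 0],
    [2, 0, 1, 0, 1, 1, 0, 1, 0, 1, 0],
    [1, 2, 0, 1, 0, 1, 0, 1, 0, 0, 1]] = true := by
  decide +kernel

theorem sk11_18 : Raw.mchkR 11 7 18 18 [[0, 2, 1, 1, 0, 1, 0, 1, 0, 1, 0],
    [1, 0, 2, 1, 0, 1, 0, 1, 0, 1, 0],
    [2, 0, 1, 0, 1, 0, 1, 1, 0, 1, 0]] = true := by
  decide +kernel

theorem sk11_19 : Raw.mchkR 11 7 19 19 [[0, 1, 2, 1, 0, 1, 0, 1, 0, 1, 0],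
    [0, 2, 1, 0, 1, 1, 0, 1, 0, 1, 0],
    [1, 0, 2, 1, 0, 1, 0, 1, 0, 0, 1]] = true := by
  decide +kernel

theorem sk11_20 : Raw.mchkR 11 7 20 20 [[0, 1, 2, 0, 1, 1, 0, 1, 0, 1, 0],
    [0, 1, 2, 1, 0, 1, 0, 1, 0, 0, 1],
    [0, 2, 1, 0, 1, 1, 0, 1, 0, 0, 1],
    [1, 0, 2, 0, 1, 1, 0, 1, 0, 0, 1]] = true := by
  decide +kernel

theorem sk11_21 : Raw.mchkR 11 7 21 21 [[0, 1, 2, 0, 1, 1, 0, 1, 0, 0, 1],
    [0, 2, 1, 0, 1, 0, 1, 1, 0, 0, 1],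
    [1, 0, 2, 0, 1, 0, 1, 1, 0, 0, 1],
    [0, 2, 1, 0, 1, 1, 0, 0, 1, 0, 1],
    [1, 0, 2, 0, 1, 1, 0, 0, 1, 0, 1]] = true := by
  decide +kernel

theorem sk11_22 : Raw.mchkR 11 7 22 22 [[0, 1, 2, 0, 1, 1, 0, 0, 1, 0, 1]] = true := by
  decide +kernel

theorem sk11_23 : Raw.mchkR 11 7 23 23 [[0, 1, 2, 0, 1, 0, 1, 0, 1, 0, 1]] = true := by
  decide +kernel

theorem sk11_24 : Raw.mchkR 11 7 24 24 [[0, 1, 2, 0, 0, 1, 1, 0, 1, 0, 1]] = true := by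
  decide +kernel

theorem sk11_25 : Raw.mchkR 11 8 25 25 [[0, 2, 1, 2, 0, 1, 0, 1, 0, 1, 0]] = true := by
  decide +kernel

theorem sk11_26 : Raw.mchkR 11 8 26 26 [[0, 2, 1, 2, 0, 1, 0, 1, 0, 0, 1]] = true := by
  decide +kernel

theorem sk11_27 : Raw.mchkR 11 8 27 27 [[0, 2, 1, 0, 2, 1, 0, 1, 0, 1, 0]] = true := by
  decide +kernel

theorem sk11_28 : Raw.mchkR 11 8 28 28 [[0, 2, 1, 0, 2, 1, 0, 1, 0, 0, 1]] = true := by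
  decide +kernel

theorem sk11_29 : Raw.mchkR 11 8 29 29 [[0, 2, 1, 0, 2, 0, 1, 1, 0, 0, 1]] = true := by
  decide +kernel

theorem sk11_30 : Raw.mchkR 11 8 30 30 [[0, 2, 1, 0, 2, 0, 1, 0, 1, 0, 1]] = true := by
  decide +kernel

theorem sk11_31 : Raw.mchkR 11 8 31 31 [[0, 2, 0, 1, 2, 0, 1, 0, 1, 0, 1]] = true := by
  decide +kernel

theorem sk11_32 : Raw.mchkR 11 10 32 32 [[0, 2, 1, 2, 1, 0, 2, 0, 1, 0, 1],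
    [1, 2, 0, 2, 1, 0, 1, 0, 2, 0, 1]] = true := by
  decide +kernel

theorem sk11_33 : Raw.mchkR 11 10 33 33 [[0, 2, 1, 2, 0, 1, 2, 0, 1, 0, 1]] = true := by
  decide +kernel

theorem sk11_34 : Raw.mchkR 11 10 34 34 [[0, 2, 1, 2, 1, 0, 1, 0, 2, 0, 1]] = true := by
  decide +kernel

theorem sk11_35 : Raw.mchkR 11 10 35 35 [[0, 2, 1, 2, 0, 1, 0, 2, 1, 0, 1]] = true := by
  decide +kernel

theorem sk11_36 : Raw.mchkR 11 10 36 36 [[0, 2, 1, 2, 0, 1, 0, 1, 2, 0, 1]] = true := by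
  decide +kernel

theorem sk11_37 : Raw.mchkR 11 9 37 37 [[0, 2, 1, 0, 2, 1, 0, 2, 0, 1, 0]] = true := by
  decide +kernel

theorem sk11_38 : Raw.mchkR 11 9 38 38 [[0, 2, 1, 0, 2, 0, 1, 2, 0, 1, 0]] = true := by
  decide +kernel

theorem sk11_39 : Raw.mchkR 11 9 39 39 [[0, 2, 1, 0, 2, 0, 1, 2, 0, 0, 1]] = true := by
  decide +kernel

theorem sk11_40 : Raw.mchkR 11 9 40 40 [[0, 2, 0, 1, 2, 0, 2, 0, 1, 0, 1]] = true := by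
  decide +kernel

theorem sk11_41 : Raw.mchkR 11 11 41 41 [[0, 2, 1, 2, 0, 2, 1, 0, 2, 0, 1]] = true := by
  decide +kernel

theorem sk11_42 : Raw.mchkR 11 11 42 42 [[0, 2, 1, 2, 0, 1, 2, 0, 2, 0, 1]] = true := by
  decide +kernel

theorem sk11_43 : Raw.mchkR 11 11 43 43 [[0, 2, 1, 2, 0, 2, 1, 0, 1, 0, 2]] = true := by
  decide +kernel

end Pool.Agent.Wil
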