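import Pool.Agent.Wil.Raw
import Pool.Agent.Wil.Small11

set_option autoImplicit false
set_option maxRecDepth 100000

/-! Small degrees, p = 13. -/

namespace Pool.Agent.Wil

theorem sk13_14 : Raw.mchkR 13 5 14 14 [[0, 1, 0, 1, 1, 0, 0, 1, 0, 1, 0, 0, 0],
    [0, 1, 1, 0, 1, 0, 0, 1, 0, 0, 1, 0, 0]] = true := by
  decide +kernel

theorem sk13_15 : Raw.mchkR 13 5 15 15 [[0, 1, 0, 1, 0, 1, 0, 1, 0, 1, 0, 0, 0],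
    [0, 1, 0, 1, 1, 0, 0, 1, 0, 0, 1, 0, 0]] = true := by
  decide +kernel

theorem sk13_16 : Raw.mchkR 13 6 16 16 [[0, 1, 1, 0, 1, 0, 1, 0, 1, 0, 1, 0, 0],
    [1, 0, 1, 0, 1, 0, 1, 0, 1, 0, 0, 1, 0]] = true := by
  decide +kernel

theorem sk13_17 : Raw.mchkR 13 7 17 17 [[0, 1, 1, 1, 0, 1, 0, 1, 0, 1, 0, 1, 0],
    [1, 0, 1, 1, 0, 1, 0, 1, 0, 1, 0, 0, 1]] = true := by
  decide +kernel

theorem sk13_18 : Raw.mchkR 13 7 18 18 [[2, 0, 1, 1, 0, 1, 0, 1, 0, 1, 0, 0, 0],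
    [0, 1, 1, 1, 0, 1, 0, 1, 0, 1, 0, 0, 1]] = true := by
  decide +kernel

theorem sk13_19 : Raw.mchkR 13 7 19 19 [[2, 0, 1, 1, 0, 1, 0, 1, 0, 0, 1, 0, 0],
    [0, 1, 1, 0, 1, 1, 0, 1, 0, 1, 0, 0, 1],
    [1, 0, 1, 0, 1, 1, 0, 1, 0, 0, 1, 0, 1]] = true := by
  decide +kernel

theorem sk13_20 : Raw.mchkR 13 7 20 20 [[2, 0, 1, 0, 1, 1, 0, 1, 0, 0, 1, 0, 0],
    [2, 0, 1, 1, 0, 1, 0, 0, 1, 0, 1, 0, 0],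
    [0, 1, 1, 0, 1, 0, 1, 1, 0, 1, 0, 0, 1],
    [0, 1, 1, 0, 1, 1, 0, 1, 0, 0, 1, 0, 1]] = true := by
  decide +kernel

theorem sk13_21 : Raw.mchkR 13 7 21 21 [[2, 0, 1, 0, 1, 1, 0, 0, 1, 0, 1, 0, 0],
    [0, 1, 1, 0, 1, 0, 1, 1, 0, 0, 1, 0, 1],
    [0, 1, 1, 0, 1, 1, 0, 0, 1, 0, 1, 0, 1],
    [1, 0, 1, 0, 1, 0, 1, 0, 1, 0, 1, 0, 1]] = true := by
  decide +kernel

theorem sk13_22 : Raw.mchkR 13 8 22 22 [[0, 2, 1, 1, 0, 1, 1, 0, 1, 0, 0, 1, 0],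
    [1, 0, 2, 1, 0, 1, 1, 0, 1, 0, 0, 1, 0],
    [1, 2, 0, 1, 0, 1, 0, 1, 0, 1, 0, 1, 0],
    [2, 0, 1, 1, 0, 1, 0, 1, 0, 1, 0, 1, 0]] = true := by
  decide +kernel

theorem sk13_23 : Raw.mchkR 13 8 23 23 [[0, 2, 1, 1, 0, 1, 0, 1, 1, 0, 0, 1, 0],
    [1, 0, 2, 1, 0, 1, 0, 1, 1, 0, 0, 1, 0],
    [0, 2, 1, 1, 0, 1, 1, 0, 0, 1, 0, 1, 0],
    [1, 0, 2, 1, 0, 1, 1, 0, 0, 1, 0, 1, 0],
    [2, 0, 1, 0, 1, 1, 0, 1, 0, 1, 0, 1, 0],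
    [1, 2, 0, 1, 0, 1, 0, 1, 0, 1, 0, 0, 1]] = true := by
  decide +kernel

theorem sk13_24 : Raw.mchkR 13 8 24 24 [[0, 1, 2, 1, 0, 1, 0, 1, 1, 0, 0, 1, 0],
    [0, 2, 1, 0, 1, 1, 0, 1, 1, 0, 0, 1, 0],
    [0, 1, 2, 1, 0, 1, 1, 0, 0, 1, 0, 1, 0],
    [0, 2, 1, 1, 0, 1, 0, 1, 0, 1, 0, 1, 0],
    [1, 0, 2, 1, 0, 1, 0, 1, 0, 1, 0, 1, 0],
    [1, 0, 2, 1, 0, 1, 1, 0, 0, 1, 0, 0, 1]] = true := by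
  decide +kernel

theorem sk13_25 : Raw.mchkR 13 8 25 25 [[0, 1, 2, 1, 0, 1, 0, 1, 0, 1, 0, 1, 0],
    [0, 2, 1, 0, 1, 1, 0, 1, 0, 1, 0, 1, 0],
    [1, 0, 2, 0, 1, 1, 0, 1, 0, 1, 0, 1, 0],
    [0, 2, 1, 1, 0, 1, 0, 1, 0, 1, 0, 0, 1],
    [1, 0, 2, 1, 0, 1, 0, 1, 0, 1, 0, 0, 1]] = true := by
  decide +kernel

theorem sk13_26 : Raw.mchkR 13 8 26 26 [[0, 1, 2, 1, 0, 1, 0, 1, 0, 1, 0, 0, 1]] = true := by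
  decide +kernel

theorem sk13_27 : Raw.mchkR 13 8 27 27 [[0, 1, 2, 0, 1, 1, 0, 1, 0, 1, 0, 0, 1]] = true := by
  decide +kernel

theorem sk13_28 : Raw.mchkR 13 8 28 28 [[0, 1, 2, 0, 1, 1, 0, 1, 0, 0, 1, 0, 1]] = true := by
  decide +kernel

theorem sk13_29 : Raw.mchkR 13 8 29 29 [[0, 1, 2, 0, 1, 0, 1, 1, 0, 0, 1, 0, 1]] = true := by
  decide +kernel

theorem sk13_30 : Raw.mchkR 13 8 30 30 [[0, 1, 2, 0, 1, 0, 1, 0, 1, 0, 1, 0, 1]] = true := by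
  decide +kernel

theorem sk13_31 : Raw.mchkR 13 9 31 31 [[0, 2, 1, 2, 0, 1, 0, 1, 1, 0, 0, 1, 0],
    [2, 0, 1, 0, 2, 1, 0, 1, 1, 0, 0, 1, 0]] = true := by
  decide +kernel

theorem sk13_32 : Raw.mchkR 13 9 32 32 [[0, 2, 1, 2, 0, 1, 0, 1, 0, 1, 0, 1, 0]] = true := by
  decide +kernel

theorem sk13_33 : Raw.mchkR 13 9 33 33 [[2, 0, 1, 0, 2, 0, 1, 1, 0, 1, 0, 1, 0],
    [0, 2, 1, 2, 0, 1, 0, 1, 0, 1, 0, 0, 1]] = true := by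
  decide +kernel

theorem sk13_34 : Raw.mchkR 13 9 34 34 [[0, 2, 1, 0, 2, 1, 0, 1, 0, 1, 0, 1, 0]] = true := by
  decide +kernel

theorem sk13_35 : Raw.mchkR 13 9 35 35 [[0, 2, 1, 0, 2, 1, 0, 1, 0, 1, 0, 0, 1]] = true := by
  decide +kernel

theorem sk13_36 : Raw.mchkR 13 10 36 36 [[2, 0, 2, 1, 0, 2, 0, 1, 1, 0, 1, 0, 0],
    [0, 1, 2, 1, 0, 2, 0, 1, 1, 0, 1, 0, 1]] = true := by
  decide +kernel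

theorem sk13_37 : Raw.mchkR 13 10 37 37 [[2, 0, 1, 2, 0, 1, 2, 0, 1, 0, 1, 0, 0],
    [0, 1, 2, 0, 1, 2, 0, 1, 1, 0, 1, 0, 1]] = true := by
  decide +kernel

theorem sk13_38 : Raw.mchkR 13 10 38 38 [[2, 0, 2, 1, 0, 2, 0, 1, 0, 1, 0, 1, 0],
    [0, 1, 2, 0, 1, 2, 0, 1, 0, 1, 1, 0, 1]] = true := by
  decide +kernel

theorem sk13_39 : Raw.mchkR 13 9 39 39 [[0, 2, 0, 1, 2, 0, 1, 0, 1, 0, 1, 0, 1]] = true := by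
  decide +kernel

theorem sk13_40 : Raw.mchkR 13 11 40 40 [[0, 2, 1, 2, 1, 0, 2, 0, 1, 0, 1, 0, 1]] = true := by
  decide +kernel

theorem sk13_41 : Raw.mchkR 13 11 41 41 [[0, 2, 1, 2, 0, 1, 2, 0, 1, 0, 1, 0, 1]] = true := by
  decide +kernel

theorem sk13_42 : Raw.mchkR 13 11 42 42 [[0, 2, 1, 2, 1, 0, 1, 0, 2, 0, 1, 0, 1]] = true := by
  decide +kernel

theorem sk13_43 : Raw.mchkR 13 11 43 43 [[0, 2, 1, 2, 0, 1, 0, 2, 1, 0, 1, 0, 1]] = true := by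
  decide +kernel

theorem sk13_44 : Raw.mchkR 13 11 44 44 [[0, 2, 1, 2, 0, 1, 0, 1, 2, 0, 1, 0, 1]] = true := by
  decide +kernel

theorem sk13_45 : Raw.mchkR 13 10 45 45 [[0, 2, 1, 0, 2, 1, 0, 2, 0, 1, 0, 1, 0]] = true := by
  decide +kernel

theorem sk13_46 : Raw.mchkR 13 11 46 46 [[0, 1, 2, 1, 0, 2, 1, 0, 2, 0, 1, 0, 1]] = true := by
  decide +kernel

theorem sk13_47 : Raw.mchkR 13 11 47 47 [[0, 1, 2, 1, 0, 2, 0, 1, 2, 0, 1, 0, 1]] = true := by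
  decide +kernel

theorem sk13_48 : Raw.mchkR 13 11 48 48 [[0, 1, 2, 0, 1, 2, 0, 1, 2, 0, 1, 0, 1]] = true := by
  decide +kernel

theorem sk13_49 : Raw.mchkR 13 10 49 49 [[0, 2, 0, 1, 2, 0, 2, 0, 1, 0, 1, 0, 1]] = true := by
  decide +kernel

theorem sk13_50 : Raw.mchkR 13 12 50 50 [[0, 2, 1, 2, 0, 2, 1, 0, 2, 0, 1, 0, 1]] = true := by
  decide +kernel

theorem sk13_51 : Raw.mchkR 13 12 51 51 [[0, 2, 1, 2, 0, 1, 2, 0, 2, 0, 1, 0, 1]] = true := by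
  decide +kernel

end Pool.Agent.Wil
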