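import Pool.Agent.Wil.Raw
import Pool.Agent.Wil.Cert17b

set_option autoImplicit false
set_option maxRecDepth 100000

/-! Small degrees, p = 17. -/

namespace Pool.Agent.Wil

theorem sk17_18 : Raw.mchkR 17 7 18 18 [[0, 1, 1, 1, 0, 1, 0, 1, 0, 1, 0, 0, 1, 0, 0, 0, 0],
    [1, 0, 1, 1, 0, 1, 0, 1, 0, 1, 0, 0, 0, 1, 0, 0, 0]] = true := by
  decide +kernel

theorem sk17_19 : Raw.mchkR 17 6 19 19 [[0, 1, 0, 1, 1, 0, 1, 0, 0, 1, 0, 1, 0, 0, 0, 0, 0],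
    [0, 1, 1, 0, 1, 0, 1, 0, 0, 1, 0, 0, 1, 0, 0, 0, 0]] = true := by
  decide +kernel

theorem sk17_20 : Raw.mchkR 17 7 20 20 [[0, 1, 1, 0, 1, 1, 0, 1, 0, 0, 1, 0, 1, 0, 0, 0, 0],
    [0, 1, 1, 0, 1, 1, 0, 1, 0, 1, 0, 0, 0, 1, 0, 0, 0],
    [1, 0, 1, 0, 1, 1, 0, 1, 0, 0, 1, 0, 0, 1, 0, 0, 0]] = true := by
  decide +kernel

theorem sk17_21 : Raw.mchkR 17 7 21 21 [[0, 1, 1, 0, 1, 0, 1, 1, 0, 0, 1, 0, 1, 0, 0, 0, 0],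
    [1, 0, 1, 0, 1, 0, 1, 0, 1, 0, 1, 0, 1, 0, 0, 0, 0],
    [0, 1, 1, 0, 1, 1, 0, 1, 0, 0, 1, 0, 0, 1, 0, 0, 0]] = true := by
  decide +kernel

theorem sk17_22 : Raw.mchkR 17 7 22 22 [[0, 1, 1, 0, 1, 0, 1, 0, 1, 0, 1, 0, 1, 0, 0, 0, 0],
    [0, 1, 1, 0, 1, 1, 0, 0, 1, 0, 1, 0, 0, 1, 0, 0, 0],
    [1, 0, 1, 0, 1, 0, 1, 0, 1, 0, 1, 0, 0, 1, 0, 0, 0]] = true := by
  decide +kernel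

theorem sk17_23 : Raw.mchkR 17 8 23 23 [[0, 1, 1, 1, 0, 1, 0, 1, 0, 1, 0, 1, 0, 1, 0, 0, 0],
    [1, 0, 1, 1, 0, 1, 0, 1, 0, 1, 0, 1, 0, 0, 1, 0, 0],
    [1, 1, 0, 1, 0, 1, 0, 1, 0, 1, 0, 1, 0, 0, 0, 1, 0]] = true := by
  decide +kernel

theorem sk17_24 : Raw.mchkR 17 8 24 24 [[0, 1, 1, 1, 0, 1, 0, 1, 0, 1, 0, 1, 0, 0, 1, 0, 0],
    [1, 0, 1, 0, 1, 1, 0, 1, 0, 1, 0, 1, 0, 0, 1, 0, 0],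
    [1, 0, 1, 1, 0, 1, 0, 1, 0, 1, 0, 1, 0, 0, 0, 1, 0]] = true := by
  decide +kernel

theorem sk17_25 : Raw.mchkR 17 8 25 25 [[0, 1, 1, 0, 1, 1, 0, 1, 0, 1, 0, 1, 0, 0, 1, 0, 0],
    [0, 1, 1, 1, 0, 1, 0, 1, 0, 1, 0, 0, 1, 0, 1, 0, 0],
    [0, 1, 1, 1, 0, 1, 0, 1, 0, 1, 0, 1, 0, 0, 0, 1, 0],
    [1, 0, 1, 1, 0, 1, 0, 1, 0, 1, 0, 0, 1, 0, 0, 1, 0]] = true := by
  decide +kernel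

theorem sk17_26 : Raw.mchkR 17 8 26 26 [[0, 1, 1, 0, 1, 1, 0, 1, 0, 1, 0, 0, 1, 0, 1, 0, 0],
    [0, 1, 1, 0, 1, 1, 0, 1, 0, 1, 0, 1, 0, 0, 0, 1, 0],
    [0, 1, 1, 1, 0, 1, 0, 1, 0, 1, 0, 0, 1, 0, 0, 1, 0],
    [1, 0, 1, 0, 1, 1, 0, 1, 0, 1, 0, 0, 1, 0, 0, 1, 0]] = true := by
  decide +kernel

theorem sk17_27 : Raw.mchkR 17 8 27 27 [[0, 1, 1, 0, 1, 0, 1, 1, 0, 1, 0, 0, 1, 0, 1, 0, 0],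
    [0, 1, 1, 0, 1, 1, 0, 1, 0, 0, 1, 0, 1, 0, 1, 0, 0],
    [0, 1, 1, 0, 1, 0, 1, 1, 0, 1, 0, 1, 0, 0, 0, 1, 0],
    [0, 1, 1, 0, 1, 1, 0, 1, 0, 1, 0, 0, 1, 0, 0, 1, 0],
    [0, 1, 1, 1, 0, 1, 0, 1, 0, 0, 1, 0, 1, 0, 0, 1, 0],
    [1, 0, 1, 0, 1, 1, 0, 1, 0, 0, 1, 0, 1, 0, 0, 1, 0]] = true := by
  decide +kernel

theorem sk17_28 : Raw.mchkR 17 9 28 28 [[2, 0, 1, 1, 0, 1, 1, 0, 1, 0, 1, 0, 0, 1, 0, 0, 0],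
    [1, 0, 1, 1, 0, 1, 0, 1, 1, 0, 0, 1, 0, 1, 0, 1, 0],
    [1, 1, 0, 1, 0, 1, 0, 1, 0, 1, 0, 1, 0, 1, 0, 1, 0],
    [0, 1, 1, 1, 0, 1, 1, 0, 1, 0, 1, 0, 0, 1, 0, 0, 1],
    [1, 0, 1, 1, 0, 1, 0, 1, 1, 0, 1, 0, 0, 1, 0, 0, 1],
    [1, 0, 1, 1, 0, 1, 1, 0, 1, 0, 0, 1, 0, 1, 0, 0, 1],
    [1, 1, 0, 1, 0, 1, 0, 1, 1, 0, 0, 1, 0, 1, 0, 0, 1]] = true := by
  decide +kernel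

theorem sk17_29 : Raw.mchkR 17 9 29 29 [[2, 0, 1, 1, 0, 1, 1, 0, 1, 0, 0, 1, 0, 1, 0, 0, 0],
    [1, 0, 1, 1, 0, 1, 0, 1, 0, 1, 0, 1, 0, 1, 0, 1, 0],
    [0, 1, 1, 1, 0, 1, 0, 1, 1, 0, 1, 0, 0, 1, 0, 0, 1],
    [1, 0, 1, 1, 0, 1, 0, 1, 0, 1, 1, 0, 0, 1, 0, 0, 1],
    [1, 0, 1, 1, 0, 1, 0, 1, 1, 0, 0, 1, 0, 1, 0, 0, 1],
    [1, 0, 1, 1, 0, 1, 1, 0, 0, 1, 0, 1, 0, 1, 0, 0, 1],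
    [1, 1, 0, 1, 0, 1, 0, 1, 0, 1, 0, 1, 0, 1, 0, 0, 1]] = true := by
  decide +kernel

theorem sk17_30 : Raw.mchkR 17 9 30 30 [[2, 0, 1, 1, 0, 1, 0, 1, 1, 0, 0, 1, 0, 1, 0, 0, 0],
    [2, 1, 0, 1, 0, 1, 0, 1, 0, 1, 0, 1, 0, 1, 0, 0, 0],
    [0, 1, 1, 1, 0, 1, 0, 1, 0, 1, 0, 1, 0, 1, 0, 1, 0],
    [1, 0, 1, 0, 1, 1, 0, 1, 0, 1, 0, 1, 0, 1, 0, 1, 0],
    [0, 1, 1, 1, 0, 1, 0, 1, 0, 1, 1, 0, 0, 1, 0, 0, 1],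
    [0, 1, 1, 1, 0, 1, 0, 1, 1, 0, 0, 1, 0, 1, 0, 0, 1],
    [1, 0, 1, 1, 0, 1, 0, 1, 0, 1, 0, 1, 0, 1, 0, 0, 1],
    [1, 1, 0, 1, 0, 1, 0, 1, 0, 1, 0, 1, 0, 0, 1, 0, 1]] = true := by
  decide +kernel

theorem sk17_31 : Raw.mchkR 17 9 31 31 [[2, 0, 1, 1, 0, 1, 0, 1, 0, 1, 0, 1, 0, 1, 0, 0, 0],
    [2, 0, 1, 1, 0, 1, 0, 1, 1, 0, 0, 1, 0, 0, 1, 0, 0],
    [2, 1, 0, 1, 0, 1, 0, 1, 0, 1, 0, 1, 0, 0, 1, 0, 0],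
    [0, 1, 1, 0, 1, 1, 0, 1, 0, 1, 0, 1, 0, 1, 0, 1, 0],
    [0, 1, 1, 0, 1, 1, 0, 1, 1, 0, 0, 1, 0, 1, 0, 0, 1],
    [0, 1, 1, 1, 0, 1, 0, 1, 0, 1, 0, 1, 0, 1, 0, 0, 1],
    [1, 0, 1, 0, 1, 1, 0, 1, 0, 1, 0, 1, 0, 1, 0, 0, 1],
    [1, 0, 1, 1, 0, 1, 0, 1, 0, 1, 0, 1, 0, 0, 1, 0, 1]] = true := by
  decide +kernel

theorem sk17_32 : Raw.mchkR 17 10 32 32 [[1, 2, 0, 1, 0, 1, 1, 0, 1, 0, 1, 0, 1, 0, 1, 0, 0],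
    [2, 0, 1, 1, 0, 1, 1, 0, 1, 0, 1, 0, 1, 0, 1, 0, 0],
    [2, 1, 0, 1, 0, 1, 0, 1, 1, 0, 1, 0, 1, 0, 1, 0, 0],
    [1, 1, 2, 0, 1, 0, 1, 0, 1, 0, 1, 0, 1, 0, 0, 1, 0],
    [1, 2, 0, 1, 1, 0, 1, 0, 1, 0, 1, 0, 1, 0, 0, 1, 0],
    [2, 0, 1, 1, 1, 0, 1, 0, 1, 0, 1, 0, 1, 0, 0, 1, 0],
    [2, 1, 0, 1, 0, 1, 1, 0, 1, 0, 1, 0, 1, 0, 0, 1, 0],
    [2, 1, 0, 1, 1, 0, 1, 0, 1, 0, 1, 0, 0, 1, 0, 1, 0],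
    [0, 1, 1, 1, 0, 1, 1, 0, 1, 0, 1, 0, 1, 0, 1, 0, 1]] = true := by
  decide +kernel

theorem sk17_33 : Raw.mchkR 17 10 33 33 [[0, 2, 1, 1, 1, 0, 1, 0, 1, 0, 1, 0, 1, 0, 1, 0, 0],
    [1, 0, 2, 1, 1, 0, 1, 0, 1, 0, 1, 0, 1, 0, 1, 0, 0],
    [2, 0, 1, 0, 1, 1, 1, 0, 1, 0, 1, 0, 1, 0, 1, 0, 0],
    [1, 2, 0, 1, 0, 1, 0, 1, 1, 0, 1, 0, 1, 0, 1, 0, 0],
    [2, 0, 1, 1, 0, 1, 0, 1, 1, 0, 1, 0, 1, 0, 1, 0, 0],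
    [1, 2, 0, 1, 0, 1, 1, 0, 1, 0, 1, 0, 1, 0, 0, 1, 0],
    [2, 0, 1, 1, 0, 1, 1, 0, 1, 0, 1, 0, 1, 0, 0, 1, 0],
    [2, 1, 0, 1, 0, 1, 0, 1, 1, 0, 1, 0, 1, 0, 0, 1, 0],
    [1, 2, 0, 1, 1, 0, 1, 0, 1, 0, 1, 0, 0, 1, 0, 1, 0],
    [2, 0, 1, 1, 1, 0, 1, 0, 1, 0, 1, 0, 0, 1, 0, 1, 0],
    [2, 1, 0, 1, 0, 1, 1, 0, 1, 0, 1, 0, 0, 1, 0, 1, 0],
    [1, 2, 0, 1, 1, 0, 1, 0, 1, 0, 1, 0, 1, 0, 0, 0, 1]] = true := by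
  decide +kernel

theorem sk17_34 : Raw.mchkR 17 10 34 34 [[0, 2, 1, 1, 0, 1, 1, 0, 1, 0, 1, 0, 1, 0, 1, 0, 0]] = true := by
  decide +kernel

theorem sk17_35 : Raw.mchkR 17 10 35 35 [[0, 2, 1, 1, 0, 1, 1, 0, 1, 0, 1, 0, 1, 0, 0, 1, 0]] = true := by
  decide +kernel

theorem sk17_36 : Raw.mchkR 17 10 36 36 [[0, 2, 1, 1, 0, 1, 0, 1, 1, 0, 1, 0, 1, 0, 0, 1, 0]] = true := by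
  decide +kernel

theorem sk17_37 : Raw.mchkR 17 9 37 37 [[0, 2, 1, 0, 1, 0, 1, 1, 0, 1, 0, 0, 1, 0, 1, 0, 0]] = true := by
  decide +kernel

theorem sk17_38 : Raw.mchkR 17 10 38 38 [[0, 1, 2, 1, 0, 1, 0, 1, 1, 0, 1, 0, 0, 1, 0, 1, 0],
    [1, 0, 2, 1, 0, 1, 0, 1, 1, 0, 1, 0, 0, 1, 0, 0, 1]] = true := by
  decide +kernel

theorem sk17_39 : Raw.mchkR 17 9 39 39 [[0, 2, 1, 0, 1, 0, 1, 0, 1, 0, 1, 0, 1, 0, 1, 0, 0]] = true := by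
  decide +kernel

theorem sk17_40 : Raw.mchkR 17 9 40 40 [[0, 2, 1, 0, 1, 0, 1, 0, 1, 0, 1, 0, 1, 0, 0, 1, 0]] = true := by
  decide +kernel

theorem sk17_41 : Raw.mchkR 17 10 41 41 [[0, 1, 2, 1, 0, 1, 0, 1, 0, 1, 0, 1, 0, 1, 0, 0, 1]] = true := by
  decide +kernel

theorem sk17_42 : Raw.mchkR 17 10 42 42 [[0, 1, 2, 0, 1, 1, 0, 1, 0, 1, 0, 1, 0, 1, 0, 0, 1]] = true := by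
  decide +kernel

theorem sk17_43 : Raw.mchkR 17 10 43 43 [[0, 1, 2, 0, 1, 0, 1, 1, 0, 1, 0, 1, 0, 1, 0, 0, 1],
    [0, 1, 2, 0, 1, 1, 0, 1, 0, 1, 0, 1, 0, 0, 1, 0, 1]] = true := by
  decide +kernel

theorem sk17_44 : Raw.mchkR 17 10 44 44 [[0, 1, 2, 0, 1, 0, 1, 0, 1, 1, 0, 1, 0, 1, 0, 0, 1],
    [0, 1, 2, 0, 1, 0, 1, 1, 0, 1, 0, 1, 0, 0, 1, 0, 1]] = true := by
  decide +kernel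

theorem sk17_45 : Raw.mchkR 17 11 45 45 [[2, 0, 1, 0, 2, 1, 0, 1, 1, 0, 1, 0, 1, 0, 1, 0, 0],
    [0, 2, 1, 2, 0, 1, 1, 0, 1, 0, 1, 0, 1, 0, 0, 1, 0],
    [2, 0, 1, 2, 0, 1, 0, 1, 0, 1, 1, 0, 1, 0, 0, 1, 0]] = true := by
  decide +kernel

theorem sk17_46 : Raw.mchkR 17 11 46 46 [[0, 2, 1, 2, 0, 1, 0, 1, 1, 0, 1, 0, 1, 0, 0, 1, 0],
    [2, 0, 1, 0, 2, 1, 0, 1, 1, 0, 1, 0, 1, 0, 0, 1, 0],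
    [2, 0, 1, 2, 0, 1, 0, 1, 0, 1, 1, 0, 0, 1, 0, 1, 0]] = true := by
  decide +kernel

theorem sk17_47 : Raw.mchkR 17 12 47 47 [[0, 2, 1, 1, 0, 2, 1, 0, 1, 1, 0, 1, 0, 1, 0, 1, 0],
    [1, 0, 2, 1, 0, 2, 1, 0, 1, 1, 0, 1, 0, 1, 0, 1, 0],
    [1, 0, 2, 1, 0, 2, 1, 1, 0, 1, 0, 1, 0, 1, 0, 0, 1]] = true := by
  decide +kernel

theorem sk17_48 : Raw.mchkR 17 12 48 48 [[0, 2, 1, 1, 0, 2, 1, 0, 1, 1, 0, 1, 0, 1, 0, 0, 1],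
    [1, 0, 2, 1, 0, 2, 1, 0, 1, 1, 0, 1, 0, 1, 0, 0, 1],
    [1, 0, 2, 1, 1, 0, 2, 0, 1, 1, 0, 1, 0, 1, 0, 0, 1]] = true := by
  decide +kernel

theorem sk17_49 : Raw.mchkR 17 11 49 49 [[0, 2, 1, 0, 2, 1, 0, 1, 0, 1, 1, 0, 1, 0, 0, 1, 0],
    [0, 2, 1, 0, 2, 1, 0, 1, 1, 0, 1, 0, 0, 1, 0, 1, 0],
    [0, 2, 1, 2, 0, 1, 0, 1, 0, 1, 0, 1, 0, 1, 0, 1, 0]] = true := by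
  decide +kernel

theorem sk17_50 : Raw.mchkR 17 12 50 50 [[1, 0, 2, 1, 0, 2, 1, 0, 1, 0, 1, 0, 1, 1, 0, 0, 1],
    [1, 0, 2, 1, 0, 2, 1, 0, 1, 0, 1, 1, 0, 0, 1, 0, 1],
    [1, 0, 2, 1, 0, 2, 1, 0, 1, 1, 0, 0, 1, 0, 1, 0, 1],
    [0, 1, 2, 1, 2, 0, 1, 0, 1, 0, 1, 0, 1, 0, 1, 0, 1]] = true := by
  decide +kernel

theorem sk17_51 : Raw.mchkR 17 11 51 51 [[0, 2, 1, 0, 2, 1, 0, 1, 0, 1, 0, 1, 0, 1, 0, 1, 0]] = true := by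
  decide +kernel

theorem sk17_52 : Raw.mchkR 17 11 52 52 [[0, 2, 1, 0, 1, 2, 0, 1, 0, 1, 0, 1, 0, 1, 0, 1, 0]] = true := by
  decide +kernel

theorem sk17_53 : Raw.mchkR 17 12 53 53 [[0, 1, 2, 1, 0, 1, 2, 0, 1, 0, 1, 0, 1, 0, 1, 0, 1]] = true := by
  decide +kernel

theorem sk17_54 : Raw.mchkR 17 11 54 54 [[0, 1, 2, 0, 1, 2, 0, 1, 0, 1, 0, 1, 0, 1, 0, 0, 1]] = true := by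
  decide +kernel

theorem sk17_55 : Raw.mchkR 17 12 55 55 [[0, 1, 2, 0, 1, 2, 0, 1, 0, 1, 1, 0, 1, 0, 1, 0, 1]] = true := by
  decide +kernel

theorem sk17_56 : Raw.mchkR 17 13 56 56 [[0, 2, 1, 2, 0, 1, 2, 0, 1, 1, 0, 1, 0, 1, 0, 1, 0]] = true := by
  decide +kernel

theorem sk17_57 : Raw.mchkR 17 13 57 57 [[0, 2, 1, 2, 0, 1, 2, 0, 1, 0, 1, 1, 0, 1, 0, 1, 0]] = true := by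
  decide +kernel

theorem sk17_58 : Raw.mchkR 17 13 58 58 [[0, 2, 1, 2, 0, 1, 1, 0, 2, 1, 0, 1, 0, 1, 0, 1, 0]] = true := by
  decide +kernel

theorem sk17_59 : Raw.mchkR 17 13 59 59 [[0, 2, 1, 2, 0, 1, 1, 0, 2, 0, 1, 1, 0, 1, 0, 1, 0]] = true := by
  decide +kernel

theorem sk17_60 : Raw.mchkR 17 13 60 60 [[0, 2, 1, 2, 0, 1, 2, 0, 1, 0, 1, 0, 1, 0, 1, 0, 1]] = true := by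
  decide +kernel

theorem sk17_61 : Raw.mchkR 17 13 61 61 [[0, 2, 1, 2, 1, 0, 1, 0, 2, 0, 1, 0, 1, 0, 1, 0, 1]] = true := by
  decide +kernel

theorem sk17_62 : Raw.mchkR 17 13 62 62 [[0, 2, 1, 2, 0, 1, 0, 2, 1, 0, 1, 0, 1, 0, 1, 0, 1]] = true := by
  decide +kernel

theorem sk17_63 : Raw.mchkR 17 13 63 63 [[0, 2, 1, 2, 0, 1, 0, 1, 2, 0, 1, 0, 1, 0, 1, 0, 1]] = true := by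
  decide +kernel

theorem sk17_64 : Raw.mchkR 17 13 64 64 [[0, 2, 1, 0, 2, 1, 0, 2, 1, 0, 1, 0, 1, 0, 1, 0, 1]] = true := by
  decide +kernel

theorem sk17_65 : Raw.mchkR 17 13 65 65 [[0, 1, 2, 1, 0, 2, 1, 0, 2, 0, 1, 0, 1, 0, 1, 0, 1]] = true := by
  decide +kernel

theorem sk17_66 : Raw.mchkR 17 13 66 66 [[0, 1, 2, 1, 0, 2, 0, 1, 2, 0, 1, 0, 1, 0, 1, 0, 1]] = true := by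
  decide +kernel

theorem sk17_67 : Raw.mchkR 17 13 67 67 [[0, 1, 2, 0, 1, 2, 0, 1, 2, 0, 1, 0, 1, 0, 1, 0, 1]] = true := by
  decide +kernel

end Pool.Agent.Wil
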