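import Mathlib
import Pool.Agent.Wil.Bridge
import Pool.Agent.Wil.Gen
import Pool.Agent.Wil.Small11
import Pool.Agent.Wil.Cert11a
import Pool.Agent.Wil.Small13
import Pool.Agent.Wil.Cert13a
import Pool.Agent.Wil.Small17
import Pool.Agent.Wil.Cert17a
import Pool.Agent.Wil.Cert17b
import Pool.Agent.Wil.Small19
import Pool.Agent.Wil.Cert19a
import Pool.Agent.Wil.Cert19b
import Pool.Agent.Wil.Cert19c
import Pool.Agent.Wil.Small23
import Pool.Agent.Wil.Cert23a
import Pool.Agent.Wil.Cert23b
import Pool.Agent.Wil.Cert23c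
import Pool.Agent.Wil.Cert23d
import Pool.Agent.Wil.Cert23e
import Pool.Agent.Wil.Small29
import Pool.Agent.Wil.Small29b
import Pool.Agent.Wil.Cert29a
import Pool.Agent.Wil.Cert29b
import Pool.Agent.Wil.Cert29c
import Pool.Agent.Wil.Cert29d
import Pool.Agent.Wil.Cert29e
import Pool.Agent.Wil.Cert29f
import Pool.Agent.Wil.Cert29g
import Pool.Agent.Wil.Small31
import Pool.Agent.Wil.Small31b
import Pool.Agent.Wil.Cert31a
import Pool.Agent.Wil.Cert31b
import Pool.Agent.Wil.Cert31c
import Pool.Agent.Wil.Cert31d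
import Pool.Agent.Wil.Cert31e
import Pool.Agent.Wil.Cert31f
import Pool.Agent.Wil.Cert31g
import Pool.Agent.Wil.Cert31h

set_option autoImplicit false

/-! All degrees at p = 11, 13, 17, 19, 23, 29, 31. -/

namespace Pool.Agent.Wil

theorem small11 (n : ℕ) (hn : n < 44) : Wl 11 1 n := by
  haveI : Fact (Nat.Prime 11) := ⟨by norm_num⟩
  by_cases h : n < 11
  · exact wl_small 11 n h
  rw [not_lt] at h
  interval_cases n
  · exact wl_prime 11
  · exact mchkR_step _ _ _ _ (by norm_num) sk11_12
  · exact mchkR_step _ _ _ _ (by norm_num) sk11_13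
  · exact mchkR_step _ _ _ _ (by norm_num) sk11_14
  · exact mchkR_step _ _ _ _ (by norm_num) sk11_15
  · exact mchkR_step _ _ _ _ (by norm_num) sk11_16
  · exact mchkR_step _ _ _ _ (by norm_num) sk11_17
  · exact mchkR_step _ _ _ _ (by norm_num) sk11_18
  · exact mchkR_step _ _ _ _ (by norm_num) sk11_19
  · exact mchkR_step _ _ _ _ (by norm_num) sk11_20
  · exact mchkR_step _ _ _ _ (by norm_num) sk11_21
  · exact mchkR_step _ _ _ _ (by norm_num) sk11_22
  · exact mchkR_step _ _ _ _ (by norm_num) sk11_23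
  · exact mchkR_step _ _ _ _ (by norm_num) sk11_24
  · exact mchkR_step _ _ _ _ (by norm_num) sk11_25
  · exact mchkR_step _ _ _ _ (by norm_num) sk11_26
  · exact mchkR_step _ _ _ _ (by norm_num) sk11_27
  · exact mchkR_step _ _ _ _ (by norm_num) sk11_28
  · exact mchkR_step _ _ _ _ (by norm_num) sk11_29
  · exact mchkR_step _ _ _ _ (by norm_num) sk11_30
  · exact mchkR_step _ _ _ _ (by norm_num) sk11_31
  · exact mchkR_step _ _ _ _ (by norm_num) sk11_32
  · exact mchkR_step _ _ _ _ (by norm_num) sk11_33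
  · exact mchkR_step _ _ _ _ (by norm_num) sk11_34
  · exact mchkR_step _ _ _ _ (by norm_num) sk11_35
  · exact mchkR_step _ _ _ _ (by norm_num) sk11_36
  · exact mchkR_step _ _ _ _ (by norm_num) sk11_37
  · exact mchkR_step _ _ _ _ (by norm_num) sk11_38
  · exact mchkR_step _ _ _ _ (by norm_num) sk11_39
  · exact mchkR_step _ _ _ _ (by norm_num) sk11_40
  · exact mchkR_step _ _ _ _ (by norm_num) sk11_41
  · exact mchkR_step _ _ _ _ (by norm_num) sk11_42
  · exact mchkR_step _ _ _ _ (by norm_num) sk11_43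

theorem all11 (N : ℕ) : Wl 11 1 N := by
  haveI : Fact (Nat.Prime 11) := ⟨by norm_num⟩
  refine cover (fun _ => 1) 44 small11 ?_ (fun _ => le_rfl) N
  intro N hN
  by_cases h0 : N < 461
  · exact runR_step _ 44 461 ct11_0_ok N (by omega) h0
  by_cases h1 : N < 66412
  · exact runR_step _ 461 66412 ct11_1_ok N (by omega) h1
  by_cases h2 : N < 1595550
  · exact runR_step _ 66412 1595550 ct11_2_ok N (by omega) h2
  obtain ⟨n, h0, h1, h2⟩ := gen_all 11 (by norm_num) 0.225 50 num11 N (by omega)
  exact ⟨1, n, h0, h1, le_rfl, h2⟩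

theorem small13 (n : ℕ) (hn : n < 52) : Wl 13 1 n := by
  haveI : Fact (Nat.Prime 13) := ⟨by norm_num⟩
  by_cases h : n < 13
  · exact wl_small 13 n h
  rw [not_lt] at h
  interval_cases n
  · exact wl_prime 13
  · exact mchkR_step _ _ _ _ (by norm_num) sk13_14
  · exact mchkR_step _ _ _ _ (by norm_num) sk13_15
  · exact mchkR_step _ _ _ _ (by norm_num) sk13_16
  · exact mchkR_step _ _ _ _ (by norm_num) sk13_17
  · exact mchkR_step _ _ _ _ (by norm_num) sk13_18
  · exact mchkR_step _ _ _ _ (by norm_num) sk13_19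
  · exact mchkR_step _ _ _ _ (by norm_num) sk13_20
  · exact mchkR_step _ _ _ _ (by norm_num) sk13_21
  · exact mchkR_step _ _ _ _ (by norm_num) sk13_22
  · exact mchkR_step _ _ _ _ (by norm_num) sk13_23
  · exact mchkR_step _ _ _ _ (by norm_num) sk13_24
  · exact mchkR_step _ _ _ _ (by norm_num) sk13_25
  · exact mchkR_step _ _ _ _ (by norm_num) sk13_26
  · exact mchkR_step _ _ _ _ (by norm_num) sk13_27
  · exact mchkR_step _ _ _ _ (by norm_num) sk13_28
  · exact mchkR_step _ _ _ _ (by norm_num) sk13_29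
  · exact mchkR_step _ _ _ _ (by norm_num) sk13_30
  · exact mchkR_step _ _ _ _ (by norm_num) sk13_31
  · exact mchkR_step _ _ _ _ (by norm_num) sk13_32
  · exact mchkR_step _ _ _ _ (by norm_num) sk13_33
  · exact mchkR_step _ _ _ _ (by norm_num) sk13_34
  · exact mchkR_step _ _ _ _ (by norm_num) sk13_35
  · exact mchkR_step _ _ _ _ (by norm_num) sk13_36
  · exact mchkR_step _ _ _ _ (by norm_num) sk13_37
  · exact mchkR_step _ _ _ _ (by norm_num) sk13_38
  · exact mchkR_step _ _ _ _ (by norm_num) sk13_39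
  · exact mchkR_step _ _ _ _ (by norm_num) sk13_40
  · exact mchkR_step _ _ _ _ (by norm_num) sk13_41
  · exact mchkR_step _ _ _ _ (by norm_num) sk13_42
  · exact mchkR_step _ _ _ _ (by norm_num) sk13_43
  · exact mchkR_step _ _ _ _ (by norm_num) sk13_44
  · exact mchkR_step _ _ _ _ (by norm_num) sk13_45
  · exact mchkR_step _ _ _ _ (by norm_num) sk13_46
  · exact mchkR_step _ _ _ _ (by norm_num) sk13_47
  · exact mchkR_step _ _ _ _ (by norm_num) sk13_48
  · exact mchkR_step _ _ _ _ (by norm_num) sk13_49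
  · exact mchkR_step _ _ _ _ (by norm_num) sk13_50
  · exact mchkR_step _ _ _ _ (by norm_num) sk13_51

theorem all13 (N : ℕ) : Wl 13 1 N := by
  haveI : Fact (Nat.Prime 13) := ⟨by norm_num⟩
  refine cover (fun _ => 1) 52 small13 ?_ (fun _ => le_rfl) N
  intro N hN
  by_cases h0 : N < 289
  · exact runR_step _ 52 289 ct13_0_ok N (by omega) h0
  by_cases h1 : N < 9097
  · exact runR_step _ 289 9097 ct13_1_ok N (by omega) h1
  by_cases h2 : N < 960680
  · exact runR_step _ 9097 960680 ct13_2_ok N (by omega) h2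
  by_cases h3 : N < 3796770
  · exact runR_step _ 960680 3796770 ct13_3_ok N (by omega) h3
  obtain ⟨n, h0, h1, h2⟩ := gen_all 13 (by norm_num) 0.199 56 num13 N (by omega)
  exact ⟨1, n, h0, h1, le_rfl, h2⟩

theorem small17 (n : ℕ) (hn : n < 68) : Wl 17 1 n := by
  haveI : Fact (Nat.Prime 17) := ⟨by norm_num⟩
  by_cases h : n < 17
  · exact wl_small 17 n h
  rw [not_lt] at h
  interval_cases n
  · exact wl_prime 17
  · exact mchkR_step _ _ _ _ (by norm_num) sk17_18
  · exact mchkR_step _ _ _ _ (by norm_num) sk17_19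
  · exact mchkR_step _ _ _ _ (by norm_num) sk17_20
  · exact mchkR_step _ _ _ _ (by norm_num) sk17_21
  · exact mchkR_step _ _ _ _ (by norm_num) sk17_22
  · exact mchkR_step _ _ _ _ (by norm_num) sk17_23
  · exact mchkR_step _ _ _ _ (by norm_num) sk17_24
  · exact mchkR_step _ _ _ _ (by norm_num) sk17_25
  · exact mchkR_step _ _ _ _ (by norm_num) sk17_26
  · exact mchkR_step _ _ _ _ (by norm_num) sk17_27
  · exact mchkR_step _ _ _ _ (by norm_num) sk17_28
  · exact mchkR_step _ _ _ _ (by norm_num) sk17_29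
  · exact mchkR_step _ _ _ _ (by norm_num) sk17_30
  · exact mchkR_step _ _ _ _ (by norm_num) sk17_31
  · exact mchkR_step _ _ _ _ (by norm_num) sk17_32
  · exact mchkR_step _ _ _ _ (by norm_num) sk17_33
  · exact mchkR_step _ _ _ _ (by norm_num) sk17_34
  · exact mchkR_step _ _ _ _ (by norm_num) sk17_35
  · exact mchkR_step _ _ _ _ (by norm_num) sk17_36
  · exact mchkR_step _ _ _ _ (by norm_num) sk17_37
  · exact mchkR_step _ _ _ _ (by norm_num) sk17_38
  · exact mchkR_step _ _ _ _ (by norm_num) sk17_39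
  · exact mchkR_step _ _ _ _ (by norm_num) sk17_40
  · exact mchkR_step _ _ _ _ (by norm_num) sk17_41
  · exact mchkR_step _ _ _ _ (by norm_num) sk17_42
  · exact mchkR_step _ _ _ _ (by norm_num) sk17_43
  · exact mchkR_step _ _ _ _ (by norm_num) sk17_44
  · exact mchkR_step _ _ _ _ (by norm_num) sk17_45
  · exact mchkR_step _ _ _ _ (by norm_num) sk17_46
  · exact mchkR_step _ _ _ _ (by norm_num) sk17_47
  · exact mchkR_step _ _ _ _ (by norm_num) sk17_48
  · exact mchkR_step _ _ _ _ (by norm_num) sk17_49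
  · exact mchkR_step _ _ _ _ (by norm_num) sk17_50
  · exact mchkR_step _ _ _ _ (by norm_num) sk17_51
  · exact mchkR_step _ _ _ _ (by norm_num) sk17_52
  · exact mchkR_step _ _ _ _ (by norm_num) sk17_53
  · exact mchkR_step _ _ _ _ (by norm_num) sk17_54
  · exact mchkR_step _ _ _ _ (by norm_num) sk17_55
  · exact mchkR_step _ _ _ _ (by norm_num) sk17_56
  · exact mchkR_step _ _ _ _ (by norm_num) sk17_57
  · exact mchkR_step _ _ _ _ (by norm_num) sk17_58
  · exact mchkR_step _ _ _ _ (by norm_num) sk17_59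
  · exact mchkR_step _ _ _ _ (by norm_num) sk17_60
  · exact mchkR_step _ _ _ _ (by norm_num) sk17_61
  · exact mchkR_step _ _ _ _ (by norm_num) sk17_62
  · exact mchkR_step _ _ _ _ (by norm_num) sk17_63
  · exact mchkR_step _ _ _ _ (by norm_num) sk17_64
  · exact mchkR_step _ _ _ _ (by norm_num) sk17_65
  · exact mchkR_step _ _ _ _ (by norm_num) sk17_66
  · exact mchkR_step _ _ _ _ (by norm_num) sk17_67

theorem all17 (N : ℕ) : Wl 17 1 N := by
  haveI : Fact (Nat.Prime 17) := ⟨by norm_num⟩
  refine cover (fun _ => 1) 68 small17 ?_ (fun _ => le_rfl) N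
  intro N hN
  by_cases h0 : N < 152
  · exact runR_step _ 68 152 ct17_0_ok N (by omega) h0
  by_cases h1 : N < 388
  · exact runR_step _ 152 388 ct17_1_ok N (by omega) h1
  by_cases h2 : N < 2074
  · exact runR_step _ 388 2074 ct17_2_ok N (by omega) h2
  by_cases h3 : N < 33661
  · exact runR_step _ 2074 33661 ct17_3_ok N (by omega) h3
  by_cases h4 : N < 508989
  · exact runR_step _ 33661 508989 ct17_4_ok N (by omega) h4
  by_cases h5 : N < 10792245
  · exact runR_step _ 508989 10792245 ct17_5_ok N (by omega) h5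
  by_cases h6 : N < 16035118
  · exact runR_step _ 10792245 16035118 ct17_6_ok N (by omega) h6
  obtain ⟨n, h0, h1, h2⟩ := gen_all 17 (by norm_num) 0.163 68 num17 N (by omega)
  exact ⟨1, n, h0, h1, le_rfl, h2⟩

theorem small19 (n : ℕ) (hn : n < 76) : Wl 19 1 n := by
  haveI : Fact (Nat.Prime 19) := ⟨by norm_num⟩
  by_cases h : n < 19
  · exact wl_small 19 n h
  rw [not_lt] at h
  interval_cases n
  · exact wl_prime 19
  · exact mchkR_step _ _ _ _ (by norm_num) sk19_20
  · exact mchkR_step _ _ _ _ (by norm_num) sk19_21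
  · exact mchkR_step _ _ _ _ (by norm_num) sk19_22
  · exact mchkR_step _ _ _ _ (by norm_num) sk19_23
  · exact mchkR_step _ _ _ _ (by norm_num) sk19_24
  · exact mchkR_step _ _ _ _ (by norm_num) sk19_25
  · exact mchkR_step _ _ _ _ (by norm_num) sk19_26
  · exact mchkR_step _ _ _ _ (by norm_num) sk19_27
  · exact mchkR_step _ _ _ _ (by norm_num) sk19_28
  · exact mchkR_step _ _ _ _ (by norm_num) sk19_29
  · exact mchkR_step _ _ _ _ (by norm_num) sk19_30
  · exact mchkR_step _ _ _ _ (by norm_num) sk19_31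
  · exact mchkR_step _ _ _ _ (by norm_num) sk19_32
  · exact mchkR_step _ _ _ _ (by norm_num) sk19_33
  · exact mchkR_step _ _ _ _ (by norm_num) sk19_34
  · exact mchkR_step _ _ _ _ (by norm_num) sk19_35
  · exact mchkR_step _ _ _ _ (by norm_num) sk19_36
  · exact mchkR_step _ _ _ _ (by norm_num) sk19_37
  · exact mchkR_step _ _ _ _ (by norm_num) sk19_38
  · exact mchkR_step _ _ _ _ (by norm_num) sk19_39
  · exact mchkR_step _ _ _ _ (by norm_num) sk19_40
  · exact mchkR_step _ _ _ _ (by norm_num) sk19_41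
  · exact mchkR_step _ _ _ _ (by norm_num) sk19_42
  · exact mchkR_step _ _ _ _ (by norm_num) sk19_43
  · exact mchkR_step _ _ _ _ (by norm_num) sk19_44
  · exact mchkR_step _ _ _ _ (by norm_num) sk19_45
  · exact mchkR_step _ _ _ _ (by norm_num) sk19_46
  · exact mchkR_step _ _ _ _ (by norm_num) sk19_47
  · exact mchkR_step _ _ _ _ (by norm_num) sk19_48
  · exact mchkR_step _ _ _ _ (by norm_num) sk19_49
  · exact mchkR_step _ _ _ _ (by norm_num) sk19_50
  · exact mchkR_step _ _ _ _ (by norm_num) sk19_51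
  · exact mchkR_step _ _ _ _ (by norm_num) sk19_52
  · exact mchkR_step _ _ _ _ (by norm_num) sk19_53
  · exact mchkR_step _ _ _ _ (by norm_num) sk19_54
  · exact mchkR_step _ _ _ _ (by norm_num) sk19_55
  · exact mchkR_step _ _ _ _ (by norm_num) sk19_56
  · exact mchkR_step _ _ _ _ (by norm_num) sk19_57
  · exact mchkR_step _ _ _ _ (by norm_num) sk19_58
  · exact mchkR_step _ _ _ _ (by norm_num) sk19_59
  · exact mchkR_step _ _ _ _ (by norm_num) sk19_60
  · exact mchkR_step _ _ _ _ (by norm_num) sk19_61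
  · exact mchkR_step _ _ _ _ (by norm_num) sk19_62
  · exact mchkR_step _ _ _ _ (by norm_num) sk19_63
  · exact mchkR_step _ _ _ _ (by norm_num) sk19_64
  · exact mchkR_step _ _ _ _ (by norm_num) sk19_65
  · exact mchkR_step _ _ _ _ (by norm_num) sk19_66
  · exact mchkR_step _ _ _ _ (by norm_num) sk19_67
  · exact mchkR_step _ _ _ _ (by norm_num) sk19_68
  · exact mchkR_step _ _ _ _ (by norm_num) sk19_69
  · exact mchkR_step _ _ _ _ (by norm_num) sk19_70
  · exact mchkR_step _ _ _ _ (by norm_num) sk19_71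
  · exact mchkR_step _ _ _ _ (by norm_num) sk19_72
  · exact mchkR_step _ _ _ _ (by norm_num) sk19_73
  · exact mchkR_step _ _ _ _ (by norm_num) sk19_74
  · exact mchkR_step _ _ _ _ (by norm_num) sk19_75

theorem all19 (N : ℕ) : Wl 19 1 N := by
  haveI : Fact (Nat.Prime 19) := ⟨by norm_num⟩
  refine cover (fun _ => 1) 76 small19 ?_ (fun _ => le_rfl) N
  intro N hN
  by_cases h0 : N < 143
  · exact runR_step _ 76 143 ct19_0_ok N (by omega) h0
  by_cases h1 : N < 224
  · exact runR_step _ 143 224 ct19_1_ok N (by omega) h1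
  by_cases h2 : N < 387
  · exact runR_step _ 224 387 ct19_2_ok N (by omega) h2
  by_cases h3 : N < 984
  · exact runR_step _ 387 984 ct19_3_ok N (by omega) h3
  by_cases h4 : N < 4794
  · exact runR_step _ 984 4794 ct19_4_ok N (by omega) h4
  by_cases h5 : N < 39506
  · exact runR_step _ 4794 39506 ct19_5_ok N (by omega) h5
  by_cases h6 : N < 254969
  · exact runR_step _ 39506 254969 ct19_6_ok N (by omega) h6
  by_cases h7 : N < 1853168
  · exact runR_step _ 254969 1853168 ct19_7_ok N (by omega) h7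
  by_cases h8 : N < 18136814
  · exact runR_step _ 1853168 18136814 ct19_8_ok N (by omega) h8
  by_cases h9 : N < 29993971
  · exact runR_step _ 18136814 29993971 ct19_9_ok N (by omega) h9
  obtain ⟨n, h0, h1, h2⟩ := gen_all 19 (by norm_num) 0.150 74 num19 N (by omega)
  exact ⟨1, n, h0, h1, le_rfl, h2⟩

theorem small23 (n : ℕ) (hn : n < 92) : Wl 23 1 n := by
  haveI : Fact (Nat.Prime 23) := ⟨by norm_num⟩
  by_cases h : n < 23
  · exact wl_small 23 n h
  rw [not_lt] at h
  interval_cases n
  · exact wl_prime 23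
  · exact mchkR_step _ _ _ _ (by norm_num) sk23_24
  · exact mchkR_step _ _ _ _ (by norm_num) sk23_25
  · exact mchkR_step _ _ _ _ (by norm_num) sk23_26
  · exact mchkR_step _ _ _ _ (by norm_num) sk23_27
  · exact mchkR_step _ _ _ _ (by norm_num) sk23_28
  · exact mchkR_step _ _ _ _ (by norm_num) sk23_29
  · exact mchkR_step _ _ _ _ (by norm_num) sk23_30
  · exact mchkR_step _ _ _ _ (by norm_num) sk23_31
  · exact mchkR_step _ _ _ _ (by norm_num) sk23_32
  · exact mchkR_step _ _ _ _ (by norm_num) sk23_33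
  · exact mchkR_step _ _ _ _ (by norm_num) sk23_34
  · exact mchkR_step _ _ _ _ (by norm_num) sk23_35
  · exact mchkR_step _ _ _ _ (by norm_num) sk23_36
  · exact mchkR_step _ _ _ _ (by norm_num) sk23_37
  · exact mchkR_step _ _ _ _ (by norm_num) sk23_38
  · exact mchkR_step _ _ _ _ (by norm_num) sk23_39
  · exact mchkR_step _ _ _ _ (by norm_num) sk23_40
  · exact mchkR_step _ _ _ _ (by norm_num) sk23_41
  · exact mchkR_step _ _ _ _ (by norm_num) sk23_42
  · exact mchkR_step _ _ _ _ (by norm_num) sk23_43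
  · exact mchkR_step _ _ _ _ (by norm_num) sk23_44
  · exact mchkR_step _ _ _ _ (by norm_num) sk23_45
  · exact mchkR_step _ _ _ _ (by norm_num) sk23_46
  · exact mchkR_step _ _ _ _ (by norm_num) sk23_47
  · exact mchkR_step _ _ _ _ (by norm_num) sk23_48
  · exact mchkR_step _ _ _ _ (by norm_num) sk23_49
  · exact mchkR_step _ _ _ _ (by norm_num) sk23_50
  · exact mchkR_step _ _ _ _ (by norm_num) sk23_51
  · exact mchkR_step _ _ _ _ (by norm_num) sk23_52
  · exact mchkR_step _ _ _ _ (by norm_num) sk23_53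
  · exact mchkR_step _ _ _ _ (by norm_num) sk23_54
  · exact mchkR_step _ _ _ _ (by norm_num) sk23_55
  · exact mchkR_step _ _ _ _ (by norm_num) sk23_56
  · exact mchkR_step _ _ _ _ (by norm_num) sk23_57
  · exact mchkR_step _ _ _ _ (by norm_num) sk23_58
  · exact mchkR_step _ _ _ _ (by norm_num) sk23_59
  · exact mchkR_step _ _ _ _ (by norm_num) sk23_60
  · exact mchkR_step _ _ _ _ (by norm_num) sk23_61
  · exact mchkR_step _ _ _ _ (by norm_num) sk23_62
  · exact mchkR_step _ _ _ _ (by norm_num) sk23_63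
  · exact mchkR_step _ _ _ _ (by norm_num) sk23_64
  · exact mchkR_step _ _ _ _ (by norm_num) sk23_65
  · exact mchkR_step _ _ _ _ (by norm_num) sk23_66
  · exact mchkR_step _ _ _ _ (by norm_num) sk23_67
  · exact mchkR_step _ _ _ _ (by norm_num) sk23_68
  · exact mchkR_step _ _ _ _ (by norm_num) sk23_69
  · exact mchkR_step _ _ _ _ (by norm_num) sk23_70
  · exact mchkR_step _ _ _ _ (by norm_num) sk23_71
  · exact mchkR_step _ _ _ _ (by norm_num) sk23_72
  · exact mchkR_step _ _ _ _ (by norm_num) sk23_73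
  · exact mchkR_step _ _ _ _ (by norm_num) sk23_74
  · exact mchkR_step _ _ _ _ (by norm_num) sk23_75
  · exact mchkR_step _ _ _ _ (by norm_num) sk23_76
  · exact mchkR_step _ _ _ _ (by norm_num) sk23_77
  · exact mchkR_step _ _ _ _ (by norm_num) sk23_78
  · exact mchkR_step _ _ _ _ (by norm_num) sk23_79
  · exact mchkR_step _ _ _ _ (by norm_num) sk23_80
  · exact mchkR_step _ _ _ _ (by norm_num) sk23_81
  · exact mchkR_step _ _ _ _ (by norm_num) sk23_82
  · exact mchkR_step _ _ _ _ (by norm_num) sk23_83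
  · exact mchkR_step _ _ _ _ (by norm_num) sk23_84
  · exact mchkR_step _ _ _ _ (by norm_num) sk23_85
  · exact mchkR_step _ _ _ _ (by norm_num) sk23_86
  · exact mchkR_step _ _ _ _ (by norm_num) sk23_87
  · exact mchkR_step _ _ _ _ (by norm_num) sk23_88
  · exact mchkR_step _ _ _ _ (by norm_num) sk23_89
  · exact mchkR_step _ _ _ _ (by norm_num) sk23_90
  · exact mchkR_step _ _ _ _ (by norm_num) sk23_91

theorem all23 (N : ℕ) : Wl 23 1 N := by
  haveI : Fact (Nat.Prime 23) := ⟨by norm_num⟩
  refine cover (fun _ => 1) 92 small23 ?_ (fun _ => le_rfl) N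
  intro N hN
  by_cases h0 : N < 137
  · exact runR_step _ 92 137 ct23_0_ok N (by omega) h0
  by_cases h1 : N < 182
  · exact runR_step _ 137 182 ct23_1_ok N (by omega) h1
  by_cases h2 : N < 228
  · exact runR_step _ 182 228 ct23_2_ok N (by omega) h2
  by_cases h3 : N < 284
  · exact runR_step _ 228 284 ct23_3_ok N (by omega) h3
  by_cases h4 : N < 344
  · exact runR_step _ 284 344 ct23_4_ok N (by omega) h4
  by_cases h5 : N < 420
  · exact runR_step _ 344 420 ct23_5_ok N (by omega) h5
  by_cases h6 : N < 536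
  · exact runR_step _ 420 536 ct23_6_ok N (by omega) h6
  by_cases h7 : N < 825
  · exact runR_step _ 536 825 ct23_7_ok N (by omega) h7
  by_cases h8 : N < 1543
  · exact runR_step _ 825 1543 ct23_8_ok N (by omega) h8
  by_cases h9 : N < 3641
  · exact runR_step _ 1543 3641 ct23_9_ok N (by omega) h9
  by_cases h10 : N < 10471
  · exact runR_step _ 3641 10471 ct23_10_ok N (by omega) h10
  by_cases h11 : N < 35208
  · exact runR_step _ 10471 35208 ct23_11_ok N (by omega) h11
  by_cases h12 : N < 114576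
  · exact runR_step _ 35208 114576 ct23_12_ok N (by omega) h12
  by_cases h13 : N < 236353
  · exact runR_step _ 114576 236353 ct23_13_ok N (by omega) h13
  by_cases h14 : N < 600890
  · exact runR_step _ 236353 600890 ct23_14_ok N (by omega) h14
  by_cases h15 : N < 1828911
  · exact runR_step _ 600890 1828911 ct23_15_ok N (by omega) h15
  by_cases h16 : N < 6290609
  · exact runR_step _ 1828911 6290609 ct23_16_ok N (by omega) h16
  by_cases h17 : N < 23346701
  · exact runR_step _ 6290609 23346701 ct23_17_ok N (by omega) h17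
  by_cases h18 : N < 90521611
  · exact runR_step _ 23346701 90521611 ct23_18_ok N (by omega) h18
  obtain ⟨n, h0, h1, h2⟩ := gen_all 23 (by norm_num) 0.129 87 num23 N (by omega)
  exact ⟨1, n, h0, h1, le_rfl, h2⟩

theorem small29 (n : ℕ) (hn : n < 116) : Wl 29 1 n := by
  haveI : Fact (Nat.Prime 29) := ⟨by norm_num⟩
  by_cases h : n < 29
  · exact wl_small 29 n h
  rw [not_lt] at h
  interval_cases n
  · exact wl_prime 29
  · exact mchkR_step _ _ _ _ (by norm_num) sk29_30
  · exact mchkR_step _ _ _ _ (by norm_num) sk29_31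
  · exact mchkR_step _ _ _ _ (by norm_num) sk29_32
  · exact mchkR_step _ _ _ _ (by norm_num) sk29_33
  · exact mchkR_step _ _ _ _ (by norm_num) sk29_34
  · exact mchkR_step _ _ _ _ (by norm_num) sk29_35
  · exact mchkR_step _ _ _ _ (by norm_num) sk29_36
  · exact mchkR_step _ _ _ _ (by norm_num) sk29_37
  · exact mchkR_step _ _ _ _ (by norm_num) sk29_38
  · exact mchkR_step _ _ _ _ (by norm_num) sk29_39
  · exact mchkR_step _ _ _ _ (by norm_num) sk29_40
  · exact mchkR_step _ _ _ _ (by norm_num) sk29_41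
  · exact mchkR_step _ _ _ _ (by norm_num) sk29_42
  · exact mchkR_step _ _ _ _ (by norm_num) sk29_43
  · exact mchkR_step _ _ _ _ (by norm_num) sk29_44
  · exact mchkR_step _ _ _ _ (by norm_num) sk29_45
  · exact mchkR_step _ _ _ _ (by norm_num) sk29_46
  · exact mchkR_step _ _ _ _ (by norm_num) sk29_47
  · exact mchkR_step _ _ _ _ (by norm_num) sk29_48
  · exact mchkR_step _ _ _ _ (by norm_num) sk29_49
  · exact mchkR_step _ _ _ _ (by norm_num) sk29_50
  · exact mchkR_step _ _ _ _ (by norm_num) sk29_51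
  · exact mchkR_step _ _ _ _ (by norm_num) sk29_52
  · exact mchkR_step _ _ _ _ (by norm_num) sk29_53
  · exact mchkR_step _ _ _ _ (by norm_num) sk29_54
  · exact mchkR_step _ _ _ _ (by norm_num) sk29_55
  · exact mchkR_step _ _ _ _ (by norm_num) sk29_56
  · exact mchkR_step _ _ _ _ (by norm_num) sk29_57
  · exact mchkR_step _ _ _ _ (by norm_num) sk29_58
  · exact mchkR_step _ _ _ _ (by norm_num) sk29_59
  · exact mchkR_step _ _ _ _ (by norm_num) sk29_60
  · exact mchkR_step _ _ _ _ (by norm_num) sk29_61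
  · exact mchkR_step _ _ _ _ (by norm_num) sk29_62
  · exact mchkR_step _ _ _ _ (by norm_num) sk29_63
  · exact mchkR_step _ _ _ _ (by norm_num) sk29_64
  · exact mchkR_step _ _ _ _ (by norm_num) sk29_65
  · exact mchkR_step _ _ _ _ (by norm_num) sk29_66
  · exact mchkR_step _ _ _ _ (by norm_num) sk29_67
  · exact mchkR_step _ _ _ _ (by norm_num) sk29_68
  · exact mchkR_step _ _ _ _ (by norm_num) sk29_69
  · exact mchkR_step _ _ _ _ (by norm_num) sk29_70
  · exact mchkR_step _ _ _ _ (by norm_num) sk29_71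
  · exact mchkR_step _ _ _ _ (by norm_num) sk29_72
  · exact mchkR_step _ _ _ _ (by norm_num) sk29_73
  · exact mchkR_step _ _ _ _ (by norm_num) sk29_74
  · exact mchkR_step _ _ _ _ (by norm_num) sk29_75
  · exact mchkR_step _ _ _ _ (by norm_num) sk29_76
  · exact mchkR_step _ _ _ _ (by norm_num) sk29_77
  · exact mchkR_step _ _ _ _ (by norm_num) sk29_78
  · exact mchkR_step _ _ _ _ (by norm_num) sk29_79
  · exact mchkR_step _ _ _ _ (by norm_num) sk29_80
  · exact mchkR_step _ _ _ _ (by norm_num) sk29_81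
  · exact mchkR_step _ _ _ _ (by norm_num) sk29_82
  · exact mchkR_step _ _ _ _ (by norm_num) sk29_83
  · exact mchkR_step _ _ _ _ (by norm_num) sk29_84
  · exact mchkR_step _ _ _ _ (by norm_num) sk29_85
  · exact mchkR_step _ _ _ _ (by norm_num) sk29_86
  · exact mchkR_step _ _ _ _ (by norm_num) sk29_87
  · exact mchkR_step _ _ _ _ (by norm_num) sk29_88
  · exact mchkR_step _ _ _ _ (by norm_num) sk29_89
  · exact mchkR_step _ _ _ _ (by norm_num) sk29_90
  · exact mchkR_step _ _ _ _ (by norm_num) sk29_91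
  · exact mchkR_step _ _ _ _ (by norm_num) sk29_92
  · exact mchkR_step _ _ _ _ (by norm_num) sk29_93
  · exact mchkR_step _ _ _ _ (by norm_num) sk29_94
  · exact mchkR_step _ _ _ _ (by norm_num) sk29_95
  · exact mchkR_step _ _ _ _ (by norm_num) sk29_96
  · exact mchkR_step _ _ _ _ (by norm_num) sk29_97
  · exact mchkR_step _ _ _ _ (by norm_num) sk29_98
  · exact mchkR_step _ _ _ _ (by norm_num) sk29_99
  · exact mchkR_step _ _ _ _ (by norm_num) sk29_100
  · exact mchkR_step _ _ _ _ (by norm_num) sk29_101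
  · exact mchkR_step _ _ _ _ (by norm_num) sk29_102
  · exact mchkR_step _ _ _ _ (by norm_num) sk29_103
  · exact mchkR_step _ _ _ _ (by norm_num) sk29_104
  · exact mchkR_step _ _ _ _ (by norm_num) sk29_105
  · exact mchkR_step _ _ _ _ (by norm_num) sk29_106
  · exact mchkR_step _ _ _ _ (by norm_num) sk29_107
  · exact mchkR_step _ _ _ _ (by norm_num) sk29_108
  · exact mchkR_step _ _ _ _ (by norm_num) sk29_109
  · exact mchkR_step _ _ _ _ (by norm_num) sk29_110
  · exact mchkR_step _ _ _ _ (by norm_num) sk29_111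
  · exact mchkR_step _ _ _ _ (by norm_num) sk29_112
  · exact mchkR_step _ _ _ _ (by norm_num) sk29_113
  · exact mchkR_step _ _ _ _ (by norm_num) sk29_114
  · exact mchkR_step _ _ _ _ (by norm_num) sk29_115

theorem all29 (N : ℕ) : Wl 29 1 N := by
  haveI : Fact (Nat.Prime 29) := ⟨by norm_num⟩
  refine cover (fun _ => 1) 116 small29 ?_ (fun _ => le_rfl) N
  intro N hN
  by_cases h0 : N < 161
  · exact runR_step _ 116 161 ct29_0_ok N (by omega) h0
  by_cases h1 : N < 206
  · exact runR_step _ 161 206 ct29_1_ok N (by omega) h1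
  by_cases h2 : N < 251
  · exact runR_step _ 206 251 ct29_2_ok N (by omega) h2
  by_cases h3 : N < 300
  · exact runR_step _ 251 300 ct29_3_ok N (by omega) h3
  by_cases h4 : N < 345
  · exact runR_step _ 300 345 ct29_4_ok N (by omega) h4
  by_cases h5 : N < 393
  · exact runR_step _ 345 393 ct29_5_ok N (by omega) h5
  by_cases h6 : N < 452
  · exact runR_step _ 393 452 ct29_6_ok N (by omega) h6
  by_cases h7 : N < 533
  · exact runR_step _ 452 533 ct29_7_ok N (by omega) h7
  by_cases h8 : N < 653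
  · exact runR_step _ 533 653 ct29_8_ok N (by omega) h8
  by_cases h9 : N < 855
  · exact runR_step _ 653 855 ct29_9_ok N (by omega) h9
  by_cases h10 : N < 1303
  · exact runR_step _ 855 1303 ct29_10_ok N (by omega) h10
  by_cases h11 : N < 2236
  · exact runR_step _ 1303 2236 ct29_11_ok N (by omega) h11
  by_cases h12 : N < 4454
  · exact runR_step _ 2236 4454 ct29_12_ok N (by omega) h12
  by_cases h13 : N < 10202
  · exact runR_step _ 4454 10202 ct29_13_ok N (by omega) h13
  by_cases h14 : N < 26065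
  · exact runR_step _ 10202 26065 ct29_14_ok N (by omega) h14
  by_cases h15 : N < 72383
  · exact runR_step _ 26065 72383 ct29_15_ok N (by omega) h15
  by_cases h16 : N < 120618
  · exact runR_step _ 72383 120618 ct29_16_ok N (by omega) h16
  by_cases h17 : N < 171527
  · exact runR_step _ 120618 171527 ct29_17_ok N (by omega) h17
  by_cases h18 : N < 277960
  · exact runR_step _ 171527 277960 ct29_18_ok N (by omega) h18
  by_cases h19 : N < 518166
  · exact runR_step _ 277960 518166 ct29_19_ok N (by omega) h19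
  by_cases h20 : N < 1110905
  · exact runR_step _ 518166 1110905 ct29_20_ok N (by omega) h20
  by_cases h21 : N < 2677646
  · exact runR_step _ 1110905 2677646 ct29_21_ok N (by omega) h21
  by_cases h22 : N < 7060725
  · exact runR_step _ 2677646 7060725 ct29_22_ok N (by omega) h22
  by_cases h23 : N < 19810787
  · exact runR_step _ 7060725 19810787 ct29_23_ok N (by omega) h23
  by_cases h24 : N < 57821775
  · exact runR_step _ 19810787 57821775 ct29_24_ok N (by omega) h24
  by_cases h25 : N < 173018616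
  · exact runR_step _ 57821775 173018616 ct29_25_ok N (by omega) h25
  by_cases h26 : N < 336532617
  · exact runR_step _ 173018616 336532617 ct29_26_ok N (by omega) h26
  obtain ⟨n, h0, h1, h2⟩ := gen_all 29 (by norm_num) 0.107 106 num29 N (by omega)
  exact ⟨1, n, h0, h1, le_rfl, h2⟩

theorem small31 (n : ℕ) (hn : n < 124) : Wl 31 1 n := by
  haveI : Fact (Nat.Prime 31) := ⟨by norm_num⟩
  by_cases h : n < 31
  · exact wl_small 31 n h
  rw [not_lt] at h
  interval_cases n
  · exact wl_prime 31
  · exact mchkR_step _ _ _ _ (by norm_num) sk31_32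
  · exact mchkR_step _ _ _ _ (by norm_num) sk31_33
  · exact mchkR_step _ _ _ _ (by norm_num) sk31_34
  · exact mchkR_step _ _ _ _ (by norm_num) sk31_35
  · exact mchkR_step _ _ _ _ (by norm_num) sk31_36
  · exact mchkR_step _ _ _ _ (by norm_num) sk31_37
  · exact mchkR_step _ _ _ _ (by norm_num) sk31_38
  · exact mchkR_step _ _ _ _ (by norm_num) sk31_39
  · exact mchkR_step _ _ _ _ (by norm_num) sk31_40
  · exact mchkR_step _ _ _ _ (by norm_num) sk31_41
  · exact mchkR_step _ _ _ _ (by norm_num) sk31_42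
  · exact mchkR_step _ _ _ _ (by norm_num) sk31_43
  · exact mchkR_step _ _ _ _ (by norm_num) sk31_44
  · exact mchkR_step _ _ _ _ (by norm_num) sk31_45
  · exact mchkR_step _ _ _ _ (by norm_num) sk31_46
  · exact mchkR_step _ _ _ _ (by norm_num) sk31_47
  · exact mchkR_step _ _ _ _ (by norm_num) sk31_48
  · exact mchkR_step _ _ _ _ (by norm_num) sk31_49
  · exact mchkR_step _ _ _ _ (by norm_num) sk31_50
  · exact mchkR_step _ _ _ _ (by norm_num) sk31_51
  · exact mchkR_step _ _ _ _ (by norm_num) sk31_52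
  · exact mchkR_step _ _ _ _ (by norm_num) sk31_53
  · exact mchkR_step _ _ _ _ (by norm_num) sk31_54
  · exact mchkR_step _ _ _ _ (by norm_num) sk31_55
  · exact mchkR_step _ _ _ _ (by norm_num) sk31_56
  · exact mchkR_step _ _ _ _ (by norm_num) sk31_57
  · exact mchkR_step _ _ _ _ (by norm_num) sk31_58
  · exact mchkR_step _ _ _ _ (by norm_num) sk31_59
  · exact mchkR_step _ _ _ _ (by norm_num) sk31_60
  · exact mchkR_step _ _ _ _ (by norm_num) sk31_61
  · exact mchkR_step _ _ _ _ (by norm_num) sk31_62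
  · exact mchkR_step _ _ _ _ (by norm_num) sk31_63
  · exact mchkR_step _ _ _ _ (by norm_num) sk31_64
  · exact mchkR_step _ _ _ _ (by norm_num) sk31_65
  · exact mchkR_step _ _ _ _ (by norm_num) sk31_66
  · exact mchkR_step _ _ _ _ (by norm_num) sk31_67
  · exact mchkR_step _ _ _ _ (by norm_num) sk31_68
  · exact mchkR_step _ _ _ _ (by norm_num) sk31_69
  · exact mchkR_step _ _ _ _ (by norm_num) sk31_70
  · exact mchkR_step _ _ _ _ (by norm_num) sk31_71
  · exact mchkR_step _ _ _ _ (by norm_num) sk31_72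
  · exact mchkR_step _ _ _ _ (by norm_num) sk31_73
  · exact mchkR_step _ _ _ _ (by norm_num) sk31_74
  · exact mchkR_step _ _ _ _ (by norm_num) sk31_75
  · exact mchkR_step _ _ _ _ (by norm_num) sk31_76
  · exact mchkR_step _ _ _ _ (by norm_num) sk31_77
  · exact mchkR_step _ _ _ _ (by norm_num) sk31_78
  · exact mchkR_step _ _ _ _ (by norm_num) sk31_79
  · exact mchkR_step _ _ _ _ (by norm_num) sk31_80
  · exact mchkR_step _ _ _ _ (by norm_num) sk31_81
  · exact mchkR_step _ _ _ _ (by norm_num) sk31_82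
  · exact mchkR_step _ _ _ _ (by norm_num) sk31_83
  · exact mchkR_step _ _ _ _ (by norm_num) sk31_84
  · exact mchkR_step _ _ _ _ (by norm_num) sk31_85
  · exact mchkR_step _ _ _ _ (by norm_num) sk31_86
  · exact mchkR_step _ _ _ _ (by norm_num) sk31_87
  · exact mchkR_step _ _ _ _ (by norm_num) sk31_88
  · exact mchkR_step _ _ _ _ (by norm_num) sk31_89
  · exact mchkR_step _ _ _ _ (by norm_num) sk31_90
  · exact mchkR_step _ _ _ _ (by norm_num) sk31_91
  · exact mchkR_step _ _ _ _ (by norm_num) sk31_92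
  · exact mchkR_step _ _ _ _ (by norm_num) sk31_93
  · exact mchkR_step _ _ _ _ (by norm_num) sk31_94
  · exact mchkR_step _ _ _ _ (by norm_num) sk31_95
  · exact mchkR_step _ _ _ _ (by norm_num) sk31_96
  · exact mchkR_step _ _ _ _ (by norm_num) sk31_97
  · exact mchkR_step _ _ _ _ (by norm_num) sk31_98
  · exact mchkR_step _ _ _ _ (by norm_num) sk31_99
  · exact mchkR_step _ _ _ _ (by norm_num) sk31_100
  · exact mchkR_step _ _ _ _ (by norm_num) sk31_101
  · exact mchkR_step _ _ _ _ (by norm_num) sk31_102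
  · exact mchkR_step _ _ _ _ (by norm_num) sk31_103
  · exact mchkR_step _ _ _ _ (by norm_num) sk31_104
  · exact mchkR_step _ _ _ _ (by norm_num) sk31_105
  · exact mchkR_step _ _ _ _ (by norm_num) sk31_106
  · exact mchkR_step _ _ _ _ (by norm_num) sk31_107
  · exact mchkR_step _ _ _ _ (by norm_num) sk31_108
  · exact mchkR_step _ _ _ _ (by norm_num) sk31_109
  · exact mchkR_step _ _ _ _ (by norm_num) sk31_110
  · exact mchkR_step _ _ _ _ (by norm_num) sk31_111
  · exact mchkR_step _ _ _ _ (by norm_num) sk31_112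
  · exact mchkR_step _ _ _ _ (by norm_num) sk31_113
  · exact mchkR_step _ _ _ _ (by norm_num) sk31_114
  · exact mchkR_step _ _ _ _ (by norm_num) sk31_115
  · exact mchkR_step _ _ _ _ (by norm_num) sk31_116
  · exact mchkR_step _ _ _ _ (by norm_num) sk31_117
  · exact mchkR_step _ _ _ _ (by norm_num) sk31_118
  · exact mchkR_step _ _ _ _ (by norm_num) sk31_119
  · exact mchkR_step _ _ _ _ (by norm_num) sk31_120
  · exact mchkR_step _ _ _ _ (by norm_num) sk31_121
  · exact mchkR_step _ _ _ _ (by norm_num) sk31_122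
  · exact mchkR_step _ _ _ _ (by norm_num) sk31_123

theorem all31 (N : ℕ) : Wl 31 1 N := by
  haveI : Fact (Nat.Prime 31) := ⟨by norm_num⟩
  refine cover (fun _ => 1) 124 small31 ?_ (fun _ => le_rfl) N
  intro N hN
  by_cases h0 : N < 154
  · exact runR_step _ 124 154 ct31_0_ok N (by omega) h0
  by_cases h1 : N = 154
  · subst h1
    exact ⟨1, 154, by norm_num, le_rfl, le_rfl, fun _ => mchkR_step _ _ _ _ (by norm_num) sk31_154⟩
  by_cases h2 : N < 200
  · exact runR_step _ 155 200 ct31_1_ok N (by omega) h2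
  by_cases h3 : N < 245
  · exact runR_step _ 200 245 ct31_2_ok N (by omega) h3
  by_cases h4 : N < 290
  · exact runR_step _ 245 290 ct31_3_ok N (by omega) h4
  by_cases h5 : N < 335
  · exact runR_step _ 290 335 ct31_4_ok N (by omega) h5
  by_cases h6 : N < 381
  · exact runR_step _ 335 381 ct31_5_ok N (by omega) h6
  by_cases h7 : N < 427
  · exact runR_step _ 381 427 ct31_6_ok N (by omega) h7
  by_cases h8 : N < 479
  · exact runR_step _ 427 479 ct31_7_ok N (by omega) h8
  by_cases h9 : N < 541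
  · exact runR_step _ 479 541 ct31_8_ok N (by omega) h9
  by_cases h10 : N < 643
  · exact runR_step _ 541 643 ct31_9_ok N (by omega) h10
  by_cases h11 : N < 774
  · exact runR_step _ 643 774 ct31_10_ok N (by omega) h11
  by_cases h12 : N < 996
  · exact runR_step _ 774 996 ct31_11_ok N (by omega) h12
  by_cases h13 : N < 1461
  · exact runR_step _ 996 1461 ct31_12_ok N (by omega) h13
  by_cases h14 : N < 2424
  · exact runR_step _ 1461 2424 ct31_13_ok N (by omega) h14
  by_cases h15 : N < 4608
  · exact runR_step _ 2424 4608 ct31_14_ok N (by omega) h15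
  by_cases h16 : N < 9855
  · exact runR_step _ 4608 9855 ct31_15_ok N (by omega) h16
  by_cases h17 : N < 23417
  · exact runR_step _ 9855 23417 ct31_16_ok N (by omega) h17
  by_cases h18 : N < 60116
  · exact runR_step _ 23417 60116 ct31_17_ok N (by omega) h18
  by_cases h19 : N < 108863
  · exact runR_step _ 60116 108863 ct31_18_ok N (by omega) h19
  by_cases h20 : N < 132131
  · exact runR_step _ 108863 132131 ct31_19_ok N (by omega) h20
  by_cases h21 : N < 174500
  · exact runR_step _ 132131 174500 ct31_20_ok N (by omega) h21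
  by_cases h22 : N < 254968
  · exact runR_step _ 174500 254968 ct31_21_ok N (by omega) h22
  by_cases h23 : N < 420450
  · exact runR_step _ 254968 420450 ct31_22_ok N (by omega) h23
  by_cases h24 : N < 785117
  · exact runR_step _ 420450 785117 ct31_23_ok N (by omega) h24
  by_cases h25 : N < 1654077
  · exact runR_step _ 785117 1654077 ct31_24_ok N (by omega) h25
  by_cases h26 : N < 3844475
  · exact runR_step _ 1654077 3844475 ct31_25_ok N (by omega) h26
  by_cases h27 : N < 9632377
  · exact runR_step _ 3844475 9632377 ct31_26_ok N (by omega) h27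
  by_cases h28 : N < 25439058
  · exact runR_step _ 9632377 25439058 ct31_27_ok N (by omega) h28
  by_cases h29 : N < 69611574
  · exact runR_step _ 25439058 69611574 ct31_28_ok N (by omega) h29
  by_cases h30 : N < 194827648
  · exact runR_step _ 69611574 194827648 ct31_29_ok N (by omega) h30
  by_cases h31 : N < 492140627
  · exact runR_step _ 194827648 492140627 ct31_30_ok N (by omega) h31
  obtain ⟨n, h0, h1, h2⟩ := gen_all 31 (by norm_num) 0.101 113 num31 N (by omega)
  exact ⟨1, n, h0, h1, le_rfl, h2⟩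

end Pool.Agent.Wil
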