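import Mathlib
import Pool.Agent.Wil.ChkD

set_option autoImplicit false
set_option maxRecDepth 100000

/-! Explicit cores, p = 3, degrees 30 to 4175. -/

namespace Pool.Agent.Wil

/-- Runner heights, size, window. -/
def ct3a : List (List ℕ × ℕ × ℕ) := [
  ([0, 6, 3], 30, 3),
  ([5, 7, 0], 34, 3),
  ([2, 7, 0], 37, 3),
  ([0, 7, 2], 41, 4),
  ([0, 2, 7], 46, 4),
  ([7, 8, 0], 50, 3),
  ([9, 6, 0], 54, 6),
  ([3, 9, 0], 60, 5),
  ([0, 9, 3], 66, 7),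
  ([0, 3, 9], 72, 8),
  ([0, 10, 5], 80, 9),
  ([4, 11, 0], 89, 9),
  ([0, 11, 4], 97, 12),
  ([12, 0, 3], 108, 12),
  ([8, 13, 0], 121, 16),
  ([0, 13, 8], 137, 17),
  ([0, 14, 7], 154, 21),
  ([16, 8, 0], 176, 25),
  ([17, 10, 0], 202, 28),
  ([0, 17, 10], 229, 32),
  ([19, 0, 8], 262, 40),
  ([20, 0, 13], 302, 38),
  ([22, 11, 0], 341, 50),
  ([10, 23, 0], 389, 56),
  ([0, 24, 13], 446, 67),
  ([26, 0, 17], 514, 71),
  ([28, 0, 17], 586, 87),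
  ([30, 0, 18], 672, 102),
  ([12, 32, 0], 772, 116),
  ([16, 0, 34], 886, 145),
  ([15, 37, 0], 1024, 163),
  ([0, 17, 39], 1186, 197),
  ([18, 43, 0], 1381, 228),
  ([0, 46, 23], 1610, 278),
  ([20, 50, 0], 1880, 311),
  ([54, 0, 32], 2190, 370),
  ([0, 58, 31], 2558, 450),
  ([64, 33, 0], 3009, 537),
  ([32, 69, 0], 3545, 630)]

theorem ct3a_all : allC 3 ct3a = true := by decide +kernel

theorem ct3a_cov : covC 30 ct3a 4176 = true := by decide +kernel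

end Pool.Agent.Wil
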