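import Mathlib
import Pool.Agent.Wil.ChkD

set_option autoImplicit false
set_option maxRecDepth 100000

/-! Explicit cores, p = 5, degrees 15 to 303. -/

namespace Pool.Agent.Wil

/-- Runner heights, size, window. -/
def ct5a : List (List ℕ × ℕ × ℕ) := [
  ([0, 3, 0, 1, 1], 15, 0),
  ([4, 2, 3, 1, 0], 16, 0),
  ([3, 4, 1, 2, 0], 17, 0),
  ([4, 1, 3, 2, 0], 18, 0),
  ([4, 1, 2, 3, 0], 19, 0),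
  ([2, 4, 1, 3, 0], 20, 0),
  ([3, 2, 1, 4, 0], 21, 0),
  ([2, 4, 0, 3, 1], 22, 0),
  ([1, 4, 3, 0, 2], 23, 0),
  ([1, 3, 4, 0, 2], 24, 0),
  ([1, 4, 2, 0, 3], 25, 1),
  ([1, 2, 4, 0, 3], 27, 1),
  ([0, 4, 1, 2, 3], 29, 1),
  ([1, 0, 4, 2, 3], 31, 1),
  ([4, 0, 1, 4, 1], 33, 1),
  ([3, 0, 4, 0, 3], 35, 2),
  ([5, 2, 3, 5, 0], 38, 2),
  ([6, 2, 3, 4, 0], 40, 2),
  ([0, 1, 4, 1, 4], 43, 1),
  ([1, 0, 5, 1, 3], 45, 1),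
  ([0, 5, 0, 3, 2], 47, 2),
  ([4, 6, 1, 4, 0], 50, 3),
  ([5, 6, 0, 3, 1], 54, 2),
  ([5, 1, 6, 3, 0], 57, 3),
  ([2, 5, 0, 6, 2], 61, 4),
  ([0, 6, 3, 5, 1], 66, 4),
  ([3, 0, 6, 1, 5], 70, 5),
  ([7, 0, 5, 1, 2], 76, 5),
  ([1, 6, 0, 6, 2], 82, 5),
  ([8, 2, 4, 6, 0], 88, 6),
  ([3, 3, 7, 0, 7], 95, 6),
  ([2, 8, 0, 6, 4], 102, 8),
  ([6, 9, 3, 7, 0], 111, 7),
  ([9, 3, 8, 5, 0], 119, 8),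
  ([2, 9, 7, 0, 4], 128, 10),
  ([5, 0, 9, 2, 7], 139, 11),
  ([1, 9, 0, 7, 4], 151, 13),
  ([0, 10, 3, 8, 5], 165, 13),
  ([10, 0, 9, 2, 5], 179, 15),
  ([0, 10, 4, 1, 8], 195, 17),
  ([0, 9, 6, 3, 11], 213, 17),
  ([12, 0, 6, 9, 2], 231, 21),
  ([10, 0, 12, 7, 2], 253, 23),
  ([3, 11, 0, 7, 12], 277, 26)]

theorem ct5a_all : allC 5 ct5a = true := by decide +kernel

theorem ct5a_cov : covC 15 ct5a 304 = true := by decide +kernel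

end Pool.Agent.Wil
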