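import Mathlib
import Pool.Agent.Wil.ChkD

set_option autoImplicit false
set_option maxRecDepth 100000

/-! Explicit cores, p = 5, degrees 304 to 43003. -/

namespace Pool.Agent.Wil

/-- Runner heights, size, window. -/
def ct5b : List (List ℕ × ℕ × ℕ) := [
  ([2, 10, 0, 13, 6], 303, 26),
  ([14, 7, 0, 12, 3], 330, 29),
  ([0, 14, 7, 3, 12], 360, 32),
  ([3, 8, 15, 0, 12], 393, 36),
  ([2, 12, 0, 8, 15], 430, 40),
  ([13, 8, 3, 17, 0], 470, 43),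
  ([17, 3, 15, 9, 0], 514, 48),
  ([16, 4, 18, 9, 0], 561, 55),
  ([16, 10, 0, 19, 4], 617, 60),
  ([0, 19, 3, 16, 9], 678, 68),
  ([11, 5, 17, 0, 21], 747, 75),
  ([22, 3, 11, 17, 0], 823, 84),
  ([0, 22, 11, 4, 19], 907, 94),
  ([12, 0, 23, 4, 20], 1002, 105),
  ([0, 13, 21, 6, 25], 1108, 116),
  ([0, 13, 5, 21, 26], 1225, 128),
  ([5, 28, 0, 22, 14], 1354, 147),
  ([30, 0, 25, 15, 7], 1502, 163),
  ([31, 5, 25, 0, 15], 1665, 184),
  ([16, 26, 0, 33, 6], 1849, 204),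
  ([0, 28, 7, 17, 34], 2054, 230),
  ([36, 7, 31, 17, 0], 2285, 256),
  ([19, 7, 38, 0, 31], 2542, 289),
  ([41, 22, 0, 33, 8], 2832, 323),
  ([0, 42, 20, 8, 35], 3156, 364),
  ([46, 0, 22, 36, 9], 3520, 408),
  ([8, 38, 24, 0, 47], 3928, 458),
  ([51, 25, 0, 41, 10], 4387, 514),
  ([9, 53, 0, 42, 27], 4902, 576),
  ([11, 56, 0, 46, 29], 5479, 646),
  ([59, 10, 30, 0, 48], 6126, 719),
  ([33, 0, 50, 12, 63], 6845, 814),
  ([33, 67, 0, 54, 13], 7660, 917),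
  ([14, 70, 0, 58, 35], 8578, 1030),
  ([60, 0, 37, 15, 75], 9608, 1147),
  ([15, 63, 41, 0, 79], 10753, 1299),
  ([66, 0, 84, 15, 43], 12052, 1457),
  ([45, 71, 0, 89, 17], 13510, 1643),
  ([78, 47, 20, 94, 0], 15153, 1846),
  ([17, 78, 49, 0, 99], 16999, 2073),
  ([105, 22, 88, 52, 0], 19068, 2332),
  ([56, 21, 111, 0, 90], 21400, 2630),
  ([58, 0, 95, 23, 118], 24030, 2957),
  ([23, 101, 0, 62, 124], 26988, 3328),
  ([25, 107, 0, 132, 69], 30316, 3738),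
  ([112, 0, 141, 26, 71], 34049, 4210),
  ([73, 27, 148, 0, 120], 38260, 4743)]

theorem ct5b_all : allC 5 ct5b = true := by decide +kernel

theorem ct5b_cov : covC 304 ct5b 43004 = true := by decide +kernel

end Pool.Agent.Wil
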