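import Mathlib
import Pool.Agent.Wil.ChkD

set_option autoImplicit false
set_option maxRecDepth 100000

/-! Explicit cores, p = 7, degrees 21 to 310. -/

namespace Pool.Agent.Wil

/-- Runner heights, size, window. -/
def ct7a : List (List ℕ × ℕ × ℕ) := [
  ([2, 3, 2, 3, 1, 3, 0], 21, 0),
  ([0, 2, 2, 0, 1, 0, 2], 22, 0),
  ([3, 0, 1, 0, 2, 0, 1], 23, 0),
  ([0, 2, 0, 2, 1, 0, 2], 24, 0),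
  ([0, 2, 0, 1, 2, 0, 2], 25, 0),
  ([0, 3, 1, 0, 2, 0, 1], 26, 0),
  ([0, 3, 0, 1, 2, 0, 1], 27, 0),
  ([4, 3, 1, 3, 1, 2, 0], 28, 0),
  ([2, 4, 1, 2, 3, 0, 2], 29, 0),
  ([4, 1, 3, 2, 3, 1, 0], 30, 0),
  ([3, 4, 1, 2, 1, 3, 0], 31, 0),
  ([4, 1, 3, 2, 1, 3, 0], 32, 0),
  ([4, 1, 2, 3, 1, 3, 0], 33, 0),
  ([3, 1, 4, 2, 1, 3, 0], 34, 0),
  ([4, 1, 2, 3, 0, 3, 1], 35, 1),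
  ([1, 4, 3, 1, 3, 0, 2], 37, 0),
  ([1, 4, 2, 3, 0, 3, 1], 38, 0),
  ([1, 4, 2, 3, 1, 0, 3], 39, 0),
  ([1, 4, 2, 3, 0, 1, 3], 40, 0),
  ([1, 4, 1, 3, 2, 0, 3], 41, 0),
  ([1, 4, 1, 3, 0, 3, 2], 42, 1),
  ([1, 3, 1, 4, 0, 3, 2], 44, 1),
  ([1, 3, 0, 4, 2, 1, 3], 46, 1),
  ([1, 3, 0, 2, 4, 1, 3], 48, 1),
  ([4, 2, 3, 0, 4, 1, 0], 50, 2),
  ([4, 1, 2, 4, 0, 3, 0], 53, 2),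
  ([4, 0, 3, 1, 4, 2, 0], 56, 2),
  ([4, 0, 3, 2, 0, 4, 1], 59, 2),
  ([2, 4, 0, 3, 1, 0, 4], 62, 2),
  ([5, 4, 0, 3, 1, 4, 1], 65, 2),
  ([1, 5, 3, 0, 4, 1, 3], 68, 3),
  ([3, 4, 0, 5, 1, 3, 0], 72, 3),
  ([3, 1, 5, 1, 4, 0, 4], 76, 3),
  ([2, 0, 4, 1, 5, 2, 4], 80, 3),
  ([3, 1, 5, 5, 0, 4, 1], 84, 3),
  ([2, 1, 4, 3, 5, 0, 5], 88, 3),
  ([3, 1, 5, 0, 5, 1, 4], 92, 4),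
  ([1, 5, 0, 2, 5, 0, 3], 97, 4),
  ([6, 0, 4, 1, 5, 1, 3], 102, 5),
  ([3, 6, 0, 5, 2, 0, 4], 108, 5),
  ([6, 1, 6, 3, 0, 1, 4], 114, 5),
  ([1, 7, 2, 3, 5, 0, 4], 120, 6),
  ([3, 5, 0, 5, 2, 0, 6], 127, 6),
  ([5, 0, 6, 2, 6, 3, 0], 134, 7),
  ([4, 1, 6, 0, 7, 2, 4], 142, 7),
  ([1, 6, 0, 6, 2, 3, 6], 150, 8),
  ([7, 1, 4, 5, 0, 7, 2], 159, 9),
  ([7, 2, 4, 7, 0, 5, 0], 169, 10),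
  ([0, 7, 6, 1, 7, 2, 3], 180, 9),
  ([4, 0, 6, 2, 7, 1, 7], 190, 11),
  ([8, 3, 6, 0, 4, 8, 1], 202, 12),
  ([1, 6, 2, 8, 0, 4, 7], 215, 13),
  ([2, 8, 0, 8, 4, 1, 6], 229, 13),
  ([6, 9, 1, 5, 0, 8, 2], 243, 14),
  ([7, 5, 1, 9, 2, 8, 0], 258, 16),
  ([9, 7, 1, 2, 9, 4, 0], 275, 16),
  ([7, 0, 9, 5, 2, 9, 1], 292, 18)]

theorem ct7a_all : allC 7 ct7a = true := by decide +kernel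

theorem ct7a_cov : covC 21 ct7a 311 = true := by decide +kernel

end Pool.Agent.Wil
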