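import Mathlib
import Pool.Agent.Wil.ChkD

set_option autoImplicit false
set_option maxRecDepth 100000

/-! Explicit cores, p = 7, degrees 311 to 20370. -/

namespace Pool.Agent.Wil

/-- Runner heights, size, window. -/
def ct7b : List (List ℕ × ℕ × ℕ) := [
  ([3, 10, 5, 1, 9, 0, 7], 311, 18),
  ([0, 10, 3, 7, 1, 5, 9], 330, 19),
  ([11, 0, 8, 3, 9, 5, 1], 350, 22),
  ([11, 6, 3, 8, 0, 10, 1], 373, 23),
  ([3, 11, 6, 0, 10, 1, 8], 397, 25),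
  ([12, 0, 8, 3, 10, 1, 5], 423, 27),
  ([6, 2, 12, 0, 11, 4, 9], 451, 29),
  ([2, 13, 7, 4, 11, 0, 9], 481, 31),
  ([4, 13, 0, 9, 11, 1, 7], 513, 33),
  ([7, 2, 12, 4, 10, 0, 13], 547, 38),
  ([14, 7, 4, 10, 0, 12, 1], 586, 39),
  ([4, 14, 0, 7, 13, 2, 10], 626, 43),
  ([8, 15, 0, 13, 4, 11, 2], 670, 46),
  ([15, 1, 8, 11, 0, 13, 4], 717, 51),
  ([11, 4, 16, 2, 14, 0, 8], 768, 54),
  ([15, 0, 12, 8, 2, 16, 5], 823, 59),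
  ([12, 0, 17, 9, 2, 15, 5], 882, 65),
  ([9, 2, 17, 5, 12, 0, 16], 948, 71),
  ([9, 13, 2, 18, 5, 0, 16], 1020, 75),
  ([19, 2, 17, 5, 9, 13, 0], 1096, 83),
  ([0, 9, 19, 2, 14, 6, 17], 1180, 90),
  ([20, 2, 10, 15, 0, 18, 6], 1271, 97),
  ([21, 6, 19, 0, 15, 11, 2], 1369, 105),
  ([15, 10, 21, 0, 5, 19, 1], 1475, 114),
  ([11, 22, 1, 15, 6, 20, 0], 1590, 125),
  ([3, 17, 0, 23, 11, 7, 21], 1716, 137),
  ([3, 22, 0, 17, 7, 24, 12], 1854, 148),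
  ([2, 12, 24, 0, 18, 6, 22], 2002, 162),
  ([24, 8, 13, 20, 3, 26, 0], 2165, 175),
  ([14, 27, 3, 25, 0, 20, 8], 2341, 190),
  ([7, 25, 0, 14, 20, 2, 27], 2532, 209),
  ([26, 0, 15, 29, 7, 20, 2], 2742, 226),
  ([30, 0, 14, 27, 8, 22, 2], 2969, 247),
  ([32, 16, 4, 23, 8, 29, 0], 3217, 269),
  ([30, 17, 0, 24, 10, 33, 3], 3487, 294),
  ([9, 34, 3, 31, 17, 0, 24], 3781, 321),
  ([3, 32, 18, 0, 35, 9, 25], 4103, 350),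
  ([27, 18, 0, 33, 10, 37, 3], 4454, 380),
  ([10, 35, 3, 38, 0, 27, 19], 4834, 414),
  ([41, 5, 20, 37, 0, 30, 12], 5247, 454),
  ([5, 31, 12, 22, 38, 0, 42], 5702, 493),
  ([0, 21, 39, 11, 4, 31, 43], 6195, 535),
  ([13, 33, 5, 46, 0, 23, 41], 6730, 588),
  ([25, 35, 0, 44, 14, 48, 6], 7318, 640),
  ([26, 15, 50, 0, 46, 6, 36], 7959, 698),
  ([13, 38, 5, 51, 0, 26, 46], 8658, 762),
  ([5, 53, 14, 49, 0, 39, 26], 9421, 832),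
  ([51, 0, 57, 16, 41, 6, 27], 10254, 909),
  ([0, 58, 16, 28, 53, 5, 42], 11162, 993),
  ([0, 61, 30, 5, 54, 16, 44], 12155, 1088),
  ([17, 57, 0, 31, 64, 6, 46], 13243, 1186),
  ([60, 6, 67, 32, 0, 48, 18], 14430, 1295),
  ([64, 0, 50, 8, 70, 19, 35], 15724, 1413),
  ([0, 36, 65, 7, 73, 20, 52], 17138, 1545),
  ([55, 22, 68, 0, 38, 76, 6], 18680, 1690)]

theorem ct7b_all : allC 7 ct7b = true := by decide +kernel

theorem ct7b_cov : covC 311 ct7b 20371 = true := by decide +kernel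

end Pool.Agent.Wil
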