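import Mathlib
import Pool.Agent.Wil.ChkD

set_option autoImplicit false
set_option maxRecDepth 100000

/-! Explicit cores, p = 7, degrees 20371 to 184686. -/

namespace Pool.Agent.Wil

/-- Runner heights, size, window. -/
def ct7c : List (List ℕ × ℕ × ℕ) := [
  ([22, 71, 0, 57, 8, 80, 40], 20371, 1844),
  ([75, 8, 42, 83, 0, 59, 22], 22215, 2019),
  ([9, 62, 24, 78, 0, 87, 43], 24234, 2203),
  ([81, 9, 66, 0, 91, 45, 25], 26436, 2408),
  ([10, 69, 27, 95, 0, 85, 48], 28845, 2632),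
  ([27, 98, 0, 48, 71, 9, 89], 31477, 2876),
  ([75, 11, 93, 52, 0, 104, 29], 34353, 3149),
  ([31, 99, 13, 54, 79, 0, 108], 37503, 3437),
  ([113, 11, 82, 0, 101, 55, 31], 40940, 3760),
  ([33, 85, 0, 107, 12, 59, 117], 44697, 4111),
  ([110, 0, 124, 34, 89, 62, 12], 48808, 4489),
  ([92, 65, 13, 129, 0, 116, 35], 53298, 4910),
  ([14, 134, 38, 67, 122, 0, 98], 58209, 5372),
  ([40, 128, 16, 102, 71, 0, 141], 63581, 5876),
  ([132, 0, 73, 147, 14, 106, 41], 69458, 6431),
  ([15, 111, 0, 138, 77, 43, 153], 75890, 7030),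
  ([0, 160, 45, 82, 146, 17, 116], 82920, 7685),
  ([120, 46, 151, 16, 168, 84, 0], 90606, 8408),
  ([158, 48, 127, 0, 175, 86, 17], 99015, 9204),
  ([17, 91, 183, 0, 132, 51, 164], 108218, 10069),
  ([18, 96, 172, 52, 137, 0, 191], 118287, 11010),
  ([180, 55, 143, 0, 201, 101, 19], 129296, 12046),
  ([209, 0, 58, 189, 105, 151, 20], 141342, 13155),
  ([60, 197, 0, 110, 219, 22, 158], 154498, 14422),
  ([229, 0, 207, 23, 165, 115, 63], 168921, 15765)]

theorem ct7c_all : allC 7 ct7c = true := by decide +kernel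

theorem ct7c_cov : covC 20371 ct7c 184687 = true := by decide +kernel

end Pool.Agent.Wil
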