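import Mathlib
import Pool.Agent.Wil.Tail
import Pool.Agent.Wil.ChkS

set_option autoImplicit false

/-! Lists of explicit cores: coverage. -/

namespace Pool.Agent.Wil

theorem Cf_le_Cs (p b s : ℕ) (h : b ≤ s) : Cf p b ≤ Cs p s := by
  unfold Cf Cs
  split_ifs <;> omega

theorem one_le_Cf (p n : ℕ) : 1 ≤ Cf p n := by
  unfold Cf
  split_ifs <;> omega

theorem covC_sound (L : List (List ℕ × ℕ × ℕ)) (cur e : ℕ) (h : covC cur L e = true) (N : ℕ)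
    (h1 : cur ≤ N) (h2 : N < e) : ∃ x ∈ L, 0 < x.2.1 ∧ x.2.1 ≤ N ∧ N ≤ x.2.1 + x.2.2 := by
  induction L generalizing cur with
  | nil =>
    simp only [covC, Nat.ble_eq] at h
    omega
  | cons x L ih =>
    simp only [covC, Bool.and_eq_true, Nat.ble_eq] at h
    obtain ⟨⟨hx1, hx2⟩, hx3⟩ := h
    by_cases hN : N ≤ x.2.1 + x.2.2
    · exact ⟨x, List.mem_cons_self, by omega, by omega, hN⟩
    · obtain ⟨y, hy, hy2⟩ := ih _ hx3 (by omega)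
      exact ⟨y, List.mem_cons_of_mem _ hy, hy2⟩

theorem allC_step {p : ℕ} [Fact p.Prime] (L : List (List ℕ × ℕ × ℕ)) (h : allC p L = true)
    (cur e : ℕ) (hc : covC cur L e = true) (N : ℕ) (h1 : cur ≤ N) (h2 : N < e) :
    ∃ C n, 0 < n ∧ n ≤ N ∧ Cf p (N - n) ≤ C ∧ (Wl p C (N - n) → Wl p 1 N) := by
  obtain ⟨x, hx, hx0, hx1, hx2⟩ := covC_sound L cur e hc N h1 h2
  have h3 := List.all_eq_true.1 h x hx
  rw [Bool.and_eq_true, Bool.and_eq_true, Bool.and_eq_true, Nat.ble_eq, Nat.ble_eq, Nat.ble_eq] at h3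
  obtain ⟨⟨⟨_, h4⟩, h5⟩, h6⟩ := h3
  refine ⟨Cs p x.2.2, x.2.1, hx0, hx1, Cf_le_Cs p _ _ (by omega), ?_⟩
  cases h7 : Nat.ble x.2.1 300
  · rw [h7, cond_false] at h6
    exact chkS_step (Cs p x.2.2) x.1 x.2.1 x.2.2 hx0 h6 N hx1 hx2
  · rw [h7, cond_true] at h6
    exact chk_step (Cs p x.2.2) x.1 x.2.1 x.2.2 h4 h5 h6 N hx1 hx2

end Pool.Agent.Wil
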