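import Mathlib
import Pool.Agent.Wil.ChkD

set_option autoImplicit false
set_option maxRecDepth 100000

/-! Small degrees, p = 3. -/

namespace Pool.Agent.Wil

theorem sk3_4 : mchkC 3 1 3 4 4 [[1, 0, 2]] = true := by
  decide +kernel

theorem sk3_5 : mchkC 3 2 3 5 5 [[0, 1, 2]] = true := by
  decide +kernel

theorem sk3_6 : mchkC 3 1 3 6 6 [[3, 0, 0]] = true := by
  decide +kernel

theorem sk3_7 : mchkC 3 4 6 6 7 [[4, 1, 1], [3, 3, 0]] = true := by
  decide +kernel

theorem sk3_8 : mchkC 3 1 6 8 8 [[4, 2, 0]] = true := by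
  decide +kernel

theorem sk3_9 : mchkC 3 1 6 8 9 [[4, 2, 0]] = true := by
  decide +kernel

theorem sk3_10 : mchkC 3 1 6 10 10 [[4, 0, 2]] = true := by
  decide +kernel

theorem sk3_11 : mchkC 3 1 6 10 11 [[4, 0, 2], [2, 4, 0]] = true := by
  decide +kernel

theorem sk3_12 : mchkC 3 1 3 12 12 [[0, 0, 3]] = true := by
  decide +kernel

theorem sk3_13 : mchkC 3 2 6 12 13 [[1, 1, 4], [0, 3, 3]] = true := by
  decide +kernel

theorem sk3_14 : mchkC 3 1 6 14 14 [[2, 0, 4]] = true := by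
  decide +kernel

theorem sk3_15 : mchkC 3 1 6 14 15 [[2, 0, 4]] = true := by
  decide +kernel

theorem sk3_16 : mchkC 3 1 6 16 16 [[0, 2, 4]] = true := by
  decide +kernel

theorem sk3_17 : mchkC 3 1 6 16 17 [[0, 2, 4]] = true := by
  decide +kernel

theorem sk3_18 : mchkC 3 1 6 17 18 [[5, 0, 1]] = true := by
  decide +kernel

theorem sk3_19 : mchkC 3 2 9 17 19 [[6, 1, 2], [4, 5, 0]] = true := by
  decide +kernel

theorem sk3_20 : mchkC 3 1 9 20 20 [[5, 0, 4]] = true := by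
  decide +kernel

theorem sk3_21 : mchkC 3 1 9 20 21 [[5, 0, 4]] = true := by
  decide +kernel

theorem sk3_22 : mchkC 3 1 9 21 22 [[6, 3, 0]] = true := by
  decide +kernel

theorem sk3_23 : mchkC 3 1 9 22 23 [[4, 0, 5]] = true := by
  decide +kernel

theorem sk3_24 : mchkC 3 1 9 24 24 [[6, 0, 3]] = true := by
  decide +kernel

theorem sk3_25 : mchkC 3 1 9 24 25 [[6, 0, 3]] = true := by
  decide +kernel

theorem sk3_26 : mchkC 3 1 6 25 26 [[1, 0, 5]] = true := by
  decide +kernel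

theorem sk3_27 : mchkC 3 1 6 25 27 [[1, 0, 5]] = true := by
  decide +kernel

theorem sk3_28 : mchkC 3 1 6 26 28 [[0, 1, 5]] = true := by
  decide +kernel

theorem sk3_29 : mchkC 3 6 9 26 29 [[1, 2, 6], [0, 4, 5]] = true := by
  decide +kernel

end Pool.Agent.Wil
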