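import Mathlib
import Pool.Agent.Wil.ChkD

set_option autoImplicit false
set_option maxRecDepth 100000

/-! Small degrees, p = 5. -/

namespace Pool.Agent.Wil

theorem sk5_6 : mchkC 5 1 5 6 6 [[1, 1, 0, 2, 1], [1, 0, 2, 1, 1]] = true := by
  decide +kernel

theorem sk5_7 : mchkC 5 1 5 7 7 [[2, 1, 0, 2, 0]] = true := by
  decide +kernel

theorem sk5_8 : mchkC 5 1 5 8 8 [[2, 0, 1, 2, 0]] = true := by
  decide +kernel

theorem sk5_9 : mchkC 5 2 5 9 9 [[2, 1, 0, 0, 2], [0, 2, 2, 1, 0], [3, 1, 0, 1, 0]] = true := by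
  decide +kernel

theorem sk5_10 : mchkC 5 1 5 10 10 [[2, 0, 1, 0, 2]] = true := by
  decide +kernel

theorem sk5_11 : mchkC 5 1 10 11 11 [[4, 1, 2, 1, 2], [2, 3, 2, 3, 0]] = true := by
  decide +kernel

theorem sk5_12 : mchkC 5 1 5 12 12 [[0, 2, 1, 0, 2]] = true := by
  decide +kernel

theorem sk5_13 : mchkC 5 1 5 13 13 [[0, 2, 0, 1, 2]] = true := by
  decide +kernel

theorem sk5_14 : mchkC 5 1 10 14 14 [[4, 1, 3, 1, 1], [3, 3, 1, 3, 0]] = true := by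
  decide +kernel

end Pool.Agent.Wil
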