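import Mathlib
import Pool.Agent.Wil.ChkD

set_option autoImplicit false
set_option maxRecDepth 100000

/-! Small degrees, p = 7. -/

namespace Pool.Agent.Wil

theorem sk7_8 : mchkC 7 1 7 8 8 [[2, 1, 2, 0, 1, 0, 1], [1, 2, 1, 2, 0, 1, 0]] = true := by
  decide +kernel

theorem sk7_9 : mchkC 7 1 7 9 9 [[2, 1, 1, 0, 2, 1, 0], [2, 1, 0, 2, 1, 1, 0]] = true := by
  decide +kernel

theorem sk7_10 : mchkC 7 1 7 10 10 [[2, 1, 0, 2, 1, 0, 1], [1, 2, 1, 0, 2, 1, 0]] = true := by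
  decide +kernel

theorem sk7_11 : mchkC 7 1 7 11 11 [[1, 2, 1, 0, 2, 0, 1], [1, 2, 0, 2, 1, 0, 1]] = true := by
  decide +kernel

theorem sk7_12 : mchkC 7 1 7 12 12 [[1, 2, 0, 1, 2, 0, 1], [1, 2, 0, 2, 0, 1, 1]] = true := by
  decide +kernel

theorem sk7_13 : mchkC 7 1 7 13 13 [[2, 2, 0, 1, 2, 0, 0], [2, 2, 0, 2, 0, 1, 0], [2, 1, 2, 0, 2, 0, 0], [1, 2, 1, 0, 1, 0, 2], [1, 2, 1, 0, 0, 2, 1]] = true := by
  decide +kernel

theorem sk7_14 : mchkC 7 1 7 14 14 [[1, 2, 0, 1, 0, 2, 1]] = true := by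
  decide +kernel

theorem sk7_15 : mchkC 7 1 7 15 15 [[2, 2, 0, 1, 0, 2, 0]] = true := by
  decide +kernel

theorem sk7_16 : mchkC 7 1 7 16 16 [[1, 0, 2, 1, 0, 2, 1]] = true := by
  decide +kernel

theorem sk7_17 : mchkC 7 1 7 17 17 [[2, 0, 2, 1, 0, 2, 0]] = true := by
  decide +kernel

theorem sk7_18 : mchkC 7 1 7 18 18 [[2, 0, 2, 0, 1, 2, 0]] = true := by
  decide +kernel

theorem sk7_19 : mchkC 7 1 14 19 19 [[4, 1, 3, 2, 1, 2, 1], [3, 2, 3, 2, 1, 3, 0]] = true := by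
  decide +kernel

theorem sk7_20 : mchkC 7 1 14 20 20 [[4, 1, 2, 3, 1, 2, 1], [3, 2, 3, 1, 2, 3, 0]] = true := by
  decide +kernel

end Pool.Agent.Wil
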