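import Mathlib
import Pool.Agent.Wil.CertD
import Pool.Agent.Wil.Small3
import Pool.Agent.Wil.Small5
import Pool.Agent.Wil.Small7
import Pool.Agent.Wil.Cert3a
import Pool.Agent.Wil.Cert5a
import Pool.Agent.Wil.Cert5b
import Pool.Agent.Wil.Cert7a
import Pool.Agent.Wil.Cert7b
import Pool.Agent.Wil.Cert7c

set_option autoImplicit false

/-! All degrees at p = 3, 5, 7, up to the constants `Cf`. -/

namespace Pool.Agent.Wil

theorem Cf_le (p n : ℕ) : Cf p n ≤ 6 := by
  unfold Cf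
  split_ifs <;> omega

theorem Cf5_le (n : ℕ) : Cf 5 n ≤ 2 := by
  unfold Cf
  split_ifs <;> omega

theorem Cf7_le (n : ℕ) : Cf 7 n ≤ 1 := by
  unfold Cf
  split_ifs <;> omega

theorem small3 (n : ℕ) (hn : n < 30) : Wl 3 (Cf 3 n) n := by
  haveI : Fact (Nat.Prime 3) := ⟨by norm_num⟩
  interval_cases n
  · exact wl_small 3 0 (by norm_num)
  · exact wl_small 3 1 (by norm_num)
  · exact wl_small 3 2 (by norm_num)
  · exact wl_prime 3
  · exact mchk_step _ _ _ _ _ (by norm_num) sk3_4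
  · exact mchk_step _ _ _ _ _ (by norm_num) sk3_5
  · exact mchk_step _ _ _ _ _ (by norm_num) sk3_6
  · exact mchk_step _ _ _ _ _ (by norm_num) sk3_7
  · exact mchk_step _ _ _ _ _ (by norm_num) sk3_8
  · exact mchk_step _ _ _ _ _ (by norm_num) sk3_9
  · exact mchk_step _ _ _ _ _ (by norm_num) sk3_10
  · exact mchk_step _ _ _ _ _ (by norm_num) sk3_11
  · exact mchk_step _ _ _ _ _ (by norm_num) sk3_12
  · exact mchk_step _ _ _ _ _ (by norm_num) sk3_13
  · exact mchk_step _ _ _ _ _ (by norm_num) sk3_14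
  · exact mchk_step _ _ _ _ _ (by norm_num) sk3_15
  · exact mchk_step _ _ _ _ _ (by norm_num) sk3_16
  · exact mchk_step _ _ _ _ _ (by norm_num) sk3_17
  · exact mchk_step _ _ _ _ _ (by norm_num) sk3_18
  · exact mchk_step _ _ _ _ _ (by norm_num) sk3_19
  · exact mchk_step _ _ _ _ _ (by norm_num) sk3_20
  · exact mchk_step _ _ _ _ _ (by norm_num) sk3_21
  · exact mchk_step _ _ _ _ _ (by norm_num) sk3_22
  · exact mchk_step _ _ _ _ _ (by norm_num) sk3_23
  · exact mchk_step _ _ _ _ _ (by norm_num) sk3_24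
  · exact mchk_step _ _ _ _ _ (by norm_num) sk3_25
  · exact mchk_step _ _ _ _ _ (by norm_num) sk3_26
  · exact mchk_step _ _ _ _ _ (by norm_num) sk3_27
  · exact mchk_step _ _ _ _ _ (by norm_num) sk3_28
  · exact mchk_step _ _ _ _ _ (by norm_num) sk3_29

theorem all3 (N : ℕ) : Wl 3 (Cf 3 N) N := by
  haveI : Fact (Nat.Prime 3) := ⟨by norm_num⟩
  refine cover (Cf 3) 30 small3 ?_ (one_le_Cf 3) N
  intro N hN
  by_cases ha : N < 4176
  · exact allC_step _ ct3a_all 30 4176 ct3a_cov N (by omega) ha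
  obtain ⟨n, h0, h1, h2⟩ := tail_all3 N (by omega)
  exact ⟨6, n, h0, h1, Cf_le 3 _, h2⟩

theorem small5 (n : ℕ) (hn : n < 15) : Wl 5 (Cf 5 n) n := by
  haveI : Fact (Nat.Prime 5) := ⟨by norm_num⟩
  interval_cases n
  · exact wl_small 5 0 (by norm_num)
  · exact wl_small 5 1 (by norm_num)
  · exact wl_small 5 2 (by norm_num)
  · exact wl_small 5 3 (by norm_num)
  · exact wl_small 5 4 (by norm_num)
  · exact wl_prime 5
  · exact mchk_step _ _ _ _ _ (by norm_num) sk5_6
  · exact mchk_step _ _ _ _ _ (by norm_num) sk5_7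
  · exact mchk_step _ _ _ _ _ (by norm_num) sk5_8
  · exact mchk_step _ _ _ _ _ (by norm_num) sk5_9
  · exact mchk_step _ _ _ _ _ (by norm_num) sk5_10
  · exact mchk_step _ _ _ _ _ (by norm_num) sk5_11
  · exact mchk_step _ _ _ _ _ (by norm_num) sk5_12
  · exact mchk_step _ _ _ _ _ (by norm_num) sk5_13
  · exact mchk_step _ _ _ _ _ (by norm_num) sk5_14

theorem all5 (N : ℕ) : Wl 5 (Cf 5 N) N := by
  haveI : Fact (Nat.Prime 5) := ⟨by norm_num⟩
  refine cover (Cf 5) 15 small5 ?_ (one_le_Cf 5) N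
  intro N hN
  by_cases ha : N < 304
  · exact allC_step _ ct5a_all 15 304 ct5a_cov N (by omega) ha
  by_cases hb : N < 43004
  · exact allC_step _ ct5b_all 304 43004 ct5b_cov N (by omega) hb
  obtain ⟨n, h0, h1, h2⟩ := tail_all5 N (by omega)
  exact ⟨2, n, h0, h1, Cf5_le _, h2⟩

theorem small7 (n : ℕ) (hn : n < 21) : Wl 7 (Cf 7 n) n := by
  haveI : Fact (Nat.Prime 7) := ⟨by norm_num⟩
  interval_cases n
  · exact wl_small 7 0 (by norm_num)
  · exact wl_small 7 1 (by norm_num)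
  · exact wl_small 7 2 (by norm_num)
  · exact wl_small 7 3 (by norm_num)
  · exact wl_small 7 4 (by norm_num)
  · exact wl_small 7 5 (by norm_num)
  · exact wl_small 7 6 (by norm_num)
  · exact wl_prime 7
  · exact mchk_step _ _ _ _ _ (by norm_num) sk7_8
  · exact mchk_step _ _ _ _ _ (by norm_num) sk7_9
  · exact mchk_step _ _ _ _ _ (by norm_num) sk7_10
  · exact mchk_step _ _ _ _ _ (by norm_num) sk7_11
  · exact mchk_step _ _ _ _ _ (by norm_num) sk7_12
  · exact mchk_step _ _ _ _ _ (by norm_num) sk7_13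
  · exact mchk_step _ _ _ _ _ (by norm_num) sk7_14
  · exact mchk_step _ _ _ _ _ (by norm_num) sk7_15
  · exact mchk_step _ _ _ _ _ (by norm_num) sk7_16
  · exact mchk_step _ _ _ _ _ (by norm_num) sk7_17
  · exact mchk_step _ _ _ _ _ (by norm_num) sk7_18
  · exact mchk_step _ _ _ _ _ (by norm_num) sk7_19
  · exact mchk_step _ _ _ _ _ (by norm_num) sk7_20

theorem all7 (N : ℕ) : Wl 7 (Cf 7 N) N := by
  haveI : Fact (Nat.Prime 7) := ⟨by norm_num⟩
  refine cover (Cf 7) 21 small7 ?_ (one_le_Cf 7) N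
  intro N hN
  by_cases ha : N < 311
  · exact allC_step _ ct7a_all 21 311 ct7a_cov N (by omega) ha
  by_cases hb : N < 20371
  · exact allC_step _ ct7b_all 311 20371 ct7b_cov N (by omega) hb
  by_cases hc : N < 184687
  · exact allC_step _ ct7c_all 20371 184687 ct7c_cov N (by omega) hc
  obtain ⟨n, h0, h1, h2⟩ := tail_all7 N (by omega)
  exact ⟨1, n, h0, h1, Cf7_le _, h2⟩

end Pool.Agent.Wil
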