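import Mathlib

set_option autoImplicit false

/-! Rank certificates: the definitions. -/

namespace Pool.Agent.Wil

/-- Check that the `m` lowest digits of `S` in base `X` are one modulo `p` at position `l - j` and zero modulo `p` elsewhere. -/
def digC (X p l : ℕ) : ℕ → ℕ → ℕ → Bool
  | 0, _, _ => true
  | m + 1, j, S => ((S % X) % p == if j = l then 1 else 0) && digC X p l m (j + 1) (S / X)

/-- Word (list of values on `0, ..., n - 1`) of the product of the transpositions `L` (the last one acts first). -/
def wdC (n : ℕ) : List (ℕ × ℕ) → List ℕ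
  | [] => List.range n
  | (a, b) :: L => (wdC n L).map (fun y => if y = a then b else if y = b then a else y)

/-- Admissible list of transpositions: even length, distinct entries below `n`. -/
def admC (n : ℕ) (L : List (ℕ × ℕ)) : Bool :=
  (L.length % 2 == 0) && L.all (fun x => Nat.blt x.1 n && Nat.blt x.2 n && !(x.1 == x.2))

/-- Number of agreements of two words. -/
def agC : List ℕ → List ℕ → ℕ
  | x :: u, y :: v => (if x == y then 1 else 0) + agC u v
  | _, _ => 0

/-- The packed row of the word `u`: digits `agC u v ^ 2` for `v` in the list, lowest first. -/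
def rowC (X : ℕ) (u : List ℕ) : List (List ℕ) → ℕ
  | [] => 0
  | v :: V => agC u v ^ 2 + X * rowC X u V

/-- `∑ b_i R_i`, with `b_i` the digits of `b` in base four, lowest first. -/
def cmbC : ℕ → List ℕ → ℕ
  | _, [] => 0
  | b, R :: Rs => (b % 4) * R + cmbC (b / 4) Rs

/-- All rows of the inverse matrix are right. -/
def invC (X p r : ℕ) (R : List ℕ) : ℕ → List ℕ → Bool
  | _, [] => true
  | l, b :: Bs => digC X p l r 0 (cmbC b R) && invC X p r R (l + 1) Bs

/-- The whole check: `U`, `V` lists of pairs (transpositions, word), `R` the packed rows, `Bs` the packed rows of the inverse matrix. -/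
def rcC (p n r : ℕ) (U V : List (List (ℕ × ℕ) × List ℕ)) (R Bs : List ℕ) : Bool :=
  (U.length == r) && (V.length == r) && (Bs.length == r) && Nat.ble (3 * r * n ^ 2 + 1) (2 ^ 16) &&
    U.all (fun x => admC n x.1 && (wdC n x.1 == x.2)) &&
    V.all (fun x => admC n x.1 && (wdC n x.1 == x.2)) &&
    (R == U.map (fun x => rowC (2 ^ 16) x.2 (V.map Prod.snd))) && invC (2 ^ 16) p r R 0 Bs

end Pool.Agent.Wil
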