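import Mathlib
import Pool.Agent.Wil.Chk
import Pool.Agent.Wil.RcD

set_option autoImplicit false

/-! Exceptional degrees, first part: lower bounds, restriction, rank certificates. -/

namespace Pool.Agent.Wil

open MonoidAlgebra

/-- `B` is a lower bound for `dim k[S_n]/J` for every field of characteristic `p`. -/
def Lb (p n B : ℕ) : Prop :=
  ∀ (k : Type) [Field k] [CharP k p], B ≤ ssDim k (Equiv.Perm (Fin n))

-- BEGIN lb_wl
/-- PROOF. As the end of `mchk_step` (Chk.lean): `pPrimePart p n! = n! / p ^ v ≤ B`. -/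
theorem lb_wl {p : ℕ} [Fact p.Prime] (n B e : ℕ) (he : e ≤ n.factorial.factorization p)
    (h : n.factorial ≤ B * p ^ e) (hb : Lb p n B) : Wl p 1 n := by
  intro k _ _
  have hp : p.Prime := Fact.out
  have h1 : n.factorial ≤ p ^ n.factorial.factorization p * (1 * ssDim k (Equiv.Perm (Fin n))) :=
    calc n.factorial ≤ B * p ^ e := h
      _ ≤ ssDim k (Equiv.Perm (Fin n)) * p ^ n.factorial.factorization p :=
        Nat.mul_le_mul (hb k) (Nat.pow_le_pow_right hp.pos he)
      _ = p ^ n.factorial.factorization p * (1 * ssDim k (Equiv.Perm (Fin n))) := by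
        rw [one_mul, mul_comm]
  unfold pPrimePart
  exact Nat.div_le_of_le_mul h1
-- END lb_wl

-- BEGIN lb_cores
theorem lb_cores_sumC (f : ℕ → ℕ) (n : ℕ) : sumC f n = ∑ d ∈ Finset.range n, f d := by
  induction n with
  | zero => rfl
  | succ n ih => rw [Finset.sum_range_succ, ← ih]; rfl

/-- PROOF. As `mchk_step` (Chk.lean). -/
theorem lb_cores {p : ℕ} [Fact p.Prime] (B n : ℕ) (ms : List (List ℕ)) (hn : n ≤ 2 ^ 20)
    (h : (ms.all (fun m => (szC p m == n) && (sumC (fun i => m.getD i 0) p == B) &&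
      (m.length == p)) && decide ms.Nodup) = true) :
    Lb p n (ms.map (fun m => (fpC 20 0 n / hkC p m) ^ 2)).sum := by
  intro k _ _
  rw [Bool.and_eq_true, List.all_eq_true, decide_eq_true_eq] at h
  obtain ⟨hall, hnd⟩ := h
  have hall' : ∀ m ∈ ms, szC p m = n ∧ sumC (fun i => m.getD i 0) p = B ∧ m.length = p := by
    intro m hm
    have h1 := hall m hm
    rw [Bool.and_eq_true, Bool.and_eq_true, beq_iff_eq, beq_iff_eq, beq_iff_eq] at h1
    exact ⟨h1.1.1, h1.1.2, h1.2⟩
  obtain ⟨f, hf, hsum⟩ := core_multi (p := p) (k := k) (ι := Fin ms.length) (fun a i => (ms.get a).getD i 0)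
    (by
      intro a b hab
      have hl := (hall' _ (List.get_mem ms a)).2.2
      have hl' := (hall' _ (List.get_mem ms b)).2.2
      apply (List.nodup_iff_injective_get.1 hnd)
      apply List.ext_getElem (hl.trans hl'.symm)
      intro i h1 h2
      have h3 := congrFun hab ⟨i, by rw [← hl]; exact h1⟩
      simp only [] at h3
      rw [List.getD_eq_getElem _ _ h1, List.getD_eq_getElem _ _ h2] at h3
      exact h3)
    B n
    (by
      intro a
      have h1 := (hall' _ (List.get_mem ms a)).2.1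
      rw [lb_cores_sumC, Finset.sum_range] at h1
      exact h1)
    (by
      intro a
      rw [← (hall' _ (List.get_mem ms a)).1, szC_eq])
  have hfn : fpC 20 0 n = n.factorial := by
    have h1 := fpC_eq 20 0 n hn
    rwa [Nat.factorial_zero, one_mul, zero_add] at h1
  have hS : (ms.map (fun m => (fpC 20 0 n / hkC p m) ^ 2)).sum = ∑ a, f a ^ 2 := by
    rw [← Fin.sum_univ_fun_getElem]
    refine Finset.sum_congr rfl fun a _ => ?_
    have h1 := hf a
    have h2 := hkC_eq p (ms.get a)
    have h3 : f a * hkC p (ms.get a) = n.factorial := by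
      rw [h2]
      exact h1
    have h4 : 0 < hkC p (ms.get a) := by
      rcases Nat.eq_zero_or_pos (hkC p (ms.get a)) with h5 | h5
      · rw [h5, mul_zero] at h3
        exact absurd h3.symm (Nat.factorial_ne_zero n)
      · exact h5
    have h5 : fpC 20 0 n / hkC p (ms.get a) = f a := by
      rw [hfn, ← h3]
      exact Nat.mul_div_cancel _ h4
    exact congrArg (fun z : ℕ => z ^ 2) h5
  rw [hS]
  exact hsum
-- END lb_cores

-- BEGIN ssDim_down
private noncomputable def ssDim_down_pi {k G : Type} [Field k] [Group G] (H : Subgroup G) :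
    MonoidAlgebra k G →ₗ[k] MonoidAlgebra k H where
  toFun a := MonoidAlgebra.comapDomain H.subtype H.subtype_injective a
  map_add' a b := MonoidAlgebra.comapDomain_add _ _ a b
  map_smul' r a := by
    ext h
    simp

private theorem ssDim_down_mem {k G : Type} [Field k] [Group G] (H : Subgroup G) {g : G}
    (hg : g ∈ H) (r : k) : ssDim_down_pi H (single g r) = single (⟨g, hg⟩ : H) r :=
  MonoidAlgebra.comapDomain_single_map H.subtype H.subtype_injective (⟨g, hg⟩ : H) r

private theorem ssDim_down_not_mem {k G : Type} [Field k] [Group G] (H : Subgroup G) {g : G}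
    (hg : g ∉ H) (r : k) : ssDim_down_pi H (single g r) = 0 := by
  refine MonoidAlgebra.comapDomain_single_of_not_mem_range ?_ H.subtype_injective
  rintro ⟨h, rfl⟩
  exact hg h.2

private theorem ssDim_down_right {k G : Type} [Field k] [Group G] (H : Subgroup G)
    (a : MonoidAlgebra k G) (b : MonoidAlgebra k H) :
    ssDim_down_pi H (a * ind (k := k) H.subtype b) = ssDim_down_pi H a * b := by
  induction b using MonoidAlgebra.induction_linear with
  | zero => rw [map_zero, mul_zero, mul_zero, map_zero]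
  | add b c hb hc => rw [map_add, mul_add, map_add, hb, hc, mul_add]
  | single h s =>
    induction a using MonoidAlgebra.induction_linear with
    | zero => rw [zero_mul, map_zero, zero_mul]
    | add a c ha hc => rw [add_mul, map_add, ha, hc, map_add, add_mul]
    | single g r =>
      rw [ind, MonoidAlgebra.mapDomainAlgHom_apply, MonoidAlgebra.mapDomain_single,
        MonoidAlgebra.single_mul_single]
      by_cases hg : g ∈ H
      · rw [ssDim_down_mem H hg, MonoidAlgebra.single_mul_single]
        exact ssDim_down_mem H (H.mul_mem hg h.2) _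
      · rw [ssDim_down_not_mem H hg, zero_mul]
        refine ssDim_down_not_mem H ?_ _
        exact fun h' => hg ((H.mul_mem_cancel_right h.2).1 h')

private theorem ssDim_down_left {k G : Type} [Field k] [Group G] (H : Subgroup G)
    (a : MonoidAlgebra k G) (h : H) :
    ssDim_down_pi H (single (h : G) 1 * a) = single h 1 * ssDim_down_pi H a := by
  induction a using MonoidAlgebra.induction_linear with
  | zero => rw [mul_zero, map_zero, mul_zero]
  | add a c ha hc => rw [mul_add, map_add, ha, hc, map_add, mul_add]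
  | single g r =>
    rw [MonoidAlgebra.single_mul_single]
    by_cases hg : g ∈ H
    · rw [ssDim_down_mem H hg, MonoidAlgebra.single_mul_single]
      exact ssDim_down_mem H (H.mul_mem h.2 hg) _
    · rw [ssDim_down_not_mem H hg, mul_zero]
      refine ssDim_down_not_mem H ?_ _
      exact fun h' => hg ((H.mul_mem_cancel_left h.2).1 h')

private theorem ssDim_down_dec {k G : Type} [Field k] [Group G] (H : Subgroup G)
    [Fintype (G ⧸ H)] (c : MonoidAlgebra k G) :
    c = ∑ l : G ⧸ H, single l.out 1 *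
      ind (k := k) H.subtype (ssDim_down_pi H (single l.out⁻¹ 1 * c)) := by
  classical
  induction c using MonoidAlgebra.induction_linear with
  | zero =>
    refine (Finset.sum_eq_zero fun l _ => ?_).symm
    rw [mul_zero, map_zero, map_zero, mul_zero]
  | add c d hc hd =>
    conv_lhs => rw [hc, hd]
    rw [← Finset.sum_add_distrib]
    refine Finset.sum_congr rfl fun l _ => ?_
    rw [mul_add, map_add, map_add, mul_add]
  | single g r =>
    rw [Finset.sum_eq_single (QuotientGroup.mk g : G ⧸ H)]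
    · have hg : (QuotientGroup.mk g : G ⧸ H).out⁻¹ * g ∈ H := by
        rw [← QuotientGroup.eq]
        exact QuotientGroup.out_eq' _
      rw [MonoidAlgebra.single_mul_single, ssDim_down_mem H hg, ind,
        MonoidAlgebra.mapDomainAlgHom_apply, MonoidAlgebra.mapDomain_single,
        MonoidAlgebra.single_mul_single]
      simp
    · intro l _ hl
      have hg : l.out⁻¹ * g ∉ H := by
        intro h
        apply hl
        rw [← QuotientGroup.out_eq' l]
        exact QuotientGroup.eq.2 h
      rw [MonoidAlgebra.single_mul_single, ssDim_down_not_mem H hg, map_zero, mul_zero]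
    · intro h
      exact absurd (Finset.mem_univ _) h

private theorem ssDim_down_pow {k G : Type} [Field k] [Group G] (H : Subgroup G)
    [Fintype (G ⧸ H)] (a : MonoidAlgebra k G)
    (ha : ∀ x y : G, ssDim_down_pi H (single x 1 * a * single y 1) ∈
      Ring.jacobson (MonoidAlgebra k H)) (n : ℕ) :
    ∀ x y : G, ssDim_down_pi H (single x 1 * a ^ n * single y 1) ∈
      (Ring.jacobson (MonoidAlgebra k H)) ^ n := by
  induction n with
  | zero =>
    intro x y
    rw [Submodule.pow_zero, Ideal.one_eq_top]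
    trivial
  | succ n ih =>
    intro x y
    have h1 : single x 1 * a ^ (n + 1) * single y 1 =
        single x 1 * a ^ n * (a * single y (1 : k)) := by
      rw [pow_succ]
      simp only [mul_assoc]
    rw [h1, ssDim_down_dec H (a * single y 1), Finset.mul_sum, map_sum]
    refine Submodule.sum_mem _ fun l _ => ?_
    rw [← mul_assoc, ssDim_down_right, ← mul_assoc (single l.out⁻¹ 1), Submodule.pow_succ]
    exact Ideal.mul_mem_mul (ih x l.out) (ha _ _)

/-- PROOF. Every field, no hypothesis on the characteristic. Let `J = Ring.jacobson (MonoidAlgebra k H)` (a nilpotent two-sided ideal, `k H` is finite dimensional), `π : k G → k H` the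
restriction of coefficients to `H` (`MonoidAlgebra`/`Finsupp.comapDomain` along `H.subtype`, linear over `k`; `π (h x) = h π(x)`, `π (x h) = π(x) h` for `h ∈ k H`).
`I = {a | ∀ x y : G, π (x a y) ∈ J}` is a two-sided ideal of `k G`. (1) `I` is nil: with a transversal `y_i` (`G = ⋃ y_i H`), `a ↦ (π (y_i⁻¹ a y_j))_{ij}` is an injective ring
homomorphism `k G → Matrix (G ⧸ H) (G ⧸ H) (k H)` (`∑_l π (y_i⁻¹ a y_l) π (y_l⁻¹ b y_j) = π (y_i⁻¹ a b y_j)`) and maps `I` into the matrices over `J`, a nilpotent ideal. So `I ≤ Ring.jacobson (k G)`.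
(2) `a ↦ (π (y_i⁻¹ a y_j) mod J)_{ij}` is linear on `k G` with kernel `I` and values in a space of dimension `H.index ^ 2 * ssDim k H`. So
`ssDim k G ≤ dim (k G / I) ≤ H.index ^ 2 * ssDim k H`. See `ssDim_le_index` (Basic.lean, normal case) for the style. -/
theorem ssDim_down {k G : Type} [Field k] [Group G] [Finite G] (H : Subgroup G) :
    ssDim k G ≤ H.index ^ 2 * ssDim k H := by
  classical
  have : Fintype (G ⧸ H) := Fintype.ofFinite _
  set J := Ring.jacobson (MonoidAlgebra k H) with hJ
  let I : Ideal (MonoidAlgebra k G) :=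
    { carrier := {a | ∀ x y : G, ssDim_down_pi H (single x 1 * a * single y 1) ∈ J}
      zero_mem' := by
        intro x y
        rw [mul_zero, zero_mul, map_zero]
        exact Ideal.zero_mem _
      add_mem' := by
        intro a b ha hb x y
        rw [mul_add, add_mul, map_add]
        exact Ideal.add_mem _ (ha x y) (hb x y)
      smul_mem' := by
        intro c a ha x y
        rw [smul_eq_mul]
        induction c using MonoidAlgebra.induction_linear with
        | zero =>
          rw [zero_mul, mul_zero, zero_mul, map_zero]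
          exact Ideal.zero_mem _
        | add c d hc hd =>
          rw [add_mul, mul_add, add_mul, map_add]
          exact Ideal.add_mem _ hc hd
        | single g r =>
          have h1 : single x 1 * (single g r * a) * single y 1 =
              r • (single (x * g) 1 * a * single y 1) := by
            rw [← mul_assoc, MonoidAlgebra.single_mul_single, ← smul_mul_assoc, ← smul_mul_assoc,
              MonoidAlgebra.smul_single, one_mul, smul_eq_mul, mul_one]
          rw [h1, map_smul]
          exact (J.restrictScalars k).smul_mem r (ha (x * g) y) }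
  have hI : I ≤ Ring.jacobson (MonoidAlgebra k G) := by
    apply nil_le_jacobson
    intro a ha
    obtain ⟨n, hn⟩ := IsArtinianRing.isNilpotent_jacobson_bot (R := MonoidAlgebra k H)
    rw [Ideal.jacobson_bot] at hn
    refine ⟨n, ?_⟩
    have h1 := ssDim_down_pow H a ha n
    have h2 : ∀ x y : G, ssDim_down_pi H (single x 1 * a ^ n * single y (1 : k)) = 0 := by
      intro x y
      have h3 := h1 x y
      rw [hn] at h3
      simpa using h3
    rw [ssDim_down_dec H (a ^ n)]
    refine Finset.sum_eq_zero fun l _ => ?_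
    have h4 := h2 l.out⁻¹ 1
    rw [← MonoidAlgebra.one_def, mul_one] at h4
    rw [h4, map_zero, mul_zero]
  let Φ : MonoidAlgebra k G →ₗ[k] (G ⧸ H → G ⧸ H → (MonoidAlgebra k H ⧸ J.restrictScalars k)) :=
    LinearMap.pi fun i => LinearMap.pi fun j =>
      (J.restrictScalars k).mkQ ∘ₗ ssDim_down_pi H ∘ₗ
        LinearMap.mulRight k (single j.out 1) ∘ₗ LinearMap.mulLeft k (single i.out⁻¹ 1)
  have hΦ : ∀ a i j, Φ a i j =
      (J.restrictScalars k).mkQ (ssDim_down_pi H (single i.out⁻¹ 1 * a * single j.out 1)) :=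
    fun a i j => rfl
  have hker : LinearMap.ker Φ ≤ (Ring.jacobson (MonoidAlgebra k G)).restrictScalars k := by
    intro a ha
    refine hI ?_
    intro x y
    have h1 : ∀ i j : G ⧸ H, ssDim_down_pi H (single i.out⁻¹ 1 * a * single j.out 1) ∈ J := by
      intro i j
      have h2 : Φ a i j = 0 := by
        rw [LinearMap.mem_ker.1 ha]
        rfl
      rw [hΦ, Submodule.mkQ_apply, Submodule.Quotient.mk_eq_zero] at h2
      exact h2
    have hx : (QuotientGroup.mk x⁻¹ : G ⧸ H).out⁻¹ * x⁻¹ ∈ H := by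
      rw [← QuotientGroup.eq]
      exact QuotientGroup.out_eq' _
    have hy : (QuotientGroup.mk y : G ⧸ H).out⁻¹ * y ∈ H := by
      rw [← QuotientGroup.eq]
      exact QuotientGroup.out_eq' _
    set i := (QuotientGroup.mk x⁻¹ : G ⧸ H) with hi
    set j := (QuotientGroup.mk y : G ⧸ H) with hj
    have e1 : single x (1 : k) =
        single (((⟨i.out⁻¹ * x⁻¹, hx⟩ : H)⁻¹ : H) : G) 1 * single i.out⁻¹ 1 := by
      rw [MonoidAlgebra.single_mul_single, one_mul]
      congr 1
      simp
    have e2 : single y (1 : k) = single j.out 1 *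
        ind (k := k) H.subtype (single (⟨j.out⁻¹ * y, hy⟩ : H) 1) := by
      rw [ind, MonoidAlgebra.mapDomainAlgHom_apply, MonoidAlgebra.mapDomain_single,
        MonoidAlgebra.single_mul_single, one_mul]
      congr 1
      simp
    have e3 : single x (1 : k) * a * single y 1 =
        single (((⟨i.out⁻¹ * x⁻¹, hx⟩ : H)⁻¹ : H) : G) 1 *
          (single i.out⁻¹ 1 * a * single j.out 1) *
          ind (k := k) H.subtype (single (⟨j.out⁻¹ * y, hy⟩ : H) 1) := by
      rw [e1, e2]
      simp only [mul_assoc]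
    rw [e3, ssDim_down_right, ssDim_down_left]
    exact Ideal.mul_mem_right _ _ (Ideal.mul_mem_left _ _ (h1 i j))
  have f1 : ssDim k G ≤ Module.finrank k (MonoidAlgebra k G ⧸ LinearMap.ker Φ) :=
    LinearMap.finrank_le_finrank_of_surjective (f := Submodule.factor hker)
      (Submodule.factor_surjective hker)
  have f2 : Module.finrank k (MonoidAlgebra k G ⧸ LinearMap.ker Φ) ≤
      Module.finrank k (G ⧸ H → G ⧸ H → (MonoidAlgebra k H ⧸ J.restrictScalars k)) := by
    apply LinearMap.finrank_le_finrank_of_injective (f := (LinearMap.ker Φ).liftQ Φ le_rfl)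
    rw [← LinearMap.ker_eq_bot, Submodule.ker_liftQ_eq_bot _ _ _ le_rfl]
  refine f1.trans (f2.trans (le_of_eq ?_))
  rw [Module.finrank_pi_fintype]
  simp only [Module.finrank_pi_fintype, Finset.sum_const, Finset.card_univ, smul_eq_mul]
  rw [Subgroup.index, Nat.card_eq_fintype_card, sq, mul_assoc]
  rfl
-- END ssDim_down

-- BEGIN lb_down
/-- PROOF. `ssDim_down` for `H` = range of `Equiv.Perm.viaEmbeddingHom (Fin.castLEEmb _)` in `Perm (Fin (n + 1))`, index `n + 1` (orders), `ssDim_congr` (Rel.lean). -/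
theorem lb_down {p n : ℕ} (B D : ℕ) (hD : (n + 1) ^ 2 * B ≤ D) (h : Lb p (n + 1) D) : Lb p n B := by
  classical
  intro k _ _
  let φ : Equiv.Perm (Fin n) →* Equiv.Perm (Fin (n + 1)) :=
    Equiv.Perm.viaEmbeddingHom (Fin.castLEEmb (Nat.le_succ n))
  have hφ : Function.Injective φ :=
    Equiv.Perm.viaEmbeddingHom_injective (Fin.castLEEmb (Nat.le_succ n))
  let e : Equiv.Perm (Fin n) ≃* φ.range := MonoidHom.ofInjective hφ
  have h1 : ssDim k φ.range = ssDim k (Equiv.Perm (Fin n)) := ssDim_congr e.symm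
  have hcard : Nat.card φ.range = n.factorial := by
    rw [← Nat.card_congr e.toEquiv, Nat.card_eq_fintype_card, Fintype.card_perm, Fintype.card_fin]
  have hG : Nat.card (Equiv.Perm (Fin (n + 1))) = (n + 1).factorial := by
    rw [Nat.card_eq_fintype_card, Fintype.card_perm, Fintype.card_fin]
  have hidx : φ.range.index = n + 1 := by
    have h2 := φ.range.index_mul_card
    rw [hcard, hG, Nat.factorial_succ] at h2
    exact Nat.eq_of_mul_eq_mul_right n.factorial_pos h2
  have h3 := ssDim_down (k := k) φ.range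
  rw [hidx, h1] at h3
  have h4 : (n + 1) ^ 2 * B ≤ (n + 1) ^ 2 * ssDim k (Equiv.Perm (Fin n)) := (hD.trans (h k)).trans h3
  exact Nat.le_of_mul_le_mul_left h4 (by positivity)
-- END lb_down

-- BEGIN ssDim_two
/-- PROOF. `k[G × S_2] → k[G] × k[G]`, `(g, s) ↦ (g, sign s • g)`, is a surjective ring homomorphism (`2 ≠ 0`), compose with `k[G] → k[G]/J`: surjective
onto a ring with Jacobson radical zero, so it kills `Ring.jacobson (k[G × S_2])`; dimension `2 * ssDim k G`. See `ssDim_le_of_surjective` (Basic.lean). -/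
theorem ssDim_two {k G : Type} [Field k] (h2 : (2 : k) ≠ 0) [Group G] [Finite G] :
    2 * ssDim k G ≤ ssDim k (G × Equiv.Perm (Fin 2)) := by
  classical
  let sg : Equiv.Perm (Fin 2) →* k :=
    ((Int.castRingHom k : ℤ →+* k) : ℤ →* k).comp ((Units.coeHom ℤ).comp Equiv.Perm.sign)
  have hsw : sg (Equiv.swap 0 1) = -1 := by
    show ((((Equiv.Perm.sign (Equiv.swap (0 : Fin 2) 1)) : ℤˣ) : ℤ) : k) = -1
    rw [Equiv.Perm.sign_swap (by decide)]
    simp
  let φ : G × Equiv.Perm (Fin 2) →* MonoidAlgebra k G :=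
    { toFun := fun q => MonoidAlgebra.single q.1 (sg q.2)
      map_one' := by
        rw [Prod.fst_one, Prod.snd_one, map_one]
        rfl
      map_mul' := fun a b => by
        rw [MonoidAlgebra.single_mul_single, Prod.fst_mul, Prod.snd_mul, map_mul] }
  let F₁ : MonoidAlgebra k (G × Equiv.Perm (Fin 2)) →ₐ[k] MonoidAlgebra k G :=
    ind (k := k) (MonoidHom.fst G (Equiv.Perm (Fin 2)))
  let F₂ : MonoidAlgebra k (G × Equiv.Perm (Fin 2)) →ₐ[k] MonoidAlgebra k G :=
    MonoidAlgebra.lift k (MonoidAlgebra k G) (G × Equiv.Perm (Fin 2)) φ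
  let ι : MonoidAlgebra k G →ₐ[k] MonoidAlgebra k (G × Equiv.Perm (Fin 2)) :=
    ind (k := k) (MonoidHom.inl G (Equiv.Perm (Fin 2)))
  have hF₁ : ∀ g c, F₁ (single g c) = single g.1 c := fun g c => by
    simp only [F₁, ind, MonoidAlgebra.mapDomainAlgHom_apply, MonoidAlgebra.mapDomain_single]
    rfl
  have hF₂ : ∀ g c, F₂ (single g c) = c • single g.1 (sg g.2) :=
    fun g c => MonoidAlgebra.lift_single _ _ _
  have hι : ∀ g c, ι (single g c) = single (g, 1) c := fun g c => by
    simp only [ι, ind, MonoidAlgebra.mapDomainAlgHom_apply, MonoidAlgebra.mapDomain_single]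
    rfl
  have e1 : F₁.comp ι = AlgHom.id k (MonoidAlgebra k G) := by
    refine MonoidAlgebra.algHom_ext (fun g => ?_) (Subsingleton.elim _ _)
    rw [AlgHom.comp_apply, hι, hF₁, AlgHom.id_apply]
  have e2 : F₂.comp ι = AlgHom.id k (MonoidAlgebra k G) := by
    refine MonoidAlgebra.algHom_ext (fun g => ?_) (Subsingleton.elim _ _)
    rw [AlgHom.comp_apply, hι, hF₂, AlgHom.id_apply, one_smul, map_one]
  have h1 : ∀ b, F₁ (ι b) = b := fun b => DFunLike.congr_fun e1 b
  have h2' : ∀ b, F₂ (ι b) = b := fun b => DFunLike.congr_fun e2 b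
  have t1 : F₁ (single (1, Equiv.swap 0 1) 1) = 1 := by
    rw [hF₁]
    rfl
  have t2 : F₂ (single (1, Equiv.swap 0 1) 1) = -1 := by
    rw [hF₂, hsw, one_smul, MonoidAlgebra.one_def, ← MonoidAlgebra.single_neg]
  have hs1 : Function.Surjective F₁ := fun b => ⟨ι b, h1 b⟩
  have hs2 : Function.Surjective F₂ := fun b => ⟨ι b, h2' b⟩
  set U := (Ring.jacobson (MonoidAlgebra k (G × Equiv.Perm (Fin 2)))).restrictScalars k with hU
  set U' := (Ring.jacobson (MonoidAlgebra k G)).restrictScalars k with hU'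
  have hle1 : U ≤ Submodule.comap F₁.toLinearMap U' := by
    have : RingHomSurjective (F₁.toRingHom) := ⟨hs1⟩
    exact fun x hx => (Ring.le_comap_jacobson F₁.toRingHom) hx
  have hle2 : U ≤ Submodule.comap F₂.toLinearMap U' := by
    have : RingHomSurjective (F₂.toRingHom) := ⟨hs2⟩
    exact fun x hx => (Ring.le_comap_jacobson F₂.toRingHom) hx
  let Φ : MonoidAlgebra k (G × Equiv.Perm (Fin 2)) →ₗ[k]
      (MonoidAlgebra k G ⧸ U') × (MonoidAlgebra k G ⧸ U') :=
    (U'.mkQ.comp F₁.toLinearMap).prod (U'.mkQ.comp F₂.toLinearMap)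
  have hker : U ≤ LinearMap.ker Φ := by
    intro x hx
    rw [LinearMap.mem_ker]
    refine Prod.ext ?_ ?_
    · exact (Submodule.Quotient.mk_eq_zero U').2 (hle1 hx)
    · exact (Submodule.Quotient.mk_eq_zero U').2 (hle2 hx)
  have hfin : Module.finrank k ((MonoidAlgebra k G ⧸ U') × (MonoidAlgebra k G ⧸ U')) =
      2 * ssDim k G := by
    rw [Module.finrank_prod, two_mul]
    rfl
  rw [← hfin]
  show _ ≤ Module.finrank k (MonoidAlgebra k (G × Equiv.Perm (Fin 2)) ⧸ U)
  refine LinearMap.finrank_le_finrank_of_surjective (f := U.liftQ Φ hker) ?_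
  rintro ⟨x, y⟩
  obtain ⟨x, rfl⟩ := U'.mkQ_surjective x
  obtain ⟨y, rfl⟩ := U'.mkQ_surjective y
  refine ⟨U.mkQ (ι ((2 : k)⁻¹ • (x + y)) +
    ι ((2 : k)⁻¹ • (x - y)) * single (1, Equiv.swap 0 1) 1), ?_⟩
  rw [Submodule.mkQ_apply, Submodule.liftQ_apply]
  refine Prod.ext ?_ ?_
  · show U'.mkQ (F₁ _) = U'.mkQ x
    have h3 : x + y + (x - y) = (2 : k) • x := by
      rw [two_smul]
      abel
    rw [map_add, map_mul, h1, h1, t1, mul_one, ← smul_add, h3, smul_smul, inv_mul_cancel₀ h2,
      one_smul]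
  · show U'.mkQ (F₂ _) = U'.mkQ y
    have h3 : x + y + -(x - y) = (2 : k) • y := by
      rw [two_smul]
      abel
    rw [map_add, map_mul, h2', h2', t2, mul_neg, mul_one, ← smul_neg, ← smul_add, h3, smul_smul,
      inv_mul_cancel₀ h2, one_smul]
-- END ssDim_two

-- BEGIN lb_two
/-- PROOF. `ssDim_two` and the embedding of `Perm (Fin n) × Perm (Fin 2)` into `Perm (Fin (n + 2))` (end of `young_step`, Multi.lean). -/
theorem lb_two {p : ℕ} [Fact p.Prime] (hp : p ≠ 2) {n B : ℕ} (h : Lb p n B) :
    Lb p (n + 2) (2 * B) := by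
  intro k _ _
  have h2 : (2 : k) ≠ 0 := by
    intro h0
    have h1 : ((2 : ℕ) : k) = 0 := by
      push_cast
      exact h0
    exact hp ((Nat.prime_dvd_prime_iff_eq (Fact.out : p.Prime) Nat.prime_two).1
      ((CharP.cast_eq_zero_iff k p 2).1 h1))
  have h5 : ssDim k (Equiv.Perm (Fin n) × Equiv.Perm (Fin 2)) ≤
      ssDim k (Equiv.Perm (Fin n ⊕ Fin 2)) :=
    ssDim_le_of_injective (Equiv.Perm.sumCongrHom (Fin n) (Fin 2)) Equiv.Perm.sumCongrHom_injective
  have h6 : ssDim k (Equiv.Perm (Fin n ⊕ Fin 2)) = ssDim k (Equiv.Perm (Fin (n + 2))) :=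
    ssDim_congr (finSumFinEquiv.permCongrHom)
  calc 2 * B ≤ 2 * ssDim k (Equiv.Perm (Fin n)) := Nat.mul_le_mul_left _ (h k)
    _ ≤ ssDim k (Equiv.Perm (Fin n) × Equiv.Perm (Fin 2)) := ssDim_two h2
    _ ≤ ssDim k (Equiv.Perm (Fin n ⊕ Fin 2)) := h5
    _ = ssDim k (Equiv.Perm (Fin (n + 2))) := h6
-- END lb_two

-- BEGIN rank_cert
/-- PROOF. `b = ∑ ψ(g) g⁻¹`-type argument: the bilinear form `(x, y) ↦ ∑ ψ` of `x * y` on `k[G]` vanishes for `x` in the Jacobson radical (`virt_nil`, Char.lean: `x * y` is nilpotent), so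
it factors through `k[G]/J` in `x`; the matrix `ψ (g i * h j)` over `k` has a left inverse, so the classes of `g i` are linearly independent modulo `J`: if `∑ c i • g i ∈ J` then
`∑ c i ψ (g i * h j) = 0` for all `j`, so `c = 0` (`hB` says `B * A = 1` in characteristic `p`, so also `A * B = 1`). -/
theorem rank_cert {p r : ℕ} [Fact p.Prime] {k : Type} [Field k] [CharP k p] {G : Type} [Group G]
    [Fintype G] (ψ : G → ℤ) (hψ : Virt ψ) (g h : Fin r → G) (B : Fin r → Fin r → ℤ)
    (hB : ∀ l j, (p : ℤ) ∣ (∑ i, B l i * ψ (g i * h j)) - if l = j then 1 else 0) :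
    r ≤ ssDim k G := by
  classical
  set Jk : Submodule k (MonoidAlgebra k G) := (Ring.jacobson (MonoidAlgebra k G)).restrictScalars k with hJk
  have hlin : LinearIndependent k (fun i : Fin r => Jk.mkQ (MonoidAlgebra.single (g i) (1 : k))) := by
    rw [Fintype.linearIndependent_iff]
    intro c hc
    have h1 : Jk.mkQ (∑ i, c i • MonoidAlgebra.single (g i) (1 : k)) = 0 := by
      rw [map_sum, ← hc]
      exact Finset.sum_congr rfl fun i _ => by rw [map_smul]
    have h2 : (∑ i, c i • MonoidAlgebra.single (g i) (1 : k)) ∈ Ring.jacobson (MonoidAlgebra k G) := by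
      rw [Submodule.mkQ_apply, Submodule.Quotient.mk_eq_zero] at h1
      exact h1
    have h3 : ∀ j, ∑ i, c i * ((ψ (g i * h j) : ℤ) : k) = 0 := by
      intro j
      have h4 : (∑ i, c i • MonoidAlgebra.single (g i) (1 : k)) * MonoidAlgebra.single (h j) (1 : k) ∈
          Ring.jacobson (MonoidAlgebra k G) := Ideal.mul_mem_right _ _ h2
      have h5 := virt_nil (k := k) ψ hψ _ (nilpotent_of_mem_jacobson h4)
      rw [Finset.sum_mul] at h5
      rw [← h5]
      have h6 : ∀ x : G, (∑ i, c i • MonoidAlgebra.single (g i) (1 : k) * MonoidAlgebra.single (h j) (1 : k)).coeff x =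
          ∑ i, if g i * h j = x then c i else 0 := by
        intro x
        rw [MonoidAlgebra.coeff_sum, Finsupp.finsetSum_apply]
        refine Finset.sum_congr rfl fun i _ => ?_
        rw [smul_mul_assoc, MonoidAlgebra.single_mul_single, MonoidAlgebra.coeff_smul, Finsupp.smul_apply,
          MonoidAlgebra.coeff_single, Finsupp.single_apply, mul_one, smul_eq_mul, mul_ite, mul_one, mul_zero]
      symm
      refine (Finset.sum_congr rfl fun (x : G) _ => (by rw [h6 x, Finset.sum_mul] :
        (∑ i, c i • MonoidAlgebra.single (g i) (1 : k) * MonoidAlgebra.single (h j) (1 : k)).coeff x * ((ψ x : ℤ) : k) =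
          ∑ i, (if g i * h j = x then c i else 0) * ((ψ x : ℤ) : k))).trans ?_
      rw [Finset.sum_comm]
      refine Finset.sum_congr rfl fun i _ => ?_
      rw [Finset.sum_eq_single (g i * h j)]
      · rw [if_pos rfl]
      · intro x _ hx
        rw [if_neg (Ne.symm hx), zero_mul]
      · intro hx
        exact absurd (Finset.mem_univ _) hx
    -- matrices
    have hBA : (Matrix.of fun l i => ((B l i : ℤ) : k)) * (Matrix.of fun i j => ((ψ (g i * h j) : ℤ) : k)) = 1 := by
      ext l j
      rw [Matrix.mul_apply]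
      simp only [Matrix.of_apply]
      obtain ⟨q, hq⟩ := hB l j
      have h4 : ∑ i, B l i * ψ (g i * h j) = (if l = j then 1 else 0) + (p : ℤ) * q := by linarith
      have h5 := congrArg (fun z : ℤ => (z : k)) h4
      simp only [Int.cast_sum, Int.cast_mul, Int.cast_add, Int.cast_natCast, CharP.cast_eq_zero, zero_mul, add_zero] at h5
      rw [h5, Matrix.one_apply]
      split_ifs <;> simp
    have hAB := mul_eq_one_comm.1 hBA
    have h4 : Matrix.vecMul c (Matrix.of fun i j => ((ψ (g i * h j) : ℤ) : k)) = 0 := by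
      funext j
      have := h3 j
      simpa [Matrix.vecMul, dotProduct] using this
    have h5 : c = 0 := by
      have h6 := congrArg (fun M => Matrix.vecMul c M) hAB
      simp only [Matrix.vecMul_one] at h6
      rw [← h6, ← Matrix.vecMul_vecMul, h4, Matrix.zero_vecMul]
    intro i
    rw [h5]
    rfl
  have h2 := hlin.fintype_card_le_finrank
  rw [Fintype.card_fin] at h2
  exact h2
-- END rank_cert

-- BEGIN rank_alt
/-- The action on `(x, y, u)`: `g x`, `g y`, `sign g * u`. -/
private noncomputable def rank_alt_rho (n : ℕ) :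
    Equiv.Perm (Fin n) →* Equiv.Perm ((Fin n × Fin n) × ℤˣ) where
  toFun g := Equiv.prodCongr (Equiv.prodCongr g g) (Equiv.mulLeft (Equiv.Perm.sign g))
  map_one' := by
    ext w <;> simp
  map_mul' g h := by
    ext w <;> simp [mul_assoc]

private theorem rank_alt_apply (n : ℕ) (g : Equiv.Perm (Fin n)) (w : (Fin n × Fin n) × ℤˣ) :
    rank_alt_rho n g w = ((g w.1.1, g w.1.2), Equiv.Perm.sign g * w.2) := rfl

private theorem rank_alt_even (n : ℕ) (a b : Equiv.Perm (Fin n))
    (hs : Equiv.Perm.sign (a⁻¹ * b) = 1) :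
    fixc (rank_alt_rho n) (a⁻¹ * b) = 2 * (Fintype.card {x // a x = b x}) ^ 2 := by
  classical
  have hx : ∀ x, (a⁻¹ * b) x = x ↔ a x = b x := by
    intro x
    rw [Equiv.Perm.mul_apply, Equiv.Perm.inv_eq_iff_eq]
    exact eq_comm
  have e : {w // rank_alt_rho n (a⁻¹ * b) w = w} ≃
      ({x // a x = b x} × {x // a x = b x}) × ℤˣ :=
    { toFun := fun w => ((⟨w.1.1.1, (hx _).1 (by
          have := w.2
          rw [rank_alt_apply, Prod.ext_iff, Prod.ext_iff] at this
          exact this.1.1)⟩, ⟨w.1.1.2, (hx _).1 (by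
          have := w.2
          rw [rank_alt_apply, Prod.ext_iff, Prod.ext_iff] at this
          exact this.1.2)⟩), w.1.2)
      invFun := fun v => ⟨((v.1.1.1, v.1.2.1), v.2), by
          rw [rank_alt_apply, hs, one_mul]
          rw [(hx _).2 v.1.1.2, (hx _).2 v.1.2.2]⟩
      left_inv := fun w => rfl
      right_inv := fun v => rfl }
  rw [fixc, Nat.card_congr e, Nat.card_prod, Nat.card_prod, Nat.card_eq_fintype_card,
    Nat.card_eq_fintype_card]
  have h2 : Fintype.card ℤˣ = 2 := by decide
  rw [h2]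
  ring

private theorem rank_alt_odd (n : ℕ) (a : Equiv.Perm (Fin n))
    (hs : Equiv.Perm.sign a = -1) : fixc (rank_alt_rho n) a = 0 := by
  rw [fixc]
  have : IsEmpty {w // rank_alt_rho n a w = w} := by
    constructor
    rintro ⟨w, hw⟩
    rw [rank_alt_apply, hs, Prod.ext_iff] at hw
    have h1 : (-1 : ℤˣ) * w.2 = w.2 := hw.2
    have h2 : (-1 : ℤˣ) = 1 := by
      have h3 : (-1 : ℤˣ) * w.2 = 1 * w.2 := by rw [h1, one_mul]
      exact mul_right_cancel h3
    exact absurd h2 (by decide)
  exact Nat.card_of_isEmpty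

/-- PROOF. `rank_cert` for `ψ g = (1 + sign g) * (number of fixed points of g) ^ 2` (a virtual permutation character: `Fin n × Fin n`, and its product with `sign`;
`sign` is the permutation character of `S_n` on `ℤˣ` (via multiplication by `sign`) minus one), with `2 r` rows `(g i)⁻¹`, `(g i)⁻¹ τ` and columns `h j`, `τ⁻¹ h j` (`τ` a transposition): the matrix is
block diagonal with two blocks `2 * fix (g i⁻¹ * h j) ^ 2`, inverse `B / 2` (`p` odd). `fix (g⁻¹ h) = #{x | g x = h x}`. -/
theorem rank_alt {p r n : ℕ} [Fact p.Prime] (hp : p ≠ 2) (hn : 2 ≤ n) {k : Type} [Field k] [CharP k p]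
    (g h : Fin r → Equiv.Perm (Fin n)) (hg : ∀ i, Equiv.Perm.sign (g i) = 1)
    (hh : ∀ i, Equiv.Perm.sign (h i) = 1) (B : Fin r → Fin r → ℕ)
    (hB : ∀ l j, (∑ i, B l i * (Fintype.card {x // g i x = h j x}) ^ 2) % p =
      if l = j then 1 else 0) :
    2 * r ≤ ssDim k (Equiv.Perm (Fin n)) := by
  classical
  have hpr : p.Prime := Fact.out
  have hodd : p % 2 = 1 := by
    rcases hpr.eq_two_or_odd with h2 | h2
    · exact absurd h2 hp
    · exact h2
  obtain ⟨c, hc⟩ : ∃ c : ℕ, 2 * c = p + 1 := ⟨(p + 1) / 2, by omega⟩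
  -- an odd permutation
  let t : Equiv.Perm (Fin n) := Equiv.swap ⟨0, by omega⟩ ⟨1, by omega⟩
  have ht : Equiv.Perm.sign t = -1 := Equiv.Perm.sign_swap (by
    intro h0
    have := congrArg Fin.val h0
    simp at this)
  let ψ : Equiv.Perm (Fin n) → ℤ := fun x => (fixc (rank_alt_rho n) x : ℤ)
  have hψ : Virt ψ := ⟨Unit, inferInstance, fun _ => (Fin n × Fin n) × ℤˣ, fun _ => inferInstance,
    fun _ => rank_alt_rho n, fun _ => 1, fun x => by
      rw [Finset.sum_const, Finset.card_univ, Fintype.card_unit, one_smul, one_mul]⟩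
  let e : Fin 2 × Fin r ≃ Fin (2 * r) := finProdFinEquiv
  let G : Fin 2 × Fin r → Equiv.Perm (Fin n) := fun v =>
    if v.1 = 0 then (g v.2)⁻¹ else (g v.2)⁻¹ * t
  let H : Fin 2 × Fin r → Equiv.Perm (Fin n) := fun v =>
    if v.1 = 0 then h v.2 else t⁻¹ * h v.2
  let B' : Fin 2 × Fin r → Fin 2 × Fin r → ℤ := fun v w =>
    if v.1 = w.1 then (B v.2 w.2 : ℤ) * c else 0
  have hψ1 : ∀ v w : Fin 2 × Fin r, v.1 = w.1 →
      ψ (G v * H w) = 2 * ((Fintype.card {x // g v.2 x = h w.2 x}) ^ 2 : ℕ) := by
    intro v w hvw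
    have h1 : G v * H w = (g v.2)⁻¹ * h w.2 := by
      show (if v.1 = 0 then (g v.2)⁻¹ else (g v.2)⁻¹ * t) *
        (if w.1 = 0 then h w.2 else t⁻¹ * h w.2) = _
      by_cases h0 : v.1 = 0
      · rw [if_pos h0, if_pos (hvw ▸ h0)]
      · rw [if_neg h0, if_neg (hvw ▸ h0)]
        rw [mul_assoc, mul_inv_cancel_left]
    have h2 : Equiv.Perm.sign ((g v.2)⁻¹ * h w.2) = 1 := by
      rw [Equiv.Perm.sign_mul, Equiv.Perm.sign_inv, hg, hh, one_mul]
    show ((fixc (rank_alt_rho n) (G v * H w) : ℕ) : ℤ) = _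
    rw [h1, rank_alt_even n _ _ h2]
    push_cast
    ring
  have hψ0 : ∀ v w : Fin 2 × Fin r, v.1 ≠ w.1 → ψ (G v * H w) = 0 := by
    intro v w hvw
    have h2 : Equiv.Perm.sign (G v * H w) = -1 := by
      show Equiv.Perm.sign ((if v.1 = 0 then (g v.2)⁻¹ else (g v.2)⁻¹ * t) *
        (if w.1 = 0 then h w.2 else t⁻¹ * h w.2)) = -1
      by_cases h0 : v.1 = 0
      · have h0' : w.1 ≠ 0 := fun h' => hvw (h0.trans h'.symm)
        rw [if_pos h0, if_neg h0']
        simp [hg, hh, ht]
      · have h0' : w.1 = 0 := by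
          have h3 := v.1.2
          have h4 := w.1.2
          have h5 : (v.1 : ℕ) ≠ 0 := fun h' => h0 (Fin.ext h')
          have h6 : (v.1 : ℕ) ≠ (w.1 : ℕ) := fun h' => hvw (Fin.ext h')
          exact Fin.ext (by show (w.1 : ℕ) = 0; omega)
        rw [if_neg h0, if_pos h0']
        simp [hg, hh, ht]
    show ((fixc (rank_alt_rho n) (G v * H w) : ℕ) : ℤ) = 0
    rw [rank_alt_odd n _ h2]
    rfl
  refine rank_cert (p := p) (r := 2 * r) (k := k) ψ hψ (fun i => G (e.symm i))
    (fun j => H (e.symm j)) (fun l i => B' (e.symm l) (e.symm i)) ?_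
  intro l j
  have hsum : ∑ i : Fin (2 * r), B' (e.symm l) (e.symm i) * ψ (G (e.symm i) * H (e.symm j)) =
      ∑ v : Fin 2 × Fin r, B' (e.symm l) v * ψ (G v * H (e.symm j)) :=
    Equiv.sum_comp e.symm (fun v => B' (e.symm l) v * ψ (G v * H (e.symm j)))
  show (p : ℤ) ∣ (∑ i : Fin (2 * r), B' (e.symm l) (e.symm i) *
    ψ (G (e.symm i) * H (e.symm j))) - if l = j then 1 else 0
  rw [hsum]
  have hlj : (l = j) ↔ (e.symm l = e.symm j) := e.symm.injective.eq_iff.symm
  generalize hL : e.symm l = L at hlj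
  generalize hJ : e.symm j = J at hlj
  obtain ⟨a, l'⟩ := L
  obtain ⟨a', j'⟩ := J
  rw [Fintype.sum_prod_type]
  by_cases haa : a = a'
  · subst haa
    have h1 : ∀ b : Fin 2, ∑ i : Fin r, B' (a, l') (b, i) * ψ (G (b, i) * H (a, j')) =
        if b = a then (p + 1 : ℤ) *
          ((∑ i, B l' i * (Fintype.card {x // g i x = h j' x}) ^ 2 : ℕ) : ℤ) else 0 := by
      intro b
      by_cases hb : b = a
      · rw [if_pos hb]
        push_cast
        rw [Finset.mul_sum]
        refine Finset.sum_congr rfl fun i _ => ?_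
        rw [hψ1 (b, i) (a, j') hb]
        have h3 : B' (a, l') (b, i) = (B l' i : ℤ) * c := if_pos hb.symm
        rw [h3]
        have h4 : (p : ℤ) + 1 = 2 * c := by exact_mod_cast hc.symm
        rw [h4]
        push_cast
        ring
      · rw [if_neg hb]
        refine Finset.sum_eq_zero fun i _ => ?_
        rw [hψ0 (b, i) (a, j') hb, mul_zero]
    rw [Finset.sum_congr rfl fun b _ => h1 b, Finset.sum_ite_eq' Finset.univ a, if_pos (Finset.mem_univ a)]
    have h2 := hB l' j'
    have h3 : (p : ℤ) ∣ ((∑ i, B l' i * (Fintype.card {x // g i x = h j' x}) ^ 2 : ℕ) : ℤ) -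
        (if l' = j' then 1 else 0) := by
      generalize (∑ i, B l' i * (Fintype.card {x // g i x = h j' x}) ^ 2) = S at h2 ⊢
      have h4 := Nat.div_add_mod S p
      rw [h2] at h4
      refine ⟨((S / p : ℕ) : ℤ), ?_⟩
      by_cases hlj' : l' = j'
      · rw [if_pos hlj'] at h4 ⊢
        have h5 : (p : ℤ) * ((S / p : ℕ) : ℤ) + 1 = (S : ℤ) := by exact_mod_cast h4
        rw [← h5]
        ring
      · rw [if_neg hlj'] at h4 ⊢
        have h5 : (p : ℤ) * ((S / p : ℕ) : ℤ) + 0 = (S : ℤ) := by exact_mod_cast h4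
        rw [← h5]
        ring
    have h4 : (if l = j then (1 : ℤ) else 0) = if l' = j' then 1 else 0 := by
      by_cases hlj' : l' = j'
      · rw [if_pos hlj', if_pos (hlj.2 (by rw [hlj']))]
      · rw [if_neg hlj', if_neg (fun h' => hlj' (Prod.ext_iff.1 (hlj.1 h')).2)]
    rw [h4]
    have h5 : (p + 1 : ℤ) * ((∑ i, B l' i * (Fintype.card {x // g i x = h j' x}) ^ 2 : ℕ) : ℤ) -
        (if l' = j' then 1 else 0) =
        p * ((∑ i, B l' i * (Fintype.card {x // g i x = h j' x}) ^ 2 : ℕ) : ℤ) +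
        (((∑ i, B l' i * (Fintype.card {x // g i x = h j' x}) ^ 2 : ℕ) : ℤ) -
          (if l' = j' then 1 else 0)) := by ring
    rw [h5]
    exact dvd_add (dvd_mul_right _ _) h3
  · have h1 : ∀ b : Fin 2, ∑ i : Fin r, B' (a, l') (b, i) * ψ (G (b, i) * H (a', j')) = 0 := by
      intro b
      refine Finset.sum_eq_zero fun i _ => ?_
      by_cases hb : b = a'
      · have h3 : B' (a, l') (b, i) = 0 := if_neg (fun h' => haa (h'.trans hb))
        rw [h3, zero_mul]
      · rw [hψ0 (b, i) (a', j') hb, mul_zero]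
    rw [Finset.sum_eq_zero fun b _ => h1 b]
    have h4 : ¬ l = j := fun h' => haa (Prod.ext_iff.1 (hlj.1 h')).1
    rw [if_neg h4, sub_zero]
    exact dvd_zero _
-- END rank_alt

-- BEGIN pack_digits
/-- PROOF. Induction on `m`: `S = c 0 + X * (∑ c (j+1) X^j)`, `c 0 < X`. -/
theorem pack_digits (X p l m j : ℕ) (hX : 0 < X) (c : ℕ → ℕ) (hc : ∀ i < m, c i < X)
    (h : digC X p l m j (∑ i ∈ Finset.range m, c i * X ^ i) = true) (i : ℕ) (hi : i < m) :
    c i % p = if j + i = l then 1 else 0 := by
  induction m generalizing j c i with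
  | zero => omega
  | succ m ih =>
    have h0 : c 0 < X := hc 0 (Nat.succ_pos m)
    have hS : ∑ i ∈ Finset.range (m + 1), c i * X ^ i = c 0 + X * ∑ i ∈ Finset.range m, c (i + 1) * X ^ i := by
      rw [Finset.sum_range_succ', pow_zero, mul_one, add_comm, Finset.mul_sum]
      congr 1
      exact Finset.sum_congr rfl fun i _ => by ring
    rw [hS] at h
    unfold digC at h
    rw [Nat.add_mul_mod_self_left, Nat.mod_eq_of_lt h0, Nat.add_mul_div_left _ _ hX, Nat.div_eq_of_lt h0, zero_add,
      Bool.and_eq_true, beq_iff_eq] at h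
    cases i with
    | zero =>
      rw [add_zero]
      exact h.1
    | succ i =>
      have h1 := ih (j + 1) (fun i => c (i + 1)) (fun i hi => hc (i + 1) (by omega)) h.2 i (by omega)
      rw [show j + (i + 1) = j + 1 + i by omega]
      exact h1
-- END pack_digits

-- BEGIN wd_perm
private theorem wd_perm_aux (n : ℕ) (L : List (ℕ × ℕ))
    (h : L.all (fun x => Nat.blt x.1 n && Nat.blt x.2 n && !(x.1 == x.2)) = true) :
    ∃ g : Equiv.Perm (Fin n), Equiv.Perm.sign g = (-1) ^ L.length ∧
      wdC n L = List.ofFn (fun x : Fin n => ((g x : Fin n) : ℕ)) := by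
  induction L with
  | nil =>
    refine ⟨1, by simp, ?_⟩
    simp only [wdC, Equiv.Perm.coe_one, id_eq]
    apply List.ext_getElem
    · simp
    · intro i h1 h2
      simp
  | cons ab L ih =>
    obtain ⟨a, b⟩ := ab
    simp only [List.all_cons, Bool.and_eq_true] at h
    obtain ⟨⟨⟨ha, hb⟩, hab⟩, hL⟩ := h
    obtain ⟨g, hg, hw⟩ := ih hL
    have ha' : a < n := Nat.blt_eq.mp ha
    have hb' : b < n := Nat.blt_eq.mp hb
    have hab' : a ≠ b := by
      intro e
      rw [e] at hab
      simp at hab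
    refine ⟨Equiv.swap ⟨a, ha'⟩ ⟨b, hb'⟩ * g, ?_, ?_⟩
    · rw [Equiv.Perm.sign_mul, Equiv.Perm.sign_swap, hg, List.length_cons, pow_succ']
      intro e
      exact hab' (congrArg Fin.val e)
    · simp only [wdC]
      rw [hw, List.map_ofFn]
      congr 1
      funext x
      simp only [Function.comp, Equiv.Perm.coe_mul, Equiv.swap_apply_def, Fin.ext_iff]
      split_ifs <;> rfl

/-- PROOF. `g` = product of `Equiv.swap ⟨a, _⟩ ⟨b, _⟩`; `Equiv.Perm.sign_swap`, `Equiv.swap_apply_def`; induction on `L` (first without the parity,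
with `sign g = (-1) ^ L.length`). -/
theorem wd_perm (n : ℕ) (L : List (ℕ × ℕ)) (h : admC n L = true) :
    ∃ g : Equiv.Perm (Fin n), Equiv.Perm.sign g = 1 ∧
      wdC n L = List.ofFn (fun x : Fin n => ((g x : Fin n) : ℕ)) := by
  simp only [admC, Bool.and_eq_true] at h
  obtain ⟨h1, h2⟩ := h
  obtain ⟨g, hg, hw⟩ := wd_perm_aux n L h2
  refine ⟨g, ?_, hw⟩
  rw [hg]
  have : Even L.length := Nat.even_iff.mpr (by simpa using h1)
  exact this.neg_one_pow
-- END wd_perm

-- BEGIN rc_sound
private theorem rc_agC (n : ℕ) (u v : Fin n → ℕ) :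
    agC (List.ofFn u) (List.ofFn v) = ∑ x, if u x = v x then 1 else 0 := by
  induction n with
  | zero => simp [agC]
  | succ n ih =>
    rw [List.ofFn_succ, List.ofFn_succ, Fin.sum_univ_succ, agC, ih]
    simp

private theorem rc_rowC (X : ℕ) (u : List ℕ) (V : List (List ℕ)) :
    rowC X u V = ∑ j ∈ Finset.range V.length, (agC u (V.getD j [])) ^ 2 * X ^ j := by
  induction V with
  | nil => simp [rowC]
  | cons v V ih =>
    rw [List.length_cons, Finset.sum_range_succ', rowC, ih, add_comm, Finset.mul_sum]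
    congr 1
    · refine Finset.sum_congr rfl fun j _ => ?_
      simp only [List.getD_cons_succ, pow_succ]
      ring
    · simp

private theorem rc_cmbC (R : List ℕ) : ∀ b : ℕ,
    cmbC b R = ∑ i ∈ Finset.range R.length, (b / 4 ^ i % 4) * R.getD i 0 := by
  induction R with
  | nil => intro b; simp [cmbC]
  | cons x R ih =>
    intro b
    rw [List.length_cons, Finset.sum_range_succ', cmbC, ih, add_comm]
    congr 1
    · refine Finset.sum_congr rfl fun j _ => ?_
      simp only [List.getD_cons_succ, pow_succ', Nat.div_div_eq_div_mul]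
    · simp

private theorem rc_invC (X p r : ℕ) (R : List ℕ) (Bs : List ℕ) : ∀ l : ℕ,
    invC X p r R l Bs = true → ∀ i < Bs.length, digC X p (l + i) r 0 (cmbC (Bs.getD i 0) R) = true := by
  induction Bs with
  | nil => intro l _ i hi; simp at hi
  | cons b Bs ih =>
    intro l h i hi
    simp only [invC, Bool.and_eq_true] at h
    rcases i with _ | i
    · simpa using h.1
    · have := ih (l + 1) h.2 i (by simpa using hi)
      rw [show l + (i + 1) = l + 1 + i by ring]
      simpa using this

private theorem rc_perm (n : ℕ) (U : List (List (ℕ × ℕ) × List ℕ))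
    (h : U.all (fun x => admC n x.1 && (wdC n x.1 == x.2)) = true) (i : Fin U.length) :
    ∃ g : Equiv.Perm (Fin n), Equiv.Perm.sign g = 1 ∧
      (U.get i).2 = List.ofFn (fun x : Fin n => ((g x : Fin n) : ℕ)) := by
  rw [List.all_eq_true] at h
  have := h (U.get i) (List.get_mem U i)
  simp only [Bool.and_eq_true, beq_iff_eq] at this
  obtain ⟨g, hg, hw⟩ := wd_perm n _ this.1
  exact ⟨g, hg, by rw [← this.2, hw]⟩

/-- PROOF. `rank_alt` with `g i`, `h j` from `wd_perm`, `B l i` = digit `i` in base four of `Bs[l]`; `agC` of the two words is `Fintype.card {x // g i x = h j x}`;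
`cmbC b R = ∑ j, (∑ i, B i * A i j) * X ^ j` with `X = 2 ^ 16`, all coefficients at most `3 r n² < X`; `pack_digits` with `j = 0`. -/
theorem rc_sound {p : ℕ} [Fact p.Prime] (hp : p ≠ 2) (n r : ℕ) (hn : 2 ≤ n)
    (U V : List (List (ℕ × ℕ) × List ℕ)) (R Bs : List ℕ) (h : rcC p n r U V R Bs = true) :
    Lb p n (2 * r) := by
  intro k _ _
  unfold rcC at h
  simp only [Bool.and_eq_true] at h
  obtain ⟨⟨⟨⟨⟨⟨⟨hUl, hVl⟩, hBl⟩, hble⟩, hU⟩, hV⟩, hR⟩, hinv⟩ := h
  have hUl' : U.length = r := by simpa using hUl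
  have hVl' : V.length = r := by simpa using hVl
  have hBl' : Bs.length = r := by simpa using hBl
  have hble' : 3 * r * n ^ 2 + 1 ≤ 2 ^ 16 := Nat.ble_eq.mp hble
  have hR' : R = U.map (fun x => rowC (2 ^ 16) x.2 (V.map Prod.snd)) := by
    simpa only [beq_iff_eq] using hR
  generalize 2 ^ 16 = X at *
  have hg : ∀ i : Fin r, ∃ g : Equiv.Perm (Fin n), Equiv.Perm.sign g = 1 ∧
      ((U.map Prod.snd).getD i []) = List.ofFn (fun x : Fin n => ((g x : Fin n) : ℕ)) := by
    intro i
    obtain ⟨g, h1, h2⟩ := rc_perm n U hU ⟨i, by rw [hUl']; exact i.2⟩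
    refine ⟨g, h1, ?_⟩
    rw [← h2]
    have hi : (i : ℕ) < U.length := by rw [hUl']; exact i.2
    simp [List.getD_eq_getElem?_getD, hi]
  have hh : ∀ i : Fin r, ∃ g : Equiv.Perm (Fin n), Equiv.Perm.sign g = 1 ∧
      ((V.map Prod.snd).getD i []) = List.ofFn (fun x : Fin n => ((g x : Fin n) : ℕ)) := by
    intro i
    obtain ⟨g, h1, h2⟩ := rc_perm n V hV ⟨i, by rw [hVl']; exact i.2⟩
    refine ⟨g, h1, ?_⟩
    rw [← h2]
    have hi : (i : ℕ) < V.length := by rw [hVl']; exact i.2
    simp [List.getD_eq_getElem?_getD, hi]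
  choose g hg1 hg2 using hg
  choose f hf1 hf2 using hh
  have hag : ∀ i j : Fin r, agC ((U.map Prod.snd).getD i []) ((V.map Prod.snd).getD j []) =
      Fintype.card {x // g i x = f j x} := by
    intro i j
    rw [hg2, hf2, rc_agC, Fintype.card_subtype, Finset.card_filter]
    refine Finset.sum_congr rfl fun x _ => ?_
    simp only [Fin.ext_iff]
  refine rank_alt hp hn g f hg1 hf1 (fun l i => Bs.getD l 0 / 4 ^ (i : ℕ) % 4) ?_
  intro l j
  have hd := rc_invC X p r R Bs 0 hinv l (by rw [hBl']; exact l.2)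
  rw [zero_add] at hd
  set c : ℕ → ℕ := fun j => ∑ i ∈ Finset.range r, (Bs.getD l 0 / 4 ^ i % 4) *
    (agC ((U.map Prod.snd).getD i []) ((V.map Prod.snd).getD j [])) ^ 2 with hc
  have hcomb : cmbC (Bs.getD l 0) R = ∑ j ∈ Finset.range r, c j * X ^ j := by
    rw [rc_cmbC, hR', List.length_map, hUl']
    have e1 : ∀ i ∈ Finset.range r, (Bs.getD l 0 / 4 ^ i % 4) *
        (U.map (fun x => rowC X x.2 (V.map Prod.snd))).getD i 0 =
        ∑ j ∈ Finset.range r, (Bs.getD l 0 / 4 ^ i % 4) *
          ((agC ((U.map Prod.snd).getD i []) ((V.map Prod.snd).getD j [])) ^ 2 * X ^ j) := by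
      intro i hi
      have hi' : i < U.length := by rw [hUl']; exact Finset.mem_range.mp hi
      have e2 : (U.map (fun x => rowC X x.2 (V.map Prod.snd))).getD i 0 =
          rowC X ((U.map Prod.snd).getD i []) (V.map Prod.snd) := by
        simp [List.getD_eq_getElem?_getD, hi']
      rw [e2, rc_rowC, List.length_map, hVl', Finset.mul_sum]
    rw [Finset.sum_congr rfl e1, Finset.sum_comm]
    refine Finset.sum_congr rfl fun j _ => ?_
    rw [hc, Finset.sum_mul]
    refine Finset.sum_congr rfl fun i _ => ?_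
    ring
  rw [hcomb] at hd
  have hcX : ∀ j < r, c j < X := by
    intro j hj
    have h1 : c j ≤ ∑ i ∈ Finset.range r, 3 * n ^ 2 := by
      refine Finset.sum_le_sum fun i hi => ?_
      have h2 : agC ((U.map Prod.snd).getD i []) ((V.map Prod.snd).getD j []) ≤ n := by
        have := hag ⟨i, Finset.mem_range.mp hi⟩ ⟨j, hj⟩
        simp only at this
        rw [this]
        refine (Fintype.card_subtype_le _).trans ?_
        rw [Fintype.card_fin]
      exact Nat.mul_le_mul (by omega) (Nat.pow_le_pow_left h2 2)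
    rw [Finset.sum_const, Finset.card_range, smul_eq_mul] at h1
    have : 3 * r * n ^ 2 = r * (3 * n ^ 2) := by ring
    omega
  have hX : 0 < X := by omega
  have := pack_digits X p l r 0 hX c hcX hd j j.2
  rw [zero_add] at this
  have e3 : (∑ i : Fin r, Bs.getD l 0 / 4 ^ (i : ℕ) % 4 * Fintype.card {x // g i x = f j x} ^ 2) = c j := by
    have e4 : c j = ∑ i ∈ Finset.range r, (Bs.getD l 0 / 4 ^ i % 4) *
      (agC ((U.map Prod.snd).getD i []) ((V.map Prod.snd).getD j [])) ^ 2 := rfl
    rw [e4, ← Fin.sum_univ_eq_sum_range (fun i => (Bs.getD l 0 / 4 ^ i % 4) *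
      (agC ((U.map Prod.snd).getD i []) ((V.map Prod.snd).getD j [])) ^ 2) r]
    refine Finset.sum_congr rfl fun i _ => ?_
    rw [hag]
  rw [e3, this]
  simp only [Fin.ext_iff, eq_comm]
-- END rc_sound

end Pool.Agent.Wil
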