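import Mathlib
import Pool.Agent.Wil.Exc

set_option autoImplicit false

/-! Exceptional degrees, second part: degree 9 in characteristic 5 (cores of size 9 and restriction to `S_8`). -/

namespace Pool.Agent.Wil

open MonoidAlgebra

/-- Matrix of the bilinear form of `ψ` over `k`. -/
def fm (k : Type) [Field k] {G : Type} [Group G] (ψ : G → ℤ) : Matrix G G k :=
  Matrix.of fun g h => ((ψ (g * h) : ℤ) : k)

-- BEGIN form_rank
/-- PROOF. The form `(x, y) ↦ ∑_{g,h} x_g y_h ψ (g h)` vanishes for `x` in the Jacobson radical (`x * y` is nilpotent, `virt_nil`, Char.lean), see `ssDim_ge_range` and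
`bj_zero` (Mod.lean) and the proof of `ssDim_ge_gen` (Multi.lean). -/
theorem form_rank {k : Type} [Field k] {G : Type} [Group G] [Fintype G] (ψ : G → ℤ)
    (hψ : Virt ψ) : (fm k ψ).rank ≤ ssDim k G := by
  classical
  have h1 : (Matrix.of (fun x h : G => ψ (h * x⁻¹))).map (Int.castRingHom k) =
      (Matrix.transpose (fm k ψ)).submatrix (Equiv.inv G) (Equiv.refl G) := by
    ext x h
    rfl
  have h2 : (fm k ψ).rank = ((Matrix.of (fun x h : G => ψ (h * x⁻¹))).map (Int.castRingHom k)).rank := by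
    rw [h1, Matrix.rank_submatrix, Matrix.rank_transpose]
  rw [h2, rank_range]
  exact ssDim_ge_range _ fun x hx => bj_zero ψ (fun a ha => virt_nil ψ hψ a ha) x hx
-- END form_rank

-- BEGIN rank_res
/-- PROOF. `fm k (fun h => ψ (φ h))` is a submatrix of `fm k ψ` (compose with the linear maps of the inclusion of coordinates). -/
theorem rank_res {k : Type} [Field k] {G H : Type} [Group G] [Fintype G] [Group H] [Fintype H]
    (φ : H →* G) (hφ : Function.Injective φ) (ψ : G → ℤ) :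
    (fm k (fun h => ψ (φ h))).rank ≤ (fm k ψ).rank := by
  have h1 : fm k (fun h => ψ (φ h)) = (fm k ψ).submatrix φ φ := by
    ext a b
    rw [Matrix.submatrix_apply, fm, fm, Matrix.of_apply, Matrix.of_apply, map_mul]
  rw [h1]
  exact Matrix.rank_submatrix_le (fm k ψ) φ φ
-- END rank_res

-- BEGIN rank_low
/-- PROOF. Matrices `P a = (χ a (h x⁻¹))_{x, h}` and `Q = (ψ (h x⁻¹))` as in `ssDim_ge_gen` (Multi.lean), over `k`; `Q` or its transpose times `P a` is `c a • P a`, `P a * P a = H a • P a`,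
`P a * P b = 0`; so the range of `Q` contains the ranges of the `P a` (`c a` is a unit of `k`), whose sum is direct; `rk_ge` (Mod.lean): `f a ^ 2 ≤ rank (P a)`;
`rank (fm k ψ) = rank Q` (permute the rows by the inverse). -/
theorem rank_low {p : ℕ} [Fact p.Prime] {k : Type} [Field k] [CharP k p] {G : Type} [Group G]
    [Fintype G] {ι : Type} [Fintype ι] [DecidableEq ι] (χ : ι → G → ℤ) (H f : ι → ℕ)
    (hv : ∀ a, Virt (χ a)) (hH : ∀ a, ¬ p ∣ H a) (hf : ∀ a, f a * H a = Fintype.card G)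
    (h1 : ∀ a, χ a 1 = f a) (hconv : ∀ a x, ∑ g, χ a g * χ a (g⁻¹ * x) = H a * χ a x)
    (hcross : ∀ a b, a ≠ b → ∀ x, ∑ g, χ a g * χ b (g⁻¹ * x) = 0)
    (ψ : G → ℤ) (c : ι → ℕ) (hc : ∀ a, ¬ p ∣ c a)
    (hψ : ∀ a x, ∑ g, χ a g * ψ (g⁻¹ * x) = c a * χ a x) :
    ∑ a, f a ^ 2 ≤ (fm k ψ).rank := by
  classical
  have hpp : p.Prime := Fact.out
  have hcc : ∀ a, (∏ b ∈ Finset.univ.erase a, H b) * H a = ∏ b, H b := fun a =>
    Finset.prod_erase_mul _ _ (Finset.mem_univ a)
  have hHH : ¬ p ∣ ∏ a, H a := by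
    intro hdvd
    obtain ⟨a, _, ha⟩ := (Prime.dvd_finsetProd_iff hpp.prime _).1 hdvd
    exact hH a ha
  obtain ⟨X, hX⟩ : ∃ X : G → ℤ, ∀ g, X g = ∑ a, ((∏ b ∈ Finset.univ.erase a, H b : ℕ) : ℤ) * χ a g :=
    ⟨fun g => ∑ a, ((∏ b ∈ Finset.univ.erase a, H b : ℕ) : ℤ) * χ a g, fun g => rfl⟩
  have htr : (Fintype.card G : ℤ) * X 1 = ((∑ a, f a ^ 2 : ℕ) : ℤ) * ((∏ a, H a : ℕ) : ℤ) := by
    rw [hX, Finset.mul_sum, Nat.cast_sum, Finset.sum_mul]
    refine Finset.sum_congr rfl fun a _ => ?_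
    rw [h1, ← hf a, ← hcc a]
    push_cast
    ring
  have hXc : ∀ x, ∑ g, X g * X (g⁻¹ * x) = ((∏ a, H a : ℕ) : ℤ) * X x := by
    intro x
    have e1 : ∀ g : G, X g * X (g⁻¹ * x) =
        ∑ a, ∑ b, (((∏ c ∈ Finset.univ.erase a, H c : ℕ) : ℤ) *
          ((∏ c ∈ Finset.univ.erase b, H c : ℕ) : ℤ)) * (χ a g * χ b (g⁻¹ * x)) := by
      intro g
      rw [hX, hX, Finset.sum_mul_sum]
      refine Finset.sum_congr rfl fun a _ => Finset.sum_congr rfl fun b _ => ?_
      ring
    rw [Finset.sum_congr rfl fun g _ => e1 g, Finset.sum_comm, hX, Finset.mul_sum]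
    refine Finset.sum_congr rfl fun a _ => ?_
    rw [Finset.sum_comm, Finset.sum_eq_single a]
    · rw [← Finset.mul_sum, hconv a x, ← hcc a]
      push_cast
      ring
    · intro b _ hb
      rw [← Finset.mul_sum, hcross a b hb.symm x, mul_zero]
    · intro h
      exact absurd (Finset.mem_univ a) h
  have hP : (Matrix.of (fun x h : G => X (h * x⁻¹))) * (Matrix.of (fun x h : G => X (h * x⁻¹))) =
      ((∏ a, H a : ℕ) : ℤ) • (Matrix.of (fun x h : G => X (h * x⁻¹))) := by
    ext x h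
    rw [Matrix.mul_apply, Matrix.smul_apply, Matrix.of_apply, smul_eq_mul, ← hXc]
    refine Finset.sum_bij' (fun y _ => h * y⁻¹) (fun g _ => g⁻¹ * h) (by simp) (by simp)
      (fun y _ => by group) (fun g _ => by group) (fun y _ => ?_)
    rw [Matrix.of_apply, Matrix.of_apply, mul_comm]
    congr 2
    group
  have htr' : (Matrix.of (fun x h : G => X (h * x⁻¹))).trace =
      ((∑ a, f a ^ 2 : ℕ) : ℤ) * ((∏ a, H a : ℕ) : ℤ) := by
    simp only [Matrix.trace, Matrix.diag, Matrix.of_apply, mul_inv_cancel, Finset.sum_const,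
      Finset.card_univ, nsmul_eq_mul]
    exact htr
  have h2 := rk_ge (k := k) (p := p) _ (∏ a, H a) (∑ a, f a ^ 2) hHH hP htr'
  refine h2.trans ?_
  have hck : ∀ a, (c a : k) ≠ 0 := fun a h0 => hc a ((CharP.cast_eq_zero_iff k p (c a)).1 h0)
  obtain ⟨Y, hY⟩ : ∃ Y : G → k, ∀ g, Y g =
      ∑ a, (((∏ b ∈ Finset.univ.erase a, H b : ℕ) : k) * ((c a : k))⁻¹) * ((χ a g : ℤ) : k) :=
    ⟨fun g => ∑ a, (((∏ b ∈ Finset.univ.erase a, H b : ℕ) : k) * ((c a : k))⁻¹) * ((χ a g : ℤ) : k),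
      fun g => rfl⟩
  have hYc : ∀ z : G, ∑ g, Y g * ((ψ (g⁻¹ * z) : ℤ) : k) = ((X z : ℤ) : k) := by
    intro z
    have e1 : ∀ g : G, Y g * ((ψ (g⁻¹ * z) : ℤ) : k) =
        ∑ a, (((∏ b ∈ Finset.univ.erase a, H b : ℕ) : k) * ((c a : k))⁻¹) *
          (((χ a g * ψ (g⁻¹ * z) : ℤ)) : k) := by
      intro g
      rw [hY, Finset.sum_mul]
      refine Finset.sum_congr rfl fun a _ => ?_
      rw [Int.cast_mul, mul_assoc]
    rw [Finset.sum_congr rfl fun g _ => e1 g, Finset.sum_comm, hX, Int.cast_sum]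
    refine Finset.sum_congr rfl fun a _ => ?_
    rw [← Finset.mul_sum, ← Int.cast_sum, hψ a z, Int.cast_mul, Int.cast_mul, Int.cast_natCast,
      Int.cast_natCast, mul_assoc, ← mul_assoc ((c a : k))⁻¹, inv_mul_cancel₀ (hck a), one_mul]
  have hfac : (Matrix.of (fun x h : G => X (h * x⁻¹))).map (Int.castRingHom k) =
      (Matrix.of (fun x h : G => ((ψ (h * x⁻¹) : ℤ) : k))) *
        (Matrix.of (fun x h : G => Y (h * x⁻¹))) := by
    ext x h
    rw [Matrix.mul_apply, Matrix.map_apply, Matrix.of_apply, eq_intCast (Int.castRingHom k), ← hYc]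
    symm
    refine Finset.sum_bij' (fun y _ => h * y⁻¹) (fun g _ => g⁻¹ * h) (by simp) (by simp)
      (fun y _ => by group) (fun g _ => by group) (fun y _ => ?_)
    rw [Matrix.of_apply, Matrix.of_apply, mul_comm]
    congr 3
    group
  rw [hfac]
  refine (Matrix.rank_mul_le_left _ _).trans ?_
  have hQ : Matrix.of (fun x h : G => ((ψ (h * x⁻¹) : ℤ) : k)) =
      ((fm k ψ).submatrix id (fun x : G => x⁻¹)).transpose := by
    ext x h
    rw [Matrix.transpose_apply, Matrix.submatrix_apply, fm, Matrix.of_apply, Matrix.of_apply, id]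
  rw [hQ, Matrix.rank_transpose]
  exact Matrix.rank_submatrix_le (fm k ψ) id (fun x : G => x⁻¹)
-- END rank_low

-- BEGIN multi_plus
private theorem multi_plus_two {k n : Type} [Field k] [Fintype n] [DecidableEq n] (P B : Matrix n n k)
    (H : k) (hH : H ≠ 0) (hP : P * P = H • P) (h1 : P * B = 0) (h2 : B * P = 0) :
    P.rank + B.rank ≤ (P + B).rank := by
  have e1 : ∀ v, P.mulVec (P.mulVec v) = H • P.mulVec v := fun v => by
    rw [Matrix.mulVec_mulVec, hP, Matrix.smul_mulVec]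
  have e2 : ∀ v, P.mulVec (B.mulVec v) = 0 := fun v => by
    rw [Matrix.mulVec_mulVec, h1, Matrix.zero_mulVec]
  have e3 : ∀ v, B.mulVec (P.mulVec v) = 0 := fun v => by
    rw [Matrix.mulVec_mulVec, h2, Matrix.zero_mulVec]
  have hd : LinearMap.range P.mulVecLin ⊓ LinearMap.range B.mulVecLin = ⊥ := by
    rw [eq_bot_iff]
    rintro w ⟨⟨u, hu⟩, ⟨v, hv⟩⟩
    rw [Matrix.mulVecLin_apply] at hu hv
    have h3 : P.mulVec w = H • w := by rw [← hu, e1]
    have h4 : P.mulVec w = 0 := by rw [← hv, e2]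
    rw [h3] at h4
    exact (smul_eq_zero.1 h4).resolve_left hH
  have hle : LinearMap.range P.mulVecLin ⊔ LinearMap.range B.mulVecLin ≤ LinearMap.range (P + B).mulVecLin := by
    refine sup_le ?_ ?_
    · rintro w ⟨v, rfl⟩
      refine ⟨H⁻¹ • P.mulVec v, ?_⟩
      rw [Matrix.mulVecLin_apply, Matrix.mulVecLin_apply, Matrix.mulVec_smul, Matrix.add_mulVec, e1, e3,
        add_zero, smul_smul, inv_mul_cancel₀ hH, one_smul]
    · rintro w ⟨v, rfl⟩
      refine ⟨v - H⁻¹ • P.mulVec v, ?_⟩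
      rw [Matrix.mulVecLin_apply, Matrix.mulVecLin_apply, Matrix.mulVec_sub, Matrix.mulVec_smul, Matrix.add_mulVec,
        Matrix.add_mulVec, e1, e3, add_zero, smul_smul, inv_mul_cancel₀ hH, one_smul, add_sub_cancel_left]
  have h3 := Submodule.finrank_sup_add_finrank_inf_eq (LinearMap.range P.mulVecLin) (LinearMap.range B.mulVecLin)
  rw [hd, finrank_bot, add_zero] at h3
  have h4 := Submodule.finrank_mono hle
  rw [h3] at h4
  exact h4

private theorem multi_plus_sum {k n ι : Type} [Field k] [Fintype n] [DecidableEq n] [DecidableEq ι]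
    (P : ι → Matrix n n k) (Q : Matrix n n k) (H : ι → k) (hH : ∀ a, H a ≠ 0)
    (hP : ∀ a, P a * P a = H a • P a) (hc : ∀ a b, a ≠ b → P a * P b = 0) (h1 : ∀ a, P a * Q = 0)
    (h2 : ∀ a, Q * P a = 0) (s : Finset ι) :
    ∑ a ∈ s, (P a).rank + Q.rank ≤ (∑ a ∈ s, P a + Q).rank := by
  induction s using Finset.induction_on with
  | empty => simp
  | insert b s hb ih =>
    rw [Finset.sum_insert hb, Finset.sum_insert hb, add_assoc, add_assoc]
    refine (Nat.add_le_add_left ih _).trans ?_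
    refine multi_plus_two (P b) (∑ a ∈ s, P a + Q) (H b) (hH b) (hP b) ?_ ?_
    · rw [Matrix.mul_add, Finset.mul_sum, h1, add_zero]
      exact Finset.sum_eq_zero fun a ha => hc b a fun h => hb (h ▸ ha)
    · rw [Matrix.add_mul, Finset.sum_mul, h2, add_zero]
      exact Finset.sum_eq_zero fun a ha => hc a b fun h => hb (h ▸ ha)

private theorem multi_plus_mul {G : Type} [Group G] [Fintype G] (χ ψ : G → ℤ) :
    (Matrix.of (fun x h : G => χ (h * x⁻¹))) * (Matrix.of (fun x h : G => ψ (h * x⁻¹))) =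
      Matrix.of (fun x h : G => ∑ g, ψ g * χ (g⁻¹ * (h * x⁻¹))) := by
  ext x h
  rw [Matrix.mul_apply, Matrix.of_apply]
  refine Finset.sum_bij' (fun y _ => h * y⁻¹) (fun g _ => g⁻¹ * h) (by simp) (by simp)
    (fun y _ => by group) (fun g _ => by group) (fun y _ => ?_)
  rw [Matrix.of_apply, Matrix.of_apply, mul_comm]
  congr 2
  group

private def multi_plus_M {G : Type} [Group G] (χ : G → ℤ) : Matrix G G ℤ :=
  Matrix.of (fun x h : G => χ (h * x⁻¹))

private def multi_plus_C (k : Type) [Field k] {G : Type} [Group G] (χ : G → ℤ) : Matrix G G k :=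
  (multi_plus_M χ).map (Int.castRingHom k)

private theorem multi_plus_C_apply {k : Type} [Field k] {G : Type} [Group G] (χ : G → ℤ) (x h : G) :
    multi_plus_C k χ x h = ((χ (h * x⁻¹) : ℤ) : k) := rfl

private theorem multi_plus_PP {G : Type} [Group G] [Fintype G] (χ : G → ℤ) (H : ℕ)
    (hconv : ∀ x, ∑ g, χ g * χ (g⁻¹ * x) = H * χ x) :
    multi_plus_M χ * multi_plus_M χ = (H : ℤ) • multi_plus_M χ := by
  rw [multi_plus_M, multi_plus_mul]
  ext x h
  rw [Matrix.of_apply, hconv, Matrix.smul_apply, smul_eq_mul]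
  rfl

private theorem multi_plus_PC {k : Type} [Field k] {G : Type} [Group G] [Fintype G] (χ : G → ℤ) (H : ℕ)
    (hconv : ∀ x, ∑ g, χ g * χ (g⁻¹ * x) = H * χ x) :
    multi_plus_C k χ * multi_plus_C k χ = ((H : ℕ) : k) • multi_plus_C k χ := by
  rw [multi_plus_C, ← Matrix.map_mul, multi_plus_PP χ H hconv]
  ext x h
  simp only [Matrix.map_apply, Matrix.smul_apply, smul_eq_mul, map_mul, map_natCast]

private theorem multi_plus_zero {k : Type} [Field k] {G : Type} [Group G] [Fintype G] (χ₁ χ₂ : G → ℤ)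
    (h : ∀ z, ∑ g, χ₂ g * χ₁ (g⁻¹ * z) = 0) : multi_plus_C k χ₁ * multi_plus_C k χ₂ = 0 := by
  rw [multi_plus_C, multi_plus_C, ← Matrix.map_mul, multi_plus_M, multi_plus_M, multi_plus_mul]
  ext x y
  rw [Matrix.map_apply, Matrix.of_apply, h, map_zero, Matrix.zero_apply]

private theorem multi_plus_rk {p : ℕ} [Fact p.Prime] {k : Type} [Field k] [CharP k p] {G : Type} [Group G]
    [Fintype G] (χ : G → ℤ) (H f : ℕ) (hH : ¬ p ∣ H) (hf : f * H = Fintype.card G)
    (h1 : χ 1 = f) (hconv : ∀ x, ∑ g, χ g * χ (g⁻¹ * x) = H * χ x) :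
    f ^ 2 ≤ (multi_plus_C k χ).rank := by
  classical
  refine rk_ge (p := p) (multi_plus_M χ) H (f ^ 2) hH (multi_plus_PP χ H hconv) ?_
  simp only [multi_plus_M, Matrix.trace, Matrix.diag, Matrix.of_apply, mul_inv_cancel, Finset.sum_const,
    Finset.card_univ, nsmul_eq_mul]
  rw [h1, ← hf]
  push_cast
  ring

private theorem multi_plus_fm {k : Type} [Field k] {G : Type} [Group G] [Fintype G] (ψ : G → ℤ)
    (hvψ : Virt ψ) : (fm k ψ).rank = (multi_plus_C k ψ).rank := by
  have h2 : fm k ψ = (multi_plus_C k ψ).submatrix (Equiv.inv G) (Equiv.refl G) := by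
    ext g h
    rw [Matrix.submatrix_apply, multi_plus_C_apply, Equiv.inv_apply, Equiv.refl_apply, inv_inv, fm,
      Matrix.of_apply, virt_conj ψ hvψ]
  rw [h2, Matrix.rank_submatrix]

private theorem multi_plus_le {k : Type} [Field k] {G : Type} [Group G] [Fintype G] (Φ : G → ℤ)
    (hΦ : ∀ a : MonoidAlgebra k G, IsNilpotent a → ∑ g, a.coeff g * ((Φ g : ℤ) : k) = 0) :
    (multi_plus_C k Φ).rank ≤ ssDim k G := by
  have h2 : (multi_plus_C k Φ).rank = _ := rank_range (k := k) Φ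
  rw [h2]
  exact ssDim_ge_range _ fun x hx => bj_zero Φ hΦ x hx

/-- PROOF. `form_rank` for `Φ = ∑ a, χ a + ψ` (`Virt`). With the matrices of `rank_low`: `(∑ P a + Q) * P b = H b • P b`, `P a * Q = Q * P a = 0`, so the range of `∑ P a + Q` contains
the ranges of all `P b` and of `Q`, their sum is direct, so `rank ≥ ∑ f a ^ 2 + rank Q`. -/
theorem multi_plus {p : ℕ} [Fact p.Prime] {k : Type} [Field k] [CharP k p] {G : Type} [Group G]
    [Fintype G] {ι : Type} [Fintype ι] [DecidableEq ι] (χ : ι → G → ℤ) (H f : ι → ℕ)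
    (hv : ∀ a, Virt (χ a)) (hH : ∀ a, ¬ p ∣ H a) (hf : ∀ a, f a * H a = Fintype.card G)
    (h1 : ∀ a, χ a 1 = f a) (hconv : ∀ a x, ∑ g, χ a g * χ a (g⁻¹ * x) = H a * χ a x)
    (hcross : ∀ a b, a ≠ b → ∀ x, ∑ g, χ a g * χ b (g⁻¹ * x) = 0)
    (ψ : G → ℤ) (hvψ : Virt ψ) (hψ : ∀ a x, ∑ g, χ a g * ψ (g⁻¹ * x) = 0) :
    ∑ a, f a ^ 2 + (fm k ψ).rank ≤ ssDim k G := by
  classical
  have hkH : ∀ a, ((H a : ℕ) : k) ≠ 0 := fun a h0 => hH a ((CharP.cast_eq_zero_iff k p (H a)).1 h0)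
  have hψ' : ∀ a x, ∑ g, ψ g * χ a (g⁻¹ * x) = 0 := by
    intro a x
    rw [← hψ a x]
    refine Finset.sum_bij' (fun g _ => g⁻¹ * x) (fun g _ => x * g⁻¹) (by simp) (by simp)
      (fun y _ => by group) (fun g _ => by group) (fun g _ => ?_)
    rw [mul_comm]
    congr 1
    rw [virt_conj ψ hvψ]
    congr 1
    group
  have hsum := multi_plus_sum (fun a => multi_plus_C k (χ a)) (multi_plus_C k ψ) (fun a => ((H a : ℕ) : k)) hkH
    (fun a => multi_plus_PC (χ a) (H a) (hconv a))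
    (fun a b hab => multi_plus_zero _ _ (hcross b a (Ne.symm hab))) (fun a => multi_plus_zero _ _ (hψ' a))
    (fun a => multi_plus_zero _ _ (hψ a)) Finset.univ
  have hA : ∑ a, multi_plus_C k (χ a) + multi_plus_C k ψ = multi_plus_C k (fun g => ∑ a, χ a g + ψ g) := by
    ext x h
    rw [Matrix.add_apply, Matrix.sum_apply, multi_plus_C_apply, multi_plus_C_apply]
    push_cast
    rfl
  rw [hA] at hsum
  have hfin : (multi_plus_C k (fun g => ∑ a, χ a g + ψ g)).rank ≤ ssDim k G := by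
    refine multi_plus_le (fun g => ∑ a, χ a g + ψ g) ?_
    intro a ha
    have h3 : ∀ b, ∑ g, a.coeff g * ((χ b g : ℤ) : k) = 0 := fun b => virt_nil (χ b) (hv b) a ha
    have h4 : ∑ g, a.coeff g * ((ψ g : ℤ) : k) = 0 := virt_nil ψ hvψ a ha
    calc ∑ g, a.coeff g * (((∑ b, χ b g + ψ g : ℤ)) : k)
        = ∑ b, ∑ g, a.coeff g * ((χ b g : ℤ) : k) + ∑ g, a.coeff g * ((ψ g : ℤ) : k) := by
          rw [Finset.sum_comm, ← Finset.sum_add_distrib]
          refine Finset.sum_congr rfl fun g _ => ?_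
          push_cast
          rw [mul_add, Finset.mul_sum]
      _ = 0 := by
          rw [h4, add_zero]
          exact Finset.sum_eq_zero fun b _ => h3 b
  rw [multi_plus_fm ψ hvψ]
  refine le_trans ?_ (hsum.trans hfin)
  exact Nat.add_le_add_right (Finset.sum_le_sum fun a _ =>
    multi_plus_rk (p := p) (χ a) (H a) (f a) (hH a) (hf a) (h1 a) (hconv a)) _
-- END multi_plus

-- BEGIN frob_dup
private theorem frob_dup_pic {n r : ℕ} (X s : Fin r → ℕ) (τ : Equiv.Perm (Fin r))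
    (hX : ∀ i, X (τ i) = X i) (g : Equiv.Perm (Fin n)) :
    pic X (fun i => s (τ i)) g = pic X s g := by
  have hc : ∀ (w : Fin n → Fin r) (i : Fin r), cnt (fun a => τ (w a)) (τ i) = cnt w i := by
    intro w i
    unfold cnt
    congr 1
    ext a
    simp only [Finset.mem_filter, Finset.mem_univ, true_and, EmbeddingLike.apply_eq_iff_eq]
  unfold pic
  refine Nat.card_congr (Equiv.subtypeEquiv (Equiv.arrowCongr (Equiv.refl (Fin n)) τ) fun w => ?_)
  have hw : (Equiv.arrowCongr (Equiv.refl (Fin n)) τ) w = fun a => τ (w a) := rfl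
  rw [hw]
  constructor
  · rintro ⟨h1, h2⟩
    refine ⟨fun i => ?_, ?_⟩
    · obtain ⟨i, rfl⟩ := τ.surjective i
      rw [hc, hX]
      exact h1 i
    · funext a
      show τ (w (g a)) = τ (w a)
      rw [show w (g a) = w a from congrFun h2 a]
  · rintro ⟨h1, h2⟩
    refine ⟨fun i => ?_, ?_⟩
    · have h3 := h1 (τ i)
      rw [hc, hX] at h3
      exact h3
    · funext a
      have h3 : τ (w (g a)) = τ (w a) := congrFun h2 a
      exact τ.injective h3

/-- PROOF. With `X i = X j`, `i ≠ j`: `pic X (s ∘ swap i j) g = pic X s g` (exchange the letters `i` and `j` of the words), so the sum over `σ` cancels in pairs. -/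
theorem frob_dup {n r : ℕ} (X : Fin r → ℕ) (hX : ¬ Function.Injective X)
    (g : Equiv.Perm (Fin n)) : frob X g = 0 := by
  classical
  rw [Function.Injective] at hX
  push Not at hX
  obtain ⟨i, j, hij, hne⟩ := hX
  have hsw : ∀ a, X (Equiv.swap i j a) = X a := by
    intro a
    by_cases ha : a = i
    · rw [ha, Equiv.swap_apply_left, hij]
    · by_cases hb : a = j
      · rw [hb, Equiv.swap_apply_right, hij]
      · rw [Equiv.swap_apply_of_ne_of_ne ha hb]
  have h1 : frob X g = - frob X g := by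
    conv_lhs => rw [frob]
    rw [← Equiv.sum_comp (Equiv.mulRight (Equiv.swap i j)), frob, ← Finset.sum_neg_distrib]
    refine Finset.sum_congr rfl fun σ _ => ?_
    have h2 : (Equiv.mulRight (Equiv.swap i j)) σ = σ * Equiv.swap i j := rfl
    rw [h2, Equiv.Perm.sign_mul, Equiv.Perm.sign_swap hne]
    have h3 : pic X (fun a => (((σ * Equiv.swap i j) a : Fin r) : ℕ)) g =
        pic X (fun a => ((σ a : Fin r) : ℕ)) g :=
      frob_dup_pic X (fun a => ((σ a : Fin r) : ℕ)) (Equiv.swap i j) hsw g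
    rw [h3]
    push_cast
    ring
  omega
-- END frob_dup

-- BEGIN frob_branch
private theorem frob_branch_cnt {n r : ℕ} (w : Fin (n + 1) → Fin r) (j : Fin r) :
    cnt w j = cnt (fun a => w (Fin.castSucc a)) j + if w (Fin.last n) = j then 1 else 0 := by
  unfold cnt
  rw [Finset.card_filter, Finset.card_filter, Fin.sum_univ_castSucc]

private theorem frob_branch_ext {n r : ℕ} (g : Equiv.Perm (Fin n)) (w : Fin (n + 1) → Fin r) :
    w ∘ (Equiv.Perm.viaEmbeddingHom (Fin.castLEEmb (Nat.le_succ n)) g : Equiv.Perm (Fin (n + 1))) = w ↔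
      (fun a => w (Fin.castSucc a)) ∘ g = fun a => w (Fin.castSucc a) := by
  have h1 : ∀ a : Fin n, (Equiv.Perm.viaEmbeddingHom (Fin.castLEEmb (Nat.le_succ n)) g :
      Equiv.Perm (Fin (n + 1))) (Fin.castSucc a) = Fin.castSucc (g a) := by
    intro a
    exact Equiv.Perm.viaEmbedding_apply g (Fin.castLEEmb (Nat.le_succ n)) a
  have h2 : (Equiv.Perm.viaEmbeddingHom (Fin.castLEEmb (Nat.le_succ n)) g :
      Equiv.Perm (Fin (n + 1))) (Fin.last n) = Fin.last n := by
    apply Equiv.Perm.viaEmbedding_apply_of_notMem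
    rintro ⟨a, ha⟩
    have h3 : (a : ℕ) = n := congrArg Fin.val ha
    exact absurd h3 (ne_of_lt a.2)
  constructor
  · intro h
    funext a
    have h3 := congrFun h (Fin.castSucc a)
    rw [Function.comp_apply, h1] at h3
    exact h3
  · intro h
    funext a
    refine Fin.lastCases ?_ (fun a => ?_) a
    · rw [Function.comp_apply, h2]
    · rw [Function.comp_apply, h1]
      exact congrFun h a

private theorem frob_branch_pic {n r : ℕ} (X s : Fin r → ℕ) (g : Equiv.Perm (Fin n)) :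
    pic (n := n + 1) X s (Equiv.Perm.viaEmbeddingHom (Fin.castLEEmb (Nat.le_succ n)) g) =
      ∑ i, if X i = 0 then 0 else pic (n := n) (Function.update X i (X i - 1)) s g := by
  classical
  have h1 : ∀ i, (if X i = 0 then 0 else pic (n := n) (Function.update X i (X i - 1)) s g) =
      Nat.card {v : Fin n → Fin r // X i ≠ 0 ∧ (∀ j, cnt v j + s j = Function.update X i (X i - 1) j) ∧
        v ∘ g = v} := by
    intro i
    split_ifs with h
    · symm
      rw [Nat.card_eq_zero]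
      left
      exact ⟨fun v => v.2.1 h⟩
    · unfold pic
      exact Nat.card_congr (Equiv.subtypeEquivRight fun v => by simp [h])
  rw [Finset.sum_congr rfl fun i _ => h1 i, ← Nat.card_sigma]
  unfold pic
  symm
  let F : (Σ i : Fin r, {v : Fin n → Fin r // X i ≠ 0 ∧
      (∀ j, cnt v j + s j = Function.update X i (X i - 1) j) ∧ v ∘ g = v}) →
      {w : Fin (n + 1) → Fin r // (∀ i, cnt w i + s i = X i) ∧
        w ∘ (Equiv.Perm.viaEmbeddingHom (Fin.castLEEmb (Nat.le_succ n)) g : Equiv.Perm (Fin (n + 1))) = w} :=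
    fun z => ⟨Fin.snoc (α := fun _ => Fin r) z.2.1 z.1, by
      have hv : (fun a => (Fin.snoc (α := fun _ => Fin r) z.2.1 z.1 : Fin (n + 1) → Fin r) (Fin.castSucc a)) =
          z.2.1 := by
        funext a
        exact Fin.snoc_castSucc (α := fun _ => Fin r) z.1 z.2.1 a
      refine ⟨fun j => ?_, ?_⟩
      · rw [frob_branch_cnt, hv, Fin.snoc_last]
        have h2 := z.2.2.2.1 j
        have h3 := z.2.2.1
        by_cases hj : z.1 = j
        · subst hj
          rw [Function.update_self] at h2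
          rw [if_pos rfl]
          omega
        · rw [Function.update_of_ne (Ne.symm hj)] at h2
          rw [if_neg hj]
          omega
      · rw [frob_branch_ext, hv]
        exact z.2.2.2.2⟩
  refine Nat.card_eq_of_bijective F ⟨?_, ?_⟩
  · rintro ⟨i, v, hv⟩ ⟨i', v', hv'⟩ h
    have h2 : (Fin.snoc (α := fun _ => Fin r) v i : Fin (n + 1) → Fin r) =
        Fin.snoc (α := fun _ => Fin r) v' i' := congrArg Subtype.val h
    have h3 : i = i' := by
      have h4 := congrFun h2 (Fin.last n)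
      rw [Fin.snoc_last, Fin.snoc_last] at h4
      exact h4
    have h5 : v = v' := by
      funext a
      have h4 := congrFun h2 (Fin.castSucc a)
      rw [Fin.snoc_castSucc, Fin.snoc_castSucc] at h4
      exact h4
    subst h3
    subst h5
    rfl
  · rintro ⟨w, hw1, hw2⟩
    have h2 : X (w (Fin.last n)) ≠ 0 := by
      have h3 := hw1 (w (Fin.last n))
      rw [frob_branch_cnt, if_pos rfl] at h3
      omega
    refine ⟨⟨w (Fin.last n), fun a => w (Fin.castSucc a), h2, fun j => ?_, ?_⟩, ?_⟩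
    · have h3 := hw1 j
      rw [frob_branch_cnt] at h3
      by_cases hj : w (Fin.last n) = j
      · subst hj
        rw [if_pos rfl] at h3
        rw [Function.update_self]
        omega
      · rw [if_neg hj] at h3
        rw [Function.update_of_ne (Ne.symm hj)]
        omega
    · exact (frob_branch_ext g w).1 hw2
    · apply Subtype.ext
      exact Fin.snoc_init_self (α := fun _ => Fin r) w

/-- PROOF. The words fixed by the extended `g` are the pairs (word fixed by `g`, last letter `i`), so `pic X s (ext g) = ∑ i, if s i < X i then pic (X - e_i) s g`;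
`pic (X - e_i) s g` is zero if `X i ≤ s i` and `X i ≠ 0`, since then `X i - 1 < s i`. -/
theorem frob_branch {n r : ℕ} (X : Fin r → ℕ) (g : Equiv.Perm (Fin n)) :
    frob (n := n + 1) X (Equiv.Perm.viaEmbeddingHom (Fin.castLEEmb (Nat.le_succ n)) g) =
      ∑ i, if X i = 0 then 0 else frob (n := n) (Function.update X i (X i - 1)) g := by
  have h1 : ∀ i, (if X i = 0 then (0 : ℤ) else frob (n := n) (Function.update X i (X i - 1)) g) =
      ∑ σ : Equiv.Perm (Fin r), (Equiv.Perm.sign σ : ℤ) *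
        ((if X i = 0 then 0 else
          pic (n := n) (Function.update X i (X i - 1)) (fun a => ((σ a : Fin r) : ℕ)) g : ℕ) : ℤ) := by
    intro i
    split_ifs with h
    · simp
    · rfl
  rw [Finset.sum_congr rfl fun i _ => h1 i, Finset.sum_comm]
  unfold frob
  refine Finset.sum_congr rfl fun σ _ => ?_
  rw [frob_branch_pic, Nat.cast_sum, Finset.mul_sum]
-- END frob_branch

-- BEGIN frob_facts
private theorem frob_facts_det {r : ℕ} (X : Fin r → ℕ) (hX : StrictMono X) (H : ℕ)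
    (hH : H = ∏ z ∈ cells (Finset.univ.image X), (z.1 - z.2)) :
    ∏ i, ((X i).factorial : ℤ) =
      (H : ℤ) * ∏ i : Fin r, ∏ j ∈ Finset.Ioi i, ((X j : ℤ) - (X i : ℤ)) := by
  have hc : (Finset.univ.image X).card = r := by
    rw [Finset.card_image_of_injective _ hX.injective, Finset.card_univ, Fintype.card_fin]
  have hu : X = (Finset.univ.image X).orderEmbOfFin hc :=
    Finset.orderEmbOfFin_unique hc (fun x => Finset.mem_image_of_mem _ (Finset.mem_univ x)) hX
  have key : ∀ (S : Finset ℕ) (r : ℕ) (h : S.card = r),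
      ∏ i : Fin r, ((S.orderEmbOfFin h i).factorial : ℤ) =
        ((∏ z ∈ cells S, (z.1 - z.2) : ℕ) : ℤ) * ∏ i : Fin r, ∏ j ∈ Finset.Ioi i,
          ((S.orderEmbOfFin h j : ℤ) - (S.orderEmbOfFin h i : ℤ)) := by
    intro S r h
    subst h
    exact cells_hook S
  have h1 := key _ r hc
  rw [← hH] at h1
  rw [← hu] at h1
  exact h1

/-- PROOF. `X = (univ.image X).orderEmbOfFin _` (`Finset.orderEmbOfFin_unique`); see `core_multi_one` and the use of `norm_one` in `core_multi` (Multi.lean). -/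
theorem frob_facts {n r : ℕ} (X : Fin r → ℕ) (hX : StrictMono X)
    (hn : n + ∑ i : Fin r, (i : ℕ) = ∑ i, X i) (H : ℕ)
    (hH : H = ∏ z ∈ cells (Finset.univ.image X), (z.1 - z.2)) :
    ∃ f : ℕ, 0 < f ∧ f * H = n.factorial ∧ frob X (1 : Equiv.Perm (Fin n)) = f ∧
      ∑ g : Equiv.Perm (Fin n), frob X g * frob X g⁻¹ = (n.factorial : ℤ) ∧
      ∀ x : Equiv.Perm (Fin n), ∑ g, frob X g * frob X (g⁻¹ * x) = H * frob X x := by
  have hdet := frob_facts_det X hX H hH
  have hV : (0 : ℤ) < ∏ i : Fin r, ∏ j ∈ Finset.Ioi i, ((X j : ℤ) - (X i : ℤ)) := by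
    refine Finset.prod_pos fun i _ => Finset.prod_pos fun j hj => ?_
    have h1 := hX (Finset.mem_Ioi.1 hj)
    have h2 : (X i : ℤ) < X j := by exact_mod_cast h1
    linarith
  have hH0 : 0 < H := by
    rw [hH]
    refine Finset.prod_pos fun z hz => ?_
    have h1 := ((mem_cells _ z).1 hz).2.2
    omega
  have h1 := frob_one X hn
  rw [hdet] at h1
  have h2 : frob X (1 : Equiv.Perm (Fin n)) * (H : ℤ) = (n.factorial : ℤ) := by
    apply mul_right_cancel₀ hV.ne'
    rw [← h1]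
    ring
  have h3 : 0 < frob X (1 : Equiv.Perm (Fin n)) := by
    have h4 : (0 : ℤ) < frob X (1 : Equiv.Perm (Fin n)) * (H : ℤ) := by
      rw [h2]
      exact_mod_cast n.factorial_pos
    exact pos_of_mul_pos_left h4 (by exact_mod_cast hH0.le)
  obtain ⟨f, hf⟩ := Int.eq_ofNat_of_zero_le h3.le
  have hfpos : 0 < f := by
    rw [hf] at h3
    exact_mod_cast h3
  have h4 : f * H = n.factorial := by
    rw [hf] at h2
    exact_mod_cast h2
  have hcard : Fintype.card (Equiv.Perm (Fin n)) = n.factorial := by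
    rw [Fintype.card_perm, Fintype.card_fin]
  have hnorm := frob_norm X hX.injective hn
  refine ⟨f, hfpos, h4, hf, hnorm, fun x => ?_⟩
  exact norm_one (frob X) (frob_virt (n := n) X) f H (by rw [hcard]; exact hnorm) hf hfpos
    (by rw [hcard, h4]) x
-- END frob_facts

-- BEGIN frob_orth
/-- PROOF. `frob_cross` and `cross_conv` (Multi.lean), `frob_norm` (Core.lean). -/
theorem frob_orth {n r : ℕ} (X Y : Fin r → ℕ) (hX : StrictMono X) (hY : StrictMono Y) (hXY : X ≠ Y)
    (hn : n + ∑ i : Fin r, (i : ℕ) = ∑ i, X i) (x : Equiv.Perm (Fin n)) :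
    ∑ g, frob X g * frob Y (g⁻¹ * x) = 0 := by
  have hcard : (Fintype.card (Equiv.Perm (Fin n)) : ℤ) = (n.factorial : ℤ) := by
    rw [Fintype.card_perm, Fintype.card_fin]
  refine cross_conv (frob X) (frob Y) (frob_virt X) (frob_virt Y) ?_ ?_ x
  · rw [hcard]
    exact frob_norm X hX.injective hn
  · refine frob_cross X Y ?_ hn
    intro w hw
    apply hXY
    refine (StrictMono.range_inj hX hY).1 ?_
    have h2 : X = Y ∘ w := funext hw
    rw [h2, Set.range_comp, w.surjective.range_eq, Set.image_univ]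
-- END frob_orth

-- BEGIN nine
private theorem nine_virt {G : Type} [Group G] {χ ψ : G → ℤ} (h : Virt χ) (h' : Virt ψ) :
    Virt (fun g => χ g + ψ g) := by
  obtain ⟨I, hI, Ω, hΩ, ρ, c, hc⟩ := h
  obtain ⟨J, hJ, Ω', hΩ', ρ', c', hc'⟩ := h'
  refine ⟨I ⊕ J, inferInstance, Sum.elim Ω Ω', ?_,
    fun i => match i with
      | Sum.inl a => ρ a
      | Sum.inr b => ρ' b, Sum.elim c c', fun g => ?_⟩
  · rintro (i | j)
    · exact hΩ i
    · exact hΩ' j
  · refine Eq.symm ((Fintype.sum_sum_type _).trans ?_)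
    exact (congrArg₂ (· + ·) (hc g) (hc' g)).symm

private theorem nine_facts {n : ℕ} (X : Fin 6 → ℕ) (hX : StrictMono X)
    (hn : n + ∑ i : Fin 6, (i : ℕ) = ∑ i, X i) (H f : ℕ)
    (hH : H = ∏ z ∈ cells (Finset.univ.image X), (z.1 - z.2)) (hf : f * H = n.factorial) :
    frob X (1 : Equiv.Perm (Fin n)) = f ∧
      ∀ x : Equiv.Perm (Fin n), ∑ g, frob X g * frob X (g⁻¹ * x) = H * frob X x := by
  obtain ⟨f', _, h1, h2, _, h3⟩ := frob_facts X hX hn H hH
  have h4 : f' = f := by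
    have h5 : 0 < H := by
      rcases Nat.eq_zero_or_pos H with h | h
      · rw [h, mul_zero] at hf
        exact absurd hf.symm (Nat.factorial_ne_zero n)
      · exact h
    exact Nat.eq_of_mul_eq_mul_right h5 (h1.trans hf.symm)
  rw [← h4]
  exact ⟨h2, h3⟩

private def nine_X : Fin 5 → Fin 6 → ℕ :=
  ![![0, 1, 2, 4, 6, 11], ![0, 1, 2, 5, 6, 10], ![0, 2, 3, 4, 5, 10], ![0, 2, 3, 4, 7, 8],
    ![1, 2, 3, 4, 6, 8]]

private def nine_Y : Fin 2 → Fin 6 → ℕ := ![![0, 1, 3, 4, 7, 9], ![0, 1, 3, 5, 6, 9]]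

private def nine_Z : Fin 5 → Fin 6 → ℕ :=
  ![![0, 1, 3, 4, 6, 9], ![0, 1, 2, 4, 7, 9], ![0, 1, 3, 5, 6, 8], ![0, 1, 3, 4, 7, 8],
    ![0, 1, 2, 5, 6, 9]]

private theorem nine_b0 (g : Equiv.Perm (Fin 8)) :
    frob (n := 9) (nine_Y 0) (Equiv.Perm.viaEmbeddingHom (Fin.castLEEmb (Nat.le_succ 8)) g) =
      frob (n := 8) (nine_Z 1) g + frob (n := 8) (nine_Z 0) g + frob (n := 8) (nine_Z 3) g := by
  have h := frob_branch (n := 8) (nine_Y 0) g
  refine h.trans ?_
  rw [Fin.sum_univ_six]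
  have e0 : nine_Y 0 0 = 0 := rfl
  have n1 : nine_Y 0 1 ≠ 0 := by decide
  have n2 : nine_Y 0 2 ≠ 0 := by decide
  have n3 : nine_Y 0 3 ≠ 0 := by decide
  have n4 : nine_Y 0 4 ≠ 0 := by decide
  have n5 : nine_Y 0 5 ≠ 0 := by decide
  rw [if_pos e0, if_neg n1, if_neg n2, if_neg n3, if_neg n4, if_neg n5]
  have d1 : frob (n := 8) (Function.update (nine_Y 0) 1 (nine_Y 0 1 - 1)) g = 0 :=
    frob_dup _ (fun hi => absurd (hi (a₁ := 0) (a₂ := 1) rfl) (by decide)) g
  have d3 : frob (n := 8) (Function.update (nine_Y 0) 3 (nine_Y 0 3 - 1)) g = 0 :=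
    frob_dup _ (fun hi => absurd (hi (a₁ := 2) (a₂ := 3) rfl) (by decide)) g
  have u2 : Function.update (nine_Y 0) 2 (nine_Y 0 2 - 1) = nine_Z 1 := by decide
  have u4 : Function.update (nine_Y 0) 4 (nine_Y 0 4 - 1) = nine_Z 0 := by decide
  have u5 : Function.update (nine_Y 0) 5 (nine_Y 0 5 - 1) = nine_Z 3 := by decide
  rw [d1, d3, u2, u4, u5]
  ring

private theorem nine_b1 (g : Equiv.Perm (Fin 8)) :
    frob (n := 9) (nine_Y 1) (Equiv.Perm.viaEmbeddingHom (Fin.castLEEmb (Nat.le_succ 8)) g) =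
      frob (n := 8) (nine_Z 4) g + frob (n := 8) (nine_Z 0) g + frob (n := 8) (nine_Z 2) g := by
  have h := frob_branch (n := 8) (nine_Y 1) g
  refine h.trans ?_
  rw [Fin.sum_univ_six]
  have e0 : nine_Y 1 0 = 0 := rfl
  have n1 : nine_Y 1 1 ≠ 0 := by decide
  have n2 : nine_Y 1 2 ≠ 0 := by decide
  have n3 : nine_Y 1 3 ≠ 0 := by decide
  have n4 : nine_Y 1 4 ≠ 0 := by decide
  have n5 : nine_Y 1 5 ≠ 0 := by decide
  rw [if_pos e0, if_neg n1, if_neg n2, if_neg n3, if_neg n4, if_neg n5]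
  have d1 : frob (n := 8) (Function.update (nine_Y 1) 1 (nine_Y 1 1 - 1)) g = 0 :=
    frob_dup _ (fun hi => absurd (hi (a₁ := 0) (a₂ := 1) rfl) (by decide)) g
  have d4 : frob (n := 8) (Function.update (nine_Y 1) 4 (nine_Y 1 4 - 1)) g = 0 :=
    frob_dup _ (fun hi => absurd (hi (a₁ := 3) (a₂ := 4) rfl) (by decide)) g
  have u2 : Function.update (nine_Y 1) 2 (nine_Y 1 2 - 1) = nine_Z 4 := by decide
  have u3 : Function.update (nine_Y 1) 3 (nine_Y 1 3 - 1) = nine_Z 0 := by decide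
  have u5 : Function.update (nine_Y 1) 5 (nine_Y 1 5 - 1) = nine_Z 2 := by decide
  rw [d1, d4, u2, u3, u5]
  ring

private theorem nine_low {k : Type} [Field k] [CharP k 5] :
    17900 ≤ (fm k (fun g : Equiv.Perm (Fin 8) =>
      (frob (n := 8) (nine_Z 1) g + frob (n := 8) (nine_Z 0) g + frob (n := 8) (nine_Z 3) g) +
      (frob (n := 8) (nine_Z 4) g + frob (n := 8) (nine_Z 0) g + frob (n := 8) (nine_Z 2) g))).rank := by
  have h5 : Fact (Nat.Prime 5) := ⟨by norm_num⟩
  have hcard : Fintype.card (Equiv.Perm (Fin 8)) = Nat.factorial 8 := by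
    rw [Fintype.card_perm, Fintype.card_fin]
  have hmono : ∀ a : Fin 5, StrictMono (nine_Z a) := by
    have h : ∀ a : Fin 5, ∀ i j : Fin 6, i < j → nine_Z a i < nine_Z a j := by decide
    exact fun a i j hij => h a i j hij
  have hsum : ∀ a : Fin 5, 8 + ∑ i : Fin 6, (i : ℕ) = ∑ i, nine_Z a i := by decide
  have hne : ∀ a b : Fin 5, a ≠ b → nine_Z a ≠ nine_Z b := by decide
  have horth : ∀ a b : Fin 5, a ≠ b → ∀ x : Equiv.Perm (Fin 8),
      ∑ g, frob (nine_Z a) g * frob (nine_Z b) (g⁻¹ * x) = 0 := fun a b hab x =>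
    frob_orth _ _ (hmono a) (hmono b) (hne a b hab) (hsum a) x
  let j : Fin 3 → Fin 5 := ![0, 1, 2]
  let H : Fin 3 → ℕ := ![448, 576, 576]
  let f : Fin 3 → ℕ := ![90, 70, 70]
  have hH : ∀ a : Fin 3, H a = ∏ z ∈ cells (Finset.univ.image (nine_Z (j a))), (z.1 - z.2) := by
    decide +kernel
  have hf : ∀ a : Fin 3, f a * H a = Nat.factorial 8 := by decide +kernel
  have hfacts := fun a : Fin 3 => nine_facts (n := 8) (nine_Z (j a)) (hmono (j a)) (hsum (j a)) (H a) (f a) (hH a) (hf a)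
  have hj : ∀ a b : Fin 3, a ≠ b → j a ≠ j b := by decide
  have hmain := rank_low (p := 5) (k := k) (G := Equiv.Perm (Fin 8)) (ι := Fin 3)
    (fun a => frob (n := 8) (nine_Z (j a))) H f (fun a => frob_virt _) (by decide)
    (fun a => by rw [hcard]; exact hf a) (fun a => (hfacts a).1) (fun a x => (hfacts a).2 x)
    (fun a b hab x => horth _ _ (hj a b hab) x)
    (fun g : Equiv.Perm (Fin 8) =>
      (frob (n := 8) (nine_Z 1) g + frob (n := 8) (nine_Z 0) g + frob (n := 8) (nine_Z 3) g) +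
      (frob (n := 8) (nine_Z 4) g + frob (n := 8) (nine_Z 0) g + frob (n := 8) (nine_Z 2) g))
    ![896, 576, 576] (by decide) ?_
  · refine le_trans (le_of_eq ?_) hmain
    decide
  · intro a x
    have hsplit : ∀ c : Fin 5, ∑ g, frob (n := 8) (nine_Z c) g *
        ((frob (n := 8) (nine_Z 1) (g⁻¹ * x) + frob (n := 8) (nine_Z 0) (g⁻¹ * x) + frob (n := 8) (nine_Z 3) (g⁻¹ * x)) +
        (frob (n := 8) (nine_Z 4) (g⁻¹ * x) + frob (n := 8) (nine_Z 0) (g⁻¹ * x) + frob (n := 8) (nine_Z 2) (g⁻¹ * x))) =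
        (∑ g, frob (n := 8) (nine_Z c) g * frob (n := 8) (nine_Z 1) (g⁻¹ * x)) +
        2 * (∑ g, frob (n := 8) (nine_Z c) g * frob (n := 8) (nine_Z 0) (g⁻¹ * x)) +
        (∑ g, frob (n := 8) (nine_Z c) g * frob (n := 8) (nine_Z 3) (g⁻¹ * x)) +
        (∑ g, frob (n := 8) (nine_Z c) g * frob (n := 8) (nine_Z 4) (g⁻¹ * x)) +
        (∑ g, frob (n := 8) (nine_Z c) g * frob (n := 8) (nine_Z 2) (g⁻¹ * x)) := by
      intro c
      rw [Finset.mul_sum, ← Finset.sum_add_distrib, ← Finset.sum_add_distrib, ← Finset.sum_add_distrib,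
        ← Finset.sum_add_distrib]
      refine Finset.sum_congr rfl fun g _ => ?_
      ring
    have h0 := (hfacts 0).2 x
    have h1 := (hfacts 1).2 x
    have h2 := (hfacts 2).2 x
    fin_cases a
    · refine (hsplit 0).trans ?_
      rw [horth 0 1 (by decide) x, horth 0 3 (by decide) x, horth 0 4 (by decide) x, horth 0 2 (by decide) x]
      have h3 : ∑ g, frob (n := 8) (nine_Z 0) g * frob (n := 8) (nine_Z 0) (g⁻¹ * x) = ((448 : ℕ) : ℤ) * frob (n := 8) (nine_Z 0) x := h0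
      rw [h3]
      show 0 + 2 * (((448 : ℕ) : ℤ) * frob (n := 8) (nine_Z 0) x) + 0 + 0 + 0 = ((896 : ℕ) : ℤ) * frob (n := 8) (nine_Z 0) x
      push_cast
      ring
    · refine (hsplit 1).trans ?_
      rw [horth 1 0 (by decide) x, horth 1 3 (by decide) x, horth 1 4 (by decide) x, horth 1 2 (by decide) x]
      have h3 : ∑ g, frob (n := 8) (nine_Z 1) g * frob (n := 8) (nine_Z 1) (g⁻¹ * x) = ((576 : ℕ) : ℤ) * frob (n := 8) (nine_Z 1) x := h1
      rw [h3]
      show ((576 : ℕ) : ℤ) * frob (n := 8) (nine_Z 1) x + 2 * 0 + 0 + 0 + 0 = ((576 : ℕ) : ℤ) * frob (n := 8) (nine_Z 1) x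
      ring
    · refine (hsplit 2).trans ?_
      rw [horth 2 1 (by decide) x, horth 2 0 (by decide) x, horth 2 3 (by decide) x, horth 2 4 (by decide) x]
      have h3 : ∑ g, frob (n := 8) (nine_Z 2) g * frob (n := 8) (nine_Z 2) (g⁻¹ * x) = ((576 : ℕ) : ℤ) * frob (n := 8) (nine_Z 2) x := h2
      rw [h3]
      show 0 + 2 * 0 + 0 + 0 + ((576 : ℕ) : ℤ) * frob (n := 8) (nine_Z 2) x = ((576 : ℕ) : ℤ) * frob (n := 8) (nine_Z 2) x
      ring

/-- PROOF. `multi_plus` with the five cores of size 9 in characteristic 5 (sets of six beta numbers `![0,1,2,4,6,11]`, `![0,1,2,5,6,10]`, `![0,2,3,4,5,10]`, `![0,2,3,4,7,8]`,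
`![1,2,3,4,6,8]`; partitions (6,2,1), (5,2,2), (5,1,1,1,1), (3,3,1,1,1), (3,2,1,1,1,1)), the sum of the squares of their degrees is 55750, and
`ψ = frob ![0,1,3,4,7,9] + frob ![0,1,3,5,6,9]` (partitions (4,3,1,1), (4,2,2,1)). `rank_res` for `Equiv.Perm.viaEmbeddingHom (Fin.castLEEmb _) : S_8 → S_9`; by `frob_branch` and `frob_dup` the restriction of
`ψ` to `S_8` is `frob` of (3,3,1,1) `![0,1,3,4,7,8]` + 2 (4,2,1,1) `![0,1,3,4,6,9]` + (4,3,1) `![0,1,2,4,7,9]` + (3,2,2,1) `![0,1,3,5,6,8]` + (4,2,2) `![0,1,2,5,6,9]`;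
`rank_low` with the three cores (4,2,1,1), (4,3,1), (3,2,2,1) of size 8 (degrees 90, 70, 70, sum of squares 17900), `c = 2 H, H, H`. Convolutions: `frob_facts`, `frob_orth`. -/
theorem nine : Lb 5 9 73650 := by
  intro k _ _
  have h5 : Fact (Nat.Prime 5) := ⟨by norm_num⟩
  have hcard : Fintype.card (Equiv.Perm (Fin 9)) = Nat.factorial 9 := by
    rw [Fintype.card_perm, Fintype.card_fin]
  have hmX : ∀ a : Fin 5, StrictMono (nine_X a) := by
    have h : ∀ a : Fin 5, ∀ i j : Fin 6, i < j → nine_X a i < nine_X a j := by decide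
    exact fun a i j hij => h a i j hij
  have hmY : ∀ a : Fin 2, StrictMono (nine_Y a) := by
    have h : ∀ a : Fin 2, ∀ i j : Fin 6, i < j → nine_Y a i < nine_Y a j := by decide
    exact fun a i j hij => h a i j hij
  have hsX : ∀ a : Fin 5, 9 + ∑ i : Fin 6, (i : ℕ) = ∑ i, nine_X a i := by decide
  have hneX : ∀ a b : Fin 5, a ≠ b → nine_X a ≠ nine_X b := by decide
  have hneXY : ∀ (a : Fin 5) (b : Fin 2), nine_X a ≠ nine_Y b := by decide
  let H : Fin 5 → ℕ := ![3456, 3024, 5184, 3024, 3456]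
  let f : Fin 5 → ℕ := ![105, 120, 70, 120, 105]
  have hH : ∀ a : Fin 5, H a = ∏ z ∈ cells (Finset.univ.image (nine_X a)), (z.1 - z.2) := by
    decide +kernel
  have hf : ∀ a : Fin 5, f a * H a = Nat.factorial 9 := by decide +kernel
  have hfacts := fun a : Fin 5 => nine_facts (n := 9) (nine_X a) (hmX a) (hsX a) (H a) (f a) (hH a) (hf a)
  have hmain := multi_plus (p := 5) (k := k) (G := Equiv.Perm (Fin 9)) (ι := Fin 5)
    (fun a => frob (n := 9) (nine_X a)) H f (fun a => frob_virt _) (by decide)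
    (fun a => by rw [hcard]; exact hf a) (fun a => (hfacts a).1) (fun a x => (hfacts a).2 x)
    (fun a b hab x => frob_orth _ _ (hmX a) (hmX b) (hneX a b hab) (hsX a) x)
    (fun g => frob (n := 9) (nine_Y 0) g + frob (n := 9) (nine_Y 1) g)
    (nine_virt (frob_virt _) (frob_virt _)) (fun a x => by
      simp only [mul_add]
      rw [Finset.sum_add_distrib, frob_orth _ _ (hmX a) (hmY 0) (hneXY a 0) (hsX a) x,
        frob_orth _ _ (hmX a) (hmY 1) (hneXY a 1) (hsX a) x, add_zero])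
  have hres := rank_res (k := k) (Equiv.Perm.viaEmbeddingHom (Fin.castLEEmb (Nat.le_succ 8)) :
      Equiv.Perm (Fin 8) →* Equiv.Perm (Fin 9)) (Equiv.Perm.viaEmbeddingHom_injective _)
    (fun g => frob (n := 9) (nine_Y 0) g + frob (n := 9) (nine_Y 1) g)
  have hlow := nine_low (k := k)
  have heq : (fun g : Equiv.Perm (Fin 8) =>
      (frob (n := 8) (nine_Z 1) g + frob (n := 8) (nine_Z 0) g + frob (n := 8) (nine_Z 3) g) +
      (frob (n := 8) (nine_Z 4) g + frob (n := 8) (nine_Z 0) g + frob (n := 8) (nine_Z 2) g)) =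
      fun h => (fun g => frob (n := 9) (nine_Y 0) g + frob (n := 9) (nine_Y 1) g)
        ((Equiv.Perm.viaEmbeddingHom (Fin.castLEEmb (Nat.le_succ 8)) :
          Equiv.Perm (Fin 8) →* Equiv.Perm (Fin 9)) h) := by
    funext g
    exact (congrArg₂ (· + ·) (nine_b0 g) (nine_b1 g)).symm
  rw [heq] at hlow
  have hs : ∑ a, f a ^ 2 = 55750 := by decide
  rw [hs] at hmain
  have h9 := hlow.trans hres
  omega
-- END nine

end Pool.Agent.Wil
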