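import Mathlib
import Pool.Agent.Wil.AllN
import Pool.Agent.Wil.Nine
import Pool.Agent.Wil.Rank5
import Pool.Agent.Wil.Rank7

set_option autoImplicit false
set_option maxRecDepth 100000

/-! The exceptional degrees, and the final statement for p = 3, 5, 7. -/

namespace Pool.Agent.Wil

theorem leg_fact {p : ℕ} (hp : p.Prime) (n e : ℕ) (h : e ≤ legC p 20 n) :
    e ≤ n.factorial.factorization p := h.trans (legC_le p hp 20 n)

theorem ex3_5 : Wl 3 1 5 := by
  have : Fact (Nat.Prime 3) := ⟨by norm_num⟩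
  exact lb_wl 5 40 1 (leg_fact (by norm_num) 5 1 (by decide +kernel)) (by decide +kernel)
    (rc_sound (by norm_num) 5 20 (by norm_num) _ _ _ _ ra5_ok)

theorem ex3_7 : Wl 3 1 7 := by
  have : Fact (Nat.Prime 3) := ⟨by norm_num⟩
  exact lb_wl 7 560 2 (leg_fact (by norm_num) 7 2 (by decide +kernel)) (by decide +kernel)
    (rc_sound (by norm_num) 7 280 (by norm_num) _ _ _ _ ra7_ok)

/-- Degree 13: the cores of size 14 and `ssDim_down`. -/
theorem ex3_13 : Wl 3 1 13 := by
  have : Fact (Nat.Prime 3) := ⟨by norm_num⟩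
  have h := lb_cores (p := 3) 6 14 [[0, 4, 2], [2, 0, 4]] (by norm_num) (by decide +kernel)
  exact lb_wl 13 25625600 5 (leg_fact (by norm_num) 13 5 (by decide +kernel))
    (by decide +kernel) (lb_down 25625600 _ (by decide +kernel) h)

/-- Degree 19: the cores of size 17 and `S_17 × S_2`. -/
theorem ex3_19 : Wl 3 1 19 := by
  have : Fact (Nat.Prime 3) := ⟨by norm_num⟩
  have h := lb_cores (p := 3) 9 17 [[4, 5, 0], [6, 1, 2]] (by norm_num) (by decide +kernel)
  exact lb_wl 19 _ 8 (leg_fact (by norm_num) 19 8 (by decide +kernel))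
    (by decide +kernel) (lb_two (by norm_num) h)

/-- Degree 29: the cores of size 30 and `ssDim_down`. -/
theorem ex3_29 : Wl 3 1 29 := by
  have : Fact (Nat.Prime 3) := ⟨by norm_num⟩
  have h := lb_cores (p := 3) 12 30 [[1, 7, 4], [4, 1, 7], [6, 6, 0], [8, 2, 2]] (by norm_num)
    (by decide +kernel)
  exact lb_wl 29 5545778360934203392000000 13 (leg_fact (by norm_num) 29 13 (by decide +kernel))
    (by decide +kernel) (lb_down 5545778360934203392000000 _ (by decide +kernel) h)

/-- Degree 9 in characteristic 5. -/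
theorem ex5_9 : Wl 5 1 9 := by
  have : Fact (Nat.Prime 5) := ⟨by norm_num⟩
  exact lb_wl 9 73650 1 (leg_fact (by norm_num) 9 1 (by decide +kernel)) (by decide +kernel) nine

theorem full3 (N : ℕ) : Wl 3 1 N := by
  by_cases h5 : N = 5
  · subst h5; exact ex3_5
  by_cases h7 : N = 7
  · subst h7; exact ex3_7
  by_cases h13 : N = 13
  · subst h13; exact ex3_13
  by_cases h19 : N = 19
  · subst h19; exact ex3_19
  by_cases h29 : N = 29
  · subst h29; exact ex3_29
  have h := all3 N
  have hc : Cf 3 N = 1 := by simp [Cf, h5, h7, h13, h19, h29]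
  rwa [hc] at h

theorem full5 (N : ℕ) : Wl 5 1 N := by
  by_cases h9 : N = 9
  · subst h9; exact ex5_9
  have h := all5 N
  have hc : Cf 5 N = 1 := by simp [Cf, h9]
  rwa [hc] at h

theorem full7 (N : ℕ) : Wl 7 1 N := by
  have h := all7 N
  have hc : Cf 7 N = 1 := by simp [Cf]
  rwa [hc] at h

theorem full (p : ℕ) [Fact p.Prime] (hp : p = 3 ∨ p = 5 ∨ p = 7) (n : ℕ) (k : Type) [Field k]
    [CharP k p] :
    pPrimePart p (Nat.card (Equiv.Perm (Fin n))) ≤ ssDim k (Equiv.Perm (Fin n)) ∧
      pPrimePart p (Nat.card (alternatingGroup (Fin n))) ≤ ssDim k (alternatingGroup (Fin n)) := by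
  rcases hp with rfl | rfl | rfl
  · exact wl_alt (by norm_num) n (full3 n) k
  · exact wl_alt (by norm_num) n (full5 n) k
  · exact wl_alt (by norm_num) n (full7 n) k

end Pool.Agent.Wil
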