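import Mathlib
import Pool.Agent.Wil.AllX
import Pool.Agent.Wil.AllP

set_option autoImplicit false

/-! All symmetric and alternating groups, all odd primes up to 31. -/

namespace Pool.Agent.Wil

/-- The inequality for `S_n`, every `n`, every prime `3 ≤ p ≤ 31`. -/
theorem wl_all (p : ℕ) [Fact p.Prime] (h3 : 3 ≤ p) (hP : p ≤ 31) (n : ℕ) : Wl p 1 n := by
  have hp : p.Prime := Fact.out
  interval_cases p
  · exact full3 n
  · exact absurd hp (by norm_num)
  · exact full5 n
  · exact absurd hp (by norm_num)
  · exact full7 n
  · exact absurd hp (by norm_num)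
  · exact absurd hp (by norm_num)
  · exact absurd hp (by norm_num)
  · exact all11 n
  · exact absurd hp (by norm_num)
  · exact all13 n
  · exact absurd hp (by norm_num)
  · exact absurd hp (by norm_num)
  · exact absurd hp (by norm_num)
  · exact all17 n
  · exact absurd hp (by norm_num)
  · exact all19 n
  · exact absurd hp (by norm_num)
  · exact absurd hp (by norm_num)
  · exact absurd hp (by norm_num)
  · exact all23 n
  · exact absurd hp (by norm_num)
  · exact absurd hp (by norm_num)
  · exact absurd hp (by norm_num)
  · exact absurd hp (by norm_num)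
  · exact absurd hp (by norm_num)
  · exact all29 n
  · exact absurd hp (by norm_num)
  · exact all31 n

theorem full_all (p : ℕ) [Fact p.Prime] (h3 : 3 ≤ p) (hP : p ≤ 31) (n : ℕ) (k : Type) [Field k]
    [CharP k p] :
    pPrimePart p (Nat.card (Equiv.Perm (Fin n))) ≤ ssDim k (Equiv.Perm (Fin n)) ∧
      pPrimePart p (Nat.card (alternatingGroup (Fin n))) ≤ ssDim k (alternatingGroup (Fin n)) :=
  wl_alt (by omega) n (wl_all p h3 hP n) k

end Pool.Agent.Wil
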