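import Mathlib
import Pool.Agent.Wil.Basic

set_option autoImplicit false

/-! Pages E and G: asymptotics. -/

namespace Pool.Agent.Wil

open Real Filter Topology

-- BEGIN log_fact
/-- PROOF. Induction on `m ≥ 1`: `1 ≤ (m + 1) * (log (m + 1) - log m)` (`1 - 1/u ≤ log u` at `u = (m + 1) / m`). -/
theorem log_fact_le (m : ℕ) (hm : 1 ≤ m) :
    log (m.factorial : ℝ) ≤ ((m : ℝ) + 1) * log m - m + 1 := by
  induction m, hm using Nat.le_induction with
  | base => simp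
  | succ m hm ih =>
    have hm0 : (0 : ℝ) < m := by exact_mod_cast hm
    rw [Nat.factorial_succ, Nat.cast_mul, Real.log_mul (by positivity) (by positivity)]
    push_cast
    have h1 : 1 - ((m : ℝ) + 1) / m ≤ 0 := by
      rw [sub_nonpos, one_le_div hm0]
      linarith
    have h2 : 1 - (((m : ℝ) + 1) / m)⁻¹ ≤ log (((m : ℝ) + 1) / m) :=
      Real.one_sub_inv_le_log_of_pos (by positivity)
    rw [Real.log_div (by positivity) hm0.ne', inv_div] at h2
    have h3 : ((m : ℝ) + 1) * (1 - (m : ℝ) / (m + 1)) = 1 := by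
      field_simp
      ring
    have h4 : ((m : ℝ) + 1) * (1 - (m : ℝ) / (m + 1)) ≤
        ((m : ℝ) + 1) * (log ((m : ℝ) + 1) - log m) :=
      mul_le_mul_of_nonneg_left h2 (by positivity)
    rw [h3] at h4
    linarith

/-- PROOF. `n ^ n / n! ≤ exp n` (`Real.pow_div_factorial_le_exp`). -/
theorem log_fact_ge (n : ℕ) : (n : ℝ) * log n - n ≤ log (n.factorial : ℝ) := by
  rcases Nat.eq_zero_or_pos n with rfl | hn
  · simp
  have hn0 : (0 : ℝ) < n := by exact_mod_cast hn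
  have h1 := Real.pow_div_factorial_le_exp (n : ℝ) hn0.le n
  have hf : (0 : ℝ) < n.factorial := by exact_mod_cast Nat.factorial_pos n
  have h2 : log ((n : ℝ) ^ n / n.factorial) ≤ n :=
    (Real.log_le_log (by positivity) h1).trans (le_of_eq (Real.log_exp _))
  rw [Real.log_div (by positivity) hf.ne', Real.log_pow] at h2
  linarith
-- END log_fact

/-- `∑_{d < D} (D - d) log (d + 1)`. -/
noncomputable def LL (D : ℕ) : ℝ := ∑ d ∈ Finset.range D, ((D : ℝ) - d) * log ((d : ℝ) + 1)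

-- BEGIN LL_succ
/-- PROOF. `log ((D + 1)!) = ∑ d ∈ range (D + 1), log (d + 1)`. -/
theorem LL_succ (D : ℕ) : LL (D + 1) = LL D + log ((D + 1).factorial : ℝ) := by
  have h1 : ∀ n : ℕ, log (n.factorial : ℝ) = ∑ d ∈ Finset.range n, log ((d : ℝ) + 1) := by
    intro n
    induction n with
    | zero => simp
    | succ n ih =>
      rw [Finset.sum_range_succ, ← ih, Nat.factorial_succ, Nat.cast_mul,
        Real.log_mul (by positivity) (by positivity)]
      push_cast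
      ring
  rw [h1]
  unfold LL
  have h2 : ∑ d ∈ Finset.range (D + 1), (((D + 1 : ℕ) : ℝ) - d) * log ((d : ℝ) + 1) =
      ∑ d ∈ Finset.range (D + 1), ((D : ℝ) - d) * log ((d : ℝ) + 1) +
        ∑ d ∈ Finset.range (D + 1), log ((d : ℝ) + 1) := by
    rw [← Finset.sum_add_distrib]
    refine Finset.sum_congr rfl fun d _ => ?_
    push_cast
    ring
  rw [h2, Finset.sum_range_succ (fun d : ℕ => ((D : ℝ) - d) * log ((d : ℝ) + 1)) D]
  simp

/-- PROOF. `log (p (d + 1)) = log p + log (d + 1)` and `∑ d ∈ range D, (D - d) = D (D + 1) / 2`. -/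
theorem sum_hook_eq (p : ℕ) (hp : 0 < p) (D : ℕ) :
    ∑ d ∈ Finset.range D, ((D : ℝ) - d) * log ((p : ℝ) * ((d : ℝ) + 1)) =
      (D : ℝ) * ((D : ℝ) + 1) / 2 * log p + LL D := by
  have hp0 : (0 : ℝ) < p := by exact_mod_cast hp
  have h1 : ∀ E : ℕ, ∑ d ∈ Finset.range E, ((E : ℝ) - d) = (E : ℝ) * ((E : ℝ) + 1) / 2 := by
    intro E
    rw [Finset.sum_sub_distrib, Finset.sum_const, Finset.card_range, nsmul_eq_mul]
    have h2 : ∑ d ∈ Finset.range E, (d : ℝ) = (E : ℝ) * ((E : ℝ) - 1) / 2 := by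
      induction E with
      | zero => simp
      | succ n ih =>
        rw [Finset.sum_range_succ, ih]
        push_cast
        ring
    rw [h2]
    ring
  unfold LL
  rw [← h1, Finset.sum_mul, ← Finset.sum_add_distrib]
  refine Finset.sum_congr rfl fun d _ => ?_
  rw [Real.log_mul hp0.ne' (by positivity)]
  ring
-- END LL_succ

-- BEGIN LL_le
/-- PROOF. Induction on `D` with `LL_succ`, `log_fact_le`; the case `D = 0` is trivial, `D = 1`: `LL 1 = 0`. For `D ≥ 1` one needs with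
`G x = x² / 2 * log x - 3 / 4 * x² + 2 x log x + x`: `(D + 2) log (D + 1) - (D + 1) + 1 ≤ G (D + 1) - G D`. By
the mean value theorem (or monotonicity of `G'`) `G (D + 1) - G D ≥ G' D` with `G' x = x log x - x + 2 log x + 3`
(increasing for `x ≥ 1`), and `(D + 2) log (D + 1) - D ≤ (D + 2) log D + (D + 2) / D - D ≤ D log D - D + 2 log D + 3` (as `log (1 + 1 / D) ≤ 1 / D`,
`(D + 2) / D ≤ 3`). -/
theorem LL_le (D : ℕ) :
    LL D ≤ (D : ℝ) ^ 2 / 2 * log D - 3 / 4 * (D : ℝ) ^ 2 + 2 * (D * log D) + D := by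
  induction D with
  | zero => simp [LL]
  | succ D ih =>
    rcases Nat.eq_zero_or_pos D with hD | hD
    · subst hD
      simp [LL]
      norm_num
    · have hx : (1 : ℝ) ≤ D := by exact_mod_cast hD
      obtain ⟨x, hxd⟩ : ∃ x : ℝ, x = D := ⟨_, rfl⟩
      rw [← hxd] at hx ih
      have hx0 : 0 < x := by linarith
      have h1 := log_fact_le (D + 1) (by omega)
      have h2 := LL_succ D
      push_cast at h1 ⊢
      rw [← hxd] at h1 ⊢
      have h3 : 1 / (x + 1) ≤ log (x + 1) - log x := by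
        have h4 := Real.one_sub_inv_le_log_of_pos (x := (x + 1) / x) (by positivity)
        rw [Real.log_div (by positivity) (by positivity)] at h4
        have h5 : 1 - ((x + 1) / x)⁻¹ = 1 / (x + 1) := by
          field_simp
          ring
        rw [h5] at h4
        exact h4
      have h6 : x / 2 ≤ (x ^ 2 / 2 + 2 * x) * (log (x + 1) - log x) := by
        have h7 : x / 2 ≤ (x ^ 2 / 2 + 2 * x) * (1 / (x + 1)) := by
          rw [mul_one_div, le_div_iff₀ (by positivity)]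
          nlinarith
        exact h7.trans (mul_le_mul_of_nonneg_left h3 (by positivity))
      have h8 : 0 ≤ log (x + 1) := Real.log_nonneg (by linarith)
      nlinarith
-- END LL_le

-- BEGIN floor_diff
/-- PROOF. `⌊a⌋₊ ≤ a < ⌊a⌋₊ + 1`, and `max` is 1-Lipschitz; cast of the truncated difference. -/
theorem floor_diff (a b : ℝ) (ha : 0 ≤ a) (hb : 0 ≤ b) :
    |((⌊a⌋₊ - ⌊b⌋₊ : ℕ) : ℝ) - max (a - b) 0| ≤ 1 := by
  have h1 := Nat.floor_le ha
  have h2 := Nat.lt_floor_add_one a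
  have h3 := Nat.floor_le hb
  have h4 := Nat.lt_floor_add_one b
  rcases le_total ⌊b⌋₊ ⌊a⌋₊ with h | h
  · rw [Nat.cast_sub h]
    have h' : (⌊b⌋₊ : ℝ) ≤ ⌊a⌋₊ := by exact_mod_cast h
    rcases le_total (a - b) 0 with h5 | h5
    · rw [max_eq_right h5, abs_le]
      constructor <;> linarith
    · rw [max_eq_left h5, abs_le]
      constructor <;> linarith
  · rw [Nat.sub_eq_zero_of_le h]
    have h' : (⌊a⌋₊ : ℝ) ≤ ⌊b⌋₊ := by exact_mod_cast h
    rcases le_total (a - b) 0 with h5 | h5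
    · rw [max_eq_right h5]
      simp
    · rw [max_eq_left h5, abs_le]
      push_cast
      constructor <;> linarith
-- END floor_diff

-- BEGIN D_lim
/-- PROOF. `|D k / k - δ| ≤ 1 / k`. -/
theorem D_lim (D : ℕ → ℕ) (δ : ℝ) (hD : ∀ k : ℕ, |(D k : ℝ) - k * δ| ≤ 1) :
    Tendsto (fun k : ℕ => (D k : ℝ) / k) atTop (𝓝 δ) := by
  rw [tendsto_iff_dist_tendsto_zero]
  have h1 : Tendsto (fun k : ℕ => 1 / (k : ℝ)) atTop (𝓝 0) := tendsto_one_div_atTop_nhds_zero_nat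
  refine squeeze_zero' (Eventually.of_forall fun k => dist_nonneg) ?_ h1
  filter_upwards [eventually_gt_atTop 0] with k hk
  have hk0 : (0 : ℝ) < k := by exact_mod_cast hk
  rw [Real.dist_eq]
  have h2 : (D k : ℝ) / k - δ = ((D k : ℝ) - k * δ) / k := by
    field_simp
  rw [h2, abs_div, abs_of_pos hk0]
  exact div_le_div_of_nonneg_right (hD k) hk0.le

/-- PROOF. For `k ≥ 1`, `log (D k) = log (D k / k) + log k` if `D k ≠ 0`, so the expression is
`(D k / k)² (c + log (D k / k))`; the function `t ↦ t² (c + log t) = c t² + t * (t * log t)` is continuous (`Real.continuous_mul_log`). -/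
theorem term_lim (D : ℕ → ℕ) (δ c : ℝ) (hD : ∀ k : ℕ, |(D k : ℝ) - k * δ| ≤ 1) :
    Tendsto (fun k : ℕ => (D k : ℝ) ^ 2 * (c + log (D k)) / (k : ℝ) ^ 2 -
      (D k : ℝ) ^ 2 / (k : ℝ) ^ 2 * log k) atTop (𝓝 (δ ^ 2 * (c + log δ))) := by
  have hcont : Continuous fun t : ℝ => c * t ^ 2 + t * (t * log t) :=
    (continuous_const.mul (continuous_pow 2)).add (continuous_id.mul Real.continuous_mul_log)
  have h1 := (hcont.tendsto δ).comp (D_lim D δ hD)
  have e1 : δ ^ 2 * (c + log δ) = c * δ ^ 2 + δ * (δ * log δ) := by ring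
  rw [e1]
  refine h1.congr' ?_
  filter_upwards [eventually_gt_atTop 0] with k hk
  have hk0 : (0 : ℝ) < k := by exact_mod_cast hk
  show c * ((D k : ℝ) / k) ^ 2 + (D k : ℝ) / k * ((D k : ℝ) / k * log ((D k : ℝ) / k)) = _
  rcases Nat.eq_zero_or_pos (D k) with h0 | h0
  · rw [h0]
    simp
  · have hD0 : (0 : ℝ) < D k := by exact_mod_cast h0
    rw [Real.log_div hD0.ne' hk0.ne']
    field_simp
    ring
-- END D_lim

-- BEGIN err_lim
/-- PROOF. `D k ≤ C k`, and `log k / k → 0`. -/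
theorem err_lim (D : ℕ → ℕ) (δ c : ℝ) (hD : ∀ k : ℕ, |(D k : ℝ) - k * δ| ≤ 1) :
    Tendsto (fun k : ℕ => (c * (D k : ℝ) + 4 * ((D k : ℝ) * log (D k)) + 2 * (D k : ℝ)) / (k : ℝ) ^ 2)
      atTop (𝓝 0) := by
  have h1 := D_lim D δ hD
  have h2 : Tendsto (fun k : ℕ => 1 / (k : ℝ)) atTop (𝓝 0) := tendsto_one_div_atTop_nhds_zero_nat
  have hcont : Continuous fun t : ℝ => t * log t := Real.continuous_mul_log
  have h3 := (hcont.tendsto δ).comp h1
  have h4 : Tendsto (fun k : ℕ => log (k : ℝ) / k) atTop (𝓝 0) := by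
    exact Real.isLittleO_log_id_atTop.tendsto_div_nhds_zero.comp
      (tendsto_natCast_atTop_atTop (R := ℝ))
  -- D log D / k^2 = (D/k) log (D/k) / k + (D/k) (log k / k)
  have h5 : Tendsto (fun k : ℕ => c * ((D k : ℝ) / k) * (1 / (k : ℝ)) +
      4 * (((D k : ℝ) / k * log ((D k : ℝ) / k)) * (1 / (k : ℝ)) +
        (D k : ℝ) / k * (log (k : ℝ) / k)) + 2 * ((D k : ℝ) / k) * (1 / (k : ℝ))) atTop
      (𝓝 (c * δ * 0 + 4 * ((δ * log δ) * 0 + δ * 0) + 2 * δ * 0)) := by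
    refine (((h1.const_mul c).mul h2).add ?_).add ((h1.const_mul 2).mul h2)
    exact ((h3.mul h2).add (h1.mul h4)).const_mul 4
  have e0 : c * δ * 0 + 4 * ((δ * log δ) * 0 + δ * 0) + 2 * δ * 0 = 0 := by ring
  rw [e0] at h5
  refine h5.congr' ?_
  filter_upwards [eventually_gt_atTop 0] with k hk
  have hk0 : (0 : ℝ) < k := by exact_mod_cast hk
  rcases Nat.eq_zero_or_pos (D k) with h0 | h0
  · rw [h0]
    simp
  · have hD0 : (0 : ℝ) < D k := by exact_mod_cast h0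
    rw [Real.log_div hD0.ne' hk0.ne']
    field_simp
    ring
-- END err_lim

-- BEGIN fact_lim
/-- PROOF. `n k / k² → A / 2 > 0`; the expression is `u (log u - 1)` with `u = n k / k²` as soon as `u > 0`, `k > 0`
(`log (n k) = log u + 2 log k`). -/
theorem fact_lim (n : ℕ → ℕ) (A C : ℝ) (hA : 0 < A)
    (hn : ∀ k : ℕ, |2 * (n k : ℝ) - A * (k : ℝ) ^ 2| ≤ C * k) :
    Tendsto (fun k : ℕ => ((n k : ℝ) * log (n k) - n k) / (k : ℝ) ^ 2 -
      2 * (n k : ℝ) / (k : ℝ) ^ 2 * log k) atTop (𝓝 (A / 2 * (log (A / 2) - 1))) := by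
  have h2 : Tendsto (fun k : ℕ => C / 2 * (1 / (k : ℝ))) atTop (𝓝 (C / 2 * 0)) :=
    tendsto_one_div_atTop_nhds_zero_nat.const_mul _
  rw [mul_zero] at h2
  have h1 : Tendsto (fun k : ℕ => (n k : ℝ) / (k : ℝ) ^ 2) atTop (𝓝 (A / 2)) := by
    rw [tendsto_iff_dist_tendsto_zero]
    refine squeeze_zero' (Eventually.of_forall fun k => dist_nonneg) ?_ h2
    filter_upwards [eventually_gt_atTop 0] with k hk
    have hk0 : (0 : ℝ) < k := by exact_mod_cast hk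
    rw [Real.dist_eq]
    have e1 : (n k : ℝ) / (k : ℝ) ^ 2 - A / 2 = (2 * (n k : ℝ) - A * (k : ℝ) ^ 2) / (2 * (k : ℝ) ^ 2) := by
      field_simp
    rw [e1, abs_div, abs_of_pos (show (0 : ℝ) < 2 * (k : ℝ) ^ 2 by positivity)]
    rw [div_le_iff₀ (by positivity)]
    refine (hn k).trans (le_of_eq ?_)
    field_simp
  have hA2 : A / 2 ≠ 0 := by positivity
  have h3 : Tendsto (fun k : ℕ => (n k : ℝ) / (k : ℝ) ^ 2 * (log ((n k : ℝ) / (k : ℝ) ^ 2) - 1))
      atTop (𝓝 (A / 2 * (log (A / 2) - 1))) :=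
    h1.mul ((h1.log hA2).sub_const 1)
  refine h3.congr' ?_
  filter_upwards [eventually_gt_atTop 0, h1.eventually (lt_mem_nhds (show 0 < A / 2 by positivity))]
    with k hk hu
  have hk0 : (0 : ℝ) < k := by exact_mod_cast hk
  have hn0 : (0 : ℝ) < n k := by
    by_contra hcon
    have : (n k : ℝ) = 0 := le_antisymm (not_lt.1 hcon) (Nat.cast_nonneg _)
    rw [this, zero_div] at hu
    exact lt_irrefl _ hu
  rw [Real.log_div hn0.ne' (by positivity), Real.log_pow]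
  push_cast
  field_simp
  ring
-- END fact_lim

-- BEGIN cross_lim
/-- PROOF. `|Q k - R k| / k² * log k ≤ C log k / k → 0`. -/
theorem cross_lim (Q R : ℕ → ℝ) (C : ℝ) (h : ∀ k : ℕ, |Q k - R k| ≤ C * k) :
    Tendsto (fun k : ℕ => Q k / (k : ℝ) ^ 2 * log k - R k / (k : ℝ) ^ 2 * log k) atTop (𝓝 0) := by
  have h4 : Tendsto (fun k : ℕ => log (k : ℝ) / k) atTop (𝓝 0) := by
    exact Real.isLittleO_log_id_atTop.tendsto_div_nhds_zero.comp
      (tendsto_natCast_atTop_atTop (R := ℝ))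
  have h5 : Tendsto (fun k : ℕ => C * (log (k : ℝ) / k)) atTop (𝓝 0) := by
    have := h4.const_mul C
    rwa [mul_zero] at this
  refine squeeze_zero_norm' ?_ h5
  filter_upwards [eventually_gt_atTop 0] with k hk
  have hk0 : (0 : ℝ) < k := by exact_mod_cast hk
  have hk1 : (1 : ℝ) ≤ k := by exact_mod_cast hk
  have hl : 0 ≤ log (k : ℝ) := Real.log_nonneg hk1
  rw [← sub_mul, ← sub_div, Real.norm_eq_abs, abs_mul, abs_div, abs_of_nonneg hl,
    abs_of_pos (show (0 : ℝ) < (k : ℝ) ^ 2 by positivity)]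
  calc |Q k - R k| / (k : ℝ) ^ 2 * log k ≤ C * k / (k : ℝ) ^ 2 * log k :=
        mul_le_mul_of_nonneg_right (div_le_div_of_nonneg_right (h k) (by positivity)) hl
    _ = C * (log (k : ℝ) / k) := by
        field_simp
-- END cross_lim

-- BEGIN D_bounds
/-- PROOF. For `k ≥ 1`: `|D² - k² δ²| ≤ 2 k δ + 1`, `D ≤ k δ + 1`; for `k = 0` all `D` are zero. -/
theorem D_bounds {ι : Type} [Fintype ι] (D : ι → ι → ℕ → ℕ) (δ : ι → ι → ℝ)
    (hδ : ∀ i j, 0 ≤ δ i j) (hD0 : ∀ i j, D i j 0 = 0)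
    (hD : ∀ i j, ∀ k : ℕ, |(D i j k : ℝ) - k * δ i j| ≤ 1) (n : ℕ → ℕ)
    (h1 : ∀ k, ∑ i, ∑ j, (D i j k : ℝ) * ((D i j k : ℝ) - 1) ≤ 2 * (n k : ℝ))
    (h2 : ∀ k, 2 * (n k : ℝ) ≤ ∑ i, ∑ j, (D i j k : ℝ) * ((D i j k : ℝ) + 1)) :
    ∃ C : ℝ, 0 ≤ C ∧ (∀ k : ℕ, |2 * (n k : ℝ) - (∑ i, ∑ j, δ i j ^ 2) * (k : ℝ) ^ 2| ≤ C * k) ∧
      (∀ k : ℕ, |∑ i, ∑ j, (D i j k : ℝ) ^ 2 - 2 * (n k : ℝ)| ≤ C * k) := by
  have hsq : ∀ i j, ∀ k : ℕ, |(D i j k : ℝ) ^ 2 - δ i j ^ 2 * (k : ℝ) ^ 2| ≤ k * (2 * δ i j + 1) := by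
    intro i j k
    rcases Nat.eq_zero_or_pos k with hk | hk
    · subst hk
      rw [hD0]
      simp
    · have hk1 : (1 : ℝ) ≤ k := by exact_mod_cast hk
      have h3 := hδ i j
      have h4 := hD i j k
      have h5 : (D i j k : ℝ) ^ 2 - δ i j ^ 2 * (k : ℝ) ^ 2 =
          ((D i j k : ℝ) - k * δ i j) * (((D i j k : ℝ) - k * δ i j) + 2 * (k * δ i j)) := by ring
      rw [h5, abs_mul]
      have h6 : |((D i j k : ℝ) - k * δ i j) + 2 * (k * δ i j)| ≤ 1 + 2 * (k * δ i j) := by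
        refine (abs_add_le _ _).trans ?_
        rw [abs_of_nonneg (by positivity : (0 : ℝ) ≤ 2 * (k * δ i j))]
        linarith
      have h7 : |(D i j k : ℝ) - k * δ i j| * |((D i j k : ℝ) - k * δ i j) + 2 * (k * δ i j)| ≤
          1 * (1 + 2 * (k * δ i j)) := mul_le_mul h4 h6 (abs_nonneg _) (by norm_num)
      nlinarith
  have hlin : ∀ i j, ∀ k : ℕ, (D i j k : ℝ) ≤ k * (δ i j + 1) := by
    intro i j k
    rcases Nat.eq_zero_or_pos k with hk | hk
    · subst hk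
      rw [hD0]
      simp
    · have hk1 : (1 : ℝ) ≤ k := by exact_mod_cast hk
      have h4 := (abs_le.1 (hD i j k)).2
      nlinarith
  have hA1 : ∀ k : ℕ, ∑ i, ∑ j, (D i j k : ℝ) ≤ (∑ i, ∑ j, (δ i j + 1)) * k := by
    intro k
    rw [Finset.sum_mul]
    refine Finset.sum_le_sum fun i _ => ?_
    rw [Finset.sum_mul]
    refine Finset.sum_le_sum fun j _ => ?_
    rw [mul_comm]
    exact hlin i j k
  have hA2 : ∀ k : ℕ, |∑ i, ∑ j, (D i j k : ℝ) ^ 2 - (∑ i, ∑ j, δ i j ^ 2) * (k : ℝ) ^ 2| ≤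
      (∑ i, ∑ j, (2 * δ i j + 1)) * k := by
    intro k
    rw [Finset.sum_mul, ← Finset.sum_sub_distrib, Finset.sum_mul]
    refine (Finset.abs_sum_le_sum_abs _ _).trans (Finset.sum_le_sum fun i _ => ?_)
    rw [Finset.sum_mul, ← Finset.sum_sub_distrib, Finset.sum_mul]
    refine (Finset.abs_sum_le_sum_abs _ _).trans (Finset.sum_le_sum fun j _ => ?_)
    rw [mul_comm (2 * δ i j + 1)]
    exact hsq i j k
  have hP1 : 0 ≤ ∑ i, ∑ j, (δ i j + 1) := Finset.sum_nonneg fun i _ => Finset.sum_nonneg fun j _ => by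
    have := hδ i j
    linarith
  have hP2 : 0 ≤ ∑ i, ∑ j, (2 * δ i j + 1) := Finset.sum_nonneg fun i _ => Finset.sum_nonneg fun j _ => by
    have := hδ i j
    linarith
  have hA3 : ∀ k : ℕ, |∑ i, ∑ j, (D i j k : ℝ) ^ 2 - 2 * (n k : ℝ)| ≤ (∑ i, ∑ j, (δ i j + 1)) * k := by
    intro k
    have e1 : ∑ i, ∑ j, (D i j k : ℝ) * ((D i j k : ℝ) - 1) = ∑ i, ∑ j, (D i j k : ℝ) ^ 2 - ∑ i, ∑ j, (D i j k : ℝ) := by
      rw [← Finset.sum_sub_distrib]
      refine Finset.sum_congr rfl fun i _ => ?_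
      rw [← Finset.sum_sub_distrib]
      exact Finset.sum_congr rfl fun j _ => by ring
    have e2 : ∑ i, ∑ j, (D i j k : ℝ) * ((D i j k : ℝ) + 1) = ∑ i, ∑ j, (D i j k : ℝ) ^ 2 + ∑ i, ∑ j, (D i j k : ℝ) := by
      rw [← Finset.sum_add_distrib]
      refine Finset.sum_congr rfl fun i _ => ?_
      rw [← Finset.sum_add_distrib]
      exact Finset.sum_congr rfl fun j _ => by ring
    have h3 := h1 k
    have h4 := h2 k
    rw [e1] at h3
    rw [e2] at h4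
    have h5 := hA1 k
    rw [abs_le]
    constructor <;> linarith
  refine ⟨∑ i, ∑ j, (δ i j + 1) + ∑ i, ∑ j, (2 * δ i j + 1), add_nonneg hP1 hP2, fun k => ?_, fun k => ?_⟩
  · have h3 := hA3 k
    have h4 := hA2 k
    rw [add_mul, abs_le] at *
    constructor <;> linarith [h3.1, h3.2, h4.1, h4.2]
  · have hk : (0 : ℝ) ≤ k := Nat.cast_nonneg k
    refine (hA3 k).trans ?_
    rw [add_mul]
    have := mul_nonneg hP2 hk
    linarith
-- END D_bounds

-- BEGIN asym_one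
/-- PROOF. By `sum_hook_eq`, `LL_le` the first sum is at most `∑ i j, (D² (log p - 3/2 + log D) + (log p D + 4 D log D + 2 D))`, by `log_fact_ge`
`log (n k)! ≥ n log n - n`. Divide by `k²`: `∑ (D²(c + log D)/k² - D²/k² log k) → ∑ δ²(c + log δ)` (`term_lim`, `c = log p - 3/2`), the error tends
to zero (`err_lim`), `(∑ D²)/k² log k - 2 n/k² log k → 0` (`cross_lim`), `fact_lim`. The limit of an upper bound of
`(left side)/k²` is the constant without `η`. -/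
theorem asym_one {ι : Type} [Fintype ι] (p : ℕ) (hp : 0 < p) (D : ι → ι → ℕ → ℕ) (δ : ι → ι → ℝ)
    (hδ : ∀ i j, 0 ≤ δ i j) (hA : 0 < ∑ i, ∑ j, δ i j ^ 2) (hD0 : ∀ i j, D i j 0 = 0)
    (hD : ∀ i j, ∀ k : ℕ, |(D i j k : ℝ) - k * δ i j| ≤ 1) (n : ℕ → ℕ)
    (h1 : ∀ k, ∑ i, ∑ j, (D i j k : ℝ) * ((D i j k : ℝ) - 1) ≤ 2 * (n k : ℝ))
    (h2 : ∀ k, 2 * (n k : ℝ) ≤ ∑ i, ∑ j, (D i j k : ℝ) * ((D i j k : ℝ) + 1))
    (η : ℝ) (hη : 0 < η) :
    ∃ K : ℕ, ∀ k ≥ K, 2 * ∑ i, ∑ j, ∑ d ∈ Finset.range (D i j k),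
        ((D i j k : ℝ) - d) * log ((p : ℝ) * ((d : ℝ) + 1)) - log ((n k).factorial : ℝ) ≤
      ((∑ i, ∑ j, δ i j ^ 2 * (log p - 3 / 2 + log (δ i j))) -
        (∑ i, ∑ j, δ i j ^ 2) / 2 * (log ((∑ i, ∑ j, δ i j ^ 2) / 2) - 1) + η) * (k : ℝ) ^ 2 := by
  obtain ⟨C, hC0, hC1, hC2⟩ := D_bounds D δ hδ hD0 hD n h1 h2
  have T1 : Tendsto (fun k : ℕ => ∑ i, ∑ j, ((D i j k : ℝ) ^ 2 * ((log p - 3 / 2) + log (D i j k)) / (k : ℝ) ^ 2 -
      (D i j k : ℝ) ^ 2 / (k : ℝ) ^ 2 * log k)) atTop (𝓝 (∑ i, ∑ j, (δ i j ^ 2 * ((log p - 3 / 2) + log (δ i j))))) :=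
    tendsto_finsetSum _ fun i _ => tendsto_finsetSum _ fun j _ => term_lim (D i j) (δ i j) (log p - 3 / 2) (hD i j)
  have T2 : Tendsto (fun k : ℕ => ∑ i, ∑ j, ((log p * (D i j k : ℝ) + 4 * ((D i j k : ℝ) * log (D i j k)) +
      2 * (D i j k : ℝ)) / (k : ℝ) ^ 2)) atTop (𝓝 (∑ _i : ι, ∑ _j : ι, 0)) :=
    tendsto_finsetSum _ fun i _ => tendsto_finsetSum _ fun j _ => err_lim (D i j) (δ i j) (log p) (hD i j)
  have T3 := fact_lim n (∑ i, ∑ j, δ i j ^ 2) C hA hC1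
  have T4 := cross_lim (fun k => ∑ i, ∑ j, (D i j k : ℝ) ^ 2) (fun k => 2 * (n k : ℝ)) C hC2
  have T := ((T1.add T2).add T4).sub T3
  have hev := T.eventually_lt_const (lt_add_of_pos_right _ hη)
  obtain ⟨K, hK⟩ := eventually_atTop.1 (hev.and (eventually_ge_atTop 1))
  refine ⟨K, fun k hk => ?_⟩
  obtain ⟨h3, h4⟩ := hK k hk
  have hk1 : (1 : ℝ) ≤ k := by exact_mod_cast h4
  have hk2 : (0 : ℝ) < (k : ℝ) ^ 2 := by positivity
  simp only [Finset.sum_const_zero, add_zero, Finset.sum_sub_distrib, ← Finset.sum_div, ← Finset.sum_mul] at h3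
  have h5 : 2 * ∑ i, ∑ j, ∑ d ∈ Finset.range (D i j k), ((D i j k : ℝ) - d) * log ((p : ℝ) * ((d : ℝ) + 1)) ≤
      ∑ i, ∑ j, (D i j k : ℝ) ^ 2 * ((log p - 3 / 2) + log (D i j k)) +
      ∑ i, ∑ j, (log p * (D i j k : ℝ) + 4 * ((D i j k : ℝ) * log (D i j k)) + 2 * (D i j k : ℝ)) := by
    rw [Finset.mul_sum, ← Finset.sum_add_distrib]
    refine Finset.sum_le_sum fun i _ => ?_
    rw [Finset.mul_sum, ← Finset.sum_add_distrib]
    refine Finset.sum_le_sum fun j _ => ?_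
    rw [sum_hook_eq p hp]
    have h6 := LL_le (D i j k)
    nlinarith
  have h7 := log_fact_ge (n k)
  obtain ⟨S1, hS1⟩ : ∃ S1, S1 = ∑ i, ∑ j, (D i j k : ℝ) ^ 2 * ((log p - 3 / 2) + log (D i j k)) := ⟨_, rfl⟩
  obtain ⟨S2, hS2⟩ : ∃ S2, S2 = ∑ i, ∑ j, (log p * (D i j k : ℝ) + 4 * ((D i j k : ℝ) * log (D i j k)) + 2 * (D i j k : ℝ)) := ⟨_, rfl⟩
  obtain ⟨Q, hQ⟩ : ∃ Q, Q = ∑ i, ∑ j, (D i j k : ℝ) ^ 2 := ⟨_, rfl⟩
  rw [← hS1, ← hS2] at h5
  rw [← hS1, ← hS2, ← hQ] at h3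
  have h8 : (S1 / (k : ℝ) ^ 2 - Q / (k : ℝ) ^ 2 * log k + S2 / (k : ℝ) ^ 2 +
      (Q / (k : ℝ) ^ 2 * log k - 2 * (n k : ℝ) / (k : ℝ) ^ 2 * log k) -
      (((n k : ℝ) * log (n k) - n k) / (k : ℝ) ^ 2 - 2 * (n k : ℝ) / (k : ℝ) ^ 2 * log k)) * (k : ℝ) ^ 2 =
      S1 + S2 - ((n k : ℝ) * log (n k) - n k) := by
    field_simp
    ring
  have h9 := mul_le_mul_of_nonneg_right h3.le hk2.le
  rw [h8] at h9
  refine le_trans ?_ h9
  linarith
-- END asym_one

-- BEGIN choose_k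
/-- PROOF. `k` = the greatest `k` with `A k² + C k ≤ 2 N` (for `N` large `k ≥ K`); then `n k ≤ N`, `A k² ≤ 2 N`, and
`2 N < A (k + 1)² + C (k + 1)`, so `2 N - 2 n k ≤ A (2 k + 1) + C (2 k + 1)`, `k ≤ √(2 N / A)`. -/
theorem choose_k (n : ℕ → ℕ) (A C : ℝ) (hA : 0 < A) (hC : 0 ≤ C)
    (hn : ∀ k : ℕ, |2 * (n k : ℝ) - A * (k : ℝ) ^ 2| ≤ C * k) (K : ℕ) :
    ∃ C' : ℝ, ∃ N0 : ℕ, ∀ N ≥ N0, ∃ k ≥ K, n k ≤ N ∧ A * (k : ℝ) ^ 2 ≤ 2 * N ∧
      (N : ℝ) - n k ≤ C' * √N := by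
  refine ⟨(A + C) * (2 * √(2 / A) + 1), ⌈A * (K : ℝ) ^ 2 + C * K⌉₊ + 1, fun N hN => ?_⟩
  have hN1 : A * (K : ℝ) ^ 2 + C * K ≤ 2 * N := by
    have h1 := Nat.le_ceil (A * (K : ℝ) ^ 2 + C * K)
    have h2 : ((⌈A * (K : ℝ) ^ 2 + C * K⌉₊ + 1 : ℕ) : ℝ) ≤ N := by exact_mod_cast hN
    push_cast at h2
    have h3 : (0 : ℝ) ≤ N := Nat.cast_nonneg N
    linarith
  have hN2 : (1 : ℝ) ≤ N := by
    have : 1 ≤ N := by omega
    exact_mod_cast this
  have hex : ∃ k : ℕ, 2 * (N : ℝ) < A * ((k : ℝ) + 1) ^ 2 + C * ((k : ℝ) + 1) := by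
    obtain ⟨k, hk⟩ := exists_nat_gt (2 * (N : ℝ) / A)
    rw [div_lt_iff₀ hA] at hk
    refine ⟨k, ?_⟩
    have h1 : (0 : ℝ) ≤ k := Nat.cast_nonneg k
    have h2 : (k : ℝ) * A ≤ A * ((k : ℝ) + 1) ^ 2 := by nlinarith
    have h3 : 0 ≤ C * ((k : ℝ) + 1) := by positivity
    linarith
  classical
  set k := Nat.find hex with hkdef
  have hk := Nat.find_spec hex
  rw [← hkdef] at hk
  have hmin : ∀ j : ℕ, j < k → A * ((j : ℝ) + 1) ^ 2 + C * ((j : ℝ) + 1) ≤ 2 * (N : ℝ) := by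
    intro j hj
    exact not_lt.1 (Nat.find_min hex hj)
  have hkN : A * (k : ℝ) ^ 2 + C * k ≤ 2 * N := by
    rcases Nat.eq_zero_or_pos k with h0 | h0
    · rw [h0]
      push_cast
      linarith
    · have := hmin (k - 1) (by omega)
      have e1 : ((k - 1 : ℕ) : ℝ) + 1 = k := by
        rw [Nat.cast_sub (by omega)]
        push_cast
        ring
      rwa [e1] at this
  have hKk : K ≤ k := by
    by_contra hcon
    have h1 : ((k : ℝ) + 1) ≤ K := by exact_mod_cast (by omega : k + 1 ≤ K)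
    have h2 : (0 : ℝ) ≤ (k : ℝ) + 1 := by positivity
    have h3 : A * ((k : ℝ) + 1) ^ 2 ≤ A * (K : ℝ) ^ 2 :=
      mul_le_mul_of_nonneg_left (pow_le_pow_left₀ h2 h1 2) hA.le
    have h4 : C * ((k : ℝ) + 1) ≤ C * K := mul_le_mul_of_nonneg_left h1 hC
    linarith
  have hnk := abs_le.1 (hn k)
  have hk0 : (0 : ℝ) ≤ k := Nat.cast_nonneg k
  have hCk : 0 ≤ C * k := mul_nonneg hC hk0
  refine ⟨k, hKk, ?_, by linarith, ?_⟩
  · have : 2 * (n k : ℝ) ≤ 2 * N := by linarith [hnk.2]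
    have h2 : (n k : ℝ) ≤ N := by linarith
    exact_mod_cast h2
  · -- k ≤ √(2 / A) * √N
    have hks : (k : ℝ) ≤ √(2 / A) * √N := by
      rw [← Real.sqrt_mul (by positivity)]
      apply Real.le_sqrt_of_sq_le
      rw [div_mul_eq_mul_div, le_div_iff₀ hA]
      linarith
    have hs1 : 1 ≤ √(N : ℝ) := by
      rw [Real.one_le_sqrt]
      exact hN2
    have h1 : 2 * (N : ℝ) - 2 * n k ≤ (A + C) * (2 * k + 1) := by
      have := hnk.1
      nlinarith
    have h2 : 2 * (k : ℝ) + 1 ≤ (2 * √(2 / A) + 1) * √N := by linarith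
    have h3 : (A + C) * (2 * k + 1) ≤ (A + C) * ((2 * √(2 / A) + 1) * √N) :=
      mul_le_mul_of_nonneg_left h2 (by positivity)
    have h4 : 0 ≤ (A + C) * ((2 * √(2 / A) + 1) * √N) := by positivity
    have h5 : (A + C) * (2 * √(2 / A) + 1) * √N = (A + C) * ((2 * √(2 / A) + 1) * √N) := by ring
    rw [h5]
    linarith
-- END choose_k

-- BEGIN fact_ratio
/-- PROOF. `N! = n! * (n + 1) ... N ≤ n! * N ^ (N - n)`. -/
theorem fact_ratio (n N : ℕ) (h : n ≤ N) :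
    log (N.factorial : ℝ) ≤ log (n.factorial : ℝ) + ((N : ℝ) - n) * log N := by
  rcases Nat.eq_zero_or_pos N with rfl | hN
  · have : n = 0 := by omega
    subst this
    simp
  have h1 : N.factorial ≤ n.factorial * N ^ (N - n) := by
    have e1 := Nat.factorial_mul_descFactorial (show N - n ≤ N by omega)
    rw [← e1, Nat.sub_sub_self h]
    exact Nat.mul_le_mul_left _ (Nat.descFactorial_le_pow N (N - n))
  have hN0 : (0 : ℝ) < N := by exact_mod_cast hN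
  have hf : (0 : ℝ) < n.factorial := by exact_mod_cast Nat.factorial_pos n
  have hF : (0 : ℝ) < N.factorial := by exact_mod_cast Nat.factorial_pos N
  have h2 : (N.factorial : ℝ) ≤ n.factorial * (N : ℝ) ^ (N - n) := by exact_mod_cast h1
  have h3 := Real.log_le_log hF h2
  rw [Real.log_mul hf.ne' (by positivity), Real.log_pow, Nat.cast_sub h] at h3
  exact h3
-- END fact_ratio

-- BEGIN asym_two
/-- PROOF. `choose_k`, `fact_ratio`: `f N ≥ f (n k) ≥ log (n k)! - c (A / 2) k² ≥ log N! - C' √N log N - c N`, and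
`C' √N log N ≤ (c' - c) N` for large `N` (`log N / √N → 0`). -/
theorem asym_two (n : ℕ → ℕ) (A C c c' : ℝ) (hA : 0 < A) (hC : 0 ≤ C) (hc0 : 0 ≤ c)
    (hn : ∀ k : ℕ, |2 * (n k : ℝ) - A * (k : ℝ) ^ 2| ≤ C * k) (hc : c < c') (K : ℕ) :
    ∃ N0 : ℕ, ∀ f : ℕ → ℝ, Monotone f →
      (∀ k ≥ K, log ((n k).factorial : ℝ) - c * (A / 2) * (k : ℝ) ^ 2 ≤ f (n k)) →
      ∀ N ≥ N0, log (N.factorial : ℝ) - c' * N ≤ f N := by
  obtain ⟨C', N1, hN1⟩ := choose_k n A C hA hC hn K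
  have hε : 0 < (c' - c) / (|C'| + 1) := by
    have := abs_nonneg C'
    exact div_pos (by linarith) (by linarith)
  have h1 := (isLittleO_log_rpow_atTop (r := 1 / 2) (by norm_num)).def hε
  obtain ⟨x0, hx0⟩ := eventually_atTop.1 h1
  obtain ⟨N2, hN2⟩ := exists_nat_ge x0
  refine ⟨max N1 (max N2 1), fun f hf hfk N hN => ?_⟩
  have hNa : N1 ≤ N := (le_max_left _ _).trans hN
  have hNb : N2 ≤ N := ((le_max_left _ _).trans (le_max_right _ _)).trans hN
  have hNc : 1 ≤ N := ((le_max_right _ _).trans (le_max_right _ _)).trans hN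
  obtain ⟨k, hkK, hk1, hk2, hk3⟩ := hN1 N hNa
  have hNr : (1 : ℝ) ≤ N := by exact_mod_cast hNc
  have h2 := hx0 N (hN2.trans (by exact_mod_cast hNb))
  have hlog : 0 ≤ log (N : ℝ) := Real.log_nonneg hNr
  rw [Real.norm_of_nonneg hlog, Real.norm_of_nonneg (by positivity), ← Real.sqrt_eq_rpow] at h2
  have hs : 0 ≤ √(N : ℝ) := Real.sqrt_nonneg _
  have hss : √(N : ℝ) * √(N : ℝ) = N := Real.mul_self_sqrt (by linarith)
  have h3 : C' * √(N : ℝ) * log N ≤ (c' - c) * N := by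
    have h4 : C' ≤ |C'| + 1 := (le_abs_self C').trans (by linarith)
    have h5 : C' * √(N : ℝ) * log N ≤ (|C'| + 1) * √(N : ℝ) * ((c' - c) / (|C'| + 1) * √(N : ℝ)) := by
      have h6 : C' * √(N : ℝ) * log N ≤ (|C'| + 1) * √(N : ℝ) * log N :=
        mul_le_mul_of_nonneg_right (mul_le_mul_of_nonneg_right h4 hs) hlog
      exact h6.trans (mul_le_mul_of_nonneg_left h2 (by positivity))
    have h7 : (|C'| + 1) * √(N : ℝ) * ((c' - c) / (|C'| + 1) * √(N : ℝ)) = (c' - c) * (√(N : ℝ) * √(N : ℝ)) := by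
      have h8 : |C'| + 1 ≠ 0 := by
        have := abs_nonneg C'
        linarith
      field_simp
    rw [h7, hss] at h5
    exact h5
  have h4 := fact_ratio (n k) N hk1
  have h5 := hfk k hkK
  have h6 := hf hk1
  have h7 : ((N : ℝ) - n k) * log N ≤ C' * √(N : ℝ) * log N := mul_le_mul_of_nonneg_right hk3 hlog
  have h8 : c * (A / 2) * (k : ℝ) ^ 2 ≤ c * N := by
    have : c * (A * (k : ℝ) ^ 2) ≤ c * (2 * N) := mul_le_mul_of_nonneg_left hk2 hc0
    linarith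
  linarith
-- END asym_two

-- BEGIN val_bound
/-- PROOF. `sub_one_mul_padicValNat_factorial`: `(p - 1) v = N - (digit sum) ≥ N - (p - 1) * (Nat.digits p N).length`, the length is at most
`log_p N + 1`. So `log (N! / p ^ v) = log N! - v log p ≤ log N! - N log p / (p - 1) + (log N / log p + 2) log p`,
and `log p / (p - 1) ≥ 1 / p > 1 / p³` (`log p ≥ 1 - 1 / p`; `p² ≥ 4`), so for large `N` the right side plus `log 2` is at most `log N! - N / p³`. -/
theorem val_bound (p : ℕ) (hp : p.Prime) :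
    ∃ N0 : ℕ, ∀ N ≥ N0,
      2 * (pPrimePart p N.factorial : ℝ) ≤ (N.factorial : ℝ) * exp (-(N : ℝ) / (p : ℝ) ^ 3) := by
  have hp0 : (0 : ℝ) < p := by exact_mod_cast hp.pos
  have hp2 : (2 : ℝ) ≤ p := by exact_mod_cast hp.two_le
  refine ⟨⌈3 * (p : ℝ) * (log 2 + log p)⌉₊, fun N hN => ?_⟩
  have hN' : 3 * (p : ℝ) * (log 2 + log p) ≤ N :=
    (Nat.le_ceil _).trans (by exact_mod_cast hN)
  set v := N.factorial.factorization p with hv
  have hv1 : N / p ≤ v := by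
    have : Fact p.Prime := ⟨hp⟩
    rw [hv, Nat.factorization_def _ hp, padicValNat_factorial (Nat.lt_succ_self _)]
    rcases Nat.eq_zero_or_pos (Nat.log p N) with h0 | h0
    · have h2 : N < p := by
        by_contra hcon
        have := Nat.log_pos hp.one_lt (not_lt.1 hcon)
        omega
      rw [Nat.div_eq_of_lt h2]
      exact Nat.zero_le _
    · have h3 : N / p ^ 1 ≤ ∑ i ∈ Finset.Ico 1 (Nat.log p N).succ, N / p ^ i :=
        Finset.single_le_sum (f := fun i => N / p ^ i) (fun i _ => Nat.zero_le _)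
          (Finset.mem_Ico.2 ⟨le_refl 1, by omega⟩)
      rwa [pow_one] at h3
  have hv2 : (N : ℝ) / p - 1 ≤ v := by
    have h1 : (N : ℝ) / p < ((N / p : ℕ) : ℝ) + 1 := by
      rw [div_lt_iff₀ hp0]
      have h2 : N < (N / p + 1) * p := by
        have := Nat.lt_div_mul_add hp.pos (a := N)
        rw [Nat.add_mul, one_mul]
        exact this
      exact_mod_cast h2
    have h3 : ((N / p : ℕ) : ℝ) ≤ v := by exact_mod_cast hv1
    linarith
  have hl2 : (0.69 : ℝ) < log 2 := by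
    have := Real.log_two_gt_d9
    linarith
  have hlp : log 2 ≤ log p := Real.log_le_log (by norm_num) hp2
  have hmain : log 2 + (N : ℝ) / (p : ℝ) ^ 3 ≤ v * log p := by
    have h1 : ((N : ℝ) / p - 1) * log p ≤ v * log p :=
      mul_le_mul_of_nonneg_right hv2 (by linarith)
    have h2 : (N : ℝ) / (p : ℝ) ^ 3 ≤ (N : ℝ) / p * (1 / 4) := by
      have e1 : (N : ℝ) / (p : ℝ) ^ 3 = (N : ℝ) / p * (1 / (p : ℝ) ^ 2) := by
        field_simp
      rw [e1]
      refine mul_le_mul_of_nonneg_left ?_ (by positivity)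
      apply one_div_le_one_div_of_le (by norm_num)
      nlinarith
    have h3 : (N : ℝ) / p * 0.69 ≤ (N : ℝ) / p * log p :=
      mul_le_mul_of_nonneg_left (by linarith) (by positivity)
    have h4 : 3 * (log 2 + log p) ≤ (N : ℝ) / p := by
      rw [le_div_iff₀ hp0]
      linarith
    have h5 : log 2 + log p ≤ (N : ℝ) / p * 0.44 := by
      have h6 : 0 < log 2 + log p := by linarith
      nlinarith
    nlinarith
  have hpv : 2 * exp ((N : ℝ) / (p : ℝ) ^ 3) ≤ (p : ℝ) ^ v := by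
    have e1 : (p : ℝ) ^ v = exp (v * log p) := by
      rw [mul_comm, ← Real.rpow_def_of_pos hp0, Real.rpow_natCast]
    have e2 : 2 * exp ((N : ℝ) / (p : ℝ) ^ 3) = exp (log 2 + (N : ℝ) / (p : ℝ) ^ 3) := by
      rw [Real.exp_add, Real.exp_log (by norm_num)]
    rw [e1, e2]
    exact Real.exp_le_exp.2 hmain
  have hdvd : p ^ v ∣ N.factorial := Nat.ordProj_dvd _ _
  unfold pPrimePart
  rw [← hv, Nat.cast_div hdvd (by exact_mod_cast (pow_pos hp.pos v).ne')]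
  push_cast
  rw [neg_div, Real.exp_neg]
  have hE := Real.exp_pos ((N : ℝ) / (p : ℝ) ^ 3)
  have hF : (0 : ℝ) < N.factorial := by exact_mod_cast Nat.factorial_pos N
  have hP : (0 : ℝ) < (p : ℝ) ^ v := by positivity
  rw [← div_eq_mul_inv, ← mul_div_assoc, div_le_div_iff₀ hP hE]
  calc 2 * (N.factorial : ℝ) * exp ((N : ℝ) / (p : ℝ) ^ 3)
      = (N.factorial : ℝ) * (2 * exp ((N : ℝ) / (p : ℝ) ^ 3)) := by ring
    _ ≤ (N.factorial : ℝ) * (p : ℝ) ^ v := mul_le_mul_of_nonneg_left hpv hF.le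
-- END val_bound

end Pool.Agent.Wil
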