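import Mathlib

set_option autoImplicit false

/-! Page F: the trigonometric sum. -/

namespace Pool.Agent.Wil

open Real

-- BEGIN hasSum_log
/-- PROOF. Real part of `Complex.hasSum_taylorSeries_neg_log` at `z = t * exp (I θ)`, `‖z‖ = t < 1`: the real part of `z ^ m` is
`t ^ m * cos (m θ)`, the real part of `- log (1 - z)` is `- log ‖1 - z‖`, and `‖1 - z‖ ^ 2 = 1 - 2 t cos θ + t ^ 2`. -/
theorem hasSum_log (t θ : ℝ) (ht0 : 0 ≤ t) (ht1 : t < 1) :
    HasSum (fun m : ℕ => t ^ m * cos (m * θ) / m) (-(log (1 - 2 * t * cos θ + t ^ 2) / 2)) := by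
  have hz : ‖(t : ℂ) * Complex.exp ((θ : ℂ) * Complex.I)‖ < 1 := by
    rw [norm_mul, Complex.norm_exp_ofReal_mul_I, mul_one, Complex.norm_real, Real.norm_eq_abs, abs_of_nonneg ht0]
    exact ht1
  have h := Complex.hasSum_taylorSeries_neg_log hz
  have h2 := Complex.reCLM.hasSum h
  have e1 : (fun n : ℕ => Complex.reCLM (((t : ℂ) * Complex.exp ((θ : ℂ) * Complex.I)) ^ n / (n : ℂ))) =
      fun m : ℕ => t ^ m * cos (m * θ) / m := by
    funext m
    have e : ((t : ℂ) * Complex.exp ((θ : ℂ) * Complex.I)) ^ m / (m : ℂ) =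
        ((t ^ m / m : ℝ) : ℂ) * Complex.exp (((m * θ : ℝ) : ℂ) * Complex.I) := by
      rw [mul_pow, ← Complex.exp_nat_mul]
      push_cast
      rw [show (m : ℂ) * ((θ : ℂ) * Complex.I) = (m : ℂ) * (θ : ℂ) * Complex.I by ring]
      ring
    simp only [Complex.reCLM_apply]
    rw [e, Complex.re_ofReal_mul, Complex.exp_ofReal_mul_I_re]
    ring
  have e2 : Complex.reCLM (-Complex.log (1 - (t : ℂ) * Complex.exp ((θ : ℂ) * Complex.I))) =
      -(log (1 - 2 * t * cos θ + t ^ 2) / 2) := by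
    simp only [Complex.reCLM_apply, Complex.neg_re, Complex.log_re]
    have hn : ‖1 - (t : ℂ) * Complex.exp ((θ : ℂ) * Complex.I)‖ ^ 2 = 1 - 2 * t * cos θ + t ^ 2 := by
      rw [← Complex.normSq_eq_norm_sq, Complex.normSq_apply]
      simp only [Complex.sub_re, Complex.one_re, Complex.sub_im, Complex.one_im, Complex.re_ofReal_mul,
        Complex.im_ofReal_mul, Complex.exp_ofReal_mul_I_re, Complex.exp_ofReal_mul_I_im]
      have := Real.sin_sq_add_cos_sq θ
      nlinarith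
    rw [← hn, Real.log_pow]
    push_cast
    ring
  rw [e1, e2] at h2
  exact h2
-- END hasSum_log

-- BEGIN sum_cos
/-- PROOF. Real part of the geometric sum of `exp (2 π I m / N)` (it is one iff `N ∣ m`). -/
theorem sum_cos (N : ℕ) (hN : 0 < N) (m : ℤ) :
    ∑ s ∈ Finset.range N, cos (2 * π * m * s / N) = if (N : ℤ) ∣ m then (N : ℝ) else 0 := by
  have hN' : (N : ℂ) ≠ 0 := by exact_mod_cast hN.ne'
  obtain ⟨z, hz⟩ : ∃ z : ℂ, z = Complex.exp (2 * π * Complex.I * m / N) := ⟨_, rfl⟩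
  have h1 : ∀ s : ℕ, cos (2 * π * m * s / N) = (z ^ s).re := by
    intro s
    have e : z ^ s = Complex.exp (((2 * π * m * s / N : ℝ) : ℂ) * Complex.I) := by
      rw [hz, ← Complex.exp_nat_mul]
      congr 1
      push_cast
      ring
    rw [e, Complex.exp_ofReal_mul_I_re]
  have h2 : ∑ s ∈ Finset.range N, cos (2 * π * m * s / N) = (∑ s ∈ Finset.range N, z ^ s).re := by
    rw [Complex.re_sum]
    exact Finset.sum_congr rfl fun s _ => h1 s
  have h3 : z ^ N = 1 := by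
    rw [hz, ← Complex.exp_nat_mul, Complex.exp_eq_one_iff]
    exact ⟨m, by field_simp⟩
  have h4 : z = 1 ↔ (N : ℤ) ∣ m := by
    rw [hz, Complex.exp_eq_one_iff]
    have hpi : (2 * π * Complex.I : ℂ) ≠ 0 := Complex.two_pi_I_ne_zero
    constructor
    · rintro ⟨n, hn⟩
      refine ⟨n, ?_⟩
      have h5 : (2 * π * Complex.I : ℂ) * m = (2 * π * Complex.I) * (N * n) := by
        rw [div_eq_iff hN'] at hn
        rw [hn]; ring
      have h6 := mul_left_cancel₀ hpi h5
      exact_mod_cast h6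
    · rintro ⟨n, hn⟩
      refine ⟨n, ?_⟩
      rw [hn]
      push_cast
      field_simp
  rw [h2]
  by_cases h : (N : ℤ) ∣ m
  · rw [if_pos h, h4.mpr h]
    simp
  · rw [if_neg h]
    have hz1 : z - 1 ≠ 0 := fun e => h (h4.mp (sub_eq_zero.mp e))
    have h7 : (∑ s ∈ Finset.range N, z ^ s) * (z - 1) = 0 := by
      rw [geom_sum_mul, h3, sub_self]
    rcases mul_eq_zero.mp h7 with h8 | h8
    · rw [h8]; simp
    · exact absurd h8 hz1
-- END sum_cos

-- BEGIN sum_q_cos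
/-- PROOF. `2 cos a cos (m a) = cos ((m + 1) a) + cos ((m - 1) a)` and `sum_cos` for `m`, `m + 1`, `m - 1`. -/
theorem sum_q_cos (N : ℕ) (hN : 0 < N) (m : ℕ) (hm : 1 ≤ m) :
    ∑ s ∈ Finset.range N, (1 - cos (2 * π * s / N)) * cos (m * (2 * π * s / N)) =
      (N : ℝ) * ((if N ∣ m then (1 : ℝ) else 0) - (if N ∣ m + 1 then (1 : ℝ) else 0) / 2 -
        (if N ∣ m - 1 then (1 : ℝ) else 0) / 2) := by
  have e : ∀ s ∈ Finset.range N, (1 - cos (2 * π * s / N)) * cos (m * (2 * π * s / N)) =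
      cos (2 * π * (((m : ℤ) : ℤ) : ℝ) * s / N) - cos (2 * π * (((m : ℤ) + 1 : ℤ) : ℝ) * s / N) / 2 -
        cos (2 * π * (((m : ℤ) - 1 : ℤ) : ℝ) * s / N) / 2 := by
    intro s _
    have e1 : 2 * π * (((m : ℤ) : ℤ) : ℝ) * s / N = m * (2 * π * s / N) := by
      push_cast
      ring
    have e2 : 2 * π * (((m : ℤ) + 1 : ℤ) : ℝ) * s / N = m * (2 * π * s / N) + 2 * π * s / N := by
      push_cast
      ring
    have e3 : 2 * π * (((m : ℤ) - 1 : ℤ) : ℝ) * s / N = m * (2 * π * s / N) - 2 * π * s / N := by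
      push_cast
      ring
    rw [e1, e2, e3, cos_add, cos_sub]
    ring
  rw [Finset.sum_congr rfl e, Finset.sum_sub_distrib, Finset.sum_sub_distrib, ← Finset.sum_div,
    ← Finset.sum_div, sum_cos N hN, sum_cos N hN, sum_cos N hN]
  have d1 : ((N : ℤ) ∣ (m : ℤ)) ↔ N ∣ m := Int.natCast_dvd_natCast
  have d2 : ((N : ℤ) ∣ (m : ℤ) + 1) ↔ N ∣ m + 1 := by
    rw [← Int.natCast_dvd_natCast]
    push_cast
    rfl
  have d3 : ((N : ℤ) ∣ (m : ℤ) - 1) ↔ N ∣ m - 1 := by
    rw [← Int.natCast_dvd_natCast, Nat.cast_sub hm]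
    push_cast
    rfl
  simp only [d1, d2, d3]
  split_ifs <;> ring
-- END sum_q_cos

-- BEGIN block_le
/-- PROOF. The derivative of the left side in `t` is `t ^ (M - 2) * (1 - t) ^ 2 / 2 ≥ 0` (`monotoneOn_of_deriv_nonneg` on `[0, 1]`), the value
at `t = 1` is the right side. -/
theorem block_le (M : ℕ) (hM : 2 ≤ M) (t : ℝ) (ht0 : 0 ≤ t) (ht1 : t ≤ 1) :
    t ^ (M - 1) / ((M : ℝ) - 1) / 2 + t ^ (M + 1) / ((M : ℝ) + 1) / 2 - t ^ M / M ≤
      1 / ((M : ℝ) * ((M : ℝ) ^ 2 - 1)) := by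
  obtain ⟨m, rfl⟩ := Nat.exists_eq_add_of_le' hM
  have e1 : m + 2 - 1 = m + 1 := rfl
  have e2 : ((m + 2 : ℕ) : ℝ) = (m : ℝ) + 2 := by push_cast; ring
  rw [e1, e2]
  have hm : (0 : ℝ) ≤ m := Nat.cast_nonneg m
  set f : ℝ → ℝ := fun s => s ^ (m + 1) / ((m : ℝ) + 2 - 1) / 2 +
    s ^ (m + 2 + 1) / ((m : ℝ) + 2 + 1) / 2 - s ^ (m + 2) / ((m : ℝ) + 2) with hf
  have hd : ∀ s : ℝ, HasDerivAt f (s ^ m * (1 - s) ^ 2 / 2) s := by
    intro s
    have h1 := ((hasDerivAt_pow (m + 1) s).div_const ((m : ℝ) + 2 - 1)).div_const 2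
    have h2 := ((hasDerivAt_pow (m + 2 + 1) s).div_const ((m : ℝ) + 2 + 1)).div_const 2
    have h3 := (hasDerivAt_pow (m + 2) s).div_const ((m : ℝ) + 2)
    have h4 := (h1.add h2).sub h3
    refine h4.congr_deriv ?_
    have a1 : (m : ℝ) + 2 - 1 ≠ 0 := by linarith
    have a2 : (m : ℝ) + 2 + 1 ≠ 0 := by linarith
    have a3 : (m : ℝ) + 2 ≠ 0 := by linarith
    simp only [Nat.add_sub_cancel]
    have e3 : m + 2 - 1 = m + 1 := rfl
    rw [e3]
    push_cast
    rw [show (m : ℝ) + 1 = (m : ℝ) + 2 - 1 by ring]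
    field_simp
    ring
  have hmono : MonotoneOn f (Set.Icc 0 1) := by
    apply monotoneOn_of_deriv_nonneg (convex_Icc 0 1)
    · exact fun s _ => (hd s).continuousAt.continuousWithinAt
    · exact fun s _ => (hd s).differentiableAt.differentiableWithinAt
    · intro s hs
      rw [interior_Icc] at hs
      rw [(hd s).deriv]
      have := pow_nonneg hs.1.le m
      positivity
  have h5 := hmono (Set.mem_Icc.2 ⟨ht0, ht1⟩) (Set.mem_Icc.2 ⟨zero_le_one, le_rfl⟩) ht1
  refine h5.trans (le_of_eq ?_)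
  simp only [hf, one_pow]
  have a1 : (m : ℝ) + 2 - 1 ≠ 0 := by linarith
  have a2 : (m : ℝ) + 2 + 1 ≠ 0 := by linarith
  have a3 : (m : ℝ) + 2 ≠ 0 := by linarith
  rw [show ((m : ℝ) + 2) ^ 2 - 1 = ((m : ℝ) + 2 - 1) * ((m : ℝ) + 2 + 1) by ring]
  field_simp
  ring

/-- PROOF. `1 / (j + 1) ^ 3 ≤ (1 / (j (j + 1)) - 1 / ((j + 1) (j + 2))) / 2` for `j ≥ 1`, telescoping. -/
theorem sum_cubes (J : ℕ) : ∑ j ∈ Finset.range J, 1 / ((j : ℝ) + 1) ^ 3 ≤ 5 / 4 := by
  have h1 : ∀ n : ℕ, ∑ j ∈ Finset.range (n + 1), 1 / ((j : ℝ) + 1) ^ 3 ≤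
      5 / 4 - 1 / (2 * ((n : ℝ) + 1) * ((n : ℝ) + 2)) := by
    intro n
    induction n with
    | zero => norm_num
    | succ n ih =>
      rw [Finset.sum_range_succ]
      have hn : (0 : ℝ) ≤ n := Nat.cast_nonneg n
      push_cast
      have h2 : 1 / ((n : ℝ) + 1 + 1) ^ 3 ≤
          1 / (2 * ((n : ℝ) + 1) * ((n : ℝ) + 2)) - 1 / (2 * ((n : ℝ) + 1 + 1) * ((n : ℝ) + 1 + 2)) := by
        rw [div_sub_div _ _ (by positivity) (by positivity),
          div_le_div_iff₀ (by positivity) (by positivity)]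
        nlinarith [pow_nonneg hn 2, pow_nonneg hn 3, pow_nonneg hn 4, pow_nonneg hn 5]
      linarith
  cases J with
  | zero => norm_num
  | succ n =>
    refine (h1 n).trans ?_
    have : (0 : ℝ) ≤ 1 / (2 * ((n : ℝ) + 1) * ((n : ℝ) + 2)) := by positivity
    linarith
-- END block_le

-- BEGIN partial_ge
private theorem partial_ge_ndvd {N a b : ℕ} (h : N ∣ a) (h1 : a < b) (h2 : b < a + N) : ¬ N ∣ b := by
  intro hb
  obtain ⟨c, rfl⟩ := h
  obtain ⟨e, rfl⟩ := hb
  have h3 : c < e := Nat.lt_of_mul_lt_mul_left h1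
  have h4 : N * e < N * (c + 1) := by rw [Nat.mul_add, Nat.mul_one]; exact h2
  have h5 : e < c + 1 := Nat.lt_of_mul_lt_mul_left h4
  omega

private theorem partial_ge_step (N : ℕ) (hN : 3 ≤ N) (t : ℝ) (J : ℕ) :
    ∑ x ∈ Finset.range N, t ^ (J * N + 2 + x) / ((J * N + 2 + x : ℕ) : ℝ) * ((N : ℝ) *
      ((if N ∣ J * N + 2 + x then (1 : ℝ) else 0) - (if N ∣ J * N + 2 + x + 1 then (1 : ℝ) else 0) / 2 -
        (if N ∣ J * N + 2 + x - 1 then (1 : ℝ) else 0) / 2)) =
      -((N : ℝ) * (t ^ ((J + 1) * N - 1) / (((J + 1) * N : ℕ) - 1 : ℝ) / 2 +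
        t ^ ((J + 1) * N + 1) / (((J + 1) * N : ℕ) + 1 : ℝ) / 2 - t ^ ((J + 1) * N) / (((J + 1) * N : ℕ) : ℝ))) := by
  obtain ⟨n, rfl⟩ : ∃ n, N = n + 3 := ⟨N - 3, by omega⟩
  have hM : (J + 1) * (n + 3) = J * (n + 3) + n + 3 := by ring
  have hd0 : (n + 3) ∣ J * (n + 3) := Dvd.intro_left _ rfl
  have hd1 : (n + 3) ∣ J * (n + 3) + n + 3 := by rw [← hM]; exact Dvd.intro_left _ rfl
  rw [Finset.sum_range_succ, Finset.sum_range_succ, Finset.sum_range_succ]
  have hz : ∑ x ∈ Finset.range n, t ^ (J * (n + 3) + 2 + x) / ((J * (n + 3) + 2 + x : ℕ) : ℝ) * (((n + 3 : ℕ) : ℝ) *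
      ((if (n + 3) ∣ J * (n + 3) + 2 + x then (1 : ℝ) else 0) - (if (n + 3) ∣ J * (n + 3) + 2 + x + 1 then (1 : ℝ) else 0) / 2 -
        (if (n + 3) ∣ J * (n + 3) + 2 + x - 1 then (1 : ℝ) else 0) / 2)) = 0 := by
    apply Finset.sum_eq_zero
    intro x hx
    rw [Finset.mem_range] at hx
    rw [if_neg (partial_ge_ndvd hd0 (by omega) (by omega)), if_neg (partial_ge_ndvd hd0 (by omega) (by omega)),
      if_neg (partial_ge_ndvd hd0 (by omega) (by omega))]
    ring
  rw [hz]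
  rw [if_neg (partial_ge_ndvd (b := J * (n + 3) + 2 + n) hd0 (by omega) (by omega)),
    if_pos (show (n + 3) ∣ J * (n + 3) + 2 + n + 1 by
      rw [show J * (n + 3) + 2 + n + 1 = J * (n + 3) + n + 3 by ring]; exact hd1),
    if_neg (partial_ge_ndvd (b := J * (n + 3) + 2 + n - 1) hd0 (by omega) (by omega)),
    if_pos (show (n + 3) ∣ J * (n + 3) + 2 + (n + 1) by
      rw [show J * (n + 3) + 2 + (n + 1) = J * (n + 3) + n + 3 by ring]; exact hd1),
    if_neg (partial_ge_ndvd (b := J * (n + 3) + 2 + (n + 1) + 1) hd1 (by omega) (by omega)),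
    if_neg (partial_ge_ndvd (b := J * (n + 3) + 2 + (n + 1) - 1) hd0 (by omega) (by omega)),
    if_neg (partial_ge_ndvd (b := J * (n + 3) + 2 + (n + 2)) hd1 (by omega) (by omega)),
    if_neg (partial_ge_ndvd (b := J * (n + 3) + 2 + (n + 2) + 1) hd1 (by omega) (by omega)),
    if_pos (show (n + 3) ∣ J * (n + 3) + 2 + (n + 2) - 1 by
      rw [show J * (n + 3) + 2 + (n + 2) - 1 = J * (n + 3) + n + 3 by omega]; exact hd1)]
  rw [hM, show J * (n + 3) + 2 + n = J * (n + 3) + n + 3 - 1 by omega,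
    show J * (n + 3) + 2 + (n + 1) = J * (n + 3) + n + 3 by omega,
    show J * (n + 3) + 2 + (n + 2) = J * (n + 3) + n + 3 + 1 by omega,
    Nat.cast_sub (show 1 ≤ J * (n + 3) + n + 3 by omega)]
  push_cast
  ring

/-- PROOF. Induction on `J`: for `J = 0` the only term is `m = 1`: `-N t / 2` (`N ≥ 3` gives `¬ N ∣ 1`, `¬ N ∣ 2`, `N ∣ 0`).
The terms between `m = J N + 2` and `(J + 1) N + 1` are zero except at `m = (J + 1) N - 1, (J + 1) N, (J + 1) N + 1`, and these give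
`-N * (block at M = (J + 1) N)`, at least `-N * 1 / (M (M ^ 2 - 1)) ≥ - 1 / ((J + 1) ^ 3 (N ^ 2 - 1))` (`block_le`, `M ^ 2 - 1 ≥ (J + 1) ^ 2 (N ^ 2 - 1)`). -/
theorem partial_ge (N : ℕ) (hN : 3 ≤ N) (t : ℝ) (ht0 : 0 ≤ t) (ht1 : t ≤ 1) (J : ℕ) :
    -((N : ℝ) / 2) - (∑ j ∈ Finset.range J, 1 / ((j : ℝ) + 1) ^ 3) / ((N : ℝ) ^ 2 - 1) ≤
      ∑ m ∈ Finset.range (J * N + 2), t ^ m / m * ((N : ℝ) * ((if N ∣ m then (1 : ℝ) else 0) -
        (if N ∣ m + 1 then (1 : ℝ) else 0) / 2 - (if N ∣ m - 1 then (1 : ℝ) else 0) / 2)) := by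
  have hN' : (3 : ℝ) ≤ N := by exact_mod_cast hN
  induction J with
  | zero =>
    rw [Nat.zero_mul, Nat.zero_add, Finset.sum_range_succ, Finset.sum_range_succ, Finset.range_zero, Finset.sum_empty,
      Finset.sum_empty, zero_div, if_neg (partial_ge_ndvd (dvd_zero N) (show 0 < 1 by omega) (by omega)),
      if_neg (partial_ge_ndvd (dvd_zero N) (show 0 < 1 + 1 by omega) (by omega)),
      if_pos (show N ∣ 1 - 1 from dvd_zero N)]
    norm_num
    nlinarith
  | succ J ih =>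
    rw [Finset.sum_range_succ, show (J + 1) * N + 2 = J * N + 2 + N by ring, Finset.sum_range_add,
      partial_ge_step N hN t J]
    have hM3 : 3 ≤ (J + 1) * N := by nlinarith
    have hM3' : (3 : ℝ) ≤ (((J + 1) * N : ℕ) : ℝ) := by exact_mod_cast hM3
    have hb := block_le ((J + 1) * N) (by omega) t ht0 ht1
    set M : ℝ := (((J + 1) * N : ℕ) : ℝ) with hMdef
    have hMval : M = ((J : ℝ) + 1) * N := by rw [hMdef]; push_cast; ring
    have hJ0 : (0 : ℝ) ≤ J := Nat.cast_nonneg J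
    have hc : (N : ℝ) * (1 / (M * (M ^ 2 - 1))) ≤ 1 / ((J : ℝ) + 1) ^ 3 / ((N : ℝ) ^ 2 - 1) := by
      have h1 : (0 : ℝ) < (N : ℝ) ^ 2 - 1 := by nlinarith
      have h2 : (0 : ℝ) < M ^ 2 - 1 := by nlinarith
      have h3 : ((J : ℝ) + 1) ^ 2 * ((N : ℝ) ^ 2 - 1) ≤ M ^ 2 - 1 := by
        rw [hMval]; nlinarith
      have e : (N : ℝ) * (1 / (M * (M ^ 2 - 1))) = 1 / (((J : ℝ) + 1) * (M ^ 2 - 1)) := by
        rw [hMval] at h2 ⊢
        field_simp
      rw [e, div_div]
      apply one_div_le_one_div_of_le (by positivity)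
      calc ((J : ℝ) + 1) ^ 3 * ((N : ℝ) ^ 2 - 1) = ((J : ℝ) + 1) * (((J : ℝ) + 1) ^ 2 * ((N : ℝ) ^ 2 - 1)) := by ring
        _ ≤ ((J : ℝ) + 1) * (M ^ 2 - 1) := mul_le_mul_of_nonneg_left h3 (by positivity)
    have hb' := mul_le_mul_of_nonneg_left hb (show (0 : ℝ) ≤ N by linarith)
    rw [add_div]
    linarith
-- END partial_ge

-- BEGIN series_bound
/-- PROOF. `hasSum_log` for `θ = 2 π s / N`, multiplied by `1 - cos θ` and summed over `s` (`hasSum_sum`): the terms are those of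
`partial_ge` (`sum_q_cos`; the term `m = 0` is zero because of the division by `m`), the sum is minus the left side. Partial sums along `J N + 2`
(`HasSum.tendsto_sum_nat`), `partial_ge`, `sum_cubes`, `ge_of_tendsto`. -/
theorem series_bound (N : ℕ) (hN : 3 ≤ N) (t : ℝ) (ht0 : 0 ≤ t) (ht1 : t < 1) :
    ∑ s ∈ Finset.range N, (1 - cos (2 * π * s / N)) *
        (log (1 - 2 * t * cos (2 * π * s / N) + t ^ 2) / 2) ≤
      (N : ℝ) / 2 + 5 / (4 * ((N : ℝ) ^ 2 - 1)) := by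
  have hN' : (3 : ℝ) ≤ N := by exact_mod_cast hN
  have h1 : ∀ s ∈ Finset.range N, HasSum (fun m : ℕ => (1 - cos (2 * π * s / N)) *
      (t ^ m * cos (m * (2 * π * s / N)) / m)) ((1 - cos (2 * π * s / N)) *
      (-(log (1 - 2 * t * cos (2 * π * s / N) + t ^ 2) / 2))) :=
    fun s _ => (hasSum_log t (2 * π * s / N) ht0 ht1).mul_left _
  have h2 := hasSum_sum h1
  have e1 : (fun m : ℕ => ∑ s ∈ Finset.range N, (1 - cos (2 * π * s / N)) *
      (t ^ m * cos (m * (2 * π * s / N)) / m)) = fun m : ℕ => t ^ m / m * ((N : ℝ) * ((if N ∣ m then (1 : ℝ) else 0) -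
        (if N ∣ m + 1 then (1 : ℝ) else 0) / 2 - (if N ∣ m - 1 then (1 : ℝ) else 0) / 2)) := by
    funext m
    rcases Nat.eq_zero_or_pos m with rfl | hm
    · simp
    · rw [← sum_q_cos N (by omega) m hm, Finset.mul_sum]
      apply Finset.sum_congr rfl
      intro s _
      ring
  have e2 : ∑ s ∈ Finset.range N, (1 - cos (2 * π * s / N)) *
      (-(log (1 - 2 * t * cos (2 * π * s / N) + t ^ 2) / 2)) =
      -∑ s ∈ Finset.range N, (1 - cos (2 * π * s / N)) *
        (log (1 - 2 * t * cos (2 * π * s / N) + t ^ 2) / 2) := by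
    rw [← Finset.sum_neg_distrib]
    apply Finset.sum_congr rfl
    intro s _
    ring
  rw [e1, e2] at h2
  have h3 := h2.tendsto_sum_nat
  have h4 : Filter.Tendsto (fun J : ℕ => J * N + 2) Filter.atTop Filter.atTop := by
    apply Filter.tendsto_atTop_mono (f := fun J : ℕ => J) _ Filter.tendsto_id
    intro J
    nlinarith
  have h5 := h3.comp h4
  have h6 := ge_of_tendsto' h5 (b := -((N : ℝ) / 2) - 5 / (4 * ((N : ℝ) ^ 2 - 1))) (fun J => by
    have h7 := partial_ge N hN t ht0 ht1.le J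
    have h8 := sum_cubes J
    have h9 : (0 : ℝ) < (N : ℝ) ^ 2 - 1 := by nlinarith
    have h10 : (∑ j ∈ Finset.range J, 1 / ((j : ℝ) + 1) ^ 3) / ((N : ℝ) ^ 2 - 1) ≤ (5 / 4) / ((N : ℝ) ^ 2 - 1) :=
      div_le_div_of_nonneg_right h8 h9.le
    have h11 : (5 / 4 : ℝ) / ((N : ℝ) ^ 2 - 1) = 5 / (4 * ((N : ℝ) ^ 2 - 1)) := by
      rw [div_div]
    rw [h11] at h10
    simp only [Function.comp_apply]
    linarith)
  linarith
-- END series_bound

-- BEGIN log_bound
/-- PROOF. Let `t → 1` from the left in `series_bound` (`le_of_tendsto`): every summand with `cos (2 π s / N) < 1` converges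
(`1 - 2 t c + t² → 2 - 2 c > 0`), the others are zero because of the factor. -/
theorem log_bound (N : ℕ) (hN : 3 ≤ N) :
    ∑ s ∈ Finset.range N, (1 - cos (2 * π * s / N)) * (log (2 - 2 * cos (2 * π * s / N)) / 2) ≤
      (N : ℝ) / 2 + 5 / (4 * ((N : ℝ) ^ 2 - 1)) := by
  have h1 : Filter.Tendsto (fun t : ℝ => ∑ s ∈ Finset.range N, (1 - cos (2 * π * s / N)) *
      (log (1 - 2 * t * cos (2 * π * s / N) + t ^ 2) / 2)) (nhdsWithin 1 (Set.Iio 1))
      (nhds (∑ s ∈ Finset.range N, (1 - cos (2 * π * s / N)) * (log (2 - 2 * cos (2 * π * s / N)) / 2))) := by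
    apply tendsto_finsetSum
    intro s _
    by_cases hc : cos (2 * π * s / N) = 1
    · rw [hc]
      simp only [sub_self, zero_mul]
      exact tendsto_const_nhds
    · have hlt : cos (2 * π * s / N) < 1 := lt_of_le_of_ne (cos_le_one _) hc
      have hcont : ContinuousAt (fun t : ℝ => (1 - cos (2 * π * s / N)) *
          (log (1 - 2 * t * cos (2 * π * s / N) + t ^ 2) / 2)) 1 := by
        apply ContinuousAt.mul continuousAt_const
        apply ContinuousAt.div_const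
        apply ContinuousAt.log
        · fun_prop
        · nlinarith
      have h2 := hcont.tendsto
      have e : 1 - 2 * (1 : ℝ) * cos (2 * π * s / N) + 1 ^ 2 = 2 - 2 * cos (2 * π * s / N) := by ring
      rw [e] at h2
      exact h2.mono_left nhdsWithin_le_nhds
  apply le_of_tendsto h1
  have h3 : Set.Ico (0 : ℝ) 1 ∈ nhdsWithin (1 : ℝ) (Set.Iio 1) := Ico_mem_nhdsLT (by norm_num)
  filter_upwards [h3] with t ht
  exact series_bound N hN t ht.1 ht.2
-- END log_bound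

/-- `q(a)` of the page. -/
noncomputable def qq (p : ℕ) (a : ℤ) : ℝ := 1 - cos (π * a / p)

/-- `g(a)` of the page. -/
noncomputable def gg (p : ℕ) (a : ℤ) : ℝ := qq p a * (log (2 * qq p a) / 2)

/-- The Chebyshev points. -/
noncomputable def xx (p : ℕ) (i : ℕ) : ℝ := 2 * cos (π * (2 * i + 1) / (2 * p))

-- BEGIN qq_basic
theorem qq_neg (p : ℕ) (a : ℤ) : qq p (-a) = qq p a := by
  unfold qq
  have h : π * ((-a : ℤ) : ℝ) / p = -(π * (a : ℝ) / p) := by push_cast; ring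
  rw [h, Real.cos_neg]

theorem gg_neg (p : ℕ) (a : ℤ) : gg p (-a) = gg p a := by
  unfold gg
  rw [qq_neg]

theorem qq_period (p : ℕ) (hp : 0 < p) (a : ℤ) : qq p (a + 2 * p) = qq p a := by
  unfold qq
  have hp' : (p : ℝ) ≠ 0 := by
    have : p ≠ 0 := by omega
    exact_mod_cast this
  have h : π * ((a + 2 * (p : ℤ) : ℤ) : ℝ) / p = π * (a : ℝ) / p + 2 * π := by
    push_cast
    field_simp
  rw [h, Real.cos_add_two_pi]

theorem gg_period (p : ℕ) (hp : 0 < p) (a : ℤ) : gg p (a + 2 * p) = gg p a := by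
  unfold gg
  rw [qq_period p hp]

theorem qq_nonneg (p : ℕ) (a : ℤ) : 0 ≤ qq p a := by
  unfold qq
  have := Real.cos_le_one (π * (a : ℝ) / p)
  linarith
-- END qq_basic

-- BEGIN sum_gg_le
/-- PROOF. `log_bound` for `N = 2 p`. -/
theorem sum_gg_le (p : ℕ) (hp : 2 ≤ p) :
    ∑ a ∈ Finset.range (2 * p), gg p a ≤ (p : ℝ) + 5 / (4 * (4 * (p : ℝ) ^ 2 - 1)) := by
  have hp' : (2 : ℝ) ≤ p := by exact_mod_cast hp
  have h := log_bound (2 * p) (by omega)
  have e1 : ∀ s : ℕ, (2 * π * s / ((2 * p : ℕ) : ℝ)) = π * s / p := by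
    intro s
    push_cast
    field_simp
  have e2 : ∑ a ∈ Finset.range (2 * p), gg p a = ∑ s ∈ Finset.range (2 * p),
      (1 - cos (2 * π * s / ((2 * p : ℕ) : ℝ))) * (log (2 - 2 * cos (2 * π * s / ((2 * p : ℕ) : ℝ))) / 2) := by
    apply Finset.sum_congr rfl
    intro s _
    rw [e1]
    unfold gg qq
    push_cast
    rw [mul_sub, mul_one]
  rw [e2]
  refine h.trans (le_of_eq ?_)
  push_cast
  rw [mul_pow]
  norm_num
-- END sum_gg_le

-- BEGIN xx_diff
/-- PROOF. `cos_sub_cos`, and `2 sin² (a / 2) = 1 - cos a`. -/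
theorem xx_diff (p : ℕ) (hp : 0 < p) (i j : ℕ) :
    (xx p i - xx p j) ^ 2 = 4 * (qq p (i + j + 1) * qq p (i - j)) := by
  have hp' : (p : ℝ) ≠ 0 := Nat.cast_ne_zero.2 hp.ne'
  have hq : ∀ a : ℤ, qq p a = 2 * sin (π * a / (2 * p)) ^ 2 := by
    intro a
    unfold qq
    have h1 : π * a / p = 2 * (π * a / (2 * p)) := by
      field_simp
    rw [h1, cos_two_mul, cos_sq']
    ring
  have h1 : (π * (2 * i + 1) / (2 * p) + π * (2 * j + 1) / (2 * p)) / 2 =
      π * ((i + j + 1 : ℤ) : ℝ) / (2 * p) := by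
    push_cast
    ring
  have h2 : (π * (2 * i + 1) / (2 * p) - π * (2 * j + 1) / (2 * p)) / 2 =
      π * ((i - j : ℤ) : ℝ) / (2 * p) := by
    push_cast
    ring
  rw [hq, hq]
  unfold xx
  rw [← mul_sub, cos_sub_cos, h1, h2]
  ring

/-- PROOF. `log |u| = log (u²) / 2`; if both `qq` are nonzero the logarithm of the product is the sum; if one is zero both sides are
zero. -/
theorem xx_log (p : ℕ) (hp : 0 < p) (i j : ℕ) :
    (xx p i - xx p j) ^ 2 * log (xx p i - xx p j) =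
      4 * (qq p (i - j) * gg p (i + j + 1) + qq p (i + j + 1) * gg p (i - j)) := by
  have h1 := xx_diff p hp i j
  have h2 : log (xx p i - xx p j) = log ((xx p i - xx p j) ^ 2) / 2 := by
    rw [log_pow, Nat.cast_ofNat]
    ring
  rw [h2, h1]
  unfold gg
  by_cases ha : qq p (i + j + 1) = 0
  · rw [ha]
    ring
  · by_cases hb : qq p (i - j) = 0
    · rw [hb]
      ring
    · have h3 : 4 * (qq p (i + j + 1) * qq p (i - j)) = 2 * qq p (i + j + 1) * (2 * qq p (i - j)) := by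
        ring
      have h4 : log (4 * (qq p (i + j + 1) * qq p (i - j))) =
          log (2 * qq p (i + j + 1)) + log (2 * qq p (i - j)) := by
        rw [h3, log_mul (mul_ne_zero two_ne_zero ha) (mul_ne_zero two_ne_zero hb)]
      rw [h4]
      ring
-- END xx_diff

-- BEGIN sum_period
/-- PROOF. Induction on `c` (both directions): `∑ f (i + 1) = ∑ f i` by `Finset.sum_range_succ'`, `Finset.sum_range_succ`. -/
theorem sum_period (f : ℤ → ℝ) (N : ℕ) (hf : ∀ a, f (a + N) = f a) (c : ℤ) :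
    ∑ i ∈ Finset.range N, f (i + c) = ∑ i ∈ Finset.range N, f i := by
  have hstep : ∀ c : ℤ, ∑ i ∈ Finset.range N, f (i + (c + 1)) = ∑ i ∈ Finset.range N, f (i + c) := by
    intro c
    have h1 := Finset.sum_range_succ (fun i : ℕ => f ((i : ℤ) + c)) N
    have h2 := Finset.sum_range_succ' (fun i : ℕ => f ((i : ℤ) + c)) N
    have h3 : f ((N : ℤ) + c) = f (((0 : ℕ) : ℤ) + c) := by
      rw [add_comm (N : ℤ) c, hf]; simp
    have h4 : ∑ i ∈ Finset.range N, f (((i + 1 : ℕ) : ℤ) + c) = ∑ i ∈ Finset.range N, f (i + (c + 1)) := by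
      apply Finset.sum_congr rfl
      intro i _
      congr 1
      push_cast
      ring
    linarith
  induction c using Int.induction_on with
  | zero => simp
  | succ i ih => rw [hstep, ih]
  | pred i ih =>
    have h := hstep (-(i : ℤ) - 1)
    rw [sub_add_cancel] at h
    rw [← h, ih]
-- END sum_period

-- BEGIN sum_qq_shift
private theorem sum_qq_shift_cs (p : ℕ) (hp : 2 ≤ p) :
    ∑ j ∈ Finset.range p, cos (2 * π * j / p) = 0 ∧ ∑ j ∈ Finset.range p, sin (2 * π * j / p) = 0 := by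
  have hp0 : p ≠ 0 := by omega
  have h := (Complex.isPrimitiveRoot_exp p hp0).geom_sum_eq_zero (by omega)
  have e : ∀ j : ℕ, Complex.exp (2 * (π : ℂ) * Complex.I / (p : ℂ)) ^ j =
      Complex.exp (((2 * π * j / p : ℝ) : ℂ) * Complex.I) := by
    intro j
    rw [← Complex.exp_nat_mul]
    congr 1
    push_cast
    ring
  simp only [e] at h
  constructor
  · have := congrArg Complex.re h
    rw [Complex.re_sum] at this
    simp only [Complex.exp_ofReal_mul_I_re, Complex.zero_re] at this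
    exact this
  · have := congrArg Complex.im h
    rw [Complex.im_sum] at this
    simp only [Complex.exp_ofReal_mul_I_im, Complex.zero_im] at this
    exact this

/-- PROOF. `∑ j ∈ range p, cos (c + 2 π j / p) = 0` for `p ≥ 2` (expand, `sum_cos` with `m = 1`, and the same for `sin`, or complex
geometric sum). -/
theorem sum_qq_shift (p : ℕ) (hp : 2 ≤ p) (c : ℤ) :
    ∑ j ∈ Finset.range p, qq p (c + 2 * j) = p ∧ ∑ j ∈ Finset.range p, qq p (c - 2 * j) = p := by
  obtain ⟨hc, hs⟩ := sum_qq_shift_cs p hp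
  have hp0 : (p : ℝ) ≠ 0 := by
    have : (p : ℕ) ≠ 0 := by omega
    exact_mod_cast this
  constructor
  · have e : ∀ j ∈ Finset.range p, qq p (c + 2 * j) = 1 - (cos (π * c / p) * cos (2 * π * j / p) -
        sin (π * c / p) * sin (2 * π * j / p)) := by
      intro j _
      unfold qq
      rw [← cos_add]
      congr 2
      push_cast
      field_simp
    rw [Finset.sum_congr rfl e, Finset.sum_sub_distrib, Finset.sum_sub_distrib, ← Finset.mul_sum, ← Finset.mul_sum, hc, hs]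
    simp
  · have e : ∀ j ∈ Finset.range p, qq p (c - 2 * j) = 1 - (cos (π * c / p) * cos (2 * π * j / p) +
        sin (π * c / p) * sin (2 * π * j / p)) := by
      intro j _
      unfold qq
      rw [← cos_sub]
      congr 2
      push_cast
      field_simp
    rw [Finset.sum_congr rfl e, Finset.sum_sub_distrib, Finset.sum_add_distrib, ← Finset.mul_sum, ← Finset.mul_sum, hc, hs]
    simp
-- END sum_qq_shift

-- BEGIN sum_F
private theorem sum_F_row (p : ℕ) (hp : 2 ≤ p) (j : ℤ) :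
    2 * ∑ i ∈ Finset.range p, (qq p (i - j) * gg p (i + j + 1) + qq p (i + j + 1) * gg p (i - j)) =
      ∑ s ∈ Finset.range (2 * p), (qq p (s - 2 * j - 1) + qq p (s + 2 * j + 1)) * gg p s := by
  have hp0 : 0 < p := by omega
  set F : ℤ → ℝ := fun i => qq p (i - j) * gg p (i + j + 1) + qq p (i + j + 1) * gg p (i - j) with hF
  have hsym : ∀ i : ℤ, F (2 * p - 1 - i) = F i := by
    intro i
    simp only [hF]
    have a1 : (2 * (p : ℤ) - 1 - i - j) = -(i + j + 1) + 2 * p := by ring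
    have a2 : (2 * (p : ℤ) - 1 - i + j + 1) = -(i - j) + 2 * p := by ring
    rw [a1, a2, qq_period p hp0, qq_period p hp0, gg_period p hp0, gg_period p hp0, qq_neg, qq_neg, gg_neg, gg_neg]
    ring
  have h1 : ∑ i ∈ Finset.range (2 * p), F i = 2 * ∑ i ∈ Finset.range p, F i := by
    rw [two_mul, two_mul, Finset.sum_range_add]
    congr 1
    rw [← Finset.sum_range_reflect]
    apply Finset.sum_congr rfl
    intro i hi
    rw [Finset.mem_range] at hi
    rw [← hsym i]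
    congr 1
    have : ((p + (p - 1 - i) : ℕ) : ℤ) = 2 * p - 1 - i := by omega
    exact this
  rw [← h1]
  have h2 : ∑ i ∈ Finset.range (2 * p), F i = ∑ i ∈ Finset.range (2 * p), qq p (i - j) * gg p (i + j + 1) +
      ∑ i ∈ Finset.range (2 * p), qq p (i + j + 1) * gg p (i - j) := by
    simp only [hF]
    rw [Finset.sum_add_distrib]
  have per1 : ∀ a : ℤ, qq p (a + ((2 * p : ℕ) : ℤ) - 2 * j - 1) * gg p (a + ((2 * p : ℕ) : ℤ)) =
      qq p (a - 2 * j - 1) * gg p a := by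
    intro a
    push_cast
    rw [show a + 2 * (p : ℤ) - 2 * j - 1 = a - 2 * j - 1 + 2 * p by ring, qq_period p hp0, gg_period p hp0]
  have per2 : ∀ a : ℤ, qq p (a + ((2 * p : ℕ) : ℤ) + 2 * j + 1) * gg p (a + ((2 * p : ℕ) : ℤ)) =
      qq p (a + 2 * j + 1) * gg p a := by
    intro a
    push_cast
    rw [show a + 2 * (p : ℤ) + 2 * j + 1 = a + 2 * j + 1 + 2 * p by ring, qq_period p hp0, gg_period p hp0]
  have h3 := sum_period (fun a => qq p (a - 2 * j - 1) * gg p a) (2 * p) per1 (j + 1)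
  have h4 := sum_period (fun a => qq p (a + 2 * j + 1) * gg p a) (2 * p) per2 (-j)
  have h3' : ∑ i ∈ Finset.range (2 * p), qq p (i - j) * gg p (i + j + 1) =
      ∑ i ∈ Finset.range (2 * p), qq p (i - 2 * j - 1) * gg p i := by
    rw [← h3]
    apply Finset.sum_congr rfl
    intro i _
    rw [show (i : ℤ) + (j + 1) - 2 * j - 1 = i - j by ring, show (i : ℤ) + (j + 1) = i + j + 1 by ring]
  have h4' : ∑ i ∈ Finset.range (2 * p), qq p (i + j + 1) * gg p (i - j) =
      ∑ i ∈ Finset.range (2 * p), qq p (i + 2 * j + 1) * gg p i := by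
    rw [← h4]
    apply Finset.sum_congr rfl
    intro i _
    rw [show (i : ℤ) + -j + 2 * j + 1 = i + j + 1 by ring, show (i : ℤ) + -j = i - j by ring]
  rw [h2, h3', h4', ← Finset.sum_add_distrib]
  apply Finset.sum_congr rfl
  intro s _
  ring

/-- PROOF. Let `F i j` be the summand (for integers `i, j`). `F (2 p - 1 - i) j = F i j` (`qq_neg`, `qq_period`: `i - j` and `i + j + 1`
are exchanged up to sign and period), so `∑ i ∈ range p, F i j = 1/2 ∑ i ∈ range (2 p), F i j` (reflect). For fixed `j`, `sum_period`: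
`∑ i ∈ range (2p), qq (i - j) gg (i + j + 1) = ∑ s ∈ range (2 p), qq (s - 2 j - 1) gg s` and
`∑ i ∈ range (2p), qq (i + j + 1) gg (i - j) = ∑ s ∈ range (2 p), qq (s + 2 j + 1) gg s`; sum over `j` with `sum_qq_shift`. -/
theorem sum_F (p : ℕ) (hp : 2 ≤ p) :
    ∑ i ∈ Finset.range p, ∑ j ∈ Finset.range p,
        (qq p (i - j) * gg p (i + j + 1) + qq p (i + j + 1) * gg p (i - j)) =
      p * ∑ a ∈ Finset.range (2 * p), gg p a := by
  rw [Finset.sum_comm]
  have h1 : 2 * ∑ j ∈ Finset.range p, ∑ i ∈ Finset.range p,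
      (qq p (i - j) * gg p (i + j + 1) + qq p (i + j + 1) * gg p (i - j)) =
      2 * (p * ∑ a ∈ Finset.range (2 * p), gg p a) := by
    rw [Finset.mul_sum]
    have h2 : ∀ j ∈ Finset.range p, 2 * ∑ i ∈ Finset.range p,
        (qq p (i - j) * gg p (i + j + 1) + qq p (i + j + 1) * gg p (i - j)) =
        ∑ s ∈ Finset.range (2 * p), (qq p (s - 2 * j - 1) + qq p (s + 2 * j + 1)) * gg p s :=
      fun j _ => sum_F_row p hp j
    rw [Finset.sum_congr rfl h2, Finset.sum_comm]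
    rw [Finset.mul_sum, Finset.mul_sum]
    apply Finset.sum_congr rfl
    intro s _
    rw [← Finset.sum_mul, Finset.sum_add_distrib]
    have h3 : ∑ j ∈ Finset.range p, qq p ((s : ℤ) - 2 * j - 1) = p := by
      rw [← (sum_qq_shift p hp ((s : ℤ) - 1)).2]
      apply Finset.sum_congr rfl
      intro j _
      rw [show (s : ℤ) - 2 * j - 1 = s - 1 - 2 * j by ring]
    have h4 : ∑ j ∈ Finset.range p, qq p ((s : ℤ) + 2 * j + 1) = p := by
      rw [← (sum_qq_shift p hp ((s : ℤ) + 1)).1]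
      apply Finset.sum_congr rfl
      intro j _
      rw [show (s : ℤ) + 2 * j + 1 = s + 1 + 2 * j by ring]
    rw [h3, h4]
    ring
  linarith
-- END sum_F

-- BEGIN sum_xx_sq
private theorem sum_xx_sq_one (p : ℕ) (hp : 2 ≤ p) : ∑ i ∈ Finset.range p, xx p i = 0 := by
  have hp0 : (p : ℝ) ≠ 0 := by
    have : (p : ℕ) ≠ 0 := by omega
    exact_mod_cast this
  have h := Finset.sum_range_reflect (fun i => xx p i) p
  have h2 : ∀ i ∈ Finset.range p, xx p (p - 1 - i) = - xx p i := by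
    intro i hi
    rw [Finset.mem_range] at hi
    unfold xx
    have e : ((p - 1 - i : ℕ) : ℝ) = p - 1 - i := by
      rw [Nat.cast_sub (by omega), Nat.cast_sub (by omega)]
      push_cast
      ring
    rw [e]
    have e2 : π * (2 * ((p : ℝ) - 1 - i) + 1) / (2 * p) = π - π * (2 * i + 1) / (2 * p) := by
      field_simp
      ring
    rw [e2, cos_pi_sub]
    ring
  rw [Finset.sum_congr rfl h2, Finset.sum_neg_distrib] at h
  linarith

private theorem sum_xx_sq_two (p : ℕ) (hp : 2 ≤ p) : ∑ i ∈ Finset.range p, xx p i ^ 2 = 2 * p := by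
  have hp0 : (p : ℝ) ≠ 0 := by
    have : (p : ℕ) ≠ 0 := by omega
    exact_mod_cast this
  have h2 : ∀ i ∈ Finset.range p, xx p i ^ 2 = 4 - 2 * qq p (1 + 2 * (i : ℤ)) := by
    intro i _
    unfold xx qq
    have e : π * ((1 + 2 * (i : ℤ) : ℤ) : ℝ) / p = 2 * (π * (2 * i + 1) / (2 * p)) := by
      push_cast
      field_simp
      ring
    rw [e, cos_two_mul]
    ring
  rw [Finset.sum_congr rfl h2, Finset.sum_sub_distrib, ← Finset.mul_sum, (sum_qq_shift p hp 1).1]
  rw [Finset.sum_const, Finset.card_range, nsmul_eq_mul]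
  ring

/-- PROOF. `∑ i j, (x i - x j)² = 2 p ∑ x i² - 2 (∑ x i)²`, `∑ x i = 0` (reflection `i ↦ p - 1 - i`), `x i² = 2 + 2 cos (π (2 i + 1) / p)`
and `∑ i, cos (π (2 i + 1) / p) = 0` (`sum_qq_shift` with `c = 1`). -/
theorem sum_xx_sq (p : ℕ) (hp : 2 ≤ p) :
    ∑ i : Fin p, ∑ j : Fin p, (xx p i - xx p j) ^ 2 = 4 * (p : ℝ) ^ 2 := by
  have h1 : ∑ i : Fin p, xx p i = 0 := by
    rw [← sum_xx_sq_one p hp, Finset.sum_range]
  have h2 : ∑ i : Fin p, xx p i ^ 2 = 2 * p := by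
    rw [← sum_xx_sq_two p hp, Finset.sum_range]
  have h3 : ∀ i : Fin p, ∑ j : Fin p, (xx p i - xx p j) ^ 2 = p * xx p i ^ 2 + 2 * p := by
    intro i
    have h4 : ∀ j : Fin p, (xx p i - xx p j) ^ 2 = xx p i ^ 2 - 2 * xx p i * xx p j + xx p j ^ 2 := by
      intro j
      ring
    rw [Finset.sum_congr rfl (fun j _ => h4 j), Finset.sum_add_distrib, Finset.sum_sub_distrib, ← Finset.mul_sum, h1, h2,
      Finset.sum_const, Finset.card_univ, Fintype.card_fin, nsmul_eq_mul]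
    ring
  rw [Finset.sum_congr rfl (fun i _ => h3 i), Finset.sum_add_distrib, ← Finset.mul_sum, h2, Finset.sum_const,
    Finset.card_univ, Fintype.card_fin, nsmul_eq_mul]
  ring
-- END sum_xx_sq

-- BEGIN pos_part
/-- PROOF. For each pair, `F (max (y i - y j) 0) + F (max (y j - y i) 0) = F (y i - y j)`; sum over all pairs and exchange. -/
theorem pos_part {ι : Type} [Fintype ι] (y : ι → ℝ) (F : ℝ → ℝ) (h0 : F 0 = 0)
    (he : ∀ t, F (-t) = F t) :
    ∑ i, ∑ j, F (max (y i - y j) 0) = (∑ i, ∑ j, F (y i - y j)) / 2 := by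
  have h1 : ∀ i j, F (max (y i - y j) 0) + F (max (y j - y i) 0) = F (y i - y j) := by
    intro i j
    rcases le_total (y i) (y j) with h | h
    · rw [max_eq_right (by linarith), max_eq_left (by linarith), h0, zero_add, ← he]
      congr 1
      ring
    · rw [max_eq_left (by linarith), max_eq_right (by linarith), h0, add_zero]
  have h2 : ∑ i, ∑ j, F (max (y i - y j) 0) = ∑ i, ∑ j, F (max (y j - y i) 0) :=
    Finset.sum_comm
  have h3 : ∑ i, ∑ j, F (y i - y j) =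
      ∑ i, ∑ j, F (max (y i - y j) 0) + ∑ i, ∑ j, F (max (y j - y i) 0) := by
    simp only [← Finset.sum_add_distrib, h1]
  rw [h3, ← h2]
  ring
-- END pos_part

-- BEGIN trig_final
/-- PROOF. `pos_part` with `F t = t²`, `sum_xx_sq`. -/
theorem A_eq (p : ℕ) (hp : 2 ≤ p) :
    ∑ i : Fin p, ∑ j : Fin p, (max (xx p i - xx p j) 0) ^ 2 = 2 * (p : ℝ) ^ 2 := by
  have h1 := pos_part (fun i : Fin p => xx p i) (fun t => t ^ 2) (by norm_num) (fun t => by ring)
  rw [h1, sum_xx_sq p hp]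
  ring

/-- PROOF. `pos_part` with `F t = t² log t` (`Real.log_neg_eq_log`), `xx_log`, `sum_F` (`Finset.sum_range`), `sum_gg_le`. -/
theorem S_le (p : ℕ) (hp : 2 ≤ p) :
    ∑ i : Fin p, ∑ j : Fin p, (max (xx p i - xx p j) 0) ^ 2 * log (max (xx p i - xx p j) 0) ≤
      2 * (p : ℝ) ^ 2 + 5 * p / (2 * (4 * (p : ℝ) ^ 2 - 1)) := by
  have h1 := pos_part (fun i : Fin p => xx p i) (fun t => t ^ 2 * log t) (by norm_num)
    (fun t => by simp only [Real.log_neg_eq_log]; ring)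
  rw [h1]
  have h2 : ∑ i : Fin p, ∑ j : Fin p, (xx p i - xx p j) ^ 2 * log (xx p i - xx p j) =
      4 * (p * ∑ a ∈ Finset.range (2 * p), gg p a) := by
    rw [← sum_F p hp, Finset.sum_range, Finset.mul_sum]
    refine Finset.sum_congr rfl fun i _ => ?_
    rw [Finset.sum_range, Finset.mul_sum]
    exact Finset.sum_congr rfl fun j _ => xx_log p (by omega) i j
  have h3 := sum_gg_le p hp
  have hp2 : (2 : ℝ) ≤ p := by exact_mod_cast hp
  have h4 : 0 < 4 * (p : ℝ) ^ 2 - 1 := by nlinarith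
  rw [h2]
  have h5 : 4 * ((p : ℝ) * ∑ a ∈ Finset.range (2 * p), gg p a) / 2 ≤
      2 * p * ((p : ℝ) + 5 / (4 * (4 * (p : ℝ) ^ 2 - 1))) := by
    have h6 := mul_le_mul_of_nonneg_left h3 (by positivity : (0 : ℝ) ≤ 2 * p)
    linarith
  refine h5.trans (le_of_eq ?_)
  field_simp
  ring
-- END trig_final

end Pool.Agent.Wil
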