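import Mathlib
import Pool.Agent.Wil.Tail
import Pool.Agent.Wil.Trig
import Pool.Agent.Wil.Asym

set_option autoImplicit false

/-! An explicit bound for every prime: Willems' inequality for `S_n`, `n ≥ (201 p²)²`. The cores have the runner heights
`⌊k (2 + x_i)⌋`, `x_i = 2 cos (π (2 i + 1) / (2 p))`, `k ≥ 200 p`. All sums over pairs `(i, j)` use truncated differences. -/

namespace Pool.Agent.Wil

open Real

/-- Runner heights. -/
noncomputable def hts (p k : ℕ) (i : Fin p) : ℕ := ⌊(k : ℝ) * (2 + xx p i)⌋₊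

/-- Truncated difference of two heights. -/
noncomputable def DD (p k : ℕ) (i j : Fin p) : ℕ := hts p k i - hts p k j

/-- Truncated difference of two abscissas. -/
noncomputable def dl (p : ℕ) (i j : Fin p) : ℝ := max (xx p i - xx p j) 0

/-- Sum of the squares of the differences. -/
noncomputable def QQ (p k : ℕ) : ℝ := ∑ i : Fin p, ∑ j : Fin p, (DD p k i j : ℝ) ^ 2

/-- Sum of the differences. -/
noncomputable def RR (p k : ℕ) : ℝ := ∑ i : Fin p, ∑ j : Fin p, (DD p k i j : ℝ)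

/-- Sum of `D² log D`. -/
noncomputable def EE (p k : ℕ) : ℝ := ∑ i : Fin p, ∑ j : Fin p, (DD p k i j : ℝ) ^ 2 * log (DD p k i j)

/-- Size of the core. -/
noncomputable def nk (p k : ℕ) : ℕ := (cells (beta (hts p k))).card

-- BEGIN xx_anti
/-- PROOF. `cos` is antitone on `[0, π]` (`Real.cos_le_cos_of_nonneg_of_le_pi`), `0 ≤ π (2 i + 1) / (2 p) ≤ π (2 j + 1) / (2 p) ≤ π`. -/
theorem xx_anti (p i j : ℕ) (h : i ≤ j) (hj : j < p) : xx p j ≤ xx p i := by
  unfold xx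
  have hp : (0 : ℝ) < 2 * p := by
    have : 0 < p := by omega
    positivity
  have h1 : (i : ℝ) ≤ j := by exact_mod_cast h
  have h2 : 2 * (j : ℝ) + 1 ≤ 2 * p := by
    have : 2 * j + 1 ≤ 2 * p := by omega
    exact_mod_cast this
  have hc := Real.cos_le_cos_of_nonneg_of_le_pi
    (x := π * (2 * (i : ℝ) + 1) / (2 * p)) (y := π * (2 * (j : ℝ) + 1) / (2 * p))
    (by positivity)
    (by
      rw [div_le_iff₀ hp]
      exact mul_le_mul_of_nonneg_left h2 pi_pos.le)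
    (by
      refine div_le_div_of_nonneg_right (mul_le_mul_of_nonneg_left ?_ pi_pos.le) hp.le
      linarith)
  linarith
-- END xx_anti

-- BEGIN xx_abs
/-- PROOF. `-1 ≤ cos ≤ 1`. -/
theorem xx_abs (p i : ℕ) : 0 ≤ 2 + xx p i ∧ xx p i ≤ 2 := by
  unfold xx
  constructor
  · linarith [neg_one_le_cos (π * (2 * (i : ℝ) + 1) / (2 * (p : ℝ)))]
  · linarith [cos_le_one (π * (2 * (i : ℝ) + 1) / (2 * (p : ℝ)))]
-- END xx_abs

-- BEGIN DD_near
/-- PROOF. `floor_diff` (Asym.lean) with `a = k (2 + x_i)`, `b = k (2 + x_j)`; `max (k u) 0 = k max u 0`. -/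
theorem DD_near (p k : ℕ) (i j : Fin p) : |(DD p k i j : ℝ) - k * dl p i j| ≤ 1 := by
  have hk : (0 : ℝ) ≤ k := Nat.cast_nonneg k
  have h := floor_diff ((k : ℝ) * (2 + xx p i)) ((k : ℝ) * (2 + xx p j))
    (mul_nonneg hk (xx_abs p i).1) (mul_nonneg hk (xx_abs p j).1)
  have e : max ((k : ℝ) * (2 + xx p i) - (k : ℝ) * (2 + xx p j)) 0 = k * dl p i j := by
    unfold dl
    rw [mul_max_of_nonneg _ _ hk, mul_zero]
    congr 1
    ring
  rw [e] at h
  exact h
-- END DD_near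

-- BEGIN DD_zero
/-- PROOF. `xx_anti`, `Nat.floor_mono`, `Nat.sub_eq_zero_of_le`, `max_eq_right`. -/
theorem DD_zero (p k : ℕ) (i j : Fin p) (h : j ≤ i) : DD p k i j = 0 ∧ dl p i j = 0 := by
  have h1 : xx p i ≤ xx p j := xx_anti p j i h i.2
  have h2 : hts p k i ≤ hts p k j := by
    unfold hts
    apply Nat.floor_mono
    apply mul_le_mul_of_nonneg_left _ (Nat.cast_nonneg k)
    linarith
  refine ⟨?_, ?_⟩
  · unfold DD
    exact Nat.sub_eq_zero_of_le h2
  · unfold dl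
    exact max_eq_right (by linarith)
-- END DD_zero

-- BEGIN dl_bd
/-- PROOF. `xx_abs`. -/
theorem dl_bd (p : ℕ) (i j : Fin p) : 0 ≤ dl p i j ∧ dl p i j ≤ 4 := by
  have h1 := xx_abs p i
  have h2 := xx_abs p j
  unfold dl
  exact ⟨le_max_right _ _, max_le (by linarith [h1.2, h2.1]) (by norm_num)⟩
-- END dl_bd

-- BEGIN cnt_pairs
/-- PROOF. The sum of `if i < j` and of `if j < i` over all pairs is at most `p²`, and the two sums are equal (`Finset.sum_comm`). -/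
theorem cnt_pairs (p : ℕ) : ∑ i : Fin p, ∑ j : Fin p, (if i < j then (1 : ℝ) else 0) ≤ (p : ℝ) ^ 2 / 2 := by
  have h1 : ∑ i : Fin p, ∑ j : Fin p, (if i < j then (1 : ℝ) else 0) =
      ∑ i : Fin p, ∑ j : Fin p, (if j < i then (1 : ℝ) else 0) := by
    rw [Finset.sum_comm]
  have h2 : ∑ i : Fin p, ∑ j : Fin p, (if i < j then (1 : ℝ) else 0) +
      ∑ i : Fin p, ∑ j : Fin p, (if j < i then (1 : ℝ) else 0) ≤
        ∑ i : Fin p, ∑ j : Fin p, (1 : ℝ) := by
    rw [← Finset.sum_add_distrib]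
    refine Finset.sum_le_sum fun i _ => ?_
    rw [← Finset.sum_add_distrib]
    refine Finset.sum_le_sum fun j _ => ?_
    rcases lt_trichotomy i j with h | h | h
    · rw [if_pos h, if_neg h.asymm]
      norm_num
    · subst h
      simp
    · rw [if_neg h.asymm, if_pos h]
      norm_num
  have h3 : ∑ i : Fin p, ∑ j : Fin p, (1 : ℝ) = (p : ℝ) ^ 2 := by
    simp [sq]
  linarith
-- END cnt_pairs

-- BEGIN dl_sum
/-- PROOF. `dl ≤ dl² / 4 + (if i < j then 1 else 0)` (`x ≤ x² / 4 + 1`; for `j ≤ i` both sides are `0`, `DD_zero`), `∑ dl² = 2 p²` (`A_eq`, Trig.lean), `cnt_pairs`. -/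
theorem dl_sum (p : ℕ) (hp : 2 ≤ p) : ∑ i : Fin p, ∑ j : Fin p, dl p i j ≤ (p : ℝ) ^ 2 := by
  have h1 : ∀ i j : Fin p, dl p i j ≤
      (max (xx p i - xx p j) 0) ^ 2 / 4 + (if i < j then (1 : ℝ) else 0) := by
    intro i j
    by_cases h : i < j
    · rw [if_pos h]
      unfold dl
      nlinarith [sq_nonneg (max (xx p i - xx p j) 0 - 2)]
    · rw [if_neg h, (DD_zero p 0 i j (not_lt.1 h)).2]
      positivity
  have h2 : ∑ i : Fin p, ∑ j : Fin p, dl p i j ≤ ∑ i : Fin p, ∑ j : Fin p,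
      ((max (xx p i - xx p j) 0) ^ 2 / 4 + (if i < j then (1 : ℝ) else 0)) :=
    Finset.sum_le_sum fun i _ => Finset.sum_le_sum fun j _ => h1 i j
  have h3 : ∑ i : Fin p, ∑ j : Fin p,
      ((max (xx p i - xx p j) 0) ^ 2 / 4 + (if i < j then (1 : ℝ) else 0)) =
      (∑ i : Fin p, ∑ j : Fin p, (max (xx p i - xx p j) 0) ^ 2) / 4 +
        ∑ i : Fin p, ∑ j : Fin p, (if i < j then (1 : ℝ) else 0) := by
    simp only [Finset.sum_add_distrib, Finset.sum_div]
  rw [h3, A_eq p hp] at h2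
  have h4 := cnt_pairs p
  linarith
-- END dl_sum

-- BEGIN Q_near
/-- PROOF. `|D² - (k dl)²| ≤ (2 k dl + 1) (if i < j then 1 else 0)` by `DD_near` (`D + k dl ≤ 2 k dl + 1`), `DD_zero`; sum with `dl_sum`, `cnt_pairs`, `A_eq`
(`∑ (k dl)² = 2 p² k²`); `2 k p² + p²/2`. -/
theorem Q_near (p k : ℕ) (hp : 2 ≤ p) :
    |QQ p k - 2 * (p : ℝ) ^ 2 * (k : ℝ) ^ 2| ≤ 2 * k * (p : ℝ) ^ 2 + (p : ℝ) ^ 2 := by
  have hterm : ∀ i j : Fin p, |(DD p k i j : ℝ) ^ 2 - (k * dl p i j) ^ 2| ≤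
      2 * k * dl p i j + (if i < j then (1 : ℝ) else 0) := by
    intro i j
    by_cases hij : i < j
    · rw [if_pos hij]
      have h1 := abs_le.1 (DD_near p k i j)
      have h2 : 0 ≤ (k : ℝ) * dl p i j := mul_nonneg (Nat.cast_nonneg k) (dl_bd p i j).1
      have h3 : (0 : ℝ) ≤ DD p k i j := Nat.cast_nonneg _
      rw [abs_le]
      constructor <;> nlinarith [h1.1, h1.2]
    · rw [if_neg hij]
      obtain ⟨h1, h2⟩ := DD_zero p k i j (not_lt.1 hij)
      rw [h1, h2]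
      simp
  have hA : ∑ i : Fin p, ∑ j : Fin p, (k * dl p i j : ℝ) ^ 2 = 2 * (p : ℝ) ^ 2 * (k : ℝ) ^ 2 := by
    have h0 := A_eq p hp
    have e : ∑ i : Fin p, ∑ j : Fin p, (k * dl p i j : ℝ) ^ 2 =
        (k : ℝ) ^ 2 * ∑ i : Fin p, ∑ j : Fin p, (max (xx p i - xx p j) 0) ^ 2 := by
      rw [Finset.mul_sum]
      refine Finset.sum_congr rfl fun i _ => ?_
      rw [Finset.mul_sum]
      refine Finset.sum_congr rfl fun j _ => ?_
      unfold dl
      ring
    rw [e, h0]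
    ring
  have h1 := dl_sum p hp
  have h2 := cnt_pairs p
  unfold QQ
  rw [← hA, ← Finset.sum_sub_distrib]
  calc |∑ i : Fin p, (∑ j : Fin p, (DD p k i j : ℝ) ^ 2 - ∑ j : Fin p, (k * dl p i j : ℝ) ^ 2)|
      ≤ ∑ i : Fin p, ∑ j : Fin p, (2 * k * dl p i j + (if i < j then (1 : ℝ) else 0)) := by
        refine (Finset.abs_sum_le_sum_abs _ _).trans (Finset.sum_le_sum fun i _ => ?_)
        rw [← Finset.sum_sub_distrib]
        exact (Finset.abs_sum_le_sum_abs _ _).trans (Finset.sum_le_sum fun j _ => hterm i j)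
    _ = 2 * k * ∑ i : Fin p, ∑ j : Fin p, dl p i j +
        ∑ i : Fin p, ∑ j : Fin p, (if i < j then (1 : ℝ) else 0) := by
        simp only [Finset.sum_add_distrib, Finset.mul_sum]
    _ ≤ 2 * k * (p : ℝ) ^ 2 + (p : ℝ) ^ 2 := by
        have h3 : 2 * (k : ℝ) * ∑ i : Fin p, ∑ j : Fin p, dl p i j ≤ 2 * k * (p : ℝ) ^ 2 :=
          mul_le_mul_of_nonneg_left h1 (by positivity)
        nlinarith [sq_nonneg (p : ℝ)]
-- END Q_near

-- BEGIN R_le
/-- PROOF. `D ≤ k dl + (if i < j then 1 else 0)`, `dl_sum`, `cnt_pairs`. -/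
theorem R_le (p k : ℕ) (hp : 2 ≤ p) : 0 ≤ RR p k ∧ RR p k ≤ k * (p : ℝ) ^ 2 + (p : ℝ) ^ 2 := by
  unfold RR
  refine ⟨Finset.sum_nonneg fun i _ => Finset.sum_nonneg fun j _ => Nat.cast_nonneg _, ?_⟩
  have h1 : ∑ i : Fin p, ∑ j : Fin p, (DD p k i j : ℝ) ≤
      ∑ i : Fin p, ∑ j : Fin p, ((k : ℝ) * dl p i j + if i < j then (1 : ℝ) else 0) := by
    refine Finset.sum_le_sum fun i _ => Finset.sum_le_sum fun j _ => ?_
    rcases lt_or_ge i j with h | h
    · rw [if_pos h]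
      have := (abs_le.1 (DD_near p k i j)).2
      linarith
    · obtain ⟨h1, h2⟩ := DD_zero p k i j h
      rw [if_neg (not_lt.2 h), h1, h2]
      simp
  have h2 : ∑ i : Fin p, ∑ j : Fin p, ((k : ℝ) * dl p i j + if i < j then (1 : ℝ) else 0) =
      k * ∑ i : Fin p, ∑ j : Fin p, dl p i j +
        ∑ i : Fin p, ∑ j : Fin p, (if i < j then (1 : ℝ) else 0) := by
    simp only [Finset.sum_add_distrib, Finset.mul_sum]
  have h3 := dl_sum p hp
  have h4 := cnt_pairs p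
  have h5 : (k : ℝ) * ∑ i : Fin p, ∑ j : Fin p, dl p i j ≤ k * (p : ℝ) ^ 2 :=
    mul_le_mul_of_nonneg_left h3 (Nat.cast_nonneg k)
  have h6 : (0 : ℝ) ≤ (p : ℝ) ^ 2 := sq_nonneg _
  linarith
-- END R_le

-- BEGIN sq_log
private lemma sq_log_low (y : ℝ) (h0 : 0 ≤ y) : -1 ≤ y ^ 2 * log y := by
  rcases h0.eq_or_lt with h | h
  · rw [← h]; simp
  · have h1 : 1 - y⁻¹ ≤ log y := one_sub_inv_le_log_of_pos h
    have h2 : y ^ 2 * (1 - y⁻¹) ≤ y ^ 2 * log y := mul_le_mul_of_nonneg_left h1 (by positivity)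
    have h3 : y ^ 2 * (1 - y⁻¹) = y ^ 2 - y := by field_simp
    nlinarith [sq_nonneg (y - 1)]

/-- PROOF. Right side at least `0`: `y² log y ≥ -1/4` for `0 ≤ y ≤ 1` (`log y ≥ 1 - 1/y`; `y = 0` trivial), `≥ 0` for `y ≥ 1`. So `D = 0`, `D = 1` are clear.
`D ≥ 2`: then `y ≥ 1`. If `y ≥ D`, `y² log y ≥ D² log D`. If `y < D`: `D² log D - y² log y = (D² - y²) log D + y² log (D / y)
≤ 2 D log D + y² (D / y - 1) ≤ 2 D log D + y ≤ (4 k + 1) (2 log (4 k + 1) + 1)`, as `D ≤ y + 1 ≤ 4 k + 1`. -/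
theorem sq_log (k y : ℝ) (D : ℕ) (hk : 1 ≤ k) (h0 : 0 ≤ y) (h4 : y ≤ 4 * k) (h : |(D : ℝ) - y| ≤ 1) :
    (D : ℝ) ^ 2 * log D ≤ y ^ 2 * log y + (4 * k + 1) * (2 * log (4 * k + 1) + 1) := by
  have hL : 0 ≤ log (4 * k + 1) := log_nonneg (by linarith)
  have hM : 0 ≤ (4 * k + 1) * (2 * log (4 * k + 1)) := by
    have : 0 ≤ 4 * k + 1 := by linarith
    positivity
  have hlow := sq_log_low y h0
  obtain ⟨ha, hb⟩ := abs_le.1 h
  rcases Nat.lt_or_ge D 2 with hD | hD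
  · have hz : (D : ℝ) ^ 2 * log D = 0 := by
      interval_cases D <;> simp
    rw [hz]
    nlinarith
  · have hD' : (2 : ℝ) ≤ D := by exact_mod_cast hD
    have hy1 : 1 ≤ y := by linarith
    have hDpos : (0 : ℝ) < D := by linarith
    have hypos : 0 < y := by linarith
    have hly : 0 ≤ log y := log_nonneg hy1
    have hlD : 0 ≤ log (D : ℝ) := log_nonneg (by linarith)
    rcases le_or_gt (D : ℝ) y with hc | hc
    · have e1 : log (D : ℝ) ≤ log y := log_le_log hDpos hc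
      have e2 : (D : ℝ) ^ 2 ≤ y ^ 2 := by nlinarith
      have e3 : (D : ℝ) ^ 2 * log D ≤ y ^ 2 * log y := mul_le_mul e2 e1 hlD (by positivity)
      nlinarith
    · have e1 : log (D : ℝ) ≤ log (4 * k + 1) := log_le_log hDpos (by linarith)
      have e2 : log ((D : ℝ) / y) ≤ (D : ℝ) / y - 1 := log_le_sub_one_of_pos (by positivity)
      rw [log_div hDpos.ne' hypos.ne'] at e2
      have e3 : y ^ 2 * (log (D : ℝ) - log y) ≤ y ^ 2 * ((D : ℝ) / y - 1) :=
        mul_le_mul_of_nonneg_left e2 (by positivity)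
      have e4 : y ^ 2 * ((D : ℝ) / y - 1) = y * ((D : ℝ) - y) := by field_simp
      have e5 : y * ((D : ℝ) - y) ≤ y * 1 := mul_le_mul_of_nonneg_left hb h0
      have e6 : ((D : ℝ) ^ 2 - y ^ 2) ≤ 2 * D := by nlinarith
      have e7 : ((D : ℝ) ^ 2 - y ^ 2) * log D ≤ 2 * D * log D := mul_le_mul_of_nonneg_right e6 hlD
      have e8 : (D : ℝ) * log D ≤ (4 * k + 1) * log (4 * k + 1) :=
        mul_le_mul (by linarith) e1 hlD (by linarith)
      nlinarith
-- END sq_log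

-- BEGIN E_le
private theorem E_le_pt (p k : ℕ) (hk : 1 ≤ k) (i j : Fin p) :
    (DD p k i j : ℝ) ^ 2 * log (DD p k i j) ≤
      (k : ℝ) ^ 2 * log k * dl p i j ^ 2 + (k : ℝ) ^ 2 * (dl p i j ^ 2 * log (dl p i j)) +
        (4 * k + 1) * (2 * log (4 * k + 1) + 1) * (if i < j then (1 : ℝ) else 0) := by
  have hk1 : (1 : ℝ) ≤ k := by exact_mod_cast hk
  by_cases hij : i < j
  · rw [if_pos hij, mul_one]
    obtain ⟨h0, h4⟩ := dl_bd p i j
    have h1 := sq_log (k : ℝ) (k * dl p i j) (DD p k i j) hk1 (by positivity) (by nlinarith)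
      (DD_near p k i j)
    have h2 : ((k : ℝ) * dl p i j) ^ 2 * log (k * dl p i j) =
        (k : ℝ) ^ 2 * log k * dl p i j ^ 2 + (k : ℝ) ^ 2 * (dl p i j ^ 2 * log (dl p i j)) := by
      rcases h0.eq_or_lt with h | h
      · rw [← h]
        simp
      · rw [log_mul (by positivity) h.ne']
        ring
    rw [h2] at h1
    exact h1
  · rw [if_neg hij, mul_zero, add_zero]
    obtain ⟨h1, h2⟩ := DD_zero p k i j (not_lt.1 hij)
    rw [h1, h2]
    simp

/-- PROOF. `sq_log` with `y = k dl` for the pairs `i < j`, `0 = 0` for the others; `∑ (k dl)² log (k dl) = k² log k ∑ dl² + k² ∑ dl² log dl`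
(`dl = 0` allowed), `A_eq`, `S_le` (Trig.lean), `cnt_pairs`. -/
theorem E_le (p k : ℕ) (hp : 2 ≤ p) (hk : 1 ≤ k) :
    EE p k ≤ 2 * (p : ℝ) ^ 2 * (k : ℝ) ^ 2 * log k +
      (k : ℝ) ^ 2 * (2 * (p : ℝ) ^ 2 + 5 * p / (2 * (4 * (p : ℝ) ^ 2 - 1))) +
      (p : ℝ) ^ 2 / 2 * ((4 * k + 1) * (2 * log (4 * k + 1) + 1)) := by
  have hk1 : (1 : ℝ) ≤ k := by exact_mod_cast hk
  have hA : ∑ i : Fin p, ∑ j : Fin p, dl p i j ^ 2 = 2 * (p : ℝ) ^ 2 := A_eq p hp
  have hS : ∑ i : Fin p, ∑ j : Fin p, dl p i j ^ 2 * log (dl p i j) ≤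
      2 * (p : ℝ) ^ 2 + 5 * p / (2 * (4 * (p : ℝ) ^ 2 - 1)) := S_le p hp
  have hc : 0 ≤ (4 * (k : ℝ) + 1) * (2 * log (4 * k + 1) + 1) := by
    have : 0 ≤ log (4 * (k : ℝ) + 1) := log_nonneg (by linarith)
    positivity
  have h1 : EE p k ≤ ∑ i : Fin p, ∑ j : Fin p, ((k : ℝ) ^ 2 * log k * dl p i j ^ 2 +
      (k : ℝ) ^ 2 * (dl p i j ^ 2 * log (dl p i j)) +
      (4 * k + 1) * (2 * log (4 * k + 1) + 1) * (if i < j then (1 : ℝ) else 0)) :=
    Finset.sum_le_sum fun i _ => Finset.sum_le_sum fun j _ => E_le_pt p k hk i j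
  refine h1.trans ?_
  simp only [Finset.sum_add_distrib, ← Finset.mul_sum]
  rw [hA]
  have h2 := mul_le_mul_of_nonneg_left hS (sq_nonneg (k : ℝ))
  have h3 := mul_le_mul_of_nonneg_left (cnt_pairs p) hc
  nlinarith
-- END E_le

-- BEGIN nk_eq
private theorem nk_eq_gauss (e : ℕ) :
    ∑ d ∈ Finset.range e, ((e : ℝ) - d) = (e : ℝ) * (e + 1) / 2 := by
  induction e with
  | zero => simp
  | succ e ih =>
    rw [Finset.sum_range_succ]
    have h1 : ∑ d ∈ Finset.range e, (((e + 1 : ℕ) : ℝ) - d) =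
        ∑ d ∈ Finset.range e, ((e : ℝ) - d) + e := by
      have h2 : ∀ d ∈ Finset.range e, (((e + 1 : ℕ) : ℝ) - d) = ((e : ℝ) - d) + 1 := by
        intro d _
        push_cast
        ring
      rw [Finset.sum_congr rfl h2, Finset.sum_add_distrib]
      simp
    rw [h1, ih]
    push_cast
    ring

private theorem nk_eq_row (D : ℕ) :
    ∑ d ∈ Finset.range D, ((D : ℝ) - d) * (if 0 < d then (1 : ℝ) else 0) =
      (D : ℝ) * (D - 1) / 2 := by
  cases D with
  | zero => simp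
  | succ e =>
    rw [Finset.sum_range_succ']
    have h2 : ∀ d ∈ Finset.range e, (((e + 1 : ℕ) : ℝ) - ((d + 1 : ℕ) : ℝ)) *
        (if 0 < d + 1 then (1 : ℝ) else 0) = (e : ℝ) - d := by
      intro d _
      rw [if_pos (Nat.succ_pos d)]
      push_cast
      ring
    rw [Finset.sum_congr rfl h2, nk_eq_gauss]
    simp
    ring

/-- PROOF. `sum_cells_beta (hts p k) (fun _ => 1)` (Core.lean): a pair with `D = DD > 0` has `i < j` (`DD_zero`), so the condition is `0 < d`, and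
`∑_{1 ≤ d < D} (D - d) = D (D - 1) / 2`. See `gen_size_cell`, `gen_size_row` in Gen.lean. -/
theorem nk_eq (p k : ℕ) : (nk p k : ℝ) = (QQ p k - RR p k) / 2 := by
  have h := sum_cells_beta (hts p k) (fun _ => (1 : ℝ))
  rw [Finset.sum_const, nsmul_eq_mul, mul_one] at h
  have h1 : (nk p k : ℝ) = ((cells (beta (hts p k))).card : ℝ) := rfl
  rw [h1, h, QQ, RR, ← Finset.sum_sub_distrib, Finset.sum_div]
  refine Finset.sum_congr rfl fun i _ => ?_
  rw [← Finset.sum_sub_distrib, Finset.sum_div]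
  refine Finset.sum_congr rfl fun j _ => ?_
  show ∑ d ∈ Finset.range (DD p k i j), ((DD p k i j : ℝ) - d) *
    (if (j : ℕ) < (i : ℕ) ∨ 0 < d then (1 : ℝ) else 0) = _
  by_cases hij : j ≤ i
  · rw [(DD_zero p k i j hij).1]
    simp
  · have hlt : ¬ (j : ℕ) < (i : ℕ) := fun h' => hij (Fin.le_def.2 h'.le)
    have h3 : ∀ d ∈ Finset.range (DD p k i j), ((DD p k i j : ℝ) - d) *
        (if (j : ℕ) < (i : ℕ) ∨ 0 < d then (1 : ℝ) else 0) =
        ((DD p k i j : ℝ) - d) * (if 0 < d then (1 : ℝ) else 0) := by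
      intro d _
      have h4 : ((j : ℕ) < (i : ℕ) ∨ 0 < d) ↔ 0 < d := or_iff_right hlt
      simp only [h4]
    rw [Finset.sum_congr rfl h3, nk_eq_row]
    ring
-- END nk_eq

-- BEGIN hook_ub
private theorem hook_ub_gauss (D : ℕ) :
    ∑ d ∈ Finset.range D, (if 0 < d then ((D : ℝ) - d) else 0) = ((D : ℝ) ^ 2 - D) / 2 := by
  have h := nk_eq_row D
  have h2 : ∑ d ∈ Finset.range D, (if 0 < d then ((D : ℝ) - d) else 0) =
      ∑ d ∈ Finset.range D, ((D : ℝ) - d) * (if 0 < d then (1 : ℝ) else 0) := by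
    refine Finset.sum_congr rfl fun d _ => ?_
    split_ifs
    · rw [mul_one]
    · rw [mul_zero]
  rw [h2, h]
  ring

private theorem hook_ub_inner (p k : ℕ) (hp : 2 ≤ p) (i j : Fin p) :
    2 * ∑ d ∈ Finset.range (DD p k i j),
        log (((if (j : ℕ) < (i : ℕ) ∨ 0 < d then (d * p + (i : ℕ) - (j : ℕ)) ^ (DD p k i j - d) else 1 : ℕ) : ℝ)) ≤
      ((DD p k i j : ℝ) ^ 2 - DD p k i j) * log p + (DD p k i j : ℝ) ^ 2 * log (DD p k i j) -
        3 / 2 * (DD p k i j : ℝ) ^ 2 + 2 * (DD p k i j : ℝ) := by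
  by_cases hji : j ≤ i
  · rw [(DD_zero p k i j hji).1]
    simp
  · have hlt : (i : ℕ) < (j : ℕ) := Fin.lt_def.1 (not_le.1 hji)
    have hj := j.isLt
    obtain ⟨D, hD⟩ : ∃ D, D = DD p k i j := ⟨_, rfl⟩
    rw [← hD]
    rcases Nat.eq_zero_or_pos D with h0 | hD1
    · rw [h0]
      simp
    have hstep : ∀ d ∈ Finset.range D,
        log (((if (j : ℕ) < (i : ℕ) ∨ 0 < d then (d * p + (i : ℕ) - (j : ℕ)) ^ (D - d) else 1 : ℕ) : ℝ)) ≤
          ((D : ℝ) - d) * log d + (if 0 < d then ((D : ℝ) - d) else 0) * log p := by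
      intro d hd
      have hd' := Finset.mem_range.1 hd
      rcases Nat.eq_zero_or_pos d with h0 | h0
      · subst h0
        have h1 : ¬ ((j : ℕ) < (i : ℕ) ∨ 0 < 0) := by omega
        rw [if_neg h1]
        simp
      · rw [if_pos (Or.inr h0), if_pos h0]
        have h2 : ((D - d : ℕ) : ℝ) = (D : ℝ) - d := by
          rw [Nat.cast_sub hd'.le]
        have h3 : 0 < d * p + (i : ℕ) - (j : ℕ) := by
          have : p ≤ d * p := Nat.le_mul_of_pos_left p h0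
          omega
        have h4 : ((d * p + (i : ℕ) - (j : ℕ) : ℕ) : ℝ) ≤ (d : ℝ) * p := by
          have : d * p + (i : ℕ) - (j : ℕ) ≤ d * p := by omega
          exact_mod_cast this
        have h5 : log ((d * p + (i : ℕ) - (j : ℕ) : ℕ) : ℝ) ≤ log d + log p := by
          rw [← Real.log_mul (by positivity) (by positivity)]
          exact Real.log_le_log (by exact_mod_cast h3) h4
        have h6 : (0 : ℝ) ≤ (D : ℝ) - d := by
          rw [← h2]
          positivity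
        rw [Nat.cast_pow, Real.log_pow, h2]
        nlinarith [mul_le_mul_of_nonneg_left h5 h6]
    have h7 := Finset.sum_le_sum hstep
    rw [Finset.sum_add_distrib, ← Finset.sum_mul, hook_ub_gauss] at h7
    have h8 := LM_le D hD1
    linarith

/-- PROOF. As `gen_hook` (Gen.lean): `prod_cells_beta (hts p k) (fun n => n)`, take logarithms; a pair with `D = DD > 0` has `i < j` (`DD_zero`), so only `1 ≤ d < D`
occur, with `d p + i - j ≤ d p`, `log (d p) = log d + log p`, `∑_{1 ≤ d < D} (D - d) log d ≤ D²/2 log D - 3/4 D² + D` (`LM_le`, Tail.lean),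
`∑_{1 ≤ d < D} (D - d) = D (D - 1) / 2`. Twice the sum is `(D² - D) log p + D² log D - 3/2 D² + 2 D`. -/
theorem hook_ub (p k : ℕ) (hp : 2 ≤ p) :
    2 * log ((∏ z ∈ cells (beta (hts p k)), (z.1 - z.2) : ℕ) : ℝ) ≤
      (QQ p k - RR p k) * log p + EE p k - 3 / 2 * QQ p k + 2 * RR p k := by
  have hpr := prod_cells_beta (hts p k) (fun n : ℕ => n)
  have hne : ∀ i j : Fin p, ∀ d : ℕ,
      (if (j : ℕ) < (i : ℕ) ∨ 0 < d then (d * p + (i : ℕ) - (j : ℕ)) ^ (hts p k i - hts p k j - d) else 1) ≠ 0 := by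
    intro i j d
    have hi := i.isLt
    have hj := j.isLt
    split_ifs with h
    · apply pow_ne_zero
      rcases h with h | h
      · omega
      · have : p ≤ d * p := Nat.le_mul_of_pos_left p h
        omega
    · exact one_ne_zero
  have hlog : log ((∏ z ∈ cells (beta (hts p k)), (z.1 - z.2) : ℕ) : ℝ) =
      ∑ i : Fin p, ∑ j : Fin p, ∑ d ∈ Finset.range (hts p k i - hts p k j),
        log (((if (j : ℕ) < (i : ℕ) ∨ 0 < d then (d * p + (i : ℕ) - (j : ℕ)) ^ (hts p k i - hts p k j - d) else 1 : ℕ) : ℝ)) := by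
    rw [hpr, Nat.cast_prod, Real.log_prod]
    · refine Finset.sum_congr rfl fun i _ => ?_
      rw [Nat.cast_prod, Real.log_prod]
      · refine Finset.sum_congr rfl fun j _ => ?_
        rw [Nat.cast_prod, Real.log_prod]
        intro d _
        exact_mod_cast hne i j d
      · intro j _
        rw [Nat.cast_ne_zero]
        exact Finset.prod_ne_zero_iff.2 fun d _ => hne i j d
    · intro i _
      rw [Nat.cast_ne_zero]
      exact Finset.prod_ne_zero_iff.2 fun j _ => Finset.prod_ne_zero_iff.2 fun d _ => hne i j d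
  have hrhs : (QQ p k - RR p k) * log p + EE p k - 3 / 2 * QQ p k + 2 * RR p k =
      ∑ i : Fin p, ∑ j : Fin p, (((DD p k i j : ℝ) ^ 2 - DD p k i j) * log p +
        (DD p k i j : ℝ) ^ 2 * log (DD p k i j) - 3 / 2 * (DD p k i j : ℝ) ^ 2 + 2 * (DD p k i j : ℝ)) := by
    simp only [QQ, RR, EE, Finset.sum_add_distrib, Finset.sum_sub_distrib, ← Finset.sum_mul, ← Finset.mul_sum]
  rw [hlog, hrhs, Finset.mul_sum]
  refine Finset.sum_le_sum fun i _ => ?_
  rw [Finset.mul_sum]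
  refine Finset.sum_le_sum fun j _ => ?_
  exact hook_ub_inner p k hp i j
-- END hook_ub

-- BEGIN h_low
/-- PROOF. `log (m / n) ≤ m / n - 1` gives `n log n ≥ n log m - (m - n)`, so `n log n - n ≥ n log m - m = m log m - m - (m - n) log m`
and `(m - n) log m ≤ e log m` (`log m ≥ 0`). -/
theorem h_low (n m e : ℝ) (hn : 0 < n) (hm : 1 ≤ m) (h : |n - m| ≤ e) :
    m * log m - m - e * log m ≤ n * log n - n := by
  have hm0 : 0 < m := by linarith
  have h1 : log (m / n) ≤ m / n - 1 := log_le_sub_one_of_pos (div_pos hm0 hn)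
  rw [log_div hm0.ne' hn.ne'] at h1
  have h2 : n * (log m - log n) ≤ n * (m / n - 1) := mul_le_mul_of_nonneg_left h1 hn.le
  have h3 : n * (m / n - 1) = m - n := by field_simp
  rw [h3] at h2
  have h4 : 0 ≤ log m := log_nonneg hm
  have h5 : (m - n) * log m ≤ e * log m :=
    mul_le_mul_of_nonneg_right ((neg_le_abs (n - m)).trans' (by linarith) |>.trans h) h4
  linarith
-- END h_low

-- BEGIN expl_fin
private theorem expl_fin_log (p k : ℝ) (hp : 3 ≤ p) (hk : 200 * p ≤ k) :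
    1 ≤ log p ∧ 0 ≤ log k ∧ log k ≤ log p + 4.55 + k / (200 * p) ∧
      log (4 * k + 1) ≤ log p + 6.63 + k / (200 * p) := by
  have hp0 : 0 < p := by linarith
  have hk0 : 0 < k := by linarith
  have hκ0 : 0 < k / (200 * p) := by positivity
  have h1 : 1 ≤ log p := by
    rw [le_log_iff_exp_le hp0]
    have := Real.exp_one_lt_d9
    linarith
  have h2 : 0 ≤ log k := log_nonneg (by linarith)
  have hl2 := Real.log_two_lt_d9
  have h200 : log 200 ≤ 5.55 := by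
    have h3 : log (200 : ℝ) ≤ log ((2 : ℝ) ^ 8) := log_le_log (by norm_num) (by norm_num)
    rw [log_pow] at h3
    push_cast at h3
    linarith
  have h3 : log k = log 200 + log p + log (k / (200 * p)) := by
    rw [← log_mul (by norm_num) hp0.ne', ← log_mul (by positivity) hκ0.ne', mul_div_cancel₀ _ (by positivity)]
  have h4 : log (k / (200 * p)) ≤ k / (200 * p) - 1 := log_le_sub_one_of_pos hκ0
  have h5 : log k ≤ log p + 4.55 + k / (200 * p) := by
    rw [h3]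
    linarith
  have h6 : log (4 * k + 1) ≤ log k + 2.08 := by
    have h7 : log (4 * k + 1) ≤ log ((2 : ℝ) ^ 3 * k) := log_le_log (by linarith) (by linarith)
    rw [log_mul (by norm_num) hk0.ne', log_pow] at h7
    push_cast at h7
    linarith
  exact ⟨h1, h2, h5, by linarith⟩

/-- PROOF. Put `u = log p ≥ 1`, `κ = k / (200 p) ≥ 1`. `log k ≤ log (200 p) + (κ - 1) ≤ u + 5.3 + κ - 1` (`Real.add_one_le_exp` or `log κ ≤ κ - 1`;
`log 200 < 5.3`: `200 < e^5.3`). `log (4 k + 1) ≤ log k + 1.4`. So every logarithm is at most `c u + κ + c'`, and the left side is at most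
`k p² (22 log p + 22 log k)`, while the right side is at least `k p · κ · 186 · p log p / ...`: dividing by `k p²`:
left `≤ 3.02 (u + log k) + 1.51 u·2 + 2.01 (2 log k + 3.8) + 3.01 + 2.01 + 0.1 (u + log k) + 12.2 (u + log k) + 0.9`, right `≥ 200 κ (u - 0.08)`.
(`log p ≥ 1.0986` for `p ≥ 3`: `Real.log_two_gt_d9` and `3^5 > 2^7`, or `log 3 > 1`.) -/
theorem expl_fin (p k : ℝ) (hp : 3 ≤ p) (hk : 200 * p ≤ k) :
    2 * (3 / 2 * k * p ^ 2 + p ^ 2) * (log p + log k) + 2 * (3 / 2 * k * p ^ 2 + p ^ 2) * log p +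
      p ^ 2 / 2 * ((4 * k + 1) * (2 * log (4 * k + 1) + 1)) + 3 / 2 * (2 * k * p ^ 2 + p ^ 2) +
      2 * (k * p ^ 2 + p ^ 2) + (2 * (log p + log k) + 1) + log p +
      6 * k * p ^ 2 * (2 * (log p + log k) + 1) +
      (3 / 2 * k * p ^ 2 + p ^ 2) * log p / (p - 1) + k ^ 2 * (5 * p / (2 * (4 * p ^ 2 - 1))) ≤
      p ^ 2 * k ^ 2 * log p / (p - 1) := by
  obtain ⟨hu1, hL0, hL, hM⟩ := expl_fin_log p k hp hk
  have hM0 : 0 ≤ log (4 * k + 1) := log_nonneg (by linarith)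
  have hp0 : 0 < p := by linarith
  have hk0 : 0 < k := by linarith
  have hk6 : 600 ≤ k := by linarith
  have hκ1 : 1 ≤ k / (200 * p) := by
    rw [le_div_iff₀ (by positivity)]
    linarith
  obtain ⟨κ, hκ⟩ : ∃ κ : ℝ, κ = k / (200 * p) := ⟨_, rfl⟩
  obtain ⟨u, hu⟩ : ∃ u : ℝ, u = log p := ⟨_, rfl⟩
  obtain ⟨L, hLd⟩ : ∃ L : ℝ, L = log k := ⟨_, rfl⟩
  obtain ⟨M, hMd⟩ : ∃ M : ℝ, M = log (4 * k + 1) := ⟨_, rfl⟩
  rw [← hκ] at hL hM hκ1
  rw [← hu] at hu1 hL hM ⊢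
  rw [← hLd] at hL0 hL ⊢
  rw [← hMd] at hM hM0 ⊢
  obtain ⟨P, hP⟩ : ∃ P : ℝ, P = p ^ 2 := ⟨_, rfl⟩
  obtain ⟨A, hA⟩ : ∃ A : ℝ, A = k * P := ⟨_, rfl⟩
  have hP9 : 9 ≤ P := by
    rw [hP]
    nlinarith
  have hP0 : 0 < P := by linarith
  have hA0 : 0 < A := by
    rw [hA]
    positivity
  have hPA : 600 * P ≤ A := by
    rw [hA]
    exact mul_le_mul_of_nonneg_right hk6 hP0.le
  have hA5 : 5400 ≤ A := by linarith
  obtain ⟨X, hX⟩ : ∃ X : ℝ, X = A * κ * u := ⟨_, rfl⟩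
  have hAκ : A ≤ A * κ := by
    calc A = A * 1 := (mul_one A).symm
      _ ≤ A * κ := mul_le_mul_of_nonneg_left hκ1 hA0.le
  have hAκ0 : 0 ≤ A * κ := le_trans hA0.le hAκ
  have hX2 : A * κ ≤ X := by
    rw [hX]
    calc A * κ = A * κ * 1 := (mul_one _).symm
      _ ≤ A * κ * u := mul_le_mul_of_nonneg_left hu1 hAκ0
  have hX1 : A * u ≤ X := by
    rw [hX]
    exact mul_le_mul_of_nonneg_right hAκ (by linarith)
  have hX3 : A ≤ X := le_trans hAκ hX2
  -- the products with the logarithms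
  have hAL : A * L ≤ A * u + 4.55 * A + A * κ := by
    calc A * L ≤ A * (u + 4.55 + κ) := mul_le_mul_of_nonneg_left hL hA0.le
      _ = A * u + 4.55 * A + A * κ := by ring
  have hAM : A * M ≤ A * u + 6.63 * A + A * κ := by
    calc A * M ≤ A * (u + 6.63 + κ) := mul_le_mul_of_nonneg_left hM hA0.le
      _ = A * u + 6.63 * A + A * κ := by ring
  have hAL0 : 0 ≤ A * L := mul_nonneg hA0.le hL0
  have hPL : 600 * (P * L) ≤ A * L := by
    calc 600 * (P * L) = (600 * P) * L := by ring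
      _ ≤ A * L := mul_le_mul_of_nonneg_right hPA hL0
  have hPM : 600 * (P * M) ≤ A * M := by
    calc 600 * (P * M) = (600 * P) * M := by ring
      _ ≤ A * M := mul_le_mul_of_nonneg_right hPA hM0
  have hPu : 600 * (P * u) ≤ A * u := by
    calc 600 * (P * u) = (600 * P) * u := by ring
      _ ≤ A * u := mul_le_mul_of_nonneg_right hPA (by linarith)
  have hLs : L ≤ A * L := by
    calc L = 1 * L := (one_mul L).symm
      _ ≤ A * L := mul_le_mul_of_nonneg_right (by linarith) hL0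
  have hLs2 : 5400 * L ≤ A * L := mul_le_mul_of_nonneg_right hA5 hL0
  have hus2 : 5400 * u ≤ A * u := mul_le_mul_of_nonneg_right hA5 (by linarith)
  -- the quotients
  have h8 : (3 / 2 * k * p ^ 2 + p ^ 2) * u / (p - 1) ≤ (3 / 2 * A + P) * u / 2 := by
    have e : 3 / 2 * k * p ^ 2 + p ^ 2 = 3 / 2 * A + P := by
      rw [hA, hP]
      ring
    rw [e]
    exact div_le_div_of_nonneg_left (by positivity) (by norm_num) (by linarith)
  have hkpu : A * κ * u = k ^ 2 * p * u / 200 := by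
    rw [hA, hP, hκ]
    field_simp
  have h9 : k ^ 2 * (5 * p / (2 * (4 * p ^ 2 - 1))) ≤ k ^ 2 * p / 14 := by
    have h35 : 35 ≤ 4 * p ^ 2 - 1 := by
      rw [← hP]
      linarith
    have e : 5 * p / (2 * (4 * p ^ 2 - 1)) ≤ 5 * p / (2 * 35) :=
      div_le_div_of_nonneg_left (by positivity) (by norm_num) (by linarith)
    calc k ^ 2 * (5 * p / (2 * (4 * p ^ 2 - 1))) ≤ k ^ 2 * (5 * p / (2 * 35)) :=
          mul_le_mul_of_nonneg_left e (by positivity)
      _ = k ^ 2 * p / 14 := by ring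
  have h10 : k ^ 2 * p * u ≤ p ^ 2 * k ^ 2 * u / (p - 1) := by
    rw [le_div_iff₀ (by linarith)]
    have : 0 ≤ k ^ 2 * p * u := by positivity
    calc k ^ 2 * p * u * (p - 1) ≤ k ^ 2 * p * u * p := mul_le_mul_of_nonneg_left (by linarith) this
      _ = p ^ 2 * k ^ 2 * u := by ring
  have h11 : k ^ 2 * p ≤ k ^ 2 * p * u := by
    calc k ^ 2 * p = k ^ 2 * p * 1 := (mul_one _).symm
      _ ≤ k ^ 2 * p * u := mul_le_mul_of_nonneg_left hu1 (by positivity)
  have hXk : k ^ 2 * p * u = 200 * X := by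
    rw [hX, hkpu]
    ring
  -- the eight terms
  have t1 : 2 * (3 / 2 * k * p ^ 2 + p ^ 2) * (u + L) = 3 * (A * u) + 3 * (A * L) + 2 * (P * u) + 2 * (P * L) := by
    rw [hA, hP]
    ring
  have t2 : 2 * (3 / 2 * k * p ^ 2 + p ^ 2) * u = 3 * (A * u) + 2 * (P * u) := by
    rw [hA, hP]
    ring
  have t3 : p ^ 2 / 2 * ((4 * k + 1) * (2 * M + 1)) = 4 * (A * M) + 2 * A + P * M + P / 2 := by
    rw [hA, hP]
    ring
  have t4 : 3 / 2 * (2 * k * p ^ 2 + p ^ 2) = 3 * A + 3 / 2 * P := by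
    rw [hA, hP]
    ring
  have t5 : 2 * (k * p ^ 2 + p ^ 2) = 2 * A + 2 * P := by
    rw [hA, hP]
    ring
  have t7 : 6 * k * p ^ 2 * (2 * (u + L) + 1) = 12 * (A * u) + 12 * (A * L) + 6 * A := by
    rw [hA, hP]
    ring
  have t8 : (3 / 2 * A + P) * u / 2 = 3 / 4 * (A * u) + (P * u) / 2 := by ring
  rw [t1, t2, t3, t4, t5, t7]
  rw [t8] at h8
  linarith
-- END expl_fin

-- BEGIN expl_num
/-- PROOF. `n = (Q - R) / 2`, `e = 3/2 k p² + p²`, `|n - p² k²| ≤ e` (from `hQ`, `hR0`, `hR`: `(2 k p² + p² + k p² + p²) / 2 = e`), `m = p² k²`, `log m = 2 (log p + log k)`.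
`h_low`: `n log n - n ≥ m log m - m - e log m`. `n + s ≤ m + e + 6 k p² ≤ m e¹`, so `log n ≤ log (n + s) ≤ 2 (log p + log k) + 1`.
`(Q - R) log p = 2 n log p ≤ (2 m + 2 e) log p`; `3/2 Q ≥ 3 m - 3/2 (2 k p² + p²)`; `(n / (p-1)) log p ≥ (m - e) log p / (p - 1)`. The terms
`2 m (log p + log k) - m - 2 m log p - 2 m log k - 2 m + 3 m` cancel, the rest is `expl_fin`. -/
theorem expl_num (p k n Q R E s : ℝ) (hp : 3 ≤ p) (hk : 200 * p ≤ k) (hn : n = (Q - R) / 2)
    (hQ : |Q - 2 * p ^ 2 * k ^ 2| ≤ 2 * k * p ^ 2 + p ^ 2) (hR0 : 0 ≤ R) (hR : R ≤ k * p ^ 2 + p ^ 2)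
    (hE : E ≤ 2 * p ^ 2 * k ^ 2 * log k + k ^ 2 * (2 * p ^ 2 + 5 * p / (2 * (4 * p ^ 2 - 1))) +
      p ^ 2 / 2 * ((4 * k + 1) * (2 * log (4 * k + 1) + 1)))
    (hs0 : 0 ≤ s) (hs : s ≤ 6 * k * p ^ 2) :
    s * log (n + s) + ((Q - R) * log p + E - 3 / 2 * Q + 2 * R) ≤
      n * log n - n + (n / (p - 1) - log n / log p - 1) * log p := by
  have hfin := expl_fin p k hp hk
  have hk600 : 600 ≤ k := by linarith
  have hp0 : (0 : ℝ) < p := by linarith
  have hk0 : (0 : ℝ) < k := by linarith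
  have hP : 0 < log p := log_pos (by linarith)
  have hK : 0 < log k := log_pos (by linarith)
  obtain ⟨m, hm⟩ : ∃ m : ℝ, m = p ^ 2 * k ^ 2 := ⟨_, rfl⟩
  obtain ⟨e, he⟩ : ∃ e : ℝ, e = 3 / 2 * k * p ^ 2 + p ^ 2 := ⟨_, rfl⟩
  obtain ⟨L, hL⟩ : ∃ L : ℝ, L = 2 * (log p + log k) + 1 := ⟨_, rfl⟩
  obtain ⟨w, hw⟩ : ∃ w : ℝ, w = log p / (p - 1) := ⟨_, rfl⟩
  have hw0 : 0 ≤ w := by
    rw [hw]
    exact div_nonneg hP.le (by linarith)
  have hp2 : 0 < p ^ 2 := by positivity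
  have hkp : 0 < k * p ^ 2 := by positivity
  have hQ' := abs_le.1 hQ
  have hnm : |n - m| ≤ e := by
    rw [abs_le, hn, hm, he]
    constructor
    · linarith [hQ'.1, hQ'.2]
    · linarith [hQ'.1, hQ'.2]
  have hnm' := abs_le.1 hnm
  have hmk : p ^ 2 * (7 * k + k / 2 + 1) ≤ p ^ 2 * k ^ 2 :=
    mul_le_mul_of_nonneg_left (by nlinarith) hp2.le
  have hem : e < m := by
    rw [he, hm]
    linarith
  have hn0 : 0 < n := by linarith [hnm'.1]
  have hm1 : 1 ≤ m := by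
    rw [hm]
    have hp9 : 9 ≤ p ^ 2 := by nlinarith
    linarith
  have hm0 : 0 < m := by linarith
  have hlogm : log m = 2 * (log p + log k) := by
    rw [hm, log_mul hp2.ne' (by positivity), log_pow, log_pow]
    push_cast
    ring
  have hlow := h_low n m e hn0 hm1 hnm
  have hns : n + s ≤ m * exp 1 := by
    have h1 : n + s ≤ 2 * m := by
      have h2 := hnm'.2
      rw [he] at h2
      rw [hm] at h2 ⊢
      linarith
    have h3 : (2 : ℝ) ≤ exp 1 := by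
      have := add_one_le_exp (1 : ℝ)
      linarith
    exact h1.trans (by rw [mul_comm]; exact mul_le_mul_of_nonneg_left h3 hm0.le)
  have hlns : log (n + s) ≤ L := by
    have h1 := log_le_log (by linarith : 0 < n + s) hns
    rw [log_mul hm0.ne' (exp_pos 1).ne', log_exp, hlogm] at h1
    rw [hL]
    exact h1
  have hln : log n ≤ L := (log_le_log hn0 (by linarith)).trans hlns
  have hL0 : 0 ≤ L := by
    rw [hL]
    linarith
  have t1 : s * log (n + s) ≤ 6 * k * p ^ 2 * L :=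
    (mul_le_mul_of_nonneg_left hlns hs0).trans (mul_le_mul_of_nonneg_right hs hL0)
  have t2 : (Q - R) * log p ≤ (2 * m + 2 * e) * log p :=
    mul_le_mul_of_nonneg_right (by linarith [hnm'.2]) hP.le
  have t3 : 2 * m - (2 * k * p ^ 2 + p ^ 2) ≤ Q := by
    rw [hm]
    linarith [hQ'.1]
  have t4 : (m - e) * w ≤ n * w := mul_le_mul_of_nonneg_right (by linarith [hnm'.1]) hw0
  have t5 : (n / (p - 1) - log n / log p - 1) * log p = n * w - log n - log p := by
    rw [hw]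
    field_simp
  have t6 : (3 / 2 * k * p ^ 2 + p ^ 2) * log p / (p - 1) = e * w := by
    rw [hw, he, mul_div_assoc]
  have t7 : p ^ 2 * k ^ 2 * log p / (p - 1) = m * w := by
    rw [hw, hm, mul_div_assoc]
  rw [t6, t7, ← he, ← hL] at hfin
  rw [hlogm] at hlow
  rw [t5]
  obtain ⟨c, hc⟩ : ∃ c : ℝ, c = 5 * p / (2 * (4 * p ^ 2 - 1)) := ⟨_, rfl⟩
  obtain ⟨T, hT⟩ : ∃ T : ℝ, T = p ^ 2 / 2 * ((4 * k + 1) * (2 * log (4 * k + 1) + 1)) := ⟨_, rfl⟩
  rw [← hT, ← hc] at hfin hE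
  have hE' : E ≤ 2 * m * log k + 2 * m + k ^ 2 * c + T := by
    rw [hm]
    linarith
  linarith
-- END expl_num

-- BEGIN expl_step
private theorem expl_step_wl (p : ℕ) [Fact p.Prime] (s : ℕ) : Wl p s.factorial s := by
  intro F _ _
  have hp : p.Prime := Fact.out
  have h1 : 1 ≤ ssDim F (Equiv.Perm (Fin s)) := by
    have h := ssDim_ge_card (p := p) (k := F) (⊥ : Subgroup (Equiv.Perm (Fin s))) (by
      rw [Subgroup.card_bot]
      exact hp.one_lt.not_ge ∘ Nat.le_of_dvd one_pos)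
    rwa [Subgroup.card_bot] at h
  calc pPrimePart p s.factorial ≤ s.factorial := pPrimePart_le p _
    _ = s.factorial * 1 := (mul_one _).symm
    _ ≤ s.factorial * ssDim F (Equiv.Perm (Fin s)) := Nat.mul_le_mul_left _ h1

/-- PROOF. `n = nk p k`, `s = N - n`. `core_one_rep (hts p k)` gives `f H = n!`, `RepGe p n f`. `step_ineq` with `C = s!` (`Wl p (s!) s`: `pPrimePart ≤ s! ≤ s! ssDim`,
`ssDim ≥ 1`), `e = n!.factorization p`: the condition is `s! N! H² ≤ n!² s! p^e`, i.e. `log N! + 2 log H ≤ 2 log n! + e log p`. `(n+s)! ≤ n! (n+s)^s`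
(`Nat.factorial_mul_ascFactorial`, `Nat.ascFactorial_le_pow_add`), `log n! ≥ n log n - n` (`log_fact_ge`), `val_ge` (Tail.lean), `hook_ub`, `nk_eq`, `Q_near`, `R_le`, `E_le`,
`expl_num`. Compare `gen_step` in Gen.lean. (`n ≥ 1` from `nk_eq`, `Q_near`, `R_le`.) -/
theorem expl_step (p k : ℕ) [Fact p.Prime] (hp : 3 ≤ p) (hk : 200 * p ≤ k) (N : ℕ) (h1 : nk p k ≤ N)
    (h2 : (N : ℝ) ≤ nk p k + 6 * k * (p : ℝ) ^ 2) : Wl p 1 N := by
  have hpp : p.Prime := Fact.out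
  have hp2 : 2 ≤ p := hpp.two_le
  obtain ⟨f, hf, hr⟩ := core_one_rep (p := p) (hts p k)
  have hhk := hook_ub p k hp2
  have hnk := nk_eq p k
  have hQ := Q_near p k hp2
  obtain ⟨hR0, hR⟩ := R_le p k hp2
  have hE := E_le p k hp2 (by omega)
  have hcard : (cells (beta (hts p k))).card = nk p k := rfl
  rw [hcard] at hf hr
  obtain ⟨n, hn⟩ : ∃ n, n = nk p k := ⟨_, rfl⟩
  obtain ⟨H, hH⟩ : ∃ H, H = ∏ z ∈ cells (beta (hts p k)), (z.1 - z.2) := ⟨_, rfl⟩
  rw [← hn] at hf hr h1 h2 hnk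
  rw [← hH] at hf hhk
  have hpR : (3 : ℝ) ≤ p := by exact_mod_cast hp
  have hkR : 200 * (p : ℝ) ≤ k := by exact_mod_cast hk
  have hn0 : (0 : ℝ) < n := by
    have e1 := (abs_le.1 hQ).1
    have e2 : (0 : ℝ) < (p : ℝ) ^ 2 := by positivity
    have e3 : (600 : ℝ) ≤ k := by linarith
    have e4 : (0 : ℝ) < (p : ℝ) ^ 2 * (2 * (k : ℝ) ^ 2 - 3 * k - 2) := by
      apply mul_pos e2
      nlinarith
    rw [hnk]
    nlinarith
  have hn1 : 1 ≤ n := by exact_mod_cast hn0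
  obtain ⟨s, hs⟩ : ∃ s, N = n + s := ⟨N - n, by omega⟩
  have hs' : N - n = s := by omega
  have hb : Wl p s.factorial (N - n) := by
    rw [hs']
    exact expl_step_wl p s
  refine step_ineq n f H s.factorial (n.factorial.factorization p) N hr hf le_rfl h1 ?_ hb
  rw [hs', hs]
  have hlp : 0 < log (p : ℝ) := Real.log_pos (by exact_mod_cast hpp.one_lt)
  have hp0 : (0 : ℝ) < p := by exact_mod_cast hpp.pos
  have hHpos : 0 < H := by
    rcases Nat.eq_zero_or_pos H with h | h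
    · rw [h, Nat.mul_zero] at hf
      exact absurd hf.symm (Nat.factorial_ne_zero n)
    · exact h
  have hH0 : (0 : ℝ) < H := by exact_mod_cast hHpos
  have hnf : (0 : ℝ) < n.factorial := by exact_mod_cast Nat.factorial_pos n
  have hsR : (s : ℝ) ≤ 6 * k * (p : ℝ) ^ 2 := by
    rw [hs] at h2
    push_cast at h2
    linarith
  have hnum := expl_num (p : ℝ) (k : ℝ) (n : ℝ) (QQ p k) (RR p k) (EE p k) (s : ℝ) hpR hkR hnk hQ
    hR0 hR hE (Nat.cast_nonneg s) hsR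
  have hfac := log_fact_ge n
  have hval' := mul_le_mul_of_nonneg_right (val_ge p hpp n hn1) hlp.le
  have key : log (((n : ℝ) + s) ^ s * (H : ℝ) ^ 2) ≤
      log ((n.factorial : ℝ) * (p : ℝ) ^ (n.factorial.factorization p)) := by
    rw [Real.log_mul (by positivity) (by positivity), Real.log_mul (by positivity) (by positivity),
      Real.log_pow, Real.log_pow, Real.log_pow]
    push_cast
    linarith
  have h5 := (Real.log_le_log_iff (by positivity) (by positivity)).1 key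
  have h6 : (n + s) ^ s * H ^ 2 ≤ n.factorial * p ^ (n.factorial.factorization p) := by
    exact_mod_cast h5
  have h7 : (n + s).factorial ≤ n.factorial * (n + s) ^ s := by
    rw [← Nat.factorial_mul_ascFactorial]
    exact Nat.mul_le_mul_left _ (Nat.ascFactorial_le_pow_add n s)
  calc s.factorial * (n + s).factorial * H ^ 2
      ≤ s.factorial * (n.factorial * (n + s) ^ s) * H ^ 2 :=
        Nat.mul_le_mul_right _ (Nat.mul_le_mul_left _ h7)
    _ = s.factorial * n.factorial * ((n + s) ^ s * H ^ 2) := by ring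
    _ ≤ s.factorial * n.factorial * (n.factorial * p ^ (n.factorial.factorization p)) :=
        Nat.mul_le_mul_left _ h6
    _ = n.factorial ^ 2 * s.factorial * p ^ (n.factorial.factorization p) := by ring
-- END expl_step

-- BEGIN wl_big
/-- PROOF. `r = Nat.sqrt (N / p²) ≥ 201 p`, `k = r - 1`: `p² (k+1)² ≤ N < p² (k+2)²` (`Nat.sqrt_le'`, `Nat.lt_succ_sqrt'`, `Nat.div_mul_le_self`, `Nat.lt_mul_div_succ`).
`nk ≤ p² k² + 3/2 k p² + p² ≤ p² (k+1)²` and `nk ≥ p² k² - 3/2 k p² - p²` (`nk_eq`, `Q_near`, `R_le`), so `N - nk ≤ 11/2 k p² + 5 p² ≤ 6 k p²`. `expl_step`. -/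
theorem wl_big {p : ℕ} [Fact p.Prime] (hp : 3 ≤ p) (N : ℕ) (hN : (201 * p ^ 2) ^ 2 ≤ N) : Wl p 1 N := by
  have hp2 : 0 < p ^ 2 := by positivity
  obtain ⟨r, hr⟩ : ∃ r, r = Nat.sqrt (N / p ^ 2) := ⟨_, rfl⟩
  have h201 : 201 * p ≤ r := by
    rw [hr, Nat.le_sqrt', Nat.le_div_iff_mul_le hp2]
    calc (201 * p) ^ 2 * p ^ 2 = (201 * p ^ 2) ^ 2 := by ring
      _ ≤ N := hN
  have hr1 : r ^ 2 * p ^ 2 ≤ N := by
    rw [← Nat.le_div_iff_mul_le hp2, hr]
    exact Nat.sqrt_le' _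
  have hr2 : N < (r + 1) ^ 2 * p ^ 2 := by
    rw [← Nat.div_lt_iff_lt_mul hp2, hr]
    exact Nat.lt_succ_sqrt' _
  obtain ⟨k, rfl⟩ : ∃ k, r = k + 1 := ⟨r - 1, by omega⟩
  have hk : 200 * p ≤ k := by omega
  have hkr : (600 : ℝ) ≤ k := by
    have : 600 ≤ k := by omega
    exact_mod_cast this
  have hpr : (0 : ℝ) < (p : ℝ) ^ 2 := by positivity
  have a1 : ((k : ℝ) + 1) ^ 2 * (p : ℝ) ^ 2 ≤ N := by exact_mod_cast hr1
  have a2 : (N : ℝ) < ((k : ℝ) + 1 + 1) ^ 2 * (p : ℝ) ^ 2 := by exact_mod_cast hr2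
  have b1 := abs_le.1 (Q_near p k (by omega))
  have b2 := R_le p k (by omega)
  have b3 := nk_eq p k
  obtain ⟨x, hx⟩ : ∃ x : ℝ, x = (p : ℝ) ^ 2 := ⟨_, rfl⟩
  rw [← hx] at a1 a2 b1 b2 hpr
  have hkx : 0 ≤ (k : ℝ) * x := by positivity
  have hkx2 : 600 * x ≤ (k : ℝ) * x := mul_le_mul_of_nonneg_right hkr hpr.le
  refine expl_step p k hp hk N ?_ ?_
  · have : (nk p k : ℝ) ≤ N := by
      rw [b3]
      nlinarith [b1.2, b2.1]
    exact_mod_cast this
  · rw [b3, ← hx]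
    nlinarith [b1.1, b2.2]
-- END wl_big

end Pool.Agent.Wil
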