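import Mathlib
import Pool.Agent.Wil.Core
import Pool.Agent.Wil.Trig
import Pool.Agent.Wil.Asym

set_option autoImplicit false

/-! The theorem. -/

namespace Pool.Agent.Wil

open Real

-- BEGIN alt_index
theorem alt_index {k : Type} [Field k] (n : ℕ) (hn : 2 ≤ n) :
    ssDim k (Equiv.Perm (Fin n)) ≤ 2 * ssDim k (alternatingGroup (Fin n)) := by
  have : Nontrivial (Fin n) := Fin.nontrivial_iff_two_le.2 hn
  have h := ssDim_le_index (k := k) (alternatingGroup (Fin n))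
  rwa [alternatingGroup.index_eq_two] at h
-- END alt_index

-- BEGIN ssDim_mono
theorem ssDim_mono {k : Type} [Field k] {n N : ℕ} (h : n ≤ N) :
    ssDim k (Equiv.Perm (Fin n)) ≤ ssDim k (Equiv.Perm (Fin N)) := 
  ssDim_le_of_injective (Equiv.Perm.viaEmbeddingHom (Fin.castLEEmb h))
    (Equiv.Perm.viaEmbeddingHom_injective _)
-- END ssDim_mono

-- BEGIN ssDim_pos
theorem ssDim_pos {k : Type} [Field k] (n : ℕ) : 0 < ssDim k (Equiv.Perm (Fin n)) := by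
  have h1 : Nontrivial (MonoidAlgebra k (Equiv.Perm (Fin n)) ⧸
      (Ring.jacobson (MonoidAlgebra k (Equiv.Perm (Fin n)))).restrictScalars k) := by
    rw [Submodule.Quotient.nontrivial_iff]
    intro h
    have h2 : (1 : MonoidAlgebra k (Equiv.Perm (Fin n))) ∈
        (Ring.jacobson (MonoidAlgebra k (Equiv.Perm (Fin n)))).restrictScalars k := by
      rw [h]; trivial
    have h3 := nilpotent_of_mem_jacobson (A := MonoidAlgebra k (Equiv.Perm (Fin n))) h2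
    obtain ⟨m, hm⟩ := h3
    rw [one_pow] at hm
    exact one_ne_zero hm
  exact Module.finrank_pos
-- END ssDim_pos

/-- Logarithmic form of the lower bound. -/
theorem main_log (p : ℕ) [Fact p.Prime] :
    ∃ n0 : ℕ, ∀ N ≥ n0, ∀ (k : Type) [Field k] [CharP k p],
      log (N.factorial : ℝ) - 1 / (p : ℝ) ^ 3 * N ≤ log (ssDim k (Equiv.Perm (Fin N)) : ℝ) := by
  classical
  have hp : p.Prime := Fact.out
  have hp2 : 2 ≤ p := hp.two_le
  have hp0 : 0 < p := hp.pos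
  have hpr : (2 : ℝ) ≤ (p : ℝ) := by exact_mod_cast hp2
  choose n hn1 hn2 hn3 using fun κ : ℕ =>
    core_main (p := p) (fun i : Fin p => ⌊(κ : ℝ) * (2 + xx p i)⌋₊)
  set D : Fin p → Fin p → ℕ → ℕ := fun i j κ =>
    ⌊(κ : ℝ) * (2 + xx p i)⌋₊ - ⌊(κ : ℝ) * (2 + xx p j)⌋₊ with hDdef
  set δ : Fin p → Fin p → ℝ := fun i j => max (xx p i - xx p j) 0 with hδdef
  have hxx : ∀ i : ℕ, 0 ≤ 2 + xx p i := by
    intro i
    have := neg_one_le_cos (π * (2 * i + 1) / (2 * p))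
    simp only [xx]; linarith
  have hδ : ∀ i j, 0 ≤ δ i j := fun i j => le_max_right _ _
  have hD0 : ∀ i j, D i j 0 = 0 := by
    intro i j; simp [hDdef]
  have hD : ∀ i j, ∀ κ : ℕ, |(D i j κ : ℝ) - κ * δ i j| ≤ 1 := by
    intro i j κ
    have h := floor_diff ((κ : ℝ) * (2 + xx p i)) ((κ : ℝ) * (2 + xx p j))
      (mul_nonneg (Nat.cast_nonneg _) (hxx i)) (mul_nonneg (Nat.cast_nonneg _) (hxx j))
    have e : max ((κ : ℝ) * (2 + xx p i) - (κ : ℝ) * (2 + xx p j)) 0 =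
        κ * max (xx p i - xx p j) 0 := by
      rw [mul_max_of_nonneg _ _ (Nat.cast_nonneg κ), mul_zero]
      congr 1; ring
    rw [e] at h
    exact h
  have hA : ∑ i, ∑ j, δ i j ^ 2 = 2 * (p : ℝ) ^ 2 := A_eq p hp2
  have hS := S_le p hp2
  have hApos : 0 < ∑ i, ∑ j, δ i j ^ 2 := by rw [hA]; positivity
  have h1 : ∀ κ, ∑ i, ∑ j, (D i j κ : ℝ) * ((D i j κ : ℝ) - 1) ≤ 2 * (n κ : ℝ) := hn1
  have h2 : ∀ κ, 2 * (n κ : ℝ) ≤ ∑ i, ∑ j, (D i j κ : ℝ) * ((D i j κ : ℝ) + 1) := hn2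
  -- constants
  set c0 : ℝ := 5 / (2 * (p : ℝ) * (4 * (p : ℝ) ^ 2 - 1)) with hc0
  have h4 : 0 < 4 * (p : ℝ) ^ 2 - 1 := by nlinarith
  have hc0pos : 0 < c0 := by rw [hc0]; positivity
  have hc0lt : c0 < 1 / (p : ℝ) ^ 3 := by
    rw [hc0, div_lt_div_iff₀ (by positivity) (by positivity)]
    nlinarith [mul_pos (show (0:ℝ) < p by linarith) (show (0:ℝ) < 3 * (p:ℝ)^2 - 2 by nlinarith)]
  set c : ℝ := (c0 + 1 / (p : ℝ) ^ 3) / 2 with hc
  have hc_lt : c < 1 / (p : ℝ) ^ 3 := by rw [hc]; linarith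
  have hc_gt : c0 < c := by rw [hc]; linarith
  set η : ℝ := (p : ℝ) ^ 2 * (c - c0) with hηdef
  have hη : 0 < η := by rw [hηdef]; exact mul_pos (by positivity) (by linarith)
  obtain ⟨K, hK⟩ := asym_one p hp0 D δ hδ hApos hD0 hD n h1 h2 η hη
  obtain ⟨C, hC0, hC1, hC2⟩ := D_bounds D δ hδ hD0 hD n h1 h2
  rw [hA] at hC1
  have hconst : ((∑ i, ∑ j, δ i j ^ 2 * (log p - 3 / 2 + log (δ i j))) -
        (∑ i, ∑ j, δ i j ^ 2) / 2 * (log ((∑ i, ∑ j, δ i j ^ 2) / 2) - 1) + η) ≤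
      c * (p : ℝ) ^ 2 := by
    have e1 : (∑ i, ∑ j, δ i j ^ 2 * (log p - 3 / 2 + log (δ i j))) =
        (log p - 3 / 2) * (∑ i, ∑ j, δ i j ^ 2) + ∑ i, ∑ j, δ i j ^ 2 * log (δ i j) := by
      rw [Finset.mul_sum, ← Finset.sum_add_distrib]
      refine Finset.sum_congr rfl fun i _ => ?_
      rw [Finset.mul_sum, ← Finset.sum_add_distrib]
      refine Finset.sum_congr rfl fun j _ => ?_
      ring
    have e2 : log (2 * (p : ℝ) ^ 2 / 2) = 2 * log p := by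
      rw [show 2 * (p : ℝ) ^ 2 / 2 = (p : ℝ) ^ 2 by ring, log_pow]; norm_num
    have hS' : ∑ i, ∑ j, δ i j ^ 2 * log (δ i j) ≤
      2 * (p : ℝ) ^ 2 + 5 * p / (2 * (4 * (p : ℝ) ^ 2 - 1)) := hS
    rw [e1, hA, e2]
    have e3 : 5 * (p : ℝ) / (2 * (4 * (p : ℝ) ^ 2 - 1)) = (p : ℝ) ^ 2 * c0 := by
      rw [hc0]; field_simp
    rw [e3] at hS'
    rw [hηdef]
    nlinarith [hS']
  obtain ⟨N0, hN0⟩ := asym_two n (2 * (p : ℝ) ^ 2) C c (1 / (p : ℝ) ^ 3) (by positivity) hC0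
    (by linarith) hC1 hc_lt K
  refine ⟨N0, ?_⟩
  intro N hN k _ _
  refine hN0 (fun N => log (ssDim k (Equiv.Perm (Fin N)) : ℝ)) ?_ ?_ N hN
  · intro a b hab
    exact log_le_log (by exact_mod_cast ssDim_pos a) (by exact_mod_cast ssDim_mono hab)
  · intro κ hκ
    have h5 := hK κ hκ
    have h6 := hn3 κ k
    have h7 : c * (p : ℝ) ^ 2 * (κ : ℝ) ^ 2 = c * (2 * (p : ℝ) ^ 2 / 2) * (κ : ℝ) ^ 2 := by ring
    have h8 := mul_le_mul_of_nonneg_right hconst (sq_nonneg (κ : ℝ))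
    have h9 := h5.trans h8
    rw [h7] at h9
    have h10 : 2 * log ((n κ).factorial : ℝ) -
          2 * ∑ i, ∑ j, ∑ d ∈ Finset.range (D i j κ),
            ((D i j κ : ℝ) - d) * log ((p : ℝ) * ((d : ℝ) + 1)) ≤
        log (ssDim k (Equiv.Perm (Fin (n κ))) : ℝ) := h6
    show log ((n κ).factorial : ℝ) - c * (2 * (p : ℝ) ^ 2 / 2) * (κ : ℝ) ^ 2 ≤
      log (ssDim k (Equiv.Perm (Fin (n κ))) : ℝ)
    linarith

/-- The theorem. -/
theorem main (p : ℕ) [Fact p.Prime] :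
    ∃ n0 : ℕ, ∀ n ≥ n0, ∀ (k : Type) [Field k] [CharP k p],
      (n.factorial : ℝ) * Real.exp (-(n : ℝ) / (p : ℝ) ^ 3) ≤
        (ssDim k (Equiv.Perm (Fin n)) : ℝ) ∧
      pPrimePart p (Nat.card (Equiv.Perm (Fin n))) ≤ ssDim k (Equiv.Perm (Fin n)) ∧
      pPrimePart p (Nat.card (alternatingGroup (Fin n))) ≤ ssDim k (alternatingGroup (Fin n)) := by
  obtain ⟨n1, h1⟩ := main_log p
  obtain ⟨n2, h2⟩ := val_bound p (Fact.out)
  refine ⟨max (max n1 n2) 2, ?_⟩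
  intro n hn k _ _
  have hn1 : n1 ≤ n := le_trans (le_trans (le_max_left _ _) (le_max_left _ _)) hn
  have hn2 : n2 ≤ n := le_trans (le_trans (le_max_right _ _) (le_max_left _ _)) hn
  have hn3 : 2 ≤ n := le_trans (le_max_right _ _) hn
  have hA : (n.factorial : ℝ) * Real.exp (-(n : ℝ) / (p : ℝ) ^ 3) ≤
      (ssDim k (Equiv.Perm (Fin n)) : ℝ) := by
    have h3 := h1 n hn1 k
    have hf : (0 : ℝ) < (n.factorial : ℝ) := by exact_mod_cast n.factorial_pos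
    have hs : (0 : ℝ) < (ssDim k (Equiv.Perm (Fin n)) : ℝ) := by exact_mod_cast ssDim_pos n
    rw [← log_le_log_iff (by positivity) hs, log_mul hf.ne' (exp_ne_zero _), log_exp]
    have e : -(n : ℝ) / (p : ℝ) ^ 3 = - (1 / (p : ℝ) ^ 3 * n) := by ring
    rw [e]
    linarith
  have hB : 2 * pPrimePart p n.factorial ≤ ssDim k (Equiv.Perm (Fin n)) := by
    have := (h2 n hn2).trans hA
    exact_mod_cast this
  refine ⟨hA, ?_, ?_⟩
  · rw [Nat.card_eq_fintype_card, Fintype.card_perm, Fintype.card_fin]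
    omega
  · have h3 := alt_index (k := k) n hn3
    have : Nontrivial (Fin n) := Fin.nontrivial_iff_two_le.2 hn3
    have h4 : 2 * Nat.card (alternatingGroup (Fin n)) = n.factorial := by
      rw [Nat.card_eq_fintype_card, two_mul_card_alternatingGroup, Fintype.card_perm,
        Fintype.card_fin]
    have h5 : pPrimePart p (Nat.card (alternatingGroup (Fin n))) ≤ pPrimePart p n.factorial := by
      rw [← h4, pPrimePart_mul]
      exact Nat.le_mul_of_pos_left _ (pPrimePart_pos p (by norm_num))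
    omega

end Pool.Agent.Wil
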