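import Mathlib
import Pool.Agent.Wil.Rel

set_option autoImplicit false

/-! The wreath step. -/

namespace Pool.Agent.Wil

open MonoidAlgebra

/-- `G` acts on `Fin r` by `π` and on the blocks `{j} × Fin n` by `σ g j` (from block `j` to block `π g j`); the normal
subgroup `N` acts on every block by even permutations, and every family of even permutations is attained on `N`. -/
structure WrData (G : Type) [Group G] (N : Subgroup G) (n r : ℕ) where
  π : G →* Equiv.Perm (Fin r)
  σ : G → Fin r → Equiv.Perm (Fin n)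
  hσ : ∀ g h j, σ (g * h) j = σ g (π h j) * σ h j
  hπN : ∀ x ∈ N, π x = 1
  surj : ∀ y : Fin r → alternatingGroup (Fin n), ∃ x ∈ N, ∀ j, σ x j = y j

lemma WrData.σ_one {G : Type} [Group G] {N : Subgroup G} {n r : ℕ} (W : WrData G N n r)
    (j : Fin r) : W.σ 1 j = 1 := by
  have h := W.hσ 1 1 j
  rw [one_mul, map_one, Equiv.Perm.one_apply] at h
  exact (mul_eq_left.1 h.symm)

/-- The elements all whose block permutations preserve `{i | i < m}`. -/
def stabM {G : Type} [Group G] {N : Subgroup G} {n r : ℕ} (W : WrData G N n r) (m : ℕ) :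
    Subgroup G where
  carrier := {g | ∀ (j : Fin r) (i : Fin n), (i : ℕ) < m ↔ ((W.σ g j i : Fin n) : ℕ) < m}
  mul_mem' := by
    intro a b ha hb j i
    have h1 := hb j i
    have h2 := ha (W.π b j) (W.σ b j i)
    rw [W.hσ]
    exact h1.trans h2
  one_mem' := by
    intro j i
    rw [W.σ_one]
    rfl
  inv_mem' := by
    intro a ha j i
    have h1 := W.hσ a a⁻¹ j
    rw [mul_inv_cancel, W.σ_one] at h1
    have h2 := ha (W.π a⁻¹ j) (W.σ a⁻¹ j i)
    have h3 : W.σ a (W.π a⁻¹ j) (W.σ a⁻¹ j i) = i := by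
      have := congrArg (fun s : Equiv.Perm (Fin n) => s i) h1
      exact this.symm
    rw [h3] at h2
    exact h2.symm

-- BEGIN stabM_mul
private lemma stabM_mul_fix {n m : ℕ} (hm : m + 2 ≤ n) (s : Equiv.Perm (Fin n)) :
    ∃ y : alternatingGroup (Fin n), ∀ i : Fin n,
      (i : ℕ) < m ↔ (((y : Equiv.Perm (Fin n)) (s i) : Fin n) : ℕ) < m := by
  rcases Int.units_eq_one_or (Equiv.Perm.sign s) with h | h
  · refine ⟨⟨s⁻¹, ?_⟩, ?_⟩
    · rw [Equiv.Perm.mem_alternatingGroup, Equiv.Perm.sign_inv, h]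
    · intro i
      simp
  · have ha : n - 2 < n := by omega
    have hb : n - 1 < n := by omega
    have hab : (⟨n - 2, ha⟩ : Fin n) ≠ ⟨n - 1, hb⟩ := by
      intro h0
      have := congrArg Fin.val h0
      simp only at this
      omega
    refine ⟨⟨Equiv.swap ⟨n - 2, ha⟩ ⟨n - 1, hb⟩ * s⁻¹, ?_⟩, ?_⟩
    · rw [Equiv.Perm.mem_alternatingGroup, map_mul, Equiv.Perm.sign_inv, h, Equiv.Perm.sign_swap hab]
      rfl
    · intro i
      have h1 : (Equiv.swap (⟨n - 2, ha⟩ : Fin n) ⟨n - 1, hb⟩ * s⁻¹) (s i) =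
          Equiv.swap (⟨n - 2, ha⟩ : Fin n) ⟨n - 1, hb⟩ i := by simp
      show (i : ℕ) < m ↔ (((Equiv.swap (⟨n - 2, ha⟩ : Fin n) ⟨n - 1, hb⟩ * s⁻¹) (s i) : Fin n) : ℕ) < m
      rw [h1, Equiv.swap_apply_def]
      split_ifs with h2 h3
      · rw [h2]
        show n - 2 < m ↔ n - 1 < m
        omega
      · rw [h3]
        show n - 1 < m ↔ n - 2 < m
        omega
      · exact Iff.rfl

/-- PROOF. For `j` let `s = σ g (π g⁻¹ j)` (the permutation arriving in block `j`); `y j = s⁻¹` if `s` is even, `y j = swap (n-2) (n-1) * s⁻¹` if odd. With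
`x ∈ N` from `W.surj`, `σ (x * g) j = σ x (π g j) * σ g j` is `1` or `swap (n-2) (n-1)`, which preserves `{i | i < m}`. -/
theorem stabM_mul {G : Type} [Group G] {N : Subgroup G} {n r : ℕ} (W : WrData G N n r) (m : ℕ)
    (hm : m + 2 ≤ n) (g : G) : ∃ x ∈ N, x * g ∈ stabM W m := by
  choose y hy using fun s : Equiv.Perm (Fin n) => stabM_mul_fix hm s
  obtain ⟨x, hx, hxj⟩ := W.surj (fun j => y (W.σ g (W.π g⁻¹ j)))
  refine ⟨x, hx, ?_⟩
  intro j i
  rw [W.hσ, hxj]
  have h1 : W.π g⁻¹ (W.π g j) = j := by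
    rw [map_inv]
    simp
  rw [h1]
  exact hy (W.σ g j) i
-- END stabM_mul

-- BEGIN exists_res
/-- PROOF. Restrict the permutation `W.σ g j` to the finite set `{i | i < m}` (injective map of `Fin m` into itself, `Equiv.ofBijective`,
`Finite.injective_iff_bijective`). -/
theorem exists_res {G : Type} [Group G] {N : Subgroup G} {n r : ℕ} (W : WrData G N n r) (m : ℕ)
    (hm : m ≤ n) (g : G) (hg : g ∈ stabM W m) :
    ∃ t : Fin r → Equiv.Perm (Fin m), ∀ j i, ((W.σ g j (Fin.castLE hm i) : Fin n) : ℕ) = (t j i : ℕ) := by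
  have h1 : ∀ (j : Fin r) (i : Fin m), ((W.σ g j (Fin.castLE hm i) : Fin n) : ℕ) < m := by
    intro j i
    exact (hg j (Fin.castLE hm i)).1 i.2
  have h2 : ∀ j : Fin r, Function.Injective (fun i : Fin m => (⟨_, h1 j i⟩ : Fin m)) := by
    intro j i i' h
    have h3 := congrArg Fin.val h
    simp only at h3
    have h4 := (W.σ g j).injective (Fin.ext h3)
    exact Fin.castLE_injective hm h4
  exact ⟨fun j => Equiv.ofBijective _ (Finite.injective_iff_bijective.1 (h2 j)), fun j i => rfl⟩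
-- END exists_res

-- BEGIN tensor_mul
/-- The matrix of the tensor product action. PROOF. `∑ b, (∏ j, A (π' j) .. ) ..`: expand the product of sums
(`Finset.prod_univ_sum`, `Fintype.piFinset_univ`), after reindexing the first product by `q`. -/
theorem tensor_mul {k : Type} [Field k] {d r : ℕ} (A B : Fin r → Matrix (Fin d) (Fin d) k)
    (p q : Equiv.Perm (Fin r)) (a c : Fin r → Fin d) :
    ∑ b : Fin r → Fin d, (∏ j, A j (a (p j)) (b j)) * (∏ j, B j (b (q j)) (c j)) =
      ∏ j, (A (q j) * B j) (a (p (q j))) (c j) := by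
  have h1 : ∀ b : Fin r → Fin d, (∏ j, A j (a (p j)) (b j)) * (∏ j, B j (b (q j)) (c j)) =
      ∏ j, (A (q j) (a (p (q j))) (b (q j)) * B j (b (q j)) (c j)) := by
    intro b
    rw [Finset.prod_mul_distrib, ← Equiv.prod_comp q (fun j => A j (a (p j)) (b j))]
  have h2 : ∑ b : Fin r → Fin d, (∏ j, A j (a (p j)) (b j)) * (∏ j, B j (b (q j)) (c j)) =
      ∑ b : Fin r → Fin d, ∏ j, (A (q j) (a (p (q j))) (b j) * B j (b j) (c j)) := by
    rw [Finset.sum_congr rfl (fun b _ => h1 b)]
    exact Fintype.sum_equiv (Equiv.arrowCongr q.symm (Equiv.refl _)) _ _ (fun b => rfl)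
  rw [h2]
  have h3 : ∀ j, (A (q j) * B j) (a (p (q j))) (c j) =
      ∑ x : Fin d, A (q j) (a (p (q j))) x * B j x (c j) := fun j => Matrix.mul_apply
  rw [Finset.prod_congr rfl (fun j _ => h3 j), Finset.prod_univ_sum, Fintype.piFinset_univ]
-- END tensor_mul

-- BEGIN wreath_rep
/-- PROOF. Choose `t` for each `g` by `exists_res` (unique, so `t (g * h) j = t g (π h j) * t h j`, `t 1 j = 1`). The monoid homomorphism
`g ↦ of fun a b => ∏ j, ρ (single (t g j) 1) (a (π g j)) (b j)` is multiplicative by `tensor_mul`; at `g = 1` it is the product of the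
`1 (a j) (b j)`, the identity matrix. `MonoidAlgebra.lift`. -/
theorem wreath_rep {k : Type} [Field k] {G : Type} [Group G] {N : Subgroup G} {n r : ℕ}
    (W : WrData G N n r) (m : ℕ) (hm : m ≤ n) {d : ℕ}
    (ρ : MonoidAlgebra k (Equiv.Perm (Fin m)) →ₐ[k] Matrix (Fin d) (Fin d) k) :
    ∃ R : MonoidAlgebra k (stabM W m) →ₐ[k] Matrix (Fin r → Fin d) (Fin r → Fin d) k,
      ∀ (g : stabM W m) (t : Fin r → Equiv.Perm (Fin m)),
        (∀ j i, ((W.σ (g : G) j (Fin.castLE hm i) : Fin n) : ℕ) = (t j i : ℕ)) →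
        ∀ a b, R (single g 1) a b = ∏ j, ρ (single (t j) 1) (a (W.π (g : G) j)) (b j) := by
  choose T hT using fun g : stabM W m => exists_res W m hm (g : G) g.2
  have huniq : ∀ (g : stabM W m) (t : Fin r → Equiv.Perm (Fin m)),
      (∀ j i, ((W.σ (g : G) j (Fin.castLE hm i) : Fin n) : ℕ) = (t j i : ℕ)) → T g = t := by
    intro g t ht
    funext j
    ext i
    rw [← hT g j i, ht j i]
  have hone : ∀ j, T 1 j = 1 := by
    intro j
    have h0 : T 1 = fun _ => 1 := by
      apply huniq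
      intro j i
      have h1 : ((1 : stabM W m) : G) = 1 := rfl
      rw [h1, W.σ_one]
      rfl
    rw [h0]
  have hmul : ∀ (g h : stabM W m) (j : Fin r), T (g * h) j = T g (W.π (h : G) j) * T h j := by
    intro g h j
    have h0 : T (g * h) = fun j => T g (W.π (h : G) j) * T h j := by
      apply huniq
      intro j i
      have h1 : ((g * h : stabM W m) : G) = (g : G) * (h : G) := rfl
      rw [h1, W.hσ]
      have h2 : W.σ (h : G) j (Fin.castLE hm i) = Fin.castLE hm (T h j i) := Fin.ext (hT h j i)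
      rw [Equiv.Perm.mul_apply, h2, hT g, Equiv.Perm.mul_apply]
    rw [h0]
  have hsing : ∀ x y : Equiv.Perm (Fin m), ρ (single (x * y) 1) = ρ (single x 1) * ρ (single y 1) := by
    intro x y
    rw [← map_mul, MonoidAlgebra.single_mul_single, mul_one]
  let Φ : stabM W m →* Matrix (Fin r → Fin d) (Fin r → Fin d) k :=
    { toFun := fun g => Matrix.of (fun a b => ∏ j, ρ (single (T g j) 1) (a (W.π (g : G) j)) (b j))
      map_one' := by
        ext a b
        have h1 : ((1 : stabM W m) : G) = 1 := rfl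
        have h2 : ρ (single (1 : Equiv.Perm (Fin m)) 1) = 1 := by
          rw [← MonoidAlgebra.one_def, map_one]
        rw [Matrix.of_apply]
        have h3 : ∀ j, ρ (single (T 1 j) 1) (a (W.π ((1 : stabM W m) : G) j)) (b j) =
            (1 : Matrix (Fin d) (Fin d) k) (a j) (b j) := by
          intro j
          rw [hone, h2, h1, map_one, Equiv.Perm.one_apply]
        rw [Finset.prod_congr rfl (fun j _ => h3 j)]
        by_cases hab : a = b
        · subst hab
          rw [Matrix.one_apply_eq]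
          exact Finset.prod_eq_one (fun j _ => Matrix.one_apply_eq _)
        · rw [Matrix.one_apply_ne hab]
          obtain ⟨j, hj⟩ := Function.ne_iff.1 hab
          exact Finset.prod_eq_zero (Finset.mem_univ j) (Matrix.one_apply_ne hj)
      map_mul' := by
        intro g h
        ext a c
        rw [Matrix.mul_apply]
        simp only [Matrix.of_apply]
        rw [tensor_mul (fun j => ρ (single (T g j) 1)) (fun j => ρ (single (T h j) 1))
          (W.π (g : G)) (W.π (h : G)) a c]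
        refine Finset.prod_congr rfl (fun j _ => ?_)
        have h1 : ((g * h : stabM W m) : G) = (g : G) * (h : G) := rfl
        rw [hmul, hsing, h1, map_mul, Equiv.Perm.mul_apply] }
  refine ⟨MonoidAlgebra.lift k (Matrix (Fin r → Fin d) (Fin r → Fin d) k) (stabM W m) Φ, ?_⟩
  intro g t ht a b
  rw [MonoidAlgebra.lift_single, one_smul, ← huniq g t ht]
  rfl
-- END wreath_rep

-- BEGIN lift_even
/-- PROOF. Extend `t` to `Fin n` by the identity on `{i | m ≤ i}` (`Equiv.Perm.viaEmbedding` of `Fin.castLEEmb`, or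
`Equiv.Perm.extendDomain`); if it is odd multiply by `swap (n-2) (n-1)`, which fixes `{i | i < m}`. -/
theorem lift_even {m n : ℕ} (hm : m + 2 ≤ n) (t : Equiv.Perm (Fin m)) :
    ∃ y : alternatingGroup (Fin n),
      (∀ i : Fin m, (((y : Equiv.Perm (Fin n)) (Fin.castLE (by omega) i) : Fin n) : ℕ) = (t i : ℕ)) ∧
      (∀ i : Fin n, (i : ℕ) < m ↔ (((y : Equiv.Perm (Fin n)) i : Fin n) : ℕ) < m) := by
  have hmn : m ≤ n := by omega
  set u : Equiv.Perm (Fin n) := t.viaEmbedding (Fin.castLEEmb hmn) with hu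
  have hu1 : ∀ i : Fin m, u (Fin.castLE hmn i) = Fin.castLE hmn (t i) := by
    intro i
    exact Equiv.Perm.viaEmbedding_apply t (Fin.castLEEmb hmn) i
  have hu2 : ∀ i : Fin n, m ≤ (i : ℕ) → u i = i := by
    intro i hi
    apply Equiv.Perm.viaEmbedding_apply_of_notMem
    rintro ⟨j, hj⟩
    have h1 := congrArg Fin.val hj
    have h2 : ((Fin.castLEEmb hmn j : Fin n) : ℕ) = (j : ℕ) := rfl
    have h3 := j.2
    omega
  have hu3 : ∀ i : Fin n, (i : ℕ) < m ↔ ((u i : Fin n) : ℕ) < m := by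
    intro i
    by_cases hi : (i : ℕ) < m
    · have h1 : i = Fin.castLE hmn ⟨i, hi⟩ := rfl
      rw [h1, hu1]
      exact ⟨fun _ => (t ⟨i, hi⟩).2, fun _ => hi⟩
    · rw [hu2 i (by omega)]
  rcases Int.units_eq_one_or (Equiv.Perm.sign u) with h | h
  · refine ⟨⟨u, ?_⟩, ?_, ?_⟩
    · rw [Equiv.Perm.mem_alternatingGroup, h]
    · intro i
      show ((u (Fin.castLE hmn i) : Fin n) : ℕ) = (t i : ℕ)
      rw [hu1]
      rfl
    · exact hu3
  · have ha : n - 2 < n := by omega
    have hb : n - 1 < n := by omega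
    have hab : (⟨n - 2, ha⟩ : Fin n) ≠ ⟨n - 1, hb⟩ := by
      intro h0
      have := congrArg Fin.val h0
      simp only at this
      omega
    have hsw : ∀ i : Fin n, (i : ℕ) < m → Equiv.swap (⟨n - 2, ha⟩ : Fin n) ⟨n - 1, hb⟩ i = i := by
      intro i hi
      apply Equiv.swap_apply_of_ne_of_ne
      · intro h0
        have := congrArg Fin.val h0
        simp only at this
        omega
      · intro h0
        have := congrArg Fin.val h0
        simp only at this
        omega
    have hsw2 : ∀ i : Fin n, (i : ℕ) < m ↔ ((Equiv.swap (⟨n - 2, ha⟩ : Fin n) ⟨n - 1, hb⟩ i : Fin n) : ℕ) < m := by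
      intro i
      rw [Equiv.swap_apply_def]
      split_ifs with h2 h3
      · rw [h2]
        show n - 2 < m ↔ n - 1 < m
        omega
      · rw [h3]
        show n - 1 < m ↔ n - 2 < m
        omega
      · exact Iff.rfl
    refine ⟨⟨Equiv.swap ⟨n - 2, ha⟩ ⟨n - 1, hb⟩ * u, ?_⟩, ?_, ?_⟩
    · rw [Equiv.Perm.mem_alternatingGroup, map_mul, h, Equiv.Perm.sign_swap hab]
      rfl
    · intro i
      show ((Equiv.swap (⟨n - 2, ha⟩ : Fin n) ⟨n - 1, hb⟩ (u (Fin.castLE hmn i)) : Fin n) : ℕ) = (t i : ℕ)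
      rw [hu1, hsw _ (t i).2]
      rfl
    · intro i
      show (i : ℕ) < m ↔ ((Equiv.swap (⟨n - 2, ha⟩ : Fin n) ⟨n - 1, hb⟩ (u i) : Fin n) : ℕ) < m
      rw [← hsw2]
      exact hu3 i
-- END lift_even

-- BEGIN wreath_surj
private lemma wreath_surj_tensor {k : Type} [Field k] {G : Type} [Group G] {N : Subgroup G} {n r : ℕ}
    (W : WrData G N n r) (m : ℕ) (hm : m + 2 ≤ n) {d : ℕ}
    (ρ : MonoidAlgebra k (Equiv.Perm (Fin m)) →ₐ[k] Matrix (Fin d) (Fin d) k)
    (hρ : Function.Surjective ρ)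
    (R : MonoidAlgebra k (stabM W m) →ₐ[k] Matrix (Fin r → Fin d) (Fin r → Fin d) k)
    (hR : ∀ (g : stabM W m) (t : Fin r → Equiv.Perm (Fin m)),
        (∀ j i, ((W.σ (g : G) j (Fin.castLE (by omega) i) : Fin n) : ℕ) = (t j i : ℕ)) →
        ∀ a b, R (single g 1) a b = ∏ j, ρ (single (t j) 1) (a (W.π (g : G) j)) (b j))
    (B : Fin r → Matrix (Fin d) (Fin d) k) :
    ∃ a : MonoidAlgebra k (N.subgroupOf (stabM W m)), ∀ p q,
      R (ind (k := k) (N.subgroupOf (stabM W m)).subtype a) p q = ∏ j, B j (p j) (q j) := by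
  classical
  choose u hu using fun j => hρ (B j)
  have hlift : ∀ s : Fin r → Equiv.Perm (Fin m), ∃ x : N.subgroupOf (stabM W m),
      ∀ j i, ((W.σ ((x : stabM W m) : G) j (Fin.castLE (by omega) i) : Fin n) : ℕ) = (s j i : ℕ) := by
    intro s
    choose y hy1 hy2 using fun j => lift_even hm (s j)
    obtain ⟨x, hx, hxj⟩ := W.surj y
    have hxS : x ∈ stabM W m := by
      intro j i
      rw [hxj]
      exact hy2 j i
    refine ⟨⟨⟨x, hxS⟩, Subgroup.mem_subgroupOf.2 hx⟩, ?_⟩
    intro j i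
    show ((W.σ x j (Fin.castLE (by omega) i) : Fin n) : ℕ) = (s j i : ℕ)
    rw [hxj]
    exact hy1 j i
  choose x hx using hlift
  refine ⟨∑ s : Fin r → Equiv.Perm (Fin m), (∏ j, (u j).coeff (s j)) • single (x s) 1, ?_⟩
  intro p q
  have h1 : ∀ s : Fin r → Equiv.Perm (Fin m),
      R (ind (k := k) (N.subgroupOf (stabM W m)).subtype (single (x s) 1)) p q =
        ∏ j, ρ (single (s j) 1) (p j) (q j) := by
    intro s
    have h2 : ind (k := k) (N.subgroupOf (stabM W m)).subtype (single (x s) 1) =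
        single ((x s : stabM W m)) 1 := by
      rw [MonoidAlgebra.mapDomainAlgHom_apply, MonoidAlgebra.mapDomain_single]
      rfl
    rw [h2, hR (x s : stabM W m) s (hx s)]
    have h3 : W.π ((x s : stabM W m) : G) = 1 := W.hπN _ (Subgroup.mem_subgroupOf.1 (x s).2)
    rw [h3]
    rfl
  have h4 : ∀ j, B j (p j) (q j) = ∑ t : Equiv.Perm (Fin m), (u j).coeff t * ρ (single t 1) (p j) (q j) := by
    intro j
    have h5 : u j = ∑ t : Equiv.Perm (Fin m), (u j).coeff t • single t (1 : k) := by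
      calc u j = (u j).coeff.sum single := (sum_coeff_single _).symm
        _ = ∑ t : Equiv.Perm (Fin m), single t ((u j).coeff t) :=
          Finsupp.sum_fintype _ _ (fun t => by simp)
        _ = ∑ t : Equiv.Perm (Fin m), (u j).coeff t • single t (1 : k) :=
          Finset.sum_congr rfl (fun t _ => by simp)
    have h6 : ρ (u j) = ∑ t : Equiv.Perm (Fin m), (u j).coeff t • ρ (single t (1 : k)) := by
      conv_lhs => rw [h5]
      rw [map_sum]
      exact Finset.sum_congr rfl (fun t _ => map_smul ρ _ _)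
    rw [← hu j, h6, Matrix.sum_apply]
    exact Finset.sum_congr rfl (fun t _ => by rw [Matrix.smul_apply, smul_eq_mul])
  rw [map_sum, map_sum, Matrix.sum_apply]
  have h7 : ∀ s : Fin r → Equiv.Perm (Fin m),
      R (ind (k := k) (N.subgroupOf (stabM W m)).subtype ((∏ j, (u j).coeff (s j)) • single (x s) 1)) p q =
        ∏ j, ((u j).coeff (s j) * ρ (single (s j) 1) (p j) (q j)) := by
    intro s
    rw [map_smul, map_smul, Matrix.smul_apply, h1, smul_eq_mul, Finset.prod_mul_distrib]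
  rw [Finset.sum_congr rfl (fun s _ => h7 s), Finset.prod_congr rfl (fun j _ => h4 j),
    Finset.prod_univ_sum, Fintype.piFinset_univ]

/-- PROOF. Enough for the matrix units `E a b` (`Matrix.single a b 1`): `E a b = ∏_j E (a j) (b j)` (tensor), each `E (a j) (b j) = ρ (∑ s, c j s • single s 1)`
(`hρ`); expanding (`Finset.prod_univ_sum`), `E a b = ∑_{s : Fin r → Perm (Fin m)} (∏ j, c j (s j)) • R (single x_s 1)` with `x_s ∈ N ∩ stabM` such that
`σ x_s j` restricts to `s j` (`lift_even`, `W.surj`, `W.hπN`, `hR`). -/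
theorem wreath_surj {k : Type} [Field k] {G : Type} [Group G] {N : Subgroup G} {n r : ℕ}
    (W : WrData G N n r) (m : ℕ) (hm : m + 2 ≤ n) {d : ℕ}
    (ρ : MonoidAlgebra k (Equiv.Perm (Fin m)) →ₐ[k] Matrix (Fin d) (Fin d) k)
    (hρ : Function.Surjective ρ)
    (R : MonoidAlgebra k (stabM W m) →ₐ[k] Matrix (Fin r → Fin d) (Fin r → Fin d) k)
    (hR : ∀ (g : stabM W m) (t : Fin r → Equiv.Perm (Fin m)),
        (∀ j i, ((W.σ (g : G) j (Fin.castLE (by omega) i) : Fin n) : ℕ) = (t j i : ℕ)) →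
        ∀ a b, R (single g 1) a b = ∏ j, ρ (single (t j) 1) (a (W.π (g : G) j)) (b j))
    (M : Matrix (Fin r → Fin d) (Fin r → Fin d) k) :
    ∃ a : MonoidAlgebra k (N.subgroupOf (stabM W m)),
      R (ind (k := k) (N.subgroupOf (stabM W m)).subtype a) = M := by
  classical
  have h1 : ∀ p q : Fin r → Fin d, ∃ a : MonoidAlgebra k (N.subgroupOf (stabM W m)),
      R (ind (k := k) (N.subgroupOf (stabM W m)).subtype a) = Matrix.single p q 1 := by
    intro p q
    obtain ⟨a, ha⟩ := wreath_surj_tensor W m hm ρ hρ R hR (fun j => Matrix.single (p j) (q j) 1)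
    refine ⟨a, ?_⟩
    ext p' q'
    rw [ha]
    by_cases h : p = p' ∧ q = q'
    · obtain ⟨rfl, rfl⟩ := h
      rw [Matrix.single_apply_same]
      exact Finset.prod_eq_one (fun j _ => Matrix.single_apply_same _ _ _)
    · rw [Matrix.single_apply_of_ne _ _ _ _ _ h]
      have h2 : ∃ j, ¬ (p j = p' j ∧ q j = q' j) := by
        by_contra h3
        push Not at h3
        exact h ⟨funext (fun j => (h3 j).1), funext (fun j => (h3 j).2)⟩
      obtain ⟨j, hj⟩ := h2
      exact Finset.prod_eq_zero (Finset.mem_univ j) (Matrix.single_apply_of_ne _ _ _ _ _ hj)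
  choose e he using h1
  refine ⟨∑ p, ∑ q, M p q • e p q, ?_⟩
  rw [map_sum, map_sum]
  conv_rhs => rw [Matrix.matrix_eq_sum_single M]
  refine Finset.sum_congr rfl (fun p _ => ?_)
  rw [map_sum, map_sum]
  refine Finset.sum_congr rfl (fun q _ => ?_)
  rw [map_smul, map_smul, he, Matrix.smul_single, smul_eq_mul, mul_one]
-- END wreath_surj

-- BEGIN quot_iso
/-- PROOF. `S → G → G ⧸ N` is surjective (`hS`), with kernel `N.subgroupOf S`: first isomorphism theorem
(`QuotientGroup.quotientKerEquivOfSurjective`). -/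
theorem quot_iso {G : Type} [Group G] (N S : Subgroup G) [N.Normal]
    (hS : ∀ g : G, ∃ x ∈ N, x * g ∈ S) : Nonempty ((S ⧸ N.subgroupOf S) ≃* (G ⧸ N)) := by
  let f : S →* G ⧸ N := (QuotientGroup.mk' N).comp S.subtype
  have hf : Function.Surjective f := by
    intro y
    obtain ⟨g, rfl⟩ := QuotientGroup.mk'_surjective N y
    obtain ⟨x, hx, hxg⟩ := hS g
    refine ⟨⟨x * g, hxg⟩, ?_⟩
    show (QuotientGroup.mk' N) (x * g) = (QuotientGroup.mk' N) g
    rw [map_mul]
    have h1 : (QuotientGroup.mk' N) x = 1 := by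
      rw [← MonoidHom.mem_ker, QuotientGroup.ker_mk']
      exact hx
    rw [h1, one_mul]
  have hk : f.ker = N.subgroupOf S := by
    ext s
    rw [MonoidHom.mem_ker, Subgroup.mem_subgroupOf]
    show (QuotientGroup.mk' N) (s : G) = 1 ↔ (s : G) ∈ N
    rw [← MonoidHom.mem_ker, QuotientGroup.ker_mk']
  exact ⟨(QuotientGroup.quotientMulEquivOfEq hk.symm).trans
    (QuotientGroup.quotientKerEquivOfSurjective f hf)⟩
-- END quot_iso

-- BEGIN wreath_bound
/-- PROOF. `wreath_rep`, `wreath_surj`, `rel_bound` for the group `stabM W m` and its normal subgroup `N.subgroupOf (stabM W m)`, `quot_iso` with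
`stabM_mul`, `ssDim_congr`, `ssDim_le_of_injective` (inclusion of the subgroup); `Fintype.card (Fin r → Fin d) = d ^ r`. -/
theorem wreath_bound {k : Type} [Field k] {G : Type} [Group G] [Finite G] {N : Subgroup G}
    [N.Normal] {n r : ℕ} (W : WrData G N n r) (m : ℕ) (hm : m + 2 ≤ n) {d : ℕ}
    (ρ : MonoidAlgebra k (Equiv.Perm (Fin m)) →ₐ[k] Matrix (Fin d) (Fin d) k)
    (hρ : Function.Surjective ρ) :
    (d ^ r) ^ 2 * ssDim k (G ⧸ N) ≤ ssDim k G := by
  obtain ⟨R, hR⟩ := wreath_rep W m (by omega) ρ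
  have h1 := rel_bound (k := k) (G := stabM W m) (N.subgroupOf (stabM W m)) R
    (wreath_surj W m hm ρ hρ R hR)
  obtain ⟨e⟩ := quot_iso N (stabM W m) (stabM_mul W m hm)
  rw [ssDim_congr (k := k) e] at h1
  have h2 : Fintype.card (Fin r → Fin d) = d ^ r := by simp
  rw [h2] at h1
  exact h1.trans (ssDim_le_of_injective (stabM W m).subtype (Subgroup.subtype_injective _))
-- END wreath_bound

end Pool.Agent.Wil
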