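import Mathlib
import Pool.Agent.Wil.Wreath

set_option autoImplicit false

/-! Automorphisms of powers of the alternating group. -/

namespace Pool.Agent.Wil

open Equiv

/-- The three-cycle `a ↦ b ↦ c ↦ a`. -/
def c3 {n : ℕ} (a b c : Fin n) : Perm (Fin n) := swap a b * swap b c

-- BEGIN c3_basic
theorem c3_three {n : ℕ} {a b c : Fin n} (hab : a ≠ b) (hbc : b ≠ c) (hac : a ≠ c) :
    (c3 a b c).IsThreeCycle := by
  unfold c3
  rw [swap_comm a b]
  exact Perm.isThreeCycle_swap_mul_swap_same hab.symm hbc hac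

/-- PROOF. `Equiv.Perm.IsThreeCycle` = cycle type `{3}`; take `a` in the support, `b = x a`, `c = x b`. -/
theorem exists_c3 {n : ℕ} (x : Perm (Fin n)) (hx : x.IsThreeCycle) :
    ∃ a b c, a ≠ b ∧ b ≠ c ∧ a ≠ c ∧ x = c3 a b c := by
  have hc := hx.card_support
  obtain ⟨a, ha⟩ : x.support.Nonempty := Finset.card_pos.1 (by omega)
  have h1 := (hx.nodup_iff_mem_support).2 ha
  have h2 := (hx.eq_swap_mul_swap_iff_mem_support).2 ha
  simp only [List.nodup_cons, List.mem_cons, List.not_mem_nil, or_false, not_or, not_false_eq_true,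
    List.nodup_nil, and_true] at h1
  exact ⟨a, x a, x (x a), h1.1.1, h1.2, h1.1.2, h2⟩

theorem c3_conj {n : ℕ} (s : Perm (Fin n)) (a b c : Fin n) :
    s * c3 a b c * s⁻¹ = c3 (s a) (s b) (s c) := by
  unfold c3
  rw [swap_apply_apply, swap_apply_apply]
  group

theorem c3_rot {n : ℕ} {a b c : Fin n} (hab : a ≠ b) (hbc : b ≠ c) (hac : a ≠ c) :
    c3 a b c = c3 b c a := by
  unfold c3
  ext t
  simp only [Perm.mul_apply, swap_apply_def]
  split_ifs <;> simp_all
-- END c3_basic

-- BEGIN three_prod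
private theorem three_prod_small {n : ℕ} (z : Perm (Fin n)) (hs : Perm.sign z = 1) (hc : z.support.card ≤ 5) :
    z ^ 30 = 1 := by
  rw [← orderOf_dvd_iff_pow_eq_one, ← Perm.lcm_cycleType, Multiset.lcm_dvd]
  intro m hm
  have h2 : 2 ≤ m := Perm.two_le_of_mem_cycleType hm
  obtain ⟨t, ht⟩ := Multiset.exists_cons_of_mem hm
  have hsum := Perm.sum_cycleType z
  rw [ht, Multiset.sum_cons] at hsum
  have h5 : m ≤ 5 := by omega
  have h4 : m ≠ 4 := by
    rintro rfl
    have ht0 : t = 0 := by
      by_contra h0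
      obtain ⟨k, hk⟩ := Multiset.exists_mem_of_ne_zero h0
      have hk2 : 2 ≤ k := Perm.two_le_of_mem_cycleType (σ := z) (by rw [ht]; exact Multiset.mem_cons_of_mem hk)
      have hk3 : k ≤ t.sum := Multiset.single_le_sum (fun _ _ => Nat.zero_le _) _ hk
      omega
    rw [ht0] at ht
    rw [Perm.sign_of_cycleType, ht] at hs
    revert hs
    decide
  interval_cases m
  · decide
  · decide
  · omega
  · decide

/-- PROOF. The supports have together at most six points; the product of disjoint ones has order three, otherwise it lives on five points and is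
even, so of order 1, 2, 3 or 5. In Lean: choose an embedding `Fin 6 ↪ Fin n` (or work with `n ≤ 5` separately; `Fin N` with `N = min n 6`) whose range contains the
points `a, b, c, a', b', c'` of `exists_c3`; both cycles come from `Perm (Fin 6)`; there `decide +kernel` for all the three-cycles.
Alternative: a case distinction on coincidences. -/
theorem three_prod {n : ℕ} (x y : Perm (Fin n)) (hx : x.IsThreeCycle) (hy : y.IsThreeCycle) :
    (x * y) ^ 30 = 1 := by
  by_cases hd : Disjoint x.support y.support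
  · have hc : Commute x y := (Perm.disjoint_iff_disjoint_support.2 hd).commute
    have hx3 : x ^ 3 = 1 := by rw [← hx.orderOf]; exact pow_orderOf_eq_one x
    have hy3 : y ^ 3 = 1 := by rw [← hy.orderOf]; exact pow_orderOf_eq_one y
    rw [hc.mul_pow, show 30 = 3 * 10 from rfl, pow_mul, pow_mul, hx3, hy3, one_pow, one_mul]
  · refine three_prod_small _ ?_ ?_
    · rw [Perm.sign_mul, hx.sign, hy.sign, one_mul]
    · have h1 : (x * y).support.card ≤ (x.support ∪ y.support).card :=
        Finset.card_le_card (Perm.support_mul_le x y)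
      have h2 := Finset.card_union_add_card_inter x.support y.support
      have h3 : 0 < (x.support ∩ y.support).card := by
        rw [Finset.card_pos, Finset.nonempty_iff_ne_empty]
        intro h
        exact hd (Finset.disjoint_iff_inter_eq_empty.2 h)
      rw [hx.card_support, hy.card_support] at h2
      omega
-- END three_prod

-- BEGIN not_three
private theorem not_three_aux {n N : ℕ} (x : Perm (Fin n)) (e : Fin N ↪ Fin n) (y g0 : Perm (Fin N))
    (hy : ∀ i, x (e i) = e (y i)) (hg : Perm.sign g0 = 1) (hne : (y * (g0 * y * g0⁻¹)) ^ 30 ≠ 1) :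
    ∃ g ∈ alternatingGroup (Fin n), (x * (g * x * g⁻¹)) ^ 30 ≠ 1 := by
  refine ⟨g0.viaFintypeEmbedding e, ?_, fun h => hne ?_⟩
  · rw [Perm.mem_alternatingGroup, Perm.viaFintypeEmbedding_sign, hg]
  · have h1 : ∀ i, (g0.viaFintypeEmbedding e) (e i) = e (g0 i) := fun i =>
      Perm.viaFintypeEmbedding_apply_image g0 e i
    have h2 : ∀ i, (g0.viaFintypeEmbedding e)⁻¹ (e i) = e (g0⁻¹ i) := by
      intro i
      rw [Perm.inv_eq_iff_eq, h1]
      exact congrArg e (g0.apply_symm_apply i).symm
    have h3 : ∀ i, (x * (g0.viaFintypeEmbedding e * x * (g0.viaFintypeEmbedding e)⁻¹)) (e i) =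
        e ((y * (g0 * y * g0⁻¹)) i) := by
      intro i
      simp only [Perm.mul_apply]
      rw [h2, hy, h1, hy]
    have h4 : ∀ (m : ℕ) (i : Fin N), ((x * (g0.viaFintypeEmbedding e * x * (g0.viaFintypeEmbedding e)⁻¹)) ^ m) (e i) =
        e (((y * (g0 * y * g0⁻¹)) ^ m) i) := by
      intro m
      induction m with
      | zero => intro i; rfl
      | succ m ih =>
        intro i
        rw [pow_succ', pow_succ', Perm.mul_apply, ih, h3]
        rfl
    ext i
    have h5 := h4 30 i
    rw [h, Perm.one_apply] at h5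
    rw [Perm.one_apply]
    exact congrArg Fin.val (e.injective h5.symm)

private theorem not_three_cons {α : Type} {N : ℕ} (a : α) (f : Fin N → α) (h : ∀ i, f i ≠ a)
    (hf : Function.Injective f) : Function.Injective (Matrix.vecCons a f) :=
  Fin.cons_injective_iff.2 ⟨fun ⟨i, hi⟩ => h i hi, hf⟩

private theorem not_three_orb {n : ℕ} (x : Perm (Fin n)) (h3 : ∀ z, x (x (x z)) = z) {z w : Fin n}
    (h : ¬ (z = w ∨ z = x w ∨ z = x (x w))) :
    (z ≠ w ∧ z ≠ x w ∧ z ≠ x (x w)) ∧ (x z ≠ w ∧ x z ≠ x w ∧ x z ≠ x (x w)) ∧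
      (x (x z) ≠ w ∧ x (x z) ≠ x w ∧ x (x z) ≠ x (x w)) := by
  push Not at h
  obtain ⟨h1, h2, h4⟩ := h
  refine ⟨⟨h1, h2, h4⟩, ⟨?_, ?_, ?_⟩, ⟨?_, ?_, ?_⟩⟩
  · intro hc; apply h4; rw [← hc, h3]
  · intro hc; exact h1 (x.injective hc)
  · intro hc; exact h2 (x.injective hc)
  · intro hc; apply h2; rw [← hc, h3]
  · intro hc; apply h4; rw [← x.injective hc, h3]
  · intro hc; exact h1 (x.injective (x.injective hc))

/-- PROOF. `x` is a product of `t ≥ 2` disjoint three-cycles. Choose `e : Fin 6 ↪ Fin n` with `x (e i) = e (x6 i)`, `x6 = (0 1 2)(3 4 5)`; a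
seventh point: either `x` has a fixed point `e 6` (use `Fin 7`, `x7 = (0 1 2)(3 4 5)`), or there is a third three-cycle (use `Fin 9`,
`x9 = (0 1 2)(3 4 5)(6 7 8)`). In both cases `g0 = swap 2 3 * swap 5 6` is even and `x7 * (g0 * x7 * g0⁻¹)` has order 7, `x9 * (g0 * x9 * g0⁻¹)`
has order 9 (`decide`), so their 30th powers move some point. Take `g = swap (e 2) (e 3) * swap (e 5) (e 6)`; it intertwines `e` and `g0`, so
`((x * (g * x * g⁻¹)) ^ 30) (e i) = e (((x7 * ..) ^ 30) i)`. Note `n ≥ 7` is needed (without it `n = 6`, `x = (0 1 2)(3 4 5)` is possible). -/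
theorem not_three {n : ℕ} (hn : 7 ≤ n) (x : Perm (Fin n)) (h3 : x ^ 3 = 1) (h1 : x ≠ 1)
    (hx : ¬ x.IsThreeCycle) :
    ∃ g ∈ alternatingGroup (Fin n), (x * (g * x * g⁻¹)) ^ 30 ≠ 1 := by
  have h3' : ∀ z, x (x (x z)) = z := by
    intro z
    have : (x ^ 3) z = z := by rw [h3]; rfl
    exact this
  have hmove : ∀ z, x z ≠ z → z ≠ x z ∧ z ≠ x (x z) ∧ x z ≠ x (x z) := by
    intro z hz
    refine ⟨hz.symm, ?_, ?_⟩
    · intro hc
      apply hz
      have h4 := congrArg x hc
      rw [h3'] at h4
      exact h4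
    · intro hc; exact hz (x.injective hc).symm
  obtain ⟨a, ha⟩ : ∃ a, x a ≠ a := by
    by_contra hc
    push Not at hc
    exact h1 (Perm.ext hc)
  obtain ⟨a1, a2, a3⟩ := hmove a ha
  obtain ⟨b, hb, hba⟩ : ∃ b, x b ≠ b ∧ ¬ (b = a ∨ b = x a ∨ b = x (x a)) := by
    by_contra hc
    push Not at hc
    apply hx
    rw [← card_support_eq_three_iff]
    have hs : x.support = {a, x a, x (x a)} := by
      ext z
      rw [Perm.mem_support, Finset.mem_insert, Finset.mem_insert, Finset.mem_singleton]
      constructor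
      · intro hz
        exact hc z hz
      · rintro (rfl | rfl | rfl)
        · exact ha
        · exact a3.symm
        · rw [h3']; exact a2
    rw [hs]
    exact Finset.card_eq_three.2 ⟨a, x a, x (x a), a1, a2, a3, rfl⟩
  obtain ⟨b1, b2, b3⟩ := hmove b hb
  obtain ⟨⟨p1, p2, p3⟩, ⟨p4, p5, p6⟩, ⟨p7, p8, p9⟩⟩ := not_three_orb x h3' hba
  obtain ⟨c, hc⟩ : ∃ c, c ∉ ({a, x a, x (x a), b, x b, x (x b)} : Finset (Fin n)) := by
    by_contra hcon
    push Not at hcon
    have h4 : (Finset.univ : Finset (Fin n)) ⊆ {a, x a, x (x a), b, x b, x (x b)} := fun z _ => hcon z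
    have h5 := Finset.card_le_card h4
    rw [Finset.card_univ, Fintype.card_fin] at h5
    have h6 : ({a, x a, x (x a), b, x b, x (x b)} : Finset (Fin n)).card ≤ 6 := Finset.card_le_six
    omega
  simp only [Finset.mem_insert, Finset.mem_singleton, not_or] at hc
  obtain ⟨c1, c2, c3, c4, c5, c6⟩ := hc
  by_cases hxc : x c = c
  · have hinj : Function.Injective ![a, x a, x (x a), b, x b, x (x b), c] := by
      refine not_three_cons _ _ (by intro i; fin_cases i; exacts [a1.symm, a2.symm, p1, p4, p7, c1]) ?_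
      refine not_three_cons _ _ (by intro i; fin_cases i; exacts [a3.symm, p2, p5, p8, c2]) ?_
      refine not_three_cons _ _ (by intro i; fin_cases i; exacts [p3, p6, p9, c3]) ?_
      refine not_three_cons _ _ (by intro i; fin_cases i; exacts [b1.symm, b2.symm, c4]) ?_
      refine not_three_cons _ _ (by intro i; fin_cases i; exacts [b3.symm, c5]) ?_
      refine not_three_cons _ _ (by intro i; fin_cases i; exacts [c6]) ?_
      exact not_three_cons _ _ (fun i => i.elim0) (fun i => i.elim0)
    let e : Fin 7 ↪ Fin n := ⟨![a, x a, x (x a), b, x b, x (x b), c], hinj⟩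
    refine not_three_aux x e (swap 0 1 * swap 1 2 * (swap 3 4 * swap 4 5)) (swap 2 3 * swap 5 6) ?_ (by decide) (by decide +kernel)
    intro i
    fin_cases i
    · rfl
    · rfl
    · exact h3' a
    · rfl
    · rfl
    · exact h3' b
    · exact hxc
  · obtain ⟨d1, d2, d3⟩ := hmove c hxc
    obtain ⟨⟨q1, q2, q3⟩, ⟨q4, q5, q6⟩, ⟨q7, q8, q9⟩⟩ := not_three_orb x h3' (z := c) (w := a) (by tauto)
    obtain ⟨⟨r1, r2, r3⟩, ⟨r4, r5, r6⟩, ⟨r7, r8, r9⟩⟩ := not_three_orb x h3' (z := c) (w := b) (by tauto)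
    have hinj : Function.Injective ![a, x a, x (x a), b, x b, x (x b), c, x c, x (x c)] := by
      refine not_three_cons _ _ (by intro i; fin_cases i; exacts [a1.symm, a2.symm, p1, p4, p7, q1, q4, q7]) ?_
      refine not_three_cons _ _ (by intro i; fin_cases i; exacts [a3.symm, p2, p5, p8, q2, q5, q8]) ?_
      refine not_three_cons _ _ (by intro i; fin_cases i; exacts [p3, p6, p9, q3, q6, q9]) ?_
      refine not_three_cons _ _ (by intro i; fin_cases i; exacts [b1.symm, b2.symm, r1, r4, r7]) ?_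
      refine not_three_cons _ _ (by intro i; fin_cases i; exacts [b3.symm, r2, r5, r8]) ?_
      refine not_three_cons _ _ (by intro i; fin_cases i; exacts [r3, r6, r9]) ?_
      refine not_three_cons _ _ (by intro i; fin_cases i; exacts [d1.symm, d2.symm]) ?_
      refine not_three_cons _ _ (by intro i; fin_cases i; exacts [d3.symm]) ?_
      exact not_three_cons _ _ (fun i => i.elim0) (fun i => i.elim0)
    let e : Fin 9 ↪ Fin n := ⟨![a, x a, x (x a), b, x b, x (x b), c, x c, x (x c)], hinj⟩
    refine not_three_aux x e (swap 0 1 * swap 1 2 * (swap 3 4 * swap 4 5) * (swap 6 7 * swap 7 8)) (swap 2 3 * swap 5 6) ?_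
      (by decide) (by decide +kernel)
    intro i
    fin_cases i
    · rfl
    · rfl
    · exact h3' a
    · rfl
    · rfl
    · exact h3' b
    · rfl
    · rfl
    · exact h3' c
-- END not_three

-- BEGIN aut_three
/-- PROOF. `x ^ 3 = 1`, `x ≠ 1` and `(x * (g * x * g⁻¹)) ^ 30 = 1` for all even `g` (`three_prod`) are preserved by the automorphism;
`not_three`. -/
theorem aut_three {n : ℕ} (hn : 7 ≤ n) (φ : MulAut (alternatingGroup (Fin n)))
    (x : alternatingGroup (Fin n)) (hx : (x : Perm (Fin n)).IsThreeCycle) :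
    ((φ x : alternatingGroup (Fin n)) : Perm (Fin n)).IsThreeCycle := by
  by_contra hcon
  have hx3 : x ^ 3 = 1 := by
    apply Subtype.ext
    rw [SubmonoidClass.coe_pow, ← hx.orderOf, pow_orderOf_eq_one]
    rfl
  have hx1 : x ≠ 1 := by
    rintro rfl
    have h := hx.orderOf
    rw [OneMemClass.coe_one, orderOf_one] at h
    omega
  have h3 : ((φ x : alternatingGroup (Fin n)) : Perm (Fin n)) ^ 3 = 1 := by
    rw [← SubmonoidClass.coe_pow, ← map_pow, hx3, map_one]
    rfl
  have h1 : ((φ x : alternatingGroup (Fin n)) : Perm (Fin n)) ≠ 1 := by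
    intro h
    apply hx1
    have h' : φ x = 1 := Subtype.ext h
    exact (map_eq_one_iff φ φ.injective).1 h'
  obtain ⟨g, hg, hne⟩ := not_three hn _ h3 h1 hcon
  apply hne
  obtain ⟨g', hg'⟩ := φ.surjective ⟨g, hg⟩
  have hgg : g = ((φ g' : alternatingGroup (Fin n)) : Perm (Fin n)) := by rw [hg']
  have h5 : (x * (g' * x * g'⁻¹)) ^ 30 = 1 := by
    apply Subtype.ext
    have h6 := three_prod (x : Perm (Fin n)) ((g' : Perm (Fin n)) * x * (g' : Perm (Fin n))⁻¹) hx
      (by unfold Perm.IsThreeCycle; rw [Perm.cycleType_conj]; exact hx)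
    simpa using h6
  have h7 : (φ x * (φ g' * φ x * (φ g')⁻¹)) ^ 30 = 1 := by
    rw [← map_inv, ← map_mul, ← map_mul, ← map_mul, ← map_pow, h5, map_one]
  have h8 := congrArg (Subtype.val) h7
  rw [hgg]
  simpa using h8
-- END aut_three

-- BEGIN three_pair
private theorem three_pair_pow {n : ℕ} {x : Perm (Fin n)} (hx : x.IsThreeCycle) (t : Fin n) : x (x (x t)) = t := by
  have hx3 : x ^ 3 = 1 := by rw [← hx.orderOf]; exact pow_orderOf_eq_one x
  have h := congrArg (fun g : Perm (Fin n) => g t) hx3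
  simpa [pow_succ] using h

private theorem three_pair_form {n : ℕ} {x : Perm (Fin n)} (hx : x.IsThreeCycle) {t : Fin n} (ht : x t ≠ t) :
    x = c3 t (x t) (x (x t)) :=
  (hx.eq_swap_mul_swap_iff_mem_support).2 (Perm.mem_support.2 ht)

private theorem three_pair_two {n : ℕ} {x : Perm (Fin n)} (hx : x.IsThreeCycle) {t : Fin n} (ht : x t ≠ t) :
    x (x t) ≠ t := by
  intro h
  apply ht
  have h1 := three_pair_pow hx t
  rw [h] at h1
  exact h1

/-- PROOF. `exists_c3` for both; a three-cycle product of order two: the supports share exactly two points and the cyclic directions agree: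
`x = (a b c)`, `y = (a b d)`. (Disjoint: order three. One common point: order five. Three common points: order 1 or 3. Two common points: up to rotation (`c3_rot`)
`x = (a b c)`, `y = (a b d)` or `y = (b a d)`, the second has product of order three.) -/
theorem three_pair {n : ℕ} (x y : Perm (Fin n)) (hx : x.IsThreeCycle) (hy : y.IsThreeCycle)
    (h2 : (x * y) ^ 2 = 1) (h1 : x * y ≠ 1) :
    ∃ a b c d, a ≠ b ∧ a ≠ c ∧ b ≠ c ∧ a ≠ d ∧ b ≠ d ∧ c ≠ d ∧ x = c3 a b c ∧ y = c3 a b d := by
  have hz : ∀ t, x (y (x (y t))) = t := by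
    intro t
    have h := congrArg (fun g : Perm (Fin n) => g t) h2
    simpa [pow_succ] using h
  by_cases hs : x.support = y.support
  · exfalso
    obtain ⟨a, ha⟩ : x.support.Nonempty := Finset.card_pos.1 (by rw [hx.card_support]; norm_num)
    have hxa : x a ≠ a := Perm.mem_support.1 ha
    have hya : y a ≠ a := Perm.mem_support.1 (hs ▸ ha)
    have hsupp : x.support = {a, x a, x (x a)} := by
      symm
      refine Finset.eq_of_subset_of_card_le ?_ ?_
      · intro t ht
        simp only [Finset.mem_insert, Finset.mem_singleton] at ht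
        rcases ht with rfl | rfl | rfl
        · exact ha
        · exact Perm.apply_mem_support.2 ha
        · exact Perm.apply_mem_support.2 (Perm.apply_mem_support.2 ha)
      · rw [hx.card_support, Finset.card_eq_three.2 ⟨a, x a, x (x a), hxa.symm, (three_pair_two hx hxa).symm,
          fun h => hxa (x.injective h.symm), rfl⟩]
    have key : ∀ t, t ∈ x.support → t = a ∨ t = x a ∨ t = x (x a) := by
      intro t ht
      rw [hsupp] at ht
      simpa using ht
    have hy1 : y a ∈ x.support := by rw [hs]; exact Perm.apply_mem_support.2 (hs ▸ ha)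
    have hy2 : y (y a) ∈ x.support := by rw [hs]; exact Perm.apply_mem_support.2 (Perm.apply_mem_support.2 (hs ▸ ha))
    have hyy : y (y a) ≠ a := three_pair_two hy hya
    have hyy2 : y (y a) ≠ y a := fun h => hya (y.injective h)
    rcases key _ hy1 with h | h | h
    · exact hya h
    · rcases key _ hy2 with h' | h' | h'
      · exact hyy h'
      · exact hyy2 (h'.trans h.symm)
      · have hxy : x = y := by
          rw [three_pair_form hx hxa, three_pair_form hy hya, h', h]
        have h3 := hz a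
        rw [← hxy, three_pair_pow hx a] at h3
        exact hxa h3
    · rcases key _ hy2 with h' | h' | h'
      · exact hyy h'
      · apply h1
        have h4 : y = c3 a (x (x a)) (x a) := by
          rw [three_pair_form hy hya, h', h]
        ext t
        congr 1
        by_cases ht : t ∈ x.support
        · have e1 : y a = x (x a) := h
          have e2 : y (x (x a)) = x a := by rw [← h]; exact h'
          have e3 : y (x a) = a := by rw [← h', three_pair_pow hy a]
          rcases key t ht with rfl | rfl | rfl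
          · rw [Perm.mul_apply, e1, three_pair_pow hx, Perm.one_apply]
          · rw [Perm.mul_apply, e3, Perm.one_apply]
          · rw [Perm.mul_apply, e2, Perm.one_apply]
        · have h5 : y t = t := Perm.notMem_support.1 (by rw [← hs]; exact ht)
          rw [Perm.mul_apply, h5, Perm.notMem_support.1 ht, Perm.one_apply]
      · exact hyy2 (h'.trans h.symm)
  · obtain ⟨p, hp, hpy⟩ : ∃ p, p ∈ x.support ∧ p ∉ y.support := by
      by_contra hcon
      push Not at hcon
      exact hs (Finset.eq_of_subset_of_card_le hcon (by rw [hx.card_support, hy.card_support]))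
    have hxp : x p ≠ p := Perm.mem_support.1 hp
    have hyp : y p = p := Perm.notMem_support.1 hpy
    have e1 := hz p
    rw [hyp] at e1
    have e2 : y (x p) = x (x p) := x.injective (by rw [e1, three_pair_pow hx])
    have hq : y (x p) ≠ x p := by rw [e2]; exact fun h => hxp (x.injective h)
    have hyf := three_pair_form hy hq
    have hxq : x (x p) ≠ x p := fun h => hxp (x.injective h)
    have hxf := three_pair_form hx hxq
    rw [three_pair_pow hx] at hxf
    rw [e2] at hyf
    have hd1 : y (x (x p)) ≠ x p := by rw [← e2]; exact three_pair_two hy hq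
    have hd2 : y (x (x p)) ≠ x (x p) := by
      intro h
      exact hq (y.injective (by rw [e2]; exact h))
    have hd3 : y (x (x p)) ≠ p := by
      intro h
      apply three_pair_two hx hxp
      exact y.injective (by rw [h, hyp])
    exact ⟨x p, x (x p), p, y (x (x p)), hxq.symm, hxp, three_pair_two hx hxp, hd1.symm, hd2.symm, hd3.symm, hxf, hyf⟩

/-- The product of two such cycles. -/
theorem three_pair_sq {n : ℕ} {a b c d : Fin n} (hab : a ≠ b) (hac : a ≠ c) (hbc : b ≠ c)
    (had : a ≠ d) (hbd : b ≠ d) (hcd : c ≠ d) :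
    (c3 a b c * c3 a b d) ^ 2 = 1 ∧ c3 a b c * c3 a b d ≠ 1 := by
  have h : c3 a b c * c3 a b d = swap a c * swap b d := by
    unfold c3
    ext t
    simp only [Perm.mul_apply, swap_apply_def]
    split_ifs <;> simp_all
  rw [h]
  constructor
  · ext t
    simp only [pow_two, Perm.mul_apply, swap_apply_def, Perm.one_apply]
    split_ifs <;> simp_all
  · intro h1
    have h2 := congrArg (fun g : Perm (Fin n) => g a) h1
    simp only [Perm.mul_apply, Perm.one_apply, swap_apply_of_ne_of_ne hab had, swap_apply_left] at h2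
    exact hac h2.symm
-- END three_pair

-- BEGIN three_family
private theorem three_family_fst {n : ℕ} {a b c : Fin n} (hab : a ≠ b) (hac : a ≠ c) :
    c3 a b c a = b := by
  simp [c3, swap_apply_of_ne_of_ne hab hac]

private theorem three_family_snd {n : ℕ} {a b c : Fin n} (hac : a ≠ c) (hbc : b ≠ c) :
    c3 a b c b = c := by
  simp [c3, swap_apply_of_ne_of_ne hac.symm hbc.symm]

private theorem three_family_thd {n : ℕ} (a b c : Fin n) : c3 a b c c = a := by
  simp [c3]

private theorem three_family_out {n : ℕ} {a b c v : Fin n} (ha : v ≠ a) (hb : v ≠ b) (hc : v ≠ c) :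
    c3 a b c v = v := by
  simp [c3, swap_apply_of_ne_of_ne ha hb, swap_apply_of_ne_of_ne hb hc]

private theorem three_family_rot {n : ℕ} {a b c a' b' c' : Fin n} (hab : a ≠ b) (hac : a ≠ c)
    (hbc : b ≠ c) (hab' : a' ≠ b') (hac' : a' ≠ c') (hbc' : b' ≠ c') (h : c3 a b c = c3 a' b' c') :
    (a' = a ∧ b' = b ∧ c' = c) ∨ (a' = b ∧ b' = c ∧ c' = a) ∨ (a' = c ∧ b' = a ∧ c' = b) := by
  have h1 : c3 a b c a' = b' := by rw [h]; exact three_family_fst hab' hac'
  have h2 : c3 a b c b' = c' := by rw [h]; exact three_family_snd hac' hbc'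
  by_cases e1 : a' = a
  · subst e1
    rw [three_family_fst hab hac] at h1
    subst h1
    rw [three_family_snd hac hbc] at h2
    exact Or.inl ⟨rfl, rfl, h2.symm⟩
  by_cases e2 : a' = b
  · subst e2
    rw [three_family_snd hac hbc] at h1
    subst h1
    rw [three_family_thd] at h2
    exact Or.inr (Or.inl ⟨rfl, rfl, h2.symm⟩)
  by_cases e3 : a' = c
  · subst e3
    rw [three_family_thd] at h1
    subst h1
    rw [three_family_fst hab hac] at h2
    exact Or.inr (Or.inr ⟨rfl, rfl, h2.symm⟩)
  rw [three_family_out e1 e2 e3] at h1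
  exact absurd h1 hab'

/-- PROOF. `three_pair` for one pair `i ≠ i'` gives the directed edge `a → b` common to both; a third cycle `x i''` has a directed edge in common with
`x i = (a b c)` and with `x i' = (a b d)` (`three_pair`), and it is not `x i`, `x i'`; the edges are `a → b, b → c, c → a` and `a → b, b → d, d → a`: if the
common edges were not `a → b` the cycle would contain, e.g., `b → c` and `d → a`: four vertices; or `b → c` and `b → d`; impossible; or
`c → a` and `b → d`: four vertices; or `c → a`, `d → a`: impossible. (The set `S` has at least three elements.) -/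
theorem three_family {n : ℕ} {S : Type} [Fintype S] (hS : 3 ≤ Fintype.card S) (x : S → Perm (Fin n))
    (h3 : ∀ i, (x i).IsThreeCycle) (h2 : ∀ i j, i ≠ j → (x i * x j) ^ 2 = 1)
    (h1 : ∀ i j, i ≠ j → x i * x j ≠ 1) :
    ∃ (a b : Fin n) (u : S → Fin n), a ≠ b ∧ (∀ i, u i ≠ a ∧ u i ≠ b) ∧ ∀ i, x i = c3 a b (u i) := by
  obtain ⟨i0, i1, hi⟩ := Fintype.exists_pair_of_one_lt_card (α := S) (by omega)
  obtain ⟨a, b, c, d, hab, hac, hbc, had, hbd, hcd, e0, e1⟩ :=
    three_pair (x i0) (x i1) (h3 _) (h3 _) (h2 _ _ hi) (h1 _ _ hi)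
  have key : ∀ k, ∃ v, v ≠ a ∧ v ≠ b ∧ x k = c3 a b v := by
    intro k
    by_cases hk0 : k = i0
    · subst hk0; exact ⟨c, hac.symm, hbc.symm, e0⟩
    by_cases hk1 : k = i1
    · subst hk1; exact ⟨d, had.symm, hbd.symm, e1⟩
    obtain ⟨a', b', c', e', hab', hac', hbc', hae', hbe', hce', f0, fk⟩ :=
      three_pair (x i0) (x k) (h3 _) (h3 _) (h2 _ _ (Ne.symm hk0)) (h1 _ _ (Ne.symm hk0))
    obtain ⟨a2, b2, d2, e2, hab2, had2, hbd2, hae2, hbe2, hde2, g0, gk⟩ :=
      three_pair (x i1) (x k) (h3 _) (h3 _) (h2 _ _ (Ne.symm hk1)) (h1 _ _ (Ne.symm hk1))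
    rcases three_family_rot hab hac hbc hab' hac' hbc' (e0.symm.trans f0) with
      ⟨q1, q2, q3⟩ | ⟨q1, q2, q3⟩ | ⟨q1, q2, q3⟩
    · exact ⟨e', by rw [← q1]; exact hae'.symm, by rw [← q2]; exact hbe'.symm, by rw [fk, q1, q2]⟩
    · -- a' = b, b' = c, c' = a
      have kb : x k b = c := by rw [fk, q1, q2]; exact three_family_fst hbc (by rw [← q1]; exact hae')
      rcases three_family_rot hab had hbd hab2 had2 hbd2 (e1.symm.trans g0) with
        ⟨r1, r2, r3⟩ | ⟨r1, r2, r3⟩ | ⟨r1, r2, r3⟩
      · exact ⟨e2, by rw [← r1]; exact hae2.symm, by rw [← r2]; exact hbe2.symm, by rw [gk, r1, r2]⟩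
      · have kb' : x k b = d := by
          rw [gk, r1, r2]; exact three_family_fst hbd (by rw [← r1]; exact hae2)
        exact absurd (kb.symm.trans kb') hcd
      · -- d → a
        have kd : x k d = a := by
          rw [gk, r1, r2]; exact three_family_fst had.symm (by rw [← r1]; exact hae2)
        exfalso
        by_cases hd : d = e'
        · have : x k d = b := by rw [fk, q1, q2, ← hd]; exact three_family_thd _ _ _
          exact hab (kd.symm.trans this)
        · have : x k d = d := by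
            rw [fk, q1, q2]; exact three_family_out hbd.symm hcd.symm hd
          exact had (kd.symm.trans this)
    · -- a' = c, b' = a, c' = b
      have kc : x k c = a := by
        rw [fk, q1, q2]; exact three_family_fst hac.symm (by rw [← q1]; exact hae')
      rcases three_family_rot hab had hbd hab2 had2 hbd2 (e1.symm.trans g0) with
        ⟨r1, r2, r3⟩ | ⟨r1, r2, r3⟩ | ⟨r1, r2, r3⟩
      · exact ⟨e2, by rw [← r1]; exact hae2.symm, by rw [← r2]; exact hbe2.symm, by rw [gk, r1, r2]⟩
      · have kb' : x k b = d := by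
          rw [gk, r1, r2]; exact three_family_fst hbd (by rw [← r1]; exact hae2)
        have : x k b = b := by
          rw [fk, q1, q2]
          exact three_family_out hbc hab.symm (by rw [← q3]; exact hce')
        exact absurd (this.symm.trans kb') hbd
      · have kd : x k d = a := by
          rw [gk, r1, r2]; exact three_family_fst had.symm (by rw [← r1]; exact hae2)
        exact absurd ((x k).injective (kc.trans kd.symm)) hcd
  choose u hu1 hu2 hu3 using key
  exact ⟨a, b, u, hab, fun i => ⟨hu1 i, hu2 i⟩, hu3⟩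
-- END three_family

-- BEGIN gen_three
private lemma gen_three_a {n : ℕ} {a b c : Fin n} (hab : a ≠ b) (hac : a ≠ c) :
    c3 a b c a = b := by
  unfold c3
  rw [Perm.mul_apply, swap_apply_of_ne_of_ne hab hac, swap_apply_left]

private lemma gen_three_b {n : ℕ} {a b c : Fin n} (hac : a ≠ c) (hbc : b ≠ c) :
    c3 a b c b = c := by
  unfold c3
  rw [Perm.mul_apply, swap_apply_left, swap_apply_of_ne_of_ne hac.symm hbc.symm]

private lemma gen_three_c {n : ℕ} (a b c : Fin n) : c3 a b c c = a := by
  unfold c3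
  rw [Perm.mul_apply, swap_apply_right, swap_apply_right]

private lemma gen_three_d {n : ℕ} {a b c i : Fin n} (ha : i ≠ a) (hb : i ≠ b) (hc : i ≠ c) :
    c3 a b c i = i := by
  unfold c3
  rw [Perm.mul_apply, swap_apply_of_ne_of_ne hb hc, swap_apply_of_ne_of_ne ha hb]

private lemma gen_three_inv {n : ℕ} (a b c : Fin n) : (c3 a b c)⁻¹ = c3 c b a := by
  unfold c3
  rw [mul_inv_rev, swap_inv, swap_inv, swap_comm b c, swap_comm a b]

/-- PROOF. The three-cycles generate (`Equiv.Perm.closure_three_cycles_eq_alternating`), and with `z = 0`, `o = 1`, every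
three-cycle is a product of `c3 0 1 i` and inverses: `c3 0 i j`, `c3 i j l` etc. -/
theorem gen_three {n : ℕ} (z o : Fin n) (hzo : z ≠ o) :
    Subgroup.closure {y : Perm (Fin n) | ∃ i, i ≠ z ∧ i ≠ o ∧ y = c3 z o i} =
      alternatingGroup (Fin n) := by
  set H : Subgroup (Perm (Fin n)) :=
    Subgroup.closure {y : Perm (Fin n) | ∃ i, i ≠ z ∧ i ≠ o ∧ y = c3 z o i} with hH
  -- conjugation
  have conj : ∀ (x : Perm (Fin n)) (a b c : Fin n), x ∈ H → c3 a b c ∈ H →
      c3 (x a) (x b) (x c) ∈ H := by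
    intro x a b c hx hy
    rw [← c3_conj]
    exact H.mul_mem (H.mul_mem hx hy) (H.inv_mem hx)
  have A : ∀ i, i ≠ z → i ≠ o → c3 z o i ∈ H := fun i h1 h2 =>
    Subgroup.subset_closure ⟨i, h1, h2, rfl⟩
  have A' : ∀ i, i ≠ z → i ≠ o → c3 o z i ∈ H := by
    intro i h1 h2
    have h3 := H.inv_mem (A i h1 h2)
    rw [gen_three_inv, c3_rot h2 hzo.symm h1] at h3
    exact h3
  have B : ∀ i j, i ≠ z → i ≠ o → j ≠ z → j ≠ o → i ≠ j → c3 o i j ∈ H := by
    intro i j hiz hio hjz hjo hij
    have h1 := conj (c3 z o i) z o j (A i hiz hio) (A j hjz hjo)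
    rw [gen_three_a hzo hiz.symm, gen_three_b hiz.symm hio.symm,
      gen_three_d hjz hjo hij.symm] at h1
    exact h1
  have B' : ∀ i j, i ≠ z → i ≠ o → j ≠ z → j ≠ o → i ≠ j → c3 z j i ∈ H := by
    intro i j hiz hio hjz hjo hij
    have h1 := conj (c3 z o i) o i j (A i hiz hio) (B i j hiz hio hjz hjo hij)
    rw [gen_three_b hiz.symm hio.symm, gen_three_c, gen_three_d hjz hjo hij.symm,
      c3_rot hiz hjz.symm hij] at h1
    exact h1
  have C : ∀ i j l, i ≠ z → i ≠ o → j ≠ z → j ≠ o → l ≠ z → l ≠ o → i ≠ j → i ≠ l → j ≠ l →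
      c3 l i j ∈ H := by
    intro i j l hiz hio hjz hjo hlz hlo hij hil hjl
    have h1 := conj (c3 z o l)⁻¹ z i j (H.inv_mem (A l hlz hlo)) (B' j i hjz hjo hiz hio hij.symm)
    rw [gen_three_inv, gen_three_c, gen_three_d hil hio hiz, gen_three_d hjl hjo hjz] at h1
    exact h1
  have D : ∀ b c, z ≠ b → z ≠ c → b ≠ c → c3 z b c ∈ H := by
    intro b c hb hc hbc
    by_cases h1 : b = o
    · subst h1
      exact A c hc.symm hbc.symm
    · by_cases h2 : c = o
      · subst h2
        have h3 := A' b hb.symm h1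
        rwa [c3_rot hzo.symm hb (Ne.symm h1)] at h3
      · exact B' c b hc.symm h2 hb.symm h1 hbc.symm
  have D' : ∀ b c, o ≠ b → o ≠ c → b ≠ c → c3 o b c ∈ H := by
    intro b c hb hc hbc
    by_cases h1 : b = z
    · subst h1
      exact A' c hbc.symm hc.symm
    · by_cases h2 : c = z
      · subst h2
        have h3 := A b h1 hb.symm
        rwa [c3_rot hzo hb (Ne.symm h1)] at h3
      · exact B b c h1 hb.symm h2 hc.symm hbc
  have M : ∀ a b c, a ≠ b → b ≠ c → a ≠ c → c3 a b c ∈ H := by
    intro a b c hab hbc hac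
    by_cases haz : a = z
    · subst haz
      exact D b c hab hac hbc
    by_cases hao : a = o
    · subst hao
      exact D' b c hab hac hbc
    by_cases hbz : b = z
    · subst hbz
      rw [c3_rot hab hbc hac]
      exact D c a hbc hab.symm hac.symm
    by_cases hbo : b = o
    · subst hbo
      rw [c3_rot hab hbc hac]
      exact D' c a hbc hab.symm hac.symm
    by_cases hcz : c = z
    · subst hcz
      rw [← c3_rot hac.symm hab hbc.symm]
      exact D a b hac.symm hbc.symm hab
    by_cases hco : c = o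
    · subst hco
      rw [← c3_rot hac.symm hab hbc.symm]
      exact D' a b hac.symm hbc.symm hab
    exact C b c a hbz hbo hcz hco haz hao hbc hab.symm hac.symm
  apply le_antisymm
  · rw [hH, Subgroup.closure_le]
    rintro y ⟨i, hiz, hio, rfl⟩
    exact (c3_three hzo hio.symm hiz.symm).mem_alternatingGroup
  · rw [← Equiv.Perm.closure_three_cycles_eq_alternating, Subgroup.closure_le]
    intro y hy
    obtain ⟨a, b, c, hab, hbc, hac, rfl⟩ := exists_c3 y hy
    exact M a b c hab hbc hac
-- END gen_three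

-- BEGIN aut_alt
/-- PROOF. `z = 0`, `o = 1`; the family `x i = φ (c3 0 1 i)`, `i ≠ 0, 1`, satisfies `three_family` (`aut_three`, `three_pair_sq`), so `x i = c3 a b (u i)`, `u` injective. The
map `0 ↦ a`, `1 ↦ b`, `i ↦ u i` is a permutation `s`; `φ` and conjugation by `s` agree on the generators `c3 0 1 i` (`c3_conj`, `gen_three`),
so they agree (`MonoidHom.eqOn_closure` or induction). -/
theorem aut_alt {n : ℕ} (hn : 7 ≤ n) (φ : MulAut (alternatingGroup (Fin n))) :
    ∃ s : Perm (Fin n), ∀ y : alternatingGroup (Fin n),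
      ((φ y : alternatingGroup (Fin n)) : Perm (Fin n)) = s * y * s⁻¹ := by
  classical
  let z : Fin n := ⟨0, by omega⟩
  let o : Fin n := ⟨1, by omega⟩
  have hzo : z ≠ o := by
    intro h; have := congrArg Fin.val h; simp [z, o] at this
  let S : Type := {i : Fin n // i ≠ z ∧ i ≠ o}
  have hS : 3 ≤ Fintype.card S := by
    have h : Fintype.card S = (Finset.univ.filter fun i : Fin n => i ≠ z ∧ i ≠ o).card :=
      Fintype.card_subtype _
    have h' : (Finset.univ.filter fun i : Fin n => i ≠ z ∧ i ≠ o) = Finset.univ \ {z, o} := by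
      ext i; simp
    rw [h, h', Finset.card_sdiff_of_subset (Finset.subset_univ _), Finset.card_univ, Fintype.card_fin]
    have : ({z, o} : Finset (Fin n)).card ≤ 2 := Finset.card_le_two
    omega
  have h3c : ∀ i : S, (c3 z o i.1).IsThreeCycle := fun i =>
    c3_three hzo (fun h => i.2.2 h.symm) (fun h => i.2.1 h.symm)
  let y : S → alternatingGroup (Fin n) := fun i => ⟨c3 z o i.1, (h3c i).mem_alternatingGroup⟩
  have hyv : ∀ i, ((y i : alternatingGroup (Fin n)) : Perm (Fin n)) = c3 z o i.1 := fun i => rfl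
  have hpair : ∀ i j : S, i ≠ j → (c3 z o i.1 * c3 z o j.1) ^ 2 = 1 ∧ c3 z o i.1 * c3 z o j.1 ≠ 1 := by
    intro i j hij
    exact three_pair_sq hzo (fun h => i.2.1 h.symm) (fun h => i.2.2 h.symm)
      (fun h => j.2.1 h.symm) (fun h => j.2.2 h.symm) (fun h => hij (Subtype.ext h))
  obtain ⟨a, b, u, hab, hu, hx⟩ := three_family hS (fun i => ((φ (y i) : alternatingGroup (Fin n)) : Perm (Fin n)))
    (fun i => aut_three hn φ (y i) (h3c i))
    (by
      intro i j hij
      have h : (y i * y j) ^ 2 = 1 := by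
        apply Subtype.ext
        simpa [hyv] using (hpair i j hij).1
      have h' := congrArg φ h
      rw [map_pow, map_mul, map_one] at h'
      have h'' := congrArg (fun t : alternatingGroup (Fin n) => (t : Perm (Fin n))) h'
      simpa using h'')
    (by
      intro i j hij he
      have h : φ (y i * y j) = 1 := by
        apply Subtype.ext
        rw [map_mul]
        simpa using he
      have h' : y i * y j = 1 := by
        rw [← map_one φ] at h
        exact φ.injective h
      have h'' := congrArg (fun t : alternatingGroup (Fin n) => (t : Perm (Fin n))) h'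
      exact (hpair i j hij).2 (by simpa [hyv] using h''))
  have co : ∀ i : S, c3 z o i.1 o = i.1 := by
    intro i
    have h1 : i.1 ≠ z := i.2.1
    have h2 : i.1 ≠ o := i.2.2
    simp [c3, swap_apply_of_ne_of_ne h1 h2]
  have hui : ∀ i j, u i = u j → i = j := by
    intro i j h
    have e : φ (y i) = φ (y j) := Subtype.ext (by rw [hx i, hx j, h])
    have e' : c3 z o i.1 = c3 z o j.1 := congrArg (fun t : alternatingGroup (Fin n) => (t : Perm (Fin n))) (φ.injective e)
    apply Subtype.ext
    rw [← co i, ← co j, e']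
  let f : Fin n → Fin n := fun i =>
    if h1 : i = z then a else if h2 : i = o then b else u ⟨i, h1, h2⟩
  have fz : f z = a := by simp [f]
  have fo : f o = b := by simp [f, hzo.symm]
  have fi : ∀ i : S, f i.1 = u i := by
    intro i
    have h1 : i.1 ≠ z := i.2.1
    have h2 : i.1 ≠ o := i.2.2
    simp [f, h1, h2]
  have hcase : ∀ i : Fin n, i = z ∨ i = o ∨ ∃ k : S, k.1 = i := by
    intro i
    by_cases h1 : i = z
    · exact Or.inl h1
    by_cases h2 : i = o
    · exact Or.inr (Or.inl h2)
    exact Or.inr (Or.inr ⟨⟨i, h1, h2⟩, rfl⟩)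
  have finj : Function.Injective f := by
    intro i j hij
    rcases hcase i with rfl | rfl | ⟨k, rfl⟩ <;> rcases hcase j with rfl | rfl | ⟨l, rfl⟩
    · rfl
    · rw [fz, fo] at hij; exact absurd hij hab
    · rw [fz, fi] at hij; exact absurd hij.symm (hu l).1
    · rw [fz, fo] at hij; exact absurd hij.symm hab
    · rfl
    · rw [fo, fi] at hij; exact absurd hij.symm (hu l).2
    · rw [fz, fi] at hij; exact absurd hij (hu k).1
    · rw [fo, fi] at hij; exact absurd hij (hu k).2
    · rw [fi, fi] at hij; rw [hui _ _ hij]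
  let s : Perm (Fin n) := Equiv.ofBijective f (Finite.injective_iff_bijective.mp finj)
  have sz : s z = a := fz
  have so : s o = b := fo
  have si : ∀ i : S, s i.1 = u i := fi
  refine ⟨s, ?_⟩
  have main : ∀ y : Perm (Fin n), ∀ _ : y ∈ Subgroup.closure {y : Perm (Fin n) | ∃ i, i ≠ z ∧ i ≠ o ∧ y = c3 z o i},
      ∀ h : y ∈ alternatingGroup (Fin n), ((φ ⟨y, h⟩ : alternatingGroup (Fin n)) : Perm (Fin n)) = s * y * s⁻¹ := by
    intro y0 hy0
    induction hy0 using Subgroup.closure_induction with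
    | mem w hw =>
      obtain ⟨i, h1, h2, rfl⟩ := hw
      intro h
      have := hx ⟨i, h1, h2⟩
      rw [c3_conj, sz, so]
      rw [si ⟨i, h1, h2⟩]
      exact this
    | one =>
      intro h
      have : (⟨1, h⟩ : alternatingGroup (Fin n)) = 1 := rfl
      rw [this, map_one]
      simp
    | mul w v hw hv ihw ihv =>
      intro h
      have hw' : w ∈ alternatingGroup (Fin n) := by rw [← gen_three z o hzo]; exact hw
      have hv' : v ∈ alternatingGroup (Fin n) := by rw [← gen_three z o hzo]; exact hv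
      have : (⟨w * v, h⟩ : alternatingGroup (Fin n)) = ⟨w, hw'⟩ * ⟨v, hv'⟩ := rfl
      rw [this, map_mul, Subgroup.coe_mul, ihw hw', ihv hv']
      group
    | inv w hw ihw =>
      intro h
      have hw' : w ∈ alternatingGroup (Fin n) := by rw [← gen_three z o hzo]; exact hw
      have : (⟨w⁻¹, h⟩ : alternatingGroup (Fin n)) = (⟨w, hw'⟩)⁻¹ := rfl
      rw [this, map_inv, Subgroup.coe_inv, ihw hw']
      group
  intro w
  have hw : (w : Perm (Fin n)) ∈ Subgroup.closure {y : Perm (Fin n) | ∃ i, i ≠ z ∧ i ≠ o ∧ y = c3 z o i} := by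
    rw [gen_three z o hzo]; exact w.2
  exact main w hw w.2
-- END aut_alt

-- BEGIN cent_alt
/-- PROOF. `s` commutes with `c3 a b c`, so preserves `{a, b, c}` for all triples; `n ≥ 5`: intersections of triples are points. (Also
Mathlib: `alternatingGroup` centralizer.) -/
theorem cent_alt {n : ℕ} (hn : 5 ≤ n) (s : Perm (Fin n))
    (h : ∀ y ∈ alternatingGroup (Fin n), s * y = y * s) : s = 1 := by
  by_contra hs
  obtain ⟨a, ha⟩ : ∃ a, s a ≠ a := by
    by_contra hcon
    push Not at hcon
    exact hs (Equiv.ext fun t => by rw [hcon t, Perm.one_apply])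
  obtain ⟨c, hc⟩ : ∃ c, c ∉ ({a, s a} : Finset (Fin n)) := by
    by_contra hcon
    push Not at hcon
    have h1 : (Finset.univ : Finset (Fin n)) ⊆ {a, s a} := fun t _ => hcon t
    have h2 := (Finset.card_le_card h1).trans Finset.card_le_two
    rw [Finset.card_univ, Fintype.card_fin] at h2
    omega
  obtain ⟨d, hd⟩ : ∃ d, d ∉ ({a, s a, c} : Finset (Fin n)) := by
    by_contra hcon
    push Not at hcon
    have h1 : (Finset.univ : Finset (Fin n)) ⊆ {a, s a, c} := fun t _ => hcon t
    have h2 := (Finset.card_le_card h1).trans Finset.card_le_three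
    rw [Finset.card_univ, Fintype.card_fin] at h2
    omega
  simp only [Finset.mem_insert, Finset.mem_singleton, not_or] at hc hd
  have hy : c3 a c d ∈ alternatingGroup (Fin n) :=
    (c3_three (Ne.symm hc.1) (Ne.symm hd.2.2) (Ne.symm hd.1)).mem_alternatingGroup
  have h1 := congrArg (fun g : Perm (Fin n) => g a) (h _ hy)
  have h2 : c3 a c d a = c := by
    unfold c3
    rw [Perm.mul_apply, swap_apply_of_ne_of_ne (Ne.symm hc.1) (Ne.symm hd.1), swap_apply_left]
  have h3 : c3 a c d (s a) = s a := by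
    unfold c3
    rw [Perm.mul_apply, swap_apply_of_ne_of_ne (Ne.symm hc.2) (Ne.symm hd.2.1),
      swap_apply_of_ne_of_ne ha (Ne.symm hc.2)]
  simp only [Perm.mul_apply] at h1
  rw [h2, h3] at h1
  exact hc.1 (s.injective h1)
-- END cent_alt

-- BEGIN aut_pi
private lemma aut_pi_conj {T : Type} [Group T] {r : ℕ} (w : Fin r → T) (j : Fin r) (c : T) :
    w * Pi.mulSingle j c * w⁻¹ = Pi.mulSingle j (w j * c * (w j)⁻¹) := by
  funext i
  by_cases h : i = j
  · subst h
    simp
  · simp [Pi.mulSingle_eq_of_ne h]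

private lemma aut_pi_center {T : Type} [Group T] [IsSimpleGroup T] (hT : ∃ a b : T, a * b ≠ b * a)
    (y : T) (hy : y ≠ 1) : ∃ t : T, y * t ≠ t * y := by
  by_contra hcon
  push Not at hcon
  have hmem : y ∈ Subgroup.center T := by
    rw [Subgroup.mem_center_iff]
    intro g
    exact (hcon g).symm
  have hbt : Subgroup.center T = ⊤ := by
    rcases (inferInstance : (Subgroup.center T).Normal).eq_bot_or_eq_top with h | h
    · rw [h, Subgroup.mem_bot] at hmem
      exact absurd hmem hy
    · exact h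
  obtain ⟨a, b, hab⟩ := hT
  have ha : b ∈ Subgroup.center T := by
    rw [hbt]
    trivial
  rw [Subgroup.mem_center_iff] at ha
  exact hab (ha a)

private lemma aut_pi_surj {T : Type} [Group T] [IsSimpleGroup T] (hT : ∃ a b : T, a * b ≠ b * a)
    {r : ℕ} (ψ : MulAut (Fin r → T)) (j i : Fin r) (a : T) (h : ψ (Pi.mulSingle j a) i ≠ 1) :
    ∀ b : T, ∃ c : T, ψ (Pi.mulSingle j c) = Pi.mulSingle i b := by
  let K : Subgroup T :=
    { carrier := {b | ∃ c : T, ψ (Pi.mulSingle j c) = Pi.mulSingle i b}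
      mul_mem' := by
        rintro b b' ⟨c, hc⟩ ⟨c', hc'⟩
        exact ⟨c * c', by rw [Pi.mulSingle_mul, map_mul, hc, hc', Pi.mulSingle_mul]⟩
      one_mem' := ⟨1, by simp⟩
      inv_mem' := by
        rintro b ⟨c, hc⟩
        exact ⟨c⁻¹, by rw [Pi.mulSingle_inv, map_inv, hc, Pi.mulSingle_inv]⟩ }
  have hK : K.Normal := by
    constructor
    rintro b ⟨c, hc⟩ t
    refine ⟨(ψ.symm (Pi.mulSingle i t)) j * c * ((ψ.symm (Pi.mulSingle i t)) j)⁻¹, ?_⟩
    rw [← aut_pi_conj, map_mul, map_mul, map_inv, hc, MulEquiv.apply_symm_apply, aut_pi_conj]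
    simp
  obtain ⟨t, ht⟩ := aut_pi_center hT _ h
  have hmem : ψ (Pi.mulSingle j a) i * t * (ψ (Pi.mulSingle j a) i)⁻¹ * t⁻¹ ∈ K := by
    refine ⟨a * ((ψ.symm (Pi.mulSingle i t)) j * a⁻¹ * ((ψ.symm (Pi.mulSingle i t)) j)⁻¹), ?_⟩
    rw [Pi.mulSingle_mul, ← aut_pi_conj, map_mul, map_mul, map_mul, map_inv,
      MulEquiv.apply_symm_apply, Pi.mulSingle_inv, map_inv, Pi.mulSingle_mul, ← aut_pi_conj,
      Pi.mulSingle_inv]
    group
  have hne : K ≠ ⊥ := by
    intro hbot
    rw [hbot, Subgroup.mem_bot] at hmem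
    apply ht
    have h1 := mul_inv_eq_one.1 hmem
    exact (mul_inv_eq_iff_eq_mul.1 h1)
  have htop : K = ⊤ := by
    rcases hK.eq_bot_or_eq_top with h' | h'
    · exact absurd h' hne
    · exact h'
  intro b
  have hb : b ∈ K := by
    rw [htop]
    trivial
  exact hb

private lemma aut_pi_into {T : Type} [Group T] [IsSimpleGroup T] (hT : ∃ a b : T, a * b ≠ b * a)
    {r : ℕ} (ψ : MulAut (Fin r → T)) (j i : Fin r)
    (h : ∀ b : T, ∃ c : T, ψ (Pi.mulSingle j c) = Pi.mulSingle i b) :
    ∀ c : T, ∃ b : T, ψ (Pi.mulSingle j c) = Pi.mulSingle i b := by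
  let K : Subgroup T :=
    { carrier := {c | ∃ b : T, ψ (Pi.mulSingle j c) = Pi.mulSingle i b}
      mul_mem' := by
        rintro b b' ⟨c, hc⟩ ⟨c', hc'⟩
        exact ⟨c * c', by rw [Pi.mulSingle_mul, map_mul, hc, hc', Pi.mulSingle_mul]⟩
      one_mem' := ⟨1, by simp⟩
      inv_mem' := by
        rintro b ⟨c, hc⟩
        exact ⟨c⁻¹, by rw [Pi.mulSingle_inv, map_inv, hc, Pi.mulSingle_inv]⟩ }
  have hK : K.Normal := by
    constructor
    rintro c ⟨b, hb⟩ t
    refine ⟨(ψ (Pi.mulSingle j t)) i * b * ((ψ (Pi.mulSingle j t)) i)⁻¹, ?_⟩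
    rw [← aut_pi_conj, ← hb, ← map_inv, ← map_mul, ← map_mul, aut_pi_conj]
    simp
  obtain ⟨a, b, hab⟩ := hT
  have ha : a ≠ 1 := by
    rintro rfl
    exact hab (by simp)
  obtain ⟨c, hc⟩ := h a
  have hmem : c ∈ K := ⟨a, hc⟩
  have hne : K ≠ ⊥ := by
    intro hbot
    rw [hbot, Subgroup.mem_bot] at hmem
    rw [hmem, Pi.mulSingle_one, map_one] at hc
    apply ha
    have := congrFun hc i
    simpa using this.symm
  have htop : K = ⊤ := by
    rcases hK.eq_bot_or_eq_top with h' | h'
    · exact absurd h' hne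
    · exact h'
  intro b
  have hb : b ∈ K := by
    rw [htop]
    trivial
  exact hb

/-- PROOF. Put `T j = range (Pi.mulSingle j)`. `ψ (T j)` is normal and not trivial: some `y = ψ (mulSingle j a)` has `y i ≠ 1`; `T` has
trivial centre (simple, not commutative), choose `t` with `[y i, t] ≠ 1`; the commutator `[y, mulSingle i t] = mulSingle i [y i, t]` is in `ψ (T j) ∩ T i`, normal in the
simple `T i`: `T i ≤ ψ (T j)`, so `ψ⁻¹ (T i) ≤ T j` is normal, not trivial, so equal. `i = π j` is unique, `π` injective, hence a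
permutation; `ψ' j` is the induced isomorphism. -/
theorem aut_pi {T : Type} [Group T] [IsSimpleGroup T] (hT : ∃ a b : T, a * b ≠ b * a) {r : ℕ}
    (ψ : MulAut (Fin r → T)) :
    ∃ (π : Perm (Fin r)) (ψ' : Fin r → MulAut T), ∀ (j : Fin r) (a : T),
      ψ (Pi.mulSingle j a) = Pi.mulSingle (π j) (ψ' j a) := by
  classical
  obtain ⟨a0, ha0⟩ : ∃ a : T, a ≠ 1 := by
    obtain ⟨a, b, hab⟩ := hT
    refine ⟨a, ?_⟩
    rintro rfl
    exact hab (by simp)
  have hex : ∀ j : Fin r, ∃ i : Fin r, ψ (Pi.mulSingle j a0) i ≠ 1 := by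
    intro j
    by_contra hcon
    push Not at hcon
    have h1 : ψ (Pi.mulSingle j a0) = 1 := by
      funext i
      exact hcon i
    rw [map_eq_one_iff ψ ψ.injective] at h1
    exact ha0 (Pi.mulSingle_eq_one_iff.1 h1)
  choose f hf using hex
  have hs : ∀ j, ∀ b : T, ∃ c : T, ψ (Pi.mulSingle j c) = Pi.mulSingle (f j) b :=
    fun j => aut_pi_surj hT ψ j (f j) a0 (hf j)
  have hi : ∀ j, ∀ c : T, ∃ b : T, ψ (Pi.mulSingle j c) = Pi.mulSingle (f j) b :=
    fun j => aut_pi_into hT ψ j (f j) (hs j)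
  have hinj : Function.Injective f := by
    intro j j' hjj
    obtain ⟨c, hc⟩ := hs j a0
    obtain ⟨c', hc'⟩ := hs j' a0
    rw [← hjj, ← hc] at hc'
    have h1 := ψ.injective hc'
    by_contra hne
    have h2 := congrFun h1 j
    rw [Pi.mulSingle_eq_same, Pi.mulSingle_eq_of_ne hne] at h2
    rw [← h2, Pi.mulSingle_one, map_one] at hc
    apply ha0
    have := congrFun hc (f j)
    simpa using this.symm
  have hbij : Function.Bijective f := Finite.injective_iff_bijective.1 hinj
  have hval : ∀ j c, ψ (Pi.mulSingle j c) = Pi.mulSingle (f j) (ψ (Pi.mulSingle j c) (f j)) := by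
    intro j c
    obtain ⟨b, hb⟩ := hi j c
    rw [hb, Pi.mulSingle_eq_same]
  let F : Fin r → (T →* T) := fun j =>
    { toFun := fun c => ψ (Pi.mulSingle j c) (f j)
      map_one' := by simp
      map_mul' := by
        intro a b
        rw [Pi.mulSingle_mul, map_mul, Pi.mul_apply] }
  have hFb : ∀ j, Function.Bijective (F j) := by
    intro j
    constructor
    · rw [injective_iff_map_eq_one]
      intro c hc
      have h1 : ψ (Pi.mulSingle j c) = 1 := by
        rw [hval j c]
        have : ψ (Pi.mulSingle j c) (f j) = 1 := hc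
        rw [this, Pi.mulSingle_one]
      rw [map_eq_one_iff ψ ψ.injective] at h1
      exact Pi.mulSingle_eq_one_iff.1 h1
    · intro b
      obtain ⟨c, hc⟩ := hs j b
      refine ⟨c, ?_⟩
      show ψ (Pi.mulSingle j c) (f j) = b
      rw [hc, Pi.mulSingle_eq_same]
  refine ⟨Equiv.ofBijective f hbij, fun j => MulEquiv.ofBijective (F j) (hFb j), ?_⟩
  intro j a
  exact hval j a
-- END aut_pi

-- BEGIN aut_pi_alt
private lemma aut_pi_alt_simple {n : ℕ} (hn : 7 ≤ n) : IsSimpleGroup (alternatingGroup (Fin n)) :=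
  alternatingGroup.isSimpleGroup (by simpa using by omega)

private lemma aut_pi_alt_noncomm {n : ℕ} (hn : 7 ≤ n) :
    ∃ a b : alternatingGroup (Fin n), a * b ≠ b * a := by
  by_contra hcon
  push Not at hcon
  have := aut_pi_alt_simple hn
  obtain ⟨x, hx⟩ := exists_ne (1 : alternatingGroup (Fin n))
  apply hx
  have h1 : (x : Perm (Fin n)) = 1 := by
    refine cent_alt (by omega) _ ?_
    intro y hy
    have h2 := hcon x ⟨y, hy⟩
    exact congrArg Subtype.val h2
  exact Subtype.ext h1

private lemma aut_pi_alt_conj {n : ℕ} (s : Perm (Fin n)) (a : alternatingGroup (Fin n)) :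
    ∃ b : alternatingGroup (Fin n), (b : Perm (Fin n)) = s * a * s⁻¹ :=
  ⟨⟨s * a * s⁻¹, (inferInstance : (alternatingGroup (Fin n)).Normal).conj_mem _ a.2 s⟩, rfl⟩

/-- PROOF. `aut_pi` for `T = alternatingGroup (Fin n)` (simple: `alternatingGroup.isSimpleGroup`), `aut_alt`. -/
theorem aut_pi_alt {n r : ℕ} (hn : 7 ≤ n) (ψ : MulAut (Fin r → alternatingGroup (Fin n))) :
    ∃ (π : Perm (Fin r)) (s : Fin r → Perm (Fin n)), ∀ (j : Fin r) (a : alternatingGroup (Fin n)),
      ∃ b : alternatingGroup (Fin n), (b : Perm (Fin n)) = s j * a * (s j)⁻¹ ∧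
        ψ (Pi.mulSingle j a) = Pi.mulSingle (π j) b := by
  have := aut_pi_alt_simple hn
  obtain ⟨π, ψ', h⟩ := aut_pi (aut_pi_alt_noncomm hn) ψ
  choose s hs using fun j => aut_alt hn (ψ' j)
  exact ⟨π, s, fun j a => ⟨ψ' j a, hs j a, h j a⟩⟩

/-- Uniqueness. PROOF. The position of a nontrivial `mulSingle` and its value are determined; `s⁻¹ s'` centralizes the alternating group
(`cent_alt`). -/
theorem aut_pi_unique {n r : ℕ} (hn : 7 ≤ n) (π π' : Perm (Fin r)) (s s' : Fin r → Perm (Fin n))
    (h : ∀ (j : Fin r) (a : alternatingGroup (Fin n)), ∀ b b' : alternatingGroup (Fin n),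
      (b : Perm (Fin n)) = s j * a * (s j)⁻¹ → (b' : Perm (Fin n)) = s' j * a * (s' j)⁻¹ →
        (Pi.mulSingle (π j) b : Fin r → alternatingGroup (Fin n)) = Pi.mulSingle (π' j) b') :
    π = π' ∧ s = s' := by
  have := aut_pi_alt_simple hn
  obtain ⟨x, hx⟩ := exists_ne (1 : alternatingGroup (Fin n))
  have hpos : ∀ j, π j = π' j := by
    intro j
    obtain ⟨b, hb⟩ := aut_pi_alt_conj (s j) x
    obtain ⟨b', hb'⟩ := aut_pi_alt_conj (s' j) x
    have h1 := h j x b b' hb hb'
    by_contra hne
    have h2 := congrFun h1 (π j)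
    rw [Pi.mulSingle_eq_same, Pi.mulSingle_eq_of_ne hne] at h2
    rw [h2] at hb
    apply hx
    apply Subtype.ext
    have h3 : s j * (x : Perm (Fin n)) * (s j)⁻¹ = 1 := by
      rw [← hb]
      rfl
    exact conj_eq_one_iff.1 h3
  refine ⟨Equiv.ext hpos, ?_⟩
  funext j
  have h1 : (s' j)⁻¹ * s j = 1 := by
    refine cent_alt (by omega) _ ?_
    intro y hy
    obtain ⟨b, hb⟩ := aut_pi_alt_conj (s j) ⟨y, hy⟩
    obtain ⟨b', hb'⟩ := aut_pi_alt_conj (s' j) ⟨y, hy⟩
    have h2 := h j ⟨y, hy⟩ b b' hb hb'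
    rw [← hpos j] at h2
    have h3 := congrFun h2 (π j)
    rw [Pi.mulSingle_eq_same, Pi.mulSingle_eq_same] at h3
    rw [h3, hb'] at hb
    have h4 : s' j * y * (s' j)⁻¹ = s j * y * (s j)⁻¹ := hb
    calc (s' j)⁻¹ * s j * y = (s' j)⁻¹ * (s j * y * (s j)⁻¹) * s j := by group
      _ = (s' j)⁻¹ * (s' j * y * (s' j)⁻¹) * s j := by rw [h4]
      _ = y * ((s' j)⁻¹ * s j) := by group
  exact (inv_mul_eq_one.1 h1).symm
-- END aut_pi_alt

-- BEGIN exists_wrData
private lemma exists_wrData_inj {n r : ℕ} (y y' : Fin r → alternatingGroup (Fin n))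
    (ψ : MulAut (Fin r → alternatingGroup (Fin n))) (h : ψ y = ψ y') : y = y' :=
  ψ.injective h

/-- The defining property of the pair `(π, s)` attached to an automorphism. -/
private def exists_wrData_P {n r : ℕ} (ψ : MulAut (Fin r → alternatingGroup (Fin n)))
    (π : Perm (Fin r)) (s : Fin r → Perm (Fin n)) : Prop :=
  ∀ (j : Fin r) (a b : alternatingGroup (Fin n)), (b : Perm (Fin n)) = s j * a * (s j)⁻¹ →
    ψ (Pi.mulSingle j a) = Pi.mulSingle (π j) b

private lemma exists_wrData_ex {n r : ℕ} (hn : 7 ≤ n)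
    (ψ : MulAut (Fin r → alternatingGroup (Fin n))) :
    ∃ (π : Perm (Fin r)) (s : Fin r → Perm (Fin n)), exists_wrData_P ψ π s := by
  obtain ⟨π, s, h⟩ := aut_pi_alt hn ψ
  refine ⟨π, s, ?_⟩
  intro j a b hb
  obtain ⟨b', hb', h1⟩ := h j a
  have : b = b' := Subtype.ext (hb.trans hb'.symm)
  rw [this]
  exact h1

private lemma exists_wrData_uniq {n r : ℕ} (hn : 7 ≤ n)
    (ψ : MulAut (Fin r → alternatingGroup (Fin n))) {π π' : Perm (Fin r)}
    {s s' : Fin r → Perm (Fin n)} (h : exists_wrData_P ψ π s) (h' : exists_wrData_P ψ π' s') :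
    π = π' ∧ s = s' := by
  refine aut_pi_unique hn π π' s s' ?_
  intro j a b b' hb hb'
  rw [← h j a b hb, ← h' j a b' hb']

private lemma exists_wrData_conj {n : ℕ} (s : Perm (Fin n)) (a : alternatingGroup (Fin n)) :
    ∃ b : alternatingGroup (Fin n), (b : Perm (Fin n)) = s * a * s⁻¹ :=
  ⟨⟨s * a * s⁻¹, (inferInstance : (alternatingGroup (Fin n)).Normal).conj_mem _ a.2 s⟩, rfl⟩

private lemma exists_wrData_mul {n r : ℕ}
    {ψ ψ' : MulAut (Fin r → alternatingGroup (Fin n))} {π π' : Perm (Fin r)}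
    {s s' : Fin r → Perm (Fin n)} (h : exists_wrData_P ψ π s) (h' : exists_wrData_P ψ' π' s') :
    exists_wrData_P (ψ * ψ') (π * π') (fun j => s (π' j) * s' j) := by
  intro j a b hb
  obtain ⟨c, hc⟩ := exists_wrData_conj (s' j) a
  rw [MulAut.mul_apply, h' j a c hc, Perm.mul_apply]
  refine h (π' j) c b ?_
  rw [hb, hc]
  group

/-- PROOF. For `g : G` conjugation by `g` on `N`, transported by `e`, is `ψ g : MulAut (Fin r → alternatingGroup (Fin n))` (`MulAut.conjNormal`);
choose `π g`, `σ g` by `aut_pi_alt`. `ψ (g * h) = ψ g * ψ h` and uniqueness (`aut_pi_unique`) give `π (g * h) = π g * π h`,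
`σ (g * h) j = σ g (π h j) * σ h j`; for `x ∈ N`, `ψ x` is conjugation by `e x`, so `π x = 1`, `σ x j = e x j` (uniqueness). -/
theorem exists_wrData {G : Type} [Group G] (N : Subgroup G) [N.Normal] {n r : ℕ} (hn : 7 ≤ n)
    (e : N ≃* (Fin r → alternatingGroup (Fin n))) : Nonempty (WrData G N n r) := by
  classical
  let Ψ : G →* MulAut (Fin r → alternatingGroup (Fin n)) :=
    (MulAut.congr e).toMonoidHom.comp (MulAut.conjNormal (G := G) (H := N))
  have hΨ : ∀ (g : G) (y : Fin r → alternatingGroup (Fin n)),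
      Ψ g y = e (MulAut.conjNormal (G := G) (H := N) g (e.symm y)) := fun g y => rfl
  choose π σ hP using fun g => exists_wrData_ex hn (Ψ g)
  have hmul : ∀ g h, π (g * h) = π g * π h ∧ σ (g * h) = fun j => σ g (π h j) * σ h j := by
    intro g h
    have h1 := exists_wrData_mul (hP g) (hP h)
    rw [← map_mul] at h1
    exact exists_wrData_uniq hn _ (hP (g * h)) h1
  have hN : ∀ (x : N), π (x : G) = 1 ∧ σ (x : G) = fun j => (e x j : Perm (Fin n)) := by
    intro x
    refine exists_wrData_uniq hn (Ψ (x : G)) (hP _) ?_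
    intro j a b hb
    rw [hΨ]
    have h1 : MulAut.conjNormal (G := G) (H := N) (x : G) (e.symm (Pi.mulSingle j a)) =
        x * e.symm (Pi.mulSingle j a) * x⁻¹ := by
      apply Subtype.ext
      rw [MulAut.conjNormal_apply]
      rfl
    rw [h1, map_mul, map_mul, map_inv, MulEquiv.apply_symm_apply, Perm.one_apply]
    have h2 : e x * Pi.mulSingle j a * (e x)⁻¹ = Pi.mulSingle j (e x j * a * (e x j)⁻¹) := by
      funext i
      by_cases h : i = j
      · subst h
        simp
      · simp [Pi.mulSingle_eq_of_ne h]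
    rw [h2]
    congr 1
    apply Subtype.ext
    rw [hb]
    rfl
  have hone : π 1 = 1 := by
    have := (hmul 1 1).1
    rw [one_mul] at this
    exact (mul_eq_left.1 this.symm)
  refine ⟨⟨⟨⟨π, hone⟩, fun g h => (hmul g h).1⟩, σ, ?_, ?_, ?_⟩⟩
  · intro g h j
    have := congrFun (hmul g h).2 j
    exact this
  · intro x hx
    exact (hN ⟨x, hx⟩).1
  · intro y
    refine ⟨(e.symm y : N), (e.symm y).2, ?_⟩
    intro j
    have := congrFun (hN (e.symm y)).2 j
    rw [this, MulEquiv.apply_symm_apply]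
-- END exists_wrData

end Pool.Agent.Wil
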