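import Pool.Agent.Wil.Raw
import Pool.Agent.Wil.Cert31c

set_option autoImplicit false
set_option maxRecDepth 100000

/-! Explicit cores (runner heights, size, window), p = 31, degrees 996 to 9854. -/

namespace Pool.Agent.Wil

def ct31_12 : List (List Nat × Nat × Nat) := [
  ([2, 4, 0, 2, 4, 2, 1, 3, 4, 3, 2, 0, 3, 1, 0, 4, 1, 2, 4, 0, 1, 3, 0, 4, 0, 1, 4, 2, 1, 4, 2], 996, 6),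
  ([1, 0, 3, 1, 1, 3, 3, 3, 4, 2, 1, 1, 0, 4, 0, 4, 3, 0, 2, 4, 0, 3, 2, 3, 0, 1, 4, 3, 0, 3, 1], 1003, 6),
  ([1, 3, 4, 1, 1, 3, 4, 2, 4, 1, 3, 0, 3, 1, 4, 4, 2, 4, 1, 0, 1, 4, 0, 2, 0, 3, 2, 4, 1, 0, 4], 1010, 8),
  ([1, 1, 4, 4, 3, 3, 0, 3, 1, 2, 1, 4, 2, 4, 2, 0, 0, 2, 0, 4, 3, 3, 1, 4, 1, 4, 0, 3, 0, 0, 3], 1019, 6),
  ([1, 2, 0, 3, 4, 1, 4, 3, 0, 4, 2, 1, 0, 3, 4, 0, 2, 1, 2, 4, 4, 4, 0, 2, 0, 3, 2, 2, 1, 4, 1], 1026, 6),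
  ([1, 4, 3, 0, 4, 3, 4, 1, 4, 2, 4, 0, 2, 1, 4, 1, 4, 1, 1, 3, 0, 4, 3, 0, 0, 2, 2, 0, 4, 2, 0], 1033, 8),
  ([3, 4, 1, 4, 2, 0, 4, 3, 4, 0, 1, 1, 4, 2, 4, 1, 1, 0, 4, 2, 0, 3, 1, 4, 0, 4, 3, 1, 0, 3, 2], 1042, 8),
  ([4, 4, 1, 4, 2, 4, 3, 0, 4, 2, 2, 2, 0, 1, 3, 4, 4, 0, 2, 4, 1, 1, 0, 3, 3, 0, 4, 0, 4, 0, 1], 1051, 7),
  ([2, 3, 4, 2, 3, 0, 2, 1, 4, 4, 1, 3, 0, 0, 3, 2, 4, 1, 3, 4, 1, 4, 0, 3, 0, 4, 3, 0, 1, 0, 4], 1059, 9),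
  ([3, 4, 1, 3, 0, 4, 0, 4, 3, 3, 1, 4, 1, 3, 0, 2, 4, 4, 1, 4, 1, 1, 4, 3, 2, 0, 2, 0, 0, 4, 0], 1069, 7),
  ([0, 0, 2, 4, 3, 1, 4, 4, 4, 1, 2, 4, 0, 2, 3, 1, 0, 4, 2, 0, 3, 4, 0, 2, 1, 3, 1, 0, 2, 4, 3], 1077, 8),
  ([1, 2, 0, 4, 2, 4, 1, 4, 4, 1, 3, 4, 0, 2, 3, 4, 0, 3, 3, 4, 1, 2, 4, 1, 1, 0, 2, 4, 0, 0, 4], 1086, 7),
  ([4, 0, 4, 3, 1, 0, 2, 0, 4, 1, 2, 3, 0, 1, 4, 1, 4, 2, 0, 4, 0, 2, 3, 4, 0, 2, 4, 1, 2, 0, 1], 1094, 9),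
  ([4, 2, 3, 3, 1, 0, 5, 3, 4, 0, 4, 2, 4, 1, 1, 4, 0, 3, 1, 2, 0, 1, 3, 4, 1, 3, 0, 4, 2, 0, 4], 1104, 9),
  ([1, 3, 0, 2, 4, 3, 0, 4, 2, 5, 3, 1, 3, 4, 1, 0, 3, 0, 2, 4, 4, 1, 4, 1, 4, 1, 0, 1, 0, 3, 3], 1114, 7),
  ([3, 2, 4, 2, 1, 5, 3, 0, 0, 4, 1, 3, 1, 4, 4, 3, 1, 0, 3, 4, 1, 1, 3, 2, 0, 4, 4, 0, 4, 1, 0], 1122, 9),
  ([0, 1, 5, 4, 4, 2, 3, 2, 0, 3, 4, 1, 3, 3, 4, 1, 1, 0, 0, 3, 4, 1, 3, 2, 0, 0, 2, 3, 4, 0, 4], 1132, 6),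
  ([1, 3, 4, 1, 4, 1, 0, 2, 4, 2, 0, 3, 0, 4, 1, 4, 4, 1, 2, 2, 0, 4, 2, 3, 0, 1, 0, 0, 4, 3, 4], 1139, 9),
  ([1, 1, 0, 2, 3, 4, 1, 3, 4, 3, 2, 0, 0, 4, 1, 5, 0, 3, 1, 4, 2, 1, 1, 0, 3, 3, 0, 4, 4, 3, 2], 1149, 7),
  ([2, 5, 4, 0, 5, 3, 0, 3, 3, 1, 4, 2, 1, 4, 3, 0, 0, 4, 1, 4, 3, 1, 1, 0, 4, 0, 0, 3, 1, 2, 3], 1157, 9),
  ([1, 5, 2, 4, 0, 3, 0, 1, 4, 3, 1, 2, 4, 0, 4, 1, 2, 4, 0, 3, 1, 4, 4, 1, 0, 1, 1, 3, 4, 3, 0], 1167, 10),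
  ([5, 2, 4, 5, 2, 4, 6, 3, 2, 1, 2, 4, 6, 2, 4, 5, 1, 5, 2, 1, 5, 4, 5, 2, 2, 3, 4, 2, 4, 5, 0], 1178, 9),
  ([3, 1, 4, 1, 4, 0, 1, 4, 1, 2, 4, 0, 4, 5, 1, 0, 4, 4, 0, 0, 2, 3, 3, 4, 1, 1, 4, 0, 2, 1, 2], 1188, 8),
  ([5, 3, 4, 1, 2, 1, 4, 1, 4, 0, 2, 1, 0, 4, 1, 3, 4, 0, 0, 4, 3, 2, 0, 4, 1, 0, 4, 2, 0, 4, 2], 1197, 10),
  ([5, 2, 3, 0, 1, 4, 5, 4, 0, 1, 0, 4, 2, 3, 4, 1, 4, 1, 0, 4, 2, 4, 3, 0, 3, 0, 1, 2, 1, 4, 1], 1208, 9),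
  ([0, 4, 0, 4, 4, 1, 4, 2, 3, 2, 1, 5, 1, 3, 4, 2, 0, 4, 0, 4, 1, 4, 3, 2, 0, 1, 3, 1, 4, 4, 0], 1218, 10),
  ([4, 4, 4, 1, 1, 3, 5, 1, 3, 0, 4, 2, 0, 5, 4, 2, 0, 0, 3, 4, 2, 0, 1, 4, 1, 2, 3, 4, 4, 0, 1], 1228, 10),
  ([0, 3, 5, 4, 2, 0, 5, 2, 4, 1, 1, 4, 1, 5, 3, 0, 3, 1, 2, 1, 4, 4, 2, 0, 0, 4, 3, 3, 1, 0, 3], 1239, 11),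
  ([4, 3, 3, 0, 5, 3, 4, 4, 1, 1, 1, 5, 1, 4, 3, 0, 2, 0, 5, 1, 2, 4, 1, 0, 4, 1, 2, 4, 1, 4, 0], 1251, 10),
  ([1, 0, 4, 3, 4, 1, 2, 5, 3, 0, 0, 4, 4, 3, 1, 1, 3, 4, 0, 2, 4, 4, 1, 0, 4, 1, 1, 2, 4, 0, 4], 1262, 11),
  ([4, 1, 4, 5, 2, 0, 5, 3, 4, 0, 2, 0, 5, 4, 2, 1, 5, 0, 1, 2, 3, 3, 3, 4, 1, 0, 4, 2, 1, 0, 1], 1274, 10),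
  ([0, 1, 4, 4, 2, 5, 2, 4, 3, 0, 1, 5, 1, 1, 3, 5, 0, 0, 4, 1, 3, 4, 0, 3, 1, 4, 2, 3, 0, 3, 1], 1285, 11),
  ([1, 4, 3, 5, 0, 0, 4, 2, 5, 1, 4, 5, 2, 1, 4, 3, 0, 4, 2, 0, 2, 3, 1, 4, 0, 3, 0, 4, 1, 4, 2], 1297, 13),
  ([3, 4, 3, 4, 0, 3, 4, 0, 2, 3, 5, 1, 3, 5, 2, 0, 5, 0, 2, 4, 2, 1, 1, 4, 0, 4, 0, 4, 3, 0, 0], 1311, 11),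
  ([0, 2, 4, 5, 1, 4, 1, 4, 1, 1, 3, 5, 3, 1, 5, 0, 4, 4, 0, 2, 4, 0, 3, 0, 2, 0, 4, 2, 4, 2, 1], 1322, 12),
  ([0, 3, 4, 1, 4, 1, 1, 0, 5, 4, 4, 2, 1, 1, 4, 1, 5, 2, 0, 5, 1, 3, 1, 2, 1, 3, 4, 4, 0, 3, 4], 1335, 9),
  ([0, 4, 5, 1, 4, 3, 4, 1, 2, 2, 2, 4, 4, 0, 0, 5, 4, 0, 3, 4, 1, 0, 4, 5, 1, 2, 1, 3, 4, 1, 0], 1345, 10),
  ([4, 1, 0, 5, 3, 5, 1, 2, 0, 4, 3, 3, 1, 4, 4, 4, 0, 5, 0, 1, 4, 0, 2, 4, 2, 4, 1, 0, 1, 4, 2], 1356, 12),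
  ([4, 0, 5, 4, 4, 2, 1, 3, 2, 5, 0, 5, 0, 4, 5, 3, 2, 1, 4, 0, 1, 4, 1, 4, 4, 0, 2, 2, 4, 1, 0], 1369, 12),
  ([3, 1, 3, 1, 5, 0, 1, 0, 5, 4, 3, 1, 2, 5, 0, 5, 2, 1, 3, 4, 0, 0, 4, 4, 0, 2, 1, 3, 2, 1, 4], 1382, 12),
  ([1, 4, 4, 5, 0, 3, 4, 1, 2, 5, 3, 5, 0, 4, 2, 0, 1, 2, 4, 4, 0, 0, 1, 2, 3, 5, 0, 3, 4, 0, 1], 1395, 13),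
  ([1, 2, 5, 4, 5, 1, 0, 4, 2, 4, 1, 3, 0, 0, 3, 4, 3, 5, 4, 2, 2, 0, 4, 5, 1, 4, 0, 1, 4, 0, 1], 1409, 10),
  ([1, 5, 1, 5, 1, 4, 1, 4, 0, 4, 2, 5, 5, 3, 1, 0, 1, 4, 0, 3, 4, 1, 2, 0, 3, 4, 5, 0, 3, 2, 1], 1420, 13),
  ([4, 3, 5, 0, 3, 4, 5, 1, 1, 5, 1, 4, 3, 1, 2, 5, 0, 3, 1, 2, 4, 5, 4, 0, 0, 2, 3, 5, 0, 0, 3], 1434, 13),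
  ([1, 0, 5, 2, 4, 4, 2, 3, 1, 5, 1, 5, 5, 3, 1, 1, 4, 5, 3, 2, 0, 0, 0, 5, 3, 0, 4, 2, 3, 1, 4], 1448, 12)]

theorem ct31_12_ok : Raw.runR 31 1461 ct31_12 996 = true := by decide +kernel

def ct31_13 : List (List Nat × Nat × Nat) := [
  ([3, 4, 1, 1, 3, 5, 2, 0, 2, 5, 3, 1, 5, 2, 4, 0, 4, 3, 4, 0, 2, 5, 0, 4, 5, 1, 4, 0, 4, 1, 0], 1461, 14),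
  ([5, 1, 5, 4, 1, 0, 4, 4, 3, 0, 5, 1, 2, 5, 4, 2, 0, 5, 3, 1, 4, 0, 1, 4, 1, 1, 3, 3, 5, 0, 1], 1476, 15),
  ([3, 4, 1, 3, 1, 5, 2, 5, 4, 0, 2, 0, 5, 3, 0, 5, 2, 0, 0, 4, 4, 2, 0, 2, 4, 1, 4, 1, 4, 5, 1], 1492, 13),
  ([0, 5, 2, 4, 0, 4, 2, 2, 1, 5, 4, 2, 5, 0, 3, 5, 1, 0, 3, 5, 1, 2, 3, 1, 1, 4, 5, 0, 4, 0, 2], 1506, 15),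
  ([4, 1, 5, 4, 1, 1, 5, 1, 4, 5, 0, 1, 5, 0, 2, 1, 4, 3, 5, 2, 2, 4, 0, 4, 4, 1, 5, 1, 0, 3, 0], 1522, 14),
  ([4, 1, 4, 1, 3, 5, 0, 1, 5, 2, 4, 0, 5, 3, 2, 1, 5, 2, 0, 2, 5, 0, 4, 2, 4, 1, 2, 0, 5, 0, 4], 1537, 18),
  ([0, 2, 5, 2, 4, 5, 1, 5, 3, 5, 1, 4, 3, 0, 5, 1, 3, 1, 0, 4, 2, 4, 2, 5, 1, 3, 0, 4, 0, 5, 0], 1556, 17),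
  ([0, 4, 5, 5, 1, 2, 2, 3, 0, 5, 1, 4, 3, 5, 0, 2, 5, 0, 2, 3, 4, 1, 5, 0, 5, 4, 4, 0, 2, 3, 1], 1574, 15),
  ([1, 2, 5, 5, 3, 0, 2, 5, 4, 5, 1, 1, 5, 3, 0, 5, 2, 0, 2, 3, 1, 5, 0, 4, 3, 0, 5, 0, 1, 4, 2], 1590, 18),
  ([0, 5, 3, 5, 2, 1, 5, 2, 1, 1, 4, 0, 1, 5, 3, 0, 5, 1, 5, 1, 0, 4, 5, 2, 3, 1, 5, 3, 3, 0, 3], 1609, 15),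
  ([5, 1, 5, 3, 4, 3, 3, 0, 2, 1, 5, 0, 1, 5, 2, 4, 2, 2, 5, 0, 5, 4, 1, 0, 0, 3, 4, 0, 5, 0, 4], 1625, 15),
  ([3, 1, 5, 5, 2, 5, 5, 0, 2, 1, 5, 4, 0, 2, 2, 4, 1, 3, 5, 0, 3, 1, 5, 4, 0, 0, 5, 0, 4, 0, 2], 1641, 17),
  ([5, 3, 1, 4, 1, 3, 5, 0, 5, 3, 2, 2, 1, 2, 5, 2, 5, 0, 4, 2, 0, 4, 0, 0, 3, 5, 0, 1, 5, 5, 0], 1658, 15),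
  ([3, 0, 5, 1, 2, 3, 5, 5, 4, 5, 1, 0, 5, 3, 2, 0, 0, 4, 1, 5, 3, 0, 2, 1, 4, 5, 1, 4, 0, 5, 3], 1674, 17),
  ([4, 2, 4, 3, 1, 1, 3, 6, 1, 5, 1, 0, 4, 6, 1, 4, 5, 0, 2, 0, 5, 3, 2, 4, 1, 4, 0, 2, 5, 1, 5], 1692, 17),
  ([1, 5, 2, 5, 0, 1, 3, 6, 1, 4, 5, 2, 1, 5, 1, 4, 0, 2, 3, 4, 1, 5, 4, 2, 4, 5, 0, 0, 5, 3, 0], 1709, 18),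
  ([5, 2, 4, 5, 5, 3, 4, 1, 6, 1, 0, 4, 6, 1, 5, 3, 1, 2, 0, 5, 3, 4, 0, 5, 1, 1, 2, 0, 4, 5, 0], 1728, 18),
  ([4, 1, 5, 2, 3, 0, 6, 5, 2, 3, 0, 0, 5, 4, 4, 1, 4, 1, 2, 3, 5, 0, 2, 4, 0, 5, 1, 0, 5, 4, 0], 1747, 21),
  ([0, 1, 5, 4, 0, 2, 4, 5, 0, 4, 0, 5, 3, 2, 5, 0, 4, 4, 1, 5, 1, 1, 2, 3, 5, 0, 2, 1, 5, 5, 2], 1769, 19),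
  ([4, 0, 4, 2, 4, 1, 3, 5, 0, 4, 2, 3, 1, 6, 3, 5, 5, 2, 0, 0, 0, 4, 1, 5, 3, 1, 2, 5, 0, 5, 5], 1789, 16),
  ([0, 3, 1, 5, 0, 5, 4, 2, 3, 2, 6, 1, 5, 5, 2, 0, 4, 1, 1, 4, 0, 4, 5, 0, 2, 2, 5, 3, 0, 4, 5], 1806, 21),
  ([4, 1, 2, 3, 0, 6, 4, 0, 6, 1, 4, 4, 5, 1, 2, 1, 5, 3, 0, 2, 5, 0, 1, 5, 5, 1, 2, 3, 0, 4, 5], 1828, 20),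
  ([0, 3, 1, 4, 2, 2, 3, 4, 6, 1, 0, 5, 5, 0, 3, 2, 5, 1, 5, 0, 5, 4, 1, 1, 3, 5, 0, 5, 4, 0, 4], 1849, 21),
  ([5, 1, 3, 6, 1, 0, 6, 2, 3, 1, 5, 4, 1, 0, 6, 4, 0, 5, 1, 3, 2, 5, 4, 5, 1, 3, 4, 0, 1, 4, 0], 1871, 21),
  ([1, 3, 5, 0, 5, 5, 1, 4, 4, 0, 5, 0, 3, 1, 6, 4, 2, 1, 0, 6, 3, 0, 1, 4, 2, 5, 2, 3, 5, 5, 1], 1893, 19),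
  ([5, 2, 0, 6, 1, 6, 2, 5, 0, 5, 5, 1, 3, 0, 4, 0, 2, 4, 4, 5, 2, 5, 0, 3, 5, 1, 0, 4, 0, 1, 3], 1913, 21),
  ([2, 5, 0, 4, 1, 6, 1, 5, 1, 6, 5, 2, 6, 1, 5, 4, 0, 4, 2, 3, 5, 1, 2, 0, 5, 0, 4, 4, 0, 2, 0], 1935, 21),
  ([0, 5, 5, 2, 1, 4, 5, 0, 3, 2, 6, 6, 4, 0, 3, 1, 6, 2, 1, 4, 5, 5, 1, 0, 0, 3, 4, 1, 3, 5, 0], 1957, 22),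
  ([5, 5, 0, 3, 5, 6, 0, 3, 2, 5, 6, 1, 5, 4, 0, 0, 4, 5, 1, 3, 0, 1, 4, 6, 5, 2, 3, 3, 0, 1, 0], 1980, 19),
  ([5, 0, 2, 6, 1, 6, 2, 4, 6, 5, 5, 2, 1, 0, 4, 3, 6, 0, 3, 3, 1, 5, 0, 2, 3, 0, 5, 5, 4, 0, 1], 2000, 22),
  ([5, 1, 6, 5, 0, 1, 5, 1, 4, 6, 0, 4, 2, 3, 2, 4, 2, 0, 4, 0, 6, 0, 5, 3, 4, 1, 0, 6, 4, 1, 2], 2023, 22),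
  ([0, 1, 4, 1, 5, 4, 3, 6, 1, 2, 5, 0, 5, 1, 6, 4, 0, 6, 1, 0, 2, 6, 5, 3, 1, 1, 2, 4, 2, 4, 5], 2046, 24),
  ([5, 4, 1, 5, 2, 6, 1, 6, 0, 4, 1, 5, 6, 1, 6, 1, 2, 4, 6, 4, 0, 3, 2, 0, 2, 6, 0, 4, 2, 0, 4], 2071, 24),
  ([6, 5, 1, 5, 2, 4, 6, 3, 0, 1, 6, 1, 6, 1, 5, 0, 4, 5, 0, 4, 3, 6, 2, 1, 0, 4, 2, 3, 2, 0, 6], 2095, 25),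
  ([5, 1, 1, 1, 0, 3, 6, 6, 0, 5, 3, 6, 0, 4, 4, 1, 2, 2, 5, 5, 0, 3, 4, 2, 4, 0, 0, 5, 3, 6, 1], 2121, 22),
  ([5, 0, 5, 6, 4, 6, 0, 4, 6, 1, 1, 5, 6, 0, 3, 0, 6, 3, 4, 1, 2, 0, 5, 3, 6, 2, 0, 2, 3, 1, 1], 2144, 23),
  ([6, 5, 0, 3, 4, 1, 4, 6, 6, 1, 5, 2, 6, 2, 4, 1, 6, 3, 0, 1, 4, 6, 0, 6, 1, 1, 2, 0, 5, 3, 0], 2167, 26),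
  ([1, 4, 6, 1, 6, 3, 6, 0, 5, 5, 1, 0, 4, 1, 6, 3, 4, 2, 0, 2, 6, 1, 5, 0, 5, 2, 0, 5, 4, 1, 0], 2194, 28),
  ([1, 2, 4, 5, 3, 4, 1, 6, 5, 6, 1, 0, 3, 5, 6, 0, 4, 0, 5, 0, 0, 6, 1, 2, 6, 5, 0, 1, 3, 4, 1], 2223, 23),
  ([0, 5, 2, 4, 4, 6, 0, 2, 5, 6, 2, 3, 6, 0, 5, 6, 0, 5, 1, 3, 1, 1, 4, 2, 0, 5, 0, 5, 1, 4, 6], 2247, 27),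
  ([4, 1, 3, 6, 3, 5, 0, 6, 0, 3, 5, 6, 0, 6, 1, 6, 2, 3, 5, 1, 4, 0, 6, 0, 5, 1, 5, 0, 1, 2, 4], 2275, 30),
  ([4, 6, 5, 0, 1, 4, 6, 6, 1, 1, 6, 3, 6, 0, 0, 6, 1, 6, 4, 2, 5, 2, 1, 0, 6, 3, 5, 4, 2, 0, 2], 2306, 27),
  ([2, 1, 4, 1, 6, 6, 0, 0, 2, 6, 6, 3, 5, 1, 5, 4, 0, 6, 2, 4, 1, 4, 4, 2, 1, 0, 5, 6, 2, 0, 6], 2334, 28),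
  ([6, 3, 4, 1, 6, 1, 4, 7, 5, 2, 6, 5, 0, 4, 7, 0, 1, 5, 2, 3, 0, 6, 3, 0, 6, 2, 6, 1, 1, 4, 1], 2363, 30),
  ([3, 4, 3, 5, 5, 0, 4, 2, 6, 1, 6, 1, 5, 6, 3, 1, 0, 0, 5, 0, 6, 6, 1, 4, 1, 6, 2, 0, 4, 0, 6], 2394, 29)]

theorem ct31_13_ok : Raw.runR 31 2424 ct31_13 1461 = true := by decide +kernel

def ct31_14 : List (List Nat × Nat × Nat) := [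
  ([6, 0, 3, 6, 0, 4, 5, 1, 2, 6, 6, 0, 3, 5, 4, 0, 6, 2, 5, 0, 2, 6, 0, 5, 0, 3, 1, 4, 2, 6, 1], 2423, 35),
  ([2, 1, 7, 4, 6, 3, 7, 1, 6, 3, 6, 1, 7, 1, 6, 4, 3, 0, 0, 5, 0, 4, 5, 5, 1, 0, 1, 3, 6, 4, 2], 2459, 29),
  ([1, 7, 7, 4, 1, 6, 0, 1, 6, 3, 4, 6, 0, 2, 7, 5, 1, 2, 0, 6, 4, 1, 4, 2, 3, 5, 6, 1, 0, 3, 4], 2489, 32),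
  ([1, 6, 1, 6, 3, 5, 4, 0, 7, 0, 5, 0, 4, 6, 1, 6, 3, 5, 0, 1, 0, 6, 4, 1, 2, 2, 6, 2, 1, 6, 3], 2522, 33),
  ([5, 1, 6, 4, 2, 5, 2, 0, 2, 6, 4, 0, 5, 0, 7, 1, 3, 3, 6, 6, 1, 1, 0, 6, 1, 6, 0, 5, 2, 3, 6], 2555, 32),
  ([1, 2, 3, 6, 0, 4, 6, 1, 4, 6, 3, 5, 0, 5, 5, 0, 1, 5, 1, 2, 6, 6, 7, 1, 2, 0, 4, 3, 0, 6, 6], 2588, 31),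
  ([6, 1, 6, 1, 2, 4, 5, 1, 2, 5, 7, 4, 5, 1, 0, 7, 5, 6, 0, 3, 1, 4, 3, 2, 7, 0, 1, 4, 6, 0, 6], 2620, 32),
  ([0, 6, 0, 2, 5, 7, 0, 6, 1, 4, 3, 6, 4, 1, 7, 1, 3, 6, 1, 6, 2, 0, 0, 5, 3, 3, 1, 4, 5, 1, 6], 2653, 35),
  ([4, 6, 3, 2, 7, 4, 2, 1, 6, 5, 1, 4, 0, 6, 5, 0, 1, 5, 0, 6, 6, 0, 4, 6, 3, 0, 0, 0, 6, 6, 2], 2689, 33),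
  ([7, 6, 2, 7, 0, 6, 6, 0, 3, 3, 7, 0, 3, 4, 7, 1, 5, 2, 5, 1, 5, 0, 0, 2, 5, 4, 2, 5, 6, 0, 1], 2722, 32),
  ([7, 4, 7, 0, 5, 3, 5, 7, 1, 4, 1, 4, 0, 6, 2, 0, 5, 3, 6, 2, 4, 0, 6, 0, 7, 3, 5, 0, 6, 1, 1], 2754, 38),
  ([7, 1, 3, 7, 2, 4, 2, 6, 0, 6, 4, 7, 1, 6, 1, 1, 0, 4, 5, 6, 6, 3, 0, 2, 7, 2, 5, 0, 6, 1, 5], 2793, 37),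
  ([5, 7, 0, 7, 4, 3, 1, 1, 6, 6, 3, 2, 6, 1, 5, 4, 1, 7, 4, 2, 4, 0, 6, 6, 3, 7, 0, 1, 1, 7, 0], 2831, 37),
  ([0, 6, 7, 1, 5, 0, 3, 6, 5, 6, 1, 0, 7, 2, 7, 4, 1, 0, 6, 3, 7, 4, 1, 5, 6, 2, 0, 5, 2, 1, 3], 2869, 39),
  ([2, 3, 0, 6, 2, 7, 1, 5, 4, 0, 6, 6, 0, 1, 2, 6, 7, 3, 1, 7, 6, 2, 4, 0, 6, 6, 0, 0, 5, 3, 3], 2909, 39),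
  ([0, 1, 6, 6, 7, 3, 6, 0, 2, 4, 6, 0, 0, 7, 7, 3, 1, 5, 0, 6, 1, 5, 1, 5, 2, 6, 3, 1, 1, 6, 4], 2949, 39),
  ([6, 3, 5, 7, 1, 2, 3, 5, 0, 1, 3, 6, 1, 5, 7, 0, 4, 1, 6, 5, 0, 7, 4, 2, 0, 7, 1, 3, 6, 0, 7], 2989, 42),
  ([4, 1, 6, 1, 7, 7, 0, 5, 7, 4, 0, 7, 2, 3, 6, 0, 5, 0, 5, 1, 1, 5, 6, 3, 1, 7, 2, 4, 7, 3, 0], 3032, 42),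
  ([2, 7, 7, 0, 4, 7, 0, 8, 3, 0, 6, 1, 6, 4, 7, 5, 1, 7, 0, 6, 2, 3, 5, 3, 2, 0, 6, 1, 5, 1, 3], 3075, 42),
  ([3, 6, 1, 7, 2, 5, 2, 0, 7, 7, 0, 3, 5, 6, 3, 1, 6, 5, 1, 7, 0, 1, 7, 2, 5, 0, 4, 2, 7, 0, 6], 3118, 48),
  ([4, 3, 0, 7, 2, 1, 5, 5, 6, 0, 7, 3, 1, 8, 2, 2, 7, 1, 6, 4, 2, 7, 0, 5, 5, 0, 7, 1, 3, 6, 0], 3167, 45),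
  ([5, 2, 3, 7, 6, 0, 3, 7, 1, 7, 0, 5, 5, 7, 0, 6, 3, 1, 7, 4, 1, 4, 0, 2, 0, 7, 2, 0, 3, 6, 7], 3213, 45),
  ([7, 4, 1, 5, 6, 2, 7, 0, 3, 5, 3, 6, 0, 1, 7, 2, 5, 0, 7, 7, 6, 3, 2, 7, 0, 0, 7, 6, 1, 3, 0], 3259, 47),
  ([1, 6, 6, 3, 1, 7, 1, 8, 5, 7, 2, 2, 0, 7, 1, 7, 4, 4, 5, 2, 8, 0, 1, 0, 7, 5, 2, 6, 0, 3, 5], 3307, 46),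
  ([2, 6, 5, 1, 6, 7, 1, 8, 0, 2, 4, 7, 1, 4, 7, 2, 0, 7, 4, 7, 0, 6, 1, 6, 7, 1, 0, 3, 5, 0, 4], 3354, 49),
  ([2, 6, 3, 4, 5, 8, 0, 7, 4, 0, 2, 5, 7, 1, 8, 5, 1, 2, 2, 7, 0, 1, 5, 6, 7, 4, 7, 0, 7, 3, 0], 3404, 47),
  ([1, 3, 1, 6, 5, 8, 0, 7, 0, 6, 2, 4, 0, 5, 7, 7, 1, 2, 7, 0, 3, 5, 6, 8, 1, 2, 3, 4, 6, 0, 6], 3452, 49),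
  ([1, 6, 7, 5, 1, 7, 0, 2, 8, 3, 6, 8, 0, 1, 0, 5, 6, 3, 7, 3, 1, 6, 5, 1, 2, 7, 0, 0, 4, 3, 7], 3502, 51),
  ([0, 4, 7, 2, 3, 7, 1, 4, 8, 1, 5, 3, 0, 6, 7, 0, 6, 2, 6, 0, 3, 5, 0, 3, 7, 7, 4, 0, 7, 1, 7], 3553, 55),
  ([1, 8, 6, 2, 8, 5, 0, 6, 2, 8, 8, 1, 6, 7, 2, 5, 1, 1, 7, 3, 5, 0, 7, 7, 0, 4, 6, 0, 4, 2, 1], 3609, 52),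
  ([1, 8, 2, 3, 6, 0, 8, 3, 7, 1, 0, 6, 2, 7, 4, 2, 6, 0, 6, 8, 0, 2, 5, 3, 7, 0, 5, 2, 7, 4, 7], 3661, 57),
  ([1, 7, 5, 8, 2, 3, 5, 1, 8, 6, 2, 0, 3, 7, 7, 6, 0, 8, 0, 1, 8, 0, 5, 6, 2, 1, 7, 3, 4, 5, 0], 3719, 55),
  ([1, 7, 3, 3, 0, 8, 4, 7, 1, 6, 7, 4, 2, 8, 0, 5, 7, 2, 0, 2, 6, 8, 1, 7, 6, 0, 5, 0, 4, 1, 7], 3775, 58),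
  ([6, 1, 6, 8, 1, 7, 4, 0, 0, 5, 6, 2, 3, 8, 0, 4, 7, 7, 1, 2, 7, 1, 2, 6, 2, 8, 1, 4, 0, 8, 6], 3834, 56),
  ([5, 7, 8, 1, 5, 7, 5, 0, 2, 3, 1, 7, 5, 1, 8, 4, 0, 7, 3, 8, 0, 8, 6, 4, 0, 7, 0, 0, 6, 2, 1], 3891, 58),
  ([3, 1, 7, 4, 6, 1, 5, 8, 2, 1, 8, 4, 6, 3, 0, 7, 1, 8, 7, 0, 6, 1, 7, 2, 6, 0, 8, 3, 0, 8, 5], 3950, 65),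
  ([8, 4, 2, 9, 7, 3, 6, 1, 2, 9, 8, 2, 9, 8, 1, 9, 5, 7, 2, 5, 3, 2, 9, 0, 8, 5, 2, 7, 5, 1, 6], 4016, 60),
  ([9, 6, 7, 1, 1, 8, 1, 8, 5, 8, 5, 1, 2, 7, 4, 0, 2, 5, 8, 0, 3, 5, 7, 0, 1, 7, 3, 8, 3, 0, 1], 4077, 62),
  ([4, 8, 7, 0, 1, 8, 0, 6, 1, 8, 3, 4, 6, 7, 8, 1, 2, 0, 2, 5, 0, 8, 8, 5, 0, 5, 4, 7, 1, 3, 7], 4139, 58),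
  ([4, 7, 2, 4, 7, 1, 8, 0, 2, 8, 1, 8, 0, 6, 6, 7, 0, 4, 1, 8, 5, 0, 5, 2, 8, 5, 0, 7, 3, 1, 8], 4198, 68),
  ([3, 1, 4, 6, 8, 0, 8, 1, 3, 7, 0, 4, 9, 0, 5, 1, 7, 7, 2, 5, 5, 0, 8, 8, 1, 6, 7, 0, 5, 7, 2], 4267, 64),
  ([2, 6, 1, 8, 5, 0, 7, 0, 8, 6, 4, 1, 9, 2, 4, 0, 7, 8, 3, 0, 7, 2, 7, 8, 0, 5, 1, 4, 8, 2, 6], 4331, 71),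
  ([5, 8, 8, 4, 1, 7, 0, 8, 4, 2, 2, 9, 6, 8, 0, 0, 8, 6, 3, 2, 8, 4, 6, 0, 1, 0, 6, 4, 8, 0, 1], 4403, 68),
  ([3, 8, 2, 8, 4, 5, 3, 0, 9, 6, 2, 3, 1, 7, 4, 7, 0, 2, 6, 0, 5, 7, 0, 8, 1, 7, 0, 0, 8, 9, 5], 4472, 65),
  ([9, 0, 7, 7, 4, 0, 5, 9, 8, 2, 5, 7, 6, 1, 3, 3, 8, 2, 7, 8, 1, 0, 4, 8, 0, 8, 0, 0, 3, 6, 1], 4538, 69)]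

theorem ct31_14_ok : Raw.runR 31 4608 ct31_14 2424 = true := by decide +kernel

def ct31_15 : List (List Nat × Nat × Nat) := [
  ([6, 1, 8, 1, 9, 9, 0, 1, 4, 8, 6, 1, 4, 5, 5, 0, 6, 9, 0, 1, 8, 2, 8, 3, 8, 3, 1, 7, 4, 7, 1], 4608, 71),
  ([3, 4, 0, 8, 6, 1, 9, 1, 6, 4, 8, 0, 7, 5, 0, 2, 9, 6, 5, 0, 8, 1, 8, 0, 7, 3, 8, 8, 2, 1, 4], 4678, 75),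
  ([8, 3, 0, 7, 9, 3, 2, 4, 9, 0, 9, 5, 8, 1, 0, 2, 7, 4, 1, 0, 8, 8, 5, 6, 1, 6, 2, 7, 1, 9, 4], 4754, 73),
  ([5, 9, 1, 2, 8, 1, 7, 6, 1, 9, 2, 8, 4, 2, 5, 6, 0, 9, 3, 7, 4, 9, 2, 4, 8, 0, 3, 9, 0, 0, 8], 4828, 79),
  ([3, 6, 1, 4, 6, 7, 9, 2, 1, 2, 6, 8, 0, 3, 8, 9, 4, 7, 1, 9, 1, 5, 0, 8, 6, 9, 1, 8, 0, 3, 9], 4908, 80),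
  ([2, 1, 4, 8, 7, 3, 6, 8, 0, 2, 9, 5, 1, 9, 3, 7, 9, 9, 1, 2, 0, 5, 9, 7, 3, 7, 0, 0, 8, 1, 6], 4989, 76),
  ([4, 1, 2, 9, 6, 9, 0, 4, 1, 1, 8, 4, 7, 1, 8, 9, 0, 9, 1, 6, 8, 2, 6, 5, 3, 6, 8, 0, 0, 4, 9], 5066, 79),
  ([4, 0, 4, 9, 1, 5, 9, 9, 2, 6, 2, 1, 7, 3, 8, 9, 2, 9, 4, 0, 0, 6, 6, 1, 1, 8, 4, 8, 0, 9, 7], 5146, 83),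
  ([8, 4, 1, 9, 4, 3, 9, 3, 0, 7, 6, 1, 8, 2, 9, 3, 1, 5, 9, 2, 9, 0, 1, 3, 10, 0, 6, 6, 7, 0, 8], 5228, 82),
  ([3, 6, 9, 0, 4, 2, 8, 7, 9, 0, 9, 4, 3, 9, 1, 7, 1, 1, 8, 3, 6, 9, 0, 9, 0, 9, 4, 5, 1, 6, 0], 5311, 89),
  ([1, 9, 1, 5, 8, 0, 9, 2, 6, 2, 2, 9, 9, 1, 4, 0, 3, 10, 9, 6, 1, 9, 6, 1, 5, 5, 0, 7, 7, 2, 8], 5400, 86),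
  ([4, 0, 9, 3, 5, 1, 9, 7, 1, 5, 0, 7, 5, 10, 9, 0, 2, 1, 5, 9, 8, 0, 7, 9, 1, 3, 8, 2, 9, 4, 7], 5487, 89),
  ([0, 3, 8, 5, 5, 1, 8, 2, 9, 2, 7, 3, 9, 0, 1, 7, 10, 4, 9, 8, 0, 1, 4, 9, 9, 0, 3, 5, 7, 0, 8], 5576, 92),
  ([7, 3, 0, 7, 9, 9, 2, 3, 10, 2, 5, 1, 5, 9, 4, 8, 6, 4, 1, 0, 8, 0, 10, 0, 6, 9, 1, 9, 1, 5, 9], 5669, 91),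
  ([5, 0, 9, 1, 5, 10, 1, 10, 8, 3, 3, 9, 3, 1, 0, 7, 8, 4, 10, 6, 9, 2, 5, 0, 9, 5, 1, 7, 1, 8, 0], 5760, 95),
  ([4, 1, 10, 8, 2, 7, 1, 6, 0, 4, 10, 9, 1, 7, 2, 4, 0, 10, 2, 10, 0, 4, 8, 9, 1, 8, 5, 1, 6, 9, 6], 5856, 99),
  ([8, 5, 0, 9, 4, 1, 7, 10, 10, 3, 4, 2, 0, 7, 0, 6, 10, 4, 6, 0, 8, 7, 0, 1, 8, 9, 2, 9, 2, 0, 8], 5956, 99),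
  ([9, 1, 6, 0, 9, 10, 0, 7, 1, 2, 10, 5, 2, 10, 4, 3, 9, 1, 8, 5, 1, 5, 7, 0, 8, 9, 6, 3, 0, 2, 10], 6054, 104),
  ([8, 10, 4, 5, 9, 0, 7, 7, 2, 10, 1, 8, 2, 10, 5, 2, 5, 10, 10, 3, 0, 0, 6, 1, 0, 10, 0, 8, 8, 2, 3], 6159, 99),
  ([2, 8, 8, 1, 3, 10, 9, 0, 1, 10, 6, 10, 4, 8, 8, 1, 0, 3, 10, 8, 1, 2, 6, 10, 3, 5, 6, 0, 0, 10, 4], 6258, 104),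
  ([5, 3, 10, 10, 0, 8, 1, 5, 10, 3, 8, 6, 0, 7, 2, 7, 0, 0, 9, 10, 2, 10, 4, 9, 3, 7, 5, 1, 1, 0, 10], 6363, 106),
  ([3, 10, 0, 1, 7, 2, 5, 9, 4, 8, 10, 1, 10, 1, 11, 5, 8, 0, 7, 0, 9, 7, 3, 9, 0, 6, 2, 2, 9, 4, 10], 6470, 110),
  ([5, 10, 10, 3, 10, 8, 2, 5, 1, 9, 2, 5, 1, 3, 11, 0, 8, 10, 0, 7, 8, 0, 6, 10, 1, 3, 6, 8, 10, 1, 0], 6580, 111),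
  ([5, 10, 7, 1, 9, 8, 3, 10, 2, 5, 11, 0, 1, 10, 6, 1, 11, 4, 8, 0, 4, 9, 7, 0, 0, 0, 10, 2, 8, 3, 7], 6692, 113),
  ([0, 3, 7, 1, 10, 9, 6, 5, 0, 10, 7, 1, 2, 5, 2, 10, 3, 9, 3, 0, 10, 6, 9, 10, 0, 1, 10, 7, 1, 9, 8], 6806, 113),
  ([7, 6, 2, 10, 11, 4, 2, 11, 0, 11, 1, 5, 1, 10, 9, 1, 6, 5, 11, 0, 9, 1, 6, 2, 9, 7, 8, 3, 3, 10, 0], 6920, 122),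
  ([11, 0, 4, 10, 1, 10, 1, 11, 3, 4, 9, 2, 7, 5, 1, 9, 10, 0, 4, 6, 0, 8, 11, 2, 4, 10, 7, 2, 0, 7, 9], 7043, 125),
  ([5, 1, 11, 1, 1, 9, 10, 3, 7, 0, 10, 11, 2, 1, 3, 11, 6, 10, 8, 3, 9, 6, 4, 0, 11, 0, 1, 8, 9, 4, 5], 7169, 121),
  ([1, 8, 3, 6, 0, 2, 10, 11, 5, 8, 6, 1, 11, 0, 8, 1, 3, 10, 4, 2, 11, 0, 10, 7, 6, 9, 0, 11, 2, 9, 5], 7290, 129),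
  ([9, 0, 7, 11, 2, 1, 8, 0, 2, 11, 6, 10, 4, 9, 5, 10, 1, 0, 4, 7, 3, 11, 9, 1, 10, 8, 0, 5, 3, 11, 1], 7419, 131),
  ([0, 7, 2, 5, 9, 11, 2, 7, 11, 0, 6, 10, 11, 1, 4, 9, 5, 10, 0, 8, 1, 11, 3, 0, 0, 9, 11, 2, 3, 5, 8], 7551, 132),
  ([2, 4, 11, 12, 2, 11, 0, 0, 10, 11, 6, 8, 4, 6, 1, 11, 1, 7, 1, 10, 5, 2, 8, 7, 0, 9, 3, 3, 11, 9, 1], 7684, 131),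
  ([0, 9, 2, 11, 9, 5, 11, 2, 7, 11, 3, 1, 10, 6, 2, 5, 0, 11, 7, 0, 11, 4, 0, 8, 10, 6, 4, 1, 11, 1, 10], 7815, 142),
  ([11, 0, 10, 1, 6, 8, 4, 10, 11, 1, 7, 11, 3, 2, 7, 5, 0, 9, 1, 9, 3, 0, 11, 4, 7, 0, 11, 10, 1, 3, 11], 7958, 143),
  ([10, 11, 0, 3, 11, 0, 8, 4, 10, 2, 5, 12, 3, 12, 7, 6, 11, 0, 9, 1, 4, 1, 11, 7, 1, 0, 5, 9, 1, 10, 4], 8102, 144),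
  ([5, 10, 12, 0, 3, 12, 8, 0, 5, 2, 11, 3, 11, 9, 1, 8, 1, 12, 6, 0, 9, 3, 11, 6, 5, 9, 2, 11, 0, 1, 4], 8246, 148),
  ([2, 7, 10, 1, 9, 0, 11, 7, 10, 0, 7, 5, 0, 2, 1, 10, 4, 12, 0, 10, 3, 12, 5, 1, 10, 8, 11, 2, 6, 11, 3], 8395, 145),
  ([5, 9, 1, 1, 12, 12, 5, 1, 4, 0, 7, 12, 10, 11, 0, 7, 6, 4, 8, 3, 11, 1, 5, 10, 0, 11, 2, 3, 9, 0, 11], 8541, 149),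
  ([11, 3, 12, 0, 8, 2, 1, 12, 11, 3, 7, 4, 11, 0, 2, 9, 2, 11, 4, 7, 0, 8, 10, 0, 6, 9, 0, 5, 10, 12, 2], 8691, 158),
  ([7, 1, 12, 9, 2, 7, 1, 11, 12, 0, 9, 4, 12, 10, 2, 3, 12, 1, 7, 4, 10, 0, 0, 11, 0, 5, 12, 5, 3, 8, 9], 8850, 161),
  ([11, 4, 0, 12, 13, 0, 12, 4, 7, 7, 10, 1, 12, 11, 0, 5, 11, 4, 2, 1, 9, 7, 8, 10, 2, 11, 3, 9, 0, 0, 6], 9011, 155),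
  ([9, 6, 12, 8, 12, 0, 11, 7, 0, 1, 9, 10, 2, 6, 12, 0, 11, 0, 9, 7, 6, 4, 4, 12, 1, 0, 11, 2, 1, 12, 3], 9167, 163),
  ([1, 8, 10, 2, 12, 2, 12, 1, 4, 12, 8, 0, 11, 0, 6, 10, 1, 13, 6, 9, 11, 4, 0, 9, 12, 6, 5, 0, 11, 4, 2], 9331, 171),
  ([12, 7, 6, 2, 1, 13, 1, 12, 10, 0, 3, 11, 8, 5, 7, 12, 0, 0, 13, 9, 3, 10, 5, 2, 8, 12, 3, 11, 9, 2, 0], 9503, 174),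
  ([7, 5, 0, 2, 12, 8, 1, 12, 1, 10, 3, 7, 11, 1, 12, 9, 1, 0, 7, 3, 12, 12, 2, 3, 10, 12, 0, 3, 9, 8, 12], 9678, 176)]

theorem ct31_15_ok : Raw.runR 31 9855 ct31_15 4608 = true := by decide +kernel

end Pool.Agent.Wil
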