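import Mathlib
import Pool.Agent.Wil.Rep
import Pool.Agent.Wil.Aut
import Pool.Agent.Wil.Main

set_option autoImplicit false

/-! Normal alternating factors can be removed. -/

namespace Pool.Agent.Wil

open Real

-- BEGIN asym_three
/-- PROOF. As `asym_two` (Asym.lean): `choose_k` at `N - 2`, so `n κ + 2 ≤ N`, `A κ² ≤ 2 N`, `N - n κ ≤ C' √N + 2`; `fact_ratio`;
`(C' √N + 2) log N ≤ (c' - c) N` for large `N`. -/
theorem asym_three (n : ℕ → ℕ) (A C c c' : ℝ) (hA : 0 < A) (hC : 0 ≤ C) (hc0 : 0 ≤ c)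
    (hn : ∀ k : ℕ, |2 * (n k : ℝ) - A * (k : ℝ) ^ 2| ≤ C * k) (hc : c < c') (K : ℕ) :
    ∃ N0 : ℕ, ∀ N ≥ N0, ∃ κ ≥ K, n κ + 2 ≤ N ∧
      log (N.factorial : ℝ) - c' * N ≤
        log ((n κ).factorial : ℝ) - c * (A / 2) * (κ : ℝ) ^ 2 := by
  obtain ⟨C', N1, hN1⟩ := choose_k n A C hA hC hn K
  have habs := abs_nonneg C'
  have hε : 0 < (c' - c) / (|C'| + 2) := div_pos (by linarith) (by linarith)
  have h1 := (isLittleO_log_rpow_atTop (r := 1 / 2) (by norm_num)).def hε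
  obtain ⟨x0, hx0⟩ := Filter.eventually_atTop.1 h1
  obtain ⟨N2, hN2⟩ := exists_nat_ge x0
  refine ⟨max (N1 + 2) (max N2 3), fun N hN => ?_⟩
  have hNa : N1 + 2 ≤ N := (le_max_left _ _).trans hN
  have hNb : N2 ≤ N := ((le_max_left _ _).trans (le_max_right _ _)).trans hN
  have hNc : 3 ≤ N := ((le_max_right _ _).trans (le_max_right _ _)).trans hN
  obtain ⟨k, hkK, hk1, hk2, hk3⟩ := hN1 (N - 2) (by omega)
  have hNr : (3 : ℝ) ≤ N := by exact_mod_cast hNc
  have e2 : ((N - 2 : ℕ) : ℝ) = (N : ℝ) - 2 := by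
    rw [Nat.cast_sub (by omega)]
    norm_num
  rw [e2] at hk2 hk3
  refine ⟨k, hkK, by omega, ?_⟩
  have h2 := hx0 N (hN2.trans (by exact_mod_cast hNb))
  have hlog : 0 ≤ log (N : ℝ) := Real.log_nonneg (by linarith)
  rw [Real.norm_of_nonneg hlog, Real.norm_of_nonneg (by positivity), ← Real.sqrt_eq_rpow] at h2
  have hs : 0 ≤ √(N : ℝ) := Real.sqrt_nonneg _
  have hs1 : 1 ≤ √(N : ℝ) := by
    rw [Real.one_le_sqrt]
    linarith
  have hss : √(N : ℝ) * √(N : ℝ) = N := Real.mul_self_sqrt (by linarith)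
  have hmono : √((N : ℝ) - 2) ≤ √(N : ℝ) := Real.sqrt_le_sqrt (by linarith)
  have hdiff : (N : ℝ) - n k ≤ (|C'| + 2) * √(N : ℝ) := by
    have a1 : C' * √((N : ℝ) - 2) ≤ |C'| * √(N : ℝ) :=
      (mul_le_mul_of_nonneg_right (le_abs_self C') (Real.sqrt_nonneg _)).trans
        (mul_le_mul_of_nonneg_left hmono habs)
    linarith
  have h3 : (|C'| + 2) * √(N : ℝ) * log N ≤ (c' - c) * N := by
    have h5 : (|C'| + 2) * √(N : ℝ) * log N ≤
        (|C'| + 2) * √(N : ℝ) * ((c' - c) / (|C'| + 2) * √(N : ℝ)) :=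
      mul_le_mul_of_nonneg_left h2 (by positivity)
    have h7 : (|C'| + 2) * √(N : ℝ) * ((c' - c) / (|C'| + 2) * √(N : ℝ)) =
        (c' - c) * (√(N : ℝ) * √(N : ℝ)) := by
      have h8 : |C'| + 2 ≠ 0 := by linarith
      field_simp
    rw [h7, hss] at h5
    exact h5
  have h4 := fact_ratio (n k) N (by omega)
  have h7 : ((N : ℝ) - n k) * log N ≤ (|C'| + 2) * √(N : ℝ) * log N :=
    mul_le_mul_of_nonneg_right hdiff hlog
  have h8 : c * (A / 2) * (k : ℝ) ^ 2 ≤ c * N := by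
    have : c * (A * (k : ℝ) ^ 2) ≤ c * (2 * N) := mul_le_mul_of_nonneg_left (by linarith) hc0
    linarith
  linarith
-- END asym_three

-- BEGIN main_rep
/-- PROOF. The proof of `main_log` in Main.lean with `core_rep` instead of `core_main` and `asym_three` instead of `asym_two`: for large `N` there is `κ ≥ K` with
`n κ + 2 ≤ N` and `log N! - N / p³ ≤ log (n κ)! - c p² κ² ≤ 2 log f`; exponentiate. -/
theorem main_rep (p : ℕ) [Fact p.Prime] :
    ∃ n0 : ℕ, ∀ N ≥ n0, ∃ m f : ℕ, m + 2 ≤ N ∧ RepGe p m f ∧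
      (N.factorial : ℝ) * exp (-(N : ℝ) / (p : ℝ) ^ 3) ≤ (f : ℝ) ^ 2 := by
  classical
  have hp : p.Prime := Fact.out
  have hp2 : 2 ≤ p := hp.two_le
  have hp0 : 0 < p := hp.pos
  have hpr : (2 : ℝ) ≤ (p : ℝ) := by exact_mod_cast hp2
  choose n f hn1 hn2 hrep hf0 hn3 using fun κ : ℕ =>
    core_rep (p := p) (fun i : Fin p => ⌊(κ : ℝ) * (2 + xx p i)⌋₊)
  set D : Fin p → Fin p → ℕ → ℕ := fun i j κ =>
    ⌊(κ : ℝ) * (2 + xx p i)⌋₊ - ⌊(κ : ℝ) * (2 + xx p j)⌋₊ with hDdef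
  set δ : Fin p → Fin p → ℝ := fun i j => max (xx p i - xx p j) 0 with hδdef
  have hxx : ∀ i : ℕ, 0 ≤ 2 + xx p i := by
    intro i
    have := neg_one_le_cos (π * (2 * i + 1) / (2 * p))
    simp only [xx]; linarith
  have hδ : ∀ i j, 0 ≤ δ i j := fun i j => le_max_right _ _
  have hD0 : ∀ i j, D i j 0 = 0 := by
    intro i j; simp [hDdef]
  have hD : ∀ i j, ∀ κ : ℕ, |(D i j κ : ℝ) - κ * δ i j| ≤ 1 := by
    intro i j κ
    have h := floor_diff ((κ : ℝ) * (2 + xx p i)) ((κ : ℝ) * (2 + xx p j))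
      (mul_nonneg (Nat.cast_nonneg _) (hxx i)) (mul_nonneg (Nat.cast_nonneg _) (hxx j))
    have e : max ((κ : ℝ) * (2 + xx p i) - (κ : ℝ) * (2 + xx p j)) 0 =
        κ * max (xx p i - xx p j) 0 := by
      rw [mul_max_of_nonneg _ _ (Nat.cast_nonneg κ), mul_zero]
      congr 1; ring
    rw [e] at h
    exact h
  have hA : ∑ i, ∑ j, δ i j ^ 2 = 2 * (p : ℝ) ^ 2 := A_eq p hp2
  have hS := S_le p hp2
  have hApos : 0 < ∑ i, ∑ j, δ i j ^ 2 := by rw [hA]; positivity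
  have h1 : ∀ κ, ∑ i, ∑ j, (D i j κ : ℝ) * ((D i j κ : ℝ) - 1) ≤ 2 * (n κ : ℝ) := hn1
  have h2 : ∀ κ, 2 * (n κ : ℝ) ≤ ∑ i, ∑ j, (D i j κ : ℝ) * ((D i j κ : ℝ) + 1) := hn2
  -- constants
  set c0 : ℝ := 5 / (2 * (p : ℝ) * (4 * (p : ℝ) ^ 2 - 1)) with hc0
  have h4 : 0 < 4 * (p : ℝ) ^ 2 - 1 := by nlinarith
  have hc0pos : 0 < c0 := by rw [hc0]; positivity
  have hc0lt : c0 < 1 / (p : ℝ) ^ 3 := by
    rw [hc0, div_lt_div_iff₀ (by positivity) (by positivity)]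
    nlinarith [mul_pos (show (0:ℝ) < p by linarith) (show (0:ℝ) < 3 * (p:ℝ)^2 - 2 by nlinarith)]
  set c : ℝ := (c0 + 1 / (p : ℝ) ^ 3) / 2 with hc
  have hc_lt : c < 1 / (p : ℝ) ^ 3 := by rw [hc]; linarith
  have hc_gt : c0 < c := by rw [hc]; linarith
  set η : ℝ := (p : ℝ) ^ 2 * (c - c0) with hηdef
  have hη : 0 < η := by rw [hηdef]; exact mul_pos (by positivity) (by linarith)
  obtain ⟨K, hK⟩ := asym_one p hp0 D δ hδ hApos hD0 hD n h1 h2 η hη
  obtain ⟨C, hC0, hC1, hC2⟩ := D_bounds D δ hδ hD0 hD n h1 h2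
  rw [hA] at hC1
  have hconst : ((∑ i, ∑ j, δ i j ^ 2 * (log p - 3 / 2 + log (δ i j))) -
        (∑ i, ∑ j, δ i j ^ 2) / 2 * (log ((∑ i, ∑ j, δ i j ^ 2) / 2) - 1) + η) ≤
      c * (p : ℝ) ^ 2 := by
    have e1 : (∑ i, ∑ j, δ i j ^ 2 * (log p - 3 / 2 + log (δ i j))) =
        (log p - 3 / 2) * (∑ i, ∑ j, δ i j ^ 2) + ∑ i, ∑ j, δ i j ^ 2 * log (δ i j) := by
      rw [Finset.mul_sum, ← Finset.sum_add_distrib]
      refine Finset.sum_congr rfl fun i _ => ?_
      rw [Finset.mul_sum, ← Finset.sum_add_distrib]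
      refine Finset.sum_congr rfl fun j _ => ?_
      ring
    have e2 : log (2 * (p : ℝ) ^ 2 / 2) = 2 * log p := by
      rw [show 2 * (p : ℝ) ^ 2 / 2 = (p : ℝ) ^ 2 by ring, log_pow]; norm_num
    have hS' : ∑ i, ∑ j, δ i j ^ 2 * log (δ i j) ≤
      2 * (p : ℝ) ^ 2 + 5 * p / (2 * (4 * (p : ℝ) ^ 2 - 1)) := hS
    rw [e1, hA, e2]
    have e3 : 5 * (p : ℝ) / (2 * (4 * (p : ℝ) ^ 2 - 1)) = (p : ℝ) ^ 2 * c0 := by
      rw [hc0]; field_simp
    rw [e3] at hS'
    rw [hηdef]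
    nlinarith [hS']
  obtain ⟨N0, hN0⟩ := asym_three n (2 * (p : ℝ) ^ 2) C c (1 / (p : ℝ) ^ 3) (by positivity) hC0
    (by linarith) hC1 hc_lt K
  refine ⟨N0, fun N hN => ?_⟩
  obtain ⟨κ, hκ, hnN, hlog⟩ := hN0 N hN
  refine ⟨n κ, f κ, hnN, hrep κ, ?_⟩
  have h5 := hK κ hκ
  have h6 : 2 * log ((n κ).factorial : ℝ) -
        2 * ∑ i, ∑ j, ∑ d ∈ Finset.range (D i j κ),
          ((D i j κ : ℝ) - d) * log ((p : ℝ) * ((d : ℝ) + 1)) ≤
      2 * log (f κ : ℝ) := hn3 κ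
  have h7 : c * (p : ℝ) ^ 2 * (κ : ℝ) ^ 2 = c * (2 * (p : ℝ) ^ 2 / 2) * (κ : ℝ) ^ 2 := by ring
  have h8 := mul_le_mul_of_nonneg_right hconst (sq_nonneg (κ : ℝ))
  have h9 := h5.trans h8
  rw [h7] at h9
  have h10 : log (N.factorial : ℝ) - 1 / (p : ℝ) ^ 3 * N ≤ 2 * log (f κ : ℝ) := by
    linarith
  have hfr : (0 : ℝ) < (f κ : ℝ) := by exact_mod_cast hf0 κ
  have hN1 : (0 : ℝ) < (N.factorial : ℝ) := by exact_mod_cast N.factorial_pos
  rw [← log_le_log_iff (by positivity) (by positivity), log_mul hN1.ne' (exp_ne_zero _), log_exp,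
    log_pow]
  have e : -(N : ℝ) / (p : ℝ) ^ 3 = - (1 / (p : ℝ) ^ 3 * N) := by ring
  rw [e]
  push_cast
  linarith
-- END main_rep

-- BEGIN one_step
/-- PROOF. `main_rep`, `exists_wrData` (`n ≥ 7`), `wreath_bound`: `(d ^ r) ^ 2 = (d ^ 2) ^ r ≥ (f ^ 2) ^ r`. -/
theorem one_step (p : ℕ) [Fact p.Prime] :
    ∃ n0 : ℕ, ∀ n ≥ n0, ∀ r : ℕ, ∀ (k : Type) [Field k] [CharP k p] (G : Type) [Group G] [Finite G]
      (N : Subgroup G) [N.Normal], Nonempty (N ≃* (Fin r → alternatingGroup (Fin n))) →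
      ((n.factorial : ℝ) * exp (-(n : ℝ) / (p : ℝ) ^ 3)) ^ r * (ssDim k (G ⧸ N) : ℝ) ≤
        (ssDim k G : ℝ) := by
  obtain ⟨n0, h0⟩ := main_rep p
  refine ⟨max n0 7, fun n hn r k _ _ G _ _ N _ hN => ?_⟩
  obtain ⟨e⟩ := hN
  obtain ⟨m, f, hm, hrep, hf⟩ := h0 n (le_trans (le_max_left _ _) hn)
  obtain ⟨W⟩ := exists_wrData N (le_trans (le_max_right _ _) hn) e
  obtain ⟨d, hfd, hk⟩ := hrep
  obtain ⟨ρ, hρ⟩ := hk k
  have h1 := wreath_bound W m hm ρ hρ
  have h2 : ((n.factorial : ℝ) * exp (-(n : ℝ) / (p : ℝ) ^ 3)) ^ r ≤ (((d ^ r) ^ 2 : ℕ) : ℝ) := by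
    have h3 : (f : ℝ) ^ 2 ≤ (d : ℝ) ^ 2 := by
      have : (f : ℝ) ≤ d := by exact_mod_cast hfd
      exact pow_le_pow_left₀ (Nat.cast_nonneg f) this 2
    calc ((n.factorial : ℝ) * exp (-(n : ℝ) / (p : ℝ) ^ 3)) ^ r ≤ ((d : ℝ) ^ 2) ^ r := by
          apply pow_le_pow_left₀ (by positivity) (hf.trans h3)
      _ = (((d ^ r) ^ 2 : ℕ) : ℝ) := by push_cast; rw [← pow_mul, ← pow_mul, mul_comm]
  calc ((n.factorial : ℝ) * exp (-(n : ℝ) / (p : ℝ) ^ 3)) ^ r * (ssDim k (G ⧸ N) : ℝ)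
      ≤ (((d ^ r) ^ 2 : ℕ) : ℝ) * (ssDim k (G ⧸ N) : ℝ) := by
        apply mul_le_mul_of_nonneg_right h2 (Nat.cast_nonneg _)
    _ ≤ (ssDim k G : ℝ) := by exact_mod_cast h1
-- END one_step

-- BEGIN one_step_part
private lemma one_step_part_pow (p a r : ℕ) : pPrimePart p (a ^ r) = pPrimePart p a ^ r := by
  induction r with
  | zero =>
    rw [pow_zero, pow_zero]
    unfold pPrimePart
    rw [Nat.factorization_one]
    simp
  | succ r ih => rw [pow_succ, pow_succ, pPrimePart_mul, ih]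

/-- PROOF. `one_step`, `val_bound`: `pPrimePart p |N| = (pPrimePart p |A_n|) ^ r ≤ (pPrimePart p n!) ^ r ≤ (n! exp(-n/p³)) ^ r`
(`pPrimePart_mul`; `|A_n| * 2 = n!`). -/
theorem one_step_part (p : ℕ) [Fact p.Prime] :
    ∃ n0 : ℕ, ∀ n ≥ n0, ∀ r : ℕ, ∀ (k : Type) [Field k] [CharP k p] (G : Type) [Group G] [Finite G]
      (N : Subgroup G) [N.Normal], Nonempty (N ≃* (Fin r → alternatingGroup (Fin n))) →
      pPrimePart p (Nat.card N) * ssDim k (G ⧸ N) ≤ ssDim k G := by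
  obtain ⟨n1, h1⟩ := one_step p
  obtain ⟨n2, h2⟩ := val_bound p (Fact.out)
  refine ⟨max (max n1 n2) 2, ?_⟩
  intro n hn r k _ _ G _ _ N _ hN
  have hn1 : n1 ≤ n := le_trans (le_trans (le_max_left _ _) (le_max_left _ _)) hn
  have hn2 : n2 ≤ n := le_trans (le_trans (le_max_right _ _) (le_max_left _ _)) hn
  have hn3 : 2 ≤ n := le_trans (le_max_right _ _) hn
  have h3 := h1 n hn1 r k G N hN
  obtain ⟨e⟩ := hN
  have : Nontrivial (Fin n) := Fin.nontrivial_iff_two_le.2 hn3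
  have h4 : 2 * Nat.card (alternatingGroup (Fin n)) = n.factorial := by
    rw [Nat.card_eq_fintype_card, two_mul_card_alternatingGroup, Fintype.card_perm,
      Fintype.card_fin]
  have h5 : pPrimePart p (Nat.card (alternatingGroup (Fin n))) ≤ pPrimePart p n.factorial := by
    rw [← h4, pPrimePart_mul]
    exact Nat.le_mul_of_pos_left _ (pPrimePart_pos p (by norm_num))
  have h6 : Nat.card N = Nat.card (alternatingGroup (Fin n)) ^ r := by
    rw [Nat.card_congr e.toEquiv, Nat.card_fun, Nat.card_eq_fintype_card (α := Fin r),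
      Fintype.card_fin]
  have h7 : (pPrimePart p (Nat.card (alternatingGroup (Fin n))) : ℝ) ≤
      (n.factorial : ℝ) * exp (-(n : ℝ) / (p : ℝ) ^ 3) := by
    have h8 : (pPrimePart p (Nat.card (alternatingGroup (Fin n))) : ℝ) ≤
        (pPrimePart p n.factorial : ℝ) := by exact_mod_cast h5
    have h9 := h2 n hn2
    have h10 : (0 : ℝ) ≤ (pPrimePart p n.factorial : ℝ) := Nat.cast_nonneg _
    linarith
  have h8 : ((pPrimePart p (Nat.card N) * ssDim k (G ⧸ N) : ℕ) : ℝ) ≤ (ssDim k G : ℝ) := by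
    refine le_trans ?_ h3
    rw [h6, one_step_part_pow, Nat.cast_mul, Nat.cast_pow]
    exact mul_le_mul_of_nonneg_right (pow_le_pow_left₀ (Nat.cast_nonneg _) h7 r)
      (Nat.cast_nonneg _)
  exact_mod_cast h8
-- END one_step_part

/-- `M` has a series of normal subgroups of `G` from `1` to `M` all of whose factors are direct powers of
alternating groups of degrees at least `n0`. -/
inductive AltSeries (n0 : ℕ) {G : Type} [Group G] : Subgroup G → Prop
  | bot : AltSeries n0 ⊥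
  | step (K M : Subgroup G) (hK : K.Normal) (hM : M.Normal) (hKM : K ≤ M) (n r : ℕ) (hn : n0 ≤ n)
      (e : Nonempty ((M.map (QuotientGroup.mk' K)) ≃* (Fin r → alternatingGroup (Fin n))))
      (h : AltSeries n0 K) : AltSeries n0 M

-- BEGIN series_step
/-- PROOF. `Subgroup.card_mul_index`/`Subgroup.card_eq_card_quotient_mul_card_subgroup`: `|M| = |K| |M/K|`. -/
theorem series_card {G : Type} [Group G] [Finite G] (K M : Subgroup G) [K.Normal] (h : K ≤ M) :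
    Nat.card M = Nat.card K * Nat.card (M.map (QuotientGroup.mk' K)) := by
  set φ : M →* G ⧸ K := (QuotientGroup.mk' K).comp M.subtype with hφ
  have h1 := Subgroup.card_eq_card_quotient_mul_card_subgroup φ.ker
  have h2 : Nat.card (M ⧸ φ.ker) = Nat.card (M.map (QuotientGroup.mk' K)) := by
    rw [Nat.card_congr (QuotientGroup.quotientKerEquivRange φ).toEquiv]
    have h3 : φ.range = M.map (QuotientGroup.mk' K) := by
      rw [hφ, MonoidHom.range_comp, Subgroup.range_subtype]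
    rw [h3]
  have h4 : φ.ker = K.subgroupOf M := by
    ext x
    rw [MonoidHom.mem_ker, hφ, MonoidHom.comp_apply, QuotientGroup.mk'_apply,
      QuotientGroup.eq_one_iff, Subgroup.mem_subgroupOf]
    rfl
  rw [h2, h4, Nat.card_congr (Subgroup.subgroupOfEquivOfLe h).toEquiv] at h1
  rw [h1, mul_comm]

/-- PROOF. Third isomorphism theorem `QuotientGroup.quotientQuotientEquivQuotient`, `ssDim_congr`. -/
theorem series_quot {k : Type} [Field k] {G : Type} [Group G] [Finite G] (K M : Subgroup G)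
    [K.Normal] [M.Normal] (h : K ≤ M) :
    ssDim k ((G ⧸ K) ⧸ (M.map (QuotientGroup.mk' K))) = ssDim k (G ⧸ M) :=
  ssDim_congr (QuotientGroup.quotientQuotientEquivQuotient K M h)
-- END series_step

-- BEGIN series_bound_alt
/-- PROOF. Induction on `AltSeries`; step: `one_step_part` for `G ⧸ K` and `M.map (mk' K)`, `series_card`, `series_quot`. -/
theorem series_bound_alt (p : ℕ) [Fact p.Prime] :
    ∃ n0 : ℕ, ∀ (k : Type) [Field k] [CharP k p] (G : Type) [Group G] [Finite G]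
      (M : Subgroup G) [M.Normal], AltSeries n0 M →
      pPrimePart p (Nat.card M) * ssDim k (G ⧸ M) ≤ ssDim k G := by
  obtain ⟨n0, hn0⟩ := one_step_part p
  refine ⟨n0, ?_⟩
  intro k _ _ G _ _
  have key : ∀ M : Subgroup G, AltSeries n0 M → ∀ _ : M.Normal,
      pPrimePart p (Nat.card M) * ssDim k (G ⧸ M) ≤ ssDim k G := by
    intro M h
    induction h with
    | bot =>
      intro hM
      have h1 : pPrimePart p (Nat.card (⊥ : Subgroup G)) = 1 := by
        rw [Subgroup.card_bot]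
        unfold pPrimePart
        rw [Nat.factorization_one]
        simp
      rw [h1, one_mul]
      exact ssDim_le_of_surjective (QuotientGroup.mk' (⊥ : Subgroup G))
        (QuotientGroup.mk'_surjective _)
    | step K M hK hM' hKM n r hn e h ih =>
      intro hM
      have h1 := ih hK
      have h2 := hn0 n hn r k (G ⧸ K) (M.map (QuotientGroup.mk' K)) e
      have h3 := series_quot (k := k) K M hKM
      have h4 := series_card K M hKM
      calc pPrimePart p (Nat.card M) * ssDim k (G ⧸ M)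
          = pPrimePart p (Nat.card K) * (pPrimePart p (Nat.card (M.map (QuotientGroup.mk' K))) *
              ssDim k ((G ⧸ K) ⧸ (M.map (QuotientGroup.mk' K)))) := by
            rw [h4, pPrimePart_mul, h3, mul_assoc]
        _ ≤ pPrimePart p (Nat.card K) * ssDim k (G ⧸ K) := Nat.mul_le_mul_left _ h2
        _ ≤ ssDim k G := h1
  intro M hM h
  exact key M h hM
-- END series_bound_alt

-- BEGIN hall_top
/-- PROOF. `ssDim_ge_card`: `|H| = |G/M|_{p'}` is prime to `p`. Multiply (`pPrimePart_mul`, `|G| = |G/M| |M|`). -/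
theorem hall_top {p : ℕ} [Fact p.Prime] {k : Type} [Field k] [CharP k p] {G : Type} [Group G]
    [Finite G] (M : Subgroup G) [M.Normal]
    (h : pPrimePart p (Nat.card M) * ssDim k (G ⧸ M) ≤ ssDim k G) (H : Subgroup (G ⧸ M))
    (hH : Nat.card H = pPrimePart p (Nat.card (G ⧸ M))) :
    pPrimePart p (Nat.card G) ≤ ssDim k G := by
  have hp : p.Prime := Fact.out
  have h1 : ¬ p ∣ Nat.card H := by
    rw [hH]
    exact Nat.not_dvd_ordCompl hp Nat.card_pos.ne'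
  have h2 : Nat.card H ≤ ssDim k (G ⧸ M) := ssDim_ge_card H h1
  have h3 := Subgroup.card_eq_card_quotient_mul_card_subgroup M
  rw [h3, pPrimePart_mul, ← hH, mul_comm]
  exact (Nat.mul_le_mul_left _ h2).trans h
-- END hall_top

end Pool.Agent.Wil
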