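import Mathlib
import Pool.Agent.Wil.Expl
import Pool.Agent.Wil.Fin

set_option autoImplicit false

/-! An explicit degree from which a symmetric group has one large module, for every prime. The cores are those of Expl.lean with
`k ≥ 400 p⁴`. -/

namespace Pool.Agent.Wil

open Real

theorem expl2_log (p k : ℝ) (hp : 2 ≤ p) (hk : 400 * p ^ 4 ≤ k) :
    log p ≤ p - 1 ∧ 0 ≤ log p ∧ 0 ≤ log k ∧ log k ≤ 4 * log p + 5 + k / (400 * p ^ 4) ∧
      log (4 * k + 1) ≤ 4 * log p + 7 + k / (400 * p ^ 4) := by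
  have hp0 : 0 < p := by linarith
  have hp4 : 16 ≤ p ^ 4 := by
    have h2 : 4 ≤ p ^ 2 := by nlinarith
    nlinarith
  have hk1 : 6400 ≤ k := by linarith
  have hk0 : 0 < k := by linarith
  have hκ : 0 < k / (400 * p ^ 4) := by positivity
  have hκ1 : 1 ≤ k / (400 * p ^ 4) := by
    rw [le_div_iff₀ (by positivity)]
    linarith
  have e1 : (2.7 : ℝ) ≤ exp 1 := by
    have := exp_one_gt_d9
    linarith
  have e6 : (400 : ℝ) ≤ exp 6 * (1 + 1 / 30) := by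
    have h : exp 6 = exp 1 ^ 6 := by
      rw [← exp_nat_mul]
      norm_num
    rw [h]
    have h1 : (2.7 : ℝ) ^ 6 ≤ exp 1 ^ 6 := pow_le_pow_left₀ (by norm_num) e1 6
    norm_num at h1 ⊢
    linarith
  have e6' : (400 : ℝ) ≤ exp 6 := by
    have h : exp 6 = exp 1 ^ 6 := by
      rw [← exp_nat_mul]
      norm_num
    rw [h]
    have e2 : (2.718 : ℝ) ≤ exp 1 := by
      have := exp_one_gt_d9
      linarith
    have h1 : (2.718 : ℝ) ^ 6 ≤ exp 1 ^ 6 := pow_le_pow_left₀ (by norm_num) e2 6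
    norm_num at h1 ⊢
    linarith
  have e8 : (1601 : ℝ) ≤ exp 8 := by
    have h : exp 8 = exp 1 ^ 8 := by
      rw [← exp_nat_mul]
      norm_num
    rw [h]
    have h1 : (2.7 : ℝ) ^ 8 ≤ exp 1 ^ 8 := pow_le_pow_left₀ (by norm_num) e1 8
    norm_num at h1 ⊢
    linarith
  have l400 : log 400 ≤ 6 := by
    rw [← log_exp 6]
    exact log_le_log (by norm_num) e6'
  have l1601 : log 1601 ≤ 8 := by
    rw [← log_exp 8]
    exact log_le_log (by norm_num) e8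
  have hkk : k = 400 * p ^ 4 * (k / (400 * p ^ 4)) := by
    field_simp
  have hlk : log k = log 400 + 4 * log p + log (k / (400 * p ^ 4)) := by
    conv_lhs => rw [hkk]
    rw [log_mul (by positivity) (by positivity), log_mul (by positivity) (by positivity), log_pow]
    push_cast
    ring
  have hlκ : log (k / (400 * p ^ 4)) ≤ k / (400 * p ^ 4) - 1 := log_le_sub_one_of_pos hκ
  refine ⟨log_le_sub_one_of_pos hp0, log_nonneg (by linarith), log_nonneg (by linarith), by linarith, ?_⟩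
  have h4 : 4 * k + 1 ≤ 1601 * p ^ 4 * (k / (400 * p ^ 4)) := by
    have : 1601 * p ^ 4 * (k / (400 * p ^ 4)) = 1601 / 400 * k := by
      field_simp
    rw [this]
    linarith
  have h5 := log_le_log (by linarith) h4
  rw [log_mul (by positivity) (by positivity), log_mul (by positivity) (by positivity), log_pow] at h5
  push_cast at h5
  linarith

theorem expl2_fin (p k : ℝ) (hp : 2 ≤ p) (hk : 400 * p ^ 4 ≤ k) :
    2 * (3 / 2 * k * p ^ 2 + p ^ 2) * (log p + log k) + 2 * (3 / 2 * k * p ^ 2 + p ^ 2) * log p +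
      p ^ 2 / 2 * ((4 * k + 1) * (2 * log (4 * k + 1) + 1)) + 3 / 2 * (2 * k * p ^ 2 + p ^ 2) +
      2 * (k * p ^ 2 + p ^ 2) + 6 * k * p ^ 2 * (2 * (log p + log k) + 1) +
      (3 / 2 * k * p ^ 2 + p ^ 2) / p ^ 3 + k ^ 2 * (5 * p / (2 * (4 * p ^ 2 - 1))) ≤ k ^ 2 / p := by
  obtain ⟨hu1, hu0, hL0, hL, hM⟩ := expl2_log p k hp hk
  have hp0 : 0 < p := by linarith
  have hp2 : 4 ≤ p ^ 2 := by nlinarith
  have hp4 : 16 ≤ p ^ 4 := by nlinarith
  have hk1 : 6400 ≤ k := by linarith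
  have hk0 : 0 < k := by linarith
  have hM0 : 0 ≤ log (4 * k + 1) := log_nonneg (by linarith)
  have hκ1 : 1 ≤ k / (400 * p ^ 4) := by
    rw [le_div_iff₀ (by positivity)]
    linarith
  obtain ⟨κ, hκ⟩ : ∃ κ : ℝ, κ = k / (400 * p ^ 4) := ⟨_, rfl⟩
  obtain ⟨u, hu⟩ : ∃ u : ℝ, u = log p := ⟨_, rfl⟩
  obtain ⟨L, hLd⟩ : ∃ L : ℝ, L = log k := ⟨_, rfl⟩
  obtain ⟨M, hMd⟩ : ∃ M : ℝ, M = log (4 * k + 1) := ⟨_, rfl⟩
  rw [← hκ] at hL hM hκ1
  rw [← hu] at hu1 hu0 hL hM ⊢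
  rw [← hLd] at hL0 hL ⊢
  rw [← hMd] at hM hM0 ⊢
  obtain ⟨P, hP⟩ : ∃ P : ℝ, P = p ^ 2 := ⟨_, rfl⟩
  obtain ⟨A, hA⟩ : ∃ A : ℝ, A = k * P := ⟨_, rfl⟩
  have hP0 : 0 < P := by linarith
  have hA0 : 0 < A := by
    rw [hA]
    positivity
  have hPA : 6400 * P ≤ A := by
    rw [hA]
    exact mul_le_mul_of_nonneg_right hk1 hP0.le
  obtain ⟨X, hX⟩ : ∃ X : ℝ, X = A * p * κ := ⟨_, rfl⟩
  have hAκ : A ≤ A * κ := le_mul_of_one_le_right hA0.le hκ1
  have hAκ0 : 0 ≤ A * κ := le_trans hA0.le hAκ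
  have hX1 : A * p ≤ X := by
    rw [hX]
    exact le_mul_of_one_le_right (by positivity) hκ1
  have hX2 : 2 * (A * κ) ≤ X := by
    have : X = p * (A * κ) := by
      rw [hX]
      ring
    rw [this]
    exact mul_le_mul_of_nonneg_right hp hAκ0
  have hAu : A * u ≤ A * p - A := by
    calc A * u ≤ A * (p - 1) := mul_le_mul_of_nonneg_left hu1 hA0.le
      _ = A * p - A := by ring
  have hAu0 : 0 ≤ A * u := mul_nonneg hA0.le hu0
  have hAL : A * L ≤ 4 * (A * u) + 5 * A + A * κ := by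
    calc A * L ≤ A * (4 * u + 5 + κ) := mul_le_mul_of_nonneg_left hL hA0.le
      _ = 4 * (A * u) + 5 * A + A * κ := by ring
  have hAM : A * M ≤ 4 * (A * u) + 7 * A + A * κ := by
    calc A * M ≤ A * (4 * u + 7 + κ) := mul_le_mul_of_nonneg_left hM hA0.le
      _ = 4 * (A * u) + 7 * A + A * κ := by ring
  have hAL0 : 0 ≤ A * L := mul_nonneg hA0.le hL0
  have hAM0 : 0 ≤ A * M := mul_nonneg hA0.le hM0
  have hPL : 6400 * (P * L) ≤ A * L := by
    calc 6400 * (P * L) = (6400 * P) * L := by ring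
      _ ≤ A * L := mul_le_mul_of_nonneg_right hPA hL0
  have hPM : 6400 * (P * M) ≤ A * M := by
    calc 6400 * (P * M) = (6400 * P) * M := by ring
      _ ≤ A * M := mul_le_mul_of_nonneg_right hPA hM0
  have hPu : 6400 * (P * u) ≤ A * u := by
    calc 6400 * (P * u) = (6400 * P) * u := by ring
      _ ≤ A * u := mul_le_mul_of_nonneg_right hPA hu0
  have hkX : k ^ 2 / p = 400 * X := by
    rw [hX, hA, hP, hκ]
    field_simp
  have h7 : (3 / 2 * k * p ^ 2 + p ^ 2) / p ^ 3 ≤ 3 / 2 * A + P := by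
    have e : 3 / 2 * k * p ^ 2 + p ^ 2 = 3 / 2 * A + P := by
      rw [hA, hP]
      ring
    rw [e]
    refine div_le_self (by positivity) ?_
    have : 1 ≤ p := by linarith
    exact one_le_pow₀ this
  have h9 : k ^ 2 * (5 * p / (2 * (4 * p ^ 2 - 1))) ≤ 2 / 3 * (k ^ 2 / p) := by
    have h35 : 0 < 4 * p ^ 2 - 1 := by linarith
    have e : 5 * p / (2 * (4 * p ^ 2 - 1)) ≤ 2 / 3 * (1 / p) := by
      rw [mul_one_div, div_le_div_iff₀ (by positivity) hp0]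
      nlinarith
    calc k ^ 2 * (5 * p / (2 * (4 * p ^ 2 - 1))) ≤ k ^ 2 * (2 / 3 * (1 / p)) :=
          mul_le_mul_of_nonneg_left e (by positivity)
      _ = 2 / 3 * (k ^ 2 / p) := by ring
  have t1 : 2 * (3 / 2 * k * p ^ 2 + p ^ 2) * (u + L) = 3 * (A * u) + 3 * (A * L) + 2 * (P * u) + 2 * (P * L) := by
    rw [hA, hP]
    ring
  have t2 : 2 * (3 / 2 * k * p ^ 2 + p ^ 2) * u = 3 * (A * u) + 2 * (P * u) := by
    rw [hA, hP]
    ring
  have t3 : p ^ 2 / 2 * ((4 * k + 1) * (2 * M + 1)) = 4 * (A * M) + 2 * A + P * M + P / 2 := by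
    rw [hA, hP]
    ring
  have t4 : 3 / 2 * (2 * k * p ^ 2 + p ^ 2) = 3 * A + 3 / 2 * P := by
    rw [hA, hP]
    ring
  have t5 : 2 * (k * p ^ 2 + p ^ 2) = 2 * A + 2 * P := by
    rw [hA, hP]
    ring
  have t6 : 6 * k * p ^ 2 * (2 * (u + L) + 1) = 12 * (A * u) + 12 * (A * L) + 6 * A := by
    rw [hA, hP]
    ring
  rw [hkX] at h9 ⊢
  rw [t1, t2, t3, t4, t5, t6]
  linarith

theorem expl2_num (p k n Q R E s : ℝ) (hp : 2 ≤ p) (hk : 400 * p ^ 4 ≤ k) (hn : n = (Q - R) / 2)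
    (hQ : |Q - 2 * p ^ 2 * k ^ 2| ≤ 2 * k * p ^ 2 + p ^ 2) (hR0 : 0 ≤ R) (hR : R ≤ k * p ^ 2 + p ^ 2)
    (hE : E ≤ 2 * p ^ 2 * k ^ 2 * log k + k ^ 2 * (2 * p ^ 2 + 5 * p / (2 * (4 * p ^ 2 - 1))) +
      p ^ 2 / 2 * ((4 * k + 1) * (2 * log (4 * k + 1) + 1)))
    (hs0 : 0 ≤ s) (hs : s ≤ 6 * k * p ^ 2) :
    s * log (n + s) + ((Q - R) * log p + E - 3 / 2 * Q + 2 * R) ≤ n * log n - n + n / p ^ 3 := by
  have hfin := expl2_fin p k hp hk
  have hp4 : 16 ≤ p ^ 4 := by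
    have h2 : 4 ≤ p ^ 2 := by nlinarith
    nlinarith
  have hk600 : 6400 ≤ k := by linarith
  have hp0 : (0 : ℝ) < p := by linarith
  have hk0 : (0 : ℝ) < k := by linarith
  have hP : 0 < log p := log_pos (by linarith)
  have hK : 0 < log k := log_pos (by linarith)
  obtain ⟨m, hm⟩ : ∃ m : ℝ, m = p ^ 2 * k ^ 2 := ⟨_, rfl⟩
  obtain ⟨e, he⟩ : ∃ e : ℝ, e = 3 / 2 * k * p ^ 2 + p ^ 2 := ⟨_, rfl⟩
  obtain ⟨L, hL⟩ : ∃ L : ℝ, L = 2 * (log p + log k) + 1 := ⟨_, rfl⟩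
  have hp2 : 0 < p ^ 2 := by positivity
  have hkp : 0 < k * p ^ 2 := by positivity
  have hQ' := abs_le.1 hQ
  have hnm : |n - m| ≤ e := by
    rw [abs_le, hn, hm, he]
    constructor
    · linarith [hQ'.1, hQ'.2]
    · linarith [hQ'.1, hQ'.2]
  have hnm' := abs_le.1 hnm
  have hmk : p ^ 2 * (7 * k + k / 2 + 1) ≤ p ^ 2 * k ^ 2 :=
    mul_le_mul_of_nonneg_left (by nlinarith) hp2.le
  have hem : e < m := by
    rw [he, hm]
    linarith
  have hn0 : 0 < n := by linarith [hnm'.1]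
  have hm1 : 1 ≤ m := by
    rw [hm]
    have hp9 : 4 ≤ p ^ 2 := by nlinarith
    nlinarith
  have hm0 : 0 < m := by linarith
  have hlogm : log m = 2 * (log p + log k) := by
    rw [hm, log_mul hp2.ne' (by positivity), log_pow, log_pow]
    push_cast
    ring
  have hlow := h_low n m e hn0 hm1 hnm
  have hns : n + s ≤ m * exp 1 := by
    have h1 : n + s ≤ 2 * m := by
      have h2 := hnm'.2
      rw [he] at h2
      rw [hm] at h2 ⊢
      linarith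
    have h3 : (2 : ℝ) ≤ exp 1 := by
      have := add_one_le_exp (1 : ℝ)
      linarith
    exact h1.trans (by rw [mul_comm]; exact mul_le_mul_of_nonneg_left h3 hm0.le)
  have hlns : log (n + s) ≤ L := by
    have h1 := log_le_log (by linarith : 0 < n + s) hns
    rw [log_mul hm0.ne' (exp_pos 1).ne', log_exp, hlogm] at h1
    rw [hL]
    exact h1
  have hL0 : 0 ≤ L := by
    rw [hL]
    linarith
  have t1 : s * log (n + s) ≤ 6 * k * p ^ 2 * L :=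
    (mul_le_mul_of_nonneg_left hlns hs0).trans (mul_le_mul_of_nonneg_right hs hL0)
  have t2 : (Q - R) * log p ≤ (2 * m + 2 * e) * log p :=
    mul_le_mul_of_nonneg_right (by linarith [hnm'.2]) hP.le
  have t3 : 2 * m - (2 * k * p ^ 2 + p ^ 2) ≤ Q := by
    rw [hm]
    linarith [hQ'.1]
  have t4 : (m - e) / p ^ 3 ≤ n / p ^ 3 :=
    div_le_div_of_nonneg_right (by linarith [hnm'.1]) (by positivity)
  have t6 : (m - e) / p ^ 3 = k ^ 2 / p - e / p ^ 3 := by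
    rw [hm]
    field_simp
  rw [← he, ← hL] at hfin
  rw [hlogm] at hlow
  obtain ⟨c, hc⟩ : ∃ c : ℝ, c = 5 * p / (2 * (4 * p ^ 2 - 1)) := ⟨_, rfl⟩
  obtain ⟨T, hT⟩ : ∃ T : ℝ, T = p ^ 2 / 2 * ((4 * k + 1) * (2 * log (4 * k + 1) + 1)) := ⟨_, rfl⟩
  rw [← hT, ← hc] at hfin hE
  have hE' : E ≤ 2 * m * log k + 2 * m + k ^ 2 * c + T := by
    rw [hm]
    linarith
  rw [t6] at t4
  linarith

theorem expl2_step (p k : ℕ) [Fact p.Prime] (hk : 400 * p ^ 4 ≤ k) (N : ℕ) (h1 : nk p k ≤ N)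
    (h2 : (N : ℝ) ≤ nk p k + 6 * k * (p : ℝ) ^ 2) :
    ∃ f : ℕ, RepGe p (nk p k) f ∧ (N.factorial : ℝ) * exp (-(N : ℝ) / (p : ℝ) ^ 3) ≤ (f : ℝ) ^ 2 := by
  have hpp : p.Prime := Fact.out
  have hp2 : 2 ≤ p := hpp.two_le
  have hp0' : 0 < p := by omega
  have hk1 : 1 ≤ k := by
    have : 0 < 400 * p ^ 4 := by positivity
    omega
  obtain ⟨f, hf, hr⟩ := core_one_rep (p := p) (hts p k)
  have hhk := hook_ub p k hp2
  have hnk := nk_eq p k
  have hQ := Q_near p k hp2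
  obtain ⟨hR0, hR⟩ := R_le p k hp2
  have hE := E_le p k hp2 hk1
  have hcard : (cells (beta (hts p k))).card = nk p k := rfl
  rw [hcard] at hf hr
  obtain ⟨n, hn⟩ : ∃ n, n = nk p k := ⟨_, rfl⟩
  obtain ⟨H, hH⟩ : ∃ H, H = ∏ z ∈ cells (beta (hts p k)), (z.1 - z.2) := ⟨_, rfl⟩
  rw [← hn] at hf hr h1 h2 hnk ⊢
  rw [← hH] at hf hhk
  refine ⟨f, hr, ?_⟩
  have hpR : (2 : ℝ) ≤ p := by exact_mod_cast hp2
  have hkR : 400 * (p : ℝ) ^ 4 ≤ k := by exact_mod_cast hk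
  obtain ⟨s, hs⟩ : ∃ s, N = n + s := ⟨N - n, by omega⟩
  rw [hs]
  have hlp : 0 < log (p : ℝ) := Real.log_pos (by exact_mod_cast hpp.one_lt)
  have hp0 : (0 : ℝ) < p := by exact_mod_cast hpp.pos
  have hHpos : 0 < H := by
    rcases Nat.eq_zero_or_pos H with h | h
    · rw [h, Nat.mul_zero] at hf
      exact absurd hf.symm (Nat.factorial_ne_zero n)
    · exact h
  have hfpos : 0 < f := by
    rcases Nat.eq_zero_or_pos f with h | h
    · rw [h, Nat.zero_mul] at hf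
      exact absurd hf.symm (Nat.factorial_ne_zero n)
    · exact h
  have hH0 : (0 : ℝ) < H := by exact_mod_cast hHpos
  have hf0 : (0 : ℝ) < f := by exact_mod_cast hfpos
  have hnf : (0 : ℝ) < n.factorial := by exact_mod_cast Nat.factorial_pos n
  have hsR : (s : ℝ) ≤ 6 * k * (p : ℝ) ^ 2 := by
    rw [hs] at h2
    push_cast at h2
    linarith
  have hnum := expl2_num (p : ℝ) (k : ℝ) (n : ℝ) (QQ p k) (RR p k) (EE p k) (s : ℝ) hpR hkR hnk hQ
    hR0 hR hE (Nat.cast_nonneg s) hsR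
  have hfac := log_fact_ge n
  have h7 : (n + s).factorial ≤ n.factorial * (n + s) ^ s := by
    rw [← Nat.factorial_mul_ascFactorial]
    exact Nat.mul_le_mul_left _ (Nat.ascFactorial_le_pow_add n s)
  have h8 : log (((n + s).factorial : ℕ) : ℝ) ≤ log (n.factorial : ℝ) + s * log ((n : ℝ) + s) := by
    have h9 : (((n + s).factorial : ℕ) : ℝ) ≤ (n.factorial : ℝ) * ((n : ℝ) + s) ^ s := by
      exact_mod_cast h7
    rcases Nat.eq_zero_or_pos s with h0 | h0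
    · rw [h0]
      simp
    · have hns : (0 : ℝ) < (n : ℝ) + s := by
        have : (0 : ℝ) < s := by exact_mod_cast h0
        have : (0 : ℝ) ≤ n := Nat.cast_nonneg n
        linarith
      have h10 := log_le_log (by exact_mod_cast Nat.factorial_pos (n + s)) h9
      rwa [log_mul hnf.ne' (by positivity), log_pow] at h10
  have hfl : log (f : ℝ) + log (H : ℝ) = log (n.factorial : ℝ) := by
    rw [← log_mul hf0.ne' hH0.ne']
    congr 1
    exact_mod_cast hf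
  have hNf : (0 : ℝ) < (((n + s).factorial : ℕ) : ℝ) := by
    exact_mod_cast Nat.factorial_pos (n + s)
  rw [← log_le_log_iff (by positivity) (by positivity), log_mul hNf.ne' (exp_ne_zero _), log_exp,
    log_pow]
  have hsp : (n : ℝ) / (p : ℝ) ^ 3 ≤ ((n + s : ℕ) : ℝ) / (p : ℝ) ^ 3 := by
    apply div_le_div_of_nonneg_right _ (by positivity)
    push_cast
    have : (0 : ℝ) ≤ s := Nat.cast_nonneg s
    linarith
  have e : -((n + s : ℕ) : ℝ) / (p : ℝ) ^ 3 = - (((n + s : ℕ) : ℝ) / (p : ℝ) ^ 3) := by ring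
  rw [e]
  push_cast at hsp ⊢
  linarith

/-- For `N ≥ (401 p⁵)²` the group algebra of a symmetric group of degree at most `N - 2` has a matrix algebra of size at least `f`
as a quotient, with `f² ≥ N! exp (- N / p³)`. -/
theorem main_rep_expl (p : ℕ) [Fact p.Prime] (N : ℕ) (hN : (401 * p ^ 5) ^ 2 ≤ N) :
    ∃ m f : ℕ, m + 2 ≤ N ∧ RepGe p m f ∧
      (N.factorial : ℝ) * exp (-(N : ℝ) / (p : ℝ) ^ 3) ≤ (f : ℝ) ^ 2 := by
  have hpp : p.Prime := Fact.out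
  have hp2' : 2 ≤ p := hpp.two_le
  have hp2 : 0 < p ^ 2 := by positivity
  have hp4 : 1 ≤ p ^ 4 := Nat.one_le_pow _ _ hpp.pos
  obtain ⟨r, hr⟩ : ∃ r, r = Nat.sqrt (N / p ^ 2) := ⟨_, rfl⟩
  have h401 : 401 * p ^ 4 ≤ r := by
    rw [hr, Nat.le_sqrt', Nat.le_div_iff_mul_le hp2]
    calc (401 * p ^ 4) ^ 2 * p ^ 2 = (401 * p ^ 5) ^ 2 := by ring
      _ ≤ N := hN
  have hr1 : r ^ 2 * p ^ 2 ≤ N := by
    rw [← Nat.le_div_iff_mul_le hp2, hr]
    exact Nat.sqrt_le' _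
  have hr2 : N < (r + 1) ^ 2 * p ^ 2 := by
    rw [← Nat.div_lt_iff_lt_mul hp2, hr]
    exact Nat.lt_succ_sqrt' _
  obtain ⟨k, rfl⟩ : ∃ k, r = k + 1 := ⟨r - 1, by omega⟩
  have hk : 400 * p ^ 4 ≤ k := by omega
  have hkr : (400 : ℝ) ≤ k := by
    have : 400 ≤ k := by omega
    exact_mod_cast this
  have hpr4 : (4 : ℝ) ≤ (p : ℝ) ^ 2 := by
    have : (2 : ℝ) ≤ p := by exact_mod_cast hp2'
    nlinarith
  have hpr : (0 : ℝ) < (p : ℝ) ^ 2 := by positivity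
  have a1 : ((k : ℝ) + 1) ^ 2 * (p : ℝ) ^ 2 ≤ N := by exact_mod_cast hr1
  have a2 : (N : ℝ) < ((k : ℝ) + 1 + 1) ^ 2 * (p : ℝ) ^ 2 := by exact_mod_cast hr2
  have b1 := abs_le.1 (Q_near p k (by omega))
  have b2 := R_le p k (by omega)
  have b3 := nk_eq p k
  obtain ⟨x, hx⟩ : ∃ x : ℝ, x = (p : ℝ) ^ 2 := ⟨_, rfl⟩
  rw [← hx] at a1 a2 b1 b2 hpr hpr4
  have hkx : 0 ≤ (k : ℝ) * x := by positivity
  have hkx2 : 400 * x ≤ (k : ℝ) * x := mul_le_mul_of_nonneg_right hkr hpr.le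
  have c1 : (nk p k : ℝ) + 2 ≤ N := by
    rw [b3]
    nlinarith [b1.2, b2.1]
  have c2 : nk p k + 2 ≤ N := by exact_mod_cast c1
  have c3 : (N : ℝ) ≤ nk p k + 6 * k * (p : ℝ) ^ 2 := by
    rw [b3, ← hx]
    nlinarith [b1.1, b2.2]
  obtain ⟨f, hf1, hf2⟩ := expl2_step p k hk N (by omega) c3
  exact ⟨nk p k, f, c2, hf1, hf2⟩

end Pool.Agent.Wil
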